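import Pool.Agent.P4.N52

/-! # Numbers below `cosh d = 27 / 20` (row M2c)

The derivative of `g = 2 arcsin (tanh (d/2))` with respect to `A3` is at most `19/10` as soon as
`cos α ≥ 137/250`, so an inequality between `g` and `A3` follows from its value at the left end
`cosh d = 611 / 500`. -/

set_option autoImplicit false

namespace Pool.Agent.PEN

open Classical UpperHalfPlane

noncomputable section

/-! ### Derivatives -/

/-- `h = cos α`; the area `g` grows at most `19/10` times as fast as `A3` -/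
theorem g_sub52 {h0 h : ℝ} (hlo : 137 / 250 ≤ h0) (hle : h0 ≤ h) (h1 : h < 1) :
    2 * Real.arcsin √(2 * h - 1) - 2 * Real.arcsin √(2 * h0 - 1) ≤
      19 / 10 * ((Real.pi - 3 * Real.arccos h) - (Real.pi - 3 * Real.arccos h0)) := by
  set F : ℝ → ℝ := fun x => 19 / 10 * (Real.pi - 3 * Real.arccos x) -
    2 * Real.arcsin √(2 * x - 1) with hF
  have hd : ∀ x ∈ Set.Ioo h0 1, HasDerivAt F (19 / 10 * (0 - 3 * (-(1 / √(1 - x ^ 2)))) -
      2 * (1 / √(1 - √(2 * x - 1) ^ 2) * (1 / (2 * √(2 * x - 1)) * (2 * 1)))) x := by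
    intro x hx
    have hx0 : (137 : ℝ) / 250 < x := lt_of_le_of_lt hlo hx.1
    have hs : 0 < 2 * x - 1 := by linarith
    have hs1 : √(2 * x - 1) < 1 := by
      rw [Real.sqrt_lt' one_pos]
      linarith [hx.2]
    have hs0 : 0 < √(2 * x - 1) := Real.sqrt_pos.2 hs
    have a1 : HasDerivAt Real.arccos (-(1 / √(1 - x ^ 2))) x :=
      Real.hasDerivAt_arccos (by linarith) (by linarith [hx.2])
    have a2 : HasDerivAt (fun y : ℝ => 2 * y - 1) (2 * 1) x :=
      ((hasDerivAt_id x).const_mul 2).sub_const 1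
    have a3 : HasDerivAt Real.sqrt (1 / (2 * √(2 * x - 1))) (2 * x - 1) :=
      Real.hasDerivAt_sqrt hs.ne'
    have a4 : HasDerivAt (fun y : ℝ => √(2 * y - 1)) (1 / (2 * √(2 * x - 1)) * (2 * 1)) x :=
      a3.comp x a2
    have a5 : HasDerivAt Real.arcsin (1 / √(1 - √(2 * x - 1) ^ 2))
        ((fun y : ℝ => √(2 * y - 1)) x) :=
      Real.hasDerivAt_arcsin (by linarith) (by linarith)
    have a6 : HasDerivAt (Real.arcsin ∘ fun y : ℝ => √(2 * y - 1))
        (1 / √(1 - √(2 * x - 1) ^ 2) * (1 / (2 * √(2 * x - 1)) * (2 * 1))) x :=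
      HasDerivAt.comp x a5 a4
    exact (((hasDerivAt_const x Real.pi).sub (a1.const_mul 3)).const_mul (19 / 10)).sub
      (a6.const_mul 2)
  have hmono : MonotoneOn F (Set.Ico h0 1) := by
    apply monotoneOn_of_deriv_nonneg (convex_Ico h0 1)
    · apply Continuous.continuousOn
      rw [hF]
      have c1 := Real.continuous_arccos
      have c2 := Real.continuous_arcsin
      fun_prop
    · rw [interior_Ico]
      intro x hx
      exact (hd x hx).differentiableAt.differentiableWithinAt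
    · rw [interior_Ico]
      intro x hx
      rw [(hd x hx).deriv]
      have hx0 : (137 : ℝ) / 250 < x := lt_of_le_of_lt hlo hx.1
      have hx1 : x < 1 := hx.2
      have hs : 0 < 2 * x - 1 := by linarith
      rw [Real.sq_sqrt hs.le]
      have e1 : 1 - (2 * x - 1) = 2 * (1 - x) := by ring
      have e2 : 1 - x ^ 2 = (1 - x) * (1 + x) := by ring
      have p1 : 0 < 1 - x := by linarith
      rw [e1, e2, Real.sqrt_mul p1.le, Real.sqrt_mul (by norm_num : (0 : ℝ) ≤ 2)]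
      have q1 : 0 < √(1 - x) := Real.sqrt_pos.2 p1
      have q2 : 0 < √(1 + x) := Real.sqrt_pos.2 (by linarith)
      have q3 : 0 < √(2 * x - 1) := Real.sqrt_pos.2 hs
      have q4 : 0 < √(2 : ℝ) := Real.sqrt_pos.2 (by norm_num)
      have key : 2 * √(1 + x) ≤ 57 / 10 * (√2 * √(2 * x - 1)) := by
        refine (abs_le_of_sq_le_sq' ?_ (by positivity)).2
        rw [mul_pow, mul_pow, mul_pow, Real.sq_sqrt (by linarith), Real.sq_sqrt (by norm_num),
          Real.sq_sqrt hs.le]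
        linarith
      have e3 : 19 / 10 * (0 - 3 * (-(1 / (√(1 - x) * √(1 + x))))) -
          2 * (1 / (√2 * √(1 - x)) * (1 / (2 * √(2 * x - 1)) * (2 * 1))) =
          (57 / 10 * (√2 * √(2 * x - 1)) - 2 * √(1 + x)) /
            (√(1 - x) * √(1 + x) * √2 * √(2 * x - 1)) := by
        generalize √(1 - x) = u1 at q1 ⊢
        generalize √(1 + x) = u2 at q2 ⊢
        generalize √(2 : ℝ) = u3 at q4 ⊢
        generalize √(2 * x - 1) = u4 at q3 ⊢
        field_simp
        ring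
      rw [e3]
      exact div_nonneg (by linarith) (by positivity)
  have := hmono ⟨le_refl _, lt_of_le_of_lt hle h1⟩ ⟨hle, h1⟩ hle
  rw [hF] at this
  simp only at this
  linarith

/-- `arcsin (q t)` grows at most as fast as `arcsin t` -/
theorem x_sub52 {q t0 t1 : ℝ} (hq0 : 0 ≤ q) (hq1 : q ≤ 1) (h0 : 0 ≤ t0) (h01 : t0 ≤ t1)
    (h1 : t1 ≤ 1) : Real.arcsin (q * t1) - Real.arcsin (q * t0) ≤
      Real.arcsin t1 - Real.arcsin t0 := by
  set F : ℝ → ℝ := fun x => Real.arcsin x - Real.arcsin (q * x) with hF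
  have hd : ∀ x ∈ Set.Ioo (0 : ℝ) 1, HasDerivAt F (1 / √(1 - x ^ 2) -
      1 / √(1 - (q * x) ^ 2) * (q * 1)) x := by
    intro x hx
    have hqx : q * x < 1 := by nlinarith [hx.1, hx.2]
    have hqx0 : 0 ≤ q * x := mul_nonneg hq0 hx.1.le
    have a1 : HasDerivAt Real.arcsin (1 / √(1 - x ^ 2)) x :=
      Real.hasDerivAt_arcsin (by linarith [hx.1]) (by linarith [hx.2])
    have a2 : HasDerivAt (fun y : ℝ => q * y) (q * 1) x := (hasDerivAt_id x).const_mul q
    have a5 : HasDerivAt Real.arcsin (1 / √(1 - (q * x) ^ 2)) ((fun y : ℝ => q * y) x) :=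
      Real.hasDerivAt_arcsin (by linarith) (by linarith)
    have a6 : HasDerivAt (Real.arcsin ∘ fun y : ℝ => q * y)
        (1 / √(1 - (q * x) ^ 2) * (q * 1)) x := HasDerivAt.comp x a5 a2
    exact a1.sub a6
  have hmono : MonotoneOn F (Set.Icc 0 1) := by
    apply monotoneOn_of_deriv_nonneg (convex_Icc 0 1)
    · apply Continuous.continuousOn
      rw [hF]
      have c2 := Real.continuous_arcsin
      fun_prop
    · rw [interior_Icc]
      intro x hx
      exact (hd x hx).differentiableAt.differentiableWithinAt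
    · rw [interior_Icc]
      intro x hx
      rw [(hd x hx).deriv]
      have hqx : q * x ≤ x := by nlinarith [hx.1, hx.2]
      have hqx0 : 0 ≤ q * x := mul_nonneg hq0 hx.1.le
      have p1 : 0 < 1 - x ^ 2 := by nlinarith [hx.1, hx.2]
      have p2 : 1 - x ^ 2 ≤ 1 - (q * x) ^ 2 := by nlinarith
      have q1 : 0 < √(1 - x ^ 2) := Real.sqrt_pos.2 p1
      have q2 : √(1 - x ^ 2) ≤ √(1 - (q * x) ^ 2) := Real.sqrt_le_sqrt p2
      have e : 1 / √(1 - (q * x) ^ 2) ≤ 1 / √(1 - x ^ 2) :=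
        one_div_le_one_div_of_le q1 q2
      have e2 : 0 ≤ 1 / √(1 - (q * x) ^ 2) := by positivity
      nlinarith
  have := hmono ⟨h0, h01.trans h1⟩ ⟨h0.trans h01, h1⟩ h01
  rw [hF] at this
  simp only at this
  linarith

/-! ### The left end `h = 611 / 1111` -/

/-- `A3` at the left end -/
def A52 : ℝ := Real.pi - 3 * Real.arccos (611 / 1111)

theorem A52_ge : 1761 / 10000 ≤ A52 := by
  have hpi := Real.pi_gt_d4
  have hpi' := Real.pi_lt_d4
  have hs3 : √(3 : ℝ) ≤ 17320509 / 10000000 := by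
    rw [Real.sqrt_le_left (by norm_num)]
    norm_num
  have h1 : Real.cos (Real.pi / 3 - 587 / 10000) ≤ 611 / 1111 := by
    rw [Real.cos_sub, Real.cos_pi_div_three, Real.sin_pi_div_three]
    have c := Real.cos_bound (x := 587 / 10000) (by rw [abs_of_pos (by norm_num)]; norm_num)
    have s := Real.sin_bound (x := 587 / 10000) (by rw [abs_of_pos (by norm_num)]; norm_num)
    rw [abs_of_pos (show (0 : ℝ) < 587 / 10000 by norm_num)] at c s
    have c2 := (abs_le.1 c).2
    have s2 := (abs_le.1 s).2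
    have s3 : 0 ≤ Real.sin (587 / 10000) :=
      Real.sin_nonneg_of_nonneg_of_le_pi (by norm_num) (by linarith)
    have s4 : √3 / 2 * Real.sin (587 / 10000) ≤
        17320509 / 10000000 / 2 * Real.sin (587 / 10000) :=
      mul_le_mul_of_nonneg_right (by linarith) s3
    norm_num at c2 s2 s4 ⊢
    linarith
  have h2 : Real.arccos (611 / 1111) ≤ Real.pi / 3 - 587 / 10000 := by
    have h3 := Real.arccos_le_arccos h1
    rwa [Real.arccos_cos (by linarith) (by linarith)] at h3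
  unfold A52
  linarith

theorem g52_le : 2 * Real.arcsin √(2 * (611 / 1111) - 1) ≤ 6433 / 10000 := by
  have hpi := Real.pi_gt_d4
  have h1 : √(2 * (611 / 1111) - 1) ≤ Real.sin (6433 / 20000) := by
    have h2 := Real.sin_gt_sub_cube (x := 6433 / 20000) (by norm_num)
    have h3 : √(2 * (611 / 1111 : ℝ) - 1) ≤ 6433 / 20000 - (6433 / 20000) ^ 3 / 6 := by
      rw [Real.sqrt_le_left (by norm_num)]
      norm_num
    linarith
  have h4 := Real.arcsin_le_arcsin h1
  rw [Real.arcsin_sin (by linarith) (by linarith)] at h4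
  linarith

/-! ### The statements for `d` -/

private lemma s1_52' {d : ℝ} (hd : 0 < d) :
    Real.tanh (d / 2) * Real.tanh (d / 2) = 2 * Real.cos (alpha d) - 1 := by
  have hK : 0 < Real.cosh (d / 2) := Real.cosh_pos _
  have hc : Real.cosh d = Real.cosh (d / 2) ^ 2 + Real.sinh (d / 2) ^ 2 := by
    rw [← Real.cosh_two_mul]; ring_nf
  have hs := Real.cosh_sq (d / 2)
  have hs' : Real.sinh (d / 2) ^ 2 = Real.cosh (d / 2) ^ 2 - 1 := by linarith
  have h2 : Real.cosh (d / 2) ^ 2 + (Real.cosh (d / 2) ^ 2 - 1) + 1 ≠ 0 := by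
    have : 0 < Real.cosh (d / 2) ^ 2 := by positivity
    intro h
    linarith
  rw [cos_alpha hd, Real.tanh_eq_sinh_div_cosh, div_mul_div_comm, ← sq, ← sq, hc, hs']
  field_simp
  ring

theorem tanh_eq52 {d : ℝ} (hd : 0 < d) :
    Real.tanh (d / 2) = √(2 * Real.cos (alpha d) - 1) := by
  have h1 := s1_52' hd
  rw [← h1, Real.sqrt_mul_self]
  exact tanh_nonneg11 (by linarith)

theorem h_ge52 {d : ℝ} (hd : 0 < d) (h1 : 611 / 500 ≤ Real.cosh d) :
    611 / 1111 ≤ Real.cos (alpha d) ∧ Real.cos (alpha d) < 1 := by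
  have hc := Real.cosh_pos d
  rw [cos_alpha hd]
  constructor
  · rw [div_le_div_iff₀ (by norm_num) (by linarith)]
    linarith
  · rw [div_lt_one (by linarith)]
    linarith

theorem A3_eq52 (d : ℝ) :
    A3 (alpha d) = Real.pi - 3 * Real.arccos (Real.cos (alpha d)) := by
  rw [Real.arccos_cos (alpha_nonneg39 d) (alpha_le_pi39 d)]
  rfl

/-- `g(d) - g(d0) ≤ 19/10 (A3(d) - A3(d0))`, `cosh d0 = 611/500` -/
theorem g_sub_d52 {d : ℝ} (hd : 0 < d) (h1 : 611 / 500 ≤ Real.cosh d) :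
    2 * Real.arcsin (Real.tanh (d / 2)) - 2 * Real.arcsin √(2 * (611 / 1111) - 1) ≤
      19 / 10 * (A3 (alpha d) - A52) := by
  obtain ⟨h2, h3⟩ := h_ge52 hd h1
  rw [tanh_eq52 hd, A3_eq52 d]
  exact g_sub52 (by norm_num) h2 h3

theorem A3_mono52 {d : ℝ} (hd : 0 < d) (h1 : 611 / 500 ≤ Real.cosh d) : A52 ≤ A3 (alpha d) := by
  obtain ⟨h2, h3⟩ := h_ge52 hd h1
  rw [A3_eq52 d]
  have := Real.arccos_le_arccos h2
  unfold A52
  linarith

theorem A3_ge52 {d : ℝ} (hd : 0 < d) (h1 : 611 / 500 ≤ Real.cosh d) :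
    1761 / 10000 ≤ A3 (alpha d) := A52_ge.trans (A3_mono52 hd h1)

theorem g_lin52 {d : ℝ} (hd : 0 < d) (h1 : 611 / 500 ≤ Real.cosh d) :
    2 * Real.arcsin (Real.tanh (d / 2)) ≤
      6433 / 10000 + 19 / 10 * (A3 (alpha d) - 1761 / 10000) := by
  have := g_sub_d52 hd h1
  have := A52_ge
  have := g52_le
  linarith

/-- `X_q(d) - X_q(d0) ≤ 19/10 (A3(d) - A3(d0))`, `X_q = 2 arcsin (q tanh (d/2))` -/
theorem x_sub_d52 {q d : ℝ} (hq0 : 0 ≤ q) (hq1 : q ≤ 1) (hd : 0 < d)
    (h1 : 611 / 500 ≤ Real.cosh d) :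
    2 * Real.arcsin (q * Real.tanh (d / 2)) - 2 * Real.arcsin (q * √(2 * (611 / 1111) - 1)) ≤
      19 / 10 * (A3 (alpha d) - A52) := by
  obtain ⟨h2, h3⟩ := h_ge52 hd h1
  have h4 := g_sub_d52 hd h1
  have h5 : √(2 * (611 / 1111) - 1) ≤ Real.tanh (d / 2) := by
    rw [tanh_eq52 hd]
    exact Real.sqrt_le_sqrt (by linarith)
  have h6 := x_sub52 hq0 hq1 (Real.sqrt_nonneg _) h5 (Real.tanh_lt_one _).le
  linarith

/-! ### Row M2c -/

private lemma arcsin_ge52 {z q : ℝ} (h0 : 0 < z) (h1 : z ≤ 1)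
    (h : 1 - z ^ 2 / 2 + z ^ 4 * (5 / 96) ≤ q) : Real.pi / 2 - z ≤ Real.arcsin q := by
  have hpi := Real.pi_gt_d4
  have c := Real.cos_bound (x := z) (by rw [abs_of_pos h0]; exact h1)
  rw [abs_of_pos h0] at c
  have c2 := (abs_le.1 c).2
  have h2 : Real.sin (Real.pi / 2 - z) ≤ q := by
    rw [Real.sin_pi_div_two_sub]
    linarith
  have h3 := Real.arcsin_le_arcsin h2
  rwa [Real.arcsin_sin (by linarith) (by linarith)] at h3

private lemma A3_le52 {d : ℝ} (hd : 0 < d) (h2 : Real.cosh d ≤ 27 / 20) :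
    A3 (alpha d) ≤ 3 / 10 := by
  have hpi := Real.pi_gt_d4
  have hpi' := Real.pi_lt_d4
  have hc := Real.cosh_pos d
  have hh : Real.cos (alpha d) ≤ 27 / 47 := by
    rw [cos_alpha hd, div_le_div_iff₀ (by linarith) (by norm_num)]
    linarith
  have hs3 : 17 / 10 ≤ √(3 : ℝ) := by
    rw [Real.le_sqrt (by norm_num) (by norm_num)]
    norm_num
  have h1 : 27 / 47 ≤ Real.cos (Real.pi / 3 - 1 / 10) := by
    rw [Real.cos_sub, Real.cos_pi_div_three, Real.sin_pi_div_three]
    have c := Real.one_sub_sq_div_two_le_cos (x := 1 / 10)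
    have s := Real.sin_gt_sub_cube (x := 1 / 10) (by norm_num)
    have s4 : 17 / 10 / 2 * (1 / 10 - (1 / 10) ^ 3 / 6) ≤ √3 / 2 * Real.sin (1 / 10) :=
      mul_le_mul (by linarith) s.le (by norm_num) (by positivity)
    norm_num at c s4 ⊢
    linarith
  have h3 : Real.pi / 3 - 1 / 10 ≤ alpha d := by
    have h4 := Real.arccos_le_arccos (hh.trans h1)
    rwa [Real.arccos_cos (by linarith) (by linarith),
      Real.arccos_cos (alpha_nonneg39 d) (alpha_le_pi39 d)] at h4
  unfold A3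
  linarith

/-- M2c -/
theorem num_g {d : ℝ} (hd : 0 < d) (h1 : 611 / 500 ≤ Real.cosh d) (h2 : Real.cosh d ≤ 27 / 20)
    {g : ℝ} (hg : g = 2 * Real.arcsin (Real.tanh (d / 2))) :
    9 * g - 15 * A3 (alpha d) < 4 * Real.arcsin (9 / 11) ∧
    14 * g - 30 * A3 (alpha d) < 4 * Real.arcsin (9 / 11) ∧
    15 * g - 167 / 5 * A3 (alpha d) < 4 * Real.arcsin (5 / 6) ∧
    18 * g - 218 / 5 * A3 (alpha d) < 4 * Real.arcsin (5 / 6) ∧
    19 * g - 47 * A3 (alpha d) < 4 * Real.arcsin (13 / 15) ∧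
    24 * g - 64 * A3 (alpha d) < 4 * Real.arcsin (13 / 15) ∧
    25 * g - 473 / 7 * A3 (alpha d) < 4 * Real.arcsin (23 / 26) ∧
    34 * g - 698 / 7 * A3 (alpha d) < 4 * Real.arcsin (23 / 26) ∧
    35 * g - 723 / 7 * A3 (alpha d) < 4 * Real.arcsin (9 / 10) ∧
    42 * g - 898 / 7 * A3 (alpha d) < 4 * Real.arcsin (9 / 10) := by
  have hg1 := g_lin52 hd h1
  have hA := A3_ge52 hd h1
  have hA' := A3_le52 hd h2
  have hpi := Real.pi_gt_d6
  rw [← hg] at hg1
  have b1 := arcsin_ge52 (z := 77 / 125) (q := 9 / 11) (by norm_num) (by norm_num) (by norm_num)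
  have b2 := arcsin_ge52 (z := 589 / 1000) (q := 5 / 6) (by norm_num) (by norm_num) (by norm_num)
  have b3 := arcsin_ge52 (z := 21 / 40) (q := 13 / 15) (by norm_num) (by norm_num) (by norm_num)
  have b4 := arcsin_ge52 (z := 487 / 1000) (q := 23 / 26) (by norm_num) (by norm_num)
    (by norm_num)
  have b5 := arcsin_ge52 (z := 181 / 400) (q := 9 / 10) (by norm_num) (by norm_num) (by norm_num)
  refine ⟨?_, ?_, ?_, ?_, ?_, ?_, ?_, ?_, ?_, ?_⟩ <;> linarith

end

end Pool.Agent.PEN
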