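import Pool.Agent.P4.Defs3

/-! # PENNY 2, version 3: the step of the lower bound -/

set_option autoImplicit false

namespace Pool.Agent.PEN

noncomputable section

theorem Lb_step (n : ℕ) (hn : 9 ≤ n) : Lb n + 2 ≤ Lb (n + 1) := by
  unfold Lb
  by_cases h1 : n = 29
  · subst h1
    decide
  by_cases h2 : n = 28
  · subst h2
    decide
  have h3 : ¬ (n + 1 = 29) := by omega
  rw [if_neg h1, if_neg h3]
  by_cases h4 : 93 ≤ n
  · have h5 : 93 ≤ n + 1 := by omega
    rw [if_pos h4, if_pos h5]
    omega
  · rw [if_neg h4]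
    by_cases h5 : 93 ≤ n + 1
    · rw [if_pos h5]
      omega
    · rw [if_neg h5]
      omega

end

end Pool.Agent.PEN
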