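import Pool.Agent.P4.S2_85

/-! # P4, row L: the ball of radius 2 (29 points, 63 edges), and finite patches -/

set_option autoImplicit false

namespace Pool.Agent.PEN

open Classical UpperHalfPlane

noncomputable section

/-- the edges of a finite patch -/
theorem patch85 {T : ℕ} (R : Rep85 (Fin T)) {d : ℝ} (hd : 0 < d)
    (ha : alpha d = 2 * Real.pi / 7) (A : Finset (Fin T × ℕ))
    (B : Finset ((Fin T × Fin T × ℕ) × ℕ))
    (h0 : ∀ e ∈ B, e.1.2.2 = 0 → e.1.1 < e.1.2.1)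
    (hE : ∀ e ∈ B, T85 (R.v e.1.1) (gl85^[e.1.2.2] (R.v e.1.2.1)) = (0, 1, 0))
    (hA : ∀ e ∈ B, (e.1.1, e.2) ∈ A ∧ (e.1.2.1, e.2 + e.1.2.2) ∈ A) :
    ∃ P : Finset ℍ, P.card = A.card ∧ Sep d P ∧ 2 * B.card ≤ cd d P := by
  have hinj := R.pt_inj hd ha
  refine ⟨A.image R.pt, Finset.card_image_of_injective _ hinj, ?_, ?_⟩
  · intro x hx y hy hxy
    obtain ⟨a, -, rfl⟩ := Finset.mem_image.1 hx
    obtain ⟨b, -, rfl⟩ := Finset.mem_image.1 hy
    refine R.sep hd ha ?_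
    rintro rfl
    exact hxy rfl
  · set g1 : (Fin T × Fin T × ℕ) × ℕ → ℍ × ℍ := fun x =>
      (R.pt (x.1.1, x.2), R.pt (x.1.2.1, x.2 + x.1.2.2)) with hg1
    set g2 : (Fin T × Fin T × ℕ) × ℕ → ℍ × ℍ := fun x =>
      (R.pt (x.1.2.1, x.2 + x.1.2.2), R.pt (x.1.1, x.2)) with hg2
    have i1 : Function.Injective g1 := by
      rintro ⟨⟨t, u, k⟩, p⟩ ⟨⟨t', u', k'⟩, p'⟩ h
      rw [hg1] at h
      simp only [Prod.mk.injEq] at h
      have h1 := hinj h.1
      have h2 := hinj h.2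
      simp only [Prod.mk.injEq] at h1 h2
      obtain ⟨rfl, rfl⟩ := h1
      obtain ⟨rfl, h3⟩ := h2
      have h4 : k = k' := by omega
      subst h4
      rfl
    have i2 : Function.Injective g2 := by
      rintro ⟨⟨t, u, k⟩, p⟩ ⟨⟨t', u', k'⟩, p'⟩ h
      rw [hg2] at h
      simp only [Prod.mk.injEq] at h
      have h1 := hinj h.2
      have h2 := hinj h.1
      simp only [Prod.mk.injEq] at h1 h2
      obtain ⟨rfl, rfl⟩ := h1
      obtain ⟨rfl, h3⟩ := h2
      have h4 : k = k' := by omega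
      subst h4
      rfl
    have hdis : Disjoint (B.image g1) (B.image g2) := by
      rw [Finset.disjoint_left]
      rintro z hz1 hz2
      obtain ⟨⟨⟨t, u, k⟩, p⟩, ha1, rfl⟩ := Finset.mem_image.1 hz1
      obtain ⟨⟨⟨t', u', k'⟩, p'⟩, ha2, h⟩ := Finset.mem_image.1 hz2
      rw [hg1, hg2] at h
      simp only [Prod.mk.injEq] at h
      have h1 := hinj h.1
      have h2 := hinj h.2
      simp only [Prod.mk.injEq] at h1 h2
      have hk : k = 0 := by omega
      have hk' : k' = 0 := by omega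
      have e1 := h0 _ ha1 hk
      have e2 := h0 _ ha2 hk'
      simp only at e1 e2
      rw [h1.1, h2.1] at e2
      exact absurd e1 (not_lt.2 e2.le)
    have hcard : (B.image g1 ∪ B.image g2).card = 2 * B.card := by
      rw [Finset.card_union_of_disjoint hdis, Finset.card_image_of_injective _ i1,
        Finset.card_image_of_injective _ i2]
      ring
    rw [← hcard]
    unfold cd
    apply Finset.card_le_card
    intro z hz
    rw [Finset.mem_filter, Finset.mem_product]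
    rcases Finset.mem_union.1 hz with h | h
    · obtain ⟨x, hx, rfl⟩ := Finset.mem_image.1 h
      exact ⟨⟨Finset.mem_image_of_mem _ (hA x hx).1, Finset.mem_image_of_mem _ (hA x hx).2⟩,
        R.con hd ha (hE _ hx) _⟩
    · obtain ⟨x, hx, rfl⟩ := Finset.mem_image.1 h
      exact ⟨⟨Finset.mem_image_of_mem _ (hA x hx).2, Finset.mem_image_of_mem _ (hA x hx).1⟩,
        by rw [dist_comm]; exact R.con hd ha (hE _ hx) _⟩

/-- the ball of radius 2 -/
def A29_85 : Finset (Fin 8 × ℕ) := {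
  (0, 0), (0, 1), (0, 2), (0, 3), (0, 4), (0, 5), (0, 6), (0, 7), (0, 8), (1, 2), (1, 3), (1, 4),
  (1, 5), (1, 6), (1, 7), (1, 8), (2, 3), (2, 4), (2, 5), (2, 6), (2, 7), (3, 6), (3, 8), (4, 6),
  (4, 8), (5, 5), (5, 7), (6, 7), (7, 7)}

/-- its edges -/
def B29_85 : Finset ((Fin 8 × Fin 8 × ℕ) × ℕ) :=
  (ELs2_85 ×ˢ Finset.range 10).filter
    (fun e => (e.1.1, e.2) ∈ A29_85 ∧ (e.1.2.1, e.2 + e.1.2.2) ∈ A29_85)

theorem cardA29_85 : A29_85.card = 29 := by decide +kernel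

theorem cardB29_85 : B29_85.card = 63 := by decide +kernel

/-- L29: the ball of radius 2: 29 points, 63 edges -/
theorem ball29 {d : ℝ} (hd : 0 < d) (ha : alpha d = 2 * Real.pi / 7) :
    ∃ P : Finset ℍ, P.card = 29 ∧ Sep d P ∧ 126 ≤ cd d P := by
  obtain ⟨P, h1, h2, h3⟩ := patch85 Rs2_85 hd ha A29_85 B29_85
    (fun e he => (by decide +kernel : ∀ e ∈ ELs2_85, e.2.2 = 0 → e.1 < e.2.1) e.1
      (Finset.mem_product.1 (Finset.mem_filter.1 he).1).1)
    (fun e he => (by decide +kernel : ∀ e ∈ ELs2_85,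
      T85 (vs2_85 e.1) (gl85^[e.2.2] (vs2_85 e.2.1)) = (0, 1, 0)) e.1
      (Finset.mem_product.1 (Finset.mem_filter.1 he).1).1)
    (fun e he => (Finset.mem_filter.1 he).2)
  rw [cardA29_85] at h1
  rw [cardB29_85] at h3
  exact ⟨P, h1, h2, h3⟩

end

end Pool.Agent.PEN
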