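import Pool.Agent.P4.Int85

/-! # P4, row L: the third layer strip -/

set_option autoImplicit false

namespace Pool.Agent.PEN

open Classical UpperHalfPlane

noncomputable section

/-- the types -/
def vs3_85 : Fin 21 → W85 := ![
  ((1, 0, 0), (0, 0, 0), (0, 0, 0)),
  ((1, 2, 0), (1, 0, -1), (1, 0, -1)),
  ((1, 1, 0), (0, 2, 1), (0, -1, -1)),
  ((3, 7, 3), (1, 0, 0), (-1, -3, -1)),
  ((4, 10, 5), (0, 1, 1), (-1, -5, -2)),
  ((2, 5, 2), (1, 5, 2), (-2, -4, -2)),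
  ((4, 11, 5), (4, 8, 3), (-3, -9, -4)),
  ((2, 9, 5), (2, 7, 4), (-3, -8, -3)),
  ((14, 42, 19), (8, 23, 10), (-11, -29, -13)),
  ((12, 31, 14), (7, 18, 8), (-8, -23, -10)),
  ((16, 44, 19), (8, 25, 11), (-11, -31, -14)),
  ((22, 64, 28), (12, 33, 14), (-15, -43, -20)),
  ((34, 92, 40), (17, 46, 20), (-22, -62, -28)),
  ((33, 92, 41), (16, 47, 21), (-22, -63, -28)),
  ((26, 71, 31), (13, 38, 17), (-18, -49, -22)),
  ((29, 80, 36), (15, 42, 19), (-19, -56, -25)),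
  ((27, 78, 35), (7, 22, 10), (-15, -42, -19)),
  ((26, 73, 32), (8, 20, 8), (-13, -39, -18)),
  ((9, 24, 11), (6, 15, 7), (-6, -19, -8)),
  ((15, 42, 19), (3, 10, 5), (-7, -22, -10)),
  ((18, 53, 24), (5, 13, 6), (-10, -28, -12))]

/-- the left ends -/
def los3_85 : Fin 21 → ℕ := ![0, 2, 3, 6, 6, 5, 7, 7, 9, 9, 9, 11, 11, 11, 11, 11, 10, 10, 9, 10, 10]

/-- the right ends -/
def cs3_85 : Fin 21 → ℕ := ![13, 13, 12, 13, 13, 12, 12, 12, 12, 12, 12, 12, 12, 12, 12, 12, 13, 13, 12, 13, 13]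

/-- the 50 classes of edges -/
def ELs3_85 : Finset (Fin 21 × Fin 21 × ℕ) := {
  (0, 1, 0), (3, 4, 0), (5, 7, 0), (6, 7, 0), (8, 10, 0), (8, 14, 0), (9, 10, 0), (11, 13, 0),
  (11, 15, 0), (12, 13, 0), (14, 15, 0), (16, 17, 0), (19, 20, 0), (0, 0, 1), (0, 2, 1),
  (1, 2, 1), (1, 5, 1), (2, 1, 1), (2, 3, 1), (3, 6, 1), (3, 18, 1), (4, 9, 1), (4, 18, 1),
  (5, 4, 1), (6, 19, 1), (9, 16, 1), (18, 17, 1), (18, 20, 1), (19, 12, 1), (0, 0, 2), (0, 1, 2),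
  (1, 3, 2), (1, 4, 2), (2, 5, 2), (2, 6, 2), (2, 7, 2), (3, 19, 2), (3, 20, 2), (4, 16, 2),
  (4, 17, 2), (5, 8, 2), (5, 9, 2), (5, 10, 2), (6, 11, 2), (6, 12, 2), (6, 13, 2), (7, 8, 2),
  (7, 11, 2), (7, 14, 2), (7, 15, 2)}

/-- the strip -/
def Rs3_85 : Rep85 (Fin 21) where
  v := vs3_85
  good := by decide +kernel
  inj := by
    have h : ∀ t u : Fin 21, vs3_85 t = vs3_85 u → t = u := by decide +kernel
    exact fun t u => h t u
  lo := fun t => Win85.lo ((by decide +kernel : ∀ t, Win85 (vs3_85 t)) t)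
  hi := fun t => Win85.hi ((by decide +kernel : ∀ t, Win85 (vs3_85 t)) t)

theorem card_ELs3_85 : ELs3_85.card = 50 := by decide +kernel

theorem nj_s3_85 : ∀ j : Fin 21, Nj85 los3_85 cs3_85 j = 93 + j := by decide +kernel

theorem ej_s3_85 : ∀ j : Fin 21,
    (50 * (93 + (j : ℕ)) - 135) / 21 ≤ Ej85 ELs3_85 los3_85 cs3_85 j := by decide +kernel

/-- L3: third layer strip (V = 93 + 21k, E = 215 + 50k) -/
theorem strip3_all {d : ℝ} (hd : 0 < d) (ha : alpha d = 2 * Real.pi / 7) (n : ℕ)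
    (hn : 93 ≤ n) :
    ∃ P : Finset ℍ, P.card = n ∧ Sep d P ∧ 2 * ((50 * n - 135) / 21) ≤ cd d P := by
  obtain ⟨m, rfl⟩ := Nat.exists_eq_add_of_le hn
  have hj : m % 21 < 21 := Nat.mod_lt _ (by norm_num)
  obtain ⟨P, h1, h2, h3⟩ := grow85 Rs3_85 hd ha ELs3_85 (by decide +kernel)
    (by
      have h : ∀ e ∈ ELs3_85, T85 (vs3_85 e.1) (gl85^[e.2.2] (vs3_85 e.2.1)) = (0, 1, 0) := by
        decide +kernel
      exact h)
    los3_85 cs3_85 (by decide +kernel) (by decide +kernel) (m % 21) (m / 21)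
  have e1 := nj_s3_85 ⟨m % 21, hj⟩
  have e2 := ej_s3_85 ⟨m % 21, hj⟩
  simp only at e1 e2
  have e3 := Nat.div_add_mod m 21
  refine ⟨P, by omega, h2, le_trans ?_ h3⟩
  rw [card_ELs3_85]
  apply Nat.mul_le_mul_left
  omega

/-- L3: third layer strip (V = 93 + 21k, E = 215 + 50k) -/
theorem strip3 {d : ℝ} (hd : 0 < d) (ha : alpha d = 2 * Real.pi / 7) (n : ℕ) (hn : 93 ≤ n) :
    ∃ P : Finset ℍ, P.card = n ∧ Sep d P ∧ 2 * ((50 * n - 135) / 21) ≤ cd d P :=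
  strip3_all hd ha n (by omega)

end

end Pool.Agent.PEN
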