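import Pool.Agent.P4.Lb11
import Pool.Agent.P4.B29_85
import Pool.Agent.P4.S3_85

/-! # P4, row L: lower bounds together -/

set_option autoImplicit false

namespace Pool.Agent.PEN

open Classical UpperHalfPlane

noncomputable section

/-- L: together -/
theorem strip_Lb {d : ℝ} (hd : 0 < d) (ha : alpha d = 2 * Real.pi / 7) (n : ℕ) (hn : 9 ≤ n) :
    ∃ P : Finset ℍ, P.card = n ∧ Sep d P ∧ 2 * Lb n ≤ cd d P :=
  strip_Lb_of11 hd ha (fun n hn => strip2 hd ha n hn) (ball29 hd ha)
    (fun n hn => strip3 hd ha n hn) n hn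

end

end Pool.Agent.PEN
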