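import Pool.Agent.P4.T66

/-! # Hyperbolic penny graphs, part 2: the charge of a rhombus and the count (rows T4, T5) -/

set_option autoImplicit false

namespace Pool.Agent.PEN

open Classical UpperHalfPlane

noncomputable section

section D
variable {V : Type} (G : Tg V) {al : ℝ} {kp : V → V → ℝ} {U : ℕ → ℝ}

theorem og_self66 {v a : V} (hc : G.con v a) : G.HasO v a ∧ G.og v a = a := by
  have hO : G.HasO v a := ⟨0, hc⟩
  refine ⟨hO, ?_⟩
  unfold Tg.og
  rw [dif_pos hO]
  have : Nat.find hO = 0 := by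
    rw [Nat.find_eq_zero]
    exact hc
  rw [this]
  rfl

theorem og_next66 {v b : V} (hc : ¬ G.con v b) (hc' : G.con v (G.bk v b)) :
    G.HasO v b ∧ G.og v b = G.bk v b := by
  have hO : G.HasO v b := ⟨1, hc'⟩
  refine ⟨hO, ?_⟩
  unfold Tg.og
  rw [dif_pos hO]
  have : Nat.find hO = 1 := by
    rw [Nat.find_eq_iff]
    refine ⟨hc', ?_⟩
    intro m hm
    have : m = 0 := by omega
    rw [this]
    exact hc
  rw [this]
  rfl

theorem Th_eq_one66 {v a : V} (hb : ¬ G.bd v) (ha : (v, a) ∈ G.Dp) (hc : G.con v a)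
    (hc' : G.con v (G.ap v a)) : G.Th v a = G.th v a := by
  unfold Tg.Th
  rw [if_neg hb]
  have h4 : G.D.filter (fun y => y.1 = v ∧ G.HasO v y.2 ∧ G.og v y.2 = a) = {(v, a)} := by
    ext y
    rw [Finset.mem_filter, Finset.mem_singleton]
    constructor
    · rintro ⟨hyD, hy1, hy2, hy3⟩
      have h5 : (v, y.2) ∈ G.D := by
        rw [← hy1]
        exact hyD
      rcases og_cases66 G hb h5 hy2 hy3 with h6 | h6
      · exact Prod.ext hy1 h6
      · exact absurd hc' h6.1
    · rintro rfl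
      exact ⟨G.sub ha, rfl, og_self66 G hc⟩
  rw [h4, Finset.sum_singleton]

theorem Th_eq_two66 {v a : V} (hb : ¬ G.bd v) (ha : (v, a) ∈ G.Dp) (hc : G.con v a)
    (hc' : ¬ G.con v (G.ap v a)) (ha' : (v, G.ap v a) ∈ G.Dp)
    (hc'' : G.con v (G.ap v (G.ap v a))) : G.Th v a = G.th v a + G.th v (G.ap v a) := by
  have hne : (v, a) ≠ (v, G.ap v a) := by
    intro h
    have h1 : a = G.ap v a := congrArg Prod.snd h
    exact G.ne _ _ (G.sub (G.ap1 _ _ ha)) h1
  have e : G.bk v (G.ap v a) = a := G.ap4 _ _ ha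
  unfold Tg.Th
  rw [if_neg hb]
  have h4 : G.D.filter (fun y => y.1 = v ∧ G.HasO v y.2 ∧ G.og v y.2 = a) =
      {(v, a), (v, G.ap v a)} := by
    ext y
    rw [Finset.mem_filter, Finset.mem_insert, Finset.mem_singleton]
    constructor
    · rintro ⟨hyD, hy1, hy2, hy3⟩
      have h5 : (v, y.2) ∈ G.D := by
        rw [← hy1]
        exact hyD
      rcases og_cases66 G hb h5 hy2 hy3 with h6 | h6
      · exact Or.inl (Prod.ext hy1 h6)
      · rcases h6.2 with h7 | h7
        · exact Or.inr (Prod.ext hy1 h7)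
        · exact absurd hc'' h7
    · rintro (rfl | rfl)
      · exact ⟨G.sub ha, rfl, og_self66 G hc⟩
      · have h8 := og_next66 G hc' (by rw [e]; exact hc)
        rw [e] at h8
        exact ⟨G.sub ha', rfl, h8⟩
  rw [h4, Finset.sum_pair hne]

/-- a sole big corner: the gap is `2π` minus a multiple of `al` -/
theorem sole66 (hG : G.Geo al kp U) {v a : V} (hD : (v, a) ∈ G.D) (hc : G.con v a)
    (h2 : ch G (v, a) = 2) : ¬ G.bd v ∧ ∃ s : ℕ, G.Th v a + s * al = 2 * Real.pi := by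
  unfold ch at h2
  dsimp only at h2
  split_ifs at h2 with h3 h4
  have hv := G.mem _ _ hD
  have hb : ¬ G.bd v := fun hb => h3 (bd_oJ G hG hv hb)
  refine ⟨hb, ?_⟩
  have hall : ∀ b, (v, b) ∈ G.D → G.con v b → G.inn (v, b) := by
    intro b h5 h6
    by_contra h7
    exact h3 ⟨b, (mem_oJ66 G).2 ⟨h5, h6, h7⟩⟩
  have h5 := gap_tot G hG hv hb
  have h6 : (v, a) ∈ G.D.filter (fun x => x.1 = v ∧ G.con x.1 x.2) := by
    rw [Finset.mem_filter]
    exact ⟨hD, rfl, hc⟩
  rw [← Finset.add_sum_erase _ _ h6] at h5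
  refine ⟨((G.D.filter (fun x => x.1 = v ∧ G.con x.1 x.2)).erase (v, a)).card, ?_⟩
  have h7 : ∑ x ∈ (G.D.filter (fun x => x.1 = v ∧ G.con x.1 x.2)).erase (v, a),
      G.Th x.1 x.2 = ∑ x ∈ (G.D.filter (fun x => x.1 = v ∧ G.con x.1 x.2)).erase (v, a),
        al := by
    refine Finset.sum_congr rfl ?_
    rintro ⟨y1, y2⟩ hy
    rw [Finset.mem_erase, Finset.mem_filter] at hy
    obtain ⟨h8, h9, h10, h11⟩ := hy
    simp only at h10 h11
    subst h10
    refine Th_small G hG (hall _ h9 h11) h11 ?_ hv hb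
    intro h12
    exact h8 (h4 _ h9 rfl h11 h12)
  rw [h7, Finset.sum_const, nsmul_eq_mul] at h5
  exact h5
  omega

theorem five66 (hG : G.Geo al kp U) {t : ℝ} {s : ℕ} (h : t + s * al = 2 * Real.pi)
    (h1 : al ≤ t) (h2 : t ≤ 2 * al) : t = 2 * Real.pi - 5 * al := by
  have a1 := hG.al1
  have a2 := hG.al2
  have hal : 0 < al := by
    have := Real.pi_pos
    linarith
  have h3 : (s : ℝ) < 6 := by
    by_contra h4
    rw [not_lt] at h4
    nlinarith
  have h4 : (4 : ℝ) < s := by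
    by_contra h4
    rw [not_lt] at h4
    nlinarith
  have h5 : s < 6 := by exact_mod_cast h3
  have h6 : 4 < s := by exact_mod_cast h4
  have h7 : s = 5 := by omega
  rw [h7] at h
  push_cast at h
  linarith

theorem ch_le_two66 (x : V × V) : ch G x ≤ 2 := by
  unfold ch
  split_ifs <;> norm_num

/-- two neighbouring corners of a rhombus have charge at most three -/
theorem pair66 (hG : G.Geo al kp U) {a b : V} (h : G.Rh a b) :
    ch G (G.ap a b, a) + ch G (a, G.ap b a) ≤ 3 := by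
  have hR := h
  obtain ⟨p1, q1, p3, c1, c2, c3, c4⟩ := h
  have l1 := ch_le_two66 G (G.ap a b, a)
  have l2 := ch_le_two66 G (a, G.ap b a)
  by_contra hlt
  have e1 : ch G (G.ap a b, a) = 2 := by omega
  have e2 : ch G (a, G.ap b a) = 2 := by omega
  have r2 : (G.ap a b, a) ∈ G.Dp := G.ap2 _ _ p1
  have s1 : (a, G.ap b a) ∈ G.Dp := G.ap1 _ _ q1
  obtain ⟨b1, n1, g1⟩ := sole66 G hG (G.sub r2) c2 e1
  obtain ⟨b2, n2, g2⟩ := sole66 G hG (G.sub s1) c3 e2
  have t1 : G.Th (G.ap a b) a = G.th (G.ap a b) a := by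
    refine Th_eq_one66 G b1 r2 c2 ?_
    rw [G.ap4 _ _ p1]
    exact G.csymm _ _ c1
  have ea : G.ap a (G.ap b a) = b := G.ap3 _ _ q1
  have t2 : G.Th a (G.ap b a) = G.th a (G.ap b a) + G.th a b := by
    have h1 := Th_eq_two66 G (v := a) (a := G.ap b a) b2 s1 c3 (by rw [ea]; exact p3)
      (by rw [ea]; exact p1) (by rw [ea]; exact G.csymm _ _ c2)
    rw [ea] at h1
    exact h1
  have k1 := hG.rh1 a b hR
  have k2 := hG.rh2 a b hR
  rw [t1] at g1
  rw [t2] at g2
  have v1 := five66 G hG g1 k1.1 k1.2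
  have v2 := five66 G hG g2 (by linarith) (by linarith)
  exact hG.nosq a b hR v1 (by linarith)

theorem cB_of_iC66 {C : G.adj.ConnectedComponent} (hC : C ∈ G.iC) : G.cB C = ∅ := by
  unfold Tg.iC at hC
  obtain ⟨x, hx, rfl⟩ := Finset.mem_image.1 hC
  unfold Tg.iD at hx
  rw [Finset.mem_filter] at hx
  exact hx.2.2

/-- the diagonal of a rhombus class -/
theorem Rh_of_class66 {C : G.adj.ConnectedComponent} (hB : G.cB C = ∅)
    (hI : (G.cI C).card = 2) {x : V × V} (hx : x ∈ G.cI C) : G.Rh x.1 x.2 := by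
  have hx' := swap_cD66 G hx
  have hx0 := hx
  have hx0' := hx'
  unfold Tg.cI at hx0 hx0'
  rw [Finset.mem_filter] at hx0 hx0'
  obtain ⟨p1, p2, p3, p4⟩ := hx0
  obtain ⟨q1, q2, q3, q4⟩ := hx0'
  have n1 := G.ne _ _ (G.sub p1)
  have hII : G.cI C = {x, (x.2, x.1)} := by
    symm
    apply Finset.eq_of_subset_of_card_le
    · intro y hy
      rw [Finset.mem_insert, Finset.mem_singleton] at hy
      rcases hy with rfl | rfl
      · exact hx
      · exact hx'
    · rw [hI, Finset.card_pair]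
      intro h
      exact n1 (congrArg Prod.fst h)
  have hcon : ∀ y ∈ G.cD C, y ≠ x → y ≠ (x.2, x.1) → G.con y.1 y.2 := by
    intro y hy h1 h2
    by_contra hc
    rw [mem_cD66] at hy
    by_cases hs : (y.2, y.1) ∈ G.Dp
    · have : y ∈ G.cI C := by
        unfold Tg.cI
        rw [Finset.mem_filter]
        exact ⟨hy.1, hy.2, hc, hs⟩
      rw [hII, Finset.mem_insert, Finset.mem_singleton] at this
      rcases this with h | h
      · exact h1 h
      · exact h2 h
    · have : y ∈ G.cB C := by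
        unfold Tg.cB
        rw [Finset.mem_filter]
        exact ⟨hy.1, hy.2, hc, hs⟩
      rw [hB] at this
      exact absurd this (Finset.notMem_empty _)
  have hxD : x ∈ G.cD C := (mem_cD66 G).2 ⟨p1, p2⟩
  have hxD' : (x.2, x.1) ∈ G.cD C := (mem_cD66 G).2 ⟨q1, q2⟩
  have n2 := G.ne _ _ (G.sub (G.ap1 _ _ p1))
  have n3 := G.ne _ _ (G.sub (G.ap2 _ _ p1))
  have n2' := G.ne _ _ (G.sub (G.ap1 _ _ q1))
  have n3' := G.ne _ _ (G.sub (G.ap2 _ _ q1))
  have c1 : G.con x.2 (G.ap x.1 x.2) := hcon _ (rot_cD66 G hxD)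
    (fun h => n1 (congrArg Prod.fst h).symm) (fun h => n3 (congrArg Prod.snd h))
  have c2 : G.con (G.ap x.1 x.2) x.1 := hcon _ (rot_cD66' G hxD)
    (fun h => n3 (congrArg Prod.fst h)) (fun h => n2 (congrArg Prod.fst h).symm)
  have c3 : G.con x.1 (G.ap x.2 x.1) := hcon _ (rot_cD66 G hxD')
    (fun h => n3' (congrArg Prod.snd h)) (fun h => n1 (congrArg Prod.fst h))
  have c4 : G.con (G.ap x.2 x.1) x.2 := hcon _ (rot_cD66' G hxD')
    (fun h => n2' (congrArg Prod.fst h).symm) (fun h => n3' (congrArg Prod.fst h))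
  exact ⟨p1, p4, p3, c1, c2, c3, c4⟩

/-- T4: the charge of a rhombus is at most 3 (doubled: 6) -/
theorem ch_rhombus (hG : G.Geo al kp U) {C : G.adj.ConnectedComponent} (hC : C ∈ G.iC)
    (hm : (G.cT C).card = 2) (hI : (G.cI C).card = 2) :
    ∑ x ∈ G.cJ C, ch G x ≤ 6 := by
  have hB := cB_of_iC66 G hC
  obtain ⟨x, hx⟩ : (G.cI C).Nonempty := by
    rw [← Finset.card_pos]
    omega
  have hx' := swap_cD66 G hx
  have R1 := Rh_of_class66 G hB hI hx
  have R2 := Rh_of_class66 G hB hI hx'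
  have hx0 := hx
  have hx0' := hx'
  unfold Tg.cI at hx0 hx0'
  rw [Finset.mem_filter] at hx0 hx0'
  obtain ⟨p1, p2, p3, p4⟩ := hx0
  obtain ⟨q1, q2, q3, q4⟩ := hx0'
  have hxD : x ∈ G.cD C := (mem_cD66 G).2 ⟨p1, p2⟩
  have hxD' : (x.2, x.1) ∈ G.cD C := (mem_cD66 G).2 ⟨q1, q2⟩
  have hT : G.cT C = {G.tri x, G.tri (x.2, x.1)} := by
    symm
    apply Finset.eq_of_subset_of_card_le
    · intro y hy
      rw [Finset.mem_insert, Finset.mem_singleton] at hy
      rcases hy with rfl | rfl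
      · exact mem_cT66 G hxD
      · exact mem_cT66 G hxD'
    · rw [hm, Finset.card_pair (tri_swap66 G p1 p4)]
  have hsub : G.cJ C ⊆ {(x.2, G.ap x.1 x.2), (G.ap x.1 x.2, x.1), (x.1, G.ap x.2 x.1),
      (G.ap x.2 x.1, x.2)} := by
    intro z hz
    have hzD := cJ_sub66 G C hz
    have hzp := ((mem_cD66 G).1 hzD).1
    unfold Tg.cJ at hz
    rw [Finset.mem_filter] at hz
    have hzc := hz.2.2
    have h2 := mem_cT66 G hzD
    rw [hT, Finset.mem_insert, Finset.mem_singleton] at h2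
    rw [Finset.mem_insert, Finset.mem_insert, Finset.mem_insert, Finset.mem_singleton]
    rcases h2 with h2 | h2
    · rcases (tri_eq_iff G p1 hzp).1 h2.symm with h3 | h3 | h3
      · rw [h3] at hzc
        exact absurd hzc p3
      · exact Or.inl h3
      · exact Or.inr (Or.inl h3)
    · rcases (tri_eq_iff G q1 hzp).1 h2.symm with h3 | h3 | h3
      · rw [h3] at hzc
        exact absurd hzc q3
      · exact Or.inr (Or.inr (Or.inl h3))
      · exact Or.inr (Or.inr (Or.inr h3))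
  have hins : ∀ (y : V × V) (s : Finset (V × V)),
      ∑ z ∈ insert y s, ch G z ≤ ch G y + ∑ z ∈ s, ch G z := by
    intro y s
    by_cases hy : y ∈ s
    · rw [Finset.insert_eq_of_mem hy]
      exact Nat.le_add_left _ _
    · rw [Finset.sum_insert hy]
  have P1 := pair66 G hG R1
  have P2 := pair66 G hG R2
  dsimp only at P1 P2
  have s1 := Finset.sum_le_sum_of_subset (f := ch G) hsub
  have s2 := hins (x.2, G.ap x.1 x.2) {(G.ap x.1 x.2, x.1), (x.1, G.ap x.2 x.1),
      (G.ap x.2 x.1, x.2)}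
  have s3 := hins (G.ap x.1 x.2, x.1) {(x.1, G.ap x.2 x.1), (G.ap x.2 x.1, x.2)}
  have s4 := hins (x.1, G.ap x.2 x.1) {(G.ap x.2 x.1, x.2)}
  rw [Finset.sum_singleton] at s4
  omega

/-- the sum over the inner darts of a vertex class by class -/
theorem cI_eq66 {C : G.adj.ConnectedComponent} (hC : C ∈ G.iC) :
    G.cI C = G.iI.filter (fun x => G.cl x = C) := by
  have hB := cB_of_iC66 G hC
  ext x
  unfold Tg.cI Tg.iI
  rw [Finset.mem_filter, Finset.mem_filter, Finset.mem_filter]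
  constructor
  · rintro ⟨h1, h2, h3, h4⟩
    have h5 : G.inn x := ⟨h1, by rw [h2]; exact hB⟩
    exact ⟨⟨h1, h5, h3⟩, h2⟩
  · rintro ⟨⟨h1, h2, h3⟩, h4⟩
    refine ⟨h1, h4, h3, ?_⟩
    by_contra h5
    have h6 : x ∈ G.cB C := by
      unfold Tg.cB
      rw [Finset.mem_filter]
      exact ⟨h1, h4, h3, h5⟩
    rw [hB] at h6
    exact absurd h6 (Finset.notMem_empty _)

theorem sum_cI66 : ∑ C ∈ G.iC, (G.cI C).card = G.iI.card := by
  have h1 : ∀ x ∈ G.iI, G.cl x ∈ G.iC := by
    intro x hx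
    unfold Tg.iI at hx
    rw [Finset.mem_filter] at hx
    unfold Tg.iC
    refine Finset.mem_image_of_mem _ ?_
    unfold Tg.iD
    rw [Finset.mem_filter]
    exact ⟨hx.1, hx.2.1⟩
  rw [Finset.card_eq_sum_card_fiberwise h1]
  refine Finset.sum_congr rfl fun C hC => ?_
  rw [cI_eq66 G hC]

/-- the charge of an inner class -/
theorem class_ch66 (hG : G.Geo al kp U) {C : G.adj.ConnectedComponent} (hC : C ∈ G.iC)
    (hne : (G.cI C).Nonempty) :
    ∑ x ∈ G.cJ C, ch G x + G.e2 C ≤ 3 * (G.cI C).card := by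
  have hB := cB_of_iC66 G hC
  have hsplit := card_split66 G C
  have hconn := conn G C
  have hpos := Finset.card_pos.2 hne
  have hBc : (G.cB C).card = 0 := by
    rw [hB]
    rfl
  have hzero : (G.cT C).card ≤ 1 → (G.cI C).card = 0 := by
    intro h
    rw [Finset.card_eq_zero, Finset.eq_empty_iff_forall_notMem]
    intro x hx
    have hx' := swap_cD66 G hx
    unfold Tg.cI at hx hx'
    rw [Finset.mem_filter] at hx hx'
    have h1 := mem_cT66 G ((mem_cD66 G).2 ⟨hx.1, hx.2.1⟩)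
    have h2 := mem_cT66 G ((mem_cD66 G).2 ⟨hx'.1, hx'.2.1⟩)
    exact tri_swap66 G hx.1 hx.2.2.2 (Finset.card_le_one.1 h _ h1 _ h2)
  have hm2 : 2 ≤ (G.cT C).card := by
    by_contra h
    have := hzero (by omega)
    omega
  by_cases hrh : (G.cT C).card = 2 ∧ (G.cI C).card = 2
  · have h1 := ch_rhombus G hG hC hrh.1 hrh.2
    unfold Tg.e2
    rw [hrh.1, hrh.2]
    omega
  · have h1 : ∑ x ∈ G.cJ C, ch G x ≤ 2 * (G.cJ C).card := by
      calc ∑ x ∈ G.cJ C, ch G x ≤ ∑ x ∈ G.cJ C, 2 :=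
            Finset.sum_le_sum fun x _ => ch_le_two66 G x
        _ = 2 * (G.cJ C).card := by simp [mul_comm]
    unfold Tg.e2
    omega

/-- T5 = (E2) -/
theorem E2_ineq (hG : G.Geo al kp U) :
    2 * G.P.card + G.E2 ≤ 2 * G.oJ.card + 3 * G.iI.card := by
  obtain ⟨N, hN⟩ : ∃ N, N = G.P.filter (fun v => ¬ ∃ a, (v, a) ∈ G.oJ) := ⟨_, rfl⟩
  obtain ⟨B, hB⟩ : ∃ B, B = G.iD.filter (fun x => G.con x.1 x.2 ∧ Big G x) := ⟨_, rfl⟩
  have h1 : 2 * N.card ≤ ∑ x ∈ B, ch G x := by
    have e1 : ∀ v ∈ N, 2 ≤ ∑ x ∈ B.filter (fun x => x.1 = v), ch G x := by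
      intro v hv
      rw [hN, Finset.mem_filter] at hv
      have h2 := ch_vertex G hG hv.1 hv.2
      have h3 : B.filter (fun x => x.1 = v) =
          G.iD.filter (fun x => x.1 = v ∧ G.con x.1 x.2 ∧ Big G x) := by
        rw [hB, Finset.filter_filter]
        refine Finset.filter_congr fun x _ => ?_
        tauto
      rw [h3]
      exact h2
    calc 2 * N.card = ∑ v ∈ N, 2 := by simp [mul_comm]
      _ ≤ ∑ v ∈ N, ∑ x ∈ B.filter (fun x => x.1 = v), ch G x := Finset.sum_le_sum e1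
      _ ≤ ∑ x ∈ B, ch G x :=
        Finset.sum_fiberwise_le_sum_of_sum_fiber_nonneg fun _ _ => Nat.zero_le _
  have h2 : (G.P \ N).card ≤ G.oJ.card := by
    calc (G.P \ N).card ≤ (G.oJ.image Prod.fst).card := by
          refine Finset.card_le_card fun v hv => ?_
          rw [Finset.mem_sdiff, hN, Finset.mem_filter, not_and, not_not] at hv
          obtain ⟨a, ha⟩ := hv.2 hv.1
          exact Finset.mem_image_of_mem Prod.fst ha
      _ ≤ G.oJ.card := Finset.card_image_le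
  have h3 : G.P.card ≤ (G.P \ N).card + N.card := Finset.card_le_card_sdiff_add_card
  have h4 : ∑ x ∈ B, ch G x + G.E2 ≤ 3 * G.iI.card := by
    have e1 : ∀ x ∈ B, G.cl x ∈ G.iC := by
      intro x hx
      rw [hB, Finset.mem_filter] at hx
      unfold Tg.iC
      exact Finset.mem_image_of_mem _ hx.1
    rw [← Finset.sum_fiberwise_of_maps_to e1]
    unfold Tg.E2
    rw [← sum_cI66 G, ← Finset.sum_add_distrib, Finset.mul_sum]
    refine Finset.sum_le_sum fun C hC => ?_
    by_cases hne : (G.cI C).Nonempty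
    · refine le_trans (Nat.add_le_add_right ?_ _) (class_ch66 G hG hC hne)
      refine Finset.sum_le_sum_of_subset fun x hx => ?_
      rw [Finset.mem_filter, hB, Finset.mem_filter] at hx
      obtain ⟨⟨h5, h6, h7⟩, h8⟩ := hx
      unfold Tg.iD at h5
      rw [Finset.mem_filter] at h5
      unfold Tg.cJ
      rw [Finset.mem_filter]
      exact ⟨h5.1, h8, h6⟩
    · have h5 : B.filter (fun x => G.cl x = C) = ∅ := by
        rw [Finset.eq_empty_iff_forall_notMem]
        intro x hx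
        rw [Finset.mem_filter, hB, Finset.mem_filter] at hx
        obtain ⟨⟨h5, h6, h7⟩, h8⟩ := hx
        unfold Big at h7
        rw [h8] at h7
        exact hne h7
      rw [Finset.not_nonempty_iff_eq_empty] at hne
      rw [h5, Finset.sum_empty]
      unfold Tg.e2
      rw [hne]
      simp
  omega

end D

end

end Pool.Agent.PEN
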