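import Pool.Agent.P4.Defs
import Pool.Agent.PEN.D66

/-! # Hyperbolic penny graphs, part 2: the area of an inner class (row Uc1) -/

set_option autoImplicit false

namespace Pool.Agent.PEN

open Classical UpperHalfPlane

noncomputable section

section D
variable {V : Type} (G : Tg V) {al : ℝ} {kp : V → V → ℝ} {U : ℕ → ℝ}

theorem ar_rot11 {x : V × V} (hx : x ∈ G.Dp) :
    G.ar x.2 (G.ap x.1 x.2) = G.ar x.1 x.2 := by
  unfold Tg.ar
  rw [G.ap3 _ _ hx]
  ring

theorem ar_rot11' {x : V × V} (hx : x ∈ G.Dp) :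
    G.ar (G.ap x.1 x.2) x.1 = G.ar x.1 x.2 := by
  unfold Tg.ar
  rw [G.ap4 _ _ hx]
  ring

theorem ar_tri11 {x y : V × V} (hx : x ∈ G.Dp) (hy : y ∈ G.Dp) (h : G.tri y = G.tri x) :
    G.ar y.1 y.2 = G.ar x.1 x.2 := by
  rcases (tri_eq_iff G hx hy).1 h.symm with h1 | h1 | h1
  · rw [h1]
  · rw [h1]
    exact ar_rot11 G hx
  · rw [h1]
    exact ar_rot11' G hx

theorem card_fiber11 {x : V × V} {C : G.adj.ConnectedComponent} (hx : x ∈ G.cD C) :
    ((G.cD C).filter (fun a => G.tri a = G.tri x)).card = 3 := by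
  have hxp := ((mem_cD66 G).1 hx).1
  have n1 := G.ne _ _ (G.sub hxp)
  have n2 := G.ne _ _ (G.sub (G.ap1 _ _ hxp))
  have n3 := G.ne _ _ (G.sub (G.ap2 _ _ hxp))
  have e : (G.cD C).filter (fun a => G.tri a = G.tri x) =
      {x, (x.2, G.ap x.1 x.2), (G.ap x.1 x.2, x.1)} := by
    ext y
    rw [Finset.mem_filter, Finset.mem_insert, Finset.mem_insert, Finset.mem_singleton]
    constructor
    · rintro ⟨h1, h2⟩
      exact (tri_eq_iff G hxp ((mem_cD66 G).1 h1).1).1 h2.symm
    · rintro (h | h | h)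
      · rw [h]
        exact ⟨hx, rfl⟩
      · rw [h]
        exact ⟨rot_cD66 G hx, tri_rot66 G hxp⟩
      · rw [h]
        exact ⟨rot_cD66' G hx, tri_rot66' G hxp⟩
  rw [e, Finset.card_insert_of_notMem, Finset.card_pair]
  · intro h
    exact n2 (congrArg Prod.fst h)
  · rw [Finset.mem_insert, Finset.mem_singleton, not_or]
    exact ⟨fun h => n1 (congrArg Prod.fst h), fun h => n3 (congrArg Prod.fst h).symm⟩

/-- the area of a class from one dart in each triangle -/
theorem sum_ar11 {C : G.adj.ConnectedComponent} (X : Finset (V × V)) (hX : X ⊆ G.cD C)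
    (hinj : ∀ x ∈ X, ∀ y ∈ X, G.tri x = G.tri y → x = y) (hc : (G.cT C).card ≤ X.card) :
    ∑ x ∈ G.cD C, G.ar x.1 x.2 / 3 = ∑ x ∈ X, G.ar x.1 x.2 := by
  have himg : X.image G.tri = G.cT C := by
    apply Finset.eq_of_subset_of_card_le
    · intro t ht
      obtain ⟨x, hx, rfl⟩ := Finset.mem_image.1 ht
      exact mem_cT66 G (hX hx)
    · rw [Finset.card_image_of_injOn]
      · exact hc
      · intro x hx y hy h
        exact hinj x hx y hy h
  have h1 : ∑ t ∈ G.cT C, ∑ x ∈ (G.cD C).filter (fun x => G.tri x = t), G.ar x.1 x.2 / 3 =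
      ∑ x ∈ G.cD C, G.ar x.1 x.2 / 3 :=
    Finset.sum_fiberwise_of_maps_to (fun x hx => mem_cT66 G hx) _
  rw [← h1, ← himg, Finset.sum_image hinj]
  apply Finset.sum_congr rfl
  intro y hy
  have hyD := hX hy
  have hyp := ((mem_cD66 G).1 hyD).1
  have h2 : ∀ x ∈ (G.cD C).filter (fun x => G.tri x = G.tri y),
      G.ar x.1 x.2 / 3 = G.ar y.1 y.2 / 3 := by
    intro x hx
    rw [Finset.mem_filter] at hx
    rw [ar_tri11 G hyp ((mem_cD66 G).1 hx.1).1 hx.2]
  rw [Finset.sum_congr rfl h2, Finset.sum_const, card_fiber11 G hyD]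
  simp only [nsmul_eq_mul]
  push_cast
  ring

/-- a non-contact dart of a class without hull sides is an inner non-contact dart -/
theorem mem_cI11 {C : G.adj.ConnectedComponent} (hB : G.cB C = ∅) {x : V × V}
    (hx : x ∈ G.cD C) (hc : ¬ G.con x.1 x.2) : x ∈ G.cI C := by
  rw [mem_cD66] at hx
  by_cases hs : (x.2, x.1) ∈ G.Dp
  · unfold Tg.cI
    rw [Finset.mem_filter]
    exact ⟨hx.1, hx.2, hc, hs⟩
  · have : x ∈ G.cB C := by
      unfold Tg.cB
      rw [Finset.mem_filter]
      exact ⟨hx.1, hx.2, hc, hs⟩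
    rw [hB] at this
    exact absurd this (Finset.notMem_empty _)

theorem cI_sub11 {C : G.adj.ConnectedComponent} {x : V × V} (hx : x ∈ G.cI C) :
    x ∈ G.cD C := by
  unfold Tg.cI at hx
  rw [Finset.mem_filter] at hx
  exact (mem_cD66 G).2 ⟨hx.1, hx.2.1⟩

theorem cI_swap11 {C : G.adj.ConnectedComponent} {x : V × V} (hx : x ∈ G.cI C) :
    (x.2, x.1) ∈ G.Dp := by
  unfold Tg.cI at hx
  rw [Finset.mem_filter] at hx
  exact hx.2.2.2

theorem cI_ncon11 {C : G.adj.ConnectedComponent} {x : V × V} (hx : x ∈ G.cI C) :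
    ¬ G.con x.1 x.2 := by
  unfold Tg.cI at hx
  rw [Finset.mem_filter] at hx
  exact hx.2.2.1

/-- connectivity: every triangle of a class with at least two triangles has an inner
non-contact dart -/
theorem exists_cI11 {C : G.adj.ConnectedComponent} {t : Finset V} (ht : t ∈ G.cT C)
    (hm : 2 ≤ (G.cT C).card) : ∃ y ∈ G.cI C, G.tri y = t := by
  have hmk : ∀ t ∈ G.cT C, G.adj.connectedComponentMk t = C := by
    intro t ht
    unfold Tg.cT at ht
    rw [Finset.mem_image] at ht
    obtain ⟨x, hx, rfl⟩ := ht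
    rw [Finset.mem_filter] at hx
    exact hx.2
  obtain ⟨s, hs, hst⟩ : ∃ s ∈ G.cT C, s ≠ t := by
    by_contra h
    push Not at h
    have : G.cT C ⊆ {t} := fun s hs => Finset.mem_singleton.2 (h s hs)
    have := Finset.card_le_card this
    rw [Finset.card_singleton] at this
    omega
  obtain ⟨p⟩ : G.adj.Reachable t s :=
    SimpleGraph.ConnectedComponent.exact ((hmk t ht).trans (hmk s hs).symm)
  cases p with
  | nil => exact absurd rfl hst
  | cons hadj _ =>
    obtain ⟨_, a, b, h2, h3, h4, h5, h6⟩ := hadj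
    refine ⟨(a, b), ?_, h5⟩
    unfold Tg.cI
    rw [Finset.mem_filter]
    refine ⟨h2, ?_, h4, h3⟩
    unfold Tg.cl
    rw [h5]
    exact hmk t ht

/-- a class with one triangle has no inner non-contact dart -/
theorem cI_one11 {C : G.adj.ConnectedComponent} (hm : (G.cT C).card = 1) : G.cI C = ∅ := by
  rw [Finset.eq_empty_iff_forall_notMem]
  intro x hx
  have hx' := swap_cD66 G hx
  have h1 := mem_cT66 G (cI_sub11 G hx)
  have h2 := mem_cT66 G (cI_sub11 G hx')
  obtain ⟨t, ht⟩ := Finset.card_eq_one.1 hm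
  rw [ht, Finset.mem_singleton] at h1 h2
  exact tri_swap66 G ((mem_cD66 G).1 (cI_sub11 G hx)).1 (cI_swap11 G hx) (h1.trans h2.symm)

/-- area of a contact triangle -/
theorem ar_con11 (hG : G.Geo al kp U) {x : V × V} (hx : x ∈ G.Dp) (c1 : G.con x.1 x.2)
    (c2 : G.con x.2 (G.ap x.1 x.2)) (c3 : G.con (G.ap x.1 x.2) x.1) :
    G.ar x.1 x.2 = A3 al := by
  have h1 := hG.tcon _ _ hx c1 c2 c3
  have e3 : G.ap x.2 (G.ap x.1 x.2) = x.1 := G.ap3 _ _ hx
  have e4 : G.ap (G.ap x.1 x.2) x.1 = x.2 := G.ap4 _ _ hx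
  have h2 := hG.tcon x.2 (G.ap x.1 x.2) (G.ap1 _ _ hx) c2 (by rw [e3]; exact c3)
    (by rw [e3]; exact c1)
  have h3 := hG.tcon (G.ap x.1 x.2) x.1 (G.ap2 _ _ hx) c3 (by rw [e4]; exact c1)
    (by rw [e4]; exact c2)
  unfold Tg.ar A3
  rw [h1, h2, h3]
  ring

/-- area of a rhombus class -/
theorem ar_rhombus11 (hG : G.Geo al kp U) {C : G.adj.ConnectedComponent} (hB : G.cB C = ∅)
    (hm : (G.cT C).card = 2) (hI : (G.cI C).card = 2) :
    2 * A3 al ≤ ∑ x ∈ G.cD C, G.ar x.1 x.2 / 3 := by
  obtain ⟨x, hx⟩ : (G.cI C).Nonempty := by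
    rw [← Finset.card_pos]
    omega
  have hx' := swap_cD66 G hx
  have hxD := cI_sub11 G hx
  have hxD' := cI_sub11 G hx'
  have p1 := ((mem_cD66 G).1 hxD).1
  have q1 := ((mem_cD66 G).1 hxD').1
  have p3 := cI_ncon11 G hx
  have n1 := G.ne _ _ (G.sub p1)
  have hII : G.cI C = {x, (x.2, x.1)} := by
    symm
    apply Finset.eq_of_subset_of_card_le
    · intro y hy
      rw [Finset.mem_insert, Finset.mem_singleton] at hy
      rcases hy with rfl | rfl
      · exact hx
      · exact hx'
    · rw [hI, Finset.card_pair]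
      intro h
      exact n1 (congrArg Prod.fst h)
  have hcon : ∀ y ∈ G.cD C, y ≠ x → y ≠ (x.2, x.1) → G.con y.1 y.2 := by
    intro y hy h1 h2
    by_contra hc
    have := mem_cI11 G hB hy hc
    rw [hII, Finset.mem_insert, Finset.mem_singleton] at this
    rcases this with h | h
    · exact h1 h
    · exact h2 h
  have n2 := G.ne _ _ (G.sub (G.ap1 _ _ p1))
  have n3 := G.ne _ _ (G.sub (G.ap2 _ _ p1))
  have n2' := G.ne _ _ (G.sub (G.ap1 _ _ q1))
  have n3' := G.ne _ _ (G.sub (G.ap2 _ _ q1))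
  have c1 : G.con x.2 (G.ap x.1 x.2) := hcon _ (rot_cD66 G hxD)
    (fun h => n1 (congrArg Prod.fst h).symm) (fun h => n3 (congrArg Prod.snd h))
  have c2 : G.con (G.ap x.1 x.2) x.1 := hcon _ (rot_cD66' G hxD)
    (fun h => n3 (congrArg Prod.fst h)) (fun h => n2 (congrArg Prod.fst h).symm)
  have c3 : G.con x.1 (G.ap x.2 x.1) := hcon _ (rot_cD66 G hxD')
    (fun h => n3' (congrArg Prod.snd h)) (fun h => n1 (congrArg Prod.fst h))
  have c4 : G.con (G.ap x.2 x.1) x.2 := hcon _ (rot_cD66' G hxD')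
    (fun h => n2' (congrArg Prod.fst h).symm) (fun h => n3' (congrArg Prod.fst h))
  have hne : x ≠ (x.2, x.1) := fun h => n1 (congrArg Prod.fst h)
  have htr := tri_swap66 G p1 q1
  rw [sum_ar11 G {x, (x.2, x.1)}, Finset.sum_pair hne]
  · exact hG.rhA x.1 x.2 ⟨p1, q1, p3, c1, c2, c3, c4⟩
  · intro y hy
    rw [Finset.mem_insert, Finset.mem_singleton] at hy
    rcases hy with rfl | rfl
    · exact hxD
    · exact hxD'
  · intro y hy z hz h
    rw [Finset.mem_insert, Finset.mem_singleton] at hy hz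
    rcases hy with hy | hy <;> rcases hz with hz | hz
    · rw [hy, hz]
    · rw [hy, hz] at h
      exact absurd h htr
    · rw [hy, hz] at h
      exact absurd h.symm htr
    · rw [hy, hz]
  · rw [hm, Finset.card_pair hne]

/-- area of a pentagon class -/
theorem ar_pentagon11 (hG : G.Geo al kp U) {C : G.adj.ConnectedComponent} (hB : G.cB C = ∅)
    (hm : (G.cT C).card = 3) (hI : (G.cI C).card = 4) :
    3 / 2 * A3 al ≤ ∑ x ∈ G.cD C, G.ar x.1 x.2 / 3 := by
  -- number of inner non-contact darts in each triangle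
  set K : Finset V → ℕ := fun t => ((G.cI C).filter (fun x => G.tri x = t)).card with hK
  have hsum : ∑ t ∈ G.cT C, K t = 4 := by
    rw [← hI, hK]
    exact (Finset.card_eq_sum_card_fiberwise (fun x hx => mem_cT66 G (cI_sub11 G hx))).symm
  have hK1 : ∀ t ∈ G.cT C, 1 ≤ K t := by
    intro t ht
    obtain ⟨y, hy, hyt⟩ := exists_cI11 G ht (by omega)
    exact Finset.card_pos.2 ⟨y, Finset.mem_filter.2 ⟨hy, hyt⟩⟩
  have hK2 : ∀ y ∈ G.cI C, ∀ z ∈ G.cI C, y ≠ z → G.tri z = G.tri y → 2 ≤ K (G.tri y) := by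
    intro y hy z hz hyz h
    exact Finset.one_lt_card.2 ⟨y, Finset.mem_filter.2 ⟨hy, rfl⟩, z,
      Finset.mem_filter.2 ⟨hz, h⟩, hyz⟩
  -- one triangle has two such darts
  obtain ⟨y, hy, hy2⟩ : ∃ y ∈ G.cI C, (y.2, G.ap y.1 y.2) ∈ G.cI C := by
    obtain ⟨y, hy, z, hz, hyz, htr⟩ := Finset.exists_ne_map_eq_of_card_lt_of_maps_to
      (s := G.cI C) (t := G.cT C) (f := G.tri) (by omega)
      (fun x hx => mem_cT66 G (cI_sub11 G hx))
    have hyp := ((mem_cD66 G).1 (cI_sub11 G hy)).1
    have hzp := ((mem_cD66 G).1 (cI_sub11 G hz)).1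
    rcases (tri_eq_iff G hyp hzp).1 htr with h | h | h
    · exact absurd h.symm hyz
    · exact ⟨y, hy, by rw [← h]; exact hz⟩
    · refine ⟨z, hz, ?_⟩
      have e : (z.2, G.ap z.1 z.2) = y := by
        rw [h]
        dsimp only
        rw [G.ap4 _ _ hyp]
      rw [e]
      exact hy
  obtain ⟨b, c⟩ := y
  dsimp only at hy2
  set a := G.ap b c with ha
  have hyD := cI_sub11 G hy
  have hy2D := cI_sub11 G hy2
  have hbc := ((mem_cD66 G).1 hyD).1
  have hca := ((mem_cD66 G).1 hy2D).1
  have hab : (a, b) ∈ G.Dp := G.ap2 _ _ hbc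
  have habD : (a, b) ∈ G.cD C := rot_cD66' G hyD
  have hapab : G.ap a b = c := G.ap4 _ _ hbc
  have n1 := G.ne _ _ (G.sub hbc)
  have n2 := G.ne _ _ (G.sub hca)
  have n3 := G.ne _ _ (G.sub hab)
  have hcb : (c, b) ∈ G.cI C := swap_cD66 G hy
  have hac : (a, c) ∈ G.cI C := swap_cD66 G hy2
  have hcbD := cI_sub11 G hcb
  have hacD := cI_sub11 G hac
  have hcbp := ((mem_cD66 G).1 hcbD).1
  have hacp := ((mem_cD66 G).1 hacD).1
  have e1 : G.tri (b, c) = G.tri (a, b) := (tri_rot66' G hbc).symm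
  have e2 : G.tri (c, a) = G.tri (a, b) := by
    have := tri_rot66 G hbc
    dsimp only at this
    rw [← ha] at this
    rw [this, e1]
  have t01 : G.tri (a, b) ≠ G.tri (c, b) := by
    rw [← e1]
    exact tri_swap66 G hbc hcbp
  have t02 : G.tri (a, b) ≠ G.tri (a, c) := by
    rw [← e2]
    exact tri_swap66 G hca hacp
  have hk0 : 2 ≤ K (G.tri (a, b)) := by
    rw [← e1]
    exact hK2 _ hy _ hy2 (fun h => n1 (congrArg Prod.fst h)) (by rw [e2, e1])
  have m0 := mem_cT66 G habD
  have m1 := mem_cT66 G hcbD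
  have m2 := mem_cT66 G hacD
  have t12 : G.tri (c, b) ≠ G.tri (a, c) := by
    intro h
    have hk1 : 2 ≤ K (G.tri (c, b)) :=
      hK2 _ hcb _ hac (fun h => n2 (congrArg Prod.fst h)) h.symm
    obtain ⟨s, hs, hs'⟩ : ∃ s ∈ G.cT C, s ∉ ({G.tri (a, b), G.tri (c, b)} : Finset (Finset V)) := by
      by_contra hcon
      push Not at hcon
      have := Finset.card_le_card (show G.cT C ⊆ {G.tri (a, b), G.tri (c, b)} from hcon)
      rw [hm, Finset.card_pair t01] at this
      omega
    rw [Finset.mem_insert, Finset.mem_singleton, not_or] at hs'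
    have hsub : ({s, G.tri (a, b), G.tri (c, b)} : Finset (Finset V)) ⊆ G.cT C := by
      intro t ht
      rw [Finset.mem_insert, Finset.mem_insert, Finset.mem_singleton] at ht
      rcases ht with rfl | rfl | rfl
      · exact hs
      · exact m0
      · exact m1
    have hle := Finset.sum_le_sum_of_subset (f := K) hsub
    rw [hsum, Finset.sum_insert (by
      rw [Finset.mem_insert, Finset.mem_singleton, not_or]
      exact hs'), Finset.sum_pair t01] at hle
    have := hK1 s hs
    omega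
  have hT : ({G.tri (a, b), G.tri (c, b), G.tri (a, c)} : Finset (Finset V)) = G.cT C := by
    apply Finset.eq_of_subset_of_card_le
    · intro t ht
      rw [Finset.mem_insert, Finset.mem_insert, Finset.mem_singleton] at ht
      rcases ht with rfl | rfl | rfl
      · exact m0
      · exact m1
      · exact m2
    · rw [hm, Finset.card_insert_of_notMem, Finset.card_pair t12]
      rw [Finset.mem_insert, Finset.mem_singleton, not_or]
      exact ⟨t01, t02⟩
  have hsum3 : K (G.tri (a, b)) + (K (G.tri (c, b)) + K (G.tri (a, c))) = 4 := by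
    rw [← hsum, ← hT, Finset.sum_insert (by
      rw [Finset.mem_insert, Finset.mem_singleton, not_or]
      exact ⟨t01, t02⟩), Finset.sum_pair t12]
  have k1 := hK1 _ m1
  have k2 := hK1 _ m2
  -- contact darts of the ears
  have ear : ∀ z ∈ G.cI C, K (G.tri z) = 1 → G.con z.2 (G.ap z.1 z.2) ∧
      G.con (G.ap z.1 z.2) z.1 := by
    intro z hz hk
    have hzD := cI_sub11 G hz
    have hzp := ((mem_cD66 G).1 hzD).1
    have z1 := G.ne _ _ (G.sub hzp)
    have z3 := G.ne _ _ (G.sub (G.ap2 _ _ hzp))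
    constructor
    · by_contra hc
      have h1 := mem_cI11 G hB (rot_cD66 G hzD) hc
      have h2 := hK2 z hz _ h1 (fun h => z1 (congrArg Prod.fst h)) (tri_rot66 G hzp)
      omega
    · by_contra hc
      have h1 := mem_cI11 G hB (rot_cD66' G hzD) hc
      have h2 := hK2 z hz _ h1 (fun h => z3 (congrArg Prod.fst h).symm) (tri_rot66' G hzp)
      omega
  have cab : G.con a b := by
    by_contra hc
    have h1 := mem_cI11 G hB habD hc
    have h3 : 3 ≤ K (G.tri (a, b)) := by
      have hsub : ({(a, b), (b, c), (c, a)} : Finset (V × V)) ⊆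
          (G.cI C).filter (fun x => G.tri x = G.tri (a, b)) := by
        intro t ht
        rw [Finset.mem_insert, Finset.mem_insert, Finset.mem_singleton] at ht
        rw [Finset.mem_filter]
        rcases ht with rfl | rfl | rfl
        · exact ⟨h1, rfl⟩
        · exact ⟨hy, e1⟩
        · exact ⟨hy2, e2⟩
      have h4 := Finset.card_le_card hsub
      rw [Finset.card_insert_of_notMem, Finset.card_pair] at h4
      · exact h4
      · intro h
        exact n1 (congrArg Prod.fst h)
      · rw [Finset.mem_insert, Finset.mem_singleton, not_or]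
        exact ⟨fun h => n3 (congrArg Prod.fst h), fun h => n2 (congrArg Prod.fst h).symm⟩
    omega
  obtain ⟨c1, c2⟩ := ear _ hcb (by omega)
  obtain ⟨c3, c4⟩ := ear _ hac (by omega)
  dsimp only at c1 c2 c3 c4
  have hPn : G.Pn a b := by
    unfold Tg.Pn
    rw [hapab]
    refine ⟨hab, cab, cI_ncon11 G hy, cI_ncon11 G hy2, hcbp, hacp, c1, c2, c3, c4⟩
  have hpn := hG.pn a b hPn
  rw [hapab] at hpn
  have d01 : ((a, b) : V × V) ≠ (c, b) := fun h => t01 (by rw [h])
  have d02 : ((a, b) : V × V) ≠ (a, c) := fun h => t02 (by rw [h])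
  have d12 : ((c, b) : V × V) ≠ (a, c) := fun h => t12 (by rw [h])
  rw [sum_ar11 G {(a, b), (c, b), (a, c)}, Finset.sum_insert (by
    rw [Finset.mem_insert, Finset.mem_singleton, not_or]
    exact ⟨d01, d02⟩), Finset.sum_pair d12]
  · linarith
  · intro t ht
    rw [Finset.mem_insert, Finset.mem_insert, Finset.mem_singleton] at ht
    rcases ht with rfl | rfl | rfl
    · exact habD
    · exact hcbD
    · exact hacD
  · intro y hy z hz h
    rw [Finset.mem_insert, Finset.mem_insert, Finset.mem_singleton] at hy hz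
    rcases hy with hy | hy | hy <;> rcases hz with hz | hz | hz <;> rw [hy, hz] at h ⊢
    · exact absurd h t01
    · exact absurd h t02
    · exact absurd h.symm t01
    · exact absurd h t12
    · exact absurd h.symm t02
    · exact absurd h.symm t12
  · rw [hm, Finset.card_insert_of_notMem (by
      rw [Finset.mem_insert, Finset.mem_singleton, not_or]
      exact ⟨d01, d02⟩), Finset.card_pair d12]

/-- Uc1: the three cases of an inner class -/
theorem class_area (hG : G.Geo al kp U) {C : G.adj.ConnectedComponent} (hC : C ∈ G.iC) :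
    A3 al * ((G.cT C).card - 3 / 4 * (G.e2 C : ℝ)) ≤ ∑ x ∈ G.cD C, G.ar x.1 x.2 / 3 := by
  have hA : 0 < A3 al := by
    unfold A3
    have := hG.al2
    linarith
  unfold Tg.iC at hC
  obtain ⟨x, hx, rfl⟩ := Finset.mem_image.1 hC
  unfold Tg.iD at hx
  rw [Finset.mem_filter] at hx
  have hxp := hx.1
  have hB : G.cB (G.cl x) = ∅ := hx.2.2
  set C := G.cl x with hCdef
  have hxD : x ∈ G.cD C := (mem_cD66 G).2 ⟨hxp, rfl⟩
  have hpos : 0 ≤ ∑ x ∈ G.cD C, G.ar x.1 x.2 / 3 := by
    apply Finset.sum_nonneg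
    intro y hy
    have := hG.tpos y.1 y.2 ((mem_cD66 G).1 hy).1
    positivity
  have hm1 : 1 ≤ (G.cT C).card := Finset.card_pos.2 ⟨_, mem_cT66 G hxD⟩
  have hconn := conn G C
  have he : (G.e2 C : ℝ) = ((5 * (G.cI C).card - 6 * (G.cT C).card : ℕ) : ℝ) := rfl
  -- negative coefficient
  have neg : ∀ e : ℕ, e ≤ G.e2 C → ((G.cT C).card : ℝ) - 3 / 4 * (e : ℝ) ≤ 0 →
      A3 al * ((G.cT C).card - 3 / 4 * (G.e2 C : ℝ)) ≤ ∑ x ∈ G.cD C, G.ar x.1 x.2 / 3 := by
    intro e h1 h2
    have h3 : (e : ℝ) ≤ (G.e2 C : ℝ) := by exact_mod_cast h1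
    have h4 : ((G.cT C).card : ℝ) - 3 / 4 * (G.e2 C : ℝ) ≤ 0 := by linarith
    have h5 := mul_nonpos_of_nonneg_of_nonpos hA.le h4
    linarith
  rcases Nat.lt_or_ge (G.cT C).card 4 with h4 | h4
  · interval_cases hm : (G.cT C).card
    · -- one triangle
      have hI := cI_one11 G hm
      have hcon : ∀ y ∈ G.cD C, G.con y.1 y.2 := by
        intro y hy
        by_contra hc
        have := mem_cI11 G hB hy hc
        rw [hI] at this
        exact absurd this (Finset.notMem_empty _)
      have hE : G.e2 C = 0 := by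
        unfold Tg.e2
        rw [hI, hm]
        simp
      rw [hE, sum_ar11 G {x} (by simpa using hxD) (by
        intro y hy z hz _
        rw [Finset.mem_singleton] at hy hz
        rw [hy, hz]) (by rw [hm, Finset.card_singleton]), Finset.sum_singleton,
        ar_con11 G hG hxp (hcon _ hxD) (hcon _ (rot_cD66 G hxD)) (hcon _ (rot_cD66' G hxD))]
      norm_num
    · -- two triangles
      rcases Nat.lt_or_ge (G.cI C).card 3 with hI | hI
      · have hI2 : (G.cI C).card = 2 := by omega
        have h := ar_rhombus11 G hG hB hm hI2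
        have hE : G.e2 C = 0 := by
          unfold Tg.e2
          rw [hI2, hm]
        rw [hE]
        norm_num
        linarith
      · apply neg 3
        · unfold Tg.e2
          rw [hm]
          omega
        · norm_num
    · -- three triangles
      rcases Nat.lt_or_ge (G.cI C).card 5 with hI | hI
      · have hI2 : (G.cI C).card = 4 := by omega
        have h := ar_pentagon11 G hG hB hm hI2
        have hE : G.e2 C = 2 := by
          unfold Tg.e2
          rw [hI2, hm]
        rw [hE]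
        norm_num
        linarith
      · apply neg 7
        · unfold Tg.e2
          rw [hm]
          omega
        · norm_num
  · apply neg (4 * (G.cT C).card - 10)
    · unfold Tg.e2
      omega
    · have h5 : 10 ≤ 4 * (G.cT C).card := by omega
      rw [Nat.cast_sub h5]
      push_cast
      have h6 : (4 : ℝ) ≤ (G.cT C).card := by exact_mod_cast h4
      linarith

end D

end

end Pool.Agent.PEN
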