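import Pool.Agent.P4.Q11
import Pool.Agent.PEN.DG66

/-! # Rows Uc2, Uc3, Uc4: area of the inner region

Page: `MP_45fc25_PENNY2_h56.md`. -/

set_option autoImplicit false

namespace Pool.Agent.PEN

open Classical UpperHalfPlane

noncomputable section

section D
variable {V : Type} (G : Tg V) {al : ℝ} {kp : V → V → ℝ} {U : ℕ → ℝ}

theorem mem_iD27 {x : V × V} : x ∈ G.iD ↔ G.inn x := by
  unfold Tg.iD
  rw [Finset.mem_filter]
  exact ⟨fun h => h.2, fun h => ⟨h.1, h⟩⟩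

theorem mem_iB27 {x : V × V} : x ∈ G.iB ↔ G.inn x ∧ ¬ G.inn (x.2, x.1) := by
  unfold Tg.iB
  rw [Finset.mem_filter]
  exact ⟨fun h => h.2, fun h => ⟨h.1.1, h⟩⟩

theorem inn_of_cl27 {x y : V × V} (hx : G.inn x) (hy : y ∈ G.Dp) (h : G.cl y = G.cl x) :
    G.inn y := by
  refine ⟨hy, ?_⟩
  rw [h]
  exact hx.2

theorem inn_rot27 {x : V × V} (hx : G.inn x) : G.inn (x.2, G.ap x.1 x.2) := by
  refine inn_of_cl27 G hx (G.ap1 _ _ hx.1) ?_
  unfold Tg.cl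
  rw [tri_rot66 G hx.1]

theorem inn_rot27' {x : V × V} (hx : G.inn x) : G.inn (G.ap x.1 x.2, x.1) := by
  refine inn_of_cl27 G hx (G.ap2 _ _ hx.1) ?_
  unfold Tg.cl
  rw [tri_rot66' G hx.1]

/-- a class is inner or not -/
theorem iD_fiber27 {C : G.adj.ConnectedComponent} (hC : C ∈ G.iC) :
    G.iD.filter (fun x => G.cl x = C) = G.cD C := by
  unfold Tg.iC at hC
  obtain ⟨y, hy, rfl⟩ := Finset.mem_image.mp hC
  rw [mem_iD27] at hy
  ext x
  rw [Finset.mem_filter, mem_iD27, mem_cD66]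
  constructor
  · rintro ⟨h1, h2⟩
    exact ⟨h1.1, h2⟩
  · rintro ⟨h1, h2⟩
    exact ⟨inn_of_cl27 G hy h1 h2, h2⟩

theorem sum_iD27 (f : V × V → ℝ) : ∑ x ∈ G.iD, f x = ∑ C ∈ G.iC, ∑ x ∈ G.cD C, f x := by
  have h1 : ∀ x ∈ G.iD, G.cl x ∈ G.iC := fun x hx => Finset.mem_image_of_mem _ hx
  rw [← Finset.sum_fiberwise_of_maps_to h1 f]
  exact Finset.sum_congr rfl fun C hC => by rw [iD_fiber27 G hC]

theorem card_iD27 : G.iD.card = 3 * ∑ C ∈ G.iC, (G.cT C).card := by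
  have h1 : ∀ x ∈ G.iD, G.cl x ∈ G.iC := fun x hx => Finset.mem_image_of_mem _ hx
  rw [Finset.card_eq_sum_card_fiberwise h1, Finset.mul_sum]
  exact Finset.sum_congr rfl fun C hC => by rw [iD_fiber27 G hC, card_cD]

/-- Uc2, from Uc1 -/
theorem area_ge_of27
    (h : ∀ C ∈ G.iC, A3 al * ((G.cT C).card - 3 / 4 * (G.e2 C : ℝ)) ≤
      ∑ x ∈ G.cD C, G.ar x.1 x.2 / 3) :
    A3 al * ((G.iD.card : ℝ) / 3 - 3 / 4 * (G.E2 : ℝ)) ≤ ∑ x ∈ G.iD, G.ar x.1 x.2 / 3 := by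
  rw [sum_iD27 G (fun x => G.ar x.1 x.2 / 3)]
  have h1 : (G.iD.card : ℝ) / 3 = ∑ C ∈ G.iC, ((G.cT C).card : ℝ) := by
    rw [card_iD27 G]
    push_cast
    ring
  have h2 : (G.E2 : ℝ) = ∑ C ∈ G.iC, (G.e2 C : ℝ) := by
    unfold Tg.E2
    push_cast
    rfl
  rw [h1, h2, Finset.mul_sum, ← Finset.sum_sub_distrib, Finset.mul_sum]
  exact Finset.sum_le_sum h

/-- rotation of the inner darts -/
theorem sum_rot27 (f : V → V → ℝ) :
    ∑ x ∈ G.iD, f x.2 (G.ap x.1 x.2) = ∑ x ∈ G.iD, f x.1 x.2 := by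
  refine Finset.sum_nbij' (fun x => (x.2, G.ap x.1 x.2)) (fun x => (G.ap x.1 x.2, x.1)) ?_ ?_ ?_ ?_ ?_
  · intro x hx
    rw [mem_iD27] at hx ⊢
    exact inn_rot27 G hx
  · intro x hx
    rw [mem_iD27] at hx ⊢
    exact inn_rot27' G hx
  · rintro ⟨a, b⟩ hx
    rw [mem_iD27] at hx
    have h1 := G.ap3 _ _ hx.1
    exact Prod.ext h1 rfl
  · rintro ⟨a, b⟩ hx
    rw [mem_iD27] at hx
    have h1 := G.ap4 _ _ hx.1
    exact Prod.ext rfl h1
  · intro x _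
    rfl

theorem sum_rot27' (f : V → V → ℝ) :
    ∑ x ∈ G.iD, f (G.ap x.1 x.2) x.1 = ∑ x ∈ G.iD, f x.1 x.2 := by
  refine Finset.sum_nbij' (fun x => (G.ap x.1 x.2, x.1)) (fun x => (x.2, G.ap x.1 x.2)) ?_ ?_ ?_ ?_ ?_
  · intro x hx
    rw [mem_iD27] at hx ⊢
    exact inn_rot27' G hx
  · intro x hx
    rw [mem_iD27] at hx ⊢
    exact inn_rot27 G hx
  · rintro ⟨a, b⟩ hx
    rw [mem_iD27] at hx
    have h1 := G.ap4 _ _ hx.1
    exact Prod.ext rfl h1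
  · rintro ⟨a, b⟩ hx
    rw [mem_iD27] at hx
    have h1 := G.ap3 _ _ hx.1
    exact Prod.ext h1 rfl
  · intro x _
    rfl

/-- the inner darts split into boundary darts and a part closed under reversal -/
theorem iD_split27 (g : V × V → ℝ) : ∑ x ∈ G.iD, g x = ∑ x ∈ G.iB, g x +
    ∑ x ∈ G.iD.filter (fun x => G.inn (x.2, x.1)), g x := by
  rw [← Finset.sum_filter_add_sum_filter_not G.iD (fun x => G.inn (x.2, x.1)), add_comm]
  congr 1
  refine Finset.sum_congr ?_ fun _ _ => rfl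
  ext x
  rw [Finset.mem_filter, mem_iD27, mem_iB27]

theorem sum_swap27 (g : V × V → ℝ) :
    ∑ x ∈ G.iD.filter (fun x => G.inn (x.2, x.1)), g (x.2, x.1) =
      ∑ x ∈ G.iD.filter (fun x => G.inn (x.2, x.1)), g x := by
  refine Finset.sum_nbij' (fun x => (x.2, x.1)) (fun x => (x.2, x.1)) ?_ ?_ ?_ ?_ ?_
  · intro x hx
    rw [Finset.mem_filter, mem_iD27] at hx ⊢
    exact ⟨hx.2, hx.1⟩
  · intro x hx
    rw [Finset.mem_filter, mem_iD27] at hx ⊢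
    exact ⟨hx.2, hx.1⟩
  · intro x _
    rfl
  · intro x _
    rfl
  · intro x _
    rfl

theorem iB_bal27 (v : V) :
    (G.iB.filter (fun x => x.1 = v)).card = (G.iB.filter (fun x => x.2 = v)).card := by
  have e1 := iD_split27 G (fun x => if x.1 = v then (1 : ℝ) else 0)
  have e2 := iD_split27 G (fun x => if x.2 = v then (1 : ℝ) else 0)
  have e3 := sum_swap27 G (fun x => if x.1 = v then (1 : ℝ) else 0)
  have e4 := sum_rot27 G (fun a _ => if a = v then (1 : ℝ) else 0)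
  dsimp only at e3 e4
  have e5 : ∑ x ∈ G.iB, (if x.1 = v then (1 : ℝ) else 0) =
      ∑ x ∈ G.iB, (if x.2 = v then (1 : ℝ) else 0) := by
    linarith
  rw [Finset.sum_boole, Finset.sum_boole] at e5
  exact_mod_cast e5

theorem iB_con27 {x : V × V} (hx : x ∈ G.iB) : G.con x.1 x.2 := by
  rw [mem_iB27] at hx
  obtain ⟨h1, h2⟩ := hx
  by_contra hc
  have h3 : (x.2, x.1) ∈ G.Dp := by
    by_contra h4
    have h5 : x ∈ G.cB (G.cl x) := by
      unfold Tg.cB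
      rw [Finset.mem_filter]
      exact ⟨h1.1, rfl, hc, h4⟩
    rw [h1.2] at h5
    exact Finset.notMem_empty _ h5
  have h4 : x ∈ G.cI (G.cl x) := by
    unfold Tg.cI
    rw [Finset.mem_filter]
    exact ⟨h1.1, rfl, hc, h3⟩
  apply h2
  refine inn_of_cl27 G h1 h3 ?_
  unfold Tg.cl
  refine SimpleGraph.ConnectedComponent.sound (SimpleGraph.Adj.reachable ?_)
  exact ⟨(tri_swap66 G h1.1 h3).symm, x.2, x.1, h3, h1.1, fun h => hc (G.csymm _ _ h), rfl, rfl⟩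

theorem iB_D27 {x : V × V} (hx : x ∈ G.iB) : x ∈ G.D := by
  rw [mem_iB27] at hx
  exact G.sub hx.1.1

theorem iB_card27 : G.iB.card ≤ G.oJ.card := by
  refine Finset.card_le_card_of_injOn (fun x => (x.2, x.1)) ?_ ?_
  · intro x hx
    rw [Finset.mem_coe] at hx
    have h1 := iB_con27 G hx
    have h2 := iB_D27 G hx
    rw [mem_iB27] at hx
    rw [Finset.mem_coe]
    unfold Tg.oJ
    rw [Finset.mem_filter]
    exact ⟨G.symm _ _ h2, G.csymm _ _ h1, hx.2⟩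
  · rintro ⟨a, b⟩ _ ⟨c, e⟩ _ h
    have h1 := congrArg Prod.fst h
    have h2 := congrArg Prod.snd h
    exact Prod.ext h2 h1

theorem area_eq27 (hG : G.Geo al kp U) :
    ∑ x ∈ G.iD, G.ar x.1 x.2 / 3 = ∑ x ∈ G.iB, kp x.1 x.2 := by
  have e1 : ∑ x ∈ G.iD, G.ar x.1 x.2 / 3 = (∑ x ∈ G.iD, kp x.1 x.2 +
      ∑ x ∈ G.iD, kp x.2 (G.ap x.1 x.2) + ∑ x ∈ G.iD, kp (G.ap x.1 x.2) x.1) / 3 := by
    rw [← Finset.sum_add_distrib, ← Finset.sum_add_distrib, Finset.sum_div]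
    refine Finset.sum_congr rfl fun x hx => ?_
    rw [mem_iD27] at hx
    rw [hG.kar _ _ hx.1]
  have e2 := sum_rot27 G kp
  have e3 := sum_rot27' G kp
  have e4 := iD_split27 G (fun x => kp x.1 x.2)
  have e5 := sum_swap27 G (fun x => kp x.1 x.2)
  dsimp only at e4 e5
  have e6 : ∑ x ∈ G.iD.filter (fun x => G.inn (x.2, x.1)), kp x.2 x.1 =
      - ∑ x ∈ G.iD.filter (fun x => G.inn (x.2, x.1)), kp x.1 x.2 := by
    rw [← Finset.sum_neg_distrib]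
    exact Finset.sum_congr rfl fun x _ => hG.kanti _ _
  linarith

theorem iB_ne27 (hG : G.Geo al kp U) (h : G.iD.Nonempty) : G.iB.Nonempty := by
  by_contra h0
  rw [Finset.not_nonempty_iff_eq_empty] at h0
  have h1 := area_eq27 G hG
  rw [h0, Finset.sum_empty] at h1
  have h2 : 0 < ∑ x ∈ G.iD, G.ar x.1 x.2 / 3 := by
    refine Finset.sum_pos (fun x hx => ?_) h
    rw [mem_iD27] at hx
    have h3 := hG.tpos _ _ hx.1
    linarith
  linarith

/-- Uc3: the boundary of the inner region -/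
theorem iB_facts (hG : G.Geo al kp U) :
    (∀ v, (G.iB.filter (fun x => x.1 = v)).card = (G.iB.filter (fun x => x.2 = v)).card) ∧
    (∀ x ∈ G.iB, G.con x.1 x.2 ∧ x ∈ G.D) ∧ G.iB.card ≤ G.oJ.card ∧
    (G.iD.Nonempty → G.iB.Nonempty) ∧
    ∑ x ∈ G.iD, G.ar x.1 x.2 / 3 = ∑ x ∈ G.iB, kp x.1 x.2 :=
  ⟨iB_bal27 G, fun _ hx => ⟨iB_con27 G hx, iB_D27 G hx⟩, iB_card27 G, iB_ne27 G hG,
    area_eq27 G hG⟩

/-- Uc4 -/
theorem area_le (hG : G.Geo al kp U) (h0 : U 0 = 0) (hm : Monotone U)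
    (hs : ∀ a b, U a + U b ≤ U (a + b)) :
    ∑ x ∈ G.iD, G.ar x.1 x.2 / 3 ≤ U G.oJ.card ∧ (G.iD.Nonempty → 3 ≤ G.oJ.card) := by
  obtain ⟨b1, b2, b3, b4, b5⟩ := iB_facts G hG
  constructor
  · rw [b5]
    refine le_trans (bal_sum G.iB kp U h0 hs ?_ b1) (hm b3)
    intro v b hb hv
    exact hG.walk v b hb (fun i hi => (b2 _ (hv i hi)).2) (fun i hi => (b2 _ (hv i hi)).1)
  · intro hne
    refine le_trans (bal_three G.iB (b4 hne) ?_ ?_ b1) b3
    · intro x hx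
      exact G.ne _ _ (b2 x hx).2
    · intro x hx h
      rw [mem_iB27] at hx h
      exact h.2 hx.1

end D

end

end Pool.Agent.PEN
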