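import Pool.Agent.P4.R9
import Pool.Agent.P4.T66b
import Pool.Agent.P4.Uc11
import Pool.Agent.P4.Uc27

/-! # Row W: the final arithmetic of PENNY 2 -/

set_option autoImplicit false

namespace Pool.Agent.PEN

open Classical UpperHalfPlane

noncomputable section

section D
variable {V : Type} (G : Tg V) {al : ℝ} {kp : V → V → ℝ} {U : ℕ → ℝ}

/-- the number of contact darts is even -/
theorem even_con18 : Even (G.D.filter (fun x => G.con x.1 x.2)).card := by
  have h : ∑ x ∈ G.D.filter (fun x => G.con x.1 x.2), (1 : ZMod 2) = 0 := by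
    apply Finset.sum_involution (fun x _ => (x.2, x.1))
    · intro x _
      decide
    · intro x hx _ h
      rw [Finset.mem_filter] at hx
      have h1 : x.2 = x.1 := congrArg Prod.fst h
      exact G.ne x.1 x.2 hx.1 h1.symm
    · intro x hx
      rw [Finset.mem_filter] at hx ⊢
      exact ⟨G.symm _ _ hx.1, G.csymm _ _ hx.2⟩
    · intro x _
      rfl
  rw [Finset.sum_const, nsmul_eq_mul, mul_one] at h
  rw [even_iff_two_dvd]
  exact (ZMod.natCast_eq_zero_iff _ _).1 h

/-- Uc2 -/
theorem area_ge (hG : G.Geo al kp U) :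
    A3 al * ((G.iD.card : ℝ) / 3 - 3 / 4 * (G.E2 : ℝ)) ≤ ∑ x ∈ G.iD, G.ar x.1 x.2 / 3 :=
  area_ge_of27 G (fun _ hC => class_area G hG hC)

theorem p4_main (hG : G.Geo al kp U) (hU : NumU al U) (hn : 10 ≤ G.P.card) :
    (G.D.filter (fun x => G.con x.1 x.2)).card ≤ 2 * ((7 * G.P.card - 15) / 3) := by
  have h1 := dart_count G
  have h2 := E1_ineq G hG
  have h3 := E2_ineq G hG
  obtain ⟨E, hE⟩ := even_con18 G
  have hA := area_ge G hG
  have hB := area_le G hG hU.zero hU.mono hU.sup
  have hal : 0 < A3 al := by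
    have := hG.al2
    unfold A3
    linarith
  by_contra hc
  push Not at hc
  rw [hE] at hc h1
  rcases Nat.eq_zero_or_pos G.iD.card with h0 | h0
  · omega
  have hb := hB.2 (Finset.card_pos.1 h0)
  have hAU := hA.trans hB.1
  rcases Nat.lt_or_ge G.oJ.card 8 with h8 | h8
  · have hs := hU.small _ hb (by omega)
    have h4 : A3 al * ((G.iD.card : ℝ) / 3 - 3 / 4 * (G.E2 : ℝ)) <
        A3 al * (2 * (G.oJ.card : ℝ) - 4) := by
      calc _ ≤ U G.oJ.card := hAU
        _ < _ := hs
        _ = _ := by ring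
    have h5 := lt_of_mul_lt_mul_left h4 hal.le
    have h6 : (4 * G.iD.card + 48 : ℝ) < 9 * G.E2 + 24 * G.oJ.card := by linarith
    have h7 : 4 * G.iD.card + 48 < 9 * G.E2 + 24 * G.oJ.card := by exact_mod_cast h6
    omega
  · have hs := hU.big _ h8
    have h4 : A3 al * ((G.iD.card : ℝ) / 3 - 3 / 4 * (G.E2 : ℝ)) <
        A3 al * (3 * (G.oJ.card : ℝ) - 12) := by
      calc _ ≤ U G.oJ.card := hAU
        _ < _ := hs
        _ = _ := by ring
    have h5 := lt_of_mul_lt_mul_left h4 hal.le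
    have h6 : (4 * G.iD.card + 144 : ℝ) < 9 * G.E2 + 36 * G.oJ.card := by linarith
    have h7 : 4 * G.iD.card + 144 < 9 * G.E2 + 36 * G.oJ.card := by exact_mod_cast h6
    omega

end D

end

end Pool.Agent.PEN
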