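import Pool.Agent.PEN.Defs

/-! # Hyperbolic penny graphs, part 2: inner classes, area, definitions

Page: `MP_45fc25_PENNY2_h56.md`. -/

set_option autoImplicit false

namespace Pool.Agent.PEN

open Classical UpperHalfPlane

noncomputable section

/-! ### Area primitive -/

/-- `(z - conj w) / i`, a number with positive real part -/
def Kz (z w : ℍ) : ℂ := ((z : ℂ) - (starRingEnd ℂ) (w : ℂ)) / Complex.I

/-- the oriented area of the triangle with vertices `infinity, z, w` -/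
def kap (z w : ℍ) : ℝ := 2 * Complex.arg (Kz z w)

/-- maximal area of a triangle with two sides `d` and `i d` -/
def uu (d : ℝ) (i : ℕ) : ℝ := 2 * Real.arcsin (Real.tanh (d / 2) * Real.tanh (i * d / 2))

/-- bound for the area enclosed by a closed walk of `b` steps -/
def Uw (u : ℕ → ℝ) (b : ℕ) : ℝ := ∑ j ∈ Finset.range (b - 2), u (j / 2 + 1)

/-- area of the contact triangle -/
def A3 (al : ℝ) : ℝ := Real.pi - 3 * al

namespace Tg

variable {V : Type} (G : Tg V)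

/-- inner darts: the class has no hull non-contact side -/
def inn (x : V × V) : Prop := x ∈ G.Dp ∧ G.cB (G.cl x) = ∅

/-- inner darts; `3 t` in number -/
def iD : Finset (V × V) := G.Dp.filter (fun x => G.inn x)

/-- non-contact inner darts; `2 I` in number -/
def iI : Finset (V × V) := G.Dp.filter (fun x => G.inn x ∧ ¬ G.con x.1 x.2)

/-- contact darts that are not inner; `b0` in number -/
def oJ : Finset (V × V) := G.D.filter (fun x => G.con x.1 x.2 ∧ ¬ G.inn x)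

/-- boundary darts of the inner region -/
def iB : Finset (V × V) := G.Dp.filter (fun x => G.inn x ∧ ¬ G.inn (x.2, x.1))

/-- the inner classes -/
def iC : Finset G.adj.ConnectedComponent := G.iD.image G.cl

/-- `2 e_C = 5 (2 I_C) - 6 m_C` (truncated: zero for contact triangles and rhombi) -/
def e2 (C : G.adj.ConnectedComponent) : ℕ := 5 * (G.cI C).card - 6 * (G.cT C).card

/-- `2 e` -/
def E2 : ℕ := ∑ C ∈ G.iC, G.e2 C

/-- area of the triangle on the left of a dart -/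
def ar (a b : V) : ℝ :=
  Real.pi - (G.th a b + G.th b (G.ap a b) + G.th (G.ap a b) a)

/-- `(a,b)` is the diagonal of a rhombus -/
def Rh (a b : V) : Prop :=
  (a, b) ∈ G.Dp ∧ (b, a) ∈ G.Dp ∧ ¬ G.con a b ∧ G.con b (G.ap a b) ∧ G.con (G.ap a b) a ∧
    G.con a (G.ap b a) ∧ G.con (G.ap b a) b

/-- `(a,b)` is the contact side of the middle triangle of a pentagon -/
def Pn (a b : V) : Prop :=
  (a, b) ∈ G.Dp ∧ G.con a b ∧ ¬ G.con b (G.ap a b) ∧ ¬ G.con (G.ap a b) a ∧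
    (G.ap a b, b) ∈ G.Dp ∧ (a, G.ap a b) ∈ G.Dp ∧
    G.con b (G.ap (G.ap a b) b) ∧ G.con (G.ap (G.ap a b) b) (G.ap a b) ∧
    G.con (G.ap a b) (G.ap a (G.ap a b)) ∧ G.con (G.ap a (G.ap a b)) a

/-- the geometric facts used by the combinatorial theorem -/
structure Geo (al : ℝ) (kp : V → V → ℝ) (U : ℕ → ℝ) : Prop where
  al1 : 2 * Real.pi < 7 * al
  al2 : 3 * al < Real.pi
  /-- every invariant set of neighbours of an interior point has total angle at least `2π` -/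
  turn : ∀ v ∈ G.P, ¬ G.bd v → ∀ S : Finset V, S.Nonempty → (∀ a ∈ S, (v, a) ∈ G.D) →
    (∀ a ∈ S, G.ap v a ∈ S) → 2 * Real.pi ≤ ∑ a ∈ S, G.th v a
  /-- the angles at an interior point add to exactly `2π` -/
  tot : ∀ v ∈ G.P, ¬ G.bd v →
    ∑ x ∈ G.D.filter (fun x => x.1 = v), G.th x.1 x.2 = 2 * Real.pi
  /-- no invariant set of neighbours at a boundary point -/
  bdno : ∀ v ∈ G.P, G.bd v → ∀ S : Finset V, S.Nonempty →
    ¬ (∀ a ∈ S, (v, a) ∈ G.Dp ∧ G.ap v a ∈ S)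
  deg : ∀ v ∈ G.P, 3 ≤ (G.D.filter (fun x => x.1 = v ∧ G.con x.1 x.2)).card
  left : ∀ v a b, (v, a) ∈ G.D → (v, b) ∈ G.D → (v, a) ∉ G.Dp → (v, b) ∉ G.Dp → a = b
  /-- a dart with empty left side starts at a boundary point (field `int1`), the count -/
  cnt : G.Dp.card + 3 * (G.P.filter G.bd).card + 6 ≤ 6 * G.P.card
  tpos : ∀ a b, (a, b) ∈ G.Dp → 0 < G.ar a b
  tcon : ∀ a b, (a, b) ∈ G.Dp → G.con a b → G.con b (G.ap a b) → G.con (G.ap a b) a →
    G.th a b = al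
  rh1 : ∀ a b, G.Rh a b → al ≤ G.th (G.ap a b) a ∧ G.th (G.ap a b) a ≤ 2 * al
  rh2 : ∀ a b, G.Rh a b → al ≤ G.th a b + G.th a (G.ap b a) ∧
    G.th a b + G.th a (G.ap b a) ≤ 2 * al
  rhA : ∀ a b, G.Rh a b → 2 * A3 al ≤ G.ar a b + G.ar b a
  nosq : ∀ a b, G.Rh a b → G.th (G.ap a b) a = 2 * Real.pi - 5 * al →
    G.th a b + G.th a (G.ap b a) = 2 * Real.pi - 5 * al → False
  pn : ∀ a b, G.Pn a b → 3 / 2 * A3 al ≤
    G.ar a b + G.ar (G.ap a b) b + G.ar a (G.ap a b)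
  kanti : ∀ a b, kp a b = - kp b a
  kar : ∀ a b, (a, b) ∈ G.Dp → kp a b + kp b (G.ap a b) + kp (G.ap a b) a = G.ar a b
  walk : ∀ (v : ℕ → V) (b : ℕ), v b = v 0 → (∀ i < b, (v i, v (i + 1)) ∈ G.D) →
    (∀ i < b, G.con (v i) (v (i + 1))) →
    ∑ i ∈ Finset.range b, kp (v i) (v (i + 1)) ≤ U b

end Tg

/-- the numerical facts about `U` -/
structure NumU (al : ℝ) (U : ℕ → ℝ) : Prop where
  zero : U 0 = 0
  mono : Monotone U
  sup : ∀ a b, U a + U b ≤ U (a + b)
  small : ∀ b : ℕ, 3 ≤ b → b ≤ 7 → U b < (2 * b - 4) * A3 al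
  big : ∀ b : ℕ, 8 ≤ b → U b < (3 * b - 12) * A3 al

end

end Pool.Agent.PEN
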