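import Pool.Agent.PEN.B49
import Pool.Agent.P4.Defs

/-! # Hyperbolic penny graphs: a primitive of the area

`kap z w = 2 arg ((z - conj w) / i)`; the sum over a triangle is `π` minus the angle sum, and it is
bounded by `2 arcsin (tanh (|ab| / 2) tanh (|ac| / 2))`. -/

set_option autoImplicit false
set_option linter.all false

namespace Pool.Agent.PEN

open Classical UpperHalfPlane

noncomputable section

/-- the sum of `kap` over the three sides of a triangle -/
def S51 (a b c : ℍ) : ℝ := kap a b + kap b c + kap c a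

theorem Kz_eq51 (z w : ℍ) :
    Kz z w = -Complex.I * ((z : ℂ) - (starRingEnd ℂ) (w : ℂ)) := by
  unfold Kz
  rw [Complex.div_I]
  ring

theorem Kz_re51 (z w : ℍ) : (Kz z w).re = z.im + w.im := by
  rw [Kz_eq51]; simp

theorem Kz_im51 (z w : ℍ) : (Kz z w).im = w.re - z.re := by
  rw [Kz_eq51]; simp

theorem Kz_re_pos (z w : ℍ) : 0 < (Kz z w).re := by
  rw [Kz_re51]
  exact add_pos z.im_pos w.im_pos

theorem Kz_ne51 (z w : ℍ) : Kz z w ≠ 0 := by
  intro h
  have := Kz_re_pos z w
  rw [h] at this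
  simp at this

theorem Kz_conj51 (z w : ℍ) : (starRingEnd ℂ) (Kz z w) = Kz w z := by
  apply Complex.ext
  · rw [Complex.conj_re, Kz_re51, Kz_re51, add_comm]
  · rw [Complex.conj_im, Kz_im51, Kz_im51]; ring

theorem arg_Kz51 (z w : ℍ) :
    |Complex.arg (Kz z w)| < Real.pi / 2 :=
  Complex.abs_arg_lt_pi_div_two_iff.2 (Or.inl (Kz_re_pos z w))

/-- antisymmetry -/
theorem kap_swap51 (z w : ℍ) : kap w z = - kap z w := by
  unfold kap
  rw [← Kz_conj51 z w, Complex.arg_conj, if_neg]
  · ring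
  · intro h
    have h1 := (abs_lt.1 (arg_Kz51 z w)).2
    rw [h] at h1
    linarith [Real.pi_pos]

theorem kap_self51 (z : ℍ) : kap z z = 0 := by
  have := kap_swap51 z z
  linarith

theorem S51_rot (a b c : ℍ) : S51 b c a = S51 a b c := by
  unfold S51; ring

theorem S51_swap (a b c : ℍ) : S51 a c b = - S51 a b c := by
  unfold S51
  rw [kap_swap51 c b, kap_swap51 a c, kap_swap51 b a]
  have := kap_swap51 c b
  have := kap_swap51 a c
  have := kap_swap51 b a
  linarith

/-- the cocycle identity -/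
theorem S51_add (a b c e : ℍ) : S51 a b c + S51 a c e = S51 a b e + S51 b c e := by
  unfold S51
  have := kap_swap51 a c
  have := kap_swap51 b e
  linarith

theorem S51_self₁ (a b : ℍ) : S51 a a b = 0 := by
  unfold S51
  have := kap_self51 a
  have := kap_swap51 a b
  linarith

theorem S51_self₂ (a b : ℍ) : S51 a b b = 0 := by
  unfold S51
  have := kap_self51 b
  have := kap_swap51 a b
  linarith

theorem S51_self₃ (a b : ℍ) : S51 a b a = 0 := by
  unfold S51
  have := kap_self51 a
  have := kap_swap51 a b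
  linarith

/-! ### The identity -/

theorem Dv_Kz51 (v p : ℍ) : Dv v p = -Complex.I * ((p : ℂ) - v) / Kz p v := by
  rw [Kz_eq51]
  unfold Dv
  rw [mul_div_mul_left _ _ (neg_ne_zero.2 Complex.I_ne_zero)]

theorem S51_identity (a b c : ℍ) :
    1 - Dv a b * (starRingEnd ℂ) (Dv a c) =
      2 * (a.im : ℂ) * (Kz b c / (Kz b a * Kz a c)) := by
  have h1 := Kz_ne51 b a
  have h2 := Kz_ne51 a c
  have h3 : (starRingEnd ℂ) (Dv a c) =
      Complex.I * ((starRingEnd ℂ) (c : ℂ) - (starRingEnd ℂ) (a : ℂ)) / Kz a c := by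
    rw [Dv_Kz51, map_div₀, Kz_conj51]
    simp
  have ha : 2 * (a.im : ℂ) * Complex.I = (a : ℂ) - (starRingEnd ℂ) (a : ℂ) := by
    apply Complex.ext
    · simp
    · simp; ring
  rw [h3, Dv_Kz51]
  have h4 : Kz b a * Kz a c - (-Complex.I * ((b : ℂ) - a)) *
      (Complex.I * ((starRingEnd ℂ) (c : ℂ) - (starRingEnd ℂ) (a : ℂ))) =
      2 * (a.im : ℂ) * Kz b c := by
    rw [Kz_eq51, Kz_eq51, Kz_eq51]
    have hI : Complex.I * Complex.I = -1 := Complex.I_mul_I
    have e : 2 * (a.im : ℂ) * (-Complex.I * ((b : ℂ) - (starRingEnd ℂ) (c : ℂ))) =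
        -(2 * (a.im : ℂ) * Complex.I) * ((b : ℂ) - (starRingEnd ℂ) (c : ℂ)) := by ring
    rw [e, ha]
    linear_combination ((((b : ℂ) - (starRingEnd ℂ) (a : ℂ)) * ((a : ℂ) - (starRingEnd ℂ) (c : ℂ))) +
      ((b : ℂ) - a) * ((starRingEnd ℂ) (c : ℂ) - (starRingEnd ℂ) (a : ℂ))) * hI
  have h5 : 2 * (a.im : ℂ) * (Kz b c / (Kz b a * Kz a c)) =
      (2 * (a.im : ℂ) * Kz b c) / (Kz b a * Kz a c) := by ring
  rw [h5, ← h4]
  field_simp

theorem one_sub_re_pos51 (a b c : ℍ) :
    0 < (1 - Dv a b * (starRingEnd ℂ) (Dv a c)).re := by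
  have := Pool.Agent.Penny.one_sub_re_pos (Pool.Agent.Penny.normSq_disc_lt a c)
    (Pool.Agent.Penny.normSq_disc_lt a b)
  rw [mul_comm]
  exact this

theorem abs_arg_one_sub51 (a b c : ℍ) :
    |Complex.arg (1 - Dv a b * (starRingEnd ℂ) (Dv a c))| < Real.pi / 2 :=
  Complex.abs_arg_lt_pi_div_two_iff.2 (Or.inl (one_sub_re_pos51 a b c))

/-- the sum over a triangle in disc coordinates -/
theorem S51_eq_arg (a b c : ℍ) :
    S51 a b c = 2 * Complex.arg (1 - Dv a b * (starRingEnd ℂ) (Dv a c)) := by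
  have h1 := Kz_ne51 b a
  have h2 := Kz_ne51 a c
  have h3 := Kz_ne51 b c
  have h4 : Complex.arg (1 - Dv a b * (starRingEnd ℂ) (Dv a c)) =
      Complex.arg (Kz b c / (Kz b a * Kz a c)) := by
    rw [S51_identity]
    have : (2 * (a.im : ℂ)) = (((2 * a.im : ℝ)) : ℂ) := by push_cast; ring
    rw [this, Complex.arg_real_mul _ (by have := a.im_pos; linarith)]
  have h5 : ((Complex.arg (Kz b c / (Kz b a * Kz a c)) : ℝ) : Real.Angle) =
      ((Complex.arg (Kz b c) - (Complex.arg (Kz b a) + Complex.arg (Kz a c)) : ℝ) : Real.Angle) := by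
    rw [Complex.arg_div_coe_angle h3 (mul_ne_zero h1 h2), Complex.arg_mul_coe_angle h1 h2,
      Real.Angle.coe_sub, Real.Angle.coe_add]
  rw [← h4, Real.Angle.angle_eq_iff_two_pi_dvd_sub] at h5
  obtain ⟨k, hk⟩ := h5
  have k1 := abs_lt.1 (abs_arg_one_sub51 a b c)
  have k2 := abs_lt.1 (arg_Kz51 b c)
  have k3 := abs_lt.1 (arg_Kz51 b a)
  have k4 := abs_lt.1 (arg_Kz51 a c)
  have hpi := Real.pi_pos
  have hk0 : k = 0 := by
    have e1 : (k : ℝ) < 1 := by
      by_contra hcon
      push Not at hcon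
      nlinarith
    have e2 : (-1 : ℝ) < k := by
      by_contra hcon
      push Not at hcon
      nlinarith
    have e3 : k < 1 := by exact_mod_cast e1
    have e4 : -1 < k := by exact_mod_cast e2
    omega
  rw [hk0] at hk
  simp only [Int.cast_zero, mul_zero] at hk
  have h6 := kap_swap51 a b
  have h7 := kap_swap51 a c
  unfold S51
  unfold kap at *
  linarith

/-! ### The bound -/

theorem norm_Dv51 (v p : ℍ) : ‖Dv v p‖ = Real.tanh (dist v p / 2) := by
  unfold Dv
  rw [dist_comm v p, UpperHalfPlane.tanh_half_dist, norm_div, Complex.dist_eq, Complex.dist_eq]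

theorem tanh_half_lt_one51 (a b : ℍ) : Real.tanh (dist a b / 2) < 1 := Real.tanh_lt_one _

/-- `|arg (1 - x)| ≤ arcsin |x|` -/
theorem abs_arg_one_sub_le51 {x : ℂ} (hx : ‖x‖ < 1) :
    |Complex.arg (1 - x)| ≤ Real.arcsin ‖x‖ := by
  have hre : 0 < (1 - x).re := by
    have := (abs_le.1 (Complex.abs_re_le_norm x)).2
    simp only [Complex.sub_re, Complex.one_re]
    linarith
  have h0 : 1 - x ≠ 0 := by
    intro h
    rw [h] at hre
    simp at hre
  have hn : 0 < ‖1 - x‖ := norm_pos_iff.2 h0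
  have h1 := Complex.abs_arg_lt_pi_div_two_iff.2 (Or.inl hre)
  have h2 := Complex.sin_arg (1 - x)
  have h3 : (Real.sin (Complex.arg (1 - x))) ^ 2 ≤ ‖x‖ ^ 2 := by
    rw [h2, div_pow, div_le_iff₀ (by positivity)]
    rw [← Complex.normSq_eq_norm_sq, ← Complex.normSq_eq_norm_sq, Complex.normSq_apply,
      Complex.normSq_apply]
    simp only [Complex.sub_re, Complex.sub_im, Complex.one_re, Complex.one_im]
    nlinarith [sq_nonneg (x.re - (x.re * x.re + x.im * x.im))]
  have h4 : |Real.sin (Complex.arg (1 - x))| ≤ ‖x‖ :=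
    abs_le_of_sq_le_sq' h3 (norm_nonneg _) |> fun h => abs_le.2 h
  have h5 := abs_lt.1 h1
  have h6 : Real.arcsin (Real.sin (Complex.arg (1 - x))) = Complex.arg (1 - x) :=
    Real.arcsin_sin (by linarith [h5.1]) (by linarith [h5.2])
  rw [abs_le] at h4 ⊢
  constructor
  · rw [← h6, ← Real.arcsin_neg]
    exact Real.monotone_arcsin h4.1
  · rw [← h6]
    exact Real.monotone_arcsin h4.2

/-- the bound for the sum over a triangle -/
theorem abs_S51_le (a b c : ℍ) :
    |S51 a b c| ≤ 2 * Real.arcsin (Real.tanh (dist a b / 2) * Real.tanh (dist a c / 2)) := by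
  rw [S51_eq_arg, abs_mul, abs_of_pos (by norm_num : (0 : ℝ) < 2)]
  have h1 : ‖Dv a b * (starRingEnd ℂ) (Dv a c)‖ =
      Real.tanh (dist a b / 2) * Real.tanh (dist a c / 2) := by
    rw [norm_mul, Complex.norm_conj, norm_Dv51, norm_Dv51]
  have h2 : ‖Dv a b * (starRingEnd ℂ) (Dv a c)‖ < 1 := by
    rw [h1]
    have e1 := tanh_half_lt_one51 a b
    have e2 := tanh_half_lt_one51 a c
    have e3 : 0 ≤ Real.tanh (dist a b / 2) := by rw [← norm_Dv51]; exact norm_nonneg _
    have e4 : 0 ≤ Real.tanh (dist a c / 2) := by rw [← norm_Dv51]; exact norm_nonneg _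
    nlinarith
  have h3 := abs_arg_one_sub_le51 h2
  rw [h1] at h3
  linarith

theorem S51_le (a b c : ℍ) :
    S51 a b c ≤ 2 * Real.arcsin (Real.tanh (dist a b / 2) * Real.tanh (dist a c / 2)) :=
  (le_abs_self _).trans (abs_S51_le a b c)

theorem tanh_mono51 {x y : ℝ} (h : x ≤ y) : Real.tanh x ≤ Real.tanh y := by
  rw [Real.tanh_eq_sinh_div_cosh, Real.tanh_eq_sinh_div_cosh,
    div_le_div_iff₀ (Real.cosh_pos _) (Real.cosh_pos _)]
  have h1 : 0 ≤ Real.sinh (y - x) := Real.sinh_nonneg_iff.2 (by linarith)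
  rw [Real.sinh_sub] at h1
  linarith

theorem tanh_nonneg51 {x : ℝ} (h : 0 ≤ x) : 0 ≤ Real.tanh x := by
  have := tanh_mono51 h
  rwa [Real.tanh_zero] at this

theorem uu_zero51 (d : ℝ) : uu d 0 = 0 := by
  unfold uu
  simp

theorem uu_mono51 {d : ℝ} (hd : 0 ≤ d) : Monotone (uu d) := by
  intro i j hij
  unfold uu
  have h1 : Real.tanh ((i : ℝ) * d / 2) ≤ Real.tanh ((j : ℝ) * d / 2) := by
    apply tanh_mono51
    have : (i : ℝ) ≤ j := by exact_mod_cast hij
    nlinarith
  have h2 := tanh_nonneg51 (x := d / 2) (by linarith)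
  have h3 := Real.monotone_arcsin (mul_le_mul_of_nonneg_left h1 h2)
  linarith

theorem uu_nonneg51 {d : ℝ} (hd : 0 ≤ d) (i : ℕ) : 0 ≤ uu d i := by
  have := uu_mono51 hd (Nat.zero_le i)
  rwa [uu_zero51] at this

theorem uu_le51 {d : ℝ} (hd : 0 ≤ d) (i : ℕ) :
    uu d i ≤ 2 * Real.arcsin (Real.tanh (d / 2)) := by
  unfold uu
  have h2 := tanh_nonneg51 (x := d / 2) (by linarith)
  have h4 := Real.tanh_lt_one ((i : ℝ) * d / 2)
  have h3 : Real.arcsin (Real.tanh (d / 2) * Real.tanh (i * d / 2)) ≤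
      Real.arcsin (Real.tanh (d / 2)) := by
    apply Real.monotone_arcsin
    nlinarith
  linarith

theorem S51_le_uu {d : ℝ} (hd : 0 ≤ d) {a b c : ℍ} {i : ℕ} (h1 : dist b c = d)
    (h2 : dist a b ≤ i * d) : S51 a b c ≤ uu d i := by
  rw [← S51_rot]
  refine (S51_le b c a).trans ?_
  unfold uu
  rw [h1, dist_comm b a]
  have h3 := tanh_nonneg51 (x := d / 2) (by linarith)
  have h4 : Real.tanh (dist a b / 2) ≤ Real.tanh ((i : ℝ) * d / 2) := by
    apply tanh_mono51
    linarith
  have h5 := Real.monotone_arcsin (mul_le_mul_of_nonneg_left h4 h3)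
  linarith

theorem S51_le_uu' {d : ℝ} (hd : 0 ≤ d) {a b c : ℍ} {i : ℕ} (h1 : dist b c = d)
    (h2 : dist a c ≤ i * d) : S51 a b c ≤ uu d i := by
  rw [← S51_rot, ← S51_rot]
  refine (S51_le c a b).trans ?_
  unfold uu
  rw [dist_comm c b, h1, dist_comm c a]
  have h3 := tanh_nonneg51 (x := d / 2) (by linarith)
  have h4 : Real.tanh (dist a c / 2) ≤ Real.tanh ((i : ℝ) * d / 2) := by
    apply tanh_mono51
    linarith
  have h5 := Real.monotone_arcsin (mul_le_mul_of_nonneg_left h4 h3)
  rw [mul_comm (Real.tanh (dist a c / 2))]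
  linarith

/-! ### The angle sum -/

open Pool.Agent.Penny in
/-- the angle sum of a positively oriented triangle -/
theorem ang_sum_eq51 {a b c : ℍ} (h : 0 < dt (Penny.kl a) (Penny.kl b) (Penny.kl c)) :
    Penny.ang a b c + Penny.ang b c a + Penny.ang c a b =
      Real.pi + 2 * Complex.arg (1 - (starRingEnd ℂ) (disc a b) * disc a c) := by
  have hba : b ≠ a := by
    rintro rfl
    simp [dt] at h
  have hca : c ≠ a := by
    rintro rfl
    simp [dt] at h
  have hcb : c ≠ b := by
    rintro rfl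
    unfold dt at h
    linarith [mul_comm ((Penny.kl c).1 - (Penny.kl a).1) ((Penny.kl c).2 - (Penny.kl a).2)]
  have hA := (disc_im_pos hba).2 h
  have hz := disc_ne hba
  have hw := disc_ne hca
  set z := disc a b with hzdef
  set w := disc a c with hwdef
  have hzw : z - w ≠ 0 := by
    intro h0
    have : z = w := sub_eq_zero.1 h0
    rw [this, div_self hw] at hA
    simp at hA
  have hwz : w - z ≠ 0 := fun h0 => hzw (by rw [← neg_sub, h0, neg_zero])
  have him : 0 < ((starRingEnd ℂ) z * w).im := by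
    rw [im_div_pos49 hz] at hA
    have h1 := Complex.normSq_pos.2 hz
    rw [mul_comm]
    by_contra hcon
    push Not at hcon
    have := div_nonpos_of_nonpos_of_nonneg hcon h1.le
    linarith
  set u := 1 - (starRingEnd ℂ) z * w with hu
  have hu1 : 0 < u.re := one_sub_re_pos (normSq_disc_lt a b) (normSq_disc_lt a c)
  have hu2 : u.im < 0 := by
    rw [hu, Complex.sub_im, Complex.one_im]; linarith
  have hu0 : u ≠ 0 := by
    intro h0; rw [h0] at hu1; simp at hu1
  have hua : -(Real.pi / 2) < Complex.arg u ∧ Complex.arg u < 0 := by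
    refine ⟨?_, Complex.arg_neg_iff.2 hu2⟩
    have := (Complex.abs_arg_lt_pi_div_two_iff.2 (Or.inl hu1))
    exact (abs_lt.1 this).1
  have hy : 0 < (z / (z - w)).im := by
    rw [im_div_pos49 hzw]
    have h1 := Complex.normSq_pos.2 hzw
    have h2 : (z * (starRingEnd ℂ) (z - w)).im = ((starRingEnd ℂ) z * w).im := by
      simp only [map_sub, Complex.mul_im, Complex.sub_re, Complex.sub_im, Complex.conj_re,
        Complex.conj_im]
      ring
    rw [h2]
    positivity
  have ht : 0 < ((w - z) / w).im := by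
    rw [im_div_pos49 hw]
    have h1 := Complex.normSq_pos.2 hw
    have h2 : ((w - z) * (starRingEnd ℂ) w).im = ((starRingEnd ℂ) z * w).im := by
      simp only [map_sub, Complex.mul_im, Complex.sub_re, Complex.sub_im, Complex.conj_re,
        Complex.conj_im]
      ring
    rw [h2]
    positivity
  have hE := arg_euclid hA hy ht (by
    field_simp
    ring)
  have hy1 := arg_pos49 hy
  have ht1 := arg_pos49 ht
  have hB : Penny.ang b c a = Complex.arg (z / (z - w)) + Complex.arg u := by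
    unfold Penny.ang
    rw [quot_b a b c hba hcb]
    exact Complex.arg_mul (div_ne_zero hz hzw) hu0 ⟨by linarith, by linarith⟩
  have hC : Penny.ang c a b = Complex.arg ((w - z) / w) + Complex.arg u := by
    unfold Penny.ang
    rw [quot_c a b c hca hba hcb]
    have h1 : 1 - (starRingEnd ℂ) (disc a c) * disc a b = (starRingEnd ℂ) u := by
      rw [hu, map_sub, map_one, map_mul, Complex.conj_conj, ← hzdef, ← hwdef]
      ring
    have h2 : (disc a c - disc a b) / disc a c / (1 - (starRingEnd ℂ) (disc a c) * disc a b) =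
        (((Complex.normSq u)⁻¹ : ℝ) : ℂ) * ((w - z) / w * u) := by
      rw [h1, ← hzdef, ← hwdef, Complex.ofReal_inv, ← Complex.mul_conj]
      have h3 : (starRingEnd ℂ) u ≠ 0 := by rw [Ne, map_eq_zero]; exact hu0
      field_simp
    have h4 := Complex.normSq_pos.2 hu0
    rw [h2, Complex.arg_real_mul _ (by positivity)]
    exact Complex.arg_mul (div_ne_zero hwz hw) hu0 ⟨by linarith, by linarith⟩
  have hAA : Penny.ang a b c = Complex.arg (w / z) := rfl
  rw [hAA, hB, hC]
  linarith

/-- for a positively oriented triangle the sum is `π` minus the angle sum -/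
theorem S51_eq_pi_sub {a b c : ℍ} (h : 0 < ori (kl a) (kl b) (kl c)) :
    S51 a b c = Real.pi - (ang a b c + ang b c a + ang c a b) := by
  have h' := h
  rw [kl_eq49, kl_eq49, kl_eq49, ori_eq49] at h'
  have h1 := ang_sum_eq51 h'
  rw [← ang_eq49, ← ang_eq49, ← ang_eq49] at h1
  rw [h1, S51_eq_arg]
  have h2 : 1 - (starRingEnd ℂ) (Pool.Agent.Penny.disc a b) * Pool.Agent.Penny.disc a c =
      (starRingEnd ℂ) (1 - Dv a b * (starRingEnd ℂ) (Dv a c)) := by
    rw [map_sub, map_one, map_mul, Complex.conj_conj, Dv_eq49, Dv_eq49]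
  rw [h2, Complex.arg_conj, if_neg]
  · ring
  · intro h3
    have h4 := (abs_lt.1 (abs_arg_one_sub51 a b c)).2
    rw [h3] at h4
    linarith [Real.pi_pos]

/-- positively oriented triangles have a positive sum -/
theorem S51_pos {a b c : ℍ} (h : 0 < ori (kl a) (kl b) (kl c)) : 0 < S51 a b c := by
  rw [S51_eq_pi_sub h]
  have := ang_sum h
  linarith

theorem ori_swap51 (a b c : Pt) : ori a c b = - ori a b c := by
  unfold ori; ring

/-- the sign of the sum is the orientation -/
theorem S51_sign (a b c : ℍ) :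
    (0 < ori (kl a) (kl b) (kl c) ∧ 0 < S51 a b c) ∨
    (ori (kl a) (kl b) (kl c) = 0 ∧ S51 a b c = 0) ∨
    (ori (kl a) (kl b) (kl c) < 0 ∧ S51 a b c < 0) := by
  rcases lt_trichotomy (ori (kl a) (kl b) (kl c)) 0 with h | h | h
  · right; right
    refine ⟨h, ?_⟩
    have h1 : 0 < ori (kl a) (kl c) (kl b) := by rw [ori_swap51]; linarith
    have h2 := S51_pos h1
    rw [S51_swap] at h2
    linarith
  · right; left
    refine ⟨h, ?_⟩
    by_cases hb : b = a
    · rw [hb]; exact S51_self₁ a c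
    · have h1 : ¬ 0 < (Dv a c / Dv a b).im := by
        intro h2
        have := (ori_pos_iff a b c).2 h2
        linarith
      by_cases hc : c = a
      · rw [hc]; exact S51_self₃ a b
      · have h2 : ¬ 0 < (Dv a b / Dv a c).im := by
          intro h2
          have := (ori_pos_iff a c b).2 h2
          rw [ori_swap51] at this
          linarith
        have hz : Dv a b ≠ 0 := by
          rw [Dv_eq49]; exact Pool.Agent.Penny.disc_ne hb
        have hw : Dv a c ≠ 0 := by
          rw [Dv_eq49]; exact Pool.Agent.Penny.disc_ne hc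
        have n1 := Complex.normSq_pos.2 hz
        have n2 := Complex.normSq_pos.2 hw
        rw [Pool.Agent.Penny.im_div_pos49 hz] at h1
        rw [Pool.Agent.Penny.im_div_pos49 hw] at h2
        have e : (Dv a c * (starRingEnd ℂ) (Dv a b)).im =
            - (Dv a b * (starRingEnd ℂ) (Dv a c)).im := by
          simp only [Complex.mul_im, Complex.conj_re, Complex.conj_im]
          ring
        have h3 : (Dv a b * (starRingEnd ℂ) (Dv a c)).im = 0 := by
          apply le_antisymm
          · by_contra hcon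
            push Not at hcon
            exact h2 (div_pos hcon n2)
          · by_contra hcon
            push Not at hcon
            exact h1 (div_pos (by rw [e]; linarith) n1)
        rw [S51_eq_arg]
        have h4 := one_sub_re_pos51 a b c
        have h5 : Complex.arg (1 - Dv a b * (starRingEnd ℂ) (Dv a c)) = 0 := by
          rw [Complex.arg_eq_zero_iff]
          refine ⟨h4.le, ?_⟩
          rw [Complex.sub_im, Complex.one_im, h3, sub_zero]
        rw [h5, mul_zero]
  · left
    exact ⟨h, S51_pos h⟩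

theorem S51_pos_iff (a b c : ℍ) : 0 < S51 a b c ↔ 0 < ori (kl a) (kl b) (kl c) := by
  rcases S51_sign a b c with h | h | h
  · exact ⟨fun _ => h.1, fun _ => h.2⟩
  · exact ⟨fun h' => by linarith [h.2], fun h' => by linarith [h.1]⟩
  · exact ⟨fun h' => by linarith [h.2], fun h' => by linarith [h.1]⟩

theorem S51_nonneg_iff (a b c : ℍ) : 0 ≤ S51 a b c ↔ 0 ≤ ori (kl a) (kl b) (kl c) := by
  rcases S51_sign a b c with h | h | h
  · exact ⟨fun _ => h.1.le, fun _ => h.2.le⟩
  · exact ⟨fun h' => h.1.ge, fun h' => h.2.ge⟩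
  · exact ⟨fun h' => by linarith [h.2], fun h' => by linarith [h.1]⟩

/-! ### Isosceles triangles -/

/-- the area of the triangle with two sides `d` and the angle `ψ` between them -/
def sis51 (d ψ : ℝ) : ℝ :=
  2 * Real.arctan (Real.tanh (d / 2) ^ 2 * Real.sin ψ /
    (1 - Real.tanh (d / 2) ^ 2 * Real.cos ψ))

/-- `1 - z conj w` in polar coordinates -/
theorem polar51 {a b c : ℍ} (hb : b ≠ a) (hc : c ≠ a) :
    Dv a b * (starRingEnd ℂ) (Dv a c) =
      ((Real.tanh (dist a b / 2) * Real.tanh (dist a c / 2) : ℝ) : ℂ) *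
        ⟨Real.cos (ang a b c), - Real.sin (ang a b c)⟩ := by
  have hz : Dv a b ≠ 0 := by
    rw [Dv_eq49]; exact Pool.Agent.Penny.disc_ne hb
  have hw : Dv a c ≠ 0 := by
    rw [Dv_eq49]; exact Pool.Agent.Penny.disc_ne hc
  have hq : Dv a c / Dv a b ≠ 0 := div_ne_zero hw hz
  have n1 : 0 < ‖Dv a b‖ := norm_pos_iff.2 hz
  have n2 : 0 < ‖Dv a c‖ := norm_pos_iff.2 hw
  have e1 : (⟨Real.cos (ang a b c), - Real.sin (ang a b c)⟩ : ℂ) =
      (starRingEnd ℂ) ((Dv a c / Dv a b) / ((‖Dv a c / Dv a b‖ : ℝ) : ℂ)) := by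
    have hn : ‖Dv a c / Dv a b‖ ≠ 0 := norm_ne_zero_iff.2 hq
    apply Complex.ext
    · rw [Complex.conj_re, Complex.div_ofReal_re]
      show Real.cos (Complex.arg _) = _
      rw [Complex.cos_arg hq]
    · rw [Complex.conj_im, Complex.div_ofReal_im]
      show - Real.sin (Complex.arg _) = _
      rw [Complex.sin_arg]
  rw [e1, ← norm_Dv51, ← norm_Dv51, norm_div, map_div₀, map_div₀, Complex.conj_ofReal]
  have e2 : (starRingEnd ℂ) (Dv a b) * Dv a b = ((‖Dv a b‖ * ‖Dv a b‖ : ℝ) : ℂ) := by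
    rw [mul_comm, Complex.mul_conj, Complex.normSq_eq_norm_sq]
    push_cast
    ring
  have hzc : (starRingEnd ℂ) (Dv a b) ≠ 0 := by rw [Ne, map_eq_zero]; exact hz
  have m1 : ((‖Dv a b‖ : ℝ) : ℂ) ≠ 0 := by exact_mod_cast n1.ne'
  have m2 : ((‖Dv a c‖ : ℝ) : ℂ) ≠ 0 := by exact_mod_cast n2.ne'
  push_cast at e2 ⊢
  field_simp
  linear_combination (starRingEnd ℂ) (Dv a c) * e2

/-- the sum over a triangle from two sides and the angle between them -/
theorem S51_sas {a b c : ℍ} (hb : b ≠ a) (hc : c ≠ a) :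
    S51 a b c = 2 * Real.arctan (Real.tanh (dist a b / 2) * Real.tanh (dist a c / 2) *
      Real.sin (ang a b c) / (1 - Real.tanh (dist a b / 2) * Real.tanh (dist a c / 2) *
        Real.cos (ang a b c))) := by
  rw [S51_eq_arg]
  have h1 := abs_lt.1 (abs_arg_one_sub51 a b c)
  rw [← Real.arctan_tan h1.1 h1.2, Complex.tan_arg, polar51 hb hc]
  congr 2
  rw [Complex.sub_re, Complex.sub_im, Complex.one_re, Complex.one_im, Complex.re_ofReal_mul,
    Complex.im_ofReal_mul]
  congr 1
  ring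

/-- isosceles triangles -/
theorem S51_isosceles {d : ℝ} (hd : 0 < d) {a b c : ℍ} (h1 : dist a b = d) (h2 : dist a c = d) :
    S51 a b c = sis51 d (ang a b c) := by
  have hb : b ≠ a := by
    rintro rfl
    rw [dist_self] at h1
    linarith
  have hc : c ≠ a := by
    rintro rfl
    rw [dist_self] at h2
    linarith
  rw [S51_sas hb hc, h1, h2]
  unfold sis51
  rw [sq]

/-! ### The forms of the blueprint -/

theorem kap_anti (z w : ℍ) : kap z w = - kap w z := kap_swap51 w z

/-- P1 -/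
theorem S_eq (a b c : ℍ) : kap a b + kap b c + kap c a =
    2 * Complex.arg (1 - Dv a b * (starRingEnd ℂ) (Dv a c)) := S51_eq_arg a b c

/-- P2 -/
theorem S_le (a b c : ℍ) : kap a b + kap b c + kap c a ≤
    2 * Real.arcsin (Real.tanh (dist a b / 2) * Real.tanh (dist a c / 2)) := S51_le a b c

/-- P3 -/
theorem S_tri {a b c : ℍ} (h : 0 < ori (kl a) (kl b) (kl c)) :
    kap a b + kap b c + kap c a = Real.pi - (ang a b c + ang b c a + ang c a b) :=
  S51_eq_pi_sub h

end

end Pool.Agent.PEN
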