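import Pool.Agent.PEN.C21

/-! # Row S: total angle of the invariant sets of directions -/

set_option autoImplicit false

namespace Pool.Agent.PEN

open Classical

noncomputable section

/-- the imaginary part of a quotient by the difference of the arguments -/
theorem im_div21 {a b : ℂ} (ha : a ≠ 0) (hb : b ≠ 0) :
    (b / a).im = ‖b / a‖ * Real.sin (Complex.arg b - Complex.arg a) := by
  have h1 : ((Complex.arg (b / a) : ℝ) : Real.Angle)
      = ((Complex.arg b - Complex.arg a : ℝ) : Real.Angle) := by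
    rw [Complex.arg_div_coe_angle hb ha, Real.Angle.coe_sub]
  have h2 : Real.sin (Complex.arg (b / a)) = Real.sin (Complex.arg b - Complex.arg a) := by
    rw [← Real.Angle.sin_coe, h1, Real.Angle.sin_coe]
  rw [← h2, Complex.norm_mul_sin_arg]

/-- S1: exact version of `turn` (cell C): the numbers `z s` are pairwise different directions, `σ s`
is the next direction counterclockwise: no other direction lies strictly between -/
theorem turn_eq {ι : Type} (S : Finset ι) (z : ι → ℂ) (σ : ι → ι) (h0 : ∀ s ∈ S, z s ≠ 0)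
    (hσ : ∀ s ∈ S, σ s ∈ S) (hinj : Set.InjOn σ (S : Set ι))
    (him : ∀ s ∈ S, 0 < (z (σ s) / z s).im)
    (hnb : ∀ s ∈ S, ∀ t ∈ S, ¬ (0 < (z t / z s).im ∧ 0 < (z (σ s) / z t).im))
    (hdir : ∀ s ∈ S, ∀ t ∈ S, 0 < (z t / z s).re → (z t / z s).im = 0 → s = t)
    (hne : S.Nonempty) :
    ∑ s ∈ S, Complex.arg (z (σ s) / z s) = 2 * Real.pi := by
  have hpi := Real.pi_pos
  have hpos : ∀ s ∈ S, 0 < Complex.arg (z (σ s) / z s) := by
    intro s hs
    rcases lt_or_eq_of_le (Complex.arg_nonneg_iff.2 (him s hs).le) with h | h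
    · exact h
    · exact absurd (Complex.arg_eq_zero_iff.1 h.symm).2 (him s hs).ne'
  have hlt : ∀ s ∈ S, Complex.arg (z (σ s) / z s) < Real.pi := by
    intro s hs
    rcases lt_or_eq_of_le (Complex.arg_le_pi (z (σ s) / z s)) with h | h
    · exact h
    · exact absurd (Complex.arg_eq_pi_iff.1 h).2 (him s hs).ne'
  have hch : ∀ s, ∃ n : ℤ, s ∈ S →
      Complex.arg (z (σ s) / z s) = Complex.arg (z (σ s)) - Complex.arg (z s) + 2 * Real.pi * n ∧
      0 ≤ n ∧ (Complex.arg (z (σ s)) ≤ Complex.arg (z s) → 1 ≤ n) := by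
    intro s
    by_cases hs : s ∈ S
    · obtain ⟨n, hn⟩ := turn_step21 (h0 s hs) (h0 _ (hσ s hs)) (him s hs)
      exact ⟨n, fun _ => hn⟩
    · exact ⟨0, fun h => absurd h hs⟩
  choose n hn using hch
  have himg : S.image σ = S := by
    apply Finset.eq_of_subset_of_card_le
    · intro t ht
      obtain ⟨s, hs, rfl⟩ := Finset.mem_image.1 ht
      exact hσ s hs
    · rw [Finset.card_image_of_injOn hinj]
  have hsum : ∑ s ∈ S, Complex.arg (z (σ s)) = ∑ s ∈ S, Complex.arg (z s) := by
    conv_rhs => rw [← himg]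
    rw [Finset.sum_image hinj]
  have hall : ∑ s ∈ S, Complex.arg (z (σ s) / z s) = 2 * Real.pi * ((∑ s ∈ S, n s : ℤ) : ℝ) := by
    rw [Finset.sum_congr rfl (fun s hs => (hn s hs).1), Finset.sum_add_distrib,
      Finset.sum_sub_distrib, hsum, sub_self, zero_add, Int.cast_sum, Finset.mul_sum]
  -- a step with `n = 0` increases the argument, a step with `n ≥ 1` has `n = 1`
  have hle1 : ∀ s ∈ S, n s ≤ 1 := by
    intro s hs
    by_contra hc
    have h5 : (2 : ℤ) ≤ n s := by omega
    have h6 : (2 : ℝ) ≤ (n s : ℝ) := by exact_mod_cast h5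
    have h7 := (hn s hs).1
    have h8 := hlt s hs
    have h9 := Complex.neg_pi_lt_arg (z (σ s))
    have h10 := Complex.arg_le_pi (z s)
    nlinarith
  -- a step with `n = 1` starts at the largest argument
  have hmaxi : ∀ s ∈ S, n s ≠ 0 → ∀ t ∈ S, Complex.arg (z t) ≤ Complex.arg (z s) := by
    intro s hs hns t ht
    by_contra hc
    have hc' : Complex.arg (z s) < Complex.arg (z t) := lt_of_not_ge hc
    have h1 : n s = 1 := by
      have := (hn s hs).2.1
      have := hle1 s hs
      omega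
    have h7 := (hn s hs).1
    rw [h1] at h7
    have h8 := hlt s hs
    have h9 := Complex.neg_pi_lt_arg (z (σ s))
    have h10 := Complex.arg_le_pi (z t)
    have h11 : Complex.arg (z (σ s)) - Complex.arg (z s) + 2 * Real.pi < Real.pi := by
      push_cast at h7
      linarith
    refine hnb s hs t ht ⟨?_, ?_⟩
    · rw [im_div21 (h0 s hs) (h0 t ht)]
      refine mul_pos (norm_pos_iff.2 (div_ne_zero (h0 t ht) (h0 s hs))) ?_
      apply Real.sin_pos_of_pos_of_lt_pi
      · linarith
      · linarith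
    · rw [im_div21 (h0 t ht) (h0 _ (hσ s hs))]
      refine mul_pos (norm_pos_iff.2 (div_ne_zero (h0 _ (hσ s hs)) (h0 t ht))) ?_
      rw [← Real.sin_add_two_pi]
      apply Real.sin_pos_of_pos_of_lt_pi
      · linarith
      · linarith
  -- so there is exactly one
  have huni : ∀ s ∈ S, ∀ t ∈ S, n s ≠ 0 → n t ≠ 0 → s = t := by
    intro s hs t ht h1 h2
    have h3 := hmaxi s hs h1 t ht
    have h4 := hmaxi t ht h2 s hs
    have h5 : Complex.arg (z t) = Complex.arg (z s) := le_antisymm h3 h4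
    have h6 : ((Complex.arg (z t / z s) : ℝ) : Real.Angle) = 0 := by
      rw [Complex.arg_div_coe_angle (h0 t ht) (h0 s hs), h5, sub_self]
    have h7 : Complex.arg (z t / z s) = 0 := by
      have h8 : ((Complex.arg (z t / z s) : ℝ) : Real.Angle).toReal = 0 := by
        rw [h6, Real.Angle.toReal_zero]
      rwa [Real.Angle.toReal_coe_eq_self_iff.2
        ⟨Complex.neg_pi_lt_arg _, Complex.arg_le_pi _⟩] at h8
    have h8 := Complex.arg_eq_zero_iff.1 h7
    refine hdir s hs t ht ?_ h8.2
    refine lt_of_le_of_ne h8.1 (fun h9 => ?_)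
    exact div_ne_zero (h0 t ht) (h0 s hs) (Complex.ext h9.symm h8.2)
  obtain ⟨m, hm, hmax⟩ := Finset.exists_max_image S (fun s => Complex.arg (z s)) hne
  have hm1 : 1 ≤ n m := (hn m hm).2.2 (hmax _ (hσ m hm))
  have hm2 : n m = 1 := le_antisymm (hle1 m hm) hm1
  have hone : ∑ s ∈ S, n s = 1 := by
    rw [← hm2]
    apply Finset.sum_eq_single_of_mem m hm
    intro t ht htm
    by_contra hc
    exact htm (huni t ht m hm hc (by omega))
  rw [hall, hone]
  push_cast
  ring

/-- S2: no invariant set in a closed half plane -/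
theorem no_turn {ι : Type} (S : Finset ι) (z : ι → ℂ) (σ : ι → ι) (h0 : ∀ s ∈ S, z s ≠ 0)
    (hσ : ∀ s ∈ S, σ s ∈ S) (him : ∀ s ∈ S, 0 < (z (σ s) / z s).im) (w : ℂ) (hw : w ≠ 0)
    (hhp : ∀ s ∈ S, 0 ≤ (z s / w).im) (hne : S.Nonempty) : False := by
  have hpi := Real.pi_pos
  obtain ⟨m, hm, hmax⟩ := Finset.exists_max_image S (fun s => Complex.arg (z s / w)) hne
  have h1 := hmax _ (hσ m hm)
  have hy0 : z m / w ≠ 0 := div_ne_zero (h0 m hm) hw
  have hy1 : z (σ m) / w ≠ 0 := div_ne_zero (h0 _ (hσ m hm)) hw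
  have h2 := im_div21 hy0 hy1
  rw [div_div_div_cancel_right₀ hw] at h2
  have h3 := him m hm
  rw [h2] at h3
  have h4 : Real.sin (Complex.arg (z (σ m) / w) - Complex.arg (z m / w)) ≤ 0 := by
    apply Real.sin_nonpos_of_nonpos_of_neg_pi_le
    · linarith
    · have h5 := Complex.arg_nonneg_iff.2 (hhp _ (hσ m hm))
      have h6 := Complex.arg_le_pi (z m / w)
      linarith
  have h5 := norm_nonneg (z (σ m) / z m)
  nlinarith

end

end Pool.Agent.PEN
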