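import Pool.Agent.P4.Defs
import Pool.Agent.PEN.B39b

/-! # Hyperbolic penny graphs, part 2: the rhombus (rows X1, X2, X3) -/

set_option autoImplicit false

namespace Pool.Agent.PEN

open Classical UpperHalfPlane

noncomputable section

open Penny39 in
/-- apex angle `γ` and base angle `β` of an isosceles triangle with legs `d`, base `D` -/
private lemma iso_sq39 {d D γ β : ℝ} (hd : 0 < d) (hD : 0 < D)
    (hγ : Penny39.Cos D d d γ) (hβ : Penny39.Cos d d D β) :
    Real.cos β ^ 2 * (Real.cosh d ^ 2 + 1 - (Real.cosh d ^ 2 - 1) * Real.cos γ) =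
      Real.cosh d ^ 2 * (1 - Real.cos γ) := by
  have hc := Penny39.cosh_gt_one hd
  have h2 : Real.cosh D = Real.cosh d * Real.cosh d - Real.sinh d * Real.sinh d * Real.cos γ := hγ
  rw [Penny39.sinh_sq'] at h2
  have h3 := Penny39.base_sq hD hβ
  rw [h2] at h3
  have h4 : 0 < Real.cosh d ^ 2 - 1 := by nlinarith
  have h5 : (Real.cosh d ^ 2 - 1) * (Real.cos β ^ 2 * (Real.cosh d ^ 2 + 1 -
      (Real.cosh d ^ 2 - 1) * Real.cos γ)) = (Real.cosh d ^ 2 - 1) *
      (Real.cosh d ^ 2 * (1 - Real.cos γ)) := by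
    linear_combination h3
  exact mul_left_cancel₀ h4.ne' h5

/-- `cosh d = cot (γ/2) cot β` -/
private lemma iso_cot39 {d D γ β : ℝ} (hd : 0 < d) (hD : 0 < D)
    (hγ : Penny39.Cos D d d γ) (hβ : Penny39.Cos d d D β)
    (h0 : 0 ≤ γ) (h1 : γ ≤ Real.pi) (b0 : 0 ≤ β) (b1 : β ≤ Real.pi) :
    Real.cos (γ / 2) * Real.cos β = Real.cosh d * (Real.sin (γ / 2) * Real.sin β) := by
  have h := iso_sq39 hd hD hγ hβ
  have hb := Penny39.base_pos hd hD hβ
  have hc := Penny39.cosh_gt_one hd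
  have e : Real.cos γ = 2 * Real.cos (γ / 2) ^ 2 - 1 := by
    rw [← Real.cos_two_mul]; ring_nf
  have hs := Real.sin_sq_add_cos_sq (γ / 2)
  have hs' := Real.sin_sq_add_cos_sq β
  have c1 : 0 ≤ Real.cos (γ / 2) :=
    Real.cos_nonneg_of_mem_Icc ⟨by linarith [Real.pi_pos], by linarith⟩
  have s1 : 0 ≤ Real.sin (γ / 2) :=
    Real.sin_nonneg_of_nonneg_of_le_pi (by linarith) (by linarith [Real.pi_pos])
  have s2 : 0 ≤ Real.sin β := Real.sin_nonneg_of_nonneg_of_le_pi b0 b1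
  have h2 : (Real.cos (γ / 2) * Real.cos β) ^ 2 =
      (Real.cosh d * (Real.sin (γ / 2) * Real.sin β)) ^ 2 := by
    rw [e] at h
    have e1 : Real.sin (γ / 2) ^ 2 = 1 - Real.cos (γ / 2) ^ 2 := by linarith
    have e2 : Real.sin β ^ 2 = 1 - Real.cos β ^ 2 := by linarith
    rw [mul_pow, mul_pow, mul_pow, e1, e2]
    linear_combination h / 2
  have h3 : 0 ≤ Real.cos (γ / 2) * Real.cos β := mul_nonneg c1 hb.le
  have h4 : 0 ≤ Real.cosh d * (Real.sin (γ / 2) * Real.sin β) :=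
    mul_nonneg (by linarith) (mul_nonneg s1 s2)
  exact (pow_left_inj₀ h3 h4 two_ne_zero).1 h2

private lemma iso_cos39 {d D γ β : ℝ} (hd : 0 < d) (hD : 0 < D)
    (hγ : Penny39.Cos D d d γ) (hβ : Penny39.Cos d d D β)
    (h0 : 0 ≤ γ) (h1 : γ ≤ Real.pi) (b0 : 0 ≤ β) (b1 : β ≤ Real.pi) :
    Real.cos (γ / 2 + β) * (Real.cosh d + 1) = (Real.cosh d - 1) * Real.cos (γ / 2 - β) := by
  have h := iso_cot39 hd hD hγ hβ h0 h1 b0 b1
  rw [Real.cos_add, Real.cos_sub]
  linear_combination 2 * h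

/-- the common data of a rhombus -/
private lemma rhomb_data39 {d : ℝ} (hd : 0 < d) {a b p q : ℍ} (h1 : 0 < ori (kl a) (kl b) (kl p))
    (h2 : 0 < ori (kl b) (kl a) (kl q)) (hbp : dist b p = d) (hpa : dist p a = d)
    (haq : dist a q = d) (hqb : dist q b = d) (hab : d ≤ dist a b) (hpq : d ≤ dist p q) :
    (0 < ang p a b ∧ ang p a b < Real.pi) ∧ (0 < ang a b p ∧ ang a b p < Real.pi) ∧
    (0 < ang a q b ∧ ang a q b < Real.pi) ∧
    Penny39.Cos (dist a b) d d (ang p a b) ∧ Penny39.Cos d d (dist a b) (ang a b p) ∧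
    Penny39.Cos d d (dist a b) (ang a q b) ∧
    Penny39.Cos (dist p q) d d (ang a b p + ang a q b) := by
  have nab : b ≠ a := (ne_of_dist39 hd hab).symm
  have nbp : p ≠ b := (ne_of_dist39 hd hbp.ge).symm
  have npa : a ≠ p := (ne_of_dist39 hd hpa.ge).symm
  have naq : q ≠ a := (ne_of_dist39 hd haq.ge).symm
  have o1 : 0 < ori (kl p) (kl a) (kl b) := by rw [ori_rot39]; exact h1
  have o2 : 0 < ori (kl a) (kl q) (kl b) := by rw [← ori_rot39]; exact h2
  refine ⟨ang_pos o1, ang_pos h1, ang_pos o2, ?_, ?_, ?_, ?_⟩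
  · have := cosh_law npa nbp.symm
    rw [hpa, dist_comm p b, hbp] at this
    exact this
  · have := cosh_law nab npa.symm
    rw [hbp, dist_comm a p, hpa] at this
    unfold Penny39.Cos
    linarith
  · have := cosh_law naq nab
    rw [hqb, haq] at this
    unfold Penny39.Cos
    linarith
  · have := cosh_law naq npa.symm
    rw [haq, dist_comm a p, hpa, dist_comm q p, cos_ang_add39 naq nab npa.symm] at this
    unfold Penny39.Cos
    rw [add_comm (ang a b p)]
    exact this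

private lemma base_unique39 {d D β β' : ℝ} (hd : 0 < d) (hD : 0 < D)
    (b0 : 0 ≤ β) (b1 : β ≤ Real.pi) (c0 : 0 ≤ β') (c1 : β' ≤ Real.pi)
    (h : Penny39.Cos d d D β) (h' : Penny39.Cos d d D β') : β' = β := by
  refine Real.injOn_cos ⟨c0, c1⟩ ⟨b0, b1⟩ ?_
  have e1 : Real.cosh d = Real.cosh d * Real.cosh D - Real.sinh d * Real.sinh D * Real.cos β := h
  have e2 : Real.cosh d = Real.cosh d * Real.cosh D - Real.sinh d * Real.sinh D * Real.cos β' := h'
  have h3 : 0 < Real.sinh d * Real.sinh D :=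
    mul_pos (Real.sinh_pos_iff.2 hd) (Real.sinh_pos_iff.2 hD)
  have h5 : Real.sinh d * Real.sinh D * (Real.cos β' - Real.cos β) = 0 := by linarith
  rcases mul_eq_zero.1 h5 with h4 | h4
  · linarith
  · linarith

private lemma apex_unique39 {d D γ γ' : ℝ} (hd : 0 < d)
    (b0 : 0 ≤ γ) (b1 : γ ≤ Real.pi) (c0 : 0 ≤ γ') (c1 : γ' ≤ Real.pi)
    (h : Penny39.Cos D d d γ) (h' : Penny39.Cos D d d γ') : γ' = γ := by
  refine Real.injOn_cos ⟨c0, c1⟩ ⟨b0, b1⟩ ?_
  have e1 : Real.cosh D = Real.cosh d * Real.cosh d - Real.sinh d * Real.sinh d * Real.cos γ := h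
  have e2 : Real.cosh D = Real.cosh d * Real.cosh d - Real.sinh d * Real.sinh d * Real.cos γ' := h'
  have h3 : 0 < Real.sinh d * Real.sinh d :=
    mul_pos (Real.sinh_pos_iff.2 hd) (Real.sinh_pos_iff.2 hd)
  have h5 : Real.sinh d * Real.sinh d * (Real.cos γ' - Real.cos γ) = 0 := by linarith
  rcases mul_eq_zero.1 h5 with h4 | h4
  · linarith
  · linarith

/-- X1: lower bounds at the corners of a rhombus (same hypotheses as `rhombus`) -/
theorem rhombus_ge {d : ℝ} (hd : 0 < d) {a b p q : ℍ} (h1 : 0 < ori (kl a) (kl b) (kl p))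
    (h2 : 0 < ori (kl b) (kl a) (kl q)) (hbp : dist b p = d) (hpa : dist p a = d)
    (haq : dist a q = d) (hqb : dist q b = d) (hab : d ≤ dist a b) (hpq : d ≤ dist p q) :
    alpha d ≤ ang p a b ∧ alpha d ≤ ang a b p + ang a q b := by
  obtain ⟨⟨g0, g1⟩, ⟨b0, b1⟩, ⟨c0, c1⟩, eγ, eβ, eβ', ed⟩ :=
    rhomb_data39 hd h1 h2 hbp hpa haq hqb hab hpq
  have hl := cos_alpha_law39 hd
  exact ⟨Penny39.apex_ge hd hab (alpha_le_pi39 d) g0.le hl eγ,
    Penny39.apex_ge hd hpq (alpha_le_pi39 d) (by linarith) hl ed⟩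

/-- X2: area of the rhombus -/
theorem rhombus_area {d : ℝ} (hd : 0 < d) {a b p q : ℍ} (h1 : 0 < ori (kl a) (kl b) (kl p))
    (h2 : 0 < ori (kl b) (kl a) (kl q)) (hbp : dist b p = d) (hpa : dist p a = d)
    (haq : dist a q = d) (hqb : dist q b = d) (hab : d ≤ dist a b) (hpq : d ≤ dist p q) :
    2 * A3 (alpha d) ≤ (Real.pi - (ang a b p + ang b p a + ang p a b)) +
      (Real.pi - (ang b a q + ang a q b + ang q b a)) := by
  obtain ⟨⟨g0, g1⟩, ⟨b0, b1⟩, ⟨c0, c1⟩, eγ, eβ, eβ', ed⟩ :=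
    rhomb_data39 hd h1 h2 hbp hpa haq hqb hab hpq
  -- the other side of the diagonal
  obtain ⟨⟨k0, k1⟩, ⟨l0, l1⟩, ⟨m0, m1⟩, fγ, fβ, fβ', fd⟩ :=
    rhomb_data39 hd h2 h1 haq hqb hbp hpa (by rw [dist_comm b a]; exact hab)
      (by rw [dist_comm q p]; exact hpq)
  rw [dist_comm b a] at fγ fβ fβ'
  have hD : 0 < dist a b := by linarith
  have hc := Penny39.cosh_gt_one hd
  have u1 : ang a q b = ang a b p := base_unique39 hd hD b0.le b1.le c0.le c1.le eβ eβ'
  have u2 : ang b a q = ang a b p := base_unique39 hd hD b0.le b1.le l0.le l1.le eβ fβ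
  have u3 : ang b p a = ang a b p := base_unique39 hd hD b0.le b1.le m0.le m1.le eβ fβ'
  have u4 : ang q b a = ang p a b := apex_unique39 hd g0.le g1.le k0.le k1.le eγ fγ
  obtain ⟨r1, r2⟩ := rhombus hd h1 h2 hbp hpa haq hqb hab hpq
  obtain ⟨s1, s2⟩ := rhombus_ge hd h1 h2 hbp hpa haq hqb hab hpq
  rw [u1] at r2 s2
  rw [u1, u2, u3, u4]
  have hal := alpha_lt hd
  have hal0 := alpha_pos hd
  have hl := cos_alpha_law39 hd
  have e1 := iso_cos39 hd hD eγ eβ g0.le g1.le b0.le b1.le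
  have e2 := iso_cos39 hd hd hl hl hal0.le (alpha_le_pi39 d) hal0.le (alpha_le_pi39 d)
  set x := ang p a b with hx
  set y := ang a b p with hy
  -- cos (x/2 - y) ≥ cos (alpha/2)
  have h5 : Real.cos (alpha d / 2) ≤ Real.cos (x / 2 - y) := by
    rw [← Real.cos_abs (x / 2 - y)]
    refine Real.cos_le_cos_of_nonneg_of_le_pi (abs_nonneg _) (by linarith [Real.pi_pos]) ?_
    rw [abs_le]
    constructor <;> linarith
  have h6 : Real.cos (alpha d / 2 - alpha d) = Real.cos (alpha d / 2) := by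
    rw [show alpha d / 2 - alpha d = -(alpha d / 2) by ring, Real.cos_neg]
  rw [h6] at e2
  have h7 : Real.cos (alpha d / 2 + alpha d) ≤ Real.cos (x / 2 + y) := by
    have h8 := mul_le_mul_of_nonneg_left h5 (show 0 ≤ Real.cosh d - 1 by linarith)
    rw [← e1, ← e2] at h8
    exact le_of_mul_le_mul_right h8 (by linarith)
  have h9 : x / 2 + y ≤ alpha d / 2 + alpha d := by
    by_contra hcon
    push Not at hcon
    have := Real.cos_lt_cos_of_nonneg_of_le_pi (by linarith) (by linarith) hcon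
    linarith
  unfold A3
  linarith

private lemma cos_five39 (x : ℝ) : Real.cos (5 * x) =
    16 * Real.cos x ^ 5 - 20 * Real.cos x ^ 3 + 5 * Real.cos x := by
  have h := Real.sin_sq_add_cos_sq x
  have h1 : Real.sin x ^ 2 = 1 - Real.cos x ^ 2 := by linarith
  rw [show 5 * x = 2 * x + 3 * x by ring, Real.cos_add, Real.cos_two_mul, Real.cos_three_mul,
    Real.sin_two_mul, Real.sin_three_mul]
  have h2 : 2 * Real.sin x * Real.cos x * (3 * Real.sin x - 4 * Real.sin x ^ 3) =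
      2 * Real.cos x * Real.sin x ^ 2 * (3 - 4 * Real.sin x ^ 2) := by ring
  rw [h2, h1]
  ring

/-- X3: no square with angle `2π - 5 alpha` -/
theorem no_square {d : ℝ} (hd : 0 < d) (hC : 27 / 20 ≤ Real.cosh d)
    (ha : 2 * Real.pi < 7 * alpha d) {a b p q : ℍ} (h1 : 0 < ori (kl a) (kl b) (kl p))
    (h2 : 0 < ori (kl b) (kl a) (kl q)) (hbp : dist b p = d) (hpa : dist p a = d)
    (haq : dist a q = d) (hqb : dist q b = d) (hab : d ≤ dist a b) (hpq : d ≤ dist p q)
    (e1 : ang p a b = 2 * Real.pi - 5 * alpha d)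
    (e2 : ang a b p + ang a q b = 2 * Real.pi - 5 * alpha d) : False := by
  obtain ⟨⟨g0, g1⟩, ⟨b0, b1⟩, ⟨c0, c1⟩, eγ, eβ, eβ', ed⟩ :=
    rhomb_data39 hd h1 h2 hbp hpa haq hqb hab hpq
  have hD : 0 < dist a b := by linarith
  have hc := Penny39.cosh_gt_one hd
  have u1 : ang a q b = ang a b p := base_unique39 hd hD b0.le b1.le c0.le c1.le eβ eβ'
  rw [u1] at e2
  have h3 := iso_sq39 hd hD eγ eβ
  have h4 : Real.cos (ang a b p) ^ 2 = (Real.cos (5 * alpha d) + 1) / 2 := by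
    have : Real.cos (2 * ang a b p) = Real.cos (5 * alpha d) := by
      rw [show 2 * ang a b p = 2 * Real.pi - 5 * alpha d by linarith, Real.cos_two_pi_sub]
    rw [Real.cos_two_mul] at this
    linarith
  have h5 : Real.cos (ang p a b) = Real.cos (5 * alpha d) := by
    rw [e1, Real.cos_two_pi_sub]
  rw [h4, h5] at h3
  set t := Real.cos (5 * alpha d) with ht
  have ht1 : t ≤ 1 := Real.cos_le_one _
  have h6 : ((Real.cosh d + 1) * t - (Real.cosh d - 1)) *
      ((Real.cosh d - 1) * t - (Real.cosh d + 1)) = 0 := by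
    linear_combination (-2) * h3
  have h7 : (Real.cosh d + 1) * t = Real.cosh d - 1 := by
    rcases mul_eq_zero.1 h6 with h | h
    · linarith
    · exfalso
      nlinarith
  have h8 := cos_alpha hd
  have h9 : Real.cos (alpha d) * (Real.cosh d + 1) = Real.cosh d := by
    rw [h8]; field_simp
  set h := Real.cos (alpha d) with hh
  have h10 : t = 2 * h - 1 := by
    have : (Real.cosh d + 1) * (t - (2 * h - 1)) = 0 := by linear_combination h7 - 2 * h9
    rcases mul_eq_zero.1 this with h | h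
    · linarith
    · linarith
  have h11 : t = 16 * h ^ 5 - 20 * h ^ 3 + 5 * h := by
    rw [ht, hh]
    exact cos_five39 _
  have h12 : 27 / 47 ≤ h := by
    have : 27 / 47 * (Real.cosh d + 1) ≤ h * (Real.cosh d + 1) := by linarith
    exact le_of_mul_le_mul_right this (by linarith)
  have h13 : h < 1 := by
    have : h * (Real.cosh d + 1) < 1 * (Real.cosh d + 1) := by linarith
    exact lt_of_mul_lt_mul_right this (by linarith)
  have h14 : (h - 1) * (16 * h ^ 4 + 16 * h ^ 3 - 4 * h ^ 2 - 4 * h - 1) = 0 := by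
    rw [h10] at h11
    linear_combination -h11
  rcases mul_eq_zero.1 h14 with h15 | h15
  · linarith
  · obtain ⟨s, hs⟩ : ∃ s, h = 27 / 47 + s := ⟨h - 27 / 47, by ring⟩
    have hs0 : 0 ≤ s := by linarith
    rw [hs] at h15
    have h16 : 0 < 16 * (27 / 47 + s) ^ 4 + 16 * (27 / 47 + s) ^ 3 - 4 * (27 / 47 + s) ^ 2 -
        4 * (27 / 47 + s) - 1 := by
      ring_nf
      positivity
    linarith

end

end Pool.Agent.PEN
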