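import Pool.Agent.PEN.E71c
import Pool.Agent.PNY.Out51
import Pool.Agent.P4.Defs
import Pool.Agent.P4.P51
import Pool.Agent.P4.S21
import Pool.Agent.P4.X39

/-! # PENNY 2, row Y: the structure `Geo` of a separated set -/

set_option autoImplicit false

namespace Pool.Agent.PEN

open Classical UpperHalfPlane

noncomputable section

/-- the triangulation with the angle lemma -/
theorem exists_PTri71 {d : ℝ} (hd : 0 < d) {P : Finset ℍ} (hP : Sep d P) :
    ∃ T Tr, PTri (P.image kl) T Tr ∧ PTri0 (P.image kl) T Tr ∧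
      ∀ x ∈ P, ∀ y ∈ P, dist x y = d → T (kl x) (kl y) := by
  obtain ⟨g', h1, h2⟩ := PNY.gen_exists (P.image kl) PNY.gh
    (fun p q => ∃ x ∈ P, ∃ y ∈ P, dist x y = d ∧ p = kl x ∧ q = kl y) (by
      rintro a b ⟨x, hx, y, hy, hxy, rfl, rfl⟩
      exact PNY.contact_Ed hd P hP hx hy hxy)
  exact ⟨_, _, PNY.PTri_of_gen h2, PNY.PTri0_of_gen h2,
    fun x hx y hy hxy => h1 _ _ ⟨x, hx, y, hy, hxy, rfl, rfl⟩⟩

/-- two edges on the same ray are equal -/
theorem same_ray71 {Q : Finset Pt} {T : Pt → Pt → Prop} {Tr : Pt → Pt → Pt → Prop}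
    (hT : PTri Q T Tr) {v a b w : Pt} (ha : T v a) (hb : T v b) (h0 : ori v a b = 0)
    (h1 : 0 < ori v a w) (h2 : 0 < ori v b w) : a = b := by
  by_contra hab
  have hne : v ≠ a := hT.ne _ _ ha
  have hnb : v ≠ b := hT.ne _ _ hb
  obtain ⟨t, ht1, ht2⟩ : ∃ t : ℝ, b.1 - v.1 = t * (a.1 - v.1) ∧ b.2 - v.2 = t * (a.2 - v.2) := by
    unfold ori at h0
    by_cases hx : a.1 - v.1 = 0
    · have hy : a.2 - v.2 ≠ 0 := by
        intro hy
        apply hne
        ext
        · linarith
        · linarith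
      refine ⟨(b.2 - v.2) / (a.2 - v.2), ?_, ?_⟩
      · rw [hx] at h0 ⊢
        have : (a.2 - v.2) * (b.1 - v.1) = 0 := by linarith
        rcases mul_eq_zero.mp this with h | h
        · exact absurd h hy
        · rw [h, mul_zero]
      · field_simp
    · refine ⟨(b.1 - v.1) / (a.1 - v.1), ?_, ?_⟩
      · field_simp
      · field_simp
        linarith
  have h5 : ori v b w = t * ori v a w := by
    unfold ori
    rw [ht1, ht2]
    ring
  have h : 0 < t := by
    rw [h5] at h2
    exact (mul_pos_iff_of_pos_right h1).mp h2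
  rcases lt_trichotomy t 1 with h' | h' | h'
  · apply hT.ray v b a hb ha
    refine ⟨1 - t, t, by linarith, h, by ring, ?_⟩
    ext
    · simp only [Prod.fst_add, Prod.smul_fst, smul_eq_mul]
      linarith
    · simp only [Prod.snd_add, Prod.smul_snd, smul_eq_mul]
      linarith
  · apply hab
    rw [h'] at ht1 ht2
    ext
    · linarith
    · linarith
  · apply hT.ray v a b ha hb
    refine ⟨1 - 1 / t, 1 / t, ?_, by positivity, by ring, ?_⟩
    · have : 1 / t < 1 := by
        rw [div_lt_one h]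
        exact h'
      linarith
    · ext
      · simp only [Prod.fst_add, Prod.smul_fst, smul_eq_mul]
        field_simp
        linarith
      · simp only [Prod.snd_add, Prod.smul_snd, smul_eq_mul]
        field_simp
        linarith

/-- the direction of `p` at `v` is a linear image of the Klein direction -/
theorem Dv_dir71 (v p : ℍ) : ∃ N : ℝ, 0 < N ∧
    (Dv v p).re * N = ((kl p).2 - (kl v).2) - 2 * v.re * ((kl p).1 - (kl v).1) ∧
    (Dv v p).im * N = - (2 * v.im * ((kl p).1 - (kl v).1)) := by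
  have hv := v.im_pos
  have hp := p.im_pos
  have hne : ((p : ℂ) - (starRingEnd ℂ) (v : ℂ)) ≠ 0 := by
    intro h
    have := congrArg Complex.im h
    simp at this
    linarith
  refine ⟨Complex.normSq ((p : ℂ) - (starRingEnd ℂ) (v : ℂ)), Complex.normSq_pos.mpr hne, ?_, ?_⟩
  · have hN := Complex.normSq_pos.mpr hne
    unfold Dv
    rw [Complex.div_re, add_mul, div_mul_cancel₀ _ hN.ne', div_mul_cancel₀ _ hN.ne']
    simp only [kl, Complex.sub_re, Complex.sub_im, Complex.conj_re, Complex.conj_im,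
      UpperHalfPlane.coe_re, UpperHalfPlane.coe_im]
    ring
  · have hN := Complex.normSq_pos.mpr hne
    unfold Dv
    rw [Complex.div_im, sub_mul, div_mul_cancel₀ _ hN.ne', div_mul_cancel₀ _ hN.ne']
    simp only [kl, Complex.sub_re, Complex.sub_im, Complex.conj_re, Complex.conj_im,
      UpperHalfPlane.coe_re, UpperHalfPlane.coe_im]
    ring

/-- a supporting half plane in direction coordinates -/
theorem half71 (v : ℍ) (u : Pt) (hu : u ≠ 0) : ∃ w : ℂ, w ≠ 0 ∧
    ∀ p : ℍ, cr u (kl v) (kl p) ≤ 0 → 0 ≤ (Dv v p / w).im := by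
  have hv := v.im_pos
  refine ⟨⟨-(u.2 - 2 * v.re * u.1), 2 * v.im * u.1⟩, ?_, ?_⟩
  · intro h
    have h1 := congrArg Complex.re h
    have h2 := congrArg Complex.im h
    simp only [Complex.zero_re, Complex.zero_im] at h1 h2
    have h3 : u.1 = 0 := by
      rcases mul_eq_zero.mp h2 with h | h
      · linarith
      · exact h
    rw [h3] at h1
    apply hu
    ext
    · exact h3
    · simp only [Prod.snd_zero]
      linarith
  · intro p hp
    obtain ⟨N, hN, e1, e2⟩ := Dv_dir71 v p
    rw [Complex.div_im, ← sub_div]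
    apply div_nonneg _ (Complex.normSq_nonneg _)
    simp only
    unfold cr at hp
    have h3 : 0 ≤ ((Dv v p).im * -(u.2 - 2 * v.re * u.1) - (Dv v p).re * (2 * v.im * u.1)) * N := by
      have h4 : ((Dv v p).im * -(u.2 - 2 * v.re * u.1) - (Dv v p).re * (2 * v.im * u.1)) * N =
          2 * v.im * (-(u.1 * ((kl p).2 - (kl v).2) - u.2 * ((kl p).1 - (kl v).1))) := by
        linear_combination (-(u.2 - 2 * v.re * u.1)) * e2 - (2 * v.im * u.1) * e1
      rw [h4]
      apply mul_nonneg (by linarith)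
      linarith
    exact nonneg_of_mul_nonneg_left h3 hN

section
variable {d : ℝ} {P : Finset ℍ} {T : Pt → Pt → Prop} {Tr : Pt → Pt → Pt → Prop}

/-- the directions at `v` -/
theorem him71 (hT : PTri (P.image kl) T Tr) {v s : ℍ} (h : (v, s) ∈ Dp71 P T) :
    0 < (Dv v (ap71 P Tr v s) / Dv v s).im :=
  (ori_pos_iff v s _).mp (hT.tr _ _ _ (Dp71_spec hT h).2).2

theorem Dv_ne71 (hT : PTri (P.image kl) T Tr) {v s : ℍ} (h : (v, s) ∈ Dp71 P T) :
    Dv v s ≠ 0 := by
  intro h0
  have := him71 hT h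
  rw [h0, div_zero] at this
  exact absurd this (lt_irrefl _)

theorem hdir71 (hT : PTri (P.image kl) T Tr) {v s t : ℍ} (hs : (v, s) ∈ Dp71 P T)
    (ht : (v, t) ∈ Dp71 P T) (h1 : 0 < (Dv v t / Dv v s).re) (h2 : (Dv v t / Dv v s).im = 0) :
    s = t := by
  have hs0 := Dv_ne71 hT hs
  have ht0 := Dv_ne71 hT ht
  set r := (Dv v t / Dv v s).re with hr
  have hrr : Dv v t / Dv v s = (r : ℂ) := Complex.ext (by simp [hr]) (by simp [h2])
  have e1 : Dv v t = r * Dv v s := by
    rw [← hrr]; field_simp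
  have hr0 : (r : ℂ) ≠ 0 := by
    exact_mod_cast h1.ne'
  have h3 := him71 hT hs
  set w := ap71 P Tr v s with hw
  have h4 : 0 < (Dv v w / Dv v t).im := by
    have : Dv v w / Dv v t = ((r⁻¹ : ℝ) : ℂ) * (Dv v w / Dv v s) := by
      rw [e1]; push_cast; field_simp
    rw [this, Complex.im_ofReal_mul]
    positivity
  have h5 : ¬ 0 < ori (kl v) (kl s) (kl t) := by
    rw [ori_pos_iff, h2]; exact lt_irrefl _
  have h6 : ¬ 0 < ori (kl v) (kl t) (kl s) := by
    rw [ori_pos_iff, e1]
    have : Dv v s / (r * Dv v s) = ((r⁻¹ : ℝ) : ℂ) := by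
      push_cast; field_simp
    rw [this, Complex.ofReal_im]; exact lt_irrefl _
  have h7 : ori (kl v) (kl t) (kl s) = - ori (kl v) (kl s) (kl t) := by
    unfold ori; ring
  have h8 : ori (kl v) (kl s) (kl t) = 0 := by
    rw [h7] at h6
    linarith
  exact kl_inj (same_ray71 hT (mem_Dp71.mp hs).2.1 (mem_Dp71.mp ht).2.1 h8
    ((ori_pos_iff v s w).mpr h3) ((ori_pos_iff v t w).mpr h4))

end

end

end Pool.Agent.PEN
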