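import Pool.Agent.P4.Z71a
import Pool.Agent.P4.Y71a

/-! # The triangulation is weakly Delaunay (polygon lemma, Z1) -/

set_option autoImplicit false

namespace Pool.Agent.PNY

open Topology Filter

/-- strict violations of the empty circle condition are stable -/
theorem Fo_eventually71 (a b c p : ℝ × ℝ) (g : ℝ × ℝ → ℝ) (h : 0 < Fo9 a b c p g) :
    ∀ᶠ g' in 𝓝 g, 0 < Fo9 a b c p g' := by
  have hc : Continuous fun g : (ℝ × ℝ) → ℝ => Fo9 a b c p g := by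
    have e : (fun g : (ℝ × ℝ) → ℝ => Fo9 a b c p g) =
        fun g => D a b c * g p - D p b c * g a - D a p c * g b - D a b p * g c := by
      funext g; exact Fo9_apply a b c p g
    rw [e]
    fun_prop
  exact hc.continuousAt.eventually (lt_mem_nhds h)

/-- **generic heights**, weakly Delaunay for the given heights -/
theorem gen_exists71 (P : Finset (ℝ × ℝ)) (g : ℝ × ℝ → ℝ) (G : ℝ × ℝ → ℝ × ℝ → Prop)
    (hG : ∀ a b, G a b → Ed P g a b) :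
    ∃ g', (∀ a b, G a b → Ed P g' a b) ∧ Gen P g' ∧
      ∀ a b c, Tr P g' a b c → ∀ p ∈ P, Fo9 a b c p g ≤ 0 := by
  classical
  -- all the pairs at once
  have h1 : ∀ᶠ g' in 𝓝 g, ∀ a ∈ P, ∀ b ∈ P, G a b → Ed P g' a b := by
    rw [Filter.eventually_all_finset]
    intro a ha
    rw [Filter.eventually_all_finset]
    intro b hb
    by_cases h : G a b
    · filter_upwards [(hG a b h).eventually9] with g' hg' _
      exact hg'
    · exact Filter.Eventually.of_forall fun g' h' => absurd h' h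
  have h4 : ∀ᶠ g' in 𝓝 g, ∀ x ∈ (P ×ˢ P ×ˢ P ×ˢ P), 0 < Fo9 x.1 x.2.1 x.2.2.1 x.2.2.2 g →
      0 < Fo9 x.1 x.2.1 x.2.2.1 x.2.2.2 g' := by
    rw [Filter.eventually_all_finset]
    intro x _
    by_cases h : 0 < Fo9 x.1 x.2.1 x.2.2.1 x.2.2.2 g
    · filter_upwards [Fo_eventually71 _ _ _ _ g h] with g' hg' _
      exact hg'
    · exact Filter.Eventually.of_forall fun g' h' => absurd h' h
  -- all the coplanarity conditions at once
  have h2 : ∀ S : Finset ((ℝ × ℝ) × (ℝ × ℝ) × (ℝ × ℝ) × (ℝ × ℝ)),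
      (∀ x ∈ S, x.2.2.2 ≠ x.1 ∧ x.2.2.2 ≠ x.2.1 ∧ x.2.2.2 ≠ x.2.2.1 ∧
        D x.1 x.2.1 x.2.2.1 ≠ 0) →
      IsOpen {g : (ℝ × ℝ) → ℝ | ∀ x ∈ S, Fo9 x.1 x.2.1 x.2.2.1 x.2.2.2 g ≠ 0} ∧
      Dense {g : (ℝ × ℝ) → ℝ | ∀ x ∈ S, Fo9 x.1 x.2.1 x.2.2.1 x.2.2.2 g ≠ 0} := by
    intro S
    induction S using Finset.induction_on with
    | empty =>
      intro _
      have e : {g : (ℝ × ℝ) → ℝ | ∀ x ∈ (∅ : Finset ((ℝ × ℝ) × (ℝ × ℝ) × (ℝ × ℝ) × (ℝ × ℝ))),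
          Fo9 x.1 x.2.1 x.2.2.1 x.2.2.2 g ≠ 0} = Set.univ := by
        ext g; simp
      rw [e]
      exact ⟨isOpen_univ, dense_univ⟩
    | insert x S hx ih =>
      intro hS
      obtain ⟨i1, i2⟩ := ih fun y hy => hS y (Finset.mem_insert_of_mem hy)
      obtain ⟨j1, j2, j3, j4⟩ := hS x (Finset.mem_insert_self _ _)
      have e : {g : (ℝ × ℝ) → ℝ | ∀ y ∈ insert x S, Fo9 y.1 y.2.1 y.2.2.1 y.2.2.2 g ≠ 0} =
          {g : (ℝ × ℝ) → ℝ | Fo9 x.1 x.2.1 x.2.2.1 x.2.2.2 g ≠ 0} ∩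
          {g : (ℝ × ℝ) → ℝ | ∀ y ∈ S, Fo9 y.1 y.2.1 y.2.2.1 y.2.2.2 g ≠ 0} := by
        ext g
        simp only [Set.mem_setOf_eq, Set.mem_inter_iff, Finset.mem_insert, forall_eq_or_imp]
      rw [e]
      refine ⟨(Fo9_open _ _ _ _).inter i1, ?_⟩
      exact Dense.inter_of_isOpen_left (Fo9_dense j1 j2 j3 j4) i2 (Fo9_open _ _ _ _)
  set S : Finset ((ℝ × ℝ) × (ℝ × ℝ) × (ℝ × ℝ) × (ℝ × ℝ)) :=
    (P ×ˢ P ×ˢ P ×ˢ P).filter fun x => x.2.2.2 ≠ x.1 ∧ x.2.2.2 ≠ x.2.1 ∧ x.2.2.2 ≠ x.2.2.1 ∧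
        D x.1 x.2.1 x.2.2.1 ≠ 0 with hSd
  have h3 := (h2 S fun x hx => (Finset.mem_filter.1 hx).2).2
  obtain ⟨g', hg', hg'', hg4⟩ := h3.inter_nhds_nonempty (h1.and h4)
  refine ⟨g', ?_, ?_, ?_⟩
  · intro a b h
    obtain ⟨ha, hb, -⟩ := hG a b h
    exact hg'' a ha b hb h
  · intro a ha b hb c hc p hp hpa hpb hpc hD l la lb lc lp
    have hx : (a, b, c, p) ∈ S := by
      rw [hSd, Finset.mem_filter]
      exact ⟨Finset.mem_product.2 ⟨ha, Finset.mem_product.2 ⟨hb, Finset.mem_product.2 ⟨hc, hp⟩⟩⟩,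
        hpa, hpb, hpc, hD⟩
    apply hg' _ hx
    rw [Fo9_apply, ← la, ← lb, ← lc, ← lp]
    exact Fo9_af a b c p l
  · rintro a b c ⟨ha, hb, hc, hD, l, la, lb, lc, ll⟩ p hp
    by_contra hcon
    push Not at hcon
    have hx : ((a, b, c, p) : (ℝ × ℝ) × (ℝ × ℝ) × (ℝ × ℝ) × (ℝ × ℝ)) ∈ (P ×ˢ P ×ˢ P ×ˢ P) :=
      Finset.mem_product.2 ⟨ha, Finset.mem_product.2 ⟨hb, Finset.mem_product.2 ⟨hc, hp⟩⟩⟩
    have h5 := hg4 _ hx hcon
    simp only at h5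
    have h6 := Fo9_af a b c p l
    rw [Fo9_apply, ← la, ← lb, ← lc] at h5
    have h7 : 0 < D a b c * (g' p - af l p) := by linarith
    have h8 : 0 < g' p - af l p := (mul_pos_iff_of_pos_left hD).mp h7
    by_cases hpa : p = a
    · rw [hpa, la] at h8; linarith
    by_cases hpb : p = b
    · rw [hpb, lb] at h8; linarith
    by_cases hpc : p = c
    · rw [hpc, lc] at h8; linarith
    have := ll p hp hpa hpb hpc
    linarith

end Pool.Agent.PNY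

namespace Pool.Agent.PEN

open Classical UpperHalfPlane

noncomputable section

/-- weak Delaunay property in terms of base angles -/
def DelT (P : Finset ℍ) (Tr : Pt → Pt → Pt → Prop) : Prop :=
  ∀ a b c e : ℍ, a ∈ P → b ∈ P → c ∈ P → e ∈ P → Tr (kl a) (kl b) (kl c) →
    Tr (kl b) (kl a) (kl e) → 0 ≤ bet a b c + bet b a e

/-- **Z1**: the triangulation, weakly Delaunay -/
theorem exists_PTri_del {d : ℝ} (hd : 0 < d) {P : Finset ℍ} (hP : Sep d P) :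
    ∃ T Tr, PTri (P.image kl) T Tr ∧ PTri0 (P.image kl) T Tr ∧
      (∀ x ∈ P, ∀ y ∈ P, dist x y = d → T (kl x) (kl y)) ∧ DelT P Tr := by
  obtain ⟨g', h1, h2, h3⟩ := PNY.gen_exists71 (P.image kl) PNY.gh
    (fun p q => ∃ x ∈ P, ∃ y ∈ P, dist x y = d ∧ p = kl x ∧ q = kl y) (by
      rintro a b ⟨x, hx, y, hy, hxy, rfl, rfl⟩
      exact PNY.contact_Ed hd P hP hx hy hxy)
  refine ⟨_, _, PNY.PTri_of_gen h2, PNY.PTri0_of_gen h2,
    fun x hx y hy hxy => h1 _ _ ⟨x, hx, y, hy, hxy, rfl, rfl⟩, ?_⟩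
  intro a b c e ha hb hc he t1 t2
  have h4 := h3 _ _ _ t1 (kl e) (Finset.mem_image_of_mem _ he)
  rw [PNY.Fo9_apply, PNY.gh_kl, PNY.gh_kl, PNY.gh_kl, PNY.gh_kl] at h4
  apply delaunay71 t1.2.2.2.1 t2.2.2.2.1
  have e1 : ∀ x y z : Pt, PNY.D x y z = ori x y z := fun _ _ _ => rfl
  rw [e1, e1, e1, e1] at h4
  linarith

/-- the Delaunay condition in the structure `tg71` -/
theorem DelT.dart {P : Finset ℍ} {T : Pt → Pt → Prop} {Tr : Pt → Pt → Pt → Prop}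
    (h : DelT P Tr) (hT : PTri (P.image kl) T Tr) {a b : ℍ} (hab : (a, b) ∈ Dp71 P T)
    (hba : (b, a) ∈ Dp71 P T) :
    0 ≤ bet a b (ap71 P Tr a b) + bet b a (ap71 P Tr b a) :=
  h a b _ _ (Dp71_left hab).1 (Dp71_left hab).2 (Dp71_spec hT hab).1 (Dp71_spec hT hba).1
    (Dp71_spec hT hab).2 (Dp71_spec hT hba).2

end

end Pool.Agent.PEN
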