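import Pool.Agent.P4.DensB39
import Pool.Agent.P4.Z71b
import Pool.Agent.P4.Uc11

/-! # Hyperbolic penny graphs: every inner class of `m` triangles has area at least `m A3`

The density bound on a weakly Delaunay triangulation. -/

set_option autoImplicit false

namespace Pool.Agent.PEN

open Classical UpperHalfPlane

noncomputable section

section abs
variable {V : Type} (G : Tg V)

lemma sum_rotC39 {C : G.adj.ConnectedComponent} (f : V → V → ℝ) :
    ∑ x ∈ G.cD C, f x.2 (G.ap x.1 x.2) = ∑ x ∈ G.cD C, f x.1 x.2 := by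
  refine Finset.sum_nbij' (fun x => (x.2, G.ap x.1 x.2)) (fun x => (G.ap x.1 x.2, x.1)) ?_ ?_ ?_ ?_ ?_
  · intro x hx
    exact rot_cD66 G hx
  · intro x hx
    exact rot_cD66' G hx
  · rintro ⟨a, b⟩ hx
    have h1 := G.ap3 _ _ ((mem_cD66 G).1 hx).1
    exact Prod.ext h1 rfl
  · rintro ⟨a, b⟩ hx
    have h1 := G.ap4 _ _ ((mem_cD66 G).1 hx).1
    exact Prod.ext rfl h1
  · intro x _
    rfl

lemma sum_rotC39' {C : G.adj.ConnectedComponent} (f : V → V → ℝ) :
    ∑ x ∈ G.cD C, f (G.ap x.1 x.2) x.1 = ∑ x ∈ G.cD C, f x.1 x.2 := by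
  refine Finset.sum_nbij' (fun x => (G.ap x.1 x.2, x.1)) (fun x => (x.2, G.ap x.1 x.2)) ?_ ?_ ?_ ?_ ?_
  · intro x hx
    exact rot_cD66' G hx
  · intro x hx
    exact rot_cD66 G hx
  · rintro ⟨a, b⟩ hx
    have h1 := G.ap4 _ _ ((mem_cD66 G).1 hx).1
    exact Prod.ext rfl h1
  · rintro ⟨a, b⟩ hx
    have h1 := G.ap3 _ _ ((mem_cD66 G).1 hx).1
    exact Prod.ext h1 rfl
  · intro x _
    rfl

/-- D4: the sum over a class without hull sides -/
theorem class_sum39 {C : G.adj.ConnectedComponent} (hB : G.cB C = ∅) (be k : V → V → ℝ) {al : ℝ}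
    (hth : ∀ x ∈ G.cD C, be x.1 x.2 + be x.2 (G.ap x.1 x.2) + be (G.ap x.1 x.2) x.1 =
      (G.th x.1 x.2 + G.th x.2 (G.ap x.1 x.2) + G.th (G.ap x.1 x.2) x.1) / 2)
    (hk : ∀ x ∈ G.cD C, k x.1 x.2 + k x.2 (G.ap x.1 x.2) + k (G.ap x.1 x.2) x.1 = Real.pi / 2)
    (he : ∀ x ∈ G.cI C, be x.1 x.2 + be x.2 x.1 ≤ 3 * al / Real.pi * (k x.1 x.2 + k x.2 x.1))
    (hc : ∀ x ∈ G.cD C, G.con x.1 x.2 → be x.1 x.2 ≤ 3 * al / Real.pi * k x.1 x.2) :
    A3 al * (G.cT C).card ≤ ∑ x ∈ G.cD C, G.ar x.1 x.2 / 3 := by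
  have hp := Real.pi_pos
  have hcard : ((G.cD C).card : ℝ) = 3 * (G.cT C).card := by
    exact_mod_cast card_cD G C
  -- sum of the base angles
  have s1 : ∑ x ∈ G.cD C, (G.th x.1 x.2 + G.th x.2 (G.ap x.1 x.2) + G.th (G.ap x.1 x.2) x.1) =
      6 * ∑ x ∈ G.cD C, be x.1 x.2 := by
    have e : ∑ x ∈ G.cD C, (be x.1 x.2 + be x.2 (G.ap x.1 x.2) + be (G.ap x.1 x.2) x.1) =
        3 * ∑ x ∈ G.cD C, be x.1 x.2 := by
      rw [Finset.sum_add_distrib, Finset.sum_add_distrib, sum_rotC39, sum_rotC39']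
      ring
    rw [Finset.sum_congr rfl hth, ← Finset.sum_div] at e
    linarith
  have s2 : ∑ x ∈ G.cD C, k x.1 x.2 = (G.cT C).card * (Real.pi / 2) := by
    have e : ∑ x ∈ G.cD C, (k x.1 x.2 + k x.2 (G.ap x.1 x.2) + k (G.ap x.1 x.2) x.1) =
        3 * ∑ x ∈ G.cD C, k x.1 x.2 := by
      rw [Finset.sum_add_distrib, Finset.sum_add_distrib, sum_rotC39, sum_rotC39']
      ring
    rw [Finset.sum_congr rfl hk, Finset.sum_const, nsmul_eq_mul, hcard] at e
    linarith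
  -- the inequality
  have s3 : ∑ x ∈ G.cD C, be x.1 x.2 ≤ 3 * al / Real.pi * ∑ x ∈ G.cD C, k x.1 x.2 := by
    have hfil : (G.cD C).filter (fun x => ¬ G.con x.1 x.2) = G.cI C := by
      ext x
      rw [Finset.mem_filter]
      constructor
      · rintro ⟨h1, h2⟩
        exact mem_cI11 G hB h1 h2
      · intro h
        exact ⟨cI_sub11 G h, cI_ncon11 G h⟩
    have sw : ∀ f : V → V → ℝ, ∑ x ∈ G.cI C, f x.2 x.1 = ∑ x ∈ G.cI C, f x.1 x.2 := by
      intro f
      refine Finset.sum_nbij' (fun x => (x.2, x.1)) (fun x => (x.2, x.1)) ?_ ?_ ?_ ?_ ?_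
      · intro x hx; exact swap_cD66 G hx
      · intro x hx; exact swap_cD66 G hx
      · intro x _; rfl
      · intro x _; rfl
      · intro x _; rfl
    rw [← Finset.sum_filter_add_sum_filter_not (G.cD C) (fun x => G.con x.1 x.2)
      (fun x => be x.1 x.2), ← Finset.sum_filter_add_sum_filter_not (G.cD C)
      (fun x => G.con x.1 x.2) (fun x => k x.1 x.2), hfil, mul_add]
    refine add_le_add ?_ ?_
    · rw [Finset.mul_sum]
      refine Finset.sum_le_sum fun x hx => ?_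
      rw [Finset.mem_filter] at hx
      exact hc x hx.1 hx.2
    · have h1 : ∑ x ∈ G.cI C, (be x.1 x.2 + be x.2 x.1) = 2 * ∑ x ∈ G.cI C, be x.1 x.2 := by
        rw [Finset.sum_add_distrib, sw be]; ring
      have h2 : ∑ x ∈ G.cI C, (k x.1 x.2 + k x.2 x.1) = 2 * ∑ x ∈ G.cI C, k x.1 x.2 := by
        rw [Finset.sum_add_distrib, sw k]; ring
      have h3 := Finset.sum_le_sum he
      rw [← Finset.mul_sum, h1, h2] at h3
      linarith
  have s4 : ∑ x ∈ G.cD C, G.ar x.1 x.2 / 3 = (G.cT C).card * Real.pi -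
      2 * ∑ x ∈ G.cD C, be x.1 x.2 := by
    unfold Tg.ar
    rw [← Finset.sum_div, Finset.sum_sub_distrib, s1, Finset.sum_const, nsmul_eq_mul, hcard]
    ring
  rw [s4]
  rw [s2] at s3
  unfold A3
  have e : 3 * al / Real.pi * ((G.cT C).card * (Real.pi / 2)) = 3 * al / 2 * (G.cT C).card := by
    field_simp
  rw [e] at s3
  linarith

end abs

section conc
variable {d : ℝ} (G : Tg ℍ)

/-- the metric facts on the structure of a triangulated set of points -/
structure DelG (G : Tg ℍ) (d : ℝ) : Prop where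
  hd : 0 < d
  th : ∀ a b, (a, b) ∈ G.Dp → G.th a b = ang a b (G.ap a b)
  con : ∀ a b, G.con a b → dist a b = d
  ori : ∀ a b, (a, b) ∈ G.Dp → 0 < ori (kl a) (kl b) (kl (G.ap a b))
  sep : ∀ a b, (a, b) ∈ G.Dp → d ≤ dist a b
  del : ∀ a b, (a, b) ∈ G.Dp → (b, a) ∈ G.Dp →
    0 ≤ bet a b (G.ap a b) + bet b a (G.ap b a)

variable {G}

private lemma DelG.dart (h : DelG G d) {a b : ℍ} (hab : (a, b) ∈ G.Dp) :
    0 < PEN.ori (kl a) (kl b) (kl (G.ap a b)) ∧
    d ≤ dist a b ∧ d ≤ dist b (G.ap a b) ∧ d ≤ dist (G.ap a b) a :=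
  ⟨h.ori a b hab, h.sep _ _ hab, h.sep _ _ (G.ap1 _ _ hab), h.sep _ _ (G.ap2 _ _ hab)⟩

/-- the chain argument: every triangle of an inner class has a circumcentre -/
theorem circum39 (hG : DelG G d) {C : G.adj.ConnectedComponent} (hB : G.cB C = ∅) :
    ∀ x ∈ G.cD C, Kr x.1 x.2 (G.ap x.1 x.2) < 1 := by
  intro x hx
  by_contra hcon
  push Not at hcon
  obtain ⟨S, hS⟩ : ∃ S, S = (G.cD C).filter (fun x => 1 ≤ Kr x.1 x.2 (G.ap x.1 x.2) ∧
    bet x.1 x.2 (G.ap x.1 x.2) < 0) := ⟨_, rfl⟩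
  have memS : ∀ a b : ℍ, (a, b) ∈ S ↔ (a, b) ∈ G.cD C ∧ 1 ≤ Kr a b (G.ap a b) ∧
      bet a b (G.ap a b) < 0 := by
    intro a b
    rw [hS, Finset.mem_filter]
  -- a triangle without circumcentre has a dart in `S`
  have find : ∀ a b : ℍ, (a, b) ∈ G.cD C → 1 ≤ Kr a b (G.ap a b) →
      (a, b) ∈ S ∨ ((b, G.ap a b) ∈ S ∧ bet b (G.ap a b) a < 0) ∨
        ((G.ap a b, a) ∈ S ∧ bet (G.ap a b) a b < 0) := by
    intro a b hy hK
    have hyD := ((mem_cD66 G).1 hy).1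
    have o := (hG.dart hyD).1
    have a3 := G.ap3 _ _ hyD
    have a4 := G.ap4 _ _ hyD
    rcases exists_neg39 o hK with h | h | h
    · left
      exact (memS _ _).2 ⟨hy, hK, h⟩
    · right; left
      refine ⟨(memS _ _).2 ⟨rot_cD66 G hy, ?_, ?_⟩, h⟩
      · rw [a3, Kr_rot39]; exact hK
      · rw [a3]; exact h
    · right; right
      refine ⟨(memS _ _).2 ⟨rot_cD66' G hy, ?_, ?_⟩, h⟩
      · rw [a4, Kr_rot39, Kr_rot39]; exact hK
      · rw [a4]; exact h
  have hne : S.Nonempty := by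
    rcases find x.1 x.2 hx hcon with h | h | h
    · exact ⟨_, h⟩
    · exact ⟨_, h.1⟩
    · exact ⟨_, h.1⟩
  obtain ⟨⟨a, b⟩, hyS, hmax⟩ := Finset.exists_max_image S (fun x => dist x.1 x.2) hne
  obtain ⟨hyC, hyK, hyb⟩ := (memS _ _).1 hyS
  have hyD := ((mem_cD66 G).1 hyC).1
  obtain ⟨o, d1, d2, d3⟩ := hG.dart hyD
  have hlong := neg_longest39 o hyb
  have hncon : ¬ G.con a b := by
    intro hcon
    have h1 := hG.con _ _ hcon
    have h2 := hlong.1
    linarith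
  have hI := mem_cI11 G hB hyC hncon
  have hI' := swap_cD66 G hI
  have hzC := cI_sub11 G hI'
  have hzD := ((mem_cD66 G).1 hzC).1
  obtain ⟨o', -⟩ := hG.dart hzD
  have hdel := hG.del _ _ hyD hzD
  obtain ⟨c1, c2⟩ := cross39 o o' hyb hdel hyK
  have hdist : dist b a = dist a b := dist_comm _ _
  rcases find b a hzC c2 with h | h | h
  · have := ((memS _ _).1 h).2.2
    linarith
  · obtain ⟨h1, h2⟩ := h
    have o2 : 0 < PEN.ori (kl a) (kl (G.ap b a)) (kl b) := by rw [ori_rot71]; exact o'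
    have h3 := (neg_longest39 o2 h2).2
    have h4 : dist a (G.ap b a) ≤ dist a b := hmax _ h1
    linarith
  · obtain ⟨h1, h2⟩ := h
    have o2 : 0 < PEN.ori (kl (G.ap b a)) (kl b) (kl a) := by
      rw [ori_rot71, ori_rot71]; exact o'
    have h3 := (neg_longest39 o2 h2).1
    have h4 : dist (G.ap b a) b ≤ dist a b := hmax _ h1
    linarith

/-- **The polygon lemma**: an inner class of `m` triangles has area at least `m A3` -/
theorem class_areaG39 (hG : DelG G d) {C : G.adj.ConnectedComponent} (hB : G.cB C = ∅) :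
    A3 (alpha d) * (G.cT C).card ≤ ∑ x ∈ G.cD C, G.ar x.1 x.2 / 3 := by
  have hK := circum39 hG hB
  refine class_sum39 G hB (fun a b => bet a b (G.ap a b)) (fun a b => kq a b (G.ap a b)) ?_ ?_ ?_ ?_
  · intro x hx
    have hxD := ((mem_cD66 G).1 hx).1
    have o := (hG.dart hxD).1
    have a3 := G.ap3 _ _ hxD
    have a4 := G.ap4 _ _ hxD
    have t1 := hG.th _ _ hxD
    have t2 := hG.th _ _ (G.ap1 _ _ hxD)
    have t3 := hG.th _ _ (G.ap2 _ _ hxD)
    rw [a3] at t2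
    rw [a4] at t3
    rw [a3, a4, t1, t2, t3]
    have o2 : 0 < PEN.ori (kl x.2) (kl (G.ap x.1 x.2)) (kl x.1) := by rw [ori_rot71]; exact o
    have o3 : 0 < PEN.ori (kl (G.ap x.1 x.2)) (kl x.1) (kl x.2) := by rw [ori_rot71]; exact o2
    rw [bet_eq o, bet_eq o2, bet_eq o3]
    ring
  · intro x hx
    have hxD := ((mem_cD66 G).1 hx).1
    have o := (hG.dart hxD).1
    have a3 := G.ap3 _ _ hxD
    have a4 := G.ap4 _ _ hxD
    rw [a3, a4]
    exact kq_sum39 o (hK x hx)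
  · intro x hx
    have hxC := cI_sub11 G hx
    have hxD := ((mem_cD66 G).1 hxC).1
    have hx' := swap_cD66 G hx
    have hzC := cI_sub11 G hx'
    have hzD := ((mem_cD66 G).1 hzC).1
    obtain ⟨o, d1, d2, d3⟩ := hG.dart hxD
    obtain ⟨o', e1, e2, e3⟩ := hG.dart hzD
    exact edge_ineq39 hG.hd o o' (hK x hxC) (hK _ hzC) d1 d2 d3 e2 e3 (hG.del _ _ hxD hzD)
  · intro x hx hcon
    have hxD := ((mem_cD66 G).1 hx).1
    obtain ⟨o, d1, d2, d3⟩ := hG.dart hxD
    exact side_ineq39 hG.hd o (hK x hx) (hG.con _ _ hcon) d2 d3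

end conc

/-- the facts for the triangulation of a separated set -/
theorem delG71 {d : ℝ} {P : Finset ℍ} {T : Pt → Pt → Prop} {Tr : Pt → Pt → Pt → Prop}
    (hd : 0 < d) (hP : Sep d P) (hT : PTri (P.image kl) T Tr) (hDel : DelT P Tr) :
    DelG (tg71 d hT) d where
  hd := hd
  th := fun a b _ => rfl
  con := fun a b h => h
  ori := fun a b h => by
    have h0 : (a, b) ∈ Dp71 P T := h
    exact (hT.tr _ _ _ (Dp71_spec hT h0).2).2
  sep := fun a b h => by
    have h0 : (a, b) ∈ Dp71 P T := h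
    have h1 := Dp71_left h0
    exact hP a h1.1 b h1.2 (ne_of_ori71 (hT.tr _ _ _ (Dp71_spec hT h0).2).2).1
  del := fun a b h h' => by
    have h0 : (a, b) ∈ Dp71 P T := h
    have h0' : (b, a) ∈ Dp71 P T := h'
    exact hDel _ _ _ _ (Dp71_left h0).1 (Dp71_left h0).2 (Dp71_spec hT h0).1 (Dp71_spec hT h0').1
      (Dp71_spec hT h0).2 (Dp71_spec hT h0').2

/-- **The polygon lemma** for the triangulation of a separated set -/
theorem class_area39 {d : ℝ} {P : Finset ℍ} {T : Pt → Pt → Prop} {Tr : Pt → Pt → Pt → Prop}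
    (hd : 0 < d) (hP : Sep d P) (hT : PTri (P.image kl) T Tr) (hDel : DelT P Tr)
    {C : (tg71 d hT).adj.ConnectedComponent} (hB : (tg71 d hT).cB C = ∅) :
    A3 (alpha d) * ((tg71 d hT).cT C).card ≤
      ∑ x ∈ (tg71 d hT).cD C, (tg71 d hT).ar x.1 x.2 / 3 :=
  class_areaG39 (delG71 hd hP hT hDel) hB

end

end Pool.Agent.PEN
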