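import Pool.Agent.P4.Reg51

/-! # Hyperbolic penny graphs: the regular isoperimetric bound as a function of the number of steps

`Ust69 d b` is the area of the regular `b`-gon with side `d` (zero for `b ≤ 2`): monotone and
superadditive in `b`, and an upper bound for the area enclosed by a closed walk of `b` steps. -/

set_option autoImplicit false
set_option linter.all false

namespace Pool.Agent.PEN

open Classical UpperHalfPlane

noncomputable section

/-- `psi51` is antitone in the half apex angle -/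
theorem psi51_anti {w1 w2 d : ℝ} (h0 : 0 ≤ w1) (h1 : w1 ≤ w2) (h2 : w2 ≤ Real.pi) :
    psi51 w2 d ≤ psi51 w1 d := by
  unfold psi51
  set Q := Real.cosh (d / 2) with hQ
  have hQ1 : 1 ≤ Q := Real.one_le_cosh _
  have hQ0 : 0 < Q := by linarith
  have habs : ∀ w : ℝ, |Real.cos w / Q| ≤ 1 := by
    intro w
    rw [abs_div, abs_of_pos hQ0, div_le_one hQ0]
    exact (Real.abs_cos_le_one w).trans hQ1
  set a1 := Real.arccos (Real.cos w1 / Q) with ha1
  set a2 := Real.arccos (Real.cos w2 / Q) with ha2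
  have c1 : Real.cos a1 = Real.cos w1 / Q := by
    rw [ha1, Real.cos_arccos (abs_le.1 (habs w1)).1 (abs_le.1 (habs w1)).2]
  have s1 : 0 ≤ Real.sin a1 := by
    rw [ha1, Real.sin_arccos]
    exact Real.sqrt_nonneg _
  have sw : 0 ≤ Real.sin w1 := Real.sin_nonneg_of_nonneg_of_le_pi h0 (by linarith)
  have s2 : Real.sin w1 / Q ≤ Real.sin a1 := by
    have e1 := Real.sin_sq_add_cos_sq a1
    have e2 := Real.sin_sq_add_cos_sq w1
    rw [c1] at e1
    have e3 : (Real.sin w1 / Q) ^ 2 ≤ Real.sin a1 ^ 2 := by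
      have e4 : (Real.sin w1 / Q) ^ 2 + (Real.cos w1 / Q) ^ 2 ≤ 1 := by
        rw [div_pow, div_pow, ← add_div, e2, div_le_one (by positivity)]
        nlinarith
      linarith
    exact (abs_le_of_sq_le_sq' e3 s1).2
  set δ := w2 - w1 with hδ
  have hδ0 : 0 ≤ δ := by linarith
  have sδ : 0 ≤ Real.sin δ := Real.sin_nonneg_of_nonneg_of_le_pi hδ0 (by linarith)
  have hcos : Real.cos (a1 + δ) ≤ Real.cos w2 / Q := by
    have e1 : w2 = w1 + δ := by rw [hδ]; ring
    rw [Real.cos_add, e1, Real.cos_add, c1, sub_div]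
    have e2 : Real.sin w1 * Real.sin δ / Q ≤ Real.sin a1 * Real.sin δ := by
      have := mul_le_mul_of_nonneg_right s2 sδ
      rwa [div_mul_eq_mul_div] at this
    have e3 : Real.cos w1 / Q * Real.cos δ = Real.cos w1 * Real.cos δ / Q := by ring
    rw [e3]
    linarith
  have ha : a2 ≤ a1 + δ := by
    have h3 : 0 ≤ a1 + δ := add_nonneg (Real.arccos_nonneg _) hδ0
    calc a2 ≤ Real.arccos (Real.cos (a1 + δ)) := Real.arccos_le_arccos hcos
      _ ≤ a1 + δ := arccos_cos_le51 h3
  linarith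

theorem psi51_half_pi (d : ℝ) : psi51 (Real.pi / 2) d = 0 := by
  unfold psi51
  rw [Real.cos_pi_div_two, zero_div, Real.arccos_zero]
  ring

theorem astar51_mono {d : ℝ} {a b : ℕ} (ha : 1 ≤ a) (hab : a ≤ b) : astar51 d a ≤ astar51 d b := by
  unfold astar51
  have hpi := Real.pi_pos
  have ha0 : (0 : ℝ) < a := by exact_mod_cast ha
  have hab' : (a : ℝ) ≤ b := by exact_mod_cast hab
  have hb0 : (0 : ℝ) < b := by linarith
  have ha1 : (1 : ℝ) ≤ a := by exact_mod_cast ha
  apply psi51_anti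
  · positivity
  · exact div_le_div_of_nonneg_left hpi.le ha0 hab'
  · rw [div_le_iff₀ ha0]
    nlinarith

theorem astar51_two (d : ℝ) : astar51 d 2 = 0 := by
  unfold astar51
  exact_mod_cast psi51_half_pi d

/-- `arccos (1 / cosh (d / 2)) = arcsin (tanh (d / 2))` -/
theorem psi51_zero_left {d : ℝ} (hd : 0 ≤ d) : psi51 0 d = g51 d := by
  unfold psi51 g51
  rw [Real.cos_zero]
  set Q := Real.cosh (d / 2) with hQ
  have hQ1 : 1 ≤ Q := Real.one_le_cosh _
  have hq0 : 0 ≤ Real.sinh (d / 2) := Real.sinh_nonneg_iff.2 (by linarith)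
  have hQq : Q ^ 2 = 1 + Real.sinh (d / 2) ^ 2 := by
    have := Real.cosh_sq (d / 2)
    linarith
  have h3 : Real.arccos (1 / Q) = Real.arcsin (Real.tanh (d / 2)) := by
    rw [Real.arccos_eq_arcsin (by positivity)]
    congr 1
    rw [Real.tanh_eq_sinh_div_cosh, ← hQ, Real.sqrt_eq_iff_mul_self_eq (by
      rw [div_pow, one_pow, sub_nonneg, div_le_one (by positivity), hQq]
      linarith [sq_nonneg (Real.sinh (d / 2))]) (by positivity)]
    field_simp
    linarith
  rw [h3]
  ring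

theorem astar51_le_g {d : ℝ} (hd : 0 ≤ d) {b : ℕ} (hb : 1 ≤ b) : astar51 d b ≤ g51 d := by
  rw [← psi51_zero_left hd]
  unfold astar51
  have hpi := Real.pi_pos
  have hb1 : (1 : ℝ) ≤ b := by exact_mod_cast hb
  apply psi51_anti (le_refl _) (by positivity)
  rw [div_le_iff₀ (by linarith)]
  nlinarith

/-- the area of the regular `b`-gon of side `d`, zero for `b ≤ 2` -/
def Ust69 (d : ℝ) (b : ℕ) : ℝ := b * max 0 (astar51 d b)

theorem Ust69_zero (d : ℝ) : Ust69 d 0 = 0 := by
  unfold Ust69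
  simp

theorem Ust69_nonneg (d : ℝ) (b : ℕ) : 0 ≤ Ust69 d b :=
  mul_nonneg (Nat.cast_nonneg _) (le_max_left _ _)

theorem Ust69_eq {d : ℝ} {b : ℕ} (hb : 2 ≤ b) : Ust69 d b = b * astar51 d b := by
  unfold Ust69
  rw [max_eq_right]
  rw [← astar51_two d]
  exact astar51_mono (by norm_num) hb

theorem Ust69_small {d : ℝ} {b : ℕ} (hb : b ≤ 2) : Ust69 d b = 0 := by
  have h2 : (2 : ℕ) ≤ 2 := le_refl 2
  rcases Nat.eq_zero_or_pos b with h | h
  · rw [h]
    exact Ust69_zero d
  · unfold Ust69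
    rw [max_eq_left, mul_zero]
    rw [← astar51_two d]
    exact astar51_mono h hb

theorem Ust69_max_mono {d : ℝ} {a b : ℕ} (ha : 1 ≤ a) (hab : a ≤ b) :
    max 0 (astar51 d a) ≤ max 0 (astar51 d b) :=
  max_le_max (le_refl _) (astar51_mono ha hab)

theorem Ust69_mono (d : ℝ) : Monotone (Ust69 d) := by
  intro a b hab
  rcases Nat.eq_zero_or_pos a with h | h
  · rw [h, Ust69_zero]
    exact Ust69_nonneg d b
  · unfold Ust69
    apply mul_le_mul _ (Ust69_max_mono h hab) (le_max_left _ _) (Nat.cast_nonneg _)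
    exact_mod_cast hab

theorem Ust69_sup (d : ℝ) (a b : ℕ) : Ust69 d a + Ust69 d b ≤ Ust69 d (a + b) := by
  rcases Nat.eq_zero_or_pos a with h | h
  · rw [h, Ust69_zero, zero_add, zero_add]
  rcases Nat.eq_zero_or_pos b with h' | h'
  · rw [h', Ust69_zero, add_zero, add_zero]
  unfold Ust69
  have h1 := Ust69_max_mono (d := d) h (Nat.le_add_right a b)
  have h2 := Ust69_max_mono (d := d) h' (Nat.le_add_left b a)
  have h3 := mul_le_mul_of_nonneg_left h1 (Nat.cast_nonneg (α := ℝ) a)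
  have h4 := mul_le_mul_of_nonneg_left h2 (Nat.cast_nonneg (α := ℝ) b)
  push_cast
  rw [add_mul]
  linarith

theorem Ust69_le_g {d : ℝ} (hd : 0 ≤ d) (b : ℕ) : Ust69 d b ≤ b * g51 d := by
  rcases Nat.eq_zero_or_pos b with h | h
  · rw [h, Ust69_zero]
    simp
  · unfold Ust69
    exact mul_le_mul_of_nonneg_left (max_le (g51_nonneg hd) (astar51_le_g hd h))
      (Nat.cast_nonneg _)

/-- a closed walk of `b` steps `d` encloses at most `Ust69 d b` -/
theorem walk_Ust69 {d : ℝ} (v : ℕ → ℍ) (b : ℕ) (h0 : v b = v 0)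
    (h : ∀ i < b, dist (v i) (v (i + 1)) = d) :
    ∑ i ∈ Finset.range b, kap (v i) (v (i + 1)) ≤ Ust69 d b := by
  rcases Nat.eq_zero_or_pos b with hb | hb
  · subst hb
    rw [Ust69_zero]
    simp
  · refine (walk_reg51 v b hb h0 h).trans ?_
    unfold Ust69
    exact mul_le_mul_of_nonneg_left (le_max_right _ _) (Nat.cast_nonneg _)

end

end Pool.Agent.PEN
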