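import Pool.Agent.P4.Defs

/-! # PENNY 2, version 3: definitions (blueprint P4_Blue3) -/

set_option autoImplicit false

namespace Pool.Agent.PEN

noncomputable section

/-- lower bound for the number of edges in the order 7 tiling -/
def Lb (n : ℕ) : ℕ :=
  max (max ((7 * n - 15) / 3) ((19 * n - 48) / 8))
    (if n = 29 then 63 else if 93 ≤ n then (50 * n - 135) / 21 else 0)

/-- the requirement function -/
def Phi (b : ℕ) : ℝ :=
  max (2 * b - 4) (max (3 * b - 12) (max ((17 * b - 88) / 5)
    (max ((25 * b - 152) / 7) ((11 * b - 77) / 3))))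

structure NumU3 (al : ℝ) (U : ℕ → ℝ) : Prop where
  zero : U 0 = 0
  mono : Monotone U
  sup : ∀ a b, U a + U b ≤ U (a + b)
  lt : ∀ b : ℕ, 3 ≤ b → U b < Phi b * A3 al

end

end Pool.Agent.PEN
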