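import Pool.Agent.P4.Y71c
import Pool.Agent.P4.Defs3

/-! # PENNY 2, row Y3: assembly of version 3 -/

set_option autoImplicit false

namespace Pool.Agent.PEN

open Classical UpperHalfPlane

noncomputable section

/-- the structure `Geo` of a separated set, for any bound `U` of the closed walks -/
theorem exists_geo3_of71 {d : ℝ} (hd : 0 < d) {U : ℕ → ℝ} (ha : 2 * Real.pi < 7 * alpha d)
    (hns : NoSq d)
    (hW : ∀ (v : ℕ → ℍ) (b : ℕ), v b = v 0 → (∀ i < b, dist (v i) (v (i + 1)) = d) →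
        ∑ i ∈ Finset.range b, kap (v i) (v (i + 1)) ≤ U b)
    {P : Finset ℍ} (hP : Sep d P) (hPn : P.Nonempty)
    (hdeg : ∀ v ∈ P, 3 ≤ (P.filter (fun x => dist v x = d)).card) :
    ∃ G : Tg ℍ, G.Geo (alpha d) kap U ∧ G.P = P ∧
      cd d P = (G.D.filter (fun x => G.con x.1 x.2)).card :=
  exists_geo_gen hd ha hP hPn hdeg U (fun v b h0 h1 _ => hW v b h0 h1) hns (pentagon_area hd ha)

/-- assembly for a general lower bound `L` of the number of edges of the tiling -/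
theorem p4_all_gen71 {d : ℝ} (hd : 0 < d) (ha : 2 * Real.pi < 7 * alpha d) (L : ℕ → ℕ)
    (hL9 : 16 ≤ L 9) (hL : ∀ n, 9 ≤ n → L n + 2 ≤ L (n + 1)) (hns : NoSq d) {U : ℕ → ℝ}
    (hW : ∀ (v : ℕ → ℍ) (b : ℕ), v b = v 0 → (∀ i < b, dist (v i) (v (i + 1)) = d) →
        ∑ i ∈ Finset.range b, kap (v i) (v (i + 1)) ≤ U b)
    (hmain : ∀ G : Tg ℍ, G.Geo (alpha d) kap U → 10 ≤ G.P.card →
      (G.D.filter (fun x => G.con x.1 x.2)).card ≤ 2 * L G.P.card)
    {P : Finset ℍ} (hP : Sep d P) (hn : 9 ≤ P.card) : cd d P ≤ 2 * L P.card := by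
  obtain ⟨m, hm⟩ := Nat.exists_eq_add_of_le hn
  rw [hm]
  refine ind_gen71 hd L 9 hL ?_ ?_ m P hm hP
  · intro Q hc hQ
    have := nine71 hd hQ hc
    omega
  · intro Q hc hQ hdeg
    obtain ⟨G, hG, hGP, hcd⟩ := exists_geo3_of71 hd ha hns hW hQ
      (Finset.card_pos.mp (by omega)) hdeg
    rw [hcd, ← hGP]
    exact hmain G hG (by rw [hGP]; exact hc)

theorem Lb_nine71 : Lb 9 = 16 := by
  unfold Lb
  norm_num

/-- Q1 for one diameter, from an upper and a lower bound `L` -/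
theorem q1_gen71 {e d : ℝ} (he : 0 < e) (ha : alpha e = 2 * Real.pi / 7) (hd : 0 < d)
    (L : ℕ → ℕ)
    (hlow : ∀ n, 10 ≤ n → ∃ P : Finset ℍ, P.card = n ∧ Sep e P ∧ 2 * L n ≤ cd e P)
    (hup : d < e → ∀ P : Finset ℍ, 10 ≤ P.card → Sep d P → cd d P ≤ 2 * L P.card) (n : ℕ) :
    eD d n ≤ eD e n := by
  rcases Nat.lt_or_ge n 10 with hn | hn
  · exact q1_above he ha hd (Or.inr (by omega))
  rcases le_or_gt e d with hed | hed
  · exact q1_above he ha hd (Or.inl hed)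
  · obtain ⟨Q, hQc, hQs, hQ⟩ := hlow n hn
    have h2 := le_eD he hQc hQs
    have h3 := two_numEdges he Q
    refine le_trans ?_ h2
    apply eD_le
    intro P hc hP
    have h1 := hup hed P (by omega) hP
    have h4 := two_numEdges hd P
    rw [hc] at h1
    omega

end

end Pool.Agent.PEN
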