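import Pool.Agent.P4.Geo4_71
import Pool.Agent.P4.DensC39
import Pool.Agent.P4.Y71e
import Pool.Agent.P4.Us69

/-! # PENNY, version 4: existence of the structure, for every diameter -/

set_option autoImplicit false

namespace Pool.Agent.PEN

open Classical UpperHalfPlane

noncomputable section

section
variable {d : ℝ} {P : Finset ℍ} {T : Pt → Pt → Prop} {Tr : Pt → Pt → Pt → Prop}

/-- the structure of version 4 -/
theorem geo4_71 (hd : 0 < d) (ha : 2 * Real.pi < 7 * alpha d) (hP : Sep d P)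
    (hT : PTri (P.image kl) T Tr) (hT0 : PTri0 (P.image kl) T Tr)
    (hG : ∀ x ∈ P, ∀ y ∈ P, dist x y = d → T (kl x) (kl y))
    (hne : P.Nonempty) (hdeg : ∀ v ∈ P, 3 ≤ (P.filter (fun x => dist v x = d)).card)
    (hDel : DelT P Tr)
    (U : ℕ → ℝ) (hW : WalkP d P U) :
    (tg71 d hT).Geo4 (alpha d) kap U := by
  have hpi := Real.pi_pos
  have hα := alpha_pos hd
  have hα3 := alpha_lt hd
  have hdist : ∀ a b : ℍ, a ∈ P → b ∈ P → a ≠ b → d ≤ dist a b := fun a b ha hb hab =>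
    hP a ha b hb hab
  have hq2 : ∀ v ∈ P.image kl, ∃ x y, x ≠ y ∧ T v x ∧ T v y := by
    intro v hv
    obtain ⟨z, hz, rfl⟩ := Finset.mem_image.mp hv
    have h6 := hdeg z hz
    obtain ⟨x, hx, y, hy, hxy⟩ := Finset.one_lt_card.mp (by omega : 1 <
      (P.filter (fun x => dist z x = d)).card)
    rw [Finset.mem_filter] at hx hy
    exact ⟨kl x, kl y, fun h => hxy (kl_inj h), hG _ hz _ hx.1 hx.2, hG _ hz _ hy.1 hy.2⟩
  have hnb : ∀ v ∈ P, ∃ a, (v, a) ∈ D71 P T := by
    intro v hv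
    obtain ⟨x, hx⟩ := Finset.card_pos.mp (by have := hdeg v hv; omega :
      0 < (P.filter (fun x => dist v x = d)).card)
    obtain ⟨h1, h2⟩ := Finset.mem_filter.mp hx
    exact ⟨x, mem_D71.mpr ⟨⟨hv, h1⟩, hG _ hv _ h1 h2⟩⟩
  have hdegD : ∀ v ∈ P, 3 ≤ ((tg71 d hT).D.filter
      (fun x => x.1 = v ∧ (tg71 d hT).con x.1 x.2)).card := by
    intro v hv
    refine le_trans (hdeg v hv) ?_
    apply Finset.card_le_card_of_injOn (fun x => (v, x))
    · intro x hx
      have hx := Finset.mem_filter.mp (Finset.mem_coe.mp hx)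
      refine Finset.mem_coe.mpr (Finset.mem_filter.mpr ⟨mem_D71.mpr ⟨⟨hv, hx.1⟩,
        hG _ hv _ hx.1 hx.2⟩, rfl, hx.2⟩)
    · intro x _ y _ h
      exact (Prod.mk.inj h).2
  refine ⟨ha, by linarith, ?_, ?_, ?_, hdegD, ?_, ?_, ?_, ?_, ?_, ?_, ?_, ?_, ?_, ?_⟩
  · -- turn
    intro v hv hb S hS hD hap
    exact turn71 hT hv hb S hS hD hap
  · -- tot
    intro v hv hb
    exact tot71 hT hT0 hv hb (hnb v hv)
  · -- bdno
    intro v _ hb S hS
    exact bdno71 hT hb S hS
  · -- left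
    intro v a b h1' h2' h3' h4'
    obtain ⟨m1, t1⟩ := mem_D71.mp h1'
    obtain ⟨m2, t2⟩ := mem_D71.mp h2'
    refine kl_inj (hT.left_unique ?_ t1 t2 (fun h => h3' (mem_Dp71.mpr ⟨m1, t1, h⟩))
      (fun h => h4' (mem_Dp71.mpr ⟨m2, t2, h⟩)))
    intro a' ha' b' hb' hab'
    exact ncol71 hT hq2 ha' hab'
  · -- cnt
    have hc2 : 2 ≤ (P.image kl).card := by
      rw [Finset.card_image_of_injective _ kl_inj]
      obtain ⟨v, hv⟩ := hne
      have := hdeg v hv
      have h8 := Finset.card_filter_le P (fun x => dist v x = d)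
      omega
    have h9 := hT.card hc2
    have h10 : (Dp71 P T).card ≤ ((P.image kl ×ˢ P.image kl).filter
        (fun x => T x.1 x.2 ∧ Lft (P.image kl) x.1 x.2)).card := by
      apply Finset.card_le_card_of_injOn (fun x => (kl x.1, kl x.2))
      · intro x hx
        have hx := mem_Dp71.mp (Finset.mem_coe.mp hx : (x.1, x.2) ∈ Dp71 P T)
        exact Finset.mem_coe.mpr (Finset.mem_filter.mpr ⟨Finset.mem_product.mpr
          ⟨Finset.mem_image_of_mem _ hx.1.1, Finset.mem_image_of_mem _ hx.1.2⟩, hx.2⟩)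
      · intro x _ y _ h
        have h := Prod.mk.inj h
        exact Prod.ext (kl_inj h.1) (kl_inj h.2)
    have h11 : (P.filter (fun v => Bd (P.image kl) (kl v))).card
        ≤ ((P.image kl).filter (Bd (P.image kl))).card := by
      apply Finset.card_le_card_of_injOn kl
      · intro x hx
        have hx := Finset.mem_filter.mp (Finset.mem_coe.mp hx)
        exact Finset.mem_coe.mpr (Finset.mem_filter.mpr ⟨Finset.mem_image_of_mem _ hx.1, hx.2⟩)
      · intro x _ y _ h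
        exact kl_inj h
    rw [Finset.card_image_of_injective _ kl_inj] at h9
    change (Dp71 P T).card + 3 * (P.filter (fun v => Bd (P.image kl) (kl v))).card + 6 ≤ 6 * P.card
    omega
  · -- tpos
    intro a b hab
    rw [ar71 hT hab]
    have := ang_sum (ori71 hT hab)
    linarith
  · -- tcon
    intro a b hab hc1 hc2 hc3
    exact ang_contact hd hc1 (by rw [dist_comm]; exact hc3) hc2 (ori71 hT hab)
  · -- rh1
    rintro a b ⟨hab, hba, hc, c1, c2, c3, c4⟩
    have e2 := (tg71 d hT).ap4 a b hab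
    change ap71 P Tr (ap71 P Tr a b) a = b at e2
    change alpha d ≤ ang (ap71 P Tr a b) a (ap71 P Tr (ap71 P Tr a b) a) ∧
      ang (ap71 P Tr a b) a (ap71 P Tr (ap71 P Tr a b) a) ≤ 2 * alpha d
    rw [e2]
    have hne' := (tg71 d hT).ap5 a b hab hba
    have hm := mem_Dp71.mp hab
    have hd1 := hdist _ _ hm.1.1 hm.1.2 ((tg71 d hT).ne a b ((tg71 d hT).sub hab))
    have hd2 := hdist _ _ (Dp71_spec hT hab).1 (Dp71_spec hT hba).1 hne'
    exact ⟨(rhombus_ge hd (ori71 hT hab) (ori71 hT hba) c1 c2 c3 c4 hd1 hd2).1,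
      (rhombus hd (ori71 hT hab) (ori71 hT hba) c1 c2 c3 c4 hd1 hd2).1⟩
  · -- rh2
    rintro a b ⟨hab, hba, hc, c1, c2, c3, c4⟩
    have e1 := (tg71 d hT).ap3 b a hba
    change ap71 P Tr a (ap71 P Tr b a) = b at e1
    change alpha d ≤ ang a b (ap71 P Tr a b) + ang a (ap71 P Tr b a)
        (ap71 P Tr a (ap71 P Tr b a)) ∧
      ang a b (ap71 P Tr a b) + ang a (ap71 P Tr b a) (ap71 P Tr a (ap71 P Tr b a)) ≤ 2 * alpha d
    rw [e1]
    have hne' := (tg71 d hT).ap5 a b hab hba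
    have hm := mem_Dp71.mp hab
    have hd1 := hdist _ _ hm.1.1 hm.1.2 ((tg71 d hT).ne a b ((tg71 d hT).sub hab))
    have hd2 := hdist _ _ (Dp71_spec hT hab).1 (Dp71_spec hT hba).1 hne'
    exact ⟨(rhombus_ge hd (ori71 hT hab) (ori71 hT hba) c1 c2 c3 c4 hd1 hd2).2,
      (rhombus hd (ori71 hT hab) (ori71 hT hba) c1 c2 c3 c4 hd1 hd2).2⟩
  · -- pol
    intro C hB
    exact class_area39 hd hP hT hDel hB
  · -- kanti
    exact fun a b => kap_anti a b
  · -- kar
    intro a b hab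
    rw [ar71 hT hab]
    exact S_tri (ori71 hT hab)
  · -- walk
    intro v b h0 h1 h2
    refine hW v b h0 h2 (fun i hi => ?_)
    exact (mem_D71.mp (h1 i hi)).1.1

end

/-- closed walks of contact steps, the regular bound -/
theorem walkP_Ust71 (d : ℝ) (P : Finset ℍ) : WalkP d P (Ust69 d) :=
  fun v b h0 h1 _ => walk_Ust69 v b h0 h1

/-- **existence, version 4**: for every `d` the structure `Geo4`, and the structure `Geo` together
with the polygon lemma when there is no special square -/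
theorem exists_geo4 {d : ℝ} (hd : 0 < d) (ha : 2 * Real.pi < 7 * alpha d) {P : Finset ℍ}
    (hP : Sep d P) (hne : P.Nonempty)
    (hdeg : ∀ v ∈ P, 3 ≤ (P.filter (fun x => dist v x = d)).card) :
    ∃ G : Tg ℍ, G.Geo4 (alpha d) kap (Ust69 d) ∧ G.P = P ∧
      cd d P = (G.D.filter (fun x => G.con x.1 x.2)).card ∧
      (NoSq d → G.Geo (alpha d) kap (Ust69 d)) ∧ DelG G d := by
  obtain ⟨T, Tr, hT, hT0, hG, hDel⟩ := exists_PTri_del hd hP
  refine ⟨tg71 d hT, geo4_71 hd ha hP hT hT0 hG hne hdeg hDel _ (walkP_Ust71 d P), rfl, ?_,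
    fun hns => geo71 hd ha hP hT hT0 hG hne hdeg _ (walkP_Ust71 d P) hns (pentagon_area hd ha),
    delG71 hd hP hT hDel⟩
  unfold cd
  congr 1
  ext ⟨a, b⟩
  rw [Finset.mem_filter, Finset.mem_filter, Finset.mem_product]
  constructor
  · rintro ⟨h1, h2⟩
    exact ⟨mem_D71.mpr ⟨h1, hG _ h1.1 _ h1.2 h2⟩, h2⟩
  · rintro ⟨h1, h2⟩
    exact ⟨(mem_D71.mp h1).1, h2⟩

end

end Pool.Agent.PEN
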