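import Pool.Agent.P4.W4_71
import Pool.Agent.P4.Y71g
import Pool.Agent.P4.W18
import Pool.Agent.P4.SLb85
import Pool.Agent.P4.Lb18

/-! # PENNY, version 4: the frame -/

set_option autoImplicit false

namespace Pool.Agent.PEN

open Classical UpperHalfPlane

noncomputable section

/-- the numbers of a configuration: `n` points, `b` outer contact darts, `t` inner triangles, `I`
inner edges which are no contacts, `M` contact darts, area `A` of the inner classes -/
structure Num4 (al : ℝ) (U : ℕ → ℝ) (n b t I M : ℕ) (A : ℝ) : Prop where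
  edge : M + 2 * I = 3 * t + b
  even : Even M
  E1 : t + b + 2 ≤ 2 * n
  low : A3 al * t ≤ A
  up : A ≤ U b
  b3 : t ≠ 0 → 3 ≤ b
  G : (7 * al - 2 * Real.pi) * ((n : ℝ) - b) ≤ al * (2 * I) + (A - A3 al * t)

section D
variable {V : Type} (G : Tg V) {al : ℝ} {kp : V → V → ℝ} {U : ℕ → ℝ}

theorem even_iI71 : Even G.iI.card := by
  have h : ∑ x ∈ G.iI, (1 : ZMod 2) = 0 := by
    apply Finset.sum_involution (fun x _ => (x.2, x.1))
    · intro x _
      decide
    · intro x hx _ h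
      unfold Tg.iI at hx
      rw [Finset.mem_filter] at hx
      have h1 : x.2 = x.1 := congrArg Prod.fst h
      exact G.ne x.1 x.2 (G.sub hx.1) h1.symm
    · intro x hx
      unfold Tg.iI at hx ⊢
      rw [Finset.mem_filter] at hx ⊢
      obtain ⟨h0, h3, h2⟩ := hx
      have h4 : x ∈ G.cD (G.cl x) := (mem_cD66 G).2 ⟨h3.1, rfl⟩
      have h5 := mem_cI11 G h3.2 h4 h2
      have h6 : (x.2, x.1) ∈ G.Dp := cI_swap11 G h5
      have h7 := cI_sub11 G (swap_cD66 G h5)
      rw [mem_cD66] at h7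
      exact ⟨h6, inn_of_cl27 G h3 h7.1 h7.2, fun h => h2 (G.csymm _ _ h)⟩
    · intro x _
      rfl
  rw [Finset.sum_const, nsmul_eq_mul, mul_one] at h
  rw [even_iff_two_dvd]
  exact (ZMod.natCast_eq_zero_iff _ _).1 h

theorem area_ge4 (hG : G.Geo4 al kp U) :
    A3 al * ((G.iD.card : ℝ) / 3) ≤ ∑ x ∈ G.iD, G.ar x.1 x.2 / 3 := by
  rw [sum_iD27 G (fun x => G.ar x.1 x.2 / 3)]
  have h1 : (G.iD.card : ℝ) / 3 = ∑ C ∈ G.iC, ((G.cT C).card : ℝ) := by
    rw [card_iD27 G]
    push_cast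
    ring
  rw [h1, Finset.mul_sum]
  exact Finset.sum_le_sum fun C hC => hG.pol C (cB_of_iC66 G hC)

/-- **the frame of version 4** -/
theorem num4 (hG : G.Geo4 al kp U) (h0 : U 0 = 0) (hm : Monotone U)
    (hs : ∀ a b, U a + U b ≤ U (a + b)) :
    ∃ (t I : ℕ) (A : ℝ), Num4 al U G.P.card G.oJ.card t I
      (G.D.filter (fun x => G.con x.1 x.2)).card A ∧ G.iD.card = 3 * t ∧ G.iI.card = 2 * I ∧
      A = ∑ x ∈ G.iD, G.ar x.1 x.2 / 3 := by
  obtain ⟨I, hI⟩ := even_iI71 G
  have h1 := dart_count G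
  have h2 := W4.E1_ineq G hG
  have h3 := card_iD27 G
  have h4 := W4.area_le G hG h0 hm hs
  have h5 := W4.G_ineq G hG (fun C hC => hG.pol C (cB_of_iC66 G hC))
  have h6 := area_ge4 G hG
  obtain ⟨t, ht⟩ : ∃ t, t = ∑ C ∈ G.iC, (G.cT C).card := ⟨_, rfl⟩
  rw [← ht] at h3
  have h7 : (G.iD.card : ℝ) = 3 * t := by
    rw [h3]
    push_cast
    ring
  have h8 : (G.iI.card : ℝ) = 2 * I := by
    rw [hI]
    push_cast
    ring
  have e : (G.iD.card : ℝ) / 3 = t := by
    rw [h7]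
    ring
  rw [e] at h5 h6
  rw [h8] at h5
  refine ⟨t, I, _, ⟨by omega, even_con18 G, by omega, h6, h4.1, fun ht0 => h4.2 ?_, h5⟩, h3,
    by omega, rfl⟩
  apply Finset.card_pos.1
  omega

/-- the frame, the structure without special squares -/
theorem num4_E2 (hG : G.Geo4 al kp U) (hns : W4.NoSqG G al) {I : ℕ} (hI : G.iI.card = 2 * I) :
    G.P.card ≤ G.oJ.card + 3 * I := by
  have := W4.E2_ineq G hG hns
  omega

end D

/-- **all configurations** with at most `N` points, from the ones with minimal degree 3 -/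
theorem all_gen4 {d : ℝ} (hd : 0 < d) (ha : 2 * Real.pi < 7 * alpha d) (L : ℕ → ℕ)
    (hL9 : 16 ≤ L 9) (hL : ∀ n, 9 ≤ n → L n + 2 ≤ L (n + 1)) (N : ℕ)
    (hmain : ∀ G : Tg ℍ, G.Geo4 (alpha d) kap (Ust69 d) →
      (NoSq d → G.Geo (alpha d) kap (Ust69 d)) → DelG G d → 10 ≤ G.P.card → G.P.card ≤ N →
      (G.D.filter (fun x => G.con x.1 x.2)).card ≤ 2 * L G.P.card)
    {P : Finset ℍ} (hP : Sep d P) (hn : 9 ≤ P.card) (hN : P.card ≤ N) :
    cd d P ≤ 2 * L P.card := by
  obtain ⟨L', hL'⟩ : ∃ L' : ℕ → ℕ, ∀ n, L' n = if n ≤ N then L n else L n + n * n := ⟨_, fun _ => rfl⟩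
  have key : cd d P ≤ 2 * L' P.card := by
    obtain ⟨m, hm⟩ := Nat.exists_eq_add_of_le hn
    rw [hm]
    refine ind_gen71 hd L' 9 ?_ ?_ ?_ m P hm hP
    · intro n hn
      have h1 := hL n hn
      have h2 : n * n ≤ (n + 1) * (n + 1) := Nat.mul_le_mul (by omega) (by omega)
      rw [hL', hL']
      split_ifs <;> omega
    · intro Q hc hQ
      have := nine71 hd hQ hc
      rw [hL']
      split_ifs <;> omega
    · intro Q hc hQ hdeg
      rw [hL']
      by_cases h : Q.card ≤ N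
      · rw [if_pos h]
        obtain ⟨G, hG, hGP, hcd, hGeo, hDel⟩ := exists_geo4 hd ha hQ
          (Finset.card_pos.mp (by omega)) hdeg
        rw [hcd, ← hGP]
        exact hmain G hG hGeo hDel (by rw [hGP]; exact hc) (by rw [hGP]; exact h)
      · rw [if_neg h]
        have h1 : cd d Q ≤ Q.card * Q.card := by
          unfold cd
          rw [← Finset.card_product]
          exact Finset.card_filter_le _ _
        omega
  rw [hL', if_pos hN] at key
  exact key

/-- **upper bound from the numbers** -/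
theorem up_of_num4 {d : ℝ} (hd : 0 < d) (ha : 2 * Real.pi < 7 * alpha d) (L : ℕ → ℕ)
    (hL9 : 16 ≤ L 9) (hL : ∀ n, 9 ≤ n → L n + 2 ≤ L (n + 1)) (N : ℕ)
    (hnum : ∀ (n b t I M : ℕ) (A : ℝ), 10 ≤ n → n ≤ N →
      Num4 (alpha d) (Ust69 d) n b t I M A → M ≤ 2 * L n)
    {P : Finset ℍ} (hP : Sep d P) (hn : 9 ≤ P.card) (hN : P.card ≤ N) :
    cd d P ≤ 2 * L P.card := by
  refine all_gen4 hd ha L hL9 hL N (fun G hG _ _ h1 h2 => ?_) hP hn hN
  obtain ⟨t, I, A, h3, _⟩ := num4 G hG (Ust69_zero d) (Ust69_mono d) (Ust69_sup d)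
  exact hnum _ _ _ _ _ _ h1 h2 h3

/-- **Q1 for one diameter and at most `N` points, from the numbers** -/
theorem q1_of_num4 {e d : ℝ} (he : 0 < e) (ha : alpha e = 2 * Real.pi / 7) (hd : 0 < d) (N : ℕ)
    (hnum : d < e → ∀ (n b t I M : ℕ) (A : ℝ), 10 ≤ n → n ≤ N →
      Num4 (alpha d) (Ust69 d) n b t I M A → M ≤ 2 * Lb n)
    {n : ℕ} (hn : n ≤ N) : eD d n ≤ eD e n := by
  rcases Nat.lt_or_ge n 10 with h10 | h10
  · exact q1_above he ha hd (Or.inr (by omega))
  rcases le_or_gt e d with hed | hed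
  · exact q1_above he ha hd (Or.inl hed)
  · have ha2 : 2 * Real.pi < 7 * alpha d := by
      have := alpha_anti hd hed
      rw [ha] at this
      linarith
    obtain ⟨Q, hQc, hQs, hQ⟩ := strip_Lb he ha n (by omega)
    have h2 := le_eD he hQc hQs
    have h3 := two_numEdges he Q
    refine le_trans ?_ h2
    apply eD_le
    intro P hc hP
    have h1 := up_of_num4 hd ha2 Lb (by rw [Lb_nine71]) Lb_step N (hnum hed) hP (by omega)
      (by omega)
    have h4 := two_numEdges hd P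
    rw [hc] at h1
    omega

end

end Pool.Agent.PEN
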