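import Pool.Agent.P4.B9d
import Pool.Agent.P4.Y71h

/-! # PENNY, version 4: the frame with the dispersed isoperimetric inequality -/

set_option autoImplicit false

namespace Pool.Agent.PEN

open Classical UpperHalfPlane

noncomputable section

/-- the side conditions of the dichotomy -/
structure Side9 (d q : ℝ) : Prop where
  q0 : 0 ≤ q
  rg : 2 * rho51 d (alpha d) ≤ g51 d
  K0 : 2 * rho51 d (alpha d) ≤ 4 * Real.arcsin q
  u : 2 * Real.arcsin (q * Real.tanh (d / 2)) ≤ g51 d - rho51 d (alpha d)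

/-- the numbers of a configuration, with `s` sharp boundary darts -/
structure Num5 (d q : ℝ) (n b s t I M : ℕ) (A : ℝ) : Prop
    extends Num4 (alpha d) (Ust69 d) n b t I M A where
  D : 7 * n ≤ 4 * b + s + 3 * t + 2 * I
  dis : A ≤ b * (2 * Real.arcsin (q * Real.tanh (d / 2))) ∨
    A ≤ b * g51 d - (4 * Real.arcsin q - 2 * rho51 d (alpha d)) - s * rho51 d (alpha d)

/-- the angle of a pair of contact triangles against the angle of the ideal triangle -/
theorem two_alpha_le9 {d : ℝ} (hd : 0 < d) : 2 * alpha d ≤ Real.pi - g51 d := by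
  have h1 : Real.tanh (d / 2) < 1 := Real.tanh_lt_one _
  have hs : 0 < Real.sinh (d / 2) := Real.sinh_pos_iff.2 (by linarith)
  have hc : 0 < Real.cosh (d / 2) := Real.cosh_pos _
  have h0 : 0 < Real.tanh (d / 2) := by
    rw [Real.tanh_eq_sinh_div_cosh]
    exact div_pos hs hc
  have h2 : Real.tanh (d / 2) ≤ Real.tanh (d / 2) / Real.tanh d := by
    have h3 : 0 < Real.tanh d := by
      rw [Real.tanh_eq_sinh_div_cosh]
      exact div_pos (Real.sinh_pos_iff.2 hd) (Real.cosh_pos _)
    rw [le_div_iff₀ h3]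
    have h4 : Real.tanh d < 1 := Real.tanh_lt_one _
    nlinarith
  have h3 : alpha d ≤ Real.arccos (Real.tanh (d / 2)) := by
    unfold alpha
    exact Real.antitone_arccos h2
  rw [Real.arccos_eq_pi_div_two_sub_arcsin] at h3
  unfold g51
  linarith

theorem num5 {G : Tg ℍ} {d q : ℝ} (hG : G.Geo4 (alpha d) kap (Ust69 d)) (hD : DelG G d)
    (hS : Side9 d q) : ∃ (s t I : ℕ) (A : ℝ), Num5 d q G.P.card G.oJ.card s t I
      (G.D.filter (fun x => G.con x.1 x.2)).card A ∧ G.iD.card = 3 * t ∧ G.iI.card = 2 * I ∧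
      A = ∑ x ∈ G.iD, G.ar x.1 x.2 / 3 := by
  obtain ⟨t, I, A, h1, h2, h3, h4⟩ := num4 G hG (Ust69_zero d) (Ust69_mono d) (Ust69_sup d)
  have h5 := D_ineq4 G hG
  have h6 := disp_area4 hG hD (two_alpha_le9 hD.hd) hS.rg (rho_nonneg9 hD.hd _) hS.K0 hS.u hS.q0
  rw [← h4] at h6
  refine ⟨(G.shp (alpha d)).card, t, I, A, ⟨h1, by omega, h6⟩, h2, h3, h4⟩

/-- **Q1 for one diameter, from the numbers with the dichotomy** -/
theorem q1_of_num5 {e d q : ℝ} (he : 0 < e) (ha : alpha e = 2 * Real.pi / 7) (hd : 0 < d)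
    (hS : Side9 d q)
    (hnum : d < e → ∀ (n b s t I M : ℕ) (A : ℝ), 10 ≤ n →
      Num5 d q n b s t I M A → M ≤ 2 * Lb n) (n : ℕ) : eD d n ≤ eD e n := by
  rcases Nat.lt_or_ge n 10 with h10 | h10
  · exact q1_above he ha hd (Or.inr (by omega))
  rcases le_or_gt e d with hed | hed
  · exact q1_above he ha hd (Or.inl hed)
  · have ha2 : 2 * Real.pi < 7 * alpha d := by
      have := alpha_anti hd hed
      rw [ha] at this
      linarith
    obtain ⟨Q, hQc, hQs, hQ⟩ := strip_Lb he ha n (by omega)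
    have h2 := le_eD he hQc hQs
    have h3 := two_numEdges he Q
    refine le_trans ?_ h2
    apply eD_le
    intro P hc hP
    have h1 : cd d P ≤ 2 * Lb P.card := by
      refine all_gen4 hd ha2 Lb (by rw [Lb_nine71]) Lb_step n
        (fun G hG _ hDel h1 h2 => ?_) hP (by omega) (by omega)
      obtain ⟨s, t, I, A, h3, _⟩ := num5 hG hDel hS
      exact hnum hed _ _ _ _ _ _ _ h1 h3
    have h4 := two_numEdges hd P
    rw [hc] at h1
    omega

end

end Pool.Agent.PEN
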