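import Pool.Agent.P4.NumDs52
import Pool.Agent.P4.M52
import Pool.Agent.P4.Y9

/-! # Numbers of version 4: brackets of the functions of the distance

For `x₁ ≤ A3 ≤ x₂` with rational ends: brackets of `cos α`, `g51`, `kt51`, `rho51`,
`2 arcsin (8/9 tanh (d/2))` and of the areas of the regular polygons. -/

set_option autoImplicit false

namespace Pool.Agent.PEN

noncomputable section

/-! ### Taylor bounds -/

theorem sin_ge7_52 {x : ℝ} (h0 : 0 ≤ x) (h1 : x ≤ 2) :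
    x - x ^ 3 / 6 + x ^ 5 / 120 - x ^ 7 / 5040 ≤ Real.sin x := by
  have hder : ∀ t, HasDerivAt (fun t => Real.sin t - (t - t ^ 3 / 6 + t ^ 5 / 120 - t ^ 7 / 5040))
      (Real.cos t - (1 - t ^ 2 / 2 + t ^ 4 / 24 - t ^ 6 / 720)) t := by
    intro t
    refine ((Real.hasDerivAt_sin t).sub ((((hasDerivAt_id t).sub
      ((hasDerivAt_pow 3 t).div_const 6)).add
      ((hasDerivAt_pow 5 t).div_const 120)).sub
      ((hasDerivAt_pow 7 t).div_const 5040))).congr_deriv ?_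
    push_cast
    ring
  have hmono : MonotoneOn
      (fun t => Real.sin t - (t - t ^ 3 / 6 + t ^ 5 / 120 - t ^ 7 / 5040))
      (Set.Icc (0 : ℝ) 2) := by
    refine monotoneOn_of_deriv_nonneg (convex_Icc _ _)
      (fun t _ => (hder t).continuousAt.continuousWithinAt)
      (fun t _ => (hder t).differentiableAt.differentiableWithinAt) fun t ht => ?_
    rw [interior_Icc] at ht
    rw [(hder t).deriv]
    have := cos_ge52 ht.1.le ht.2.le
    linarith
  have h := hmono (a := 0) ⟨le_rfl, by norm_num⟩ ⟨h0, h1⟩ h0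
  norm_num at h
  linarith

theorem cos_le8_52 {x : ℝ} (h0 : 0 ≤ x) (h1 : x ≤ 2) :
    Real.cos x ≤ 1 - x ^ 2 / 2 + x ^ 4 / 24 - x ^ 6 / 720 + x ^ 8 / 40320 := by
  have hder : ∀ t, HasDerivAt
      (fun t => (1 - t ^ 2 / 2 + t ^ 4 / 24 - t ^ 6 / 720 + t ^ 8 / 40320) - Real.cos t)
      (Real.sin t - (t - t ^ 3 / 6 + t ^ 5 / 120 - t ^ 7 / 5040)) t := by
    intro t
    refine ((((((hasDerivAt_const t 1).sub ((hasDerivAt_pow 2 t).div_const 2)).add
      ((hasDerivAt_pow 4 t).div_const 24)).sub ((hasDerivAt_pow 6 t).div_const 720)).add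
      ((hasDerivAt_pow 8 t).div_const 40320)).sub (Real.hasDerivAt_cos t)).congr_deriv ?_
    push_cast
    ring
  have hmono : MonotoneOn
      (fun t => (1 - t ^ 2 / 2 + t ^ 4 / 24 - t ^ 6 / 720 + t ^ 8 / 40320) - Real.cos t)
      (Set.Icc (0 : ℝ) 2) := by
    refine monotoneOn_of_deriv_nonneg (convex_Icc _ _)
      (fun t _ => (hder t).continuousAt.continuousWithinAt)
      (fun t _ => (hder t).differentiableAt.differentiableWithinAt) fun t ht => ?_
    rw [interior_Icc] at ht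
    rw [(hder t).deriv]
    have := sin_ge7_52 ht.1.le ht.2.le
    linarith
  have h := hmono (a := 0) ⟨le_rfl, by norm_num⟩ ⟨h0, h1⟩ h0
  norm_num at h
  linarith

/-! ### Brackets -/

theorem cos_alpha_A3_52 (d : ℝ) :
    Real.cos (alpha d) = Real.cos (Real.pi / 3 - A3 (alpha d) / 3) := by
  congr 1
  unfold A3
  ring

theorem h_ge_of52 {d x h1 : ℝ} (h0 : 0 ≤ x) (hx : x ≤ A3 (alpha d)) (hx3 : x ≤ 1)
    (H : h1 ≤ (1 - (x / 3) ^ 2 / 2 + (x / 3) ^ 4 / 24 - (x / 3) ^ 6 / 720) / 2 +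
      17320508 / 20000000 * (x / 3 - (x / 3) ^ 3 / 6)) : h1 ≤ Real.cos (alpha d) := by
  have hpi := Real.pi_gt_three
  have ha := alpha_nonneg39 d
  have h2 := cos_third_lb52 (z := x / 3) (by linarith) (by linarith)
  have h3 : Real.cos (Real.pi / 3 - x / 3) ≤ Real.cos (alpha d) := by
    apply Real.cos_le_cos_of_nonneg_of_le_pi ha (by linarith)
    unfold A3 at hx
    linarith
  linarith

theorem h_le_of52 {d x h2 : ℝ} (h0 : 0 ≤ x) (hx : A3 (alpha d) ≤ x) (hx3 : x ≤ 1)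
    (H : (1 - (x / 3) ^ 2 / 2 + (x / 3) ^ 4 / 24) / 2 +
      17320509 / 20000000 * (x / 3 - (x / 3) ^ 3 / 6 + (x / 3) ^ 5 / 120) ≤ h2) :
    Real.cos (alpha d) ≤ h2 := by
  have hpi := Real.pi_gt_three
  have h2 := cos_third_ub52 (z := x / 3) (by linarith) (by linarith)
  have h3 : Real.cos (alpha d) ≤ Real.cos (Real.pi / 3 - x / 3) := by
    apply Real.cos_le_cos_of_nonneg_of_le_pi (by linarith) (alpha_le_pi39 d)
    unfold A3 at hx
    linarith
  linarith

theorem tanh_sq52 {d : ℝ} (hd : 0 < d) :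
    Real.tanh (d / 2) ^ 2 = 2 * Real.cos (alpha d) - 1 ∧ 0 ≤ Real.tanh (d / 2) := by
  have h := half_lt_cos39 hd
  rw [tanh_eq52 hd, Real.sq_sqrt (by linarith)]
  exact ⟨rfl, Real.sqrt_nonneg _⟩

theorem tanh_le52 {d h2 t2 : ℝ} (hd : 0 < d) (hh : Real.cos (alpha d) ≤ h2) (h0 : 0 ≤ t2)
    (h : 2 * h2 - 1 ≤ t2 ^ 2) : Real.tanh (d / 2) ≤ t2 := by
  obtain ⟨e1, e2⟩ := tanh_sq52 hd
  exact (sq_le_sq₀ e2 h0).1 (by linarith)

theorem tanh_ge52 {d h1 t1 : ℝ} (hd : 0 < d) (hh : h1 ≤ Real.cos (alpha d)) (h0 : 0 ≤ t1)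
    (h : t1 ^ 2 ≤ 2 * h1 - 1) : t1 ≤ Real.tanh (d / 2) := by
  obtain ⟨e1, e2⟩ := tanh_sq52 hd
  exact (sq_le_sq₀ h0 e2).1 (by linarith)

/-- `2 arcsin (q t) ≤ G` -/
theorem arcsin_le_of52 {y G v : ℝ} (hG0 : 0 ≤ G) (hG1 : G ≤ 3)
    (hv : v = G / 2 - (G / 2) ^ 3 / 6 + (G / 2) ^ 5 / 120 - (G / 2) ^ 7 / 5040) (h : y ≤ v) :
    2 * Real.arcsin y ≤ G := by
  have hpi := Real.pi_gt_three
  have h2 := sin_ge7_52 (x := G / 2) (by linarith) (by linarith)
  have h3 : y ≤ Real.sin (G / 2) := by linarith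
  have h4 := Real.arcsin_le_arcsin h3
  rw [Real.arcsin_sin (by linarith) (by linarith)] at h4
  linarith

theorem le_arcsin_of52 {y G v : ℝ} (hG0 : 0 ≤ G) (hG1 : G ≤ 3)
    (hv : v = G / 2 - (G / 2) ^ 3 / 6 + (G / 2) ^ 5 / 120) (h : v ≤ y) :
    G ≤ 2 * Real.arcsin y := by
  have hpi := Real.pi_gt_three
  have h2 := sin_le52 (x := G / 2) (by linarith) (by linarith)
  have h3 : Real.sin (G / 2) ≤ y := by linarith
  have h4 := Real.arcsin_le_arcsin h3
  rw [Real.arcsin_sin (by linarith) (by linarith)] at h4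
  linarith

theorem sin_alpha_le52 {d h1 s2 : ℝ} (h0 : 0 ≤ h1) (hh : h1 ≤ Real.cos (alpha d)) (hs : 0 ≤ s2)
    (h : 1 - h1 ^ 2 ≤ s2 ^ 2) : Real.sin (alpha d) ≤ s2 := by
  have h3 := Real.sin_sq_add_cos_sq (alpha d)
  have h4 : 0 ≤ Real.sin (alpha d) :=
    Real.sin_nonneg_of_nonneg_of_le_pi (alpha_nonneg39 d) (alpha_le_pi39 d)
  have h5 := pow_le_pow_left₀ h0 hh 2
  exact (sq_le_sq₀ h4 hs).1 (by linarith)

theorem sin_alpha_ge52 {d h2 s1 : ℝ} (hd : 0 < d) (hh : Real.cos (alpha d) ≤ h2) (hs : 0 ≤ s1)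
    (h : s1 ^ 2 ≤ 1 - h2 ^ 2) : s1 ≤ Real.sin (alpha d) := by
  have h3 := Real.sin_sq_add_cos_sq (alpha d)
  have h4 : 0 ≤ Real.sin (alpha d) :=
    Real.sin_nonneg_of_nonneg_of_le_pi (alpha_nonneg39 d) (alpha_le_pi39 d)
  have h6 := half_lt_cos39 hd
  have h5 := pow_le_pow_left₀ (by linarith) hh 2
  exact (sq_le_sq₀ hs h4).1 (by linarith)

theorem kt_le_of52 {d h1 h2 t2 s2 T k : ℝ} (hd : 0 < d) (h0 : 0 ≤ h1)
    (hh1 : h1 ≤ Real.cos (alpha d)) (hh2 : Real.cos (alpha d) ≤ h2) (ht0 : 0 ≤ t2)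
    (ht : 2 * h2 - 1 ≤ t2 ^ 2) (hs0 : 0 ≤ s2) (hs : 1 - h1 ^ 2 ≤ s2 ^ 2) (hT0 : 0 ≤ T)
    (hlt : t2 * h2 < 1) (hT : t2 * s2 ≤ T * (1 - t2 * h2)) (hk0 : 0 ≤ k) (hk1 : k ≤ 2)
    (hk : T * (1 - (k / 2) ^ 2 / 2 + (k / 2) ^ 4 / 24 - (k / 2) ^ 6 / 720 + (k / 2) ^ 8 / 40320) ≤
      k / 2 - (k / 2) ^ 3 / 6 + (k / 2) ^ 5 / 120 - (k / 2) ^ 7 / 5040) :
    kt51 (Real.tanh (d / 2)) (alpha d) ≤ k := by
  have hpi := Real.pi_gt_three
  have a1 := tanh_le52 hd hh2 ht0 ht
  have a0 := (tanh_sq52 hd).2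
  have a2 := sin_alpha_le52 h0 hh1 hs0 hs
  have a3 : 0 ≤ Real.sin (alpha d) :=
    Real.sin_nonneg_of_nonneg_of_le_pi (alpha_nonneg39 d) (alpha_le_pi39 d)
  have a4 : 0 ≤ Real.cos (alpha d) := h0.trans hh1
  have b1 : Real.tanh (d / 2) * Real.sin (alpha d) ≤ t2 * s2 := mul_le_mul a1 a2 a3 ht0
  have b2 : Real.tanh (d / 2) * Real.cos (alpha d) ≤ t2 * h2 := mul_le_mul a1 hh2 a4 ht0
  have b3 : 0 < 1 - Real.tanh (d / 2) * Real.cos (alpha d) := by linarith
  have b4 : T * (1 - t2 * h2) ≤ T * (1 - Real.tanh (d / 2) * Real.cos (alpha d)) :=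
    mul_le_mul_of_nonneg_left (by linarith) hT0
  have b5 : Real.tanh (d / 2) * Real.sin (alpha d) /
      (1 - Real.tanh (d / 2) * Real.cos (alpha d)) ≤ T := by
    rw [div_le_iff₀ b3]
    linarith
  have c1 := cos_le8_52 (x := k / 2) (by linarith) (by linarith)
  have c2 := sin_ge7_52 (x := k / 2) (by linarith) (by linarith)
  have c3 : 0 < Real.cos (k / 2) := Real.cos_pos_of_mem_Ioo ⟨by linarith, by linarith⟩
  have c4 : T ≤ Real.tan (k / 2) := by
    rw [Real.tan_eq_sin_div_cos, le_div_iff₀ c3]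
    have := mul_le_mul_of_nonneg_left c1 hT0
    linarith
  have c5 := Real.arctan_strictMono.monotone (b5.trans c4)
  rw [Real.arctan_tan (by linarith) (by linarith)] at c5
  unfold kt51
  linarith

theorem le_kt_of52 {d h1 h2 t1 s1 T k : ℝ} (hd : 0 < d) (h0 : 0 ≤ h1)
    (hh1 : h1 ≤ Real.cos (alpha d)) (hh2 : Real.cos (alpha d) ≤ h2) (ht0 : 0 ≤ t1)
    (ht : t1 ^ 2 ≤ 2 * h1 - 1) (hs0 : 0 ≤ s1) (hs : s1 ^ 2 ≤ 1 - h2 ^ 2) (hT0 : 0 ≤ T)
    (hT : T * (1 - t1 * h1) ≤ t1 * s1) (hk0 : 0 ≤ k) (hk1 : k ≤ 2)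
    (hk : k / 2 - (k / 2) ^ 3 / 6 + (k / 2) ^ 5 / 120 ≤
      T * (1 - (k / 2) ^ 2 / 2 + (k / 2) ^ 4 / 24 - (k / 2) ^ 6 / 720)) :
    k ≤ kt51 (Real.tanh (d / 2)) (alpha d) := by
  have hpi := Real.pi_gt_three
  have a1 := tanh_ge52 hd hh1 ht0 ht
  have a0 := (tanh_sq52 hd).2
  have a2 := sin_alpha_ge52 hd hh2 hs0 hs
  have a3 : 0 ≤ Real.sin (alpha d) :=
    Real.sin_nonneg_of_nonneg_of_le_pi (alpha_nonneg39 d) (alpha_le_pi39 d)
  have a4 : 0 ≤ Real.cos (alpha d) := h0.trans hh1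
  have a5 : Real.tanh (d / 2) < 1 := Real.tanh_lt_one _
  have b1 : t1 * s1 ≤ Real.tanh (d / 2) * Real.sin (alpha d) := mul_le_mul a1 a2 hs0 a0
  have b2 : t1 * h1 ≤ Real.tanh (d / 2) * Real.cos (alpha d) := mul_le_mul a1 hh1 h0 a0
  have b3 : 0 < 1 - Real.tanh (d / 2) * Real.cos (alpha d) := by
    have h5 := Real.cos_le_one (alpha d)
    nlinarith
  have b4 : T * (1 - Real.tanh (d / 2) * Real.cos (alpha d)) ≤ T * (1 - t1 * h1) :=
    mul_le_mul_of_nonneg_left (by linarith) hT0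
  have b5 : T ≤ Real.tanh (d / 2) * Real.sin (alpha d) /
      (1 - Real.tanh (d / 2) * Real.cos (alpha d)) := by
    rw [le_div_iff₀ b3]
    linarith
  have c1 := cos_ge52 (t := k / 2) (by linarith) (by linarith)
  have c2 := sin_le52 (x := k / 2) (by linarith) (by linarith)
  have c3 : 0 < Real.cos (k / 2) := Real.cos_pos_of_mem_Ioo ⟨by linarith, by linarith⟩
  have c4 : Real.tan (k / 2) ≤ T := by
    rw [Real.tan_eq_sin_div_cos, div_le_iff₀ c3]
    have := mul_le_mul_of_nonneg_left c1 hT0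
    linarith
  have c5 := Real.arctan_strictMono.monotone (c4.trans b5)
  rw [Real.arctan_tan (by linarith) (by linarith)] at c5
  unfold kt51
  linarith

/-- area of the regular polygon at a rational `x` -/
theorem W_le_of52 {x q S Y f : ℝ} {b : ℕ} (hb : 3 ≤ b) (hx0 : 0 ≤ x) (hx1 : x ≤ 1) (hS0 : 0 ≤ S)
    (hS : S ≤ 1 - (x / 6) ^ 2 / 2 -
      17320509 / 10000000 * (x / 6 - (x / 6) ^ 3 / 6 + (x / 6) ^ 5 / 120)) (hq : 0 ≤ q)
    (hqb : q * x ≤ 6 * (b - 1)) (hf : f = 3141593 / 1000000 / b)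
    (hY : Y = (3141592 / 1000000 + q * x / 2) / b) (hY2 : Y ≤ 2)
    (h : 1 - Y ^ 2 / 2 + Y ^ 4 / 24 - Y ^ 6 / 720 + Y ^ 8 / 40320 ≤
      S * (1 - f ^ 2 / 2 + f ^ 4 / 24 - f ^ 6 / 720)) :
    W69 b (sx52 x) ≤ q * x := by
  have hb3 : (3 : ℝ) ≤ b := by exact_mod_cast hb
  have hb0 : (0 : ℝ) < b := by linarith
  have hp1 := Real.pi_gt_d6
  have hp2 := Real.pi_lt_d6
  have hpi := Real.pi_pos
  have hqx : 0 ≤ q * x := mul_nonneg hq hx0
  have hf0 : 0 ≤ f := by rw [hf]; positivity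
  have hf1 : f ≤ 2 := by
    rw [hf, div_le_iff₀ hb0]
    linarith
  have hY0 : 0 ≤ Y := by rw [hY]; positivity
  have h3 := cos_le8_52 hY0 hY2
  have h4 := cos_ge52 hf0 hf1
  have h5 : Real.pi / b ≤ f := by
    rw [hf]
    exact div_le_div_of_nonneg_right (by linarith) hb0.le
  have h6 : Real.cos f ≤ Real.cos (Real.pi / b) :=
    Real.cos_le_cos_of_nonneg_of_le_pi (by positivity) (by linarith [Real.pi_gt_three]) h5
  set Z : ℝ := (Real.pi + q * x / 2) / b with hZ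
  have h7 : Y ≤ Z := by
    rw [hY, hZ]
    exact div_le_div_of_nonneg_right (by linarith) hb0.le
  have h8 : Z ≤ Real.pi := by
    rw [hZ, div_le_iff₀ hb0]
    nlinarith
  have h9 : Real.cos Z ≤ Real.cos Y := Real.cos_le_cos_of_nonneg_of_le_pi hY0 h8 h7
  have hs := sx_lb52 hx0 hx1 hS
  have h10 : Real.cos Z ≤ sx52 x * Real.cos (Real.pi / b) := by
    have h11 : S * (1 - f ^ 2 / 2 + f ^ 4 / 24 - f ^ 6 / 720) ≤ S * Real.cos (Real.pi / b) :=
      mul_le_mul_of_nonneg_left (h4.trans h6) hS0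
    have h12 : S * Real.cos (Real.pi / b) ≤ sx52 x * Real.cos (Real.pi / b) := by
      apply mul_le_mul_of_nonneg_right hs
      linarith [(cos_pi_div69 hb).1]
    linarith
  have h13 := Real.arccos_le_arccos h10
  rw [Real.arccos_cos (hY0.trans h7) h8] at h13
  have h14 := mul_le_mul_of_nonneg_left h13 (show (0 : ℝ) ≤ 2 * b by positivity)
  unfold W69
  have h15 : 2 * (b : ℝ) * Z = 2 * Real.pi + q * x := by
    rw [hZ]
    field_simp
  linarith

theorem arcsin89_52 : 21898 / 10000 ≤ 2 * Real.arcsin (8 / 9) := by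
  have hpi := Real.pi_gt_d6
  have hpi2 := Real.pi_lt_d6
  have h1 := cos_le8_52 (x := 475883 / 1000000) (by norm_num) (by norm_num)
  have h2 : Real.sin (Real.pi / 2 - 475883 / 1000000) ≤ 8 / 9 := by
    rw [Real.sin_pi_div_two_sub]
    refine h1.trans ?_
    norm_num
  have h3 := Real.arcsin_le_arcsin h2
  rw [Real.arcsin_sin (by linarith) (by linarith)] at h3
  linarith

/-! ### The exceptional distance `ds` -/

/-- the root of the quartic, seven digits -/
theorem hds7_52 {d : ℝ} (hd : 0 < d) (hq : Real.cos (5 * alpha d) = 2 * Real.cos (alpha d) - 1) :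
    5661209 / 10000000 ≤ Real.cos (alpha d) ∧ Real.cos (alpha d) ≤ 566121 / 1000000 := by
  rw [exc_iff39 hd] at hq
  have hh := half_lt_cos39 hd
  constructor
  · by_contra hcon
    push Not at hcon
    have h5 := qq_mono39 hh.le hcon
    rw [hq] at h5
    unfold qq39 at h5
    norm_num at h5
  · by_contra hcon
    push Not at hcon
    have h5 := qq_mono39 (by norm_num) hcon
    rw [hq] at h5
    unfold qq39 at h5
    norm_num at h5

/-- the brackets at ds -/
theorem ds_br52 {d : ℝ} (hd : 0 < d) (h1 : 5661209 / 10000000 ≤ Real.cos (alpha d))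
    (h2 : Real.cos (alpha d) ≤ 566121 / 1000000) :
    (2345807 / 10000000 ≤ A3 (alpha d) ∧ A3 (alpha d) ≤ 2345814 / 10000000) ∧ (74436731 / 100000000 ≤ g51 d ∧ g51 d ≤ 74436837 / 100000000) ∧
    2 * Real.arcsin (8 / 9 * Real.tanh (d / 2)) ≤ 65831375 / 100000000 ∧
    (4497292 / 100000000 ≤ rho51 d (alpha d) ∧ rho51 d (alpha d) ≤ 4497722 / 100000000) := by
  have a1 : 2345807 / 10000000 ≤ A3 (alpha d) := by
    apply A3_ge_of52 (by norm_num) (by norm_num)
    refine (cos_third_ub52 (by norm_num) (by norm_num)).trans (le_trans ?_ h1)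
    norm_num
  have a2 : A3 (alpha d) ≤ 2345814 / 10000000 := by
    apply A3_le_of52 (by norm_num) (by norm_num)
    refine le_trans (h2.trans ?_) (cos_third_lb52 (by norm_num) (by norm_num))
    norm_num
  have b1 := tanh_ge52 (t1 := 36365065 / 100000000) hd h1 (by norm_num) (by norm_num)
  have b2 := tanh_le52 (t2 := 36365094 / 100000000) hd h2 (by norm_num) (by norm_num)
  have g1 : 74436731 / 100000000 ≤ g51 d :=
    le_arcsin_of52 (by norm_num) (by norm_num) rfl (le_trans (by norm_num) b1)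
  have g2 : g51 d ≤ 74436837 / 100000000 :=
    arcsin_le_of52 (by norm_num) (by norm_num) rfl (b2.trans (by norm_num))
  have u2 : 2 * Real.arcsin (8 / 9 * Real.tanh (d / 2)) ≤ 65831375 / 100000000 :=
    arcsin_le_of52 (by norm_num) (by norm_num) rfl
      ((mul_le_mul_of_nonneg_left b2 (by norm_num)).trans (by norm_num))
  have k1 : 72187976 / 100000000 ≤ kt51 (Real.tanh (d / 2)) (alpha d) :=
    le_kt_of52 (t1 := 36365065 / 100000000) (s1 := 82432215 / 100000000) (T := 37747645 / 100000000) hd (by norm_num) h1 h2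
      (by norm_num) (by norm_num) (by norm_num) (by norm_num) (by norm_num) (by norm_num)
      (by norm_num) (by norm_num) (by norm_num)
  have k2 : kt51 (Real.tanh (d / 2)) (alpha d) ≤ 72188085 / 100000000 :=
    kt_le_of52 (t2 := 36365094 / 100000000) (s2 := 82432223 / 100000000) (T := 37747689 / 100000000) hd (by norm_num) h1 h2
      (by norm_num) (by norm_num) (by norm_num) (by norm_num) (by norm_num) (by norm_num)
      (by norm_num) (by norm_num) (by norm_num) (by norm_num)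
  have r1 : rho51 d (alpha d) = 2 * (g51 d - kt51 (Real.tanh (d / 2)) (alpha d)) := rfl
  refine ⟨⟨a1, a2⟩, ⟨g1, g2⟩, u2, ?_, ?_⟩ <;> rw [r1] <;> linarith

/-- the side conditions at ds -/
theorem ds_side52 {d : ℝ} (hd : 0 < d) (h1 : 5661209 / 10000000 ≤ Real.cos (alpha d))
    (h2 : Real.cos (alpha d) ≤ 566121 / 1000000) : Side9 d (8 / 9) := by
  obtain ⟨⟨a1, a2⟩, ⟨g1, g2⟩, u2, r1, r2⟩ := ds_br52 hd h1 h2
  have h3 := arcsin89_52
  exact ⟨by norm_num, by linarith, by linarith, by linarith⟩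

/-- the constants at ds -/
theorem ds_const52 {d : ℝ} (hd : 0 < d) (h1 : 5661209 / 10000000 ≤ Real.cos (alpha d))
    (h2 : Real.cos (alpha d) ≤ 566121 / 1000000) :
    2 * Real.pi - 6 * alpha d ≤ 4842 / 10000 * alpha d ∧
    g51 d ≤ 31733 / 10000 * A3 (alpha d) ∧
    1917 / 10000 * A3 (alpha d) ≤ rho51 d (alpha d) ∧
    18286 / 1000 * A3 (alpha d) ≤ 4 * Real.arcsin (8 / 9) - 2 * rho51 d (alpha d) ∧
    2 * Real.arcsin (8 / 9 * Real.tanh (d / 2)) ≤ 28064 / 10000 * A3 (alpha d) := by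
  obtain ⟨⟨a1, a2⟩, ⟨g1, g2⟩, u2, r1, r2⟩ := ds_br52 hd h1 h2
  have h3 := arcsin89_52
  have h4 : Real.pi = 3 * alpha d + A3 (alpha d) := by unfold A3; ring
  have h5 := Real.pi_gt_d6
  refine ⟨?_, ?_, ?_, ?_, ?_⟩ <;> linarith

/-- the regular polygons at ds -/
theorem ds_node52 {d : ℝ} (hd : 0 < d) (h1 : 5661209 / 10000000 ≤ Real.cos (alpha d))
    (h2 : Real.cos (alpha d) ≤ 566121 / 1000000) :
    Ust69 d 10 ≤ 14334 / 1000 * A3 (alpha d) ∧
    Ust69 d 26 ≤ 59765 / 1000 * A3 (alpha d) ∧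
    Ust69 d 27 ≤ 62795 / 1000 * A3 (alpha d) ∧
    Ust69 d 64 ≤ 17798 / 100 * A3 (alpha d) ∧
    Ust69 d 69 ≤ 193725 / 1000 * A3 (alpha d) := by
  obtain ⟨⟨a1, a2⟩, _⟩ := ds_br52 hd h1 h2
  have w10 : W69 10 (sx52 (2345807 / 10000000)) ≤ 14334 / 1000 * (2345807 / 10000000) :=
    W_le_of52 (S := 9315353524 / 10000000000) (by norm_num) (by norm_num) (by norm_num) (by norm_num) (by norm_num)
      (by norm_num) (by norm_num) rfl rfl (by norm_num) (by norm_num)
  have w26 : W69 26 (sx52 (2345807 / 10000000)) ≤ 59765 / 1000 * (2345807 / 10000000) :=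
    W_le_of52 (S := 9315353524 / 10000000000) (by norm_num) (by norm_num) (by norm_num) (by norm_num) (by norm_num)
      (by norm_num) (by norm_num) rfl rfl (by norm_num) (by norm_num)
  have w27 : W69 27 (sx52 (2345807 / 10000000)) ≤ 62795 / 1000 * (2345807 / 10000000) :=
    W_le_of52 (S := 9315353524 / 10000000000) (by norm_num) (by norm_num) (by norm_num) (by norm_num) (by norm_num)
      (by norm_num) (by norm_num) rfl rfl (by norm_num) (by norm_num)
  have w64 : W69 64 (sx52 (2345807 / 10000000)) ≤ 17798 / 100 * (2345807 / 10000000) :=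
    W_le_of52 (S := 9315353524 / 10000000000) (by norm_num) (by norm_num) (by norm_num) (by norm_num) (by norm_num)
      (by norm_num) (by norm_num) rfl rfl (by norm_num) (by norm_num)
  have w69 : W69 69 (sx52 (2345807 / 10000000)) ≤ 193725 / 1000 * (2345807 / 10000000) :=
    W_le_of52 (S := 9315353524 / 10000000000) (by norm_num) (by norm_num) (by norm_num) (by norm_num) (by norm_num)
      (by norm_num) (by norm_num) rfl rfl (by norm_num) (by norm_num)
  exact ⟨Ust_tab52 hd (by norm_num) (by norm_num) (by norm_num) a1 w10,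
    Ust_tab52 hd (by norm_num) (by norm_num) (by norm_num) a1 w26,
    Ust_tab52 hd (by norm_num) (by norm_num) (by norm_num) a1 w27,
    Ust_tab52 hd (by norm_num) (by norm_num) (by norm_num) a1 w64,
    Ust_tab52 hd (by norm_num) (by norm_num) (by norm_num) a1 w69⟩

/-! ### The distance `d₂` (`h = 0.54523820848..`) -/

/-- the brackets at d2 -/
theorem d2_br52 {d : ℝ} (hd : 0 < d) (h1 : 5452382 / 10000000 ≤ Real.cos (alpha d))
    (h2 : Real.cos (alpha d) ≤ 5452383 / 10000000) :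
    (1592231 / 10000000 ≤ A3 (alpha d) ∧ A3 (alpha d) ≤ 159224 / 1000000) ∧ (61104789 / 100000000 ≤ g51 d ∧ g51 d ≤ 61104872 / 100000000) ∧
    2 * Real.arcsin (8 / 9 * Real.tanh (d / 2)) ≤ 54132903 / 100000000 ∧
    (5034276 / 100000000 ≤ rho51 d (alpha d) ∧ rho51 d (alpha d) ≤ 5034626 / 100000000) := by
  have a1 : 1592231 / 10000000 ≤ A3 (alpha d) := by
    apply A3_ge_of52 (by norm_num) (by norm_num)
    refine (cos_third_ub52 (by norm_num) (by norm_num)).trans (le_trans ?_ h1)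
    norm_num
  have a2 : A3 (alpha d) ≤ 159224 / 1000000 := by
    apply A3_le_of52 (by norm_num) (by norm_num)
    refine le_trans (h2.trans ?_) (cos_third_lb52 (by norm_num) (by norm_num))
    norm_num
  have b1 := tanh_ge52 (t1 := 30079295 / 100000000) hd h1 (by norm_num) (by norm_num)
  have b2 := tanh_le52 (t2 := 30079329 / 100000000) hd h2 (by norm_num) (by norm_num)
  have g1 : 61104789 / 100000000 ≤ g51 d :=
    le_arcsin_of52 (by norm_num) (by norm_num) rfl (le_trans (by norm_num) b1)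
  have g2 : g51 d ≤ 61104872 / 100000000 :=
    arcsin_le_of52 (by norm_num) (by norm_num) rfl (b2.trans (by norm_num))
  have u2 : 2 * Real.arcsin (8 / 9 * Real.tanh (d / 2)) ≤ 54132903 / 100000000 :=
    arcsin_le_of52 (by norm_num) (by norm_num) rfl
      ((mul_le_mul_of_nonneg_left b2 (by norm_num)).trans (by norm_num))
  have k1 : 58587559 / 100000000 ≤ kt51 (Real.tanh (d / 2)) (alpha d) :=
    le_kt_of52 (t1 := 30079295 / 100000000) (s1 := 83828109 / 100000000) (T := 30161505 / 100000000) hd (by norm_num) h1 h2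
      (by norm_num) (by norm_num) (by norm_num) (by norm_num) (by norm_num) (by norm_num)
      (by norm_num) (by norm_num) (by norm_num)
  have k2 : kt51 (Real.tanh (d / 2)) (alpha d) ≤ 58587651 / 100000000 :=
    kt_le_of52 (t2 := 30079329 / 100000000) (s2 := 83828117 / 100000000) (T := 30161551 / 100000000) hd (by norm_num) h1 h2
      (by norm_num) (by norm_num) (by norm_num) (by norm_num) (by norm_num) (by norm_num)
      (by norm_num) (by norm_num) (by norm_num) (by norm_num)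
  have r1 : rho51 d (alpha d) = 2 * (g51 d - kt51 (Real.tanh (d / 2)) (alpha d)) := rfl
  refine ⟨⟨a1, a2⟩, ⟨g1, g2⟩, u2, ?_, ?_⟩ <;> rw [r1] <;> linarith

/-- the side conditions at d2 -/
theorem d2_side52 {d : ℝ} (hd : 0 < d) (h1 : 5452382 / 10000000 ≤ Real.cos (alpha d))
    (h2 : Real.cos (alpha d) ≤ 5452383 / 10000000) : Side9 d (8 / 9) := by
  obtain ⟨⟨a1, a2⟩, ⟨g1, g2⟩, u2, r1, r2⟩ := d2_br52 hd h1 h2
  have h3 := arcsin89_52
  exact ⟨by norm_num, by linarith, by linarith, by linarith⟩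

/-- the constants at d2 -/
theorem d2_const52 {d : ℝ} (hd : 0 < d) (h1 : 5452382 / 10000000 ≤ Real.cos (alpha d))
    (h2 : Real.cos (alpha d) ≤ 5452383 / 10000000) :
    2 * Real.pi - 6 * alpha d ≤ 3204 / 10000 * alpha d ∧
    g51 d ≤ 3838 / 1000 * A3 (alpha d) ∧
    3161 / 10000 * A3 (alpha d) ≤ rho51 d (alpha d) ∧
    2687 / 100 * A3 (alpha d) ≤ 4 * Real.arcsin (8 / 9) - 2 * rho51 d (alpha d) ∧
    2 * Real.arcsin (8 / 9 * Real.tanh (d / 2)) ≤ 34 / 10 * A3 (alpha d) := by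
  obtain ⟨⟨a1, a2⟩, ⟨g1, g2⟩, u2, r1, r2⟩ := d2_br52 hd h1 h2
  have h3 := arcsin89_52
  have h4 : Real.pi = 3 * alpha d + A3 (alpha d) := by unfold A3; ring
  have h5 := Real.pi_gt_d6
  refine ⟨?_, ?_, ?_, ?_, ?_⟩ <;> linarith

/-- the regular polygons at d2 -/
theorem d2_node52 {d : ℝ} (hd : 0 < d) (h1 : 5452382 / 10000000 ≤ Real.cos (alpha d))
    (h2 : Real.cos (alpha d) ≤ 5452383 / 10000000) :
    Ust69 d 11 ≤ 179 / 10 * A3 (alpha d) ∧
    Ust69 d 57 ≤ 18271 / 100 * A3 (alpha d) := by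
  obtain ⟨⟨a1, a2⟩, _⟩ := d2_br52 hd h1 h2
  have w11 : W69 11 (sx52 (1592231 / 10000000)) ≤ 179 / 10 * (1592231 / 10000000) :=
    W_le_of52 (S := 9536895312 / 10000000000) (by norm_num) (by norm_num) (by norm_num) (by norm_num) (by norm_num)
      (by norm_num) (by norm_num) rfl rfl (by norm_num) (by norm_num)
  have w57 : W69 57 (sx52 (1592231 / 10000000)) ≤ 18271 / 100 * (1592231 / 10000000) :=
    W_le_of52 (S := 9536895312 / 10000000000) (by norm_num) (by norm_num) (by norm_num) (by norm_num) (by norm_num)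
      (by norm_num) (by norm_num) rfl rfl (by norm_num) (by norm_num)
  exact ⟨Ust_tab52 hd (by norm_num) (by norm_num) (by norm_num) a1 w11,
    Ust_tab52 hd (by norm_num) (by norm_num) (by norm_num) a1 w57⟩

/-! ### The distance `d₃` (`h = 0.53439606583..`) -/

/-- the brackets at d3 -/
theorem d3_br52 {d : ℝ} (hd : 0 < d) (h1 : 534396 / 1000000 ≤ Real.cos (alpha d))
    (h2 : Real.cos (alpha d) ≤ 5343961 / 10000000) :
    (1205825 / 10000000 ≤ A3 (alpha d) ∧ A3 (alpha d) ≤ 1205832 / 10000000) ∧ (53077303 / 100000000 ≤ g51 d ∧ g51 d ≤ 53077388 / 100000000) ∧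
    2 * Real.arcsin (8 / 9 * Real.tanh (d / 2)) ≤ 47061117 / 100000000 ∧
    (5221506 / 100000000 ≤ rho51 d (alpha d) ∧ rho51 d (alpha d) ≤ 5221866 / 100000000) := by
  have a1 : 1205825 / 10000000 ≤ A3 (alpha d) := by
    apply A3_ge_of52 (by norm_num) (by norm_num)
    refine (cos_third_ub52 (by norm_num) (by norm_num)).trans (le_trans ?_ h1)
    norm_num
  have a2 : A3 (alpha d) ≤ 1205832 / 10000000 := by
    apply A3_le_of52 (by norm_num) (by norm_num)
    refine le_trans (h2.trans ?_) (cos_third_lb52 (by norm_num) (by norm_num))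
    norm_num
  have b1 := tanh_ge52 (t1 := 26228229 / 100000000) hd h1 (by norm_num) (by norm_num)
  have b2 := tanh_le52 (t2 := 26228268 / 100000000) hd h2 (by norm_num) (by norm_num)
  have g1 : 53077303 / 100000000 ≤ g51 d :=
    le_arcsin_of52 (by norm_num) (by norm_num) rfl (le_trans (by norm_num) b1)
  have g2 : g51 d ≤ 53077388 / 100000000 :=
    arcsin_le_of52 (by norm_num) (by norm_num) rfl (b2.trans (by norm_num))
  have u2 : 2 * Real.arcsin (8 / 9 * Real.tanh (d / 2)) ≤ 47061117 / 100000000 :=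
    arcsin_le_of52 (by norm_num) (by norm_num) rfl
      ((mul_le_mul_of_nonneg_left b2 (by norm_num)).trans (by norm_num))
  have k1 : 50466455 / 100000000 ≤ kt51 (Real.tanh (d / 2)) (alpha d) :=
    le_kt_of52 (t1 := 26228229 / 100000000) (s1 := 84523417 / 100000000) (T := 25782776 / 100000000) hd (by norm_num) h1 h2
      (by norm_num) (by norm_num) (by norm_num) (by norm_num) (by norm_num) (by norm_num)
      (by norm_num) (by norm_num) (by norm_num)
  have k2 : kt51 (Real.tanh (d / 2)) (alpha d) ≤ 5046655 / 10000000 :=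
    kt_le_of52 (t2 := 26228268 / 100000000) (s2 := 84523424 / 100000000) (T := 25782825 / 100000000) hd (by norm_num) h1 h2
      (by norm_num) (by norm_num) (by norm_num) (by norm_num) (by norm_num) (by norm_num)
      (by norm_num) (by norm_num) (by norm_num) (by norm_num)
  have r1 : rho51 d (alpha d) = 2 * (g51 d - kt51 (Real.tanh (d / 2)) (alpha d)) := rfl
  refine ⟨⟨a1, a2⟩, ⟨g1, g2⟩, u2, ?_, ?_⟩ <;> rw [r1] <;> linarith

/-- the side conditions at d3 -/
theorem d3_side52 {d : ℝ} (hd : 0 < d) (h1 : 534396 / 1000000 ≤ Real.cos (alpha d))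
    (h2 : Real.cos (alpha d) ≤ 5343961 / 10000000) : Side9 d (8 / 9) := by
  obtain ⟨⟨a1, a2⟩, ⟨g1, g2⟩, u2, r1, r2⟩ := d3_br52 hd h1 h2
  have h3 := arcsin89_52
  exact ⟨by norm_num, by linarith, by linarith, by linarith⟩

/-- the constants at d3 -/
theorem d3_const52 {d : ℝ} (hd : 0 < d) (h1 : 534396 / 1000000 ≤ Real.cos (alpha d))
    (h2 : Real.cos (alpha d) ≤ 5343961 / 10000000) :
    2 * Real.pi - 6 * alpha d ≤ 2396 / 10000 * alpha d ∧
    g51 d ≤ 4402 / 1000 * A3 (alpha d) ∧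
    4329 / 10000 * A3 (alpha d) ≤ rho51 d (alpha d) ∧
    3545 / 100 * A3 (alpha d) ≤ 4 * Real.arcsin (8 / 9) - 2 * rho51 d (alpha d) ∧
    2 * Real.arcsin (8 / 9 * Real.tanh (d / 2)) ≤ 3903 / 1000 * A3 (alpha d) := by
  obtain ⟨⟨a1, a2⟩, ⟨g1, g2⟩, u2, r1, r2⟩ := d3_br52 hd h1 h2
  have h3 := arcsin89_52
  have h4 : Real.pi = 3 * alpha d + A3 (alpha d) := by unfold A3; ring
  have h5 := Real.pi_gt_d6
  refine ⟨?_, ?_, ?_, ?_, ?_⟩ <;> linarith

/-- the regular polygons at d3 -/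
theorem d3_node52 {d : ℝ} (hd : 0 < d) (h1 : 534396 / 1000000 ≤ Real.cos (alpha d))
    (h2 : Real.cos (alpha d) ≤ 5343961 / 10000000) :
    Ust69 d 11 ≤ 1857 / 100 * A3 (alpha d) ∧
    Ust69 d 71 ≤ 26464 / 100 * A3 (alpha d) := by
  obtain ⟨⟨a1, a2⟩, _⟩ := d3_br52 hd h1 h2
  have w11 : W69 11 (sx52 (1205825 / 10000000)) ≤ 1857 / 100 * (1205825 / 10000000) :=
    W_le_of52 (S := 9649912254 / 10000000000) (by norm_num) (by norm_num) (by norm_num) (by norm_num) (by norm_num)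
      (by norm_num) (by norm_num) rfl rfl (by norm_num) (by norm_num)
  have w71 : W69 71 (sx52 (1205825 / 10000000)) ≤ 26464 / 100 * (1205825 / 10000000) :=
    W_le_of52 (S := 9649912254 / 10000000000) (by norm_num) (by norm_num) (by norm_num) (by norm_num) (by norm_num)
      (by norm_num) (by norm_num) rfl rfl (by norm_num) (by norm_num)
  exact ⟨Ust_tab52 hd (by norm_num) (by norm_num) (by norm_num) a1 w11,
    Ust_tab52 hd (by norm_num) (by norm_num) (by norm_num) a1 w71⟩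

end

end Pool.Agent.PEN
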