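import Pool.Agent.PEN.B49
import Pool.Agent.PEN.B39

/-! # Hyperbolic penny graphs: angles of equilateral pentagons

For an equilateral pentagon of side `d` all whose diagonals are at least `d`, cut into three
triangles, every corner is at most `3 α` and no two adjacent corners are larger than `2 α`;
hence the sum of the numbers `⌈θ / α⌉` is at most `12`. -/

set_option autoImplicit false

namespace Pool.Agent.PEN

open Classical UpperHalfPlane

noncomputable section

/-- law of sines: the product is symmetric -/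
theorem sin_law66 {v a b : ℍ} (ha : a ≠ v) (hb : b ≠ v) :
    Real.sinh (dist v a) * Real.sinh (dist v b) * Real.sin (ang v a b) =
      ori (kl v) (kl a) (kl b) / (2 * v.im * a.im * b.im) := by
  rw [kl_eq49, kl_eq49, kl_eq49, ang_eq49]
  have hz := Penny.disc_ne ha
  have hw := Penny.disc_ne hb
  have n1 := norm_pos_iff.2 hz
  have n2 := norm_pos_iff.2 hw
  have p1 := Penny.normSq_pos49 v a
  have p2 := Penny.normSq_pos49 v b
  have i1 := v.im_pos
  have i2 := a.im_pos
  have i3 := b.im_pos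
  have e1 : 1 - Complex.normSq (Penny.disc v a) =
      4 * v.im * a.im / Complex.normSq ((a : ℂ) - (starRingEnd ℂ) (v : ℂ)) := by
    unfold Penny.disc
    rw [Complex.normSq_div, eq_div_iff p1.ne', sub_mul, div_mul_cancel₀ _ p1.ne', one_mul,
      Complex.normSq_apply, Complex.normSq_apply]
    simp only [Complex.sub_re, Complex.sub_im, Complex.conj_re, Complex.conj_im,
      UpperHalfPlane.coe_re, UpperHalfPlane.coe_im]
    ring
  have e2 : 1 - Complex.normSq (Penny.disc v b) =
      4 * v.im * b.im / Complex.normSq ((b : ℂ) - (starRingEnd ℂ) (v : ℂ)) := by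
    unfold Penny.disc
    rw [Complex.normSq_div, eq_div_iff p2.ne', sub_mul, div_mul_cancel₀ _ p2.ne', one_mul,
      Complex.normSq_apply, Complex.normSq_apply]
    simp only [Complex.sub_re, Complex.sub_im, Complex.conj_re, Complex.conj_im,
      UpperHalfPlane.coe_re, UpperHalfPlane.coe_im]
    ring
  have e3 : (Penny.disc v b * (starRingEnd ℂ) (Penny.disc v a)).im =
      2 * v.im * ori (Penny.kl v) (Penny.kl a) (Penny.kl b) /
        (Complex.normSq ((a : ℂ) - (starRingEnd ℂ) (v : ℂ)) *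
          Complex.normSq ((b : ℂ) - (starRingEnd ℂ) (v : ℂ))) := by
    rw [Penny.disc_eq v b, Penny.disc_eq v a, map_mul, Complex.conj_ofReal]
    have e4 : ∀ (r s : ℝ) (z w : ℂ), ((r : ℂ) * z * ((s : ℂ) * w)).im = r * s * (z * w).im := by
      intro r s z w
      simp only [Complex.mul_im, Complex.mul_re, Complex.ofReal_re, Complex.ofReal_im]
      ring
    rw [e4, Penny.lin_det]
    unfold ori
    simp only [Prod.fst_sub, Prod.snd_sub]
    field_simp
  have e5 : Real.sin (Penny.ang v a b) = (Penny.disc v b * (starRingEnd ℂ) (Penny.disc v a)).im /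
      (‖Penny.disc v a‖ * ‖Penny.disc v b‖) := by
    unfold Penny.ang
    rw [Complex.sin_arg, norm_div]
    have h1 : (Penny.disc v b / Penny.disc v a).im =
        (Penny.disc v b * (starRingEnd ℂ) (Penny.disc v a)).im / ‖Penny.disc v a‖ ^ 2 := by
      rw [← Complex.normSq_eq_norm_sq, Complex.div_im]
      simp only [Complex.mul_im, Complex.conj_re, Complex.conj_im]
      ring
    rw [h1]
    field_simp
  rw [e5, Penny.sinh_disc, Penny.sinh_disc, e1, e2, e3]
  field_simp
  ring

theorem ang_coe66 {v x y z : ℍ} (hx : x ≠ v) (hy : y ≠ v) (hz : z ≠ v) :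
    ((ang v x z : ℝ) : Real.Angle) = ((ang v x y : ℝ) : Real.Angle) + ((ang v y z : ℝ) : Real.Angle) := by
  have hx' : Dv v x ≠ 0 := Penny.disc_ne hx
  have hy' : Dv v y ≠ 0 := Penny.disc_ne hy
  have hz' : Dv v z ≠ 0 := Penny.disc_ne hz
  unfold ang
  rw [Complex.arg_div_coe_angle hz' hx', Complex.arg_div_coe_angle hy' hx',
    Complex.arg_div_coe_angle hz' hy']
  abel

theorem ang_add66 {v x y z : ℍ} (hx : x ≠ v) (hy : y ≠ v) (hz : z ≠ v)
    (h1 : -Real.pi < ang v x y + ang v y z) (h2 : ang v x y + ang v y z ≤ Real.pi) :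
    ang v x z = ang v x y + ang v y z := by
  have h := ang_coe66 hx hy hz
  rw [← Real.Angle.coe_add] at h
  have h3 := congrArg Real.Angle.toReal h
  rw [Real.Angle.toReal_coe_eq_self_iff.2 ⟨h1, h2⟩] at h3
  have h4 : ((ang v x z : ℝ) : Real.Angle).toReal = ang v x z :=
    Real.Angle.toReal_coe_eq_self_iff.2 ⟨Complex.neg_pi_lt_arg _, Complex.arg_le_pi _⟩
  rw [h4] at h3
  exact h3

/-- a contact segment is seen under an angle at most `α` -/
theorem visual66 {d : ℝ} (hd : 0 < d) {v x y : ℍ} (h : dist x y = d) (hx : d ≤ dist v x)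
    (hy : d ≤ dist v y) : |ang v x y| ≤ alpha d := by
  have hx0 : 0 < dist v x := lt_of_lt_of_le hd hx
  have hy0 : 0 < dist v y := lt_of_lt_of_le hd hy
  have nx : x ≠ v := fun hh => by rw [hh, dist_self] at hx0; exact lt_irrefl _ hx0
  have ny : y ≠ v := fun hh => by rw [hh, dist_self] at hy0; exact lt_irrefl _ hy0
  have hl := cosh_law nx ny
  rw [h] at hl
  have s1 : 0 < Real.sinh (dist v x) := Real.sinh_pos_iff.2 hx0
  have s2 : 0 < Real.sinh (dist v y) := Real.sinh_pos_iff.2 hy0
  have c1 : Real.cosh d ≤ Real.cosh (dist v x) := by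
    rw [Real.cosh_le_cosh, abs_of_pos hd, abs_of_pos hx0]
    exact hx
  have c2 : Real.cosh d ≤ Real.cosh (dist v y) := by
    rw [Real.cosh_le_cosh, abs_of_pos hd, abs_of_pos hy0]
    exact hy
  have c0 : 1 < Real.cosh d := Real.one_lt_cosh.2 hd.ne'
  have q1 := Real.cosh_sq (dist v x)
  have q2 := Real.cosh_sq (dist v y)
  have hcos : Real.cos (alpha d) ≤ Real.cos |ang v x y| := by
    rw [Real.cos_abs, cos_alpha hd, div_le_iff₀ (by linarith)]
    generalize Real.cosh (dist v x) = R at *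
    generalize Real.cosh (dist v y) = T at *
    generalize Real.sinh (dist v x) = r at *
    generalize Real.sinh (dist v y) = t at *
    generalize Real.cos (ang v x y) = k at *
    generalize Real.cosh d = C at *
    have hrt : r * t ≤ R * T - 1 := by
      have h1 : (r * t) ^ 2 ≤ (R * T - 1) ^ 2 := by
        have : (R * T - 1) ^ 2 - (r * t) ^ 2 = (R - T) ^ 2 := by
          rw [mul_pow]
          have e1 : r ^ 2 = R ^ 2 - 1 := by linarith
          have e2 : t ^ 2 = T ^ 2 - 1 := by linarith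
          rw [e1, e2]
          ring
        nlinarith [sq_nonneg (R - T)]
      have h2 : 0 ≤ R * T - 1 := by nlinarith
      exact abs_le_of_sq_le_sq' h1 h2 |>.2
    have h3 : C ^ 2 ≤ R * T := by nlinarith
    have h4 : r * t * C ≤ r * t * (k * (C + 1)) := by
      have h5 : r * t * k = R * T - C := by linarith
      have h6 : r * t * (k * (C + 1)) = (R * T - C) * (C + 1) := by
        rw [← h5]; ring
      rw [h6]
      nlinarith [mul_le_mul_of_nonneg_right hrt (by linarith : (0 : ℝ) ≤ C)]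
    exact le_of_mul_le_mul_left h4 (mul_pos s1 s2)
  by_contra hc
  rw [not_le] at hc
  have h7 : |ang v x y| ≤ Real.pi := Complex.abs_arg_le_pi _
  have h8 := Real.cos_lt_cos_of_nonneg_of_le_pi (alpha_nonneg39 d) h7 hc
  linarith

/-- the distance of the ends of a chain of three contacts -/
theorem chain66 {d : ℝ} (hd : 0 < d) {A X Y B : ℍ} (h1 : dist X A = d) (h2 : dist X Y = d)
    (h3 : dist Y B = d) (hXB : B ≠ X) :
    Real.cosh (dist A B) = Real.cosh d ^ 3
      - Real.cosh d * Real.sinh d ^ 2 * (Real.cos (ang X Y A) + Real.cos (ang Y B X))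
      + Real.cosh d * Real.sinh d ^ 2 * (Real.cos (ang X Y A) * Real.cos (ang Y B X))
      - Real.sinh d ^ 2 * (Real.sin (ang X Y A) * Real.sin (ang Y B X)) := by
  have nA : A ≠ X := fun hh => by rw [hh, dist_self] at h1; linarith
  have nY : Y ≠ X := fun hh => by rw [hh, dist_self] at h2; linarith
  have nB : B ≠ Y := fun hh => by rw [hh, dist_self] at h3; linarith
  have l1 := cosh_law (v := X) (a := B) (b := A) hXB nA
  have l2 := cosh_law (v := X) (a := Y) (b := B) nY hXB
  have l3 := cosh_law (v := Y) (a := B) (b := X) nB nY.symm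
  have s1 := sin_law66 (v := X) (a := Y) (b := B) nY hXB
  have s2 := sin_law66 (v := Y) (a := B) (b := X) nB nY.symm
  have hori : ori (kl Y) (kl B) (kl X) / (2 * Y.im * B.im * X.im) =
      ori (kl X) (kl Y) (kl B) / (2 * X.im * Y.im * B.im) := by
    have e : ori (kl Y) (kl B) (kl X) = ori (kl X) (kl Y) (kl B) := by
      unfold ori
      ring
    rw [e]
    congr 1
    ring
  rw [hori, ← s1] at s2
  have hang := ang_coe66 (v := X) (x := Y) (y := B) (z := A) nY hXB nA
  have hc : Real.cos (ang X B A) = Real.cos (ang X Y A - ang X Y B) := by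
    have h4 : ((ang X B A : ℝ) : Real.Angle) = ((ang X Y A - ang X Y B : ℝ) : Real.Angle) := by
      rw [Real.Angle.coe_sub, hang]
      abel
    have h5 := congrArg Real.Angle.cos h4
    rwa [Real.Angle.cos_coe, Real.Angle.cos_coe] at h5
  rw [Real.cos_sub] at hc
  rw [dist_comm A B, l1, hc]
  rw [h1]
  rw [h2, h3] at l2
  rw [h2, dist_comm Y X, h2, h3] at s2
  rw [dist_comm B X, h3, dist_comm Y X, h2] at l3
  have hsq := Real.cosh_sq d
  have sd : 0 < Real.sinh d := Real.sinh_pos_iff.2 hd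
  generalize Real.cosh (dist X B) = Z at *
  generalize Real.sinh (dist X B) = z at *
  generalize Real.cosh d = C at *
  generalize Real.sinh d = S at *
  generalize Real.cos (ang X Y B) = c1 at *
  generalize Real.sin (ang X Y B) = c2 at *
  generalize Real.cos (ang Y B X) = u at *
  generalize Real.sin (ang Y B X) = w at *
  generalize Real.cos (ang X Y A) = u' at *
  generalize Real.sin (ang X Y A) = w' at *
  have e1 : S * z * c1 = C * Z - C := by linarith
  have e2 : S * z * c2 = S * S * w := by linarith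
  have e3 : Z = C * C - S * S * u := by linarith
  have e4 : Z * C - z * S * (u' * c1 + w' * c2) = Z * C - u' * (S * z * c1) - w' * (S * z * c2) := by
    ring
  rw [e4, e1, e2, e3]
  have e5 : C ^ 2 = 1 + S ^ 2 := by linarith
  linear_combination (-C * u') * e5

/-- no two adjacent corners of an equilateral pentagon are larger than `2 α` -/
theorem adj66 {d : ℝ} (hd : 0 < d) (ha : 2 * Real.pi < 7 * alpha d) {A X Y B M : ℍ}
    (h1 : dist X A = d) (h2 : dist X Y = d) (h3 : dist Y B = d) (hXB : d ≤ dist X B)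
    (h4 : dist M A = d) (h5 : dist M B = d) {tX tY tM : ℝ}
    (eX : ((ang X Y A : ℝ) : Real.Angle) = (tX : Real.Angle))
    (eY : ((ang Y B X : ℝ) : Real.Angle) = (tY : Real.Angle))
    (eM : ((ang M A B : ℝ) : Real.Angle) = (tM : Real.Angle))
    (bX : tX ≤ 3 * alpha d) (bY : tY ≤ 3 * alpha d) (bM0 : 0 ≤ tM) (bM : tM ≤ 3 * alpha d) :
    ¬ (2 * alpha d < tX ∧ 2 * alpha d < tY) := by
  rintro ⟨gX, gY⟩
  have hXB0 : 0 < dist X B := lt_of_lt_of_le hd hXB
  have nB : B ≠ X := fun hh => by rw [hh, dist_self] at hXB0; exact lt_irrefl _ hXB0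
  have nMA : A ≠ M := fun hh => by rw [hh, dist_self] at h4; linarith
  have nMB : B ≠ M := fun hh => by rw [hh, dist_self] at h5; linarith
  have hc := chain66 hd h1 h2 h3 nB
  have hm := cosh_law (v := M) (a := A) (b := B) nMA nMB
  rw [h4, h5] at hm
  have cX : Real.cos (ang X Y A) = Real.cos tX := by
    have := congrArg Real.Angle.cos eX
    rwa [Real.Angle.cos_coe, Real.Angle.cos_coe] at this
  have sX : Real.sin (ang X Y A) = Real.sin tX := by
    have := congrArg Real.Angle.sin eX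
    rwa [Real.Angle.sin_coe, Real.Angle.sin_coe] at this
  have cY : Real.cos (ang Y B X) = Real.cos tY := by
    have := congrArg Real.Angle.cos eY
    rwa [Real.Angle.cos_coe, Real.Angle.cos_coe] at this
  have sY : Real.sin (ang Y B X) = Real.sin tY := by
    have := congrArg Real.Angle.sin eY
    rwa [Real.Angle.sin_coe, Real.Angle.sin_coe] at this
  have cM : Real.cos (ang M A B) = Real.cos tM := by
    have := congrArg Real.Angle.cos eM
    rwa [Real.Angle.cos_coe, Real.Angle.cos_coe] at this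
  rw [cX, sX, cY, sY] at hc
  rw [cM] at hm
  have hp := Real.pi_pos
  have hal := alpha_lt hd
  have kM : Real.cos (3 * alpha d) ≤ Real.cos tM :=
    Real.cos_le_cos_of_nonneg_of_le_pi bM0 (by linarith) bM
  have kX : Real.cos tX < Real.cos (2 * alpha d) :=
    Real.cos_lt_cos_of_nonneg_of_le_pi (by linarith) (by linarith) gX
  have kY : Real.cos tY < Real.cos (2 * alpha d) :=
    Real.cos_lt_cos_of_nonneg_of_le_pi (by linarith) (by linarith) gY
  have k0 : Real.cos (2 * alpha d) < 0 :=
    Real.cos_neg_of_pi_div_two_lt_of_lt (by linarith) (by linarith)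
  have rX : Real.sin tX ≤ Real.sin (2 * alpha d) := by
    rw [← Real.sin_pi_sub tX, ← Real.sin_pi_sub (2 * alpha d)]
    exact Real.sin_le_sin_of_le_of_le_pi_div_two (by linarith) (by linarith) (by linarith)
  have rY : Real.sin tY ≤ Real.sin (2 * alpha d) := by
    rw [← Real.sin_pi_sub tY, ← Real.sin_pi_sub (2 * alpha d)]
    exact Real.sin_le_sin_of_le_of_le_pi_div_two (by linarith) (by linarith) (by linarith)
  have rX0 : 0 ≤ Real.sin tX := Real.sin_nonneg_of_nonneg_of_le_pi (by linarith) (by linarith)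
  have rY0 : 0 ≤ Real.sin tY := Real.sin_nonneg_of_nonneg_of_le_pi (by linarith) (by linarith)
  have hC : 1 < Real.cosh d := Real.one_lt_cosh.2 hd.ne'
  have hsq := Real.cosh_sq d
  have hh := cos_alpha hd
  have hS : 0 < Real.sinh d := Real.sinh_pos_iff.2 hd
  have e2 : Real.cos (2 * alpha d) = 2 * Real.cos (alpha d) ^ 2 - 1 := Real.cos_two_mul _
  have e3 : Real.cos (3 * alpha d) = 4 * Real.cos (alpha d) ^ 3 - 3 * Real.cos (alpha d) :=
    Real.cos_three_mul _
  have e4 : Real.sin (2 * alpha d) ^ 2 = 1 - Real.cos (2 * alpha d) ^ 2 := Real.sin_sq _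
  have hss : Real.sin tX * Real.sin tY ≤ Real.sin (2 * alpha d) ^ 2 := by
    rw [sq]
    exact mul_le_mul rX rY rY0 (le_trans rX0 rX)
  rw [e4] at hss
  have hid : Real.cosh d ^ 3 + Real.cosh d * Real.sinh d ^ 2 *
      (Real.cos (2 * alpha d) ^ 2 - 2 * Real.cos (2 * alpha d)) -
      Real.sinh d ^ 2 * (1 - Real.cos (2 * alpha d) ^ 2) =
      Real.cosh d * Real.cosh d - Real.sinh d * Real.sinh d * Real.cos (3 * alpha d) := by
    have e5 : Real.sinh d * Real.sinh d = Real.cosh d ^ 2 - 1 := by linarith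
    have e6 : Real.sinh d ^ 2 = Real.cosh d ^ 2 - 1 := by linarith
    rw [e5, e6, e2, e3, hh]
    have hne : Real.cosh d + 1 ≠ 0 := by linarith
    field_simp
    ring
  have hS2 : 0 < Real.sinh d ^ 2 := by positivity
  have hCS : 0 < Real.cosh d * Real.sinh d ^ 2 := by positivity
  generalize Real.cosh (dist A B) = Z at *
  generalize Real.cos tX = u at *
  generalize Real.cos tY = w at *
  generalize Real.sin tX * Real.sin tY = s at *
  generalize Real.cos (2 * alpha d) = k at *
  generalize Real.cos (3 * alpha d) = k3 at *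
  generalize Real.cos tM = m at *
  have f1 : k ^ 2 - 2 * k < u * w - (u + w) := by nlinarith
  have f2 := mul_lt_mul_of_pos_left f1 hCS
  have f3 := mul_le_mul_of_nonneg_left hss hS2.le
  have f4 : Real.sinh d * Real.sinh d * k3 ≤ Real.sinh d * Real.sinh d * m :=
    mul_le_mul_of_nonneg_left kM (by positivity)
  nlinarith

/-- the angles of the pentagon: middle triangle `a b c`, ears `c b p` and `a c q` -/
theorem pentagon_corners66 {d : ℝ} (hd : 0 < d) (ha : 2 * Real.pi < 7 * alpha d) {a b c p q : ℍ}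
    (o1 : 0 < ori (kl a) (kl b) (kl c)) (o2 : 0 < ori (kl c) (kl b) (kl p))
    (o3 : 0 < ori (kl a) (kl c) (kl q)) (hab : dist a b = d) (hbp : dist b p = d)
    (hpc : dist p c = d) (hcq : dist c q = d) (hqa : dist q a = d)
    (hbc : d ≤ dist b c) (hca : d ≤ dist c a) (hap : d ≤ dist a p) (hbq : d ≤ dist b q)
    (hpq : d ≤ dist p q) {ta tb tc tp tq : ℝ} (eta : ta = ang a b c + ang a c q)
    (etb : tb = ang b p c + ang b c a) (etc : tc = ang c q a + ang c a b + ang c b p)
    (etp : tp = ang p c b) (etq : tq = ang q a c) :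
    (0 < ta ∧ ta ≤ 3 * alpha d) ∧ (0 < tb ∧ tb ≤ 3 * alpha d) ∧ (0 < tc ∧ tc ≤ 3 * alpha d) ∧
    (0 < tp ∧ tp ≤ 3 * alpha d) ∧ (0 < tq ∧ tq ≤ 3 * alpha d) ∧
    ¬ (2 * alpha d < ta ∧ 2 * alpha d < tb) ∧ ¬ (2 * alpha d < tb ∧ 2 * alpha d < tp) ∧
    ¬ (2 * alpha d < tp ∧ 2 * alpha d < tc) ∧ ¬ (2 * alpha d < tc ∧ 2 * alpha d < tq) ∧
    ¬ (2 * alpha d < tq ∧ 2 * alpha d < ta) := by
  have hp0 := Real.pi_pos
  have hal := alpha_lt hd
  have hal0 := alpha_pos hd
  have ori_rot : ∀ x y z : Pt, ori y z x = ori x y z := by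
    intro x y z
    unfold ori
    ring
  have pos : ∀ {v x : ℍ}, d ≤ dist v x → x ≠ v := by
    intro v x h hh
    rw [hh, dist_self] at h
    linarith
  have nab : b ≠ a := pos hab.ge
  have nac : c ≠ a := pos (by rw [dist_comm]; exact hca)
  have nap : p ≠ a := pos hap
  have naq : q ≠ a := pos (by rw [dist_comm]; exact hqa.ge)
  have nbp : p ≠ b := pos hbp.ge
  have nbc : c ≠ b := pos hbc
  have nbq : q ≠ b := pos hbq
  have ncp : p ≠ c := pos (by rw [dist_comm]; exact hpc.ge)
  have ncq : q ≠ c := pos hcq.ge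
  have npq : q ≠ p := pos hpq
  -- angles of the triangles are positive
  have pa1 := ang_pos o1
  have pb1 := ang_pos (v := b) (a := c) (b := a) (by rw [ori_rot]; exact o1)
  have pc1 := ang_pos (v := c) (a := a) (b := b) (by rw [ori_rot, ori_rot]; exact o1)
  have pc2 := ang_pos o2
  have pb2 := ang_pos (v := b) (a := p) (b := c) (by rw [ori_rot]; exact o2)
  have pp2 := ang_pos (v := p) (a := c) (b := b) (by rw [ori_rot, ori_rot]; exact o2)
  have pa3 := ang_pos o3
  have pc3 := ang_pos (v := c) (a := q) (b := a) (by rw [ori_rot]; exact o3)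
  have pq3 := ang_pos (v := q) (a := a) (b := c) (by rw [ori_rot, ori_rot]; exact o3)
  -- visual angles
  have ha1 := abs_le.1 (visual66 hd (v := a) (x := b) (y := p) hbp hab.ge hap)
  have ha2 := abs_le.1 (visual66 hd (v := a) (x := p) (y := c) hpc hap
    (by rw [dist_comm]; exact hca))
  have ha3 := abs_le.1 (visual66 hd (v := a) (x := c) (y := q) hcq (by rw [dist_comm]; exact hca)
    (by rw [dist_comm]; exact hqa.ge))
  have hb1 := abs_le.1 (visual66 hd (v := b) (x := p) (y := c) hpc hbp.ge hbc)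
  have hb2 := abs_le.1 (visual66 hd (v := b) (x := c) (y := q) hcq hbc hbq)
  have hb3 := abs_le.1 (visual66 hd (v := b) (x := q) (y := a) hqa hbq
    (by rw [dist_comm]; exact hab.ge))
  have hc1 := abs_le.1 (visual66 hd (v := c) (x := q) (y := a) hqa hcq.ge hca)
  have hc2 := abs_le.1 (visual66 hd (v := c) (x := a) (y := b) hab hca
    (by rw [dist_comm]; exact hbc))
  have hc3 := abs_le.1 (visual66 hd (v := c) (x := b) (y := p) hbp (by rw [dist_comm]; exact hbc)
    (by rw [dist_comm]; exact hpc.ge))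
  have hp1 := abs_le.1 (visual66 hd (v := p) (x := c) (y := q) hcq hpc.ge hpq)
  have hp2 := abs_le.1 (visual66 hd (v := p) (x := q) (y := a) hqa hpq
    (by rw [dist_comm]; exact hap))
  have hp3 := abs_le.1 (visual66 hd (v := p) (x := a) (y := b) hab (by rw [dist_comm]; exact hap)
    (by rw [dist_comm]; exact hbp.ge))
  have hq1 := abs_le.1 (visual66 hd (v := q) (x := a) (y := b) hab hqa.ge
    (by rw [dist_comm]; exact hbq))
  have hq2 := abs_le.1 (visual66 hd (v := q) (x := b) (y := p) hbp (by rw [dist_comm]; exact hbq)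
    (by rw [dist_comm]; exact hpq))
  have hq3 := abs_le.1 (visual66 hd (v := q) (x := p) (y := c) hpc (by rw [dist_comm]; exact hpq)
    (by rw [dist_comm]; exact hcq.ge))
  -- sums
  have sa : ang a b c = ang a b p + ang a p c :=
    ang_add66 nab nap nac (by linarith [ha1.1, ha2.1]) (by linarith [ha1.2, ha2.2])
  have sb : ang b c a = ang b c q + ang b q a :=
    ang_add66 nbc nbq nab.symm (by linarith [hb2.1, hb3.1]) (by linarith [hb2.2, hb3.2])
  have sp1 : ang p c a = ang p c q + ang p q a :=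
    ang_add66 ncp.symm npq nap.symm (by linarith [hp1.1, hp2.1]) (by linarith [hp1.2, hp2.2])
  have sp : ang p c b = ang p c a + ang p a b :=
    ang_add66 ncp.symm nap.symm nbp.symm (by linarith [hp1.1, hp2.1, hp3.1])
      (by linarith [hp1.2, hp2.2, hp3.2])
  have sq1 : ang q a p = ang q a b + ang q b p :=
    ang_add66 naq.symm nbq.symm npq.symm (by linarith [hq1.1, hq2.1]) (by linarith [hq1.2, hq2.2])
  have sq : ang q a c = ang q a p + ang q p c :=
    ang_add66 naq.symm npq.symm ncq.symm (by linarith [hq1.1, hq2.1, hq3.1])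
      (by linarith [hq1.2, hq2.2, hq3.2])
  have Ba : ta ≤ 3 * alpha d := by rw [eta, sa]; linarith [ha1.2, ha2.2, ha3.2]
  have Bb : tb ≤ 3 * alpha d := by rw [etb, sb]; linarith [hb1.2, hb2.2, hb3.2]
  have Bc : tc ≤ 3 * alpha d := by rw [etc]; linarith [hc1.2, hc2.2, hc3.2]
  have Bp : tp ≤ 3 * alpha d := by rw [etp, sp, sp1]; linarith [hp1.2, hp2.2, hp3.2]
  have Bq : tq ≤ 3 * alpha d := by rw [etq, sq, sq1]; linarith [hq1.2, hq2.2, hq3.2]
  have Pa : 0 < ta := by rw [eta]; linarith [pa1.1, pa3.1]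
  have Pb : 0 < tb := by rw [etb]; linarith [pb1.1, pb2.1]
  have Pc : 0 < tc := by rw [etc]; linarith [pc1.1, pc2.1, pc3.1]
  have Pp : 0 < tp := by rw [etp]; exact pp2.1
  have Pq : 0 < tq := by rw [etq]; exact pq3.1
  -- the angles as elements of the circle
  have Ea : ((ang a b q : ℝ) : Real.Angle) = (ta : Real.Angle) := by
    rw [eta, Real.Angle.coe_add]
    exact ang_coe66 nab nac naq
  have Eb : ((ang b p a : ℝ) : Real.Angle) = (tb : Real.Angle) := by
    rw [etb, Real.Angle.coe_add]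
    exact ang_coe66 nbp nbc nab.symm
  have Ec : ((ang c q p : ℝ) : Real.Angle) = (tc : Real.Angle) := by
    rw [etc, Real.Angle.coe_add, Real.Angle.coe_add, ← ang_coe66 ncq nac.symm nbc.symm]
    exact ang_coe66 ncq nbc.symm ncp
  have Ep : ((ang p c b : ℝ) : Real.Angle) = (tp : Real.Angle) := by rw [etp]
  have Eq' : ((ang q a c : ℝ) : Real.Angle) = (tq : Real.Angle) := by rw [etq]
  have dba : dist b a = d := by rw [dist_comm]; exact hab
  have dpb : dist p b = d := by rw [dist_comm]; exact hbp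
  have dcp : dist c p = d := by rw [dist_comm]; exact hpc
  have dqc : dist q c = d := by rw [dist_comm]; exact hcq
  have daq : dist a q = d := by rw [dist_comm]; exact hqa
  refine ⟨⟨Pa, Ba⟩, ⟨Pb, Bb⟩, ⟨Pc, Bc⟩, ⟨Pp, Bp⟩, ⟨Pq, Bq⟩, ?_, ?_, ?_, ?_, ?_⟩
  · exact adj66 hd ha (A := q) (X := a) (Y := b) (B := p) (M := c) daq hab hbp hap hcq dcp
      Ea Eb Ec Ba Bb Pc.le Bc
  · exact adj66 hd ha (A := a) (X := b) (Y := p) (B := c) (M := q) dba hbp hpc hbc hqa dqc
      Eb Ep Eq' Bb Bp Pq.le Bq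
  · exact adj66 hd ha (A := b) (X := p) (Y := c) (B := q) (M := a) dpb hpc hcq hpq hab daq
      Ep Ec Ea Bp Bc Pa.le Ba
  · exact adj66 hd ha (A := p) (X := c) (Y := q) (B := a) (M := b) dcp hcq hqa hca hbp dba
      Ec Eq' Eb Bc Bq Pb.le Bb
  · exact adj66 hd ha (A := c) (X := q) (Y := a) (B := b) (M := p) dqc hqa hab
      (by rw [dist_comm]; exact hbq) hpc dpb Eq' Ea Ep Bq Ba Pp.le Bp

/-- the pentagon lemma: the ceilings add to at most `12` -/
theorem pentagon_ceil66 {d : ℝ} (hd : 0 < d) (ha : 2 * Real.pi < 7 * alpha d) {a b c p q : ℍ}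
    (o1 : 0 < ori (kl a) (kl b) (kl c)) (o2 : 0 < ori (kl c) (kl b) (kl p))
    (o3 : 0 < ori (kl a) (kl c) (kl q)) (hab : dist a b = d) (hbp : dist b p = d)
    (hpc : dist p c = d) (hcq : dist c q = d) (hqa : dist q a = d)
    (hbc : d ≤ dist b c) (hca : d ≤ dist c a) (hap : d ≤ dist a p) (hbq : d ≤ dist b q)
    (hpq : d ≤ dist p q) :
    ⌈(ang a b c + ang a c q) / alpha d⌉₊ + ⌈(ang b p c + ang b c a) / alpha d⌉₊ +
      ⌈(ang c q a + ang c a b + ang c b p) / alpha d⌉₊ + ⌈ang p c b / alpha d⌉₊ +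
      ⌈ang q a c / alpha d⌉₊ ≤ 12 := by
  have hal0 := alpha_pos hd
  obtain ⟨⟨_, b1⟩, ⟨_, b2⟩, ⟨_, b3⟩, ⟨_, b4⟩, ⟨_, b5⟩, c1, c2, c3, c4, c5⟩ :=
    pentagon_corners66 hd ha o1 o2 o3 hab hbp hpc hcq hqa hbc hca hap hbq hpq rfl rfl rfl rfl rfl
  have k3 : ∀ {t : ℝ}, t ≤ 3 * alpha d → ⌈t / alpha d⌉₊ ≤ 3 := by
    intro t ht
    rw [Nat.ceil_le, div_le_iff₀ hal0]
    exact_mod_cast ht
  have k2 : ∀ {t : ℝ}, ¬ 2 * alpha d < t → ⌈t / alpha d⌉₊ ≤ 2 := by
    intro t ht
    rw [not_lt] at ht
    rw [Nat.ceil_le, div_le_iff₀ hal0]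
    exact_mod_cast ht
  have m1 := k3 b1
  have m2 := k3 b2
  have m3 := k3 b3
  have m4 := k3 b4
  have m5 := k3 b5
  by_cases g1 : 2 * alpha d < ang a b c + ang a c q
  · have g2 := k2 (fun h => c1 ⟨g1, h⟩)
    have g5 := k2 (fun h => c5 ⟨h, g1⟩)
    by_cases g4 : 2 * alpha d < ang p c b
    · have g3 := k2 (fun h => c3 ⟨g4, h⟩)
      omega
    · have g4' := k2 g4
      omega
  · have g1' := k2 g1
    by_cases g2 : 2 * alpha d < ang b p c + ang b c a
    · have g4 := k2 (fun h => c2 ⟨g2, h⟩)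
      by_cases g3 : 2 * alpha d < ang c q a + ang c a b + ang c b p
      · have g5 := k2 (fun h => c4 ⟨g3, h⟩)
        omega
      · have g3' := k2 g3
        omega
    · have g2' := k2 g2
      by_cases g3 : 2 * alpha d < ang c q a + ang c a b + ang c b p
      · have g4 := k2 (fun h => c3 ⟨h, g3⟩)
        have g5 := k2 (fun h => c4 ⟨g3, h⟩)
        omega
      · have g3' := k2 g3
        omega

end

end Pool.Agent.PEN
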