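import Pool.Agent.P4.G71

/-! # PENNY, inequality G -/

set_option autoImplicit false

namespace Pool.Agent.PEN

open Classical UpperHalfPlane

noncomputable section

section D
variable {V : Type} (G : Tg V) {al : ℝ} {kp : V → V → ℝ} {U : ℕ → ℝ}

/-- the ceiling weight of an inner contact dart -/
def wc (al : ℝ) (x : V × V) : ℕ := ⌈TH G x / al⌉₊

theorem al_pos71 (hG : G.Geo al kp U) : 0 < al := by
  have a1 := hG.al1
  have := Real.pi_pos
  linarith

theorem wc_le71 (hG : G.Geo al kp U) {x : V × V} {n : ℕ} (h : TH G x ≤ n * al) :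
    wc G al x ≤ n := by
  unfold wc
  rw [Nat.ceil_le, div_le_iff₀ (al_pos71 G hG)]
  exact h

/-- one contact triangle -/
theorem wc_one71 (hG : G.Geo al kp U) {C : G.adj.ConnectedComponent} (hC : C ∈ G.iC)
    (hI : G.cI C = ∅) : ∑ x ∈ G.cJ C, wc G al x ≤ 3 * (G.cT C).card := by
  have hB := cB_of_iC66 G hC
  have hcon : ∀ y ∈ G.cD C, G.con y.1 y.2 := by
    intro y hy
    by_contra hc
    have := mem_cI11 G hB hy hc
    rw [hI] at this
    exact absurd this (Finset.notMem_empty _)
  have h1 : ∀ x ∈ G.cJ C, wc G al x ≤ 1 := by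
    intro x hx
    have hxD := cJ_sub66 G C hx
    apply wc_le71 G hG
    have h2 := gp_sub71 G hG hC hx
    rw [hI, Finset.filter_empty] at h2
    have h2' : gp G x ⊆ ({x} : Finset (V × V)) := h2
    have h3 : TH G x ≤ ∑ y ∈ ({x} : Finset (V × V)), G.th y.1 y.2 := by
      unfold TH
      refine Finset.sum_le_sum_of_subset_of_nonneg h2' fun y hy _ => ?_
      have hy2 := Finset.mem_singleton.1 hy
      rw [hy2]
      exact (G.thpos _ _ ((mem_cD66 G).1 hxD).1).le
    rw [Finset.sum_singleton, hG.tcon _ _ ((mem_cD66 G).1 hxD).1 (hcon _ hxD)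
      (hcon _ (rot_cD66 G hxD)) (hcon _ (rot_cD66' G hxD))] at h3
    push_cast
    linarith
  calc ∑ x ∈ G.cJ C, wc G al x ≤ ∑ x ∈ G.cJ C, 1 := Finset.sum_le_sum h1
    _ = (G.cJ C).card := by simp
    _ ≤ (G.cD C).card := Finset.card_le_card (cJ_sub66 G C)
    _ = 3 * (G.cT C).card := card_cD G C

/-- a rhombus -/
theorem wc_two71 (hG : G.Geo al kp U) {C : G.adj.ConnectedComponent} (hC : C ∈ G.iC)
    (hI : (G.cI C).card = 2) : ∀ x ∈ G.cJ C, (G.cT C).card = 2 → TH G x ≤ 2 * al := by
  have hB := cB_of_iC66 G hC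
  have hal := al_pos71 G hG
  intro z hz hm
  obtain ⟨x, hx⟩ : (G.cI C).Nonempty := by
    rw [← Finset.card_pos]
    omega
  have hx' := swap_cD66 G hx
  have R1 := Rh_of_class66 G hB hI hx
  have R2 := Rh_of_class66 G hB hI hx'
  have hx0 := hx
  have hx0' := hx'
  unfold Tg.cI at hx0 hx0'
  rw [Finset.mem_filter] at hx0 hx0'
  obtain ⟨p1, p2, p3, p4⟩ := hx0
  obtain ⟨q1, q2, q3, q4⟩ := hx0'
  have n1 := G.ne _ _ (G.sub p1)
  have hxD : x ∈ G.cD C := (mem_cD66 G).2 ⟨p1, p2⟩
  have hxD' : (x.2, x.1) ∈ G.cD C := (mem_cD66 G).2 ⟨q1, q2⟩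
  have n2 := G.ne _ _ (G.sub (G.ap1 _ _ p1))
  have n3 := G.ne _ _ (G.sub (G.ap2 _ _ p1))
  have n2' := G.ne _ _ (G.sub (G.ap1 _ _ q1))
  have n3' := G.ne _ _ (G.sub (G.ap2 _ _ q1))
  have hII : G.cI C = {x, (x.2, x.1)} := by
    symm
    apply Finset.eq_of_subset_of_card_le
    · intro y hy
      rw [Finset.mem_insert, Finset.mem_singleton] at hy
      rcases hy with rfl | rfl
      · exact hx
      · exact hx'
    · rw [hI, Finset.card_pair]
      intro h
      exact n1 (congrArg Prod.fst h)
  have hT : G.cT C = {G.tri x, G.tri (x.2, x.1)} := by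
    symm
    apply Finset.eq_of_subset_of_card_le
    · intro y hy
      rw [Finset.mem_insert, Finset.mem_singleton] at hy
      rcases hy with rfl | rfl
      · exact mem_cT66 G hxD
      · exact mem_cT66 G hxD'
    · rw [hm, Finset.card_pair (tri_swap66 G p1 p4)]
  -- the gap of a corner with origin outside the diagonal
  have far : ∀ z ∈ G.cJ C, z.1 ≠ x.1 → z.1 ≠ x.2 → TH G z ≤ G.th z.1 z.2 := by
    intro z hz h1 h2
    have hzD := cJ_sub66 G C hz
    have h3 := gp_sub71 G hG hC hz
    have h4 : (G.cI C).filter (fun y => y.1 = z.1) = ∅ := by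
      rw [Finset.filter_eq_empty_iff]
      intro y hy h
      rw [hII, Finset.mem_insert, Finset.mem_singleton] at hy
      rcases hy with rfl | rfl
      · exact h1 h.symm
      · exact h2 h.symm
    rw [h4] at h3
    have h3' : gp G z ⊆ ({z} : Finset (V × V)) := h3
    unfold TH
    calc ∑ y ∈ gp G z, G.th y.1 y.2 ≤ ∑ y ∈ ({z} : Finset (V × V)), G.th y.1 y.2 := by
          refine Finset.sum_le_sum_of_subset_of_nonneg h3' fun y hy _ => ?_
          have hy2 := Finset.mem_singleton.1 hy
          rw [hy2]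
          exact (G.thpos _ _ ((mem_cD66 G).1 hzD).1).le
      _ = G.th z.1 z.2 := Finset.sum_singleton _ _
  have near : ∀ z ∈ G.cJ C, ∀ w ∈ G.cI C, z.1 = w.1 → TH G z ≤ G.th z.1 z.2 + G.th w.1 w.2 := by
    intro z hz w hw h1
    have hzD := cJ_sub66 G C hz
    have h3 := gp_sub71 G hG hC hz
    have h4 : (G.cI C).filter (fun y => y.1 = z.1) ⊆ {w} := by
      intro y hy
      rw [Finset.mem_filter] at hy
      rw [Finset.mem_singleton]
      obtain ⟨hy1, hy2⟩ := hy
      rw [hII, Finset.mem_insert, Finset.mem_singleton] at hy1 hw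
      rcases hy1 with rfl | rfl <;> rcases hw with rfl | rfl
      · rfl
      · exact absurd (hy2.trans h1) n1
      · exact absurd (hy2.trans h1).symm n1
      · rfl
    unfold TH
    calc ∑ y ∈ gp G z, G.th y.1 y.2 ≤ ∑ y ∈ ({z, w} : Finset (V × V)), G.th y.1 y.2 := by
          apply Finset.sum_le_sum_of_subset_of_nonneg
          · intro y hy
            rcases Finset.mem_insert.1 (h3 hy) with h | h
            · rw [h]
              exact Finset.mem_insert_self _ _
            · exact Finset.mem_insert_of_mem (h4 h)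
          · intro y hy _
            rw [Finset.mem_insert, Finset.mem_singleton] at hy
            rcases hy with rfl | rfl
            · exact (G.thpos _ _ ((mem_cD66 G).1 hzD).1).le
            · exact (G.thpos _ _ ((mem_cD66 G).1 (cI_sub11 G hw)).1).le
      _ = G.th z.1 z.2 + G.th w.1 w.2 := by
          rw [Finset.sum_pair]
          intro h
          have h5 := cI_ncon11 G hw
          rw [← h] at h5
          unfold Tg.cJ at hz
          rw [Finset.mem_filter] at hz
          exact h5 hz.2.2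
  -- enumerate
  have hzD := cJ_sub66 G C hz
  have hzp := ((mem_cD66 G).1 hzD).1
  have hzc : G.con z.1 z.2 := by
    unfold Tg.cJ at hz
    rw [Finset.mem_filter] at hz
    exact hz.2.2
  have h2 := mem_cT66 G hzD
  rw [hT, Finset.mem_insert, Finset.mem_singleton] at h2
  have r1 := hG.rh1 _ _ R1
  have r2 := hG.rh2 _ _ R1
  have s1 := hG.rh1 _ _ R2
  have s2 := hG.rh2 _ _ R2
  dsimp only at s1 s2
  rcases h2 with h2 | h2
  · rcases (tri_eq_iff G p1 hzp).1 h2.symm with h3 | h3 | h3
    · rw [h3] at hzc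
      exact absurd hzc p3
    · -- `(b, ap a b)`
      have h4 := near z hz _ hx' (by rw [h3])
      rw [h3] at h4 ⊢
      dsimp only at h4
      linarith [s2.2]
    · have h4 := far z hz (by rw [h3]; exact n3) (by rw [h3]; exact fun h => n2 h.symm)
      rw [h3] at h4 ⊢
      dsimp only at h4
      linarith [r1.2]
  · rcases (tri_eq_iff G q1 hzp).1 h2.symm with h3 | h3 | h3
    · rw [h3] at hzc
      exact absurd hzc q3
    · have h4 := near z hz _ hx (by rw [h3])
      rw [h3] at h4 ⊢
      dsimp only at h4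
      linarith [r2.2]
    · have h4 := far z hz (by rw [h3]; exact fun h => n2' h.symm) (by rw [h3]; exact n3')
      rw [h3] at h4 ⊢
      dsimp only at h4
      linarith [s1.2]

/-- the ceiling weight of an inner class -/
theorem wc_class71 (hG : G.Geo al kp U) {C : G.adj.ConnectedComponent} (hC : C ∈ G.iC)
    (hA : A3 al * (G.cT C).card ≤ ∑ x ∈ G.cD C, G.ar x.1 x.2 / 3) :
    ∑ x ∈ G.cJ C, wc G al x ≤ 3 * (G.cT C).card + (G.cI C).card := by
  have hal := al_pos71 G hG
  rcases Finset.eq_empty_or_nonempty (G.cI C) with hI | hI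
  · have := wc_one71 G hG hC hI
    omega
  have hIpos := Finset.card_pos.2 hI
  have hconn := conn G C
  have hsplit := card_split66 G C
  have hB : (G.cB C).card = 0 := by
    rw [cB_of_iC66 G hC]
    rfl
  by_cases hrh : (G.cT C).card = 2 ∧ (G.cI C).card = 2
  · have h1 : ∀ x ∈ G.cJ C, wc G al x ≤ 2 := by
      intro x hx
      apply wc_le71 G hG
      push_cast
      exact wc_two71 G hG hC hrh.2 x hx hrh.1
    have h2 : ∑ x ∈ G.cJ C, wc G al x ≤ 2 * (G.cJ C).card := by
      calc ∑ x ∈ G.cJ C, wc G al x ≤ ∑ x ∈ G.cJ C, 2 := Finset.sum_le_sum h1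
        _ = 2 * (G.cJ C).card := by simp [mul_comm]
    obtain ⟨h3, h4⟩ := hrh
    omega
  · rcases Finset.eq_empty_or_nonempty (G.cJ C) with hJ | hJ
    · rw [hJ, Finset.sum_empty]
      exact Nat.zero_le _
    have h1 : (∑ x ∈ G.cJ C, wc G al x : ℕ) < 3 * (G.cT C).card + (G.cJ C).card := by
      have h2 : ((∑ x ∈ G.cJ C, wc G al x : ℕ) : ℝ) <
          ((3 * (G.cT C).card + (G.cJ C).card : ℕ) : ℝ) := by
        rw [Nat.cast_sum]
        calc ∑ x ∈ G.cJ C, (wc G al x : ℝ) < ∑ x ∈ G.cJ C, (TH G x / al + 1) := by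
              apply Finset.sum_lt_sum_of_nonempty hJ
              intro x hx
              unfold wc
              apply Nat.ceil_lt_add_one
              have hxi : x ∈ iJ G := by
                rw [← iJ_fiber71 G hC, Finset.mem_filter] at hx
                exact hx.1
              exact (div_pos (TH_pos71 G hxi) hal).le
          _ = (∑ x ∈ G.cJ C, TH G x) / al + (G.cJ C).card := by
              rw [Finset.sum_add_distrib, Finset.sum_div]
              simp
          _ ≤ ((3 * (G.cT C).card + (G.cJ C).card : ℕ) : ℝ) := by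
              rw [sum_TH_class71 G hG hC, sum_th71]
              push_cast
              have h3 : (Real.pi * (G.cT C).card - ∑ x ∈ G.cD C, G.ar x.1 x.2 / 3) / al ≤
                  3 * (G.cT C).card := by
                rw [div_le_iff₀ hal]
                unfold A3 at hA
                linarith
              linarith
      exact_mod_cast h2
    omega

/-- **inequality G** -/
theorem G_ineq (hG : G.Geo al kp U)
    (hA : ∀ C ∈ G.iC, A3 al * (G.cT C).card ≤ ∑ x ∈ G.cD C, G.ar x.1 x.2 / 3) :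
    (7 * al - 2 * Real.pi) * ((G.P.card : ℝ) - G.oJ.card) ≤
      al * G.iI.card + (∑ x ∈ G.iD, G.ar x.1 x.2 / 3 - A3 al * (G.iD.card / 3)) := by
  have hal := al_pos71 G hG
  have hpi := Real.pi_pos
  have h1 := transfer71 G hG (fun x => (wc G al x : ℝ)) 7
    (fun C => ((3 * (G.cT C).card + (G.cI C).card : ℕ) : ℝ)) ?_ ?_ ?_
  · have h2 : ∑ C ∈ G.iC, ((3 * (G.cT C).card + (G.cI C).card : ℕ) : ℝ) =
        G.iD.card + G.iI.card := by
      rw [card_iD27, ← sum_cI66 G]
      push_cast
      rw [Finset.sum_add_distrib, Finset.mul_sum]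
    rw [h2] at h1
    have h3 : (G.P.card : ℝ) - G.oJ.card ≤ (inN G).card := by
      have := card_inN71 G
      have h4 : (G.P.card : ℝ) ≤ G.oJ.card + (inN G).card := by exact_mod_cast this
      linarith
    have h5 := mul_le_mul_of_nonneg_left h3 (by linarith [hG.al1] : 0 ≤ 7 * al - 2 * Real.pi)
    unfold A3
    linarith
  · intro x _
    have := Nat.le_ceil (TH G x / al)
    rw [div_le_iff₀ hal] at this
    unfold wc
    linarith
  · intro v hv
    have h1 := sum_TH_point71 G hG hv
    have h2 : ∑ x ∈ (iJ G).filter (fun x => x.1 = v), TH G x / al ≤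
        ∑ x ∈ (iJ G).filter (fun x => x.1 = v), (wc G al x : ℝ) :=
      Finset.sum_le_sum fun x _ => Nat.le_ceil _
    rw [← Finset.sum_div, h1] at h2
    have h3 : (6 : ℝ) < 2 * Real.pi / al := by
      rw [lt_div_iff₀ hal]
      linarith [hG.al2]
    have h4 : (6 : ℝ) < ((∑ x ∈ (iJ G).filter (fun x => x.1 = v), wc G al x : ℕ) : ℝ) := by
      rw [Nat.cast_sum]
      linarith
    have h5 : 6 < ∑ x ∈ (iJ G).filter (fun x => x.1 = v), wc G al x := by exact_mod_cast h4
    have h6 : ((7 : ℕ) : ℝ) ≤ ((∑ x ∈ (iJ G).filter (fun x => x.1 = v), wc G al x : ℕ) : ℝ) := by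
      exact_mod_cast h5
    rw [Nat.cast_sum] at h6
    push_cast at h6
    exact h6
  · intro C hC
    have := wc_class71 G hG hC (hA C hC)
    have h2 : ((∑ x ∈ G.cJ C, wc G al x : ℕ) : ℝ) ≤
        ((3 * (G.cT C).card + (G.cI C).card : ℕ) : ℝ) := by exact_mod_cast this
    rw [Nat.cast_sum] at h2
    exact h2

end D

end

end Pool.Agent.PEN
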