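import Pool.Agent.P4.BD9
import Pool.Agent.P4.G71b

/-! # PENNY, version 4, row (U): the units of the inner contact darts -/

set_option autoImplicit false

namespace Pool.Agent.PEN

open Classical UpperHalfPlane

noncomputable section

section D
variable {V : Type} (G : Tg V) {al : ℝ} {kp : V → V → ℝ} {U : ℕ → ℝ}

theorem gset_eq11 (hG : G.Geo al kp U) (x : V × V) : G.gset x = gp G x := by
  unfold Tg.gset gp
  apply Finset.filter_congr
  rintro ⟨v, a⟩ hy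
  rw [mem_iD27] at hy
  constructor
  · rintro ⟨h1, _, h3⟩
    exact ⟨h1, h3⟩
  · rintro ⟨h1, h3⟩
    refine ⟨h1, ?_, h3⟩
    simp only at h1
    rw [← h1]
    exact hasO71 G hG hy

theorem gp_eq11 (hG : G.Geo al kp U) (x : V × V) : G.gp x = TH G x := by
  unfold Tg.gp TH
  rw [gset_eq11 G hG]

theorem wt_eq11 (hG : G.Geo al kp U) (x : V × V) : G.wt al x = wc G al x := by
  unfold Tg.wt wc
  rw [gp_eq11 G hG]

theorem iJ_eq11 : G.iJ = iJ G := rfl

/-- **row (U)** -/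
theorem units_le (hG : G.Geo al kp U)
    (hpol : ∀ C, G.cB C = ∅ → A3 al * (G.cT C).card ≤ ∑ x ∈ G.cD C, G.ar x.1 x.2 / 3) :
    ∑ x ∈ G.iJ, G.wt al x ≤ G.iD.card + G.iI.card := by
  have h1 : ∑ x ∈ G.iJ, G.wt al x = ∑ x ∈ iJ G, wc G al x :=
    Finset.sum_congr rfl (fun x _ => wt_eq11 G hG x)
  have h2 : ((∑ x ∈ iJ G, wc G al x : ℕ) : ℝ) =
      ((∑ C ∈ G.iC, ∑ x ∈ G.cJ C, wc G al x : ℕ) : ℝ) := by
    push_cast
    exact sum_iJ71 G (fun x => (wc G al x : ℝ))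
  have h3 : ∑ x ∈ iJ G, wc G al x = ∑ C ∈ G.iC, ∑ x ∈ G.cJ C, wc G al x := by
    exact_mod_cast h2
  rw [h1, h3]
  calc ∑ C ∈ G.iC, ∑ x ∈ G.cJ C, wc G al x ≤
      ∑ C ∈ G.iC, (3 * (G.cT C).card + (G.cI C).card) :=
        Finset.sum_le_sum (fun C hC => wc_class71 G hG hC (hpol C (cB_of_iC66 G hC)))
    _ = G.iD.card + G.iI.card := by
        rw [Finset.sum_add_distrib, card_iD27, ← sum_cI66 G, Finset.mul_sum]

end D

end

end Pool.Agent.PEN
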