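import Pool.Agent.P4.Defs
import Pool.Agent.PEN.D66

/-! # Row R: number of darts, inequality (E1)

Page: `MP_45fc25_PENNY2_h56.md`. -/

set_option autoImplicit false

namespace Pool.Agent.PEN

open Classical UpperHalfPlane

noncomputable section

section D
variable {V : Type} (G : Tg V) {al : ℝ} {kp : V → V → ℝ} {U : ℕ → ℝ}

theorem dart_count : (G.D.filter (fun x => G.con x.1 x.2)).card + G.iI.card
    = G.iD.card + G.oJ.card := by
  have h1 := Finset.card_filter_add_card_filter_not (s := G.D.filter (fun x => G.con x.1 x.2))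
    (fun x => G.inn x)
  have h2 := Finset.card_filter_add_card_filter_not (s := G.iD) (fun x => G.con x.1 x.2)
  have e1 : (G.D.filter (fun x => G.con x.1 x.2)).filter (fun x => ¬ G.inn x) = G.oJ := by
    unfold Tg.oJ
    rw [Finset.filter_filter]
  have e2 : (G.D.filter (fun x => G.con x.1 x.2)).filter (fun x => G.inn x) =
      G.iD.filter (fun x => G.con x.1 x.2) := by
    ext x
    unfold Tg.iD
    simp only [Finset.mem_filter]
    constructor
    · rintro ⟨⟨_, h2⟩, h3⟩
      exact ⟨⟨h3.1, h3⟩, h2⟩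
    · rintro ⟨⟨h1, h2⟩, h3⟩
      exact ⟨⟨G.sub h1, h3⟩, h2⟩
  have e3 : G.iD.filter (fun x => ¬ G.con x.1 x.2) = G.iI := by
    unfold Tg.iD Tg.iI
    rw [Finset.filter_filter]
  rw [e1, e2] at h1
  rw [e3] at h2
  omega

/-- the outer classes -/
theorem outer_class9 {C : G.adj.ConnectedComponent} (hB : G.cB C ≠ ∅) :
    3 * (G.cJ C).card ≤ (G.cD C).card + 3 * (G.cB C).card := by
  have h1 := card_split66 G C
  have h2 := conn G C
  have h3 := card_cD G C
  have h4 : 0 < (G.cB C).card := Finset.card_pos.mpr (Finset.nonempty_iff_ne_empty.mpr hB)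
  omega

theorem outer_sum9 : 3 * (G.Dp.filter (fun x => G.con x.1 x.2 ∧ ¬ G.inn x)).card ≤
    (G.Dp.filter (fun x => ¬ G.inn x)).card +
      3 * (G.Dp.filter (fun x => ¬ G.con x.1 x.2 ∧ (x.2, x.1) ∉ G.Dp)).card := by
  have hinn : ∀ x ∈ G.Dp, (G.inn x ↔ G.cB (G.cl x) = ∅) := by
    intro x hx
    unfold Tg.inn
    exact ⟨fun h => h.2, fun h => ⟨hx, h⟩⟩
  have hC : ∀ C ∈ (G.Dp.filter (fun x => ¬ G.inn x)).image G.cl, G.cB C ≠ ∅ := by
    intro C hC
    obtain ⟨x, hx, rfl⟩ := Finset.mem_image.mp hC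
    rw [Finset.mem_filter] at hx
    exact fun h => hx.2 ((hinn x hx.1).mpr h)
  have s1 : (G.Dp.filter (fun x => G.con x.1 x.2 ∧ ¬ G.inn x)).card =
      ∑ C ∈ (G.Dp.filter (fun x => ¬ G.inn x)).image G.cl, (G.cJ C).card := by
    rw [Finset.card_eq_sum_card_fiberwise (f := G.cl)
      (t := (G.Dp.filter (fun x => ¬ G.inn x)).image G.cl)]
    · apply Finset.sum_congr rfl
      intro C hC'
      congr 1
      ext x
      unfold Tg.cJ
      simp only [Finset.mem_filter]
      constructor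
      · rintro ⟨⟨h1, h2, h3⟩, h4⟩
        exact ⟨h1, h4, h2⟩
      · rintro ⟨h1, h4, h2⟩
        refine ⟨⟨h1, h2, fun h3 => ?_⟩, h4⟩
        apply hC C hC'
        rw [← h4]
        exact (hinn x h1).mp h3
    · intro x hx
      rw [Finset.mem_coe, Finset.mem_filter] at hx
      rw [Finset.mem_coe]
      exact Finset.mem_image_of_mem _ (Finset.mem_filter.mpr ⟨hx.1, hx.2.2⟩)
  have s2 : (G.Dp.filter (fun x => ¬ G.inn x)).card =
      ∑ C ∈ (G.Dp.filter (fun x => ¬ G.inn x)).image G.cl, (G.cD C).card := by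
    rw [Finset.card_eq_sum_card_fiberwise (f := G.cl)
      (t := (G.Dp.filter (fun x => ¬ G.inn x)).image G.cl)]
    · apply Finset.sum_congr rfl
      intro C hC'
      congr 1
      ext x
      unfold Tg.cD
      simp only [Finset.mem_filter]
      constructor
      · rintro ⟨⟨h1, h2⟩, h4⟩
        exact ⟨h1, h4⟩
      · rintro ⟨h1, h4⟩
        refine ⟨⟨h1, fun h3 => ?_⟩, h4⟩
        apply hC C hC'
        rw [← h4]
        exact (hinn x h1).mp h3
    · intro x hx
      rw [Finset.mem_coe] at hx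
      rw [Finset.mem_coe]
      exact Finset.mem_image_of_mem _ hx
  have s3 : (G.Dp.filter (fun x => ¬ G.con x.1 x.2 ∧ (x.2, x.1) ∉ G.Dp)).card =
      ∑ C ∈ (G.Dp.filter (fun x => ¬ G.inn x)).image G.cl, (G.cB C).card := by
    rw [Finset.card_eq_sum_card_fiberwise (f := G.cl)
      (t := (G.Dp.filter (fun x => ¬ G.inn x)).image G.cl)]
    · apply Finset.sum_congr rfl
      intro C hC'
      congr 1
      ext x
      unfold Tg.cB
      simp only [Finset.mem_filter]
      constructor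
      · rintro ⟨⟨h1, h2, h3⟩, h4⟩
        exact ⟨h1, h4, h2, h3⟩
      · rintro ⟨h1, h4, h2, h3⟩
        exact ⟨⟨h1, h2, h3⟩, h4⟩
    · intro x hx
      rw [Finset.mem_coe, Finset.mem_filter] at hx
      rw [Finset.mem_coe]
      refine Finset.mem_image_of_mem _ (Finset.mem_filter.mpr ⟨hx.1, fun h => ?_⟩)
      have h5 : x ∈ G.cB (G.cl x) := by
        unfold Tg.cB
        exact Finset.mem_filter.mpr ⟨hx.1, rfl, hx.2.1, hx.2.2⟩
      rw [(hinn x hx.1).mp h] at h5
      exact Finset.notMem_empty _ h5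
  rw [s1, s2, s3, Finset.mul_sum, Finset.mul_sum, ← Finset.sum_add_distrib]
  exact Finset.sum_le_sum fun C hC' => outer_class9 G (hC C hC')

/-- the darts with empty left side -/
theorem free_le9 (hG : G.Geo al kp U) :
    (G.D.filter (fun x => x ∉ G.Dp)).card ≤ (G.P.filter G.bd).card := by
  apply Finset.card_le_card_of_injOn (fun x => x.1)
  · rintro ⟨v, a⟩ hx
    rw [Finset.mem_coe, Finset.mem_filter] at hx
    rw [Finset.mem_coe, Finset.mem_filter]
    refine ⟨G.mem _ _ hx.1, ?_⟩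
    by_contra hb
    exact hx.2 (G.int1 _ _ (G.mem _ _ hx.1) hb hx.1)
  · rintro ⟨v, a⟩ hx ⟨v', b⟩ hy h
    rw [Finset.mem_coe, Finset.mem_filter] at hx hy
    have h : v = v' := h
    subst h
    rw [hG.left v a b hx.1 hy.1 hx.2 hy.2]

theorem hull_le9 (hG : G.Geo al kp U) :
    (G.D.filter (fun x => G.con x.1 x.2 ∧ x ∉ G.Dp)).card +
      (G.Dp.filter (fun x => ¬ G.con x.1 x.2 ∧ (x.2, x.1) ∉ G.Dp)).card ≤
      (G.P.filter G.bd).card := by
  refine le_trans ?_ (free_le9 G hG)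
  have hsw : (G.Dp.filter (fun x => ¬ G.con x.1 x.2 ∧ (x.2, x.1) ∉ G.Dp)).card =
      ((G.Dp.filter (fun x => ¬ G.con x.1 x.2 ∧ (x.2, x.1) ∉ G.Dp)).image Prod.swap).card :=
    (Finset.card_image_of_injective _ Prod.swap_injective).symm
  rw [hsw, ← Finset.card_union_of_disjoint]
  · apply Finset.card_le_card
    intro x hx
    rw [Finset.mem_union] at hx
    rcases hx with hx | hx
    · rw [Finset.mem_filter] at hx ⊢
      exact ⟨hx.1, hx.2.2⟩
    · obtain ⟨y, hy, rfl⟩ := Finset.mem_image.mp hx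
      rw [Finset.mem_filter] at hy ⊢
      exact ⟨G.symm _ _ (G.sub hy.1), hy.2.2⟩
  · rw [Finset.disjoint_left]
    intro x hx hx'
    obtain ⟨y, hy, rfl⟩ := Finset.mem_image.mp hx'
    rw [Finset.mem_filter] at hx hy
    exact hy.2.1 (G.csymm _ _ hx.2.1)

/-- R1 = (E1) -/
theorem E1_ineq (hG : G.Geo al kp U) : G.iD.card + 3 * G.oJ.card + 6 ≤ 6 * G.P.card := by
  have h1 := outer_sum9 G
  have h2 := hull_le9 G hG
  have h3 := hG.cnt
  have h4 : (G.Dp.filter (fun x => G.inn x)).card + (G.Dp.filter (fun x => ¬ G.inn x)).card =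
      G.Dp.card := Finset.card_filter_add_card_filter_not (s := G.Dp) (fun x => G.inn x)
  have h5 : G.iD = G.Dp.filter (fun x => G.inn x) := rfl
  have h6 : G.oJ.card = (G.Dp.filter (fun x => G.con x.1 x.2 ∧ ¬ G.inn x)).card +
      (G.D.filter (fun x => G.con x.1 x.2 ∧ x ∉ G.Dp)).card := by
    rw [← Finset.card_filter_add_card_filter_not (s := G.oJ) (fun x => x ∈ G.Dp)]
    congr 2
    · ext x
      unfold Tg.oJ
      simp only [Finset.mem_filter]
      constructor
      · rintro ⟨⟨_, h2⟩, h3⟩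
        exact ⟨h3, h2⟩
      · rintro ⟨h3, h2⟩
        exact ⟨⟨G.sub h3, h2⟩, h3⟩
    · ext x
      unfold Tg.oJ
      simp only [Finset.mem_filter]
      constructor
      · rintro ⟨⟨h1, h2, _⟩, h3⟩
        exact ⟨h1, h2, h3⟩
      · rintro ⟨h1, h2, h3⟩
        exact ⟨⟨h1, h2, fun h => h3 h.1⟩, h3⟩
  rw [h5]
  omega

end D

end

end Pool.Agent.PEN
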