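import Pool.Agent.P4.Geo4_71
import Pool.Agent.P4.T66b
import Pool.Agent.P4.R9
import Pool.Agent.P4.G71b

/-! # PENNY, version 4: the point and class lemmas over `Geo4` (copies of the proofs of T66, T66b,
R9, Uc27, G71, G71b; squares are allowed, the polygon lemma is a field) -/

set_option autoImplicit false

namespace Pool.Agent.PEN.W4

open Classical UpperHalfPlane

noncomputable section

section D
variable {V : Type} (G : Tg V) {al : ℝ} {kp : V → V → ℝ} {U : ℕ → ℝ}

/-- no square with the angle of a vertex with five contact triangles -/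
def NoSqG (al : ℝ) : Prop := ∀ a b, G.Rh a b → G.th (G.ap a b) a = 2 * Real.pi - 5 * al →
    G.th a b + G.th a (G.ap b a) = 2 * Real.pi - 5 * al → False

/-- a point has a contact dart -/
theorem con_ex66 (hG : G.Geo4 al kp U) {v : V} (hv : v ∈ G.P) : ∃ a, (v, a) ∈ G.D ∧ G.con v a := by
  have hpos : 0 < (G.D.filter (fun x => x.1 = v ∧ G.con x.1 x.2)).card :=
    lt_of_lt_of_le (by norm_num) (hG.deg v hv)
  obtain ⟨⟨x1, x2⟩, hx⟩ := Finset.card_pos.mp hpos
  rw [Finset.mem_filter] at hx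
  obtain ⟨hx0, hx1, hx2⟩ := hx
  simp only at hx1 hx2
  subst hx1
  exact ⟨x2, hx0, hx2⟩

/-- T0 = (B) -/
theorem bd_oJ (hG : G.Geo4 al kp U) {v : V} (hv : v ∈ G.P) (hb : G.bd v) :
    ∃ a, (v, a) ∈ G.oJ := by
  by_contra hno
  have hall : ∀ a, (v, a) ∈ G.D → G.con v a → G.inn (v, a) := by
    intro a h1 h2
    by_contra h3
    exact hno ⟨a, (mem_oJ66 G).2 ⟨h1, h2, h3⟩⟩
  have hmem := mem_img66 G v (fun a => G.inn (v, a))
  refine hG.bdno v hv hb ((G.D.filter (fun y => y.1 = v ∧ G.inn (v, y.2))).image Prod.snd)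
    ?_ ?_
  · obtain ⟨a, h1, h2⟩ := con_ex66 G hG hv
    exact ⟨a, (hmem a).2 ⟨h1, hall a h1 h2⟩⟩
  · intro a ha
    obtain ⟨h1, h2⟩ := (hmem a).1 ha
    refine ⟨h2.1, (hmem _).2 ?_⟩
    have h3 : (v, G.ap v a) ∈ G.D := G.symm _ _ (G.sub (G.ap2 _ _ h2.1))
    refine ⟨h3, ?_⟩
    by_cases hc : G.con v (G.ap v a)
    · exact hall _ h3 hc
    · exact inn_next66 G h2 hc

theorem turn66 (hG : G.Geo4 al kp U) {v : V} (hv : v ∈ G.P) (hb : ¬ G.bd v) :
    2 * Real.pi ≤ ∑ y ∈ G.D.filter (fun y => y.1 = v ∧ G.HasO v y.2), G.th v y.2 := by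
  have hinj : Set.InjOn Prod.snd
      ((G.D.filter (fun y => y.1 = v ∧ G.HasO v y.2) : Finset (V × V)) : Set (V × V)) := by
    rintro ⟨y1, y2⟩ hy ⟨z1, z2⟩ hz hyz
    rw [Finset.mem_coe, Finset.mem_filter] at hy hz
    have e1 : y1 = v := hy.2.1
    have e2 : z1 = v := hz.2.1
    simp only at hyz
    rw [e1, e2, hyz]
  rw [← Finset.sum_image (f := fun a => G.th v a) hinj]
  have mem := mem_img66 G v (fun a => G.HasO v a)
  apply hG.turn v hv hb
  · obtain ⟨a, h1, h2⟩ := con_ex66 G hG hv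
    exact ⟨a, (mem a).mpr ⟨h1, 0, h2⟩⟩
  · intro a ha
    exact ((mem a).mp ha).1
  · intro a ha
    obtain ⟨h1, i, hi⟩ := (mem a).mp ha
    refine (mem _).mpr ⟨fw_mem11 G hv hb h1, i + 1, ?_⟩
    rw [Function.iterate_succ_apply, bk_fw11 G hv hb h1]
    exact hi

/-- T1: at an interior point every dart lies in a gap and the gaps add to `2π` -/
theorem gap_tot (hG : G.Geo4 al kp U) {v : V} (hv : v ∈ G.P) (hb : ¬ G.bd v) :
    ∑ x ∈ G.D.filter (fun x => x.1 = v ∧ G.con x.1 x.2), G.Th x.1 x.2 = 2 * Real.pi := by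
  have e1 : G.D.filter (fun x => x.1 = v ∧ G.con x.1 x.2) =
      G.Dp.filter (fun x => x.1 = v ∧ G.con x.1 x.2) := by
    ext ⟨x1, x2⟩
    rw [Finset.mem_filter, Finset.mem_filter]
    constructor
    · rintro ⟨h1, h2, h3⟩
      simp only at h2 h3
      subst h2
      exact ⟨G.int1 _ _ hv hb h1, rfl, h3⟩
    · rintro ⟨h1, h2⟩
      exact ⟨G.sub h1, h2⟩
  rw [e1, sum_Th11 G hv hb]
  apply le_antisymm
  · rw [← hG.tot v hv hb]
    have h1 : ∑ y ∈ G.D.filter (fun y => y.1 = v ∧ G.HasO v y.2), G.th v y.2 =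
        ∑ y ∈ G.D.filter (fun y => y.1 = v ∧ G.HasO v y.2), G.th y.1 y.2 := by
      refine Finset.sum_congr rfl fun y hy => ?_
      rw [Finset.mem_filter] at hy
      rw [hy.2.1]
    rw [h1]
    apply Finset.sum_le_sum_of_subset_of_nonneg
    · intro y hy
      rw [Finset.mem_filter] at hy ⊢
      exact ⟨hy.1, hy.2.1⟩
    · rintro ⟨y1, y2⟩ hy _
      rw [Finset.mem_filter] at hy
      obtain ⟨h2, h3⟩ := hy
      simp only at h3
      subst h3
      exact (G.thpos _ _ (G.int1 _ _ hv hb h2)).le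
  · exact turn66 G hG hv hb

/-- T2: the gap of a contact dart which is inner and not big is `al` -/
theorem Th_small (hG : G.Geo4 al kp U) {x : V × V} (hx : G.inn x) (hc : G.con x.1 x.2)
    (hb : ¬ Big G x) (hv : x.1 ∈ G.P) (hv' : ¬ G.bd x.1) : G.Th x.1 x.2 = al := by
  obtain ⟨v, a⟩ := x
  dsimp only at hc hv hv' ⊢
  obtain ⟨h1, h2⟩ := hx
  have hI : (G.cI (G.cl (v, a))).card = 0 := by
    rw [Finset.card_eq_zero]
    exact Finset.not_nonempty_iff_eq_empty.1 hb
  have hB : (G.cB (G.cl (v, a))).card = 0 := by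
    rw [Finset.card_eq_zero]
    exact h2
  have hxD : (v, a) ∈ G.cD (G.cl (v, a)) := (mem_cD66 G).2 ⟨h1, rfl⟩
  have c2 := con_of_cD66 G hI hB (rot_cD66 G hxD)
  have c3 := con_of_cD66 G hI hB (rot_cD66' G hxD)
  dsimp only at c2 c3
  have h3 := hG.tcon _ _ h1 hc c2 c3
  rw [← h3]
  unfold Tg.Th
  rw [if_neg hv']
  have hO : G.HasO v a := ⟨0, hc⟩
  have hog : G.og v a = a := by
    unfold Tg.og
    rw [dif_pos hO]
    have : Nat.find hO = 0 := by
      rw [Nat.find_eq_zero]
      exact hc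
    rw [this]
    rfl
  have h4 : G.D.filter (fun y => y.1 = v ∧ G.HasO v y.2 ∧ G.og v y.2 = a) = {(v, a)} := by
    ext y
    rw [Finset.mem_filter, Finset.mem_singleton]
    constructor
    · rintro ⟨hyD, hy1, hy2, hy3⟩
      have h5 : (v, y.2) ∈ G.D := by
        rw [← hy1]
        exact hyD
      rcases og_cases66 G hv' h5 hy2 hy3 with h6 | h6
      · exact Prod.ext hy1 h6
      · exact absurd (G.csymm _ _ c3) h6.1
    · rintro rfl
      exact ⟨G.sub h1, rfl, hO, hog⟩
  rw [h4, Finset.sum_singleton]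

/-- T3: every point without outer contact dart has charge at least one (doubled: two) -/
theorem ch_vertex (hG : G.Geo4 al kp U) {v : V} (hv : v ∈ G.P) (h : ¬ ∃ a, (v, a) ∈ G.oJ) :
    2 ≤ ∑ x ∈ G.iD.filter (fun x => x.1 = v ∧ G.con x.1 x.2 ∧ Big G x), ch G x := by
  have hb : ¬ G.bd v := fun hb => h (bd_oJ G hG hv hb)
  have hall : ∀ a, (v, a) ∈ G.D → G.con v a → G.inn (v, a) := by
    intro a h1 h2
    by_contra h3
    exact h ⟨a, (mem_oJ66 G).2 ⟨h1, h2, h3⟩⟩
  obtain ⟨B, hB⟩ : ∃ B, B = G.iD.filter (fun x => x.1 = v ∧ G.con x.1 x.2 ∧ Big G x) :=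
    ⟨_, rfl⟩
  have hBm : ∀ x, x ∈ B ↔ x ∈ G.D ∧ x.1 = v ∧ G.con x.1 x.2 ∧ Big G x := by
    rintro ⟨x1, x2⟩
    rw [hB, Finset.mem_filter]
    unfold Tg.iD
    rw [Finset.mem_filter]
    constructor
    · rintro ⟨⟨h1, h2⟩, h3⟩
      exact ⟨G.sub h1, h3⟩
    · rintro ⟨h1, h2, h3⟩
      simp only at h2
      subst h2
      have h4 := hall _ h1 h3.1
      exact ⟨⟨h4.1, h4⟩, rfl, h3⟩
  have hne : B.Nonempty := by
    rw [Finset.nonempty_iff_ne_empty]
    intro hB0
    have h1 := gap_tot G hG hv hb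
    have h2 : ∑ x ∈ G.D.filter (fun x => x.1 = v ∧ G.con x.1 x.2), G.Th x.1 x.2 =
        ∑ x ∈ G.D.filter (fun x => x.1 = v ∧ G.con x.1 x.2), al := by
      refine Finset.sum_congr rfl ?_
      rintro ⟨x1, x2⟩ hx
      rw [Finset.mem_filter] at hx
      obtain ⟨h3, h4, h5⟩ := hx
      simp only at h4 h5
      subst h4
      refine Th_small G hG (hall _ h3 h5) h5 ?_ hv hb
      intro h6
      have h7 := (hBm (x1, x2)).2 ⟨h3, rfl, h5, h6⟩
      rw [hB0] at h7
      exact absurd h7 (Finset.notMem_empty _)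
    rw [h1, Finset.sum_const, nsmul_eq_mul] at h2
    generalize (G.D.filter (fun x => x.1 = v ∧ G.con x.1 x.2)).card = m at h2
    have a1 := hG.al1
    have a2 := hG.al2
    have hal : 0 < al := by
      have := Real.pi_pos
      linarith
    have h3 : (6 : ℝ) < m := by
      by_contra h4
      push_neg at h4
      nlinarith
    have h4 : (m : ℝ) < 7 := by
      by_contra h4
      push_neg at h4
      nlinarith
    have h5 : 6 < m := by exact_mod_cast h3
    have h6 : m < 7 := by exact_mod_cast h4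
    omega
  rw [← hB]
  have hch : ∀ x ∈ B, ch G x =
      if ∀ y ∈ G.D, y.1 = x.1 → G.con y.1 y.2 → Big G y → y = x then 2 else 1 := by
    intro x hx
    obtain ⟨h1, h2, -⟩ := (hBm x).1 hx
    unfold ch
    rw [if_neg]
    rw [h2]
    exact h
  obtain ⟨x, hx⟩ := hne
  by_cases hu : ∀ y ∈ G.D, y.1 = x.1 → G.con y.1 y.2 → Big G y → y = x
  · have h1 := hch x hx
    rw [if_pos hu] at h1
    calc 2 = ch G x := h1.symm
      _ ≤ ∑ x ∈ B, ch G x := Finset.single_le_sum (f := ch G) (fun _ _ => Nat.zero_le _) hx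
  · push_neg at hu
    obtain ⟨y, h1, h2, h3, h4, h5⟩ := hu
    have hy : y ∈ B := (hBm y).2 ⟨h1, h2.trans ((hBm x).1 hx).2.1, h3, h4⟩
    have h6 : 2 ≤ B.card := by
      have : ({x, y} : Finset (V × V)) ⊆ B := by
        intro z hz
        rw [Finset.mem_insert, Finset.mem_singleton] at hz
        rcases hz with rfl | rfl
        · exact hx
        · exact hy
      calc 2 = ({x, y} : Finset (V × V)).card := (Finset.card_pair (Ne.symm h5)).symm
        _ ≤ B.card := Finset.card_le_card this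
    calc 2 ≤ B.card := h6
      _ = ∑ z ∈ B, 1 := by rw [Finset.card_eq_sum_ones]
      _ ≤ ∑ z ∈ B, ch G z := by
        refine Finset.sum_le_sum fun z hz => ?_
        rw [hch z hz]
        split_ifs <;> norm_num

/-- a sole big corner: the gap is `2π` minus a multiple of `al` -/
theorem sole66 (hG : G.Geo4 al kp U) {v a : V} (hD : (v, a) ∈ G.D) (hc : G.con v a)
    (h2 : ch G (v, a) = 2) : ¬ G.bd v ∧ ∃ s : ℕ, G.Th v a + s * al = 2 * Real.pi := by
  unfold ch at h2
  dsimp only at h2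
  split_ifs at h2 with h3 h4
  have hv := G.mem _ _ hD
  have hb : ¬ G.bd v := fun hb => h3 (bd_oJ G hG hv hb)
  refine ⟨hb, ?_⟩
  have hall : ∀ b, (v, b) ∈ G.D → G.con v b → G.inn (v, b) := by
    intro b h5 h6
    by_contra h7
    exact h3 ⟨b, (mem_oJ66 G).2 ⟨h5, h6, h7⟩⟩
  have h5 := gap_tot G hG hv hb
  have h6 : (v, a) ∈ G.D.filter (fun x => x.1 = v ∧ G.con x.1 x.2) := by
    rw [Finset.mem_filter]
    exact ⟨hD, rfl, hc⟩
  rw [← Finset.add_sum_erase _ _ h6] at h5
  refine ⟨((G.D.filter (fun x => x.1 = v ∧ G.con x.1 x.2)).erase (v, a)).card, ?_⟩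
  have h7 : ∑ x ∈ (G.D.filter (fun x => x.1 = v ∧ G.con x.1 x.2)).erase (v, a),
      G.Th x.1 x.2 = ∑ x ∈ (G.D.filter (fun x => x.1 = v ∧ G.con x.1 x.2)).erase (v, a),
        al := by
    refine Finset.sum_congr rfl ?_
    rintro ⟨y1, y2⟩ hy
    rw [Finset.mem_erase, Finset.mem_filter] at hy
    obtain ⟨h8, h9, h10, h11⟩ := hy
    simp only at h10 h11
    subst h10
    refine Th_small G hG (hall _ h9 h11) h11 ?_ hv hb
    intro h12
    exact h8 (h4 _ h9 rfl h11 h12)
  rw [h7, Finset.sum_const, nsmul_eq_mul] at h5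
  exact h5
  omega

theorem five66 (hG : G.Geo4 al kp U) {t : ℝ} {s : ℕ} (h : t + s * al = 2 * Real.pi)
    (h1 : al ≤ t) (h2 : t ≤ 2 * al) : t = 2 * Real.pi - 5 * al := by
  have a1 := hG.al1
  have a2 := hG.al2
  have hal : 0 < al := by
    have := Real.pi_pos
    linarith
  have h3 : (s : ℝ) < 6 := by
    by_contra h4
    rw [not_lt] at h4
    nlinarith
  have h4 : (4 : ℝ) < s := by
    by_contra h4
    rw [not_lt] at h4
    nlinarith
  have h5 : s < 6 := by exact_mod_cast h3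
  have h6 : 4 < s := by exact_mod_cast h4
  have h7 : s = 5 := by omega
  rw [h7] at h
  push_cast at h
  linarith

/-- two neighbouring corners of a rhombus have charge at most three -/
theorem pair66 (hG : G.Geo4 al kp U) (hns : NoSqG G al) {a b : V} (h : G.Rh a b) :
    ch G (G.ap a b, a) + ch G (a, G.ap b a) ≤ 3 := by
  have hR := h
  obtain ⟨p1, q1, p3, c1, c2, c3, c4⟩ := h
  have l1 := ch_le_two66 G (G.ap a b, a)
  have l2 := ch_le_two66 G (a, G.ap b a)
  by_contra hlt
  have e1 : ch G (G.ap a b, a) = 2 := by omega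
  have e2 : ch G (a, G.ap b a) = 2 := by omega
  have r2 : (G.ap a b, a) ∈ G.Dp := G.ap2 _ _ p1
  have s1 : (a, G.ap b a) ∈ G.Dp := G.ap1 _ _ q1
  obtain ⟨b1, n1, g1⟩ := sole66 G hG (G.sub r2) c2 e1
  obtain ⟨b2, n2, g2⟩ := sole66 G hG (G.sub s1) c3 e2
  have t1 : G.Th (G.ap a b) a = G.th (G.ap a b) a := by
    refine Th_eq_one66 G b1 r2 c2 ?_
    rw [G.ap4 _ _ p1]
    exact G.csymm _ _ c1
  have ea : G.ap a (G.ap b a) = b := G.ap3 _ _ q1
  have t2 : G.Th a (G.ap b a) = G.th a (G.ap b a) + G.th a b := by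
    have h1 := Th_eq_two66 G (v := a) (a := G.ap b a) b2 s1 c3 (by rw [ea]; exact p3)
      (by rw [ea]; exact p1) (by rw [ea]; exact G.csymm _ _ c2)
    rw [ea] at h1
    exact h1
  have k1 := hG.rh1 a b hR
  have k2 := hG.rh2 a b hR
  rw [t1] at g1
  rw [t2] at g2
  have v1 := five66 G hG g1 k1.1 k1.2
  have v2 := five66 G hG g2 (by linarith) (by linarith)
  exact hns a b hR v1 (by linarith)

/-- T4: the charge of a rhombus is at most 3 (doubled: 6) -/
theorem ch_rhombus (hG : G.Geo4 al kp U) (hns : NoSqG G al) {C : G.adj.ConnectedComponent} (hC : C ∈ G.iC)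
    (hm : (G.cT C).card = 2) (hI : (G.cI C).card = 2) :
    ∑ x ∈ G.cJ C, ch G x ≤ 6 := by
  have hB := cB_of_iC66 G hC
  obtain ⟨x, hx⟩ : (G.cI C).Nonempty := by
    rw [← Finset.card_pos]
    omega
  have hx' := swap_cD66 G hx
  have R1 := Rh_of_class66 G hB hI hx
  have R2 := Rh_of_class66 G hB hI hx'
  have hx0 := hx
  have hx0' := hx'
  unfold Tg.cI at hx0 hx0'
  rw [Finset.mem_filter] at hx0 hx0'
  obtain ⟨p1, p2, p3, p4⟩ := hx0
  obtain ⟨q1, q2, q3, q4⟩ := hx0'
  have hxD : x ∈ G.cD C := (mem_cD66 G).2 ⟨p1, p2⟩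
  have hxD' : (x.2, x.1) ∈ G.cD C := (mem_cD66 G).2 ⟨q1, q2⟩
  have hT : G.cT C = {G.tri x, G.tri (x.2, x.1)} := by
    symm
    apply Finset.eq_of_subset_of_card_le
    · intro y hy
      rw [Finset.mem_insert, Finset.mem_singleton] at hy
      rcases hy with rfl | rfl
      · exact mem_cT66 G hxD
      · exact mem_cT66 G hxD'
    · rw [hm, Finset.card_pair (tri_swap66 G p1 p4)]
  have hsub : G.cJ C ⊆ {(x.2, G.ap x.1 x.2), (G.ap x.1 x.2, x.1), (x.1, G.ap x.2 x.1),
      (G.ap x.2 x.1, x.2)} := by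
    intro z hz
    have hzD := cJ_sub66 G C hz
    have hzp := ((mem_cD66 G).1 hzD).1
    unfold Tg.cJ at hz
    rw [Finset.mem_filter] at hz
    have hzc := hz.2.2
    have h2 := mem_cT66 G hzD
    rw [hT, Finset.mem_insert, Finset.mem_singleton] at h2
    rw [Finset.mem_insert, Finset.mem_insert, Finset.mem_insert, Finset.mem_singleton]
    rcases h2 with h2 | h2
    · rcases (tri_eq_iff G p1 hzp).1 h2.symm with h3 | h3 | h3
      · rw [h3] at hzc
        exact absurd hzc p3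
      · exact Or.inl h3
      · exact Or.inr (Or.inl h3)
    · rcases (tri_eq_iff G q1 hzp).1 h2.symm with h3 | h3 | h3
      · rw [h3] at hzc
        exact absurd hzc q3
      · exact Or.inr (Or.inr (Or.inl h3))
      · exact Or.inr (Or.inr (Or.inr h3))
  have hins : ∀ (y : V × V) (s : Finset (V × V)),
      ∑ z ∈ insert y s, ch G z ≤ ch G y + ∑ z ∈ s, ch G z := by
    intro y s
    by_cases hy : y ∈ s
    · rw [Finset.insert_eq_of_mem hy]
      exact Nat.le_add_left _ _
    · rw [Finset.sum_insert hy]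
  have P1 := pair66 G hG hns R1
  have P2 := pair66 G hG hns R2
  dsimp only at P1 P2
  have s1 := Finset.sum_le_sum_of_subset (f := ch G) hsub
  have s2 := hins (x.2, G.ap x.1 x.2) {(G.ap x.1 x.2, x.1), (x.1, G.ap x.2 x.1),
      (G.ap x.2 x.1, x.2)}
  have s3 := hins (G.ap x.1 x.2, x.1) {(x.1, G.ap x.2 x.1), (G.ap x.2 x.1, x.2)}
  have s4 := hins (x.1, G.ap x.2 x.1) {(G.ap x.2 x.1, x.2)}
  rw [Finset.sum_singleton] at s4
  omega

/-- the charge of an inner class -/
theorem class_ch66 (hG : G.Geo4 al kp U) (hns : NoSqG G al) {C : G.adj.ConnectedComponent} (hC : C ∈ G.iC)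
    (hne : (G.cI C).Nonempty) :
    ∑ x ∈ G.cJ C, ch G x + G.e2 C ≤ 3 * (G.cI C).card := by
  have hB := cB_of_iC66 G hC
  have hsplit := card_split66 G C
  have hconn := conn G C
  have hpos := Finset.card_pos.2 hne
  have hBc : (G.cB C).card = 0 := by
    rw [hB]
    rfl
  have hzero : (G.cT C).card ≤ 1 → (G.cI C).card = 0 := by
    intro h
    rw [Finset.card_eq_zero, Finset.eq_empty_iff_forall_notMem]
    intro x hx
    have hx' := swap_cD66 G hx
    unfold Tg.cI at hx hx'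
    rw [Finset.mem_filter] at hx hx'
    have h1 := mem_cT66 G ((mem_cD66 G).2 ⟨hx.1, hx.2.1⟩)
    have h2 := mem_cT66 G ((mem_cD66 G).2 ⟨hx'.1, hx'.2.1⟩)
    exact tri_swap66 G hx.1 hx.2.2.2 (Finset.card_le_one.1 h _ h1 _ h2)
  have hm2 : 2 ≤ (G.cT C).card := by
    by_contra h
    have := hzero (by omega)
    omega
  by_cases hrh : (G.cT C).card = 2 ∧ (G.cI C).card = 2
  · have h1 := ch_rhombus G hG hns hC hrh.1 hrh.2
    unfold Tg.e2
    rw [hrh.1, hrh.2]
    omega
  · have h1 : ∑ x ∈ G.cJ C, ch G x ≤ 2 * (G.cJ C).card := by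
      calc ∑ x ∈ G.cJ C, ch G x ≤ ∑ x ∈ G.cJ C, 2 :=
            Finset.sum_le_sum fun x _ => ch_le_two66 G x
        _ = 2 * (G.cJ C).card := by simp [mul_comm]
    unfold Tg.e2
    omega

/-- T5 = (E2) -/
theorem E2_ineq (hG : G.Geo4 al kp U) (hns : NoSqG G al) :
    2 * G.P.card + G.E2 ≤ 2 * G.oJ.card + 3 * G.iI.card := by
  obtain ⟨N, hN⟩ : ∃ N, N = G.P.filter (fun v => ¬ ∃ a, (v, a) ∈ G.oJ) := ⟨_, rfl⟩
  obtain ⟨B, hB⟩ : ∃ B, B = G.iD.filter (fun x => G.con x.1 x.2 ∧ Big G x) := ⟨_, rfl⟩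
  have h1 : 2 * N.card ≤ ∑ x ∈ B, ch G x := by
    have e1 : ∀ v ∈ N, 2 ≤ ∑ x ∈ B.filter (fun x => x.1 = v), ch G x := by
      intro v hv
      rw [hN, Finset.mem_filter] at hv
      have h2 := ch_vertex G hG hv.1 hv.2
      have h3 : B.filter (fun x => x.1 = v) =
          G.iD.filter (fun x => x.1 = v ∧ G.con x.1 x.2 ∧ Big G x) := by
        rw [hB, Finset.filter_filter]
        refine Finset.filter_congr fun x _ => ?_
        tauto
      rw [h3]
      exact h2
    calc 2 * N.card = ∑ v ∈ N, 2 := by simp [mul_comm]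
      _ ≤ ∑ v ∈ N, ∑ x ∈ B.filter (fun x => x.1 = v), ch G x := Finset.sum_le_sum e1
      _ ≤ ∑ x ∈ B, ch G x :=
        Finset.sum_fiberwise_le_sum_of_sum_fiber_nonneg fun _ _ => Nat.zero_le _
  have h2 : (G.P \ N).card ≤ G.oJ.card := by
    calc (G.P \ N).card ≤ (G.oJ.image Prod.fst).card := by
          refine Finset.card_le_card fun v hv => ?_
          rw [Finset.mem_sdiff, hN, Finset.mem_filter, not_and, not_not] at hv
          obtain ⟨a, ha⟩ := hv.2 hv.1
          exact Finset.mem_image_of_mem Prod.fst ha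
      _ ≤ G.oJ.card := Finset.card_image_le
  have h3 : G.P.card ≤ (G.P \ N).card + N.card := Finset.card_le_card_sdiff_add_card
  have h4 : ∑ x ∈ B, ch G x + G.E2 ≤ 3 * G.iI.card := by
    have e1 : ∀ x ∈ B, G.cl x ∈ G.iC := by
      intro x hx
      rw [hB, Finset.mem_filter] at hx
      unfold Tg.iC
      exact Finset.mem_image_of_mem _ hx.1
    rw [← Finset.sum_fiberwise_of_maps_to e1]
    unfold Tg.E2
    rw [← sum_cI66 G, ← Finset.sum_add_distrib, Finset.mul_sum]
    refine Finset.sum_le_sum fun C hC => ?_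
    by_cases hne : (G.cI C).Nonempty
    · refine le_trans (Nat.add_le_add_right ?_ _) (class_ch66 G hG hns hC hne)
      refine Finset.sum_le_sum_of_subset fun x hx => ?_
      rw [Finset.mem_filter, hB, Finset.mem_filter] at hx
      obtain ⟨⟨h5, h6, h7⟩, h8⟩ := hx
      unfold Tg.iD at h5
      rw [Finset.mem_filter] at h5
      unfold Tg.cJ
      rw [Finset.mem_filter]
      exact ⟨h5.1, h8, h6⟩
    · have h5 : B.filter (fun x => G.cl x = C) = ∅ := by
        rw [Finset.eq_empty_iff_forall_notMem]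
        intro x hx
        rw [Finset.mem_filter, hB, Finset.mem_filter] at hx
        obtain ⟨⟨h5, h6, h7⟩, h8⟩ := hx
        unfold Big at h7
        rw [h8] at h7
        exact hne h7
      rw [Finset.not_nonempty_iff_eq_empty] at hne
      rw [h5, Finset.sum_empty]
      unfold Tg.e2
      rw [hne]
      simp
  omega

/-- the darts with empty left side -/
theorem free_le9 (hG : G.Geo4 al kp U) :
    (G.D.filter (fun x => x ∉ G.Dp)).card ≤ (G.P.filter G.bd).card := by
  apply Finset.card_le_card_of_injOn (fun x => x.1)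
  · rintro ⟨v, a⟩ hx
    rw [Finset.mem_coe, Finset.mem_filter] at hx
    rw [Finset.mem_coe, Finset.mem_filter]
    refine ⟨G.mem _ _ hx.1, ?_⟩
    by_contra hb
    exact hx.2 (G.int1 _ _ (G.mem _ _ hx.1) hb hx.1)
  · rintro ⟨v, a⟩ hx ⟨v', b⟩ hy h
    rw [Finset.mem_coe, Finset.mem_filter] at hx hy
    have h : v = v' := h
    subst h
    rw [hG.left v a b hx.1 hy.1 hx.2 hy.2]

theorem hull_le9 (hG : G.Geo4 al kp U) :
    (G.D.filter (fun x => G.con x.1 x.2 ∧ x ∉ G.Dp)).card +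
      (G.Dp.filter (fun x => ¬ G.con x.1 x.2 ∧ (x.2, x.1) ∉ G.Dp)).card ≤
      (G.P.filter G.bd).card := by
  refine le_trans ?_ (free_le9 G hG)
  have hsw : (G.Dp.filter (fun x => ¬ G.con x.1 x.2 ∧ (x.2, x.1) ∉ G.Dp)).card =
      ((G.Dp.filter (fun x => ¬ G.con x.1 x.2 ∧ (x.2, x.1) ∉ G.Dp)).image Prod.swap).card :=
    (Finset.card_image_of_injective _ Prod.swap_injective).symm
  rw [hsw, ← Finset.card_union_of_disjoint]
  · apply Finset.card_le_card
    intro x hx
    rw [Finset.mem_union] at hx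
    rcases hx with hx | hx
    · rw [Finset.mem_filter] at hx ⊢
      exact ⟨hx.1, hx.2.2⟩
    · obtain ⟨y, hy, rfl⟩ := Finset.mem_image.mp hx
      rw [Finset.mem_filter] at hy ⊢
      exact ⟨G.symm _ _ (G.sub hy.1), hy.2.2⟩
  · rw [Finset.disjoint_left]
    intro x hx hx'
    obtain ⟨y, hy, rfl⟩ := Finset.mem_image.mp hx'
    rw [Finset.mem_filter] at hx hy
    exact hy.2.1 (G.csymm _ _ hx.2.1)

/-- R1 = (E1) -/
theorem E1_ineq (hG : G.Geo4 al kp U) : G.iD.card + 3 * G.oJ.card + 6 ≤ 6 * G.P.card := by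
  have h1 := outer_sum9 G
  have h2 := hull_le9 G hG
  have h3 := hG.cnt
  have h4 : (G.Dp.filter (fun x => G.inn x)).card + (G.Dp.filter (fun x => ¬ G.inn x)).card =
      G.Dp.card := Finset.card_filter_add_card_filter_not (s := G.Dp) (fun x => G.inn x)
  have h5 : G.iD = G.Dp.filter (fun x => G.inn x) := rfl
  have h6 : G.oJ.card = (G.Dp.filter (fun x => G.con x.1 x.2 ∧ ¬ G.inn x)).card +
      (G.D.filter (fun x => G.con x.1 x.2 ∧ x ∉ G.Dp)).card := by
    rw [← Finset.card_filter_add_card_filter_not (s := G.oJ) (fun x => x ∈ G.Dp)]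
    congr 2
    · ext x
      unfold Tg.oJ
      simp only [Finset.mem_filter]
      constructor
      · rintro ⟨⟨_, h2⟩, h3⟩
        exact ⟨h3, h2⟩
      · rintro ⟨h3, h2⟩
        exact ⟨⟨G.sub h3, h2⟩, h3⟩
    · ext x
      unfold Tg.oJ
      simp only [Finset.mem_filter]
      constructor
      · rintro ⟨⟨h1, h2, _⟩, h3⟩
        exact ⟨h1, h2, h3⟩
      · rintro ⟨h1, h2, h3⟩
        exact ⟨⟨h1, h2, fun h => h3 h.1⟩, h3⟩
  rw [h5]
  omega

theorem area_eq27 (hG : G.Geo4 al kp U) :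
    ∑ x ∈ G.iD, G.ar x.1 x.2 / 3 = ∑ x ∈ G.iB, kp x.1 x.2 := by
  have e1 : ∑ x ∈ G.iD, G.ar x.1 x.2 / 3 = (∑ x ∈ G.iD, kp x.1 x.2 +
      ∑ x ∈ G.iD, kp x.2 (G.ap x.1 x.2) + ∑ x ∈ G.iD, kp (G.ap x.1 x.2) x.1) / 3 := by
    rw [← Finset.sum_add_distrib, ← Finset.sum_add_distrib, Finset.sum_div]
    refine Finset.sum_congr rfl fun x hx => ?_
    rw [mem_iD27] at hx
    rw [hG.kar _ _ hx.1]
  have e2 := sum_rot27 G kp
  have e3 := sum_rot27' G kp
  have e4 := iD_split27 G (fun x => kp x.1 x.2)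
  have e5 := sum_swap27 G (fun x => kp x.1 x.2)
  dsimp only at e4 e5
  have e6 : ∑ x ∈ G.iD.filter (fun x => G.inn (x.2, x.1)), kp x.2 x.1 =
      - ∑ x ∈ G.iD.filter (fun x => G.inn (x.2, x.1)), kp x.1 x.2 := by
    rw [← Finset.sum_neg_distrib]
    exact Finset.sum_congr rfl fun x _ => hG.kanti _ _
  linarith

theorem iB_ne27 (hG : G.Geo4 al kp U) (h : G.iD.Nonempty) : G.iB.Nonempty := by
  by_contra h0
  rw [Finset.not_nonempty_iff_eq_empty] at h0
  have h1 := area_eq27 G hG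
  rw [h0, Finset.sum_empty] at h1
  have h2 : 0 < ∑ x ∈ G.iD, G.ar x.1 x.2 / 3 := by
    refine Finset.sum_pos (fun x hx => ?_) h
    rw [mem_iD27] at hx
    have h3 := hG.tpos _ _ hx.1
    linarith
  linarith

/-- Uc3: the boundary of the inner region -/
theorem iB_facts (hG : G.Geo4 al kp U) :
    (∀ v, (G.iB.filter (fun x => x.1 = v)).card = (G.iB.filter (fun x => x.2 = v)).card) ∧
    (∀ x ∈ G.iB, G.con x.1 x.2 ∧ x ∈ G.D) ∧ G.iB.card ≤ G.oJ.card ∧
    (G.iD.Nonempty → G.iB.Nonempty) ∧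
    ∑ x ∈ G.iD, G.ar x.1 x.2 / 3 = ∑ x ∈ G.iB, kp x.1 x.2 :=
  ⟨iB_bal27 G, fun _ hx => ⟨iB_con27 G hx, iB_D27 G hx⟩, iB_card27 G, iB_ne27 G hG,
    area_eq27 G hG⟩

/-- Uc4 -/
theorem area_le (hG : G.Geo4 al kp U) (h0 : U 0 = 0) (hm : Monotone U)
    (hs : ∀ a b, U a + U b ≤ U (a + b)) :
    ∑ x ∈ G.iD, G.ar x.1 x.2 / 3 ≤ U G.oJ.card ∧ (G.iD.Nonempty → 3 ≤ G.oJ.card) := by
  obtain ⟨b1, b2, b3, b4, b5⟩ := iB_facts G hG
  constructor
  · rw [b5]
    refine le_trans (bal_sum G.iB kp U h0 hs ?_ b1) (hm b3)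
    intro v b hb hv
    exact hG.walk v b hb (fun i hi => (b2 _ (hv i hi)).2) (fun i hi => (b2 _ (hv i hi)).1)
  · intro hne
    refine le_trans (bal_three G.iB (b4 hne) ?_ ?_ b1) b3
    · intro x hx
      exact G.ne _ _ (b2 x hx).2
    · intro x hx h
      rw [mem_iB27] at hx h
      exact h.2 hx.1

/-- going clockwise from an inner dart one meets a contact dart -/
theorem hasO71 (hG : G.Geo4 al kp U) {v a : V} (h : G.inn (v, a)) : G.HasO v a := by
  by_contra hno
  have hv := G.mem _ _ (G.sub h.1)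
  obtain ⟨S, hmem⟩ : ∃ S : Finset V, ∀ b, b ∈ S ↔ (v, b) ∈ G.D ∧
      (G.inn (v, b) ∧ ¬ G.HasO v b) := ⟨_, mem_img66 G v (fun b => G.inn (v, b) ∧ ¬ G.HasO v b)⟩
  have hbk : ∀ b ∈ S, G.bk v b ∈ S := by
    intro b hb
    obtain ⟨h1, h2, h3⟩ := (hmem b).1 hb
    have hc : ¬ G.con v b := fun hc => h3 ⟨0, hc⟩
    obtain ⟨h4, h5, _⟩ := inn_bk71 G h2 hc
    refine (hmem _).2 ⟨G.sub h5.1, h5, ?_⟩
    rintro ⟨i, hi⟩
    exact h3 ⟨i + 1, by rw [Function.iterate_succ_apply]; exact hi⟩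
  have hfb : ∀ b ∈ S, G.ap v (G.bk v b) = b := by
    intro b hb
    obtain ⟨h1, h2, h3⟩ := (hmem b).1 hb
    have hc : ¬ G.con v b := fun hc => h3 ⟨0, hc⟩
    exact fw_bk71 G (inn_bk71 G h2 hc).1
  have himg : S.image (G.bk v) = S := by
    apply Finset.eq_of_subset_of_card_le
    · intro b hb
      obtain ⟨c, hc, rfl⟩ := Finset.mem_image.1 hb
      exact hbk c hc
    · rw [Finset.card_image_of_injOn]
      intro b hb c hc hbc
      rw [← hfb b (Finset.mem_coe.1 hb), ← hfb c (Finset.mem_coe.1 hc)]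
      exact congrArg _ hbc
  have hfw : ∀ b ∈ S, G.ap v b ∈ S := by
    intro b hb
    rw [← himg] at hb
    obtain ⟨c, hc, rfl⟩ := Finset.mem_image.1 hb
    rw [hfb c hc]
    exact hc
  have hne : S.Nonempty := ⟨a, (hmem a).2 ⟨G.sub h.1, h, hno⟩⟩
  by_cases hb : G.bd v
  · exact hG.bdno v hv hb S hne (fun b hb => ⟨((hmem b).1 hb).2.1.1, hfw b hb⟩)
  · have h1 := hG.turn v hv hb S hne (fun b hb => ((hmem b).1 hb).1) hfw
    obtain ⟨c, hc1, hc2⟩ := con_ex66 G hG hv
    have hcS : c ∉ S := fun h2 => ((hmem c).1 h2).2.2 ⟨0, hc2⟩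
    have h2 : ∑ b ∈ insert c S, G.th v b ≤
        ∑ x ∈ G.D.filter (fun x => x.1 = v), G.th x.1 x.2 := by
      have e := Finset.sum_image (s := insert c S) (g := fun b => (v, b))
        (f := fun x : V × V => G.th x.1 x.2) (fun x _ y _ h => (Prod.mk.inj h).2)
      dsimp only at e
      rw [← e]
      apply Finset.sum_le_sum_of_subset_of_nonneg
      · intro x hx
        obtain ⟨b, hb, rfl⟩ := Finset.mem_image.1 hx
        rw [Finset.mem_filter]
        refine ⟨?_, rfl⟩
        rcases Finset.mem_insert.1 hb with rfl | hb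
        · exact hc1
        · exact ((hmem b).1 hb).1
      · rintro ⟨x1, x2⟩ hx _
        rw [Finset.mem_filter] at hx
        obtain ⟨h3, h4⟩ := hx
        simp only at h4
        subst h4
        exact (G.thpos _ _ (G.int1 _ _ hv hb h3)).le
    rw [hG.tot v hv hb, Finset.sum_insert hcS] at h2
    have h3 := G.thpos _ _ (G.int1 _ _ hv hb hc1)
    linarith

/-- the gap of an inner dart lies in its class -/
theorem og71 (hG : G.Geo4 al kp U) {v a : V} (h : G.inn (v, a)) :
    G.con v (G.og v a) ∧ G.inn (v, G.og v a) ∧ G.cl (v, G.og v a) = G.cl (v, a) := by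
  have hO := hasO71 G hG h
  have e : G.og v a = (G.bk v)^[Nat.find hO] a := by
    unfold Tg.og
    rw [dif_pos hO]
  rw [e]
  have key : ∀ i, i ≤ Nat.find hO → G.inn (v, (G.bk v)^[i] a) ∧
      G.cl (v, (G.bk v)^[i] a) = G.cl (v, a) := by
    intro i
    induction i with
    | zero => intro _; exact ⟨h, rfl⟩
    | succ i ih =>
      intro hi
      obtain ⟨h1, h2⟩ := ih (by omega)
      obtain ⟨_, h3, h4⟩ := inn_bk71 G h1 (Nat.find_min hO (by omega))
      rw [Function.iterate_succ_apply']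
      exact ⟨h3, h4.trans h2⟩
  exact ⟨Nat.find_spec hO, key _ le_rfl⟩

/-- all the angles of inner triangles are shared among the inner contact darts -/
theorem sum_TH71 (hG : G.Geo4 al kp U) : ∑ x ∈ iJ G, TH G x = ∑ y ∈ G.iD, G.th y.1 y.2 := by
  rw [← Finset.sum_fiberwise_of_maps_to (s := G.iD) (t := iJ G)
    (g := fun y => (y.1, G.og y.1 y.2))]
  · refine Finset.sum_congr rfl fun x _ => ?_
    unfold TH gp
    refine Finset.sum_congr (Finset.filter_congr fun y _ => ?_) fun _ _ => rfl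
    constructor
    · rintro ⟨h1, h2⟩
      exact Prod.ext h1 (by rw [h1]; exact h2)
    · intro h
      have h1 : y.1 = x.1 := by rw [← h]
      have h2 : G.og y.1 y.2 = x.2 := by rw [← h]
      exact ⟨h1, by rw [← h1]; exact h2⟩
  · rintro ⟨v, a⟩ hy
    rw [mem_iD27] at hy
    obtain ⟨h1, h2, _⟩ := og71 G hG hy
    exact (mem_iJ71 G).2 ⟨h2, h1⟩

theorem sum_TH_class71 (hG : G.Geo4 al kp U) {C : G.adj.ConnectedComponent} (hC : C ∈ G.iC) :
    ∑ x ∈ G.cJ C, TH G x = ∑ y ∈ G.cD C, G.th y.1 y.2 := by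
  rw [← Finset.sum_fiberwise_of_maps_to (s := G.cD C) (t := G.cJ C)
    (g := fun y => (y.1, G.og y.1 y.2))]
  · refine Finset.sum_congr rfl fun x hx => ?_
    unfold TH gp
    refine Finset.sum_congr ?_ fun _ _ => rfl
    have hx' := hx
    unfold Tg.cJ at hx'
    rw [Finset.mem_filter] at hx'
    ext y
    rw [Finset.mem_filter, Finset.mem_filter, mem_iD27]
    constructor
    · rintro ⟨h1, h2, h3⟩
      have e : (y.1, G.og y.1 y.2) = x := Prod.ext h2 (by rw [h2]; exact h3)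
      have h4 := (og71 G hG h1).2.2
      rw [mem_cD66]
      refine ⟨⟨h1.1, ?_⟩, e⟩
      rw [← hx'.2.1, ← e]
      exact h4.symm
    · rintro ⟨h1, h⟩
      have h2 : y.1 = x.1 := by rw [← h]
      have h3 : G.og y.1 y.2 = x.2 := by rw [← h]
      rw [← iD_fiber27 G hC, Finset.mem_filter, mem_iD27] at h1
      exact ⟨h1.1, h2, by rw [← h2]; exact h3⟩
  · rintro ⟨v, a⟩ hy
    rw [← iD_fiber27 G hC, Finset.mem_filter, mem_iD27] at hy
    obtain ⟨h1, h2, h3⟩ := og71 G hG hy.1
    unfold Tg.cJ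
    rw [Finset.mem_filter]
    exact ⟨h2.1, h3.trans hy.2, h1⟩

/-- at a point of `N` the gaps add to `2π` -/
theorem sum_TH_point71 (hG : G.Geo4 al kp U) {v : V} (hv : v ∈ inN G) :
    ∑ x ∈ (iJ G).filter (fun x => x.1 = v), TH G x = 2 * Real.pi := by
  unfold inN at hv
  rw [Finset.mem_filter] at hv
  obtain ⟨hv, hno⟩ := hv
  have hb : ¬ G.bd v := fun hb => hno (bd_oJ G hG hv hb)
  have hall : ∀ a, (v, a) ∈ G.D → G.con v a → G.inn (v, a) := by
    intro a h1 h2
    by_contra h3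
    exact hno ⟨a, (mem_oJ66 G).2 ⟨h1, h2, h3⟩⟩
  have e1 : ∑ x ∈ (iJ G).filter (fun x => x.1 = v), TH G x =
      ∑ y ∈ G.iD.filter (fun y => y.1 = v), G.th y.1 y.2 := by
    rw [← Finset.sum_fiberwise_of_maps_to (s := G.iD.filter (fun y => y.1 = v))
      (t := (iJ G).filter (fun x => x.1 = v)) (g := fun y => (y.1, G.og y.1 y.2))]
    · refine Finset.sum_congr rfl fun x hx => ?_
      rw [Finset.mem_filter] at hx
      unfold TH gp
      rw [Finset.filter_filter]
      refine Finset.sum_congr (Finset.filter_congr fun y _ => ?_) fun _ _ => rfl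
      constructor
      · rintro ⟨h1, h2⟩
        exact ⟨h1.trans hx.2, Prod.ext h1 (by rw [h1]; exact h2)⟩
      · rintro ⟨_, h⟩
        have h1 : y.1 = x.1 := by rw [← h]
        have h2 : G.og y.1 y.2 = x.2 := by rw [← h]
        exact ⟨h1, by rw [← h1]; exact h2⟩
    · rintro ⟨u, a⟩ hy
      rw [Finset.mem_filter, mem_iD27] at hy
      obtain ⟨h1, h2, _⟩ := og71 G hG hy.1
      rw [Finset.mem_filter]
      exact ⟨(mem_iJ71 G).2 ⟨h2, h1⟩, hy.2⟩
  rw [e1]
  apply le_antisymm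
  · rw [← hG.tot v hv hb]
    apply Finset.sum_le_sum_of_subset_of_nonneg
    · intro y hy
      rw [Finset.mem_filter, mem_iD27] at hy
      rw [Finset.mem_filter]
      exact ⟨G.sub hy.1.1, hy.2⟩
    · rintro ⟨y1, y2⟩ hy _
      rw [Finset.mem_filter] at hy
      obtain ⟨h2, h3⟩ := hy
      simp only at h3
      subst h3
      exact (G.thpos _ _ (G.int1 _ _ hv hb h2)).le
  · have hmem := mem_img66 G v (fun b => G.inn (v, b))
    have h1 := hG.turn v hv hb
      ((G.D.filter (fun y => y.1 = v ∧ G.inn (v, y.2))).image Prod.snd) (by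
        obtain ⟨a, h1, h2⟩ := con_ex66 G hG hv
        exact ⟨a, (hmem a).2 ⟨h1, hall a h1 h2⟩⟩) (fun a ha => ((hmem a).1 ha).1) (by
        intro a ha
        obtain ⟨h1, h2⟩ := (hmem a).1 ha
        have h3 : (v, G.ap v a) ∈ G.D := G.symm _ _ (G.sub (G.ap2 _ _ h2.1))
        refine (hmem _).2 ⟨h3, ?_⟩
        by_cases hc : G.con v (G.ap v a)
        · exact hall _ h3 hc
        · exact inn_next66 G h2 hc)
    refine le_trans h1 (le_of_eq ?_)
    have hinj : Set.InjOn Prod.snd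
        ((G.D.filter (fun y => y.1 = v ∧ G.inn (v, y.2)) : Finset (V × V)) : Set (V × V)) := by
      rintro ⟨y1, y2⟩ hy ⟨z1, z2⟩ hz hyz
      rw [Finset.mem_coe, Finset.mem_filter] at hy hz
      have e1 : y1 = v := hy.2.1
      have e2 : z1 = v := hz.2.1
      simp only at hyz
      rw [e1, e2, hyz]
    rw [Finset.sum_image (f := fun a => G.th v a) hinj]
    refine Finset.sum_congr ?_ ?_
    · ext ⟨y1, y2⟩
      rw [Finset.mem_filter, Finset.mem_filter, mem_iD27]
      constructor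
      · rintro ⟨_, h2, h3⟩
        simp only at h2 h3
        subst h2
        exact ⟨h3, rfl⟩
      · rintro ⟨h2, h3⟩
        simp only at h3
        subst h3
        exact ⟨G.sub h2.1, rfl, h2⟩
    · rintro ⟨y1, y2⟩ hy
      rw [Finset.mem_filter] at hy
      have : y1 = v := hy.2
      rw [this]

/-- the other darts of a gap are inner non-contact darts of the class with the same origin -/
theorem gp_sub71 (hG : G.Geo4 al kp U) {C : G.adj.ConnectedComponent} (hC : C ∈ G.iC) {x : V × V}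
    (hx : x ∈ G.cJ C) : gp G x ⊆ insert x ((G.cI C).filter (fun y => y.1 = x.1)) := by
  intro y hy
  unfold gp at hy
  rw [Finset.mem_filter, mem_iD27] at hy
  obtain ⟨h1, h2, h3⟩ := hy
  have hx' := hx
  unfold Tg.cJ at hx'
  rw [Finset.mem_filter] at hx'
  rw [Finset.mem_insert, Finset.mem_filter]
  by_cases hc : G.con y.1 y.2
  · left
    have := (og_self66 G hc).2
    rw [h2] at this
    exact Prod.ext h2 (by rw [← this]; exact h3)
  · right
    refine ⟨?_, h2⟩
    have e : (y.1, G.og y.1 y.2) = x := Prod.ext h2 (by rw [h2]; exact h3)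
    have h4 : G.cl (y.1, G.og y.1 y.2) = G.cl (y.1, y.2) := (og71 G hG h1).2.2
    rw [e, hx'.2.1] at h4
    exact mem_cI11 G (cB_of_iC66 G hC) ((mem_cD66 G).2 ⟨h1.1, h4.symm⟩) hc

/-- **transfer**: weights `w` of the inner contact darts with `TH x ≤ al * w x`, at least `K` in
total at every point of `N`, at most `c C` in total in every inner class -/
theorem transfer71 (hG : G.Geo4 al kp U) (w : V × V → ℝ) (K : ℝ)
    (c : G.adj.ConnectedComponent → ℝ) (h0 : ∀ x ∈ iJ G, TH G x ≤ al * w x)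
    (hK : ∀ v ∈ inN G, K ≤ ∑ x ∈ (iJ G).filter (fun x => x.1 = v), w x)
    (hc : ∀ C ∈ G.iC, ∑ x ∈ G.cJ C, w x ≤ c C) :
    (K * al - 2 * Real.pi) * (inN G).card ≤
      al * ∑ C ∈ G.iC, c C - Real.pi * (G.iD.card / 3) + ∑ x ∈ G.iD, G.ar x.1 x.2 / 3 := by
  have hal : 0 < al := by
    have a1 := hG.al1
    have := Real.pi_pos
    linarith
  have h1 : ∑ v ∈ inN G, ∑ x ∈ (iJ G).filter (fun x => x.1 = v), (al * w x - TH G x) ≤
      ∑ x ∈ iJ G, (al * w x - TH G x) := by
    rw [← Finset.sum_fiberwise_of_maps_to (s := iJ G) (t := (iJ G).image Prod.fst)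
      (g := Prod.fst) (fun x hx => Finset.mem_image_of_mem _ hx)]
    have hnn : ∀ v, 0 ≤ ∑ x ∈ (iJ G).filter (fun x => x.1 = v), (al * w x - TH G x) := by
      intro v
      apply Finset.sum_nonneg
      intro x hx
      have := h0 x (Finset.mem_filter.1 hx).1
      linarith
    have h2 : ∑ v ∈ inN G, ∑ x ∈ (iJ G).filter (fun x => x.1 = v), (al * w x - TH G x) =
        ∑ v ∈ (inN G).filter (fun v => v ∈ (iJ G).image Prod.fst),
          ∑ x ∈ (iJ G).filter (fun x => x.1 = v), (al * w x - TH G x) := by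
      symm
      apply Finset.sum_filter_of_ne
      intro v _ hne
      by_contra hcon
      apply hne
      apply Finset.sum_eq_zero
      intro x hx
      rw [Finset.mem_filter] at hx
      exact absurd (hx.2 ▸ Finset.mem_image_of_mem Prod.fst hx.1) hcon
    rw [h2]
    apply Finset.sum_le_sum_of_subset_of_nonneg
    · intro v hv
      exact (Finset.mem_filter.1 hv).2
    · intro v _ _
      exact hnn v
  have h3 : (K * al - 2 * Real.pi) * (inN G).card ≤
      ∑ v ∈ inN G, ∑ x ∈ (iJ G).filter (fun x => x.1 = v), (al * w x - TH G x) := by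
    calc (K * al - 2 * Real.pi) * (inN G).card = ∑ v ∈ inN G, (K * al - 2 * Real.pi) := by
          rw [Finset.sum_const, nsmul_eq_mul]; ring
      _ ≤ _ := by
        apply Finset.sum_le_sum
        intro v hv
        rw [Finset.sum_sub_distrib, ← Finset.mul_sum, sum_TH_point71 G hG hv]
        have := mul_le_mul_of_nonneg_left (hK v hv) hal.le
        linarith
  have h4 : ∑ x ∈ iJ G, (al * w x - TH G x) ≤
      al * ∑ C ∈ G.iC, c C - (Real.pi * (G.iD.card / 3) - ∑ x ∈ G.iD, G.ar x.1 x.2 / 3) := by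
    rw [Finset.sum_sub_distrib, sum_TH71 G hG, sum_th_iD71, ← Finset.mul_sum, sum_iJ71]
    have := mul_le_mul_of_nonneg_left (Finset.sum_le_sum hc) hal.le
    linarith
  linarith

theorem al_pos71 (hG : G.Geo4 al kp U) : 0 < al := by
  have a1 := hG.al1
  have := Real.pi_pos
  linarith

theorem wc_le71 (hG : G.Geo4 al kp U) {x : V × V} {n : ℕ} (h : TH G x ≤ n * al) :
    wc G al x ≤ n := by
  unfold wc
  rw [Nat.ceil_le, div_le_iff₀ (al_pos71 G hG)]
  exact h

/-- one contact triangle -/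
theorem wc_one71 (hG : G.Geo4 al kp U) {C : G.adj.ConnectedComponent} (hC : C ∈ G.iC)
    (hI : G.cI C = ∅) : ∑ x ∈ G.cJ C, wc G al x ≤ 3 * (G.cT C).card := by
  have hB := cB_of_iC66 G hC
  have hcon : ∀ y ∈ G.cD C, G.con y.1 y.2 := by
    intro y hy
    by_contra hc
    have := mem_cI11 G hB hy hc
    rw [hI] at this
    exact absurd this (Finset.notMem_empty _)
  have h1 : ∀ x ∈ G.cJ C, wc G al x ≤ 1 := by
    intro x hx
    have hxD := cJ_sub66 G C hx
    apply wc_le71 G hG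
    have h2 := gp_sub71 G hG hC hx
    rw [hI, Finset.filter_empty] at h2
    have h2' : gp G x ⊆ ({x} : Finset (V × V)) := h2
    have h3 : TH G x ≤ ∑ y ∈ ({x} : Finset (V × V)), G.th y.1 y.2 := by
      unfold TH
      refine Finset.sum_le_sum_of_subset_of_nonneg h2' fun y hy _ => ?_
      have hy2 := Finset.mem_singleton.1 hy
      rw [hy2]
      exact (G.thpos _ _ ((mem_cD66 G).1 hxD).1).le
    rw [Finset.sum_singleton, hG.tcon _ _ ((mem_cD66 G).1 hxD).1 (hcon _ hxD)
      (hcon _ (rot_cD66 G hxD)) (hcon _ (rot_cD66' G hxD))] at h3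
    push_cast
    linarith
  calc ∑ x ∈ G.cJ C, wc G al x ≤ ∑ x ∈ G.cJ C, 1 := Finset.sum_le_sum h1
    _ = (G.cJ C).card := by simp
    _ ≤ (G.cD C).card := Finset.card_le_card (cJ_sub66 G C)
    _ = 3 * (G.cT C).card := card_cD G C

/-- a rhombus -/
theorem wc_two71 (hG : G.Geo4 al kp U) {C : G.adj.ConnectedComponent} (hC : C ∈ G.iC)
    (hI : (G.cI C).card = 2) : ∀ x ∈ G.cJ C, (G.cT C).card = 2 → TH G x ≤ 2 * al := by
  have hB := cB_of_iC66 G hC
  have hal := al_pos71 G hG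
  intro z hz hm
  obtain ⟨x, hx⟩ : (G.cI C).Nonempty := by
    rw [← Finset.card_pos]
    omega
  have hx' := swap_cD66 G hx
  have R1 := Rh_of_class66 G hB hI hx
  have R2 := Rh_of_class66 G hB hI hx'
  have hx0 := hx
  have hx0' := hx'
  unfold Tg.cI at hx0 hx0'
  rw [Finset.mem_filter] at hx0 hx0'
  obtain ⟨p1, p2, p3, p4⟩ := hx0
  obtain ⟨q1, q2, q3, q4⟩ := hx0'
  have n1 := G.ne _ _ (G.sub p1)
  have hxD : x ∈ G.cD C := (mem_cD66 G).2 ⟨p1, p2⟩
  have hxD' : (x.2, x.1) ∈ G.cD C := (mem_cD66 G).2 ⟨q1, q2⟩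
  have n2 := G.ne _ _ (G.sub (G.ap1 _ _ p1))
  have n3 := G.ne _ _ (G.sub (G.ap2 _ _ p1))
  have n2' := G.ne _ _ (G.sub (G.ap1 _ _ q1))
  have n3' := G.ne _ _ (G.sub (G.ap2 _ _ q1))
  have hII : G.cI C = {x, (x.2, x.1)} := by
    symm
    apply Finset.eq_of_subset_of_card_le
    · intro y hy
      rw [Finset.mem_insert, Finset.mem_singleton] at hy
      rcases hy with rfl | rfl
      · exact hx
      · exact hx'
    · rw [hI, Finset.card_pair]
      intro h
      exact n1 (congrArg Prod.fst h)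
  have hT : G.cT C = {G.tri x, G.tri (x.2, x.1)} := by
    symm
    apply Finset.eq_of_subset_of_card_le
    · intro y hy
      rw [Finset.mem_insert, Finset.mem_singleton] at hy
      rcases hy with rfl | rfl
      · exact mem_cT66 G hxD
      · exact mem_cT66 G hxD'
    · rw [hm, Finset.card_pair (tri_swap66 G p1 p4)]
  -- the gap of a corner with origin outside the diagonal
  have far : ∀ z ∈ G.cJ C, z.1 ≠ x.1 → z.1 ≠ x.2 → TH G z ≤ G.th z.1 z.2 := by
    intro z hz h1 h2
    have hzD := cJ_sub66 G C hz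
    have h3 := gp_sub71 G hG hC hz
    have h4 : (G.cI C).filter (fun y => y.1 = z.1) = ∅ := by
      rw [Finset.filter_eq_empty_iff]
      intro y hy h
      rw [hII, Finset.mem_insert, Finset.mem_singleton] at hy
      rcases hy with rfl | rfl
      · exact h1 h.symm
      · exact h2 h.symm
    rw [h4] at h3
    have h3' : gp G z ⊆ ({z} : Finset (V × V)) := h3
    unfold TH
    calc ∑ y ∈ gp G z, G.th y.1 y.2 ≤ ∑ y ∈ ({z} : Finset (V × V)), G.th y.1 y.2 := by
          refine Finset.sum_le_sum_of_subset_of_nonneg h3' fun y hy _ => ?_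
          have hy2 := Finset.mem_singleton.1 hy
          rw [hy2]
          exact (G.thpos _ _ ((mem_cD66 G).1 hzD).1).le
      _ = G.th z.1 z.2 := Finset.sum_singleton _ _
  have near : ∀ z ∈ G.cJ C, ∀ w ∈ G.cI C, z.1 = w.1 → TH G z ≤ G.th z.1 z.2 + G.th w.1 w.2 := by
    intro z hz w hw h1
    have hzD := cJ_sub66 G C hz
    have h3 := gp_sub71 G hG hC hz
    have h4 : (G.cI C).filter (fun y => y.1 = z.1) ⊆ {w} := by
      intro y hy
      rw [Finset.mem_filter] at hy
      rw [Finset.mem_singleton]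
      obtain ⟨hy1, hy2⟩ := hy
      rw [hII, Finset.mem_insert, Finset.mem_singleton] at hy1 hw
      rcases hy1 with rfl | rfl <;> rcases hw with rfl | rfl
      · rfl
      · exact absurd (hy2.trans h1) n1
      · exact absurd (hy2.trans h1).symm n1
      · rfl
    unfold TH
    calc ∑ y ∈ gp G z, G.th y.1 y.2 ≤ ∑ y ∈ ({z, w} : Finset (V × V)), G.th y.1 y.2 := by
          apply Finset.sum_le_sum_of_subset_of_nonneg
          · intro y hy
            rcases Finset.mem_insert.1 (h3 hy) with h | h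
            · rw [h]
              exact Finset.mem_insert_self _ _
            · exact Finset.mem_insert_of_mem (h4 h)
          · intro y hy _
            rw [Finset.mem_insert, Finset.mem_singleton] at hy
            rcases hy with rfl | rfl
            · exact (G.thpos _ _ ((mem_cD66 G).1 hzD).1).le
            · exact (G.thpos _ _ ((mem_cD66 G).1 (cI_sub11 G hw)).1).le
      _ = G.th z.1 z.2 + G.th w.1 w.2 := by
          rw [Finset.sum_pair]
          intro h
          have h5 := cI_ncon11 G hw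
          rw [← h] at h5
          unfold Tg.cJ at hz
          rw [Finset.mem_filter] at hz
          exact h5 hz.2.2
  -- enumerate
  have hzD := cJ_sub66 G C hz
  have hzp := ((mem_cD66 G).1 hzD).1
  have hzc : G.con z.1 z.2 := by
    unfold Tg.cJ at hz
    rw [Finset.mem_filter] at hz
    exact hz.2.2
  have h2 := mem_cT66 G hzD
  rw [hT, Finset.mem_insert, Finset.mem_singleton] at h2
  have r1 := hG.rh1 _ _ R1
  have r2 := hG.rh2 _ _ R1
  have s1 := hG.rh1 _ _ R2
  have s2 := hG.rh2 _ _ R2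
  dsimp only at s1 s2
  rcases h2 with h2 | h2
  · rcases (tri_eq_iff G p1 hzp).1 h2.symm with h3 | h3 | h3
    · rw [h3] at hzc
      exact absurd hzc p3
    · -- `(b, ap a b)`
      have h4 := near z hz _ hx' (by rw [h3])
      rw [h3] at h4 ⊢
      dsimp only at h4
      linarith [s2.2]
    · have h4 := far z hz (by rw [h3]; exact n3) (by rw [h3]; exact fun h => n2 h.symm)
      rw [h3] at h4 ⊢
      dsimp only at h4
      linarith [r1.2]
  · rcases (tri_eq_iff G q1 hzp).1 h2.symm with h3 | h3 | h3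
    · rw [h3] at hzc
      exact absurd hzc q3
    · have h4 := near z hz _ hx (by rw [h3])
      rw [h3] at h4 ⊢
      dsimp only at h4
      linarith [r2.2]
    · have h4 := far z hz (by rw [h3]; exact fun h => n2' h.symm) (by rw [h3]; exact n3')
      rw [h3] at h4 ⊢
      dsimp only at h4
      linarith [s1.2]

/-- the ceiling weight of an inner class -/
theorem wc_class71 (hG : G.Geo4 al kp U) {C : G.adj.ConnectedComponent} (hC : C ∈ G.iC)
    (hA : A3 al * (G.cT C).card ≤ ∑ x ∈ G.cD C, G.ar x.1 x.2 / 3) :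
    ∑ x ∈ G.cJ C, wc G al x ≤ 3 * (G.cT C).card + (G.cI C).card := by
  have hal := al_pos71 G hG
  rcases Finset.eq_empty_or_nonempty (G.cI C) with hI | hI
  · have := wc_one71 G hG hC hI
    omega
  have hIpos := Finset.card_pos.2 hI
  have hconn := conn G C
  have hsplit := card_split66 G C
  have hB : (G.cB C).card = 0 := by
    rw [cB_of_iC66 G hC]
    rfl
  by_cases hrh : (G.cT C).card = 2 ∧ (G.cI C).card = 2
  · have h1 : ∀ x ∈ G.cJ C, wc G al x ≤ 2 := by
      intro x hx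
      apply wc_le71 G hG
      push_cast
      exact wc_two71 G hG hC hrh.2 x hx hrh.1
    have h2 : ∑ x ∈ G.cJ C, wc G al x ≤ 2 * (G.cJ C).card := by
      calc ∑ x ∈ G.cJ C, wc G al x ≤ ∑ x ∈ G.cJ C, 2 := Finset.sum_le_sum h1
        _ = 2 * (G.cJ C).card := by simp [mul_comm]
    obtain ⟨h3, h4⟩ := hrh
    omega
  · rcases Finset.eq_empty_or_nonempty (G.cJ C) with hJ | hJ
    · rw [hJ, Finset.sum_empty]
      exact Nat.zero_le _
    have h1 : (∑ x ∈ G.cJ C, wc G al x : ℕ) < 3 * (G.cT C).card + (G.cJ C).card := by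
      have h2 : ((∑ x ∈ G.cJ C, wc G al x : ℕ) : ℝ) <
          ((3 * (G.cT C).card + (G.cJ C).card : ℕ) : ℝ) := by
        rw [Nat.cast_sum]
        calc ∑ x ∈ G.cJ C, (wc G al x : ℝ) < ∑ x ∈ G.cJ C, (TH G x / al + 1) := by
              apply Finset.sum_lt_sum_of_nonempty hJ
              intro x hx
              unfold wc
              apply Nat.ceil_lt_add_one
              have hxi : x ∈ iJ G := by
                rw [← iJ_fiber71 G hC, Finset.mem_filter] at hx
                exact hx.1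
              exact (div_pos (TH_pos71 G hxi) hal).le
          _ = (∑ x ∈ G.cJ C, TH G x) / al + (G.cJ C).card := by
              rw [Finset.sum_add_distrib, Finset.sum_div]
              simp
          _ ≤ ((3 * (G.cT C).card + (G.cJ C).card : ℕ) : ℝ) := by
              rw [sum_TH_class71 G hG hC, sum_th71]
              push_cast
              have h3 : (Real.pi * (G.cT C).card - ∑ x ∈ G.cD C, G.ar x.1 x.2 / 3) / al ≤
                  3 * (G.cT C).card := by
                rw [div_le_iff₀ hal]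
                unfold A3 at hA
                linarith
              linarith
      exact_mod_cast h2
    omega

/-- **inequality G** -/
theorem G_ineq (hG : G.Geo4 al kp U)
    (hA : ∀ C ∈ G.iC, A3 al * (G.cT C).card ≤ ∑ x ∈ G.cD C, G.ar x.1 x.2 / 3) :
    (7 * al - 2 * Real.pi) * ((G.P.card : ℝ) - G.oJ.card) ≤
      al * G.iI.card + (∑ x ∈ G.iD, G.ar x.1 x.2 / 3 - A3 al * (G.iD.card / 3)) := by
  have hal := al_pos71 G hG
  have hpi := Real.pi_pos
  have h1 := transfer71 G hG (fun x => (wc G al x : ℝ)) 7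
    (fun C => ((3 * (G.cT C).card + (G.cI C).card : ℕ) : ℝ)) ?_ ?_ ?_
  · have h2 : ∑ C ∈ G.iC, ((3 * (G.cT C).card + (G.cI C).card : ℕ) : ℝ) =
        G.iD.card + G.iI.card := by
      rw [card_iD27, ← sum_cI66 G]
      push_cast
      rw [Finset.sum_add_distrib, Finset.mul_sum]
    rw [h2] at h1
    have h3 : (G.P.card : ℝ) - G.oJ.card ≤ (inN G).card := by
      have := card_inN71 G
      have h4 : (G.P.card : ℝ) ≤ G.oJ.card + (inN G).card := by exact_mod_cast this
      linarith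
    have h5 := mul_le_mul_of_nonneg_left h3 (by linarith [hG.al1] : 0 ≤ 7 * al - 2 * Real.pi)
    unfold A3
    linarith
  · intro x _
    have := Nat.le_ceil (TH G x / al)
    rw [div_le_iff₀ hal] at this
    unfold wc
    linarith
  · intro v hv
    have h1 := sum_TH_point71 G hG hv
    have h2 : ∑ x ∈ (iJ G).filter (fun x => x.1 = v), TH G x / al ≤
        ∑ x ∈ (iJ G).filter (fun x => x.1 = v), (wc G al x : ℝ) :=
      Finset.sum_le_sum fun x _ => Nat.le_ceil _
    rw [← Finset.sum_div, h1] at h2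
    have h3 : (6 : ℝ) < 2 * Real.pi / al := by
      rw [lt_div_iff₀ hal]
      linarith [hG.al2]
    have h4 : (6 : ℝ) < ((∑ x ∈ (iJ G).filter (fun x => x.1 = v), wc G al x : ℕ) : ℝ) := by
      rw [Nat.cast_sum]
      linarith
    have h5 : 6 < ∑ x ∈ (iJ G).filter (fun x => x.1 = v), wc G al x := by exact_mod_cast h4
    have h6 : ((7 : ℕ) : ℝ) ≤ ((∑ x ∈ (iJ G).filter (fun x => x.1 = v), wc G al x : ℕ) : ℝ) := by
      exact_mod_cast h5
    rw [Nat.cast_sum] at h6
    push_cast at h6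
    exact h6
  · intro C hC
    have := wc_class71 G hG hC (hA C hC)
    have h2 : ((∑ x ∈ G.cJ C, wc G al x : ℕ) : ℝ) ≤
        ((3 * (G.cT C).card + (G.cI C).card : ℕ) : ℝ) := by exact_mod_cast this
    rw [Nat.cast_sum] at h2
    exact h2

end D

end

end Pool.Agent.PEN.W4
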