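import Pool.Agent.P4.B9c
import Pool.Agent.P4.W4_71
import Pool.Agent.P4.U11

/-! # PENNY, version 4: the units and the dispersed isoperimetry over `Geo4` -/

set_option autoImplicit false

namespace Pool.Agent.PEN

open Classical UpperHalfPlane

noncomputable section

section D
variable {V : Type} (G : Tg V) {al : ℝ} {kp : V → V → ℝ} {U : ℕ → ℝ}

theorem rot9_4 (hG : G.Geo4 al kp U) : G.Rot9 where
  inv := by
    intro v hv S hne hS a ha
    have hb : ¬ G.bd v := fun hb => hG.bdno v hv hb S hne hS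
    by_contra hna
    have h1 := hG.turn v hv hb S hne (fun c hc => G.sub (hS c hc).1) (fun c hc => (hS c hc).2)
    have h2 := hG.tot v hv hb
    have hinj : Set.InjOn (fun c : V => ((v, c) : V × V)) (S : Set V) := by
      intro c _ c' _ h
      exact congrArg Prod.snd h
    have h3 : ∑ c ∈ S, G.th v c = ∑ x ∈ S.image (fun c => ((v, c) : V × V)), G.th x.1 x.2 := by
      rw [Finset.sum_image hinj]
    have h4 : ∑ x ∈ S.image (fun c => ((v, c) : V × V)), G.th x.1 x.2 <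
        ∑ x ∈ G.D.filter (fun x => x.1 = v), G.th x.1 x.2 := by
      apply Finset.sum_lt_sum_of_subset (i := (v, a))
      · intro x hx
        obtain ⟨c, hc, rfl⟩ := Finset.mem_image.1 hx
        exact Finset.mem_filter.2 ⟨G.sub (hS c hc).1, rfl⟩
      · exact Finset.mem_filter.2 ⟨ha, rfl⟩
      · intro hx
        obtain ⟨c, hc, hc2⟩ := Finset.mem_image.1 hx
        have : c = a := congrArg Prod.snd hc2
        exact hna (this ▸ hc)
      · exact G.thpos _ _ (G.int1 _ _ hv hb ha)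
      · rintro ⟨x1, x2⟩ hx _
        obtain ⟨hx1, hx2⟩ := Finset.mem_filter.1 hx
        simp only at hx2
        subst hx2
        exact (G.thpos _ _ (G.int1 _ _ hv hb hx1)).le
    linarith
  ex := fun v hv => W4.con_ex66 G hG hv

theorem tot9_4 (hG : G.Geo4 al kp U) : ∀ v ∈ G.P, (¬ ∃ a, (v, a) ∈ G.oJ) →
    ∑ x ∈ G.D.filter (fun x => x.1 = v), G.th x.1 x.2 = 2 * Real.pi := by
  intro v hv h
  by_cases hb : G.bd v
  · exact absurd (W4.bd_oJ G hG hv hb) h
  · exact hG.tot v hv hb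

theorem wt_eq9_4 (hG : G.Geo4 al kp U) (x : V × V) : G.wt al x = wc G al x := by
  have h : G.gset x = gp G x := by
    unfold Tg.gset gp
    apply Finset.filter_congr
    rintro ⟨v, a⟩ hy
    rw [mem_iD27] at hy
    constructor
    · rintro ⟨h1, _, h3⟩
      exact ⟨h1, h3⟩
    · rintro ⟨h1, h3⟩
      refine ⟨h1, ?_, h3⟩
      simp only at h1
      rw [← h1]
      exact hasO9 G (rot9_4 G hG) hy
  unfold Tg.wt wc Tg.gp TH
  rw [h]

/-- row (U) over `Geo4` -/
theorem units_le4 (hG : G.Geo4 al kp U) :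
    ∑ x ∈ G.iJ, G.wt al x ≤ G.iD.card + G.iI.card := by
  have h1 : ∑ x ∈ G.iJ, G.wt al x = ∑ x ∈ iJ G, wc G al x :=
    Finset.sum_congr rfl (fun x _ => wt_eq9_4 G hG x)
  have h2 : ((∑ x ∈ iJ G, wc G al x : ℕ) : ℝ) =
      ((∑ C ∈ G.iC, ∑ x ∈ G.cJ C, wc G al x : ℕ) : ℝ) := by
    push_cast
    exact sum_iJ71 G (fun x => (wc G al x : ℝ))
  have h3 : ∑ x ∈ iJ G, wc G al x = ∑ C ∈ G.iC, ∑ x ∈ G.cJ C, wc G al x := by
    exact_mod_cast h2
  rw [h1, h3]
  calc ∑ C ∈ G.iC, ∑ x ∈ G.cJ C, wc G al x ≤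
      ∑ C ∈ G.iC, (3 * (G.cT C).card + (G.cI C).card) :=
        Finset.sum_le_sum (fun C hC => W4.wc_class71 G hG hC (hG.pol C (cB_of_iC66 G hC)))
    _ = G.iD.card + G.iI.card := by
        rw [Finset.sum_add_distrib, card_iD27, ← sum_cI66 G, Finset.mul_sum]

/-- **inequality (D)** -/
theorem D_ineq4 (hG : G.Geo4 al kp U) :
    7 * G.P.card ≤ 4 * G.oJ.card + (G.shp al).card + G.iD.card + G.iI.card := by
  have hpi := Real.pi_pos
  have h1 := units9 G (rot9_4 G hG) (al := al) (by have := hG.al1; linarith) hG.al2 hG.deg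
    (tot9_4 G hG)
  have h2 := units_le4 G hG
  omega

end D

/-- **the dichotomy for the area** -/
theorem disp_area4 {G : Tg ℍ} {d q : ℝ} {U : ℕ → ℝ} (hG : G.Geo4 (alpha d) kap U)
    (hD : DelG G d) (ha : 2 * alpha d ≤ Real.pi - g51 d)
    (hr : 2 * rho51 d (alpha d) ≤ g51 d) (hr0 : 0 ≤ rho51 d (alpha d))
    (hK : 2 * rho51 d (alpha d) ≤ 4 * Real.arcsin q)
    (hu : 2 * Real.arcsin (q * Real.tanh (d / 2)) ≤ g51 d - rho51 d (alpha d)) (hq : 0 ≤ q) :
    ∑ x ∈ G.iD, G.ar x.1 x.2 / 3 ≤ G.oJ.card * (2 * Real.arcsin (q * Real.tanh (d / 2))) ∨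
    ∑ x ∈ G.iD, G.ar x.1 x.2 / 3 ≤ G.oJ.card * g51 d -
      (4 * Real.arcsin q - 2 * rho51 d (alpha d)) -
      (G.shp (alpha d)).card * rho51 d (alpha d) := by
  have hpi := Real.pi_pos
  rw [W4.area_eq27 G hG]
  exact bdry_disp9 hD (rot9_4 G hG) (by have := hG.al1; linarith) ha hr hr0 hK hu hq

/-- `rho51` is nonnegative -/
theorem rho_nonneg9 {d : ℝ} (hd : 0 < d) (al : ℝ) : 0 ≤ rho51 d al := by
  have h1 : Real.tanh (d / 2) < 1 := Real.tanh_lt_one _
  have h0 : 0 < Real.tanh (d / 2) := by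
    rw [Real.tanh_eq_sinh_div_cosh]
    exact div_pos (Real.sinh_pos_iff.2 (by linarith)) (Real.cosh_pos _)
  have h2 := kt51_le h0 h1 al
  unfold rho51
  have : g51 d = 2 * Real.arcsin (Real.tanh (d / 2)) := rfl
  linarith

end

end Pool.Agent.PEN
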