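import Pool.Agent.P4.Pent66

/-! # Hyperbolic penny graphs: strong edges and the apex inequality of equilateral pentagons

Page: `MP_45fc25_E_P11_h19.md`. -/

set_option autoImplicit false

namespace Pool.Agent.PEN

open Classical UpperHalfPlane

noncomputable section

/-! ### Trigonometry, `c = cos α`, `C = c / (1 - c)` -/

theorem C_eq19 {d : ℝ} (hd : 0 < d) :
    Real.cosh d * (1 - Real.cos (alpha d)) = Real.cos (alpha d) := by
  have hC : 1 < Real.cosh d := Real.one_lt_cosh.2 hd.ne'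
  rw [cos_alpha hd]
  have hne : Real.cosh d + 1 ≠ 0 := by linarith
  field_simp
  ring

theorem c_gt19 {d : ℝ} (hd : 0 < d) : 1 / 2 < Real.cos (alpha d) := by
  have hC : 1 < Real.cosh d := Real.one_lt_cosh.2 hd.ne'
  rw [cos_alpha hd, div_lt_div_iff₀ (by norm_num) (by linarith)]
  linarith

theorem c_lt19 {d : ℝ} (hd : 0 < d) : Real.cos (alpha d) < 1 := by
  have hC : 1 < Real.cosh d := Real.one_lt_cosh.2 hd.ne'
  rw [cos_alpha hd, div_lt_one (by linarith)]
  linarith

/-- the distance of the ends of a chain of three contacts, angles `x` and `y` -/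
def F19 (d x y : ℝ) : ℝ := Real.cosh d ^ 3
      - Real.cosh d * Real.sinh d ^ 2 * (Real.cos x + Real.cos y)
      + Real.cosh d * Real.sinh d ^ 2 * (Real.cos x * Real.cos y)
      - Real.sinh d ^ 2 * (Real.sin x * Real.sin y)

theorem strong_alg19 {b g p q C X Y : ℝ} (hc1 : 1 / 2 < 2 * b ^ 2 - 1) (hc2 : 2 * b ^ 2 - 1 < 1)
    (b0 : 0 < b) (k1 : b ≤ g) (k2 : 2 * b ^ 2 - 1 ≤ b * g - p * q) (q0 : 0 ≤ q)
    (saw : 0 ≤ p * g - b * q) (hp : p ^ 2 = 1 - b ^ 2) (hq : q ^ 2 = 1 - g ^ 2)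
    (hD : (1 - b ^ 2) * C = (2 * b ^ 2 - 1) / 2)
    (E1 : X - Y = C ^ 3 - C ^ 2 + (C ^ 2 - 1) *
      (-2 * C * (2 * (2 * b ^ 2 - 1) ^ 2 - 1) * (2 * g ^ 2 - 1)
        + (C - 1) * (2 * g ^ 2 - 1) ^ 2
        - C * (1 - (2 * (2 * b ^ 2 - 1) ^ 2 - 1) ^ 2)
        + (2 * (2 * b ^ 2 - 1) ^ 2 - 1) ^ 2
        + (4 * (2 * b ^ 2 - 1) ^ 3 - 3 * (2 * b ^ 2 - 1)) * (2 * g ^ 2 - 1)
        + (4 * (2 * b ^ 2 - 1) ^ 2 - 1) * (2 * p * b * (2 * q * g)))) : Y ≤ X := by
  have E2 : (1 - b ^ 2) ^ 3 * (X - Y) =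
      (4 * b ^ 2 - 3) ^ 2 / 2 * q * (p * g - b * q) *
      (g * (b * g - p * q) - (2 * b ^ 2 - 1) * (4 * b ^ 2 - 3) * b) := by
    rw [E1]
    linear_combination ((1 + (-2 * (2 * (2 * b ^ 2 - 1) ^ 2 - 1) * (2 * g ^ 2 - 1)
        + (2 * g ^ 2 - 1) ^ 2 - (1 - (2 * (2 * b ^ 2 - 1) ^ 2 - 1) ^ 2))) *
        ((1 - b ^ 2) ^ 2 * C ^ 2 + (1 - b ^ 2) * C * ((2 * b ^ 2 - 1) / 2)
          + ((2 * b ^ 2 - 1) / 2) ^ 2)
      - (1 - b ^ 2) ^ 2 * (-2 * (2 * (2 * b ^ 2 - 1) ^ 2 - 1) * (2 * g ^ 2 - 1)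
        + (2 * g ^ 2 - 1) ^ 2 - (1 - (2 * (2 * b ^ 2 - 1) ^ 2 - 1) ^ 2))
      + ((-(2 * g ^ 2 - 1) ^ 2 + (2 * (2 * b ^ 2 - 1) ^ 2 - 1) ^ 2
        + (4 * (2 * b ^ 2 - 1) ^ 3 - 3 * (2 * b ^ 2 - 1)) * (2 * g ^ 2 - 1)
        + (4 * (2 * b ^ 2 - 1) ^ 2 - 1) * (2 * p * b * (2 * q * g))) - 1) * (1 - b ^ 2) *
        ((1 - b ^ 2) * C + (2 * b ^ 2 - 1) / 2)) * hD
      + (4 * b ^ 2 - 3) ^ 2 / 2 * (-(p * q * b * g) + g ^ 2 * (1 - b ^ 2)
        + b * (b * g ^ 2 - (2 * b ^ 2 - 1) * (4 * b ^ 2 - 3) * b)) * hq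
      + (4 * b ^ 2 - 3) ^ 2 / 2 * g ^ 2 * q ^ 2 * hp
  have P0 : 0 ≤ g * (b * g - p * q) - (2 * b ^ 2 - 1) * (4 * b ^ 2 - 3) * b := by
    have q1 : 0 < 2 * b ^ 2 - 1 := by linarith
    have q2 : (2 * b ^ 2 - 1) * b ≤ (b * g - p * q) * g :=
      mul_le_mul k2 k1 b0.le (le_trans q1.le k2)
    have q4 : 0 ≤ (2 * b ^ 2 - 1) * b := (mul_pos q1 b0).le
    have q3 : (2 * b ^ 2 - 1) * b * (4 * b ^ 2 - 3) ≤ (2 * b ^ 2 - 1) * b * 1 :=
      mul_le_mul_of_nonneg_left (by linarith) q4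
    linarith
  have P1 : 0 < (1 - b ^ 2) ^ 3 := by
    have : 0 < 1 - b ^ 2 := by linarith
    positivity
  have P2 : 0 ≤ (1 - b ^ 2) ^ 3 * (X - Y) := by
    rw [E2]
    exact mul_nonneg (mul_nonneg (mul_nonneg (by positivity) q0) saw) P0
  have P3 := nonneg_of_mul_nonneg_right P2 P1
  linarith

/-- chain with angles `x` and `4 α - x` -/
theorem F_strong19 {d : ℝ} (hd : 0 < d) {x : ℝ} (h1 : alpha d ≤ x) (h2 : x ≤ 2 * alpha d) :
    Real.cosh d * Real.cosh d - Real.sinh d * Real.sinh d * Real.cos (x + alpha d) ≤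
      F19 d x (4 * alpha d - x) := by
  have hc1 := c_gt19 hd
  have hc2 := c_lt19 hd
  have hCe := C_eq19 hd
  have hC : 1 < Real.cosh d := Real.one_lt_cosh.2 hd.ne'
  have hsq := Real.cosh_sq d
  have hal := alpha_lt hd
  have ha0 := alpha_pos hd
  have hp := Real.pi_pos
  obtain ⟨a, ha⟩ : ∃ a, alpha d = 2 * a := ⟨alpha d / 2, by ring⟩
  obtain ⟨w, hw⟩ : ∃ w, x = 2 * alpha d - 2 * w := ⟨(2 * alpha d - x) / 2, by ring⟩
  have w0 : 0 ≤ w := by linarith
  have w1 : w ≤ a := by linarith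
  have a1 : a < Real.pi / 6 := by linarith
  have hz : 4 * alpha d - x = 2 * (2 * a) + 2 * w := by rw [hw, ha]; ring
  have hx : x + alpha d = 2 * (2 * a) + 2 * a - 2 * w := by rw [hw, ha]; ring
  have hx' : x = 2 * (2 * a) - 2 * w := by rw [hw, ha]
  rw [ha] at hc1 hc2 hCe
  have sw0 : 0 ≤ Real.sin w := Real.sin_nonneg_of_nonneg_of_le_pi w0 (by linarith)
  have ca0 : 0 < Real.cos a := Real.cos_pos_of_mem_Ioo ⟨by linarith, by linarith⟩
  have cw0 : 0 < Real.cos w := Real.cos_pos_of_mem_Ioo ⟨by linarith, by linarith⟩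
  have saw : 0 ≤ Real.sin a * Real.cos w - Real.cos a * Real.sin w := by
    rw [← Real.sin_sub]
    exact Real.sin_nonneg_of_nonneg_of_le_pi (by linarith) (by linarith)
  have k1 : Real.cos a ≤ Real.cos w :=
    Real.cos_le_cos_of_nonneg_of_le_pi w0 (by linarith) w1
  have k2 : Real.cos (2 * a) ≤ Real.cos a * Real.cos w - Real.sin a * Real.sin w := by
    rw [← Real.cos_add]
    exact Real.cos_le_cos_of_nonneg_of_le_pi (by linarith) (by linarith) (by linarith)
  have c2a : Real.cos (2 * a) = 2 * Real.cos a ^ 2 - 1 := Real.cos_two_mul _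
  have s2a : Real.sin (2 * a) = 2 * Real.sin a * Real.cos a := Real.sin_two_mul _
  have c2w : Real.cos (2 * w) = 2 * Real.cos w ^ 2 - 1 := Real.cos_two_mul _
  have s2w : Real.sin (2 * w) = 2 * Real.sin w * Real.cos w := Real.sin_two_mul _
  have ja := Real.sin_sq_add_cos_sq a
  have jw := Real.sin_sq_add_cos_sq w
  have j2 := Real.sin_sq_add_cos_sq (2 * a)
  have jz := Real.sin_sq_add_cos_sq (2 * w)
  -- the two sides through `c = cos 2a`, `s = sin 2a`, `cz = cos 2w`, `sz = sin 2w`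
  have E1 : F19 d x (4 * alpha d - x) -
      (Real.cosh d * Real.cosh d - Real.sinh d * Real.sinh d * Real.cos (x + alpha d)) =
      Real.cosh d ^ 3 - Real.cosh d ^ 2 + Real.sinh d ^ 2 *
      (-2 * Real.cosh d * (2 * Real.cos (2 * a) ^ 2 - 1) * Real.cos (2 * w)
        + (Real.cosh d - 1) * Real.cos (2 * w) ^ 2
        - Real.cosh d * (1 - (2 * Real.cos (2 * a) ^ 2 - 1) ^ 2)
        + (2 * Real.cos (2 * a) ^ 2 - 1) ^ 2
        + (4 * Real.cos (2 * a) ^ 3 - 3 * Real.cos (2 * a)) * Real.cos (2 * w)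
        + (4 * Real.cos (2 * a) ^ 2 - 1) * (Real.sin (2 * a) * Real.sin (2 * w))) := by
    unfold F19
    rw [hz, hx, hx', Real.cos_sub, Real.cos_add, Real.sin_sub, Real.sin_add, Real.cos_sub,
      Real.cos_add (2 * (2 * a)), Real.sin_add (2 * (2 * a)), Real.cos_two_mul (2 * a),
      Real.sin_two_mul (2 * a)]
    generalize Real.cos (2 * a) = c at *
    generalize Real.sin (2 * a) = s at *
    generalize Real.cos (2 * w) = e at *
    generalize Real.sin (2 * w) = f at *
    generalize Real.cosh d = C at *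
    generalize Real.sinh d = S at *
    have hs : s ^ 2 = 1 - c ^ 2 := by linarith
    have hf : f ^ 2 = 1 - e ^ 2 := by linarith
    linear_combination S ^ 2 * (-4 * C * c ^ 2 * f ^ 2 - 4 * c ^ 2 * e ^ 2 - 2 * c * e) * hs +
      S ^ 2 * (-4 * C * c ^ 2 * (1 - c ^ 2) + (2 * c ^ 2 - 1) ^ 2) * hf
  have hS : Real.sinh d ^ 2 = Real.cosh d ^ 2 - 1 := by linarith
  rw [hS, s2w, s2a, c2w, c2a] at E1
  have hD : (1 - Real.cos a ^ 2) * Real.cosh d = (2 * Real.cos a ^ 2 - 1) / 2 := by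
    rw [c2a] at hCe
    linarith
  rw [c2a] at hc1 hc2 k2
  have hsa : Real.sin a ^ 2 = 1 - Real.cos a ^ 2 := by linarith
  have hsw : Real.sin w ^ 2 = 1 - Real.cos w ^ 2 := by linarith
  exact strong_alg19 hc1 hc2 ca0 k1 k2 sw0 saw hsa hsw hD E1

/-- chain with two angles in `[α, 2α]` -/
theorem F_apex19 {d : ℝ} (hd : 0 < d) {x y : ℝ} (hx : alpha d ≤ x) (hy : alpha d ≤ y)
    (hx2 : x ≤ 2 * alpha d) (hy2 : y ≤ 2 * alpha d) (hs : 3 * alpha d ≤ x + y) :
    Real.cosh d * Real.cosh d - Real.sinh d * Real.sinh d * Real.cos (x + y - 2 * alpha d) ≤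
      F19 d x y := by
  have hc1 := c_gt19 hd
  have hc2 := c_lt19 hd
  have hCe := C_eq19 hd
  have hC : 1 < Real.cosh d := Real.one_lt_cosh.2 hd.ne'
  have hsq := Real.cosh_sq d
  have hal := alpha_lt hd
  have ha0 := alpha_pos hd
  have hp := Real.pi_pos
  obtain ⟨a, ha⟩ : ∃ a, alpha d = 2 * a := ⟨alpha d / 2, by ring⟩
  obtain ⟨h, hh⟩ : ∃ h, h = (x + y) / 2 := ⟨_, rfl⟩
  obtain ⟨z, hz⟩ : ∃ z, z = (x - y) / 2 := ⟨_, rfl⟩
  have ex : x = h + z := by rw [hh, hz]; ring
  have ey : y = h - z := by rw [hh, hz]; ring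
  have es : x + y - 2 * alpha d = 2 * (h - alpha d) := by rw [hh]; ring
  have h1 : 3 * a ≤ h := by linarith
  have h2 : h ≤ 4 * a := by linarith
  -- `t0 ≤ t`
  have ht : Real.cos (h - alpha d) ≤ Real.cos z := by
    rw [← Real.cos_abs z]
    apply Real.cos_le_cos_of_nonneg_of_le_pi (abs_nonneg _) (by linarith)
    rw [abs_le]
    constructor <;> linarith
  have sh0 : 0 ≤ Real.sin h := Real.sin_nonneg_of_nonneg_of_le_pi (by linarith) (by linarith)
  have sa0 : 0 ≤ Real.sin (alpha d) :=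
    Real.sin_nonneg_of_nonneg_of_le_pi (by linarith) (by linarith)
  have et0 : Real.cos (h - alpha d) =
      Real.cos h * Real.cos (alpha d) + Real.sin h * Real.sin (alpha d) := Real.cos_sub _ _
  -- the key sign
  have hk : 0 ≤ (2 * Real.cos (alpha d) - 1) * (Real.sin (alpha d) * Real.sin h) -
      2 * Real.cos (alpha d) * (1 - Real.cos (alpha d)) * Real.cos h := by
    have q1 : 0 ≤ (2 * Real.cos (alpha d) - 1) * Real.sin (alpha d) :=
      mul_nonneg (by linarith) sa0
    have q2 : 0 ≤ 2 * Real.cos (alpha d) * (1 - Real.cos (alpha d)) :=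
      mul_nonneg (by linarith) (by linarith)
    rcases le_total (Real.cos h) 0 with hn | hpn
    · have q3 := mul_nonneg q1 sh0
      have q4 := mul_nonneg q2 (neg_nonneg.2 hn)
      linarith
    · have hh2 : h ≤ Real.pi / 2 := by
        by_contra hcon
        rw [not_le] at hcon
        have := Real.cos_neg_of_pi_div_two_lt_of_lt hcon (by linarith)
        linarith
      have q5 : Real.cos h ≤ Real.cos (3 * a) :=
        Real.cos_le_cos_of_nonneg_of_le_pi (by linarith) (by linarith) h1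
      have q6 : Real.sin (3 * a) ≤ Real.sin h :=
        Real.sin_le_sin_of_le_of_le_pi_div_two (by linarith) hh2 h1
      have c3 : Real.cos (3 * a) = 4 * Real.cos a ^ 3 - 3 * Real.cos a := Real.cos_three_mul _
      have s3 : Real.sin (3 * a) = 3 * Real.sin a - 4 * Real.sin a ^ 3 := Real.sin_three_mul _
      have ca0 : 0 < Real.cos a := Real.cos_pos_of_mem_Ioo ⟨by linarith, by linarith⟩
      have ja := Real.sin_sq_add_cos_sq a
      have c2a : Real.cos (alpha d) = 1 - 2 * Real.sin a ^ 2 := by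
        rw [ha, Real.cos_two_mul]
        linarith
      have s2a : Real.sin (alpha d) = 2 * Real.sin a * Real.cos a := by
        rw [ha, Real.sin_two_mul]
      have m1 := mul_le_mul_of_nonneg_left q6 q1
      have m2 := mul_le_mul_of_nonneg_left q5 q2
      have e : (2 * Real.cos (alpha d) - 1) * Real.sin (alpha d) * Real.sin (3 * a) -
          2 * Real.cos (alpha d) * (1 - Real.cos (alpha d)) * Real.cos (3 * a) =
          (2 * Real.cos (alpha d) - 1) * (1 - Real.cos (alpha d)) * Real.cos a := by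
        rw [c3, s3, s2a, c2a]
        have hb : Real.cos a ^ 2 = 1 - Real.sin a ^ 2 := by linarith
        generalize Real.sin a = p at *
        generalize Real.cos a = b at *
        linear_combination (-16 * p ^ 2 * b * (1 - 2 * p ^ 2)) * hb
      have q7 : 0 ≤ (2 * Real.cos (alpha d) - 1) * (1 - Real.cos (alpha d)) * Real.cos a :=
        mul_nonneg (mul_nonneg (by linarith) (by linarith)) ca0.le
      linarith
  -- algebra
  have cz2 := Real.sin_sq_add_cos_sq z
  have ch2 := Real.sin_sq_add_cos_sq h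
  have cA2 := Real.sin_sq_add_cos_sq (alpha d)
  have hF : F19 d x y = Real.cosh d ^ 3 - Real.cosh d * Real.sinh d ^ 2
      - 2 * Real.cosh d * Real.sinh d ^ 2 * Real.cos h * Real.cos z
      + Real.sinh d ^ 2 * (Real.cosh d - 1) * Real.cos z ^ 2
      + Real.sinh d ^ 2 * (Real.cosh d + 1) * Real.cos h ^ 2 := by
    unfold F19
    rw [ex, ey, Real.cos_add, Real.cos_sub, Real.sin_add, Real.sin_sub]
    have e1 : Real.sin z ^ 2 = 1 - Real.cos z ^ 2 := by linarith
    have e2 : Real.sin h ^ 2 = 1 - Real.cos h ^ 2 := by linarith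
    generalize Real.cos z = t at *
    generalize Real.sin z = t' at *
    generalize Real.cos h = H at *
    generalize Real.sin h = H' at *
    generalize Real.cosh d = C at *
    generalize Real.sinh d = S at *
    linear_combination (S ^ 2 * (-C * t' ^ 2 - t ^ 2)) * e2 +
      (S ^ 2 * (-C * (1 - H ^ 2) + H ^ 2)) * e1
  have hR : Real.cosh d * Real.cosh d - Real.sinh d * Real.sinh d *
      Real.cos (x + y - 2 * alpha d) = Real.cosh d ^ 2 - Real.sinh d ^ 2 *
        (2 * Real.cos (h - alpha d) ^ 2 - 1) := by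
    rw [es, Real.cos_two_mul]
    ring
  have hI : Real.cosh d ^ 3 - Real.cosh d * Real.sinh d ^ 2 - Real.cosh d ^ 2
      - Real.sinh d ^ 2 - 2 * Real.cosh d * Real.sinh d ^ 2 * Real.cos h *
        Real.cos (h - alpha d) + Real.sinh d ^ 2 * (Real.cosh d + 1) *
        Real.cos (h - alpha d) ^ 2 + Real.sinh d ^ 2 * (Real.cosh d + 1) *
        Real.cos h ^ 2 = 0 := by
    rw [et0]
    have e1 : Real.sin (alpha d) ^ 2 = 1 - Real.cos (alpha d) ^ 2 := by linarith
    have e2 : Real.sin h ^ 2 = 1 - Real.cos h ^ 2 := by linarith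
    have e3 : Real.sinh d ^ 2 = Real.cosh d ^ 2 - 1 := by linarith
    generalize Real.cos h = H at *
    generalize Real.sin h = H' at *
    generalize Real.cosh d = C at *
    generalize Real.sinh d = S at *
    generalize Real.cos (alpha d) = c at *
    generalize Real.sin (alpha d) = s at *
    linear_combination (-2 * S ^ 2 * H * (H * c + H' * s) + (C - 1) * (C + (C + 1) * c)) * hCe
      + S ^ 2 * (C + 1) * H' ^ 2 * e1 + S ^ 2 * (C + 1) * (1 - c ^ 2) * e2
      + (-(C + 1) * c ^ 2) * e3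
  have hS2 : 0 ≤ Real.sinh d ^ 2 := sq_nonneg _
  have hfin : F19 d x y - (Real.cosh d * Real.cosh d - Real.sinh d * Real.sinh d *
      Real.cos (x + y - 2 * alpha d)) = Real.sinh d ^ 2 *
      ((Real.cos z - Real.cos (h - alpha d)) * ((Real.cosh d - 1) *
        (Real.cos z + Real.cos (h - alpha d)) - 2 * Real.cosh d * Real.cos h)) := by
    rw [hF, hR]
    linear_combination hI
  have hpos : 0 ≤ (Real.cosh d - 1) * (Real.cos z + Real.cos (h - alpha d)) -
      2 * Real.cosh d * Real.cos h := by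
    have g1 : 0 ≤ (Real.cosh d - 1) * Real.cos (h - alpha d) - Real.cosh d * Real.cos h := by
      have g2 : (1 - Real.cos (alpha d)) * ((Real.cosh d - 1) * Real.cos (h - alpha d) -
          Real.cosh d * Real.cos h) = (2 * Real.cos (alpha d) - 1) *
          (Real.sin (alpha d) * Real.sin h) -
          2 * Real.cos (alpha d) * (1 - Real.cos (alpha d)) * Real.cos h := by
        rw [et0]
        linear_combination (Real.cos h * Real.cos (alpha d) + Real.sin h * Real.sin (alpha d)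
          - Real.cos h) * hCe
      rw [← g2] at hk
      exact nonneg_of_mul_nonneg_right hk (by linarith)
    have g3 := mul_le_mul_of_nonneg_left ht (by linarith : (0 : ℝ) ≤ Real.cosh d - 1)
    linarith
  have := mul_nonneg hS2 (mul_nonneg (sub_nonneg.2 ht) hpos)
  linarith

/-! ### Points of the hyperbolic plane -/

/-- a corner between two contact neighbours is at least `α` -/
theorem corner_ge19 {d : ℝ} (hd : 0 < d) {v a b : ℍ} (h1 : dist v a = d) (h2 : dist v b = d)
    (h3 : d ≤ dist a b) {t : ℝ} (e : ((ang v a b : ℝ) : Real.Angle) = (t : Real.Angle))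
    (t0 : 0 ≤ t) : alpha d ≤ t := by
  by_contra hlt
  rw [not_le] at hlt
  have na : a ≠ v := fun h => by rw [h, dist_self] at h1; linarith
  have nb : b ≠ v := fun h => by rw [h, dist_self] at h2; linarith
  have hl := cosh_law na nb
  have hcos : Real.cos (ang v a b) = Real.cos t := by
    have := congrArg Real.Angle.cos e
    rwa [Real.Angle.cos_coe, Real.Angle.cos_coe] at this
  rw [h1, h2, hcos] at hl
  have k1 : Real.cos (alpha d) < Real.cos t :=
    Real.cos_lt_cos_of_nonneg_of_le_pi t0 (alpha_le_pi39 d) hlt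
  have hC : 1 < Real.cosh d := Real.one_lt_cosh.2 hd.ne'
  have hsq := Real.cosh_sq d
  have k2 : Real.cosh d ≤ Real.cosh (dist a b) := by
    rw [Real.cosh_le_cosh, abs_of_pos hd, abs_of_nonneg dist_nonneg]
    exact h3
  rw [cos_alpha hd, div_lt_iff₀ (by linarith)] at k1
  have k3 : Real.sinh d * Real.sinh d = Real.cosh d ^ 2 - 1 := by linarith
  rw [k3] at hl
  nlinarith

/-- **the apex inequality** -/
theorem apex19 {d : ℝ} (hd : 0 < d) {A X Y B M : ℍ}
    (h1 : dist X A = d) (h2 : dist X Y = d) (h3 : dist Y B = d) (hXB : d ≤ dist X B)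
    (hAY : d ≤ dist A Y) (hAB : d ≤ dist A B)
    (h4 : dist M A = d) (h5 : dist M B = d) {tX tY tM : ℝ}
    (eX : ((ang X Y A : ℝ) : Real.Angle) = (tX : Real.Angle))
    (eY : ((ang Y B X : ℝ) : Real.Angle) = (tY : Real.Angle))
    (eM : ((ang M A B : ℝ) : Real.Angle) = (tM : Real.Angle))
    (pX : 0 ≤ tX) (pY : 0 ≤ tY) (bX : tX ≤ 2 * alpha d) (bY : tY ≤ 2 * alpha d)
    (bM0 : 0 ≤ tM) (bM : tM ≤ Real.pi) :
    tX + tY ≤ 2 * alpha d + tM := by
  have hX : alpha d ≤ tX := corner_ge19 hd h2 h1 (by rw [dist_comm]; exact hAY) eX pX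
  have hY : alpha d ≤ tY := corner_ge19 hd h3 (by rw [dist_comm]; exact h2)
    (by rw [dist_comm]; exact hXB) eY pY
  have hM : alpha d ≤ tM := corner_ge19 hd h4 h5 hAB eM bM0
  have hal := alpha_lt hd
  have hp := Real.pi_pos
  rcases le_total (3 * alpha d) (tX + tY) with hs | hs
  · have hF := F_apex19 hd hX hY bX bY hs
    have nB : B ≠ X := fun hh => by rw [hh, dist_self] at hXB; linarith
    have nMA : A ≠ M := fun hh => by rw [hh, dist_self] at h4; linarith
    have nMB : B ≠ M := fun hh => by rw [hh, dist_self] at h5; linarith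
    have hc := chain66 hd h1 h2 h3 nB
    have hm := cosh_law (v := M) (a := A) (b := B) nMA nMB
    rw [h4, h5] at hm
    have cX : Real.cos (ang X Y A) = Real.cos tX := by
      have := congrArg Real.Angle.cos eX
      rwa [Real.Angle.cos_coe, Real.Angle.cos_coe] at this
    have sX : Real.sin (ang X Y A) = Real.sin tX := by
      have := congrArg Real.Angle.sin eX
      rwa [Real.Angle.sin_coe, Real.Angle.sin_coe] at this
    have cY : Real.cos (ang Y B X) = Real.cos tY := by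
      have := congrArg Real.Angle.cos eY
      rwa [Real.Angle.cos_coe, Real.Angle.cos_coe] at this
    have sY : Real.sin (ang Y B X) = Real.sin tY := by
      have := congrArg Real.Angle.sin eY
      rwa [Real.Angle.sin_coe, Real.Angle.sin_coe] at this
    have cM : Real.cos (ang M A B) = Real.cos tM := by
      have := congrArg Real.Angle.cos eM
      rwa [Real.Angle.cos_coe, Real.Angle.cos_coe] at this
    rw [cX, sX, cY, sY] at hc
    rw [cM] at hm
    have hF2 : Real.cosh (dist A B) = F19 d tX tY := by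
      unfold F19
      exact hc
    rw [← hF2, hm] at hF
    have hS : 0 < Real.sinh d := Real.sinh_pos_iff.2 hd
    have hcc : Real.cos tM ≤ Real.cos (tX + tY - 2 * alpha d) := by
      by_contra hcon
      rw [not_le] at hcon
      have := mul_lt_mul_of_pos_left hcon (mul_pos hS hS)
      linarith
    by_contra hcon
    rw [not_le] at hcon
    have := Real.cos_lt_cos_of_nonneg_of_le_pi bM0
      (show tX + tY - 2 * alpha d ≤ Real.pi by linarith) (by linarith)
    linarith
  · linarith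

/-- the corners of the pentagon as angles between the two contact neighbours -/
theorem pentagon_coe19 {a b c p q : ℍ} (nab : b ≠ a) (nac : c ≠ a) (naq : q ≠ a)
    (nbp : p ≠ b) (nbc : c ≠ b) (ncq : q ≠ c) (ncp : p ≠ c) {ta tb tc : ℝ}
    (eta : ta = ang a b c + ang a c q) (etb : tb = ang b p c + ang b c a)
    (etc : tc = ang c q a + ang c a b + ang c b p) :
    ((ang a b q : ℝ) : Real.Angle) = (ta : Real.Angle) ∧
    ((ang b p a : ℝ) : Real.Angle) = (tb : Real.Angle) ∧
    ((ang c q p : ℝ) : Real.Angle) = (tc : Real.Angle) := by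
  refine ⟨?_, ?_, ?_⟩
  · rw [eta, Real.Angle.coe_add]
    exact ang_coe66 nab nac naq
  · rw [etb, Real.Angle.coe_add]
    exact ang_coe66 nbp nbc nab.symm
  · rw [etc, Real.Angle.coe_add, Real.Angle.coe_add, ← ang_coe66 ncq nac.symm nbc.symm]
    exact ang_coe66 ncq nbc.symm ncp

/-- **APEX**: two adjacent corners `≤ 2 α` of an equilateral pentagon have sum at most `2 α` plus
the opposite corner -/
theorem pentagon_apex19 {d : ℝ} (hd : 0 < d) (ha : 2 * Real.pi < 7 * alpha d) {a b c p q : ℍ}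
    (o1 : 0 < ori (kl a) (kl b) (kl c)) (o2 : 0 < ori (kl c) (kl b) (kl p))
    (o3 : 0 < ori (kl a) (kl c) (kl q)) (hab : dist a b = d) (hbp : dist b p = d)
    (hpc : dist p c = d) (hcq : dist c q = d) (hqa : dist q a = d)
    (hbc : d ≤ dist b c) (hca : d ≤ dist c a) (hap : d ≤ dist a p) (hbq : d ≤ dist b q)
    (hpq : d ≤ dist p q) {ta tb tc tp tq : ℝ} (eta : ta = ang a b c + ang a c q)
    (etb : tb = ang b p c + ang b c a) (etc : tc = ang c q a + ang c a b + ang c b p)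
    (etp : tp = ang p c b) (etq : tq = ang q a c) :
    (ta ≤ 2 * alpha d → tb ≤ 2 * alpha d → ta + tb ≤ 2 * alpha d + tc) ∧
    (tb ≤ 2 * alpha d → tp ≤ 2 * alpha d → tb + tp ≤ 2 * alpha d + tq) ∧
    (tp ≤ 2 * alpha d → tc ≤ 2 * alpha d → tp + tc ≤ 2 * alpha d + ta) ∧
    (tc ≤ 2 * alpha d → tq ≤ 2 * alpha d → tc + tq ≤ 2 * alpha d + tb) ∧
    (tq ≤ 2 * alpha d → ta ≤ 2 * alpha d → tq + ta ≤ 2 * alpha d + tp) := by
  obtain ⟨⟨pa, ba⟩, ⟨pb, bb⟩, ⟨pc, bc⟩, ⟨pp, bp⟩, ⟨pq, bq⟩, _⟩ :=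
    pentagon_corners66 hd ha o1 o2 o3 hab hbp hpc hcq hqa hbc hca hap hbq hpq eta etb etc etp etq
  have pos : ∀ {v x : ℍ}, d ≤ dist v x → x ≠ v := by
    intro v x h hh
    rw [hh, dist_self] at h
    linarith
  have hal := alpha_lt hd
  obtain ⟨Ea, Eb, Ec⟩ := pentagon_coe19 (a := a) (b := b) (c := c) (p := p) (q := q)
    (pos hab.ge) (pos (by rw [dist_comm]; exact hca)) (pos (by rw [dist_comm]; exact hqa.ge))
    (pos hbp.ge) (pos hbc) (pos hcq.ge) (pos (by rw [dist_comm]; exact hpc.ge)) eta etb etc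
  have Ep : ((ang p c b : ℝ) : Real.Angle) = (tp : Real.Angle) := by rw [etp]
  have Eq' : ((ang q a c : ℝ) : Real.Angle) = (tq : Real.Angle) := by rw [etq]
  have dba : dist b a = d := by rw [dist_comm]; exact hab
  have dpb : dist p b = d := by rw [dist_comm]; exact hbp
  have dcp : dist c p = d := by rw [dist_comm]; exact hpc
  have dqc : dist q c = d := by rw [dist_comm]; exact hcq
  have daq : dist a q = d := by rw [dist_comm]; exact hqa
  have hac : d ≤ dist a c := by rw [dist_comm]; exact hca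
  have hcb : d ≤ dist c b := by rw [dist_comm]; exact hbc
  have hpa : d ≤ dist p a := by rw [dist_comm]; exact hap
  have hqb : d ≤ dist q b := by rw [dist_comm]; exact hbq
  have hqp : d ≤ dist q p := by rw [dist_comm]; exact hpq
  refine ⟨?_, ?_, ?_, ?_, ?_⟩
  · intro h1 h2
    exact apex19 hd (A := q) (X := a) (Y := b) (B := p) (M := c) daq hab hbp hap hqb hqp hcq dcp
      Ea Eb Ec pa.le pb.le h1 h2 pc.le (by linarith)
  · intro h1 h2
    exact apex19 hd (A := a) (X := b) (Y := p) (B := c) (M := q) dba hbp hpc hbc hap hac hqa dqc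
      Eb Ep Eq' pb.le pp.le h1 h2 pq.le (by linarith)
  · intro h1 h2
    exact apex19 hd (A := b) (X := p) (Y := c) (B := q) (M := a) dpb hpc hcq hpq hbc hbq hab daq
      Ep Ec Ea pp.le pc.le h1 h2 pa.le (by linarith)
  · intro h1 h2
    exact apex19 hd (A := p) (X := c) (Y := q) (B := a) (M := b) dcp hcq hqa hca hpq hpa hbp dba
      Ec Eq' Eb pc.le pq.le h1 h2 pb.le (by linarith)
  · intro h1 h2
    exact apex19 hd (A := c) (X := q) (Y := a) (B := b) (M := p) dqc hqa hab hqb hca hcb hpc dpb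
      Eq' Ea Ep pq.le pa.le h1 h2 pp.le (by linarith)

end

end Pool.Agent.PEN
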