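import Pool.Agent.P4.W4_71
import Pool.Agent.P4.Pent66
import Pool.Agent.P4.DensC39
import Pool.Agent.P4.G71b

/-! # Hyperbolic penny graphs: the five gaps of a pentagon class -/

set_option autoImplicit false

namespace Pool.Agent.PEN

open Classical UpperHalfPlane

noncomputable section

section abs
variable {V : Type} (G : Tg V)

theorem sum_insert_le26 {ι : Type} [DecidableEq ι] (f : ι → ℕ) (a : ι) (S : Finset ι) :
    ∑ x ∈ insert a S, f x ≤ f a + ∑ x ∈ S, f x := by
  by_cases h : a ∈ S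
  · rw [Finset.insert_eq_of_mem h]
    exact Nat.le_add_left _ _
  · rw [Finset.sum_insert h]

/-- the nine darts of a pentagon class -/
theorem pent_class26 {C : G.adj.ConnectedComponent} (hB : G.cB C = ∅)
    (hm : (G.cT C).card = 3) (hI : (G.cI C).card = 4) :
    ∃ a b c : V, (b, c) ∈ G.cI C ∧ (c, a) ∈ G.cI C ∧ G.ap b c = a ∧ G.con a b ∧
      G.con b (G.ap c b) ∧ G.con (G.ap c b) c ∧ G.con c (G.ap a c) ∧ G.con (G.ap a c) a ∧
      (∀ x ∈ G.cI C, x = (b, c) ∨ x = (c, b) ∨ x = (c, a) ∨ x = (a, c)) ∧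
      (∀ x ∈ G.cJ C, x = (a, b) ∨ x = (b, G.ap c b) ∨ x = (G.ap c b, c) ∨ x = (c, G.ap a c) ∨
        x = (G.ap a c, a)) := by
  -- number of inner non-contact darts in each triangle
  set K : Finset V → ℕ := fun t => ((G.cI C).filter (fun x => G.tri x = t)).card with hK
  have hsum : ∑ t ∈ G.cT C, K t = 4 := by
    rw [← hI, hK]
    exact (Finset.card_eq_sum_card_fiberwise (fun x hx => mem_cT66 G (cI_sub11 G hx))).symm
  have hK1 : ∀ t ∈ G.cT C, 1 ≤ K t := by
    intro t ht
    obtain ⟨y, hy, hyt⟩ := exists_cI11 G ht (by omega)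
    exact Finset.card_pos.2 ⟨y, Finset.mem_filter.2 ⟨hy, hyt⟩⟩
  have hK2 : ∀ y ∈ G.cI C, ∀ z ∈ G.cI C, y ≠ z → G.tri z = G.tri y → 2 ≤ K (G.tri y) := by
    intro y hy z hz hyz h
    exact Finset.one_lt_card.2 ⟨y, Finset.mem_filter.2 ⟨hy, rfl⟩, z,
      Finset.mem_filter.2 ⟨hz, h⟩, hyz⟩
  -- one triangle has two such darts
  obtain ⟨y, hy, hy2⟩ : ∃ y ∈ G.cI C, (y.2, G.ap y.1 y.2) ∈ G.cI C := by
    obtain ⟨y, hy, z, hz, hyz, htr⟩ := Finset.exists_ne_map_eq_of_card_lt_of_maps_to
      (s := G.cI C) (t := G.cT C) (f := G.tri) (by omega)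
      (fun x hx => mem_cT66 G (cI_sub11 G hx))
    have hyp := ((mem_cD66 G).1 (cI_sub11 G hy)).1
    have hzp := ((mem_cD66 G).1 (cI_sub11 G hz)).1
    rcases (tri_eq_iff G hyp hzp).1 htr with h | h | h
    · exact absurd h.symm hyz
    · exact ⟨y, hy, by rw [← h]; exact hz⟩
    · refine ⟨z, hz, ?_⟩
      have e : (z.2, G.ap z.1 z.2) = y := by
        rw [h]
        dsimp only
        rw [G.ap4 _ _ hyp]
      rw [e]
      exact hy
  obtain ⟨b, c⟩ := y
  dsimp only at hy2
  obtain ⟨a, ha⟩ : ∃ a, a = G.ap b c := ⟨_, rfl⟩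
  rw [← ha] at hy2
  have hyD := cI_sub11 G hy
  have hy2D := cI_sub11 G hy2
  have hbc := ((mem_cD66 G).1 hyD).1
  have hca := ((mem_cD66 G).1 hy2D).1
  have hab : (a, b) ∈ G.Dp := by
    rw [ha]
    exact G.ap2 _ _ hbc
  have habD : (a, b) ∈ G.cD C := by
    rw [ha]
    exact rot_cD66' G hyD
  have hapab : G.ap a b = c := by
    rw [ha]
    exact G.ap4 _ _ hbc
  have hapca : G.ap c a = b := by
    rw [ha]
    exact G.ap3 _ _ hbc
  have n1 := G.ne _ _ (G.sub hbc)
  have n2 := G.ne _ _ (G.sub hca)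
  have n3 := G.ne _ _ (G.sub hab)
  have hcb : (c, b) ∈ G.cI C := swap_cD66 G hy
  have hac : (a, c) ∈ G.cI C := swap_cD66 G hy2
  have hcbD := cI_sub11 G hcb
  have hacD := cI_sub11 G hac
  have hcbp := ((mem_cD66 G).1 hcbD).1
  have hacp := ((mem_cD66 G).1 hacD).1
  have e1 : G.tri (b, c) = G.tri (a, b) := by
    rw [ha]
    exact (tri_rot66' G hbc).symm
  have e2 : G.tri (c, a) = G.tri (a, b) := by
    have := tri_rot66 G hbc
    dsimp only at this
    rw [← ha] at this
    rw [this, e1]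
  have t01 : G.tri (a, b) ≠ G.tri (c, b) := by
    rw [← e1]
    exact tri_swap66 G hbc hcbp
  have t02 : G.tri (a, b) ≠ G.tri (a, c) := by
    rw [← e2]
    exact tri_swap66 G hca hacp
  have hk0 : 2 ≤ K (G.tri (a, b)) := by
    rw [← e1]
    exact hK2 _ hy _ hy2 (fun h => n1 (congrArg Prod.fst h)) (by rw [e2, e1])
  have m0 := mem_cT66 G habD
  have m1 := mem_cT66 G hcbD
  have m2 := mem_cT66 G hacD
  have t12 : G.tri (c, b) ≠ G.tri (a, c) := by
    intro h
    have hk1 : 2 ≤ K (G.tri (c, b)) :=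
      hK2 _ hcb _ hac (fun h => n2 (congrArg Prod.fst h)) h.symm
    obtain ⟨s, hs, hs'⟩ : ∃ s ∈ G.cT C, s ∉ ({G.tri (a, b), G.tri (c, b)} : Finset (Finset V)) := by
      by_contra hcon
      push Not at hcon
      have := Finset.card_le_card (show G.cT C ⊆ {G.tri (a, b), G.tri (c, b)} from hcon)
      rw [hm, Finset.card_pair t01] at this
      omega
    rw [Finset.mem_insert, Finset.mem_singleton, not_or] at hs'
    have hsub : ({s, G.tri (a, b), G.tri (c, b)} : Finset (Finset V)) ⊆ G.cT C := by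
      intro t ht
      rw [Finset.mem_insert, Finset.mem_insert, Finset.mem_singleton] at ht
      rcases ht with rfl | rfl | rfl
      · exact hs
      · exact m0
      · exact m1
    have hle := Finset.sum_le_sum_of_subset (f := K) hsub
    rw [hsum, Finset.sum_insert (by
      rw [Finset.mem_insert, Finset.mem_singleton, not_or]
      exact hs'), Finset.sum_pair t01] at hle
    have := hK1 s hs
    omega
  have hT : ({G.tri (a, b), G.tri (c, b), G.tri (a, c)} : Finset (Finset V)) = G.cT C := by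
    apply Finset.eq_of_subset_of_card_le
    · intro t ht
      rw [Finset.mem_insert, Finset.mem_insert, Finset.mem_singleton] at ht
      rcases ht with rfl | rfl | rfl
      · exact m0
      · exact m1
      · exact m2
    · rw [hm, Finset.card_insert_of_notMem, Finset.card_pair t12]
      rw [Finset.mem_insert, Finset.mem_singleton, not_or]
      exact ⟨t01, t02⟩
  have hsum3 : K (G.tri (a, b)) + (K (G.tri (c, b)) + K (G.tri (a, c))) = 4 := by
    rw [← hsum, ← hT, Finset.sum_insert (by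
      rw [Finset.mem_insert, Finset.mem_singleton, not_or]
      exact ⟨t01, t02⟩), Finset.sum_pair t12]
  have k1 := hK1 _ m1
  have k2 := hK1 _ m2
  -- contact darts of the ears
  have ear : ∀ z ∈ G.cI C, K (G.tri z) = 1 → G.con z.2 (G.ap z.1 z.2) ∧
      G.con (G.ap z.1 z.2) z.1 := by
    intro z hz hk
    have hzD := cI_sub11 G hz
    have hzp := ((mem_cD66 G).1 hzD).1
    have z1 := G.ne _ _ (G.sub hzp)
    have z3 := G.ne _ _ (G.sub (G.ap2 _ _ hzp))
    constructor
    · by_contra hc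
      have h1 := mem_cI11 G hB (rot_cD66 G hzD) hc
      have h2 := hK2 z hz _ h1 (fun h => z1 (congrArg Prod.fst h)) (tri_rot66 G hzp)
      omega
    · by_contra hc
      have h1 := mem_cI11 G hB (rot_cD66' G hzD) hc
      have h2 := hK2 z hz _ h1 (fun h => z3 (congrArg Prod.fst h).symm) (tri_rot66' G hzp)
      omega
  have cab : G.con a b := by
    by_contra hc
    have h1 := mem_cI11 G hB habD hc
    have h3 : 3 ≤ K (G.tri (a, b)) := by
      have hsub : ({(a, b), (b, c), (c, a)} : Finset (V × V)) ⊆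
          (G.cI C).filter (fun x => G.tri x = G.tri (a, b)) := by
        intro t ht
        rw [Finset.mem_insert, Finset.mem_insert, Finset.mem_singleton] at ht
        rw [Finset.mem_filter]
        rcases ht with rfl | rfl | rfl
        · exact ⟨h1, rfl⟩
        · exact ⟨hy, e1⟩
        · exact ⟨hy2, e2⟩
      have h4 := Finset.card_le_card hsub
      rw [Finset.card_insert_of_notMem, Finset.card_pair] at h4
      · exact h4
      · intro h
        exact n1 (congrArg Prod.fst h)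
      · rw [Finset.mem_insert, Finset.mem_singleton, not_or]
        exact ⟨fun h => n3 (congrArg Prod.fst h), fun h => n2 (congrArg Prod.fst h).symm⟩
    omega
  obtain ⟨c1, c2⟩ := ear _ hcb (by omega)
  obtain ⟨c3, c4⟩ := ear _ hac (by omega)
  dsimp only at c1 c2 c3 c4
  have q1 := cI_ncon11 G hy
  have q2 := cI_ncon11 G hy2
  have q3 := cI_ncon11 G hcb
  have q4 := cI_ncon11 G hac
  dsimp only at q1 q2 q3 q4
  -- the nine darts
  have nine : ∀ x ∈ G.cD C, (x = (a, b) ∨ x = (b, c) ∨ x = (c, a)) ∨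
      (x = (c, b) ∨ x = (b, G.ap c b) ∨ x = (G.ap c b, c)) ∨
      (x = (a, c) ∨ x = (c, G.ap a c) ∨ x = (G.ap a c, a)) := by
    intro x hx
    have hxp := ((mem_cD66 G).1 hx).1
    have h1 := mem_cT66 G hx
    rw [← hT, Finset.mem_insert, Finset.mem_insert, Finset.mem_singleton] at h1
    rcases h1 with h | h | h
    · left
      have := (tri_eq_iff G hab hxp).1 h.symm
      dsimp only at this
      rw [hapab] at this
      exact this
    · right; left
      exact (tri_eq_iff G hcbp hxp).1 h.symm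
    · right; right
      exact (tri_eq_iff G hacp hxp).1 h.symm
  refine ⟨a, b, c, hy, hy2, ha.symm, cab, c1, c2, c3, c4, ?_, ?_⟩
  · intro x hx
    have hn := cI_ncon11 G hx
    rcases nine x (cI_sub11 G hx) with (h | h | h) | (h | h | h) | (h | h | h)
    · rw [h] at hn; exact absurd cab hn
    · exact Or.inl h
    · exact Or.inr (Or.inr (Or.inl h))
    · exact Or.inr (Or.inl h)
    · rw [h] at hn; exact absurd c1 hn
    · rw [h] at hn; exact absurd c2 hn
    · exact Or.inr (Or.inr (Or.inr h))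
    · rw [h] at hn; exact absurd c3 hn
    · rw [h] at hn; exact absurd c4 hn
  · intro x hx
    unfold Tg.cJ at hx
    rw [Finset.mem_filter] at hx
    have hn := hx.2.2
    rcases nine x ((mem_cD66 G).2 ⟨hx.1, hx.2.1⟩) with (h | h | h) | (h | h | h) | (h | h | h)
    · exact Or.inl h
    · rw [h] at hn; exact absurd hn q1
    · rw [h] at hn; exact absurd hn q2
    · rw [h] at hn; exact absurd hn q3
    · exact Or.inr (Or.inl h)
    · exact Or.inr (Or.inr (Or.inl h))
    · rw [h] at hn; exact absurd hn q4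
    · exact Or.inr (Or.inr (Or.inr (Or.inl h)))
    · exact Or.inr (Or.inr (Or.inr (Or.inr h)))

theorem TH_le26 {x : V × V} {S : Finset (V × V)} (h : gp G x ⊆ S) (hS : ∀ y ∈ S, y ∈ G.Dp) :
    TH G x ≤ ∑ y ∈ S, G.th y.1 y.2 := by
  unfold TH
  exact Finset.sum_le_sum_of_subset_of_nonneg h (fun y hy _ => (G.thpos _ _ (hS y hy)).le)

end abs

section conc
variable {G : Tg ℍ} {d : ℝ}

/-- **the pentagon hypothesis**, with the facts used on the structure -/
theorem pent_sum26 (hD : DelG G d) (h7 : 2 * Real.pi < 7 * alpha d)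
    (hturn : ∀ v ∈ G.P, ¬ G.bd v → ∀ S : Finset ℍ, S.Nonempty → (∀ a ∈ S, (v, a) ∈ G.D) →
      (∀ a ∈ S, G.ap v a ∈ S) → 2 * Real.pi ≤ ∑ a ∈ S, G.th v a)
    (hbdno : ∀ v ∈ G.P, G.bd v → ∀ S : Finset ℍ, S.Nonempty →
      ¬ (∀ a ∈ S, (v, a) ∈ G.Dp ∧ G.ap v a ∈ S))
    (hS : ∀ x ∈ G.P, ∀ y ∈ G.P, x ≠ y → d ≤ dist x y)
    {C : G.adj.ConnectedComponent} (hB : G.cB C = ∅)
    (hgp : ∀ x ∈ G.cJ C, gp G x ⊆ insert x ((G.cI C).filter (fun y => y.1 = x.1)))
    (hm : (G.cT C).card = 3) (hI : (G.cI C).card = 4) :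
    ∑ x ∈ G.cJ C, wc G (alpha d) x ≤ 12 := by
  obtain ⟨a, b, c, h1, h2, ha, cab, cbp, cpc, ccq, cqa, hI4, hJ5⟩ := pent_class26 G hB hm hI
  obtain ⟨p, hp⟩ : ∃ p, p = G.ap c b := ⟨_, rfl⟩
  obtain ⟨q, hq⟩ : ∃ q, q = G.ap a c := ⟨_, rfl⟩
  rw [← hp] at cbp cpc
  rw [← hq] at ccq cqa
  rw [← hp, ← hq] at hJ5
  have hbc := ((mem_cD66 G).1 (cI_sub11 G h1)).1
  have hca := ((mem_cD66 G).1 (cI_sub11 G h2)).1
  have hcb := cI_swap11 G h1
  have hac := cI_swap11 G h2
  dsimp only at hcb hac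
  have hab : (a, b) ∈ G.Dp := by
    rw [← ha]
    exact G.ap2 _ _ hbc
  have eab : G.ap a b = c := by
    rw [← ha]
    exact G.ap4 _ _ hbc
  have eca : G.ap c a = b := by
    rw [← ha]
    exact G.ap3 _ _ hbc
  have hbp : (b, p) ∈ G.Dp := by
    rw [hp]
    exact G.ap1 _ _ hcb
  have hpc : (p, c) ∈ G.Dp := by
    rw [hp]
    exact G.ap2 _ _ hcb
  have ebp : G.ap b p = c := by
    rw [hp]
    exact G.ap3 _ _ hcb
  have epc : G.ap p c = b := by
    rw [hp]
    exact G.ap4 _ _ hcb
  have hcq : (c, q) ∈ G.Dp := by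
    rw [hq]
    exact G.ap1 _ _ hac
  have hqa : (q, a) ∈ G.Dp := by
    rw [hq]
    exact G.ap2 _ _ hac
  have ecq : G.ap c q = a := by
    rw [hq]
    exact G.ap3 _ _ hac
  have eqa : G.ap q a = c := by
    rw [hq]
    exact G.ap4 _ _ hac
  have nbc := G.ne _ _ (G.sub hbc)
  have nca := G.ne _ _ (G.sub hca)
  have nab := G.ne _ _ (G.sub hab)
  have nbp := G.ne _ _ (G.sub hbp)
  have npc := G.ne _ _ (G.sub hpc)
  have ncq := G.ne _ _ (G.sub hcq)
  have nqa := G.ne _ _ (G.sub hqa)
  have nap : a ≠ p := by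
    rw [hp, ← ha]
    exact G.ap5 _ _ hbc hcb
  have nbq : b ≠ q := by
    rw [hq, ← eca]
    exact G.ap5 _ _ hca hac
  have Pa := G.mem _ _ (G.sub hab)
  have Pb := G.mem _ _ (G.sub hbc)
  have Pc := G.mem _ _ (G.sub hca)
  have Pp := G.mem _ _ (G.sub hpc)
  have Pq := G.mem _ _ (G.sub hqa)
  have hd := hD.hd
  have hal : 0 < alpha d := alpha_pos hd
  -- angles
  have tab : G.th a b = ang a b c := by rw [hD.th _ _ hab, eab]
  have tac : G.th a c = ang a c q := by rw [hD.th _ _ hac, ← hq]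
  have tbp : G.th b p = ang b p c := by rw [hD.th _ _ hbp, ebp]
  have tbc : G.th b c = ang b c a := by rw [hD.th _ _ hbc, ha]
  have tpc : G.th p c = ang p c b := by rw [hD.th _ _ hpc, epc]
  have tcq : G.th c q = ang c q a := by rw [hD.th _ _ hcq, ecq]
  have tca : G.th c a = ang c a b := by rw [hD.th _ _ hca, eca]
  have tcb : G.th c b = ang c b p := by rw [hD.th _ _ hcb, ← hp]
  have tqa : G.th q a = ang q a c := by rw [hD.th _ _ hqa, eqa]
  -- the two ears are different
  have npq : p ≠ q := by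
    intro hpq
    obtain ⟨S, hSd⟩ : ∃ S : Finset ℍ, S = {a, b, p} := ⟨_, rfl⟩
    have hcpD : (c, p) ∈ G.Dp := by
      rw [hpq]
      exact hcq
    have hinv : ∀ x ∈ S, (c, x) ∈ G.Dp ∧ G.ap c x ∈ S := by
      intro x hx
      rw [hSd, Finset.mem_insert, Finset.mem_insert, Finset.mem_singleton] at hx
      rw [hSd]
      rcases hx with rfl | rfl | rfl
      · refine ⟨hca, ?_⟩
        rw [eca]
        simp
      · refine ⟨hcb, ?_⟩
        rw [← hp]
        simp
      · refine ⟨hcpD, ?_⟩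
        rw [hpq, ecq]
        simp
    have hne : S.Nonempty := ⟨a, by rw [hSd]; simp⟩
    have hnb : ¬ G.bd c := fun hb => hbdno c Pc hb S hne hinv
    have h3 := hturn c Pc hnb S hne (fun x hx => G.sub (hinv x hx).1) (fun x hx => (hinv x hx).2)
    rw [hSd, Finset.sum_insert (by
      rw [Finset.mem_insert, Finset.mem_singleton, not_or]
      exact ⟨nab, nap⟩), Finset.sum_pair nbp, tca, tcb] at h3
    have tcp : G.th c p = ang c p a := by
      rw [hD.th _ _ hcpD, hpq, ecq]
    rw [tcp] at h3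
    have v1 := visual66 hd (hD.con _ _ cab) (hS c Pc a Pa nca) (hS c Pc b Pb nbc.symm)
    have v2 := visual66 hd (hD.con _ _ cbp) (hS c Pc b Pb nbc.symm) (hS c Pc p Pp npc.symm)
    have v3 := visual66 hd (hD.con _ _ cqa) (hS c Pc q Pq ncq) (hS c Pc a Pa nca)
    rw [← hpq] at v3
    have v1' := (abs_le.1 v1).2
    have v2' := (abs_le.1 v2).2
    have v3' := (abs_le.1 v3).2
    have h4 : alpha d ≤ Real.pi / 2 := by
      unfold alpha
      rw [Real.arccos_le_pi_div_two]
      have t0 : ∀ x : ℝ, 0 < x → 0 < Real.tanh x := by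
        intro x hx
        rw [Real.tanh_eq_sinh_div_cosh]
        exact div_pos (Real.sinh_pos_iff.2 hx) (Real.cosh_pos x)
      exact (div_pos (t0 _ (by linarith)) (t0 _ hd)).le
    have h5 := Real.pi_pos
    linarith
  -- the gaps
  have two : ∀ x ∈ G.cJ C, ∀ S : Finset (ℍ × ℍ), (∀ y ∈ S, y ∈ G.Dp) → x ∈ S →
      (∀ y, (y = (b, c) ∨ y = (c, b) ∨ y = (c, a) ∨ y = (a, c)) → y.1 = x.1 → y ∈ S) →
      TH G x ≤ ∑ y ∈ S, G.th y.1 y.2 := by
    intro x hx S k1 k2 k3
    refine TH_le26 G (fun y hy => ?_) k1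
    have k4 := hgp x hx hy
    rw [Finset.mem_insert, Finset.mem_filter] at k4
    rcases k4 with k4 | ⟨k4, k5⟩
    · rw [k4]
      exact k2
    · exact k3 y (hI4 y k4) k5
  have G1 : (a, b) ∈ G.cJ C → TH G (a, b) ≤ ang a b c + ang a c q := by
    intro hx
    have h3 := two _ hx {(a, b), (a, c)} (by
      intro y hy
      rw [Finset.mem_insert, Finset.mem_singleton] at hy
      rcases hy with rfl | rfl
      · exact hab
      · exact hac) (by simp) (by
      rintro y (rfl | rfl | rfl | rfl) hy1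
      · exact absurd hy1.symm nab
      · exact absurd hy1 nca
      · exact absurd hy1 nca
      · simp)
    rw [Finset.sum_pair (fun h => nbc (congrArg Prod.snd h)), tab, tac] at h3
    exact h3
  have G2 : (b, p) ∈ G.cJ C → TH G (b, p) ≤ ang b p c + ang b c a := by
    intro hx
    have h3 := two _ hx {(b, p), (b, c)} (by
      intro y hy
      rw [Finset.mem_insert, Finset.mem_singleton] at hy
      rcases hy with rfl | rfl
      · exact hbp
      · exact hbc) (by simp) (by
      rintro y (rfl | rfl | rfl | rfl) hy1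
      · simp
      · exact absurd hy1.symm nbc
      · exact absurd hy1.symm nbc
      · exact absurd hy1 nab)
    rw [Finset.sum_pair (fun h => npc (congrArg Prod.snd h)), tbp, tbc] at h3
    exact h3
  have G3 : (p, c) ∈ G.cJ C → TH G (p, c) ≤ ang p c b := by
    intro hx
    have h3 := two _ hx {(p, c)} (by
      intro y hy
      rw [Finset.mem_singleton] at hy
      rw [hy]
      exact hpc) (by simp) (by
      rintro y (rfl | rfl | rfl | rfl) hy1
      · exact absurd hy1 nbp
      · exact absurd hy1.symm npc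
      · exact absurd hy1.symm npc
      · exact absurd hy1 nap)
    rw [Finset.sum_singleton, tpc] at h3
    exact h3
  have G4 : (c, q) ∈ G.cJ C → TH G (c, q) ≤ ang c q a + ang c a b + ang c b p := by
    intro hx
    have h3 := two _ hx {(c, q), (c, a), (c, b)} (by
      intro y hy
      rw [Finset.mem_insert, Finset.mem_insert, Finset.mem_singleton] at hy
      rcases hy with rfl | rfl | rfl
      · exact hcq
      · exact hca
      · exact hcb) (by simp) (by
      rintro y (rfl | rfl | rfl | rfl) hy1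
      · exact absurd hy1 nbc
      · simp
      · simp
      · exact absurd hy1.symm nca)
    rw [Finset.sum_insert (by
      rw [Finset.mem_insert, Finset.mem_singleton, not_or]
      exact ⟨fun h => nqa (congrArg Prod.snd h), fun h => nbq (congrArg Prod.snd h).symm⟩),
      Finset.sum_pair (fun h => nab (congrArg Prod.snd h)), tcq, tca, tcb, ← add_assoc] at h3
    exact h3
  have G5 : (q, a) ∈ G.cJ C → TH G (q, a) ≤ ang q a c := by
    intro hx
    have h3 := two _ hx {(q, a)} (by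
      intro y hy
      rw [Finset.mem_singleton] at hy
      rw [hy]
      exact hqa) (by simp) (by
      rintro y (rfl | rfl | rfl | rfl) hy1
      · exact absurd hy1 nbq
      · exact absurd hy1 ncq
      · exact absurd hy1 ncq
      · exact absurd hy1.symm nqa)
    rw [Finset.sum_singleton, tqa] at h3
    exact h3
  -- the sum
  have cl : ∀ {s t : ℝ}, s ≤ t → ⌈s / alpha d⌉₊ ≤ ⌈t / alpha d⌉₊ := fun hst =>
    Nat.ceil_le_ceil (div_le_div_of_nonneg_right hst hal.le)
  have key := pentagon_ceil66 hd h7 (a := a) (b := b) (c := c) (p := p) (q := q)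
    (by have := hD.ori _ _ hab; rw [eab] at this; exact this)
    (by have := hD.ori _ _ hcb; rw [← hp] at this; exact this)
    (by have := hD.ori _ _ hac; rw [← hq] at this; exact this)
    (hD.con _ _ cab) (hD.con _ _ cbp) (hD.con _ _ cpc) (hD.con _ _ ccq) (hD.con _ _ cqa)
    (hS b Pb c Pc nbc) (hS c Pc a Pa nca) (hS a Pa p Pp nap) (hS b Pb q Pq nbq) (hS p Pp q Pq npq)
  -- a function that bounds the weights
  obtain ⟨J, hJ⟩ : ∃ J : ℍ × ℍ → ℕ, J = fun x => if x ∈ G.cJ C then wc G (alpha d) x else 0 :=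
    ⟨_, rfl⟩
  have hsum : ∑ x ∈ G.cJ C, wc G (alpha d) x ≤
      J (a, b) + (J (b, p) + (J (p, c) + (J (c, q) + J (q, a)))) := by
    have h3 : ∑ x ∈ G.cJ C, wc G (alpha d) x = ∑ x ∈ G.cJ C, J x := by
      refine Finset.sum_congr rfl fun x hx => ?_
      rw [hJ]
      simp only [hx, if_true]
    have h4 : G.cJ C ⊆ {(a, b), (b, p), (p, c), (c, q), (q, a)} := by
      intro x hx
      simp only [Finset.mem_insert, Finset.mem_singleton]
      exact hJ5 x hx
    rw [h3]
    calc ∑ x ∈ G.cJ C, J x ≤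
        ∑ x ∈ ({(a, b), (b, p), (p, c), (c, q), (q, a)} : Finset (ℍ × ℍ)), J x :=
          Finset.sum_le_sum_of_subset h4
      _ ≤ J (a, b) + (J (b, p) + (J (p, c) + (J (c, q) + J (q, a)))) := by
          refine (sum_insert_le26 J _ _).trans (Nat.add_le_add_left ?_ _)
          refine (sum_insert_le26 J _ _).trans (Nat.add_le_add_left ?_ _)
          refine (sum_insert_le26 J _ _).trans (Nat.add_le_add_left ?_ _)
          refine (sum_insert_le26 J _ _).trans (Nat.add_le_add_left ?_ _)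
          rw [Finset.sum_singleton]
  have jb : ∀ x : ℍ × ℍ, ∀ t : ℝ, (x ∈ G.cJ C → TH G x ≤ t) → J x ≤ ⌈t / alpha d⌉₊ := by
    intro x t h3
    rw [hJ]
    by_cases h4 : x ∈ G.cJ C
    · simp only [h4, if_true]
      exact cl (h3 h4)
    · simp only [h4, if_false]
      exact Nat.zero_le _
  have j1 := jb _ _ G1
  have j2 := jb _ _ G2
  have j3 := jb _ _ G3
  have j4 := jb _ _ G4
  have j5 := jb _ _ G5
  omega

variable {kp : ℍ → ℍ → ℝ} {U : ℕ → ℝ}

/-- **the pentagon hypothesis** of inequality B (structure `Geo`) -/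
theorem hP26 (hG : G.Geo (alpha d) kp U) (hD : DelG G d)
    (hS : ∀ x ∈ G.P, ∀ y ∈ G.P, x ≠ y → d ≤ dist x y) :
    ∀ C ∈ G.iC, (G.cT C).card = 3 → (G.cI C).card = 4 →
      ∑ x ∈ G.cJ C, wc G (alpha d) x ≤ 12 := fun _ hC hm hI =>
  pent_sum26 hD hG.al1 hG.turn hG.bdno hS (cB_of_iC66 G hC)
    (fun _ hx => gp_sub71 G hG hC hx) hm hI

/-- **the pentagon hypothesis** of inequality B (structure `Geo4`) -/
theorem W4.hP26 (hG : G.Geo4 (alpha d) kp U) (hD : DelG G d)
    (hS : ∀ x ∈ G.P, ∀ y ∈ G.P, x ≠ y → d ≤ dist x y) :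
    ∀ C ∈ G.iC, (G.cT C).card = 3 → (G.cI C).card = 4 →
      ∑ x ∈ G.cJ C, wc G (alpha d) x ≤ 12 := fun _ hC hm hI =>
  pent_sum26 hD hG.al1 hG.turn hG.bdno hS (cB_of_iC66 G hC)
    (fun _ hx => W4.gp_sub71 G hG hC hx) hm hI

end conc

end

end Pool.Agent.PEN
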