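import Pool.Agent.P4.Str66

/-! # Hyperbolic penny graphs: adjacent corners of equilateral pentagons, geometric form

In an equilateral pentagon of side `d` all whose diagonals are at least `d`, every corner is
between `α` and `3 α` and the sum of two adjacent corners is at most `4 α`. -/

set_option autoImplicit false

namespace Pool.Agent.PEN

open Classical UpperHalfPlane

noncomputable section

theorem rel66 {d : ℝ} (hd : 0 < d) {A X Y B M : ℍ}
    (h1 : dist X A = d) (h2 : dist X Y = d) (h3 : dist Y B = d) (hXB : d ≤ dist X B)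
    (h4 : dist M A = d) (h5 : dist M B = d) {tX tY tM : ℝ}
    (eX : ((ang X Y A : ℝ) : Real.Angle) = (tX : Real.Angle))
    (eY : ((ang Y B X : ℝ) : Real.Angle) = (tY : Real.Angle))
    (eM : ((ang M A B : ℝ) : Real.Angle) = (tM : Real.Angle)) :
    FF66 d tX tY = GG66 d tM ∧ Real.cosh (dist A B) = GG66 d tM := by
  have hXB0 : 0 < dist X B := lt_of_lt_of_le hd hXB
  have nB : B ≠ X := fun hh => by rw [hh, dist_self] at hXB0; exact lt_irrefl _ hXB0
  have nMA : A ≠ M := fun hh => by rw [hh, dist_self] at h4; linarith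
  have nMB : B ≠ M := fun hh => by rw [hh, dist_self] at h5; linarith
  have hc := chain66 hd h1 h2 h3 nB
  have hm := cosh_law (v := M) (a := A) (b := B) nMA nMB
  rw [h4, h5] at hm
  have cX : Real.cos (ang X Y A) = Real.cos tX := by
    have := congrArg Real.Angle.cos eX
    rwa [Real.Angle.cos_coe, Real.Angle.cos_coe] at this
  have sX : Real.sin (ang X Y A) = Real.sin tX := by
    have := congrArg Real.Angle.sin eX
    rwa [Real.Angle.sin_coe, Real.Angle.sin_coe] at this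
  have cY : Real.cos (ang Y B X) = Real.cos tY := by
    have := congrArg Real.Angle.cos eY
    rwa [Real.Angle.cos_coe, Real.Angle.cos_coe] at this
  have sY : Real.sin (ang Y B X) = Real.sin tY := by
    have := congrArg Real.Angle.sin eY
    rwa [Real.Angle.sin_coe, Real.Angle.sin_coe] at this
  have cM : Real.cos (ang M A B) = Real.cos tM := by
    have := congrArg Real.Angle.cos eM
    rwa [Real.Angle.cos_coe, Real.Angle.cos_coe] at this
  rw [cX, sX, cY, sY] at hc
  rw [cM] at hm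
  have e : Real.cosh (dist A B) = GG66 d tM := hm
  exact ⟨by rw [← e]; exact hc.symm, e⟩

theorem GG_alpha66 {d : ℝ} (hd : 0 < d) : GG66 d (alpha d) = Real.cosh d := by
  unfold GG66
  rw [cos_alpha hd]
  have hC : 1 < Real.cosh d := Real.one_lt_cosh.2 hd.ne'
  have e : Real.sinh d * Real.sinh d = Real.cosh d ^ 2 - 1 := by
    have := Real.cosh_sq d
    nlinarith
  have hne : Real.cosh d + 1 ≠ 0 := by linarith
  rw [e]
  field_simp
  ring

theorem pairS66 {d : ℝ} (hd : 0 < d) {X Y M A B : ℝ} (hX : alpha d ≤ X)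
    (hX1 : X ≤ 3 * alpha d) (hY : alpha d ≤ Y) (hY1 : Y ≤ 3 * alpha d) (hM : alpha d ≤ M)
    (hM1 : M ≤ 3 * alpha d) (hA : alpha d ≤ A) (hA1 : A ≤ 3 * alpha d) (hB : alpha d ≤ B)
    (hB1 : B ≤ 3 * alpha d) (hq : Real.pi / 2 ≤ 2 * alpha d)
    (hno : ¬ (2 * alpha d < X ∧ 2 * alpha d < Y))
    (e1 : FF66 d X Y = GG66 d M) (e2 : FF66 d M A = GG66 d Y) (e3 : FF66 d B M = GG66 d X) :
    X + Y ≤ 4 * alpha d := by
  by_cases h1 : 2 * alpha d < X
  · have h2 : Y ≤ 2 * alpha d := not_lt.1 fun h => hno ⟨h1, h⟩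
    exact strong_real66 hd h1 hX1 hY h2 hM hM1 hA hA1 hq e1 e2
  · by_cases h2 : 2 * alpha d < Y
    · have := strong_real66 hd h2 hY1 hX (not_lt.1 h1) hM hM1 hB hB1 hq
        (by rw [FF_comm66]; exact e1) (by rw [FF_comm66]; exact e3)
      linarith
    · linarith

/-- lower bounds and sums of adjacent angles of the pentagon: middle triangle `a b c`, ears
`c b p` and `a c q` -/
theorem pentagon_strong66 {d : ℝ} (hd : 0 < d) (ha : 2 * Real.pi < 7 * alpha d)
    {a b c p q : ℍ}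
    (o1 : 0 < ori (kl a) (kl b) (kl c)) (o2 : 0 < ori (kl c) (kl b) (kl p))
    (o3 : 0 < ori (kl a) (kl c) (kl q)) (hab : dist a b = d) (hbp : dist b p = d)
    (hpc : dist p c = d) (hcq : dist c q = d) (hqa : dist q a = d)
    (hbc : d ≤ dist b c) (hca : d ≤ dist c a) (hap : d ≤ dist a p) (hbq : d ≤ dist b q)
    (hpq : d ≤ dist p q) {ta tb tc tp tq : ℝ} (eta : ta = ang a b c + ang a c q)
    (etb : tb = ang b p c + ang b c a) (etc : tc = ang c q a + ang c a b + ang c b p)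
    (etp : tp = ang p c b) (etq : tq = ang q a c) :
    (alpha d ≤ ta ∧ alpha d ≤ tb ∧ alpha d ≤ tc ∧ alpha d ≤ tp ∧ alpha d ≤ tq) ∧
    ta + tb ≤ 4 * alpha d ∧ tb + tp ≤ 4 * alpha d ∧ tp + tc ≤ 4 * alpha d ∧
    tc + tq ≤ 4 * alpha d ∧ tq + ta ≤ 4 * alpha d := by
  obtain ⟨⟨a0, a3⟩, ⟨b0, b3⟩, ⟨c0, c3⟩, ⟨p0, p3⟩, ⟨q0, q3⟩, n1, n2, n3, n4, n5⟩ :=
    pentagon_corners66 hd ha o1 o2 o3 hab hbp hpc hcq hqa hbc hca hap hbq hpq eta etb etc etp etq
  have hp0 := Real.pi_pos
  have hal := alpha_lt hd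
  have hal0 := alpha_pos hd
  have pos : ∀ {v x : ℍ}, d ≤ dist v x → x ≠ v := by
    intro v x h hh
    rw [hh, dist_self] at h
    linarith
  have nab : b ≠ a := pos hab.ge
  have nac : c ≠ a := pos (by rw [dist_comm]; exact hca)
  have naq : q ≠ a := pos (by rw [dist_comm]; exact hqa.ge)
  have nbp : p ≠ b := pos hbp.ge
  have nbc : c ≠ b := pos hbc
  have ncp : p ≠ c := pos (by rw [dist_comm]; exact hpc.ge)
  have ncq : q ≠ c := pos hcq.ge
  have Ea : ((ang a b q : ℝ) : Real.Angle) = (ta : Real.Angle) := by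
    rw [eta, Real.Angle.coe_add]
    exact ang_coe66 nab nac naq
  have Eb : ((ang b p a : ℝ) : Real.Angle) = (tb : Real.Angle) := by
    rw [etb, Real.Angle.coe_add]
    exact ang_coe66 nbp nbc nab.symm
  have Ec : ((ang c q p : ℝ) : Real.Angle) = (tc : Real.Angle) := by
    rw [etc, Real.Angle.coe_add, Real.Angle.coe_add, ← ang_coe66 ncq nac.symm nbc.symm]
    exact ang_coe66 ncq nbc.symm ncp
  have Ep : ((ang p c b : ℝ) : Real.Angle) = (tp : Real.Angle) := by rw [etp]
  have Eq' : ((ang q a c : ℝ) : Real.Angle) = (tq : Real.Angle) := by rw [etq]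
  have dba : dist b a = d := by rw [dist_comm]; exact hab
  have dpb : dist p b = d := by rw [dist_comm]; exact hbp
  have dcp : dist c p = d := by rw [dist_comm]; exact hpc
  have dqc : dist q c = d := by rw [dist_comm]; exact hcq
  have daq : dist a q = d := by rw [dist_comm]; exact hqa
  obtain ⟨R0, D0⟩ := rel66 hd (A := q) (X := a) (Y := b) (B := p) (M := c) daq hab hbp hap hcq
    dcp Ea Eb Ec
  obtain ⟨R1, D1⟩ := rel66 hd (A := a) (X := b) (Y := p) (B := c) (M := q) dba hbp hpc hbc hqa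
    dqc Eb Ep Eq'
  obtain ⟨R2, D2⟩ := rel66 hd (A := b) (X := p) (Y := c) (B := q) (M := a) dpb hpc hcq hpq hab
    daq Ep Ec Ea
  obtain ⟨R3, D3⟩ := rel66 hd (A := p) (X := c) (Y := q) (B := a) (M := b) dcp hcq hqa hca hbp
    dba Ec Eq' Eb
  obtain ⟨R4, D4⟩ := rel66 hd (A := c) (X := q) (Y := a) (B := b) (M := p) dqc hqa hab
    (by rw [dist_comm]; exact hbq) hpc dpb Eq' Ea Ep
  have lower : ∀ {x y : ℍ} {t : ℝ}, d ≤ dist x y → Real.cosh (dist x y) = GG66 d t → 0 < t →
      alpha d ≤ t := by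
    intro x y t h1 h2 h3
    refine GG_le66 hd (by linarith) h3.le ?_
    rw [GG_alpha66 hd, ← h2]
    rw [Real.cosh_le_cosh, abs_of_pos hd, abs_of_nonneg dist_nonneg]
    exact h1
  have lc : alpha d ≤ tc := lower (by rw [dist_comm]; exact hpq) D0 c0
  have lq : alpha d ≤ tq := lower (by rw [dist_comm]; exact hca) D1 q0
  have la : alpha d ≤ ta := lower hbq D2 a0
  have lb : alpha d ≤ tb := lower (by rw [dist_comm]; exact hap) D3 b0
  have lp : alpha d ≤ tp := lower (by rw [dist_comm]; exact hbc) D4 p0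
  have hq : Real.pi / 2 ≤ 2 * alpha d := by linarith
  exact ⟨⟨la, lb, lc, lp, lq⟩,
    pairS66 hd la a3 lb b3 lc c3 lq q3 lp p3 hq n1 R0 R3 R2,
    pairS66 hd lb b3 lp p3 lq q3 la a3 lc c3 hq n2 R1 R4 R3,
    pairS66 hd lp p3 lc c3 la a3 lb b3 lq q3 hq n3 R2 R0 R4,
    pairS66 hd lc c3 lq q3 lb b3 lp p3 la a3 hq n4 R3 R1 R0,
    pairS66 hd lq q3 la a3 lp p3 lc c3 lb b3 hq n5 R4 R2 R1⟩

end

end Pool.Agent.PEN
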