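import Pool.Agent.P4.Exc57b

/-! # PENNY: the chain diameters with 1063/1000 <= cosh d <= 1077/1000 (there are two) -/

set_option autoImplicit false

namespace Pool.Agent.PEN

open Classical

noncomputable section

theorem e56a : q57 (1063 / 1000) < ch57 (1063 / 1000) 4 := by
  have h : (1 : ℝ) < (1063 / 1000) := by norm_num
  have a0 : ch57 (1063 / 1000) 0 = 2 * Real.arctan (T57 (1063 / 1000) * (4649845 / 4122031)) := by
    rw [start57 h]
    exact step57 h (by norm_num) (by norm_num)
  have b0 : op57 (1063 / 1000) (ch57 (1063 / 1000) 0) = 2 * Real.arctan (T57 (1063 / 1000) * (12885468906 / 4942785235)) :=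
    opv57 h (by norm_num) a0 (by norm_num)
  have a1 : ch57 (1063 / 1000) 1 = 2 * Real.arctan (T57 (1063 / 1000) * (10430010611 / 8218997765)) := by
    change 2 * Real.pi - 3 * al57 (1063 / 1000) - op57 (1063 / 1000) (ch57 (1063 / 1000) 0) = _
    rw [b0]
    exact step57 h (by norm_num) (by norm_num)
  have b1 : op57 (1063 / 1000) (ch57 (1063 / 1000) 1) = 2 * Real.arctan (T57 (1063 / 1000) * (25692587013390 / 11087101279493)) :=
    opv57 h (by norm_num) a1 (by norm_num)
  have a2 : ch57 (1063 / 1000) 2 = 2 * Real.arctan (T57 (1063 / 1000) * (23297382569869 / 16350409237507)) := by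
    change 2 * Real.pi - 3 * al57 (1063 / 1000) - op57 (1063 / 1000) (ch57 (1063 / 1000) 1) = _
    rw [b1]
    exact step57 h (by norm_num) (by norm_num)
  have b2 : op57 (1063 / 1000) (ch57 (1063 / 1000) 2) = 2 * Real.arctan (T57 (1063 / 1000) * (51111379276446882 / 24765117671770747)) :=
    opv57 h (by norm_num) a2 (by norm_num)
  have a3 : ch57 (1063 / 1000) 3 = 2 * Real.arctan (T57 (1063 / 1000) * (51847355705993123 / 32443849676488253)) := by
    change 2 * Real.pi - 3 * al57 (1063 / 1000) - op57 (1063 / 1000) (ch57 (1063 / 1000) 2) = _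
    rw [b2]
    exact step57 h (by norm_num) (by norm_num)
  have b3 : op57 (1063 / 1000) (ch57 (1063 / 1000) 3) = 2 * Real.arctan (T57 (1063 / 1000) * (101419474088702278878 / 55113739115470689749)) :=
    opv57 h (by norm_num) a3 (by norm_num)
  have a4 : ch57 (1063 / 1000) 4 = 2 * Real.arctan (T57 (1063 / 1000) * (115007697538679090125 / 64195405104476315251)) := by
    change 2 * Real.pi - 3 * al57 (1063 / 1000) - op57 (1063 / 1000) (ch57 (1063 / 1000) 3) = _
    rw [b3]
    exact step57 h (by norm_num) (by norm_num)
  rw [a4]; exact gt_q57 h (by norm_num) (by norm_num)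

theorem x56d8lo : (∀ j ≤ 3, ch57 (5156587 / 4843413) j < Real.pi) ∧ 2 * Real.pi - 3 * al57 (5156587 / 4843413) < 2 * op57 (5156587 / 4843413) (ch57 (5156587 / 4843413) 3) := by
  have h : (1 : ℝ) < (5156587 / 4843413) := by norm_num
  have a0 : ch57 (5156587 / 4843413) 0 = 2 * Real.arctan (T57 (5156587 / 4843413) * (27373324488569 / 24192545511431)) := by
    rw [start57 h]
    exact step57 h (by norm_num) (by norm_num)
  have b0 : op57 (5156587 / 4843413) (ch57 (5156587 / 4843413) 0) = 2 * Real.arctan (T57 (5156587 / 4843413) * (366676420795463445997 / 141152929204536554003)) :=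
    opv57 h (by norm_num) a0 (by norm_num)
  have a1 : ch57 (5156587 / 4843413) 1 = 2 * Real.arctan (T57 (5156587 / 4843413) * (149104876647381554003 / 116799018238308445997)) := by
    change 2 * Real.pi - 3 * al57 (5156587 / 4843413) - op57 (5156587 / 4843413) (ch57 (5156587 / 4843413) 0) = _
    rw [b0]
    exact step57 h (by norm_num) (by norm_num)
  have b1 : op57 (5156587 / 4843413) (ch57 (5156587 / 4843413) 1) = 2 * Real.arctan (T57 (5156587 / 4843413) * (1770274481443508694588332239 / 768872268556491305411667761)) :=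
    opv57 h (by norm_num) a1 (by norm_num)
  have a2 : ch57 (5156587 / 4843413) 2 = 2 * Real.arctan (T57 (5156587 / 4843413) * (808632005770716305411667761 / 562524561846199234618332239)) := by
    change 2 * Real.pi - 3 * al57 (5156587 / 4843413) - op57 (5156587 / 4843413) (ch57 (5156587 / 4843413) 1) = _
    rw [b1]
    exact step57 h (by norm_num) (by norm_num)
  have b2 : op57 (5156587 / 4843413) (ch57 (5156587 / 4843413) 2) = 2 * Real.arctan (T57 (5156587 / 4843413) * (8525952461258799318826164375308293 / 4169781288741200681173835624691707)) :=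
    opv57 h (by norm_num) a2 (by norm_num)
  have a3 : ch57 (5156587 / 4843413) 3 = 2 * Real.arctan (T57 (5156587 / 4843413) * (4368579974812325681173835624691707 / 2701908156725681972642841985308293)) := by
    change 2 * Real.pi - 3 * al57 (5156587 / 4843413) - op57 (5156587 / 4843413) (ch57 (5156587 / 4843413) 2) = _
    rw [b2]
    exact step57 h (by norm_num) (by norm_num)
  have b3 : op57 (5156587 / 4843413) (ch57 (5156587 / 4843413) 3) = 2 * Real.arctan (T57 (5156587 / 4843413) * (40951706043422433952692854477577864675991 / 22526962706577566047307145522422135324009)) :=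
    opv57 h (by norm_num) a3 (by norm_num)
  have a4 : ch57 (5156587 / 4843413) 4 = 2 * Real.arctan (T57 (5156587 / 4843413) * (23520956136933191047307145522422135324009 / 12938631045809989226264434624494934675991)) := by
    change 2 * Real.pi - 3 * al57 (5156587 / 4843413) - op57 (5156587 / 4843413) (ch57 (5156587 / 4843413) 3) = _
    rw [b3]
    exact step57 h (by norm_num) (by norm_num)
  refine ⟨fun j hj => ?_, ?_⟩
  · interval_cases j
    · rw [a0]; exact two_arctan_lt57 _
    · rw [a1]; exact two_arctan_lt57 _
    · rw [a2]; exact two_arctan_lt57 _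
    · rw [a3]; exact two_arctan_lt57 _
  · exact gtB57 h (by norm_num) b3 a4 (by norm_num)

theorem x56d8hi : 2 * op57 (1289147 / 1210853) (ch57 (1289147 / 1210853) 3) < 2 * Real.pi - 3 * al57 (1289147 / 1210853) := by
  have h : (1 : ℝ) < (1289147 / 1210853) := by norm_num
  have a0 : ch57 (1289147 / 1210853) 0 = 2 * Real.arctan (T57 (1289147 / 1210853) * (1710833737609 / 1512033762391)) := by
    rw [start57 h]
    exact step57 h (by norm_num) (by norm_num)
  have b0 : op57 (1289147 / 1210853) (ch57 (1289147 / 1210853) 0) = 2 * Real.arctan (T57 (1289147 / 1210853) * (5729318194662570477 / 2205516180337429523)) :=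
    opv57 h (by norm_num) a0 (by norm_num)
  have a1 : ch57 (1289147 / 1210853) 1 = 2 * Real.arctan (T57 (1289147 / 1210853) * (2329766164848679523 / 1824983804173820477)) := by
    change 2 * Real.pi - 3 * al57 (1289147 / 1210853) - op57 (1289147 / 1210853) (ch57 (1289147 / 1210853) 0) = _
    rw [b0]
    exact step57 h (by norm_num) (by norm_num)
  have b1 : op57 (1289147 / 1210853) (ch57 (1289147 / 1210853) 1) = 2 * Real.arctan (T57 (1289147 / 1210853) * (6915131906633819338963119 / 3003411062116180661036881)) :=
    opv57 h (by norm_num) a1 (by norm_num)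
  have a2 : ch57 (1289147 / 1210853) 2 = 2 * Real.arctan (T57 (1289147 / 1210853) * (3158723542755243161036881 / 2197359915560205646463119)) := by
    change 2 * Real.pi - 3 * al57 (1289147 / 1210853) - op57 (1289147 / 1210853) (ch57 (1289147 / 1210853) 1) = _
    rw [b1]
    exact step57 h (by norm_num) (by norm_num)
  have b2 : op57 (1289147 / 1210853) (ch57 (1289147 / 1210853) 2) = 2 * Real.arctan (T57 (1289147 / 1210853) * (8326119731965206544678787969493 / 4072058978972293455321212030507)) :=
    opv57 h (by norm_num) a2 (by norm_num)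
  have a3 : ch57 (1289147 / 1210853) 3 = 2 * Real.arctan (T57 (1289147 / 1210853) * (4266199579771121580321212030507 / 2638579342265864303520990469493)) := by
    change 2 * Real.pi - 3 * al57 (1289147 / 1210853) - op57 (1289147 / 1210853) (ch57 (1289147 / 1210853) 2) = _
    rw [b2]
    exact step57 h (by norm_num) (by norm_num)
  have b3 : op57 (1289147 / 1210853) (ch57 (1289147 / 1210853) 3) = 2 * Real.arctan (T57 (1289147 / 1210853) * (9997964999008672928093650474507992471 / 5499758389663202071906349525492007529)) :=
    opv57 h (by norm_num) a3 (by norm_num)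
  have a4 : ch57 (1289147 / 1210853) 4 = 2 * Real.arctan (T57 (1289147 / 1210853) * (5742434140661737228156349525492007529 / 3158840892345477013041174300775492471)) := by
    change 2 * Real.pi - 3 * al57 (1289147 / 1210853) - op57 (1289147 / 1210853) (ch57 (1289147 / 1210853) 3) = _
    rw [b3]
    exact step57 h (by norm_num) (by norm_num)
  exact ltB57 h (by norm_num) b3 a4 (by norm_num)

theorem d8_56 {d : ℝ} (hd : 0 < d) (hb : ∀ j ≤ 3, ch66 d j < qa66 d)
    (h1 : 2 * opp51 d (ch66 d 3) = 2 * Real.pi - 3 * alpha d) :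
    5156587 / 10000000 < Real.cos (alpha d) ∧ Real.cos (alpha d) < 5156588 / 10000000 := by
  have hq : qa66 d = q57 (Real.cosh d) := rfl
  have ho : ∀ t, opp51 d t = op57 (Real.cosh d) t := fun t => rfl
  rw [cos_alpha hd]
  simp only [ch57_eq hd, hq, ho, al57_eq hd] at hb h1
  have hC := cosh_gt66 hd
  generalize Real.cosh d = C at hC hb h1 ⊢
  have k1 : (5156587 / 4843413) < C := by
    by_contra h5
    rw [not_lt] at h5
    have := lowB57 hC h5 x56d8lo
    linarith
  have k2 : C < (1289147 / 1210853) := by
    by_contra h5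
    rw [not_lt] at h5
    have := upB57 (i := 3) (by norm_num) h5 hb x56d8hi
    linarith
  constructor
  · rw [lt_div_iff₀ (by linarith)]
    linarith
  · rw [div_lt_iff₀ (by linarith)]
    linarith

/-- **the chain diameters with 1063/1000 <= cosh d <= 1077/1000** -/
theorem exc56 {d : ℝ} (hd : 0 < d) (h1 : 1063 / 1000 ≤ Real.cosh d) (h2 : Real.cosh d ≤ 1077 / 1000)
    (hE : Exc66 d) :
    (5175725 / 10000000 < Real.cos (alpha d) ∧ Real.cos (alpha d) < 5175726 / 10000000 ∧
      (∀ j < 3, ch66 d j < qa66 d) ∧ ch66 d 3 = qa66 d) ∨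
    (5156587 / 10000000 < Real.cos (alpha d) ∧ Real.cos (alpha d) < 5156588 / 10000000 ∧
      (∀ j ≤ 3, ch66 d j < qa66 d) ∧
      2 * opp51 d (ch66 d 3) = 2 * Real.pi - 3 * alpha d) := by
  obtain ⟨i, hb, hi⟩ := hE
  have hq : qa66 d = q57 (Real.cosh d) := rfl
  have ho : ∀ t, opp51 d t = op57 (Real.cosh d) t := fun t => rfl
  rcases Nat.lt_trichotomy i 3 with h3 | rfl | h3
  · exfalso
    simp only [ch57_eq hd, hq, ho, al57_eq hd] at hb hi
    generalize Real.cosh d = C at h1 h2 hb hi
    have hC : 1 < C := by linarith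
    have h4 : i = 0 ∨ i = 1 ∨ i = 2 := by omega
    rcases h4 with rfl | rfl | rfl
    · have u := lowA57 hC (show C ≤ 611 / 500 by linarith) e57p
      have v := lowB57 hC (show C ≤ 11989 / 10000 by linarith) e57m
      rcases hi with hi | ⟨_, hi⟩ <;> linarith
    · have u := lowA57 hC (show C ≤ 11477 / 10000 by linarith) e57k
      have v := lowB57 hC (show C ≤ 447 / 400 by linarith) e57g
      rcases hi with hi | ⟨_, hi⟩ <;> linarith
    · have u := lowA57 hC (show C ≤ 439 / 400 by linarith) e57e
      have v := lowB57 hC (show C ≤ 5417 / 5000 by linarith) e57b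
      rcases hi with hi | ⟨_, hi⟩ <;> linarith
  · rcases hi with hi | ⟨hi, hi2⟩
    · left
      have h := d7_57 hd hb hi
      exact ⟨h.1, h.2, hb, hi⟩
    · right
      have hb' : ∀ j ≤ 3, ch66 d j < qa66 d := fun j hj => by
        rcases Nat.lt_or_ge j 3 with h6 | h6
        · exact hb j h6
        · obtain rfl : j = 3 := by omega
          exact hi
      have h := d8_56 hd hb' hi2
      exact ⟨h.1, h.2, hb', hi2⟩
  · exfalso
    simp only [ch57_eq hd, hq, ho, al57_eq hd] at hb hi
    generalize Real.cosh d = C at h1 h2 hb hi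
    have hC : 1 < C := by linarith
    have k3 := upA57 (i := 4) (by norm_num) h1 (fun j hj => hb j (by omega)) e56a
    rcases Nat.lt_or_ge 4 i with h4 | h4
    · have := hb 4 h4
      linarith
    · obtain rfl : i = 4 := by omega
      rcases hi with hi | ⟨hi, _⟩
      · linarith
      · linarith

end

end Pool.Agent.PEN
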