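import Pool.Agent.P4.Ar11

/-! # PENNY, version 5: the arithmetic below `A3 = 0.0646`

Inequalities B, D, D_B, the dichotomy and, for the second theorem, G with small corners and the
excess area. `τ = A / A3`, `J = |iI|`, `s` = number of sharp boundary darts. -/

set_option autoImplicit false

namespace Pool.Agent.PEN

noncomputable section

/-- constants for `0.0600 ≤ A3 ≤ 0.0646` and `0.0570 ≤ A3 ≤ 0.0600` -/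
def TD (e c0 K r c1 v w : ℝ) : Prop :=
  (e = 0.1261 ∧ c0 = 6.223 ∧ K = 55 ∧ r = 0.72 ∧ c1 = 5.532 ∧ v = 23.4 ∧ w = 403.9) ∨
  (e = 0.117 ∧ c0 = 6.384 ∧ K = 60 ∧ r = 0.825 ∧ c1 = 5.675 ∧ v = 23.5 ∧ w = 412.1)

/-- constants for `A3` in `[.0555, .0570]`, `[.0545, .0555]`, `[.0540, .0545]`, `[.0538, .0540]` -/
def TS (e c0 K r c1 v w κ : ℝ) : Prop :=
  (e = 0.111 ∧ c0 = 6.469 ∧ K = 62 ∧ r = 0.8 ∧ c1 = 5.751 ∧ v = 23.6 ∧ w = 416.4 ∧ κ = 0.114) ∨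
  (e = 0.1081 ∧ c0 = 6.528 ∧ K = 65 ∧ r = 0.845 ∧ c1 = 5.803 ∧ v = 23.6 ∧ w = 419.3 ∧ κ = 0.112) ∨
  (e = 0.1061 ∧ c0 = 6.558 ∧ K = 66 ∧ r = 0.893 ∧ c1 = 5.83 ∧ v = 23.6 ∧ w = 420.8 ∧ κ = 0.111) ∨
  (e = 0.1051 ∧ c0 = 6.57 ∧ K = 66 ∧ r = 0.91 ∧ c1 = 5.84 ∧ v = 23.7 ∧ w = 421.5 ∧ κ = 0.111)

/-- B, D, D_B and the dichotomy, `n ≥ 98` -/
theorem arDB {e c0 K r c1 v w : ℝ} (hT : TD e c0 K r c1 v w) (n b t J s : ℕ) (τ : ℝ)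
    (hn : 98 ≤ n) (hb : 3 ≤ b) (h1 : t + b + 2 ≤ 2 * n) (h2 : (t : ℝ) ≤ τ)
    (h3 : b ≤ 12 → τ ≤ v)
    (h3a : 12 ≤ b → b ≤ 80 → τ ≤ v + (w - v) / 68 * ((b : ℝ) - 12))
    (h3z : 80 ≤ b → τ ≤ w + c0 * ((b : ℝ) - 80))
    (hB : (2 - e) * ((n : ℝ) - b) ≤ 2 * J + e / 2 * (τ - t))
    (hD : 7 * n ≤ 4 * b + s + 3 * t + J) (hDB : 8 * n ≤ 5 * b + s + 3 * t + 2 * J)
    (hA : τ ≤ c1 * b ∨ τ ≤ c0 * b - K - r * s) :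
    3 * t + b < 2 * Lb n + 2 + J := by
  by_contra hc
  rw [not_lt] at hc
  obtain ⟨l1, l2, l3, l4⟩ := Lb_facts11 n (by omega)
  generalize Lb n = l at l1 l2 l3 l4 hc
  have hc' : (2 * l + 2 + J : ℝ) ≤ 3 * t + b := by exact_mod_cast hc
  have l4' : (50 * n : ℝ) ≤ 21 * l + 155 := by exact_mod_cast l4 (by omega)
  have h1' : (t + b + 2 : ℝ) ≤ 2 * n := by exact_mod_cast h1
  have hD' : (7 * n : ℝ) ≤ 4 * b + s + 3 * t + J := by exact_mod_cast hD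
  have hDB' : (8 * n : ℝ) ≤ 5 * b + s + 3 * t + 2 * J := by exact_mod_cast hDB
  have hn' : (98 : ℝ) ≤ n := by exact_mod_cast hn
  have hb' : (3 : ℝ) ≤ b := by exact_mod_cast hb
  have ht' : (0 : ℝ) ≤ t := Nat.cast_nonneg t
  have hJ' : (0 : ℝ) ≤ J := Nat.cast_nonneg J
  have hs' : (0 : ℝ) ≤ s := Nat.cast_nonneg s
  rcases Nat.lt_or_ge b 12 with hb1 | hb1
  · have h4 := h3 hb1.le
    have hb1' : (b : ℝ) ≤ 12 := by exact_mod_cast hb1.le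
    clear h3 h3a h3z
    rcases hT with ⟨rfl, rfl, rfl, rfl, rfl, rfl, rfl⟩ |
    ⟨rfl, rfl, rfl, rfl, rfl, rfl, rfl⟩ <;>
      rcases hA with hA | hA <;> linarith
  have hb1' : (12 : ℝ) ≤ b := by exact_mod_cast hb1
  rcases Nat.lt_or_ge b 80 with hb2 | hb2
  · have h4 := h3a hb1 hb2.le
    have hb2' : (b : ℝ) ≤ 80 := by exact_mod_cast hb2.le
    clear h3 h3a h3z
    rcases hT with ⟨rfl, rfl, rfl, rfl, rfl, rfl, rfl⟩ |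
    ⟨rfl, rfl, rfl, rfl, rfl, rfl, rfl⟩ <;>
      rcases hA with hA | hA <;> linarith
  · have h4 := h3z hb2
    have hb2' : (80 : ℝ) ≤ b := by exact_mod_cast hb2
    clear h3 h3a h3z
    rcases hT with ⟨rfl, rfl, rfl, rfl, rfl, rfl, rfl⟩ |
    ⟨rfl, rfl, rfl, rfl, rfl, rfl, rfl⟩ <;>
      rcases hA with hA | hA <;> linarith

/-- B, D, D_B, the dichotomy, G with small corners and the excess area, `n ≥ 98` -/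
theorem arDS {e c0 K r c1 v w κ : ℝ} (hT : TS e c0 K r c1 v w κ) (n b t J s : ℕ) (τ y : ℝ)
    (hn : 98 ≤ n) (hb : 3 ≤ b) (h1 : t + b + 2 ≤ 2 * n) (h2 : (t : ℝ) ≤ τ)
    (h3 : b ≤ 12 → τ ≤ v)
    (h3a : 12 ≤ b → b ≤ 80 → τ ≤ v + (w - v) / 68 * ((b : ℝ) - 12))
    (h3z : 80 ≤ b → τ ≤ w + c0 * ((b : ℝ) - 80))
    (hB : (2 - e) * ((n : ℝ) - b) ≤ 2 * J + e / 2 * (τ - t))
    (hy : 0 ≤ y) (hG : (1 - e) * ((n : ℝ) - b) + y ≤ J + e / 2 * (τ - t))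
    (hS : t + κ * (J / 2 - 3 * y) ≤ τ)
    (hD : 7 * n ≤ 4 * b + s + 3 * t + J) (hDB : 8 * n ≤ 5 * b + s + 3 * t + 2 * J)
    (hA : τ ≤ c1 * b ∨ τ ≤ c0 * b - K - r * s) :
    3 * t + b < 2 * Lb n + 2 + J := by
  by_contra hc
  rw [not_lt] at hc
  obtain ⟨l1, l2, l3, l4⟩ := Lb_facts11 n (by omega)
  generalize Lb n = l at l1 l2 l3 l4 hc
  have hc' : (2 * l + 2 + J : ℝ) ≤ 3 * t + b := by exact_mod_cast hc
  have l4' : (50 * n : ℝ) ≤ 21 * l + 155 := by exact_mod_cast l4 (by omega)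
  have h1' : (t + b + 2 : ℝ) ≤ 2 * n := by exact_mod_cast h1
  have hD' : (7 * n : ℝ) ≤ 4 * b + s + 3 * t + J := by exact_mod_cast hD
  have hDB' : (8 * n : ℝ) ≤ 5 * b + s + 3 * t + 2 * J := by exact_mod_cast hDB
  have hn' : (98 : ℝ) ≤ n := by exact_mod_cast hn
  have hb' : (3 : ℝ) ≤ b := by exact_mod_cast hb
  have ht' : (0 : ℝ) ≤ t := Nat.cast_nonneg t
  have hJ' : (0 : ℝ) ≤ J := Nat.cast_nonneg J
  have hs' : (0 : ℝ) ≤ s := Nat.cast_nonneg s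
  rcases Nat.lt_or_ge b 12 with hb1 | hb1
  · have h4 := h3 hb1.le
    have hb1' : (b : ℝ) ≤ 12 := by exact_mod_cast hb1.le
    clear h3 h3a h3z
    rcases hT with ⟨rfl, rfl, rfl, rfl, rfl, rfl, rfl, rfl⟩ |
    ⟨rfl, rfl, rfl, rfl, rfl, rfl, rfl, rfl⟩ |
    ⟨rfl, rfl, rfl, rfl, rfl, rfl, rfl, rfl⟩ |
    ⟨rfl, rfl, rfl, rfl, rfl, rfl, rfl, rfl⟩ <;>
      rcases hA with hA | hA <;> linarith
  have hb1' : (12 : ℝ) ≤ b := by exact_mod_cast hb1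
  rcases Nat.lt_or_ge b 80 with hb2 | hb2
  · have h4 := h3a hb1 hb2.le
    have hb2' : (b : ℝ) ≤ 80 := by exact_mod_cast hb2.le
    clear h3 h3a h3z
    rcases hT with ⟨rfl, rfl, rfl, rfl, rfl, rfl, rfl, rfl⟩ |
    ⟨rfl, rfl, rfl, rfl, rfl, rfl, rfl, rfl⟩ |
    ⟨rfl, rfl, rfl, rfl, rfl, rfl, rfl, rfl⟩ |
    ⟨rfl, rfl, rfl, rfl, rfl, rfl, rfl, rfl⟩ <;>
      rcases hA with hA | hA <;> linarith
  · have h4 := h3z hb2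
    have hb2' : (80 : ℝ) ≤ b := by exact_mod_cast hb2
    clear h3 h3a h3z
    rcases hT with ⟨rfl, rfl, rfl, rfl, rfl, rfl, rfl, rfl⟩ |
    ⟨rfl, rfl, rfl, rfl, rfl, rfl, rfl, rfl⟩ |
    ⟨rfl, rfl, rfl, rfl, rfl, rfl, rfl, rfl⟩ |
    ⟨rfl, rfl, rfl, rfl, rfl, rfl, rfl, rfl⟩ <;>
      rcases hA with hA | hA <;> linarith

end

end Pool.Agent.PEN
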