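import Pool.Agent.P4.RfD51

/-! # PENNY: selection of the function `F` of inequality B

`ch66 d i` are the tips of the chain rhombi, `Exc66 d` says that `d` is a chain diameter. If `d` is
not one of them, inequality B holds without bad points. -/

set_option autoImplicit false

namespace Pool.Agent.PEN

open Classical UpperHalfPlane

noncomputable section

/-! ### the angles of a rhombus of side `d` -/

/-- angle of the square of side `d` -/
def qa66 (d : ℝ) : ℝ := 2 * Real.arctan (1 / √(Real.cosh d))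

theorem cosh_gt66 {d : ℝ} (hd : 0 < d) : 1 < Real.cosh d := Real.one_lt_cosh.2 hd.ne'

theorem tan_half66 {t : ℝ} (h0 : 0 < t) (h1 : t < Real.pi) : 0 < Real.tan (t / 2) :=
  Real.tan_pos_of_pos_of_lt_pi_div_two (by linarith) (by linarith)

theorem arctan_half66 {t : ℝ} (h0 : 0 < t) (h1 : t < Real.pi) :
    Real.arctan (Real.tan (t / 2)) = t / 2 := by
  have := Real.pi_pos
  exact Real.arctan_tan (by linarith) (by linarith)

theorem opp_pos66 {d t : ℝ} (h0 : 0 < t) (h1 : t < Real.pi) : 0 < opp51 d t := by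
  unfold opp51
  have h2 : 0 < Real.arctan (1 / (Real.cosh d * Real.tan (t / 2))) := by
    rw [Real.arctan_pos]
    exact div_pos one_pos (mul_pos (Real.cosh_pos _) (tan_half66 h0 h1))
  linarith

theorem opp_lt66 (d t : ℝ) : opp51 d t < Real.pi := by
  unfold opp51
  have := Real.arctan_lt_pi_div_two (1 / (Real.cosh d * Real.tan (t / 2)))
  linarith

theorem opp_add66 {d t : ℝ} (hd : 0 < d) (h0 : 0 < t) (h1 : t < Real.pi) :
    t + opp51 d t < Real.pi := by
  have hC := cosh_gt66 hd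
  have hT := tan_half66 h0 h1
  have h2 : Real.arctan (1 / (Real.cosh d * Real.tan (t / 2))) <
      Real.arctan (Real.tan (t / 2))⁻¹ := by
    apply Real.arctan_strictMono
    rw [← one_div]
    apply one_div_lt_one_div_of_lt hT
    nlinarith
  rw [Real.arctan_inv_of_pos hT, arctan_half66 h0 h1] at h2
  unfold opp51
  linarith

theorem tan_opp66 (d t : ℝ) :
    Real.tan (opp51 d t / 2) = 1 / (Real.cosh d * Real.tan (t / 2)) := by
  unfold opp51
  rw [mul_div_cancel_left₀ _ (two_ne_zero), Real.tan_arctan]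

theorem opp_opp66 {d t : ℝ} (h0 : 0 < t) (h1 : t < Real.pi) : opp51 d (opp51 d t) = t := by
  have hT := tan_half66 h0 h1
  have hC := Real.cosh_pos d
  have h2 : opp51 d (opp51 d t) = 2 * Real.arctan (Real.tan (t / 2)) := by
    conv_lhs => unfold opp51
    rw [show 2 * Real.arctan (1 / (Real.cosh d * Real.tan (t / 2))) / 2 = opp51 d t / 2 from rfl,
      tan_opp66]
    congr 2
    field_simp
  rw [h2, arctan_half66 h0 h1]
  ring

theorem qa_pos66 (d : ℝ) : 0 < qa66 d := by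
  unfold qa66
  have h2 : 0 < Real.arctan (1 / √(Real.cosh d)) := by
    rw [Real.arctan_pos]
    exact div_pos one_pos (Real.sqrt_pos.2 (Real.cosh_pos _))
  linarith

theorem qa_lt66 {d : ℝ} (hd : 0 < d) : 2 * qa66 d < Real.pi := by
  have hC := cosh_gt66 hd
  have h1 : 1 < √(Real.cosh d) := by
    rw [Real.lt_sqrt (by norm_num)]
    linarith
  have h2 : Real.arctan (1 / √(Real.cosh d)) < Real.arctan 1 := by
    apply Real.arctan_strictMono
    rw [div_lt_one (by linarith)]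
    exact h1
  rw [Real.arctan_one] at h2
  unfold qa66
  linarith

theorem tan_qa66 (d : ℝ) : Real.tan (qa66 d / 2) = 1 / √(Real.cosh d) := by
  unfold qa66
  rw [mul_div_cancel_left₀ _ (two_ne_zero), Real.tan_arctan]

theorem opp_eq_of66 {d t u : ℝ} (hu0 : 0 < u) (hu1 : u < Real.pi)
    (h : Real.cosh d * Real.tan (t / 2) * Real.tan (u / 2) = 1) : opp51 d t = u := by
  have hU := tan_half66 hu0 hu1
  have h2 : 1 / (Real.cosh d * Real.tan (t / 2)) = Real.tan (u / 2) := by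
    have h3 : Real.cosh d * Real.tan (t / 2) ≠ 0 := by
      intro h3
      rw [h3, zero_mul] at h
      exact zero_ne_one h
    rw [div_eq_iff h3]
    linarith
  unfold opp51
  rw [h2, arctan_half66 hu0 hu1]
  ring

theorem opp_qa66 {d : ℝ} (hd : 0 < d) : opp51 d (qa66 d) = qa66 d := by
  have h0 := qa_pos66 d
  have h1 := qa_lt66 hd
  apply opp_eq_of66 h0 (by linarith)
  rw [tan_qa66]
  have hC := Real.cosh_pos d
  have h2 := Real.mul_self_sqrt hC.le
  have h3 : √(Real.cosh d) ≠ 0 := (Real.sqrt_pos.2 hC).ne'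
  field_simp
  rw [sq]
  exact h2.symm

theorem opp_anti66 {d t u : ℝ} (h0 : 0 < t) (h : t < u) (h1 : u < Real.pi) :
    opp51 d u < opp51 d t := by
  have hT := tan_half66 h0 (by linarith)
  have hTU : Real.tan (t / 2) < Real.tan (u / 2) :=
    Real.tan_lt_tan_of_lt_of_lt_pi_div_two (by linarith [Real.pi_pos]) (by linarith) (by linarith)
  have h2 : Real.arctan (1 / (Real.cosh d * Real.tan (u / 2))) <
      Real.arctan (1 / (Real.cosh d * Real.tan (t / 2))) := by
    apply Real.arctan_strictMono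
    exact one_div_lt_one_div_of_lt (mul_pos (Real.cosh_pos _) hT)
      (mul_lt_mul_of_pos_left hTU (Real.cosh_pos _))
  unfold opp51
  linarith

theorem opp_gt_qa66 {d t : ℝ} (hd : 0 < d) (h0 : 0 < t) (h : t < qa66 d) : qa66 d < opp51 d t := by
  have h2 := opp_anti66 (d := d) h0 h (by linarith [qa_lt66 hd, qa_pos66 d])
  rwa [opp_qa66 hd] at h2

theorem opp_lt_qa66 {d t : ℝ} (hd : 0 < d) (h : qa66 d < t) (h1 : t < Real.pi) :
    opp51 d t < qa66 d := by
  have h2 := opp_anti66 (d := d) (qa_pos66 d) h h1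
  rwa [opp_qa66 hd] at h2

/-! ### the chain -/

/-- the tips of the chain rhombi -/
def ch66 (d : ℝ) : ℕ → ℝ
  | 0 => 2 * Real.pi - 5 * alpha d
  | i + 1 => 2 * Real.pi - 3 * alpha d - opp51 d (ch66 d i)

/-- `d` is a chain diameter: the chain ends in the square, or its last rhombus has two obtuse
angles adding to `2π - 3 α` -/
def Exc66 (d : ℝ) : Prop :=
  ∃ i : ℕ, (∀ j < i, ch66 d j < qa66 d) ∧ (ch66 d i = qa66 d ∨
    (ch66 d i < qa66 d ∧ 2 * opp51 d (ch66 d i) = 2 * Real.pi - 3 * alpha d))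

/-- the chain tips -/
def Gc66 (d t : ℝ) : Prop := ∃ i : ℕ, t = ch66 d i ∧ ∀ j ≤ i, ch66 d j < qa66 d

theorem ch_pos66 {d : ℝ} (ha : 3 * alpha d < Real.pi) (i : ℕ) : 0 < ch66 d i := by
  have := Real.pi_pos
  cases i with
  | zero =>
    change 0 < 2 * Real.pi - 5 * alpha d
    linarith
  | succ i =>
    change 0 < 2 * Real.pi - 3 * alpha d - opp51 d (ch66 d i)
    have := opp_lt66 d (ch66 d i)
    linarith

section F
variable {V : Type} (G : Tg V)

/-- the chosen corners -/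
def F66 (d : ℝ) (x : V × V) : Prop :=
  (TH G x < qa66 d ∧ Gc66 d (TH G x)) ∨ (qa66 d < TH G x ∧ ¬ Gc66 d (opp51 d (TH G x))) ∨
    (TH G x = qa66 d ∧ Q51 G x)

theorem F_lt66 {d : ℝ} {x : V × V} (h : TH G x < qa66 d) : F66 G d x ↔ Gc66 d (TH G x) := by
  unfold F66
  constructor
  · rintro (⟨_, h1⟩ | ⟨h1, _⟩ | ⟨h1, _⟩)
    · exact h1
    · exact absurd h (not_lt.2 h1.le)
    · exact absurd h (by rw [h1]; exact lt_irrefl _)
  · exact fun h1 => Or.inl ⟨h, h1⟩

theorem F_gt66 {d : ℝ} {x : V × V} (h : qa66 d < TH G x) :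
    F66 G d x ↔ ¬ Gc66 d (opp51 d (TH G x)) := by
  unfold F66
  constructor
  · rintro (⟨h1, _⟩ | ⟨_, h1⟩ | ⟨h1, _⟩)
    · exact absurd h (not_lt.2 h1.le)
    · exact h1
    · exact absurd h (by rw [h1]; exact lt_irrefl _)
  · exact fun h1 => Or.inr (Or.inl ⟨h, h1⟩)

theorem F_eq66 {d : ℝ} {x : V × V} (h : TH G x = qa66 d) : F66 G d x ↔ Q51 G x := by
  unfold F66
  constructor
  · rintro (⟨h1, _⟩ | ⟨h1, _⟩ | ⟨_, h1⟩)
    · exact absurd h1 (by rw [h]; exact lt_irrefl _)
    · exact absurd h1 (by rw [h]; exact lt_irrefl _)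
    · exact h1
  · exact fun h1 => Or.inr (Or.inr ⟨h, h1⟩)

variable {al : ℝ} {kp : V → V → ℝ} {U : ℕ → ℝ}

theorem TH_rg66 {d : ℝ} (hG : G.Geo (alpha d) kp U) (hR : Rf G (alpha d) (opp51 d))
    {x : V × V} (hx : x ∈ iJ G) (hC : RC G (G.cl x)) : 0 < TH G x ∧ TH G x < Real.pi := by
  have h1 := hR.low x hx hC
  have h2 := hR.sum x hx hC
  obtain ⟨h3, h4⟩ := sg_mem51 G hG hx
  have h5 := hR.low _ h3 (by rw [h4]; exact hC)
  have h6 := hG.al1
  have h7 := hG.al2
  have := Real.pi_pos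
  constructor <;> linarith

theorem F_alt66 {d : ℝ} (hd : 0 < d) (hG : G.Geo (alpha d) kp U)
    (hR : Rf G (alpha d) (opp51 d)) :
    ∀ x ∈ iJ G, RC G (G.cl x) → (F66 G d (sg G x) ↔ ¬ F66 G d x) := by
  intro x hx hC
  obtain ⟨h0, h1⟩ := TH_rg66 G hG hR hx hC
  have h2 := hR.opp x hx hC
  have h3 := hR.alt x hx hC
  rcases lt_trichotomy (TH G x) (qa66 d) with h | h | h
  · have h4 : qa66 d < TH G (sg G x) := by
      rw [h2]
      exact opp_gt_qa66 hd h0 h
    rw [F_lt66 G h, F_gt66 G h4, h2, opp_opp66 h0 h1]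
  · have h4 : TH G (sg G x) = qa66 d := by
      rw [h2, h, opp_qa66 hd]
    rw [F_eq66 G h, F_eq66 G h4, h3]
  · have h4 : TH G (sg G x) < qa66 d := by
      rw [h2]
      exact opp_lt_qa66 hd h h1
    rw [F_gt66 G h, F_lt66 G h4, h2, not_not]

theorem F_five66 {d : ℝ} (hE : ¬ Exc66 d) {x : V × V}
    (h : TH G x = 2 * Real.pi - 5 * alpha d) : F66 G d x := by
  have h0 : TH G x = ch66 d 0 := h
  rcases lt_trichotomy (TH G x) (qa66 d) with h1 | h1 | h1
  · rw [F_lt66 G h1]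
    refine ⟨0, h0, fun j hj => ?_⟩
    rw [Nat.le_zero.1 hj, ← h0]
    exact h1
  · exact absurd ⟨0, fun j hj => absurd hj (Nat.not_lt_zero _), Or.inl (h0.symm.trans h1)⟩ hE
  · rw [F_gt66 G h1]
    rintro ⟨i, _, h3⟩
    have h4 := h3 0 (Nat.zero_le _)
    rw [← h0] at h4
    exact absurd h1 (not_lt.2 h4.le)

theorem F_two66 {d : ℝ} (hd : 0 < d) (ha : 3 * alpha d < Real.pi) (hE : ¬ Exc66 d)
    {x y : V × V} (hx0 : 0 < TH G x) (hx1 : TH G x < Real.pi) (hy0 : 0 < TH G y)
    (hy1 : TH G y < Real.pi) (h : TH G x + TH G y = 2 * Real.pi - 3 * alpha d) :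
    F66 G d x ∨ F66 G d y := by
  by_contra hno
  rw [not_or] at hno
  obtain ⟨hnx, hny⟩ := hno
  have hq := qa_lt66 hd
  have hpi := Real.pi_pos
  -- one large angle
  have key : ∀ z w : V × V, 0 < TH G z → TH G z < Real.pi → qa66 d < TH G z → ¬ F66 G d z →
      ¬ F66 G d w → TH G z + TH G w = 2 * Real.pi - 3 * alpha d →
      ∃ i, (∀ j ≤ i, ch66 d j < qa66 d) ∧ TH G z = opp51 d (ch66 d i) ∧
        TH G w = ch66 d (i + 1) ∧ qa66 d < TH G w := by
    intro z w hz0 hz1 hz hnz hnw hzw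
    rw [F_gt66 G hz, not_not] at hnz
    obtain ⟨i, h1, h2⟩ := hnz
    have h3 : TH G z = opp51 d (ch66 d i) := by
      rw [← h1, opp_opp66 hz0 hz1]
    have h4 : TH G w = ch66 d (i + 1) := by
      change TH G w = 2 * Real.pi - 3 * alpha d - opp51 d (ch66 d i)
      rw [← h3]
      linarith
    refine ⟨i, h2, h3, h4, ?_⟩
    rcases lt_trichotomy (TH G w) (qa66 d) with h5 | h5 | h5
    · exfalso
      apply hnw
      rw [F_lt66 G h5]
      refine ⟨i + 1, h4, fun j hj => ?_⟩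
      rcases Nat.lt_or_ge j (i + 1) with h6 | h6
      · exact h2 j (by omega)
      · rw [le_antisymm hj h6, ← h4]
        exact h5
    · exfalso
      apply hE
      exact ⟨i + 1, fun j hj => h2 j (by omega), Or.inl (h4.symm.trans h5)⟩
    · exact h5
  have main : ∀ z w : V × V, 0 < TH G z → TH G z < Real.pi → 0 < TH G w → TH G w < Real.pi →
      qa66 d < TH G z → ¬ F66 G d z → ¬ F66 G d w →
      TH G z + TH G w = 2 * Real.pi - 3 * alpha d → False := by
    intro z w hz0 hz1 hw0 hw1 hz hnz hnw hzw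
    obtain ⟨i, h1, h2, h3, h4⟩ := key z w hz0 hz1 hz hnz hnw hzw
    obtain ⟨j, k1, k2, k3, k4⟩ := key w z hw0 hw1 h4 hnw hnz (by linarith)
    rcases lt_trichotomy i j with hij | hij | hij
    · have := k1 (i + 1) hij
      rw [← h3] at this
      linarith
    · subst hij
      apply hE
      refine ⟨i, fun j hj => h1 j hj.le, Or.inr ⟨h1 i le_rfl, ?_⟩⟩
      linarith
    · have := h1 (j + 1) hij
      rw [← k3] at this
      linarith
  rcases lt_or_ge (qa66 d) (TH G x) with h1 | h1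
  · exact main x y hx0 hx1 hy0 hy1 h1 hnx hny h
  · rcases lt_or_ge (qa66 d) (TH G y) with h2 | h2
    · exact main y x hy0 hy1 hx0 hx1 h2 hny hnx (by linarith)
    · linarith

/-- **inequality B for every diameter that is not a chain diameter** -/
theorem B_F66 {d : ℝ} (hd : 0 < d) (hE : ¬ Exc66 d) (hG : G.Geo (alpha d) kp U)
    (hR : Rf G (alpha d) (opp51 d))
    (hA : ∀ C ∈ G.iC, A3 (alpha d) * (G.cT C).card ≤ ∑ x ∈ G.cD C, G.ar x.1 x.2 / 3)
    (hP : ∀ C ∈ G.iC, (G.cT C).card = 3 → (G.cI C).card = 4 →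
      ∑ x ∈ G.cJ C, wc G (alpha d) x ≤ 12) :
    (8 * alpha d - 2 * Real.pi) * ((G.P.card : ℝ) - G.oJ.card) ≤
      2 * alpha d * G.iI.card +
        (∑ x ∈ G.iD, G.ar x.1 x.2 / 3 - A3 (alpha d) * (G.iD.card / 3)) := by
  refine B_ineq G hG (F66 G d) (F_alt66 G hd hG hR) (fun x _ _ h => F_five66 G hE h) ?_ hA hP
  intro x hx y hy hxC hyC _ _ h
  obtain ⟨h1, h2⟩ := TH_rg66 G hG hR hx hxC
  obtain ⟨h3, h4⟩ := TH_rg66 G hG hR hy hyC
  exact F_two66 G hd hG.al2 hE h1 h2 h3 h4 h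

end F

end

end Pool.Agent.PEN
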