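import Pool.Agent.P4.Rf51
import Pool.Agent.P4.DensC39

/-! # PENNY: rhombus facts over the triangulation of a separated set -/

set_option autoImplicit false

namespace Pool.Agent.PEN

open Classical UpperHalfPlane

noncomputable section

private lemma iso_sq51 {d D γ β : ℝ} (hd : 0 < d) (hD : 0 < D)
    (hγ : Penny39.Cos D d d γ) (hβ : Penny39.Cos d d D β) :
    Real.cos β ^ 2 * (Real.cosh d ^ 2 + 1 - (Real.cosh d ^ 2 - 1) * Real.cos γ) =
      Real.cosh d ^ 2 * (1 - Real.cos γ) := by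
  have hc := Penny39.cosh_gt_one hd
  have h2 : Real.cosh D = Real.cosh d * Real.cosh d - Real.sinh d * Real.sinh d * Real.cos γ := hγ
  rw [Penny39.sinh_sq'] at h2
  have h3 := Penny39.base_sq hD hβ
  rw [h2] at h3
  have h4 : 0 < Real.cosh d ^ 2 - 1 := by nlinarith
  have h5 : (Real.cosh d ^ 2 - 1) * (Real.cos β ^ 2 * (Real.cosh d ^ 2 + 1 -
      (Real.cosh d ^ 2 - 1) * Real.cos γ)) = (Real.cosh d ^ 2 - 1) *
      (Real.cosh d ^ 2 * (1 - Real.cos γ)) := by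
    linear_combination h3
  exact mul_left_cancel₀ h4.ne' h5

private lemma iso_cot51 {d D γ β : ℝ} (hd : 0 < d) (hD : 0 < D)
    (hγ : Penny39.Cos D d d γ) (hβ : Penny39.Cos d d D β)
    (h0 : 0 ≤ γ) (h1 : γ ≤ Real.pi) (b0 : 0 ≤ β) (b1 : β ≤ Real.pi) :
    Real.cos (γ / 2) * Real.cos β = Real.cosh d * (Real.sin (γ / 2) * Real.sin β) := by
  have h := iso_sq51 hd hD hγ hβ
  have hb := Penny39.base_pos hd hD hβ
  have hc := Penny39.cosh_gt_one hd
  have e : Real.cos γ = 2 * Real.cos (γ / 2) ^ 2 - 1 := by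
    rw [← Real.cos_two_mul]; ring_nf
  have hs := Real.sin_sq_add_cos_sq (γ / 2)
  have hs' := Real.sin_sq_add_cos_sq β
  have c1 : 0 ≤ Real.cos (γ / 2) :=
    Real.cos_nonneg_of_mem_Icc ⟨by linarith [Real.pi_pos], by linarith⟩
  have s1 : 0 ≤ Real.sin (γ / 2) :=
    Real.sin_nonneg_of_nonneg_of_le_pi (by linarith) (by linarith [Real.pi_pos])
  have s2 : 0 ≤ Real.sin β := Real.sin_nonneg_of_nonneg_of_le_pi b0 b1
  have h2 : (Real.cos (γ / 2) * Real.cos β) ^ 2 =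
      (Real.cosh d * (Real.sin (γ / 2) * Real.sin β)) ^ 2 := by
    rw [e] at h
    have e1 : Real.sin (γ / 2) ^ 2 = 1 - Real.cos (γ / 2) ^ 2 := by linarith
    have e2 : Real.sin β ^ 2 = 1 - Real.cos β ^ 2 := by linarith
    rw [mul_pow, mul_pow, mul_pow, e1, e2]
    linear_combination h / 2
  have h3 : 0 ≤ Real.cos (γ / 2) * Real.cos β := mul_nonneg c1 hb.le
  have h4 : 0 ≤ Real.cosh d * (Real.sin (γ / 2) * Real.sin β) :=
    mul_nonneg (by linarith) (mul_nonneg s1 s2)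
  exact (pow_left_inj₀ h3 h4 two_ne_zero).1 h2

private lemma base_unique51 {d D β β' : ℝ} (hd : 0 < d) (hD : 0 < D)
    (b0 : 0 ≤ β) (b1 : β ≤ Real.pi) (c0 : 0 ≤ β') (c1 : β' ≤ Real.pi)
    (h : Penny39.Cos d d D β) (h' : Penny39.Cos d d D β') : β' = β := by
  refine Real.injOn_cos ⟨c0, c1⟩ ⟨b0, b1⟩ ?_
  have e1 : Real.cosh d = Real.cosh d * Real.cosh D - Real.sinh d * Real.sinh D * Real.cos β := h
  have e2 : Real.cosh d = Real.cosh d * Real.cosh D - Real.sinh d * Real.sinh D * Real.cos β' := h'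
  have h3 : 0 < Real.sinh d * Real.sinh D :=
    mul_pos (Real.sinh_pos_iff.2 hd) (Real.sinh_pos_iff.2 hD)
  have h5 : Real.sinh d * Real.sinh D * (Real.cos β' - Real.cos β) = 0 := by linarith
  rcases mul_eq_zero.1 h5 with h4 | h4
  · linarith
  · linarith

private lemma apex_unique51 {d D γ γ' : ℝ} (hd : 0 < d)
    (b0 : 0 ≤ γ) (b1 : γ ≤ Real.pi) (c0 : 0 ≤ γ') (c1 : γ' ≤ Real.pi)
    (h : Penny39.Cos D d d γ) (h' : Penny39.Cos D d d γ') : γ' = γ := by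
  refine Real.injOn_cos ⟨c0, c1⟩ ⟨b0, b1⟩ ?_
  have e1 : Real.cosh D = Real.cosh d * Real.cosh d - Real.sinh d * Real.sinh d * Real.cos γ := h
  have e2 : Real.cosh D = Real.cosh d * Real.cosh d - Real.sinh d * Real.sinh d * Real.cos γ' := h'
  have h3 : 0 < Real.sinh d * Real.sinh d :=
    mul_pos (Real.sinh_pos_iff.2 hd) (Real.sinh_pos_iff.2 hd)
  have h5 : Real.sinh d * Real.sinh d * (Real.cos γ' - Real.cos γ) = 0 := by linarith
  rcases mul_eq_zero.1 h5 with h4 | h4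
  · linarith
  · linarith

private lemma rhomb_data51 {d : ℝ} (hd : 0 < d) {a b p q : ℍ}
    (h1 : 0 < ori (kl a) (kl b) (kl p)) (h2 : 0 < ori (kl b) (kl a) (kl q))
    (hbp : dist b p = d) (hpa : dist p a = d)
    (haq : dist a q = d) (hqb : dist q b = d) (hab : d ≤ dist a b) :
    (0 < ang p a b ∧ ang p a b < Real.pi) ∧ (0 < ang a b p ∧ ang a b p < Real.pi) ∧
    (0 < ang a q b ∧ ang a q b < Real.pi) ∧
    Penny39.Cos (dist a b) d d (ang p a b) ∧ Penny39.Cos d d (dist a b) (ang a b p) ∧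
    Penny39.Cos d d (dist a b) (ang a q b) := by
  have nab : b ≠ a := (ne_of_dist39 hd hab).symm
  have nbp : p ≠ b := (ne_of_dist39 hd hbp.ge).symm
  have npa : a ≠ p := (ne_of_dist39 hd hpa.ge).symm
  have naq : q ≠ a := (ne_of_dist39 hd haq.ge).symm
  have o1 : 0 < ori (kl p) (kl a) (kl b) := by rw [ori_rot39]; exact h1
  have o2 : 0 < ori (kl a) (kl q) (kl b) := by rw [← ori_rot39]; exact h2
  refine ⟨ang_pos o1, ang_pos h1, ang_pos o2, ?_, ?_, ?_⟩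
  · have := cosh_law npa nbp.symm
    rw [hpa, dist_comm p b, hbp] at this
    exact this
  · have := cosh_law nab npa.symm
    rw [hbp, dist_comm a p, hpa] at this
    unfold Penny39.Cos
    linarith
  · have := cosh_law naq nab
    rw [hqb, haq] at this
    unfold Penny39.Cos
    linarith

/-- the angles of a rhombus `a q b p` with diagonal `a b` -/
theorem rhomb_eq51 {d : ℝ} (hd : 0 < d) {a b p q : ℍ} (h1 : 0 < ori (kl a) (kl b) (kl p))
    (h2 : 0 < ori (kl b) (kl a) (kl q)) (hbp : dist b p = d) (hpa : dist p a = d)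
    (haq : dist a q = d) (hqb : dist q b = d) (hab : d ≤ dist a b) :
    ang a q b = ang a b p ∧ ang b a q = ang a b p ∧ ang b p a = ang a b p ∧
    ang q b a = ang p a b ∧ (0 < ang a b p ∧ ang a b p < Real.pi / 2) ∧
    (0 < ang p a b ∧ ang p a b < Real.pi) ∧
    Real.cos (ang p a b / 2) * Real.cos (ang a b p) =
      Real.cosh d * (Real.sin (ang p a b / 2) * Real.sin (ang a b p)) := by
  obtain ⟨⟨g0, g1⟩, ⟨b0, b1⟩, ⟨c0, c1⟩, eγ, eβ, eβ'⟩ :=
    rhomb_data51 hd h1 h2 hbp hpa haq hqb hab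
  obtain ⟨⟨k0, k1⟩, ⟨l0, l1⟩, ⟨m0, m1⟩, fγ, fβ, fβ'⟩ :=
    rhomb_data51 hd h2 h1 haq hqb hbp hpa (by rw [dist_comm b a]; exact hab)
  rw [dist_comm b a] at fγ fβ fβ'
  have hD : 0 < dist a b := by linarith
  have hb := Penny39.base_pos hd hD eβ
  refine ⟨base_unique51 hd hD b0.le b1.le c0.le c1.le eβ eβ',
    base_unique51 hd hD b0.le b1.le l0.le l1.le eβ fβ,
    base_unique51 hd hD b0.le b1.le m0.le m1.le eβ fβ',
    apex_unique51 hd g0.le g1.le k0.le k1.le eγ fγ, ⟨b0, ?_⟩, ⟨g0, g1⟩,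
    iso_cot51 hd hD eγ eβ g0.le g1.le b0.le b1.le⟩
  by_contra hcon
  push Not at hcon
  have := Real.cos_nonpos_of_pi_div_two_le_of_le hcon (by linarith)
  linarith

theorem opp_apex51 {d γ β : ℝ} (b0 : 0 < β) (b1 : β < Real.pi / 2)
    (g0 : 0 < γ) (g1 : γ < Real.pi)
    (h : Real.cos (γ / 2) * Real.cos β = Real.cosh d * (Real.sin (γ / 2) * Real.sin β)) :
    opp51 d γ = 2 * β ∧ opp51 d (2 * β) = γ := by
  have hc := Real.cosh_pos d
  have s1 : 0 < Real.sin β := Real.sin_pos_of_pos_of_lt_pi b0 (by linarith)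
  have c1 : 0 < Real.cos β := Real.cos_pos_of_mem_Ioo ⟨by linarith, b1⟩
  have s2 : 0 < Real.sin (γ / 2) := Real.sin_pos_of_pos_of_lt_pi (by linarith) (by linarith)
  have c2 : 0 < Real.cos (γ / 2) := Real.cos_pos_of_mem_Ioo ⟨by linarith, by linarith⟩
  unfold opp51
  constructor
  · have e : 1 / (Real.cosh d * Real.tan (γ / 2)) = Real.tan β := by
      rw [Real.tan_eq_sin_div_cos, Real.tan_eq_sin_div_cos]
      rw [div_eq_div_iff (by positivity) c1.ne']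
      field_simp
      linarith
    rw [e, Real.arctan_tan (by linarith) b1]
  · have e : 1 / (Real.cosh d * Real.tan (2 * β / 2)) = Real.tan (γ / 2) := by
      rw [show 2 * β / 2 = β by ring, Real.tan_eq_sin_div_cos, Real.tan_eq_sin_div_cos]
      rw [div_eq_div_iff (by positivity) c2.ne']
      field_simp
      linarith
    rw [e, Real.arctan_tan (by linarith) (by linarith)]
    ring

/-- **the rhombus facts** -/
theorem rf51 {G : Tg ℍ} {d : ℝ} {kp : ℍ → ℍ → ℝ} {U : ℕ → ℝ} (hG : G.Geo (alpha d) kp U)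
    (hD : DelG G d)
    (hA : ∀ C ∈ G.iC, A3 (alpha d) * (G.cT C).card ≤ ∑ x ∈ G.cD C, G.ar x.1 x.2 / 3) :
    Rf G (alpha d) (opp51 d) := by
  have hd := hD.hd
  -- the values in a class
  have key : ∀ C ∈ G.iC, RC G C → ∃ γ β : ℝ, opp51 d γ = 2 * β ∧ opp51 d (2 * β) = γ ∧
      ∀ x ∈ G.cJ C, ((TH G x = γ ∧ TH G (sg G x) = 2 * β ∧ TH G (sg G (sg G x)) = γ) ∨
        (TH G x = 2 * β ∧ TH G (sg G x) = γ ∧ TH G (sg G (sg G x)) = 2 * β)) ∧
        (Q51 G (sg G x) ↔ ¬ Q51 G x) := by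
    intro C hC hR
    obtain ⟨a, b, ⟨p1, p4, p3, c1, c2, c3, c4⟩, hx, s1, s2, s3, s4, t1, t2, t3, t4, q1, q2, q3, q4⟩ :=
      rh_data51 G hG hC hR
    obtain ⟨u1, u2, u3, u4, ⟨v1, v2⟩, ⟨v3, v4⟩, v5⟩ := rhomb_eq51 hd (hD.ori _ _ p1)
      (hD.ori _ _ p4) (hD.con _ _ c1) (hD.con _ _ c2) (hD.con _ _ c3) (hD.con _ _ c4)
      (hD.sep _ _ p1)
    obtain ⟨w1, w2⟩ := opp_apex51 v1 v2 v3 v4 v5
    have e1 : G.ap b (G.ap a b) = a := G.ap3 _ _ p1
    have e2 : G.ap (G.ap a b) a = b := G.ap4 _ _ p1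
    have e3 : G.ap a (G.ap b a) = b := G.ap3 _ _ p4
    have e4 : G.ap (G.ap b a) b = a := G.ap4 _ _ p4
    have h1 : G.th b (G.ap a b) = ang a b (G.ap a b) := by
      rw [hD.th _ _ (G.ap1 _ _ p1), e1, u3]
    have h2 : G.th b a = ang a b (G.ap a b) := by
      rw [hD.th _ _ p4, u2]
    have h3 : G.th (G.ap a b) a = ang (G.ap a b) a b := by
      rw [hD.th _ _ (G.ap2 _ _ p1), e2]
    have h4 : G.th a (G.ap b a) = ang a b (G.ap a b) := by
      rw [hD.th _ _ (G.ap1 _ _ p4), e3, u1]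
    have h5 : G.th a b = ang a b (G.ap a b) := hD.th _ _ p1
    have h6 : G.th (G.ap b a) b = ang (G.ap a b) a b := by
      rw [hD.th _ _ (G.ap2 _ _ p4), e4, u4]
    rw [h1, h2, ← two_mul] at t1
    rw [h3] at t2
    rw [h4, h5, ← two_mul] at t3
    rw [h6] at t4
    refine ⟨ang (G.ap a b) a b, ang a b (G.ap a b), w1, w2, ?_⟩
    intro x hx'
    rcases hx x hx' with rfl | rfl | rfl | rfl
    · rw [s1, s2]
      exact ⟨Or.inr ⟨t1, t2, t3⟩, fun _ => q1, fun _ => q2⟩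
    · rw [s2, s3]
      exact ⟨Or.inl ⟨t2, t3, t4⟩, fun h => absurd h q3, fun h => absurd q2 h⟩
    · rw [s3, s4]
      exact ⟨Or.inr ⟨t3, t4, t1⟩, fun _ => q3, fun _ => q4⟩
    · rw [s4, s1]
      exact ⟨Or.inl ⟨t4, t1, t2⟩, fun h => absurd h q1, fun h => absurd q4 h⟩
  refine ⟨?_, ?_, ?_, ?_, ?_⟩
  · intro x hx hR
    obtain ⟨γ, β, w1, w2, h⟩ := key _ (cl_iJ71 G hx) hR
    rcases (h x (iJ_cJ51 G hx)).1 with ⟨h1, h2, h3⟩ | ⟨h1, h2, h3⟩
    · rw [h1, h2, w1]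
    · rw [h1, h2, w2]
  · intro x hx hR
    obtain ⟨γ, β, w1, w2, h⟩ := key _ (cl_iJ71 G hx) hR
    rcases (h x (iJ_cJ51 G hx)).1 with ⟨h1, h2, h3⟩ | ⟨h1, h2, h3⟩
    · rw [h1, h3]
    · rw [h1, h3]
  · intro x hx hR
    have hC := cl_iJ71 G hx
    obtain ⟨C, hCe⟩ : ∃ C, C = G.cl x := ⟨_, rfl⟩
    rw [← hCe] at hC hR
    have hxC : x ∈ G.cJ C := by
      rw [hCe]
      exact iJ_cJ51 G hx
    obtain ⟨γ, β, w1, w2, h⟩ := key C hC hR
    have hS : ∀ y ∈ G.cJ C, TH G y + TH G (sg G y) = γ + 2 * β := by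
      intro y hy
      rcases (h y hy).1 with ⟨h1, h2, h3⟩ | ⟨h1, h2, h3⟩
      · rw [h1, h2]
      · rw [h1, h2]
        ring
    have hmem : ∀ y ∈ G.cJ C, sg G y ∈ G.cJ C := by
      intro y hy
      obtain ⟨h1, h2⟩ := cJ_iJ51 G hC hy
      obtain ⟨h3, h4⟩ := sg_mem51 G hG h1
      have := iJ_cJ51 G h3
      rw [h4, h2] at this
      exact this
    have hinj : Set.InjOn (sg G) ((G.cJ C : Finset (ℍ × ℍ)) : Set (ℍ × ℍ)) := by
      intro y hy z hz hyz
      exact sg_inj51 G hG (cJ_iJ51 G hC (Finset.mem_coe.1 hy)).1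
        (cJ_iJ51 G hC (Finset.mem_coe.1 hz)).1 hyz
    have himg : (G.cJ C).image (sg G) = G.cJ C := by
      apply Finset.eq_of_subset_of_card_le
      · intro y hy
        obtain ⟨z, hz, rfl⟩ := Finset.mem_image.1 hy
        exact hmem z hz
      · rw [Finset.card_image_of_injOn hinj]
    have hsum : ∑ y ∈ G.cJ C, TH G (sg G y) = ∑ y ∈ G.cJ C, TH G y := by
      conv_rhs => rw [← himg]
      rw [Finset.sum_image hinj]
    have h4 : (G.cJ C).card = 4 := by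
      have hsplit := card_split66 G C
      have hB : (G.cB C).card = 0 := by
        rw [cB_of_iC66 G hC]
        rfl
      have h1 := hR.1
      have h2 := hR.2
      omega
    have h5 : ∑ y ∈ G.cJ C, (TH G y + TH G (sg G y)) = 4 * (γ + 2 * β) := by
      rw [Finset.sum_congr rfl hS, Finset.sum_const, h4, nsmul_eq_mul]
      norm_num
    rw [Finset.sum_add_distrib, hsum, sum_TH_class71 G hG hC, sum_th71] at h5
    have h6 := hA C hC
    rw [hR.1] at h5 h6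
    unfold A3 at h6
    rw [hS x hxC]
    push_cast at h5 h6
    linarith
  · intro x hx hR
    have hC := cl_iJ71 G hx
    refine ⟨?_, TH_R51 G hG hx hR⟩
    obtain ⟨a, b, Rab, hy, s1, s2, s3, s4, t1, t2, t3, t4, q1, q2, q3, q4⟩ :=
      rh_data51 G hG hC hR
    have Rba : G.Rh b a := by
      obtain ⟨p1, p4, p3, c1, c2, c3, c4⟩ := Rab
      exact ⟨p4, p1, fun h => p3 (G.csymm _ _ h), c3, c4, c1, c2⟩
    have r1 := hG.rh1 _ _ Rab
    have r2 := hG.rh2 _ _ Rab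
    have r3 := hG.rh1 _ _ Rba
    have r4 := hG.rh2 _ _ Rba
    rcases hy x (iJ_cJ51 G hx) with h | h | h | h
    · rw [h, t1]; linarith [r4.1]
    · rw [h, t2]; exact r1.1
    · rw [h, t3]; linarith [r2.1]
    · rw [h, t4]; exact r3.1
  · intro x hx hR
    obtain ⟨γ, β, w1, w2, h⟩ := key _ (cl_iJ71 G hx) hR
    exact (h x (iJ_cJ51 G hx)).2

end

end Pool.Agent.PEN
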