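import Pool.Agent.P4.W4B_71
import Pool.Agent.P4.Rf51b
import Pool.Agent.P4.F66

/-! # PENNY, version 4: the rhombus facts and the choice of the corners over `Geo4` (copies of Rf51, Rf51b, F66) -/

set_option autoImplicit false

namespace Pool.Agent.PEN.W4

open Classical UpperHalfPlane

noncomputable section

section
variable {V : Type} (G : Tg V) {al : ℝ} {kp : V → V → ℝ} {U : ℕ → ℝ}

/-- the four corners of a rhombus class -/
theorem rh_data51 (hG : G.Geo4 al kp U) {C : G.adj.ConnectedComponent} (hC : C ∈ G.iC)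
    (hR : RC G C) : ∃ a b, G.Rh a b ∧
    (∀ x ∈ G.cJ C, x = (b, G.ap a b) ∨ x = (G.ap a b, a) ∨ x = (a, G.ap b a) ∨
      x = (G.ap b a, b)) ∧
    sg G (b, G.ap a b) = (G.ap a b, a) ∧ sg G (G.ap a b, a) = (a, G.ap b a) ∧
    sg G (a, G.ap b a) = (G.ap b a, b) ∧ sg G (G.ap b a, b) = (b, G.ap a b) ∧
    TH G (b, G.ap a b) = G.th b (G.ap a b) + G.th b a ∧ TH G (G.ap a b, a) = G.th (G.ap a b) a ∧
    TH G (a, G.ap b a) = G.th a (G.ap b a) + G.th a b ∧ TH G (G.ap b a, b) = G.th (G.ap b a) b ∧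
    ¬ Q51 G (b, G.ap a b) ∧ Q51 G (G.ap a b, a) ∧ ¬ Q51 G (a, G.ap b a) ∧
      Q51 G (G.ap b a, b) := by
  have hB := cB_of_iC66 G hC
  obtain ⟨hm, hI⟩ := hR
  obtain ⟨x, hx⟩ : (G.cI C).Nonempty := by
    rw [← Finset.card_pos]
    omega
  obtain ⟨a, b⟩ := x
  have hx' : (b, a) ∈ G.cI C := swap_cD66 G hx
  have R1 : G.Rh a b := Rh_of_class66 G hB hI hx
  obtain ⟨p1, p4, p3, c1, c2, c3, c4⟩ := R1
  have hxD : (a, b) ∈ G.cD C := cI_sub11 G hx
  have hxD' : (b, a) ∈ G.cD C := cI_sub11 G hx'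
  have p3' : ¬ G.con b a := fun h => p3 (G.csymm _ _ h)
  have n1 := G.ne _ _ (G.sub p1)
  have n2 := G.ne _ _ (G.sub (G.ap1 _ _ p1))
  have n3 := G.ne _ _ (G.sub (G.ap2 _ _ p1))
  have n2' := G.ne _ _ (G.sub (G.ap1 _ _ p4))
  have n3' := G.ne _ _ (G.sub (G.ap2 _ _ p4))
  have hII : G.cI C = {(a, b), (b, a)} := by
    symm
    apply Finset.eq_of_subset_of_card_le
    · intro y hy
      rw [Finset.mem_insert, Finset.mem_singleton] at hy
      rcases hy with rfl | rfl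
      · exact hx
      · exact hx'
    · rw [hI, Finset.card_pair]
      intro h
      exact n1 (congrArg Prod.fst h)
  have hT : G.cT C = {G.tri (a, b), G.tri (b, a)} := by
    symm
    apply Finset.eq_of_subset_of_card_le
    · intro y hy
      rw [Finset.mem_insert, Finset.mem_singleton] at hy
      rcases hy with rfl | rfl
      · exact mem_cT66 G hxD
      · exact mem_cT66 G hxD'
    · rw [hm, Finset.card_pair (tri_swap66 G p1 p4)]
  -- apexes
  have e1 : G.ap b (G.ap a b) = a := G.ap3 _ _ p1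
  have e2 : G.ap (G.ap a b) a = b := G.ap4 _ _ p1
  have e3 : G.ap a (G.ap b a) = b := G.ap3 _ _ p4
  have e4 : G.ap (G.ap b a) b = a := G.ap4 _ _ p4
  -- the outer darts
  have i0 : G.inn (a, b) := ⟨p1, by rw [((mem_cD66 G).1 hxD).2]; exact hB⟩
  have i0' : G.inn (b, a) := ⟨p4, by rw [((mem_cD66 G).1 hxD').2]; exact hB⟩
  have j1 : (b, G.ap a b) ∈ iJ G := (mem_iJ71 G).2 ⟨inn_rot27 G i0, c1⟩
  have j2 : (G.ap a b, a) ∈ iJ G := (mem_iJ71 G).2 ⟨inn_rot27' G i0, c2⟩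
  have j3 : (a, G.ap b a) ∈ iJ G := (mem_iJ71 G).2 ⟨inn_rot27 G i0', c3⟩
  have j4 : (G.ap b a, b) ∈ iJ G := (mem_iJ71 G).2 ⟨inn_rot27' G i0', c4⟩
  have cC1 : (b, G.ap a b) ∈ G.cJ C := by
    unfold Tg.cJ
    rw [Finset.mem_filter]
    have := (mem_cD66 G).1 (rot_cD66 G hxD)
    exact ⟨this.1, this.2, c1⟩
  have cC2 : (G.ap a b, a) ∈ G.cJ C := by
    unfold Tg.cJ
    rw [Finset.mem_filter]
    have := (mem_cD66 G).1 (rot_cD66' G hxD)
    exact ⟨this.1, this.2, c2⟩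
  have cC3 : (a, G.ap b a) ∈ G.cJ C := by
    unfold Tg.cJ
    rw [Finset.mem_filter]
    have := (mem_cD66 G).1 (rot_cD66 G hxD')
    exact ⟨this.1, this.2, c3⟩
  have cC4 : (G.ap b a, b) ∈ G.cJ C := by
    unfold Tg.cJ
    rw [Finset.mem_filter]
    have := (mem_cD66 G).1 (rot_cD66' G hxD')
    exact ⟨this.1, this.2, c4⟩
  -- og
  have o1 : G.og a b = G.ap b a := by
    have h := (og_next66 G p3 (by
      change G.con a (G.ap b a)
      exact c3)).2
    exact h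
  have o2 : G.og b a = G.ap a b := by
    have h := (og_next66 G p3' (by
      change G.con b (G.ap a b)
      exact c1)).2
    exact h
  have o3 : G.og (G.ap a b) a = a := (og_self66 G c2).2
  have o4 : G.og (G.ap b a) b = b := (og_self66 G c4).2
  -- gaps
  have far : ∀ z ∈ G.cJ C, z.1 ≠ a → z.1 ≠ b → TH G z = G.th z.1 z.2 := by
    intro z hz h1 h2
    have h3 := gp_sub71 G hG hC hz
    have h4 : (G.cI C).filter (fun y => y.1 = z.1) = ∅ := by
      rw [Finset.filter_eq_empty_iff]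
      intro y hy h
      rw [hII, Finset.mem_insert, Finset.mem_singleton] at hy
      rcases hy with rfl | rfl
      · exact h1 h.symm
      · exact h2 h.symm
    rw [h4] at h3
    have h5 : gp G z = {z} := by
      apply Finset.Subset.antisymm
      · exact h3
      · rw [Finset.singleton_subset_iff]
        exact gp_self71 G (cJ_iJ51 G hC hz).1
    unfold TH
    rw [h5, Finset.sum_singleton]
  have near : ∀ z ∈ G.cJ C, ∀ w ∈ G.cI C, z.1 = w.1 → G.og w.1 w.2 = z.2 →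
      TH G z = G.th z.1 z.2 + G.th w.1 w.2 := by
    intro z hz w hw h1 h2
    have h3 := gp_sub71 G hG hC hz
    have h4 : (G.cI C).filter (fun y => y.1 = z.1) ⊆ {w} := by
      intro y hy
      rw [Finset.mem_filter] at hy
      rw [Finset.mem_singleton]
      obtain ⟨hy1, hy2⟩ := hy
      rw [hII, Finset.mem_insert, Finset.mem_singleton] at hy1 hw
      rcases hy1 with rfl | rfl <;> rcases hw with rfl | rfl
      · rfl
      · exact absurd (hy2.trans h1) n1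
      · exact absurd (hy2.trans h1).symm n1
      · rfl
    have hwD := (mem_cD66 G).1 (cI_sub11 G hw)
    have h5 : gp G z = {z, w} := by
      apply Finset.Subset.antisymm
      · intro y hy
        rcases Finset.mem_insert.1 (h3 hy) with h | h
        · rw [h]
          exact Finset.mem_insert_self _ _
        · exact Finset.mem_insert_of_mem (h4 h)
      · intro y hy
        rw [Finset.mem_insert, Finset.mem_singleton] at hy
        rcases hy with rfl | rfl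
        · exact gp_self71 G (cJ_iJ51 G hC hz).1
        · unfold gp
          rw [Finset.mem_filter, mem_iD27]
          refine ⟨⟨hwD.1, by rw [hwD.2]; exact hB⟩, h1.symm, ?_⟩
          rw [h1]
          exact h2
    unfold TH
    rw [h5, Finset.sum_pair]
    intro h
    have h6 := cI_ncon11 G hw
    rw [← h] at h6
    unfold Tg.cJ at hz
    rw [Finset.mem_filter] at hz
    exact h6 hz.2.2
  refine ⟨a, b, ⟨p1, p4, p3, c1, c2, c3, c4⟩, ?_, ?_, ?_, ?_, ?_, ?_, ?_, ?_, ?_, ?_, ?_, ?_, ?_⟩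
  · intro z hz
    have hzD := cJ_sub66 G C hz
    have hzp := ((mem_cD66 G).1 hzD).1
    have hzc : G.con z.1 z.2 := by
      unfold Tg.cJ at hz
      rw [Finset.mem_filter] at hz
      exact hz.2.2
    have h2 := mem_cT66 G hzD
    rw [hT, Finset.mem_insert, Finset.mem_singleton] at h2
    rcases h2 with h2 | h2
    · rcases (tri_eq_iff G p1 hzp).1 h2.symm with h3 | h3 | h3
      · rw [h3] at hzc
        exact absurd hzc p3
      · exact Or.inl h3
      · exact Or.inr (Or.inl h3)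
    · rcases (tri_eq_iff G p4 hzp).1 h2.symm with h3 | h3 | h3
      · rw [h3] at hzc
        exact absurd hzc p3'
      · exact Or.inr (Or.inr (Or.inl h3))
      · exact Or.inr (Or.inr (Or.inr h3))
  · unfold sg
    dsimp only
    rw [e1, o3]
  · unfold sg
    dsimp only
    rw [e2, o1]
  · unfold sg
    dsimp only
    rw [e3, o4]
  · unfold sg
    dsimp only
    rw [e4, o2]
  · exact near _ cC1 _ hx' rfl o2
  · exact far _ cC2 n3 (fun h => n2 h.symm)
  · exact near _ cC3 _ hx rfl o1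
  · exact far _ cC4 (fun h => n2' h.symm) n3'
  · unfold Q51
    dsimp only
    rw [e1]
    exact p3'
  · unfold Q51
    dsimp only
    rw [e2]
    exact G.csymm _ _ c1
  · unfold Q51
    dsimp only
    rw [e3]
    exact p3
  · unfold Q51
    dsimp only
    rw [e4]
    exact G.csymm _ _ c3

end

section
/-- **the rhombus facts** -/
theorem rf51 {G : Tg ℍ} {d : ℝ} {kp : ℍ → ℍ → ℝ} {U : ℕ → ℝ} (hG : G.Geo4 (alpha d) kp U)
    (hD : DelG G d)
    (hA : ∀ C ∈ G.iC, A3 (alpha d) * (G.cT C).card ≤ ∑ x ∈ G.cD C, G.ar x.1 x.2 / 3) :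
    Rf G (alpha d) (opp51 d) := by
  have hd := hD.hd
  -- the values in a class
  have key : ∀ C ∈ G.iC, RC G C → ∃ γ β : ℝ, opp51 d γ = 2 * β ∧ opp51 d (2 * β) = γ ∧
      ∀ x ∈ G.cJ C, ((TH G x = γ ∧ TH G (sg G x) = 2 * β ∧ TH G (sg G (sg G x)) = γ) ∨
        (TH G x = 2 * β ∧ TH G (sg G x) = γ ∧ TH G (sg G (sg G x)) = 2 * β)) ∧
        (Q51 G (sg G x) ↔ ¬ Q51 G x) := by
    intro C hC hR
    obtain ⟨a, b, ⟨p1, p4, p3, c1, c2, c3, c4⟩, hx, s1, s2, s3, s4, t1, t2, t3, t4, q1, q2, q3, q4⟩ :=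
      rh_data51 G hG hC hR
    obtain ⟨u1, u2, u3, u4, ⟨v1, v2⟩, ⟨v3, v4⟩, v5⟩ := rhomb_eq51 hd (hD.ori _ _ p1)
      (hD.ori _ _ p4) (hD.con _ _ c1) (hD.con _ _ c2) (hD.con _ _ c3) (hD.con _ _ c4)
      (hD.sep _ _ p1)
    obtain ⟨w1, w2⟩ := opp_apex51 v1 v2 v3 v4 v5
    have e1 : G.ap b (G.ap a b) = a := G.ap3 _ _ p1
    have e2 : G.ap (G.ap a b) a = b := G.ap4 _ _ p1
    have e3 : G.ap a (G.ap b a) = b := G.ap3 _ _ p4
    have e4 : G.ap (G.ap b a) b = a := G.ap4 _ _ p4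
    have h1 : G.th b (G.ap a b) = ang a b (G.ap a b) := by
      rw [hD.th _ _ (G.ap1 _ _ p1), e1, u3]
    have h2 : G.th b a = ang a b (G.ap a b) := by
      rw [hD.th _ _ p4, u2]
    have h3 : G.th (G.ap a b) a = ang (G.ap a b) a b := by
      rw [hD.th _ _ (G.ap2 _ _ p1), e2]
    have h4 : G.th a (G.ap b a) = ang a b (G.ap a b) := by
      rw [hD.th _ _ (G.ap1 _ _ p4), e3, u1]
    have h5 : G.th a b = ang a b (G.ap a b) := hD.th _ _ p1
    have h6 : G.th (G.ap b a) b = ang (G.ap a b) a b := by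
      rw [hD.th _ _ (G.ap2 _ _ p4), e4, u4]
    rw [h1, h2, ← two_mul] at t1
    rw [h3] at t2
    rw [h4, h5, ← two_mul] at t3
    rw [h6] at t4
    refine ⟨ang (G.ap a b) a b, ang a b (G.ap a b), w1, w2, ?_⟩
    intro x hx'
    rcases hx x hx' with rfl | rfl | rfl | rfl
    · rw [s1, s2]
      exact ⟨Or.inr ⟨t1, t2, t3⟩, fun _ => q1, fun _ => q2⟩
    · rw [s2, s3]
      exact ⟨Or.inl ⟨t2, t3, t4⟩, fun h => absurd h q3, fun h => absurd q2 h⟩
    · rw [s3, s4]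
      exact ⟨Or.inr ⟨t3, t4, t1⟩, fun _ => q3, fun _ => q4⟩
    · rw [s4, s1]
      exact ⟨Or.inl ⟨t4, t1, t2⟩, fun h => absurd h q1, fun h => absurd q4 h⟩
  refine ⟨?_, ?_, ?_, ?_, ?_⟩
  · intro x hx hR
    obtain ⟨γ, β, w1, w2, h⟩ := key _ (cl_iJ71 G hx) hR
    rcases (h x (iJ_cJ51 G hx)).1 with ⟨h1, h2, h3⟩ | ⟨h1, h2, h3⟩
    · rw [h1, h2, w1]
    · rw [h1, h2, w2]
  · intro x hx hR
    obtain ⟨γ, β, w1, w2, h⟩ := key _ (cl_iJ71 G hx) hR
    rcases (h x (iJ_cJ51 G hx)).1 with ⟨h1, h2, h3⟩ | ⟨h1, h2, h3⟩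
    · rw [h1, h3]
    · rw [h1, h3]
  · intro x hx hR
    have hC := cl_iJ71 G hx
    obtain ⟨C, hCe⟩ : ∃ C, C = G.cl x := ⟨_, rfl⟩
    rw [← hCe] at hC hR
    have hxC : x ∈ G.cJ C := by
      rw [hCe]
      exact iJ_cJ51 G hx
    obtain ⟨γ, β, w1, w2, h⟩ := key C hC hR
    have hS : ∀ y ∈ G.cJ C, TH G y + TH G (sg G y) = γ + 2 * β := by
      intro y hy
      rcases (h y hy).1 with ⟨h1, h2, h3⟩ | ⟨h1, h2, h3⟩
      · rw [h1, h2]
      · rw [h1, h2]
        ring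
    have hmem : ∀ y ∈ G.cJ C, sg G y ∈ G.cJ C := by
      intro y hy
      obtain ⟨h1, h2⟩ := cJ_iJ51 G hC hy
      obtain ⟨h3, h4⟩ := sg_mem51 G hG h1
      have := iJ_cJ51 G h3
      rw [h4, h2] at this
      exact this
    have hinj : Set.InjOn (sg G) ((G.cJ C : Finset (ℍ × ℍ)) : Set (ℍ × ℍ)) := by
      intro y hy z hz hyz
      exact sg_inj51 G hG (cJ_iJ51 G hC (Finset.mem_coe.1 hy)).1
        (cJ_iJ51 G hC (Finset.mem_coe.1 hz)).1 hyz
    have himg : (G.cJ C).image (sg G) = G.cJ C := by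
      apply Finset.eq_of_subset_of_card_le
      · intro y hy
        obtain ⟨z, hz, rfl⟩ := Finset.mem_image.1 hy
        exact hmem z hz
      · rw [Finset.card_image_of_injOn hinj]
    have hsum : ∑ y ∈ G.cJ C, TH G (sg G y) = ∑ y ∈ G.cJ C, TH G y := by
      conv_rhs => rw [← himg]
      rw [Finset.sum_image hinj]
    have h4 : (G.cJ C).card = 4 := by
      have hsplit := card_split66 G C
      have hB : (G.cB C).card = 0 := by
        rw [cB_of_iC66 G hC]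
        rfl
      have h1 := hR.1
      have h2 := hR.2
      omega
    have h5 : ∑ y ∈ G.cJ C, (TH G y + TH G (sg G y)) = 4 * (γ + 2 * β) := by
      rw [Finset.sum_congr rfl hS, Finset.sum_const, h4, nsmul_eq_mul]
      norm_num
    rw [Finset.sum_add_distrib, hsum, sum_TH_class71 G hG hC, sum_th71] at h5
    have h6 := hA C hC
    rw [hR.1] at h5 h6
    unfold A3 at h6
    rw [hS x hxC]
    push_cast at h5 h6
    linarith
  · intro x hx hR
    have hC := cl_iJ71 G hx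
    refine ⟨?_, TH_R51 G hG hx hR⟩
    obtain ⟨a, b, Rab, hy, s1, s2, s3, s4, t1, t2, t3, t4, q1, q2, q3, q4⟩ :=
      rh_data51 G hG hC hR
    have Rba : G.Rh b a := by
      obtain ⟨p1, p4, p3, c1, c2, c3, c4⟩ := Rab
      exact ⟨p4, p1, fun h => p3 (G.csymm _ _ h), c3, c4, c1, c2⟩
    have r1 := hG.rh1 _ _ Rab
    have r2 := hG.rh2 _ _ Rab
    have r3 := hG.rh1 _ _ Rba
    have r4 := hG.rh2 _ _ Rba
    rcases hy x (iJ_cJ51 G hx) with h | h | h | h
    · rw [h, t1]; linarith [r4.1]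
    · rw [h, t2]; exact r1.1
    · rw [h, t3]; linarith [r2.1]
    · rw [h, t4]; exact r3.1
  · intro x hx hR
    obtain ⟨γ, β, w1, w2, h⟩ := key _ (cl_iJ71 G hx) hR
    exact (h x (iJ_cJ51 G hx)).2

end

section
variable {V : Type} (G : Tg V) {al : ℝ} {kp : V → V → ℝ} {U : ℕ → ℝ}

theorem TH_rg66 {d : ℝ} (hG : G.Geo4 (alpha d) kp U) (hR : Rf G (alpha d) (opp51 d))
    {x : V × V} (hx : x ∈ iJ G) (hC : RC G (G.cl x)) : 0 < TH G x ∧ TH G x < Real.pi := by
  have h1 := hR.low x hx hC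
  have h2 := hR.sum x hx hC
  obtain ⟨h3, h4⟩ := sg_mem51 G hG hx
  have h5 := hR.low _ h3 (by rw [h4]; exact hC)
  have h6 := hG.al1
  have h7 := hG.al2
  have := Real.pi_pos
  constructor <;> linarith

theorem F_alt66 {d : ℝ} (hd : 0 < d) (hG : G.Geo4 (alpha d) kp U)
    (hR : Rf G (alpha d) (opp51 d)) :
    ∀ x ∈ iJ G, RC G (G.cl x) → (F66 G d (sg G x) ↔ ¬ F66 G d x) := by
  intro x hx hC
  obtain ⟨h0, h1⟩ := TH_rg66 G hG hR hx hC
  have h2 := hR.opp x hx hC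
  have h3 := hR.alt x hx hC
  rcases lt_trichotomy (TH G x) (qa66 d) with h | h | h
  · have h4 : qa66 d < TH G (sg G x) := by
      rw [h2]
      exact opp_gt_qa66 hd h0 h
    rw [F_lt66 G h, F_gt66 G h4, h2, opp_opp66 h0 h1]
  · have h4 : TH G (sg G x) = qa66 d := by
      rw [h2, h, opp_qa66 hd]
    rw [F_eq66 G h, F_eq66 G h4, h3]
  · have h4 : TH G (sg G x) < qa66 d := by
      rw [h2]
      exact opp_lt_qa66 hd h h1
    rw [F_gt66 G h, F_lt66 G h4, h2, not_not]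

/-- **inequality B for every diameter that is not a chain diameter** -/
theorem B_F66 {d : ℝ} (hd : 0 < d) (hE : ¬ Exc66 d) (hG : G.Geo4 (alpha d) kp U)
    (hR : Rf G (alpha d) (opp51 d))
    (hA : ∀ C ∈ G.iC, A3 (alpha d) * (G.cT C).card ≤ ∑ x ∈ G.cD C, G.ar x.1 x.2 / 3)
    (hP : ∀ C ∈ G.iC, (G.cT C).card = 3 → (G.cI C).card = 4 →
      ∑ x ∈ G.cJ C, wc G (alpha d) x ≤ 12) :
    (8 * alpha d - 2 * Real.pi) * ((G.P.card : ℝ) - G.oJ.card) ≤
      2 * alpha d * G.iI.card +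
        (∑ x ∈ G.iD, G.ar x.1 x.2 / 3 - A3 (alpha d) * (G.iD.card / 3)) := by
  refine B_ineq G hG (F66 G d) (F_alt66 G hd hG hR) (fun x _ _ h => F_five66 G hE h) ?_ hA hP
  intro x hx y hy hxC hyC _ _ h
  obtain ⟨h1, h2⟩ := TH_rg66 G hG hR hx hxC
  obtain ⟨h3, h4⟩ := TH_rg66 G hG hR hy hyC
  exact F_two66 G hd hG.al2 hE h1 h2 h3 h4 h

end

end

end Pool.Agent.PEN.W4
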