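import Pool.Agent.P4.Defs3

/-! # PENNY, versions 4 and 5: the arithmetic -/

set_option autoImplicit false

namespace Pool.Agent.PEN

noncomputable section

/-- the table of inequality B: `e` bounds `(2π - 6α)/α`, `r` bounds `ν₁₂`, `c` bounds `g/A3` -/
def TB (e r c : ℝ) : Prop :=
  (e = 0.1298 ∧ r = 23.247 ∧ c = 6.007) ∨ (e = 0.1368 ∧ r = 23.178 ∧ c = 5.912) ∨
  (e = 0.1528 ∧ r = 23.066 ∧ c = 5.764) ∨ (e = 0.1871 ∧ r = 22.818 ∧ c = 5.462) ∨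
  (e = 0.2487 ∧ r = 22.324 ∧ c = 4.954) ∨ (e = 0.3634 ∧ r = 21.548 ∧ c = 4.325)

/-- chord from `(3, 1)` to `(12, r)`, then slope `c` -/
def NuB (r c : ℝ) (b : ℕ) : ℝ := if b ≤ 12 then 1 + (r - 1) / 9 * (b - 3) else r + c * (b - 12)

theorem Lb_facts11 (n : ℕ) (hn : 10 ≤ n) : 7 * n ≤ 3 * Lb n + 17 ∧ 19 * n ≤ 8 * Lb n + 55 ∧
    (n = 29 → 63 ≤ Lb n) ∧ (93 ≤ n → 50 * n ≤ 21 * Lb n + 155) := by
  have h1 : (7 * n - 15) / 3 ≤ Lb n := le_trans (le_max_left _ _) (le_max_left _ _)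
  have h2 : (19 * n - 48) / 8 ≤ Lb n := le_trans (le_max_right _ _) (le_max_left _ _)
  have h3 : (if n = 29 then 63 else if 93 ≤ n then (50 * n - 135) / 21 else 0) ≤ Lb n :=
    le_max_right _ _
  refine ⟨by omega, by omega, ?_, ?_⟩
  · intro h
    rw [if_pos h] at h3
    exact h3
  · intro h
    rw [if_neg (by omega), if_pos h] at h3
    omega

/-- row B of the arithmetic -/
theorem arB {e r c : ℝ} (hT : TB e r c) (n b t J : ℕ) (τ : ℝ) (hn : 10 ≤ n) (hb : 3 ≤ b)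
    (h1 : t + b + 2 ≤ 2 * n) (h2 : (t : ℝ) ≤ τ) (h3 : τ ≤ NuB r c b)
    (hB : (2 - e) * ((n : ℝ) - b) ≤ 2 * J + e / 2 * (τ - t)) :
    3 * t + b < 2 * Lb n + 2 + J := by
  by_contra hc
  rw [not_lt] at hc
  obtain ⟨l1, l2, l3, l4⟩ := Lb_facts11 n hn
  generalize Lb n = l at l1 l2 l3 l4 hc
  have hc' : (2 * l + 2 + J : ℝ) ≤ 3 * t + b := by exact_mod_cast hc
  have l1' : (7 * n : ℝ) ≤ 3 * l + 17 := by exact_mod_cast l1
  have l2' : (19 * n : ℝ) ≤ 8 * l + 55 := by exact_mod_cast l2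
  have h1' : (t + b + 2 : ℝ) ≤ 2 * n := by exact_mod_cast h1
  have hn' : (10 : ℝ) ≤ n := by exact_mod_cast hn
  have hb' : (3 : ℝ) ≤ b := by exact_mod_cast hb
  have ht' : (0 : ℝ) ≤ t := Nat.cast_nonneg t
  have hJ' : (0 : ℝ) ≤ J := Nat.cast_nonneg J
  unfold NuB at h3
  by_cases hb12 : b ≤ 12
  · rw [if_pos hb12] at h3
    have hb12' : (b : ℝ) ≤ 12 := by exact_mod_cast hb12
    rcases hT with ⟨rfl, rfl, rfl⟩ | ⟨rfl, rfl, rfl⟩ | ⟨rfl, rfl, rfl⟩ | ⟨rfl, rfl, rfl⟩ |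
      ⟨rfl, rfl, rfl⟩ | ⟨rfl, rfl, rfl⟩
    · linarith
    · linarith
    · linarith
    · linarith
    · linarith
    · linarith
  · rw [if_neg hb12] at h3
    have hb12' : (12 : ℝ) ≤ b := by
      have : 12 ≤ b := by omega
      exact_mod_cast this
    by_cases h93 : 93 ≤ n
    · have l4' : (50 * n : ℝ) ≤ 21 * l + 155 := by exact_mod_cast l4 h93
      have h93' : (93 : ℝ) ≤ n := by exact_mod_cast h93
      rcases hT with ⟨rfl, rfl, rfl⟩ | ⟨rfl, rfl, rfl⟩ | ⟨rfl, rfl, rfl⟩ | ⟨rfl, rfl, rfl⟩ |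
        ⟨rfl, rfl, rfl⟩ | ⟨rfl, rfl, rfl⟩
      · linarith
      · linarith
      · linarith
      · linarith
      · linarith
      · linarith
    · have h92' : (n : ℝ) ≤ 92 := by
        have : n ≤ 92 := by omega
        exact_mod_cast this
      rcases hT with ⟨rfl, rfl, rfl⟩ | ⟨rfl, rfl, rfl⟩ | ⟨rfl, rfl, rfl⟩ | ⟨rfl, rfl, rfl⟩ |
        ⟨rfl, rfl, rfl⟩ | ⟨rfl, rfl, rfl⟩
      · linarith
      · linarith
      · linarith
      · linarith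
      · linarith
      · linarith

/-- inequality B with an upper bound for `e` -/
theorem B_mono11 {e e' n b J t τ : ℝ} (he0 : 0 ≤ e') (he : e ≤ e') (he2 : e' ≤ 2) (hJ : 0 ≤ J)
    (ht : t ≤ τ) (hB : (2 - e) * (n - b) ≤ 2 * J + e / 2 * (τ - t)) :
    (2 - e') * (n - b) ≤ 2 * J + e' / 2 * (τ - t) := by
  have h1 : e / 2 * (τ - t) ≤ e' / 2 * (τ - t) :=
    mul_le_mul_of_nonneg_right (by linarith) (sub_nonneg.2 ht)
  rcases le_total b n with h | h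
  · have h2 : (2 - e') * (n - b) ≤ (2 - e) * (n - b) :=
      mul_le_mul_of_nonneg_right (by linarith) (sub_nonneg.2 h)
    linarith
  · have h2 : (2 - e') * (n - b) ≤ 0 :=
      mul_nonpos_of_nonneg_of_nonpos (by linarith) (sub_nonpos.2 h)
    have h3 : 0 ≤ e' / 2 * (τ - t) := mul_nonneg (by linarith) (sub_nonneg.2 ht)
    linarith

/-- inequality G with an upper bound for `e` -/
theorem G_mono11 {e e' n b J t τ : ℝ} (he0 : 0 ≤ e') (he : e ≤ e') (he2 : e' ≤ 1) (hJ : 0 ≤ J)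
    (ht : t ≤ τ) (hG : (1 - e) * (n - b) ≤ J + e / 2 * (τ - t)) :
    (1 - e') * (n - b) ≤ J + e' / 2 * (τ - t) := by
  have h1 : e / 2 * (τ - t) ≤ e' / 2 * (τ - t) :=
    mul_le_mul_of_nonneg_right (by linarith) (sub_nonneg.2 ht)
  rcases le_total b n with h | h
  · have h2 : (1 - e') * (n - b) ≤ (1 - e) * (n - b) :=
      mul_le_mul_of_nonneg_right (by linarith) (sub_nonneg.2 h)
    linarith
  · have h2 : (1 - e') * (n - b) ≤ 0 :=
      mul_nonpos_of_nonneg_of_nonpos (by linarith) (sub_nonpos.2 h)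
    have h3 : 0 ≤ e' / 2 * (τ - t) := mul_nonneg (by linarith) (sub_nonneg.2 ht)
    linarith

end

end Pool.Agent.PEN
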