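import Pool.Agent.P4.NumG52
import Pool.Agent.P4.Ar11

/-! # Numbers of inequality B: `1077 / 1000 ≤ cosh d ≤ 611 / 500`

With `x = A3` and `s = 1 / cosh (d / 2)` the quotients `Ust69 d 12 / A3` and `g51 d / A3` are
antitone in `d`, and `Ust69 d b` is convex in `b`, of slope at most `g51 d`. -/

set_option autoImplicit false

namespace Pool.Agent.PEN

open Classical UpperHalfPlane

noncomputable section

/-! ### The slope -/

/-- the limit `c → 1` of the monotone quotient -/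
theorem ratio_one69 {c0 s σ : ℝ} (h0 : 0 < c0) (h1 : c0 < 1) (hs : 0 ≤ s) (hsσ : s ≤ σ)
    (hσ : σ ≤ 1) :
    Real.arccos s * (Real.arccos (σ * c0) - Real.arccos c0) ≤
      Real.arccos σ * (Real.arccos (s * c0) - Real.arccos c0) := by
  have c1 : ∀ y : ℝ, Continuous fun c : ℝ => Real.arccos (y * c) := fun y =>
    Real.continuous_arccos.comp (continuous_const.mul continuous_id)
  have hcl : IsClosed {c : ℝ | (Real.arccos (s * c) - Real.arccos c) *
      (Real.arccos (σ * c0) - Real.arccos c0) ≤ (Real.arccos (σ * c) - Real.arccos c) *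
      (Real.arccos (s * c0) - Real.arccos c0)} :=
    isClosed_le (((c1 s).sub Real.continuous_arccos).mul continuous_const)
      (((c1 σ).sub Real.continuous_arccos).mul continuous_const)
  have hsub : Set.Ico c0 1 ⊆ {c : ℝ | (Real.arccos (s * c) - Real.arccos c) *
      (Real.arccos (σ * c0) - Real.arccos c0) ≤ (Real.arccos (σ * c) - Real.arccos c) *
      (Real.arccos (s * c0) - Real.arccos c0)} := fun c hc => ratio69 h0 hc.1 hc.2 hs hsσ hσ
  have hm : (1 : ℝ) ∈ closure (Set.Ico c0 1) := by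
    rw [closure_Ico (ne_of_lt h1)]
    exact ⟨h1.le, le_rfl⟩
  have h := closure_minimal hsub hcl hm
  simp only [Set.mem_ofPred_eq, mul_one, Real.arccos_one, sub_zero] at h
  exact h

theorem g51_eq69 {d : ℝ} (hd : 0 ≤ d) : g51 d = 2 * Real.arccos (1 / Real.cosh (d / 2)) := by
  rw [← psi51_zero_left hd, psi51_eq69 d le_rfl Real.pi_pos.le, Real.cos_zero, mul_one,
    Real.arccos_one, sub_zero]

/-- `1 / cosh (d / 2) ≤ sx52 x` when `x ≤ A3` -/
theorem s_le69 {d x : ℝ} (hd : 0 < d) (hx0 : 0 ≤ x) (h3 : x ≤ 3) (hx : x ≤ A3 (alpha d)) :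
    1 / Real.cosh (d / 2) ≤ sx52 x := by
  obtain ⟨s1, s2⟩ := inv_cosh69 d
  by_contra hcon
  push Not at hcon
  have e3 := A3_eq_W69 hd
  have e4 := W3_sx52 hx0 h3
  have h0 := sx_nonneg52 hx0 h3
  unfold W69 at e3 e4
  rw [show Real.cos (Real.pi / ((3 : ℕ) : ℝ)) = 1 / 2 by
    push_cast
    exact Real.cos_pi_div_three] at e3 e4
  have h5 : Real.arccos (1 / Real.cosh (d / 2) * (1 / 2)) < Real.arccos (sx52 x * (1 / 2)) :=
    Real.arccos_lt_arccos (by linarith) (by linarith) (by linarith)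
  push_cast at e3 e4
  linarith

/-- the bound of the slope at `x` holds for all larger `A3` -/
theorem g_tab69 {d : ℝ} (hd : 0 < d) {x q : ℝ} (hx0 : 0 < x) (h3 : x ≤ 3)
    (hx : x ≤ A3 (alpha d)) (hq0 : 0 ≤ q * x / 2) (hq1 : q * x / 2 ≤ 3)
    (hq : Real.cos (q * x / 2) ≤ sx52 x) : g51 d ≤ q * A3 (alpha d) := by
  obtain ⟨s1, s2⟩ := inv_cosh69 d
  have hs := s_le69 hd hx0.le h3 hx
  have e3 := A3_eq_W69 hd
  have e4 := W3_sx52 hx0.le h3
  rw [W69_eq (by norm_num), show Real.cos (Real.pi / ((3 : ℕ) : ℝ)) = 1 / 2 by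
    push_cast
    exact Real.cos_pi_div_three] at e3 e4
  push_cast at e3 e4
  have hr := ratio_one69 (c0 := 1 / 2) (by norm_num) (by norm_num) s1.le hs
    (sx_le_one52 hx0.le h3)
  have h5 := Real.arccos_le_arccos hq
  rw [Real.arccos_cos hq0 (by linarith [Real.pi_gt_three])] at h5
  have hA := A3_pos69 hd
  rw [g51_eq69 hd.le]
  set S := Real.arccos (1 / Real.cosh (d / 2))
  set T := Real.arccos (sx52 x)
  have h6 : 2 * S * x ≤ 2 * T * A3 (alpha d) := by
    rw [e3]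
    nth_rewrite 1 [← e4]
    linarith
  have h7 : 2 * T * A3 (alpha d) ≤ q * x * A3 (alpha d) :=
    mul_le_mul_of_nonneg_right (by linarith) hA.le
  have h8 : 2 * S * x ≤ q * A3 (alpha d) * x := by linarith
  exact le_of_mul_le_mul_right h8 hx0

/-! ### The 12-gon -/

theorem sin_pi_twelve69 : Real.sin (Real.pi / 12) = (2 - √3) * Real.cos (Real.pi / 12) := by
  have h1 := Real.sin_two_mul (Real.pi / 12)
  have h2 := Real.cos_two_mul (Real.pi / 12)
  have h3 := Real.sin_sq_add_cos_sq (Real.pi / 12)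
  rw [show 2 * (Real.pi / 12) = Real.pi / 6 by ring] at h1 h2
  rw [Real.sin_pi_div_six] at h1
  rw [Real.cos_pi_div_six] at h2
  set S := Real.sin (Real.pi / 12)
  set C := Real.cos (Real.pi / 12)
  have h4 : S * (2 * S * C) = (2 * S ^ 2) * C := by ring
  rw [← h1, show 2 * S ^ 2 = 1 - √3 / 2 by linarith] at h4
  linarith

theorem W12_69 {x q : ℝ} (h0 : 0 ≤ q * x / 24) (h1 : q * x / 24 ≤ 2)
    (h : Real.cos (q * x / 24) - (2 - √3) * Real.sin (q * x / 24) ≤ sx52 x) :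
    W69 12 (sx52 x) ≤ q * x := by
  have hpi := Real.pi_gt_three
  have hc : 0 < Real.cos (Real.pi / 12) :=
    Real.cos_pos_of_mem_Ioo ⟨by linarith, by linarith⟩
  have h2 : Real.cos (Real.pi / 12 + q * x / 24) ≤ sx52 x * Real.cos (Real.pi / 12) := by
    rw [Real.cos_add, sin_pi_twelve69]
    have h3 := mul_le_mul_of_nonneg_right h hc.le
    linarith
  have h4 := Real.arccos_le_arccos h2
  rw [Real.arccos_cos (by linarith) (by linarith)] at h4
  unfold W69
  push_cast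
  linarith

/-- rational test for the 12-gon -/
theorem W12_test69 {x q : ℝ} (hx0 : 0 ≤ x) (hx1 : x ≤ 1) (h0 : 0 ≤ q * x / 24)
    (h1 : q * x / 24 ≤ 2)
    (h : 1 - (q * x / 24) ^ 2 / 2 + (q * x / 24) ^ 4 / 24 -
        2679491 / 10000000 * (q * x / 24 - (q * x / 24) ^ 3 / 6) ≤
      1 - (x / 6) ^ 2 / 2 -
        17320509 / 10000000 * (x / 6 - (x / 6) ^ 3 / 6 + (x / 6) ^ 5 / 120)) :
    W69 12 (sx52 x) ≤ q * x := by
  apply W12_69 h0 h1
  have h2 := cos_le52 h0 (by linarith)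
  have h3 := Real.sin_ge_sub_cube (x := q * x / 24) h0
  have h4 := sx_lb52 hx0 hx1 h
  have h5 : √(3 : ℝ) ≤ 17320509 / 10000000 := by
    rw [Real.sqrt_le_left (by norm_num)]
    norm_num
  have h6 : 0 ≤ Real.sin (q * x / 24) :=
    Real.sin_nonneg_of_nonneg_of_le_pi h0 (by linarith [Real.pi_gt_three])
  have h7 : 2679491 / 10000000 * Real.sin (q * x / 24) ≤ (2 - √3) * Real.sin (q * x / 24) :=
    mul_le_mul_of_nonneg_right (by linarith) h6
  linarith

/-- rational test for the slope -/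
theorem g_test69 {d : ℝ} (hd : 0 < d) {x q : ℝ} (hx0 : 0 < x) (hx1 : x ≤ 1)
    (hx : x ≤ A3 (alpha d)) (h0 : 0 ≤ q * x / 2) (h1 : q * x / 2 ≤ 3)
    (h : 1 - (q * x / 2) ^ 2 / 2 + (q * x / 2) ^ 4 / 24 ≤ 1 - (x / 6) ^ 2 / 2 -
        17320509 / 10000000 * (x / 6 - (x / 6) ^ 3 / 6 + (x / 6) ^ 5 / 120)) :
    g51 d ≤ q * A3 (alpha d) :=
  g_tab69 hd hx0 (by linarith) hx h0 h1 ((cos_le52 h0 (by linarith)).trans (sx_lb52 hx0.le hx1 h))

/-! ### The bound of the regular polygons -/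

theorem Ust_three69 {d : ℝ} (hd : 0 < d) : Ust69 d 3 = A3 (alpha d) := by
  rw [Ust69_eq_W69 (by norm_num), ← A3_eq_W69 hd]

theorem NuB_of69 {d r c : ℝ} (hd : 0 < d) (hr : Ust69 d 12 ≤ r * A3 (alpha d))
    (hc : g51 d ≤ c * A3 (alpha d)) {b : ℕ} (hb : 3 ≤ b) :
    Ust69 d b ≤ NuB r c b * A3 (alpha d) := by
  have hb3 : (3 : ℝ) ≤ b := by exact_mod_cast hb
  unfold NuB
  split_ifs with h
  · have hb12 : (b : ℝ) ≤ 12 := by exact_mod_cast h
    have h1 := Ust_chord69 hd (a := 3) (b := b) (c := 12) (by norm_num) hb h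
    rw [Ust_three69 hd] at h1
    push_cast at h1
    have h2 := mul_le_mul_of_nonneg_left hr (sub_nonneg.2 hb3)
    linarith
  · have h12 : 12 ≤ b := by omega
    have hb12 : (12 : ℝ) ≤ b := by exact_mod_cast h12
    have h1 := Ust_tail69 hd (a := 12) (b := b) (by norm_num) h12
    push_cast at h1
    have h2 := mul_le_mul_of_nonneg_left hc (sub_nonneg.2 hb12)
    linarith

/-- `1077 / 1000 ≤ cosh d` gives `644 / 10000 ≤ A3` -/
theorem A3_ge644_69 {d : ℝ} (hd : 0 < d) (hC : 1077 / 1000 ≤ Real.cosh d) :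
    644 / 10000 ≤ A3 (alpha d) := by
  have hpi := Real.pi_gt_d4
  have hc := Real.cosh_pos d
  have hh : 1077 / 2077 ≤ Real.cos (alpha d) := by
    rw [cos_alpha hd, div_le_div_iff₀ (by norm_num) (by linarith)]
    linarith
  have h1 : Real.cos (Real.pi / 3 - 161 / 7500) < 1077 / 2077 := by
    rw [Real.cos_sub, Real.cos_pi_div_three, Real.sin_pi_div_three]
    have c := cos_le52 (t := 161 / 7500) (by norm_num) (by norm_num)
    have s := sin_le52 (x := 161 / 7500) (by norm_num) (by norm_num)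
    have h4 : 0 ≤ Real.sin (161 / 7500) :=
      Real.sin_nonneg_of_nonneg_of_le_pi (by norm_num) (by linarith)
    have h5 : √(3 : ℝ) ≤ 17320509 / 10000000 := by
      rw [Real.sqrt_le_left (by norm_num)]
      norm_num
    have s4 := mul_le_mul h5 s h4 (by norm_num)
    norm_num at c s4 ⊢
    linarith
  have h3 : alpha d ≤ Real.pi / 3 - 161 / 7500 := by
    by_contra hcon
    push Not at hcon
    have h4 := Real.cos_le_cos_of_nonneg_of_le_pi (by linarith) (alpha_le_pi39 d) hcon.le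
    linarith
  unfold A3
  linarith

theorem e_of69 {d x e : ℝ} (hd : 0 < d) (he0 : 0 ≤ e) (hx : A3 (alpha d) ≤ x)
    (he : 6 * x ≤ e * (3141592 / 1000000 - x)) :
    (2 * Real.pi - 6 * alpha d) / alpha d ≤ e := by
  have ha := alpha_pos hd
  have hp := Real.pi_gt_d6
  rw [div_le_iff₀ ha]
  unfold A3 at hx
  have h1 : e * (3141592 / 1000000 - x) ≤ e * (3 * alpha d) :=
    mul_le_mul_of_nonneg_left (by linarith) he0
  linarith

/-- one line of the table -/
theorem line69 {d x y e r c : ℝ} (hd : 0 < d) (hT : TB e r c) (hx0 : 0 < x) (hx1 : x ≤ 1)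
    (hx : x ≤ A3 (alpha d)) (hy : A3 (alpha d) ≤ y) (he0 : 0 ≤ e)
    (he : 6 * y ≤ e * (3141592 / 1000000 - y))
    (r0 : 0 ≤ r * x / 24) (r1 : r * x / 24 ≤ 2)
    (hr : 1 - (r * x / 24) ^ 2 / 2 + (r * x / 24) ^ 4 / 24 -
        2679491 / 10000000 * (r * x / 24 - (r * x / 24) ^ 3 / 6) ≤
      1 - (x / 6) ^ 2 / 2 -
        17320509 / 10000000 * (x / 6 - (x / 6) ^ 3 / 6 + (x / 6) ^ 5 / 120))
    (c0 : 0 ≤ c * x / 2) (c1 : c * x / 2 ≤ 3)
    (hc : 1 - (c * x / 2) ^ 2 / 2 + (c * x / 2) ^ 4 / 24 ≤ 1 - (x / 6) ^ 2 / 2 -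
        17320509 / 10000000 * (x / 6 - (x / 6) ^ 3 / 6 + (x / 6) ^ 5 / 120)) :
    ∃ e' r' c' : ℝ, TB e' r' c' ∧ (2 * Real.pi - 6 * alpha d) / alpha d ≤ e' ∧
      ∀ b : ℕ, 3 ≤ b → Ust69 d b ≤ NuB r' c' b * A3 (alpha d) :=
  ⟨e, r, c, hT, e_of69 hd he0 hy he, fun _ hb =>
    NuB_of69 hd (Ust_tab52 hd (by norm_num) hx0 (by linarith) hx
      (W12_test69 hx0.le hx1 r0 r1 hr)) (g_test69 hd hx0 hx1 hx c0 c1 hc) hb⟩

/-- **numbers of inequality B** -/
theorem numBx69 {d : ℝ} (hd : 0 < d) (k1 : 644 / 10000 ≤ A3 (alpha d))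
    (h2 : Real.cosh d ≤ 611 / 500) :
    ∃ e' r c : ℝ, TB e' r c ∧ (2 * Real.pi - 6 * alpha d) / alpha d ≤ e' ∧
      ∀ b : ℕ, 3 ≤ b → Ust69 d b ≤ NuB r c b * A3 (alpha d) := by
  have k2 := A3_le177_52 hd h2
  rcases le_total (A3 (alpha d)) (665 / 10000) with g1 | g1
  · exact line69 hd (x := 644 / 10000) (e := 0.1298) (r := 23.247) (c := 6.007)
      (by unfold TB; norm_num) (by norm_num) (by norm_num) k1 g1 (by norm_num) (by norm_num)
      (by norm_num) (by norm_num) (by norm_num) (by norm_num) (by norm_num) (by norm_num)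
  rcases le_total (A3 (alpha d)) (700 / 10000) with g2 | g2
  · exact line69 hd (x := 665 / 10000) (e := 0.1368) (r := 23.178) (c := 5.912)
      (by unfold TB; norm_num) (by norm_num) (by norm_num) g1 g2 (by norm_num) (by norm_num)
      (by norm_num) (by norm_num) (by norm_num) (by norm_num) (by norm_num) (by norm_num)
  rcases le_total (A3 (alpha d)) (780 / 10000) with g3 | g3
  · exact line69 hd (x := 700 / 10000) (e := 0.1528) (r := 23.066) (c := 5.764)
      (by unfold TB; norm_num) (by norm_num) (by norm_num) g2 g3 (by norm_num) (by norm_num)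
      (by norm_num) (by norm_num) (by norm_num) (by norm_num) (by norm_num) (by norm_num)
  rcases le_total (A3 (alpha d)) (950 / 10000) with g4 | g4
  · exact line69 hd (x := 780 / 10000) (e := 0.1871) (r := 22.818) (c := 5.462)
      (by unfold TB; norm_num) (by norm_num) (by norm_num) g3 g4 (by norm_num) (by norm_num)
      (by norm_num) (by norm_num) (by norm_num) (by norm_num) (by norm_num) (by norm_num)
  rcases le_total (A3 (alpha d)) (1250 / 10000) with g5 | g5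
  · exact line69 hd (x := 950 / 10000) (e := 0.2487) (r := 22.324) (c := 4.954)
      (by unfold TB; norm_num) (by norm_num) (by norm_num) g4 g5 (by norm_num) (by norm_num)
      (by norm_num) (by norm_num) (by norm_num) (by norm_num) (by norm_num) (by norm_num)
  exact line69 hd (x := 1250 / 10000) (y := 177 / 1000) (e := 0.3634) (r := 21.548)
      (c := 4.325) (by unfold TB; norm_num) (by norm_num) (by norm_num) g5 k2 (by norm_num)
      (by norm_num) (by norm_num) (by norm_num) (by norm_num) (by norm_num) (by norm_num)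
      (by norm_num)

theorem numB69 {d : ℝ} (hd : 0 < d) (h1 : 1077 / 1000 ≤ Real.cosh d)
    (h2 : Real.cosh d ≤ 611 / 500) :
    ∃ e' r c : ℝ, TB e' r c ∧ (2 * Real.pi - 6 * alpha d) / alpha d ≤ e' ∧
      ∀ b : ℕ, 3 ≤ b → Ust69 d b ≤ NuB r c b * A3 (alpha d) :=
  numBx69 hd (A3_ge644_69 hd h1) h2

/-- the same with the quotient `A / A3` -/
theorem numB_div69 {d : ℝ} (hd : 0 < d) (h1 : 1077 / 1000 ≤ Real.cosh d)
    (h2 : Real.cosh d ≤ 611 / 500) :
    ∃ e' r c : ℝ, TB e' r c ∧ (2 * Real.pi - 6 * alpha d) / alpha d ≤ e' ∧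
      ∀ (b : ℕ) (A : ℝ), 3 ≤ b → A ≤ Ust69 d b → A / A3 (alpha d) ≤ NuB r c b := by
  obtain ⟨e', r, c, hT, he, hN⟩ := numB69 hd h1 h2
  refine ⟨e', r, c, hT, he, fun b A hb hA => ?_⟩
  rw [div_le_iff₀ (A3_pos69 hd)]
  exact hA.trans (hN b hb)

end

end Pool.Agent.PEN
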