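import Pool.Agent.P4.Y71k
import Pool.Agent.P4.Pn26
import Pool.Agent.P4.NumB69
import Pool.Agent.P4.Ar11

/-! # PENNY, version 5: the range of inequality B -/

set_option autoImplicit false

namespace Pool.Agent.PEN

open Classical UpperHalfPlane

noncomputable section

/-- all configurations with at most `N` points; everything that is known about the structure -/
theorem all_gen5 {d : ℝ} (hd : 0 < d) (ha : 2 * Real.pi < 7 * alpha d) (L : ℕ → ℕ)
    (hL9 : 16 ≤ L 9) (hL : ∀ n, 9 ≤ n → L n + 2 ≤ L (n + 1)) (N : ℕ)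
    (hmain : ∀ G : Tg ℍ, G.Geo4 (alpha d) kap (Ust69 d) → DelG G d → HullT G → Sep d G.P →
      10 ≤ G.P.card → G.P.card ≤ N →
      (G.D.filter (fun x => G.con x.1 x.2)).card ≤ 2 * L G.P.card)
    {P : Finset ℍ} (hP : Sep d P) (hn : 9 ≤ P.card) (hN : P.card ≤ N) :
    cd d P ≤ 2 * L P.card := by
  obtain ⟨L', hL'⟩ : ∃ L' : ℕ → ℕ, ∀ n, L' n = if n ≤ N then L n else L n + n * n :=
    ⟨_, fun _ => rfl⟩
  have key : cd d P ≤ 2 * L' P.card := by
    obtain ⟨m, hm⟩ := Nat.exists_eq_add_of_le hn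
    rw [hm]
    refine ind_gen71 hd L' 9 ?_ ?_ ?_ m P hm hP
    · intro n hn
      have h1 := hL n hn
      have h2 : n * n ≤ (n + 1) * (n + 1) := Nat.mul_le_mul (by omega) (by omega)
      rw [hL', hL']
      split_ifs <;> omega
    · intro Q hc hQ
      have := nine71 hd hQ hc
      rw [hL']
      split_ifs <;> omega
    · intro Q hc hQ hdeg
      rw [hL']
      by_cases h : Q.card ≤ N
      · rw [if_pos h]
        obtain ⟨G, hG, hGP, hcd, hDel, hH⟩ := exists_geo4h hd ha hQ
          (Finset.card_pos.mp (by omega)) hdeg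
        rw [hcd, ← hGP]
        exact hmain G hG hDel hH (by rw [hGP]; exact hQ) (by rw [hGP]; exact hc)
          (by rw [hGP]; exact h)
      · rw [if_neg h]
        have h1 : cd d Q ≤ Q.card * Q.card := by
          unfold cd
          rw [← Finset.card_product]
          exact Finset.card_filter_le _ _
        omega
  rw [hL', if_pos hN] at key
  exact key

/-- **Q1 for one diameter and at most `N` points**, from the structures -/
theorem q1_of_main5 {e d : ℝ} (he : 0 < e) (ha : alpha e = 2 * Real.pi / 7) (hd : 0 < d) (N : ℕ)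
    (hmain : d < e → ∀ G : Tg ℍ, G.Geo4 (alpha d) kap (Ust69 d) → DelG G d → HullT G →
      Sep d G.P → 10 ≤ G.P.card → G.P.card ≤ N →
      (G.D.filter (fun x => G.con x.1 x.2)).card ≤ 2 * Lb G.P.card)
    {n : ℕ} (hn : n ≤ N) : eD d n ≤ eD e n := by
  rcases Nat.lt_or_ge n 10 with h10 | h10
  · exact q1_above he ha hd (Or.inr (by omega))
  rcases le_or_gt e d with hed | hed
  · exact q1_above he ha hd (Or.inl hed)
  · have ha2 : 2 * Real.pi < 7 * alpha d := by
      have := alpha_anti hd hed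
      rw [ha] at this
      linarith
    obtain ⟨Q, hQc, hQs, hQ⟩ := strip_Lb he ha n (by omega)
    have h2 := le_eD he hQc hQs
    have h3 := two_numEdges he Q
    refine le_trans ?_ h2
    apply eD_le
    intro P hc hP
    have h1 : cd d P ≤ 2 * Lb P.card :=
      all_gen5 hd ha2 Lb (by rw [Lb_nine71]) Lb_step N (hmain hed) hP (by omega) (by omega)
    have h4 := two_numEdges hd P
    rw [hc] at h1
    omega

/-- the pentagon bound -/
theorem penta71 {G : Tg ℍ} {d : ℝ} (hG : G.Geo4 (alpha d) kap (Ust69 d)) (hD : DelG G d)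
    (hS : Sep d G.P) : PentaG G (alpha d) := W4.hP26 hG hD hS

/-- inequality B in units of the contact triangle -/
theorem NumB.unit {d : ℝ} (hd : 0 < d) {n b t I M : ℕ} {A : ℝ}
    (h : NumB (alpha d) (Ust69 d) n b t I M A) :
    (2 - (2 * Real.pi - 6 * alpha d) / alpha d) * ((n : ℝ) - b) ≤ 2 * ((2 * I : ℕ) : ℝ) +
      (2 * Real.pi - 6 * alpha d) / alpha d / 2 * (A / A3 (alpha d) - t) := by
  have hA := A3_pos69 hd
  have hal := alpha_pos hd
  have h1 := h.B
  have e1 : (2 - (2 * Real.pi - 6 * alpha d) / alpha d) * ((n : ℝ) - b) =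
      ((8 * alpha d - 2 * Real.pi) * ((n : ℝ) - b)) / alpha d := by
    rw [eq_div_iff hal.ne']
    have e0 : (2 * Real.pi - 6 * alpha d) / alpha d * alpha d = 2 * Real.pi - 6 * alpha d :=
      div_mul_cancel₀ _ hal.ne'
    linear_combination (-((n : ℝ) - b)) * e0
  have e2 : 2 * ((2 * I : ℕ) : ℝ) +
      (2 * Real.pi - 6 * alpha d) / alpha d / 2 * (A / A3 (alpha d) - t) =
      (2 * alpha d * (2 * I) + (A - A3 (alpha d) * t)) / alpha d := by
    have e3 : (2 * Real.pi - 6 * alpha d) = 2 * A3 (alpha d) := by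
      unfold A3
      ring
    rw [e3]
    push_cast
    field_simp
  rw [e1, e2]
  exact div_le_div_of_nonneg_right h1 hal.le

/-- the final inequality in the range of B -/
theorem hnumB71 {d : ℝ} (hd : 0 < d) (h1 : 1077 / 1000 ≤ Real.cosh d)
    (h2 : Real.cosh d ≤ 611 / 500) {n b t I M : ℕ} {A : ℝ} (hn : 10 ≤ n)
    (h : NumB (alpha d) (Ust69 d) n b t I M A) : M ≤ 2 * Lb n := by
  have hA := A3_pos69 hd
  rcases Nat.eq_zero_or_pos t with ht | ht
  · have k1 := h.edge
    have k2 := h.E1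
    obtain ⟨l1, _, _, _⟩ := Lb_facts11 n hn
    omega
  have hb := h.b3 (by omega)
  obtain ⟨e', r, c, hT, he', hN⟩ := numB_div69 hd h1 h2
  have hτ : (t : ℝ) ≤ A / A3 (alpha d) := by
    rw [le_div_iff₀ hA]
    linarith [h.low]
  have he0 : 0 ≤ (2 * Real.pi - 6 * alpha d) / alpha d := by
    apply div_nonneg _ (alpha_pos hd).le
    have := A3_pos69 hd
    unfold A3 at this
    linarith
  have he2 : e' ≤ 2 := by
    rcases hT with ⟨rfl, _⟩ | ⟨rfl, _⟩ | ⟨rfl, _⟩ | ⟨rfl, _⟩ | ⟨rfl, _⟩ | ⟨rfl, _⟩ <;> norm_num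
  have hB := B_mono11 (he0.trans he') he' he2 (Nat.cast_nonneg (2 * I)) hτ (h.unit hd)
  have := arB hT n b t (2 * I) (A / A3 (alpha d)) hn hb h.E1 hτ (hN b A hb h.up) hB
  exact h.toNum4.fin71 this

/-- **Q1 in the range of inequality B**, not at a chain diameter -/
theorem q1_B71 {e d : ℝ} (he : 0 < e) (ha : alpha e = 2 * Real.pi / 7) (hd : 0 < d)
    (h1 : 1077 / 1000 ≤ Real.cosh d) (h2 : Real.cosh d ≤ 611 / 500) (hE : ¬ Exc66 d) (n : ℕ) :
    eD d n ≤ eD e n := by
  refine q1_of_main5 he ha hd n (fun _ G hG hD _ hS hn _ => ?_) le_rfl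
  obtain ⟨t, I, A, h⟩ := numB hE hG hD (penta71 hG hD hS)
  exact hnumB71 hd h1 h2 hn h

end

end Pool.Agent.PEN
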