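import Pool.Agent.P4.Q3_52
import Pool.Agent.P4.Aw11
import Pool.Agent.P4.W4D9
import Pool.Agent.P4.Y71l

/-! # PENNY, version 6: B, D, D_B, dichotomy (and excess area) below `A3 = 0.0646` -/

set_option autoImplicit false

namespace Pool.Agent.PEN

open Classical UpperHalfPlane

noncomputable section

/-- the frame with explicit number of sharp boundary darts -/
theorem num5s {G : Tg ℍ} {d q : ℝ} (hG : G.Geo4 (alpha d) kap (Ust69 d)) (hD : DelG G d)
    (hS : Side9 d q) : ∃ (t I : ℕ) (A : ℝ), Num5 d q G.P.card G.oJ.card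
      (G.shp (alpha d)).card t I
      (G.D.filter (fun x => G.con x.1 x.2)).card A ∧ G.iD.card = 3 * t ∧ G.iI.card = 2 * I ∧
      A = ∑ x ∈ G.iD, G.ar x.1 x.2 / 3 := by
  obtain ⟨t, I, A, h1, h2, h3, h4⟩ := num4 G hG (Ust69_zero d) (Ust69_mono d) (Ust69_sup d)
  have h5 := D_ineq4 G hG
  have h6 := disp_area4 hG hD (two_alpha_le9 hD.hd) hS.rg (rho_nonneg9 hD.hd _) hS.K0 hS.u hS.q0
  rw [← h4] at h6
  exact ⟨t, I, A, ⟨h1, by omega, h6⟩, h2, h3, h4⟩

/-- one line of the table: the constants in units of the contact triangle -/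
structure Line71 (d e c0 K r c1 v w : ℝ) : Prop where
  he : 2 * Real.pi - 6 * alpha d ≤ e * alpha d
  he2 : e ≤ 1
  hc0 : g51 d ≤ c0 * A3 (alpha d)
  hr : r * A3 (alpha d) ≤ rho51 d (alpha d)
  hK : K * A3 (alpha d) ≤ 4 * Real.arcsin (6 / 7) - 2 * rho51 d (alpha d)
  hc1 : 2 * Real.arcsin (6 / 7 * Real.tanh (d / 2)) ≤ c1 * A3 (alpha d)
  h12 : Ust69 d 12 ≤ v * A3 (alpha d)
  h80 : Ust69 d 80 ≤ w * A3 (alpha d)
  side : Side9 d (6 / 7)

theorem Line71.unit {d e c0 K r c1 v w : ℝ} (hd : 0 < d) (L : Line71 d e c0 K r c1 v w)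
    {n b s t I M : ℕ} {A : ℝ} (h : Num5 d (6 / 7) n b s t I M A) :
    (t : ℝ) ≤ A / A3 (alpha d) ∧
    (b ≤ 12 → A / A3 (alpha d) ≤ v) ∧
    (12 ≤ b → b ≤ 80 → A / A3 (alpha d) ≤ v + (w - v) / 68 * ((b : ℝ) - 12)) ∧
    (80 ≤ b → A / A3 (alpha d) ≤ w + c0 * ((b : ℝ) - 80)) ∧
    (A / A3 (alpha d) ≤ c1 * b ∨ A / A3 (alpha d) ≤ c0 * b - K - r * s) := by
  have hA := A3_pos69 hd
  have hb0 : (0 : ℝ) ≤ b := Nat.cast_nonneg _
  have hs0 : (0 : ℝ) ≤ s := Nat.cast_nonneg _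
  have ht : (t : ℝ) ≤ A / A3 (alpha d) := by
    rw [le_div_iff₀ hA]
    linarith [h.low]
  refine ⟨ht, fun h1 => mono52 hd L.h12 h.up h1, fun h1 h2 => ?_, fun h1 => ?_, ?_⟩
  · have h5 := chord52 hd (by norm_num) (by norm_num) L.h12 L.h80 h.up h1 h2
    have e1 : (((80 : ℕ) : ℝ) - ((12 : ℕ) : ℝ)) = 68 := by norm_num
    rw [e1] at h5
    push_cast at h5
    exact h5
  · have h5 := tail52 hd L.hc0 (by norm_num) L.h80 h.up h1
    push_cast at h5
    exact h5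
  · rcases h.dis with h3 | h3
    · left
      rw [div_le_iff₀ hA]
      have := mul_le_mul_of_nonneg_left L.hc1 hb0
      linarith
    · right
      rw [div_le_iff₀ hA]
      have k1 := mul_le_mul_of_nonneg_left L.hc0 hb0
      have k2 := mul_le_mul_of_nonneg_left L.hr hs0
      linarith [L.hK]

/-- conversion of an inequality `(c al - 2π) (n - b) + al y ≤ al j + (A - A3 t)` -/
theorem conv71 {al e c n b j y A t : ℝ} (hal : 0 < al) (hA3 : 0 < A3 al)
    (he : 2 * Real.pi - 6 * al ≤ e * al) (hnb : b ≤ n) (hτ : A3 al * t ≤ A)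
    (h : (c * al - 2 * Real.pi) * (n - b) + al * y ≤ al * j + (A - A3 al * t)) :
    (c - 6 - e) * (n - b) + y ≤ j + e / 2 * (A / A3 al - t) := by
  have hApi : Real.pi = 3 * al + A3 al := by unfold A3; ring
  have hτ0 : 0 ≤ A / A3 al - t := by
    rw [sub_nonneg, le_div_iff₀ hA3]
    linarith
  have k5' : A3 al * (A / A3 al - t) = A - A3 al * t := by
    field_simp
  have j1 : al * (c - 6 - e) ≤ c * al - 2 * Real.pi := by linarith
  have j2 := mul_le_mul_of_nonneg_right j1 (show (0 : ℝ) ≤ n - b by linarith)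
  have j3 : A3 al ≤ al * (e / 2) := by linarith
  have j4 := mul_le_mul_of_nonneg_right j3 hτ0
  have j6 : al * ((c - 6 - e) * (n - b) + y) ≤ al * (j + e / 2 * (A / A3 al - t)) := by
    linarith
  exact le_of_mul_le_mul_left j6 hal

/-- the part of the argument common to the two tables -/
theorem common71 {d e c0 K r c1 v w : ℝ} (hd : 0 < d) (hC : Real.cosh d ≤ 611 / 500)
    (L : Line71 d e c0 K r c1 v w) (hE : ¬ Exc66 d) {G : Tg ℍ}
    (hG : G.Geo4 (alpha d) kap (Ust69 d)) (hD : DelG G d) (hP : PentaG G (alpha d))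
    (hn : 10 ≤ G.P.card)
    (hfin : ∀ (t I : ℕ) (A : ℝ),
      Num5 d (6 / 7) G.P.card G.oJ.card (G.shp (alpha d)).card t I
        (G.D.filter (fun x => G.con x.1 x.2)).card A → G.iD.card = 3 * t → G.iI.card = 2 * I →
      A = ∑ x ∈ G.iD, G.ar x.1 x.2 / 3 → 98 ≤ G.P.card → 3 ≤ G.oJ.card →
      G.oJ.card ≤ G.P.card →
      (2 - e) * ((G.P.card : ℝ) - G.oJ.card) ≤
        2 * (2 * I : ℕ) + e / 2 * (A / A3 (alpha d) - t) →
      8 * G.P.card ≤ 5 * G.oJ.card + (G.shp (alpha d)).card + 3 * t + 2 * (2 * I) →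
      3 * t + G.oJ.card < 2 * Lb G.P.card + 2 + 2 * I) :
    (G.D.filter (fun x => G.con x.1 x.2)).card ≤ 2 * Lb G.P.card := by
  obtain ⟨t, I, A, h, hiD, hiI, hAs⟩ := num5s hG hD L.side
  have hA : ∀ C ∈ G.iC, A3 (alpha d) * (G.cT C).card ≤ ∑ x ∈ G.cD C, G.ar x.1 x.2 / 3 :=
    fun C hC => hG.pol C (cB_of_iC66 G hC)
  have hR := W4.rf51 hG hD hA
  have hB := W4.B_F66 G hd hE hG hR hA hP
  have hDB := W4.DB_F9 G hd hE hG hR hA hP
  have e1 : (G.iD.card : ℝ) / 3 = t := by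
    rw [hiD]
    push_cast
    ring
  have e2 : (G.iI.card : ℝ) = 2 * I := by
    rw [hiI]
    push_cast
    ring
  rw [← hAs, e1, e2] at hB
  apply fin52 h.toNum4
  have hE1 := h.E1
  rcases Nat.lt_or_ge G.P.card 98 with hn2 | hn2
  · exact G_num52 hd hC hn (by omega) (by omega) h.low h.up h.G
  rcases Nat.lt_or_ge G.oJ.card 3 with hb | hb
  · exact small_b52 hd hb hn h.low h.up
  rcases Nat.lt_or_ge G.P.card G.oJ.card with hnb | hnb
  · have h5 := (Lb_facts11 G.P.card (by omega)).1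
    omega
  have hnb' : (G.oJ.card : ℝ) ≤ G.P.card := by exact_mod_cast hnb
  have hB' := conv71 (y := 0) (c := 8) (j := 2 * (2 * I)) (alpha_pos hd) (A3_pos69 hd) L.he hnb'
    h.low (by linarith)
  refine hfin t I A h hiD hiI hAs hn2 hb hnb ?_ (by omega)
  push_cast
  linarith

/-- the range `0.0570 ≤ A3 ≤ 0.0646` -/
theorem main_DB71 {d e c0 K r c1 v w : ℝ} (hd : 0 < d) (hC : Real.cosh d ≤ 611 / 500)
    (hT : TD e c0 K r c1 v w)
    (L : Line71 d e c0 K r c1 v w) (hE : ¬ Exc66 d) {G : Tg ℍ}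
    (hG : G.Geo4 (alpha d) kap (Ust69 d)) (hD : DelG G d) (hP : PentaG G (alpha d))
    (hn : 10 ≤ G.P.card) :
    (G.D.filter (fun x => G.con x.1 x.2)).card ≤ 2 * Lb G.P.card := by
  refine common71 hd hC L hE hG hD hP hn fun t I A h hiD hiI hAs hn2 hb hnb hB hDB => ?_
  obtain ⟨f1, f2, f3, f4, f5⟩ := L.unit hd h
  exact arDB hT _ _ t (2 * I) _ _ hn2 hb h.E1 f1 f2 f3 f4 hB (by have := h.D; omega)
    (by omega) f5

/-- the range `0.0538 ≤ A3 ≤ 0.0570` -/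
theorem main_DS71 {d e c0 K r c1 v w κ : ℝ} (hd : 0 < d) (hC : Real.cosh d ≤ 611 / 500)
    (hT : TS e c0 K r c1 v w κ) (hκ0 : 0 ≤ κ) (he4 : 2 * Real.pi - 6 * alpha d ≤ alpha d / 4)
    (m1 : 2 * Real.pi - 5 * alpha d + opp51 d (2 * Real.pi - 5 * alpha d) ≤ 3 * alpha d)
    (m2 : κ * A3 (alpha d) ≤ 6 * alpha d -
      2 * (2 * Real.pi - 5 * alpha d + opp51 d (2 * Real.pi - 5 * alpha d)))
    (L : Line71 d e c0 K r c1 v w) (hE : ¬ Exc66 d) {G : Tg ℍ}
    (hG : G.Geo4 (alpha d) kap (Ust69 d)) (hD : DelG G d) (hP : PentaG G (alpha d))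
    (hn : 10 ≤ G.P.card) :
    (G.D.filter (fun x => G.con x.1 x.2)).card ≤ 2 * Lb G.P.card := by
  refine common71 hd hC L hE hG hD hP hn fun t I A h hiD hiI hAs hn2 hb hnb hB hDB => ?_
  obtain ⟨f1, f2, f3, f4, f5⟩ := L.unit hd h
  have hA : ∀ C ∈ G.iC, A3 (alpha d) * (G.cT C).card ≤ ∑ x ∈ G.cD C, G.ar x.1 x.2 / 3 :=
    fun C hC => hG.pol C (cB_of_iC66 G hC)
  have hR := W4.rf51 hG hD hA
  have hApi : Real.pi = 3 * alpha d + A3 (alpha d) := by unfold A3; ring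
  have hA3 := A3_pos69 hd
  have hal := alpha_pos hd
  obtain ⟨y, hy0, hy1, hy2⟩ := W4.E62 G hG he4 m1
    (E_hs62 G hd (by linarith) (by linarith) hR) hA hP
  have e1 : (G.iD.card : ℝ) / 3 = t := by
    rw [hiD]
    push_cast
    ring
  have e2 : (G.iI.card : ℝ) = 2 * I := by
    rw [hiI]
    push_cast
    ring
  rw [← hAs, e1, e2] at hy1 hy2
  have k5' : A3 (alpha d) * (A / A3 (alpha d) - t) = A - A3 (alpha d) * t := by
    field_simp
  have hnb' : (G.oJ.card : ℝ) ≤ G.P.card := by exact_mod_cast hnb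
  have hG' := conv71 (y := y) (c := 7) (j := 2 * I) hal hA3 L.he hnb' h.low hy1
  have hSx : (t : ℝ) + κ * (((2 * I : ℕ) : ℝ) / 2 - 3 * y) ≤ A / A3 (alpha d) := by
    push_cast
    rcases le_total ((2 * I : ℝ) / 2 - 3 * y) 0 with h0 | h0
    · have : κ * ((2 * I : ℝ) / 2 - 3 * y) ≤ 0 := mul_nonpos_of_nonneg_of_nonpos hκ0 h0
      linarith
    · have h5 := mul_le_mul_of_nonneg_right m2 h0
      have h6 : A3 (alpha d) * (κ * ((2 * I : ℝ) / 2 - 3 * y)) ≤
          A3 (alpha d) * (A / A3 (alpha d) - t) := by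
        rw [k5']
        linarith
      have h8 := le_of_mul_le_mul_left h6 hA3
      linarith
  refine arDS hT _ _ t (2 * I) _ _ y hn2 hb h.E1 f1 f2 f3 f4 hB hy0 ?_ hSx
    (by have := h.D; omega) (by omega) f5
  push_cast
  linarith

end

end Pool.Agent.PEN
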