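import Pool.Agent.P4.Us69
import Pool.Agent.PEN.B39

/-! # Hyperbolic penny graphs: the regular isoperimetric bound as a function of `d`

`Ust69 d b / A3` is antitone in `d`; `Ust69 d b` is convex in `b`, of slope at most `g51 d`. -/

set_option autoImplicit false
set_option linter.all false

namespace Pool.Agent.PEN

open Classical UpperHalfPlane

noncomputable section

/-! ### The monotone quotient -/

theorem arccos_deriv69 {c s : ℝ} (h1 : -1 < s * c) (h2 : s * c < 1) :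
    HasDerivAt (fun x : ℝ => Real.arccos (x * c)) (-(1 / Real.sqrt (1 - (s * c) ^ 2)) * c) s := by
  have e1 : HasDerivAt (fun x : ℝ => x * c) c s := by
    have := (hasDerivAt_id s).mul_const c
    simpa using this
  have e2 := Real.hasDerivAt_arccos (x := s * c) (ne_of_gt h1) (ne_of_lt h2)
  exact HasDerivAt.comp (h₂ := Real.arccos) (h := fun x : ℝ => x * c) s e2 e1

/-- comparison of the derivatives -/
theorem deriv_cmp69 {c c0 s σ : ℝ} (h0 : 0 < c0) (h1 : c0 ≤ c) (h2 : c < 1) (hs : 0 ≤ s)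
    (hsσ : s ≤ σ) (hσ : σ ≤ 1) :
    c / Real.sqrt (1 - (s * c) ^ 2) * (c0 * Real.sqrt (1 - (σ * c) ^ 2)) ≤
      c * Real.sqrt (1 - (σ * c0) ^ 2) * (c0 / Real.sqrt (1 - (s * c0) ^ 2)) := by
  have hc : 0 < c := by linarith
  have lt1 : ∀ x y : ℝ, 0 ≤ x → x ≤ 1 → 0 < y → y < 1 → 0 < 1 - (x * y) ^ 2 := by
    intro x y hx hx1 hy hy1
    have : x * y < 1 := by nlinarith
    have : 0 ≤ x * y := by positivity
    nlinarith
  have a1 := lt1 s c hs (by linarith) hc h2
  have a2 := lt1 σ c (by linarith) hσ hc h2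
  have a3 := lt1 s c0 hs (by linarith) h0 (by linarith)
  have a4 := lt1 σ c0 (by linarith) hσ h0 (by linarith)
  have key : Real.sqrt (1 - (σ * c) ^ 2) * Real.sqrt (1 - (s * c0) ^ 2) ≤
      Real.sqrt (1 - (σ * c0) ^ 2) * Real.sqrt (1 - (s * c) ^ 2) := by
    rw [← Real.sqrt_mul a2.le, ← Real.sqrt_mul a4.le]
    apply Real.sqrt_le_sqrt
    have e1 : s ^ 2 ≤ σ ^ 2 := by nlinarith
    have e2 : c0 ^ 2 ≤ c ^ 2 := by nlinarith
    nlinarith [mul_nonneg (sub_nonneg.2 e1) (sub_nonneg.2 e2)]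
  have b1 := Real.sqrt_pos.2 a1
  have b3 := Real.sqrt_pos.2 a3
  rw [div_mul_eq_mul_div, mul_div_assoc', div_le_div_iff₀ b1 b3]
  have hcc : 0 ≤ c * c0 := by positivity
  have := mul_le_mul_of_nonneg_left key hcc
  nlinarith

/-- on `[0, σ]` the function `F - ρ G` is monotone, on `[σ, 1]` antitone -/
theorem phi_le69 {c c0 s σ : ℝ} (h0 : 0 < c0) (h1 : c0 ≤ c) (h2 : c < 1) (hs : 0 ≤ s)
    (hsσ : s ≤ σ) (hσ : σ ≤ 1) :
    (Real.arccos (s * c) - Real.arccos (σ * c)) * (c0 * Real.sqrt (1 - (σ * c) ^ 2)) ≤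
      c * Real.sqrt (1 - (σ * c0) ^ 2) * (Real.arccos (s * c0) - Real.arccos (σ * c0)) := by
  have hc : 0 < c := by linarith
  set p := c0 * Real.sqrt (1 - (σ * c) ^ 2) with hp
  set q := c * Real.sqrt (1 - (σ * c0) ^ 2) with hq
  have hcont : ContinuousOn (fun x : ℝ => Real.arccos (x * c) * p - q * Real.arccos (x * c0))
      (Set.Icc 0 σ) := by
    apply Continuous.continuousOn
    have e1 : Continuous (fun x : ℝ => Real.arccos (x * c)) :=
      Real.continuous_arccos.comp (continuous_id.mul continuous_const)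
    have e2 : Continuous (fun x : ℝ => Real.arccos (x * c0)) :=
      Real.continuous_arccos.comp (continuous_id.mul continuous_const)
    exact (e1.mul continuous_const).sub (continuous_const.mul e2)
  have hder : ∀ x ∈ Set.Ioo (0 : ℝ) σ, HasDerivAt
      (fun x : ℝ => Real.arccos (x * c) * p - q * Real.arccos (x * c0))
      (-(1 / Real.sqrt (1 - (x * c) ^ 2)) * c * p - q * (-(1 / Real.sqrt (1 - (x * c0) ^ 2)) * c0))
      x := by
    intro x hx
    have hx0 := hx.1
    have hx1 : x < 1 := lt_of_lt_of_le hx.2 hσ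
    have e1 : x * c < 1 := by nlinarith
    have e2 : x * c0 < 1 := by nlinarith
    have e3 : 0 < x * c := by positivity
    have e4 : 0 < x * c0 := by positivity
    exact ((arccos_deriv69 (by linarith) e1).mul_const p).sub
      ((arccos_deriv69 (by linarith) e2).const_mul q)
  have hmono : MonotoneOn (fun x : ℝ => Real.arccos (x * c) * p - q * Real.arccos (x * c0))
      (Set.Icc 0 σ) := by
    apply monotoneOn_of_deriv_nonneg (convex_Icc 0 σ) hcont
    · intro x hx
      rw [interior_Icc] at hx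
      exact (hder x hx).differentiableAt.differentiableWithinAt
    · intro x hx
      rw [interior_Icc] at hx
      rw [(hder x hx).deriv]
      have e1 := deriv_cmp69 h0 h1 h2 hx.1.le hx.2.le hσ
      rw [← hp, ← hq] at e1
      have e2 : -(1 / Real.sqrt (1 - (x * c) ^ 2)) * c * p = -(c / Real.sqrt (1 - (x * c) ^ 2) * p) := by
        ring
      have e3 : q * (-(1 / Real.sqrt (1 - (x * c0) ^ 2)) * c0) =
          -(q * (c0 / Real.sqrt (1 - (x * c0) ^ 2))) := by ring
      rw [e2, e3]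
      linarith
  have h := hmono (Set.mem_Icc.2 ⟨hs, hsσ⟩) (Set.mem_Icc.2 ⟨by linarith, le_refl σ⟩) hsσ
  simp only at h
  nlinarith

theorem phi_ge69 {c c0 σ : ℝ} (h0 : 0 < c0) (h1 : c0 ≤ c) (h2 : c < 1) (hs : 0 ≤ σ)
    (hσ : σ ≤ 1) :
    c * Real.sqrt (1 - (σ * c0) ^ 2) * (Real.arccos (σ * c0) - Real.arccos c0) ≤
      (Real.arccos (σ * c) - Real.arccos c) * (c0 * Real.sqrt (1 - (σ * c) ^ 2)) := by
  have hc : 0 < c := by linarith
  set p := c0 * Real.sqrt (1 - (σ * c) ^ 2) with hp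
  set q := c * Real.sqrt (1 - (σ * c0) ^ 2) with hq
  have hcont : ContinuousOn (fun x : ℝ => Real.arccos (x * c) * p - q * Real.arccos (x * c0))
      (Set.Icc σ 1) := by
    apply Continuous.continuousOn
    have e1 : Continuous (fun x : ℝ => Real.arccos (x * c)) :=
      Real.continuous_arccos.comp (continuous_id.mul continuous_const)
    have e2 : Continuous (fun x : ℝ => Real.arccos (x * c0)) :=
      Real.continuous_arccos.comp (continuous_id.mul continuous_const)
    exact (e1.mul continuous_const).sub (continuous_const.mul e2)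
  have lt1 : ∀ x y : ℝ, 0 ≤ x → x ≤ 1 → 0 < y → y < 1 → 0 < 1 - (x * y) ^ 2 := by
    intro x y hx hx1 hy hy1
    have : x * y < 1 := by nlinarith
    have : 0 ≤ x * y := by positivity
    nlinarith
  have hder : ∀ x ∈ Set.Ioo σ 1, HasDerivAt
      (fun x : ℝ => Real.arccos (x * c) * p - q * Real.arccos (x * c0))
      (-(1 / Real.sqrt (1 - (x * c) ^ 2)) * c * p - q * (-(1 / Real.sqrt (1 - (x * c0) ^ 2)) * c0))
      x := by
    intro x hx
    have hx0 : 0 < x := lt_of_le_of_lt hs hx.1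
    have hx1 : x < 1 := hx.2
    have e1 : x * c < 1 := by nlinarith
    have e2 : x * c0 < 1 := by nlinarith
    have e3 : 0 < x * c := by positivity
    have e4 : 0 < x * c0 := by positivity
    exact ((arccos_deriv69 (by linarith) e1).mul_const p).sub
      ((arccos_deriv69 (by linarith) e2).const_mul q)
  have hmono : AntitoneOn (fun x : ℝ => Real.arccos (x * c) * p - q * Real.arccos (x * c0))
      (Set.Icc σ 1) := by
    apply antitoneOn_of_deriv_nonpos (convex_Icc σ 1) hcont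
    · intro x hx
      rw [interior_Icc] at hx
      exact (hder x hx).differentiableAt.differentiableWithinAt
    · intro x hx
      rw [interior_Icc] at hx
      rw [(hder x hx).deriv]
      have e1 := deriv_cmp69 h0 h1 h2 hs hx.1.le hx.2.le
      -- roles of `s` and `σ` are exchanged
      have hx0 : 0 < x := lt_of_le_of_lt hs hx.1
      have a1 := lt1 x c hx0.le hx.2.le hc h2
      have a2 := lt1 σ c hs hσ hc h2
      have a3 := lt1 x c0 hx0.le hx.2.le h0 (by linarith)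
      have a4 := lt1 σ c0 hs hσ h0 (by linarith)
      have b1 := Real.sqrt_pos.2 a1
      have b2 := Real.sqrt_pos.2 a2
      have b3 := Real.sqrt_pos.2 a3
      have b4 := Real.sqrt_pos.2 a4
      have key : q * (c0 / Real.sqrt (1 - (x * c0) ^ 2)) ≤ c / Real.sqrt (1 - (x * c) ^ 2) * p := by
        rw [div_mul_eq_mul_div, mul_div_assoc', div_le_div_iff₀ b2 b4] at e1
        rw [div_mul_eq_mul_div, mul_div_assoc', div_le_div_iff₀ b3 b1, hp, hq]
        nlinarith
      have e2 : -(1 / Real.sqrt (1 - (x * c) ^ 2)) * c * p = -(c / Real.sqrt (1 - (x * c) ^ 2) * p) := by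
        ring
      have e3 : q * (-(1 / Real.sqrt (1 - (x * c0) ^ 2)) * c0) =
          -(q * (c0 / Real.sqrt (1 - (x * c0) ^ 2))) := by ring
      rw [e2, e3]
      linarith
  have h := hmono (Set.mem_Icc.2 ⟨le_refl σ, hσ⟩) (Set.mem_Icc.2 ⟨hσ, le_refl 1⟩) hσ
  simp only [one_mul] at h
  nlinarith

/-- the quotient `F / G` is monotone -/
theorem ratio69 {c c0 s σ : ℝ} (h0 : 0 < c0) (h1 : c0 ≤ c) (h2 : c < 1) (hs : 0 ≤ s)
    (hsσ : s ≤ σ) (hσ : σ ≤ 1) :
    (Real.arccos (s * c) - Real.arccos c) * (Real.arccos (σ * c0) - Real.arccos c0) ≤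
      (Real.arccos (σ * c) - Real.arccos c) * (Real.arccos (s * c0) - Real.arccos c0) := by
  have hc : 0 < c := by linarith
  have f1 := phi_le69 h0 h1 h2 hs hsσ hσ
  have f2 := phi_ge69 h0 h1 h2 (hs.trans hsσ) hσ
  have hp : 0 < c0 * Real.sqrt (1 - (σ * c) ^ 2) := by
    apply mul_pos h0
    apply Real.sqrt_pos.2
    have : σ * c < 1 := by nlinarith
    have : 0 ≤ σ * c := by
      have := hs.trans hsσ
      positivity
    nlinarith
  have g1 : Real.arccos (σ * c0) ≤ Real.arccos (s * c0) := by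
    apply Real.arccos_le_arccos
    nlinarith
  have g2 : Real.arccos c0 ≤ Real.arccos (σ * c0) := by
    apply Real.arccos_le_arccos
    nlinarith
  set p := c0 * Real.sqrt (1 - (σ * c) ^ 2)
  set q := c * Real.sqrt (1 - (σ * c0) ^ 2)
  set Fs := Real.arccos (s * c)
  set Fσ := Real.arccos (σ * c)
  set F1 := Real.arccos c
  set Gs := Real.arccos (s * c0)
  set Gσ := Real.arccos (σ * c0)
  set G1 := Real.arccos c0
  have m1 := mul_le_mul_of_nonneg_right f1 (sub_nonneg.2 g2)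
  have m2 := mul_le_mul_of_nonneg_right f2 (sub_nonneg.2 g1)
  have : (Fs - F1) * (Gσ - G1) * p ≤ (Fσ - F1) * (Gs - G1) * p := by nlinarith
  exact le_of_mul_le_mul_right this hp

/-- the Euclidean limit of the quotient -/
theorem ratio_euclid69 {c c0 s : ℝ} (h0 : 0 < c0) (h1 : c0 ≤ c) (h2 : c < 1) (hs : 0 ≤ s)
    (hσ : s ≤ 1) :
    (Real.arccos (s * c) - Real.arccos c) * (c0 * Real.sqrt (1 - c ^ 2)) ≤
      c * Real.sqrt (1 - c0 ^ 2) * (Real.arccos (s * c0) - Real.arccos c0) := by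
  have h := phi_le69 h0 h1 h2 hs hσ (le_refl 1)
  simpa using h

/-! ### In terms of `d` -/

theorem inv_cosh69 (d : ℝ) : 0 < 1 / Real.cosh (d / 2) ∧ 1 / Real.cosh (d / 2) ≤ 1 := by
  have h := Real.one_le_cosh (d / 2)
  have h0 := Real.cosh_pos (d / 2)
  exact ⟨by positivity, by rw [div_le_one h0]; exact h⟩

theorem inv_cosh_anti69 {d e : ℝ} (hd : 0 ≤ d) (h : d ≤ e) :
    1 / Real.cosh (e / 2) ≤ 1 / Real.cosh (d / 2) := by
  apply one_div_le_one_div_of_le (Real.cosh_pos _)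
  rw [Real.cosh_le_cosh, abs_of_nonneg (by linarith), abs_of_nonneg (by linarith)]
  linarith

theorem psi51_eq69 {w : ℝ} (d : ℝ) (h0 : 0 ≤ w) (h1 : w ≤ Real.pi) :
    psi51 w d = 2 * (Real.arccos (1 / Real.cosh (d / 2) * Real.cos w) -
      Real.arccos (Real.cos w)) := by
  unfold psi51
  rw [Real.arccos_cos h0 h1, show Real.cos w / Real.cosh (d / 2) =
    1 / Real.cosh (d / 2) * Real.cos w by ring]
  ring

theorem sin_half_alpha69 {d : ℝ} (hd : 0 < d) :
    Real.sin (alpha d / 2) = 1 / (2 * Real.cosh (d / 2)) := by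
  have hc := Real.cosh_pos (d / 2)
  have h1 : Real.cosh d = 2 * Real.cosh (d / 2) ^ 2 - 1 := by
    have := Real.cosh_two_mul (d / 2)
    rw [show 2 * (d / 2) = d by ring] at this
    have h2 := Real.cosh_sq (d / 2)
    linarith
  have h3 : Real.cos (alpha d) = 1 - 2 * Real.sin (alpha d / 2) ^ 2 := by
    have := Real.cos_two_mul (alpha d / 2)
    rw [show 2 * (alpha d / 2) = alpha d by ring] at this
    have h4 := Real.sin_sq_add_cos_sq (alpha d / 2)
    linarith
  rw [cos_alpha hd, h1] at h3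
  have h5 : Real.sin (alpha d / 2) ^ 2 = (1 / (2 * Real.cosh (d / 2))) ^ 2 := by
    have h6 : (2 * Real.cosh (d / 2) ^ 2 - 1) / (2 * Real.cosh (d / 2) ^ 2 - 1 + 1) =
        1 - 1 / (2 * Real.cosh (d / 2) ^ 2) := by
      field_simp
      try ring
    rw [h6] at h3
    have h7 : (1 / (2 * Real.cosh (d / 2))) ^ 2 = (1 / (2 * Real.cosh (d / 2) ^ 2)) / 2 := by
      field_simp
      try ring
    rw [h7]
    linarith
  have h8 : 0 ≤ Real.sin (alpha d / 2) := by
    have h9 := alpha_pos hd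
    have h10 := alpha_lt hd
    have := Real.pi_pos
    exact Real.sin_nonneg_of_nonneg_of_le_pi (by linarith) (by linarith)
  have h9 : 0 ≤ 1 / (2 * Real.cosh (d / 2)) := by positivity
  exact (sq_eq_sq₀ h8 h9).1 h5

theorem A3_eq69 {d : ℝ} (hd : 0 < d) : A3 (alpha d) = 3 * psi51 (Real.pi / 3) d := by
  unfold psi51 A3
  have hpi := Real.pi_pos
  have h9 := alpha_pos hd
  have h10 := alpha_lt hd
  have h1 : Real.cos (Real.pi / 3) / Real.cosh (d / 2) = Real.cos (Real.pi / 2 - alpha d / 2) := by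
    rw [Real.cos_pi_div_two_sub, sin_half_alpha69 hd, Real.cos_pi_div_three]
    have := Real.cosh_pos (d / 2)
    field_simp
  rw [h1, Real.arccos_cos (by linarith) (by linarith)]
  ring

theorem A3_pos69 {d : ℝ} (hd : 0 < d) : 0 < A3 (alpha d) := by
  unfold A3
  have := alpha_lt hd
  linarith

theorem cos_pi_div69 {b : ℕ} (hb : 3 ≤ b) :
    1 / 2 ≤ Real.cos (Real.pi / b) ∧ Real.cos (Real.pi / b) < 1 ∧ 0 < Real.pi / b ∧
      Real.pi / b ≤ Real.pi / 3 := by
  have hpi := Real.pi_pos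
  have hb3 : (3 : ℝ) ≤ b := by exact_mod_cast hb
  have h0 : 0 < Real.pi / b := by positivity
  have h1 : Real.pi / b ≤ Real.pi / 3 := div_le_div_of_nonneg_left hpi.le (by norm_num) hb3
  refine ⟨?_, ?_, h0, h1⟩
  · rw [← Real.cos_pi_div_three]
    exact Real.cos_le_cos_of_nonneg_of_le_pi h0.le (by linarith) h1
  · rw [← Real.cos_zero]
    exact Real.cos_lt_cos_of_nonneg_of_le_pi (le_refl _) (by linarith) h0

/-- `Ust69 d b / A3` is antitone in `d` -/
theorem Ust_ratio69 {d1 d2 : ℝ} (h1 : 0 < d1) (h12 : d1 ≤ d2) (b : ℕ) :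
    Ust69 d2 b * A3 (alpha d1) ≤ Ust69 d1 b * A3 (alpha d2) := by
  have h2 : 0 < d2 := lt_of_lt_of_le h1 h12
  rcases Nat.lt_or_ge b 3 with hb | hb
  · rw [Ust69_small (by omega), Ust69_small (by omega)]
    simp
  rw [Ust69_eq (by omega), Ust69_eq (by omega), A3_eq69 h1, A3_eq69 h2]
  unfold astar51
  obtain ⟨c1, c2, c3, c4⟩ := cos_pi_div69 hb
  have hpi := Real.pi_pos
  rw [psi51_eq69 d2 c3.le (by linarith), psi51_eq69 d1 c3.le (by linarith),
    psi51_eq69 d1 (by linarith) (by linarith), psi51_eq69 d2 (by linarith) (by linarith)]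
  rw [Real.cos_pi_div_three]
  obtain ⟨s1, s2⟩ := inv_cosh69 d2
  obtain ⟨s3, s4⟩ := inv_cosh69 d1
  have hr := ratio69 (c := Real.cos (Real.pi / b)) (c0 := 1 / 2) (by norm_num) c1 c2 s1.le
    (inv_cosh_anti69 h1.le h12) s4
  have hb0 : (0 : ℝ) ≤ b := Nat.cast_nonneg _
  have := mul_le_mul_of_nonneg_left hr hb0
  nlinarith

/-- the Euclidean bound `Ust69 d b ≤ A3 * b cot (π / b) / √3` -/
theorem Ust_euclid69 {d : ℝ} (h1 : 0 < d) {b : ℕ} (hb : 3 ≤ b) :
    Ust69 d b * (Real.sqrt 3 * Real.sin (Real.pi / b)) ≤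
      b * Real.cos (Real.pi / b) * A3 (alpha d) := by
  rw [Ust69_eq (by omega), A3_eq69 h1]
  unfold astar51
  obtain ⟨c1, c2, c3, c4⟩ := cos_pi_div69 hb
  have hpi := Real.pi_pos
  rw [psi51_eq69 d c3.le (by linarith), psi51_eq69 d (by linarith) (by linarith)]
  rw [Real.cos_pi_div_three]
  obtain ⟨s3, s4⟩ := inv_cosh69 d
  have hr := ratio_euclid69 (c := Real.cos (Real.pi / b)) (c0 := 1 / 2) (by norm_num) c1 c2 s3.le s4
  have hs : Real.sqrt (1 - Real.cos (Real.pi / b) ^ 2) = Real.sin (Real.pi / b) := by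
    rw [← Real.sin_sq, Real.sqrt_sq (Real.sin_nonneg_of_nonneg_of_le_pi c3.le (by linarith))]
  have h3 : Real.sqrt (1 - (1 / 2 : ℝ) ^ 2) = Real.sqrt 3 / 2 := by
    rw [show (1 - (1 / 2 : ℝ) ^ 2) = 3 / 2 ^ 2 by norm_num, Real.sqrt_div (by norm_num),
      Real.sqrt_sq (by norm_num)]
  rw [hs, h3] at hr
  have hb0 : (0 : ℝ) ≤ b := Nat.cast_nonneg _
  have h3p : 0 < Real.sqrt 3 := by positivity
  have h33 : Real.sqrt 3 * Real.sqrt 3 = 3 := Real.mul_self_sqrt (by norm_num)
  have h4 := mul_le_mul_of_nonneg_left hr (mul_nonneg hb0 h3p.le)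
  set X := Real.arccos (1 / Real.cosh (d / 2) * Real.cos (Real.pi / b)) -
    Real.arccos (Real.cos (Real.pi / b))
  set Y := Real.arccos (1 / Real.cosh (d / 2) * (1 / 2)) - Real.arccos (1 / 2)
  have e1 : b * Real.sqrt 3 * (Real.cos (Real.pi / b) * (Real.sqrt 3 / 2) * Y) =
      (Real.sqrt 3 * Real.sqrt 3) * (b * Real.cos (Real.pi / b) * Y / 2) := by ring
  rw [e1, h33] at h4
  have e2 : b * Real.sqrt 3 * (X * (1 / 2 * Real.sin (Real.pi / b))) =
      b * (2 * X) * (Real.sqrt 3 * Real.sin (Real.pi / b)) / 4 := by ring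
  rw [e2] at h4
  have e3 : b * Real.cos (Real.pi / b) * (3 * (2 * Y)) =
      3 * (b * Real.cos (Real.pi / b) * Y / 2) * 4 := by ring
  rw [e3]
  linarith

/-! ### Convexity in `b` -/

theorem arccos_cos_deriv69 {k : ℝ} (hk : 0 < k) (hk1 : k < 1) (w : ℝ) :
    HasDerivAt (fun x : ℝ => Real.arccos (k * Real.cos x))
      (k * Real.sin w / Real.sqrt (1 - (k * Real.cos w) ^ 2)) w := by
  have h1 := Real.abs_cos_le_one w
  have h2 : |k * Real.cos w| < 1 := by
    rw [abs_mul, abs_of_pos hk]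
    have := abs_nonneg (Real.cos w)
    nlinarith
  rw [abs_lt] at h2
  have e1 : HasDerivAt (fun x : ℝ => k * Real.cos x) (k * -Real.sin w) w :=
    (Real.hasDerivAt_cos w).const_mul k
  have e2 := Real.hasDerivAt_arccos (x := k * Real.cos w) (ne_of_gt h2.1) (ne_of_lt h2.2)
  have e3 := HasDerivAt.comp (h₂ := Real.arccos) (h := fun x : ℝ => k * Real.cos x) w e2 e1
  have e4 : -(1 / Real.sqrt (1 - (k * Real.cos w) ^ 2)) * (k * -Real.sin w) =
      k * Real.sin w / Real.sqrt (1 - (k * Real.cos w) ^ 2) := by ring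
  rw [e4] at e3
  exact e3

theorem deriv_mono69 {k x y : ℝ} (hk : 0 < k) (hk1 : k < 1) (hx : 0 ≤ x) (hxy : x ≤ y)
    (hy : y ≤ Real.pi / 2) :
    k * Real.sin x / Real.sqrt (1 - (k * Real.cos x) ^ 2) ≤
      k * Real.sin y / Real.sqrt (1 - (k * Real.cos y) ^ 2) := by
  have hpi := Real.pi_pos
  have s1 : 0 ≤ Real.sin x := Real.sin_nonneg_of_nonneg_of_le_pi hx (by linarith)
  have s2 : Real.sin x ≤ Real.sin y := Real.sin_le_sin_of_le_of_le_pi_div_two (by linarith) hy hxy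
  have t1 := Real.sin_sq_add_cos_sq x
  have t2 := Real.sin_sq_add_cos_sq y
  have hkk : k ^ 2 < 1 := by nlinarith
  have p1 : 1 - (k * Real.cos x) ^ 2 = (1 - k ^ 2) + k ^ 2 * Real.sin x ^ 2 := by
    have : Real.cos x ^ 2 = 1 - Real.sin x ^ 2 := by linarith
    rw [mul_pow, this]
    ring
  have p2 : 1 - (k * Real.cos y) ^ 2 = (1 - k ^ 2) + k ^ 2 * Real.sin y ^ 2 := by
    have : Real.cos y ^ 2 = 1 - Real.sin y ^ 2 := by linarith
    rw [mul_pow, this]
    ring
  have r1 := mul_nonneg (sq_nonneg k) (sq_nonneg (Real.sin x))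
  have r2 := mul_nonneg (sq_nonneg k) (sq_nonneg (Real.sin y))
  have q1 : 0 < 1 - (k * Real.cos x) ^ 2 := by rw [p1]; linarith
  have q2 : 0 < 1 - (k * Real.cos y) ^ 2 := by rw [p2]; linarith
  have u1 := Real.sqrt_pos.2 q1
  have u2 := Real.sqrt_pos.2 q2
  rw [div_le_div_iff₀ u1 u2]
  have key : Real.sin x * Real.sqrt (1 - (k * Real.cos y) ^ 2) ≤
      Real.sin y * Real.sqrt (1 - (k * Real.cos x) ^ 2) := by
    have e1 : Real.sin x * Real.sqrt (1 - (k * Real.cos y) ^ 2) =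
        Real.sqrt (Real.sin x ^ 2 * (1 - (k * Real.cos y) ^ 2)) := by
      rw [Real.sqrt_mul (sq_nonneg _), Real.sqrt_sq s1]
    have e2 : Real.sin y * Real.sqrt (1 - (k * Real.cos x) ^ 2) =
        Real.sqrt (Real.sin y ^ 2 * (1 - (k * Real.cos x) ^ 2)) := by
      rw [Real.sqrt_mul (sq_nonneg _), Real.sqrt_sq (s1.trans s2)]
    rw [e1, e2]
    apply Real.sqrt_le_sqrt
    rw [p1, p2]
    have e3 : Real.sin x ^ 2 ≤ Real.sin y ^ 2 := by nlinarith
    nlinarith
  nlinarith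

theorem arccos_convex69 {k : ℝ} (hk : 0 < k) (hk1 : k < 1) :
    ConvexOn ℝ (Set.Icc 0 (Real.pi / 2)) (fun x : ℝ => Real.arccos (k * Real.cos x)) := by
  apply MonotoneOn.convexOn_of_deriv (convex_Icc _ _)
  · exact fun x _ => (arccos_cos_deriv69 hk hk1 x).continuousAt.continuousWithinAt
  · exact fun x _ => (arccos_cos_deriv69 hk hk1 x).differentiableAt.differentiableWithinAt
  · intro x hx y hy hxy
    rw [interior_Icc] at hx hy
    rw [(arccos_cos_deriv69 hk hk1 x).deriv, (arccos_cos_deriv69 hk hk1 y).deriv]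
    exact deriv_mono69 hk hk1 hx.1.le hxy hy.2.le

theorem psi51_convex69 {d : ℝ} (hd : 0 < d) :
    ConvexOn ℝ (Set.Icc 0 (Real.pi / 2)) (fun w : ℝ => psi51 w d) := by
  have hQ : 1 < Real.cosh (d / 2) := Real.one_lt_cosh.2 (by linarith)
  have hQ0 : 0 < Real.cosh (d / 2) := by linarith
  have hk0 : 0 < 1 / Real.cosh (d / 2) := by positivity
  have hk1 : 1 / Real.cosh (d / 2) < 1 := by rw [div_lt_one hQ0]; exact hQ
  obtain ⟨h1, h2⟩ := arccos_convex69 hk0 hk1
  refine ⟨h1, ?_⟩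
  intro x hx y hy a b ha hb hab
  have h := h2 hx hy ha hb hab
  unfold psi51
  simp only [smul_eq_mul] at h ⊢
  have e : ∀ w : ℝ, Real.cos w / Real.cosh (d / 2) = 1 / Real.cosh (d / 2) * Real.cos w := by
    intro w; ring
  rw [e, e, e]
  linarith

theorem psi51_conv69 {d : ℝ} (hd : 0 < d) {x y p q : ℝ} (hx : x ∈ Set.Icc 0 (Real.pi / 2))
    (hy : y ∈ Set.Icc 0 (Real.pi / 2)) (hp : 0 ≤ p) (hq : 0 ≤ q) (hpq : p + q = 1) :
    psi51 (p * x + q * y) d ≤ p * psi51 x d + q * psi51 y d := by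
  have h := (psi51_convex69 hd).2 hx hy hp hq hpq
  simpa only [smul_eq_mul] using h

/-- chord bound: `Ust69 d` is convex in `b` -/
theorem Ust_chord69 {d : ℝ} (hd : 0 < d) {a b c : ℕ} (ha : 2 ≤ a) (hab : a ≤ b) (hbc : b ≤ c) :
    ((c : ℝ) - a) * Ust69 d b ≤ ((c : ℝ) - b) * Ust69 d a + ((b : ℝ) - a) * Ust69 d c := by
  have hpi := Real.pi_pos
  have a2 : (2 : ℝ) ≤ a := by exact_mod_cast ha
  have ab : (a : ℝ) ≤ b := by exact_mod_cast hab
  have bc : (b : ℝ) ≤ c := by exact_mod_cast hbc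
  rcases Nat.eq_or_lt_of_le (hab.trans hbc) with h | h
  · have e1 : b = a := by omega
    have e2 : c = a := by omega
    subst e1
    rw [e2]
    simp
  have hac : (0 : ℝ) < c - a := by
    have : (a : ℝ) < c := by exact_mod_cast h
    linarith
  rw [Ust69_eq ha, Ust69_eq (ha.trans hab), Ust69_eq (ha.trans (hab.trans hbc))]
  unfold astar51
  have hb0 : (0 : ℝ) < b := by linarith
  have ha0 : (0 : ℝ) < a := by linarith
  have hc0 : (0 : ℝ) < c := by linarith
  have mem : ∀ x : ℝ, 2 ≤ x → Real.pi / x ∈ Set.Icc 0 (Real.pi / 2) := fun x hx =>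
    ⟨by positivity, div_le_div_of_nonneg_left hpi.le (by norm_num) hx⟩
  have h1 := psi51_conv69 hd (mem a a2) (mem c (by linarith))
    (p := ((c : ℝ) - b) * a / ((c - a) * b)) (q := ((b : ℝ) - a) * c / ((c - a) * b))
    (div_nonneg (mul_nonneg (by linarith) ha0.le) (mul_nonneg hac.le hb0.le))
    (div_nonneg (mul_nonneg (by linarith) hc0.le) (mul_nonneg hac.le hb0.le))
    (by field_simp; ring)
  have e1 : ((c : ℝ) - b) * a / ((c - a) * b) * (Real.pi / a) + (b - a) * c / ((c - a) * b) *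
      (Real.pi / c) = Real.pi / b := by
    field_simp
    ring
  rw [e1] at h1
  have h2 := mul_le_mul_of_nonneg_left h1 (mul_nonneg hac.le hb0.le)
  have e2 : ((c : ℝ) - a) * b * ((c - b) * a / ((c - a) * b) * psi51 (Real.pi / a) d +
      (b - a) * c / ((c - a) * b) * psi51 (Real.pi / c) d) =
      (c - b) * (a * psi51 (Real.pi / a) d) + (b - a) * (c * psi51 (Real.pi / c) d) := by
    field_simp
  rw [e2] at h2
  linarith

/-- the slope of `Ust69 d` is at most `g51 d` -/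
theorem Ust_tail69 {d : ℝ} (hd : 0 < d) {a b : ℕ} (ha : 2 ≤ a) (hab : a ≤ b) :
    Ust69 d b ≤ Ust69 d a + ((b : ℝ) - a) * g51 d := by
  have hpi := Real.pi_pos
  have a2 : (2 : ℝ) ≤ a := by exact_mod_cast ha
  have ab : (a : ℝ) ≤ b := by exact_mod_cast hab
  have hb0 : (0 : ℝ) < b := by linarith
  have ha0 : (0 : ℝ) < a := by linarith
  rw [Ust69_eq ha, Ust69_eq (ha.trans hab)]
  unfold astar51
  have mem : ∀ x : ℝ, 2 ≤ x → Real.pi / x ∈ Set.Icc 0 (Real.pi / 2) := fun x hx =>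
    ⟨by positivity, div_le_div_of_nonneg_left hpi.le (by norm_num) hx⟩
  have mem0 : (0 : ℝ) ∈ Set.Icc 0 (Real.pi / 2) := ⟨le_refl _, by positivity⟩
  have h1 := psi51_conv69 hd mem0 (mem a a2) (p := ((b : ℝ) - a) / b) (q := (a : ℝ) / b)
    (div_nonneg (by linarith) hb0.le) (by positivity) (by field_simp; ring)
  have e1 : ((b : ℝ) - a) / b * 0 + a / b * (Real.pi / a) = Real.pi / b := by
    field_simp
    ring
  rw [e1, psi51_zero_left hd.le] at h1
  have h2 := mul_le_mul_of_nonneg_left h1 hb0.le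
  have e2 : (b : ℝ) * ((b - a) / b * g51 d + a / b * psi51 (Real.pi / a) d) =
      (b - a) * g51 d + a * psi51 (Real.pi / a) d := by
    field_simp
  rw [e2] at h2
  linarith

/-! ### In terms of `s = 1 / cosh (d / 2)` -/

/-- area of the regular `b`-gon of side `d`, as a function of `s = 1 / cosh (d / 2)` -/
def W69 (b : ℕ) (s : ℝ) : ℝ := 2 * b * Real.arccos (s * Real.cos (Real.pi / b)) - 2 * Real.pi

theorem Ust69_eq_W69 {d : ℝ} {b : ℕ} (hb : 2 ≤ b) :
    Ust69 d b = W69 b (1 / Real.cosh (d / 2)) := by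
  rw [Ust69_eq hb]
  unfold astar51 psi51 W69
  have hb0 : (0 : ℝ) < b := by
    have : (2 : ℝ) ≤ b := by exact_mod_cast hb
    linarith
  rw [show Real.cos (Real.pi / b) / Real.cosh (d / 2) =
    1 / Real.cosh (d / 2) * Real.cos (Real.pi / b) by ring]
  field_simp

theorem A3_eq_W69 {d : ℝ} (hd : 0 < d) : A3 (alpha d) = W69 3 (1 / Real.cosh (d / 2)) := by
  rw [← Ust69_eq_W69 (by norm_num), Ust69_eq (by norm_num), A3_eq69 hd]
  unfold astar51
  push_cast
  ring

theorem W69_eq {b : ℕ} (hb : 1 ≤ b) (s : ℝ) :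
    W69 b s = 2 * b * (Real.arccos (s * Real.cos (Real.pi / b)) -
      Real.arccos (Real.cos (Real.pi / b))) := by
  unfold W69
  have hpi := Real.pi_pos
  have hb1 : (1 : ℝ) ≤ b := by exact_mod_cast hb
  have hb0 : (0 : ℝ) < b := by linarith
  rw [Real.arccos_cos (by positivity) (by rw [div_le_iff₀ hb0]; nlinarith)]
  field_simp

theorem W69_anti {b : ℕ} (hb : 2 ≤ b) {s1 s2 : ℝ} (h : s1 ≤ s2) : W69 b s2 ≤ W69 b s1 := by
  unfold W69
  have hpi := Real.pi_pos
  have hb2 : (2 : ℝ) ≤ b := by exact_mod_cast hb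
  have hb0 : (0 : ℝ) < b := by linarith
  have hc : 0 ≤ Real.cos (Real.pi / b) := by
    apply Real.cos_nonneg_of_neg_pi_div_two_le_of_le
    · have : 0 < Real.pi / b := by positivity
      linarith
    · exact div_le_div_of_nonneg_left hpi.le (by norm_num) hb2
  have h1 : Real.arccos (s2 * Real.cos (Real.pi / b)) ≤ Real.arccos (s1 * Real.cos (Real.pi / b)) :=
    Real.arccos_le_arccos (mul_le_mul_of_nonneg_right h hc)
  have := mul_le_mul_of_nonneg_left h1 (show (0 : ℝ) ≤ 2 * b by positivity)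
  linarith

theorem W69_one {b : ℕ} (hb : 1 ≤ b) : W69 b 1 = 0 := by
  rw [W69_eq hb, one_mul, sub_self, mul_zero]

theorem W69_nonneg {b : ℕ} (hb : 2 ≤ b) {s : ℝ} (h : s ≤ 1) : 0 ≤ W69 b s := by
  rw [← W69_one (show 1 ≤ b by omega)]
  exact W69_anti hb h

/-- the quotient `W69 b s / W69 3 s` is monotone in `s` -/
theorem ratio_s69 {b : ℕ} (hb : 3 ≤ b) {s1 s2 : ℝ} (h1 : 0 ≤ s1) (h12 : s1 ≤ s2) (h2 : s2 ≤ 1) :
    W69 b s1 * W69 3 s2 ≤ W69 b s2 * W69 3 s1 := by
  obtain ⟨c1, c2, c3, c4⟩ := cos_pi_div69 hb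
  have hr := ratio69 (c := Real.cos (Real.pi / b)) (c0 := 1 / 2) (by norm_num) c1 c2 h1 h12 h2
  rw [W69_eq (by omega), W69_eq (by norm_num), W69_eq (by omega), W69_eq (by norm_num)]
  rw [show Real.cos (Real.pi / ((3 : ℕ) : ℝ)) = 1 / 2 by
    push_cast
    exact Real.cos_pi_div_three]
  have hb0 : (0 : ℝ) ≤ b := Nat.cast_nonneg _
  have h3 := mul_le_mul_of_nonneg_left hr (mul_nonneg (by norm_num : (0 : ℝ) ≤ 12) hb0)
  push_cast
  nlinarith

/-- `x cot x ≤ 1 - x ^ 2 / 3` -/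
theorem x_cot69 {x : ℝ} (h0 : 0 ≤ x) (h1 : x ≤ Real.pi / 3) :
    x * Real.cos x ≤ (1 - x ^ 2 / 3) * Real.sin x := by
  have hpi := Real.pi_pos
  have hder : ∀ y : ℝ, HasDerivAt (fun y : ℝ => (1 - y ^ 2 / 3) * Real.sin y - y * Real.cos y)
      (y / 3 * (Real.sin y - y * Real.cos y)) y := by
    intro y
    have e1 : HasDerivAt (fun y : ℝ => 1 - y ^ 2 / 3) (-(2 * y / 3)) y := by
      have h := ((hasDerivAt_id y).pow 2).div_const 3
      have h2 := h.const_sub 1
      simpa using h2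
    have e2 := e1.mul (Real.hasDerivAt_sin y)
    have e3 := (hasDerivAt_id y).mul (Real.hasDerivAt_cos y)
    have e4 := e2.sub e3
    have e5 : -(2 * y / 3) * Real.sin y + (1 - y ^ 2 / 3) * Real.cos y -
        (1 * Real.cos y + id y * -Real.sin y) = y / 3 * (Real.sin y - y * Real.cos y) := by
      simp only [id]
      ring
    rw [e5] at e4
    exact e4
  have hmono : MonotoneOn (fun y : ℝ => (1 - y ^ 2 / 3) * Real.sin y - y * Real.cos y)
      (Set.Icc 0 (Real.pi / 3)) := by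
    apply monotoneOn_of_deriv_nonneg (convex_Icc _ _)
    · exact fun y _ => (hder y).continuousAt.continuousWithinAt
    · exact fun y _ => (hder y).differentiableAt.differentiableWithinAt
    · intro y hy
      rw [interior_Icc] at hy
      rw [(hder y).deriv]
      apply mul_nonneg
      · have := hy.1
        positivity
      · have hy2 : y < Real.pi / 2 := by
          have := hy.2
          linarith
        have h2 := Real.le_tan hy.1.le hy2
        have h3 : 0 < Real.cos y := Real.cos_pos_of_mem_Ioo ⟨by have := hy.1; linarith, hy2⟩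
        rw [Real.tan_eq_sin_div_cos, le_div_iff₀ h3] at h2
        linarith
  have h := hmono ⟨le_refl _, by positivity⟩ ⟨h0, h1⟩ h0
  simp at h
  linarith

/-- the Euclidean bound, rational form in `π` and `√3` -/
theorem Ust_euclid_pi69 {d : ℝ} (h1 : 0 < d) {b : ℕ} (hb : 3 ≤ b) :
    Ust69 d b ≤ ((b : ℝ) ^ 2 / Real.pi - Real.pi / 3) / Real.sqrt 3 * A3 (alpha d) := by
  obtain ⟨c1, c2, c3, c4⟩ := cos_pi_div69 hb
  have hpi := Real.pi_pos
  have hb3 : (3 : ℝ) ≤ b := by exact_mod_cast hb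
  have hb0 : (0 : ℝ) < b := by linarith
  have hs : 0 < Real.sin (Real.pi / b) := Real.sin_pos_of_pos_of_lt_pi c3 (by linarith)
  have h3p : 0 < Real.sqrt 3 := by positivity
  have h := Ust_euclid69 h1 hb
  have hx := x_cot69 c3.le c4
  have hA := A3_pos69 h1
  have h2 : (b : ℝ) * Real.cos (Real.pi / b) ≤
      ((b : ℝ) ^ 2 / Real.pi - Real.pi / 3) * Real.sin (Real.pi / b) := by
    have h4 := mul_le_mul_of_nonneg_left hx (show (0 : ℝ) ≤ b ^ 2 / Real.pi by positivity)
    have e1 : (b : ℝ) ^ 2 / Real.pi * (Real.pi / b * Real.cos (Real.pi / b)) =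
        b * Real.cos (Real.pi / b) := by
      field_simp
    have e2 : (b : ℝ) ^ 2 / Real.pi * ((1 - (Real.pi / b) ^ 2 / 3) * Real.sin (Real.pi / b)) =
        ((b : ℝ) ^ 2 / Real.pi - Real.pi / 3) * Real.sin (Real.pi / b) := by
      field_simp
    rw [e1, e2] at h4
    exact h4
  have h5 := mul_le_mul_of_nonneg_right h2 hA.le
  have h6 : Ust69 d b * (Real.sqrt 3 * Real.sin (Real.pi / b)) ≤
      ((b : ℝ) ^ 2 / Real.pi - Real.pi / 3) / Real.sqrt 3 * A3 (alpha d) *
        (Real.sqrt 3 * Real.sin (Real.pi / b)) := by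
    have e3 : ((b : ℝ) ^ 2 / Real.pi - Real.pi / 3) / Real.sqrt 3 * A3 (alpha d) *
        (Real.sqrt 3 * Real.sin (Real.pi / b)) =
        ((b : ℝ) ^ 2 / Real.pi - Real.pi / 3) * Real.sin (Real.pi / b) * A3 (alpha d) := by
      field_simp
    rw [e3]
    linarith
  exact le_of_mul_le_mul_right h6 (by positivity)

end

end Pool.Agent.PEN
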