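import Pool.Agent.P4.Defs3
import Pool.Agent.P4.Rm69

/-! # Numbers for inequality G (`n ≤ 97`, all `d` with `cosh d ≤ 611 / 500`)

With `x = A3` the area of the contact triangle the angle is `α = (π - x) / 3`, and
`1 / cosh (d / 2) = 2 sin (α / 2) = cos (x / 6) - √3 sin (x / 6)`. The quotient (area of the
regular `b`-gon) / (area of the contact triangle) is antitone in `d`, `e = 2 x / α` is monotone, so
on an interval `[x₁, x₂]` the quotient at `x₁` and `e` at `x₂` are used. -/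

set_option autoImplicit false

namespace Pool.Agent.PEN

noncomputable section

/-! ### Integer tests -/

/-- `p k` for all `k < n` -/
def allB52 (p : ℕ → Bool) : ℕ → Bool
  | 0 => true
  | n + 1 => p n && allB52 p n

theorem allB52_spec {p : ℕ → Bool} {n : ℕ} (h : allB52 p n = true) {k : ℕ} (hk : k < n) :
    p k = true := by
  induction n with
  | zero => omega
  | succ n ih =>
    unfold allB52 at h
    rw [Bool.and_eq_true] at h
    rcases Nat.lt_succ_iff_lt_or_eq.1 hk with h1 | h1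
    · exact ih h.2 h1
    · rw [h1]
      exact h.1

/-- the test for the pair `n, b`; `R / 100` bounds the quotient. It excludes
`3 t + b - 2 I ≥ 2 Lb + 2` when `2 I ≥ p (n - b) - q (R / 100 - t)`, `p = P / 40000`,
`q = Q / 40000`, `t ≤ R / 100` and `t + b ≤ 2 n - 2` -/
def chkP52 (P Q n b R : ℕ) : Bool :=
  Nat.blt (1200 * R + 40000 * b) (40000 * (2 * Lb n + 2) + P * (n - b)) ||
    Nat.blt ((12000000 - 100 * Q) * (2 * n - 2 - b) + Q * R + 4000000 * b)
      (4000000 * (2 * Lb n + 2) + 100 * P * (n - b))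

/-- all pairs with `10 ≤ n < N`, `3 ≤ b ≤ n` -/
def tstP52 (r : ℕ → ℕ) (P Q N : ℕ) : Bool :=
  allB52 (fun n => Nat.blt n 10 || allB52 (fun b => Nat.blt b 3 || chkP52 P Q n b (r b)) (n + 1)) N

/-- `W_b(x) ≤ (R / 100) x`, `x = X / 10 ^ 4`, `S / 10 ^ 7 ≤ cos (x / 6) - √3 sin (x / 6)` -/
def chkW52 (X S b R : ℕ) : Bool :=
  let D := 2000000 * b
  let y := 6283184 + R * X
  let f := 6283186
  Nat.ble (10000000 * (720 * D ^ 6 + 30 * y ^ 4 * D ^ 2) + S * (360 * f ^ 2 * D ^ 4 + f ^ 6))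
      (S * (720 * D ^ 6 + 30 * f ^ 4 * D ^ 2) + 10000000 * (360 * y ^ 2 * D ^ 4)) &&
    Nat.ble (R * X) (6000000 * (b - 1))

/-- all `b` with `3 ≤ b < N` -/
def tstW52 (r : ℕ → ℕ) (X S N : ℕ) : Bool :=
  allB52 (fun b => Nat.blt b 3 || chkW52 X S b (r b)) N

/-! ### Taylor bounds -/

theorem cos_le52 {t : ℝ} (ht0 : 0 ≤ t) (ht1 : t ≤ 4) :
    Real.cos t ≤ 1 - t ^ 2 / 2 + t ^ 4 / 24 := by
  have h2 : Real.cos t = 1 - 2 * Real.sin (t / 2) ^ 2 := by
    have := Real.cos_two_mul (t / 2)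
    have e : 2 * (t / 2) = t := by ring
    rw [e] at this
    rw [this, Real.sin_sq]
    ring
  have h3 := Real.sin_ge_sub_cube (x := t / 2) (by linarith)
  have h4 : 0 ≤ t / 2 - (t / 2) ^ 3 / 6 := by nlinarith [mul_nonneg ht0 (sq_nonneg t)]
  rw [h2]
  have h5 := pow_le_pow_left₀ h4 h3 2
  nlinarith [sq_nonneg (t ^ 3)]

theorem sin_le52 {x : ℝ} (h0 : 0 ≤ x) (h1 : x ≤ 4) :
    Real.sin x ≤ x - x ^ 3 / 6 + x ^ 5 / 120 := by
  have hder : ∀ t, HasDerivAt (fun t => t - t ^ 3 / 6 + t ^ 5 / 120 - Real.sin t)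
      (1 - t ^ 2 / 2 + t ^ 4 / 24 - Real.cos t) t := by
    intro t
    refine ((((hasDerivAt_id t).sub ((hasDerivAt_pow 3 t).div_const 6)).add
      ((hasDerivAt_pow 5 t).div_const 120)).sub (Real.hasDerivAt_sin t)).congr_deriv ?_
    push_cast
    ring
  have hmono : MonotoneOn (fun t => t - t ^ 3 / 6 + t ^ 5 / 120 - Real.sin t)
      (Set.Icc (0 : ℝ) 4) := by
    refine monotoneOn_of_deriv_nonneg (convex_Icc _ _)
      (fun t _ => (hder t).continuousAt.continuousWithinAt)
      (fun t _ => (hder t).differentiableAt.differentiableWithinAt) fun t ht => ?_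
    rw [interior_Icc] at ht
    rw [(hder t).deriv]
    have := cos_le52 ht.1.le ht.2.le
    linarith
  have h := hmono (a := 0) ⟨le_rfl, by norm_num⟩ ⟨h0, h1⟩ h0
  norm_num at h
  linarith

theorem cos_ge52 {t : ℝ} (h0 : 0 ≤ t) (h1 : t ≤ 2) :
    1 - t ^ 2 / 2 + t ^ 4 / 24 - t ^ 6 / 720 ≤ Real.cos t := by
  have h2 : Real.cos t = 1 - 2 * Real.sin (t / 2) ^ 2 := by
    have := Real.cos_two_mul (t / 2)
    have e : 2 * (t / 2) = t := by ring
    rw [e] at this
    rw [this, Real.sin_sq]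
    ring
  have h3 := sin_le52 (x := t / 2) (by linarith) (by linarith)
  have h4 : 0 ≤ Real.sin (t / 2) :=
    Real.sin_nonneg_of_nonneg_of_le_pi (by linarith) (by linarith [Real.pi_gt_three])
  have h5 := pow_le_pow_left₀ h4 h3 2
  rw [h2]
  have e : (t / 2 - (t / 2) ^ 3 / 6 + (t / 2) ^ 5 / 120) ^ 2
      = t ^ 2 / 4 - t ^ 4 / 48 + t ^ 6 / 1440 - t ^ 8 / 92160 + t ^ 10 / 14745600 := by ring
  have h6 : t ^ 10 ≤ 4 * t ^ 8 := by
    have : 0 ≤ t ^ 8 * (4 - t ^ 2) := mul_nonneg (by positivity) (by nlinarith)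
    nlinarith
  have h7 : 0 ≤ t ^ 8 := by positivity
  rw [e] at h5
  linarith

/-! ### `s` as a function of the area of the contact triangle -/

/-- `1 / cosh (d / 2)` as a function of `x = A3` -/
def sx52 (x : ℝ) : ℝ := Real.cos (x / 6) - √3 * Real.sin (x / 6)

theorem sx_half52 (x : ℝ) : sx52 x * (1 / 2) = Real.cos (Real.pi / 3 + x / 6) := by
  unfold sx52
  rw [Real.cos_add, Real.cos_pi_div_three, Real.sin_pi_div_three]
  ring

theorem W3_sx52 {x : ℝ} (h0 : 0 ≤ x) (h1 : x ≤ 3) : W69 3 (sx52 x) = x := by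
  have hpi := Real.pi_gt_three
  unfold W69
  rw [show Real.cos (Real.pi / ((3 : ℕ) : ℝ)) = 1 / 2 by
    push_cast
    exact Real.cos_pi_div_three, sx_half52, Real.arccos_cos (by positivity) (by linarith)]
  push_cast
  ring

theorem sx_nonneg52 {x : ℝ} (h0 : 0 ≤ x) (h1 : x ≤ 3) : 0 ≤ sx52 x := by
  have hpi := Real.pi_gt_three
  have h2 : 0 ≤ Real.cos (Real.pi / 3 + x / 6) :=
    Real.cos_nonneg_of_neg_pi_div_two_le_of_le (by linarith) (by linarith)
  rw [← sx_half52] at h2
  linarith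

theorem sx_le_one52 {x : ℝ} (h0 : 0 ≤ x) (h1 : x ≤ 3) : sx52 x ≤ 1 := by
  have hpi := Real.pi_gt_three
  have h2 : Real.cos (Real.pi / 3 + x / 6) ≤ Real.cos (Real.pi / 3) :=
    Real.cos_le_cos_of_nonneg_of_le_pi (by positivity) (by linarith) (by linarith)
  rw [← sx_half52, Real.cos_pi_div_three] at h2
  linarith

theorem sx_lb52 {x v : ℝ} (h0 : 0 ≤ x) (h1 : x ≤ 1)
    (h : v ≤ 1 - (x / 6) ^ 2 / 2 -
      17320509 / 10000000 * (x / 6 - (x / 6) ^ 3 / 6 + (x / 6) ^ 5 / 120)) : v ≤ sx52 x := by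
  have h2 := Real.one_sub_sq_div_two_le_cos (x := x / 6)
  have h3 := sin_le52 (x := x / 6) (by linarith) (by linarith)
  have h4 : 0 ≤ Real.sin (x / 6) :=
    Real.sin_nonneg_of_nonneg_of_le_pi (by linarith) (by linarith [Real.pi_gt_three])
  have h5 : √(3 : ℝ) ≤ 17320509 / 10000000 := by
    rw [Real.sqrt_le_left (by norm_num)]
    norm_num
  have h6 := mul_le_mul h5 h3 h4 (by norm_num)
  unfold sx52
  linarith

/-! ### The table of the areas of the regular polygons -/

theorem tabW52 {X S b R : ℕ} (h : chkW52 X S b R = true) (hb : 3 ≤ b) (hX : X ≤ 10000)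
    (hS : (S : ℝ) / 10000000 ≤ sx52 (X / 10000)) :
    W69 b (sx52 (X / 10000)) ≤ R / 100 * (X / 10000) := by
  unfold chkW52 at h
  simp only at h
  rw [Bool.and_eq_true] at h
  obtain ⟨hA, hB⟩ := h
  have hA := Nat.le_of_ble_eq_true hA
  have hB := Nat.le_of_ble_eq_true hB
  have hb3 : (3 : ℝ) ≤ b := by exact_mod_cast hb
  have hb0 : (0 : ℝ) < b := by linarith
  have hp1 := Real.pi_gt_d6
  have hp2 := Real.pi_lt_d6
  have hpi := Real.pi_pos
  have hA' : (10000000 * (720 * (2000000 * (b : ℝ)) ^ 6 + 30 * (6283184 + R * X) ^ 4 *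
      (2000000 * b) ^ 2) + S * (360 * 6283186 ^ 2 * (2000000 * b) ^ 4 + 6283186 ^ 6) : ℝ) ≤
      S * (720 * (2000000 * b) ^ 6 + 30 * 6283186 ^ 4 * (2000000 * b) ^ 2) +
        10000000 * (360 * (6283184 + R * X) ^ 2 * (2000000 * b) ^ 4) := by
    exact_mod_cast hA
  have hB' : (R : ℝ) * X ≤ 6000000 * (b - 1) := by
    have h2 : ((R * X : ℕ) : ℝ) ≤ ((6000000 * (b - 1) : ℕ) : ℝ) := by exact_mod_cast hB
    rw [Nat.cast_mul, Nat.cast_mul, Nat.cast_sub (by omega)] at h2
    push_cast at h2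
    exact h2
  set D : ℝ := 2000000 * b with hD
  have hD0 : 0 < D := by rw [hD]; positivity
  set Y : ℝ := (6283184 + R * X) / D with hY
  set f : ℝ := 6283186 / D with hf
  have hYD : (6283184 + R * X : ℝ) = Y * D := by rw [hY]; field_simp
  have hfD : (6283186 : ℝ) = f * D := by rw [hf]; field_simp
  rw [hYD, hfD] at hA'
  have hRX : (0 : ℝ) ≤ R * X := by positivity
  -- the polynomial inequality
  have h1 : (10000000 : ℝ) * (1 - Y ^ 2 / 2 + Y ^ 4 / 24) ≤
      S * (1 - f ^ 2 / 2 + f ^ 4 / 24 - f ^ 6 / 720) := by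
    have h2 : 720 * D ^ 6 * ((10000000 : ℝ) * (1 - Y ^ 2 / 2 + Y ^ 4 / 24)) ≤
        720 * D ^ 6 * (S * (1 - f ^ 2 / 2 + f ^ 4 / 24 - f ^ 6 / 720)) := by
      linarith
    exact le_of_mul_le_mul_left h2 (by positivity)
  have hf0 : 0 ≤ f := by rw [hf]; positivity
  have hY0 : 0 ≤ Y := by rw [hY]; positivity
  have hf1 : f ≤ 2 := by
    rw [hf, div_le_iff₀ hD0, hD]
    linarith
  have hY1 : Y ≤ 4 := by
    rw [hY, div_le_iff₀ hD0, hD]
    linarith
  have h3 := cos_le52 hY0 hY1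
  have h4 := cos_ge52 hf0 hf1
  -- `π / b ≤ f`
  have h5 : Real.pi / b ≤ f := by
    rw [hf, hD, div_le_div_iff₀ hb0 (by positivity)]
    nlinarith
  have h6 : Real.cos f ≤ Real.cos (Real.pi / b) :=
    Real.cos_le_cos_of_nonneg_of_le_pi (by positivity) (by linarith [Real.pi_gt_three]) h5
  set Z : ℝ := (Real.pi + R / 100 * (X / 10000) / 2) / b with hZ
  have h7 : Y ≤ Z := by
    rw [hY, hZ, hD, div_le_div_iff₀ (by positivity) hb0]
    nlinarith
  have h8 : Z ≤ Real.pi := by
    rw [hZ, div_le_iff₀ hb0]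
    nlinarith
  have h9 : Real.cos Z ≤ Real.cos Y := Real.cos_le_cos_of_nonneg_of_le_pi hY0 h8 h7
  have hs0 : 0 ≤ sx52 ((X : ℝ) / 10000) := by
    have : (X : ℝ) ≤ 10000 := by exact_mod_cast hX
    apply sx_nonneg52 (by positivity)
    linarith
  have hS0 : (0 : ℝ) ≤ S := Nat.cast_nonneg _
  have h10 : Real.cos Z ≤ sx52 ((X : ℝ) / 10000) * Real.cos (Real.pi / b) := by
    have h11 : (S : ℝ) / 10000000 * (1 - f ^ 2 / 2 + f ^ 4 / 24 - f ^ 6 / 720) ≤
        (S : ℝ) / 10000000 * Real.cos (Real.pi / b) :=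
      mul_le_mul_of_nonneg_left (h4.trans h6) (by positivity)
    have h12 : (S : ℝ) / 10000000 * Real.cos (Real.pi / b) ≤
        sx52 ((X : ℝ) / 10000) * Real.cos (Real.pi / b) := by
      apply mul_le_mul_of_nonneg_right hS
      linarith [(cos_pi_div69 hb).1]
    linarith
  have h13 := Real.arccos_le_arccos h10
  rw [Real.arccos_cos (hY0.trans h7) h8] at h13
  have h14 := mul_le_mul_of_nonneg_left h13 (show (0 : ℝ) ≤ 2 * b by positivity)
  unfold W69
  have h15 : 2 * (b : ℝ) * Z = 2 * Real.pi + R / 100 * (X / 10000) := by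
    rw [hZ]
    field_simp
  linarith

/-- the bound at `x₁` holds for all larger `A3` -/
theorem Ust_tab52 {d : ℝ} (hd : 0 < d) {x q : ℝ} {b : ℕ} (hb : 3 ≤ b) (hx0 : 0 < x) (h3 : x ≤ 3)
    (hx : x ≤ A3 (alpha d)) (hW : W69 b (sx52 x) ≤ q * x) :
    Ust69 d b ≤ q * A3 (alpha d) := by
  obtain ⟨s1, s2⟩ := inv_cosh69 d
  rw [Ust69_eq_W69 (by omega)]
  have e3 := A3_eq_W69 hd
  have h4 : 1 / Real.cosh (d / 2) ≤ sx52 x := by
    by_contra hcon
    push Not at hcon
    have e4 := W3_sx52 hx0.le h3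
    have h0 := sx_nonneg52 hx0.le h3
    unfold W69 at e3 e4
    rw [show Real.cos (Real.pi / ((3 : ℕ) : ℝ)) = 1 / 2 by
      push_cast
      exact Real.cos_pi_div_three] at e3 e4
    have h5 : Real.arccos (1 / Real.cosh (d / 2) * (1 / 2)) < Real.arccos (sx52 x * (1 / 2)) :=
      Real.arccos_lt_arccos (by linarith) (by linarith) (by linarith)
    push_cast at e3 e4
    linarith
  have h5 := ratio_s69 hb s1.le h4 (sx_le_one52 hx0.le h3)
  rw [W3_sx52 hx0.le h3, ← e3] at h5
  have h6 := mul_le_mul_of_nonneg_right hW (A3_pos69 hd).le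
  have h7 : W69 b (1 / Real.cosh (d / 2)) * x ≤ q * A3 (alpha d) * x := by linarith
  exact le_of_mul_le_mul_right h7 hx0

/-! ### One interval -/

theorem Lb_ge52 (n : ℕ) : (7 * n - 17 : ℝ) / 3 ≤ Lb n := by
  have h : 7 * n ≤ 3 * Lb n + 17 := by
    unfold Lb
    omega
  have h2 : (7 * n : ℝ) ≤ 3 * Lb n + 17 := by exact_mod_cast h
  linarith

/-- the arithmetic of one pair `n, b` -/
theorem core52 {r : ℕ → ℕ} {P Q N : ℕ} (hT : tstP52 r P Q N = true) (hQ : Q ≤ 120000)
    {n b t I : ℕ} (hb : 3 ≤ b) (hn : 10 ≤ n) (hnN : n < N) (h1 : t + b ≤ 2 * n - 2)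
    (h5 : (t : ℝ) ≤ r b / 100)
    (h6 : b ≤ n → (P / 40000 : ℝ) * ((n : ℝ) - b) ≤ 2 * I + Q / 40000 * (r b / 100 - t)) :
    3 * t + b < 2 * Lb n + 2 + 2 * I := by
  by_contra hcon
  push Not at hcon
  have hcon' : (2 * Lb n + 2 + 2 * I : ℝ) ≤ 3 * t + b := by exact_mod_cast hcon
  have hI : (0 : ℝ) ≤ I := Nat.cast_nonneg _
  have ht : (0 : ℝ) ≤ t := Nat.cast_nonneg _
  have h1' : (t : ℝ) + b ≤ 2 * n - 2 := by
    have : ((t + b : ℕ) : ℝ) ≤ ((2 * n - 2 : ℕ) : ℝ) := by exact_mod_cast h1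
    rw [Nat.cast_sub (by omega)] at this
    push_cast at this
    exact this
  have hn' : (10 : ℝ) ≤ n := by exact_mod_cast hn
  rcases lt_or_ge n b with hnb | hnb
  · have h5 := Lb_ge52 n
    have h6 : (n : ℝ) + 1 ≤ b := by exact_mod_cast hnb
    linarith
  have hnb' : (b : ℝ) ≤ n := by exact_mod_cast hnb
  replace h6 := h6 hnb
  have hQr : (Q : ℝ) ≤ 120000 := by exact_mod_cast hQ
  set R : ℝ := ((r b : ℕ) : ℝ) with hR
  -- the test
  have hT1 := allB52_spec hT (k := n) hnN
  simp only [Bool.or_eq_true] at hT1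
  rcases hT1 with hT1 | hT1
  · have := Nat.le_of_ble_eq_true hT1
    omega
  have hT2 := allB52_spec hT1 (k := b) (by omega)
  simp only [Bool.or_eq_true] at hT2
  rcases hT2 with hT2 | hT2
  · have := Nat.le_of_ble_eq_true hT2
    omega
  unfold chkP52 at hT2
  rw [Bool.or_eq_true] at hT2
  have hsub : ((n - b : ℕ) : ℝ) = n - b := by rw [Nat.cast_sub hnb]
  rcases hT2 with hT2 | hT2
  · have hT3 := Nat.le_of_ble_eq_true hT2
    have hT4 : 1200 * (r b) + 40000 * b < 40000 * (2 * Lb n + 2) + P * (n - b) := hT3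
    have hT5 : (1200 * R + 40000 * b : ℝ) < 40000 * (2 * Lb n + 2) + P * (n - b) := by
      have : ((1200 * (r b) + 40000 * b : ℕ) : ℝ) <
        ((40000 * (2 * Lb n + 2) + P * (n - b) : ℕ) : ℝ) := by exact_mod_cast hT4
      push_cast at this
      rw [hsub] at this
      linarith
    have k6 : (3 - (Q : ℝ) / 40000) * t ≤ (3 - (Q : ℝ) / 40000) * (R / 100) :=
      mul_le_mul_of_nonneg_left h5 (by linarith)
    linarith
  · have hT3 := Nat.le_of_ble_eq_true hT2
    have hT4 : (12000000 - 100 * Q) * (2 * n - 2 - b) + Q * (r b) + 4000000 * b <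
      4000000 * (2 * Lb n + 2) + 100 * P * (n - b) := hT3
    have hT5 : ((12000000 - 100 * Q) * (2 * n - 2 - b) + Q * R + 4000000 * b : ℝ) <
      4000000 * (2 * Lb n + 2) + 100 * P * (n - b) := by
      have : (((12000000 - 100 * Q) * (2 * n - 2 - b) + Q * (r b) + 4000000 * b : ℕ) : ℝ) <
        ((4000000 * (2 * Lb n + 2) + 100 * P * (n - b) : ℕ) : ℝ) := by
        exact_mod_cast hT4
      push_cast at this
      rw [hsub, Nat.cast_sub (show 100 * Q ≤ 12000000 by omega),
        Nat.cast_sub (show b ≤ 2 * n - 2 by omega), Nat.cast_sub (show 2 ≤ 2 * n by omega)] at this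
      push_cast at this
      linarith
    have k6 : (3 - (Q : ℝ) / 40000) * t ≤ (3 - (Q : ℝ) / 40000) * (2 * n - 2 - b) :=
      mul_le_mul_of_nonneg_left (by linarith) (by linarith)
    linarith

/-- inequality G in the units of the test -/
theorem unitG52 {E : ℕ} {a al A R : ℝ} (ha : 0 < a) (hal : a = Real.pi - 3 * al) (hal0 : 0 < al)
    (he : 20000 * a ≤ E * al) {n b t I : ℕ} (hnb : b ≤ n) (h2 : a * t ≤ A)
    (h3 : A ≤ R / 100 * a)
    (h4 : (7 * al - 2 * Real.pi) * ((n : ℝ) - b) ≤ al * (2 * I) + (A - a * t)) :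
    (1 - E / 10000 : ℝ) * ((n : ℝ) - b) ≤ 2 * I + E / 20000 * (R / 100 - t) := by
  have hnb' : (b : ℝ) ≤ n := by exact_mod_cast hnb
  have h5 : (t : ℝ) ≤ R / 100 := by
    have : a * t ≤ a * (R / 100) := by linarith
    exact le_of_mul_le_mul_left this ha
  have k1 : al * (1 - E / 10000) ≤ 7 * al - 2 * Real.pi := by linarith
  have k2 : al * (1 - E / 10000) * ((n : ℝ) - b) ≤ (7 * al - 2 * Real.pi) * ((n : ℝ) - b) :=
    mul_le_mul_of_nonneg_right k1 (by linarith)
  have k3 : a ≤ al * (E / 20000) := by linarith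
  have k4 : a * (R / 100 - t) ≤ al * (E / 20000) * (R / 100 - t) :=
    mul_le_mul_of_nonneg_right k3 (by linarith)
  have k5 : al * ((1 - E / 10000) * ((n : ℝ) - b)) ≤
      al * (2 * I + E / 20000 * (R / 100 - t)) := by linarith
  exact le_of_mul_le_mul_left k5 hal0

/-- inequality B (`4 I ≥ (2 - e) (n - b) - (A - A3 t) / α`) in the units of the test -/
theorem unitB52 {E : ℕ} {a al A R : ℝ} (ha : 0 < a) (hal : a = Real.pi - 3 * al) (hal0 : 0 < al)
    (he : 20000 * a ≤ E * al) {n b t I : ℕ} (hnb : b ≤ n) (h2 : a * t ≤ A)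
    (h3 : A ≤ R / 100 * a)
    (h4 : (8 * al - 2 * Real.pi) * ((n : ℝ) - b) ≤ al * (4 * I) + (A - a * t)) :
    (1 - E / 20000 : ℝ) * ((n : ℝ) - b) ≤ 2 * I + E / 40000 * (R / 100 - t) := by
  have hnb' : (b : ℝ) ≤ n := by exact_mod_cast hnb
  have h5 : (t : ℝ) ≤ R / 100 := by
    have : a * t ≤ a * (R / 100) := by linarith
    exact le_of_mul_le_mul_left this ha
  have k1 : al * (2 - E / 10000) ≤ 8 * al - 2 * Real.pi := by linarith
  have k2 : al * (2 - E / 10000) * ((n : ℝ) - b) ≤ (8 * al - 2 * Real.pi) * ((n : ℝ) - b) :=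
    mul_le_mul_of_nonneg_right k1 (by linarith)
  have k3 : a ≤ al * (E / 20000) := by linarith
  have k4 : a * (R / 100 - t) ≤ al * (E / 20000) * (R / 100 - t) :=
    mul_le_mul_of_nonneg_right k3 (by linarith)
  have k5 : al * ((1 - E / 20000) * ((n : ℝ) - b)) ≤
      al * (2 * I + E / 40000 * (R / 100 - t)) := by linarith
  exact le_of_mul_le_mul_left k5 hal0

/-! ### One interval -/

/-- the table bounds `Ust69 d b` -/
theorem Ust_le52 {d : ℝ} (hd : 0 < d) {r : ℕ → ℕ} {X S N b : ℕ} (hW : tstW52 r X S N = true)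
    (hb : 3 ≤ b) (hbN : b < N) (hX0 : 1 ≤ X) (hX : X ≤ 10000)
    (hS : (S : ℝ) / 10000000 ≤ 1 - ((X : ℝ) / 10000 / 6) ^ 2 / 2 -
      17320509 / 10000000 * ((X : ℝ) / 10000 / 6 - ((X : ℝ) / 10000 / 6) ^ 3 / 6 +
        ((X : ℝ) / 10000 / 6) ^ 5 / 120))
    (hx : (X : ℝ) / 10000 ≤ A3 (alpha d)) :
    Ust69 d b ≤ (r b : ℝ) / 100 * A3 (alpha d) := by
  have hXr : (X : ℝ) ≤ 10000 := by exact_mod_cast hX
  have hXr0 : (1 : ℝ) ≤ X := by exact_mod_cast hX0
  have hWb := allB52_spec hW (k := b) hbN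
  simp only [Bool.or_eq_true] at hWb
  rcases hWb with hWb | hWb
  · have := Nat.le_of_ble_eq_true hWb
    omega
  have h5 := tabW52 hWb hb hX (sx_lb52 (by positivity) (by linarith) hS)
  exact Ust_tab52 hd hb (by positivity) (by linarith) hx h5

/-- the bound of `e` in the units of the tests -/
theorem e_le52 {d : ℝ} {E : ℕ} (he : (60000 + E) * A3 (alpha d) ≤ E * Real.pi) :
    20000 * A3 (alpha d) ≤ E * alpha d := by
  have hA : Real.pi = 3 * alpha d + A3 (alpha d) := by unfold A3; ring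
  have h7 : (E : ℝ) * Real.pi = 3 * (E * alpha d) + E * A3 (alpha d) := by
    nth_rewrite 1 [hA]
    ring
  rw [h7] at he
  linarith

theorem t_le52 {a A R : ℝ} {t : ℕ} (ha : 0 < a) (h2 : a * t ≤ A) (h3 : A ≤ R / 100 * a) :
    (t : ℝ) ≤ R / 100 := by
  have : a * t ≤ a * (R / 100) := by linarith
  exact le_of_mul_le_mul_left this ha

/-- the numbers of inequality G for one `d`, `n < N`, `3 ≤ b` -/
def GN52 (d : ℝ) (N : ℕ) : Prop :=
  ∀ (n b t I : ℕ) (A : ℝ), 3 ≤ b → 10 ≤ n → n < N → t + b ≤ 2 * n - 2 →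
    A3 (alpha d) * t ≤ A → A ≤ Ust69 d b →
    (7 * alpha d - 2 * Real.pi) * ((n : ℝ) - b) ≤ alpha d * (2 * I) + (A - A3 (alpha d) * t) →
    3 * t + b < 2 * Lb n + 2 + 2 * I

/-- the numbers of inequality B for one `d`, `n < N`, `3 ≤ b` -/
def BN52 (d : ℝ) (N : ℕ) : Prop :=
  ∀ (n b t I : ℕ) (A : ℝ), 3 ≤ b → 10 ≤ n → n < N → t + b ≤ 2 * n - 2 →
    A3 (alpha d) * t ≤ A → A ≤ Ust69 d b →
    (8 * alpha d - 2 * Real.pi) * ((n : ℝ) - b) ≤ alpha d * (4 * I) + (A - A3 (alpha d) * t) →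
    3 * t + b < 2 * Lb n + 2 + 2 * I

theorem GN_of52 {d : ℝ} (hd : 0 < d) {r : ℕ → ℕ} {E N : ℕ} (hE : E ≤ 10000)
    (hT : tstP52 r (40000 - 4 * E) (2 * E) N = true)
    (he : (60000 + E) * A3 (alpha d) ≤ E * Real.pi)
    (hr : ∀ b, 3 ≤ b → b < N → Ust69 d b ≤ (r b : ℝ) / 100 * A3 (alpha d)) : GN52 d N := by
  intro n b t I A hb hn hnN h1 h2 h3 h4
  rcases lt_or_ge n b with hnb | hnb
  · have h5 : 7 * n ≤ 3 * Lb n + 17 := by
      unfold Lb
      omega
    omega
  have h5 := hr b hb (by omega)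
  refine core52 hT (by omega) hb hn hnN h1 (t_le52 (A3_pos69 hd) h2 (h3.trans h5)) fun _ => ?_
  have h6 := unitG52 (A3_pos69 hd) rfl (alpha_pos hd) (e_le52 he) hnb h2 (h3.trans h5) h4
  rw [Nat.cast_sub (by omega)]
  push_cast
  have e1 : (40000 - 4 * (E : ℝ)) / 40000 = 1 - E / 10000 := by ring
  have e2 : 2 * (E : ℝ) / 40000 = E / 20000 := by ring
  rw [e1, e2]
  exact h6

theorem BN_of52 {d : ℝ} (hd : 0 < d) {r : ℕ → ℕ} {E N : ℕ} (hE : E ≤ 10000)
    (hT : tstP52 r (40000 - 2 * E) E N = true)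
    (he : (60000 + E) * A3 (alpha d) ≤ E * Real.pi)
    (hr : ∀ b, 3 ≤ b → b < N → Ust69 d b ≤ (r b : ℝ) / 100 * A3 (alpha d)) : BN52 d N := by
  intro n b t I A hb hn hnN h1 h2 h3 h4
  rcases lt_or_ge n b with hnb | hnb
  · have h5 : 7 * n ≤ 3 * Lb n + 17 := by
      unfold Lb
      omega
    omega
  have h5 := hr b hb (by omega)
  refine core52 hT (by omega) hb hn hnN h1 (t_le52 (A3_pos69 hd) h2 (h3.trans h5)) fun _ => ?_
  have h6 := unitB52 (A3_pos69 hd) rfl (alpha_pos hd) (e_le52 he) hnb h2 (h3.trans h5) h4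
  rw [Nat.cast_sub (by omega)]
  push_cast
  have e1 : (40000 - 2 * (E : ℝ)) / 40000 = 1 - E / 20000 := by ring
  rw [e1]
  exact h6

/-- `b ≤ 2`: nothing to prove -/
theorem small_b52 {d : ℝ} (hd : 0 < d) {n b t I : ℕ} {A : ℝ} (hb : b < 3) (hn : 10 ≤ n)
    (h2 : A3 (alpha d) * t ≤ A) (h3 : A ≤ Ust69 d b) : 3 * t + b < 2 * Lb n + 2 + 2 * I := by
  have h5 : A ≤ 0 := by rwa [Ust69_small (by omega)] at h3
  have h6 := A3_pos69 hd
  have h7 : (t : ℝ) ≤ 0 := by
    by_contra hcon
    push Not at hcon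
    have := mul_pos h6 hcon
    linarith
  have h8 : t = 0 := by
    have h9 : t ≤ 0 := by exact_mod_cast h7
    omega
  have h10 := Lb_ge52 n
  have h11 : (10 : ℝ) ≤ n := by exact_mod_cast hn
  have h12 : (1 : ℝ) < Lb n := by linarith
  have h13 : 1 < Lb n := by exact_mod_cast h12
  omega

/-! ### The first interval -/

def r0_52 (b : ℕ) : ℕ := (18378 * b ^ 2 - 60450) / 1000 + 1

theorem Ust_zero52 {d : ℝ} (hd : 0 < d) {b : ℕ} (hb : 3 ≤ b) :
    Ust69 d b ≤ (r0_52 b : ℝ) / 100 * A3 (alpha d) := by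
  have h5 := Ust_euclid_pi69 hd hb
  have hp1 := Real.pi_gt_d6
  have hpi := Real.pi_pos
  have hb3 : (3 : ℝ) ≤ b := by exact_mod_cast hb
  have hb9 : (9 : ℝ) ≤ (b : ℝ) ^ 2 := by nlinarith
  have hs3 : 173205 / 100000 ≤ √(3 : ℝ) := by
    rw [Real.le_sqrt (by norm_num) (by norm_num)]
    norm_num
  have h6 : ((b : ℝ) ^ 2 / Real.pi - Real.pi / 3) / √3 ≤ ((r0_52 b : ℕ) : ℝ) / 100 := by
    have k1 : (18378 * (b : ℝ) ^ 2 - 60450) / 1000 ≤ ((r0_52 b : ℕ) : ℝ) := by
      have k2 : 18378 * b ^ 2 ≤ 1000 * r0_52 b + 60450 := by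
        unfold r0_52
        omega
      have k3 : (18378 * (b : ℝ) ^ 2) ≤ 1000 * (r0_52 b : ℕ) + 60450 := by exact_mod_cast k2
      linarith
    have k4 : (b : ℝ) ^ 2 / Real.pi ≤ b ^ 2 * (31831 / 100000) := by
      rw [div_le_iff₀ hpi]
      nlinarith
    have k5 : ((18378 * (b : ℝ) ^ 2 - 60450) / 100000) * (173205 / 100000) ≤
        ((18378 * (b : ℝ) ^ 2 - 60450) / 100000) * √3 :=
      mul_le_mul_of_nonneg_left hs3 (by linarith)
    have k6 : ((b : ℝ) ^ 2 / Real.pi - Real.pi / 3) / √3 ≤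
        (18378 * (b : ℝ) ^ 2 - 60450) / 100000 := by
      rw [div_le_iff₀ (by positivity)]
      linarith
    linarith
  exact h5.trans (mul_le_mul_of_nonneg_right h6 (A3_pos69 hd).le)

/-- `cosh d ≤ 611 / 500` gives `A3 ≤ 177 / 1000` -/
theorem A3_le177_52 {d : ℝ} (hd : 0 < d) (hC : Real.cosh d ≤ 611 / 500) :
    A3 (alpha d) ≤ 177 / 1000 := by
  have hpi := Real.pi_gt_d4
  have hpi' := Real.pi_lt_d4
  have hc := Real.cosh_pos d
  have hh : Real.cos (alpha d) ≤ 611 / 1111 := by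
    rw [cos_alpha hd, div_le_div_iff₀ (by linarith) (by norm_num)]
    linarith
  have hs3 : 17320 / 10000 ≤ √(3 : ℝ) := by
    rw [Real.le_sqrt (by norm_num) (by norm_num)]
    norm_num
  have h1 : 611 / 1111 ≤ Real.cos (Real.pi / 3 - 59 / 1000) := by
    rw [Real.cos_sub, Real.cos_pi_div_three, Real.sin_pi_div_three]
    have c := Real.one_sub_sq_div_two_le_cos (x := 59 / 1000)
    have s := Real.sin_ge_sub_cube (x := 59 / 1000) (by norm_num)
    have s4 : 17320 / 10000 / 2 * (59 / 1000 - (59 / 1000) ^ 3 / 6) ≤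
        √3 / 2 * Real.sin (59 / 1000) :=
      mul_le_mul (by linarith) s (by norm_num) (by positivity)
    norm_num at c s4 ⊢
    linarith
  have h3 : Real.pi / 3 - 59 / 1000 ≤ alpha d := by
    have h4 := Real.arccos_le_arccos (hh.trans h1)
    rwa [Real.arccos_cos (by linarith) (by linarith),
      Real.arccos_cos (alpha_nonneg39 d) (alpha_le_pi39 d)] at h4
  unfold A3
  linarith

/-! ### Tables (`10 ≤ n ≤ 97`) -/

def l1_52 : List ℕ :=
  [270, 281, 417, 608, 841, 1112, 1419, 1761, 2138, 2549, 2994, 3472, 3982, 4525, 5098, 5702,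
    6337, 7000, 7693, 8413, 9162, 9937, 10738, 11564, 12415, 13291, 14190, 15111, 16055, 17021,
    18007, 19014, 20041, 21087, 22151, 23233, 24333, 25450, 26583, 27732, 28896, 30076, 31270,
    32478, 33699, 34934, 36181, 37441, 38713, 39996, 41291, 42597, 43913, 45239, 46575, 47921,
    49276, 50641, 52014, 53395, 54785, 56183, 57588, 59001, 60421, 61849, 63283, 64724, 66171,
    67625, 69085, 70550, 72022, 73499, 74982, 76470, 77963, 79461, 80964, 82471, 83983, 85500,
    87021, 88547, 90076, 91610, 93147, 94688, 96233, 97782, 99334, 100890, 102448, 104011, 105576]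

def l2_52 : List ℕ :=
  [183, 255, 406, 602, 835, 1104, 1406, 1743, 2111, 2511, 2942, 3402, 3891, 4408, 4951, 5520,
    6114, 6732, 7373, 8036, 8721, 9425, 10149, 10891, 11651, 12428, 13222, 14030, 14854, 15692,
    16543, 17407, 18284, 19172, 20072, 20983, 21903, 22834, 23774, 24723, 25681, 26647, 27620,
    28602, 29590, 30586, 31588, 32596, 33610, 34631, 35657, 36688, 37725, 38766, 39812, 40863,
    41918, 42978, 44041, 45109, 46180, 47255, 48333, 49415, 50500, 51588, 52679, 53773, 54870,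
    55970, 57072, 58177, 59284, 60394, 61506, 62620, 63736, 64854, 65975, 67097, 68221, 69347,
    70475, 71605, 72736, 73869, 75003, 76139, 77277, 78416, 79556, 80697, 81840, 82985, 84130]

def l3_52 : List ℕ :=
  [154, 247, 402, 598, 830, 1096, 1394, 1724, 2084, 2473, 2890, 3334, 3803, 4296, 4812, 5350,
    5909, 6488, 7085, 7700, 8331, 8979, 9641, 10317, 11007, 11709, 12423, 13148, 13884, 14630,
    15386, 16150, 16923, 17703, 18492, 19287, 20090, 20899, 21714, 22535, 23361, 24193, 25029,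
    25871, 26717, 27567, 28421, 29279, 30141, 31007, 31876, 32748, 33623, 34501, 35383, 36266,
    37153, 38042, 38933, 39827, 40723, 41620, 42520, 43422, 44326, 45232, 46139, 47048, 47959,
    48871, 49785, 50700, 51616, 52534, 53453, 54374, 55295, 56218, 57142, 58067, 58993, 59920,
    60848, 61777, 62707, 63638, 64570, 65502, 66435, 67370, 68305, 69240, 70177, 71114, 72051]

def l4_52 : List ℕ :=
  [138, 242, 399, 595, 825, 1087, 1380, 1702, 2052, 2429, 2830, 3255, 3702, 4170, 4657, 5162,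
    5684, 6222, 6775, 7342, 7922, 8514, 9117, 9731, 10354, 10987, 11629, 12278, 12935, 13599,
    14270, 14947, 15629, 16317, 17011, 17709, 18412, 19119, 19830, 20545, 21264, 21986, 22711,
    23440, 24171, 24905, 25642, 26381, 27123, 27867, 28613, 29361, 30111, 30863, 31616, 32372,
    33128, 33887, 34647, 35408, 36171, 36935, 37700, 38467, 39235, 40003, 40773, 41544, 42316,
    43088, 43862, 44636, 45412, 46188, 46965, 47743, 48521, 49300, 50080, 50860, 51641, 52423,
    53205, 53988, 54771, 55555, 56340, 57125, 57910, 58696, 59482, 60269, 61056, 61844, 62632]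

def l5_52 : List ℕ :=
  [128, 239, 397, 591, 819, 1076, 1363, 1677, 2016, 2378, 2763, 3168, 3592, 4034, 4491, 4964,
    5450, 5949, 6459, 6981, 7512, 8052, 8601, 9158, 9722, 10293, 10870, 11453, 12042, 12635,
    13233, 13836, 14442, 15053, 15667, 16284, 16905, 17528, 18154, 18783, 19414, 20048, 20683,
    21321, 21961, 22603, 23246, 23891, 24537, 25185, 25835, 26486, 27138, 27791, 28445, 29101,
    29757, 30415, 31073, 31733, 32393, 33054, 33716, 34379, 35043, 35707, 36372, 37037, 37703,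
    38370, 39037, 39705, 40374, 41042, 41712, 42382, 43052, 43723, 44394, 45066, 45738, 46410,
    47083, 47756, 48430, 49103, 49778, 50452, 51127, 51802, 52477, 53153, 53829, 54505, 55182]

def l6_52 : List ℕ :=
  [122, 237, 395, 588, 812, 1065, 1345, 1649, 1977, 2325, 2693, 3078, 3480, 3896, 4325, 4767,
    5219, 5682, 6154, 6634, 7122, 7618, 8119, 8627, 9140, 9658, 10180, 10707, 11238, 11773, 12311,
    12852, 13396, 13943, 14492, 15044, 15598, 16154, 16712, 17272, 17834, 18397, 18961, 19528,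
    20095, 20664, 21234, 21805, 22377, 22950, 23524, 24099, 24675, 25252, 25830, 26408, 26987,
    27567, 28147, 28728, 29310, 29892, 30475, 31058, 31642, 32226, 32811, 33396, 33981, 34567,
    35154, 35740, 36327, 36915, 37503, 38091, 38679, 39268, 39857, 40446, 41036, 41625, 42215,
    42806, 43396, 43987, 44578, 45169, 45760, 46352, 46944, 47536, 48128, 48720, 49312]

def l7_52 : List ℕ :=
  [118, 235, 393, 585, 806, 1054, 1327, 1623, 1940, 2276, 2628, 2996, 3378, 3772, 4178, 4594,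
    5018, 5451, 5892, 6339, 6792, 7251, 7716, 8184, 8658, 9135, 9615, 10099, 10586, 11076, 11568,
    12063, 12560, 13059, 13560, 14062, 14567, 15073, 15580, 16089, 16599, 17110, 17623, 18136,
    18651, 19166, 19683, 20200, 20718, 21236, 21756, 22276, 22797, 23318, 23840, 24363, 24886,
    25409, 25933, 26457, 26982, 27508, 28033, 28559, 29086, 29613, 30140, 30667, 31195, 31723,
    32251, 32780, 33309, 33838, 34367, 34897, 35427, 35957, 36487, 37017, 37548, 38079, 38610,
    39141, 39672, 40204, 40736, 41267, 41799, 42331, 42864, 43396, 43929, 44461, 44994]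

def l8_52 : List ℕ :=
  [115, 234, 392, 581, 799, 1043, 1310, 1597, 1904, 2228, 2566, 2918, 3282, 3657, 4041, 4434,
    4834, 5241, 5655, 6073, 6497, 6926, 7358, 7795, 8234, 8677, 9123, 9571, 10022, 10475, 10930,
    11386, 11845, 12305, 12767, 13230, 13694, 14160, 14626, 15094, 15563, 16032, 16503, 16974,
    17446, 17919, 18393, 18867, 19342, 19817, 20293, 20769, 21246, 21724, 22201, 22680, 23158,
    23637, 24117, 24596, 25076, 25557, 26037, 26518, 27000, 27481, 27963, 28445, 28927, 29410,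
    29892, 30375, 30858, 31341, 31825, 32308, 32792, 33276, 33760, 34245, 34729, 35213, 35698,
    36183, 36668, 37153, 37638, 38124, 38609, 39094, 39580, 40066, 40552, 41038, 41524]

def l9_52 : List ℕ :=
  [113, 233, 390, 578, 792, 1031, 1291, 1571, 1868, 2180, 2505, 2841, 3188, 3545, 3909, 4281,
    4658, 5042, 5431, 5824, 6221, 6623, 7027, 7435, 7845, 8258, 8673, 9090, 9509, 9930, 10352,
    10776, 11201, 11628, 12056, 12485, 12915, 13345, 13777, 14210, 14643, 15077, 15512, 15947,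
    16383, 16820, 17257, 17695, 18133, 18571, 19010, 19449, 19889, 20329, 20770, 21210, 21652,
    22093, 22535, 22976, 23419, 23861, 24304, 24747, 25190, 25633, 26077, 26520, 26964, 27408,
    27852, 28297, 28741, 29186, 29631, 30076, 30521, 30966, 31411, 31857, 32302, 32748, 33194,
    33640, 34086, 34532, 34978, 35424, 35870, 36317, 36763, 37210, 37656, 38103, 38550]

def l10_52 : List ℕ :=
  [111, 232, 389, 575, 787, 1022, 1277, 1550, 1839, 2142, 2457, 2782, 3117, 3460, 3809, 4166,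
    4527, 4894, 5265, 5640, 6019, 6401, 6786, 7173, 7563, 7954, 8348, 8744, 9141, 9539, 9939,
    10341, 10743, 11146, 11551, 11956, 12363, 12770, 13177, 13586, 13995, 14405, 14815, 15226,
    15637, 16049, 16461, 16874, 17287, 17701, 18114, 18529, 18943, 19358, 19773, 20188, 20604,
    21020, 21436, 21852, 22268, 22685, 23102, 23519, 23936, 24354, 24771, 25189, 25607, 26025,
    26443, 26862, 27280, 27699, 28117, 28536, 28955, 29374, 29793, 30212, 30632, 31051, 31470,
    31890, 32310, 32729, 33149, 33569, 33989, 34409, 34829, 35249, 35670, 36090, 36510]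

def l11_52 : List ℕ :=
  [110, 232, 387, 572, 781, 1012, 1263, 1530, 1811, 2106, 2411, 2726, 3049, 3379, 3715, 4058,
    4405, 4756, 5111, 5470, 5832, 6196, 6563, 6933, 7304, 7677, 8052, 8428, 8806, 9185, 9565,
    9946, 10328, 10711, 11095, 11480, 11865, 12252, 12638, 13026, 13414, 13802, 14191, 14580,
    14970, 15360, 15751, 16142, 16533, 16924, 17316, 17708, 18101, 18493, 18886, 19279, 19673,
    20066, 20460, 20854, 21248, 21642, 22037, 22432, 22826, 23221, 23616, 24011, 24407, 24802,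
    25198, 25593, 25989, 26385, 26781, 27177, 27573, 27969, 28366, 28762, 29158, 29555, 29952,
    30348, 30745, 31142, 31539, 31936, 32333, 32730, 33127, 33524, 33921, 34319, 34716]

def l12_52 : List ℕ :=
  [109, 231, 386, 569, 775, 1003, 1248, 1509, 1784, 2069, 2365, 2670, 2982, 3300, 3624, 3953,
    4286, 4623, 4963, 5307, 5653, 6001, 6352, 6705, 7059, 7415, 7772, 8131, 8490, 8851, 9213,
    9576, 9940, 10304, 10669, 11035, 11402, 11769, 12136, 12504, 12873, 13242, 13611, 13981,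
    14351, 14722, 15093, 15464, 15835, 16207, 16579, 16951, 17323, 17696, 18069, 18442, 18815,
    19188, 19562, 19935, 20309, 20683, 21057, 21432, 21806, 22181, 22555, 22930, 23305, 23680,
    24055, 24430, 24805, 25180, 25556, 25931, 26307, 26682, 27058, 27434, 27810, 28186, 28562,
    28938, 29314, 29690, 30066, 30442, 30819, 31195, 31571, 31948, 32324, 32701, 33077]

def rl52 (l : List ℕ) (b : ℕ) : ℕ := l.getD (b - 3) 0

theorem tE0_52 : tstP52 r0_52 (40000 - 4 * 146) (2 * 146) 98 = true := by decide +kernel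

theorem tE1_52 : tstP52 (rl52 l1_52) (40000 - 4 * 304) (2 * 304) 98 = true := by decide +kernel

theorem tW1_52 : tstW52 (rl52 l1_52) 76 9978052 98 = true := by decide +kernel

theorem tE2_52 : tstP52 (rl52 l2_52) (40000 - 4 * 472) (2 * 472) 98 = true := by decide +kernel

theorem tW2_52 : tstW52 (rl52 l2_52) 158 9954354 98 = true := by decide +kernel

theorem tE3_52 : tstP52 (rl52 l3_52) (40000 - 4 * 687) (2 * 687) 98 = true := by decide +kernel

theorem tW3_52 : tstW52 (rl52 l3_52) 245 9929191 98 = true := by decide +kernel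

theorem tE4_52 : tstP52 (rl52 l4_52) (40000 - 4 * 949) (2 * 949) 98 = true := by decide +kernel

theorem tW4_52 : tstW52 (rl52 l4_52) 355 9897345 98 = true := by decide +kernel

theorem tE5_52 : tstP52 (rl52 l5_52) (40000 - 4 * 1256) (2 * 1256) 98 = true := by decide +kernel

theorem tW5_52 : tstW52 (rl52 l5_52) 489 9858507 98 = true := by decide +kernel

theorem tE6_52 : tstP52 (rl52 l6_52) (40000 - 4 * 1572) (2 * 1572) 98 = true := by decide +kernel

theorem tW6_52 : tstW52 (rl52 l6_52) 644 9813520 98 = true := by decide +kernel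

theorem tE7_52 : tstP52 (rl52 l7_52) (40000 - 4 * 1911) (2 * 1911) 98 = true := by decide +kernel

theorem tW7_52 : tstW52 (rl52 l7_52) 802 9767596 98 = true := by decide +kernel

theorem tE8_52 : tstP52 (rl52 l8_52) (40000 - 4 * 2284) (2 * 2284) 98 = true := by decide +kernel

theorem tW8_52 : tstW52 (rl52 l8_52) 969 9718981 98 = true := by decide +kernel

theorem tE9_52 : tstP52 (rl52 l9_52) (40000 - 4 * 2604) (2 * 2604) 98 = true := by decide +kernel

theorem tW9_52 : tstW52 (rl52 l9_52) 1152 9665623 98 = true := by decide +kernel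

theorem tE10_52 : tstP52 (rl52 l10_52) (40000 - 4 * 2939) (2 * 2939) 98 = true := by decide +kernel

theorem tW10_52 : tstW52 (rl52 l10_52) 1306 9620651 98 = true := by decide +kernel

theorem tE11_52 : tstP52 (rl52 l11_52) (40000 - 4 * 3299) (2 * 3299) 98 = true := by decide +kernel

theorem tW11_52 : tstW52 (rl52 l11_52) 1466 9573859 98 = true := by decide +kernel

theorem tE12_52 : tstP52 (rl52 l12_52) (40000 - 4 * 3635) (2 * 3635) 98 = true := by decide +kernel

theorem tW12_52 : tstW52 (rl52 l12_52) 1637 9523775 98 = true := by decide +kernel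

theorem GN_all52 {d : ℝ} (hd : 0 < d) (hC : Real.cosh d ≤ 611 / 500) : GN52 d 98 := by
  have hA := A3_le177_52 hd hC
  have hp := Real.pi_gt_d6
  rcases le_total (A3 (alpha d)) (76 / 10000) with h0 | h0
  · exact GN_of52 hd (by norm_num) tE0_52 (by push_cast; linarith) fun b hb _ => Ust_zero52 hd hb
  rcases le_total (A3 (alpha d)) (158 / 10000) with h1 | h1
  · exact GN_of52 hd (by norm_num) tE1_52 (by push_cast; linarith) fun b hb hbN =>
      Ust_le52 hd tW1_52 hb hbN (by norm_num) (by norm_num) (by norm_num) (by push_cast; linarith)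
  rcases le_total (A3 (alpha d)) (245 / 10000) with h2 | h2
  · exact GN_of52 hd (by norm_num) tE2_52 (by push_cast; linarith) fun b hb hbN =>
      Ust_le52 hd tW2_52 hb hbN (by norm_num) (by norm_num) (by norm_num) (by push_cast; linarith)
  rcases le_total (A3 (alpha d)) (355 / 10000) with h3 | h3
  · exact GN_of52 hd (by norm_num) tE3_52 (by push_cast; linarith) fun b hb hbN =>
      Ust_le52 hd tW3_52 hb hbN (by norm_num) (by norm_num) (by norm_num) (by push_cast; linarith)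
  rcases le_total (A3 (alpha d)) (489 / 10000) with h4 | h4
  · exact GN_of52 hd (by norm_num) tE4_52 (by push_cast; linarith) fun b hb hbN =>
      Ust_le52 hd tW4_52 hb hbN (by norm_num) (by norm_num) (by norm_num) (by push_cast; linarith)
  rcases le_total (A3 (alpha d)) (644 / 10000) with h5 | h5
  · exact GN_of52 hd (by norm_num) tE5_52 (by push_cast; linarith) fun b hb hbN =>
      Ust_le52 hd tW5_52 hb hbN (by norm_num) (by norm_num) (by norm_num) (by push_cast; linarith)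
  rcases le_total (A3 (alpha d)) (802 / 10000) with h6 | h6
  · exact GN_of52 hd (by norm_num) tE6_52 (by push_cast; linarith) fun b hb hbN =>
      Ust_le52 hd tW6_52 hb hbN (by norm_num) (by norm_num) (by norm_num) (by push_cast; linarith)
  rcases le_total (A3 (alpha d)) (969 / 10000) with h7 | h7
  · exact GN_of52 hd (by norm_num) tE7_52 (by push_cast; linarith) fun b hb hbN =>
      Ust_le52 hd tW7_52 hb hbN (by norm_num) (by norm_num) (by norm_num) (by push_cast; linarith)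
  rcases le_total (A3 (alpha d)) (1152 / 10000) with h8 | h8
  · exact GN_of52 hd (by norm_num) tE8_52 (by push_cast; linarith) fun b hb hbN =>
      Ust_le52 hd tW8_52 hb hbN (by norm_num) (by norm_num) (by norm_num) (by push_cast; linarith)
  rcases le_total (A3 (alpha d)) (1306 / 10000) with h9 | h9
  · exact GN_of52 hd (by norm_num) tE9_52 (by push_cast; linarith) fun b hb hbN =>
      Ust_le52 hd tW9_52 hb hbN (by norm_num) (by norm_num) (by norm_num) (by push_cast; linarith)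
  rcases le_total (A3 (alpha d)) (1466 / 10000) with h10 | h10
  · exact GN_of52 hd (by norm_num) tE10_52 (by push_cast; linarith) fun b hb hbN =>
      Ust_le52 hd tW10_52 hb hbN (by norm_num) (by norm_num) (by norm_num) (by push_cast; linarith)
  rcases le_total (A3 (alpha d)) (1637 / 10000) with h11 | h11
  · exact GN_of52 hd (by norm_num) tE11_52 (by push_cast; linarith) fun b hb hbN =>
      Ust_le52 hd tW11_52 hb hbN (by norm_num) (by norm_num) (by norm_num) (by push_cast; linarith)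
  exact GN_of52 hd (by norm_num) tE12_52 (by push_cast; linarith) fun b hb hbN =>
    Ust_le52 hd tW12_52 hb hbN (by norm_num) (by norm_num) (by norm_num) (by push_cast; linarith)

/-- **numbers of inequality G**: all `d` with `cosh d ≤ 611 / 500`, `10 ≤ n ≤ 97` -/
theorem G_num52 {d : ℝ} (hd : 0 < d) (hC : Real.cosh d ≤ 611 / 500) {n b t I : ℕ} {A : ℝ}
    (hn : 10 ≤ n) (hn2 : n ≤ 97) (h1 : t + b ≤ 2 * n - 2) (h2 : A3 (alpha d) * t ≤ A)
    (h3 : A ≤ Ust69 d b)
    (h4 : (7 * alpha d - 2 * Real.pi) * ((n : ℝ) - b) ≤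
      alpha d * (2 * I) + (A - A3 (alpha d) * t)) :
    3 * t + b < 2 * Lb n + 2 + 2 * I := by
  rcases lt_or_ge b 3 with hb | hb
  · exact small_b52 hd hb hn h2 h3
  · exact GN_all52 hd hC n b t I A hb hn (by omega) h1 h2 h3 h4

end

end Pool.Agent.PEN
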