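import Pool.Agent.P4.Ar11

/-! # PENNY, version 4: the arithmetic of the dispersed case (special diameters)

`τ = A / A3`, `J = |iI|`, `s` = number of sharp boundary darts. -/

set_option autoImplicit false

namespace Pool.Agent.PEN

noncomputable section

/-- the special diameter `0.76217...`, `n ≥ 150` -/
theorem arVs (n b t J s : ℕ) (τ : ℝ) (hn : 150 ≤ n) (hb : 3 ≤ b)
    (h1 : t + b + 2 ≤ 2 * n) (h2 : (t : ℝ) ≤ τ)
    (h3 : b ≤ 69 → τ ≤ 193.8)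
    (h3z : 69 ≤ b → τ ≤ 193.8 + 3.174 * ((b : ℝ) - 69))
    (hG : (1 - 0.4848) * ((n : ℝ) - b) ≤ J + 0.4848 / 2 * (τ - t))
    (hD : 7 * n ≤ 4 * b + s + 3 * t + J)
    (hA : τ ≤ 2.82 * b ∨ τ ≤ 3.174 * b - 18.2 - 0.191 * s) :
    3 * t + b < 2 * Lb n + 2 + J := by
  by_contra hc
  rw [not_lt] at hc
  obtain ⟨l1, l2, l3, l4⟩ := Lb_facts11 n (by omega)
  generalize Lb n = l at l1 l2 l3 l4 hc
  have hc' : (2 * l + 2 + J : ℝ) ≤ 3 * t + b := by exact_mod_cast hc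
  have l4' : (50 * n : ℝ) ≤ 21 * l + 155 := by exact_mod_cast l4 (by omega)
  have h1' : (t + b + 2 : ℝ) ≤ 2 * n := by exact_mod_cast h1
  have hD' : (7 * n : ℝ) ≤ 4 * b + s + 3 * t + J := by exact_mod_cast hD
  have hn' : (150 : ℝ) ≤ n := by exact_mod_cast hn
  have hb' : (3 : ℝ) ≤ b := by exact_mod_cast hb
  have ht' : (0 : ℝ) ≤ t := Nat.cast_nonneg t
  have hJ' : (0 : ℝ) ≤ J := Nat.cast_nonneg J
  have hs' : (0 : ℝ) ≤ s := Nat.cast_nonneg s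
  rcases Nat.lt_or_ge b 69 with hb1 | hb1
  · have h4 := h3 hb1.le
    have hb1' : (b : ℝ) ≤ 69 := by exact_mod_cast hb1.le
    rcases hA with hA | hA <;> linarith
  have h4 := h3z (by omega)
  have hb1' : (69 : ℝ) ≤ b := by
    have : 69 ≤ b := by omega
    exact_mod_cast this
  rcases hA with hA | hA <;> linarith

/-- the special diameter `0.62078...`, `n ≥ 98` -/
theorem arV2 (n b t J s : ℕ) (τ : ℝ) (hn : 98 ≤ n) (hb : 3 ≤ b)
    (h1 : t + b + 2 ≤ 2 * n) (h2 : (t : ℝ) ≤ τ)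
    (h3 : b ≤ 11 → τ ≤ 18)
    (h3a : 11 ≤ b → b ≤ 57 → τ ≤ 18 + (182.8 - 18) / 46 * ((b : ℝ) - 11))
    (h3z : 57 ≤ b → τ ≤ 182.8 + 3.84 * ((b : ℝ) - 57))
    (hG : (1 - 0.321) * ((n : ℝ) - b) ≤ J + 0.321 / 2 * (τ - t))
    (hD : 7 * n ≤ 4 * b + s + 3 * t + J)
    (hA : τ ≤ 3.405 * b ∨ τ ≤ 3.84 * b - 26.7 - 0.315 * s) :
    3 * t + b < 2 * Lb n + 2 + J := by
  by_contra hc
  rw [not_lt] at hc
  obtain ⟨l1, l2, l3, l4⟩ := Lb_facts11 n (by omega)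
  generalize Lb n = l at l1 l2 l3 l4 hc
  have hc' : (2 * l + 2 + J : ℝ) ≤ 3 * t + b := by exact_mod_cast hc
  have l4' : (50 * n : ℝ) ≤ 21 * l + 155 := by exact_mod_cast l4 (by omega)
  have h1' : (t + b + 2 : ℝ) ≤ 2 * n := by exact_mod_cast h1
  have hD' : (7 * n : ℝ) ≤ 4 * b + s + 3 * t + J := by exact_mod_cast hD
  have hn' : (98 : ℝ) ≤ n := by exact_mod_cast hn
  have hb' : (3 : ℝ) ≤ b := by exact_mod_cast hb
  have ht' : (0 : ℝ) ≤ t := Nat.cast_nonneg t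
  have hJ' : (0 : ℝ) ≤ J := Nat.cast_nonneg J
  have hs' : (0 : ℝ) ≤ s := Nat.cast_nonneg s
  rcases Nat.lt_or_ge b 11 with hb1 | hb1
  · have h4 := h3 hb1.le
    have hb1' : (b : ℝ) ≤ 11 := by exact_mod_cast hb1.le
    rcases hA with hA | hA <;> linarith
  rcases Nat.lt_or_ge b 57 with hc1 | hc1
  · have h4 := h3a (by omega) hc1.le
    have hb1' : (11 : ℝ) ≤ b := by
      have : 11 ≤ b := by omega
      exact_mod_cast this
    have hb2' : (b : ℝ) ≤ 57 := by exact_mod_cast hc1.le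
    rcases hA with hA | hA <;> linarith
  have h4 := h3z (by omega)
  have hb1' : (57 : ℝ) ≤ b := by
    have : 57 ≤ b := by omega
    exact_mod_cast this
  rcases hA with hA | hA <;> linarith

/-- the special diameter `0.5371...`, `n ≥ 98` -/
theorem arV3 (n b t J s : ℕ) (τ y : ℝ) (hn : 98 ≤ n) (hb : 3 ≤ b)
    (h1 : t + b + 2 ≤ 2 * n) (h2 : (t : ℝ) ≤ τ)
    (h3 : b ≤ 11 → τ ≤ 18.6)
    (h3a : 11 ≤ b → b ≤ 71 → τ ≤ 18.6 + (264.8 - 18.6) / 60 * ((b : ℝ) - 11))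
    (h3z : 71 ≤ b → τ ≤ 264.8 + 4.405 * ((b : ℝ) - 71))
    (hG : (1 - 0.24) * ((n : ℝ) - b) + y ≤ J + 0.24 / 2 * (τ - t))
    (hy : 0 ≤ y) (hS : t + 0.2085 * (J / 2 - 3 * y) ≤ τ)
    (hD : 7 * n ≤ 4 * b + s + 3 * t + J)
    (hA : τ ≤ 3.92 * b ∨ τ ≤ 4.405 * b - 35.3 - 0.432 * s) :
    3 * t + b < 2 * Lb n + 2 + J := by
  by_contra hc
  rw [not_lt] at hc
  obtain ⟨l1, l2, l3, l4⟩ := Lb_facts11 n (by omega)
  generalize Lb n = l at l1 l2 l3 l4 hc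
  have hc' : (2 * l + 2 + J : ℝ) ≤ 3 * t + b := by exact_mod_cast hc
  have l4' : (50 * n : ℝ) ≤ 21 * l + 155 := by exact_mod_cast l4 (by omega)
  have h1' : (t + b + 2 : ℝ) ≤ 2 * n := by exact_mod_cast h1
  have hD' : (7 * n : ℝ) ≤ 4 * b + s + 3 * t + J := by exact_mod_cast hD
  have hn' : (98 : ℝ) ≤ n := by exact_mod_cast hn
  have hb' : (3 : ℝ) ≤ b := by exact_mod_cast hb
  have ht' : (0 : ℝ) ≤ t := Nat.cast_nonneg t
  have hJ' : (0 : ℝ) ≤ J := Nat.cast_nonneg J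
  have hs' : (0 : ℝ) ≤ s := Nat.cast_nonneg s
  rcases Nat.lt_or_ge b 11 with hb1 | hb1
  · have h4 := h3 hb1.le
    have hb1' : (b : ℝ) ≤ 11 := by exact_mod_cast hb1.le
    rcases hA with hA | hA <;> linarith
  rcases Nat.lt_or_ge b 71 with hc1 | hc1
  · have h4 := h3a (by omega) hc1.le
    have hb1' : (11 : ℝ) ≤ b := by
      have : 11 ≤ b := by omega
      exact_mod_cast this
    have hb2' : (b : ℝ) ≤ 71 := by exact_mod_cast hc1.le
    rcases hA with hA | hA <;> linarith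
  have h4 := h3z (by omega)
  have hb1' : (71 : ℝ) ≤ b := by
    have : 71 ≤ b := by omega
    exact_mod_cast this
  rcases hA with hA | hA <;> linarith

end

end Pool.Agent.PEN
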