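import Pool.Agent.P4.Exc57

/-! # PENNY: seven digit brackets of cos alpha at the chain diameters d_2, ..., d_7 -/

set_option autoImplicit false

namespace Pool.Agent.PEN

noncomputable section

theorem x57d2lo : (∀ j ≤ 0, ch57 (2726191 / 2273809) j < Real.pi) ∧ 2 * Real.pi - 3 * al57 (2726191 / 2273809) < 2 * op57 (2726191 / 2273809) (ch57 (2726191 / 2273809) 0) := by
  have h : (1 : ℝ) < (2726191 / 2273809) := by norm_num
  have a0 : ch57 (2726191 / 2273809) 0 = 2 * Real.arctan (T57 (2726191 / 2273809) * (7997594868481 / 5633360131519)) := by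
    rw [start57 h]
    exact step57 h (by norm_num) (by norm_num)
  have b0 : op57 (2726191 / 2273809) (ch57 (2726191 / 2273809) 0) = 2 * Real.arctan (T57 (2726191 / 2273809) * (43524416347900914129 / 21802971152099085871)) :=
    opv57 h (by norm_num) a0 (by norm_num)
  have a1 : ch57 (2726191 / 2273809) 1 = 2 * Real.arctan (T57 (2726191 / 2273809) * (24758264573301585871 / 12402322269103414129)) := by
    change 2 * Real.pi - 3 * al57 (2726191 / 2273809) - op57 (2726191 / 2273809) (ch57 (2726191 / 2273809) 0) = _
    rw [b0]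
    exact step57 h (by norm_num) (by norm_num)
  refine ⟨fun j hj => ?_, ?_⟩
  · interval_cases j
    · rw [a0]; exact two_arctan_lt57 _
  · exact gtB57 h (by norm_num) b0 a1 (by norm_num)

theorem x57d2hi : 2 * op57 (5452383 / 4547617) (ch57 (5452383 / 4547617) 0) < 2 * Real.pi - 3 * al57 (5452383 / 4547617) := by
  have h : (1 : ℝ) < (5452383 / 4547617) := by norm_num
  have a0 : ch57 (5452383 / 4547617) 0 = 2 * Real.arctan (T57 (5452383 / 4547617) * (31990395378689 / 22533434621311)) := by
    rw [start57 h]
    exact step57 h (by norm_num) (by norm_num)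
  have b0 : op57 (5452383 / 4547617) (ch57 (5452383 / 4547617) 0) = 2 * Real.arctan (T57 (5452383 / 4547617) * (348195262073957534113 / 174423887926042465887)) :=
    opv57 h (by norm_num) a0 (by norm_num)
  have a1 : ch57 (5452383 / 4547617) 1 = 2 * Real.arctan (T57 (5452383 / 4547617) * (198066289819487465887 / 99218513967402534113)) := by
    change 2 * Real.pi - 3 * al57 (5452383 / 4547617) - op57 (5452383 / 4547617) (ch57 (5452383 / 4547617) 0) = _
    rw [b0]
    exact step57 h (by norm_num) (by norm_num)
  exact ltB57 h (by norm_num) b0 a1 (by norm_num)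

theorem x57d3lo : (∀ j < 1, ch57 (133599 / 116401) j < Real.pi) ∧ ch57 (133599 / 116401) 1 < q57 (133599 / 116401) := by
  have h : (1 : ℝ) < (133599 / 116401) := by norm_num
  have a0 : ch57 (133599 / 116401) 0 = 2 * Real.arctan (T57 (133599 / 116401) * (18923567801 / 14476182199)) := by
    rw [start57 h]
    exact step57 h (by norm_num) (by norm_num)
  have b0 : op57 (133599 / 116401) (ch57 (133599 / 116401) 0) = 2 * Real.arctan (T57 (133599 / 116401) * (5553049015354201 / 2528169734645799)) :=
    opv57 h (by norm_num) a0 (by norm_num)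
  have a1 : ch57 (133599 / 116401) 1 = 2 * Real.arctan (T57 (133599 / 116401) * (2806131334770799 / 1656041865479201)) := by
    change 2 * Real.pi - 3 * al57 (133599 / 116401) - op57 (133599 / 116401) (ch57 (133599 / 116401) 0) = _
    rw [b0]
    exact step57 h (by norm_num) (by norm_num)
  refine ⟨fun j hj => ?_, ?_⟩
  · interval_cases j
    · rw [a0]; exact two_arctan_lt57 _
  · rw [a1]; exact lt_q57 h (by norm_num) (by norm_num)

theorem x57d3hi : q57 (5343961 / 4656039) < ch57 (5343961 / 4656039) 1 := by
  have h : (1 : ℝ) < (5343961 / 4656039) := by norm_num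
  have a0 : ch57 (5343961 / 4656039) 0 = 2 * Real.arctan (T57 (5343961 / 4656039) * (30277724169521 / 23161885830479)) := by
    rw [start57 h]
    exact step57 h (by norm_num) (by norm_num)
  have b0 : op57 (5343961 / 4656039) (ch57 (5343961 / 4656039) 0) = 2 * Real.arctan (T57 (5343961 / 4656039) * (355395072869322387319 / 161802977130677612681)) :=
    opv57 h (by norm_num) a0 (by norm_num)
  have a1 : ch57 (5343961 / 4656039) 1 = 2 * Real.arctan (T57 (5343961 / 4656039) * (179592572978282612681 / 105986618716927387319)) := by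
    change 2 * Real.pi - 3 * al57 (5343961 / 4656039) - op57 (5343961 / 4656039) (ch57 (5343961 / 4656039) 0) = _
    rw [b0]
    exact step57 h (by norm_num) (by norm_num)
  rw [a1]; exact gt_q57 h (by norm_num) (by norm_num)

theorem x57d4lo : (∀ j ≤ 1, ch57 (5277507 / 4722493) j < Real.pi) ∧ 2 * Real.pi - 3 * al57 (5277507 / 4722493) < 2 * op57 (5277507 / 4722493) (ch57 (5277507 / 4722493) 1) := by
  have h : (1 : ℝ) < (5277507 / 4722493) := by norm_num
  have a0 : ch57 (5277507 / 4722493) 0 = 2 * Real.arctan (T57 (5277507 / 4722493) * (29239615135049 / 23535454864951)) := by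
    rw [start57 h]
    exact step57 h (by norm_num) (by norm_num)
  have b0 : op57 (5277507 / 4722493) (ch57 (5277507 / 4722493) 0) = 2 * Real.arctan (T57 (5277507 / 4722493) * (359563076447472957157 / 154312273552527042843)) :=
    opv57 h (by norm_num) a0 (by norm_num)
  have a1 : ch57 (5277507 / 4722493) 1 = 2 * Real.arctan (T57 (5277507 / 4722493) * (168572674227772042843 / 109948127122717957157)) := by
    change 2 * Real.pi - 3 * al57 (5277507 / 4722493) - op57 (5277507 / 4722493) (ch57 (5277507 / 4722493) 0) = _
    rw [b0]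
    exact step57 h (by norm_num) (by norm_num)
  have b1 : op57 (5277507 / 4722493) (ch57 (5277507 / 4722493) 1) = 2 * Real.arctan (T57 (5277507 / 4722493) * (1679733281754213449491767599 / 889643468245786550508232401)) :=
    opv57 h (by norm_num) a1 (by norm_num)
  have a2 : ch57 (5277507 / 4722493) 2 = 2 * Real.arctan (T57 (5277507 / 4722493) * (960945471622011550508232401 / 508950007150808877921767599)) := by
    change 2 * Real.pi - 3 * al57 (5277507 / 4722493) - op57 (5277507 / 4722493) (ch57 (5277507 / 4722493) 1) = _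
    rw [b1]
    exact step57 h (by norm_num) (by norm_num)
  refine ⟨fun j hj => ?_, ?_⟩
  · interval_cases j
    · rw [a0]; exact two_arctan_lt57 _
    · rw [a1]; exact two_arctan_lt57 _
  · exact gtB57 h (by norm_num) b1 a2 (by norm_num)

theorem x57d4hi : 2 * op57 (1319377 / 1180623) (ch57 (1319377 / 1180623) 1) < 2 * Real.pi - 3 * al57 (1319377 / 1180623) := by
  have h : (1 : ℝ) < (1319377 / 1180623) := by norm_num
  have a0 : ch57 (1319377 / 1180623) 0 = 2 * Real.arctan (T57 (1319377 / 1180623) * (1827476918129 / 1470965581871)) := by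
    rw [start57 h]
    exact step57 h (by norm_num) (by norm_num)
  have b0 : op57 (1319377 / 1180623) (ch57 (1319377 / 1180623) 0) = 2 * Real.arctan (T57 (1319377 / 1180623) * (5618172111189714367 / 2411131013810285633)) :=
    opv57 h (by norm_num) a0 (by norm_num)
  have a1 : ch57 (1319377 / 1180623) 1 = 2 * Real.arctan (T57 (1319377 / 1180623) * (2633950598971535633 / 1717938571350964367)) := by
    change 2 * Real.pi - 3 * al57 (1319377 / 1180623) - op57 (1319377 / 1180623) (ch57 (1319377 / 1180623) 0) = _
    rw [b0]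
    exact step57 h (by norm_num) (by norm_num)
  have b1 : op57 (1319377 / 1180623) (ch57 (1319377 / 1180623) 1) = 2 * Real.arctan (T57 (1319377 / 1180623) * (6561455066830732231139359 / 3475173839419267768860641)) :=
    opv57 h (by norm_num) a1 (by norm_num)
  have a2 : ch57 (1319377 / 1180623) 2 = 2 * Real.arctan (T57 (1319377 / 1180623) * (3753698320870830268860641 / 1988084157001758813639359)) := by
    change 2 * Real.pi - 3 * al57 (1319377 / 1180623) - op57 (1319377 / 1180623) (ch57 (1319377 / 1180623) 1) = _
    rw [b1]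
    exact step57 h (by norm_num) (by norm_num)
  exact ltB57 h (by norm_num) b1 a2 (by norm_num)

theorem x57d5lo : (∀ j < 2, ch57 (523259 / 476741) j < Real.pi) ∧ ch57 (523259 / 476741) 2 < q57 (523259 / 476741) := by
  have h : (1 : ℝ) < (523259 / 476741) := by norm_num
  have a0 : ch57 (523259 / 476741) 0 = 2 * Real.arctan (T57 (523259 / 476741) * (285429481081 / 237829518919)) := by
    rw [start57 h]
    exact step57 h (by norm_num) (by norm_num)
  have b0 : op57 (523259 / 476741) (ch57 (523259 / 476741) 0) = 2 * Real.arctan (T57 (523259 / 476741) * (362275955159037021 / 149353544840962979)) :=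
    opv57 h (by norm_num) a0 (by norm_num)
  have a1 : ch57 (523259 / 476741) 1 = 2 * Real.arctan (T57 (523259 / 476741) * (161253535381462979 / 112546445699537021)) := by
    change 2 * Real.pi - 3 * al57 (523259 / 476741) - op57 (523259 / 476741) (ch57 (523259 / 476741) 0) = _
    rw [b0]
    exact step57 h (by norm_num) (by norm_num)
  have b1 : op57 (523259 / 476741) (ch57 (523259 / 476741) 1) = 2 * Real.arctan (T57 (523259 / 476741) * (171437386329831063071439 / 84377363670168936928561)) :=
    opv57 h (by norm_num) a1 (by norm_num)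
  have a2 : ch57 (523259 / 476741) 2 = 2 * Real.arctan (T57 (523259 / 476741) * (90327358940418936928561 / 52940945360044042071439)) := by
    change 2 * Real.pi - 3 * al57 (523259 / 476741) - op57 (523259 / 476741) (ch57 (523259 / 476741) 1) = _
    rw [b1]
    exact step57 h (by norm_num) (by norm_num)
  refine ⟨fun j hj => ?_, ?_⟩
  · interval_cases j
    · rw [a0]; exact two_arctan_lt57 _
    · rw [a1]; exact two_arctan_lt57 _
  · rw [a2]; exact lt_q57 h (by norm_num) (by norm_num)

theorem x57d5hi : q57 (5232591 / 4767409) < ch57 (5232591 / 4767409) 2 := by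
  have h : (1 : ℝ) < (5232591 / 4767409) := by norm_num
  have a0 : ch57 (5232591 / 4767409) 0 = 2 * Real.arctan (T57 (5232591 / 4767409) * (28542963573281 / 23782946426719)) := by
    rw [start57 h]
    exact step57 h (by norm_num) (by norm_num)
  have b0 : op57 (5232591 / 4767409) (ch57 (5232591 / 4767409) 0) = 2 * Real.arctan (T57 (5232591 / 4767409) * (362275895693121998929 / 149353654306878001071)) :=
    opv57 h (by norm_num) a0 (by norm_num)
  have a1 : ch57 (5232591 / 4767409) 1 = 2 * Real.arctan (T57 (5232591 / 4767409) * (161253697173283001071 / 112546388559526998929)) := by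
    change 2 * Real.pi - 3 * al57 (5232591 / 4767409) - op57 (5232591 / 4767409) (ch57 (5232591 / 4767409) 0) = _
    rw [b0]
    exact step57 h (by norm_num) (by norm_num)
  have b1 : op57 (5232591 / 4767409) (ch57 (5232591 / 4767409) 1) = 2 * Real.arctan (T57 (5232591 / 4767409) * (1714373105454353928142895039 / 843774644545646071857104961)) :=
    opv57 h (by norm_num) a1 (by norm_num)
  have a2 : ch57 (5232591 / 4767409) 2 = 2 * Real.arctan (T57 (5232591 / 4767409) * (903274858877671071857104961 / 529409005527058938852895039)) := by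
    change 2 * Real.pi - 3 * al57 (5232591 / 4767409) - op57 (5232591 / 4767409) (ch57 (5232591 / 4767409) 1) = _
    rw [b1]
    exact step57 h (by norm_num) (by norm_num)
  rw [a2]; exact gt_q57 h (by norm_num) (by norm_num)

theorem x57d6lo : (∀ j ≤ 2, ch57 (1300049 / 1199951) j < Real.pi) ∧ 2 * Real.pi - 3 * al57 (1300049 / 1199951) < 2 * op57 (1300049 / 1199951) (ch57 (1300049 / 1199951) 2) := by
  have h : (1 : ℝ) < (1300049 / 1199951) := by norm_num
  have a0 : ch57 (1300049 / 1199951) 0 = 2 * Real.arctan (T57 (1300049 / 1199951) * (1752688652401 / 1497433847599)) := by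
    rw [start57 h]
    exact step57 h (by norm_num) (by norm_num)
  have b0 : op57 (1300049 / 1199951) (ch57 (1300049 / 1199951) 0) = 2 * Real.arctan (T57 (1300049 / 1199951) * (5690321995134732351 / 2278581129865267649)) :=
    opv57 h (by norm_num) a0 (by norm_num)
  have a1 : ch57 (1300049 / 1199951) 1 = 2 * Real.arctan (T57 (1300049 / 1199951) * (2438115382866517649 / 1787203123135982351)) := by
    change 2 * Real.pi - 3 * al57 (1300049 / 1199951) - op57 (1300049 / 1199951) (ch57 (1300049 / 1199951) 0) = _
    rw [b0]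
    exact step57 h (by norm_num) (by norm_num)
  have b1 : op57 (1300049 / 1199951) (ch57 (1300049 / 1199951) 1) = 2 * Real.arctan (T57 (1300049 / 1199951) * (6791459440869766596935199 / 3169669465380233403064801)) :=
    opv57 h (by norm_num) a1 (by norm_num)
  have a2 : ch57 (1300049 / 1199951) 2 = 2 * Real.arctan (T57 (1300049 / 1199951) * (3369087281631795903064801 / 2124033816778248219435199)) := by
    change 2 * Real.pi - 3 * al57 (1300049 / 1199951) - op57 (1300049 / 1199951) (ch57 (1300049 / 1199951) 1) = _
    rw [b1]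
    exact step57 h (by norm_num) (by norm_num)
  have b2 : op57 (1300049 / 1199951) (ch57 (1300049 / 1199951) 2) = 2 * Real.arctan (T57 (1300049 / 1199951) * (8071432581414365368016508524751 / 4379978551398134631983491475249)) :=
    opv57 h (by norm_num) a2 (by norm_num)
  have a3 : ch57 (1300049 / 1199951) 3 = 2 * Real.arctan (T57 (1300049 / 1199951) * (4629250821712587756983491475249 / 2512075769154291694428511024751)) := by
    change 2 * Real.pi - 3 * al57 (1300049 / 1199951) - op57 (1300049 / 1199951) (ch57 (1300049 / 1199951) 2) = _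
    rw [b2]
    exact step57 h (by norm_num) (by norm_num)
  refine ⟨fun j hj => ?_, ?_⟩
  · interval_cases j
    · rw [a0]; exact two_arctan_lt57 _
    · rw [a1]; exact two_arctan_lt57 _
    · rw [a2]; exact two_arctan_lt57 _
  · exact gtB57 h (by norm_num) b2 a3 (by norm_num)

theorem x57d6hi : 2 * op57 (5200197 / 4799803) (ch57 (5200197 / 4799803) 2) < 2 * Real.pi - 3 * al57 (5200197 / 4799803) := by
  have h : (1 : ℝ) < (5200197 / 4799803) := by norm_num
  have a0 : ch57 (5200197 / 4799803) 0 = 2 * Real.arctan (T57 (5200197 / 4799803) * (28043033838809 / 23958936161191)) := by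
    rw [start57 h]
    exact step57 h (by norm_num) (by norm_num)
  have b0 : op57 (5200197 / 4799803) (ch57 (5200197 / 4799803) 0) = 2 * Real.arctan (T57 (5200197 / 4799803) * (364180549560526954627 / 145829300439473045373)) :=
    opv57 h (by norm_num) a0 (by norm_num)
  have a1 : ch57 (5200197 / 4799803) 1 = 2 * Real.arctan (T57 (5200197 / 4799803) * (156039544633518045373 / 114380943754571954627)) := by
    change 2 * Real.pi - 3 * al57 (5200197 / 4799803) - op57 (5200197 / 4799803) (ch57 (5200197 / 4799803) 0) = _
    rw [b0]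
    exact step57 h (by norm_num) (by norm_num)
  have b1 : op57 (5200197 / 4799803) (ch57 (5200197 / 4799803) 1) = 2 * Real.arctan (T57 (5200197 / 4799803) * (1738612878115413361005461519 / 811436371884586638994538481)) :=
    opv57 h (by norm_num) a1 (by norm_num)
  have a2 : ch57 (5200197 / 4799803) 2 = 2 * Real.arctan (T57 (5200197 / 4799803) * (862487592854811638994538481 / 543752219599468814735461519)) := by
    change 2 * Real.pi - 3 * al57 (5200197 / 4799803) - op57 (5200197 / 4799803) (ch57 (5200197 / 4799803) 1) = _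
    rw [b1]
    exact step57 h (by norm_num) (by norm_num)
  have b2 : op57 (5200197 / 4799803) (ch57 (5200197 / 4799803) 2) = 2 * Real.arctan (T57 (5200197 / 4799803) * (8265140857099187079335517974719243 / 4485105392900812920664482025280757)) :=
    opv57 h (by norm_num) a2 (by norm_num)
  have a3 : ch57 (5200197 / 4799803) 3 = 2 * Real.arctan (T57 (5200197 / 4799803) * (4740361497751937920664482025280757 / 2572362556253373931980902784719243)) := by
    change 2 * Real.pi - 3 * al57 (5200197 / 4799803) - op57 (5200197 / 4799803) (ch57 (5200197 / 4799803) 2) = _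
    rw [b2]
    exact step57 h (by norm_num) (by norm_num)
  exact ltB57 h (by norm_num) b2 a3 (by norm_num)

theorem x57d7lo : (∀ j < 3, ch57 (207029 / 192971) j < Real.pi) ∧ ch57 (207029 / 192971) 3 < q57 (207029 / 192971) := by
  have h : (1 : ℝ) < (207029 / 192971) := by norm_num
  have a0 : ch57 (207029 / 192971) 0 = 2 * Real.arctan (T57 (207029 / 192971) * (44266806841 / 38544793159)) := by
    rw [start57 h]
    exact step57 h (by norm_num) (by norm_num)
  have b0 : op57 (207029 / 192971) (ch57 (207029 / 192971) 0) = 2 * Real.arctan (T57 (207029 / 192971) * (23397807246514611 / 9164512753485389)) :=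
    opv57 h (by norm_num) a0 (by norm_num)
  have a1 : ch57 (207029 / 192971) 1 = 2 * Real.arctan (T57 (207029 / 192971) * (9736714121685389 / 7407688614714611)) := by
    change 2 * Real.pi - 3 * al57 (207029 / 192971) - op57 (207029 / 192971) (ch57 (207029 / 192971) 0) = _
    rw [b0]
    exact step57 h (by norm_num) (by norm_num)
  have b1 : op57 (207029 / 192971) (ch57 (207029 / 192971) 1) = 2 * Real.arctan (T57 (207029 / 192971) * (4496681812101595600719 / 2015782187898404399281)) :=
    opv57 h (by norm_num) a1 (by norm_num)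
  have a2 : ch57 (207029 / 192971) 2 = 2 * Real.arctan (T57 (207029 / 192971) * (2130222461538404399281 / 1419166092575751200719)) := by
    change 2 * Real.pi - 3 * al57 (207029 / 192971) - op57 (207029 / 192971) (ch57 (207029 / 192971) 1) = _
    rw [b1]
    exact step57 h (by norm_num) (by norm_num)
  have b2 : op57 (207029 / 192971) (ch57 (207029 / 192971) 2) = 2 * Real.arctan (T57 (207029 / 192971) * (861474974010165675621253851 / 441017825989834324378746149)) :=
    opv57 h (by norm_num) a2 (by norm_num)
  have a3 : ch57 (207029 / 192971) 3 = 2 * Real.arctan (T57 (207029 / 192971) * (463905880717834324378746149 / 270920482251865195333653851)) := by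
    change 2 * Real.pi - 3 * al57 (207029 / 192971) - op57 (207029 / 192971) (ch57 (207029 / 192971) 2) = _
    rw [b2]
    exact step57 h (by norm_num) (by norm_num)
  refine ⟨fun j hj => ?_, ?_⟩
  · interval_cases j
    · rw [a0]; exact two_arctan_lt57 _
    · rw [a1]; exact two_arctan_lt57 _
    · rw [a2]; exact two_arctan_lt57 _
  · rw [a3]; exact lt_q57 h (by norm_num) (by norm_num)

theorem x57d7hi : q57 (2587863 / 2412137) < ch57 (2587863 / 2412137) 3 := by
  have h : (1 : ℝ) < (2587863 / 2412137) := by norm_num
  have a0 : ch57 (2587863 / 2412137) 0 = 2 * Real.arctan (T57 (2587863 / 2412137) * (6916692406769 / 6022622593231)) := by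
    rw [start57 h]
    exact step57 h (by norm_num) (by norm_num)
  have b0 : op57 (2587863 / 2412137) (ch57 (2587863 / 2412137) 0) = 2 * Real.arctan (T57 (2587863 / 2412137) * (45698835138141555353 / 17899452361858444647)) :=
    opv57 h (by norm_num) a0 (by norm_num)
  have a1 : ch57 (2587863 / 2412137) 1 = 2 * Real.arctan (T57 (2587863 / 2412137) * (19017039628780944647 / 14468134905064055353)) := by
    change 2 * Real.pi - 3 * al57 (2587863 / 2412137) - op57 (2587863 / 2412137) (ch57 (2587863 / 2412137) 0) = _
    rw [b0]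
    exact step57 h (by norm_num) (by norm_num)
  have b1 : op57 (2587863 / 2412137) (ch57 (2587863 / 2412137) 1) = 2 * Real.arctan (T57 (2587863 / 2412137) * (109782225525144058242980639 / 49213493224855941757019361)) :=
    opv57 h (by norm_num) a1 (by norm_num)
  have a2 : ch57 (2587863 / 2412137) 2 = 2 * Real.arctan (T57 (2587863 / 2412137) * (52007461392162191757019361 / 34647582832517531477980639)) := by
    change 2 * Real.pi - 3 * al57 (2587863 / 2412137) - op57 (2587863 / 2412137) (ch57 (2587863 / 2412137) 1) = _
    rw [b1]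
    exact step57 h (by norm_num) (by norm_num)
  have b2 : op57 (2587863 / 2412137) (ch57 (2587863 / 2412137) 2) = 2 * Real.arctan (T57 (2587863 / 2412137) * (262901111814294973953104605384457 / 134588185060705026046895394615543)) :=
    opv57 h (by norm_num) a2 (by norm_num)
  have a3 : ch57 (2587863 / 2412137) 3 = 2 * Real.arctan (T57 (2587863 / 2412137) * (141573105478970651046895394615543 / 82678277233441691563201410384457)) := by
    change 2 * Real.pi - 3 * al57 (2587863 / 2412137) - op57 (2587863 / 2412137) (ch57 (2587863 / 2412137) 2) = _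
    rw [b2]
    exact step57 h (by norm_num) (by norm_num)
  rw [a3]; exact gt_q57 h (by norm_num) (by norm_num)
theorem d2_57 {d : ℝ} (hd : 0 < d) (hb : ∀ j ≤ 0, ch66 d j < qa66 d)
    (h1 : 2 * opp51 d (ch66 d 0) = 2 * Real.pi - 3 * alpha d) :
    5452382 / 10000000 < Real.cos (alpha d) ∧ Real.cos (alpha d) < 5452383 / 10000000 := by
  have hq : qa66 d = q57 (Real.cosh d) := rfl
  have ho : ∀ t, opp51 d t = op57 (Real.cosh d) t := fun t => rfl
  rw [cos_alpha hd]
  simp only [ch57_eq hd, hq, ho, al57_eq hd] at hb h1
  have hC := cosh_gt66 hd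
  generalize Real.cosh d = C at hC hb h1 ⊢
  have k1 : (2726191 / 2273809) < C := by
    by_contra h5
    rw [not_lt] at h5
    have := lowB57 hC h5 x57d2lo
    linarith
  have k2 : C < (5452383 / 4547617) := by
    by_contra h5
    rw [not_lt] at h5
    have := upB57 (i := 0) (by norm_num) h5 hb x57d2hi
    linarith
  constructor
  · rw [lt_div_iff₀ (by linarith)]
    linarith
  · rw [div_lt_iff₀ (by linarith)]
    linarith

theorem d3_57 {d : ℝ} (hd : 0 < d) (hb : ∀ j < 1, ch66 d j < qa66 d)
    (h1 : ch66 d 1 = qa66 d) :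
    5343960 / 10000000 < Real.cos (alpha d) ∧ Real.cos (alpha d) < 5343961 / 10000000 := by
  have hq : qa66 d = q57 (Real.cosh d) := rfl
  have ho : ∀ t, opp51 d t = op57 (Real.cosh d) t := fun t => rfl
  rw [cos_alpha hd]
  simp only [ch57_eq hd, hq, ho, al57_eq hd] at hb h1
  have hC := cosh_gt66 hd
  generalize Real.cosh d = C at hC hb h1 ⊢
  have k1 : (133599 / 116401) < C := by
    by_contra h5
    rw [not_lt] at h5
    have := lowA57 hC h5 x57d3lo
    linarith
  have k2 : C < (5343961 / 4656039) := by
    by_contra h5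
    rw [not_lt] at h5
    have := upA57 (i := 1) (by norm_num) h5 hb x57d3hi
    linarith
  constructor
  · rw [lt_div_iff₀ (by linarith)]
    linarith
  · rw [div_lt_iff₀ (by linarith)]
    linarith

theorem d4_57 {d : ℝ} (hd : 0 < d) (hb : ∀ j ≤ 1, ch66 d j < qa66 d)
    (h1 : 2 * opp51 d (ch66 d 1) = 2 * Real.pi - 3 * alpha d) :
    5277507 / 10000000 < Real.cos (alpha d) ∧ Real.cos (alpha d) < 5277508 / 10000000 := by
  have hq : qa66 d = q57 (Real.cosh d) := rfl
  have ho : ∀ t, opp51 d t = op57 (Real.cosh d) t := fun t => rfl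
  rw [cos_alpha hd]
  simp only [ch57_eq hd, hq, ho, al57_eq hd] at hb h1
  have hC := cosh_gt66 hd
  generalize Real.cosh d = C at hC hb h1 ⊢
  have k1 : (5277507 / 4722493) < C := by
    by_contra h5
    rw [not_lt] at h5
    have := lowB57 hC h5 x57d4lo
    linarith
  have k2 : C < (1319377 / 1180623) := by
    by_contra h5
    rw [not_lt] at h5
    have := upB57 (i := 1) (by norm_num) h5 hb x57d4hi
    linarith
  constructor
  · rw [lt_div_iff₀ (by linarith)]
    linarith
  · rw [div_lt_iff₀ (by linarith)]
    linarith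

theorem d5_57 {d : ℝ} (hd : 0 < d) (hb : ∀ j < 2, ch66 d j < qa66 d)
    (h1 : ch66 d 2 = qa66 d) :
    5232590 / 10000000 < Real.cos (alpha d) ∧ Real.cos (alpha d) < 5232591 / 10000000 := by
  have hq : qa66 d = q57 (Real.cosh d) := rfl
  have ho : ∀ t, opp51 d t = op57 (Real.cosh d) t := fun t => rfl
  rw [cos_alpha hd]
  simp only [ch57_eq hd, hq, ho, al57_eq hd] at hb h1
  have hC := cosh_gt66 hd
  generalize Real.cosh d = C at hC hb h1 ⊢
  have k1 : (523259 / 476741) < C := by
    by_contra h5
    rw [not_lt] at h5
    have := lowA57 hC h5 x57d5lo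
    linarith
  have k2 : C < (5232591 / 4767409) := by
    by_contra h5
    rw [not_lt] at h5
    have := upA57 (i := 2) (by norm_num) h5 hb x57d5hi
    linarith
  constructor
  · rw [lt_div_iff₀ (by linarith)]
    linarith
  · rw [div_lt_iff₀ (by linarith)]
    linarith

theorem d6_57 {d : ℝ} (hd : 0 < d) (hb : ∀ j ≤ 2, ch66 d j < qa66 d)
    (h1 : 2 * opp51 d (ch66 d 2) = 2 * Real.pi - 3 * alpha d) :
    5200196 / 10000000 < Real.cos (alpha d) ∧ Real.cos (alpha d) < 5200197 / 10000000 := by
  have hq : qa66 d = q57 (Real.cosh d) := rfl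
  have ho : ∀ t, opp51 d t = op57 (Real.cosh d) t := fun t => rfl
  rw [cos_alpha hd]
  simp only [ch57_eq hd, hq, ho, al57_eq hd] at hb h1
  have hC := cosh_gt66 hd
  generalize Real.cosh d = C at hC hb h1 ⊢
  have k1 : (1300049 / 1199951) < C := by
    by_contra h5
    rw [not_lt] at h5
    have := lowB57 hC h5 x57d6lo
    linarith
  have k2 : C < (5200197 / 4799803) := by
    by_contra h5
    rw [not_lt] at h5
    have := upB57 (i := 2) (by norm_num) h5 hb x57d6hi
    linarith
  constructor
  · rw [lt_div_iff₀ (by linarith)]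
    linarith
  · rw [div_lt_iff₀ (by linarith)]
    linarith

theorem d7_57 {d : ℝ} (hd : 0 < d) (hb : ∀ j < 3, ch66 d j < qa66 d)
    (h1 : ch66 d 3 = qa66 d) :
    5175725 / 10000000 < Real.cos (alpha d) ∧ Real.cos (alpha d) < 5175726 / 10000000 := by
  have hq : qa66 d = q57 (Real.cosh d) := rfl
  have ho : ∀ t, opp51 d t = op57 (Real.cosh d) t := fun t => rfl
  rw [cos_alpha hd]
  simp only [ch57_eq hd, hq, ho, al57_eq hd] at hb h1
  have hC := cosh_gt66 hd
  generalize Real.cosh d = C at hC hb h1 ⊢
  have k1 : (207029 / 192971) < C := by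
    by_contra h5
    rw [not_lt] at h5
    have := lowA57 hC h5 x57d7lo
    linarith
  have k2 : C < (2587863 / 2412137) := by
    by_contra h5
    rw [not_lt] at h5
    have := upA57 (i := 3) (by norm_num) h5 hb x57d7hi
    linarith
  constructor
  · rw [lt_div_iff₀ (by linarith)]
    linarith
  · rw [div_lt_iff₀ (by linarith)]
    linarith

/-- **the chain diameters with 1077/1000 <= cosh d <= 611/500**, seven digits of cos alpha -/
theorem exc57h {d : ℝ} (hd : 0 < d) (h1 : 1077 / 1000 ≤ Real.cosh d) (h2 : Real.cosh d ≤ 611 / 500)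
    (hE : Exc66 d) :
    (5452382 / 10000000 < Real.cos (alpha d) ∧ Real.cos (alpha d) < 5452383 / 10000000 ∧
      ch66 d 0 < qa66 d ∧ 2 * opp51 d (ch66 d 0) = 2 * Real.pi - 3 * alpha d) ∨
    (5343960 / 10000000 < Real.cos (alpha d) ∧ Real.cos (alpha d) < 5343961 / 10000000 ∧
      ch66 d 0 < qa66 d ∧ ch66 d 1 = qa66 d) ∨
    (5277507 / 10000000 < Real.cos (alpha d) ∧ Real.cos (alpha d) < 5277508 / 10000000 ∧
      ch66 d 0 < qa66 d ∧ ch66 d 1 < qa66 d ∧
      2 * opp51 d (ch66 d 1) = 2 * Real.pi - 3 * alpha d) ∨
    (5232590 / 10000000 < Real.cos (alpha d) ∧ Real.cos (alpha d) < 5232591 / 10000000 ∧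
      ch66 d 0 < qa66 d ∧ ch66 d 1 < qa66 d ∧ ch66 d 2 = qa66 d) ∨
    (5200196 / 10000000 < Real.cos (alpha d) ∧ Real.cos (alpha d) < 5200197 / 10000000 ∧
      ch66 d 0 < qa66 d ∧ ch66 d 1 < qa66 d ∧ ch66 d 2 < qa66 d ∧
      2 * opp51 d (ch66 d 2) = 2 * Real.pi - 3 * alpha d) := by
  rcases exc57 hd h1 h2 hE with ⟨_, _, a0, a⟩ | ⟨_, _, a0, a⟩ | ⟨_, _, a0, a1, a⟩ |
    ⟨_, _, a0, a1, a⟩ | ⟨_, _, a0, a1, a2, a⟩
  · left
    have h := d2_57 hd (fun j hj => by
      obtain rfl : j = 0 := by omega
      exact a0) a
    exact ⟨h.1, h.2, a0, a⟩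
  · right; left
    have h := d3_57 hd (fun j hj => by
      obtain rfl : j = 0 := by omega
      exact a0) a
    exact ⟨h.1, h.2, a0, a⟩
  · right; right; left
    have h := d4_57 hd (fun j hj => by
      interval_cases j
      · exact a0
      · exact a1) a
    exact ⟨h.1, h.2, a0, a1, a⟩
  · right; right; right; left
    have h := d5_57 hd (fun j hj => by
      interval_cases j
      · exact a0
      · exact a1) a
    exact ⟨h.1, h.2, a0, a1, a⟩
  · right; right; right; right
    have h := d6_57 hd (fun j hj => by
      interval_cases j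
      · exact a0
      · exact a1
      · exact a2) a
    exact ⟨h.1, h.2, a0, a1, a2, a⟩

end

end Pool.Agent.PEN
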