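import Pool.Agent.P4.NumV52
import Pool.Agent.P4.Av11
import Pool.Agent.P4.Exc57b

/-! # Q1 at the special diameters `ds` and `d₂` -/

set_option autoImplicit false

namespace Pool.Agent.PEN

noncomputable section

/-- the inequalities of a configuration in units of the contact triangle -/
theorem tau52 {d e c0 K r c1 : ℝ} (hd : 0 < d)
    (he : 2 * Real.pi - 6 * alpha d ≤ e * alpha d) (hc0 : g51 d ≤ c0 * A3 (alpha d))
    (hr : r * A3 (alpha d) ≤ rho51 d (alpha d))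
    (hK : K * A3 (alpha d) ≤ 4 * Real.arcsin (8 / 9) - 2 * rho51 d (alpha d))
    (hc1 : 2 * Real.arcsin (8 / 9 * Real.tanh (d / 2)) ≤ c1 * A3 (alpha d))
    {n b s t I M : ℕ} {A : ℝ} (h : Num5 d (8 / 9) n b s t I M A) :
    (t : ℝ) ≤ A / A3 (alpha d) ∧
    (b ≤ n → (1 - e) * ((n : ℝ) - b) ≤ (2 * I : ℕ) + e / 2 * (A / A3 (alpha d) - t)) ∧
    (A / A3 (alpha d) ≤ c1 * b ∨ A / A3 (alpha d) ≤ c0 * b - K - r * s) := by
  have hA := A3_pos69 hd
  have hal := alpha_pos hd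
  have h1 := h.low
  have h2 := h.G
  have h3 := h.dis
  have hb0 : (0 : ℝ) ≤ b := Nat.cast_nonneg _
  have hs0 : (0 : ℝ) ≤ s := Nat.cast_nonneg _
  have ht : (t : ℝ) ≤ A / A3 (alpha d) := by
    rw [le_div_iff₀ hA]
    linarith
  refine ⟨ht, fun hnb => ?_, ?_⟩
  · have hnb' : (b : ℝ) ≤ n := by exact_mod_cast hnb
    have k0 : Real.pi = 3 * alpha d + A3 (alpha d) := by unfold A3; ring
    have k1 : alpha d * (1 - e) ≤ 7 * alpha d - 2 * Real.pi := by linarith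
    have k2 := mul_le_mul_of_nonneg_right k1 (show (0 : ℝ) ≤ (n : ℝ) - b by linarith)
    have k3 : A3 (alpha d) ≤ alpha d * (e / 2) := by linarith
    have k4 := mul_le_mul_of_nonneg_right k3
      (show (0 : ℝ) ≤ A / A3 (alpha d) - t by linarith)
    have k5 : A3 (alpha d) * (A / A3 (alpha d) - t) = A - A3 (alpha d) * t := by
      field_simp
    have k6 : alpha d * ((1 - e) * ((n : ℝ) - b)) ≤
        alpha d * ((2 * I : ℕ) + e / 2 * (A / A3 (alpha d) - t)) := by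
      push_cast
      linarith
    exact le_of_mul_le_mul_left k6 hal
  · rcases h3 with h3 | h3
    · left
      rw [div_le_iff₀ hA]
      have := mul_le_mul_of_nonneg_left hc1 hb0
      linarith
    · right
      rw [div_le_iff₀ hA]
      have k1 := mul_le_mul_of_nonneg_left hc0 hb0
      have k2 := mul_le_mul_of_nonneg_left hr hs0
      linarith

/-- the tail of the isoperimetric bound -/
theorem tail52 {d c0 : ℝ} (hd : 0 < d) (hc0 : g51 d ≤ c0 * A3 (alpha d)) {a : ℕ} {v : ℝ}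
    (ha : 2 ≤ a) (hv : Ust69 d a ≤ v * A3 (alpha d)) {b : ℕ} {A : ℝ} (h : A ≤ Ust69 d b)
    (hab : a ≤ b) : A / A3 (alpha d) ≤ v + c0 * ((b : ℝ) - a) := by
  have hA := A3_pos69 hd
  have h1 := Ust_tail69 hd ha hab
  have hab' : (a : ℝ) ≤ b := by exact_mod_cast hab
  rw [div_le_iff₀ hA]
  have h2 := mul_le_mul_of_nonneg_left hc0 (show (0 : ℝ) ≤ (b : ℝ) - a by linarith)
  linarith

theorem mono52 {d : ℝ} (hd : 0 < d) {a : ℕ} {v : ℝ}
    (hv : Ust69 d a ≤ v * A3 (alpha d)) {b : ℕ} {A : ℝ} (h : A ≤ Ust69 d b)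
    (hab : b ≤ a) : A / A3 (alpha d) ≤ v := by
  have hA := A3_pos69 hd
  have h1 := Ust69_mono d hab
  rw [div_le_iff₀ hA]
  linarith

theorem chord52 {d : ℝ} (hd : 0 < d) {a c : ℕ} {v w : ℝ} (ha : 2 ≤ a) (hac : a < c)
    (hv : Ust69 d a ≤ v * A3 (alpha d)) (hw : Ust69 d c ≤ w * A3 (alpha d)) {b : ℕ} {A : ℝ}
    (h : A ≤ Ust69 d b) (hab : a ≤ b) (hbc : b ≤ c) :
    A / A3 (alpha d) ≤ v + (w - v) / ((c : ℝ) - a) * ((b : ℝ) - a) := by
  have hA := A3_pos69 hd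
  have h1 := Ust_chord69 hd ha hab hbc
  have hab' : (a : ℝ) ≤ b := by exact_mod_cast hab
  have hbc' : (b : ℝ) ≤ c := by exact_mod_cast hbc
  have hac' : (a : ℝ) < c := by exact_mod_cast hac
  have hca : (0 : ℝ) < (c : ℝ) - a := by linarith
  rw [div_le_iff₀ hA]
  have h2 := mul_le_mul_of_nonneg_left hv (show (0 : ℝ) ≤ (c : ℝ) - b by linarith)
  have h3 := mul_le_mul_of_nonneg_left hw (show (0 : ℝ) ≤ (b : ℝ) - a by linarith)
  have h4 : ((c : ℝ) - a) * A ≤ ((c : ℝ) - a) * ((v + (w - v) / ((c : ℝ) - a) * ((b : ℝ) - a)) *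
      A3 (alpha d)) := by
    have h5 : ((c : ℝ) - a) * ((v + (w - v) / ((c : ℝ) - a) * ((b : ℝ) - a)) * A3 (alpha d)) =
        ((c : ℝ) - b) * (v * A3 (alpha d)) + ((b : ℝ) - a) * (w * A3 (alpha d)) := by
      field_simp
      ring
    rw [h5]
    have h6 := mul_le_mul_of_nonneg_left h hca.le
    linarith
  exact le_of_mul_le_mul_left h4 hca

/-- if `n < b` inequality G is trivial -/
theorem triv_G52 {e τ : ℝ} (he : 0 ≤ e) (he1 : e ≤ 1) {n b t J : ℕ} (h : n < b)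
    (ht : (t : ℝ) ≤ τ) : (1 - e) * ((n : ℝ) - b) ≤ J + e / 2 * (τ - t) := by
  have h1 : (n : ℝ) ≤ b := by exact_mod_cast h.le
  have h2 : (1 - e) * ((n : ℝ) - b) ≤ 0 :=
    mul_nonpos_of_nonneg_of_nonpos (by linarith) (by linarith)
  have h3 : 0 ≤ e / 2 * (τ - t) := mul_nonneg (by linarith) (by linarith)
  have h4 : (0 : ℝ) ≤ J := Nat.cast_nonneg _
  linarith

/-- from the strict inequality to `M ≤ 2 Lb n` -/
theorem fin52 {al : ℝ} {U : ℕ → ℝ} {n b t I M : ℕ} {A : ℝ} (h : Num4 al U n b t I M A)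
    (h1 : 3 * t + b < 2 * Lb n + 2 + 2 * I) : M ≤ 2 * Lb n := by
  have h2 := h.edge
  obtain ⟨k, hk⟩ := h.even
  omega

/-- the numbers at `ds` -/
theorem hnum_ds52 {d : ℝ} (hd : 0 < d)
    (hq : Real.cos (5 * alpha d) = 2 * Real.cos (alpha d) - 1) (n b s t I M : ℕ) (A : ℝ)
    (hn : 10 ≤ n) (h : Num5 d (8 / 9) n b s t I M A) : M ≤ 2 * Lb n := by
  apply fin52 h.toNum4
  have e1 := h.E1
  rcases Nat.lt_or_ge b 3 with hb | hb
  · exact small_b52 hd hb hn h.low h.up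
  rcases Nat.lt_or_ge n 161 with hn2 | hn2
  · exact G_ds52 hd hq hn (by omega) (by omega) h.low h.up h.G
  obtain ⟨q1, q2⟩ := hds7_52 hd hq
  obtain ⟨k1, k2, k3, k4, k5⟩ := ds_const52 hd q1 q2
  obtain ⟨_, _, _, _, w69⟩ := ds_node52 hd q1 q2
  obtain ⟨f1, f2, f3⟩ := tau52 hd k1 k2 k3 k4 k5 h
  have hs0 : (0 : ℝ) ≤ s := Nat.cast_nonneg _
  have hb0 : (3 : ℝ) ≤ b := by exact_mod_cast hb
  refine arVs n b t (2 * I) s (A / A3 (alpha d)) (by omega) hb (by omega) f1 ?_ ?_ ?_ ?_ ?_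
  · intro hb1
    have := mono52 hd w69 h.up hb1
    linarith
  · intro hb1
    have h5 := tail52 hd k2 (by norm_num) w69 h.up hb1
    have hb2 : (69 : ℝ) ≤ b := by exact_mod_cast hb1
    push_cast at h5
    linarith
  · rcases Nat.lt_or_ge n b with hnb | hnb
    · exact triv_G52 (by norm_num) (by norm_num) hnb f1
    · have := f2 hnb
      have hnb' : (b : ℝ) ≤ n := by exact_mod_cast hnb
      linarith
  · have := h.D
    omega
  · rcases f3 with f3 | f3
    · left; linarith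
    · right; linarith

/-- **Q1 at `ds`** -/
theorem q1_ds52 {e d : ℝ} (he : 0 < e) (ha : alpha e = 2 * Real.pi / 7) (hd : 0 < d)
    (hq : Real.cos (5 * alpha d) = 2 * Real.cos (alpha d) - 1) (n : ℕ) : eD d n ≤ eD e n := by
  obtain ⟨q1, q2⟩ := hds7_52 hd hq
  exact q1_of_num5 he ha hd (ds_side52 hd q1 q2)
    (fun _ n b s t I M A hn h => hnum_ds52 hd hq n b s t I M A hn h) n

theorem cosh_le_of52 {d h2 : ℝ} (hd : 0 < d) (hh : Real.cos (alpha d) ≤ h2) (h : h2 ≤ 611 / 1111) :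
    Real.cosh d ≤ 611 / 500 := by
  have hc := Real.cosh_pos d
  have h1 := hh.trans h
  rw [cos_alpha hd, div_le_div_iff₀ (by linarith) (by norm_num)] at h1
  linarith

/-- the numbers at `d₂` -/
theorem hnum_d2_52 {d : ℝ} (hd : 0 < d) (q1 : 5452382 / 10000000 ≤ Real.cos (alpha d))
    (q2 : Real.cos (alpha d) ≤ 5452383 / 10000000) (n b s t I M : ℕ) (A : ℝ)
    (hn : 10 ≤ n) (h : Num5 d (8 / 9) n b s t I M A) : M ≤ 2 * Lb n := by
  apply fin52 h.toNum4
  have e1 := h.E1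
  rcases Nat.lt_or_ge n 98 with hn2 | hn2
  · exact G_num52 hd (cosh_le_of52 hd q2 (by norm_num)) hn (by omega) (by omega) h.low h.up h.G
  rcases Nat.lt_or_ge b 3 with hb | hb
  · exact small_b52 hd hb hn h.low h.up
  obtain ⟨k1, k2, k3, k4, k5⟩ := d2_const52 hd q1 q2
  obtain ⟨w11, w57⟩ := d2_node52 hd q1 q2
  obtain ⟨f1, f2, f3⟩ := tau52 hd k1 k2 k3 k4 k5 h
  have hs0 : (0 : ℝ) ≤ s := Nat.cast_nonneg _
  have hb0 : (3 : ℝ) ≤ b := by exact_mod_cast hb
  refine arV2 n b t (2 * I) s (A / A3 (alpha d)) hn2 hb (by omega) f1 ?_ ?_ ?_ ?_ ?_ ?_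
  · intro hb1
    have := mono52 hd w11 h.up hb1
    linarith
  · intro hb1 hb2
    have h5 := chord52 hd (by norm_num) (by norm_num) w11 w57 h.up hb1 hb2
    have hb1' : (11 : ℝ) ≤ b := by exact_mod_cast hb1
    have hb2' : (b : ℝ) ≤ 57 := by exact_mod_cast hb2
    push_cast at h5
    linarith
  · intro hb1
    have h5 := tail52 hd k2 (by norm_num) w57 h.up hb1
    have hb2 : (57 : ℝ) ≤ b := by exact_mod_cast hb1
    push_cast at h5
    linarith
  · rcases Nat.lt_or_ge n b with hnb | hnb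
    · exact triv_G52 (by norm_num) (by norm_num) hnb f1
    · have := f2 hnb
      have hnb' : (b : ℝ) ≤ n := by exact_mod_cast hnb
      linarith
  · have := h.D
    omega
  · rcases f3 with f3 | f3
    · left; linarith
    · right; linarith

/-- **Q1 at `d₂`** -/
theorem q1_d2_52 {e d : ℝ} (he : 0 < e) (ha : alpha e = 2 * Real.pi / 7) (hd : 0 < d)
    (q1 : 5452382 / 10000000 ≤ Real.cos (alpha d))
    (q2 : Real.cos (alpha d) ≤ 5452383 / 10000000) (n : ℕ) : eD d n ≤ eD e n :=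
  q1_of_num5 he ha hd (d2_side52 hd q1 q2)
    (fun _ n b s t I M A hn h => hnum_d2_52 hd q1 q2 n b s t I M A hn h) n

end

end Pool.Agent.PEN
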