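import Pool.Agent.P4.P51

/-! # Hyperbolic penny graphs: the isoperimetric inequality with a diameter

`g51 x = 2 arcsin (tanh (x / 2))` is the area of the triangle with side `x` and symmetric ideal apex.
The signed area of a triangle is at most `g51 |ab| + g51 |bc| - g51 |ca|`. -/

set_option autoImplicit false
set_option linter.all false

namespace Pool.Agent.PEN

open Classical UpperHalfPlane Filter Topology

noncomputable section

/-- area of the triangle with a side `x` and the symmetric ideal apex -/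
def g51 (x : ℝ) : ℝ := 2 * Real.arcsin (Real.tanh (x / 2))

theorem g51_zero : g51 0 = 0 := by
  unfold g51
  simp

theorem g51_mono {x y : ℝ} (h : x ≤ y) : g51 x ≤ g51 y := by
  unfold g51
  have := Real.monotone_arcsin (tanh_mono51 (show x / 2 ≤ y / 2 by linarith))
  linarith

theorem g51_nonneg {x : ℝ} (h : 0 ≤ x) : 0 ≤ g51 x := by
  have := g51_mono h
  rwa [g51_zero] at this

/-- every number of the unit disc is the disc coordinate of a point -/
theorem Dv_surj51 (v : ℍ) (ζ : ℂ) (h : ‖ζ‖ < 1) : ∃ p : ℍ, Dv v p = ζ := by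
  have h1 : 1 - ζ ≠ 0 := by
    intro h2
    have h3 : ζ = 1 := (sub_eq_zero.1 h2).symm
    rw [h3] at h
    simp at h
  have hn : 0 < Complex.normSq (1 - ζ) := Complex.normSq_pos.2 h1
  have hz : Complex.normSq ζ < 1 := by
    rw [Complex.normSq_eq_norm_sq]
    have := norm_nonneg ζ
    nlinarith
  set p : ℂ := ((v : ℂ) - ζ * (starRingEnd ℂ) (v : ℂ)) / (1 - ζ) with hp
  have him : p.im = v.im * (1 - Complex.normSq ζ) / Complex.normSq (1 - ζ) := by
    rw [hp, Pool.Agent.Penny.im_div_pos49 h1]
    congr 1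
    simp only [Complex.mul_im, Complex.sub_re, Complex.sub_im, Complex.conj_re, Complex.conj_im,
      Complex.mul_re, map_sub, map_one, Complex.one_re, Complex.one_im, Complex.normSq_apply,
      UpperHalfPlane.coe_re, UpperHalfPlane.coe_im]
    ring
  have hpos : 0 < p.im := by
    rw [him]
    have := v.im_pos
    have : 0 < 1 - Complex.normSq ζ := by linarith
    positivity
  refine ⟨⟨p, hpos⟩, ?_⟩
  unfold Dv
  show (p - (v : ℂ)) / (p - (starRingEnd ℂ) (v : ℂ)) = ζ
  have hne : p - (starRingEnd ℂ) (v : ℂ) ≠ 0 := by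
    intro h2
    have h3 := congrArg Complex.im h2
    simp only [Complex.sub_im, Complex.conj_im, Complex.zero_im, UpperHalfPlane.coe_im] at h3
    have := v.im_pos
    linarith
  rw [div_eq_iff hne]
  have h4 : p * (1 - ζ) = (v : ℂ) - ζ * (starRingEnd ℂ) (v : ℂ) := by
    rw [hp, div_mul_cancel₀ _ h1]
  linear_combination h4

theorem S51_le_g (a b c : ℍ) : S51 a b c ≤ g51 (dist a b) := by
  refine (S51_le a b c).trans ?_
  unfold g51
  have h1 := tanh_nonneg51 (x := dist a b / 2) (by have := dist_nonneg (x := a) (y := b); linarith)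
  have h2 := tanh_half_lt_one51 a c
  have h3 : Real.tanh (dist a b / 2) * Real.tanh (dist a c / 2) ≤ Real.tanh (dist a b / 2) := by
    nlinarith
  have := Real.monotone_arcsin h3
  linarith

/-- points near the ideal apex over the side `a c` -/
theorem S51_near_g (a c : ℍ) (e : ℝ) (he : 0 < e) :
    ∃ x : ℍ, g51 (dist a c) - e < S51 a c x := by
  by_cases hc : c = a
  · subst hc
    refine ⟨c, ?_⟩
    rw [dist_self, g51_zero, S51_self₁]
    linarith
  · have hu : Dv a c ≠ 0 := by
      rw [Dv_eq49]; exact Pool.Agent.Penny.disc_ne hc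
    set u := Dv a c with hudef
    set s := ‖u‖ with hs
    have hs0 : 0 < s := norm_pos_iff.2 hu
    have hs1 : s < 1 := by
      rw [hs, hudef, norm_Dv51]
      exact tanh_half_lt_one51 a c
    set q := Real.sqrt (1 - s ^ 2) with hq
    have hq1 : 0 < 1 - s ^ 2 := by nlinarith
    have hq0 : 0 < q := Real.sqrt_pos.2 hq1
    have hqq : q ^ 2 = 1 - s ^ 2 := Real.sq_sqrt hq1.le
    -- the function of the distance to the boundary
    set f : ℝ → ℂ := fun t => 1 - ((s * (1 - t) : ℝ) : ℂ) * ⟨s, -q⟩ with hf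
    have hf0 : f 0 = ((q : ℝ) : ℂ) * ⟨q, s⟩ := by
      rw [hf]
      apply Complex.ext
      · simp only [Complex.sub_re, Complex.one_re, Complex.re_ofReal_mul]
        nlinarith
      · simp only [Complex.sub_im, Complex.one_im, Complex.im_ofReal_mul]
        ring
    have hcont : ContinuousAt (fun t => Complex.arg (f t)) 0 := by
      apply ContinuousAt.comp (g := Complex.arg) (f := f)
      · apply Complex.continuousAt_arg
        rw [hf0]
        left
        rw [Complex.re_ofReal_mul]
        positivity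
      · apply Continuous.continuousAt
        rw [hf]
        fun_prop
    have harg0 : Complex.arg (f 0) = Real.arcsin s := by
      rw [hf0, Complex.arg_real_mul _ hq0]
      have hn : ‖(⟨q, s⟩ : ℂ)‖ = 1 := by
        rw [Complex.norm_def, Complex.normSq_apply]
        have : q * q + s * s = 1 := by nlinarith
        show Real.sqrt (q * q + s * s) = 1
        rw [this, Real.sqrt_one]
      rw [Complex.arg_of_re_nonneg (by exact hq0.le), hn, div_one]
    have hev : ∀ᶠ t in 𝓝 (0 : ℝ), Real.arcsin s - e / 2 < Complex.arg (f t) := by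
      have := hcont.eventually (lt_mem_nhds (show Real.arcsin s - e / 2 < Complex.arg (f 0) by
        rw [harg0]; linarith))
      exact this
    obtain ⟨r, hr0, hr⟩ := Metric.eventually_nhds_iff.1 hev
    set t := min (r / 2) (1 / 2) with ht
    have ht0 : 0 < t := by rw [ht]; positivity
    have ht1 : t ≤ 1 / 2 := min_le_right _ _
    have htr : t < r := lt_of_le_of_lt (min_le_left _ _) (by linarith)
    have h1 := hr (y := t) (by rw [Real.dist_eq, sub_zero, abs_of_pos ht0]; exact htr)
    -- the point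
    set ζ : ℂ := (((1 - t) / s : ℝ) : ℂ) * (u * ⟨s, q⟩) with hζ
    have hqs : ‖(⟨s, q⟩ : ℂ)‖ = 1 := by
      rw [Complex.norm_def, Complex.normSq_apply]
      have : s * s + q * q = 1 := by nlinarith
      show Real.sqrt (s * s + q * q) = 1
      rw [this, Real.sqrt_one]
    have hζn : ‖ζ‖ = 1 - t := by
      rw [hζ, norm_mul, norm_mul, hqs, Complex.norm_real, Real.norm_eq_abs, abs_of_nonneg
        (div_nonneg (by linarith) hs0.le), mul_one, ← hs, div_mul_cancel₀ _ hs0.ne']
    obtain ⟨x, hx⟩ := Dv_surj51 a ζ (by rw [hζn]; linarith)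
    refine ⟨x, ?_⟩
    rw [S51_eq_arg, hx, ← hudef]
    have h2 : 1 - u * (starRingEnd ℂ) ζ = f t := by
      rw [hf, hζ, map_mul, map_mul, Complex.conj_ofReal]
      have h3 : (starRingEnd ℂ) (⟨s, q⟩ : ℂ) = ⟨s, -q⟩ := rfl
      have h4 : u * (starRingEnd ℂ) u = ((s ^ 2 : ℝ) : ℂ) := by
        rw [Complex.mul_conj, Complex.normSq_eq_norm_sq]
      rw [h3]
      have h5 : u * ((((1 - t) / s : ℝ) : ℂ) * ((starRingEnd ℂ) u * ⟨s, -q⟩)) =
          (((1 - t) / s : ℝ) : ℂ) * (u * (starRingEnd ℂ) u) * ⟨s, -q⟩ := by ring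
      rw [h5, h4, ← Complex.ofReal_mul]
      have h6 : (1 - t) / s * s ^ 2 = s * (1 - t) := by
        field_simp
      rw [h6]
    rw [h2]
    unfold g51
    rw [← norm_Dv51, ← hudef, ← hs]
    linarith

/-- W1: the signed area of a triangle -/
theorem S51_le_ggg (a b c : ℍ) :
    S51 a b c ≤ g51 (dist a b) + g51 (dist b c) - g51 (dist c a) := by
  by_contra hcon
  push Not at hcon
  set e := S51 a b c - (g51 (dist a b) + g51 (dist b c) - g51 (dist c a)) with he
  have he0 : 0 < e := by rw [he]; linarith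
  obtain ⟨x, hx⟩ := S51_near_g a c e he0
  have h1 := S51_le_g a b x
  have h2 := S51_le_g b c x
  -- S a b c = S a b x + S b c x - S a c x
  have h3 : S51 a b c = S51 a b x + S51 b c x - S51 a c x := by
    have := S51_add a b c x
    linarith
  rw [dist_comm c a] at he
  linarith

theorem S_g (a b c : ℍ) : kap a b + kap b c + kap c a ≤
    g51 (dist a b) + g51 (dist b c) - g51 (dist c a) := S51_le_ggg a b c

/-! ### Closed walks -/

theorem walk_fan51 (v : ℕ → ℍ) (b : ℕ) (h0 : v b = v 0) :
    ∑ i ∈ Finset.range b, kap (v i) (v (i + 1)) =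
      ∑ i ∈ Finset.range b, S51 (v 0) (v i) (v (i + 1)) := by
  have h1 : ∀ i : ℕ, S51 (v 0) (v i) (v (i + 1)) =
      kap (v i) (v (i + 1)) + (kap (v 0) (v i) - kap (v 0) (v (i + 1))) := by
    intro i
    unfold S51
    have := kap_swap51 (v 0) (v (i + 1))
    linarith
  rw [Finset.sum_congr rfl (fun i _ => h1 i), Finset.sum_add_distrib,
    Finset.sum_range_sub' (fun i => kap (v 0) (v i)), h0, sub_self, add_zero]

/-- the first part of a walk -/
theorem fan_up51 {d : ℝ} (v : ℕ → ℍ) (j : ℕ) (h : ∀ i < j, dist (v i) (v (i + 1)) = d) :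
    ∑ i ∈ Finset.range j, S51 (v 0) (v i) (v (i + 1)) ≤ j * g51 d - g51 (dist (v 0) (v j)) := by
  induction j with
  | zero => simp [g51_zero]
  | succ j ih =>
    rw [Finset.sum_range_succ]
    have h1 := ih (fun i hi => h i (by omega))
    have h2 := S51_le_ggg (v 0) (v j) (v (j + 1))
    rw [h j (by omega), dist_comm (v (j + 1)) (v 0)] at h2
    push_cast
    linarith

/-- the last part of a closed walk -/
theorem fan_down51 {d : ℝ} (v : ℕ → ℍ) (j m : ℕ)
    (h : ∀ i < m, dist (v (j + i)) (v (j + i + 1)) = d) :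
    ∑ i ∈ Finset.range m, S51 (v 0) (v (j + i)) (v (j + i + 1)) ≤
      m * g51 d + g51 (dist (v 0) (v (j + m))) - g51 (dist (v 0) (v j)) := by
  induction m with
  | zero => simp
  | succ m ih =>
    rw [Finset.sum_range_succ]
    have h1 := ih (fun i hi => h i (by omega))
    have h2 := S51_le_ggg (v (j + m)) (v (j + m + 1)) (v 0)
    rw [S51_rot, h m (by omega), dist_comm (v (j + m + 1)) (v 0)] at h2
    have h3 : v (j + (m + 1)) = v (j + m + 1) := rfl
    rw [h3]
    push_cast
    linarith

/-- W2: a closed walk of `b` steps `d` through two points at distance `D` encloses at most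
`b g(d) - 2 g(D)` -/
theorem walk_le_g51 {d : ℝ} (v : ℕ → ℍ) (b : ℕ) (h0 : v b = v 0)
    (h : ∀ i < b, dist (v i) (v (i + 1)) = d) (j : ℕ) (hj : j ≤ b) :
    ∑ i ∈ Finset.range b, kap (v i) (v (i + 1)) ≤ b * g51 d - 2 * g51 (dist (v 0) (v j)) := by
  rw [walk_fan51 v b h0]
  obtain ⟨m, rfl⟩ := Nat.exists_eq_add_of_le hj
  rw [Finset.sum_range_add]
  have h1 := fan_up51 v j (fun i hi => h i (by omega))
  have h2 := fan_down51 v j m (fun i hi => h (j + i) (by omega))
  rw [h0, dist_self, g51_zero] at h2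
  push_cast
  linarith

/-- rotation of a closed walk -/
def rot51 (v : ℕ → ℍ) (b i k : ℕ) : ℍ := if i + k ≤ b then v (i + k) else v (i + k - b)

theorem rot51_step (v : ℕ → ℍ) (b i k : ℕ) (h0 : v b = v 0) (hi : i ≤ b) (hk : k < b) :
    (i + k < b ∧ rot51 v b i k = v (i + k) ∧ rot51 v b i (k + 1) = v (i + k + 1)) ∨
    (b ≤ i + k ∧ rot51 v b i k = v (i + k - b) ∧ rot51 v b i (k + 1) = v (i + k - b + 1)) := by
  unfold rot51
  by_cases h1 : i + k < b
  · left
    refine ⟨h1, ?_, ?_⟩
    · rw [if_pos h1.le]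
    · rw [if_pos (by omega)]; rfl
  · right
    refine ⟨by omega, ?_, ?_⟩
    · by_cases h2 : i + k = b
      · rw [if_pos h2.le, h2, Nat.sub_self, h0]
      · rw [if_neg (by omega)]
    · rw [if_neg (by omega)]
      congr 1
      omega

/-- W2 for any two points of the walk -/
theorem walk_le_g51' {d : ℝ} (v : ℕ → ℍ) (b : ℕ) (h0 : v b = v 0)
    (h : ∀ i < b, dist (v i) (v (i + 1)) = d) (i j : ℕ) (hij : i ≤ j) (hj : j ≤ b) :
    ∑ k ∈ Finset.range b, kap (v k) (v (k + 1)) ≤ b * g51 d - 2 * g51 (dist (v i) (v j)) := by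
  have hi : i ≤ b := hij.trans hj
  have e0 : rot51 v b i 0 = v i := by
    unfold rot51; rw [if_pos (by omega), add_zero]
  have eb : rot51 v b i b = rot51 v b i 0 := by
    rw [e0]
    unfold rot51
    by_cases h2 : i = 0
    · subst h2
      rw [if_pos (by omega), zero_add, h0]
    · rw [if_neg (by omega)]
      congr 1
      omega
  have ej : rot51 v b i (j - i) = v j := by
    unfold rot51
    rw [if_pos (by omega)]
    congr 1
    omega
  have hs : ∀ k < b, dist (rot51 v b i k) (rot51 v b i (k + 1)) = d := by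
    intro k hk
    rcases rot51_step v b i k h0 hi hk with ⟨h1, h2, h3⟩ | ⟨h1, h2, h3⟩
    · rw [h2, h3]; exact h _ h1
    · rw [h2, h3]; exact h _ (by omega)
  have h1 := walk_le_g51 (rot51 v b i) b eb hs (j - i) (by omega)
  rw [e0, ej] at h1
  have h2 : ∑ k ∈ Finset.range b, kap (rot51 v b i k) (rot51 v b i (k + 1)) =
      ∑ k ∈ Finset.range b, kap (v k) (v (k + 1)) := by
    obtain ⟨m, rfl⟩ := Nat.exists_eq_add_of_le hi
    have e1 : Finset.range (i + m) = Finset.range (m + i) := by rw [add_comm]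
    rw [e1, Finset.sum_range_add, ← e1, Finset.sum_range_add, add_comm]
    congr 1
    · apply Finset.sum_congr rfl
      intro k hk
      have hk' := Finset.mem_range.1 hk
      rcases rot51_step v (i + m) i (m + k) h0 hi (by omega) with ⟨h1, h2, h3⟩ | ⟨h1, h2, h3⟩
      · omega
      · have e2 : i + (m + k) - (i + m) = k := by omega
        rw [e2] at h2 h3
        rw [h2]
        have h4 : rot51 v (i + m) i (m + k + 1) = v (k + 1) := h3
        rw [h4]
    · apply Finset.sum_congr rfl
      intro k hk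
      have hk' := Finset.mem_range.1 hk
      rcases rot51_step v (i + m) i k h0 hi (by omega) with ⟨h1, h2, h3⟩ | ⟨h1, h2, h3⟩
      · rw [h2, h3]
      · omega
  rw [h2] at h1
  exact h1

end

end Pool.Agent.PEN
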