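import Pool.Agent.P4.X5h39
import Pool.Agent.P4.Iso51

/-! # Hyperbolic penny graphs: two adjacent angles of an equilateral pentagon add to at most `4 alpha`

Pentagon `a b p c q` (counterclockwise) with sides `d` and all diagonals at least `d`. -/

set_option autoImplicit false

namespace Pool.Agent.PEN

open Classical UpperHalfPlane

noncomputable section

/-! ### Triangles -/

lemma ori_rotA39 (a b c : Pt) : ori b c a = ori a b c := by unfold ori; ring

/-- third vertex `z` of the equilateral triangle `a z q` -/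
lemma exists_apexA39 {d : ℝ} (hd : 0 < d) {a q : ℍ} (h : dist a q = d) :
    ∃ z : ℍ, dist a z = d ∧ dist q z = d ∧ ang a z q = alpha d ∧ 0 < ori (kl a) (kl z) (kl q) := by
  have hal := alpha_lt hd
  have hal0 := alpha_pos hd
  have hpi := Real.pi_pos
  have naq : q ≠ a := (ne_of_dist39 hd h.ge).symm
  have hD := Dv_ne39 naq
  set e : ℂ := Complex.exp (((-(alpha d) : ℝ) : ℂ) * Complex.I) with he
  have hen : ‖e‖ = 1 := by rw [he, Complex.norm_exp_ofReal_mul_I]
  have hn : ‖Dv a q * e‖ < 1 := by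
    rw [norm_mul, hen, mul_one, norm_Dv51]
    exact tanh_half_lt_one51 a q
  obtain ⟨z, hz⟩ := Dv_surj51 a (Dv a q * e) hn
  have hdz : dist a z = d := by
    have h1 : Real.tanh (dist a z / 2) = Real.tanh (dist a q / 2) := by
      rw [← norm_Dv51, ← norm_Dv51, hz, norm_mul, hen, mul_one]
    have h2 : dist a z / 2 = dist a q / 2 := Real.tanh_injective h1
    linarith
  have haz : z ≠ a := (ne_of_dist39 hd hdz.ge).symm
  have hang : ang a z q = alpha d := by
    unfold ang
    rw [hz]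
    have h1 : Dv a q / (Dv a q * e) = Complex.exp (((alpha d : ℝ) : ℂ) * Complex.I) := by
      rw [he]
      have h2 : Complex.exp (((-(alpha d) : ℝ) : ℂ) * Complex.I) *
          Complex.exp (((alpha d : ℝ) : ℂ) * Complex.I) = 1 := by
        rw [← Complex.exp_add]
        push_cast
        rw [show -((alpha d : ℝ) : ℂ) * Complex.I + ((alpha d : ℝ) : ℂ) * Complex.I = 0 by ring,
          Complex.exp_zero]
      have h3 : Complex.exp (((-(alpha d) : ℝ) : ℂ) * Complex.I) ≠ 0 := Complex.exp_ne_zero _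
      rw [div_eq_iff (mul_ne_zero hD h3)]
      calc Dv a q = Dv a q * 1 := by ring
        _ = _ := by rw [← h2]; ring
    rw [h1, Complex.arg_exp_mul_I, toIocMod_eq_self]
    constructor <;> linarith
  refine ⟨z, hdz, ?_, hang, ori_of_ang39 (by rw [hang]; exact hal0) (by rw [hang]; linarith)⟩
  have h1 := cosh_law haz naq
  rw [hdz, h, hang] at h1
  have h2 : Real.cosh d = Real.cosh d * Real.cosh d - Real.sinh d * Real.sinh d *
    Real.cos (alpha d) := cos_alpha_law39 hd
  have h3 : Real.cosh (dist z q) = Real.cosh d := by rw [h1, ← h2]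
  rw [dist_comm q z]
  exact Real.cosh_injOn (Set.mem_Ici.2 dist_nonneg) (Set.mem_Ici.2 hd.le) h3

lemma ang_subA39 {v a b c : ℍ} (ha : a ≠ v) (hb : b ≠ v) (hc : c ≠ v)
    (h1 : -Real.pi < ang v a c - ang v b c) (h2 : ang v a c - ang v b c ≤ Real.pi) :
    ang v a b = ang v a c - ang v b c := by
  refine ang_eq_of_coe39 ?_ h1 h2
  rw [Real.Angle.coe_sub, ang_coe_add39 ha hb hc]
  abel

lemma ang_subB39 {v a b c : ℍ} (ha : a ≠ v) (hb : b ≠ v) (hc : c ≠ v)
    (h1 : -Real.pi < ang v a c - ang v a b) (h2 : ang v a c - ang v a b ≤ Real.pi) :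
    ang v b c = ang v a c - ang v a b := by
  refine ang_eq_of_coe39 ?_ h1 h2
  rw [Real.Angle.coe_sub, ang_coe_add39 ha hb hc]
  abel

lemma cos_ang_subB39 {v a b c : ℍ} (ha : a ≠ v) (hb : b ≠ v) (hc : c ≠ v) :
    Real.cos (ang v b c) = Real.cos (ang v a c - ang v a b) := by
  have h : ((ang v b c : ℝ) : Real.Angle) = ((ang v a c - ang v a b : ℝ) : Real.Angle) := by
    rw [Real.Angle.coe_sub, ang_coe_add39 ha hb hc]
    abel
  rw [← Real.Angle.cos_coe, h, Real.Angle.cos_coe]

lemma ang_selfA39 {v a : ℍ} (ha : a ≠ v) : ang v a a = 0 := by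
  unfold ang
  rw [div_self (Dv_ne39 ha), Complex.arg_one]

/-- apex at least `alpha` gives base at least `d` -/
lemma dist_geA39 {d : ℝ} (hd : 0 < d) {v x y : ℍ} (hx : dist v x = d) (hy : dist v y = d)
    (h : alpha d ≤ ang v x y) : d ≤ dist x y := by
  have nx : x ≠ v := (ne_of_dist39 hd hx.ge).symm
  have ny : y ≠ v := (ne_of_dist39 hd hy.ge).symm
  have h1 := cosh_law nx ny
  rw [hx, hy] at h1
  have h2 : Real.cosh d = Real.cosh d * Real.cosh d - Real.sinh d * Real.sinh d *
    Real.cos (alpha d) := cos_alpha_law39 hd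
  have hpi : ang v x y ≤ Real.pi := Complex.arg_le_pi _
  have h3 : Real.cos (ang v x y) ≤ Real.cos (alpha d) :=
    Real.cos_le_cos_of_nonneg_of_le_pi (alpha_nonneg39 d) hpi h
  have hs := Real.sinh_pos_iff.2 hd
  have h4 : Real.cosh d ≤ Real.cosh (dist x y) := by
    have := mul_le_mul_of_nonneg_left h3 (mul_pos hs hs).le
    linarith
  have h5 := Real.cosh_le_cosh.1 h4
  rwa [abs_of_pos hd, abs_of_nonneg dist_nonneg] at h5

private lemma isoA_cot39 {d D γ β : ℝ} (hd : 0 < d) (hD : 0 < D)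
    (hγ : Penny39.Cos D d d γ) (hβ : Penny39.Cos d d D β)
    (h0 : 0 ≤ γ) (h1 : γ ≤ Real.pi) (b0 : 0 ≤ β) (b1 : β ≤ Real.pi) :
    Real.cos (γ / 2) * Real.cos β = Real.cosh d * (Real.sin (γ / 2) * Real.sin β) := by
  have hc := Penny39.cosh_gt_one hd
  have g2 : Real.cosh D = Real.cosh d * Real.cosh d - Real.sinh d * Real.sinh d * Real.cos γ := hγ
  rw [Penny39.sinh_sq'] at g2
  have g3 := Penny39.base_sq hD hβ
  rw [g2] at g3
  have g4 : 0 < Real.cosh d ^ 2 - 1 := by nlinarith
  have h : Real.cos β ^ 2 * (Real.cosh d ^ 2 + 1 - (Real.cosh d ^ 2 - 1) * Real.cos γ) =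
      Real.cosh d ^ 2 * (1 - Real.cos γ) := by
    have g5 : (Real.cosh d ^ 2 - 1) * (Real.cos β ^ 2 * (Real.cosh d ^ 2 + 1 -
        (Real.cosh d ^ 2 - 1) * Real.cos γ)) = (Real.cosh d ^ 2 - 1) *
        (Real.cosh d ^ 2 * (1 - Real.cos γ)) := by
      linear_combination g3
    exact mul_left_cancel₀ g4.ne' g5
  have hb := Penny39.base_pos hd hD hβ
  have e : Real.cos γ = 2 * Real.cos (γ / 2) ^ 2 - 1 := by
    rw [← Real.cos_two_mul]; ring_nf
  have hs := Real.sin_sq_add_cos_sq (γ / 2)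
  have hs' := Real.sin_sq_add_cos_sq β
  have c1 : 0 ≤ Real.cos (γ / 2) :=
    Real.cos_nonneg_of_mem_Icc ⟨by linarith [Real.pi_pos], by linarith⟩
  have s1 : 0 ≤ Real.sin (γ / 2) :=
    Real.sin_nonneg_of_nonneg_of_le_pi (by linarith) (by linarith [Real.pi_pos])
  have s2 : 0 ≤ Real.sin β := Real.sin_nonneg_of_nonneg_of_le_pi b0 b1
  have h2 : (Real.cos (γ / 2) * Real.cos β) ^ 2 =
      (Real.cosh d * (Real.sin (γ / 2) * Real.sin β)) ^ 2 := by
    rw [e] at h
    have e1 : Real.sin (γ / 2) ^ 2 = 1 - Real.cos (γ / 2) ^ 2 := by linarith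
    have e2 : Real.sin β ^ 2 = 1 - Real.cos β ^ 2 := by linarith
    rw [mul_pow, mul_pow, mul_pow, e1, e2]
    linear_combination h / 2
  have h3 : 0 ≤ Real.cos (γ / 2) * Real.cos β := mul_nonneg c1 hb.le
  have h4 : 0 ≤ Real.cosh d * (Real.sin (γ / 2) * Real.sin β) :=
    mul_nonneg (by linarith) (mul_nonneg s1 s2)
  exact (pow_left_inj₀ h3 h4 two_ne_zero).1 h2

private lemma isoA_lt39 {d D β : ℝ} (hd : 0 < d) (hD : 0 < D)
    (hβ : Penny39.Cos d d D β) (b1 : β ≤ Real.pi) : β < Real.pi / 2 := by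
  have hb := Penny39.base_pos hd hD hβ
  by_contra hcon
  push Not at hcon
  have := Real.cos_nonpos_of_pi_div_two_le_of_le hcon (by linarith)
  linarith

/-- apex greater than `2 alpha`: base angle less than `alpha / 2` -/
lemma isoA_half39 {d D γ β : ℝ} (hd : 0 < d) (hD : 0 < D)
    (hγ : Penny39.Cos D d d γ) (hβ : Penny39.Cos d d D β)
    (h0 : 2 * alpha d < γ) (h1 : γ ≤ Real.pi) (b0 : 0 ≤ β) (b1 : β ≤ Real.pi) :
    β < alpha d / 2 := by
  have hal := alpha_lt hd
  have hal0 := alpha_pos hd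
  have hl := cos_alpha_law39 hd
  have hpi := Real.pi_pos
  have hc := Penny39.cosh_gt_one hd
  have e1 := isoA_cot39 hd hD hγ hβ (by linarith) h1 b0 b1
  have e2 := isoA_cot39 hd hd hl hl hal0.le (alpha_le_pi39 d) hal0.le (alpha_le_pi39 d)
  have hb := Penny39.base_pos hd hD hβ
  have hβ2 := isoA_lt39 hd hD hβ b1
  by_contra hcon
  push Not at hcon
  have a1 : Real.sin (alpha d / 2) ≤ Real.sin β :=
    Real.sin_le_sin_of_le_of_le_pi_div_two (by linarith) hβ2.le hcon
  have a2 : Real.cos β ≤ Real.cos (alpha d / 2) :=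
    Real.cos_le_cos_of_nonneg_of_le_pi (by linarith) b1 hcon
  have a3 : Real.sin (alpha d) < Real.sin (γ / 2) :=
    Real.sin_lt_sin_of_lt_of_le_pi_div_two (by linarith) (by linarith) (by linarith)
  have a4 : Real.cos (γ / 2) ≤ Real.cos (alpha d) :=
    Real.cos_le_cos_of_nonneg_of_le_pi (by linarith) (by linarith) (by linarith)
  have p1 : 0 < Real.sin (alpha d) := Real.sin_pos_of_pos_of_lt_pi hal0 (by linarith)
  have p2 : 0 < Real.sin (alpha d / 2) := Real.sin_pos_of_pos_of_lt_pi (by linarith) (by linarith)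
  have p3 : 0 < Real.cos (alpha d) := Real.cos_pos_of_mem_Ioo ⟨by linarith, by linarith⟩
  have q1 : Real.sin (alpha d) * Real.sin (alpha d / 2) < Real.sin (γ / 2) * Real.sin β :=
    mul_lt_mul a3 a1 p2 (by linarith)
  have q2 : Real.cos (γ / 2) * Real.cos β ≤ Real.cos (alpha d) * Real.cos (alpha d / 2) :=
    mul_le_mul a4 a2 hb.le p3.le
  have q3 := mul_lt_mul_of_pos_left q1 (show 0 < Real.cosh d by linarith)
  rw [← e1] at q3
  have q4 : Real.cosh d * (Real.sin (alpha d) * Real.sin (alpha d / 2)) =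
      Real.cos (alpha d) * Real.cos (alpha d / 2) := by linarith
  linarith

/-- apex at most `2 alpha`: base angle at least `alpha / 2` -/
lemma isoA_ge39 {d D γ β : ℝ} (hd : 0 < d) (hD : 0 < D)
    (hγ : Penny39.Cos D d d γ) (hβ : Penny39.Cos d d D β)
    (g0 : 0 ≤ γ) (h0 : γ ≤ 2 * alpha d) (b0 : 0 ≤ β) (b1 : β ≤ Real.pi) :
    alpha d / 2 ≤ β := by
  have hal := alpha_lt hd
  have hal0 := alpha_pos hd
  have hl := cos_alpha_law39 hd
  have hpi := Real.pi_pos
  have hc := Penny39.cosh_gt_one hd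
  have e1 := isoA_cot39 hd hD hγ hβ g0 (by linarith) b0 b1
  have e2 := isoA_cot39 hd hd hl hl hal0.le (alpha_le_pi39 d) hal0.le (alpha_le_pi39 d)
  by_contra hcon
  push Not at hcon
  have a1 : Real.sin β < Real.sin (alpha d / 2) :=
    Real.sin_lt_sin_of_lt_of_le_pi_div_two (by linarith) (by linarith) hcon
  have a2 : Real.cos (alpha d / 2) < Real.cos β :=
    Real.cos_lt_cos_of_nonneg_of_le_pi b0 (by linarith) hcon
  have a3 : Real.sin (γ / 2) ≤ Real.sin (alpha d) :=
    Real.sin_le_sin_of_le_of_le_pi_div_two (by linarith) (by linarith) (by linarith)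
  have a4 : Real.cos (alpha d) ≤ Real.cos (γ / 2) :=
    Real.cos_le_cos_of_nonneg_of_le_pi (by linarith) (by linarith) (by linarith)
  have p1 : 0 < Real.sin (alpha d) := Real.sin_pos_of_pos_of_lt_pi hal0 (by linarith)
  have p2 : 0 < Real.sin (alpha d / 2) := Real.sin_pos_of_pos_of_lt_pi (by linarith) (by linarith)
  have p3 : 0 < Real.cos (alpha d) := Real.cos_pos_of_mem_Ioo ⟨by linarith, by linarith⟩
  have p4 : 0 < Real.cos (alpha d / 2) := Real.cos_pos_of_mem_Ioo ⟨by linarith, by linarith⟩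
  have p5 : 0 ≤ Real.sin β := Real.sin_nonneg_of_nonneg_of_le_pi b0 b1
  have q1 : Real.sin (γ / 2) * Real.sin β ≤ Real.sin (alpha d) * Real.sin (alpha d / 2) :=
    mul_le_mul a3 a1.le p5 p1.le
  have q2 : Real.cos (alpha d) * Real.cos (alpha d / 2) < Real.cos (γ / 2) * Real.cos β :=
    mul_lt_mul' a4 a2 p4.le (by linarith)
  have q3 := mul_le_mul_of_nonneg_left q1 (show 0 ≤ Real.cosh d by linarith)
  rw [← e1] at q3
  have q4 : Real.cosh d * (Real.sin (alpha d) * Real.sin (alpha d / 2)) =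
      Real.cos (alpha d) * Real.cos (alpha d / 2) := by linarith
  linarith

/-- isosceles triangle with apex angle in `[alpha, 2 alpha]`: angle sum at most `3 alpha` -/
lemma isoA_sum39 {d D γ β : ℝ} (hd : 0 < d) (hD : d ≤ D)
    (hγ : Penny39.Cos D d d γ) (hβ : Penny39.Cos d d D β)
    (g0 : alpha d ≤ γ) (h0 : γ ≤ 2 * alpha d) (b0 : 0 ≤ β) (b1 : β ≤ Real.pi) :
    γ + 2 * β ≤ 3 * alpha d := by
  have hal := alpha_lt hd
  have hal0 := alpha_pos hd
  have hl := cos_alpha_law39 hd
  have hpi := Real.pi_pos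
  have hc := Penny39.cosh_gt_one hd
  have hD0 : 0 < D := by linarith
  have h1 := isoA_ge39 hd hD0 hγ hβ (by linarith) h0 b0 b1
  have h2 := Penny39.base_le hd hD (alpha_nonneg39 d) b1 hl hβ
  have e1 := isoA_cot39 hd hD0 hγ hβ (by linarith) (by linarith) b0 b1
  have e2 := isoA_cot39 hd hd hl hl hal0.le (alpha_le_pi39 d) hal0.le (alpha_le_pi39 d)
  have f1 : Real.cos (γ / 2 + β) * (Real.cosh d + 1) = (Real.cosh d - 1) * Real.cos (γ / 2 - β) := by
    rw [Real.cos_add, Real.cos_sub]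
    linear_combination 2 * e1
  have f2 : Real.cos (alpha d / 2 + alpha d) * (Real.cosh d + 1) =
      (Real.cosh d - 1) * Real.cos (alpha d / 2 - alpha d) := by
    rw [Real.cos_add, Real.cos_sub]
    linear_combination 2 * e2
  have f3 : Real.cos (alpha d / 2 - alpha d) = Real.cos (alpha d / 2) := by
    rw [show alpha d / 2 - alpha d = -(alpha d / 2) by ring, Real.cos_neg]
  have f4 : Real.cos (alpha d / 2) ≤ Real.cos (γ / 2 - β) := by
    rw [← Real.cos_abs (γ / 2 - β)]
    refine Real.cos_le_cos_of_nonneg_of_le_pi (abs_nonneg _) (by linarith) ?_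
    rw [abs_le]
    constructor <;> linarith
  rw [f3] at f2
  have f5 : Real.cos (alpha d / 2 + alpha d) ≤ Real.cos (γ / 2 + β) := by
    have h8 := mul_le_mul_of_nonneg_left f4 (show 0 ≤ Real.cosh d - 1 by linarith)
    rw [← f1, ← f2] at h8
    exact le_of_mul_le_mul_right h8 (by linarith)
  by_contra hcon
  push Not at hcon
  have := Real.cos_lt_cos_of_nonneg_of_le_pi (x := alpha d / 2 + alpha d) (y := γ / 2 + β)
    (by linarith) (by linarith) (by linarith)
  linarith

/-- the angle opposite to a side `d` between sides at least `d` is at most `alpha` -/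
private lemma oppA_cos39 {d x y t : ℝ} (hd : 0 < d) (hx : d ≤ x) (hxy : x ≤ y)
    (h : Real.cosh d = Real.cosh x * Real.cosh y - Real.sinh x * Real.sinh y * Real.cos t) :
    Real.cosh d / (Real.cosh d + 1) ≤ Real.cos t := by
  have hc := Penny39.cosh_gt_one hd
  have hx0 : 0 < x := by linarith
  have hy0 : 0 < y := by linarith
  have h1 : Real.cosh d ≤ Real.cosh x :=
    Real.cosh_le_cosh.2 (by rw [abs_of_pos hd, abs_of_pos hx0]; exact hx)
  have h2 : Real.cosh x ≤ Real.cosh y :=
    Real.cosh_le_cosh.2 (by rw [abs_of_pos hx0, abs_of_pos hy0]; exact hxy)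
  set C := Real.cosh d with hC
  set X := Real.cosh x with hX
  set Y := Real.cosh y with hY
  have hs : 0 < Real.sinh x * Real.sinh y := mul_pos (Real.sinh_pos_iff.2 hx0) (Real.sinh_pos_iff.2 hy0)
  have hs2 : (Real.sinh x * Real.sinh y) ^ 2 = (X ^ 2 - 1) * (Y ^ 2 - 1) := Penny39.sinh_sinh
  have h3 : X * (Y - 1) ≤ Real.sinh x * Real.sinh y * Real.cos t := by linarith
  have hXY : 0 < X * (Y - 1) := mul_pos (by linarith) (by linarith)
  have ht : 0 < Real.cos t := by
    by_contra hcon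
    push Not at hcon
    nlinarith
  have h4 : (X * (Y - 1)) ^ 2 ≤ (X ^ 2 - 1) * (Y ^ 2 - 1) * Real.cos t ^ 2 := by
    rw [← hs2, ← mul_pow]
    exact pow_le_pow_left₀ hXY.le h3 2
  -- divide by Y - 1
  have h5 : X ^ 2 * (Y - 1) ≤ (X ^ 2 - 1) * (Y + 1) * Real.cos t ^ 2 := by
    have : (Y - 1) * (X ^ 2 * (Y - 1)) ≤ (Y - 1) * ((X ^ 2 - 1) * (Y + 1) * Real.cos t ^ 2) := by
      linarith
    exact le_of_mul_le_mul_left this (by linarith)
  have h6 : X ^ 2 * ((X - 1) * (Y + 1)) ≤ (X + 1) * ((X ^ 2 - 1) * (Y + 1) * Real.cos t ^ 2) := by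
    have h7 : (X - 1) * (Y + 1) ≤ (X + 1) * (Y - 1) := by nlinarith
    have h8 := mul_le_mul_of_nonneg_left h7 (show 0 ≤ X ^ 2 by positivity)
    have h9 := mul_le_mul_of_nonneg_left h5 (show 0 ≤ X + 1 by linarith)
    nlinarith
  have h10 : X ^ 2 ≤ ((X + 1) * Real.cos t) ^ 2 := by
    have hp : 0 < (X - 1) * (Y + 1) := mul_pos (by linarith) (by linarith)
    have : (X - 1) * (Y + 1) * X ^ 2 ≤ (X - 1) * (Y + 1) * ((X + 1) * Real.cos t) ^ 2 := by
      linarith
    exact le_of_mul_le_mul_left this hp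
  have h11 : X ≤ (X + 1) * Real.cos t := by
    have hp : 0 ≤ (X + 1) * Real.cos t := mul_nonneg (by linarith) ht.le
    exact le_of_sq_le_sq h10 hp
  rw [div_le_iff₀ (by linarith)]
  have h12 : Real.cos t ≤ 1 := Real.cos_le_one t
  nlinarith

lemma oppA_le39 {d x y t : ℝ} (hd : 0 < d) (hx : d ≤ x) (hy : d ≤ y) (t1 : t ≤ Real.pi)
    (h : Real.cosh d = Real.cosh x * Real.cosh y - Real.sinh x * Real.sinh y * Real.cos t) :
    t ≤ alpha d := by
  have h1 : Real.cos (alpha d) ≤ Real.cos t := by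
    rw [cos_alpha hd]
    rcases le_total x y with h2 | h2
    · exact oppA_cos39 hd hx h2 h
    · exact oppA_cos39 hd hy h2 (by linarith)
  by_contra hcon
  push Not at hcon
  have := Real.cos_lt_cos_of_nonneg_of_le_pi (alpha_nonneg39 d) t1 hcon
  linarith


/-! ### The pentagon: the edge `a b` -/

/-- interior angle at `c` of the pentagon -/
lemma pentA_c39 {d : ℝ} {a b c p q : ℍ} (h : Pent39 d a b c p q) (hd : 0 < d) :
    (0 < ang c a b ∧ ang c a b ≤ alpha d) ∧
    ang c q b = ang c q a + ang c a b ∧ ang c a p = ang c a b + ang c b p ∧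
    ang c q p = ang c q a + ang c a b + ang c b p := by
  have hal := alpha_lt hd
  have hal0 := alpha_pos hd
  have hpi := Real.pi_pos
  have nac : a ≠ c := (ne_of_dist39 hd h.hca).symm
  have nbc : b ≠ c := ne_of_dist39 hd h.hbc
  have npc : p ≠ c := ne_of_dist39 hd h.hpc.ge
  have nqc : q ≠ c := (ne_of_dist39 hd h.hcq.ge).symm
  have e1 : Ear39 d c b p := ear39 hd h.o2 h.hbp h.hpc (by rw [dist_comm]; exact h.hbc)
  have e2 : Ear39 d a c q := ear39 hd h.o3 h.hcq h.hqa (by rw [dist_comm]; exact h.hca)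
  have o : 0 < ori (kl c) (kl a) (kl b) := by rw [ori_rot39]; exact h.o1
  obtain ⟨g0, g1⟩ := ang_pos o
  have g2 : ang c a b ≤ alpha d := by
    have := cosh_law nac nbc
    rw [h.hab, dist_comm c b] at this
    exact oppA_le39 hd h.hca h.hbc g1.le this
  have u0 := e1.u0
  have u1 := e1.u1
  have v0 := e2.v0
  have v1 := e2.v1
  have k1 : ang c q b = ang c q a + ang c a b := ang_add39 nqc nac nbc (by linarith) (by linarith)
  have k2 : ang c a p = ang c a b + ang c b p := ang_add39 nac nbc npc (by linarith) (by linarith)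
  refine ⟨⟨g0, g2⟩, k1, k2, ?_⟩
  rw [← k1]
  exact ang_add39 nqc nbc npc (by linarith) (by linarith)

private lemma pentA_aux39 {d : ℝ} {a b c p q : ℍ} (h : Pent39 d a b c p q) (hd : 0 < d)
    (hle : ang b p c + ang b c a ≤ ang a b c + ang a c q)
    (hgt : 4 * alpha d < (ang a b c + ang a c q) + (ang b p c + ang b c a)) : False := by
  have hal := alpha_lt hd
  have hal0 := alpha_pos hd
  have hpi := Real.pi_pos
  have nab : b ≠ a := (ne_of_dist39 hd h.hab.ge).symm
  have nac : c ≠ a := ne_of_dist39 hd h.hca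
  have nbc : c ≠ b := (ne_of_dist39 hd h.hbc).symm
  have nbp : p ≠ b := (ne_of_dist39 hd h.hbp.ge).symm
  have ncp : p ≠ c := ne_of_dist39 hd h.hpc.ge
  have ncq : q ≠ c := (ne_of_dist39 hd h.hcq.ge).symm
  have naq : q ≠ a := ne_of_dist39 hd h.hqa.ge
  have nap : p ≠ a := (ne_of_dist39 hd h.hap).symm
  have nbq : q ≠ b := (ne_of_dist39 hd h.hbq).symm
  have npq : q ≠ p := (ne_of_dist39 hd h.hpq).symm
  have e1 : Ear39 d c b p := ear39 hd h.o2 h.hbp h.hpc (by rw [dist_comm]; exact h.hbc)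
  have e2 : Ear39 d a c q := ear39 hd h.o3 h.hcq h.hqa (by rw [dist_comm]; exact h.hca)
  have s1 := ang_sum h.o1
  obtain ⟨⟨gc0, gc1⟩, kc1, kc2, kc3⟩ := pentA_c39 h hd
  obtain ⟨xa0, xa1⟩ := ang_pos h.o1
  have ob : 0 < ori (kl b) (kl c) (kl a) := by rw [ori_rotA39]; exact h.o1
  obtain ⟨xb0, xb1⟩ := ang_pos ob
  have ya0 := e2.u0
  have ya1 := e2.u1
  have yb0 := e1.v0
  have yb1 := e1.v1
  -- the third vertex of the equilateral triangle on `a q`
  obtain ⟨z, hz1, hz2, hz3, hz4⟩ := exists_apexA39 hd (show dist a q = d by rw [dist_comm]; exact h.hqa)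
  have nza : z ≠ a := (ne_of_dist39 hd hz1.ge).symm
  have nzq : z ≠ q := (ne_of_dist39 hd hz2.ge).symm
  have m1 : ang a c z = ang a c q - ang a z q := ang_subA39 nac nza naq
    (by rw [hz3]; linarith) (by rw [hz3]; linarith)
  rw [hz3] at m1
  have m2 : ang a b z = ang a b c + ang a c z := ang_add39 nab nac nza
    (by rw [m1]; linarith) (by rw [m1]; linarith)
  rw [m1] at m2
  set s := ang a b z with hs
  have s0 : alpha d < s := by linarith
  have sp : s < Real.pi := by linarith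
  have o3 : 0 < ori (kl a) (kl b) (kl z) := ori_of_ang39 (by linarith) sp
  have hbz : d ≤ dist b z := dist_geA39 hd h.hab hz1 s0.le
  have nzb : z ≠ b := (ne_of_dist39 hd hbz).symm
  have e3 : Ear39 d b z a := ear39 hd (by rw [ori_rotA39]; exact o3)
    (by rw [dist_comm]; exact hz1) h.hab hbz
  -- the angle at `b`
  have kb : ang b p a = ang b p c + ang b c a := ang_add39 nbp nbc nab.symm (by linarith) (by linarith)
  have opb : 0 < ori (kl b) (kl p) (kl a) := ori_of_ang39 (by rw [kb]; linarith) (by rw [kb]; linarith)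
  have opa : 0 < ori (kl p) (kl a) (kl b) := by rw [ori_rotA39]; exact opb
  have e4 : Ear39 d p a b := ear39 hd opa h.hab h.hbp (by rw [dist_comm]; exact h.hap)
  have b0 := e4.ge
  rw [kb] at b0
  have d0 := e3.u0
  have d1 := e3.u1
  have base : Penny39.Cos d d (dist b z) (ang b z a) := by
    have := cosh_law nzb nab.symm
    rw [dist_comm z a, hz1, dist_comm b a, h.hab] at this
    unfold Penny39.Cos
    linarith
  have key : 2 * ang b z a < ang b p c + ang b c a := by
    rcases le_or_gt s (2 * alpha d) with h5 | h5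
    · have := isoA_sum39 hd hbz e3.law base (by rw [← hs]; exact s0.le) (by rw [← hs]; exact h5)
        d0.le (by linarith)
      rw [← hs] at this
      linarith
    · have := isoA_half39 hd (by linarith) e3.law base (by rw [← hs]; exact h5)
        (by rw [← hs]; exact sp.le) d0.le (by linarith)
      linarith
  have kt : ang b p z = ang b p a - ang b z a := ang_subA39 nbp nzb nab.symm
    (by rw [kb]; linarith) (by rw [kb]; linarith)
  rw [kb] at kt
  -- `z` is far from `p`
  have hzp : Real.cosh d < Real.cosh (dist z p) := by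
    have l1 := cosh_law nbp nzb
    have l2 := cosh_law nzb nab.symm
    rw [h.hbp, kt, dist_comm p z] at l1
    rw [dist_comm z a, hz1, dist_comm b a, h.hab] at l2
    have hcos : Real.cos (ang b p c + ang b c a - ang b z a) < Real.cos (ang b z a) :=
      Real.cos_lt_cos_of_nonneg_of_le_pi d0.le (by linarith) (by linarith)
    have hsd : 0 < Real.sinh d := Real.sinh_pos_iff.2 hd
    have hsz : 0 < Real.sinh (dist b z) := Real.sinh_pos_iff.2 (by linarith)
    have := mul_lt_mul_of_pos_left hcos (mul_pos hsd hsz)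
    linarith
  have hzp' : d < dist z p := by
    have h5 := Real.cosh_lt_cosh.1 hzp
    rwa [abs_of_pos hd, abs_of_nonneg dist_nonneg] at h5
  have nzp : z ≠ p := ne_of_dist39 hd hzp'.le
  -- the angles at `q`
  have f0 := e2.ge
  have f1 := e2.ap1
  have oq : 0 < ori (kl q) (kl a) (kl z) := by rw [← ori_rotA39, ← ori_rotA39] at hz4; exact hz4
  have fz : ang q a z = alpha d := ang_contact hd h.hqa hz2 hz1 oq
  have oc : 0 < ori (kl c) (kl q) (kl p) := ori_of_ang39 (by rw [kc3]; linarith [e1.u0, e2.v0])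
    (by rw [kc3]; linarith [e1.u1, e2.v1])
  have oqp : 0 < ori (kl q) (kl p) (kl c) := by rw [ori_rotA39]; exact oc
  obtain ⟨w0, w1⟩ := ang_pos oqp
  have kp : ang q a p = ang q a c - ang q p c := ang_subA39 naq.symm npq.symm ncq.symm
    (by linarith) (by linarith)
  have kz : Real.cos (ang q z p) = Real.cos (ang q a p - ang q a z) :=
    cos_ang_subB39 naq.symm nzq npq.symm
  rw [kp, fz] at kz
  have cmp : Real.cos (ang q a c - ang q p c - alpha d) < Real.cos (ang q p c) := by
    have l1 := cosh_law nzq npq.symm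
    have l2 := cosh_law npq.symm ncq.symm
    rw [hz2, kz] at l1
    rw [h.hpc, dist_comm q c, h.hcq] at l2
    have hsd : 0 < Real.sinh d := Real.sinh_pos_iff.2 hd
    have hsq : 0 < Real.sinh (dist q p) := Real.sinh_pos_iff.2 (dist_pos.2 npq)
    by_contra hcon
    push Not at hcon
    have := mul_le_mul_of_nonneg_left hcon (mul_pos hsd hsq).le
    linarith
  have hw : 2 * ang q p c < ang q a c - alpha d := by
    by_contra hcon
    push Not at hcon
    have : Real.cos (ang q p c) ≤ Real.cos (ang q a c - ang q p c - alpha d) := by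
      rw [← Real.cos_abs (ang q a c - ang q p c - alpha d)]
      refine Real.cos_le_cos_of_nonneg_of_le_pi (abs_nonneg _) w1.le ?_
      rw [abs_le]
      constructor <;> linarith
    linarith
  have kz2 : ang q z p = ang q a p - ang q a z := ang_subB39 naq.symm nzq npq.symm
    (by rw [kp, fz]; linarith) (by rw [kp, fz]; linarith)
  rw [kp, fz] at kz2
  have oqzp : 0 < ori (kl q) (kl z) (kl p) := ori_of_ang39 (by rw [kz2]; linarith) (by rw [kz2]; linarith)
  -- the angles at `a`
  have μ0 := e4.v0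
  have μ1 := e4.v1
  have ka : ang a p z = ang a b z - ang a b p := ang_subB39 nab nap nza
    (by rw [← hs]; linarith) (by rw [← hs]; linarith)
  have oapz : 0 < ori (kl a) (kl p) (kl z) := ori_of_ang39 (by rw [ka, ← hs]; linarith)
    (by rw [ka, ← hs]; linarith)
  -- the angles at `z`
  have oz1 : 0 < ori (kl z) (kl a) (kl p) := by rw [← ori_rotA39]; exact oapz
  have oz2 : 0 < ori (kl z) (kl p) (kl q) := by rw [ori_rotA39]; exact oqzp
  have oz3 : 0 < ori (kl z) (kl q) (kl a) := by rw [ori_rotA39]; exact hz4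
  obtain ⟨X0, -⟩ := ang_pos oz1
  obtain ⟨Y0, Y1⟩ := ang_pos oz2
  have Z1 : ang z q a = alpha d := ang_contact hd (by rw [dist_comm]; exact hz2)
    (by rw [dist_comm]; exact hz1) h.hqa oz3
  have ozb : 0 < ori (kl z) (kl b) (kl p) := by
    have : 0 < ori (kl b) (kl p) (kl z) := ori_of_ang39 (by rw [kt]; linarith) (by rw [kt]; linarith)
    rw [← ori_rotA39]
    exact this
  obtain ⟨t0, t1⟩ := ang_pos ozb
  have t2 : ang z b p ≤ alpha d := by
    have := cosh_law nzb.symm nzp.symm
    rw [h.hbp, dist_comm z b] at this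
    exact oppA_le39 hd hbz hzp'.le t1.le this
  have v0 := e3.v0
  have v1 := e3.v1
  have kx : ang z a p = ang z a b + ang z b p := ang_add39 nza.symm nzb.symm nzp.symm
    (by linarith) (by linarith)
  have hsum : ((ang z a p + ang z p q + ang z q a : ℝ) : Real.Angle) = 0 := by
    rw [Real.Angle.coe_add, Real.Angle.coe_add, ← ang_coe_add39 nza.symm nzp.symm nzq.symm,
      ← ang_coe_add39 nza.symm nzq.symm nza.symm, ang_selfA39 nza.symm]
    rfl
  have hcos : Real.cos (ang z a p + ang z p q + ang z q a) = 1 := by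
    rw [← Real.Angle.cos_coe, hsum, Real.Angle.cos_zero]
  have h9 := (Real.cos_eq_one_iff_of_lt_of_lt (by linarith) (by linarith)).1 hcos
  linarith

private lemma Pent39.mirA {d : ℝ} {a b c p q : ℍ} (h : Pent39 d a b c p q) :
    Pent39 d (mir39 b) (mir39 a) (mir39 c) (mir39 q) (mir39 p) := by
  constructor
  · rw [ori_mir39]; exact h.o1
  · rw [ori_mir39]; exact h.o3
  · rw [ori_mir39]; exact h.o2
  · rw [dist_mir39, dist_comm]; exact h.hab
  · rw [dist_mir39, dist_comm]; exact h.hqa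
  · rw [dist_mir39, dist_comm]; exact h.hcq
  · rw [dist_mir39, dist_comm]; exact h.hpc
  · rw [dist_mir39, dist_comm]; exact h.hbp
  · rw [dist_mir39, dist_comm]; exact h.hca
  · rw [dist_mir39, dist_comm]; exact h.hbc
  · rw [dist_mir39]; exact h.hbq
  · rw [dist_mir39]; exact h.hap
  · rw [dist_mir39, dist_comm]; exact h.hpq

/-- the edge `a b` of the pentagon, with the angles of the triangulation -/
theorem pentA_ab39 {d : ℝ} {a b c p q : ℍ} (h : Pent39 d a b c p q) (hd : 0 < d) :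
    (ang a b c + ang a c q) + (ang b p c + ang b c a) ≤ 4 * alpha d := by
  by_contra hcon
  push Not at hcon
  have nab : b ≠ a := (ne_of_dist39 hd h.hab.ge).symm
  have nac : c ≠ a := ne_of_dist39 hd h.hca
  have nbc : c ≠ b := (ne_of_dist39 hd h.hbc).symm
  have nbp : p ≠ b := (ne_of_dist39 hd h.hbp.ge).symm
  have naq : q ≠ a := ne_of_dist39 hd h.hqa.ge
  rcases le_total (ang b p c + ang b c a) (ang a b c + ang a c q) with h1 | h1
  · exact pentA_aux39 h hd h1 hcon
  · have m1 : ang (mir39 b) (mir39 a) (mir39 c) = ang b c a := ang_mir39 nbc nab.symm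
    have m2 : ang (mir39 b) (mir39 c) (mir39 p) = ang b p c := ang_mir39 nbp nbc
    have m3 : ang (mir39 a) (mir39 q) (mir39 c) = ang a c q := ang_mir39 nac naq
    have m4 : ang (mir39 a) (mir39 c) (mir39 b) = ang a b c := ang_mir39 nab nac
    refine pentA_aux39 h.mirA hd ?_ ?_
    · rw [m1, m2, m3, m4]; linarith
    · rw [m1, m2, m3, m4]; linarith

/-- the angles at `a` and `b` -/
theorem pentA_angles39 {d : ℝ} {a b c p q : ℍ} (h : Pent39 d a b c p q) (hd : 0 < d) :
    ang a b q = ang a b c + ang a c q ∧ ang b p a = ang b p c + ang b c a ∧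
    alpha d ≤ ang a b q ∧ ang a b q ≤ 3 * alpha d ∧ alpha d ≤ ang b p a ∧
    ang b p a ≤ 3 * alpha d := by
  have hal := alpha_lt hd
  have hal0 := alpha_pos hd
  have hpi := Real.pi_pos
  have nab : b ≠ a := (ne_of_dist39 hd h.hab.ge).symm
  have nac : c ≠ a := ne_of_dist39 hd h.hca
  have nbc : c ≠ b := (ne_of_dist39 hd h.hbc).symm
  have nbp : p ≠ b := (ne_of_dist39 hd h.hbp.ge).symm
  have naq : q ≠ a := ne_of_dist39 hd h.hqa.ge
  have e1 : Ear39 d c b p := ear39 hd h.o2 h.hbp h.hpc (by rw [dist_comm]; exact h.hbc)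
  have e2 : Ear39 d a c q := ear39 hd h.o3 h.hcq h.hqa (by rw [dist_comm]; exact h.hca)
  obtain ⟨xa0, xa1⟩ := ang_pos h.o1
  have ob : 0 < ori (kl b) (kl c) (kl a) := by rw [ori_rotA39]; exact h.o1
  obtain ⟨xb0, xb1⟩ := ang_pos ob
  have ya0 := e2.u0
  have yb0 := e1.v0
  have hsum := pentA_ab39 h hd
  have hl := cos_alpha_law39 hd
  have hA : alpha d ≤ ang a b c + ang a c q := by
    rcases le_or_gt Real.pi (ang a b c + ang a c q) with h1 | h1
    · linarith
    · have k : ang a b q = ang a b c + ang a c q := ang_add39 nab nac naq (by linarith) h1.le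
      rw [← k]
      refine Penny39.apex_ge hd h.hbq (alpha_le_pi39 d) (by rw [k]; linarith) hl ?_
      have := cosh_law nab naq
      rw [h.hab, dist_comm a q, h.hqa] at this
      exact this
  have hB : alpha d ≤ ang b p c + ang b c a := by
    rcases le_or_gt Real.pi (ang b p c + ang b c a) with h1 | h1
    · linarith
    · have k : ang b p a = ang b p c + ang b c a := ang_add39 nbp nbc nab.symm (by linarith) h1.le
      rw [← k]
      refine Penny39.apex_ge hd h.hap (alpha_le_pi39 d) (by rw [k]; linarith) hl ?_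
      have := cosh_law nbp nab.symm
      rw [h.hbp, dist_comm b a, h.hab, dist_comm p a] at this
      exact this
  have k1 : ang a b q = ang a b c + ang a c q := ang_add39 nab nac naq (by linarith) (by linarith)
  have k2 : ang b p a = ang b p c + ang b c a :=
    ang_add39 nbp nbc nab.symm (by linarith) (by linarith)
  refine ⟨k1, k2, ?_, ?_, ?_, ?_⟩
  · rw [k1]; exact hA
  · rw [k1]; linarith
  · rw [k2]; exact hB
  · rw [k2]; linarith

/-- the pentagon seen from the next edge -/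
theorem Pent39.rotA {d : ℝ} {a b c p q : ℍ} (h : Pent39 d a b c p q) (hd : 0 < d) :
    Pent39 d b p q c a := by
  have hal := alpha_lt hd
  have hal0 := alpha_pos hd
  have hpi := Real.pi_pos
  have e1 : Ear39 d c b p := ear39 hd h.o2 h.hbp h.hpc (by rw [dist_comm]; exact h.hbc)
  have e2 : Ear39 d a c q := ear39 hd h.o3 h.hcq h.hqa (by rw [dist_comm]; exact h.hca)
  obtain ⟨⟨gc0, gc1⟩, kc1, kc2, kc3⟩ := pentA_c39 h hd
  obtain ⟨k1, k2, a1, a2, b1, b2⟩ := pentA_angles39 h hd
  have u0 := e1.u0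
  have u1 := e1.u1
  have v0 := e2.v0
  have v1 := e2.v1
  have oc : 0 < ori (kl c) (kl q) (kl p) := ori_of_ang39 (by rw [kc3]; linarith) (by rw [kc3]; linarith)
  have ocb : 0 < ori (kl c) (kl q) (kl b) := ori_of_ang39 (by rw [kc1]; linarith) (by rw [kc1]; linarith)
  have oa : 0 < ori (kl a) (kl b) (kl q) := ori_of_ang39 (by linarith) (by linarith)
  have ob : 0 < ori (kl b) (kl p) (kl a) := ori_of_ang39 (by linarith) (by linarith)
  have o2' : 0 < ori (kl b) (kl p) (kl c) := by rw [ori_rotA39]; exact h.o2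
  have obq : 0 < ori (kl b) (kl q) (kl a) := by rw [ori_rotA39]; exact oa
  have obc : 0 < ori (kl b) (kl c) (kl q) := by rw [← ori_rotA39]; exact ocb
  have ob1 : 0 < ori (kl b) (kl c) (kl a) := by rw [ori_rotA39]; exact h.o1
  refine ⟨?_, ?_, obq, h.hbp, h.hpc, h.hcq, h.hqa, h.hab, h.hpq, ?_, h.hbc, ?_, h.hca⟩
  · have id : ori (kl b) (kl p) (kl q) * ori (kl b) (kl c) (kl a) =
        ori (kl b) (kl p) (kl c) * ori (kl b) (kl q) (kl a) +
        ori (kl b) (kl p) (kl a) * ori (kl b) (kl c) (kl q) := by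
      unfold ori
      ring
    have h5 : 0 < ori (kl b) (kl p) (kl q) * ori (kl b) (kl c) (kl a) := by
      rw [id]
      exact add_pos (mul_pos o2' obq) (mul_pos ob obc)
    exact (mul_pos_iff_of_pos_right ob1).1 h5
  · rw [ori_rotA39]; exact oc
  · rw [dist_comm]; exact h.hbq
  · rw [dist_comm]; exact h.hap

/-- **Adjacent angles of an equilateral pentagon.** Side `d`, diagonals at least `d`, vertices
`a b p c q` counterclockwise: any two adjacent angles add to at most `4 alpha` -/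
theorem pent_adj39 {d : ℝ} {a b c p q : ℍ} (h : Pent39 d a b c p q) (hd : 0 < d) :
    ang a b q + ang b p a ≤ 4 * alpha d ∧ ang b p a + ang p c b ≤ 4 * alpha d ∧
    ang p c b + ang c q p ≤ 4 * alpha d ∧ ang c q p + ang q a c ≤ 4 * alpha d ∧
    ang q a c + ang a b q ≤ 4 * alpha d := by
  have key : ∀ {a b c p q : ℍ}, Pent39 d a b c p q → ang a b q + ang b p a ≤ 4 * alpha d := by
    intro a b c p q h
    obtain ⟨k1, k2, -⟩ := pentA_angles39 h hd
    rw [k1, k2]
    exact pentA_ab39 h hd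
  exact ⟨key h, key (h.rotA hd), key ((h.rotA hd).rotA hd), key (((h.rotA hd).rotA hd).rotA hd),
    key ((((h.rotA hd).rotA hd).rotA hd).rotA hd)⟩

/-- the angles of the pentagon in the triangulation, and their bounds -/
theorem pent_ang39 {d : ℝ} {a b c p q : ℍ} (h : Pent39 d a b c p q) (hd : 0 < d) :
    ang a b q = ang a b c + ang a c q ∧ ang b p a = ang b p c + ang b c a ∧
    ang c q p = ang c q a + ang c a b + ang c b p ∧
    (alpha d ≤ ang a b q ∧ ang a b q ≤ 3 * alpha d) ∧
    (alpha d ≤ ang b p a ∧ ang b p a ≤ 3 * alpha d) ∧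
    (alpha d ≤ ang p c b ∧ ang p c b ≤ 3 * alpha d) ∧
    (alpha d ≤ ang c q p ∧ ang c q p ≤ 3 * alpha d) ∧
    (alpha d ≤ ang q a c ∧ ang q a c ≤ 3 * alpha d) := by
  obtain ⟨k1, k2, a1, a2, b1, b2⟩ := pentA_angles39 h hd
  obtain ⟨-, -, -, -, c1, c2⟩ := pentA_angles39 (h.rotA hd) hd
  obtain ⟨-, -, -, -, d1, d2⟩ := pentA_angles39 ((h.rotA hd).rotA hd) hd
  obtain ⟨-, -, -, -, f1, f2⟩ := pentA_angles39 (((h.rotA hd).rotA hd).rotA hd) hd
  exact ⟨k1, k2, (pentA_c39 h hd).2.2.2, ⟨a1, a2⟩, ⟨b1, b2⟩, ⟨c1, c2⟩, ⟨d1, d2⟩, ⟨f1, f2⟩⟩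

end

end Pool.Agent.PEN
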