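import Pool.Agent.P4.Ar11

/-! # PENNY, version 6: the arithmetic at the exceptional diameters `d_4` and `d_5`

Inequality B with a loss `δ` per interior point (token rows), inequality D and the dichotomy
(`q = 6/7`). `τ = A / A3`, `J = |iI|`, `s` = number of sharp boundary darts. -/

set_option autoImplicit false

namespace Pool.Agent.PEN

noncomputable section

/-- the diameter `d_4` (`cos α = .52775...`), loss `1/8`, `n ≥ 98` -/
theorem arT4 (n b t J s : ℕ) (τ : ℝ) (hn : 98 ≤ n) (hb : 3 ≤ b)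
    (h1 : t + b + 2 ≤ 2 * n) (h2 : (t : ℝ) ≤ τ)
    (h3 : b ≤ 12 → τ ≤ 22.5)
    (h3a : 12 ≤ b → b ≤ 71 → τ ≤ 22.5 + (289.6 - 22.5) / 59 * ((b : ℝ) - 12))
    (h3z : 71 ≤ b → τ ≤ 289.6 + 4.905 * ((b : ℝ) - 71))
    (hB : (2 - 0.192 - 1 / 8) * ((n : ℝ) - b) ≤ 2 * J + 0.192 / 2 * (τ - t))
    (hD : 7 * n ≤ 4 * b + s + 3 * t + J)
    (hA : τ ≤ 4.32 * b ∨ τ ≤ 4.905 * b - 42 - 0.538 * s) :
    3 * t + b < 2 * Lb n + 2 + J := by
  by_contra hc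
  rw [not_lt] at hc
  obtain ⟨l1, l2, l3, l4⟩ := Lb_facts11 n (by omega)
  generalize Lb n = l at l1 l2 l3 l4 hc
  have hc' : (2 * l + 2 + J : ℝ) ≤ 3 * t + b := by exact_mod_cast hc
  have l4' : (50 * n : ℝ) ≤ 21 * l + 155 := by exact_mod_cast l4 (by omega)
  have h1' : (t + b + 2 : ℝ) ≤ 2 * n := by exact_mod_cast h1
  have hD' : (7 * n : ℝ) ≤ 4 * b + s + 3 * t + J := by exact_mod_cast hD
  have hn' : (98 : ℝ) ≤ n := by exact_mod_cast hn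
  have hb' : (3 : ℝ) ≤ b := by exact_mod_cast hb
  have ht' : (0 : ℝ) ≤ t := Nat.cast_nonneg t
  have hJ' : (0 : ℝ) ≤ J := Nat.cast_nonneg J
  have hs' : (0 : ℝ) ≤ s := Nat.cast_nonneg s
  rcases Nat.lt_or_ge b 12 with hb1 | hb1
  · have h4 := h3 hb1.le
    have hb1' : (b : ℝ) ≤ 12 := by exact_mod_cast hb1.le
    rcases hA with hA | hA <;> linarith
  have hb1' : (12 : ℝ) ≤ b := by exact_mod_cast hb1
  rcases Nat.lt_or_ge b 71 with hb2 | hb2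
  · have h4 := h3a hb1 hb2.le
    have hb2' : (b : ℝ) ≤ 71 := by exact_mod_cast hb2.le
    rcases hA with hA | hA <;> linarith
  · have h4 := h3z hb2
    have hb2' : (71 : ℝ) ≤ b := by exact_mod_cast hb2
    rcases hA with hA | hA <;> linarith

/-- the diameter `d_5` (`cos α = .52326...`), loss `1/12`, `n ≥ 98` -/
theorem arT5 (n b t J s : ℕ) (τ : ℝ) (hn : 98 ≤ n) (hb : 3 ≤ b)
    (h1 : t + b + 2 ≤ 2 * n) (h2 : (t : ℝ) ≤ τ)
    (h3 : b ≤ 12 → τ ≤ 23)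
    (h3a : 12 ≤ b → b ≤ 71 → τ ≤ 23 + (311 - 23) / 59 * ((b : ℝ) - 12))
    (h3z : 71 ≤ b → τ ≤ 311 + 5.36 * ((b : ℝ) - 71))
    (hB : (2 - 0.16 - 1 / 12) * ((n : ℝ) - b) ≤ 2 * J + 0.16 / 2 * (τ - t))
    (hD : 7 * n ≤ 4 * b + s + 3 * t + J)
    (hA : τ ≤ 4.75 * b ∨ τ ≤ 5.36 * b - 50 - 0.64 * s) :
    3 * t + b < 2 * Lb n + 2 + J := by
  by_contra hc
  rw [not_lt] at hc
  obtain ⟨l1, l2, l3, l4⟩ := Lb_facts11 n (by omega)
  generalize Lb n = l at l1 l2 l3 l4 hc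
  have hc' : (2 * l + 2 + J : ℝ) ≤ 3 * t + b := by exact_mod_cast hc
  have l4' : (50 * n : ℝ) ≤ 21 * l + 155 := by exact_mod_cast l4 (by omega)
  have h1' : (t + b + 2 : ℝ) ≤ 2 * n := by exact_mod_cast h1
  have hD' : (7 * n : ℝ) ≤ 4 * b + s + 3 * t + J := by exact_mod_cast hD
  have hn' : (98 : ℝ) ≤ n := by exact_mod_cast hn
  have hb' : (3 : ℝ) ≤ b := by exact_mod_cast hb
  have ht' : (0 : ℝ) ≤ t := Nat.cast_nonneg t
  have hJ' : (0 : ℝ) ≤ J := Nat.cast_nonneg J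
  have hs' : (0 : ℝ) ≤ s := Nat.cast_nonneg s
  rcases Nat.lt_or_ge b 12 with hb1 | hb1
  · have h4 := h3 hb1.le
    have hb1' : (b : ℝ) ≤ 12 := by exact_mod_cast hb1.le
    rcases hA with hA | hA <;> linarith
  have hb1' : (12 : ℝ) ≤ b := by exact_mod_cast hb1
  rcases Nat.lt_or_ge b 71 with hb2 | hb2
  · have h4 := h3a hb1 hb2.le
    have hb2' : (b : ℝ) ≤ 71 := by exact_mod_cast hb2.le
    rcases hA with hA | hA <;> linarith
  · have h4 := h3z hb2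
    have hb2' : (71 : ℝ) ≤ b := by exact_mod_cast hb2
    rcases hA with hA | hA <;> linarith

end

end Pool.Agent.PEN
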