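import Pool.Agent.P4.Y71k
import Pool.Agent.P4.Pn26

/-! # PENNY, version 5: the frame with the pentagon hypothesis discharged -/

set_option autoImplicit false

namespace Pool.Agent.PEN

open Classical UpperHalfPlane

noncomputable section

/-- all configurations with at most `N` points; the structure has bounded angles at hull points
and satisfies the pentagon bound -/
theorem all_gen4s {d : ℝ} (hd : 0 < d) (ha : 2 * Real.pi < 7 * alpha d) (L : ℕ → ℕ)
    (hL9 : 16 ≤ L 9) (hL : ∀ n, 9 ≤ n → L n + 2 ≤ L (n + 1)) (N : ℕ)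
    (hmain : ∀ G : Tg ℍ, G.Geo4 (alpha d) kap (Ust69 d) → DelG G d → HullT G →
      Sep d G.P → PentaG G (alpha d) → 10 ≤ G.P.card → G.P.card ≤ N →
      (G.D.filter (fun x => G.con x.1 x.2)).card ≤ 2 * L G.P.card)
    {P : Finset ℍ} (hP : Sep d P) (hn : 9 ≤ P.card) (hN : P.card ≤ N) :
    cd d P ≤ 2 * L P.card := by
  obtain ⟨L', hL'⟩ : ∃ L' : ℕ → ℕ, ∀ n, L' n = if n ≤ N then L n else L n + n * n :=
    ⟨_, fun _ => rfl⟩
  have key : cd d P ≤ 2 * L' P.card := by
    obtain ⟨m, hm⟩ := Nat.exists_eq_add_of_le hn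
    rw [hm]
    refine ind_gen71 hd L' 9 ?_ ?_ ?_ m P hm hP
    · intro n hn
      have h1 := hL n hn
      have h2 : n * n ≤ (n + 1) * (n + 1) := Nat.mul_le_mul (by omega) (by omega)
      rw [hL', hL']
      split_ifs <;> omega
    · intro Q hc hQ
      have := nine71 hd hQ hc
      rw [hL']
      split_ifs <;> omega
    · intro Q hc hQ hdeg
      rw [hL']
      by_cases h : Q.card ≤ N
      · rw [if_pos h]
        obtain ⟨G, hG, hGP, hcd, hDel, hH⟩ := exists_geo4h hd ha hQ
          (Finset.card_pos.mp (by omega)) hdeg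
        rw [hcd, ← hGP]
        have hSG : Sep d G.P := by
          rw [hGP]
          exact hQ
        exact hmain G hG hDel hH hSG (W4.hP26 hG hDel hSG) (by rw [hGP]; exact hc)
          (by rw [hGP]; exact h)
      · rw [if_neg h]
        have h1 : cd d Q ≤ Q.card * Q.card := by
          unfold cd
          rw [← Finset.card_product]
          exact Finset.card_filter_le _ _
        omega
  rw [hL', if_pos hN] at key
  exact key

/-- **Q1 for one diameter and at most `N` points**, from the structures -/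
theorem q1_of_main4s {e d : ℝ} (he : 0 < e) (ha : alpha e = 2 * Real.pi / 7) (hd : 0 < d) (N : ℕ)
    (hmain : d < e → ∀ G : Tg ℍ, G.Geo4 (alpha d) kap (Ust69 d) → DelG G d → HullT G →
      Sep d G.P → PentaG G (alpha d) → 10 ≤ G.P.card → G.P.card ≤ N →
      (G.D.filter (fun x => G.con x.1 x.2)).card ≤ 2 * Lb G.P.card)
    {n : ℕ} (hn : n ≤ N) : eD d n ≤ eD e n := by
  rcases Nat.lt_or_ge n 10 with h10 | h10
  · exact q1_above he ha hd (Or.inr (by omega))
  rcases le_or_gt e d with hed | hed
  · exact q1_above he ha hd (Or.inl hed)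
  · have ha2 : 2 * Real.pi < 7 * alpha d := by
      have := alpha_anti hd hed
      rw [ha] at this
      linarith
    obtain ⟨Q, hQc, hQs, hQ⟩ := strip_Lb he ha n (by omega)
    have h2 := le_eD he hQc hQs
    have h3 := two_numEdges he Q
    refine le_trans ?_ h2
    apply eD_le
    intro P hc hP
    have h1 : cd d P ≤ 2 * Lb P.card :=
      all_gen4s hd ha2 Lb (by rw [Lb_nine71]) Lb_step N
        (fun G hG hDel hH hS hp h1 h2 => hmain hed G hG hDel hH hS hp h1 h2) hP (by omega)
        (by omega)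
    have h4 := two_numEdges hd P
    rw [hc] at h1
    omega

/-- **Q1 for one diameter which is not a chain diameter**, from the numbers with B -/
theorem q1_of_numB26 {e d : ℝ} (he : 0 < e) (ha : alpha e = 2 * Real.pi / 7) (hd : 0 < d)
    (hE : ¬ Exc66 d)
    (hnum : d < e → ∀ (n b t I M : ℕ) (A : ℝ), 10 ≤ n →
      NumB (alpha d) (Ust69 d) n b t I M A → M ≤ 2 * Lb n) (n : ℕ) : eD d n ≤ eD e n := by
  refine q1_of_main4s he ha hd n (fun hed G hG hD _ _ hp h1 _ => ?_) le_rfl
  obtain ⟨t, I, A, h⟩ := numB hE hG hD hp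
  exact hnum hed _ _ _ _ _ _ h1 h

end

end Pool.Agent.PEN
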