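import Pool.Agent.P4.RhoW52
import Pool.Agent.P4.Q52
import Pool.Agent.P4.Ax11
import Pool.Agent.P4.Y71l
import Pool.Agent.P4.Pn26b

/-! # The token diameters `d₄`, `d₅`, `d₆`: numbers (`q = 7 / 8`) and assembly

Brackets, side conditions, constants and regular polygons in the form of `NumV52` (generated;
every number is checked by the kernel), and Q1 at `d₄`, `d₅`, `d₆` from the token rows. -/

set_option autoImplicit false

namespace Pool.Agent.PEN

open Classical UpperHalfPlane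

noncomputable section

theorem arcsin78_52 : 213079 / 100000 ≤ 2 * Real.arcsin (7 / 8) := by
  have hpi := Real.pi_gt_d6
  have hpi2 := Real.pi_lt_d6
  have h1 := cos_le8_52 (x := 5054 / 10000) (by norm_num) (by norm_num)
  have h2 : Real.sin (Real.pi / 2 - 5054 / 10000) ≤ 7 / 8 := by
    rw [Real.sin_pi_div_two_sub]
    refine h1.trans ?_
    norm_num
  have h3 := Real.arcsin_le_arcsin h2
  rw [Real.arcsin_sin (by linarith) (by linarith)] at h3
  linarith

/-! ### The distance `d₄` (`h = 0.5277507..`) -/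

/-- the brackets at d4 -/
theorem d4_br52 {d : ℝ} (hd : 0 < d) (h1 : 5277507 / 10000000 ≤ Real.cos (alpha d))
    (h2 : Real.cos (alpha d) ≤ 5277508 / 10000000) :
    (970543 / 10000000 ≤ A3 (alpha d) ∧ A3 (alpha d) ≤ 97055 / 1000000) ∧ (47564575 / 100000000 ≤ g51 d ∧ g51 d ≤ 47564666 / 100000000) ∧
    2 * Real.arcsin (7 / 8 * Real.tanh (d / 2)) ≤ 41525576 / 100000000 ∧
    (5264072 / 100000000 ≤ rho51 d (alpha d) ∧ rho51 d (alpha d) ≤ 5264452 / 100000000) := by
  have a1 : 970543 / 10000000 ≤ A3 (alpha d) := by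
    apply A3_ge_of52 (by norm_num) (by norm_num)
    refine (cos_third_ub52 (by norm_num) (by norm_num)).trans (le_trans ?_ h1)
    norm_num
  have a2 : A3 (alpha d) ≤ 97055 / 1000000 := by
    apply A3_le_of52 (by norm_num) (by norm_num)
    refine le_trans (h2.trans ?_) (cos_third_lb52 (by norm_num) (by norm_num))
    norm_num
  have b1 := tanh_ge52 (t1 := 23558735 / 100000000) hd h1 (by norm_num) (by norm_num)
  have b2 := tanh_le52 (t2 := 23558778 / 100000000) hd h2 (by norm_num) (by norm_num)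
  have g1 : 47564575 / 100000000 ≤ g51 d :=
    le_arcsin_of52 (by norm_num) (by norm_num) rfl (le_trans (by norm_num) b1)
  have g2 : g51 d ≤ 47564666 / 100000000 :=
    arcsin_le_of52 (by norm_num) (by norm_num) rfl (b2.trans (by norm_num))
  have u2 : 2 * Real.arcsin (7 / 8 * Real.tanh (d / 2)) ≤ 41525576 / 100000000 :=
    arcsin_le_of52 (by norm_num) (by norm_num) rfl
      ((mul_le_mul_of_nonneg_left b2 (by norm_num)).trans (by norm_num))
  have k1 : 4493244 / 10000000 ≤ kt51 (Real.tanh (d / 2)) (alpha d) :=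
    le_kt_of52 (t1 := 23558735 / 100000000) (s1 := 84939925 / 100000000) (T := 22851991 / 100000000) hd (by norm_num) h1 h2
      (by norm_num) (by norm_num) (by norm_num) (by norm_num) (by norm_num) (by norm_num)
      (by norm_num) (by norm_num) (by norm_num)
  have k2 : kt51 (Real.tanh (d / 2)) (alpha d) ≤ 44932539 / 100000000 :=
    kt_le_of52 (t2 := 23558778 / 100000000) (s2 := 84939932 / 100000000) (T := 22852042 / 100000000) hd (by norm_num) h1 h2
      (by norm_num) (by norm_num) (by norm_num) (by norm_num) (by norm_num) (by norm_num)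
      (by norm_num) (by norm_num) (by norm_num) (by norm_num)
  have r1 : rho51 d (alpha d) = 2 * (g51 d - kt51 (Real.tanh (d / 2)) (alpha d)) := rfl
  refine ⟨⟨a1, a2⟩, ⟨g1, g2⟩, u2, ?_, ?_⟩ <;> rw [r1] <;> linarith

/-- the side conditions at d4 -/
theorem d4_side52 {d : ℝ} (hd : 0 < d) (h1 : 5277507 / 10000000 ≤ Real.cos (alpha d))
    (h2 : Real.cos (alpha d) ≤ 5277508 / 10000000) : Side9 d (7 / 8) := by
  obtain ⟨⟨a1, a2⟩, ⟨g1, g2⟩, u2, r1, r2⟩ := d4_br52 hd h1 h2
  have h3 := arcsin78_52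
  exact ⟨by norm_num, by linarith, by linarith, by linarith⟩

/-- the constants at d4 -/
theorem d4_const52 {d : ℝ} (hd : 0 < d) (h1 : 5277507 / 10000000 ≤ Real.cos (alpha d))
    (h2 : Real.cos (alpha d) ≤ 5277508 / 10000000) :
    2 * Real.pi - 6 * alpha d ≤ 19128 / 100000 * alpha d ∧
    g51 d ≤ 49009 / 10000 * A3 (alpha d) ∧
    5423 / 10000 * A3 (alpha d) ≤ rho51 d (alpha d) ∧
    42824 / 1000 * A3 (alpha d) ≤ 4 * Real.arcsin (7 / 8) - 2 * rho51 d (alpha d) ∧
    2 * Real.arcsin (7 / 8 * Real.tanh (d / 2)) ≤ 42786 / 10000 * A3 (alpha d) := by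
  obtain ⟨⟨a1, a2⟩, ⟨g1, g2⟩, u2, r1, r2⟩ := d4_br52 hd h1 h2
  have h3 := arcsin78_52
  have h4 : Real.pi = 3 * alpha d + A3 (alpha d) := by unfold A3; ring
  have h5 := Real.pi_gt_d6
  refine ⟨?_, ?_, ?_, ?_, ?_⟩ <;> linarith

/-- the regular polygons at d4 -/
theorem d4_node52 {d : ℝ} (hd : 0 < d) (h1 : 5277507 / 10000000 ≤ Real.cos (alpha d))
    (h2 : Real.cos (alpha d) ≤ 5277508 / 10000000) :
    Ust69 d 12 ≤ 22269 / 1000 * A3 (alpha d) ∧
    Ust69 d 71 ≤ 28908 / 100 * A3 (alpha d) := by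
  obtain ⟨⟨a1, a2⟩, _⟩ := d4_br52 hd h1 h2
  have w12 : W69 12 (sx52 (970543 / 10000000)) ≤ 22269 / 1000 * (970543 / 10000000) :=
    W_le_of52 (S := 9718532302 / 10000000000) (by norm_num) (by norm_num) (by norm_num) (by norm_num) (by norm_num)
      (by norm_num) (by norm_num) rfl rfl (by norm_num) (by norm_num)
  have w71 : W69 71 (sx52 (970543 / 10000000)) ≤ 28908 / 100 * (970543 / 10000000) :=
    W_le_of52 (S := 9718532302 / 10000000000) (by norm_num) (by norm_num) (by norm_num) (by norm_num) (by norm_num)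
      (by norm_num) (by norm_num) rfl rfl (by norm_num) (by norm_num)
  exact ⟨Ust_tab52 hd (by norm_num) (by norm_num) (by norm_num) a1 w12,
    Ust_tab52 hd (by norm_num) (by norm_num) (by norm_num) a1 w71⟩

/-! ### The distance `d₅` (`h = 0.523259..`) -/

/-- the brackets at d5 -/
theorem d5_br52 {d : ℝ} (hd : 0 < d) (h1 : 523259 / 1000000 ≤ Real.cos (alpha d))
    (h2 : Real.cos (alpha d) ≤ 5232591 / 10000000) :
    (81216 / 1000000 ≤ A3 (alpha d) ∧ A3 (alpha d) ≤ 812166 / 10000000) ∧ (43477695 / 100000000 ≤ g51 d ∧ g51 d ≤ 43477796 / 100000000) ∧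
    2 * Real.arcsin (7 / 8 * Real.tanh (d / 2)) ≤ 37971854 / 100000000 ∧
    (5239824 / 100000000 ≤ rho51 d (alpha d) ∧ rho51 d (alpha d) ≤ 524024 / 10000000) := by
  have a1 : 81216 / 1000000 ≤ A3 (alpha d) := by
    apply A3_ge_of52 (by norm_num) (by norm_num)
    refine (cos_third_ub52 (by norm_num) (by norm_num)).trans (le_trans ?_ h1)
    norm_num
  have a2 : A3 (alpha d) ≤ 812166 / 10000000 := by
    apply A3_le_of52 (by norm_num) (by norm_num)
    refine le_trans (h2.trans ?_) (cos_third_lb52 (by norm_num) (by norm_num))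
    norm_num
  have b1 := tanh_ge52 (t1 := 21568031 / 100000000) hd h1 (by norm_num) (by norm_num)
  have b2 := tanh_le52 (t2 := 21568079 / 100000000) hd h2 (by norm_num) (by norm_num)
  have g1 : 43477695 / 100000000 ≤ g51 d :=
    le_arcsin_of52 (by norm_num) (by norm_num) rfl (le_trans (by norm_num) b1)
  have g2 : g51 d ≤ 43477796 / 100000000 :=
    arcsin_le_of52 (by norm_num) (by norm_num) rfl (b2.trans (by norm_num))
  have u2 : 2 * Real.arcsin (7 / 8 * Real.tanh (d / 2)) ≤ 37971854 / 100000000 :=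
    arcsin_le_of52 (by norm_num) (by norm_num) rfl
      ((mul_le_mul_of_nonneg_left b2 (by norm_num)).trans (by norm_num))
  have k1 : 40857676 / 100000000 ≤ kt51 (Real.tanh (d / 2)) (alpha d) :=
    le_kt_of52 (t1 := 21568031 / 100000000) (s1 := 85217364 / 100000000) (T := 20717855 / 100000000) hd (by norm_num) h1 h2
      (by norm_num) (by norm_num) (by norm_num) (by norm_num) (by norm_num) (by norm_num)
      (by norm_num) (by norm_num) (by norm_num)
  have k2 : kt51 (Real.tanh (d / 2)) (alpha d) ≤ 40857783 / 100000000 :=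
    kt_le_of52 (t2 := 21568079 / 100000000) (s2 := 85217371 / 100000000) (T := 2071791 / 10000000) hd (by norm_num) h1 h2
      (by norm_num) (by norm_num) (by norm_num) (by norm_num) (by norm_num) (by norm_num)
      (by norm_num) (by norm_num) (by norm_num) (by norm_num)
  have r1 : rho51 d (alpha d) = 2 * (g51 d - kt51 (Real.tanh (d / 2)) (alpha d)) := rfl
  refine ⟨⟨a1, a2⟩, ⟨g1, g2⟩, u2, ?_, ?_⟩ <;> rw [r1] <;> linarith

/-- the side conditions at d5 -/
theorem d5_side52 {d : ℝ} (hd : 0 < d) (h1 : 523259 / 1000000 ≤ Real.cos (alpha d))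
    (h2 : Real.cos (alpha d) ≤ 5232591 / 10000000) : Side9 d (7 / 8) := by
  obtain ⟨⟨a1, a2⟩, ⟨g1, g2⟩, u2, r1, r2⟩ := d5_br52 hd h1 h2
  have h3 := arcsin78_52
  exact ⟨by norm_num, by linarith, by linarith, by linarith⟩

/-- the constants at d5 -/
theorem d5_const52 {d : ℝ} (hd : 0 < d) (h1 : 523259 / 1000000 ≤ Real.cos (alpha d))
    (h2 : Real.cos (alpha d) ≤ 5232591 / 10000000) :
    2 * Real.pi - 6 * alpha d ≤ 15923 / 100000 * alpha d ∧
    g51 d ≤ 53534 / 10000 * A3 (alpha d) ∧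
    6451 / 10000 * A3 (alpha d) ≤ rho51 d (alpha d) ∧
    51181 / 1000 * A3 (alpha d) ≤ 4 * Real.arcsin (7 / 8) - 2 * rho51 d (alpha d) ∧
    2 * Real.arcsin (7 / 8 * Real.tanh (d / 2)) ≤ 46755 / 10000 * A3 (alpha d) := by
  obtain ⟨⟨a1, a2⟩, ⟨g1, g2⟩, u2, r1, r2⟩ := d5_br52 hd h1 h2
  have h3 := arcsin78_52
  have h4 : Real.pi = 3 * alpha d + A3 (alpha d) := by unfold A3; ring
  have h5 := Real.pi_gt_d6
  refine ⟨?_, ?_, ?_, ?_, ?_⟩ <;> linarith

/-- the regular polygons at d5 -/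
theorem d5_node52 {d : ℝ} (hd : 0 < d) (h1 : 523259 / 1000000 ≤ Real.cos (alpha d))
    (h2 : Real.cos (alpha d) ≤ 5232591 / 10000000) :
    Ust69 d 12 ≤ 22722 / 1000 * A3 (alpha d) ∧
    Ust69 d 71 ≤ 310396 / 1000 * A3 (alpha d) := by
  obtain ⟨⟨a1, a2⟩, _⟩ := d5_br52 hd h1 h2
  have w12 : W69 12 (sx52 (81216 / 1000000)) ≤ 22722 / 1000 * (81216 / 1000000) :=
    W_le_of52 (S := 9764640633 / 10000000000) (by norm_num) (by norm_num) (by norm_num) (by norm_num) (by norm_num)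
      (by norm_num) (by norm_num) rfl rfl (by norm_num) (by norm_num)
  have w71 : W69 71 (sx52 (81216 / 1000000)) ≤ 310396 / 1000 * (81216 / 1000000) :=
    W_le_of52 (S := 9764640633 / 10000000000) (by norm_num) (by norm_num) (by norm_num) (by norm_num) (by norm_num)
      (by norm_num) (by norm_num) rfl rfl (by norm_num) (by norm_num)
  exact ⟨Ust_tab52 hd (by norm_num) (by norm_num) (by norm_num) a1 w12,
    Ust_tab52 hd (by norm_num) (by norm_num) (by norm_num) a1 w71⟩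

/-! ### General units -/

/-- the inequalities of a configuration in units of the contact triangle, any `q` -/
theorem tauq52 {d q c0 K r c1 : ℝ} (hd : 0 < d)
    (hc0 : g51 d ≤ c0 * A3 (alpha d))
    (hr : r * A3 (alpha d) ≤ rho51 d (alpha d))
    (hK : K * A3 (alpha d) ≤ 4 * Real.arcsin q - 2 * rho51 d (alpha d))
    (hc1 : 2 * Real.arcsin (q * Real.tanh (d / 2)) ≤ c1 * A3 (alpha d))
    {n b s t I M : ℕ} {A : ℝ} (h : Num5 d q n b s t I M A) :
    (t : ℝ) ≤ A / A3 (alpha d) ∧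
    (A / A3 (alpha d) ≤ c1 * b ∨ A / A3 (alpha d) ≤ c0 * b - K - r * s) := by
  have hA := A3_pos69 hd
  have h1 := h.low
  have h3 := h.dis
  have hb0 : (0 : ℝ) ≤ b := Nat.cast_nonneg _
  have hs0 : (0 : ℝ) ≤ s := Nat.cast_nonneg _
  refine ⟨?_, ?_⟩
  · rw [le_div_iff₀ hA]
    linarith
  · rcases h3 with h3 | h3
    · left
      rw [div_le_iff₀ hA]
      have := mul_le_mul_of_nonneg_left hc1 hb0
      linarith
    · right
      rw [div_le_iff₀ hA]
      have k1 := mul_le_mul_of_nonneg_left hc0 hb0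
      have k2 := mul_le_mul_of_nonneg_left hr hs0
      linarith

/-- inequality G in units, any `q` -/
theorem tauG52 {d e : ℝ} (hd : 0 < d)
    (he : 2 * Real.pi - 6 * alpha d ≤ e * alpha d)
    {n b t I M : ℕ} {A : ℝ} (h : Num4 (alpha d) (Ust69 d) n b t I M A) (hnb : b ≤ n) :
    (1 - e) * ((n : ℝ) - b) ≤ (2 * I : ℕ) + e / 2 * (A / A3 (alpha d) - t) := by
  have hA := A3_pos69 hd
  have hal := alpha_pos hd
  have h1 := h.low
  have h2 := h.G
  have ht : (t : ℝ) ≤ A / A3 (alpha d) := by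
    rw [le_div_iff₀ hA]
    linarith
  have hnb' : (b : ℝ) ≤ n := by exact_mod_cast hnb
  have k0 : Real.pi = 3 * alpha d + A3 (alpha d) := by unfold A3; ring
  have k1 : alpha d * (1 - e) ≤ 7 * alpha d - 2 * Real.pi := by linarith
  have k2 := mul_le_mul_of_nonneg_right k1 (show (0 : ℝ) ≤ (n : ℝ) - b by linarith)
  have k3 : A3 (alpha d) ≤ alpha d * (e / 2) := by linarith
  have k4 := mul_le_mul_of_nonneg_right k3
    (show (0 : ℝ) ≤ A / A3 (alpha d) - t by linarith)
  have k5 : A3 (alpha d) * (A / A3 (alpha d) - t) = A - A3 (alpha d) * t := by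
    field_simp
  have k6 : alpha d * ((1 - e) * ((n : ℝ) - b)) ≤
      alpha d * ((2 * I : ℕ) + e / 2 * (A / A3 (alpha d) - t)) := by
    push_cast
    linarith
  exact le_of_mul_le_mul_left k6 hal

/-- a row `B` with a loss `l` per interior point, in units -/
theorem tauB52 {d e l : ℝ} (hd : 0 < d)
    (he : 2 * Real.pi - 6 * alpha d ≤ e * alpha d)
    {n b t I M : ℕ} {A : ℝ} (h : Num4 (alpha d) (Ust69 d) n b t I M A)
    (hB : (8 * alpha d - 2 * Real.pi - l * alpha d) * ((n : ℝ) - b) ≤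
      2 * alpha d * (2 * I) + (A - A3 (alpha d) * t)) (hnb : b ≤ n) :
    (2 - e - l) * ((n : ℝ) - b) ≤ 2 * (2 * I : ℕ) + e / 2 * (A / A3 (alpha d) - t) := by
  have hA := A3_pos69 hd
  have hal := alpha_pos hd
  have h1 := h.low
  have ht : (t : ℝ) ≤ A / A3 (alpha d) := by
    rw [le_div_iff₀ hA]
    linarith
  have hnb' : (b : ℝ) ≤ n := by exact_mod_cast hnb
  have k0 : Real.pi = 3 * alpha d + A3 (alpha d) := by unfold A3; ring
  have k1 : alpha d * (2 - e - l) ≤ 8 * alpha d - 2 * Real.pi - l * alpha d := by linarith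
  have k2 := mul_le_mul_of_nonneg_right k1 (show (0 : ℝ) ≤ (n : ℝ) - b by linarith)
  have k3 : A3 (alpha d) ≤ alpha d * (e / 2) := by linarith
  have k4 := mul_le_mul_of_nonneg_right k3
    (show (0 : ℝ) ≤ A / A3 (alpha d) - t by linarith)
  have k5 : A3 (alpha d) * (A / A3 (alpha d) - t) = A - A3 (alpha d) * t := by
    field_simp
  have k6 : alpha d * ((2 - e - l) * ((n : ℝ) - b)) ≤
      alpha d * (2 * (2 * I : ℕ) + e / 2 * (A / A3 (alpha d) - t)) := by
    push_cast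
    linarith
  exact le_of_mul_le_mul_left k6 hal

/-- a token row with a loss `l` per interior point, in the structure -/
def TokRow {V : Type} (G : Tg V) (al l : ℝ) : Prop :=
  (8 * al - 2 * Real.pi - l * al) * ((G.P.card : ℝ) - G.oJ.card) ≤
    2 * al * G.iI.card + (∑ x ∈ G.iD, G.ar x.1 x.2 / 3 - A3 al * (G.iD.card / 3))

theorem TokRow.num {V : Type} {G : Tg V} {al l : ℝ} (h : TokRow G al l) {t I : ℕ} {A : ℝ}
    (h1 : G.iD.card = 3 * t) (h2 : G.iI.card = 2 * I) (h3 : A = ∑ x ∈ G.iD, G.ar x.1 x.2 / 3) :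
    (8 * al - 2 * Real.pi - l * al) * ((G.P.card : ℝ) - G.oJ.card) ≤
      2 * al * (2 * I) + (A - A3 al * t) := by
  unfold TokRow at h
  have e1 : (G.iD.card : ℝ) / 3 = t := by
    rw [h1]
    push_cast
    ring
  have e2 : (G.iI.card : ℝ) = 2 * I := by
    rw [h2]
    push_cast
    ring
  rw [e1, e2, ← h3] at h
  exact h

/-- the numbers at `d₄` -/
theorem hnum_d4_52 {d : ℝ} (hd : 0 < d) (q1 : 5277507 / 10000000 ≤ Real.cos (alpha d))
    (q2 : Real.cos (alpha d) ≤ 5277508 / 10000000) (n b s t I M : ℕ) (A : ℝ)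
    (hn : 10 ≤ n) (h : Num5 d (7 / 8) n b s t I M A)
    (hB : (8 * alpha d - 2 * Real.pi - 1 / 8 * alpha d) * ((n : ℝ) - b) ≤
      2 * alpha d * (2 * I) + (A - A3 (alpha d) * t)) : M ≤ 2 * Lb n := by
  apply fin52 h.toNum4
  have e1 := h.E1
  rcases Nat.lt_or_ge n 98 with hn2 | hn2
  · exact G_num52 hd (cosh_le_of52 hd q2 (by norm_num)) hn (by omega) (by omega) h.low h.up h.G
  rcases Nat.lt_or_ge b 3 with hb | hb
  · exact small_b52 hd hb hn h.low h.up
  obtain ⟨k1, k2, k3, k4, k5⟩ := d4_const52 hd q1 q2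
  obtain ⟨w12, w71⟩ := d4_node52 hd q1 q2
  obtain ⟨f1, f3⟩ := tauq52 hd k2 k3 k4 k5 h
  have hs0 : (0 : ℝ) ≤ s := Nat.cast_nonneg _
  have hb0 : (3 : ℝ) ≤ b := by exact_mod_cast hb
  rcases Nat.lt_or_ge n b with hnb | hnb
  · have h5 := (Lb_facts11 n (by omega)).1
    omega
  have hnb' : (b : ℝ) ≤ n := by exact_mod_cast hnb
  have hB' := tauB52 (e := 192 / 1000) hd (by linarith [alpha_pos hd]) h.toNum4 hB hnb
  refine arT4 n b t (2 * I) s (A / A3 (alpha d)) hn2 hb (by omega) f1 ?_ ?_ ?_ ?_ ?_ ?_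
  · intro hb1
    have := mono52 hd w12 h.up hb1
    linarith
  · intro hb1 hb2
    have h5 := chord52 hd (by norm_num) (by norm_num) w12 w71 h.up hb1 hb2
    have hb1' : (12 : ℝ) ≤ b := by exact_mod_cast hb1
    have hb2' : (b : ℝ) ≤ 71 := by exact_mod_cast hb2
    push_cast at h5
    linarith
  · intro hb1
    have h5 := tail52 hd k2 (by norm_num) w71 h.up hb1
    have hb2 : (71 : ℝ) ≤ b := by exact_mod_cast hb1
    push_cast at h5
    linarith
  · norm_num at hB' ⊢
    linarith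
  · have := h.D
    omega
  · rcases f3 with f3 | f3
    · left; linarith
    · right; linarith

/-- the numbers at `d₅` -/
theorem hnum_d5_52 {d : ℝ} (hd : 0 < d) (q1 : 523259 / 1000000 ≤ Real.cos (alpha d))
    (q2 : Real.cos (alpha d) ≤ 5232591 / 10000000) (n b s t I M : ℕ) (A : ℝ)
    (hn : 10 ≤ n) (h : Num5 d (7 / 8) n b s t I M A)
    (hB : (8 * alpha d - 2 * Real.pi - 1 / 12 * alpha d) * ((n : ℝ) - b) ≤
      2 * alpha d * (2 * I) + (A - A3 (alpha d) * t)) : M ≤ 2 * Lb n := by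
  apply fin52 h.toNum4
  have e1 := h.E1
  rcases Nat.lt_or_ge n 98 with hn2 | hn2
  · exact G_num52 hd (cosh_le_of52 hd q2 (by norm_num)) hn (by omega) (by omega) h.low h.up h.G
  rcases Nat.lt_or_ge b 3 with hb | hb
  · exact small_b52 hd hb hn h.low h.up
  obtain ⟨k1, k2, k3, k4, k5⟩ := d5_const52 hd q1 q2
  obtain ⟨w12, w71⟩ := d5_node52 hd q1 q2
  obtain ⟨f1, f3⟩ := tauq52 hd k2 k3 k4 k5 h
  have hs0 : (0 : ℝ) ≤ s := Nat.cast_nonneg _
  have hb0 : (3 : ℝ) ≤ b := by exact_mod_cast hb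
  rcases Nat.lt_or_ge n b with hnb | hnb
  · have h5 := (Lb_facts11 n (by omega)).1
    omega
  have hnb' : (b : ℝ) ≤ n := by exact_mod_cast hnb
  have hB' := tauB52 (e := 16 / 100) hd (by linarith [alpha_pos hd]) h.toNum4 hB hnb
  refine arT5 n b t (2 * I) s (A / A3 (alpha d)) hn2 hb (by omega) f1 ?_ ?_ ?_ ?_ ?_ ?_
  · intro hb1
    have := mono52 hd w12 h.up hb1
    linarith
  · intro hb1 hb2
    have h5 := chord52 hd (by norm_num) (by norm_num) w12 w71 h.up hb1 hb2
    have hb1' : (12 : ℝ) ≤ b := by exact_mod_cast hb1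
    have hb2' : (b : ℝ) ≤ 71 := by exact_mod_cast hb2
    push_cast at h5
    linarith
  · intro hb1
    have h5 := tail52 hd k2 (by norm_num) w71 h.up hb1
    have hb2 : (71 : ℝ) ≤ b := by exact_mod_cast hb1
    push_cast at h5
    linarith
  · norm_num at hB' ⊢
    linarith
  · have := h.D
    omega
  · rcases f3 with f3 | f3
    · left; linarith
    · right; linarith

/-- **Q1 at `d₄`** from the token row with loss `1 / 8` -/
theorem q1_d4_of52 {e d : ℝ} (he : 0 < e) (ha : alpha e = 2 * Real.pi / 7) (hd : 0 < d)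
    (q1 : 5277507 / 10000000 ≤ Real.cos (alpha d))
    (q2 : Real.cos (alpha d) ≤ 5277508 / 10000000)
    (hrow : ∀ G : Tg ℍ, G.Geo4 (alpha d) kap (Ust69 d) → DelG G d → HullT G → Sep d G.P →
      PentaG G (alpha d) → TokRow G (alpha d) (1 / 8)) (n : ℕ) : eD d n ≤ eD e n := by
  refine q1_of_main4s he ha hd n (fun _ G hG hD hH hS hP h1 _ => ?_) le_rfl
  obtain ⟨s, t, I, A, h, hiD, hiI, hAs⟩ := num5 hG hD (d4_side52 hd q1 q2)
  exact hnum_d4_52 hd q1 q2 _ _ s t I _ A h1 h ((hrow G hG hD hH hS hP).num hiD hiI hAs)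

/-- **Q1 at `d₅`** from the token row with loss `1 / 12` -/
theorem q1_d5_of52 {e d : ℝ} (he : 0 < e) (ha : alpha e = 2 * Real.pi / 7) (hd : 0 < d)
    (q1 : 523259 / 1000000 ≤ Real.cos (alpha d))
    (q2 : Real.cos (alpha d) ≤ 5232591 / 10000000)
    (hrow : ∀ G : Tg ℍ, G.Geo4 (alpha d) kap (Ust69 d) → DelG G d → HullT G → Sep d G.P →
      PentaG G (alpha d) → TokRow G (alpha d) (1 / 12)) (n : ℕ) : eD d n ≤ eD e n := by
  refine q1_of_main4s he ha hd n (fun _ G hG hD hH hS hP h1 _ => ?_) le_rfl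
  obtain ⟨s, t, I, A, h, hiD, hiI, hAs⟩ := num5 hG hD (d5_side52 hd q1 q2)
  exact hnum_d5_52 hd q1 q2 _ _ s t I _ A h1 h ((hrow G hG hD hH hS hP).num hiD hiI hAs)

/-- **Q1 in the range of inequality B** from the row B (loss `0`), also at a chain diameter -/
theorem q1_B_of52 {e d : ℝ} (he : 0 < e) (ha : alpha e = 2 * Real.pi / 7) (hd : 0 < d)
    (h1 : 1077 / 1000 ≤ Real.cosh d) (h2 : Real.cosh d ≤ 611 / 500)
    (hrow : ∀ G : Tg ℍ, G.Geo4 (alpha d) kap (Ust69 d) → DelG G d → HullT G → Sep d G.P →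
      PentaG G (alpha d) → TokRow G (alpha d) 0) (n : ℕ) : eD d n ≤ eD e n := by
  refine q1_of_main4s he ha hd n (fun _ G hG hD hH hS hP hn _ => ?_) le_rfl
  obtain ⟨t, I, A, k1, k2, k3, k4⟩ := num4 G hG (Ust69_zero d) (Ust69_mono d) (Ust69_sup d)
  have h5 := (hrow G hG hD hH hS hP).num k2 k3 k4
  rw [zero_mul, sub_zero] at h5
  exact hnumB71 hd h1 h2 hn ⟨k1, h5⟩

end

end Pool.Agent.PEN
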