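import Pool.Agent.P4.NumT52

/-! # The chain diameter `d₇`: numbers (`q = 6 / 7`), arithmetic and assembly

At `d₇` the row B without loss, inequality D and the dichotomy are enough. -/

set_option autoImplicit false

namespace Pool.Agent.PEN

open Classical UpperHalfPlane

noncomputable section

/-! ### The distance `d₇` (`h = 0.5175725..`) -/

/-- the brackets at d7 -/
theorem d7_br52 {d : ℝ} (hd : 0 < d) (h1 : 5175725 / 10000000 ≤ Real.cos (alpha d))
    (h2 : Real.cos (alpha d) ≤ 5175726 / 10000000) :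
    (612378 / 10000000 ≤ A3 (alpha d) ∧ A3 (alpha d) ≤ 612385 / 10000000) ∧ (37717166 / 100000000 ≤ g51 d ∧ g51 d ≤ 37717279 / 100000000) ∧
    2 * Real.arcsin (6 / 7 * Real.tanh (d / 2)) ≤ 32277744 / 100000000 ∧
    (5110392 / 100000000 ≤ rho51 d (alpha d) ∧ rho51 d (alpha d) ≤ 5110858 / 100000000) := by
  have a1 : 612378 / 10000000 ≤ A3 (alpha d) := by
    apply A3_ge_of52 (by norm_num) (by norm_num)
    refine (cos_third_ub52 (by norm_num) (by norm_num)).trans (le_trans ?_ h1)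
    norm_num
  have a2 : A3 (alpha d) ≤ 612385 / 10000000 := by
    apply A3_le_of52 (by norm_num) (by norm_num)
    refine le_trans (h2.trans ?_) (cos_third_lb52 (by norm_num) (by norm_num))
    norm_num
  have b1 := tanh_ge52 (t1 := 18746999 / 100000000) hd h1 (by norm_num) (by norm_num)
  have b2 := tanh_le52 (t2 := 18747054 / 100000000) hd h2 (by norm_num) (by norm_num)
  have g1 : 37717166 / 100000000 ≤ g51 d :=
    le_arcsin_of52 (by norm_num) (by norm_num) rfl (le_trans (by norm_num) b1)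
  have g2 : g51 d ≤ 37717279 / 100000000 :=
    arcsin_le_of52 (by norm_num) (by norm_num) rfl (b2.trans (by norm_num))
  have u2 : 2 * Real.arcsin (6 / 7 * Real.tanh (d / 2)) ≤ 32277744 / 100000000 :=
    arcsin_le_of52 (by norm_num) (by norm_num) rfl
      ((mul_le_mul_of_nonneg_left b2 (by norm_num)).trans (by norm_num))
  have k1 : 3516185 / 10000000 ≤ kt51 (Real.tanh (d / 2)) (alpha d) :=
    le_kt_of52 (t1 := 18746999 / 100000000) (s1 := 85563929 / 100000000) (T := 17764329 / 100000000) hd (by norm_num) h1 h2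
      (by norm_num) (by norm_num) (by norm_num) (by norm_num) (by norm_num) (by norm_num)
      (by norm_num) (by norm_num) (by norm_num)
  have k2 : kt51 (Real.tanh (d / 2)) (alpha d) ≤ 3516197 / 10000000 :=
    kt_le_of52 (t2 := 18747054 / 100000000) (s2 := 85563936 / 100000000) (T := 1776439 / 10000000) hd (by norm_num) h1 h2
      (by norm_num) (by norm_num) (by norm_num) (by norm_num) (by norm_num) (by norm_num)
      (by norm_num) (by norm_num) (by norm_num) (by norm_num)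
  have r1 : rho51 d (alpha d) = 2 * (g51 d - kt51 (Real.tanh (d / 2)) (alpha d)) := rfl
  refine ⟨⟨a1, a2⟩, ⟨g1, g2⟩, u2, ?_, ?_⟩ <;> rw [r1] <;> linarith

/-- the side conditions at d7 -/
theorem d7_side52 {d : ℝ} (hd : 0 < d) (h1 : 5175725 / 10000000 ≤ Real.cos (alpha d))
    (h2 : Real.cos (alpha d) ≤ 5175726 / 10000000) : Side9 d (6 / 7) := by
  obtain ⟨⟨a1, a2⟩, ⟨g1, g2⟩, u2, r1, r2⟩ := d7_br52 hd h1 h2
  have h3 := arcsin67_52
  exact ⟨by norm_num, by linarith, by linarith, by linarith⟩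

/-- the constants at d7 -/
theorem d7_const52 {d : ℝ} (hd : 0 < d) (h1 : 5175725 / 10000000 ≤ Real.cos (alpha d))
    (h2 : Real.cos (alpha d) ≤ 5175726 / 10000000) :
    2 * Real.pi - 6 * alpha d ≤ 11929 / 100000 * alpha d ∧
    g51 d ≤ 61592 / 10000 * A3 (alpha d) ∧
    8345 / 10000 * A3 (alpha d) ≤ rho51 d (alpha d) ∧
    65588 / 1000 * A3 (alpha d) ≤ 4 * Real.arcsin (6 / 7) - 2 * rho51 d (alpha d) ∧
    2 * Real.arcsin (6 / 7 * Real.tanh (d / 2)) ≤ 52709 / 10000 * A3 (alpha d) := by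
  obtain ⟨⟨a1, a2⟩, ⟨g1, g2⟩, u2, r1, r2⟩ := d7_br52 hd h1 h2
  have h3 := arcsin67_52
  have h4 : Real.pi = 3 * alpha d + A3 (alpha d) := by unfold A3; ring
  have h5 := Real.pi_gt_d6
  refine ⟨?_, ?_, ?_, ?_, ?_⟩ <;> linarith

/-- the regular polygons at d7 -/
theorem d7_node52 {d : ℝ} (hd : 0 < d) (h1 : 5175725 / 10000000 ≤ Real.cos (alpha d))
    (h2 : Real.cos (alpha d) ≤ 5175726 / 10000000) :
    Ust69 d 12 ≤ 23352 / 1000 * A3 (alpha d) ∧
    Ust69 d 80 ≤ 400573 / 1000 * A3 (alpha d) := by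
  obtain ⟨⟨a1, a2⟩, _⟩ := d7_br52 hd h1 h2
  have w12 : W69 12 (sx52 (612378 / 10000000)) ≤ 23352 / 1000 * (612378 / 10000000) :=
    W_le_of52 (S := 9822703915 / 10000000000) (by norm_num) (by norm_num) (by norm_num) (by norm_num) (by norm_num)
      (by norm_num) (by norm_num) rfl rfl (by norm_num) (by norm_num)
  have w80 : W69 80 (sx52 (612378 / 10000000)) ≤ 400573 / 1000 * (612378 / 10000000) :=
    W_le_of52 (S := 9822703915 / 10000000000) (by norm_num) (by norm_num) (by norm_num) (by norm_num) (by norm_num)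
      (by norm_num) (by norm_num) rfl rfl (by norm_num) (by norm_num)
  exact ⟨Ust_tab52 hd (by norm_num) (by norm_num) (by norm_num) a1 w12,
    Ust_tab52 hd (by norm_num) (by norm_num) (by norm_num) a1 w80⟩

/-- the diameter `d_7` (`cos α = .51757...`), no loss, `n ≥ 98` -/
theorem arT7_52 (n b t J s : ℕ) (τ : ℝ) (hn : 98 ≤ n) (hb : 3 ≤ b)
    (h1 : t + b + 2 ≤ 2 * n) (h2 : (t : ℝ) ≤ τ)
    (h3 : b ≤ 12 → τ ≤ 23.36)
    (h3a : 12 ≤ b → b ≤ 80 → τ ≤ 23.36 + (400.6 - 23.36) / 68 * ((b : ℝ) - 12))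
    (h3z : 80 ≤ b → τ ≤ 400.6 + 6.16 * ((b : ℝ) - 80))
    (hB : (2 - 0.1193) * ((n : ℝ) - b) ≤ 2 * J + 0.1193 / 2 * (τ - t))
    (hD : 7 * n ≤ 4 * b + s + 3 * t + J)
    (hA : τ ≤ 5.272 * b ∨ τ ≤ 6.16 * b - 65.5 - 0.834 * s) :
    3 * t + b < 2 * Lb n + 2 + J := by
  by_contra hc
  rw [not_lt] at hc
  obtain ⟨l1, l2, l3, l4⟩ := Lb_facts11 n (by omega)
  generalize Lb n = l at l1 l2 l3 l4 hc
  have hc' : (2 * l + 2 + J : ℝ) ≤ 3 * t + b := by exact_mod_cast hc
  have l4' : (50 * n : ℝ) ≤ 21 * l + 155 := by exact_mod_cast l4 (by omega)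
  have h1' : (t + b + 2 : ℝ) ≤ 2 * n := by exact_mod_cast h1
  have hD' : (7 * n : ℝ) ≤ 4 * b + s + 3 * t + J := by exact_mod_cast hD
  have hn' : (98 : ℝ) ≤ n := by exact_mod_cast hn
  have hb' : (3 : ℝ) ≤ b := by exact_mod_cast hb
  have ht' : (0 : ℝ) ≤ t := Nat.cast_nonneg t
  have hJ' : (0 : ℝ) ≤ J := Nat.cast_nonneg J
  have hs' : (0 : ℝ) ≤ s := Nat.cast_nonneg s
  rcases Nat.lt_or_ge b 12 with hb1 | hb1
  · have h4 := h3 hb1.le
    have hb1' : (b : ℝ) ≤ 12 := by exact_mod_cast hb1.le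
    rcases hA with hA | hA <;> linarith
  have hb1' : (12 : ℝ) ≤ b := by exact_mod_cast hb1
  rcases Nat.lt_or_ge b 80 with hb2 | hb2
  · have h4 := h3a hb1 hb2.le
    have hb2' : (b : ℝ) ≤ 80 := by exact_mod_cast hb2.le
    rcases hA with hA | hA <;> linarith
  · have h4 := h3z hb2
    have hb2' : (80 : ℝ) ≤ b := by exact_mod_cast hb2
    rcases hA with hA | hA <;> linarith

/-- the numbers at `d₇` -/
theorem hnum_d7_52 {d : ℝ} (hd : 0 < d) (q1 : 5175725 / 10000000 ≤ Real.cos (alpha d))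
    (q2 : Real.cos (alpha d) ≤ 5175726 / 10000000) (n b s t I M : ℕ) (A : ℝ)
    (hn : 10 ≤ n) (h : Num5 d (6 / 7) n b s t I M A)
    (hB : (8 * alpha d - 2 * Real.pi - 0 * alpha d) * ((n : ℝ) - b) ≤
      2 * alpha d * (2 * I) + (A - A3 (alpha d) * t)) : M ≤ 2 * Lb n := by
  apply fin52 h.toNum4
  have e1 := h.E1
  rcases Nat.lt_or_ge n 98 with hn2 | hn2
  · exact G_num52 hd (cosh_le_of52 hd q2 (by norm_num)) hn (by omega) (by omega) h.low h.up h.G
  rcases Nat.lt_or_ge b 3 with hb | hb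
  · exact small_b52 hd hb hn h.low h.up
  obtain ⟨k1, k2, k3, k4, k5⟩ := d7_const52 hd (by norm_num at q1 ⊢; exact q1)
    (by norm_num at q2 ⊢; exact q2)
  obtain ⟨w12, w80⟩ := d7_node52 hd (by norm_num at q1 ⊢; exact q1) (by norm_num at q2 ⊢; exact q2)
  obtain ⟨f1, f3⟩ := tauq52 hd k2 k3 k4 k5 h
  have hs0 : (0 : ℝ) ≤ s := Nat.cast_nonneg _
  have hb0 : (3 : ℝ) ≤ b := by exact_mod_cast hb
  rcases Nat.lt_or_ge n b with hnb | hnb
  · have h5 := (Lb_facts11 n (by omega)).1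
    omega
  have hnb' : (b : ℝ) ≤ n := by exact_mod_cast hnb
  have hB' := tauB52 (e := 1193 / 10000) hd (by linarith [alpha_pos hd]) h.toNum4 hB hnb
  refine arT7_52 n b t (2 * I) s (A / A3 (alpha d)) hn2 hb (by omega) f1 ?_ ?_ ?_ ?_ ?_ ?_
  · intro hb1
    have := mono52 hd w12 h.up hb1
    linarith
  · intro hb1 hb2
    have h5 := chord52 hd (by norm_num) (by norm_num) w12 w80 h.up hb1 hb2
    have hb1' : (12 : ℝ) ≤ b := by exact_mod_cast hb1
    have hb2' : (b : ℝ) ≤ 80 := by exact_mod_cast hb2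
    push_cast at h5
    linarith
  · intro hb1
    have h5 := tail52 hd k2 (by norm_num) w80 h.up hb1
    have hb2 : (80 : ℝ) ≤ b := by exact_mod_cast hb1
    push_cast at h5
    linarith
  · norm_num at hB' ⊢
    linarith
  · have := h.D
    omega
  · rcases f3 with f3 | f3
    · left; linarith
    · right; linarith

/-- **Q1 at `d₇`** from the row B without loss -/
theorem q1_d7_of52 {e d : ℝ} (he : 0 < e) (ha : alpha e = 2 * Real.pi / 7) (hd : 0 < d)
    (q1 : 5175725 / 10000000 ≤ Real.cos (alpha d))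
    (q2 : Real.cos (alpha d) ≤ 5175726 / 10000000)
    (hrow : ∀ G : Tg ℍ, G.Geo4 (alpha d) kap (Ust69 d) → DelG G d → HullT G → Sep d G.P →
      PentaG G (alpha d) → TokRow G (alpha d) 0) (n : ℕ) : eD d n ≤ eD e n := by
  refine q1_of_main4s he ha hd n (fun _ G hG hD hH hS hP h1 _ => ?_) le_rfl
  obtain ⟨s, t, I, A, h, hiD, hiI, hAs⟩ := num5 hG hD
    (d7_side52 hd (by norm_num at q1 ⊢; exact q1) (by norm_num at q2 ⊢; exact q2))
  exact hnum_d7_52 hd q1 q2 _ _ s t I _ A h1 h ((hrow G hG hD hH hS hP).num hiD hiI hAs)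

end

end Pool.Agent.PEN
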