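import Pool.Agent.P4.RfD51

/-! # PENNY, inequality (E): the sum of two neighbouring angles of a rhombus -/

set_option autoImplicit false

namespace Pool.Agent.PEN

open Classical UpperHalfPlane

noncomputable section

/-- `t + opp t` decreases up to the square -/
theorem opp_sum62 {d a t : ℝ} (hd : 0 < d) (ha : 0 < a) (hat : a ≤ t) (ht : t < Real.pi)
    (hb : a ≤ opp51 d t) : t + opp51 d t ≤ a + opp51 d a := by
  have hpi := Real.pi_pos
  have hC : 1 < Real.cosh d := by
    rw [Real.one_lt_cosh]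
    exact hd.ne'
  obtain ⟨C, hCe⟩ : ∃ C, C = Real.cosh d := ⟨_, rfl⟩
  unfold opp51 at hb ⊢
  rw [← hCe] at hC hb ⊢
  obtain ⟨P, hP⟩ : ∃ P, P = Real.tan (t / 2) := ⟨_, rfl⟩
  obtain ⟨A, hA⟩ : ∃ A, A = Real.tan (a / 2) := ⟨_, rfl⟩
  rw [← hP] at hb ⊢
  rw [← hA]
  have hP0 : 0 < P := by
    rw [hP]
    exact Real.tan_pos_of_pos_of_lt_pi_div_two (by linarith) (by linarith)
  have hA0 : 0 < A := by
    rw [hA]
    exact Real.tan_pos_of_pos_of_lt_pi_div_two (by linarith) (by linarith)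
  have hC0 : 0 < C := by linarith
  have e1 : t / 2 = Real.arctan P := by
    rw [hP, Real.arctan_tan (by linarith) (by linarith)]
  have e2 : a / 2 = Real.arctan A := by
    rw [hA, Real.arctan_tan (by linarith) (by linarith)]
  have hAP : A ≤ P := by
    have h : Real.arctan A ≤ Real.arctan P := by
      rw [← e1, ← e2]
      linarith
    exact Real.arctan_le_arctan_iff.1 h
  have hAQ : A ≤ 1 / (C * P) := by
    have h : Real.arctan A ≤ Real.arctan (1 / (C * P)) := by
      rw [← e2]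
      linarith
    exact Real.arctan_le_arctan_iff.1 h
  have hiC : 1 / C < 1 := by
    rw [div_lt_one hC0]
    exact hC
  have p1 : P * (1 / (C * P)) = 1 / C := by
    field_simp
  have p2 : A * (1 / (C * A)) = 1 / C := by
    field_simp
  have s1 : Real.arctan P + Real.arctan (1 / (C * P)) =
      Real.arctan ((P + 1 / (C * P)) / (1 - 1 / C)) := by
    rw [Real.arctan_add (by rw [p1]; exact hiC), p1]
  have s2 : Real.arctan A + Real.arctan (1 / (C * A)) =
      Real.arctan ((A + 1 / (C * A)) / (1 - 1 / C)) := by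
    rw [Real.arctan_add (by rw [p2]; exact hiC), p2]
  have key : P + 1 / (C * P) ≤ A + 1 / (C * A) := by
    obtain ⟨Q, hQ⟩ : ∃ Q, Q = 1 / (C * P) := ⟨_, rfl⟩
    obtain ⟨B, hB⟩ : ∃ B, B = 1 / (C * A) := ⟨_, rfl⟩
    rw [← hQ] at hAQ p1 ⊢
    rw [← hB] at p2 ⊢
    have h1 : 0 ≤ (P - A) * (Q - A) := mul_nonneg (by linarith) (by linarith)
    have h2 : A * (P + Q) ≤ A * (A + B) := by nlinarith
    exact le_of_mul_le_mul_left h2 hA0
  have h3 : Real.arctan P + Real.arctan (1 / (C * P)) ≤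
      Real.arctan A + Real.arctan (1 / (C * A)) := by
    rw [s1, s2, Real.arctan_le_arctan_iff]
    exact div_le_div_of_nonneg_right key (by linarith)
  linarith

/-- hypothesis `hs` of `E62` with `s1 = a + opp a`, `a = 2π - 5 al` -/
theorem E_hs62 {V : Type} (G : Tg V) {al d : ℝ} (hd : 0 < d) (h1 : 5 * al < 2 * Real.pi)
    (h2 : 2 * al < Real.pi) (hR : Rf G al (opp51 d)) :
    ∀ x ∈ iJ G, RC G (G.cl x) → 2 * Real.pi - 5 * al ≤ TH G x →
      2 * Real.pi - 5 * al ≤ TH G (sg G x) →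
      TH G x + TH G (sg G x) ≤ (2 * Real.pi - 5 * al) + opp51 d (2 * Real.pi - 5 * al) := by
  intro x hx hC ha hb
  rw [hR.opp x hx hC] at hb ⊢
  exact opp_sum62 hd (by linarith) ha (by linarith [(hR.low x hx hC).2]) hb

end

end Pool.Agent.PEN
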