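import Pool.Agent.P4.Q52
import Pool.Agent.P4.W4E52
import Pool.Agent.P4.Pn26b

/-! # Q1 at the special diameter `d₃` -/

set_option autoImplicit false

namespace Pool.Agent.PEN

open Classical UpperHalfPlane

noncomputable section

/-- upper bound of the neighbouring angle -/
theorem opp_le52 {d t g1 C1 T1 b : ℝ} (hg0 : 0 < g1) (hg : g1 ≤ t) (ht : t < Real.pi)
    (hC0 : 0 < C1) (hC : C1 ≤ Real.cosh d) (hT0 : 0 < T1) (hg2 : g1 ≤ 2)
    (hT : T1 * (1 - (g1 / 2) ^ 2 / 2 + (g1 / 2) ^ 4 / 24 - (g1 / 2) ^ 6 / 720 +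
      (g1 / 2) ^ 8 / 40320) ≤ g1 / 2 - (g1 / 2) ^ 3 / 6 + (g1 / 2) ^ 5 / 120 - (g1 / 2) ^ 7 / 5040)
    (hb0 : 0 ≤ b) (hb1 : b ≤ 2)
    (hb : 1 / (C1 * T1) * (1 - (b / 2) ^ 2 / 2 + (b / 2) ^ 4 / 24 - (b / 2) ^ 6 / 720 +
      (b / 2) ^ 8 / 40320) ≤ b / 2 - (b / 2) ^ 3 / 6 + (b / 2) ^ 5 / 120 - (b / 2) ^ 7 / 5040) :
    opp51 d t ≤ b := by
  have hpi := Real.pi_gt_three
  have c3 : 0 < Real.cos (g1 / 2) := Real.cos_pos_of_mem_Ioo ⟨by linarith, by linarith⟩
  have c1 := cos_le8_52 (x := g1 / 2) (by linarith) (by linarith)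
  have c2 := sin_ge7_52 (x := g1 / 2) (by linarith) (by linarith)
  have e1 : T1 ≤ Real.tan (g1 / 2) := by
    rw [Real.tan_eq_sin_div_cos, le_div_iff₀ c3]
    have := mul_le_mul_of_nonneg_left c1 hT0.le
    linarith
  have e2 : Real.tan (g1 / 2) ≤ Real.tan (t / 2) := by
    rcases hg.eq_or_lt with h | h
    · rw [h]
    · exact (Real.tan_lt_tan_of_lt_of_lt_pi_div_two (by linarith) (by linarith) (by linarith)).le
  have e3 : 1 / (Real.cosh d * Real.tan (t / 2)) ≤ 1 / (C1 * T1) := by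
    apply one_div_le_one_div_of_le (by positivity)
    exact mul_le_mul hC (e1.trans e2) hT0.le (hC0.le.trans hC)
  have d3 : 0 < Real.cos (b / 2) := Real.cos_pos_of_mem_Ioo ⟨by linarith, by linarith⟩
  have d1 := cos_le8_52 (x := b / 2) (by linarith) (by linarith)
  have d2 := sin_ge7_52 (x := b / 2) (by linarith) (by linarith)
  have hq : 0 ≤ 1 / (C1 * T1) := by positivity
  have e4 : 1 / (C1 * T1) ≤ Real.tan (b / 2) := by
    rw [Real.tan_eq_sin_div_cos, le_div_iff₀ d3]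
    have := mul_le_mul_of_nonneg_left d1 hq
    linarith
  have e5 := Real.arctan_strictMono.monotone (e3.trans e4)
  rw [Real.arctan_tan (by linarith) (by linarith)] at e5
  unfold opp51
  linarith

theorem cosh_ge_of52 {d h1 : ℝ} (hd : 0 < d) (hh : h1 ≤ Real.cos (alpha d)) (h1' : h1 < 1) :
    h1 / (1 - h1) ≤ Real.cosh d := by
  have hc := Real.cosh_pos d
  rw [cos_alpha hd, le_div_iff₀ (by linarith)] at hh
  rw [div_le_iff₀ (by linarith)]
  nlinarith

/-- the excess area of a rhombus with two corners at least `2π - 5α`, at `d₃` -/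
theorem kappa_d3_52 {d : ℝ} (hd : 0 < d) (h1 : 534396 / 1000000 ≤ Real.cos (alpha d))
    (h2 : Real.cos (alpha d) ≤ 5343961 / 10000000) :
    2 * Real.pi - 5 * alpha d + opp51 d (2 * Real.pi - 5 * alpha d) ≤ 3 * alpha d ∧
    2085 / 10000 * A3 (alpha d) ≤ 6 * alpha d -
      2 * (2 * Real.pi - 5 * alpha d + opp51 d (2 * Real.pi - 5 * alpha d)) := by
  obtain ⟨⟨a1, a2⟩, _⟩ := d3_br52 hd h1 h2
  have hp := Real.pi_gt_d6
  have hp' := Real.pi_lt_d6
  have hA : Real.pi = 3 * alpha d + A3 (alpha d) := by unfold A3; ring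
  have hC := cosh_ge_of52 hd h1 (by norm_num)
  have ho : opp51 d (2 * Real.pi - 5 * alpha d) ≤ 17602284 / 10000000 := by
    refine opp_le52 (g1 := 12481681 / 10000000) (C1 := 534396 / 1000000 / (1 - 534396 / 1000000))
      (T1 := 7200925 / 10000000) (by norm_num) (by linarith) (by linarith) (by norm_num)
      hC (by norm_num) (by norm_num) (by norm_num) (by norm_num) (by norm_num) (by norm_num)
  constructor <;> linarith

/-- the numbers at `d₃` -/
theorem main_d3_52 {d : ℝ} (hd : 0 < d) (q1 : 534396 / 1000000 ≤ Real.cos (alpha d))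
    (q2 : Real.cos (alpha d) ≤ 5343961 / 10000000) {G : Tg ℍ}
    (hG : G.Geo4 (alpha d) kap (Ust69 d)) (hD : DelG G d) (hP : PentaG G (alpha d))
    (hn : 10 ≤ G.P.card) :
    (G.D.filter (fun x => G.con x.1 x.2)).card ≤ 2 * Lb G.P.card := by
  obtain ⟨s, t, I, A, h, hiD, hiI, hAs⟩ := num5 hG hD (d3_side52 hd q1 q2)
  have hA : ∀ C ∈ G.iC, A3 (alpha d) * (G.cT C).card ≤ ∑ x ∈ G.cD C, G.ar x.1 x.2 / 3 :=
    fun C hC => hG.pol C (cB_of_iC66 G hC)
  have hR := W4.rf51 hG hD hA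
  obtain ⟨⟨a1, a2⟩, _⟩ := d3_br52 hd q1 q2
  obtain ⟨k1, k2, k3, k4, k5⟩ := d3_const52 hd q1 q2
  obtain ⟨w11, w71⟩ := d3_node52 hd q1 q2
  obtain ⟨m1, m2⟩ := kappa_d3_52 hd q1 q2
  have hp := Real.pi_gt_d6
  have hp' := Real.pi_lt_d6
  have hApi : Real.pi = 3 * alpha d + A3 (alpha d) := by unfold A3; ring
  have hal := alpha_pos hd
  have hA3 := A3_pos69 hd
  obtain ⟨y, hy0, hy1, hy2⟩ := W4.E62 G hG (by linarith) m1
    (E_hs62 G hd (by linarith) (by linarith) hR) hA hP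
  rw [← hAs] at hy1 hy2
  have e1 : (G.iD.card : ℝ) / 3 = t := by
    rw [hiD]
    push_cast
    ring
  have e2 : (G.iI.card : ℝ) = 2 * I := by
    rw [hiI]
    push_cast
    ring
  rw [e1, e2] at hy1 hy2
  set n := G.P.card with hnd
  set b := G.oJ.card with hbd
  set M := (G.D.filter (fun x => G.con x.1 x.2)).card with hMd
  apply fin52 h.toNum4
  have hE1 := h.E1
  rcases Nat.lt_or_ge n 98 with hn2 | hn2
  · exact G_num52 hd (cosh_le_of52 hd q2 (by norm_num)) hn (by omega) (by omega) h.low h.up h.G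
  rcases Nat.lt_or_ge b 3 with hb | hb
  · exact small_b52 hd hb hn h.low h.up
  obtain ⟨f1, f2, f3⟩ := tau52 hd k1 k2 k3 k4 k5 h
  have hs0 : (0 : ℝ) ≤ s := Nat.cast_nonneg _
  have hI0 : (0 : ℝ) ≤ I := Nat.cast_nonneg _
  have hb0 : (3 : ℝ) ≤ b := by exact_mod_cast hb
  have k5' : A3 (alpha d) * (A / A3 (alpha d) - t) = A - A3 (alpha d) * t := by
    field_simp
  have hτ0 : 0 ≤ A / A3 (alpha d) - t := by linarith
  have hSx : (t : ℝ) + 0.2085 * ((2 * I : ℕ) / 2 - 3 * y) ≤ A / A3 (alpha d) := by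
    push_cast
    rcases le_total ((2 * I : ℝ) / 2 - 3 * y) 0 with h0 | h0
    · have : 0.2085 * ((2 * I : ℝ) / 2 - 3 * y) ≤ 0 :=
        mul_nonpos_of_nonneg_of_nonpos (by norm_num) h0
      linarith
    · have h5 := mul_le_mul_of_nonneg_right m2 h0
      have h6 : A3 (alpha d) * (0.2085 * ((2 * I : ℝ) / 2 - 3 * y)) ≤
          A3 (alpha d) * (A / A3 (alpha d) - t) := by
        rw [k5']
        have h7 : A3 (alpha d) * (0.2085 * ((2 * I : ℝ) / 2 - 3 * y)) =
            2085 / 10000 * A3 (alpha d) * ((2 * I : ℝ) / 2 - 3 * y) := by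
          norm_num
          ring
        rw [h7]
        linarith
      have h8 := le_of_mul_le_mul_left h6 hA3
      linarith
  rcases Nat.lt_or_ge n b with hnb | hnb
  · -- `n < b`
    have h5 := (Lb_facts11 n (by omega)).1
    omega
  have hG' : (1 - 0.24) * ((n : ℝ) - b) + y ≤ (2 * I : ℕ) + 0.24 / 2 * (A / A3 (alpha d) - t) := by
    have hnb' : (b : ℝ) ≤ n := by exact_mod_cast hnb
    have j1 : alpha d * (1 - 0.24) ≤ 7 * alpha d - 2 * Real.pi := by linarith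
    have j2 := mul_le_mul_of_nonneg_right j1 (show (0 : ℝ) ≤ (n : ℝ) - b by linarith)
    have j3 : A3 (alpha d) ≤ alpha d * (0.24 / 2) := by linarith
    have j4 := mul_le_mul_of_nonneg_right j3 hτ0
    have j6 : alpha d * ((1 - 0.24) * ((n : ℝ) - b) + y) ≤
        alpha d * ((2 * I : ℕ) + 0.24 / 2 * (A / A3 (alpha d) - t)) := by
      push_cast
      linarith
    exact le_of_mul_le_mul_left j6 hal
  refine arV3 n b t (2 * I) s (A / A3 (alpha d)) y hn2 hb (by omega) f1 ?_ ?_ ?_ hG' hy0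
    hSx ?_ ?_
  · intro hb1
    have := mono52 hd w11 h.up hb1
    linarith
  · intro hb1 hb2
    have h5 := chord52 hd (by norm_num) (by norm_num) w11 w71 h.up hb1 hb2
    have hb1' : (11 : ℝ) ≤ b := by exact_mod_cast hb1
    have hb2' : (b : ℝ) ≤ 71 := by exact_mod_cast hb2
    push_cast at h5
    linarith
  · intro hb1
    have h5 := tail52 hd k2 (by norm_num) w71 h.up hb1
    have hb2 : (71 : ℝ) ≤ b := by exact_mod_cast hb1
    push_cast at h5
    linarith
  · have := h.D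
    omega
  · rcases f3 with f3 | f3
    · left; linarith
    · right; linarith

/-- **Q1 at `d₃`** -/
theorem q1_d3_52 {e d : ℝ} (he : 0 < e) (ha : alpha e = 2 * Real.pi / 7) (hd : 0 < d)
    (q1 : 534396 / 1000000 ≤ Real.cos (alpha d))
    (q2 : Real.cos (alpha d) ≤ 5343961 / 10000000) (n : ℕ) : eD d n ≤ eD e n :=
  q1_of_main4s he ha hd n
    (fun _ _ hG hD _ _ hP h1 _ => main_d3_52 hd q1 q2 hG hD hP h1) le_rfl

end

end Pool.Agent.PEN
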