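import Pool.Agent.P4.NumDs52

/-! # Brackets for `A3` at the lower end: `1.0638 ≤ cosh d` -/

set_option autoImplicit false

namespace Pool.Agent.PEN

noncomputable section

/-- `1.0638 ≤ cosh d` gives `538 / 10000 ≤ A3` -/
theorem A3_ge538_69 {d : ℝ} (hd : 0 < d) (hC : 10638 / 10000 ≤ Real.cosh d) :
    538 / 10000 ≤ A3 (alpha d) := by
  have hc := Real.cosh_pos d
  have hh : (10638 : ℝ) / 20638 ≤ Real.cos (alpha d) := by
    rw [cos_alpha hd, div_le_div_iff₀ (by norm_num) (by linarith)]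
    linarith
  apply A3_ge_of52 (by norm_num) (by norm_num)
  refine (cos_third_ub52 (by norm_num) (by norm_num)).trans (le_trans ?_ hh)
  norm_num

/-- `1.065 ≤ cosh d` gives `548 / 10000 ≤ A3` -/
theorem A3_ge548_69 {d : ℝ} (hd : 0 < d) (hC : 1065 / 1000 ≤ Real.cosh d) :
    548 / 10000 ≤ A3 (alpha d) := by
  have hc := Real.cosh_pos d
  have hh : (1065 : ℝ) / 2065 ≤ Real.cos (alpha d) := by
    rw [cos_alpha hd, div_le_div_iff₀ (by norm_num) (by linarith)]
    linarith
  apply A3_ge_of52 (by norm_num) (by norm_num)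
  refine (cos_third_ub52 (by norm_num) (by norm_num)).trans (le_trans ?_ hh)
  norm_num

/-- `cosh d ≤ 1.077` gives `A3 ≤ 6462 / 100000` -/
theorem A3_le6462_69 {d : ℝ} (hd : 0 < d) (hC : Real.cosh d ≤ 1077 / 1000) :
    A3 (alpha d) ≤ 6462 / 100000 := by
  have hc := Real.cosh_pos d
  have hh : Real.cos (alpha d) ≤ (1077 : ℝ) / 2077 := by
    rw [cos_alpha hd, div_le_div_iff₀ (by linarith) (by norm_num)]
    linarith
  apply A3_le_of52 (by norm_num) (by norm_num)
  refine le_trans (hh.trans ?_) (cos_third_lb52 (by norm_num) (by norm_num))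
  norm_num

/-- the numbers at `1065 / 1000 ≤ cosh d` -/
theorem A3_ge_1065 {d : ℝ} (hd : 0 < d) (hC : 1065 / 1000 ≤ Real.cosh d) :
    538 / 10000 ≤ A3 (alpha d) :=
  le_trans (by norm_num) (A3_ge548_69 hd hC)

end

end Pool.Agent.PEN
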