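import Pool.Agent.P4.Exc56
import Pool.Agent.P4.Exc57b

/-! # PENNY: the obtuse angles of the chain at the diameter d_8 -/

set_option autoImplicit false

namespace Pool.Agent.PEN

noncomputable section

theorem Tge57 {C τ : ℝ} (h0 : 0 ≤ τ) (h1 : τ * τ ≤ 1 / (2 * C + 1)) : τ ≤ T57 C := by
  unfold T57
  exact Real.le_sqrt_of_sq_le (by rw [sq]; exact h1)

theorem Tle57 {C τ : ℝ} (h0 : 0 ≤ τ) (h1 : 1 / (2 * C + 1) ≤ τ * τ) : T57 C ≤ τ := by
  unfold T57
  rw [Real.sqrt_le_left h0, sq]
  exact h1

theorem arm57 {x y : ℝ} (h : x ≤ y) : 2 * Real.arctan x ≤ 2 * Real.arctan y := by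
  have := Real.arctan_strictMono.monotone h
  linarith

theorem e8lo57 : (∀ j ≤ 2, ch57 (1289147 / 1210853) j < Real.pi) ∧ 2 * Real.arctan (56529 / 100000) ≤ al57 (1289147 / 1210853) ∧ 2 * Real.arctan (73423 / 50000) ≤ op57 (1289147 / 1210853) (ch57 (1289147 / 1210853) 0) ∧ 2 * Real.arctan (130153 / 100000) ≤ op57 (1289147 / 1210853) (ch57 (1289147 / 1210853) 1) ∧ 2 * Real.arctan (3612 / 3125) ≤ op57 (1289147 / 1210853) (ch57 (1289147 / 1210853) 2) := by
  have h : (1 : ℝ) < (1289147 / 1210853) := by norm_num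
  have a0 : ch57 (1289147 / 1210853) 0 = 2 * Real.arctan (T57 (1289147 / 1210853) * (1710833737609 / 1512033762391)) := by
    rw [start57 h]
    exact step57 h (by norm_num) (by norm_num)
  have b0 : op57 (1289147 / 1210853) (ch57 (1289147 / 1210853) 0) = 2 * Real.arctan (T57 (1289147 / 1210853) * (5729318194662570477 / 2205516180337429523)) :=
    opv57 h (by norm_num) a0 (by norm_num)
  have a1 : ch57 (1289147 / 1210853) 1 = 2 * Real.arctan (T57 (1289147 / 1210853) * (2329766164848679523 / 1824983804173820477)) := by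
    change 2 * Real.pi - 3 * al57 (1289147 / 1210853) - op57 (1289147 / 1210853) (ch57 (1289147 / 1210853) 0) = _
    rw [b0]
    exact step57 h (by norm_num) (by norm_num)
  have b1 : op57 (1289147 / 1210853) (ch57 (1289147 / 1210853) 1) = 2 * Real.arctan (T57 (1289147 / 1210853) * (6915131906633819338963119 / 3003411062116180661036881)) :=
    opv57 h (by norm_num) a1 (by norm_num)
  have a2 : ch57 (1289147 / 1210853) 2 = 2 * Real.arctan (T57 (1289147 / 1210853) * (3158723542755243161036881 / 2197359915560205646463119)) := by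
    change 2 * Real.pi - 3 * al57 (1289147 / 1210853) - op57 (1289147 / 1210853) (ch57 (1289147 / 1210853) 1) = _
    rw [b1]
    exact step57 h (by norm_num) (by norm_num)
  have b2 : op57 (1289147 / 1210853) (ch57 (1289147 / 1210853) 2) = 2 * Real.arctan (T57 (1289147 / 1210853) * (8326119731965206544678787969493 / 4072058978972293455321212030507)) :=
    opv57 h (by norm_num) a2 (by norm_num)
  have hT : (56529 / 100000) ≤ T57 (1289147 / 1210853) := Tge57 (by norm_num) (by norm_num)
  refine ⟨fun j hj => ?_, ?_, ?_, ?_, ?_⟩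
  · interval_cases j
    · rw [a0]; exact two_arctan_lt57 _
    · rw [a1]; exact two_arctan_lt57 _
    · rw [a2]; exact two_arctan_lt57 _
  · exact arm57 hT
  · rw [b0]
    exact arm57 (by linarith)
  · rw [b1]
    exact arm57 (by linarith)
  · rw [b2]
    exact arm57 (by linarith)

theorem e8hi57 : al57 (5156587 / 4843413) ≤ 2 * Real.arctan (5653 / 10000) ∧ op57 (5156587 / 4843413) (ch57 (5156587 / 4843413) 0) ≤ 2 * Real.arctan (2937 / 2000) ∧ op57 (5156587 / 4843413) (ch57 (5156587 / 4843413) 1) ≤ 2 * Real.arctan (130157 / 100000) ∧ op57 (5156587 / 4843413) (ch57 (5156587 / 4843413) 2) ≤ 2 * Real.arctan (28897 / 25000) := by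
  have h : (1 : ℝ) < (5156587 / 4843413) := by norm_num
  have a0 : ch57 (5156587 / 4843413) 0 = 2 * Real.arctan (T57 (5156587 / 4843413) * (27373324488569 / 24192545511431)) := by
    rw [start57 h]
    exact step57 h (by norm_num) (by norm_num)
  have b0 : op57 (5156587 / 4843413) (ch57 (5156587 / 4843413) 0) = 2 * Real.arctan (T57 (5156587 / 4843413) * (366676420795463445997 / 141152929204536554003)) :=
    opv57 h (by norm_num) a0 (by norm_num)
  have a1 : ch57 (5156587 / 4843413) 1 = 2 * Real.arctan (T57 (5156587 / 4843413) * (149104876647381554003 / 116799018238308445997)) := by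
    change 2 * Real.pi - 3 * al57 (5156587 / 4843413) - op57 (5156587 / 4843413) (ch57 (5156587 / 4843413) 0) = _
    rw [b0]
    exact step57 h (by norm_num) (by norm_num)
  have b1 : op57 (5156587 / 4843413) (ch57 (5156587 / 4843413) 1) = 2 * Real.arctan (T57 (5156587 / 4843413) * (1770274481443508694588332239 / 768872268556491305411667761)) :=
    opv57 h (by norm_num) a1 (by norm_num)
  have a2 : ch57 (5156587 / 4843413) 2 = 2 * Real.arctan (T57 (5156587 / 4843413) * (808632005770716305411667761 / 562524561846199234618332239)) := by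
    change 2 * Real.pi - 3 * al57 (5156587 / 4843413) - op57 (5156587 / 4843413) (ch57 (5156587 / 4843413) 1) = _
    rw [b1]
    exact step57 h (by norm_num) (by norm_num)
  have b2 : op57 (5156587 / 4843413) (ch57 (5156587 / 4843413) 2) = 2 * Real.arctan (T57 (5156587 / 4843413) * (8525952461258799318826164375308293 / 4169781288741200681173835624691707)) :=
    opv57 h (by norm_num) a2 (by norm_num)
  have hT : T57 (5156587 / 4843413) ≤ (5653 / 10000) := Tle57 (by norm_num) (by norm_num)
  refine ⟨?_, ?_, ?_, ?_⟩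
  · exact arm57 hT
  · rw [b0]
    exact arm57 (by linarith)
  · rw [b1]
    exact arm57 (by linarith)
  · rw [b2]
    exact arm57 (by linarith)

/-- differences of arctangents -/
theorem ars57 {x t z : ℝ} (ht : 0 ≤ t) (hz : 0 ≤ z) (hzt : t * z < 1)
    (h : z + t ≤ x * (1 - t * z)) : Real.arctan z + Real.arctan t ≤ Real.arctan x := by
  have h1 : z * t < 1 := by rw [mul_comm]; exact hzt
  rw [Real.arctan_add h1]
  apply Real.arctan_strictMono.monotone
  rw [div_le_iff₀ (by linarith)]
  linarith

theorem ars57' {x t z : ℝ} (hzt : t * z < 1)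
    (h : x * (1 - t * z) ≤ z + t) : Real.arctan x ≤ Real.arctan z + Real.arctan t := by
  have h1 : z * t < 1 := by rw [mul_comm]; exact hzt
  rw [Real.arctan_add h1]
  apply Real.arctan_strictMono.monotone
  rw [le_div_iff₀ (by linarith)]
  linarith

theorem ars57s {x t z : ℝ} (hzt : t * z < 1)
    (h : x * (1 - t * z) < z + t) : Real.arctan x < Real.arctan z + Real.arctan t := by
  have h1 : z * t < 1 := by rw [mul_comm]; exact hzt
  rw [Real.arctan_add h1]
  apply Real.arctan_strictMono
  rw [lt_div_iff₀ (by linarith)]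
  linarith

theorem ars57t {x t z : ℝ} (hzt : t * z < 1)
    (h : z + t < x * (1 - t * z)) : Real.arctan z + Real.arctan t < Real.arctan x := by
  have h1 : z * t < 1 := by rw [mul_comm]; exact hzt
  rw [Real.arctan_add h1]
  apply Real.arctan_strictMono
  rw [div_lt_iff₀ (by linarith)]
  linarith

/-- **the obtuse angles of the chain at d_8** -/
theorem n8_57 {d : ℝ} (hd : 0 < d) (q1 : 5156587 / 10000000 < Real.cos (alpha d))
    (q2 : Real.cos (alpha d) < 5156588 / 10000000) (hb : ∀ j ≤ 2, ch66 d j < qa66 d) :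
    opp51 d (ch66 d 0) < 2 * alpha d ∧
    2 * alpha d + opp51 d (ch66 d 1) < 2 * opp51 d (ch66 d 0) ∧
    2 * alpha d + opp51 d (ch66 d 2) < opp51 d (ch66 d 0) + opp51 d (ch66 d 1) ∧
    2 * opp51 d (ch66 d 1) < 2 * alpha d + opp51 d (ch66 d 2) := by
  have hq : qa66 d = q57 (Real.cosh d) := rfl
  have ho : ∀ t, opp51 d t = op57 (Real.cosh d) t := fun t => rfl
  rw [cos_alpha hd] at q1 q2
  simp only [ch57_eq hd, hq, ho, al57_eq hd] at hb ⊢
  have hC := cosh_gt66 hd
  generalize Real.cosh d = C at hC hb q1 q2 ⊢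
  rw [lt_div_iff₀ (by linarith)] at q1
  rw [div_lt_iff₀ (by linarith)] at q2
  have k1 : (5156587 / 4843413) ≤ C := by linarith
  have k2 : C ≤ (1289147 / 1210853) := by linarith
  obtain ⟨l0, l1, l2, l3, l4⟩ := e8lo57
  obtain ⟨u1, u2, u3, u4⟩ := e8hi57
  have hC1 : (1 : ℝ) < (5156587 / 4843413) := by norm_num
  have hlo : ∀ j ≤ 2, op57 (1289147 / 1210853) (ch57 (1289147 / 1210853) j) ≤ op57 C (ch57 C j) := fun j hj =>
    op57_le (by linarith) k2 (ch57_pos hC j)
      (ch57_mono hC k2 j (fun i hi => l0 i (by omega))) (l0 j hj)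
  have hup : ∀ j ≤ 2, op57 C (ch57 C j) ≤ op57 (5156587 / 4843413) (ch57 (5156587 / 4843413) j) := fun j hj =>
    op57_le (by linarith) k1 (ch57_pos hC1 j)
      (ch57_mono hC1 k1 j (fun i hi => (hb i (by omega)).trans (q57_lt C)))
      ((hb j hj).trans (q57_lt C))
  have a1 := al57_anti hC k2
  have a2 := al57_anti hC1 k1
  have p0 := hlo 0 (by norm_num)
  have p1 := hlo 1 (by norm_num)
  have p2 := hlo 2 le_rfl
  have r0 := hup 0 (by norm_num)
  have r1 := hup 1 (by norm_num)
  have r2 := hup 2 le_rfl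
  have m0 : Real.arctan (2937 / 2000) < Real.arctan (56529 / 100000) + Real.arctan (56529 / 100000) :=
    ars57s (by norm_num) (by norm_num)
  have m1 : Real.arctan (2467 / 5000) + Real.arctan (5653 / 10000) ≤ Real.arctan (73423 / 50000) :=
    ars57 (by norm_num) (by norm_num) (by norm_num) (by norm_num)
  have m2 : Real.arctan (4241 / 10000) + Real.arctan (5653 / 10000) ≤ Real.arctan (130153 / 100000) :=
    ars57 (by norm_num) (by norm_num) (by norm_num) (by norm_num)
  have m3 : Real.arctan (130157 / 100000) < Real.arctan (2467 / 5000) + Real.arctan (2467 / 5000) :=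
    ars57s (by norm_num) (by norm_num)
  have m4 : Real.arctan (28897 / 25000) < Real.arctan (2467 / 5000) + Real.arctan (4241 / 10000) :=
    ars57s (by norm_num) (by norm_num)
  have m5 : Real.arctan (130157 / 100000) ≤ Real.arctan (4243 / 10000) + Real.arctan (56529 / 100000) :=
    ars57' (by norm_num) (by norm_num)
  have m6 : Real.arctan (4243 / 10000) + Real.arctan (4243 / 10000) < Real.arctan (3612 / 3125) :=
    ars57t (by norm_num) (by norm_num)
  refine ⟨?_, ?_, ?_, ?_⟩ <;> linarith

end

end Pool.Agent.PEN
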