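import Pool.Agent.P4.F66
import Pool.Agent.PEN.B39

/-! # PENNY: the chain diameters in the range 1077/1000 <= cosh d <= 611/500

`Exc66 d` holds there for at most five values of `d`; each of them is enclosed in an interval of
length 1/10000 for `cosh d`. -/

set_option autoImplicit false

namespace Pool.Agent.PEN

open Classical

noncomputable section

/-! ### everything as a function of C = cosh d -/

/-- tan (alpha / 2) -/
def T57 (C : ℝ) : ℝ := √(1 / (2 * C + 1))
def al57 (C : ℝ) : ℝ := 2 * Real.arctan (T57 C)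
def op57 (C t : ℝ) : ℝ := 2 * Real.arctan (1 / (C * Real.tan (t / 2)))
def q57 (C : ℝ) : ℝ := 2 * Real.arctan (1 / √C)
def ch57 (C : ℝ) : ℕ → ℝ
  | 0 => 2 * Real.pi - 5 * al57 C
  | i + 1 => 2 * Real.pi - 3 * al57 C - op57 C (ch57 C i)

theorem T57_pos {C : ℝ} (h : 1 < C) : 0 < T57 C := by
  unfold T57
  apply Real.sqrt_pos.2
  positivity

theorem T57_sq {C : ℝ} (h : 1 < C) : T57 C * T57 C = 1 / (2 * C + 1) := by
  unfold T57
  rw [Real.mul_self_sqrt]
  positivity

theorem T57_lt {C : ℝ} (h : 1 < C) : T57 C * T57 C < 1 / 3 := by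
  rw [T57_sq h]
  apply one_div_lt_one_div_of_lt <;> linarith

theorem T57_lt_one {C : ℝ} (h : 1 < C) : T57 C < 1 := by
  have h1 := T57_lt h
  have h2 := T57_pos h
  nlinarith

theorem cos_al57 {C : ℝ} (h : 1 < C) : Real.cos (al57 C) = C / (C + 1) := by
  unfold al57
  rw [Real.cos_two_mul, Real.cos_sq_arctan, sq, T57_sq h]
  field_simp
  ring

theorem al57_pos {C : ℝ} (h : 1 < C) : 0 < al57 C := by
  unfold al57
  have := Real.arctan_pos.2 (T57_pos h)
  linarith

theorem al57_eq {d : ℝ} (hd : 0 < d) : alpha d = al57 (Real.cosh d) := by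
  have hC := cosh_gt66 hd
  have h1 : Real.cos (alpha d) = Real.cos (al57 (Real.cosh d)) := by
    rw [cos_alpha hd, cos_al57 hC]
  have h2 : al57 (Real.cosh d) ≤ Real.pi := by
    unfold al57
    have := Real.arctan_lt_pi_div_two (T57 (Real.cosh d))
    linarith
  exact Real.injOn_cos ⟨alpha_nonneg39 d, alpha_le_pi39 d⟩ ⟨(al57_pos hC).le, h2⟩ h1

theorem ch57_eq {d : ℝ} (hd : 0 < d) (i : ℕ) : ch66 d i = ch57 (Real.cosh d) i := by
  induction i with
  | zero =>
    change 2 * Real.pi - 5 * alpha d = 2 * Real.pi - 5 * al57 (Real.cosh d)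
    rw [al57_eq hd]
  | succ i ih =>
    change 2 * Real.pi - 3 * alpha d - opp51 d (ch66 d i) =
      2 * Real.pi - 3 * al57 (Real.cosh d) - op57 (Real.cosh d) (ch57 (Real.cosh d) i)
    rw [al57_eq hd, ih]
    rfl

theorem three_arctan57 {C : ℝ} (h : 1 < C) :
    Real.arctan (T57 C) + Real.arctan (T57 C) + Real.arctan (T57 C) =
      Real.arctan (T57 C * ((3 - 1 / (2 * C + 1)) / (1 - 3 * (1 / (2 * C + 1))))) := by
  have h1 := T57_sq h
  have h2 := T57_lt h
  have h3 := T57_pos h
  set T := T57 C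
  have h4 : T * T < 1 := by linarith
  have h5 : 1 - T ^ 2 ≠ 0 := by nlinarith
  have h6 : 1 - 3 * T ^ 2 ≠ 0 := by
    intro h7
    nlinarith
  have h6' : 1 - T ^ 2 * 3 ≠ 0 := by
    intro h7
    nlinarith
  rw [Real.arctan_add h4, Real.arctan_add]
  · congr 1
    rw [← h1, show T * T = T ^ 2 by ring]
    have h8 : 1 - (T + T) / (1 - T ^ 2) * T = (1 - 3 * T ^ 2) / (1 - T ^ 2) := by
      rw [eq_div_iff h5]
      have : (T + T) / (1 - T ^ 2) * T * (1 - T ^ 2) = (T + T) * T := by
        rw [div_mul_eq_mul_div, div_mul_cancel₀ _ h5]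
      linear_combination -this
    have h9 : (T + T) / (1 - T ^ 2) + T = (T * (3 - T ^ 2)) / (1 - T ^ 2) := by
      rw [eq_div_iff h5, add_mul, div_mul_cancel₀ _ h5]
      ring
    rw [h8, h9, div_div_div_cancel_right₀ h5, mul_div_assoc]
  · rw [div_mul_eq_mul_div, div_lt_one (by linarith)]
    nlinarith

theorem al57_lt {C : ℝ} (h : 1 < C) : 3 * al57 C < Real.pi := by
  have h1 := three_arctan57 h
  have h2 := Real.arctan_lt_pi_div_two
    (T57 C * ((3 - 1 / (2 * C + 1)) / (1 - 3 * (1 / (2 * C + 1)))))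
  unfold al57
  linarith

theorem al57_anti {C D : ℝ} (h : 1 < C) (hD : C ≤ D) : al57 D ≤ al57 C := by
  unfold al57 T57
  have h1 : √(1 / (2 * D + 1)) ≤ √(1 / (2 * C + 1)) := by
    apply Real.sqrt_le_sqrt
    apply one_div_le_one_div_of_le <;> linarith
  have := Real.arctan_strictMono.monotone h1
  linarith

theorem q57_anti {C D : ℝ} (h : 1 < C) (hD : C ≤ D) : q57 D ≤ q57 C := by
  unfold q57
  have h1 : 1 / √D ≤ 1 / √C := by
    apply one_div_le_one_div_of_le
    · exact Real.sqrt_pos.2 (by linarith)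
    · exact Real.sqrt_le_sqrt hD
  have := Real.arctan_strictMono.monotone h1
  linarith

theorem q57_lt (C : ℝ) : q57 C < Real.pi := by
  unfold q57
  have := Real.arctan_lt_pi_div_two (1 / √C)
  linarith

theorem op57_lt (C t : ℝ) : op57 C t < Real.pi := by
  unfold op57
  have := Real.arctan_lt_pi_div_two (1 / (C * Real.tan (t / 2)))
  linarith

theorem ch57_pos {C : ℝ} (h : 1 < C) (i : ℕ) : 0 < ch57 C i := by
  have := Real.pi_pos
  have h1 := al57_lt h
  have h2 := al57_pos h
  cases i with
  | zero =>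
    change 0 < 2 * Real.pi - 5 * al57 C
    linarith
  | succ i =>
    change 0 < 2 * Real.pi - 3 * al57 C - op57 C (ch57 C i)
    have := op57_lt C (ch57 C i)
    linarith

theorem op57_le {C D t u : ℝ} (hC : 0 < C) (hD : C ≤ D) (h0 : 0 < t) (h : t ≤ u)
    (h1 : u < Real.pi) : op57 D u ≤ op57 C t := by
  have hT := tan_half66 h0 (by linarith)
  have hTU : Real.tan (t / 2) ≤ Real.tan (u / 2) := by
    rcases h.lt_or_eq with h2 | h2
    · exact (Real.tan_lt_tan_of_lt_of_lt_pi_div_two (by linarith [Real.pi_pos]) (by linarith)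
        (by linarith)).le
    · rw [h2]
  have h2 : Real.arctan (1 / (D * Real.tan (u / 2))) ≤
      Real.arctan (1 / (C * Real.tan (t / 2))) := by
    apply Real.arctan_strictMono.monotone
    apply one_div_le_one_div_of_le (mul_pos hC hT)
    exact mul_le_mul hD hTU hT.le (by linarith)
  unfold op57
  linarith

/-- the tips increase and the obtuse angles decrease with C -/
theorem ch57_mono {C D : ℝ} (h : 1 < C) (hD : C ≤ D) (i : ℕ)
    (hb : ∀ j < i, ch57 D j < Real.pi) : ch57 C i ≤ ch57 D i := by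
  have h2 := al57_anti h hD
  induction i with
  | zero =>
    change 2 * Real.pi - 5 * al57 C ≤ 2 * Real.pi - 5 * al57 D
    linarith
  | succ i ih =>
    have h3 := ih (fun j hj => hb j (by omega))
    have h4 := op57_le (by linarith) hD (ch57_pos h i) h3 (hb i (Nat.lt_succ_self i))
    change 2 * Real.pi - 3 * al57 C - op57 C (ch57 C i) ≤
      2 * Real.pi - 3 * al57 D - op57 D (ch57 D i)
    linarith

/-! ### values at rational points -/

/-- one step of the chain for tan (half angle) / tan (alpha / 2) -/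
theorem step57 {C s r : ℝ} (h : 1 < C)
    (hp : 1 < 1 / (2 * C + 1) * ((3 - 1 / (2 * C + 1)) / (1 - 3 * (1 / (2 * C + 1)))) * s)
    (hr : r * (1 / (2 * C + 1) * ((3 - 1 / (2 * C + 1)) / (1 - 3 * (1 / (2 * C + 1)))) * s - 1) =
      (3 - 1 / (2 * C + 1)) / (1 - 3 * (1 / (2 * C + 1))) + s) :
    2 * Real.pi - 3 * al57 C - 2 * Real.arctan (T57 C * s) = 2 * Real.arctan (T57 C * r) := by
  have h1 := three_arctan57 h
  have h2 := T57_sq h
  have h3 := T57_pos h
  have h5 : 0 < 1 - 3 * (1 / (2 * C + 1)) := by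
    have := T57_lt h
    rw [h2] at this
    linarith
  have h6 : 0 < (3 - 1 / (2 * C + 1)) / (1 - 3 * (1 / (2 * C + 1))) := by
    apply div_pos _ h5
    linarith
  set t3 := (3 - 1 / (2 * C + 1)) / (1 - 3 * (1 / (2 * C + 1))) with ht3
  set T := T57 C with hT
  have h7 : T * t3 * (T * s) = 1 / (2 * C + 1) * t3 * s := by
    rw [← h2]
    ring
  have h8 := Real.arctan_add_eq_add_pi (x := T * t3) (y := T * s) (by rw [h7]; exact hp)
    (mul_pos h3 h6)
  have h9 : (T * t3 + T * s) / (1 - T * t3 * (T * s)) = -(T * r) := by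
    rw [h7]
    have h10 : 1 - 1 / (2 * C + 1) * t3 * s ≠ 0 := by
      intro h11
      linarith
    rw [div_eq_iff h10]
    calc T * t3 + T * s = T * (t3 + s) := by ring
      _ = T * (r * (1 / (2 * C + 1) * t3 * s - 1)) := by rw [hr]
      _ = -(T * r) * (1 - 1 / (2 * C + 1) * t3 * s) := by ring
  rw [h9, Real.arctan_neg] at h8
  have h10 : al57 C = 2 * Real.arctan T := rfl
  rw [h10]
  linarith

/-- the first tip -/
theorem start57 {C : ℝ} (h : 1 < C) :
    ch57 C 0 = 2 * Real.pi - 3 * al57 C - 2 * Real.arctan (T57 C * (2 / (1 - 1 / (2 * C + 1)))) := by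
  have h1 := T57_sq h
  have h2 := T57_lt h
  have h3 := T57_pos h
  have h4 := T57_lt_one h
  have h5 : 2 * Real.arctan (T57 C) = Real.arctan (T57 C * (2 / (1 - 1 / (2 * C + 1)))) := by
    rw [Real.two_mul_arctan (by linarith) h4, ← h1]
    congr 1
    ring
  have h10 : al57 C = 2 * Real.arctan (T57 C) := rfl
  change 2 * Real.pi - 5 * al57 C = _
  rw [← h5, h10]
  ring

theorem opv57 {C r s : ℝ} (h : 1 < C) (hr : 0 < r) {t : ℝ} (ht : t = 2 * Real.arctan (T57 C * r))
    (hs : C * (1 / (2 * C + 1)) * r * s = 1) : op57 C t = 2 * Real.arctan (T57 C * s) := by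
  have h2 := T57_sq h
  have h3 := T57_pos h
  unfold op57
  rw [ht, mul_div_cancel_left₀ _ (two_ne_zero), Real.tan_arctan]
  congr 2
  have h4 : C * (T57 C * r) ≠ 0 := by positivity
  rw [div_eq_iff h4, ← hs, ← h2]
  ring

theorem two_arctan_lt57 (x : ℝ) : 2 * Real.arctan x < Real.pi := by
  have := Real.arctan_lt_pi_div_two x
  linarith

theorem lt_q57 {C r : ℝ} (h : 1 < C) (hr : 0 < r) (hq : C * (1 / (2 * C + 1)) * (r * r) < 1) :
    2 * Real.arctan (T57 C * r) < q57 C := by
  have h2 := T57_sq h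
  have h3 := T57_pos h
  have h4 : 0 < √C := Real.sqrt_pos.2 (by linarith)
  have h5 : √C * √C = C := Real.mul_self_sqrt (by linarith)
  have h6 : T57 C * r < 1 / √C := by
    rw [lt_div_iff₀ h4]
    have h7 : (T57 C * r * √C) * (T57 C * r * √C) < 1 := by
      calc (T57 C * r * √C) * (T57 C * r * √C) = (√C * √C) * (T57 C * T57 C) * (r * r) := by ring
        _ = C * (1 / (2 * C + 1)) * (r * r) := by rw [h5, h2]
        _ < 1 := hq
    by_contra h8
    rw [not_lt] at h8
    nlinarith
  have := Real.arctan_strictMono h6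
  unfold q57
  linarith

theorem gt_q57 {C r : ℝ} (h : 1 < C) (hr : 0 < r) (hq : 1 < C * (1 / (2 * C + 1)) * (r * r)) :
    q57 C < 2 * Real.arctan (T57 C * r) := by
  have h2 := T57_sq h
  have h3 := T57_pos h
  have h4 : 0 < √C := Real.sqrt_pos.2 (by linarith)
  have h5 : √C * √C = C := Real.mul_self_sqrt (by linarith)
  have h6 : 1 / √C < T57 C * r := by
    rw [div_lt_iff₀ h4]
    have h7 : 1 < (T57 C * r * √C) * (T57 C * r * √C) := by
      calc 1 < C * (1 / (2 * C + 1)) * (r * r) := hq
        _ = (√C * √C) * (T57 C * T57 C) * (r * r) := by rw [h5, h2]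
        _ = (T57 C * r * √C) * (T57 C * r * √C) := by ring
    have h9 : 0 < T57 C * r * √C := by positivity
    by_contra h8
    rw [not_lt] at h8
    nlinarith
  have := Real.arctan_strictMono h6
  unfold q57
  linarith

theorem gtB57 {C r s : ℝ} (h : 1 < C) (hlt : r < s) {i : ℕ}
    (hb : op57 C (ch57 C i) = 2 * Real.arctan (T57 C * s))
    (ha : ch57 C (i + 1) = 2 * Real.arctan (T57 C * r)) (_ : 0 < r) :
    2 * Real.pi - 3 * al57 C < 2 * op57 C (ch57 C i) := by
  have h3 := T57_pos h
  have h1 : ch57 C (i + 1) = 2 * Real.pi - 3 * al57 C - op57 C (ch57 C i) := rfl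
  have h2 := Real.arctan_strictMono (mul_lt_mul_of_pos_left hlt h3)
  linarith

theorem ltB57 {C r s : ℝ} (h : 1 < C) (hlt : s < r) {i : ℕ}
    (hb : op57 C (ch57 C i) = 2 * Real.arctan (T57 C * s))
    (ha : ch57 C (i + 1) = 2 * Real.arctan (T57 C * r)) (_ : 0 < r) :
    2 * op57 C (ch57 C i) < 2 * Real.pi - 3 * al57 C := by
  have h3 := T57_pos h
  have h1 : ch57 C (i + 1) = 2 * Real.pi - 3 * al57 C - op57 C (ch57 C i) := rfl
  have h2 := Real.arctan_strictMono (mul_lt_mul_of_pos_left hlt h3)
  linarith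

/-! ### comparison with the end points -/

theorem lowA57 {E C : ℝ} {i : ℕ} (h : 1 < C) (hE : C ≤ E)
    (hb : (∀ j < i, ch57 E j < Real.pi) ∧ ch57 E i < q57 E) : ch57 C i < q57 C := by
  have h1 := ch57_mono h hE i hb.1
  have h2 := q57_anti h hE
  linarith [hb.2]

theorem upA57 {E C : ℝ} {i : ℕ} (h : 1 < E) (hE : E ≤ C) (hb : ∀ j < i, ch57 C j < q57 C)
    (h1 : q57 E < ch57 E i) : q57 C < ch57 C i := by
  have h2 := ch57_mono h hE i (fun j hj => (hb j hj).trans (q57_lt C))
  have h3 := q57_anti h hE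
  linarith

theorem lowB57 {E C : ℝ} {i : ℕ} (h : 1 < C) (hE : C ≤ E)
    (hb : (∀ j ≤ i, ch57 E j < Real.pi) ∧ 2 * Real.pi - 3 * al57 E < 2 * op57 E (ch57 E i)) :
    2 * Real.pi - 3 * al57 C < 2 * op57 C (ch57 C i) := by
  have h1 := ch57_mono h hE i (fun j hj => hb.1 j hj.le)
  have h2 := op57_le (by linarith) hE (ch57_pos h i) h1 (hb.1 i le_rfl)
  have h3 := al57_anti h hE
  linarith [hb.2]

theorem upB57 {E C : ℝ} {i : ℕ} (h : 1 < E) (hE : E ≤ C) (hb : ∀ j ≤ i, ch57 C j < q57 C)
    (h1 : 2 * op57 E (ch57 E i) < 2 * Real.pi - 3 * al57 E) :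
    2 * op57 C (ch57 C i) < 2 * Real.pi - 3 * al57 C := by
  have h2 := ch57_mono h hE i (fun j hj => (hb j hj.le).trans (q57_lt C))
  have h3 := op57_le (by linarith) hE (ch57_pos h i) h2 ((hb i le_rfl).trans (q57_lt C))
  have h4 := al57_anti h hE
  linarith

/-! ### the end points -/

theorem e57a : q57 (1077 / 1000) < ch57 (1077 / 1000) 3 := by
  have h : (1 : ℝ) < (1077 / 1000) := by norm_num
  have a0 : ch57 (1077 / 1000) 0 = 2 * Real.arctan (T57 (1077 / 1000) * (4799645 / 4148071)) := by
    rw [start57 h]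
    exact step57 h (by norm_num) (by norm_num)
  have b0 : op57 (1077 / 1000) (ch57 (1077 / 1000) 0) = 2 * Real.arctan (T57 (1077 / 1000) * (13083015934 / 5169217665)) :=
    opv57 h (by norm_num) a0 (by norm_num)
  have a1 : ch57 (1077 / 1000) 1 = 2 * Real.arctan (T57 (1077 / 1000) * (11015094929 / 8258285335)) := by
    change 2 * Real.pi - 3 * al57 (1077 / 1000) - op57 (1077 / 1000) (ch57 (1077 / 1000) 0) = _
    rw [b0]
    exact step57 h (by norm_num) (by norm_num)
  have b1 : op57 (1077 / 1000) (ch57 (1077 / 1000) 1) = 2 * Real.arctan (T57 (1077 / 1000) * (26046631946590 / 11863257238533)) :=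
    opv57 h (by norm_num) a1 (by norm_num)
  have a2 : ch57 (1077 / 1000) 2 = 2 * Real.arctan (T57 (1077 / 1000) * (25131936464189 / 16382924624467)) := by
    change 2 * Real.pi - 3 * al57 (1077 / 1000) - op57 (1077 / 1000) (ch57 (1077 / 1000) 1) = _
    rw [b1]
    exact step57 h (by norm_num) (by norm_num)
  have b2 : op57 (1077 / 1000) (ch57 (1077 / 1000) 2) = 2 * Real.arctan (T57 (1077 / 1000) * (51671744265568918 / 27067095571931553)) :=
    opv57 h (by norm_num) a2 (by norm_num)
  have a3 : ch57 (1077 / 1000) 3 = 2 * Real.arctan (T57 (1077 / 1000) * (57053252611117577 / 32369758173847447)) := by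
    change 2 * Real.pi - 3 * al57 (1077 / 1000) - op57 (1077 / 1000) (ch57 (1077 / 1000) 2) = _
    rw [b2]
    exact step57 h (by norm_num) (by norm_num)
  rw [a3]; exact gt_q57 h (by norm_num) (by norm_num)

theorem e57b : (∀ j ≤ 2, ch57 (5417 / 5000) j < Real.pi) ∧ 2 * Real.pi - 3 * al57 (5417 / 5000) < 2 * op57 (5417 / 5000) (ch57 (5417 / 5000) 2) := by
  have h : (1 : ℝ) < (5417 / 5000) := by norm_num
  have a0 : ch57 (5417 / 5000) 0 = 2 * Real.arctan (T57 (5417 / 5000) * (121719445 / 103996111)) := by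
    rw [start57 h]
    exact step57 h (by norm_num) (by norm_num)
  have b0 : op57 (5417 / 5000) (ch57 (5417 / 5000) 0) = 2 * Real.arctan (T57 (5417 / 5000) * (1646674421574 / 659354233565)) :=
    opv57 h (by norm_num) a0 (by norm_num)
  have a1 : ch57 (5417 / 5000) 1 = 2 * Real.arctan (T57 (5417 / 5000) * (1411020452269 / 1034381881435)) := by
    change 2 * Real.pi - 3 * al57 (5417 / 5000) - op57 (5417 / 5000) (ch57 (5417 / 5000) 0) = _
    rw [b0]
    exact step57 h (by norm_num) (by norm_num)
  have b1 : op57 (5417 / 5000) (ch57 (5417 / 5000) 1) = 2 * Real.arctan (T57 (5417 / 5000) * (16378402710641790 / 7643497789941173)) :=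
    opv57 h (by norm_num) a1 (by norm_num)
  have a2 : ch57 (5417 / 5000) 2 = 2 * Real.arctan (T57 (5417 / 5000) * (16248609529075309 / 10244879354273827)) := by
    change 2 * Real.pi - 3 * al57 (5417 / 5000) - op57 (5417 / 5000) (ch57 (5417 / 5000) 1) = _
    rw [b1]
    exact step57 h (by norm_num) (by norm_num)
  have b2 : op57 (5417 / 5000) (ch57 (5417 / 5000) 2) = 2 * Real.arctan (T57 (5417 / 5000) * (162217419695571776718 / 88018717819000948853)) :=
    opv57 h (by norm_num) a2 (by norm_num)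
  have a3 : ch57 (5417 / 5000) 3 = 2 * Real.arctan (T57 (5417 / 5000) * (186054568146744993277 / 100975890415459546147)) := by
    change 2 * Real.pi - 3 * al57 (5417 / 5000) - op57 (5417 / 5000) (ch57 (5417 / 5000) 2) = _
    rw [b2]
    exact step57 h (by norm_num) (by norm_num)
  refine ⟨fun j hj => ?_, ?_⟩
  · interval_cases j
    · rw [a0]; exact two_arctan_lt57 _
    · rw [a1]; exact two_arctan_lt57 _
    · rw [a2]; exact two_arctan_lt57 _
  · exact gtB57 h (by norm_num) b2 a3 (by norm_num)

theorem e57c : 2 * op57 (2167 / 2000) (ch57 (2167 / 2000) 2) < 2 * Real.pi - 3 * al57 (2167 / 2000) := by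
  have h : (1 : ℝ) < (2167 / 2000) := by norm_num
  have a0 : ch57 (2167 / 2000) 0 = 2 * Real.arctan (T57 (2167 / 2000) * (19479445 / 16640111)) := by
    rw [start57 h]
    exact step57 h (by norm_num) (by norm_num)
  have b0 : op57 (2167 / 2000) (ch57 (2167 / 2000) 0) = 2 * Real.arctan (T57 (2167 / 2000) * (105398463074 / 42211957315)) :=
    opv57 h (by norm_num) a0 (by norm_num)
  have a1 : ch57 (2167 / 2000) 1 = 2 * Real.arctan (T57 (2167 / 2000) * (90339667019 / 66202488685)) := by
    change 2 * Real.pi - 3 * al57 (2167 / 2000) - op57 (2167 / 2000) (ch57 (2167 / 2000) 0) = _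
    rw [b0]
    exact step57 h (by norm_num) (by norm_num)
  have b1 : op57 (2167 / 2000) (ch57 (2167 / 2000) 1) = 2 * Real.arctan (T57 (2167 / 2000) * (419326563330790 / 195766058430173)) :=
    opv57 h (by norm_num) a1 (by norm_num)
  have a2 : ch57 (2167 / 2000) 2 = 2 * Real.arctan (T57 (2167 / 2000) * (416183057065309 / 262270645755827)) := by
    change 2 * Real.pi - 3 * al57 (2167 / 2000) - op57 (2167 / 2000) (ch57 (2167 / 2000) 1) = _
    rw [b1]
    exact step57 h (by norm_num) (by norm_num)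
  have b2 : op57 (2167 / 2000) (ch57 (2167 / 2000) 2) = 2 * Real.arctan (T57 (2167 / 2000) * (1661222270217408218 / 901868684660524603)) :=
    opv57 h (by norm_num) a2 (by norm_num)
  have a3 : ch57 (2167 / 2000) 3 = 2 * Real.arctan (T57 (2167 / 2000) * (1906457837155130027 / 1033960510871673397)) := by
    change 2 * Real.pi - 3 * al57 (2167 / 2000) - op57 (2167 / 2000) (ch57 (2167 / 2000) 2) = _
    rw [b2]
    exact step57 h (by norm_num) (by norm_num)
  exact ltB57 h (by norm_num) b2 a3 (by norm_num)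

theorem e57e : (∀ j < 2, ch57 (439 / 400) j < Real.pi) ∧ ch57 (439 / 400) 2 < q57 (439 / 400) := by
  have h : (1 : ℝ) < (439 / 400) := by norm_num
  have a0 : ch57 (439 / 400) 0 = 2 * Real.arctan (T57 (439 / 400) * (803605 / 669679)) := by
    rw [start57 h]
    exact step57 h (by norm_num) (by norm_num)
  have b0 : op57 (439 / 400) (ch57 (439 / 400) 0) = 2 * Real.arctan (T57 (439 / 400) * (855849762 / 352782595)) :=
    opv57 h (by norm_num) a0 (by norm_num)
  have a1 : ch57 (439 / 400) 1 = 2 * Real.arctan (T57 (439 / 400) * (761747147 / 531796205)) := by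
    change 2 * Real.pi - 3 * al57 (439 / 400) - op57 (439 / 400) (ch57 (439 / 400) 0) = _
    rw [b0]
    exact step57 h (by norm_num) (by norm_num)
  have b1 : op57 (439 / 400) (ch57 (439 / 400) 1) = 2 * Real.arctan (T57 (439 / 400) * (679635549990 / 334406997533)) :=
    opv57 h (by norm_num) a1 (by norm_num)
  have a2 : ch57 (439 / 400) 2 = 2 * Real.arctan (T57 (439 / 400) * (715950656989 / 419780406067)) := by
    change 2 * Real.pi - 3 * al57 (439 / 400) - op57 (439 / 400) (ch57 (439 / 400) 1) = _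
    rw [b1]
    exact step57 h (by norm_num) (by norm_num)
  refine ⟨fun j hj => ?_, ?_⟩
  · interval_cases j
    · rw [a0]; exact two_arctan_lt57 _
    · rw [a1]; exact two_arctan_lt57 _
  · rw [a2]; exact lt_q57 h (by norm_num) (by norm_num)

theorem e57f : q57 (686 / 625) < ch57 (686 / 625) 2 := by
  have h : (1 : ℝ) < (686 / 625) := by norm_num
  have a0 : ch57 (686 / 625) 0 = 2 * Real.arctan (T57 (686 / 625) * (1962355 / 1635029)) := by
    rw [start57 h]
    exact step57 h (by norm_num) (by norm_num)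
  have b0 : op57 (686 / 625) (ch57 (686 / 625) 0) = 2 * Real.arctan (T57 (686 / 625) * (3265152913 / 1346175530)) :=
    opv57 h (by norm_num) a0 (by norm_num)
  have a1 : ch57 (686 / 625) 1 = 2 * Real.arctan (T57 (686 / 625) * (2906913253 / 2028697595)) := by
    change 2 * Real.pi - 3 * al57 (686 / 625) - op57 (686 / 625) (ch57 (686 / 625) 0) = _
    rw [b0]
    exact step57 h (by norm_num) (by norm_num)
  have b1 : op57 (686 / 625) (ch57 (686 / 625) 1) = 2 * Real.arctan (T57 (686 / 625) * (4051309097215 / 1994142491558)) :=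
    opv57 h (by norm_num) a1 (by norm_num)
  have a2 : ch57 (686 / 625) 2 = 2 * Real.arctan (T57 (686 / 625) * (4269576018139 / 2502082065317)) := by
    change 2 * Real.pi - 3 * al57 (686 / 625) - op57 (686 / 625) (ch57 (686 / 625) 1) = _
    rw [b1]
    exact step57 h (by norm_num) (by norm_num)
  rw [a2]; exact gt_q57 h (by norm_num) (by norm_num)

theorem e57g : (∀ j ≤ 1, ch57 (447 / 400) j < Real.pi) ∧ 2 * Real.pi - 3 * al57 (447 / 400) < 2 * op57 (447 / 400) (ch57 (447 / 400) 1) := by
  have h : (1 : ℝ) < (447 / 400) := by norm_num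
  have a0 : ch57 (447 / 400) 0 = 2 * Real.arctan (T57 (447 / 400) * (839045 / 675391)) := by
    rw [start57 h]
    exact step57 h (by norm_num) (by norm_num)
  have b0 : op57 (447 / 400) (ch57 (447 / 400) 0) = 2 * Real.arctan (T57 (447 / 400) * (873955954 / 375053115)) :=
    opv57 h (by norm_num) a0 (by norm_num)
  have a1 : ch57 (447 / 400) 1 = 2 * Real.arctan (T57 (447 / 400) * (819413699 / 534492085)) := by
    change 2 * Real.pi - 3 * al57 (447 / 400) - op57 (447 / 400) (ch57 (447 / 400) 0) = _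
    rw [b0]
    exact step57 h (by norm_num) (by norm_num)
  have b1 : op57 (447 / 400) (ch57 (447 / 400) 1) = 2 * Real.arctan (T57 (447 / 400) * (691632757990 / 366277923453)) :=
    opv57 h (by norm_num) a1 (by norm_num)
  have a2 : ch57 (447 / 400) 2 = 2 * Real.arctan (T57 (447 / 400) * (791259273149 / 419132497747)) := by
    change 2 * Real.pi - 3 * al57 (447 / 400) - op57 (447 / 400) (ch57 (447 / 400) 1) = _
    rw [b1]
    exact step57 h (by norm_num) (by norm_num)
  refine ⟨fun j hj => ?_, ?_⟩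
  · interval_cases j
    · rw [a0]; exact two_arctan_lt57 _
    · rw [a1]; exact two_arctan_lt57 _
  · exact gtB57 h (by norm_num) b1 a2 (by norm_num)

theorem e57h : 2 * op57 (1397 / 1250) (ch57 (1397 / 1250) 1) < 2 * Real.pi - 3 * al57 (1397 / 1250) := by
  have h : (1 : ℝ) < (1397 / 1250) := by norm_num
  have a0 : ch57 (1397 / 1250) 0 = 2 * Real.arctan (T57 (1397 / 1250) * (8195545 / 6595891)) := by
    rw [start57 h]
    exact step57 h (by norm_num) (by norm_num)
  have b0 : op57 (1397 / 1250) (ch57 (1397 / 1250) 0) = 2 * Real.arctan (T57 (1397 / 1250) * (26673783204 / 11449176365)) :=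
    opv57 h (by norm_num) a0 (by norm_num)
  have a1 : ch57 (1397 / 1250) 1 = 2 * Real.arctan (T57 (1397 / 1250) * (25015494799 / 16311777385)) := by
    change 2 * Real.pi - 3 * al57 (1397 / 1250) - op57 (1397 / 1250) (ch57 (1397 / 1250) 0) = _
    rw [b0]
    exact step57 h (by norm_num) (by norm_num)
  have b1 : op57 (1397 / 1250) (ch57 (1397 / 1250) 1) = 2 * Real.arctan (T57 (1397 / 1250) * (65964827744940 / 34946646234203)) :=
    opv57 h (by norm_num) a1 (by norm_num)
  have a2 : ch57 (1397 / 1250) 2 = 2 * Real.arctan (T57 (1397 / 1250) * (75497367525049 / 39971030957047)) := by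
    change 2 * Real.pi - 3 * al57 (1397 / 1250) - op57 (1397 / 1250) (ch57 (1397 / 1250) 1) = _
    rw [b1]
    exact step57 h (by norm_num) (by norm_num)
  exact ltB57 h (by norm_num) b1 a2 (by norm_num)

theorem e57k : (∀ j < 1, ch57 (11477 / 10000) j < Real.pi) ∧ ch57 (11477 / 10000) 1 < q57 (11477 / 10000) := by
  have h : (1 : ℝ) < (11477 / 10000) := by norm_num
  have a0 : ch57 (11477 / 10000) 0 = 2 * Real.arctan (T57 (11477 / 10000) * (558607645 / 427358471)) := by
    rw [start57 h]
    exact step57 h (by norm_num) (by norm_num)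
  have b0 : op57 (11477 / 10000) (ch57 (11477 / 10000) 0) = 2 * Real.arctan (T57 (11477 / 10000) * (14083171053334 / 6411139941665)) :=
    opv57 h (by norm_num) a0 (by norm_num)
  have a1 : ch57 (11477 / 10000) 1 = 2 * Real.arctan (T57 (11477 / 10000) * (14231699138329 / 8400167088335)) := by
    change 2 * Real.pi - 3 * al57 (11477 / 10000) - op57 (11477 / 10000) (ch57 (11477 / 10000) 0) = _
    rw [b0]
    exact step57 h (by norm_num) (by norm_num)
  refine ⟨fun j hj => ?_, ?_⟩
  · interval_cases j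
    · rw [a0]; exact two_arctan_lt57 _
  · rw [a1]; exact lt_q57 h (by norm_num) (by norm_num)

theorem e57l : q57 (5739 / 5000) < ch57 (5739 / 5000) 1 := by
  have h : (1 : ℝ) < (5739 / 5000) := by norm_num
  have a0 : ch57 (5739 / 5000) 0 = 2 * Real.arctan (T57 (5739 / 5000) * (139680605 / 106843879)) := by
    rw [start57 h]
    exact step57 h (by norm_num) (by norm_num)
  have b0 : op57 (5739 / 5000) (ch57 (5739 / 5000) 0) = 2 * Real.arctan (T57 (5739 / 5000) * (1760573438162 / 801626992095)) :=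
    opv57 h (by norm_num) a0 (by norm_num)
  have a1 : ch57 (5739 / 5000) 1 = 2 * Real.arctan (T57 (5739 / 5000) * (1779570784447 / 1050037242905)) := by
    change 2 * Real.pi - 3 * al57 (5739 / 5000) - op57 (5739 / 5000) (ch57 (5739 / 5000) 0) = _
    rw [b0]
    exact step57 h (by norm_num) (by norm_num)
  rw [a1]; exact gt_q57 h (by norm_num) (by norm_num)

theorem e57m : (∀ j ≤ 0, ch57 (11989 / 10000) j < Real.pi) ∧ 2 * Real.pi - 3 * al57 (11989 / 10000) < 2 * op57 (11989 / 10000) (ch57 (11989 / 10000) 0) := by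
  have h : (1 : ℝ) < (11989 / 10000) := by norm_num
  have a0 : ch57 (11989 / 10000) 0 = 2 * Real.arctan (T57 (11989 / 10000) * (618680605 / 435823879)) := by
    rw [start57 h]
    exact step57 h (by norm_num) (by norm_num)
  have b0 : op57 (11989 / 10000) (ch57 (11989 / 10000) 0) = 2 * Real.arctan (T57 (11989 / 10000) * (14808423760662 / 7417361773345)) :=
    opv57 h (by norm_num) a0 (by norm_num)
  have a1 : ch57 (11989 / 10000) 1 = 2 * Real.arctan (T57 (11989 / 10000) * (16845141820697 / 8439766696655)) := by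
    change 2 * Real.pi - 3 * al57 (11989 / 10000) - op57 (11989 / 10000) (ch57 (11989 / 10000) 0) = _
    rw [b0]
    exact step57 h (by norm_num) (by norm_num)
  refine ⟨fun j hj => ?_, ?_⟩
  · interval_cases j
    · rw [a0]; exact two_arctan_lt57 _
  · exact gtB57 h (by norm_num) b0 a1 (by norm_num)

theorem e57n : 2 * op57 (1199 / 1000) (ch57 (1199 / 1000) 0) < 2 * Real.pi - 3 * al57 (1199 / 1000) := by
  have h : (1 : ℝ) < (1199 / 1000) := by norm_num
  have a0 : ch57 (1199 / 1000) 0 = 2 * Real.arctan (T57 (1199 / 1000) * (6188005 / 4358399)) := by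
    rw [start57 h]
    exact step57 h (by norm_num) (by norm_num)
  have b0 : op57 (1199 / 1000) (ch57 (1199 / 1000) 0) = 2 * Real.arctan (T57 (1199 / 1000) * (14809839802 / 7419417995)) :=
    opv57 h (by norm_num) a0 (by norm_num)
  have a1 : ch57 (1199 / 1000) 1 = 2 * Real.arctan (T57 (1199 / 1000) * (16850487787 / 8439789005)) := by
    change 2 * Real.pi - 3 * al57 (1199 / 1000) - op57 (1199 / 1000) (ch57 (1199 / 1000) 0) = _
    rw [b0]
    exact step57 h (by norm_num) (by norm_num)
  exact ltB57 h (by norm_num) b0 a1 (by norm_num)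

theorem e57p : (∀ j < 0, ch57 (611 / 500) j < Real.pi) ∧ ch57 (611 / 500) 0 < q57 (611 / 500) := by
  have h : (1 : ℝ) < (611 / 500) := by norm_num
  have a0 : ch57 (611 / 500) 0 = 2 * Real.arctan (T57 (611 / 500) * (1616605 / 1098679)) := by
    rw [start57 h]
    exact step57 h (by norm_num) (by norm_num)
  refine ⟨fun j hj => ?_, ?_⟩
  · omega
  · rw [a0]; exact lt_q57 h (by norm_num) (by norm_num)

/-- **the chain diameters with 1077/1000 <= cosh d <= 611/500** -/
theorem exc57 {d : ℝ} (hd : 0 < d) (h1 : 1077 / 1000 ≤ Real.cosh d) (h2 : Real.cosh d ≤ 611 / 500)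
    (hE : Exc66 d) :
    (11989 / 10000 < Real.cosh d ∧ Real.cosh d < 11990 / 10000 ∧ ch66 d 0 < qa66 d ∧
      2 * opp51 d (ch66 d 0) = 2 * Real.pi - 3 * alpha d) ∨
    (11477 / 10000 < Real.cosh d ∧ Real.cosh d < 11478 / 10000 ∧ ch66 d 0 < qa66 d ∧
      ch66 d 1 = qa66 d) ∨
    (11175 / 10000 < Real.cosh d ∧ Real.cosh d < 11176 / 10000 ∧ ch66 d 0 < qa66 d ∧
      ch66 d 1 < qa66 d ∧ 2 * opp51 d (ch66 d 1) = 2 * Real.pi - 3 * alpha d) ∨
    (10975 / 10000 < Real.cosh d ∧ Real.cosh d < 10976 / 10000 ∧ ch66 d 0 < qa66 d ∧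
      ch66 d 1 < qa66 d ∧ ch66 d 2 = qa66 d) ∨
    (10834 / 10000 < Real.cosh d ∧ Real.cosh d < 10835 / 10000 ∧ ch66 d 0 < qa66 d ∧
      ch66 d 1 < qa66 d ∧ ch66 d 2 < qa66 d ∧
      2 * opp51 d (ch66 d 2) = 2 * Real.pi - 3 * alpha d) := by
  obtain ⟨i, hb, hi⟩ := hE
  have hq : qa66 d = q57 (Real.cosh d) := rfl
  have ho : ∀ t, opp51 d t = op57 (Real.cosh d) t := fun t => rfl
  simp only [ch57_eq hd, hq, ho, al57_eq hd] at hb hi ⊢
  generalize Real.cosh d = C at h1 h2 hb hi ⊢
  have hC : 1 < C := by linarith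
  have n3 : (∀ j < 3, ch57 C j < q57 C) → q57 C < ch57 C 3 := fun hb3 =>
    upA57 (by norm_num) h1 hb3 e57a
  have n0 : ch57 C 0 < q57 C := lowA57 hC h2 e57p
  rcases lt_or_ge i 3 with h3 | h3
  · have h4 : i = 0 ∨ i = 1 ∨ i = 2 := by omega
    rcases h4 with rfl | rfl | rfl
    · rcases hi with hi | ⟨hi, hi2⟩
      · exact absurd hi n0.ne
      · left
        refine ⟨?_, ?_, hi, hi2⟩
        · by_contra h5
          rw [not_lt] at h5
          have := lowB57 hC (show C ≤ 11989 / 10000 by linarith) e57m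
          linarith
        · by_contra h5
          rw [not_lt] at h5
          have := upB57 (i := 0) (by norm_num) (show (1199 / 1000 : ℝ) ≤ C by linarith) (fun j hj => by
            obtain rfl : j = 0 := by omega
            exact hi) e57n
          linarith
    · have k0 := hb 0 (by omega)
      rcases hi with hi | ⟨hi, hi2⟩
      · right; left
        refine ⟨?_, ?_, k0, hi⟩
        · by_contra h5
          rw [not_lt] at h5
          have := lowA57 hC (show C ≤ 11477 / 10000 by linarith) e57k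
          linarith
        · by_contra h5
          rw [not_lt] at h5
          have := upA57 (i := 1) (by norm_num) (show (5739 / 5000 : ℝ) ≤ C by linarith) hb e57l
          linarith
      · right; right; left
        refine ⟨?_, ?_, k0, hi, hi2⟩
        · by_contra h5
          rw [not_lt] at h5
          have := lowB57 hC (show C ≤ 447 / 400 by linarith) e57g
          linarith
        · by_contra h5
          rw [not_lt] at h5
          have := upB57 (i := 1) (by norm_num) (show (1397 / 1250 : ℝ) ≤ C by linarith) (fun j hj => by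
            rcases Nat.lt_or_ge j 1 with h6 | h6
            · exact hb j h6
            · obtain rfl : j = 1 := by omega
              exact hi) e57h
          linarith
    · have k0 := hb 0 (by omega)
      have k1 := hb 1 (by omega)
      rcases hi with hi | ⟨hi, hi2⟩
      · right; right; right; left
        refine ⟨?_, ?_, k0, k1, hi⟩
        · by_contra h5
          rw [not_lt] at h5
          have := lowA57 hC (show C ≤ 439 / 400 by linarith) e57e
          linarith
        · by_contra h5
          rw [not_lt] at h5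
          have := upA57 (i := 2) (by norm_num) (show (686 / 625 : ℝ) ≤ C by linarith) hb e57f
          linarith
      · right; right; right; right
        refine ⟨?_, ?_, k0, k1, hi, hi2⟩
        · by_contra h5
          rw [not_lt] at h5
          have := lowB57 hC (show C ≤ 5417 / 5000 by linarith) e57b
          linarith
        · by_contra h5
          rw [not_lt] at h5
          have := upB57 (i := 2) (by norm_num) (show (2167 / 2000 : ℝ) ≤ C by linarith) (fun j hj => by
            rcases Nat.lt_or_ge j 2 with h6 | h6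
            · exact hb j h6
            · obtain rfl : j = 2 := by omega
              exact hi) e57c
          linarith
  · exfalso
    have k3 := n3 (fun j hj => hb j (by omega))
    rcases Nat.lt_or_ge 3 i with h4 | h4
    · have := hb 3 h4
      linarith
    · obtain rfl : i = 3 := by omega
      rcases hi with hi | ⟨hi, _⟩
      · linarith
      · linarith

end

end Pool.Agent.PEN
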