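import Pool.Agent.P4.W4Tk57
import Pool.Agent.P4.Exc57
import Pool.Agent.P4.NumT52

/-! # PENNY, token rows: the numbers of the chain and the rows at `d₄` and `d₆` -/

set_option autoImplicit false

namespace Pool.Agent.PEN

open Classical UpperHalfPlane

noncomputable section

/-- the rhombus of two contact triangles -/
theorem opp_al62 {d : ℝ} (hd : 0 < d) : opp51 d (alpha d) = 2 * alpha d := by
  have hC := cosh_gt66 hd
  rw [al57_eq hd]
  unfold opp51 al57
  rw [mul_div_cancel_left₀ _ (two_ne_zero), Real.tan_arctan]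
  obtain ⟨C, hCe⟩ : ∃ C, C = Real.cosh d := ⟨_, rfl⟩
  rw [← hCe] at hC ⊢
  have h1 := T57_sq hC
  have h2 := T57_pos hC
  have h3 := T57_lt_one hC
  have h4 : 2 * Real.arctan (T57 C) = Real.arctan (2 * T57 C / (1 - T57 C ^ 2)) :=
    Real.two_mul_arctan (by linarith) h3
  rw [h4]
  congr 2
  rw [sq, h1]
  have h5 : (2 * C + 1 : ℝ) ≠ 0 := by
    intro h
    linarith
  have h6 : (1 - 1 / (2 * C + 1) : ℝ) = 2 * C / (2 * C + 1) := by
    field_simp
    ring
  rw [h6, div_div_eq_mul_div, div_eq_div_iff (by positivity) (by positivity)]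
  have h7 : T57 C * T57 C * (2 * C + 1) = 1 := by
    rw [h1]
    field_simp
  nlinarith [h7]

/-- the square angle is at most `3/2 α` -/
theorem Qle62 {d : ℝ} (hd : 0 < d) (h3 : 3 * alpha d < Real.pi) :
    qa66 d ≤ 3 / 2 * alpha d := by
  have hC := cosh_gt66 hd
  have hpi := Real.pi_pos
  have ha0 : 0 < alpha d := by
    rw [al57_eq hd]
    exact al57_pos hC
  have e1 : Real.cos (alpha d) = Real.cosh d / (Real.cosh d + 1) := cos_alpha hd
  have e2 : Real.cos (qa66 d) = (Real.cosh d - 1) / (Real.cosh d + 1) := by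
    unfold qa66
    rw [Real.cos_two_mul, Real.cos_sq_arctan]
    have h4 : (1 / √(Real.cosh d)) ^ 2 = 1 / Real.cosh d := by
      rw [div_pow, one_pow, Real.sq_sqrt (by linarith)]
    rw [h4]
    field_simp
    ring
  obtain ⟨h, hh⟩ : ∃ h, h = Real.cos (alpha d) := ⟨_, rfl⟩
  have e3 : Real.cos (qa66 d) = 2 * h - 1 := by
    rw [e2, hh, e1]
    field_simp
    ring
  have h1 : h < 1 := by
    rw [hh, e1, div_lt_one (by linarith)]
    linarith
  have h2 : 1 / 2 < h := by
    rw [hh, e1, lt_div_iff₀ (by linarith)]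
    linarith
  have e4 : Real.cos (3 / 2 * alpha d) ^ 2 = (1 + (4 * h ^ 3 - 3 * h)) / 2 := by
    rw [Real.cos_sq, hh, ← Real.cos_three_mul]
    have : 2 * (3 / 2 * alpha d) = 3 * alpha d := by ring
    rw [this]
    ring
  have e5 : Real.cos (3 / 2 * alpha d) ≤ 2 * h - 1 := by
    apply le_of_sq_le_sq _ (by linarith)
    rw [e4]
    nlinarith [mul_nonneg (by linarith : 0 ≤ 1 - h) (sq_nonneg (2 * h - 1))]
  by_contra hcon
  push Not at hcon
  have := Real.cos_lt_cos_of_nonneg_of_le_pi (by linarith) (by linarith [qa_lt66 hd]) hcon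
  linarith

/-- the sum of the two angles of a rhombus decreases strictly up to the square -/
theorem opp_sum_lt62 {d a t : ℝ} (hd : 0 < d) (ha : 0 < a) (hat : a < t) (ht : t < Real.pi)
    (hb : a < opp51 d t) : t + opp51 d t < a + opp51 d a := by
  have hpi := Real.pi_pos
  have hC : 1 < Real.cosh d := by
    rw [Real.one_lt_cosh]
    exact hd.ne'
  obtain ⟨C, hCe⟩ : ∃ C, C = Real.cosh d := ⟨_, rfl⟩
  unfold opp51 at hb ⊢
  rw [← hCe] at hC hb ⊢
  obtain ⟨P, hP⟩ : ∃ P, P = Real.tan (t / 2) := ⟨_, rfl⟩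
  obtain ⟨A, hA⟩ : ∃ A, A = Real.tan (a / 2) := ⟨_, rfl⟩
  rw [← hP] at hb ⊢
  rw [← hA]
  have hP0 : 0 < P := by
    rw [hP]
    exact Real.tan_pos_of_pos_of_lt_pi_div_two (by linarith) (by linarith)
  have hA0 : 0 < A := by
    rw [hA]
    exact Real.tan_pos_of_pos_of_lt_pi_div_two (by linarith) (by linarith)
  have hC0 : 0 < C := by linarith
  have e1 : t / 2 = Real.arctan P := by
    rw [hP, Real.arctan_tan (by linarith) (by linarith)]
  have e2 : a / 2 = Real.arctan A := by
    rw [hA, Real.arctan_tan (by linarith) (by linarith)]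
  have hAP : A < P := by
    have h : Real.arctan A < Real.arctan P := by
      rw [← e1, ← e2]
      linarith
    exact Real.arctan_lt_arctan_iff.1 h
  have hAQ : A < 1 / (C * P) := by
    have h : Real.arctan A < Real.arctan (1 / (C * P)) := by
      rw [← e2]
      linarith
    exact Real.arctan_lt_arctan_iff.1 h
  have hiC : 1 / C < 1 := by
    rw [div_lt_one hC0]
    exact hC
  have p1 : P * (1 / (C * P)) = 1 / C := by
    field_simp
  have p2 : A * (1 / (C * A)) = 1 / C := by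
    field_simp
  have s1 : Real.arctan P + Real.arctan (1 / (C * P)) =
      Real.arctan ((P + 1 / (C * P)) / (1 - 1 / C)) := by
    rw [Real.arctan_add (by rw [p1]; exact hiC), p1]
  have s2 : Real.arctan A + Real.arctan (1 / (C * A)) =
      Real.arctan ((A + 1 / (C * A)) / (1 - 1 / C)) := by
    rw [Real.arctan_add (by rw [p2]; exact hiC), p2]
  have key : P + 1 / (C * P) < A + 1 / (C * A) := by
    obtain ⟨Q, hQ⟩ : ∃ Q, Q = 1 / (C * P) := ⟨_, rfl⟩
    obtain ⟨B, hB⟩ : ∃ B, B = 1 / (C * A) := ⟨_, rfl⟩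
    rw [← hQ] at hAQ p1 ⊢
    rw [← hB] at p2 ⊢
    have h1 : 0 < (P - A) * (Q - A) := mul_pos (by linarith) (by linarith)
    have h2 : A * (P + Q) < A * (A + B) := by nlinarith
    exact lt_of_mul_lt_mul_left h2 hA0.le
  have h3 : Real.arctan P + Real.arctan (1 / (C * P)) <
      Real.arctan A + Real.arctan (1 / (C * A)) := by
    rw [s1, s2, Real.arctan_lt_arctan_iff]
    exact div_lt_div_of_pos_right key (by linarith)
  linarith

/-- the numbers of a chain of length at most three -/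
theorem Ch_of62 {d : ℝ} {m : ℕ} (hd : 0 < d) (h7 : 2 * Real.pi < 7 * alpha d)
    (h3 : 3 * alpha d < Real.pi) (hm : m ≤ 2) (hb : ∀ j ≤ m, ch66 d j < qa66 d) :
    Ch62 (alpha d) (qa66 d) (opp51 d) (ch66 d) m := by
  have hpi := Real.pi_pos
  have hq := qa_lt66 hd
  have ha0 : 0 < alpha d := by linarith
  have hp : ∀ i, 0 < ch66 d i := ch_pos66 h3
  have e0 : ch66 d 0 = 2 * Real.pi - 5 * alpha d := rfl
  have e1 : ∀ j, ch66 d (j + 1) = 2 * Real.pi - 3 * alpha d - opp51 d (ch66 d j) := fun _ => rfl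
  have hlt : ∀ j ≤ m, ch66 d j < Real.pi := fun j hj => by
    have := hb j hj
    linarith
  have b0 : opp51 d (ch66 d 0) < 2 * alpha d := by
    have := opp_anti66 (d := d) ha0 (by rw [e0]; linarith) (hlt 0 (Nat.zero_le _))
    rw [opp_al62 hd] at this
    exact this
  have hstep : ∀ j, j + 1 ≤ m → ch66 d j < ch66 d (j + 1) := by
    intro j
    induction j with
    | zero =>
      intro _
      rw [e1, e0]
      rw [e0] at b0
      linarith
    | succ j ih =>
      intro hj
      have h1 := ih (by omega)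
      have h2 := opp_anti66 (d := d) (hp j) h1 (hlt (j + 1) (by omega))
      rw [e1 (j + 1), e1 j]
      rw [e1 j] at h2
      linarith
  have mono : ∀ i j, i < j → j ≤ m → ch66 d i < ch66 d j := by
    intro i j
    induction j with
    | zero => intro h; omega
    | succ j ih =>
      intro h hj
      have h1 := hstep j hj
      rcases Nat.lt_or_ge i j with hij | hij
      · exact (ih hij (by omega)).trans h1
      · have : i = j := by omega
        rw [this]
        exact h1
  have hanti : ∀ i j, i < j → j ≤ m → opp51 d (ch66 d j) < opp51 d (ch66 d i) :=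
    fun i j hij hj => opp_anti66 (hp i) (mono i j hij hj) (hlt j hj)
  have hhi : ∀ j ≤ m, opp51 d (ch66 d j) < 2 * alpha d := by
    intro j hj
    rcases Nat.eq_zero_or_pos j with rfl | h
    · exact b0
    · exact (hanti 0 j h hj).trans b0
  have Qb : qa66 d < opp51 d (ch66 d m) := opp_gt_qa66 hd (hp m) (hb m le_rfl)
  constructor
  · exact ha0
  · exact h7
  · linarith
  · rfl
  · intro j _
    rw [e1]
    ring
  · exact mono
  · intro t u h1 h2 h4
    exact opp_anti66 (by linarith) h2 (by linarith)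
  · intro t h1 h2
    exact opp_opp66 (by linarith) (by linarith)
  · exact hb m le_rfl
  · exact Qb
  · linarith
  · exact b0
  · intro k l j hk hl hj h
    have hj' : j = 0 ∨ (j = 1 ∧ m = 2) := by omega
    have hle : ∀ i i', i ≤ i' → i' ≤ m → opp51 d (ch66 d i') ≤ opp51 d (ch66 d i) := by
      intro i i' hi hi'
      rcases Nat.eq_or_lt_of_le hi with rfl | hi
      · exact le_rfl
      · exact (hanti i i' hi hi').le
    rcases hj' with rfl | ⟨rfl, rfl⟩
    · have h1 := hle 0 k (Nat.zero_le _) hk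
      have h2 := hhi l hl
      linarith
    · rcases Nat.eq_zero_or_pos k with rfl | hk0
      · rcases Nat.eq_zero_or_pos l with rfl | hl0
        · have h1 := opp_sum_lt62 hd (hp 0) (mono 0 1 (by omega) (by omega)) (hlt 1 (by omega))
            (by
              have := hb 0 (by omega)
              have := hanti 1 2 (by omega) le_rfl
              linarith)
          have h2 := e1 0
          rw [zero_add] at h2
          linarith
        · have h1 := hle 1 l hl0 hl
          have h2 := hhi 0 (by omega)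
          linarith
      · have h1 := hle 1 k hk0 hk
        have h2 := hhi l hl
        linarith

/-- the function `F66` at a chain of length `m + 1` -/
theorem Fc_of62 {V : Type} (G : Tg V) {d : ℝ} {m : ℕ} (h3 : 3 * alpha d < Real.pi)
    (hb : ∀ j ≤ m, ch66 d j < qa66 d) (hend : qa66 d ≤ ch66 d (m + 1)) (hd : 0 < d)
    (hrg : ∀ x ∈ iJ G, RC G (G.cl x) → 0 < TH G x ∧ TH G x < Real.pi) :
    Fc62 G (qa66 d) (opp51 d) (ch66 d) m (F66 G d) := by
  have hGc : ∀ t, Gc66 d t ↔ ∃ j, j ≤ m ∧ t = ch66 d j := by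
    intro t
    constructor
    · rintro ⟨i, h1, h2⟩
      refine ⟨i, ?_, h1⟩
      by_contra hi
      have := h2 (m + 1) (by omega)
      linarith
    · rintro ⟨j, hj, h⟩
      exact ⟨j, h, fun i hi => hb i (by omega)⟩
  have hq := qa_lt66 hd
  have hpi := Real.pi_pos
  constructor
  · intro x _ _ h
    rw [F_lt66 G h, hGc]
  · intro x hx rx h
    rw [F_gt66 G h, not_not, hGc]
    obtain ⟨h1, h2⟩ := hrg x hx rx
    constructor
    · rintro ⟨j, hj, h⟩
      refine ⟨j, hj, ?_⟩
      rw [← h, opp_opp66 h1 h2]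
    · rintro ⟨j, hj, h⟩
      refine ⟨j, hj, ?_⟩
      rw [h, opp_opp66 (ch_pos66 h3 j) (by have := hb j hj; linarith)]

section R
variable {G : Tg ℍ} {d : ℝ}

/-- **the token row at `d₄`** -/
theorem row4_62 (hG : G.Geo4 (alpha d) kap (Ust69 d)) (hD : DelG G d)
    (hP : PentaG G (alpha d)) (hb : ∀ j ≤ 1, ch66 d j < qa66 d)
    (he : 2 * opp51 d (ch66 d 1) = 2 * Real.pi - 3 * alpha d) :
    TokRow G (alpha d) (1 / 8) := by
  have hd := hD.hd
  have h3 := hG.al2
  have hA : ∀ C ∈ G.iC, A3 (alpha d) * (G.cT C).card ≤ ∑ x ∈ G.cD C, G.ar x.1 x.2 / 3 :=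
    fun C hC => hG.pol C (cB_of_iC66 G hC)
  have hR := W4.rf51 hG hD hA
  have hF := W4.F_alt66 G hd hG hR
  have hrg : ∀ x ∈ iJ G, RC G (G.cl x) → 0 < TH G x ∧ TH G x < Real.pi :=
    fun x hx rx => W4.TH_rg66 G hG hR hx rx
  obtain ⟨s', p, q, O⟩ := W4.or62 G hG hR
  have c := Ch_of62 hd hG.al1 h3 (by omega) hb
  have hend : qa66 d ≤ ch66 d (1 + 1) := by
    have h1 := c.Qb
    have h2 : ch66 d (1 + 1) = 2 * Real.pi - 3 * alpha d - opp51 d (ch66 d 1) := rfl
    linarith
  have f := Fc_of62 G h3 hb hend hd hrg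
  obtain ⟨a, h1, h2⟩ := W4.token1_62 G hG O c f (KP57 G (alpha d) (F66 G d) p) (by
    intro v hv
    obtain ⟨t0, k1, k2, k3, k4, k5, k6, k7, k8, _⟩ := W4.Kst57 G hG O c f he hv
    exact ⟨t0, ((mem_Jv51 G).1 k1).2, ((mem_Jv51 G).1 k1).1, k2, ((mem_Jv51 G).1 k3).1, k5, k7,
      ((mem_Jv51 G).1 k4).1, k6, k8⟩)
  have hfr := fr57_ok G O c (1 / 8) hF
  have hg : ch66 d 1 ≤ 3 / 2 * alpha d := by
    have := Qle62 hd h3
    have := c.gQ
    linarith
  have := W4.acc57 G hG O c f he hg (de := 1 / 8) (by norm_num) (by norm_num) hF hfr hA hP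
    (fun v => {a v}) ?_ ?_ ?_
  · exact this
  · intro v hv t ht
    rw [Finset.mem_singleton] at ht
    subst ht
    obtain ⟨k1, k2, k3, k4, k5, k6, k7⟩ := h1 v hv
    exact ⟨k1, k2, k3, k4, by omega, fun h => by omega, fun h _ => k6 h, fun h _ => k7 h⟩
  · intro v v' hv hv' hne
    rw [Finset.disjoint_singleton]
    exact fun h => hne (h2 v v' hv hv' h)
  · intro v hv
    rw [Finset.sum_singleton]
    obtain ⟨k1, k2, ⟨j, hj, k3⟩, k4, k5, k6, k7⟩ := h1 v hv
    rw [if_neg (by omega), hfr.lo _ k1 k2 j hj k3]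
    have hj' : (j : ℝ) ≤ 1 := by exact_mod_cast hj
    push_cast
    linarith

/-- **the token row at `d₆`** -/
theorem row6_62 (hG : G.Geo4 (alpha d) kap (Ust69 d)) (hD : DelG G d) (hH : HullT G)
    (hP : PentaG G (alpha d)) (hb : ∀ j ≤ 2, ch66 d j < qa66 d)
    (he : 2 * opp51 d (ch66 d 2) = 2 * Real.pi - 3 * alpha d) :
    TokRow G (alpha d) 0 := by
  have hd := hD.hd
  have h3 := hG.al2
  have hA : ∀ C ∈ G.iC, A3 (alpha d) * (G.cT C).card ≤ ∑ x ∈ G.cD C, G.ar x.1 x.2 / 3 :=
    fun C hC => hG.pol C (cB_of_iC66 G hC)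
  have hR := W4.rf51 hG hD hA
  have hF := W4.F_alt66 G hd hG hR
  have hrg : ∀ x ∈ iJ G, RC G (G.cl x) → 0 < TH G x ∧ TH G x < Real.pi :=
    fun x hx rx => W4.TH_rg66 G hG hR hx rx
  obtain ⟨s', p, q, O⟩ := W4.or62 G hG hR
  have c := Ch_of62 hd hG.al1 h3 le_rfl hb
  have hend : qa66 d ≤ ch66 d (2 + 1) := by
    have h1 := c.Qb
    have h2 : ch66 d (2 + 1) = 2 * Real.pi - 3 * alpha d - opp51 d (ch66 d 2) := rfl
    linarith
  have f := Fc_of62 G h3 hb hend hd hrg
  have hsum := W4.sumTH62 G hG hH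
  obtain ⟨a, b, h0, h1, h2⟩ := W4.tokens62 G hG O c (fun x hx rx => (hR.low x hx rx).1) le_rfl
    hsum f (KP57 G (alpha d) (F66 G d) p) (by
    intro v hv
    obtain ⟨t0, k1, k2, k3, k4, k5, k6, k7, k8, _⟩ := W4.Kst57 G hG O c f he hv
    exact ⟨t0, ((mem_Jv51 G).1 k1).2, ((mem_Jv51 G).1 k1).1, k2, ((mem_Jv51 G).1 k3).1, k5, k7,
      ((mem_Jv51 G).1 k4).1, k6, k8⟩)
  have hfr := fr57_ok G O c 0 hF
  have hg : ch66 d 2 ≤ 3 / 2 * alpha d := by
    have := Qle62 hd h3
    have := c.gQ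
    linarith
  have := W4.acc57 G hG O c f he hg (de := 0) le_rfl (by norm_num) hF hfr hA hP
    (fun v => {a v, b v}) ?_ ?_ ?_
  · exact this
  · intro v hv t ht
    rw [Finset.mem_insert, Finset.mem_singleton] at ht
    obtain ⟨k1, k2, k3, k4, k5, k6, k7, k8⟩ := h1 v hv t ht
    exact ⟨k1, k2, k3, k4, k5, k6, fun h _ => k7 h, fun h _ => k8 h⟩
  · intro v v' hv hv' hne
    rw [Finset.disjoint_left]
    intro t ht ht'
    rw [Finset.mem_insert, Finset.mem_singleton] at ht ht'
    exact hne (h2 v v' hv hv' t ht ht')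
  · intro v hv
    rw [Finset.sum_pair (h0 v hv)]
    have key : ∀ t, t = a v ∨ t = b v →
        (1 : ℝ) / 2 ≤ (if t.2 = 2 then 1 / 2 else fr57 G (opp51 d) (ch66 d) 2 0 (F66 G d) t.1 / 2) := by
      intro t ht
      obtain ⟨k1, k2, ⟨j, hj, k3⟩, _⟩ := h1 v hv t ht
      split_ifs with h
      · exact le_rfl
      · rw [hfr.lo _ k1 k2 j hj k3]
        linarith
    have := key (a v) (Or.inl rfl)
    have := key (b v) (Or.inr rfl)
    linarith

end R

end

end Pool.Agent.PEN
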