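import Pool.Agent.P4.Y71n
import Pool.Agent.P4.NumT52

/-! # PENNY, version 6: the range `A3 ≥ 0.0538` with the rows `B` and `D_B` as hypotheses

At a chain diameter the rows are proved with tokens; everything else is as in `Y71m`, `Y71n`. -/

set_option autoImplicit false

namespace Pool.Agent.PEN

open Classical UpperHalfPlane

noncomputable section

/-- the row `D_B` in the structure -/
def DBRow71 {V : Type} (G : Tg V) (al : ℝ) : Prop :=
  8 * G.P.card ≤ 5 * G.oJ.card + (G.shp al).card + G.iD.card + 2 * G.iI.card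

/-- the part of the argument common to the two tables -/
theorem commonR71 {d e c0 K r c1 v w : ℝ} (hd : 0 < d) (hC : Real.cosh d ≤ 611 / 500)
    (L : Line71 d e c0 K r c1 v w) {G : Tg ℍ}
    (hG : G.Geo4 (alpha d) kap (Ust69 d)) (hD : DelG G d)
    (hB : TokRow G (alpha d) 0) (hDB : DBRow71 G (alpha d))
    (hn : 10 ≤ G.P.card)
    (hfin : ∀ (t I : ℕ) (A : ℝ),
      Num5 d (6 / 7) G.P.card G.oJ.card (G.shp (alpha d)).card t I
        (G.D.filter (fun x => G.con x.1 x.2)).card A → G.iD.card = 3 * t → G.iI.card = 2 * I →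
      A = ∑ x ∈ G.iD, G.ar x.1 x.2 / 3 → 98 ≤ G.P.card → 3 ≤ G.oJ.card →
      G.oJ.card ≤ G.P.card →
      (2 - e) * ((G.P.card : ℝ) - G.oJ.card) ≤
        2 * (2 * I : ℕ) + e / 2 * (A / A3 (alpha d) - t) →
      8 * G.P.card ≤ 5 * G.oJ.card + (G.shp (alpha d)).card + 3 * t + 2 * (2 * I) →
      3 * t + G.oJ.card < 2 * Lb G.P.card + 2 + 2 * I) :
    (G.D.filter (fun x => G.con x.1 x.2)).card ≤ 2 * Lb G.P.card := by
  obtain ⟨t, I, A, h, hiD, hiI, hAs⟩ := num5s hG hD L.side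
  have hB0 := hB.num hiD hiI hAs
  unfold DBRow71 at hDB
  apply fin52 h.toNum4
  have hE1 := h.E1
  rcases Nat.lt_or_ge G.P.card 98 with hn2 | hn2
  · exact G_num52 hd hC hn (by omega) (by omega) h.low h.up h.G
  rcases Nat.lt_or_ge G.oJ.card 3 with hb | hb
  · exact small_b52 hd hb hn h.low h.up
  rcases Nat.lt_or_ge G.P.card G.oJ.card with hnb | hnb
  · have h5 := (Lb_facts11 G.P.card (by omega)).1
    omega
  have hnb' : (G.oJ.card : ℝ) ≤ G.P.card := by exact_mod_cast hnb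
  have hB' := conv71 (y := 0) (c := 8) (j := 2 * (2 * I)) (alpha_pos hd) (A3_pos69 hd) L.he hnb'
    h.low (by linarith)
  refine hfin t I A h hiD hiI hAs hn2 hb hnb ?_ (by omega)
  push_cast
  linarith

/-- the range `0.0570 ≤ A3 ≤ 0.0646` -/
theorem main_DBR71 {d e c0 K r c1 v w : ℝ} (hd : 0 < d) (hC : Real.cosh d ≤ 611 / 500)
    (hT : TD e c0 K r c1 v w)
    (L : Line71 d e c0 K r c1 v w) {G : Tg ℍ}
    (hG : G.Geo4 (alpha d) kap (Ust69 d)) (hD : DelG G d)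
    (hB : TokRow G (alpha d) 0) (hDB : DBRow71 G (alpha d))
    (hn : 10 ≤ G.P.card) :
    (G.D.filter (fun x => G.con x.1 x.2)).card ≤ 2 * Lb G.P.card := by
  refine commonR71 hd hC L hG hD hB hDB hn fun t I A h hiD hiI hAs hn2 hb hnb hB hDB => ?_
  obtain ⟨f1, f2, f3, f4, f5⟩ := L.unit hd h
  exact arDB hT _ _ t (2 * I) _ _ hn2 hb h.E1 f1 f2 f3 f4 hB (by have := h.D; omega)
    (by omega) f5

/-- the range `0.0538 ≤ A3 ≤ 0.0570` -/
theorem main_DSR71 {d e c0 K r c1 v w κ : ℝ} (hd : 0 < d) (hC : Real.cosh d ≤ 611 / 500)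
    (hT : TS e c0 K r c1 v w κ) (hκ0 : 0 ≤ κ) (he4 : 2 * Real.pi - 6 * alpha d ≤ alpha d / 4)
    (m1 : 2 * Real.pi - 5 * alpha d + opp51 d (2 * Real.pi - 5 * alpha d) ≤ 3 * alpha d)
    (m2 : κ * A3 (alpha d) ≤ 6 * alpha d -
      2 * (2 * Real.pi - 5 * alpha d + opp51 d (2 * Real.pi - 5 * alpha d)))
    (L : Line71 d e c0 K r c1 v w) {G : Tg ℍ}
    (hG : G.Geo4 (alpha d) kap (Ust69 d)) (hD : DelG G d) (hP : PentaG G (alpha d))
    (hB : TokRow G (alpha d) 0) (hDB : DBRow71 G (alpha d))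
    (hn : 10 ≤ G.P.card) :
    (G.D.filter (fun x => G.con x.1 x.2)).card ≤ 2 * Lb G.P.card := by
  refine commonR71 hd hC L hG hD hB hDB hn fun t I A h hiD hiI hAs hn2 hb hnb hB hDB => ?_
  obtain ⟨f1, f2, f3, f4, f5⟩ := L.unit hd h
  have hA : ∀ C ∈ G.iC, A3 (alpha d) * (G.cT C).card ≤ ∑ x ∈ G.cD C, G.ar x.1 x.2 / 3 :=
    fun C hC => hG.pol C (cB_of_iC66 G hC)
  have hR := W4.rf51 hG hD hA
  have hApi : Real.pi = 3 * alpha d + A3 (alpha d) := by unfold A3; ring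
  have hA3 := A3_pos69 hd
  have hal := alpha_pos hd
  obtain ⟨y, hy0, hy1, hy2⟩ := W4.E62 G hG he4 m1
    (E_hs62 G hd (by linarith) (by linarith) hR) hA hP
  have e1 : (G.iD.card : ℝ) / 3 = t := by
    rw [hiD]
    push_cast
    ring
  have e2 : (G.iI.card : ℝ) = 2 * I := by
    rw [hiI]
    push_cast
    ring
  rw [← hAs, e1, e2] at hy1 hy2
  have k5' : A3 (alpha d) * (A / A3 (alpha d) - t) = A - A3 (alpha d) * t := by
    field_simp
  have hnb' : (G.oJ.card : ℝ) ≤ G.P.card := by exact_mod_cast hnb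
  have hG' := conv71 (y := y) (c := 7) (j := 2 * I) hal hA3 L.he hnb' h.low hy1
  have hSx : (t : ℝ) + κ * (((2 * I : ℕ) : ℝ) / 2 - 3 * y) ≤ A / A3 (alpha d) := by
    push_cast
    rcases le_total ((2 * I : ℝ) / 2 - 3 * y) 0 with h0 | h0
    · have : κ * ((2 * I : ℝ) / 2 - 3 * y) ≤ 0 := mul_nonpos_of_nonneg_of_nonpos hκ0 h0
      linarith
    · have h5 := mul_le_mul_of_nonneg_right m2 h0
      have h6 : A3 (alpha d) * (κ * ((2 * I : ℝ) / 2 - 3 * y)) ≤
          A3 (alpha d) * (A / A3 (alpha d) - t) := by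
        rw [k5']
        linarith
      have h8 := le_of_mul_le_mul_left h6 hA3
      linarith
  refine arDS hT _ _ t (2 * I) _ _ y hn2 hb h.E1 f1 f2 f3 f4 hB hy0 ?_ hSx
    (by have := h.D; omega) (by omega) f5
  push_cast
  linarith

/-- the configurations at a diameter with `A3 ≥ 0.0538` at which the rows `B`, `D_B` hold -/
theorem mainR71 {d : ℝ} (hd : 0 < d) (hA3 : 538 / 10000 ≤ A3 (alpha d))
    (hC : Real.cosh d ≤ 611 / 500) {G : Tg ℍ}
    (hG : G.Geo4 (alpha d) kap (Ust69 d)) (hD : DelG G d) (hP : PentaG G (alpha d))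
    (hB : TokRow G (alpha d) 0) (hDB : DBRow71 G (alpha d))
    (hn : 10 ≤ G.P.card) :
    (G.D.filter (fun x => G.con x.1 x.2)).card ≤ 2 * Lb G.P.card := by
  rcases le_total (644 / 10000) (A3 (alpha d)) with h1 | h1
  · obtain ⟨t, I, A, k1, k2, k3, k4⟩ := num4 G hG (Ust69_zero d) (Ust69_mono d) (Ust69_sup d)
    have h5 := hB.num k2 k3 k4
    rw [zero_mul, sub_zero] at h5
    exact hnumBx71 hd h1 hC hn ⟨k1, h5⟩
  rcases le_total (570 / 10000) (A3 (alpha d)) with h2 | h2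
  · obtain ⟨e, c0, K, r, c1, v, w, hT, hN, hr, hK, hS⟩ := numTD69 hd h2 (by linarith)
    have he2 : e ≤ 1 := by
      rcases hT with ⟨rfl, _⟩ | ⟨rfl, _⟩ <;> norm_num
    exact main_DBR71 hd hC hT (hN.line71 hd he2 hr hK hS) hG hD hB hDB hn
  · obtain ⟨e, c0, K, r, c1, v, w, κ, hT, hN, hr, hK, hS, hκ⟩ := numTS69 hd hA3 h2
    have hal := alpha_pos hd
    have hA := A3_pos69 hd
    have he : e ≤ 1 / 4 ∧ 0 ≤ κ := by
      rcases hT with ⟨rfl, _, _, _, _, _, _, rfl⟩ | ⟨rfl, _, _, _, _, _, _, rfl⟩ |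
        ⟨rfl, _, _, _, _, _, _, rfl⟩ | ⟨rfl, _, _, _, _, _, _, rfl⟩ <;> norm_num
    have h4 := (div_le_iff₀ hal).1 hN.he
    have h5 : 2 * Real.pi - 6 * alpha d ≤ alpha d / 4 := by
      have := mul_le_mul_of_nonneg_right he.1 hal.le
      linarith
    have h6 : 0 ≤ κ * A3 (alpha d) := mul_nonneg he.2 hA.le
    exact main_DSR71 hd hC hT he.2 h5 (by linarith) hκ
      (hN.line71 hd (by linarith [he.1]) hr hK hS) hG hD hP hB hDB hn

/-- **Q1 at a diameter with `A3 ≥ 0.0538`** from the rows `B` and `D_B` -/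
theorem q1_R71 {e d : ℝ} (he : 0 < e) (ha : alpha e = 2 * Real.pi / 7) (hd : 0 < d)
    (hA3 : 538 / 10000 ≤ A3 (alpha d)) (hC : Real.cosh d ≤ 611 / 500)
    (hrow : ∀ G : Tg ℍ, G.Geo4 (alpha d) kap (Ust69 d) → DelG G d → HullT G → Sep d G.P →
      PentaG G (alpha d) → TokRow G (alpha d) 0 ∧ DBRow71 G (alpha d)) (n : ℕ) :
    eD d n ≤ eD e n :=
  q1_of_main5 he ha hd n (fun _ _ hG hD hH hS hn _ => by
    have hP := penta71 hG hD hS
    obtain ⟨r1, r2⟩ := hrow _ hG hD hH hS hP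
    exact mainR71 hd hA3 hC hG hD hP r1 r2 hn) le_rfl

end

end Pool.Agent.PEN
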