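import Pool.Agent.P4.Tk57f
import Pool.Agent.P4.Tk62j
import Pool.Agent.P4.N8_57
import Pool.Agent.P4.Y71o
import Pool.Agent.P4.Low69

/-! # PENNY: the chain diameter `d₈` -/

set_option autoImplicit false

namespace Pool.Agent.PEN

open Classical UpperHalfPlane

noncomputable section

/-- order of the chain numbers -/
theorem chord57 {d : ℝ} {m : ℕ} (hd : 0 < d) (h3 : 3 * alpha d < Real.pi)
    (hb : ∀ j ≤ m, ch66 d j < qa66 d) :
    opp51 d (ch66 d 0) < 2 * alpha d ∧ (∀ i j, i < j → j ≤ m → ch66 d i < ch66 d j) ∧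
    (∀ i j, i < j → j ≤ m → opp51 d (ch66 d j) < opp51 d (ch66 d i)) := by
  have hpi := Real.pi_pos
  have hq := qa_lt66 hd
  have ha0 : 0 < alpha d := alpha_pos hd
  have hp : ∀ i, 0 < ch66 d i := ch_pos66 h3
  have e0 : ch66 d 0 = 2 * Real.pi - 5 * alpha d := rfl
  have e1 : ∀ j, ch66 d (j + 1) = 2 * Real.pi - 3 * alpha d - opp51 d (ch66 d j) := fun _ => rfl
  have hlt : ∀ j ≤ m, ch66 d j < Real.pi := fun j hj => by
    have := hb j hj
    linarith
  have b0 : opp51 d (ch66 d 0) < 2 * alpha d := by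
    have := opp_anti66 (d := d) ha0 (by rw [e0]; linarith) (hlt 0 (Nat.zero_le _))
    rw [opp_al62 hd] at this
    exact this
  have hstep : ∀ j, j + 1 ≤ m → ch66 d j < ch66 d (j + 1) := by
    intro j
    induction j with
    | zero =>
      intro _
      rw [e1, e0]
      rw [e0] at b0
      linarith
    | succ j ih =>
      intro hj
      have h1 := ih (by omega)
      have h2 := opp_anti66 (d := d) (hp j) h1 (hlt (j + 1) (by omega))
      rw [e1 (j + 1), e1 j]
      rw [e1 j] at h2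
      linarith
  have mono : ∀ i j, i < j → j ≤ m → ch66 d i < ch66 d j := by
    intro i j
    induction j with
    | zero => intro h; omega
    | succ j ih =>
      intro h hj
      have h1 := hstep j hj
      rcases Nat.lt_or_ge i j with hij | hij
      · exact (ih hij (by omega)).trans h1
      · have : i = j := by omega
        rw [this]
        exact h1
  exact ⟨b0, mono, fun i j hij hj => opp_anti66 (hp i) (mono i j hij hj) (hlt j hj)⟩

/-- chain numbers, general -/
theorem Ch_gen57 {d : ℝ} {m : ℕ} (hd : 0 < d) (h7 : 2 * Real.pi < 7 * alpha d)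
    (h3 : 3 * alpha d < Real.pi) (hb : ∀ j ≤ m, ch66 d j < qa66 d)
    (hN : ∀ k l j, k ≤ m → l ≤ m → j < m →
      opp51 d (ch66 d k) + opp51 d (ch66 d l) ≠ 2 * alpha d + opp51 d (ch66 d j)) :
    Ch62 (alpha d) (qa66 d) (opp51 d) (ch66 d) m := by
  have hpi := Real.pi_pos
  have hq := qa_lt66 hd
  have ha0 : 0 < alpha d := alpha_pos hd
  have hp : ∀ i, 0 < ch66 d i := ch_pos66 h3
  obtain ⟨b0, mono, _⟩ := chord57 hd h3 hb
  constructor
  · exact ha0
  · exact h7
  · linarith
  · rfl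
  · intro j _
    have : ch66 d (j + 1) = 2 * Real.pi - 3 * alpha d - opp51 d (ch66 d j) := rfl
    rw [this]
    ring
  · exact mono
  · intro t u h1 h2 h4
    exact opp_anti66 (by linarith) h2 (by linarith)
  · intro t h1 h2
    exact opp_opp66 (by linarith) (by linarith)
  · exact hb m le_rfl
  · exact opp_gt_qa66 hd (hp m) (hb m le_rfl)
  · linarith
  · exact b0
  · exact hN

/-- the numbers of the chain at `d₈` -/
theorem Ch8_57 {d : ℝ} (hd : 0 < d) (h7 : 2 * Real.pi < 7 * alpha d)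
    (h3 : 3 * alpha d < Real.pi) (hb : ∀ j ≤ 3, ch66 d j < qa66 d)
    (q1 : 5156587 / 10000000 < Real.cos (alpha d))
    (q2 : Real.cos (alpha d) < 5156588 / 10000000) :
    Ch62 (alpha d) (qa66 d) (opp51 d) (ch66 d) 3 := by
  obtain ⟨n0, n1, n2, n3⟩ := n8_57 hd q1 q2 (fun j hj => hb j (by omega))
  obtain ⟨b0, mono, hanti⟩ := chord57 hd h3 hb
  have hle : ∀ i i', i ≤ i' → i' ≤ 3 → opp51 d (ch66 d i') ≤ opp51 d (ch66 d i) := by
    intro i i' hi hi'
    rcases Nat.eq_or_lt_of_le hi with rfl | hi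
    · exact le_rfl
    · exact (hanti i i' hi hi').le
  have hhi : ∀ j ≤ 3, opp51 d (ch66 d j) < 2 * alpha d := fun j hj =>
    lt_of_le_of_lt (hle 0 j (Nat.zero_le _) hj) b0
  have h12 := hanti 1 2 (by omega) (by omega)
  apply Ch_gen57 hd h7 h3 hb
  have key : ∀ k l j, k ≤ l → k ≤ 3 → l ≤ 3 → j < 3 →
      opp51 d (ch66 d k) + opp51 d (ch66 d l) ≠ 2 * alpha d + opp51 d (ch66 d j) := by
    intro k l j hkl hk hl hj h
    rcases Nat.lt_or_ge l j with hlj | hlj
    · -- `l < j`, so the sum is large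
      have hj' : j = 1 ∨ j = 2 := by omega
      rcases hj' with rfl | rfl
      · have : k = 0 := by omega
        subst this
        have : l = 0 := by omega
        subst this
        linarith
      · have hl' : l = 0 ∨ l = 1 := by omega
        rcases hl' with rfl | rfl
        · have : k = 0 := by omega
          subst this
          linarith
        · have hk' : k = 0 ∨ k = 1 := by omega
          rcases hk' with rfl | rfl
          · linarith
          · linarith
    · have h1 := hle j l hlj hl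
      have h2 := hhi k hk
      linarith
  intro k l j hk hl hj h
  rcases le_total k l with hkl | hkl
  · exact key k l j hkl hk hl hj h
  · exact key l k j hkl hl hk hj (by linarith)

/-- **the rows B and (D_B) at `d₈`** -/
theorem rows8_57 {G : Tg ℍ} {d : ℝ} (hG : G.Geo4 (alpha d) kap (Ust69 d)) (hD : DelG G d)
    (hH : HullT G) (hP : PentaG G (alpha d)) (hb : ∀ j ≤ 3, ch66 d j < qa66 d)
    (he : 2 * opp51 d (ch66 d 3) = 2 * Real.pi - 3 * alpha d)
    (q1 : 5156587 / 10000000 < Real.cos (alpha d))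
    (q2 : Real.cos (alpha d) < 5156588 / 10000000) :
    TokRow G (alpha d) 0 ∧ DBRow71 G (alpha d) := by
  have hd := hD.hd
  have h3 := hG.al2
  have hA : ∀ C ∈ G.iC, A3 (alpha d) * (G.cT C).card ≤ ∑ x ∈ G.cD C, G.ar x.1 x.2 / 3 :=
    fun C hC => hG.pol C (cB_of_iC66 G hC)
  have hR := W4.rf51 hG hD hA
  have hF := W4.F_alt66 G hd hG hR
  have hrg : ∀ x ∈ iJ G, RC G (G.cl x) → 0 < TH G x ∧ TH G x < Real.pi :=
    fun x hx rx => W4.TH_rg66 G hG hR hx rx
  obtain ⟨s', p, q, O⟩ := W4.or62 G hG hR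
  have c := Ch8_57 hd hG.al1 h3 hb q1 q2
  have hend : qa66 d ≤ ch66 d (3 + 1) := by
    have h1 := c.Qb
    have h2 : ch66 d (3 + 1) = 2 * Real.pi - 3 * alpha d - opp51 d (ch66 d 3) := rfl
    linarith
  have f := Fc_of62 G h3 hb hend hd hrg
  have hg : ch66 d 3 ≤ 3 / 2 * alpha d := by
    have := Qle62 hd h3
    have := c.gQ
    linarith
  exact W4.rowsA57 G hG O c (by omega) f he hg hF (fun x hx rx => (hR.low x hx rx).1)
    (W4.sumTH62 G hG hH) hA hP

/-- **Q1 at `d₈`** -/
theorem q1_d8_57 {e d : ℝ} (he : 0 < e) (ha : alpha e = 2 * Real.pi / 7) (hd : 0 < d)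
    (hC : Real.cosh d ≤ 611 / 500)
    (q1 : 5156587 / 10000000 < Real.cos (alpha d))
    (q2 : Real.cos (alpha d) < 5156588 / 10000000)
    (hb : ∀ j ≤ 3, ch66 d j < qa66 d)
    (h8 : 2 * opp51 d (ch66 d 3) = 2 * Real.pi - 3 * alpha d) (n : ℕ) : eD d n ≤ eD e n := by
  have hC1 := cosh_gt66 hd
  have hA3 : 538 / 10000 ≤ A3 (alpha d) := by
    apply A3_ge538_69 hd
    rw [cos_alpha hd, lt_div_iff₀ (by linarith)] at q1
    linarith
  exact q1_R71 he ha hd hA3 hC (fun G hG hD hH _ hP => rows8_57 hG hD hH hP hb h8 q1 q2) n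

end

end Pool.Agent.PEN
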