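import Pool.Agent.P4.W4Tk89d
import Pool.Agent.P4.Tk62j

/-! # PENNY, token rows at the chain diameters that end in the square -/

set_option autoImplicit false

namespace Pool.Agent.PEN

open Classical UpperHalfPlane

noncomputable section

/-- the token row of a chain that ends in the square, from the numbers of the chain -/
theorem rowb89 {G : Tg ℍ} {d : ℝ} {m : ℕ} (hG : G.Geo4 (alpha d) kap (Ust69 d))
    (hD : DelG G d) (hH : HullT G) (hP : PentaG G (alpha d)) (hm1 : 1 ≤ m) (hm2 : m ≤ 2)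
    (hb : ∀ j ≤ m, ch66 d j < qa66 d) (he : ch66 d (m + 1) = qa66 d)
    (hN4 : ∀ k l, k ≤ m → l ≤ m →
      opp51 d (ch66 d k) + opp51 d (ch66 d l) ≠ 2 * alpha d + opp51 d (ch66 d m))
    {de : ℝ} (hd0 : 0 ≤ de) (hd1 : ((m : ℝ) + 1) * de ≤ 1 / 2) (hd2 : m = 1 → 1 / 12 ≤ de) :
    TokRow G (alpha d) de := by
  have hd := hD.hd
  have h3 := hG.al2
  have hA : ∀ C ∈ G.iC, A3 (alpha d) * (G.cT C).card ≤ ∑ x ∈ G.cD C, G.ar x.1 x.2 / 3 :=
    fun C hC => hG.pol C (cB_of_iC66 G hC)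
  have hR := W4.rf51 hG hD hA
  have c := Ch_of62 hd hG.al1 h3 hm2 hb
  have S : Sq89 (alpha d) (qa66 d) (opp51 d) (ch66 d) m := by
    refine ⟨?_, opp_qa66 hd, hm1, ?_⟩
    · have h2 : ch66 d (m + 1) = 2 * Real.pi - 3 * alpha d - opp51 d (ch66 d m) := rfl
      linarith
    · have := Qle62 hd h3
      linarith
  exact W4.row89 G hG hR c S hN4 (W4.sumTH62 G hG hH) hA hP hd0 hd1 hd2

end

end Pool.Agent.PEN
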