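import Pool.Agent.P4.Tk62k
import Pool.Agent.P4.Tk89f

/-! # PENNY, token rows: the rows at `d₅` and `d₇` -/

set_option autoImplicit false

namespace Pool.Agent.PEN

open Classical UpperHalfPlane

noncomputable section

/-- **the token row at `d₅`** -/
theorem row5_62 {G : Tg ℍ} {d : ℝ} (hG : G.Geo4 (alpha d) kap (Ust69 d)) (hD : DelG G d)
    (hH : HullT G) (hP : PentaG G (alpha d)) (hb : ∀ j ≤ 1, ch66 d j < qa66 d)
    (he : ch66 d 2 = qa66 d) : TokRow G (alpha d) (1 / 12) :=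
  rowb89 hG hD hH hP le_rfl (by omega) hb he
    (hN5_62 hD.hd (Ch_of62 hD.hd hG.al1 hG.al2 (by omega) hb) hb)
    (by norm_num) (by norm_num) (fun _ => le_rfl)

/-- **the token row at `d₇`** -/
theorem row7_62 {G : Tg ℍ} {d : ℝ} (hG : G.Geo4 (alpha d) kap (Ust69 d)) (hD : DelG G d)
    (hH : HullT G) (hP : PentaG G (alpha d)) (hc : Real.cos (alpha d) ≤ 5199 / 10000)
    (hb : ∀ j ≤ 2, ch66 d j < qa66 d) (he : ch66 d 3 = qa66 d) : TokRow G (alpha d) 0 := by
  have h2 : ch66 d 3 = 2 * Real.pi - 3 * alpha d - opp51 d (ch66 d 2) := rfl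
  exact rowb89 hG hD hH hP (by omega) le_rfl hb he
    (hN7_62 hD.hd (Ch_of62 hD.hd hG.al1 hG.al2 le_rfl hb) hb (by linarith) hc)
    le_rfl (by norm_num) (fun h => by omega)

end

end Pool.Agent.PEN
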