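import Pool.Agent.P4.B51c

/-! # PENNY: the rhombus facts used to select the function `F` of inequality B -/

set_option autoImplicit false

namespace Pool.Agent.PEN

open Classical UpperHalfPlane

noncomputable section

/-- the corner consists of one triangle -/
def Q51 {V : Type} (G : Tg V) (x : V × V) : Prop := G.con x.1 (G.ap x.1 x.2)

/-- rhombus facts: `opp` gives the neighbouring angle -/
structure Rf {V : Type} (G : Tg V) (al : ℝ) (opp : ℝ → ℝ) : Prop where
  opp : ∀ x ∈ iJ G, RC G (G.cl x) → TH G (sg G x) = opp (TH G x)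
  per : ∀ x ∈ iJ G, RC G (G.cl x) → TH G (sg G (sg G x)) = TH G x
  sum : ∀ x ∈ iJ G, RC G (G.cl x) → TH G x + TH G (sg G x) ≤ 3 * al
  low : ∀ x ∈ iJ G, RC G (G.cl x) → al ≤ TH G x ∧ TH G x ≤ 2 * al
  alt : ∀ x ∈ iJ G, RC G (G.cl x) → (Q51 G (sg G x) ↔ ¬ Q51 G x)

/-- the neighbouring angle in a rhombus of side `d` -/
def opp51 (d t : ℝ) : ℝ := 2 * Real.arctan (1 / (Real.cosh d * Real.tan (t / 2)))

end

end Pool.Agent.PEN
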