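import Pool.Agent.P4.Rho52

/-! # Bounds of the deficit `rho51` and the side conditions for `A3` in `[0.0538, 0.0646]`

`rho51 = 4 arctan (V52 t)`, `t = tanh (d / 2)`; the bounds are polynomial inequalities in `t`,
written in the Bernstein basis of the interval. -/

set_option autoImplicit false

namespace Pool.Agent.PEN

noncomputable section

theorem c_up52 {t : ℝ} (_ : 0 ≤ t) :
    √(3 + t ^ 2) / 2 ≤ 8660255 / 10000000 + 1443376 / 10000000 * t ^ 2 := by
  have h1 : √(3 + t ^ 2) ≤ 2 * (8660255 / 10000000 + 1443376 / 10000000 * t ^ 2) := by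
    rw [Real.sqrt_le_left (by positivity)]
    nlinarith [sq_nonneg (t ^ 2), sq_nonneg t]
  linarith

theorem c_lo52 {t : ℝ} (h0 : 0 ≤ t) (h1 : t ≤ 1 / 4) :
    866025 / 1000000 + 1435 / 10000 * t ^ 2 ≤ √(3 + t ^ 2) / 2 := by
  have h2 : t ^ 2 ≤ 1 / 16 := by nlinarith
  have h3 : 0 ≤ t ^ 2 := sq_nonneg t
  have h4 : 2 * (866025 / 1000000 + 1435 / 10000 * t ^ 2) ≤ √(3 + t ^ 2) := by
    rw [Real.le_sqrt (by positivity) (by positivity)]
    nlinarith [mul_nonneg h3 (sub_nonneg.2 h2)]
  linarith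

theorem w_up52 {t : ℝ} (h0 : 0 ≤ t) (h1 : t ≤ 1 / 4) : √(1 - t ^ 2) ≤ 1 - t ^ 2 / 2 := by
  have h2 : t ^ 2 ≤ 1 / 16 := by nlinarith
  rw [Real.sqrt_le_left (by linarith)]
  nlinarith [sq_nonneg (t ^ 2)]

theorem w_lo52 {t : ℝ} (h0 : 0 ≤ t) (h1 : t ≤ 1 / 4) :
    1 - t ^ 2 / 2 - t ^ 4 / 7 ≤ √(1 - t ^ 2) := by
  have h2 : t ^ 2 ≤ 1 / 16 := by nlinarith
  have h3 : 0 ≤ t ^ 2 := sq_nonneg t
  have h4 : t ^ 4 = (t ^ 2) ^ 2 := by ring
  rw [h4]
  set u := t ^ 2 with hu
  have h5 : u ^ 2 ≤ 1 / 256 := by nlinarith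
  rw [Real.le_sqrt (by linarith) (by linarith)]
  have h6 : (1 - u / 2 - u ^ 2 / 7) ^ 2 = 1 - u - u ^ 2 * (1 / 28 - u / 7 - u ^ 2 / 49) := by ring
  rw [h6]
  have h7 : 0 ≤ u ^ 2 * (1 / 28 - u / 7 - u ^ 2 / 49) :=
    mul_nonneg (sq_nonneg u) (by linarith)
  linarith

theorem V_eq52 {t : ℝ} (h0 : 0 ≤ t) (h1 : t ≤ 1 / 4) :
    0 < √(1 - t ^ 2) * (1 - t * (1 + t ^ 2) / 2 + t ^ 2 * (√(3 + t ^ 2) / 2)) ∧
    V52 t = t * (1 - t * (1 + t ^ 2) / 2 - (1 - t ^ 2) * (√(3 + t ^ 2) / 2)) /
      (√(1 - t ^ 2) * (1 - t * (1 + t ^ 2) / 2 + t ^ 2 * (√(3 + t ^ 2) / 2))) := by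
  have h2 : t ^ 2 ≤ 1 / 16 := by nlinarith
  have hw : 0 < √(1 - t ^ 2) := Real.sqrt_pos.2 (by linarith)
  have hc : 0 ≤ √(3 + t ^ 2) / 2 := by positivity
  set c := √(3 + t ^ 2) / 2 with hcd
  set w := √(1 - t ^ 2) with hwd
  have hD : 0 < 1 - t * (1 + t ^ 2) / 2 + t ^ 2 * c := by
    have e1 : 0 ≤ t ^ 2 * c := by positivity
    have e2 : t * (1 + t ^ 2) ≤ 1 / 4 * (1 + 1 / 16) := mul_le_mul h1 (by linarith) (by positivity)
      (by norm_num)
    linarith
  refine ⟨by positivity, ?_⟩
  unfold V52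
  rw [← hcd, ← hwd]
  have hne := hD.ne'
  have hwne := hw.ne'
  rw [one_sub_div hne, div_mul_div_comm]
  congr 1
  ring

theorem V_ge_poly52 {t y : ℝ} (h0 : 0 ≤ t) (h1 : t ≤ 1 / 4) (hy : 0 ≤ y)
    (hP : 0 ≤ t * (1 - t * (1 + t ^ 2) / 2 -
        (1 - t ^ 2) * (8660255 / 10000000 + 1443376 / 10000000 * t ^ 2)) -
      y * ((1 - t ^ 2 / 2) * (1 - t * (1 + t ^ 2) / 2 +
        t ^ 2 * (8660255 / 10000000 + 1443376 / 10000000 * t ^ 2)))) : y ≤ V52 t := by
  have h2 : t ^ 2 ≤ 1 / 16 := by nlinarith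
  obtain ⟨k1, k2⟩ := V_eq52 h0 h1
  have k3 := c_up52 h0
  have k4 := w_up52 h0 h1
  rw [k2, le_div_iff₀ k1]
  have hw : 0 ≤ √(1 - t ^ 2) := Real.sqrt_nonneg _
  have hc : 0 ≤ √(3 + t ^ 2) / 2 := by positivity
  set c := √(3 + t ^ 2) / 2 with hcd
  set w := √(1 - t ^ 2) with hwd
  have e2 : t * (1 + t ^ 2) ≤ 1 / 4 * (1 + 1 / 16) := mul_le_mul h1 (by linarith) (by positivity)
    (by norm_num)
  have m1 : (1 - t ^ 2) * c ≤ (1 - t ^ 2) * (8660255 / 10000000 + 1443376 / 10000000 * t ^ 2) :=
    mul_le_mul_of_nonneg_left k3 (by linarith)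
  have m2 : t ^ 2 * c ≤ t ^ 2 * (8660255 / 10000000 + 1443376 / 10000000 * t ^ 2) :=
    mul_le_mul_of_nonneg_left k3 (sq_nonneg t)
  have m3 : 0 ≤ 1 - t * (1 + t ^ 2) / 2 + t ^ 2 * c := by
    have : 0 ≤ t ^ 2 * c := by positivity
    linarith
  have m4 : w * (1 - t * (1 + t ^ 2) / 2 + t ^ 2 * c) ≤ (1 - t ^ 2 / 2) *
      (1 - t * (1 + t ^ 2) / 2 + t ^ 2 * (8660255 / 10000000 + 1443376 / 10000000 * t ^ 2)) :=
    mul_le_mul k4 (by linarith) m3 (by linarith)
  have m5 := mul_le_mul_of_nonneg_left m4 hy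
  have m6 : t * (1 - t * (1 + t ^ 2) / 2 -
        (1 - t ^ 2) * (8660255 / 10000000 + 1443376 / 10000000 * t ^ 2)) ≤
      t * (1 - t * (1 + t ^ 2) / 2 - (1 - t ^ 2) * c) :=
    mul_le_mul_of_nonneg_left (by linarith) h0
  linarith

theorem V_le_poly52 {t y : ℝ} (h0 : 0 ≤ t) (h1 : t ≤ 1 / 4) (hy : 0 ≤ y)
    (hP : 0 ≤ y * ((1 - t ^ 2 / 2 - t ^ 4 / 7) * (1 - t * (1 + t ^ 2) / 2 +
        t ^ 2 * (866025 / 1000000 + 1435 / 10000 * t ^ 2))) -
      t * (1 - t * (1 + t ^ 2) / 2 -
        (1 - t ^ 2) * (866025 / 1000000 + 1435 / 10000 * t ^ 2))) : V52 t ≤ y := by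
  have h2 : t ^ 2 ≤ 1 / 16 := by nlinarith
  have h24 : t ^ 4 ≤ 1 / 256 := by
    have : t ^ 4 = (t ^ 2) ^ 2 := by ring
    rw [this]
    nlinarith [sq_nonneg t]
  obtain ⟨k1, k2⟩ := V_eq52 h0 h1
  have k3 := c_lo52 h0 h1
  have k4 := w_lo52 h0 h1
  rw [k2, div_le_iff₀ k1]
  have hw : 0 ≤ √(1 - t ^ 2) := Real.sqrt_nonneg _
  have hc : 0 ≤ √(3 + t ^ 2) / 2 := by positivity
  set c := √(3 + t ^ 2) / 2 with hcd
  set w := √(1 - t ^ 2) with hwd
  have e2 : t * (1 + t ^ 2) ≤ 1 / 4 * (1 + 1 / 16) := mul_le_mul h1 (by linarith) (by positivity)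
    (by norm_num)
  have m1 : (1 - t ^ 2) * (866025 / 1000000 + 1435 / 10000 * t ^ 2) ≤ (1 - t ^ 2) * c :=
    mul_le_mul_of_nonneg_left k3 (by linarith)
  have m2 : t ^ 2 * (866025 / 1000000 + 1435 / 10000 * t ^ 2) ≤ t ^ 2 * c :=
    mul_le_mul_of_nonneg_left k3 (sq_nonneg t)
  have m3 : 0 ≤ 1 - t * (1 + t ^ 2) / 2 + t ^ 2 * (866025 / 1000000 + 1435 / 10000 * t ^ 2) := by
    have : 0 ≤ t ^ 2 * (866025 / 1000000 + 1435 / 10000 * t ^ 2) := by positivity
    linarith
  have m4 : (1 - t ^ 2 / 2 - t ^ 4 / 7) *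
      (1 - t * (1 + t ^ 2) / 2 + t ^ 2 * (866025 / 1000000 + 1435 / 10000 * t ^ 2)) ≤
      w * (1 - t * (1 + t ^ 2) / 2 + t ^ 2 * c) :=
    mul_le_mul k4 (by linarith) m3 hw
  have m5 := mul_le_mul_of_nonneg_left m4 hy
  have m6 : t * (1 - t * (1 + t ^ 2) / 2 - (1 - t ^ 2) * c) ≤ t * (1 - t * (1 + t ^ 2) / 2 -
        (1 - t ^ 2) * (866025 / 1000000 + 1435 / 10000 * t ^ 2)) :=
    mul_le_mul_of_nonneg_left (by linarith) h0
  linarith

theorem arcsin67_52 : 205939 / 100000 ≤ 2 * Real.arcsin (6 / 7) := by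
  have hpi := Real.pi_gt_d6
  have hpi2 := Real.pi_lt_d6
  have h1 := cos_le8_52 (x := 5411 / 10000) (by norm_num) (by norm_num)
  have h2 : Real.sin (Real.pi / 2 - 5411 / 10000) ≤ 6 / 7 := by
    rw [Real.sin_pi_div_two_sub]
    refine h1.trans ?_
    norm_num
  have h3 := Real.arcsin_le_arcsin h2
  rw [Real.arcsin_sin (by linarith) (by linarith)] at h3
  linarith

theorem arcsin_mul52 {q t : ℝ} (hq0 : 0 ≤ q) (hq1 : q ≤ 1) (h0 : 0 ≤ t) (h1 : t ≤ 1) :
    Real.arcsin (q * t) ≤ q * Real.arcsin t := by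
  have hpi := Real.pi_pos
  have a0 : 0 ≤ Real.arcsin t := Real.arcsin_nonneg.2 h0
  have a1 := Real.arcsin_le_pi_div_two t
  have h2 := strictConcaveOn_sin_Icc.concaveOn.2 (⟨a0, by linarith⟩ :
      Real.arcsin t ∈ Set.Icc 0 Real.pi)
    (⟨le_refl 0, hpi.le⟩ : (0 : ℝ) ∈ Set.Icc 0 Real.pi) hq0 (sub_nonneg.2 hq1) (by ring)
  simp only [smul_eq_mul, mul_zero, add_zero, Real.sin_zero] at h2
  rw [Real.sin_arcsin (by linarith) h1] at h2
  have h3 := Real.arcsin_le_arcsin h2
  rwa [Real.arcsin_sin (by nlinarith) (by nlinarith)] at h3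

/-! ### Line 1 -/

theorem pl1_52 {t : ℝ} (h1 : 23197 / 125000 ≤ t) (h2 : t ≤ 48129 / 250000) :
    0 ≤ t * (1 - t * (1 + t ^ 2) / 2 -
        (1 - t ^ 2) * (8660255 / 10000000 + 1443376 / 10000000 * t ^ 2)) -
      127273 / 10000000 * ((1 - t ^ 2 / 2) * (1 - t * (1 + t ^ 2) / 2 +
        t ^ 2 * (8660255 / 10000000 + 1443376 / 10000000 * t ^ 2))) := by
  have x1 : 0 ≤ t - 23197 / 125000 := by linarith
  have x2 : 0 ≤ 48129 / 250000 - t := by linarith
  have key : t * (1 - t * (1 + t ^ 2) / 2 -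
        (1 - t ^ 2) * (8660255 / 10000000 + 1443376 / 10000000 * t ^ 2)) -
      127273 / 10000000 * ((1 - t ^ 2 / 2) * (1 - t * (1 + t ^ 2) / 2 +
        t ^ 2 * (8660255 / 10000000 + 1443376 / 10000000 * t ^ 2))) =
      548357820780140726819879054999015536287 / 5327542387627957153320312500000 * (t - 23197 / 125000) ^ 0 * (48129 / 250000 - t) ^ 6 +
      8609302717417519528329625898074850389277 / 5327542387627957153320312500000 * (t - 23197 / 125000) ^ 1 * (48129 / 250000 - t) ^ 5 +
      27499339089263407467959015293375458865689 / 4262033910102365722656250000000 * (t - 23197 / 125000) ^ 2 * (48129 / 250000 - t) ^ 4 +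
      24950913029340848325807665067080809431691 / 2131016955051182861328125000000 * (t - 23197 / 125000) ^ 3 * (48129 / 250000 - t) ^ 3 +
      188014156969200095069000480840341255712261 / 17048135640409462890625000000000 * (t - 23197 / 125000) ^ 4 * (48129 / 250000 - t) ^ 2 +
      449877268459973747876736467328034864013077 / 85240678202047314453125000000000 * (t - 23197 / 125000) ^ 5 * (48129 / 250000 - t) ^ 1 +
      347325365394461647130428563114222872010763 / 340962712808189257812500000000000 * (t - 23197 / 125000) ^ 6 * (48129 / 250000 - t) ^ 0 := by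
    ring
  rw [key]
  positivity

theorem pu1_52 {t : ℝ} (h1 : 23197 / 125000 ≤ t) (h2 : t ≤ 48129 / 250000) :
    0 ≤ 103 / 8000 * ((1 - t ^ 2 / 2 - t ^ 4 / 7) * (1 - t * (1 + t ^ 2) / 2 +
        t ^ 2 * (866025 / 1000000 + 1435 / 10000 * t ^ 2))) -
      t * (1 - t * (1 + t ^ 2) / 2 -
        (1 - t ^ 2) * (866025 / 1000000 + 1435 / 10000 * t ^ 2)) := by
  have x1 : 0 ≤ t - 23197 / 125000 := by linarith
  have x2 : 0 ≤ 48129 / 250000 - t := by linarith
  have key : 103 / 8000 * ((1 - t ^ 2 / 2 - t ^ 4 / 7) * (1 - t * (1 + t ^ 2) / 2 +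
        t ^ 2 * (866025 / 1000000 + 1435 / 10000 * t ^ 2))) -
      t * (1 - t * (1 + t ^ 2) / 2 -
        (1 - t ^ 2) * (866025 / 1000000 + 1435 / 10000 * t ^ 2)) =
      779521960459673764606204211735460875273859479 / 35923106875706102800952148437500 * (t - 23197 / 125000) ^ 0 * (48129 / 250000 - t) ^ 8 +
      1370740039644442240535177491749285742101504103 / 8980776718926525700238037109375 * (t - 23197 / 125000) ^ 1 * (48129 / 250000 - t) ^ 7 +
      16616446532202434833873572698513551990195350797 / 35923106875706102800952148437500 * (t - 23197 / 125000) ^ 2 * (48129 / 250000 - t) ^ 6 +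
      28208837460372485460583778050634916430003753829 / 35923106875706102800952148437500 * (t - 23197 / 125000) ^ 3 * (48129 / 250000 - t) ^ 5 +
      46615301238124338262042128868075460411979864553 / 57476971001129764481523437500000 * (t - 23197 / 125000) ^ 4 * (48129 / 250000 - t) ^ 4 +
      74113733423748801142514367581773539361593166121 / 143692427502824411203808593750000 * (t - 23197 / 125000) ^ 5 * (48129 / 250000 - t) ^ 3 +
      110962327724716342674648334879905965004735212597 / 574769710011297644815234375000000 * (t - 23197 / 125000) ^ 6 * (48129 / 250000 - t) ^ 2 +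
      21331047329183671148046082651511030592700012347 / 574769710011297644815234375000000 * (t - 23197 / 125000) ^ 7 * (48129 / 250000 - t) ^ 1 +
      22462511021271735347936428799463861010669684679 / 9196315360180762317043750000000000 * (t - 23197 / 125000) ^ 8 * (48129 / 250000 - t) ^ 0 := by
    ring
  rw [key]
  positivity

theorem rhoW1_52 {d : ℝ} (hd : 0 < d) (hx1 : 3 / 50 ≤ A3 (alpha d)) (hx2 : A3 (alpha d) ≤ 323 / 5000) :
    197 / 250 * A3 (alpha d) ≤ rho51 d (alpha d) ∧
    621 / 10 * A3 (alpha d) ≤ 4 * Real.arcsin (6 / 7) - 2 * rho51 d (alpha d) ∧ Side9 d (6 / 7) := by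
  have h1 : 10344387 / 20000000 ≤ Real.cos (alpha d) := h_ge_of52 (by norm_num) hx1 (by norm_num) (by norm_num)
  have h2 : Real.cos (alpha d) ≤ 25926553 / 50000000 := h_le_of52 (by norm_num) hx2 (by norm_num) (by norm_num)
  have t1 : 23197 / 125000 ≤ Real.tanh (d / 2) := tanh_ge52 hd h1 (by norm_num) (by norm_num)
  have t2 : Real.tanh (d / 2) ≤ 48129 / 250000 := tanh_le52 hd h2 (by norm_num) (by norm_num)
  have g1 : 37331 / 100000 ≤ g51 d :=
    le_arcsin_of52 (by norm_num) (by norm_num) rfl (le_trans (by norm_num) t1)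
  have v1 : 127273 / 10000000 ≤ V52 (Real.tanh (d / 2)) :=
    V_ge_poly52 (by linarith) (by linarith) (by norm_num) (pl1_52 t1 t2)
  have v2 : V52 (Real.tanh (d / 2)) ≤ 103 / 8000 :=
    V_le_poly52 (by linarith) (by linarith) (by norm_num) (pu1_52 t1 t2)
  have r1 : 4 * (63631 / 5000000) ≤ rho51 d (alpha d) :=
    le_rho52 hd v1 (by norm_num) (by norm_num) (by norm_num) (by norm_num)
  have r2 : rho51 d (alpha d) ≤ 4 * (103 / 8000) := rho_le52 hd v2 (by norm_num)
  have u1 := arcsin_mul52 (q := 6 / 7) (t := Real.tanh (d / 2)) (by norm_num) (by norm_num)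
    (by linarith) (by linarith)
  have a1 := arcsin67_52
  have g2 : g51 d = 2 * Real.arcsin (Real.tanh (d / 2)) := rfl
  refine ⟨by linarith, by linarith, ⟨by norm_num, by linarith, by linarith, by linarith⟩⟩

/-! ### Line 2 -/

theorem pl2_52 {t : ℝ} (h1 : 22613 / 125000 ≤ t) (h2 : t ≤ 185577 / 1000000) :
    0 ≤ t * (1 - t * (1 + t ^ 2) / 2 -
        (1 - t ^ 2) * (8660255 / 10000000 + 1443376 / 10000000 * t ^ 2)) -
      126461 / 10000000 * ((1 - t ^ 2 / 2) * (1 - t * (1 + t ^ 2) / 2 +
        t ^ 2 * (8660255 / 10000000 + 1443376 / 10000000 * t ^ 2))) := by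
  have x1 : 0 ≤ t - 22613 / 125000 := by linarith
  have x2 : 0 ≤ 185577 / 1000000 - t := by linarith
  have key : t * (1 - t * (1 + t ^ 2) / 2 -
        (1 - t ^ 2) * (8660255 / 10000000 + 1443376 / 10000000 * t ^ 2)) -
      126461 / 10000000 * ((1 - t ^ 2 / 2) * (1 - t * (1 + t ^ 2) / 2 +
        t ^ 2 * (8660255 / 10000000 + 1443376 / 10000000 * t ^ 2))) =
      41508937268458601674191515390093908036992 / 63555735190185812946099853515625 * (t - 22613 / 125000) ^ 0 * (185577 / 1000000 - t) ^ 6 +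
      759208517215767737785869983210636488306976 / 63555735190185812946099853515625 * (t - 22613 / 125000) ^ 1 * (185577 / 1000000 - t) ^ 5 +
      629341533058892869384332079931996083531994 / 12711147038037162589219970703125 * (t - 22613 / 125000) ^ 2 * (185577 / 1000000 - t) ^ 4 +
      1165036166919760434003313239576220968725871 / 12711147038037162589219970703125 * (t - 22613 / 125000) ^ 3 * (185577 / 1000000 - t) ^ 3 +
      35614377942472281059161931696739680613555577 / 406756705217189202855039062500000 * (t - 22613 / 125000) ^ 4 * (185577 / 1000000 - t) ^ 2 +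
      344805414895297015059179364586483704728618433 / 8135134104343784057100781250000000 * (t - 22613 / 125000) ^ 5 * (185577 / 1000000 - t) ^ 1 +
      1075647487201114067455026091641687780828462119 / 130162145669500544913612500000000000 * (t - 22613 / 125000) ^ 6 * (185577 / 1000000 - t) ^ 0 := by
    ring
  rw [key]
  positivity

theorem pu2_52 {t : ℝ} (h1 : 22613 / 125000 ≤ t) (h2 : t ≤ 185577 / 1000000) :
    0 ≤ 511 / 40000 * ((1 - t ^ 2 / 2 - t ^ 4 / 7) * (1 - t * (1 + t ^ 2) / 2 +
        t ^ 2 * (866025 / 1000000 + 1435 / 10000 * t ^ 2))) -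
      t * (1 - t * (1 + t ^ 2) / 2 -
        (1 - t ^ 2) * (866025 / 1000000 + 1435 / 10000 * t ^ 2)) := by
  have x1 : 0 ≤ t - 22613 / 125000 := by linarith
  have x2 : 0 ≤ 185577 / 1000000 - t := by linarith
  have key : 511 / 40000 * ((1 - t ^ 2 / 2 - t ^ 4 / 7) * (1 - t * (1 + t ^ 2) / 2 +
        t ^ 2 * (866025 / 1000000 + 1435 / 10000 * t ^ 2))) -
      t * (1 - t * (1 + t ^ 2) / 2 -
        (1 - t ^ 2) * (866025 / 1000000 + 1435 / 10000 * t ^ 2)) =
      8205937623902257243313820046042014661109362343936 / 17764634584203380404624170600078125 * (t - 22613 / 125000) ^ 0 * (185577 / 1000000 - t) ^ 8 +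
      59055575220759227412873288632670462430522032799744 / 17764634584203380404624170600078125 * (t - 22613 / 125000) ^ 1 * (185577 / 1000000 - t) ^ 7 +
      183963334788071986095013455503857316879442810391552 / 17764634584203380404624170600078125 * (t - 22613 / 125000) ^ 2 * (185577 / 1000000 - t) ^ 6 +
      323142137217955138270255425999004073426062795383552 / 17764634584203380404624170600078125 * (t - 22613 / 125000) ^ 3 * (185577 / 1000000 - t) ^ 5 +
      69758035401368372975440295759903277542199048421944 / 3552926916840676080924834120015625 * (t - 22613 / 125000) ^ 4 * (185577 / 1000000 - t) ^ 4 +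
      235593405796564667727524545772991180795883513779388 / 17764634584203380404624170600078125 * (t - 22613 / 125000) ^ 5 * (185577 / 1000000 - t) ^ 3 +
      385645327495174765754514370102555132809022127386763 / 71058538336813521618496682400312500 * (t - 22613 / 125000) ^ 6 * (185577 / 1000000 - t) ^ 2 +
      344495223517128520108336750704613483890873628164061 / 284234153347254086473986729601250000 * (t - 22613 / 125000) ^ 7 * (185577 / 1000000 - t) ^ 1 +
      1998119334389520648821375701994490015876080182283369 / 18190985814224261534335150694480000000 * (t - 22613 / 125000) ^ 8 * (185577 / 1000000 - t) ^ 0 := by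
    ring
  rw [key]
  positivity

theorem rhoW2_52 {d : ℝ} (hd : 0 < d) (hx1 : 57 / 1000 ≤ A3 (alpha d)) (hx2 : A3 (alpha d) ≤ 3 / 50) :
    843 / 1000 * A3 (alpha d) ≤ rho51 d (alpha d) ∧
    669 / 10 * A3 (alpha d) ≤ 4 * Real.arcsin (6 / 7) - 2 * rho51 d (alpha d) ∧ Side9 d (6 / 7) := by
  have h1 : 12909081 / 25000000 ≤ Real.cos (alpha d) := h_ge_of52 (by norm_num) hx1 (by norm_num) (by norm_num)
  have h2 : Real.cos (alpha d) ≤ 3232621 / 6250000 := h_le_of52 (by norm_num) hx2 (by norm_num) (by norm_num)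
  have t1 : 22613 / 125000 ≤ Real.tanh (d / 2) := tanh_ge52 hd h1 (by norm_num) (by norm_num)
  have t2 : Real.tanh (d / 2) ≤ 185577 / 1000000 := tanh_le52 hd h2 (by norm_num) (by norm_num)
  have g1 : 36381 / 100000 ≤ g51 d :=
    le_arcsin_of52 (by norm_num) (by norm_num) rfl (le_trans (by norm_num) t1)
  have v1 : 126461 / 10000000 ≤ V52 (Real.tanh (d / 2)) :=
    V_ge_poly52 (by linarith) (by linarith) (by norm_num) (pl2_52 t1 t2)
  have v2 : V52 (Real.tanh (d / 2)) ≤ 511 / 40000 :=
    V_le_poly52 (by linarith) (by linarith) (by norm_num) (pu2_52 t1 t2)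
  have r1 : 4 * (2529 / 200000) ≤ rho51 d (alpha d) :=
    le_rho52 hd v1 (by norm_num) (by norm_num) (by norm_num) (by norm_num)
  have r2 : rho51 d (alpha d) ≤ 4 * (511 / 40000) := rho_le52 hd v2 (by norm_num)
  have u1 := arcsin_mul52 (q := 6 / 7) (t := Real.tanh (d / 2)) (by norm_num) (by norm_num)
    (by linarith) (by linarith)
  have a1 := arcsin67_52
  have g2 : g51 d = 2 * Real.arcsin (Real.tanh (d / 2)) := rfl
  refine ⟨by linarith, by linarith, ⟨by norm_num, by linarith, by linarith, by linarith⟩⟩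

/-! ### Line 3 -/

theorem pl3_52 {t : ℝ} (h1 : 178521 / 1000000 ≤ t) (h2 : t ≤ 36181 / 200000) :
    0 ≤ t * (1 - t * (1 + t ^ 2) / 2 -
        (1 - t ^ 2) * (8660255 / 10000000 + 1443376 / 10000000 * t ^ 2)) -
      6299 / 500000 * ((1 - t ^ 2 / 2) * (1 - t * (1 + t ^ 2) / 2 +
        t ^ 2 * (8660255 / 10000000 + 1443376 / 10000000 * t ^ 2))) := by
  have x1 : 0 ≤ t - 178521 / 1000000 := by linarith
  have x2 : 0 ≤ 36181 / 200000 - t := by linarith
  have key : t * (1 - t * (1 + t ^ 2) / 2 -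
        (1 - t ^ 2) * (8660255 / 10000000 + 1443376 / 10000000 * t ^ 2)) -
      6299 / 500000 * ((1 - t ^ 2 / 2) * (1 - t * (1 + t ^ 2) / 2 +
        t ^ 2 * (8660255 / 10000000 + 1443376 / 10000000 * t ^ 2))) =
      4575753445927207799248462814234846410072769 / 114740707580717301760000000000000 * (t - 178521 / 1000000) ^ 0 * (36181 / 200000 - t) ^ 6 +
      5551001507468323601653629361623814836285527 / 11474070758071730176000000000000 * (t - 178521 / 1000000) ^ 1 * (36181 / 200000 - t) ^ 5 +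
      1665533459586544256082046274825960818433947 / 917925660645738414080000000000 * (t - 178521 / 1000000) ^ 2 * (36181 / 200000 - t) ^ 4 +
      147674066598828117370252866439252609205189 / 45896283032286920704000000000 * (t - 178521 / 1000000) ^ 3 * (36181 / 200000 - t) ^ 3 +
      110358158845252723321740013950147408702387 / 36717026425829536563200000000 * (t - 178521 / 1000000) ^ 4 * (36181 / 200000 - t) ^ 2 +
      26376666943020802807592587591680963686407 / 18358513212914768281600000000 * (t - 178521 / 1000000) ^ 5 * (36181 / 200000 - t) ^ 1 +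
      2042410731518313671675428890380462293209 / 7343405285165907312640000000 * (t - 178521 / 1000000) ^ 6 * (36181 / 200000 - t) ^ 0 := by
    ring
  rw [key]
  positivity

theorem pu3_52 {t : ℝ} (h1 : 178521 / 1000000 ≤ t) (h2 : t ≤ 36181 / 200000) :
    0 ≤ 507 / 40000 * ((1 - t ^ 2 / 2 - t ^ 4 / 7) * (1 - t * (1 + t ^ 2) / 2 +
        t ^ 2 * (866025 / 1000000 + 1435 / 10000 * t ^ 2))) -
      t * (1 - t * (1 + t ^ 2) / 2 -
        (1 - t ^ 2) * (866025 / 1000000 + 1435 / 10000 * t ^ 2)) := by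
  have x1 : 0 ≤ t - 178521 / 1000000 := by linarith
  have x2 : 0 ≤ 36181 / 200000 - t := by linarith
  have key : 507 / 40000 * ((1 - t ^ 2 / 2 - t ^ 4 / 7) * (1 - t * (1 + t ^ 2) / 2 +
        t ^ 2 * (866025 / 1000000 + 1435 / 10000 * t ^ 2))) -
      t * (1 - t * (1 + t ^ 2) / 2 -
        (1 - t ^ 2) * (866025 / 1000000 + 1435 / 10000 * t ^ 2)) =
      4571488908409385134665714417503884893661365238186893 / 83471841656815773822935367680000000 * (t - 178521 / 1000000) ^ 0 * (36181 / 200000 - t) ^ 8 +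
      823827250140589596370773982173851555034518824111673 / 2086796041420394345573384192000000 * (t - 178521 / 1000000) ^ 1 * (36181 / 200000 - t) ^ 7 +
      1027620484640809543478151352741182186134290483926771 / 834718416568157738229353676800000 * (t - 178521 / 1000000) ^ 2 * (36181 / 200000 - t) ^ 6 +
      180560327257340830031598439194060418821372246479431 / 83471841656815773822935367680000 * (t - 178521 / 1000000) ^ 3 * (36181 / 200000 - t) ^ 5 +
      218091817313798031959823637574891850872819117149837 / 93488462655633666681687611801600 * (t - 178521 / 1000000) ^ 4 * (36181 / 200000 - t) ^ 4 +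
      36731036420600909865108331337707154764266254060857 / 23372115663908416670421902950400 * (t - 178521 / 1000000) ^ 5 * (36181 / 200000 - t) ^ 3 +
      5978956901462833841785191493995936736441951601077 / 9348846265563366668168761180160 * (t - 178521 / 1000000) ^ 6 * (36181 / 200000 - t) ^ 2 +
      132054182500124447397461353953863085652756686071 / 934884626556336666816876118016 * (t - 178521 / 1000000) ^ 7 * (36181 / 200000 - t) ^ 1 +
      13367349500807738913165612195061588454602797665 / 1068439573207241904933572706304 * (t - 178521 / 1000000) ^ 8 * (36181 / 200000 - t) ^ 0 := by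
    ring
  rw [key]
  positivity

theorem rhoW3_52 {d : ℝ} (hd : 0 < d) (hx1 : 111 / 2000 ≤ A3 (alpha d)) (hx2 : A3 (alpha d) ≤ 57 / 1000) :
    221 / 250 * A3 (alpha d) ≤ rho51 d (alpha d) ∧
    352 / 5 * A3 (alpha d) ≤ 4 * Real.arcsin (6 / 7) - 2 * rho51 d (alpha d) ∧ Side9 d (6 / 7) := by
  have h1 : 51593499 / 100000000 ≤ Real.cos (alpha d) := h_ge_of52 (by norm_num) hx1 (by norm_num) (by norm_num)
  have h2 : Real.cos (alpha d) ≤ 2065453 / 4000000 := h_le_of52 (by norm_num) hx2 (by norm_num) (by norm_num)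
  have t1 : 178521 / 1000000 ≤ Real.tanh (d / 2) := tanh_ge52 hd h1 (by norm_num) (by norm_num)
  have t2 : Real.tanh (d / 2) ≤ 36181 / 200000 := tanh_le52 hd h2 (by norm_num) (by norm_num)
  have g1 : 4487 / 12500 ≤ g51 d :=
    le_arcsin_of52 (by norm_num) (by norm_num) rfl (le_trans (by norm_num) t1)
  have v1 : 6299 / 500000 ≤ V52 (Real.tanh (d / 2)) :=
    V_ge_poly52 (by linarith) (by linarith) (by norm_num) (pl3_52 t1 t2)
  have v2 : V52 (Real.tanh (d / 2)) ≤ 507 / 40000 :=
    V_le_poly52 (by linarith) (by linarith) (by norm_num) (pu3_52 t1 t2)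
  have r1 : 4 * (12597 / 1000000) ≤ rho51 d (alpha d) :=
    le_rho52 hd v1 (by norm_num) (by norm_num) (by norm_num) (by norm_num)
  have r2 : rho51 d (alpha d) ≤ 4 * (507 / 40000) := rho_le52 hd v2 (by norm_num)
  have u1 := arcsin_mul52 (q := 6 / 7) (t := Real.tanh (d / 2)) (by norm_num) (by norm_num)
    (by linarith) (by linarith)
  have a1 := arcsin67_52
  have g2 : g51 d = 2 * Real.arcsin (Real.tanh (d / 2)) := rfl
  refine ⟨by linarith, by linarith, ⟨by norm_num, by linarith, by linarith, by linarith⟩⟩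

/-! ### Line 4 -/

theorem pl4_52 {t : ℝ} (h1 : 88457 / 500000 ≤ t) (h2 : t ≤ 89261 / 500000) :
    0 ≤ t * (1 - t * (1 + t ^ 2) / 2 -
        (1 - t ^ 2) * (8660255 / 10000000 + 1443376 / 10000000 * t ^ 2)) -
      62859 / 5000000 * ((1 - t ^ 2 / 2) * (1 - t * (1 + t ^ 2) / 2 +
        t ^ 2 * (8660255 / 10000000 + 1443376 / 10000000 * t ^ 2))) := by
  have x1 : 0 ≤ t - 88457 / 500000 := by linarith
  have x2 : 0 ≤ 89261 / 500000 - t := by linarith
  have key : t * (1 - t * (1 + t ^ 2) / 2 -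
        (1 - t ^ 2) * (8660255 / 10000000 + 1443376 / 10000000 * t ^ 2)) -
      62859 / 5000000 * ((1 - t ^ 2 / 2) * (1 - t * (1 + t ^ 2) / 2 +
        t ^ 2 * (8660255 / 10000000 + 1443376 / 10000000 * t ^ 2))) =
      7334834818950909484211599952307013467689 / 187574501265638400000000000000 * (t - 88457 / 500000) ^ 0 * (89261 / 500000 - t) ^ 6 +
      575718788117050888193929532569073107128373 / 281361751898457600000000000000 * (t - 88457 / 500000) ^ 1 * (89261 / 500000 - t) ^ 5 +
      1081968328122109390766024637356202463800329 / 112544700759383040000000000000 * (t - 88457 / 500000) ^ 2 * (89261 / 500000 - t) ^ 4 +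
      528256872213697586903563962980833471239439 / 28136175189845760000000000000 * (t - 88457 / 500000) ^ 3 * (89261 / 500000 - t) ^ 3 +
      2084134120778954183696975918639547285731041 / 112544700759383040000000000000 * (t - 88457 / 500000) ^ 4 * (89261 / 500000 - t) ^ 2 +
      2580067291515115184031613063722942999950693 / 281361751898457600000000000000 * (t - 88457 / 500000) ^ 5 * (89261 / 500000 - t) ^ 1 +
      1024192854576113792309102426658993745524563 / 562723503796915200000000000000 * (t - 88457 / 500000) ^ 6 * (89261 / 500000 - t) ^ 0 := by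
    ring
  rw [key]
  positivity

theorem pu4_52 {t : ℝ} (h1 : 88457 / 500000 ≤ t) (h2 : t ≤ 89261 / 500000) :
    0 ≤ 101 / 8000 * ((1 - t ^ 2 / 2 - t ^ 4 / 7) * (1 - t * (1 + t ^ 2) / 2 +
        t ^ 2 * (866025 / 1000000 + 1435 / 10000 * t ^ 2))) -
      t * (1 - t * (1 + t ^ 2) / 2 -
        (1 - t ^ 2) * (866025 / 1000000 + 1435 / 10000 * t ^ 2)) := by
  have x1 : 0 ≤ t - 88457 / 500000 := by linarith
  have x2 : 0 ≤ 89261 / 500000 - t := by linarith
  have key : 101 / 8000 * ((1 - t ^ 2 / 2 - t ^ 4 / 7) * (1 - t * (1 + t ^ 2) / 2 +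
        t ^ 2 * (866025 / 1000000 + 1435 / 10000 * t ^ 2))) -
      t * (1 - t * (1 + t ^ 2) / 2 -
        (1 - t ^ 2) * (866025 / 1000000 + 1435 / 10000 * t ^ 2)) =
      18418089633711470635435961493782875345185859351813 / 19555386892897590923231232000000 * (t - 88457 / 500000) ^ 0 * (89261 / 500000 - t) ^ 8 +
      16693745726251692539596595769589599200349445559449 / 2444423361612198865403904000000 * (t - 88457 / 500000) ^ 1 * (89261 / 500000 - t) ^ 7 +
      104843671601724251505977803752017177772192734066539 / 4888846723224397730807808000000 * (t - 88457 / 500000) ^ 2 * (89261 / 500000 - t) ^ 6 +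
      92888886581567576772450972918118722152994830858647 / 2444423361612198865403904000000 * (t - 88457 / 500000) ^ 3 * (89261 / 500000 - t) ^ 5 +
      80991769723272617396735759775253419448108046486131 / 1955538689289759092323123200000 * (t - 88457 / 500000) ^ 4 * (89261 / 500000 - t) ^ 4 +
      9878889405002524339326767312575375125405166153609 / 349203337373171266486272000000 * (t - 88457 / 500000) ^ 5 * (89261 / 500000 - t) ^ 3 +
      8195737119013616198824498913813183001053891283757 / 698406674746342532972544000000 * (t - 88457 / 500000) ^ 6 * (89261 / 500000 - t) ^ 2 +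
      6520782391689882764340540805366090520920828856161 / 2444423361612198865403904000000 * (t - 88457 / 500000) ^ 7 * (89261 / 500000 - t) ^ 1 +
      4854011670498675419608040429091179014513111588453 / 19555386892897590923231232000000 * (t - 88457 / 500000) ^ 8 * (89261 / 500000 - t) ^ 0 := by
    ring
  rw [key]
  positivity

theorem rhoW4_52 {d : ℝ} (hd : 0 < d) (hx1 : 109 / 2000 ≤ A3 (alpha d)) (hx2 : A3 (alpha d) ≤ 111 / 2000) :
    453 / 500 * A3 (alpha d) ≤ rho51 d (alpha d) ∧
    723 / 10 * A3 (alpha d) ≤ 4 * Real.arcsin (6 / 7) - 2 * rho51 d (alpha d) ∧ Side9 d (6 / 7) := by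
  have h1 : 25782471 / 50000000 ≤ Real.cos (alpha d) := h_ge_of52 (by norm_num) hx1 (by norm_num) (by norm_num)
  have h2 : Real.cos (alpha d) ≤ 103187 / 200000 := h_le_of52 (by norm_num) hx2 (by norm_num) (by norm_num)
  have t1 : 88457 / 500000 ≤ Real.tanh (d / 2) := tanh_ge52 hd h1 (by norm_num) (by norm_num)
  have t2 : Real.tanh (d / 2) ≤ 89261 / 500000 := tanh_le52 hd h2 (by norm_num) (by norm_num)
  have g1 : 3557 / 10000 ≤ g51 d :=
    le_arcsin_of52 (by norm_num) (by norm_num) rfl (le_trans (by norm_num) t1)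
  have v1 : 62859 / 5000000 ≤ V52 (Real.tanh (d / 2)) :=
    V_ge_poly52 (by linarith) (by linarith) (by norm_num) (pl4_52 t1 t2)
  have v2 : V52 (Real.tanh (d / 2)) ≤ 101 / 8000 :=
    V_le_poly52 (by linarith) (by linarith) (by norm_num) (pu4_52 t1 t2)
  have r1 : 4 * (50283 / 4000000) ≤ rho51 d (alpha d) :=
    le_rho52 hd v1 (by norm_num) (by norm_num) (by norm_num) (by norm_num)
  have r2 : rho51 d (alpha d) ≤ 4 * (101 / 8000) := rho_le52 hd v2 (by norm_num)
  have u1 := arcsin_mul52 (q := 6 / 7) (t := Real.tanh (d / 2)) (by norm_num) (by norm_num)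
    (by linarith) (by linarith)
  have a1 := arcsin67_52
  have g2 : g51 d = 2 * Real.arcsin (Real.tanh (d / 2)) := rfl
  refine ⟨by linarith, by linarith, ⟨by norm_num, by linarith, by linarith, by linarith⟩⟩

/-! ### Line 5 -/

theorem pl5_52 {t : ℝ} (h1 : 35221 / 200000 ≤ t) (h2 : t ≤ 35383 / 200000) :
    0 ≤ t * (1 - t * (1 + t ^ 2) / 2 -
        (1 - t ^ 2) * (8660255 / 10000000 + 1443376 / 10000000 * t ^ 2)) -
      125497 / 10000000 * ((1 - t ^ 2 / 2) * (1 - t * (1 + t ^ 2) / 2 +
        t ^ 2 * (8660255 / 10000000 + 1443376 / 10000000 * t ^ 2))) := by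
  have x1 : 0 ≤ t - 35221 / 200000 := by linarith
  have x2 : 0 ≤ 35383 / 200000 - t := by linarith
  have key : t * (1 - t * (1 + t ^ 2) / 2 -
        (1 - t ^ 2) * (8660255 / 10000000 + 1443376 / 10000000 * t ^ 2)) -
      125497 / 10000000 * ((1 - t ^ 2 / 2) * (1 - t * (1 + t ^ 2) / 2 +
        t ^ 2 * (8660255 / 10000000 + 1443376 / 10000000 * t ^ 2))) =
      1374763864591883112443206787030813088769 / 75314543061600000000000000 * (t - 35221 / 200000) ^ 0 * (35383 / 200000 - t) ^ 6 +
      2087544092460390672834757984816512223387 / 12552423843600000000000000 * (t - 35221 / 200000) ^ 1 * (35383 / 200000 - t) ^ 5 +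
      2797918066966229514275879690877887127001 / 5020969537440000000000000 * (t - 35221 / 200000) ^ 2 * (35383 / 200000 - t) ^ 4 +
      3505888757494092713974780108044797300323 / 3765727153080000000000000 * (t - 35221 / 200000) ^ 3 * (35383 / 200000 - t) ^ 3 +
      4211459130584715358300804216355824121329 / 5020969537440000000000000 * (t - 35221 / 200000) ^ 4 * (35383 / 200000 - t) ^ 2 +
      4914632149937077526663788767261479980267 / 12552423843600000000000000 * (t - 35221 / 200000) ^ 5 * (35383 / 200000 - t) ^ 1 +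
      5615410776410607343605557120834002119241 / 75314543061600000000000000 * (t - 35221 / 200000) ^ 6 * (35383 / 200000 - t) ^ 0 := by
    ring
  rw [key]
  positivity

theorem pu5_52 {t : ℝ} (h1 : 35221 / 200000 ≤ t) (h2 : t ≤ 35383 / 200000) :
    0 ≤ 63 / 5000 * ((1 - t ^ 2 / 2 - t ^ 4 / 7) * (1 - t * (1 + t ^ 2) / 2 +
        t ^ 2 * (866025 / 1000000 + 1435 / 10000 * t ^ 2))) -
      t * (1 - t * (1 + t ^ 2) / 2 -
        (1 - t ^ 2) * (866025 / 1000000 + 1435 / 10000 * t ^ 2)) := by
  have x1 : 0 ≤ t - 35221 / 200000 := by linarith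
  have x2 : 0 ≤ 35383 / 200000 - t := by linarith
  have key : 63 / 5000 * ((1 - t ^ 2 / 2 - t ^ 4 / 7) * (1 - t * (1 + t ^ 2) / 2 +
        t ^ 2 * (866025 / 1000000 + 1435 / 10000 * t ^ 2))) -
      t * (1 - t * (1 + t ^ 2) / 2 -
        (1 - t ^ 2) * (866025 / 1000000 + 1435 / 10000 * t ^ 2)) =
      897457067604107698419659280210323159891025737 / 4743731683460712960000000 * (t - 35221 / 200000) ^ 0 * (35383 / 200000 - t) ^ 8 +
      845797131529702286650696338437632629845936051 / 592966460432589120000000 * (t - 35221 / 200000) ^ 1 * (35383 / 200000 - t) ^ 7 +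
      5559823705304669160022867324147679530273014311 / 1185932920865178240000000 * (t - 35221 / 200000) ^ 2 * (35383 / 200000 - t) ^ 6 +
      5199930111416539147627731576441624638968391453 / 592966460432589120000000 * (t - 35221 / 200000) ^ 3 * (35383 / 200000 - t) ^ 5 +
      4840898423849640889013724778396296376821826319 / 474373168346071296000000 * (t - 35221 / 200000) ^ 4 * (35383 / 200000 - t) ^ 4 +
      4482727927818520493126293354919540688560902037 / 592966460432589120000000 * (t - 35221 / 200000) ^ 5 * (35383 / 200000 - t) ^ 3 +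
      4125417908945997323303313942633115809303680951 / 1185932920865178240000000 * (t - 35221 / 200000) ^ 6 * (35383 / 200000 - t) ^ 2 +
      538423950466143722788179224719211708563753739 / 592966460432589120000000 * (t - 35221 / 200000) ^ 7 * (35383 / 200000 - t) ^ 1 +
      487625206744062679681570599541715203193638697 / 4743731683460712960000000 * (t - 35221 / 200000) ^ 8 * (35383 / 200000 - t) ^ 0 := by
    ring
  rw [key]
  positivity

theorem rhoW5_52 {d : ℝ} (hd : 0 < d) (hx1 : 27 / 500 ≤ A3 (alpha d)) (hx2 : A3 (alpha d) ≤ 109 / 2000) :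
    921 / 1000 * A3 (alpha d) ≤ rho51 d (alpha d) ∧
    737 / 10 * A3 (alpha d) ≤ 4 * Real.arcsin (6 / 7) - 2 * rho51 d (alpha d) ∧ Side9 d (6 / 7) := by
  have h1 : 51550661 / 100000000 ≤ Real.cos (alpha d) := h_ge_of52 (by norm_num) hx1 (by norm_num) (by norm_num)
  have h2 : Real.cos (alpha d) ≤ 51564943 / 100000000 := h_le_of52 (by norm_num) hx2 (by norm_num) (by norm_num)
  have t1 : 35221 / 200000 ≤ Real.tanh (d / 2) := tanh_ge52 hd h1 (by norm_num) (by norm_num)
  have t2 : Real.tanh (d / 2) ≤ 35383 / 200000 := tanh_le52 hd h2 (by norm_num) (by norm_num)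
  have g1 : 7081 / 20000 ≤ g51 d :=
    le_arcsin_of52 (by norm_num) (by norm_num) rfl (le_trans (by norm_num) t1)
  have v1 : 125497 / 10000000 ≤ V52 (Real.tanh (d / 2)) :=
    V_ge_poly52 (by linarith) (by linarith) (by norm_num) (pl5_52 t1 t2)
  have v2 : V52 (Real.tanh (d / 2)) ≤ 63 / 5000 :=
    V_le_poly52 (by linarith) (by linarith) (by norm_num) (pu5_52 t1 t2)
  have r1 : 4 * (100389 / 8000000) ≤ rho51 d (alpha d) :=
    le_rho52 hd v1 (by norm_num) (by norm_num) (by norm_num) (by norm_num)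
  have r2 : rho51 d (alpha d) ≤ 4 * (63 / 5000) := rho_le52 hd v2 (by norm_num)
  have u1 := arcsin_mul52 (q := 6 / 7) (t := Real.tanh (d / 2)) (by norm_num) (by norm_num)
    (by linarith) (by linarith)
  have a1 := arcsin67_52
  have g2 : g51 d = 2 * Real.arcsin (Real.tanh (d / 2)) := rfl
  refine ⟨by linarith, by linarith, ⟨by norm_num, by linarith, by linarith, by linarith⟩⟩

/-! ### Line 6 -/

theorem pl6_52 {t : ℝ} (h1 : 175781 / 1000000 ≤ t) (h2 : t ≤ 88053 / 500000) :
    0 ≤ t * (1 - t * (1 + t ^ 2) / 2 -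
        (1 - t ^ 2) * (8660255 / 10000000 + 1443376 / 10000000 * t ^ 2)) -
      5017 / 400000 * ((1 - t ^ 2 / 2) * (1 - t * (1 + t ^ 2) / 2 +
        t ^ 2 * (8660255 / 10000000 + 1443376 / 10000000 * t ^ 2))) := by
  have x1 : 0 ≤ t - 175781 / 1000000 := by linarith
  have x2 : 0 ≤ 88053 / 500000 - t := by linarith
  have key : t * (1 - t * (1 + t ^ 2) / 2 -
        (1 - t ^ 2) * (8660255 / 10000000 + 1443376 / 10000000 * t ^ 2)) -
      5017 / 400000 * ((1 - t ^ 2 / 2) * (1 - t * (1 + t ^ 2) / 2 +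
        t ^ 2 * (8660255 / 10000000 + 1443376 / 10000000 * t ^ 2))) =
      2677908331224844981050654376356993017367747 / 589210083007812500000000000 * (t - 175781 / 1000000) ^ 0 * (88053 / 500000 - t) ^ 6 +
      4826534432121818955892088579811704620859033 / 147302520751953125000000000 * (t - 175781 / 1000000) ^ 1 * (88053 / 500000 - t) ^ 5 +
      2817557356988587978193260417901286917097129 / 29460504150390625000000000 * (t - 175781 / 1000000) ^ 2 * (88053 / 500000 - t) ^ 4 +
      536883656872790453283507745623069217026259 / 3682563018798828125000000 * (t - 175781 / 1000000) ^ 3 * (88053 / 500000 - t) ^ 3 +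
      906125309684182603683970067719885008123401 / 7365126037597656250000000 * (t - 175781 / 1000000) ^ 4 * (88053 / 500000 - t) ^ 2 +
      503394439914527902511891329480064623265113 / 9206407546997070312500000 * (t - 175781 / 1000000) ^ 5 * (88053 / 500000 - t) ^ 1 +
      92276355264567519852976719867465847282723 / 9206407546997070312500000 * (t - 175781 / 1000000) ^ 6 * (88053 / 500000 - t) ^ 0 := by
    ring
  rw [key]
  positivity

theorem pu6_52 {t : ℝ} (h1 : 175781 / 1000000 ≤ t) (h2 : t ≤ 88053 / 500000) :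
    0 ≤ 503 / 40000 * ((1 - t ^ 2 / 2 - t ^ 4 / 7) * (1 - t * (1 + t ^ 2) / 2 +
        t ^ 2 * (866025 / 1000000 + 1435 / 10000 * t ^ 2))) -
      t * (1 - t * (1 + t ^ 2) / 2 -
        (1 - t ^ 2) * (866025 / 1000000 + 1435 / 10000 * t ^ 2)) := by
  have x1 : 0 ≤ t - 175781 / 1000000 := by linarith
  have x2 : 0 ≤ 88053 / 500000 - t := by linarith
  have key : 503 / 40000 * ((1 - t ^ 2 / 2 - t ^ 4 / 7) * (1 - t * (1 + t ^ 2) / 2 +
        t ^ 2 * (866025 / 1000000 + 1435 / 10000 * t ^ 2))) -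
      t * (1 - t * (1 + t ^ 2) / 2 -
        (1 - t ^ 2) * (866025 / 1000000 + 1435 / 10000 * t ^ 2)) =
      1479486205249973292299896331540346953960251023986257 / 9957650402832031250000000000 * (t - 175781 / 1000000) ^ 0 * (88053 / 500000 - t) ^ 8 +
      4950089389575626542998118621028657337075154547068487 / 4356472051239013671875000000 * (t - 175781 / 1000000) ^ 1 * (88053 / 500000 - t) ^ 7 +
      16527681300284565894830445071678576411121638191600417 / 4356472051239013671875000000 * (t - 175781 / 1000000) ^ 2 * (88053 / 500000 - t) ^ 6 +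
      7865405535776517691732732719171605844728594915880721 / 1089118012809753417968750000 * (t - 175781 / 1000000) ^ 3 * (88053 / 500000 - t) ^ 5 +
      3733675481077323399808878844147444382018586605198273 / 435647205123901367187500000 * (t - 175781 / 1000000) ^ 4 * (88053 / 500000 - t) ^ 4 +
      252488457242865579579597253303976186663957098617607 / 38897071886062622070312500 * (t - 175781 / 1000000) ^ 5 * (88053 / 500000 - t) ^ 3 +
      119149695201175308654342375770826422899798626575191 / 38897071886062622070312500 * (t - 175781 / 1000000) ^ 6 * (88053 / 500000 - t) ^ 2 +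
      8004425026955206804852676047049960916123595892769 / 9724267971515655517578125 * (t - 175781 / 1000000) ^ 7 * (88053 / 500000 - t) ^ 1 +
      3749321139038188337778182956975631119863952998097 / 38897071886062622070312500 * (t - 175781 / 1000000) ^ 8 * (88053 / 500000 - t) ^ 0 := by
    ring
  rw [key]
  positivity

theorem rhoW6_52 {d : ℝ} (hd : 0 < d) (hx1 : 269 / 5000 ≤ A3 (alpha d)) (hx2 : A3 (alpha d) ≤ 27 / 500) :
    929 / 1000 * A3 (alpha d) ≤ rho51 d (alpha d) ∧
    372 / 5 * A3 (alpha d) ≤ 4 * Real.arcsin (6 / 7) - 2 * rho51 d (alpha d) ∧ Side9 d (6 / 7) := by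
  have h1 : 51544949 / 100000000 ≤ Real.cos (alpha d) := h_ge_of52 (by norm_num) hx1 (by norm_num) (by norm_num)
  have h2 : Real.cos (alpha d) ≤ 25775331 / 50000000 := h_le_of52 (by norm_num) hx2 (by norm_num) (by norm_num)
  have t1 : 175781 / 1000000 ≤ Real.tanh (d / 2) := tanh_ge52 hd h1 (by norm_num) (by norm_num)
  have t2 : Real.tanh (d / 2) ≤ 88053 / 500000 := tanh_le52 hd h2 (by norm_num) (by norm_num)
  have g1 : 35339 / 100000 ≤ g51 d :=
    le_arcsin_of52 (by norm_num) (by norm_num) rfl (le_trans (by norm_num) t1)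
  have v1 : 5017 / 400000 ≤ V52 (Real.tanh (d / 2)) :=
    V_ge_poly52 (by linarith) (by linarith) (by norm_num) (pl6_52 t1 t2)
  have v2 : V52 (Real.tanh (d / 2)) ≤ 503 / 40000 :=
    V_le_poly52 (by linarith) (by linarith) (by norm_num) (pu6_52 t1 t2)
  have r1 : 4 * (25083 / 2000000) ≤ rho51 d (alpha d) :=
    le_rho52 hd v1 (by norm_num) (by norm_num) (by norm_num) (by norm_num)
  have r2 : rho51 d (alpha d) ≤ 4 * (503 / 40000) := rho_le52 hd v2 (by norm_num)
  have u1 := arcsin_mul52 (q := 6 / 7) (t := Real.tanh (d / 2)) (by norm_num) (by norm_num)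
    (by linarith) (by linarith)
  have a1 := arcsin67_52
  have g2 : g51 d = 2 * Real.arcsin (Real.tanh (d / 2)) := rfl
  refine ⟨by linarith, by linarith, ⟨by norm_num, by linarith, by linarith, by linarith⟩⟩

end

end Pool.Agent.PEN
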