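import Pool.Agent.P4.NumB69
import Pool.Agent.P4.NumV52
import Pool.Agent.P4.Aw11
import Pool.Agent.P4.RfD51
import Pool.Agent.P4.RhoW52

/-! # Numbers of inequalities B, D, D_B, S for `538 / 10000 ≤ A3 ≤ 646 / 10000`

Everything except the constant `rho51`. -/

set_option autoImplicit false

namespace Pool.Agent.PEN

open Classical UpperHalfPlane

noncomputable section

theorem arcsin_mul69 {q t : ℝ} (hq0 : 0 ≤ q) (hq1 : q ≤ 1) (ht0 : 0 ≤ t) (ht1 : t ≤ 1) :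
    Real.arcsin (q * t) ≤ q * Real.arcsin t := by
  have hpi := Real.pi_pos
  have h0 : 0 ≤ Real.arcsin t := Real.arcsin_nonneg.2 ht0
  have h1 : Real.arcsin t ≤ Real.pi / 2 := Real.arcsin_le_pi_div_two t
  have h2 := strictConcaveOn_sin_Icc.concaveOn.2
    (x := Real.arcsin t) (y := 0) ⟨h0, by linarith⟩ ⟨le_rfl, hpi.le⟩ hq0 (sub_nonneg.2 hq1)
    (by ring)
  simp only [smul_eq_mul, mul_zero, add_zero, Real.sin_zero] at h2
  rw [Real.sin_arcsin (by linarith) ht1] at h2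
  have h3 := Real.arcsin_le_arcsin h2
  have h4 : q * Real.arcsin t ≤ Real.arcsin t := by nlinarith
  have h5 : 0 ≤ q * Real.arcsin t := mul_nonneg hq0 h0
  rwa [Real.arcsin_sin (by linarith) (by linarith)] at h3

/-- the numbers of one interval -/
structure NW69 (d e c0 c1 v w : ℝ) : Prop where
  he : (2 * Real.pi - 6 * alpha d) / alpha d ≤ e
  hg : g51 d ≤ c0 * A3 (alpha d)
  hc : 2 * Real.arcsin (6 / 7 * Real.tanh (d / 2)) ≤ c1 * A3 (alpha d)
  h12 : ∀ b : ℕ, b ≤ 12 → Ust69 d b ≤ v * A3 (alpha d)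
  h80 : ∀ b : ℕ, 12 ≤ b → b ≤ 80 → Ust69 d b ≤ (v + (w - v) / 68 * ((b : ℝ) - 12)) * A3 (alpha d)
  htl : ∀ b : ℕ, 80 ≤ b → Ust69 d b ≤ (w + c0 * ((b : ℝ) - 80)) * A3 (alpha d)

theorem NW_of69 {d e c0 c1 v w : ℝ} (hd : 0 < d) (he : (2 * Real.pi - 6 * alpha d) / alpha d ≤ e)
    (hg : g51 d ≤ c0 * A3 (alpha d)) (hc : 6 / 7 * c0 ≤ c1) (hv : Ust69 d 12 ≤ v * A3 (alpha d))
    (hw : Ust69 d 80 ≤ w * A3 (alpha d)) : NW69 d e c0 c1 v w := by
  have hA := A3_pos69 hd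
  refine ⟨he, hg, ?_, fun b hb => (Ust69_mono d hb).trans hv, fun b h1 h2 => ?_, fun b h1 => ?_⟩
  · have h0 : 0 ≤ Real.tanh (d / 2) := (tanh_sq52 hd).2
    have h1 : Real.tanh (d / 2) ≤ 1 := (Real.tanh_lt_one _).le
    have h2 := arcsin_mul69 (q := 6 / 7) (by norm_num) (by norm_num) h0 h1
    have h3 := mul_le_mul_of_nonneg_right hc hA.le
    unfold g51 at hg
    linarith
  · have k1 : (12 : ℝ) ≤ b := by exact_mod_cast h1
    have k2 : (b : ℝ) ≤ 80 := by exact_mod_cast h2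
    have h3 := Ust_chord69 hd (a := 12) (b := b) (c := 80) (by norm_num) h1 h2
    push_cast at h3
    have h4 := mul_le_mul_of_nonneg_left hv (sub_nonneg.2 k2)
    have h5 := mul_le_mul_of_nonneg_left hw (sub_nonneg.2 k1)
    linarith
  · have k1 : (80 : ℝ) ≤ b := by exact_mod_cast h1
    have h3 := Ust_tail69 hd (a := 80) (b := b) (by norm_num) h1
    push_cast at h3
    have h4 := mul_le_mul_of_nonneg_left hg (sub_nonneg.2 k1)
    linarith

/-- one line -/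
theorem lineW69 {d x y e c0 c1 v w S : ℝ} (hd : 0 < d) (hx0 : 0 < x) (hx1 : x ≤ 1)
    (hx : x ≤ A3 (alpha d)) (hy : A3 (alpha d) ≤ y) (he0 : 0 ≤ e)
    (he : 6 * y ≤ e * (3141592 / 1000000 - y)) (hc : 6 / 7 * c0 ≤ c1)
    (v0 : 0 ≤ v * x / 24) (v1 : v * x / 24 ≤ 2)
    (hv : 1 - (v * x / 24) ^ 2 / 2 + (v * x / 24) ^ 4 / 24 -
        2679491 / 10000000 * (v * x / 24 - (v * x / 24) ^ 3 / 6) ≤
      1 - (x / 6) ^ 2 / 2 -
        17320509 / 10000000 * (x / 6 - (x / 6) ^ 3 / 6 + (x / 6) ^ 5 / 120))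
    (g0 : 0 ≤ c0 * x / 2) (g1 : c0 * x / 2 ≤ 3)
    (hg : 1 - (c0 * x / 2) ^ 2 / 2 + (c0 * x / 2) ^ 4 / 24 ≤ 1 - (x / 6) ^ 2 / 2 -
        17320509 / 10000000 * (x / 6 - (x / 6) ^ 3 / 6 + (x / 6) ^ 5 / 120))
    (hS0 : 0 ≤ S) (hS : S ≤ 1 - (x / 6) ^ 2 / 2 -
      17320509 / 10000000 * (x / 6 - (x / 6) ^ 3 / 6 + (x / 6) ^ 5 / 120)) (hw0 : 0 ≤ w)
    (hY2 : (3141592 / 1000000 + w * x / 2) / 80 ≤ 2)
    (hw : 1 - ((3141592 / 1000000 + w * x / 2) / 80) ^ 2 / 2 +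
        ((3141592 / 1000000 + w * x / 2) / 80) ^ 4 / 24 -
        ((3141592 / 1000000 + w * x / 2) / 80) ^ 6 / 720 +
        ((3141592 / 1000000 + w * x / 2) / 80) ^ 8 / 40320 ≤
      S * (1 - (3141593 / 80000000) ^ 2 / 2 + (3141593 / 80000000) ^ 4 / 24 -
        (3141593 / 80000000) ^ 6 / 720)) : NW69 d e c0 c1 v w := by
  refine NW_of69 hd (e_of69 hd he0 hy he) (g_test69 hd hx0 hx1 hx g0 g1 hg) hc
    (Ust_tab52 hd (by norm_num) hx0 (by linarith) hx (W12_test69 hx0.le hx1 v0 v1 hv))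
    (Ust_tab52 hd (by norm_num) hx0 (by linarith) hx ?_)
  refine W_le_of52 (f := 3141593 / 80000000) (Y := (3141592 / 1000000 + w * x / 2) / 80)
    (by norm_num) hx0.le hx1 hS0 hS hw0 ?_ ?_ ?_ hY2 hw
  · norm_num
    linarith
  · norm_num
  · norm_num

/-! ### The excess area of a rhombus -/

theorem kap_of69 {d k : ℝ} (hd : 0 < d) (hk0 : 0 ≤ k) (hk1 : k ≤ 1) (hx : A3 (alpha d) ≤ 1 / 10)
    (h : ((1 / 2 + k / 4) * A3 (alpha d)) - ((1 / 2 + k / 4) * A3 (alpha d)) ^ 3 / 6 +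
        ((1 / 2 + k / 4) * A3 (alpha d)) ^ 5 / 120 ≤
      (17320508 / 10000000 * (A3 (alpha d) / 3 - (A3 (alpha d) / 3) ^ 3 / 6) -
        (A3 (alpha d) / 3) ^ 2 / 2) *
      (17320508 / 20000000 * (1 - ((13 / 6 + k / 4) * A3 (alpha d)) ^ 2 / 2) +
        1 / 2 * ((13 / 6 + k / 4) * A3 (alpha d) -
          ((13 / 6 + k / 4) * A3 (alpha d)) ^ 3 / 6))) :
    k * A3 (alpha d) ≤ 6 * alpha d -
      2 * ((2 * Real.pi - 5 * alpha d) + opp51 d (2 * Real.pi - 5 * alpha d)) := by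
  have hpi := Real.pi_gt_three
  have hx0 := A3_pos69 hd
  have h12 := half_lt_cos39 hd
  have hal : alpha d = Real.pi / 3 - A3 (alpha d) / 3 := by
    unfold A3
    ring
  obtain ⟨x, hxd⟩ : ∃ x, x = A3 (alpha d) := ⟨_, rfl⟩
  rw [← hxd] at hx h hx0 hal ⊢
  have hkx : 0 ≤ k * x := mul_nonneg hk0 hx0.le
  have hkx1 : k * x ≤ 1 / 10 := by nlinarith
  obtain ⟨h0, hh⟩ : ∃ h0, h0 = Real.cos (alpha d) := ⟨_, rfl⟩
  have hC : Real.cosh d * (1 - h0) = h0 := by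
    have h3 := Real.cosh_pos d
    rw [hh, cos_alpha hd]
    field_simp
    ring
  have hh1 : 1 / 2 < h0 := by rw [hh]; exact h12
  -- `2 h - 1`
  have e1 : 17320508 / 10000000 * (x / 3 - (x / 3) ^ 3 / 6) - (x / 3) ^ 2 / 2 ≤ 2 * h0 - 1 := by
    rw [hh, hal, Real.cos_sub, Real.cos_pi_div_three, Real.sin_pi_div_three]
    have h2 := Real.one_sub_sq_div_two_le_cos (x := x / 3)
    have h3 := Real.sin_ge_sub_cube (x := x / 3) (by linarith)
    have h4 : 0 ≤ x / 3 - (x / 3) ^ 3 / 6 := by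
      have : 0 ≤ x / 3 * (1 - (x / 3) ^ 2 / 6) := mul_nonneg (by linarith) (by nlinarith)
      linarith
    have h5 : 17320508 / 10000000 ≤ √(3 : ℝ) := by
      rw [Real.le_sqrt (by norm_num) (by norm_num)]
      norm_num
    have h6 := mul_le_mul h5 h3 h4 (by positivity)
    linarith
  have e0 : 0 ≤ 17320508 / 10000000 * (x / 3 - (x / 3) ^ 3 / 6) - (x / 3) ^ 2 / 2 := by
    have : 0 ≤ x * (17320508 / 30000000 * (1 - (x / 3) ^ 2 / 6) - x / 18) :=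
      mul_nonneg hx0.le (by nlinarith)
    linarith
  -- the cosine of the half difference
  obtain ⟨y, hy⟩ : ∃ y, y = (13 / 6 + k / 4) * x := ⟨_, rfl⟩
  obtain ⟨z, hz⟩ : ∃ z, z = (1 / 2 + k / 4) * x := ⟨_, rfl⟩
  rw [← hy, ← hz] at h
  have hy0 : 0 ≤ y := by rw [hy]; positivity
  have hy1 : y ≤ 1 / 4 := by rw [hy]; nlinarith
  have hz0 : 0 ≤ z := by rw [hz]; positivity
  have hz1 : z ≤ 1 / 10 := by rw [hz]; nlinarith
  have e2 : 17320508 / 20000000 * (1 - y ^ 2 / 2) + 1 / 2 * (y - y ^ 3 / 6) ≤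
      Real.cos (Real.pi / 6 - y) := by
    rw [Real.cos_sub, Real.cos_pi_div_six, Real.sin_pi_div_six]
    have h2 := Real.one_sub_sq_div_two_le_cos (x := y)
    have h3 := Real.sin_ge_sub_cube (x := y) hy0
    have h5 : 17320508 / 20000000 ≤ √(3 : ℝ) / 2 := by
      have : 17320508 / 10000000 ≤ √(3 : ℝ) := by
        rw [Real.le_sqrt (by norm_num) (by norm_num)]
        norm_num
      linarith
    have h6 := mul_le_mul h5 h2 (by nlinarith) (by positivity)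
    linarith
  have e3 : Real.sin z ≤ z - z ^ 3 / 6 + z ^ 5 / 120 := sin_le52 hz0 (by linarith)
  have e4 : 0 ≤ 17320508 / 20000000 * (1 - y ^ 2 / 2) + 1 / 2 * (y - y ^ 3 / 6) := by
    have : 0 ≤ y * (1 - y ^ 2 / 6) := mul_nonneg hy0 (by nlinarith)
    nlinarith
  have key : Real.sin z ≤ (2 * h0 - 1) * Real.cos (Real.pi / 6 - y) :=
    e3.trans (h.trans (mul_le_mul e1 e2 e4 (by linarith)))
  -- the angles
  obtain ⟨A, hA⟩ : ∃ A, A = Real.pi / 6 + 5 * x / 6 := ⟨_, rfl⟩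
  obtain ⟨B, hB⟩ : ∃ B, B = Real.pi / 3 - (4 / 3 + k / 4) * x := ⟨_, rfl⟩
  have hAa : (2 * Real.pi - 5 * alpha d) / 2 = A := by
    rw [hal, hA]
    ring
  have hA0 : 0 < A := by rw [hA]; positivity
  have hA1 : A < Real.pi / 2 := by
    rw [hA]
    linarith
  have hB0 : 0 < B := by
    rw [hB]
    linarith
  have hB1 : B < Real.pi / 2 := by
    rw [hB]
    have : 0 ≤ (4 / 3 + k / 4) * x := by positivity
    linarith
  have sA : 0 < Real.sin A := Real.sin_pos_of_pos_of_lt_pi hA0 (by linarith)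
  have cA : 0 < Real.cos A := Real.cos_pos_of_mem_Ioo ⟨by linarith, hA1⟩
  have sB : 0 < Real.sin B := Real.sin_pos_of_pos_of_lt_pi hB0 (by linarith)
  have cB : 0 < Real.cos B := Real.cos_pos_of_mem_Ioo ⟨by linarith, hB1⟩
  have f1 : Real.cos A * Real.cos B + Real.sin A * Real.sin B = Real.cos (Real.pi / 6 - y) := by
    rw [← Real.cos_sub, ← Real.cos_neg, hA, hB, hy]
    congr 1
    ring
  have f2 : Real.cos A * Real.cos B - Real.sin A * Real.sin B = Real.sin z := by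
    rw [← Real.cos_add, ← Real.cos_pi_div_two_sub, hA, hB, hz]
    congr 1
    ring
  have f3 : (1 - h0) * (Real.cos A * Real.cos B) ≤ h0 * (Real.sin A * Real.sin B) := by
    rw [← f1, ← f2] at key
    linarith
  have hC0 := Real.cosh_pos d
  have h01 : 0 < 1 - h0 := by
    by_contra hcon
    push Not at hcon
    have : Real.cosh d * (1 - h0) ≤ 0 := mul_nonpos_of_nonneg_of_nonpos hC0.le hcon
    linarith
  have f4 : Real.cos A * Real.cos B ≤ Real.cosh d * (Real.sin A * Real.sin B) := by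
    have f5 : (1 - h0) * (Real.cos A * Real.cos B) ≤
        (1 - h0) * (Real.cosh d * (Real.sin A * Real.sin B)) := by
      rw [show (1 - h0) * (Real.cosh d * (Real.sin A * Real.sin B)) =
        (Real.cosh d * (1 - h0)) * (Real.sin A * Real.sin B) by ring, hC]
      exact f3
    exact le_of_mul_le_mul_left f5 h01
  have f6 : 1 / (Real.cosh d * Real.tan A) ≤ Real.tan B := by
    rw [Real.tan_eq_sin_div_cos, Real.tan_eq_sin_div_cos, mul_div_assoc', one_div_div,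
      div_le_div_iff₀ (by positivity) cB]
    linarith
  have f7 := Real.arctan_strictMono.monotone f6
  rw [Real.arctan_tan (by linarith) hB1] at f7
  unfold opp51
  rw [hAa]
  rw [hB] at f7
  linarith

theorem kap3_69 {d : ℝ} (hd : 0 < d) (h1 : 555 / 10000 ≤ A3 (alpha d))
    (h2 : A3 (alpha d) ≤ 570 / 10000) : 0.114 * A3 (alpha d) ≤ 6 * alpha d -
      2 * ((2 * Real.pi - 5 * alpha d) + opp51 d (2 * Real.pi - 5 * alpha d)) := by
  apply kap_of69 hd (by norm_num) (by norm_num) (by linarith)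
  obtain ⟨s, hs⟩ : ∃ s, s = A3 (alpha d) - 555 / 10000 := ⟨_, rfl⟩
  have e : A3 (alpha d) = 555 / 10000 + s := by rw [hs]; ring
  rw [e]
  have s0 : 0 ≤ s := by rw [hs]; linarith
  have s1 : 0 ≤ 15 / 10000 - s := by rw [hs]; linarith
  have p2 := mul_nonneg (pow_nonneg s0 2) s1
  have p3 := mul_nonneg (pow_nonneg s0 3) s1
  have p4 := pow_nonneg s0 4
  have p5 := pow_nonneg s0 5
  have p6 := pow_nonneg s0 6
  have q2 := pow_nonneg s0 2
  linarith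

theorem kap4_69 {d : ℝ} (hd : 0 < d) (h1 : 545 / 10000 ≤ A3 (alpha d))
    (h2 : A3 (alpha d) ≤ 555 / 10000) : 0.112 * A3 (alpha d) ≤ 6 * alpha d -
      2 * ((2 * Real.pi - 5 * alpha d) + opp51 d (2 * Real.pi - 5 * alpha d)) := by
  apply kap_of69 hd (by norm_num) (by norm_num) (by linarith)
  obtain ⟨s, hs⟩ : ∃ s, s = A3 (alpha d) - 545 / 10000 := ⟨_, rfl⟩
  have e : A3 (alpha d) = 545 / 10000 + s := by rw [hs]; ring
  rw [e]
  have s0 : 0 ≤ s := by rw [hs]; linarith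
  have s1 : 0 ≤ 10 / 10000 - s := by rw [hs]; linarith
  have p2 := mul_nonneg (pow_nonneg s0 2) s1
  have p3 := mul_nonneg (pow_nonneg s0 3) s1
  have p4 := pow_nonneg s0 4
  have p5 := pow_nonneg s0 5
  have p6 := pow_nonneg s0 6
  have q2 := pow_nonneg s0 2
  linarith

theorem kap5_69 {d : ℝ} (hd : 0 < d) (h1 : 540 / 10000 ≤ A3 (alpha d))
    (h2 : A3 (alpha d) ≤ 545 / 10000) : 0.111 * A3 (alpha d) ≤ 6 * alpha d -
      2 * ((2 * Real.pi - 5 * alpha d) + opp51 d (2 * Real.pi - 5 * alpha d)) := by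
  apply kap_of69 hd (by norm_num) (by norm_num) (by linarith)
  obtain ⟨s, hs⟩ : ∃ s, s = A3 (alpha d) - 540 / 10000 := ⟨_, rfl⟩
  have e : A3 (alpha d) = 540 / 10000 + s := by rw [hs]; ring
  rw [e]
  have s0 : 0 ≤ s := by rw [hs]; linarith
  have s1 : 0 ≤ 5 / 10000 - s := by rw [hs]; linarith
  have p2 := mul_nonneg (pow_nonneg s0 2) s1
  have p3 := mul_nonneg (pow_nonneg s0 3) s1
  have p4 := pow_nonneg s0 4
  have p5 := pow_nonneg s0 5
  have p6 := pow_nonneg s0 6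
  have q2 := pow_nonneg s0 2
  linarith

theorem kap6_69 {d : ℝ} (hd : 0 < d) (h1 : 538 / 10000 ≤ A3 (alpha d))
    (h2 : A3 (alpha d) ≤ 540 / 10000) : 0.111 * A3 (alpha d) ≤ 6 * alpha d -
      2 * ((2 * Real.pi - 5 * alpha d) + opp51 d (2 * Real.pi - 5 * alpha d)) := by
  apply kap_of69 hd (by norm_num) (by norm_num) (by linarith)
  obtain ⟨s, hs⟩ : ∃ s, s = A3 (alpha d) - 538 / 10000 := ⟨_, rfl⟩
  have e : A3 (alpha d) = 538 / 10000 + s := by rw [hs]; ring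
  rw [e]
  have s0 : 0 ≤ s := by rw [hs]; linarith
  have s1 : 0 ≤ 2 / 10000 - s := by rw [hs]; linarith
  have p2 := mul_nonneg (pow_nonneg s0 2) s1
  have p3 := mul_nonneg (pow_nonneg s0 3) s1
  have p4 := pow_nonneg s0 4
  have p5 := pow_nonneg s0 5
  have p6 := pow_nonneg s0 6
  have q2 := pow_nonneg s0 2
  linarith

/-! ### The lines -/

theorem nw1_69 {d : ℝ} (hd : 0 < d) (h1 : 600 / 10000 ≤ A3 (alpha d))
    (h2 : A3 (alpha d) ≤ 646 / 10000) : NW69 d 0.1261 6.223 5.532 23.4 403.9 := by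
  apply lineW69 (S := 982629 / 1000000) hd (by norm_num) (by norm_num) h1 h2 <;> norm_num

theorem nw2_69 {d : ℝ} (hd : 0 < d) (h1 : 570 / 10000 ≤ A3 (alpha d))
    (h2 : A3 (alpha d) ≤ 600 / 10000) : NW69 d 0.117 6.384 5.675 23.5 412.1 := by
  apply lineW69 (S := 9835 / 10000) hd (by norm_num) (by norm_num) h1 h2 <;> norm_num

theorem nw3_69 {d : ℝ} (hd : 0 < d) (h1 : 555 / 10000 ≤ A3 (alpha d))
    (h2 : A3 (alpha d) ≤ 570 / 10000) : NW69 d 0.111 6.469 5.751 23.6 416.4 := by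
  apply lineW69 (S := 983935 / 1000000) hd (by norm_num) (by norm_num) h1 h2 <;> norm_num

theorem nw4_69 {d : ℝ} (hd : 0 < d) (h1 : 545 / 10000 ≤ A3 (alpha d))
    (h2 : A3 (alpha d) ≤ 555 / 10000) : NW69 d 0.1081 6.528 5.803 23.6 419.3 := by
  apply lineW69 (S := 984226 / 1000000) hd (by norm_num) (by norm_num) h1 h2 <;> norm_num

theorem nw5_69 {d : ℝ} (hd : 0 < d) (h1 : 540 / 10000 ≤ A3 (alpha d))
    (h2 : A3 (alpha d) ≤ 545 / 10000) : NW69 d 0.1061 6.558 5.83 23.6 420.8 := by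
  apply lineW69 (S := 984371 / 1000000) hd (by norm_num) (by norm_num) h1 h2 <;> norm_num

theorem nw6_69 {d : ℝ} (hd : 0 < d) (h1 : 538 / 10000 ≤ A3 (alpha d))
    (h2 : A3 (alpha d) ≤ 540 / 10000) : NW69 d 0.1051 6.57 5.84 23.7 421.5 := by
  apply lineW69 (S := 984429 / 1000000) hd (by norm_num) (by norm_num) h1 h2 <;> norm_num

/-! ### All constants -/

/-- **the numbers of `arDB`** -/
theorem numTD69 {d : ℝ} (hd : 0 < d) (h1 : 570 / 10000 ≤ A3 (alpha d))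
    (h2 : A3 (alpha d) ≤ 646 / 10000) :
    ∃ e c0 K r c1 v w : ℝ, TD e c0 K r c1 v w ∧ NW69 d e c0 c1 v w ∧
      r * A3 (alpha d) ≤ rho51 d (alpha d) ∧
      K * A3 (alpha d) ≤ 4 * Real.arcsin (6 / 7) - 2 * rho51 d (alpha d) ∧ Side9 d (6 / 7) := by
  have hA := A3_pos69 hd
  rcases le_total (A3 (alpha d)) (600 / 10000) with g | g
  · obtain ⟨a1, a2, a3⟩ := rhoW2_52 hd (by linarith) (by linarith)
    exact ⟨_, _, _, _, _, _, _, Or.inr ⟨rfl, rfl, rfl, rfl, rfl, rfl, rfl⟩, nw2_69 hd h1 g,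
      by linarith, by linarith, a3⟩
  · obtain ⟨a1, a2, a3⟩ := rhoW1_52 hd (by linarith) (by linarith)
    exact ⟨_, _, _, _, _, _, _, Or.inl ⟨rfl, rfl, rfl, rfl, rfl, rfl, rfl⟩, nw1_69 hd g h2,
      by linarith, by linarith, a3⟩

/-- **the numbers of `arDS`** -/
theorem numTS69 {d : ℝ} (hd : 0 < d) (h1 : 538 / 10000 ≤ A3 (alpha d))
    (h2 : A3 (alpha d) ≤ 570 / 10000) :
    ∃ e c0 K r c1 v w κ : ℝ, TS e c0 K r c1 v w κ ∧ NW69 d e c0 c1 v w ∧
      r * A3 (alpha d) ≤ rho51 d (alpha d) ∧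
      K * A3 (alpha d) ≤ 4 * Real.arcsin (6 / 7) - 2 * rho51 d (alpha d) ∧ Side9 d (6 / 7) ∧
      κ * A3 (alpha d) ≤ 6 * alpha d -
        2 * ((2 * Real.pi - 5 * alpha d) + opp51 d (2 * Real.pi - 5 * alpha d)) := by
  have hA := A3_pos69 hd
  rcases le_total (A3 (alpha d)) (540 / 10000) with g | g
  · obtain ⟨a1, a2, a3⟩ := rhoW6_52 hd (by linarith) (by linarith)
    exact ⟨_, _, _, _, _, _, _, _, Or.inr (Or.inr (Or.inr ⟨rfl, rfl, rfl, rfl, rfl, rfl, rfl, rfl⟩)),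
      nw6_69 hd h1 g, by linarith, by linarith, a3, kap6_69 hd h1 g⟩
  rcases le_total (A3 (alpha d)) (545 / 10000) with g2 | g2
  · obtain ⟨a1, a2, a3⟩ := rhoW5_52 hd (by linarith) (by linarith)
    exact ⟨_, _, _, _, _, _, _, _, Or.inr (Or.inr (Or.inl ⟨rfl, rfl, rfl, rfl, rfl, rfl, rfl, rfl⟩)),
      nw5_69 hd g g2, by linarith, by linarith, a3, kap5_69 hd g g2⟩
  rcases le_total (A3 (alpha d)) (555 / 10000) with g3 | g3
  · obtain ⟨a1, a2, a3⟩ := rhoW4_52 hd (by linarith) (by linarith)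
    exact ⟨_, _, _, _, _, _, _, _, Or.inr (Or.inl ⟨rfl, rfl, rfl, rfl, rfl, rfl, rfl, rfl⟩),
      nw4_69 hd g2 g3, by linarith, by linarith, a3, kap4_69 hd g2 g3⟩
  · obtain ⟨a1, a2, a3⟩ := rhoW3_52 hd (by linarith) (by linarith)
    exact ⟨_, _, _, _, _, _, _, _, Or.inl ⟨rfl, rfl, rfl, rfl, rfl, rfl, rfl, rfl⟩,
      nw3_69 hd g3 h2, by linarith, by linarith, a3, kap3_69 hd g3 h2⟩

end

end Pool.Agent.PEN
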