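import Pool.Agent.P4.Y71m
import Pool.Agent.P4.NumW69

/-! # PENNY, version 6: all diameters with `A3 ≥ 0.0538` which are not chain diameters -/

set_option autoImplicit false

namespace Pool.Agent.PEN

open Classical UpperHalfPlane

noncomputable section

theorem NW69.line71 {d e c0 K r c1 v w : ℝ} (hd : 0 < d) (h : NW69 d e c0 c1 v w) (he2 : e ≤ 1)
    (hr : r * A3 (alpha d) ≤ rho51 d (alpha d))
    (hK : K * A3 (alpha d) ≤ 4 * Real.arcsin (6 / 7) - 2 * rho51 d (alpha d))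
    (hS : Side9 d (6 / 7)) : Line71 d e c0 K r c1 v w where
  he := (div_le_iff₀ (alpha_pos hd)).1 h.he
  he2 := he2
  hc0 := h.hg
  hr := hr
  hK := hK
  hc1 := h.hc
  h12 := h.h12 12 le_rfl
  h80 := by
    have := h.h80 80 (by norm_num) le_rfl
    have e1 : v + (w - v) / 68 * (((80 : ℕ) : ℝ) - 12) = w := by
      push_cast
      ring
    rwa [e1] at this
  side := hS

/-- the final inequality in the range of B, in terms of the area of the contact triangle -/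
theorem hnumBx71 {d : ℝ} (hd : 0 < d) (h1 : 644 / 10000 ≤ A3 (alpha d))
    (h2 : Real.cosh d ≤ 611 / 500) {n b t I M : ℕ} {A : ℝ} (hn : 10 ≤ n)
    (h : NumB (alpha d) (Ust69 d) n b t I M A) : M ≤ 2 * Lb n := by
  have hA := A3_pos69 hd
  rcases Nat.eq_zero_or_pos t with ht | ht
  · have k1 := h.edge
    have k2 := h.E1
    obtain ⟨l1, _, _, _⟩ := Lb_facts11 n hn
    omega
  have hb := h.b3 (by omega)
  obtain ⟨e', r, c, hT, he', hN⟩ := numBx69 hd h1 h2
  have hτ : (t : ℝ) ≤ A / A3 (alpha d) := by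
    rw [le_div_iff₀ hA]
    linarith [h.low]
  have he0 : 0 ≤ (2 * Real.pi - 6 * alpha d) / alpha d := by
    apply div_nonneg _ (alpha_pos hd).le
    have := A3_pos69 hd
    unfold A3 at this
    linarith
  have he2 : e' ≤ 2 := by
    rcases hT with ⟨rfl, _⟩ | ⟨rfl, _⟩ | ⟨rfl, _⟩ | ⟨rfl, _⟩ | ⟨rfl, _⟩ | ⟨rfl, _⟩ <;> norm_num
  have hB := B_mono11 (he0.trans he') he' he2 (Nat.cast_nonneg (2 * I)) hτ (h.unit hd)
  have h3 : A / A3 (alpha d) ≤ NuB r c b := by
    rw [div_le_iff₀ hA]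
    exact h.up.trans (hN b hb)
  have := arB hT n b t (2 * I) (A / A3 (alpha d)) hn hb h.E1 hτ h3 hB
  exact h.toNum4.fin71 this

/-- the configurations at a diameter with `A3 ≥ 0.0538` which is not a chain diameter -/
theorem main_V6_71 {d : ℝ} (hd : 0 < d) (hA3 : 538 / 10000 ≤ A3 (alpha d))
    (hC : Real.cosh d ≤ 611 / 500) (hE : ¬ Exc66 d) {G : Tg ℍ}
    (hG : G.Geo4 (alpha d) kap (Ust69 d)) (hD : DelG G d) (hP : PentaG G (alpha d))
    (hn : 10 ≤ G.P.card) :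
    (G.D.filter (fun x => G.con x.1 x.2)).card ≤ 2 * Lb G.P.card := by
  rcases le_total (644 / 10000) (A3 (alpha d)) with h1 | h1
  · obtain ⟨t, I, A, h⟩ := numB hE hG hD hP
    exact hnumBx71 hd h1 hC hn h
  rcases le_total (570 / 10000) (A3 (alpha d)) with h2 | h2
  · obtain ⟨e, c0, K, r, c1, v, w, hT, hN, hr, hK, hS⟩ := numTD69 hd h2 (by linarith)
    have he2 : e ≤ 1 := by
      rcases hT with ⟨rfl, _⟩ | ⟨rfl, _⟩ <;> norm_num
    exact main_DB71 hd hC hT (hN.line71 hd he2 hr hK hS) hE hG hD hP hn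
  · obtain ⟨e, c0, K, r, c1, v, w, κ, hT, hN, hr, hK, hS, hκ⟩ := numTS69 hd hA3 h2
    have hal := alpha_pos hd
    have hA := A3_pos69 hd
    have he : e ≤ 1 / 4 ∧ 0 ≤ κ := by
      rcases hT with ⟨rfl, _, _, _, _, _, _, rfl⟩ | ⟨rfl, _, _, _, _, _, _, rfl⟩ |
        ⟨rfl, _, _, _, _, _, _, rfl⟩ | ⟨rfl, _, _, _, _, _, _, rfl⟩ <;> norm_num
    have h4 := (div_le_iff₀ hal).1 hN.he
    have h5 : 2 * Real.pi - 6 * alpha d ≤ alpha d / 4 := by
      have := mul_le_mul_of_nonneg_right he.1 hal.le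
      linarith
    have h6 : 0 ≤ κ * A3 (alpha d) := mul_nonneg he.2 hA.le
    exact main_DS71 hd hC hT he.2 h5 (by linarith) hκ
      (hN.line71 hd (by linarith [he.1]) hr hK hS) hE hG hD hP hn

/-- **Q1 for all diameters with `A3 ≥ 0.0538` which are not chain diameters** -/
theorem q1_V6_71 {e d : ℝ} (he : 0 < e) (ha : alpha e = 2 * Real.pi / 7) (hd : 0 < d)
    (hA3 : 538 / 10000 ≤ A3 (alpha d)) (hC : Real.cosh d ≤ 611 / 500) (hE : ¬ Exc66 d) (n : ℕ) :
    eD d n ≤ eD e n :=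
  q1_of_main5 he ha hd n (fun _ _ hG hD _ hS hn _ =>
    main_V6_71 hd hA3 hC hE hG hD (penta71 hG hD hS) hn) le_rfl

end

end Pool.Agent.PEN
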