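import Pool.Agent.P4.Q52
import Pool.Agent.P4.Q3_52
import Pool.Agent.P4.Y71n
import Pool.Agent.P4.Exc56
import Pool.Agent.P4.NumT52
import Pool.Agent.P4.NumT7_52
import Pool.Agent.P4.Tk62j
import Pool.Agent.P4.Tk62l
import Pool.Agent.P4.Tk57g

/-! # PENNY, version 6: assembly -/

set_option autoImplicit false

namespace Pool.Agent.PEN

open Classical UpperHalfPlane

noncomputable section

theorem cosh_ge2_56 {x : ℝ} (hx : 0 ≤ x) : 1 + x ^ 2 / 2 ≤ Real.cosh x := by
  have h3 : Real.cosh x = 1 + 2 * Real.sinh (x / 2) ^ 2 := by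
    have := Real.cosh_two_mul (x / 2)
    rw [mul_div_cancel₀ x (two_ne_zero)] at this
    rw [this, Real.cosh_sq]
    ring
  have h4 : x / 2 ≤ Real.sinh (x / 2) := Real.self_le_sinh_iff.2 (by linarith)
  rw [h3]
  nlinarith

theorem sinh_ge56 {x : ℝ} (hx : 0 ≤ x) : x + x ^ 3 / 6 ≤ Real.sinh x := by
  have hm : MonotoneOn (fun y : ℝ => Real.sinh y - y - y ^ 3 / 6) (Set.Ici 0) := by
    apply monotoneOn_of_deriv_nonneg (convex_Ici 0)
    · fun_prop
    · fun_prop
    · intro y hy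
      rw [interior_Ici] at hy
      have hd1 : HasDerivAt (fun y : ℝ => Real.sinh y - y - y ^ 3 / 6)
          (Real.cosh y - 1 - (3 * y ^ 2) / 6) y := by
        have e3 : HasDerivAt (fun y : ℝ => Real.sinh y - y - y ^ 3 / 6)
            (Real.cosh y - 1 - ((3 : ℕ) * y ^ (3 - 1)) / 6) y :=
          ((Real.hasDerivAt_sinh y).sub (hasDerivAt_id' y)).sub
            ((hasDerivAt_pow 3 y).div_const 6)
        simpa using e3
      rw [hd1.deriv]
      have := cosh_ge2_56 (le_of_lt (Set.mem_Ioi.1 hy))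
      linarith
  have := hm (Set.mem_Ici.2 le_rfl) (Set.mem_Ici.2 hx) hx
  simp only [Real.sinh_zero] at this
  linarith

/-- `0.356 ≤ d` gives `1064 / 1000 ≤ cosh d` -/
theorem cosh_ge356_56 {d : ℝ} (hd : 89 / 250 ≤ d) : 1064 / 1000 ≤ Real.cosh d := by
  have h1 : Real.cosh (89 / 250) ≤ Real.cosh d := by
    rw [Real.cosh_le_cosh, abs_of_pos (by norm_num), abs_of_pos (by linarith)]
    exact hd
  have h3 : Real.cosh (89 / 250) = 1 + 2 * Real.sinh (89 / 500) ^ 2 := by
    have := Real.cosh_two_mul (89 / 500)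
    rw [show (2 : ℝ) * (89 / 500) = 89 / 250 by norm_num] at this
    rw [this, Real.cosh_sq]
    ring
  have h4 := sinh_ge56 (x := 89 / 500) (by norm_num)
  have h5 : (89 / 500 + (89 / 500 : ℝ) ^ 3 / 6) ^ 2 ≤ Real.sinh (89 / 500) ^ 2 :=
    pow_le_pow_left₀ (by norm_num) h4 2
  rw [h3] at h1
  norm_num at h5
  linarith

theorem A3_ge538_56 {d : ℝ} (hd : 0 < d) (hC : 1064 / 1000 ≤ Real.cosh d) :
    538 / 10000 ≤ A3 (alpha d) := by
  have hpi := Real.pi_gt_d4
  have hc := Real.cosh_pos d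
  have hh : 1064 / 2064 ≤ Real.cos (alpha d) := by
    rw [cos_alpha hd, div_le_div_iff₀ (by norm_num) (by linarith)]
    linarith
  have h1 : Real.cos (Real.pi / 3 - 269 / 15000) < 1064 / 2064 := by
    rw [Real.cos_sub, Real.cos_pi_div_three, Real.sin_pi_div_three]
    have c := cos_le52 (t := 269 / 15000) (by norm_num) (by norm_num)
    have s := sin_le52 (x := 269 / 15000) (by norm_num) (by norm_num)
    have h4 : 0 ≤ Real.sin (269 / 15000) :=
      Real.sin_nonneg_of_nonneg_of_le_pi (by norm_num) (by linarith)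
    have h5 : √(3 : ℝ) ≤ 17320509 / 10000000 := by
      rw [Real.sqrt_le_left (by norm_num)]
      norm_num
    have s4 := mul_le_mul h5 s h4 (by norm_num)
    norm_num at c s4 ⊢
    linarith
  have h3 : alpha d ≤ Real.pi / 3 - 269 / 15000 := by
    by_contra hcon
    push Not at hcon
    have h4 := Real.cos_le_cos_of_nonneg_of_le_pi (by linarith) (alpha_le_pi39 d) hcon.le
    linarith
  unfold A3
  linarith

/-- Q1 at the special diameter `d₄` -/
theorem q1_d4_56 {e d : ℝ} (he : 0 < e) (ha : alpha e = 2 * Real.pi / 7) (hd : 0 < d)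
    (q1 : 5277507 / 10000000 < Real.cos (alpha d)) (q2 : Real.cos (alpha d) < 5277508 / 10000000)
    (a0 : ch66 d 0 < qa66 d) (a1 : ch66 d 1 < qa66 d)
    (h : 2 * opp51 d (ch66 d 1) = 2 * Real.pi - 3 * alpha d) (n : ℕ) : eD d n ≤ eD e n :=
  q1_d4_of52 he ha hd q1.le q2.le (fun _ hG hD _ _ hP => row4_62 hG hD hP (fun j hj => by
    interval_cases j
    · exact a0
    · exact a1) h) n

/-- Q1 at the special diameter `d₆` -/
theorem q1_d6_56 {e d : ℝ} (he : 0 < e) (ha : alpha e = 2 * Real.pi / 7) (hd : 0 < d)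
    (h1 : 1077 / 1000 ≤ Real.cosh d) (h2 : Real.cosh d ≤ 611 / 500)
    (a0 : ch66 d 0 < qa66 d) (a1 : ch66 d 1 < qa66 d) (a2 : ch66 d 2 < qa66 d)
    (h : 2 * opp51 d (ch66 d 2) = 2 * Real.pi - 3 * alpha d) (n : ℕ) : eD d n ≤ eD e n :=
  q1_B_of52 he ha hd h1 h2 (fun _ hG hD hH _ hP => row6_62 hG hD hH hP (fun j hj => by
    interval_cases j
    · exact a0
    · exact a1
    · exact a2) h) n

/-- Q1 at the special diameter `d₅` -/
theorem q1_d5_56 {e d : ℝ} (he : 0 < e) (ha : alpha e = 2 * Real.pi / 7) (hd : 0 < d)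
    (q1 : 5232590 / 10000000 < Real.cos (alpha d)) (q2 : Real.cos (alpha d) < 5232591 / 10000000)
    (a0 : ch66 d 0 < qa66 d) (a1 : ch66 d 1 < qa66 d) (h : ch66 d 2 = qa66 d) (n : ℕ) :
    eD d n ≤ eD e n :=
  q1_d5_of52 he ha hd (by norm_num at q1 ⊢; exact q1.le) q2.le
    (fun _ hG hD hH _ hP => row5_62 hG hD hH hP (fun j hj => by
      interval_cases j
      · exact a0
      · exact a1) h) n

/-- Q1 at the special diameter `d₇` -/
theorem q1_d7_56 {e d : ℝ} (he : 0 < e) (ha : alpha e = 2 * Real.pi / 7) (hd : 0 < d)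
    (q1 : 5175725 / 10000000 < Real.cos (alpha d)) (q2 : Real.cos (alpha d) < 5175726 / 10000000)
    (hb : ∀ j < 3, ch66 d j < qa66 d) (h : ch66 d 3 = qa66 d) (n : ℕ) :
    eD d n ≤ eD e n :=
  q1_d7_of52 he ha hd q1.le q2.le
    (fun _ hG hD hH _ hP => row7_62 hG hD hH hP (by norm_num at q2 ⊢; linarith)
      (fun j hj => hb j (by omega)) h) n

/-- **Q1 for all `d ≥ 0.356`, and for `n ≤ 97`** -/
theorem q1_v6_56 {e d : ℝ} (he : 0 < e) (ha : alpha e = 2 * Real.pi / 7) (hd : 0 < d) {n : ℕ}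
    (h : n ≤ 97 ∨ 89 / 250 ≤ d) : eD d n ≤ eD e n := by
  rcases h with h | h0
  · exact q1_97 he ha hd h
  have h1 := cosh_ge356_56 h0
  rcases le_or_gt (611 / 500) (Real.cosh d) with hC | hC
  · by_cases hq : Real.cos (5 * alpha d) = 2 * Real.cos (alpha d) - 1
    · exact q1_ds52 he ha hd hq n
    · exact q1_v3_of71 he ha hd (fun n hn => strip_Lb he ha n hn) (Or.inl ⟨hC, hq⟩)
  · by_cases hE : Exc66 d
    · rcases le_or_gt (1077 / 1000) (Real.cosh d) with hB | hB
      · rcases exc57h hd hB hC.le hE with ⟨a, b, _⟩ | ⟨a, b, _⟩ | ⟨a, b, a0, a1, hh⟩ |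
          ⟨a, b, a0, a1, hh⟩ | ⟨a, b, a0, a1, a2, hh⟩
        · exact q1_d2_52 he ha hd a.le b.le n
        · exact q1_d3_52 he ha hd (by norm_num at a ⊢; linarith) (by norm_num at b ⊢; linarith) n
        · exact q1_d4_56 he ha hd a b a0 a1 hh n
        · exact q1_d5_56 he ha hd a b a0 a1 hh n
        · exact q1_d6_56 he ha hd hB hC.le a0 a1 a2 hh n
      · rcases exc56 hd (by linarith) hB.le hE with ⟨a, b, a0, hh⟩ | ⟨a, b, a0, hh⟩
        · exact q1_d7_56 he ha hd a b a0 hh n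
        · exact q1_d8_57 he ha hd hC.le a b a0 hh n
    · exact q1_V6_71 he ha hd (A3_ge538_56 hd h1) hC.le hE n

end

end Pool.Agent.PEN
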