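import Pool.Agent.P4.Pent66

/-! # Hyperbolic penny graphs: adjacent corners of equilateral pentagons

If a corner of an equilateral pentagon of side `d` with all diagonals at least `d` is larger
than `2 α`, then the sum of it and any of its two neighbours is at most `4 α`. -/

set_option autoImplicit false

namespace Pool.Agent.PEN

open Classical UpperHalfPlane

noncomputable section

/-- the identity behind the comparison along `x + y = 4 α` -/
theorem key66 (C r p q : ℝ) (hr2 : r ^ 2 = 2 * C + 1) (hC : 1 < C) (hpq : p ^ 2 + q ^ 2 = 1) :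
  C ^ 3 -
      2 * C * (C ^ 2 - 1) * (2 * (C / (C + 1)) ^ 2 - 1) *
        (p ^ 2 - q ^ 2) +
      (C ^ 2 - 1) * ((C + 1) *
        (2 * (C / (C + 1)) ^ 2 - 1) ^ 2 +
        (C - 1) * (p ^ 2 - q ^ 2) ^ 2 - C) -
      (C ^ 2 - (C ^ 2 - 1) *
        ((4 * (C / (C + 1)) ^ 3 - 3 * (C / (C + 1))) *
          (p ^ 2 - q ^ 2) + (3 * (r / (C + 1)) - 4 * (r / (C + 1)) ^ 3) *
          (2 * p * q))) =
      (C - 1) * (C ^ 2 - 1) / (C + 1) ^ 3 *
        (2 * (q * (p - r * q) * (r * (3 * C + 1) * p ^ 2 -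
          (C + 1) ^ 2 * p * q - r * C * (C - 1) * q ^ 2))) := by
  have hne : C + 1 ≠ 0 := by linarith
  obtain ⟨K, hK⟩ : ∃ K, K = (C - 1) * (C ^ 2 - 1) / (C + 1) ^ 3 := ⟨_, rfl⟩
  have h3 : (C ^ 2 - 1) * (3 * (r / (C + 1)) - 4 * (r / (C + 1)) ^ 3) =
      K * (r * (3 * C + 1)) := by
    rw [hK]
    field_simp
    linear_combination (-4 * (C ^ 2 - 1) * r) * hr2
  have h4 : (C ^ 2 - 1) * ((4 * (C / (C + 1)) ^ 3 - 3 * (C / (C + 1))) -
      2 * C * (2 * (C / (C + 1)) ^ 2 - 1)) =
      K * (-(C * (C - 1) * (2 * C + 1))) := by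
    rw [hK]
    field_simp
    ring
  have h5 : C ^ 3 + (C ^ 2 - 1) * ((C + 1) * (2 * (C / (C + 1)) ^ 2 - 1) ^ 2 - C) - C ^ 2 =
      K * (C ^ 3 - 4 * C ^ 2 - 4 * C - 1) := by
    rw [hK]
    field_simp
    ring
  have h6 : (C - 1) * (C ^ 2 - 1) = K * (C + 1) ^ 3 := by
    rw [hK]
    field_simp
  rw [← hK]
  have e1 : K * (C ^ 3 - 4 * C ^ 2 - 4 * C - 1) + K * (-(C * (C - 1) * (2 * C + 1))) * (p ^ 2 - q ^ 2) +
      K * (C + 1) ^ 3 * (p ^ 2 - q ^ 2) ^ 2 + K * (r * (3 * C + 1)) * (2 * p * q) =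
      K * (2 * (q * (p - r * q) * (r * (3 * C + 1) * p ^ 2 -
          (C + 1) ^ 2 * p * q - r * C * (C - 1) * q ^ 2))) := by
    clear h3 h4 h5 h6 hK hne
    have hC2 : C = (r ^ 2 - 1) / 2 := by linarith
    clear hr2 hC
    subst hC2
    linear_combination (-K * (((((r ^ 2 - 1) / 2) ^ 3 - 4 * ((r ^ 2 - 1) / 2) ^ 2 - 4 * ((r ^ 2 - 1) / 2) - 1)) *
    (1 + p ^ 2 + q ^ 2) - (((r ^ 2 - 1) / 2) * (((r ^ 2 - 1) / 2) - 1) * (2 * ((r ^ 2 - 1) / 2) + 1)) * (p ^ 2 - q ^ 2) + 2 * (r * (3 * ((r ^ 2 - 1) / 2) + 1)) * p * q)) * hpq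
  rw [← e1]
  linear_combination h5 + (p ^ 2 - q ^ 2) * h4 + (p ^ 2 - q ^ 2) ^ 2 * h6 + (2 * p * q) * h3

/-- `cosh` of the distance of the ends of a chain of three sides -/
def FF66 (d x y : ℝ) : ℝ := Real.cosh d ^ 3
      - Real.cosh d * Real.sinh d ^ 2 * (Real.cos x + Real.cos y)
      + Real.cosh d * Real.sinh d ^ 2 * (Real.cos x * Real.cos y)
      - Real.sinh d ^ 2 * (Real.sin x * Real.sin y)

/-- `cosh` of the distance of the ends of a chain of two sides -/
def GG66 (d t : ℝ) : ℝ := Real.cosh d * Real.cosh d - Real.sinh d * Real.sinh d * Real.cos t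

theorem FF_comm66 (d x y : ℝ) : FF66 d x y = FF66 d y x := by
  unfold FF66
  ring

/-- an equilateral triangle at the end of the chain -/
theorem FF_alpha66 {d : ℝ} (hd : 0 < d) (t : ℝ) :
    FF66 d t (alpha d) = GG66 d (t - alpha d) := by
  unfold FF66 GG66
  rw [Real.cos_sub, cos_alpha hd]
  have hC : 1 < Real.cosh d := Real.one_lt_cosh.2 hd.ne'
  have hsq : Real.sinh d ^ 2 = Real.cosh d ^ 2 - 1 := by
    have := Real.cosh_sq d
    linarith
  have hne : Real.cosh d + 1 ≠ 0 := by linarith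
  have e : Real.sinh d * Real.sinh d = Real.cosh d ^ 2 - 1 := by rw [← sq]; exact hsq
  rw [hsq, e]
  field_simp
  ring

theorem FF_sub66 (d y a b : ℝ) : FF66 d y b - FF66 d y a =
    4 * Real.sinh d ^ 2 * Real.sin ((b - a) / 2) * Real.sin (y / 2) *
      (Real.cosh d * Real.sin (y / 2) * Real.sin ((a + b) / 2) -
        Real.cos (y / 2) * Real.cos ((a + b) / 2)) := by
  have e1 : Real.cos b - Real.cos a =
      -2 * Real.sin ((b + a) / 2) * Real.sin ((b - a) / 2) := Real.cos_sub_cos b a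
  have e2 : Real.sin b - Real.sin a =
      2 * Real.sin ((b - a) / 2) * Real.cos ((b + a) / 2) := Real.sin_sub_sin b a
  have e3 : Real.cos y = 1 - 2 * Real.sin (y / 2) ^ 2 := by
    have := Real.cos_two_mul (y / 2)
    rw [mul_div_cancel₀ y (two_ne_zero)] at this
    have h2 := Real.sin_sq_add_cos_sq (y / 2)
    linarith
  have e4 : Real.sin y = 2 * Real.sin (y / 2) * Real.cos (y / 2) := by
    have := Real.sin_two_mul (y / 2)
    rw [mul_div_cancel₀ y (two_ne_zero)] at this
    exact this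
  have e5 : (a + b) / 2 = (b + a) / 2 := by ring
  rw [e5]
  have e6 : FF66 d y b - FF66 d y a = Real.cosh d * Real.sinh d ^ 2 * (Real.cos y - 1) *
      (Real.cos b - Real.cos a) - Real.sinh d ^ 2 * Real.sin y * (Real.sin b - Real.sin a) := by
    unfold FF66
    ring
  rw [e6, e1, e2, e3, e4]
  ring

/-- basic values of `α / 2` -/
theorem half_alpha66 {d : ℝ} (hd : 0 < d) :
    Real.cosh d * Real.sin (alpha d / 2) * Real.sin (alpha d) =
      Real.cos (alpha d / 2) * Real.cos (alpha d) := by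
  have hC : 1 < Real.cosh d := Real.one_lt_cosh.2 hd.ne'
  have e4 : Real.sin (alpha d) = 2 * Real.sin (alpha d / 2) * Real.cos (alpha d / 2) := by
    have := Real.sin_two_mul (alpha d / 2)
    rw [mul_div_cancel₀ _ (two_ne_zero)] at this
    exact this
  have e3 : 2 * Real.sin (alpha d / 2) ^ 2 = 1 - Real.cos (alpha d) := by
    have := Real.cos_two_mul (alpha d / 2)
    rw [mul_div_cancel₀ _ (two_ne_zero)] at this
    have h2 := Real.sin_sq_add_cos_sq (alpha d / 2)
    linarith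
  have hne : Real.cosh d + 1 ≠ 0 := by linarith
  calc Real.cosh d * Real.sin (alpha d / 2) * Real.sin (alpha d)
      = Real.cosh d * Real.cos (alpha d / 2) * (2 * Real.sin (alpha d / 2) ^ 2) := by
        rw [e4]; ring
    _ = Real.cos (alpha d / 2) * Real.cos (alpha d) := by
        rw [e3, cos_alpha hd]
        field_simp
        ring

/-- the chain gets longer when the angle at an end grows from `α` -/
theorem FF_ge66 {d : ℝ} (hd : 0 < d) {M A : ℝ} (hM : alpha d ≤ M) (hM1 : M ≤ Real.pi)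
    (hA : alpha d ≤ A) (hA1 : A ≤ Real.pi) : GG66 d (M - alpha d) ≤ FF66 d M A := by
  rw [← FF_alpha66 hd, ← sub_nonneg, FF_sub66]
  have hp := Real.pi_pos
  have hal := alpha_lt hd
  have hal0 := alpha_pos hd
  have hC : 1 < Real.cosh d := Real.one_lt_cosh.2 hd.ne'
  have s1 : 0 ≤ Real.sin ((A - alpha d) / 2) :=
    Real.sin_nonneg_of_nonneg_of_le_pi (by linarith) (by linarith)
  have s2 : 0 ≤ Real.sin (M / 2) := Real.sin_nonneg_of_nonneg_of_le_pi (by linarith) (by linarith)
  have s3 : 0 ≤ Real.sin ((alpha d + A) / 2) :=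
    Real.sin_nonneg_of_nonneg_of_le_pi (by linarith) (by linarith)
  have c3 : 0 ≤ Real.cos (M / 2) :=
    Real.cos_nonneg_of_neg_pi_div_two_le_of_le (by linarith) (by linarith)
  have key : 0 ≤ Real.cosh d * Real.sin (M / 2) * Real.sin ((alpha d + A) / 2) -
      Real.cos (M / 2) * Real.cos ((alpha d + A) / 2) := by
    rcases le_total ((alpha d + A) / 2) (Real.pi / 2) with hm | hm
    · have k1 : Real.sin (alpha d) ≤ Real.sin ((alpha d + A) / 2) :=
        Real.sin_le_sin_of_le_of_le_pi_div_two (by linarith) hm (by linarith)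
      have k2 : Real.cos ((alpha d + A) / 2) ≤ Real.cos (alpha d) :=
        Real.cos_le_cos_of_nonneg_of_le_pi hal0.le (by linarith) (by linarith)
      have k3 : Real.sin (alpha d / 2) ≤ Real.sin (M / 2) :=
        Real.sin_le_sin_of_le_of_le_pi_div_two (by linarith) (by linarith) (by linarith)
      have k4 : Real.cos (M / 2) ≤ Real.cos (alpha d / 2) :=
        Real.cos_le_cos_of_nonneg_of_le_pi (by linarith) (by linarith) (by linarith)
      have k5 : 0 ≤ Real.cos ((alpha d + A) / 2) :=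
        Real.cos_nonneg_of_neg_pi_div_two_le_of_le (by linarith) hm
      have k6 : 0 ≤ Real.sin (alpha d / 2) :=
        Real.sin_nonneg_of_nonneg_of_le_pi (by linarith) (by linarith)
      have k7 : 0 ≤ Real.sin (alpha d) :=
        Real.sin_nonneg_of_nonneg_of_le_pi (by linarith) (by linarith)
      have k8 : Real.sin (alpha d / 2) * Real.sin (alpha d) ≤
          Real.sin (M / 2) * Real.sin ((alpha d + A) / 2) := mul_le_mul k3 k1 k7 s2
      have k9 : Real.cos (M / 2) * Real.cos ((alpha d + A) / 2) ≤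
          Real.cos (alpha d / 2) * Real.cos (alpha d) :=
        mul_le_mul k4 k2 k5 (le_trans c3 k4)
      have k10 := half_alpha66 hd
      have k11 := mul_le_mul_of_nonneg_left k8 (by linarith : (0 : ℝ) ≤ Real.cosh d)
      linarith
    · have k2 : Real.cos ((alpha d + A) / 2) ≤ 0 :=
        Real.cos_nonpos_of_pi_div_two_le_of_le hm (by linarith)
      have k3 : 0 ≤ Real.cosh d * Real.sin (M / 2) * Real.sin ((alpha d + A) / 2) := by positivity
      have k4 : Real.cos (M / 2) * Real.cos ((alpha d + A) / 2) ≤ 0 :=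
        mul_nonpos_of_nonneg_of_nonpos c3 k2
      linarith
  positivity

/-- the chain gets longer when a large angle grows -/
theorem FF_lt66 {d : ℝ} (hd : 0 < d) {y a b : ℝ} (hy : 0 < y) (hy1 : y < Real.pi)
    (ha : Real.pi / 2 ≤ a) (hab : a < b) (hb : b ≤ Real.pi) : FF66 d y a < FF66 d y b := by
  rw [← sub_pos, FF_sub66]
  have hp := Real.pi_pos
  have hC : 1 < Real.cosh d := Real.one_lt_cosh.2 hd.ne'
  have hS : 0 < Real.sinh d := Real.sinh_pos_iff.2 hd
  have s1 : 0 < Real.sin ((b - a) / 2) := Real.sin_pos_of_pos_of_lt_pi (by linarith) (by linarith)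
  have s2 : 0 < Real.sin (y / 2) := Real.sin_pos_of_pos_of_lt_pi (by linarith) (by linarith)
  have s3 : 0 < Real.sin ((a + b) / 2) := Real.sin_pos_of_pos_of_lt_pi (by linarith) (by linarith)
  have c3 : 0 ≤ Real.cos (y / 2) :=
    Real.cos_nonneg_of_neg_pi_div_two_le_of_le (by linarith) (by linarith)
  have c4 : Real.cos ((a + b) / 2) ≤ 0 :=
    Real.cos_nonpos_of_pi_div_two_le_of_le (by linarith) (by linarith)
  have k3 : 0 < Real.cosh d * Real.sin (y / 2) * Real.sin ((a + b) / 2) := by positivity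
  have k4 : Real.cos (y / 2) * Real.cos ((a + b) / 2) ≤ 0 :=
    mul_nonpos_of_nonneg_of_nonpos c3 c4
  have key : 0 < Real.cosh d * Real.sin (y / 2) * Real.sin ((a + b) / 2) -
      Real.cos (y / 2) * Real.cos ((a + b) / 2) := by linarith
  positivity

theorem GG_le66 {d : ℝ} (hd : 0 < d) {x y : ℝ} (hx : x ≤ Real.pi) (hy : 0 ≤ y)
    (h : GG66 d x ≤ GG66 d y) : x ≤ y := by
  by_contra h1
  rw [not_le] at h1
  have hS : 0 < Real.sinh d := Real.sinh_pos_iff.2 hd
  have h2 : Real.cos x < Real.cos y := Real.cos_lt_cos_of_nonneg_of_le_pi hy hx h1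
  unfold GG66 at h
  have h3 : 0 < Real.sinh d * Real.sinh d := by positivity
  nlinarith

/-- comparison along `x + y = 4 α` -/
theorem FF_GG66 {d : ℝ} (hd : 0 < d) {y : ℝ} (h1 : alpha d ≤ y) (h2 : y ≤ 2 * alpha d) :
    GG66 d (y + alpha d) ≤ FF66 d (4 * alpha d - y) y := by
  have hp := Real.pi_pos
  have hal := alpha_lt hd
  have hal0 := alpha_pos hd
  have hC : 1 < Real.cosh d := Real.one_lt_cosh.2 hd.ne'
  have hsq : Real.sinh d ^ 2 = Real.cosh d ^ 2 - 1 := by
    have := Real.cosh_sq d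
    linarith
  set b := alpha d / 2 with hb
  set e := (2 * alpha d - y) / 2 with he
  have eb : alpha d = 2 * b := by rw [hb]; ring
  have ey : y = 4 * b - 2 * e := by rw [he, eb]; ring
  have eX : 4 * alpha d - y = 4 * b + 2 * e := by rw [ey, eb]; ring
  have eG : y + alpha d = 6 * b - 2 * e := by rw [ey, eb]; ring
  have he0 : 0 ≤ e := by rw [he]; linarith
  have heb : e ≤ b := by rw [he, hb]; linarith
  have hcosa : Real.cos (2 * b) = Real.cosh d / (Real.cosh d + 1) := by
    rw [← eb]; exact cos_alpha hd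
  -- sine and cosine of b
  have cb2 : Real.cos b ^ 2 = (2 * Real.cosh d + 1) / (2 * (Real.cosh d + 1)) := by
    have := Real.cos_two_mul b
    rw [hcosa] at this
    have hne : Real.cosh d + 1 ≠ 0 := by linarith
    field_simp at this ⊢
    linarith
  have sb2 : Real.sin b ^ 2 = 1 / (2 * (Real.cosh d + 1)) := by
    have h3 := Real.sin_sq_add_cos_sq b
    rw [cb2] at h3
    have hne : Real.cosh d + 1 ≠ 0 := by linarith
    have h4 : Real.sin b ^ 2 = 1 - (2 * Real.cosh d + 1) / (2 * (Real.cosh d + 1)) := by linarith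
    rw [h4]
    field_simp
    ring
  have sb0 : 0 < Real.sin b := Real.sin_pos_of_pos_of_lt_pi (by linarith) (by linarith)
  have cb0 : 0 < Real.cos b := Real.cos_pos_of_mem_Ioo ⟨by linarith, by linarith⟩
  set r := Real.sqrt (2 * Real.cosh d + 1) with hr
  have hr2 : r ^ 2 = 2 * Real.cosh d + 1 := Real.sq_sqrt (by linarith)
  have hr0 : 0 < r := Real.sqrt_pos.2 (by linarith)
  have hcb : Real.cos b = r * Real.sin b := by
    have h3 : Real.cos b ^ 2 = (r * Real.sin b) ^ 2 := by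
      rw [mul_pow, hr2, cb2, sb2]
      ring
    have h4 : 0 < r * Real.sin b := by positivity
    exact (pow_left_inj₀ cb0.le h4.le two_ne_zero).1 h3
  set q := Real.sin e with hq
  set p := Real.cos e with hpp
  have hq0 : 0 ≤ q := Real.sin_nonneg_of_nonneg_of_le_pi he0 (by linarith)
  have hp0 : 0 < p := Real.cos_pos_of_mem_Ioo ⟨by linarith, by linarith⟩
  have hpq : p ^ 2 + q ^ 2 = 1 := by
    have := Real.sin_sq_add_cos_sq e
    linarith
  have hqb : q ≤ Real.sin b :=
    Real.sin_le_sin_of_le_of_le_pi_div_two (by linarith) (by linarith) heb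
  have hpb : Real.cos b ≤ p := Real.cos_le_cos_of_nonneg_of_le_pi he0 (by linarith) heb
  have hpr : 0 ≤ p - r * q := by
    have : r * q ≤ r * Real.sin b := mul_le_mul_of_nonneg_left hqb hr0.le
    linarith
  -- the second factor
  have hfac : 0 ≤ r * (3 * Real.cosh d + 1) * p ^ 2 - (Real.cosh d + 1) ^ 2 * p * q -
      r * Real.cosh d * (Real.cosh d - 1) * q ^ 2 := by
    have h3 : r * q ≤ p := by linarith
    have h4 : r * (p * q) ≤ p ^ 2 := by
      have := mul_le_mul_of_nonneg_left h3 hp0.le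
      linarith
    have h5 : r * (r * q ^ 2) ≤ p ^ 2 := by
      have h7 := mul_self_le_mul_self (by positivity : (0 : ℝ) ≤ r * q) h3
      linarith
    have h6 : 0 ≤ r * (r * (3 * Real.cosh d + 1) * p ^ 2 - (Real.cosh d + 1) ^ 2 * p * q -
        r * Real.cosh d * (Real.cosh d - 1) * q ^ 2) := by
      have e7 : r * (r * (3 * Real.cosh d + 1) * p ^ 2 - (Real.cosh d + 1) ^ 2 * p * q -
          r * Real.cosh d * (Real.cosh d - 1) * q ^ 2) =
          4 * Real.cosh d * (Real.cosh d + 1) * p ^ 2 +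
          (Real.cosh d + 1) ^ 2 * (p ^ 2 - r * (p * q)) +
          Real.cosh d * (Real.cosh d - 1) * (p ^ 2 - r * (r * q ^ 2)) := by
        linear_combination ((3 * Real.cosh d + 1) * p ^ 2) * hr2
      rw [e7]
      have h8 : 0 ≤ (Real.cosh d + 1) ^ 2 * (p ^ 2 - r * (p * q)) :=
        mul_nonneg (by positivity) (by linarith)
      have h9 : 0 ≤ Real.cosh d * (Real.cosh d - 1) * (p ^ 2 - r * (r * q ^ 2)) :=
        mul_nonneg (mul_nonneg (by linarith) (by linarith)) (by linarith)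
      have h10 : 0 ≤ 4 * Real.cosh d * (Real.cosh d + 1) * p ^ 2 := by positivity
      linarith
    exact nonneg_of_mul_nonneg_right h6 hr0
  have hcos2 : Real.cos (2 * e) = p ^ 2 - q ^ 2 := by
    rw [Real.cos_two_mul]
    linarith
  have hsin2 : Real.sin (2 * e) = 2 * p * q := by
    rw [Real.sin_two_mul]
    ring
  have hsina : Real.sin (2 * b) = r / (Real.cosh d + 1) := by
    rw [Real.sin_two_mul, hcb]
    have e8 : 2 * Real.sin b * (r * Real.sin b) = 2 * r * Real.sin b ^ 2 := by ring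
    rw [e8, sb2]
    have hne : Real.cosh d + 1 ≠ 0 := by linarith
    field_simp
  have c4 : Real.cos (4 * b) = 2 * (Real.cosh d / (Real.cosh d + 1)) ^ 2 - 1 := by
    have e8 : 4 * b = 2 * (2 * b) := by ring
    rw [e8, Real.cos_two_mul, hcosa]
  have s4 : Real.sin (4 * b) ^ 2 + Real.cos (4 * b) ^ 2 = 1 := Real.sin_sq_add_cos_sq _
  have c6 : Real.cos (6 * b) = 4 * (Real.cosh d / (Real.cosh d + 1)) ^ 3 -
      3 * (Real.cosh d / (Real.cosh d + 1)) := by
    have e8 : 6 * b = 3 * (2 * b) := by ring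
    rw [e8, Real.cos_three_mul, hcosa]
  have s6 : Real.sin (6 * b) = 3 * (r / (Real.cosh d + 1)) - 4 * (r / (Real.cosh d + 1)) ^ 3 := by
    have e8 : 6 * b = 3 * (2 * b) := by ring
    rw [e8, Real.sin_three_mul, hsina]
  have hxz : (2 * p * q) ^ 2 + (p ^ 2 - q ^ 2) ^ 2 = 1 := by
    have : (p ^ 2 + q ^ 2) ^ 2 = 1 := by rw [hpq]; norm_num
    linarith
  have hFF : FF66 d (4 * alpha d - y) y = Real.cosh d ^ 3 -
      2 * Real.cosh d * Real.sinh d ^ 2 * Real.cos (4 * b) * (p ^ 2 - q ^ 2) +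
      Real.sinh d ^ 2 * ((Real.cosh d + 1) * Real.cos (4 * b) ^ 2 +
        (Real.cosh d - 1) * (p ^ 2 - q ^ 2) ^ 2 - Real.cosh d) := by
    rw [eX, ey]
    unfold FF66
    rw [Real.cos_add, Real.cos_sub, Real.sin_add, Real.sin_sub, hcos2, hsin2]
    generalize Real.cos (4 * b) = k at *
    generalize Real.sin (4 * b) = l at *
    generalize p ^ 2 - q ^ 2 = x at *
    generalize 2 * p * q = z at *
    linear_combination (Real.cosh d * Real.sinh d ^ 2 * (-l ^ 2) +
      Real.sinh d ^ 2 * k ^ 2) * hxz + (Real.cosh d * Real.sinh d ^ 2 * (x ^ 2 - 1) -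
      Real.sinh d ^ 2 * x ^ 2) * s4
  have hGG : GG66 d (y + alpha d) = Real.cosh d ^ 2 - Real.sinh d ^ 2 *
      (Real.cos (6 * b) * (p ^ 2 - q ^ 2) + Real.sin (6 * b) * (2 * p * q)) := by
    rw [eG]
    unfold GG66
    rw [Real.cos_sub, hcos2, hsin2]
    ring
  rw [← sub_nonneg, hFF, hGG, c4, c6, s6, hsq]
  have hCr : Real.cosh d = (r ^ 2 - 1) / 2 := by linarith
  have hr1 : r ^ 2 + 1 ≠ 0 := by positivity
  have key := key66 (Real.cosh d) r p q hr2 hC hpq
  rw [key]
  have h10 : 0 ≤ Real.cosh d - 1 := by linarith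
  have h11 : 0 ≤ Real.cosh d ^ 2 - 1 := by nlinarith
  have h12 : 0 ≤ q * (p - r * q) * (r * (3 * Real.cosh d + 1) * p ^ 2 -
          (Real.cosh d + 1) ^ 2 * p * q - r * Real.cosh d * (Real.cosh d - 1) * q ^ 2) :=
    mul_nonneg (mul_nonneg hq0 hpr) hfac
  have h13 : 0 < Real.cosh d + 1 := by linarith
  positivity

/-- the real inequality: `X, Y` adjacent, `A` the other neighbour of `X`, `M` opposite -/
theorem strong_real66 {d : ℝ} (hd : 0 < d) {X Y M A : ℝ} (hX : 2 * alpha d < X)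
    (hX1 : X ≤ 3 * alpha d) (hY : alpha d ≤ Y) (hY1 : Y ≤ 2 * alpha d) (hM : alpha d ≤ M)
    (hM1 : M ≤ 3 * alpha d) (hA : alpha d ≤ A) (hA1 : A ≤ 3 * alpha d)
    (hq : Real.pi / 2 ≤ 2 * alpha d)
    (e1 : FF66 d X Y = GG66 d M) (e2 : FF66 d M A = GG66 d Y) : X + Y ≤ 4 * alpha d := by
  have hp := Real.pi_pos
  have hal := alpha_lt hd
  have hal0 := alpha_pos hd
  by_contra hcon
  rw [not_le] at hcon
  have h1 : M - alpha d ≤ Y := by
    refine GG_le66 hd (by linarith) (by linarith) ?_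
    rw [← e2]
    exact FF_ge66 hd hM (by linarith) hA (by linarith)
  have h2 : FF66 d (4 * alpha d - Y) Y < FF66 d X Y := by
    rw [FF_comm66, FF_comm66 d X]
    exact FF_lt66 hd (by linarith) (by linarith) (by linarith) (by linarith) (by linarith)
  have h3 := FF_GG66 hd hY hY1
  rw [e1] at h2
  have h4 : GG66 d M ≤ GG66 d (Y + alpha d) := by
    unfold GG66
    have h5 : Real.cos (Y + alpha d) ≤ Real.cos M :=
      Real.cos_le_cos_of_nonneg_of_le_pi (by linarith) (by linarith) (by linarith)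
    have h6 : 0 ≤ Real.sinh d * Real.sinh d := mul_self_nonneg _
    nlinarith
  linarith

end

end Pool.Agent.PEN
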