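import Pool.Agent.P4.B29_85
import Pool.Agent.P4.S3_85

/-! # P4, row L: the ball of radius 3 of the order 7 tiling (85 points, 196 edges) -/

set_option autoImplicit false
set_option maxRecDepth 20000

namespace Pool.Agent.PEN

open Classical UpperHalfPlane

noncomputable section

/-- the ball of radius 3 -/
def A85_85 : Finset (Fin 21 × ℕ) := {
  (0, 0), (0, 1), (0, 2), (0, 3), (0, 4), (0, 5), (0, 6), (0, 7), (0, 8), (0, 9), (0, 10),
  (0, 11), (0, 12), (1, 2), (1, 3), (1, 4), (1, 5), (1, 6), (1, 7), (1, 8), (1, 9), (1, 10),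
  (1, 11), (1, 12), (2, 3), (2, 4), (2, 5), (2, 6), (2, 7), (2, 8), (2, 9), (2, 10), (2, 11),
  (3, 6), (3, 7), (3, 8), (3, 9), (3, 10), (3, 11), (3, 12), (4, 6), (4, 7), (4, 8), (4, 9),
  (4, 10), (4, 11), (4, 12), (5, 5), (5, 6), (5, 7), (5, 8), (5, 9), (5, 10), (5, 11), (6, 7),
  (6, 8), (6, 9), (6, 10), (6, 11), (7, 7), (7, 8), (7, 9), (7, 10), (7, 11), (8, 9), (8, 11),
  (9, 9), (9, 11), (10, 9), (10, 11), (11, 11), (12, 11), (13, 11), (14, 11), (15, 11), (16, 10),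
  (16, 12), (17, 10), (17, 12), (18, 9), (18, 11), (19, 10), (19, 12), (20, 10), (20, 12)}

/-- its edges -/
def B85_85 : Finset ((Fin 21 × Fin 21 × ℕ) × ℕ) :=
  (ELs3_85 ×ˢ Finset.range 13).filter
    (fun e => (e.1.1, e.2) ∈ A85_85 ∧ (e.1.2.1, e.2 + e.1.2.2) ∈ A85_85)

theorem cardA85_85 : A85_85.card = 85 := by decide +kernel

theorem cardB85_85 : B85_85.card = 196 := by decide +kernel

/-- the ball of radius 3: 85 points, 196 edges -/
theorem ball85 {d : ℝ} (hd : 0 < d) (ha : alpha d = 2 * Real.pi / 7) :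
    ∃ P : Finset ℍ, P.card = 85 ∧ Sep d P ∧ 2 * 196 ≤ cd d P := by
  obtain ⟨P, h1, h2, h3⟩ := patch85 Rs3_85 hd ha A85_85 B85_85
    (fun e he => (by decide +kernel : ∀ e ∈ ELs3_85, e.2.2 = 0 → e.1 < e.2.1) e.1
      (Finset.mem_product.1 (Finset.mem_filter.1 he).1).1)
    (fun e he => (by decide +kernel : ∀ e ∈ ELs3_85,
      T85 (vs3_85 e.1) (gl85^[e.2.2] (vs3_85 e.2.1)) = (0, 1, 0)) e.1
      (Finset.mem_product.1 (Finset.mem_filter.1 he).1).1)
    (fun e he => (Finset.mem_filter.1 he).2)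
  rw [cardA85_85] at h1
  rw [cardB85_85] at h3
  exact ⟨P, h1, h2, h3⟩

end

end Pool.Agent.PEN
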