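import Pool.Agent.P4.Int85

/-! # P4, row L: the fourth layer strip -/

set_option autoImplicit false

namespace Pool.Agent.PEN

open Classical UpperHalfPlane

noncomputable section

/-- the types -/
def vs4_85 : Fin 55 → W85 := ![
  ((1, 0, 0), (0, 0, 0), (0, 0, 0)),
  ((1, 2, 0), (1, 0, -1), (1, 0, -1)),
  ((1, 1, 0), (0, 2, 1), (0, -1, -1)),
  ((3, 7, 3), (1, 0, 0), (-1, -3, -1)),
  ((4, 10, 5), (0, 1, 1), (-1, -5, -2)),
  ((2, 5, 2), (1, 5, 2), (-2, -4, -2)),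
  ((4, 11, 5), (4, 8, 3), (-3, -9, -4)),
  ((2, 9, 5), (2, 7, 4), (-3, -8, -3)),
  ((14, 42, 19), (8, 23, 10), (-11, -29, -13)),
  ((12, 31, 14), (7, 18, 8), (-8, -23, -10)),
  ((16, 44, 19), (8, 25, 11), (-11, -31, -14)),
  ((22, 64, 28), (12, 33, 14), (-15, -43, -20)),
  ((34, 92, 40), (17, 46, 20), (-22, -62, -28)),
  ((33, 92, 41), (16, 47, 21), (-22, -63, -28)),
  ((26, 71, 31), (13, 38, 17), (-18, -49, -22)),
  ((29, 80, 36), (15, 42, 19), (-19, -56, -25)),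
  ((27, 78, 35), (7, 22, 10), (-15, -42, -19)),
  ((26, 73, 32), (8, 20, 8), (-13, -39, -18)),
  ((9, 24, 11), (6, 15, 7), (-6, -19, -8)),
  ((15, 42, 19), (3, 10, 5), (-7, -22, -10)),
  ((18, 53, 24), (5, 13, 6), (-10, -28, -12)),
  ((93, 261, 116), (30, 87, 39), (-54, -150, -67)),
  ((100, 280, 124), (34, 92, 40), (-57, -160, -72)),
  ((115, 324, 145), (38, 107, 48), (-66, -187, -83)),
  ((137, 387, 173), (46, 129, 58), (-80, -224, -99)),
  ((141, 393, 174), (48, 132, 58), (-80, -227, -102)),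
  ((57, 159, 70), (28, 76, 33), (-38, -105, -47)),
  ((126, 353, 157), (43, 120, 53), (-72, -205, -92)),
  ((66, 184, 81), (31, 87, 38), (-42, -121, -55)),
  ((78, 221, 98), (36, 100, 44), (-51, -143, -64)),
  ((79, 218, 96), (36, 100, 44), (-50, -142, -64)),
  ((94, 263, 117), (43, 120, 53), (-62, -171, -76)),
  ((113, 314, 140), (50, 139, 62), (-72, -203, -90)),
  ((122, 341, 151), (54, 152, 67), (-79, -219, -98)),
  ((59, 165, 73), (17, 50, 22), (-33, -91, -41)),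
  ((127, 354, 157), (56, 159, 71), (-82, -229, -102)),
  ((121, 338, 151), (55, 152, 68), (-79, -220, -97)),
  ((203, 566, 251), (70, 197, 87), (-118, -331, -148)),
  ((209, 587, 262), (72, 203, 91), (-122, -344, -153)),
  ((88, 245, 109), (40, 114, 51), (-57, -161, -72)),
  ((183, 510, 226), (63, 175, 77), (-105, -297, -133)),
  ((198, 556, 248), (67, 191, 86), (-116, -325, -144)),
  ((159, 445, 198), (68, 193, 86), (-102, -284, -126)),
  ((150, 420, 187), (66, 183, 81), (-95, -269, -120)),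
  ((184, 519, 232), (80, 225, 101), (-119, -332, -147)),
  ((313, 880, 392), (112, 315, 140), (-186, -521, -232)),
  ((350, 979, 435), (125, 351, 156), (-206, -580, -259)),
  ((160, 447, 199), (71, 196, 87), (-102, -287, -128)),
  ((376, 1055, 470), (136, 380, 169), (-223, -627, -279)),
  ((384, 1076, 479), (137, 387, 173), (-228, -639, -284)),
  ((194, 542, 241), (83, 233, 104), (-124, -345, -153)),
  ((247, 692, 308), (106, 296, 132), (-156, -440, -196)),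
  ((262, 737, 329), (113, 316, 141), (-168, -469, -208)),
  ((248, 697, 310), (107, 301, 134), (-158, -444, -198)),
  ((264, 740, 329), (115, 319, 141), (-168, -471, -210))]

/-- the left ends -/
def los4_85 : Fin 55 → ℕ := ![0, 2, 3, 6, 6, 5, 7, 7, 9, 9, 9, 11, 11, 11, 11, 11, 10, 10, 9, 10, 10, 14, 14, 14, 14, 14, 13, 14, 13, 13, 13, 13, 13, 13, 12, 13, 13, 14, 14, 13, 14, 14, 15, 15, 15, 16, 16, 15, 16, 16, 15, 15, 15, 15, 15]

/-- the right ends -/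
def cs4_85 : Fin 55 → ℕ := ![16, 16, 15, 16, 16, 15, 15, 15, 15, 15, 15, 15, 15, 15, 15, 15, 16, 16, 15, 16, 16, 16, 16, 16, 16, 16, 15, 16, 15, 15, 15, 15, 15, 15, 14, 15, 15, 16, 16, 15, 16, 16, 15, 15, 15, 16, 16, 15, 16, 16, 15, 15, 15, 15, 15]

/-- the 131 classes of edges -/
def ELs4_85 : Finset (Fin 55 × Fin 55 × ℕ) := {
  (0, 1, 0), (3, 4, 0), (5, 7, 0), (6, 7, 0), (8, 10, 0), (8, 14, 0), (9, 10, 0), (11, 13, 0),
  (11, 15, 0), (12, 13, 0), (14, 15, 0), (16, 17, 0), (19, 20, 0), (21, 23, 0), (21, 24, 0),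
  (22, 23, 0), (24, 25, 0), (29, 31, 0), (29, 36, 0), (30, 31, 0), (32, 33, 0), (35, 36, 0),
  (37, 38, 0), (40, 41, 0), (42, 44, 0), (42, 53, 0), (43, 44, 0), (45, 46, 0), (48, 49, 0),
  (50, 52, 0), (50, 54, 0), (51, 52, 0), (53, 54, 0), (0, 0, 1), (0, 2, 1), (1, 2, 1), (1, 5, 1),
  (2, 1, 1), (2, 3, 1), (3, 6, 1), (3, 18, 1), (4, 9, 1), (4, 18, 1), (5, 4, 1), (6, 19, 1),
  (8, 34, 1), (9, 16, 1), (10, 34, 1), (12, 22, 1), (16, 30, 1), (16, 39, 1), (17, 28, 1),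
  (17, 39, 1), (18, 17, 1), (18, 20, 1), (19, 12, 1), (20, 26, 1), (22, 51, 1), (26, 25, 1),
  (26, 27, 1), (28, 27, 1), (28, 40, 1), (30, 37, 1), (32, 45, 1), (34, 33, 1), (34, 35, 1),
  (39, 38, 1), (39, 41, 1), (43, 48, 1), (47, 46, 1), (47, 49, 1), (0, 0, 2), (0, 1, 2),
  (1, 3, 2), (1, 4, 2), (2, 5, 2), (2, 6, 2), (2, 7, 2), (3, 19, 2), (3, 20, 2), (4, 16, 2),
  (4, 17, 2), (5, 8, 2), (5, 9, 2), (5, 10, 2), (6, 11, 2), (6, 12, 2), (6, 13, 2), (7, 8, 2),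
  (7, 11, 2), (7, 14, 2), (7, 15, 2), (8, 32, 2), (8, 33, 2), (9, 29, 2), (9, 30, 2), (9, 31, 2),
  (10, 29, 2), (10, 35, 2), (10, 36, 2), (11, 42, 2), (11, 43, 2), (11, 44, 2), (12, 50, 2),
  (12, 51, 2), (12, 52, 2), (13, 42, 2), (13, 50, 2), (13, 53, 2), (13, 54, 2), (14, 32, 2),
  (14, 47, 2), (15, 43, 2), (15, 47, 2), (16, 37, 2), (16, 38, 2), (17, 40, 2), (17, 41, 2),
  (18, 26, 2), (18, 28, 2), (19, 21, 2), (19, 22, 2), (19, 23, 2), (20, 21, 2), (20, 24, 2),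
  (20, 25, 2), (14, 45, 3), (14, 46, 3), (15, 48, 3), (15, 49, 3), (18, 27, 3)}

/-- the strip -/
def Rs4_85 : Rep85 (Fin 55) where
  v := vs4_85
  good := by decide +kernel
  inj := by
    have h : ∀ t u : Fin 55, vs4_85 t = vs4_85 u → t = u := by decide +kernel
    exact fun t u => h t u
  lo := fun t => Win85.lo ((by decide +kernel : ∀ t, Win85 (vs4_85 t)) t)
  hi := fun t => Win85.hi ((by decide +kernel : ∀ t, Win85 (vs4_85 t)) t)

theorem card_ELs4_85 : ELs4_85.card = 131 := by decide +kernel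

theorem nj_s4_85 : ∀ j : Fin 55, Nj85 los4_85 cs4_85 j = 198 + j := by decide +kernel

theorem ej_s4_85 : ∀ j : Fin 55,
    (131 * (198 + (j : ℕ)) - 363) / 55 ≤ Ej85 ELs4_85 los4_85 cs4_85 j := by decide +kernel

set_option maxRecDepth 20000 in
/-- L4: fourth layer strip (V = 198 + 55k, E = 465 + 131k) -/
theorem strip4_all {d : ℝ} (hd : 0 < d) (ha : alpha d = 2 * Real.pi / 7) (n : ℕ)
    (hn : 198 ≤ n) :
    ∃ P : Finset ℍ, P.card = n ∧ Sep d P ∧ 2 * ((131 * n - 363) / 55) ≤ cd d P := by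
  obtain ⟨m, rfl⟩ := Nat.exists_eq_add_of_le hn
  have hj : m % 55 < 55 := Nat.mod_lt _ (by norm_num)
  obtain ⟨P, h1, h2, h3⟩ := grow85 Rs4_85 hd ha ELs4_85 (by decide +kernel)
    (by
      have h : ∀ e ∈ ELs4_85, T85 (vs4_85 e.1) (gl85^[e.2.2] (vs4_85 e.2.1)) = (0, 1, 0) := by
        decide +kernel
      exact h)
    los4_85 cs4_85 (by decide +kernel) (by decide +kernel) (m % 55) (m / 55)
  have e1 := nj_s4_85 ⟨m % 55, hj⟩
  have e2 := ej_s4_85 ⟨m % 55, hj⟩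
  simp only at e1 e2
  have e3 := Nat.div_add_mod m 55
  refine ⟨P, by omega, h2, le_trans ?_ h3⟩
  rw [card_ELs4_85]
  have e4 := e2
  generalize Ej85 ELs4_85 los4_85 cs4_85 (m % 55) = q at e4 ⊢
  have e5 : (131 * (198 + m) - 363) / 55 ≤ q + 131 * (m / 55) := by omega
  exact Nat.mul_le_mul_left 2 e5

/-- L4: fourth layer strip (V = 198 + 55k, E = 465 + 131k) -/
theorem strip4 {d : ℝ} (hd : 0 < d) (ha : alpha d = 2 * Real.pi / 7) (n : ℕ) (hn : 198 ≤ n) :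
    ∃ P : Finset ℍ, P.card = n ∧ Sep d P ∧ 2 * ((131 * n - 363) / 55) ≤ cd d P :=
  strip4_all hd ha n (by omega)

end

end Pool.Agent.PEN
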