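import Pool.Agent.P4.SLb85
import Pool.Agent.P4.S4_85
import Pool.Agent.P4.B85_85

/-! # P4, row L: lower bounds together, with the fourth layer and the ball of radius 3 -/

set_option autoImplicit false

namespace Pool.Agent.PEN

open Classical UpperHalfPlane

noncomputable section

/-- lower bound for the number of edges in the order 7 tiling, with layer 4 and the ball 85 -/
def Lb85 (n : ℕ) : ℕ :=
  max (Lb n) (if n = 85 then 196 else if 198 ≤ n then (131 * n - 363) / 55 else 0)

theorem Lb_le_Lb85 (n : ℕ) : Lb n ≤ Lb85 n := le_max_left _ _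

theorem layer4_le_Lb85 {n : ℕ} (hn : 198 ≤ n) : (131 * n - 363) / 55 ≤ Lb85 n := by
  unfold Lb85
  rw [if_neg (by omega), if_pos hn]
  exact le_max_right _ _

/-- L: together -/
theorem strip_Lb85 {d : ℝ} (hd : 0 < d) (ha : alpha d = 2 * Real.pi / 7) (n : ℕ) (hn : 9 ≤ n) :
    ∃ P : Finset ℍ, P.card = n ∧ Sep d P ∧ 2 * Lb85 n ≤ cd d P := by
  unfold Lb85
  rcases le_total (if n = 85 then 196 else if 198 ≤ n then (131 * n - 363) / 55 else 0) (Lb n)
    with h | h
  · rw [max_eq_left h]
    exact strip_Lb hd ha n hn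
  · rw [max_eq_right h]
    by_cases h85 : n = 85
    · rw [if_pos h85, h85]
      exact ball85 hd ha
    · rw [if_neg h85]
      by_cases h198 : 198 ≤ n
      · rw [if_pos h198]
        exact strip4 hd ha n h198
      · rw [if_neg h198]
        obtain ⟨P, h1, h2, -⟩ := strip_Lb hd ha n hn
        exact ⟨P, h1, h2, Nat.zero_le _⟩

end

end Pool.Agent.PEN
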