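import Pool.Agent.P4.G71b

/-! # PENNY, inequality B: the successor of a contact dart, the cyclic order at a point -/

set_option autoImplicit false

namespace Pool.Agent.PEN

open Classical UpperHalfPlane

noncomputable section

section D
variable {V : Type} (G : Tg V) {al : ℝ} {kp : V → V → ℝ} {U : ℕ → ℝ}

/-- the next contact dart along the boundary of the class -/
def sg (x : V × V) : V × V := (x.2, G.og x.2 (G.ap x.1 x.2))

theorem sg_mem51 (hG : G.Geo al kp U) {x : V × V} (hx : x ∈ iJ G) :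
    sg G x ∈ iJ G ∧ G.cl (sg G x) = G.cl x := by
  rw [mem_iJ71] at hx
  have h1 := inn_rot27 G hx.1
  obtain ⟨h2, h3, h4⟩ := og71 G hG h1
  refine ⟨(mem_iJ71 G).2 ⟨h3, h2⟩, ?_⟩
  have h5 : G.cl (x.2, G.ap x.1 x.2) = G.cl x := by
    unfold Tg.cl
    rw [tri_rot66 G hx.1.1]
  exact h4.trans h5

theorem inn_path51 {u a : V} (h : G.inn (u, a)) (hO : G.HasO u a) :
    ∀ i, i ≤ Nat.find hO → G.inn (u, (G.bk u)^[i] a) := by
  intro i
  induction i with
  | zero => intro _; exact h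
  | succ i ih =>
    intro hi
    have h1 := ih (by omega)
    rw [Function.iterate_succ_apply']
    exact (inn_bk71 G h1 (Nat.find_min hO (by omega))).2.1

theorem path51 {u a : V} (h : G.inn (u, a)) (hO : G.HasO u a) (k : ℕ) :
    ∀ j, k + j ≤ Nat.find hO → (G.ap u)^[j] ((G.bk u)^[k + j] a) = (G.bk u)^[k] a := by
  intro j
  induction j with
  | zero => intro _; rfl
  | succ j ih =>
    intro hj
    have h1 := inn_path51 G h hO (k + j) (by omega)
    have h2 := (inn_bk71 G h1 (Nat.find_min hO (by omega))).1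
    have h3 := fw_bk71 G h2
    rw [Function.iterate_succ_apply, ← add_assoc, Function.iterate_succ_apply', h3]
    exact ih (by omega)

theorem og_eq51 {u a : V} (hO : G.HasO u a) : G.og u a = (G.bk u)^[Nat.find hO] a := by
  unfold Tg.og
  rw [dif_pos hO]

theorem sg_inj_aux51 {u w w' : V} (hw : G.inn (w, u)) (hc : G.con w u) (hw' : G.inn (w', u))
    (hO : G.HasO u (G.ap w u)) (hO' : G.HasO u (G.ap w' u))
    (hle : Nat.find hO ≤ Nat.find hO')
    (h : G.og u (G.ap w u) = G.og u (G.ap w' u)) : w = w' := by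
  have i1 := inn_rot27 G hw
  have i2 := inn_rot27 G hw'
  dsimp only at i1 i2
  have e1 : G.ap u (G.ap w u) = w := G.ap3 _ _ hw.1
  have e2 : G.ap u (G.ap w' u) = w' := G.ap3 _ _ hw'.1
  rw [og_eq51 G hO, og_eq51 G hO'] at h
  have p1 := path51 G i1 hO 0 (Nat.find hO) (by omega)
  rw [zero_add, Function.iterate_zero, id_eq] at p1
  rcases Nat.lt_or_ge (Nat.find hO) (Nat.find hO') with hlt | hge
  · exfalso
    obtain ⟨k, hk⟩ : ∃ k, k + (Nat.find hO + 1) = Nat.find hO' :=
      ⟨Nat.find hO' - (Nat.find hO + 1), by omega⟩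
    have p2 := path51 G i2 hO' k (Nat.find hO + 1) (by omega)
    rw [hk, ← h, Function.iterate_succ_apply', p1, e1] at p2
    have h3 := Nat.find_min hO' (m := k) (by omega)
    rw [← p2] at h3
    exact h3 (G.csymm _ _ hc)
  · have hee : Nat.find hO' = Nat.find hO := le_antisymm hge hle
    have p2 := path51 G i2 hO' 0 (Nat.find hO') (by omega)
    rw [zero_add, Function.iterate_zero, id_eq, ← h, hee, p1] at p2
    rw [← e1, ← e2, p2]

theorem sg_inj51 (hG : G.Geo al kp U) {x y : V × V} (hx : x ∈ iJ G) (hy : y ∈ iJ G)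
    (h : sg G x = sg G y) : x = y := by
  obtain ⟨w, u⟩ := x
  obtain ⟨w', u'⟩ := y
  rw [mem_iJ71] at hx hy
  obtain ⟨h1, h2⟩ := hx
  obtain ⟨h3, h4⟩ := hy
  have hu : u = u' := congrArg Prod.fst h
  subst hu
  have ho : G.og u (G.ap w u) = G.og u (G.ap w' u) := congrArg Prod.snd h
  have hO : G.HasO u (G.ap w u) := hasO71 G hG (inn_rot27 G h1)
  have hO' : G.HasO u (G.ap w' u) := hasO71 G hG (inn_rot27 G h3)
  rcases le_total (Nat.find hO) (Nat.find hO') with hle | hle
  · rw [sg_inj_aux51 G h1 h2 h3 hO hO' hle ho]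
  · rw [sg_inj_aux51 G h3 h4 h1 hO' hO hle ho.symm]

theorem og_bk51 {v a : V} (hO : G.HasO v a) (hc : ¬ G.con v a) :
    G.og v (G.bk v a) = G.og v a := by
  obtain ⟨n, hn⟩ : ∃ n, Nat.find hO = n + 1 := by
    have : Nat.find hO ≠ 0 := by
      intro h0
      have := Nat.find_spec hO
      rw [h0] at this
      exact hc this
    exact ⟨Nat.find hO - 1, by omega⟩
  have h1 := Nat.find_spec hO
  rw [hn, Function.iterate_succ_apply] at h1
  have hO' : G.HasO v (G.bk v a) := ⟨n, h1⟩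
  have h2 : Nat.find hO' = n := by
    refine (Nat.find_eq_iff hO').2 ⟨h1, fun m hm => ?_⟩
    have := Nat.find_min hO (m := m + 1) (by omega)
    rw [Function.iterate_succ_apply] at this
    exact this
  rw [og_eq51 G hO, og_eq51 G hO', h2, hn, Function.iterate_succ_apply]

/-- at a point of `N` every dart is inner -/
theorem inN_all51 (hG : G.Geo al kp U) {v : V} (hv : v ∈ inN G) :
    v ∈ G.P ∧ ¬ G.bd v ∧ (∀ a, (v, a) ∈ G.D → G.inn (v, a)) ∧
      ∀ a, (v, a) ∈ G.D → G.inn (a, v) := by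
  unfold inN at hv
  rw [Finset.mem_filter] at hv
  obtain ⟨hv, hno⟩ := hv
  have hb : ¬ G.bd v := fun hb => hno (bd_oJ G hG hv hb)
  have hall : ∀ a, (v, a) ∈ G.D → G.con v a → G.inn (v, a) := by
    intro a h1 h2
    by_contra h3
    exact hno ⟨a, (mem_oJ66 G).2 ⟨h1, h2, h3⟩⟩
  have key : ∀ a, (v, a) ∈ G.D → G.inn (v, a) := by
    intro a ha
    by_contra hna
    obtain ⟨S, hmem⟩ : ∃ S : Finset V, ∀ b, b ∈ S ↔ (v, b) ∈ G.D ∧ ¬ G.inn (v, b) :=
      ⟨_, mem_img66 G v (fun b => ¬ G.inn (v, b))⟩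
    have hfb : ∀ b ∈ S, G.ap v (G.bk v b) = b := by
      intro b hb'
      obtain ⟨h1, h2⟩ := (hmem b).1 hb'
      exact fw_bk71 G (G.int2 _ _ hv hb h1)
    have hbk : ∀ b ∈ S, G.bk v b ∈ S := by
      intro b hb'
      obtain ⟨h1, h2⟩ := (hmem b).1 hb'
      have h3 : (b, v) ∈ G.Dp := G.int2 _ _ hv hb h1
      have h4 : (v, b) ∈ G.Dp := G.int1 _ _ hv hb h1
      have hc : ¬ G.con v b := fun hc => h2 (hall b h1 hc)
      have h5 : (v, G.ap b v) ∈ G.Dp := G.ap1 _ _ h3
      refine (hmem _).2 ⟨G.sub h5, fun h6 => h2 ?_⟩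
      have h7 : G.cl (v, G.ap b v) = G.cl (b, v) := by
        unfold Tg.cl
        have := tri_rot66 G (x := (b, v)) h3
        dsimp only at this
        rw [this]
      have h8 : G.cl (b, v) = G.cl (v, b) := by
        unfold Tg.cl
        refine SimpleGraph.ConnectedComponent.sound (SimpleGraph.Adj.reachable ?_)
        exact ⟨(tri_swap66 G h4 h3).symm, b, v, h3, h4, fun h => hc (G.csymm _ _ h), rfl, rfl⟩
      exact inn_of_cl27 G h6 h4 (by
        rw [← h8, ← h7]
        rfl)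
    have himg : S.image (G.bk v) = S := by
      apply Finset.eq_of_subset_of_card_le
      · intro b hb
        obtain ⟨c, hc, rfl⟩ := Finset.mem_image.1 hb
        exact hbk c hc
      · rw [Finset.card_image_of_injOn]
        intro b hb c hc hbc
        rw [← hfb b (Finset.mem_coe.1 hb), ← hfb c (Finset.mem_coe.1 hc)]
        exact congrArg _ hbc
    have hfw : ∀ b ∈ S, G.ap v b ∈ S := by
      intro b hb
      rw [← himg] at hb
      obtain ⟨c, hc, rfl⟩ := Finset.mem_image.1 hb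
      rw [hfb c hc]
      exact hc
    have hne : S.Nonempty := ⟨a, (hmem a).2 ⟨ha, hna⟩⟩
    have h1 := hG.turn v hv hb S hne (fun b hb => ((hmem b).1 hb).1) hfw
    obtain ⟨c, hc1, hc2⟩ := con_ex66 G hG hv
    have hcS : c ∉ S := fun h2 => ((hmem c).1 h2).2 (hall c hc1 hc2)
    have h2 : ∑ b ∈ insert c S, G.th v b ≤
        ∑ x ∈ G.D.filter (fun x => x.1 = v), G.th x.1 x.2 := by
      have e := Finset.sum_image (s := insert c S) (g := fun b => (v, b))
        (f := fun x : V × V => G.th x.1 x.2) (fun x _ y _ h => (Prod.mk.inj h).2)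
      dsimp only at e
      rw [← e]
      apply Finset.sum_le_sum_of_subset_of_nonneg
      · intro x hx
        obtain ⟨b, hb, rfl⟩ := Finset.mem_image.1 hx
        rw [Finset.mem_filter]
        refine ⟨?_, rfl⟩
        rcases Finset.mem_insert.1 hb with rfl | hb
        · exact hc1
        · exact ((hmem b).1 hb).1
      · rintro ⟨x1, x2⟩ hx _
        rw [Finset.mem_filter] at hx
        obtain ⟨h3, h4⟩ := hx
        simp only at h4
        subst h4
        exact (G.thpos _ _ (G.int1 _ _ hv hb h3)).le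
    rw [hG.tot v hv hb, Finset.sum_insert hcS] at h2
    have h3 := G.thpos _ _ (G.int1 _ _ hv hb hc1)
    linarith
  refine ⟨hv, hb, key, fun a ha => ?_⟩
  have h3 : (a, v) ∈ G.Dp := G.int2 _ _ hv hb ha
  have h5 : (v, G.ap a v) ∈ G.Dp := G.ap1 _ _ h3
  refine inn_of_cl27 G (key _ (G.sub h5)) h3 ?_
  unfold Tg.cl
  have := tri_rot66 G (x := (a, v)) h3
  dsimp only at this
  rw [this]

/-- a set of contact darts at a point of `N` closed under the predecessor map is everything -/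
theorem closed51 (hG : G.Geo al kp U) {v : V} (hv : v ∈ inN G) (F1 : Finset (V × V))
    (hsub : ∀ x ∈ F1, x ∈ iJ G ∧ x.1 = v) (hne : F1.Nonempty)
    (hcl : ∀ x ∈ F1, sg G (x.2, x.1) ∈ F1) :
    ∀ x ∈ iJ G, x.1 = v → x ∈ F1 := by
  obtain ⟨hvP, hb, hall, hall'⟩ := inN_all51 G hG hv
  rintro ⟨v', c⟩ hc hc1
  simp only at hc1
  subst hc1
  by_contra hcF
  rw [mem_iJ71] at hc
  obtain ⟨hc1, hc2⟩ := hc
  dsimp only at hc2
  obtain ⟨S, hmem⟩ : ∃ S : Finset V, ∀ b, b ∈ S ↔ (v', b) ∈ G.D ∧ (v', G.og v' b) ∈ F1 :=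
    ⟨_, mem_img66 G v' (fun b => (v', G.og v' b) ∈ F1)⟩
  have hfb : ∀ b ∈ S, G.ap v' (G.bk v' b) = b := by
    intro b hb'
    obtain ⟨h1, h2⟩ := (hmem b).1 hb'
    exact fw_bk71 G (G.int2 _ _ hvP hb h1)
  have hbk : ∀ b ∈ S, G.bk v' b ∈ S := by
    intro b hb'
    obtain ⟨h1, h2⟩ := (hmem b).1 hb'
    have h3 : (b, v') ∈ G.Dp := G.int2 _ _ hvP hb h1
    have h5 : (v', G.ap b v') ∈ G.Dp := G.ap1 _ _ h3
    refine (hmem _).2 ⟨G.sub h5, ?_⟩
    by_cases hc : G.con v' b
    · rw [(og_self66 G hc).2] at h2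
      exact hcl _ h2
    · rw [og_bk51 G (hasO71 G hG (hall b h1)) hc]
      exact h2
  have himg : S.image (G.bk v') = S := by
    apply Finset.eq_of_subset_of_card_le
    · intro b hb
      obtain ⟨c, hc, rfl⟩ := Finset.mem_image.1 hb
      exact hbk c hc
    · rw [Finset.card_image_of_injOn]
      intro b hb c hc hbc
      rw [← hfb b (Finset.mem_coe.1 hb), ← hfb c (Finset.mem_coe.1 hc)]
      exact congrArg _ hbc
  have hfw : ∀ b ∈ S, G.ap v' b ∈ S := by
    intro b hb
    rw [← himg] at hb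
    obtain ⟨c, hc, rfl⟩ := Finset.mem_image.1 hb
    rw [hfb c hc]
    exact hc
  have hneS : S.Nonempty := by
    obtain ⟨⟨y1, y2⟩, hy⟩ := hne
    obtain ⟨h1, h2⟩ := hsub _ hy
    simp only at h2
    subst h2
    rw [mem_iJ71] at h1
    exact ⟨y2, (hmem _).2 ⟨G.sub h1.1.1, by rw [(og_self66 G h1.2).2]; exact hy⟩⟩
  have h1 := hG.turn v' hvP hb S hneS (fun b hb => ((hmem b).1 hb).1) hfw
  have hcS : c ∉ S := by
    intro h2
    have h3 := ((hmem c).1 h2).2
    rw [(og_self66 G hc2).2] at h3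
    exact hcF h3
  have hcD : (v', c) ∈ G.D := G.sub hc1.1
  have h2 : ∑ b ∈ insert c S, G.th v' b ≤
      ∑ x ∈ G.D.filter (fun x => x.1 = v'), G.th x.1 x.2 := by
    have e := Finset.sum_image (s := insert c S) (g := fun b => (v', b))
      (f := fun x : V × V => G.th x.1 x.2) (fun x _ y _ h => (Prod.mk.inj h).2)
    dsimp only at e
    rw [← e]
    apply Finset.sum_le_sum_of_subset_of_nonneg
    · intro x hx
      obtain ⟨b, hb, rfl⟩ := Finset.mem_image.1 hx
      rw [Finset.mem_filter]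
      refine ⟨?_, rfl⟩
      rcases Finset.mem_insert.1 hb with rfl | hb
      · exact hcD
      · exact ((hmem b).1 hb).1
    · rintro ⟨x1, x2⟩ hx _
      rw [Finset.mem_filter] at hx
      obtain ⟨h3, h4⟩ := hx
      simp only at h4
      subst h4
      exact (G.thpos _ _ (G.int1 _ _ hvP hb h3)).le
  rw [hG.tot v' hvP hb, Finset.sum_insert hcS] at h2
  have h3 := G.thpos _ _ (G.int1 _ _ hvP hb hcD)
  linarith

end D

end

end Pool.Agent.PEN
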