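import Pool.Agent.P4.B51

/-! # PENNY, inequality B: weights and class sums -/

set_option autoImplicit false

namespace Pool.Agent.PEN

open Classical UpperHalfPlane

noncomputable section

section D
variable {V : Type} (G : Tg V) {al : ℝ} {kp : V → V → ℝ} {U : ℕ → ℝ}

/-- rhombus class -/
def RC (C : G.adj.ConnectedComponent) : Prop := (G.cT C).card = 2 ∧ (G.cI C).card = 2

/-- base weight: contact triangle 1, rhombus 2, other faces the ceiling -/
def bw (al : ℝ) (x : V × V) : ℕ :=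
  if G.cI (G.cl x) = ∅ then 1 else if RC G (G.cl x) then 2 else wc G al x

/-- extra weight: rhombus corner in `F` and every corner of another face -/
def xw (F : V × V → Prop) (x : V × V) : ℕ :=
  if G.cI (G.cl x) = ∅ then 0 else if RC G (G.cl x) then (if F x then 1 else 0) else 1

theorem RC_ne51 {C : G.adj.ConnectedComponent} (h : RC G C) : G.cI C ≠ ∅ := by
  intro h0
  have := h.2
  rw [h0, Finset.card_empty] at this
  omega

theorem cJ_iJ51 {C : G.adj.ConnectedComponent} (hC : C ∈ G.iC) {x : V × V} (hx : x ∈ G.cJ C) :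
    x ∈ iJ G ∧ G.cl x = C := by
  rw [← iJ_fiber71 G hC, Finset.mem_filter] at hx
  exact hx

theorem iJ_cJ51 {x : V × V} (hx : x ∈ iJ G) : x ∈ G.cJ (G.cl x) := by
  rw [← iJ_fiber71 G (cl_iJ71 G hx), Finset.mem_filter]
  exact ⟨hx, rfl⟩

/-- the gap of a contact triangle -/
theorem TH_T51 (hG : G.Geo al kp U) {x : V × V} (hx : x ∈ iJ G) (hI : G.cI (G.cl x) = ∅) :
    TH G x = al := by
  have hC := cl_iJ71 G hx
  have hxJ := iJ_cJ51 G hx
  have hB := cB_of_iC66 G hC
  have hcon : ∀ y ∈ G.cD (G.cl x), G.con y.1 y.2 := by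
    intro y hy
    by_contra hc
    have := mem_cI11 G hB hy hc
    rw [hI] at this
    exact absurd this (Finset.notMem_empty _)
  have hxD := cJ_sub66 G _ hxJ
  have h2 := gp_sub71 G hG hC hxJ
  rw [hI, Finset.filter_empty] at h2
  have h3 : gp G x = {x} := by
    apply Finset.Subset.antisymm
    · exact h2
    · rw [Finset.singleton_subset_iff]
      exact gp_self71 G hx
  unfold TH
  rw [h3, Finset.sum_singleton, hG.tcon _ _ ((mem_cD66 G).1 hxD).1 (hcon _ hxD)
    (hcon _ (rot_cD66 G hxD)) (hcon _ (rot_cD66' G hxD))]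

theorem TH_R51 (hG : G.Geo al kp U) {x : V × V} (hx : x ∈ iJ G) (h : RC G (G.cl x)) :
    TH G x ≤ 2 * al :=
  wc_two71 G hG (cl_iJ71 G hx) h.2 x (iJ_cJ51 G hx) h.1

theorem TH_bw51 (hG : G.Geo al kp U) {x : V × V} (hx : x ∈ iJ G) :
    TH G x ≤ al * bw G al x := by
  unfold bw
  split_ifs with h1 h2
  · rw [TH_T51 G hG hx h1]
    push_cast
    linarith
  · have := TH_R51 G hG hx h2
    push_cast
    linarith
  · have := Nat.le_ceil (TH G x / al)
    rw [div_le_iff₀ (al_pos71 G hG)] at this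
    unfold wc
    linarith

/-- two corners of a rhombus are in `F`, two are not -/
theorem alt51 (hG : G.Geo al kp U) (F : V × V → Prop)
    (hF : ∀ x ∈ iJ G, RC G (G.cl x) → (F (sg G x) ↔ ¬ F x))
    {C : G.adj.ConnectedComponent} (hC : C ∈ G.iC) (hR : RC G C) :
    ((G.cJ C).filter F).card = 2 := by
  have hsplit := card_split66 G C
  have hB : (G.cB C).card = 0 := by
    rw [cB_of_iC66 G hC]
    rfl
  have h4 : (G.cJ C).card = 4 := by
    have h1 := hR.1
    have h2 := hR.2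
    omega
  have hmem : ∀ x ∈ G.cJ C, sg G x ∈ G.cJ C ∧ (F (sg G x) ↔ ¬ F x) := by
    intro x hx
    obtain ⟨h1, h2⟩ := cJ_iJ51 G hC hx
    obtain ⟨h3, h5⟩ := sg_mem51 G hG h1
    refine ⟨?_, hF x h1 (by rw [h2]; exact hR)⟩
    have := iJ_cJ51 G h3
    rw [h5, h2] at this
    exact this
  have hinj : ∀ x ∈ G.cJ C, ∀ y ∈ G.cJ C, sg G x = sg G y → x = y := fun x hx y hy h =>
    sg_inj51 G hG (cJ_iJ51 G hC hx).1 (cJ_iJ51 G hC hy).1 h
  have h1 : ((G.cJ C).filter F).card ≤ ((G.cJ C).filter (fun x => ¬ F x)).card := by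
    apply Finset.card_le_card_of_injOn (sg G)
    · intro x hx
      rw [Finset.mem_coe, Finset.mem_filter] at hx
      rw [Finset.mem_coe, Finset.mem_filter]
      obtain ⟨h5, h6⟩ := hmem x hx.1
      exact ⟨h5, fun h7 => (h6.1 h7) hx.2⟩
    · intro x hx y hy h
      rw [Finset.mem_coe, Finset.mem_filter] at hx hy
      exact hinj x hx.1 y hy.1 h
  have h2 : ((G.cJ C).filter (fun x => ¬ F x)).card ≤ ((G.cJ C).filter F).card := by
    apply Finset.card_le_card_of_injOn (sg G)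
    · intro x hx
      rw [Finset.mem_coe, Finset.mem_filter] at hx
      rw [Finset.mem_coe, Finset.mem_filter]
      obtain ⟨h5, h6⟩ := hmem x hx.1
      exact ⟨h5, h6.2 hx.2⟩
    · intro x hx y hy h
      rw [Finset.mem_coe, Finset.mem_filter] at hx hy
      exact hinj x hx.1 y hy.1 h
  have h3 := Finset.card_filter_add_card_filter_not (s := G.cJ C) F
  omega

/-- faces that are neither contact triangles nor rhombi -/
theorem other51 (hG : G.Geo al kp U)
    {C : G.adj.ConnectedComponent} (hC : C ∈ G.iC)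
    (hA : A3 al * (G.cT C).card ≤ ∑ x ∈ G.cD C, G.ar x.1 x.2 / 3)
    (hP : (G.cT C).card = 3 → (G.cI C).card = 4 → ∑ x ∈ G.cJ C, wc G al x ≤ 12)
    (hI : G.cI C ≠ ∅) (hR : ¬ RC G C) :
    ∑ x ∈ G.cJ C, wc G al x + (G.cJ C).card ≤ 3 * (G.cT C).card + 2 * (G.cI C).card := by
  have hal := al_pos71 G hG
  have hsplit := card_split66 G C
  have hB : (G.cB C).card = 0 := by
    rw [cB_of_iC66 G hC]
    rfl
  have hIpos := Finset.card_pos.2 (Finset.nonempty_iff_ne_empty.2 hI)
  have hconn := conn G C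
  have hm1 : (G.cT C).card ≠ 1 := fun h => hI (cI_one11 G h)
  have hR' : ¬ ((G.cT C).card = 2 ∧ (G.cI C).card = 2) := hR
  by_cases hP5 : (G.cT C).card = 3 ∧ (G.cI C).card = 4
  · have := hP hP5.1 hP5.2
    obtain ⟨h3, h4⟩ := hP5
    omega
  rcases Finset.eq_empty_or_nonempty (G.cJ C) with hJ | hJ
  · rw [hJ, Finset.sum_empty, Finset.card_empty]
    omega
  have h2 : (∑ x ∈ G.cJ C, wc G al x : ℕ) < 3 * (G.cT C).card + (G.cJ C).card := by
    have h2 : ((∑ x ∈ G.cJ C, wc G al x : ℕ) : ℝ) <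
        ((3 * (G.cT C).card + (G.cJ C).card : ℕ) : ℝ) := by
      rw [Nat.cast_sum]
      calc ∑ x ∈ G.cJ C, (wc G al x : ℝ) < ∑ x ∈ G.cJ C, (TH G x / al + 1) := by
            apply Finset.sum_lt_sum_of_nonempty hJ
            intro x hx
            unfold wc
            apply Nat.ceil_lt_add_one
            exact (div_pos (TH_pos71 G (cJ_iJ51 G hC hx).1) hal).le
        _ = (∑ x ∈ G.cJ C, TH G x) / al + (G.cJ C).card := by
            rw [Finset.sum_add_distrib, Finset.sum_div]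
            simp
        _ ≤ ((3 * (G.cT C).card + (G.cJ C).card : ℕ) : ℝ) := by
            rw [sum_TH_class71 G hG hC, sum_th71]
            push_cast
            have h3 : (Real.pi * (G.cT C).card - ∑ x ∈ G.cD C, G.ar x.1 x.2 / 3) / al ≤
                3 * (G.cT C).card := by
              rw [div_le_iff₀ hal]
              unfold A3 at hA
              linarith
            linarith
    exact_mod_cast h2
  omega

/-- the class sums of inequality B -/
theorem clsum51 (hG : G.Geo al kp U) (F : V × V → Prop)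
    (hF : ∀ x ∈ iJ G, RC G (G.cl x) → (F (sg G x) ↔ ¬ F x))
    {C : G.adj.ConnectedComponent} (hC : C ∈ G.iC)
    (hA : A3 al * (G.cT C).card ≤ ∑ x ∈ G.cD C, G.ar x.1 x.2 / 3)
    (hP : (G.cT C).card = 3 → (G.cI C).card = 4 → ∑ x ∈ G.cJ C, wc G al x ≤ 12) :
    ∑ x ∈ G.cJ C, (bw G al x + xw G F x) ≤ 3 * (G.cT C).card + 2 * (G.cI C).card := by
  have hal := al_pos71 G hG
  have hcl : ∀ x ∈ G.cJ C, G.cl x = C := fun x hx => (cJ_iJ51 G hC hx).2
  have hsplit := card_split66 G C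
  have hB : (G.cB C).card = 0 := by
    rw [cB_of_iC66 G hC]
    rfl
  by_cases hI : G.cI C = ∅
  · have h1 : ∑ x ∈ G.cJ C, (bw G al x + xw G F x) = ∑ x ∈ G.cJ C, 1 := by
      refine Finset.sum_congr rfl fun x hx => ?_
      unfold bw xw
      rw [hcl x hx, if_pos hI, if_pos hI]
    rw [h1, Finset.sum_const, smul_eq_mul, mul_one]
    omega
  by_cases hR : RC G C
  · have h1 : ∑ x ∈ G.cJ C, (bw G al x + xw G F x) =
        ∑ x ∈ G.cJ C, (2 + if F x then 1 else 0) := by
      refine Finset.sum_congr rfl fun x hx => ?_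
      unfold bw xw
      rw [hcl x hx, if_neg hI, if_neg hI, if_pos hR, if_pos hR]
    have h2 := alt51 G hG F hF hC hR
    rw [h1, Finset.sum_add_distrib, Finset.sum_const, smul_eq_mul, ← Finset.card_filter, h2]
    have h3 := hR.1
    have h4 := hR.2
    omega
  · have h1 : ∑ x ∈ G.cJ C, (bw G al x + xw G F x) =
        ∑ x ∈ G.cJ C, wc G al x + (G.cJ C).card := by
      rw [Finset.card_eq_sum_ones, ← Finset.sum_add_distrib]
      refine Finset.sum_congr rfl fun x hx => ?_
      unfold bw xw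
      rw [hcl x hx, if_neg hI, if_neg hI, if_neg hR, if_neg hR]
    rw [h1]
    exact other51 G hG hC hA hP hI hR

/-- the sum of all weights -/
theorem wsum51 (hG : G.Geo al kp U) (F : V × V → Prop)
    (hF : ∀ x ∈ iJ G, RC G (G.cl x) → (F (sg G x) ↔ ¬ F x))
    (hA : ∀ C ∈ G.iC, A3 al * (G.cT C).card ≤ ∑ x ∈ G.cD C, G.ar x.1 x.2 / 3)
    (hP : ∀ C ∈ G.iC, (G.cT C).card = 3 → (G.cI C).card = 4 → ∑ x ∈ G.cJ C, wc G al x ≤ 12) :
    ∑ x ∈ iJ G, (bw G al x + xw G F x) ≤ G.iD.card + 2 * G.iI.card := by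
  have h1 : ((∑ x ∈ iJ G, (bw G al x + xw G F x) : ℕ) : ℝ) =
      ((∑ C ∈ G.iC, ∑ x ∈ G.cJ C, (bw G al x + xw G F x) : ℕ) : ℝ) := by
    push_cast
    exact sum_iJ71 G (fun x => (bw G al x : ℝ) + (xw G F x : ℝ))
  have h2 : ∑ x ∈ iJ G, (bw G al x + xw G F x) =
      ∑ C ∈ G.iC, ∑ x ∈ G.cJ C, (bw G al x + xw G F x) := by exact_mod_cast h1
  rw [h2, card_iD27, ← sum_cI66 G, Finset.mul_sum, Finset.mul_sum, ← Finset.sum_add_distrib]
  exact Finset.sum_le_sum fun C hC => clsum51 G hG F hF hC (hA C hC) (hP C hC)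

end D

end

end Pool.Agent.PEN
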