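import Pool.Agent.P4.B51b

/-! # PENNY, inequality B: the points of `N` and the final inequality -/

set_option autoImplicit false

namespace Pool.Agent.PEN

open Classical UpperHalfPlane

noncomputable section

section D
variable {V : Type} (G : Tg V) {al : ℝ} {kp : V → V → ℝ} {U : ℕ → ℝ}

/-- a side between two rhombi whose corners at the origin are outside `F` -/
def zb (F : V × V → Prop) (x : V × V) : Prop :=
  (x.2, x.1) ∈ iJ G ∧ RC G (G.cl x) ∧ ¬ F x ∧ RC G (G.cl (x.2, x.1)) ∧ ¬ F (sg G (x.2, x.1))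

/-- a side between two rhombi whose corners at the origin are in `F` -/
def ob (F : V × V → Prop) (x : V × V) : Prop :=
  (x.2, x.1) ∈ iJ G ∧ RC G (G.cl x) ∧ F x ∧ RC G (G.cl (x.2, x.1)) ∧ F (sg G (x.2, x.1))

theorem zb_ob51 (F : V × V → Prop)
    (hF : ∀ x ∈ iJ G, RC G (G.cl x) → (F (sg G x) ↔ ¬ F x)) {x : V × V} (hx : x ∈ iJ G)
    (h : zb G F x) : ob G F (x.2, x.1) := by
  obtain ⟨h1, h2, h3, h4, h5⟩ := h
  refine ⟨hx, h4, ?_, h2, (hF x hx h2).2 h3⟩
  by_contra h6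
  exact h5 ((hF _ h1 h4).2 h6)

/-- the inner contact darts at a point -/
def Jv (v : V) : Finset (V × V) := (iJ G).filter (fun x => x.1 = v)

theorem mem_Jv51 {v : V} {x : V × V} : x ∈ Jv G v ↔ x ∈ iJ G ∧ x.1 = v := by
  unfold Jv
  rw [Finset.mem_filter]

theorem Jv_ne51 (hG : G.Geo al kp U) {v : V} (hv : v ∈ inN G) : (Jv G v).Nonempty := by
  obtain ⟨h1, h2, h3, h4⟩ := inN_all51 G hG hv
  obtain ⟨a, h5, h6⟩ := con_ex66 G hG h1
  exact ⟨(v, a), (mem_Jv51 G).2 ⟨(mem_iJ71 G).2 ⟨h3 a h5, h6⟩, rfl⟩⟩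

theorem Jv_swap51 (hG : G.Geo al kp U) {v : V} (hv : v ∈ inN G) {x : V × V}
    (hx : x ∈ Jv G v) : (x.2, x.1) ∈ iJ G ∧ sg G (x.2, x.1) ∈ Jv G v := by
  obtain ⟨h1, h2, h3, h4⟩ := inN_all51 G hG hv
  rw [mem_Jv51] at hx
  obtain ⟨h5, h6⟩ := hx
  have h7 := h5
  rw [mem_iJ71] at h7
  have h8 : (x.2, x.1) ∈ iJ G := by
    rw [mem_iJ71]
    refine ⟨?_, G.csymm _ _ h7.2⟩
    rw [h6]
    apply h4
    rw [← h6]
    exact G.sub h7.1.1
  exact ⟨h8, (mem_Jv51 G).2 ⟨(sg_mem51 G hG h8).1, h6⟩⟩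

theorem base7_51 (hG : G.Geo al kp U) {v : V} (hv : v ∈ inN G) :
    7 ≤ ∑ x ∈ Jv G v, bw G al x := by
  have hal := al_pos71 G hG
  have h1 := sum_TH_point71 G hG hv
  have h2 : ∑ x ∈ Jv G v, TH G x ≤ ∑ x ∈ Jv G v, al * (bw G al x : ℝ) :=
    Finset.sum_le_sum fun x hx => TH_bw51 G hG ((mem_Jv51 G).1 hx).1
  unfold Jv at h2 ⊢
  rw [h1, ← Finset.mul_sum, ← Nat.cast_sum] at h2
  have h3 : (6 : ℝ) < ((∑ x ∈ (iJ G).filter (fun x => x.1 = v), bw G al x : ℕ) : ℝ) := by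
    by_contra h
    push Not at h
    have := mul_le_mul_of_nonneg_left h hal.le
    linarith [hG.al2]
  have h4 : 6 < ∑ x ∈ (iJ G).filter (fun x => x.1 = v), bw G al x := by exact_mod_cast h3
  omega

/-- all corners at a point are contact triangles or rhombi if the extra weight is exhausted -/
theorem xw_ge51 (F : V × V → Prop) (x : V × V) :
    (if RC G (G.cl x) ∧ F x then 1 else 0) ≤ xw G F x := by
  unfold xw
  by_cases h1 : G.cI (G.cl x) = ∅
  · have : ¬ RC G (G.cl x) := fun h => RC_ne51 G h h1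
    rw [if_pos h1, if_neg (fun h => this h.1)]
  · rw [if_neg h1]
    by_cases h2 : RC G (G.cl x)
    · rw [if_pos h2]
      by_cases h3 : F x
      · rw [if_pos ⟨h2, h3⟩, if_pos h3]
      · rw [if_neg (fun h => h3 h.2), if_neg h3]
    · rw [if_neg h2, if_neg (fun h => h2 h.1)]
      exact Nat.zero_le _

/-- **the points of `N`** -/
theorem point51 (hG : G.Geo al kp U) (F : V × V → Prop)
    {v : V} (hv : v ∈ inN G) :
    (∑ x ∈ Jv G v, (bw G al x + xw G F x) = 7 ∧ ((Jv G v).filter (ob G F)).card = 0 ∧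
      ∑ x ∈ Jv G v, xw G F x = 0) ∨
    8 + ((Jv G v).filter (ob G F)).card ≤ ∑ x ∈ Jv G v, (bw G al x + xw G F x) := by
  have h7 := base7_51 G hG hv
  obtain ⟨F1, hF1⟩ : ∃ F1, F1 = (Jv G v).filter (fun x => RC G (G.cl x) ∧ F x) := ⟨_, rfl⟩
  have hmF : ∀ x, x ∈ F1 ↔ x ∈ Jv G v ∧ RC G (G.cl x) ∧ F x := by
    intro x
    rw [hF1, Finset.mem_filter]
  have hs : F1.card ≤ ∑ x ∈ Jv G v, xw G F x := by
    rw [hF1, Finset.card_filter]
    exact Finset.sum_le_sum fun x _ => xw_ge51 G F x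
  have hsub : (Jv G v).filter (ob G F) ⊆ F1 := by
    intro x hx
    rw [Finset.mem_filter] at hx
    exact (hmF x).2 ⟨hx.1, hx.2.2.1, hx.2.2.2.1⟩
  have hS := Finset.card_le_card hsub
  rw [Finset.sum_add_distrib]
  rcases Nat.lt_or_ge (∑ x ∈ Jv G v, bw G al x + ∑ x ∈ Jv G v, xw G F x) 8 with hlt | hge
  · left
    refine ⟨by omega, by omega, by omega⟩
  · right
    by_contra hcon
    have hbw : ∑ x ∈ Jv G v, bw G al x = 7 := by omega
    have hxw : ∑ x ∈ Jv G v, xw G F x = F1.card := by omega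
    have hSs : ((Jv G v).filter (ob G F)).card = F1.card := by omega
    have hpos : 0 < F1.card := by omega
    have heq : (Jv G v).filter (ob G F) = F1 := Finset.eq_of_subset_of_card_le hsub (by omega)
    -- no other face
    have hTR : ∀ x ∈ Jv G v, G.cI (G.cl x) = ∅ ∨ RC G (G.cl x) := by
      intro x hx
      by_contra hno
      rw [not_or] at hno
      obtain ⟨n1, n2⟩ := hno
      have h1 : ∑ x ∈ Jv G v, (if RC G (G.cl x) ∧ F x then 1 else 0) <
          ∑ x ∈ Jv G v, xw G F x := by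
        refine Finset.sum_lt_sum (fun x _ => xw_ge51 G F x) ⟨x, hx, ?_⟩
        unfold xw
        rw [if_neg n1, if_neg n2, if_neg (fun h => n2 h.1)]
        exact Nat.zero_lt_one
      rw [← Finset.card_filter, ← hF1] at h1
      omega
    -- a contact triangle
    obtain ⟨y, hy, hyT⟩ : ∃ y ∈ Jv G v, G.cI (G.cl y) = ∅ := by
      by_contra hno
      push Not at hno
      have h1 : ∑ x ∈ Jv G v, bw G al x = ∑ x ∈ Jv G v, 2 := by
        refine Finset.sum_congr rfl fun x hx => ?_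
        have h2 := Finset.nonempty_iff_ne_empty.1 (hno x hx)
        unfold bw
        rw [if_neg h2, if_pos ((hTR x hx).resolve_left h2)]
      rw [Finset.sum_const, smul_eq_mul] at h1
      omega
    have h1 := closed51 G hG hv F1 (fun x hx => (mem_Jv51 G).1 ((hmF x).1 hx).1)
      (Finset.card_pos.1 hpos) (by
        intro x hx
        have hx' := hx
        rw [← heq, Finset.mem_filter] at hx'
        obtain ⟨h2, h3, h4, h5, h6, h7⟩ := hx'
        refine (hmF _).2 ⟨(Jv_swap51 G hG hv h2).2, ?_, h7⟩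
        rw [(sg_mem51 G hG h3).2]
        exact h6)
    rw [mem_Jv51] at hy
    have h2 := (hmF _).1 (h1 y hy.1 hy.2)
    exact RC_ne51 G h2.2.1 hyT

/-- deficient points without a side between two rhombus corners outside `F` -/
theorem bad51 (hG : G.Geo al kp U) (F : V × V → Prop)
    {v : V} (hv : v ∈ inN G)
    (h7 : ∑ x ∈ Jv G v, (bw G al x + xw G F x) = 7) (hx0 : ∑ x ∈ Jv G v, xw G F x = 0)
    (hno : ∀ x ∈ Jv G v, ¬ zb G F x) :
    ∃ x ∈ Jv G v, RC G (G.cl x) ∧ ¬ F x ∧ (TH G x = 2 * Real.pi - 5 * al ∨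
      ∃ y ∈ Jv G v, y ≠ x ∧ RC G (G.cl y) ∧ ¬ F y ∧
        TH G x + TH G y = 2 * Real.pi - 3 * al) := by
  have hal := al_pos71 G hG
  have hb7 : ∑ x ∈ Jv G v, bw G al x = 7 := by
    rw [Finset.sum_add_distrib] at h7
    omega
  have hTR : ∀ x ∈ Jv G v, G.cI (G.cl x) = ∅ ∨ (RC G (G.cl x) ∧ ¬ F x) := by
    intro x hx
    have h1 : xw G F x = 0 := by
      rw [Finset.sum_eq_zero_iff] at hx0
      exact hx0 x hx
    unfold xw at h1
    by_cases h2 : G.cI (G.cl x) = ∅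
    · exact Or.inl h2
    right
    rw [if_neg h2] at h1
    by_cases h3 : RC G (G.cl x)
    · rw [if_pos h3] at h1
      by_cases h4 : F x
      · rw [if_pos h4] at h1
        omega
      · exact ⟨h3, h4⟩
    · rw [if_neg h3] at h1
      omega
  obtain ⟨JR, hJR⟩ : ∃ JR, JR = (Jv G v).filter (fun x => RC G (G.cl x)) := ⟨_, rfl⟩
  obtain ⟨JT, hJT⟩ : ∃ JT, JT = (Jv G v).filter (fun x => ¬ RC G (G.cl x)) := ⟨_, rfl⟩
  have hmR : ∀ x, x ∈ JR ↔ x ∈ Jv G v ∧ RC G (G.cl x) := by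
    intro x
    rw [hJR, Finset.mem_filter]
  have hmT : ∀ x, x ∈ JT ↔ x ∈ Jv G v ∧ ¬ RC G (G.cl x) := by
    intro x
    rw [hJT, Finset.mem_filter]
  have hTT : ∀ x ∈ JT, G.cI (G.cl x) = ∅ := by
    intro x hx
    rw [hmT] at hx
    exact (hTR x hx.1).resolve_right (fun h => hx.2 h.1)
  have hcount : JT.card + 2 * JR.card = 7 := by
    rw [← hb7, ← Finset.sum_filter_add_sum_filter_not (Jv G v) (fun x => RC G (G.cl x)),
      ← hJR, ← hJT]
    have h1 : ∑ x ∈ JR, bw G al x = ∑ x ∈ JR, 2 := by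
      refine Finset.sum_congr rfl fun x hx => ?_
      have h2 := ((hmR x).1 hx).2
      unfold bw
      rw [if_neg (RC_ne51 G h2), if_pos h2]
    have h3 : ∑ x ∈ JT, bw G al x = ∑ x ∈ JT, 1 := by
      refine Finset.sum_congr rfl fun x hx => ?_
      unfold bw
      rw [if_pos (hTT x hx)]
    rw [h1, h3, Finset.sum_const, Finset.sum_const, smul_eq_mul, smul_eq_mul]
    omega
  have hang : (JT.card : ℝ) * al + ∑ x ∈ JR, TH G x = 2 * Real.pi := by
    have h1 := sum_TH_point71 G hG hv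
    change ∑ x ∈ Jv G v, TH G x = _ at h1
    rw [← Finset.sum_filter_add_sum_filter_not (Jv G v) (fun x => RC G (G.cl x)),
      ← hJR, ← hJT] at h1
    have h3 : ∑ x ∈ JT, TH G x = ∑ x ∈ JT, al := by
      refine Finset.sum_congr rfl fun x hx => ?_
      exact TH_T51 G hG ((mem_Jv51 G).1 ((hmT x).1 hx).1).1 (hTT x hx)
    rw [h3, Finset.sum_const, nsmul_eq_mul] at h1
    linarith
  have hle : JR.card ≤ JT.card := by
    apply Finset.card_le_card_of_injOn (fun x => sg G (x.2, x.1))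
    · intro x hx
      rw [Finset.mem_coe] at hx
      rw [Finset.mem_coe]
      obtain ⟨h1, h2⟩ := (hmR x).1 hx
      obtain ⟨h3, h4⟩ := Jv_swap51 G hG hv h1
      refine (hmT _).2 ⟨h4, fun h5 => hno x h1 ?_⟩
      have h6 := (hTR _ h4).resolve_left (RC_ne51 G h5)
      have h7 := (hTR _ h1).resolve_left (RC_ne51 G h2)
      refine ⟨h3, h2, h7.2, ?_, h6.2⟩
      rw [← (sg_mem51 G hG h3).2]
      exact h5
    · intro x hx y hy h
      rw [Finset.mem_coe] at hx hy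
      have h1 := (Jv_swap51 G hG hv ((hmR x).1 hx).1).1
      have h2 := (Jv_swap51 G hG hv ((hmR y).1 hy).1).1
      have h3 := sg_inj51 G hG h1 h2 h
      have h4 := congrArg Prod.fst h3
      have h5 := congrArg Prod.snd h3
      exact Prod.ext h5 h4
  have hcases : JR.card = 0 ∨ JR.card = 1 ∨ JR.card = 2 := by omega
  rcases hcases with h0 | h0 | h0
  · exfalso
    have h1 : JT.card = 7 := by omega
    rw [Finset.card_eq_zero] at h0
    rw [h1, h0, Finset.sum_empty] at hang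
    push_cast at hang
    linarith [hG.al1]
  · obtain ⟨x, hx⟩ := Finset.card_eq_one.1 h0
    have h1 : JT.card = 5 := by omega
    rw [h1, hx, Finset.sum_singleton] at hang
    push_cast at hang
    have hxR := (hmR x).1 (by rw [hx]; exact Finset.mem_singleton_self x)
    refine ⟨x, hxR.1, hxR.2, ((hTR x hxR.1).resolve_left (RC_ne51 G hxR.2)).2, Or.inl ?_⟩
    linarith
  · obtain ⟨x, y, hxy, hx⟩ := Finset.card_eq_two.1 h0
    have h1 : JT.card = 3 := by omega
    rw [h1, hx, Finset.sum_pair hxy] at hang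
    push_cast at hang
    have hxR := (hmR x).1 (by rw [hx]; exact Finset.mem_insert_self _ _)
    have hyR := (hmR y).1 (by
      rw [hx]
      exact Finset.mem_insert_of_mem (Finset.mem_singleton_self _))
    refine ⟨x, hxR.1, hxR.2, ((hTR x hxR.1).resolve_left (RC_ne51 G hxR.2)).2, Or.inr
      ⟨y, hyR.1, hxy.symm, hyR.2, ((hTR y hyR.1).resolve_left (RC_ne51 G hyR.2)).2, ?_⟩⟩
    linarith

/-- the bad points of inequality B -/
def Kb (al : ℝ) (F : V × V → Prop) : Finset V :=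
  (inN G).filter (fun v => ∑ x ∈ Jv G v, (bw G al x + xw G F x) = 7 ∧
    ∀ x ∈ Jv G v, ¬ zb G F x)

/-- **inequality B, general form** -/
theorem B_ineq_gen (hG : G.Geo al kp U) (F : V × V → Prop)
    (hF : ∀ x ∈ iJ G, RC G (G.cl x) → (F (sg G x) ↔ ¬ F x))
    (hA : ∀ C ∈ G.iC, A3 al * (G.cT C).card ≤ ∑ x ∈ G.cD C, G.ar x.1 x.2 / 3)
    (hP : ∀ C ∈ G.iC, (G.cT C).card = 3 → (G.cI C).card = 4 → ∑ x ∈ G.cJ C, wc G al x ≤ 12) :
    (8 * al - 2 * Real.pi) * ((G.P.card : ℝ) - G.oJ.card) ≤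
      2 * al * G.iI.card + (∑ x ∈ G.iD, G.ar x.1 x.2 / 3 - A3 al * (G.iD.card / 3)) +
        al * (Kb G al F).card := by
  have hal := al_pos71 G hG
  have hpi := Real.pi_pos
  -- the chosen darts
  have hch : ∀ v, ∃ x, v ∈ inN G → x ∈ Jv G v ∧ ((∃ y ∈ Jv G v, zb G F y) → zb G F x) := by
    intro v
    by_cases hv : v ∈ inN G
    · by_cases h : ∃ y ∈ Jv G v, zb G F y
      · obtain ⟨y, hy, hy2⟩ := h
        exact ⟨y, fun _ => ⟨hy, fun _ => hy2⟩⟩
      · obtain ⟨y, hy⟩ := Jv_ne51 G hG hv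
        exact ⟨y, fun _ => ⟨hy, fun h2 => absurd h2 h⟩⟩
    · obtain ⟨x⟩ : Nonempty (V × V) := ⟨(v, v)⟩
      exact ⟨x, fun h => absurd h hv⟩
  choose p hp using hch
  obtain ⟨Df, hDf⟩ : ∃ Df, Df = (inN G).filter (fun v => ∑ x ∈ Jv G v,
      (bw G al x + xw G F x) = 7 ∧ ∃ x ∈ Jv G v, zb G F x) := ⟨_, rfl⟩
  have hmDf : ∀ v, v ∈ Df ↔ v ∈ inN G ∧ ∑ x ∈ Jv G v, (bw G al x + xw G F x) = 7 ∧
      ∃ x ∈ Jv G v, zb G F x := by
    intro v
    rw [hDf, Finset.mem_filter]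
  have hmK : ∀ v, v ∈ Kb G al F ↔ v ∈ inN G ∧ ∑ x ∈ Jv G v, (bw G al x + xw G F x) = 7 ∧
      ∀ x ∈ Jv G v, ¬ zb G F x := by
    intro v
    unfold Kb
    rw [Finset.mem_filter]
  obtain ⟨Pk, hPk⟩ : ∃ Pk, Pk = Df.image p := ⟨_, rfl⟩
  obtain ⟨Bk, hBk⟩ : ∃ Bk, Bk = (Kb G al F).image p := ⟨_, rfl⟩
  have hPk1 : ∀ x ∈ Pk, x ∈ iJ G ∧ zb G F x := by
    intro x hx
    rw [hPk] at hx
    obtain ⟨v, hv, rfl⟩ := Finset.mem_image.1 hx
    rw [hmDf] at hv
    obtain ⟨h1, h2⟩ := hp v hv.1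
    exact ⟨((mem_Jv51 G).1 h1).1, h2 hv.2.2⟩
  have hBk1 : ∀ x ∈ Bk, x ∈ iJ G := by
    intro x hx
    rw [hBk] at hx
    obtain ⟨v, hv, rfl⟩ := Finset.mem_image.1 hx
    rw [hmK] at hv
    exact ((mem_Jv51 G).1 (hp v hv.1).1).1
  obtain ⟨Sk, hSk⟩ : ∃ Sk, Sk = Pk.image (sg G) := ⟨_, rfl⟩
  have hSk1 : ∀ x ∈ Sk, x ∈ iJ G := by
    intro x hx
    rw [hSk] at hx
    obtain ⟨y, hy, rfl⟩ := Finset.mem_image.1 hx
    exact (sg_mem51 G hG (hPk1 y hy).1).1
  have hSkc : Sk.card = Pk.card := by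
    rw [hSk]
    apply Finset.card_image_of_injOn
    intro x hx y hy h
    exact sg_inj51 G hG (hPk1 x hx).1 (hPk1 y hy).1 h
  have hBkc : Bk.card ≤ (Kb G al F).card := by
    rw [hBk]
    exact Finset.card_image_le
  obtain ⟨w, hw⟩ : ∃ w : V × V → ℝ, ∀ x, w x = ((bw G al x + xw G F x : ℕ) : ℝ) +
      (if x ∈ Pk then 1 else 0) - (if x ∈ Sk then 1 else 0) + (if x ∈ Bk then 1 else 0) :=
    ⟨_, fun _ => rfl⟩
  have hsumw : ∀ J : Finset (V × V), ∑ x ∈ J, w x = ((∑ x ∈ J, (bw G al x + xw G F x) : ℕ) : ℝ) +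
      ((J.filter (fun x => x ∈ Pk)).card : ℝ) - ((J.filter (fun x => x ∈ Sk)).card : ℝ) +
        ((J.filter (fun x => x ∈ Bk)).card : ℝ) := by
    intro J
    rw [Finset.sum_congr rfl (fun x _ => hw x), Finset.sum_add_distrib, Finset.sum_sub_distrib,
      Finset.sum_add_distrib, Finset.sum_boole, Finset.sum_boole, Finset.sum_boole, Nat.cast_sum]
  have h1 := transfer71 G hG w 8 (fun C => ∑ x ∈ G.cJ C, w x) ?_ ?_ (fun C _ => le_rfl)
  · rw [← sum_iJ71 G w, hsumw] at h1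
    have hf : ∀ S : Finset (V × V), (∀ x ∈ S, x ∈ iJ G) →
        (iJ G).filter (fun x => x ∈ S) = S := by
      intro S hS
      ext x
      rw [Finset.mem_filter]
      exact ⟨fun h => h.2, fun h => ⟨hS x h, h⟩⟩
    rw [hf Pk (fun x hx => (hPk1 x hx).1), hf Sk hSk1, hf Bk hBk1, hSkc] at h1
    have h2 := wsum51 G hG F hF hA hP
    have h2' : ((∑ x ∈ iJ G, (bw G al x + xw G F x) : ℕ) : ℝ) ≤
        (G.iD.card : ℝ) + 2 * G.iI.card := by exact_mod_cast h2
    have h2'' : (Bk.card : ℝ) ≤ ((Kb G al F).card : ℝ) := by exact_mod_cast hBkc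
    have h3 : (G.P.card : ℝ) - G.oJ.card ≤ (inN G).card := by
      have := card_inN71 G
      have h4 : (G.P.card : ℝ) ≤ G.oJ.card + (inN G).card := by exact_mod_cast this
      linarith
    have h5 := mul_le_mul_of_nonneg_left h3
      (by linarith [hG.al1, hG.al2] : 0 ≤ 8 * al - 2 * Real.pi)
    have h6 : al * (((∑ x ∈ iJ G, (bw G al x + xw G F x) : ℕ) : ℝ) + Pk.card - Pk.card +
        Bk.card) ≤ al * ((G.iD.card : ℝ) + 2 * G.iI.card + (Kb G al F).card) :=
      mul_le_mul_of_nonneg_left (by linarith) hal.le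
    unfold A3
    linarith
  · intro x hx
    rw [hw]
    have h2 := TH_bw51 G hG hx
    have p1 : (0 : ℝ) ≤ (if x ∈ Pk then 1 else 0) := by split_ifs <;> norm_num
    have p2 : (0 : ℝ) ≤ (if x ∈ Bk then 1 else 0) := by split_ifs <;> norm_num
    by_cases hS : x ∈ Sk
    · rw [if_pos hS]
      rw [hSk] at hS
      obtain ⟨y, hy, hyx⟩ := Finset.mem_image.1 hS
      obtain ⟨h3, h4, h5, h6, h7⟩ := hPk1 y hy
      have h8 : RC G (G.cl x) := by
        rw [← hyx, (sg_mem51 G hG h3).2]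
        exact h5
      have h9 : F x := by
        rw [← hyx]
        exact (hF y h3 h5).2 h6
      have h10 := TH_R51 G hG hx h8
      have e1 : bw G al x = 2 := by
        unfold bw
        rw [if_neg (RC_ne51 G h8), if_pos h8]
      have e2 : xw G F x = 1 := by
        unfold xw
        rw [if_neg (RC_ne51 G h8), if_pos h8, if_pos h9]
      rw [e1, e2]
      push_cast
      nlinarith
    · rw [if_neg hS]
      push_cast
      have p3 : (0 : ℝ) ≤ (xw G F x : ℝ) := Nat.cast_nonneg _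
      nlinarith
  · intro v hv
    change (8 : ℝ) ≤ ∑ x ∈ Jv G v, w x
    rw [hsumw]
    have hS : ((Jv G v).filter (fun x => x ∈ Sk)).card ≤ ((Jv G v).filter (ob G F)).card := by
      calc ((Jv G v).filter (fun x => x ∈ Sk)).card ≤
          (((Jv G v).filter (ob G F)).image (fun x => sg G (x.2, x.1))).card := by
            apply Finset.card_le_card
            intro z hz
            rw [Finset.mem_filter, mem_Jv51, hSk] at hz
            obtain ⟨⟨h2, h3⟩, h4⟩ := hz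
            obtain ⟨y, hy, rfl⟩ := Finset.mem_image.1 h4
            obtain ⟨h5, h6⟩ := hPk1 y hy
            have h7 := zb_ob51 G F hF h5 h6
            rw [Finset.mem_image]
            refine ⟨(y.2, y.1), ?_, rfl⟩
            rw [Finset.mem_filter, mem_Jv51]
            exact ⟨⟨h6.1, h3⟩, h7⟩
        _ ≤ _ := Finset.card_image_le
    have hS' : (((Jv G v).filter (fun x => x ∈ Sk)).card : ℝ) ≤
        (((Jv G v).filter (ob G F)).card : ℝ) := by exact_mod_cast hS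
    have p1 : (0 : ℝ) ≤ (((Jv G v).filter (fun x => x ∈ Pk)).card : ℝ) := Nat.cast_nonneg _
    have p2 : (0 : ℝ) ≤ (((Jv G v).filter (fun x => x ∈ Bk)).card : ℝ) := Nat.cast_nonneg _
    rcases point51 G hG F hv with ⟨h2, h3, h4⟩ | h2
    · rw [h2]
      rw [h3] at hS'
      push_cast at hS' ⊢
      by_cases hz : ∃ x ∈ Jv G v, zb G F x
      · have h5 : p v ∈ (Jv G v).filter (fun x => x ∈ Pk) := by
          rw [Finset.mem_filter, hPk]
          exact ⟨(hp v hv).1, Finset.mem_image_of_mem p ((hmDf v).2 ⟨hv, h2, hz⟩)⟩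
        have h6 : (1 : ℝ) ≤ (((Jv G v).filter (fun x => x ∈ Pk)).card : ℝ) := by
          exact_mod_cast Finset.card_pos.2 ⟨_, h5⟩
        linarith
      · push Not at hz
        have h5 : p v ∈ (Jv G v).filter (fun x => x ∈ Bk) := by
          rw [Finset.mem_filter, hBk]
          exact ⟨(hp v hv).1, Finset.mem_image_of_mem p ((hmK v).2 ⟨hv, h2, hz⟩)⟩
        have h6 : (1 : ℝ) ≤ (((Jv G v).filter (fun x => x ∈ Bk)).card : ℝ) := by
          exact_mod_cast Finset.card_pos.2 ⟨_, h5⟩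
        linarith
    · have h2' : (8 : ℝ) + (((Jv G v).filter (ob G F)).card : ℝ) ≤
          ((∑ x ∈ Jv G v, (bw G al x + xw G F x) : ℕ) : ℝ) := by exact_mod_cast h2
      linarith

/-- **inequality B** without bad points: `F` contains the rhombus corners of angle `2π - 5 al` and
one of two rhombus corners at a point with angles adding to `2π - 3 al` -/
theorem B_ineq (hG : G.Geo al kp U) (F : V × V → Prop)
    (hF : ∀ x ∈ iJ G, RC G (G.cl x) → (F (sg G x) ↔ ¬ F x))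
    (h5 : ∀ x ∈ iJ G, RC G (G.cl x) → TH G x = 2 * Real.pi - 5 * al → F x)
    (h3 : ∀ x ∈ iJ G, ∀ y ∈ iJ G, RC G (G.cl x) → RC G (G.cl y) → x.1 = y.1 → x ≠ y →
      TH G x + TH G y = 2 * Real.pi - 3 * al → F x ∨ F y)
    (hA : ∀ C ∈ G.iC, A3 al * (G.cT C).card ≤ ∑ x ∈ G.cD C, G.ar x.1 x.2 / 3)
    (hP : ∀ C ∈ G.iC, (G.cT C).card = 3 → (G.cI C).card = 4 → ∑ x ∈ G.cJ C, wc G al x ≤ 12) :
    (8 * al - 2 * Real.pi) * ((G.P.card : ℝ) - G.oJ.card) ≤
      2 * al * G.iI.card + (∑ x ∈ G.iD, G.ar x.1 x.2 / 3 - A3 al * (G.iD.card / 3)) := by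
  have h1 := B_ineq_gen G hG F hF hA hP
  have h2 : Kb G al F = ∅ := by
    rw [Finset.eq_empty_iff_forall_notMem]
    intro v hv
    unfold Kb at hv
    rw [Finset.mem_filter] at hv
    obtain ⟨hv, h7, hno⟩ := hv
    have hx0 : ∑ x ∈ Jv G v, xw G F x = 0 := by
      have h8 := base7_51 G hG hv
      rw [Finset.sum_add_distrib] at h7
      omega
    obtain ⟨x, hx, hR, hnF, h9⟩ := bad51 G hG F hv h7 hx0 hno
    have hxJ := (mem_Jv51 G).1 hx
    rcases h9 with h9 | ⟨y, hy, hne, hyR, hyF, h9⟩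
    · exact hnF (h5 x hxJ.1 hR h9)
    · have hyJ := (mem_Jv51 G).1 hy
      rcases h3 x hxJ.1 y hyJ.1 hR hyR (hxJ.2.trans hyJ.2.symm) hne.symm h9 with h | h
      · exact hnF h
      · exact hyF h
  rw [h2, Finset.card_empty] at h1
  push_cast at h1
  linarith

end D

end

end Pool.Agent.PEN
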