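import Pool.Agent.P4.BD9

/-! # PENNY, version 4: rotations, gaps and sectors (rows a - e) -/

set_option autoImplicit false

namespace Pool.Agent.PEN

open Classical UpperHalfPlane

noncomputable section

section D
variable {V : Type} (G : Tg V) {al : ℝ}

/-! ### turning by one triangle -/

theorem mem_oJ9 {x : V × V} : x ∈ G.oJ ↔ x ∈ G.D ∧ G.con x.1 x.2 ∧ ¬ G.inn x := by
  unfold Tg.oJ
  rw [Finset.mem_filter]

theorem mem_iD9 {x : V × V} : x ∈ G.iD ↔ G.inn x := by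
  unfold Tg.iD
  rw [Finset.mem_filter]
  exact ⟨fun h => h.2, fun h => ⟨h.1, h⟩⟩

theorem mem_iJ9 {x : V × V} : x ∈ G.iJ ↔ G.inn x ∧ G.con x.1 x.2 := by
  unfold Tg.iJ
  rw [Finset.mem_filter, mem_iD9]

theorem mem_iB9 {x : V × V} : x ∈ G.iB ↔ G.inn x ∧ ¬ G.inn (x.2, x.1) := by
  unfold Tg.iB
  rw [Finset.mem_filter]
  exact ⟨fun h => h.2, fun h => ⟨h.1.1, h⟩⟩

theorem inn_bk9 {v a : V} (h : G.inn (a, v)) : G.inn (v, G.bk v a) ∧ G.ap v (G.bk v a) = a := by
  obtain ⟨h1, h2⟩ := h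
  have h3 : (v, G.ap a v) ∈ G.Dp := G.ap1 _ _ h1
  refine ⟨⟨h3, ?_⟩, G.ap3 _ _ h1⟩
  have e : G.cl (v, G.bk v a) = G.cl (a, v) := by
    unfold Tg.cl Tg.bk
    exact congrArg _ (tri_rot66 G h1)
  rw [e]
  exact h2

theorem inn_ap9 {v a : V} (h : G.inn (v, a)) : G.inn (G.ap v a, v) ∧ G.bk v (G.ap v a) = a := by
  obtain ⟨h1, h2⟩ := h
  have h3 : (G.ap v a, v) ∈ G.Dp := G.ap2 _ _ h1
  refine ⟨⟨h3, ?_⟩, G.ap4 _ _ h1⟩
  have e : G.cl (G.ap v a, v) = G.cl (v, a) := by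
    unfold Tg.cl
    exact congrArg _ (tri_rot66' G h1)
  rw [e]
  exact h2

/-- the other side of a non-contact inner dart is inner and in the same class -/
theorem inn_swap9 {a b : V} (h : G.inn (a, b)) (hc : ¬ G.con a b) :
    G.inn (b, a) ∧ G.cl (b, a) = G.cl (a, b) := by
  obtain ⟨h1, h2⟩ := h
  have h5 : (b, a) ∈ G.Dp := by
    by_contra h6
    have h7 : (a, b) ∈ G.cB (G.cl (a, b)) := by
      unfold Tg.cB
      rw [Finset.mem_filter]
      exact ⟨h1, rfl, hc, h6⟩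
    rw [h2] at h7
    exact absurd h7 (Finset.notMem_empty _)
  have h6 : G.cl (b, a) = G.cl (a, b) := by
    unfold Tg.cl
    refine SimpleGraph.ConnectedComponent.sound (SimpleGraph.Adj.reachable ?_)
    exact ⟨(tri_swap66 G h1 h5).symm, b, a, h5, h1, fun h => hc (G.csymm _ _ h), rfl, rfl⟩
  refine ⟨⟨h5, ?_⟩, h6⟩
  rw [h6]
  exact h2

theorem mem_img9 (v : V) (Q : V → Prop) (a : V) :
    a ∈ (G.D.filter (fun y => y.1 = v ∧ Q y.2)).image Prod.snd ↔ (v, a) ∈ G.D ∧ Q a := by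
  rw [Finset.mem_image]
  constructor
  · rintro ⟨⟨y1, y2⟩, hy, rfl⟩
    rw [Finset.mem_filter] at hy
    obtain ⟨hy0, hy1, hy2⟩ := hy
    simp only at hy1 hy2
    subst hy1
    exact ⟨hy0, hy2⟩
  · rintro ⟨h1, h2⟩
    exact ⟨(v, a), Finset.mem_filter.mpr ⟨h1, rfl, h2⟩, rfl⟩

theorem inv_bk9 (hR : G.Rot9) {v : V} (hv : v ∈ G.P) (S : Finset V) (hne : S.Nonempty)
    (hS : ∀ a ∈ S, (a, v) ∈ G.Dp ∧ G.bk v a ∈ S) : ∀ a, (v, a) ∈ G.D → a ∈ S := by
  have hinj : Set.InjOn (G.bk v) (S : Set V) := by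
    intro a ha b hb h
    have h1 := G.ap3 _ _ (hS a ha).1
    have h2 := G.ap3 _ _ (hS b hb).1
    have h3 : G.ap a v = G.ap b v := h
    rw [← h1, ← h2, h3]
  have himg : S.image (G.bk v) = S := by
    apply Finset.eq_of_subset_of_card_le
    · intro t ht
      obtain ⟨s, hs, rfl⟩ := Finset.mem_image.1 ht
      exact (hS s hs).2
    · rw [Finset.card_image_of_injOn hinj]
  apply hR.inv v hv S hne
  intro a ha
  rw [← himg] at ha
  obtain ⟨b, hb, rfl⟩ := Finset.mem_image.1 ha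
  have h1 := G.ap3 _ _ (hS b hb).1
  refine ⟨G.ap1 _ _ (hS b hb).1, ?_⟩
  have h2 : G.ap v (G.bk v b) = b := h1
  rw [h2]
  exact hb

/-! ### gaps of inner darts -/

theorem hasO9 (hR : G.Rot9) {v a : V} (ha : G.inn (v, a)) : G.HasO v a := by
  by_contra hno
  have hno' : ∀ i : ℕ, ¬ G.con v ((G.bk v)^[i] a) := fun i h => hno ⟨i, h⟩
  have hinn : ∀ i : ℕ, G.inn (v, (G.bk v)^[i] a) := by
    intro i
    induction i with
    | zero => exact ha
    | succ i ih =>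
      rw [Function.iterate_succ_apply']
      exact (inn_bk9 G (inn_swap9 G ih (hno' i)).1).1
  have hv := G.mem _ _ (G.sub ha.1)
  obtain ⟨c, hc1, hc2⟩ := hR.ex v hv
  have hm := mem_img9 G v (fun b => ∃ i : ℕ, b = (G.bk v)^[i] a)
  have h := inv_bk9 G hR hv _ ⟨a, (hm a).2 ⟨G.sub ha.1, 0, rfl⟩⟩ (by
    intro b hb
    obtain ⟨_, i, rfl⟩ := (hm b).1 hb
    refine ⟨(inn_swap9 G (hinn i) (hno' i)).1.1, (hm _).2 ⟨?_, i + 1, ?_⟩⟩
    · have h1 := hinn (i + 1)
      rw [Function.iterate_succ_apply'] at h1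
      exact G.sub h1.1
    · exact (Function.iterate_succ_apply' _ _ _).symm) c hc1
  obtain ⟨_, i, rfl⟩ := (hm c).1 h
  exact hno' i hc2

/-- a property that is kept by a clockwise turn from a non-contact inner dart -/
theorem og_ind9 (hR : G.Rot9) {v a : V} (Q : V → Prop) (ha : G.inn (v, a)) (hQ : Q a)
    (hstep : ∀ b, G.inn (v, b) → ¬ G.con v b → Q b → Q (G.bk v b)) :
    G.con v (G.og v a) ∧ G.inn (v, G.og v a) ∧ Q (G.og v a) := by
  have h := hasO9 G hR ha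
  have e : G.og v a = (G.bk v)^[Nat.find h] a := by
    unfold Tg.og
    rw [dif_pos h]
  have key : ∀ i, i ≤ Nat.find h → G.inn (v, (G.bk v)^[i] a) ∧ Q ((G.bk v)^[i] a) := by
    intro i
    induction i with
    | zero => exact fun _ => ⟨ha, hQ⟩
    | succ i ih =>
      intro hi
      obtain ⟨h1, h2⟩ := ih (by omega)
      have hn := Nat.find_min h (show i < Nat.find h by omega)
      rw [Function.iterate_succ_apply']
      exact ⟨(inn_bk9 G (inn_swap9 G h1 hn).1).1, hstep _ h1 hn h2⟩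
  rw [e]
  exact ⟨Nat.find_spec h, key _ le_rfl⟩

theorem cl_bk9 {v b : V} (h : G.inn (v, b)) (hc : ¬ G.con v b) :
    G.cl (v, G.bk v b) = G.cl (v, b) := by
  have h1 := inn_swap9 G h hc
  rw [← h1.2]
  unfold Tg.cl Tg.bk
  exact congrArg _ (tri_rot66 G h1.1.1)

/-- row (a) -/
theorem og_fact9 (hR : G.Rot9) {v a : V} (ha : G.inn (v, a)) :
    G.con v (G.og v a) ∧ G.inn (v, G.og v a) ∧ G.cl (v, G.og v a) = G.cl (v, a) :=
  og_ind9 G hR (fun b => G.cl (v, b) = G.cl (v, a)) ha rfl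
    (fun b h1 h2 h3 => (cl_bk9 G h1 h2).trans h3)

theorem og_mem9 (hR : G.Rot9) {y : V × V} (hy : y ∈ G.iD) : (y.1, G.og y.1 y.2) ∈ G.iJ := by
  have h := og_fact9 G hR ((mem_iD9 G).1 hy)
  exact (mem_iJ9 G).2 ⟨h.2.1, h.1⟩

/-- the gaps partition the inner darts -/
theorem sum_gp9 (hR : G.Rot9) (Q : V × V → Prop)
    (hQ : ∀ y ∈ G.iD, (Q (y.1, G.og y.1 y.2) ↔ Q y)) :
    ∑ x ∈ G.iJ.filter Q, G.gp x = ∑ y ∈ G.iD.filter Q, G.th y.1 y.2 := by
  rw [← Finset.sum_fiberwise_of_maps_to (s := G.iD.filter Q) (t := G.iJ.filter Q)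
    (g := fun y => (y.1, G.og y.1 y.2))]
  · apply Finset.sum_congr rfl
    rintro ⟨x1, x2⟩ hx
    rw [Finset.mem_filter] at hx
    unfold Tg.gp Tg.gset
    rw [Finset.filter_filter]
    apply Finset.sum_congr
    · ext ⟨y1, y2⟩
      simp only [Finset.mem_filter, Prod.mk.injEq]
      constructor
      · rintro ⟨h1, h2, h3, h4⟩
        subst h2
        subst h4
        exact ⟨h1, (hQ _ h1).1 hx.2, rfl, rfl⟩
      · rintro ⟨h1, h2, h3, h4⟩
        subst h3
        exact ⟨h1, rfl, hasO9 G hR ((mem_iD9 G).1 h1), h4⟩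
    · intro y _
      rfl
  · rintro y hy
    rw [Finset.mem_filter] at hy ⊢
    exact ⟨og_mem9 G hR hy.1, (hQ y hy.1).2 hy.2⟩

/-- row (b), global: the gaps of all inner contact darts -/
theorem sum_gp_all9 (hR : G.Rot9) : ∑ x ∈ G.iJ, G.gp x = ∑ y ∈ G.iD, G.th y.1 y.2 := by
  have h := sum_gp9 G hR (fun _ => True) (fun _ _ => Iff.rfl)
  simpa using h

/-- row (b), one class -/
theorem sum_gp_class9 (hR : G.Rot9) {C : G.adj.ConnectedComponent} (hB : G.cB C = ∅) :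
    ∑ x ∈ G.cJ C, G.gp x = ∑ y ∈ G.cD C, G.th y.1 y.2 := by
  have h := sum_gp9 G hR (fun y => G.cl y = C) (by
    rintro ⟨y1, y2⟩ hy
    have h1 := og_fact9 G hR ((mem_iD9 G).1 hy)
    show G.cl (y1, G.og y1 y2) = C ↔ G.cl (y1, y2) = C
    rw [h1.2.2])
  have e1 : G.iJ.filter (fun y => G.cl y = C) = G.cJ C := by
    ext x
    rw [Finset.mem_filter, mem_iJ9]
    unfold Tg.cJ Tg.inn
    rw [Finset.mem_filter]
    constructor
    · rintro ⟨⟨⟨h1, _⟩, h2⟩, h3⟩
      exact ⟨h1, h3, h2⟩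
    · rintro ⟨h1, h2, h3⟩
      exact ⟨⟨⟨h1, by rw [h2]; exact hB⟩, h3⟩, h2⟩
  have e2 : G.iD.filter (fun y => G.cl y = C) = G.cD C := by
    ext x
    rw [Finset.mem_filter, mem_iD9]
    unfold Tg.cD Tg.inn
    rw [Finset.mem_filter]
    constructor
    · rintro ⟨⟨h1, _⟩, h2⟩
      exact ⟨h1, h2⟩
    · rintro ⟨h1, h2⟩
      exact ⟨⟨h1, by rw [h2]; exact hB⟩, h2⟩
  rw [e1, e2] at h
  exact h

theorem sum_gp_point9 (hR : G.Rot9) (v : V) :
    ∑ x ∈ G.iJ.filter (fun x => x.1 = v), G.gp x =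
      ∑ y ∈ G.iD.filter (fun y => y.1 = v), G.th y.1 y.2 :=
  sum_gp9 G hR (fun y => y.1 = v) (fun _ _ => Iff.rfl)

theorem gp_pos9 (hR : G.Rot9) {x : V × V} (hx : x ∈ G.iJ) : 0 < G.gp x := by
  obtain ⟨h1, h2⟩ := (mem_iJ9 G).1 hx
  unfold Tg.gp
  apply Finset.sum_pos
  · rintro ⟨y1, y2⟩ hy
    unfold Tg.gset at hy
    rw [Finset.mem_filter, mem_iD9] at hy
    exact G.thpos _ _ hy.1.1
  · refine ⟨x, ?_⟩
    unfold Tg.gset
    rw [Finset.mem_filter, mem_iD9]
    refine ⟨h1, rfl, ⟨0, h2⟩, ?_⟩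
    have h : G.HasO x.1 x.2 := ⟨0, h2⟩
    unfold Tg.og
    rw [dif_pos h]
    have h0 : Nat.find h = 0 := (Nat.find_eq_zero h).2 h2
    rw [h0]
    rfl

theorem wt_pos9 (hR : G.Rot9) (ha : 0 < al) {x : V × V} (hx : x ∈ G.iJ) : 1 ≤ G.wt al x := by
  unfold Tg.wt
  exact Nat.ceil_pos.2 (div_pos (gp_pos9 G hR hx) ha)

theorem gp_le_wt9 (ha : 0 < al) (x : V × V) : G.gp x ≤ al * G.wt al x := by
  have h := Nat.le_ceil (G.gp x / al)
  rw [div_le_iff₀ ha] at h
  unfold Tg.wt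
  linarith

/-! ### the boundary darts -/

theorem hd_zero9 {v a : V} (h : ¬ G.inn (v, a)) : G.hd (v, a) = (a, v) := by
  have hex : ∃ i : ℕ, ¬ G.inn (((v, a) : V × V).1, (G.ap ((v, a) : V × V).1)^[i] ((v, a) : V × V).2) :=
    ⟨0, h⟩
  unfold Tg.hd
  rw [dif_pos hex]
  have h0 : Nat.find hex = 0 := (Nat.find_eq_zero hex).2 h
  rw [h0]
  rfl

theorem hd_ex9 (hR : G.Rot9) {v a c : V} (hc : (v, c) ∈ G.oJ) :
    ∃ i : ℕ, ¬ G.inn (v, (G.ap v)^[i] a) := by
  by_contra hno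
  have hno' : ∀ i : ℕ, G.inn (v, (G.ap v)^[i] a) := fun i => by
    by_contra h
    exact hno ⟨i, h⟩
  obtain ⟨c1, c2, c3⟩ := (mem_oJ9 G).1 hc
  have hv : v ∈ G.P := G.mem _ _ c1
  have hm := mem_img9 G v (fun b => ∃ i : ℕ, b = (G.ap v)^[i] a)
  have h := hR.inv v hv _ ⟨a, (hm a).2 ⟨G.sub (hno' 0).1, 0, rfl⟩⟩ (by
    intro b hb
    obtain ⟨_, i, rfl⟩ := (hm b).1 hb
    refine ⟨(hno' i).1, (hm _).2 ⟨?_, i + 1, ?_⟩⟩
    · have h1 := hno' (i + 1)
      rw [Function.iterate_succ_apply'] at h1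
      exact G.sub h1.1
    · exact (Function.iterate_succ_apply' _ _ _).symm) c c1
  obtain ⟨_, i, rfl⟩ := (hm c).1 h
  exact c3 (hno' i)

theorem hd_step9 (hR : G.Rot9) {v a c : V} (hc : (v, c) ∈ G.oJ) (ha : G.inn (v, a)) :
    G.hd (v, a) = G.hd (v, G.ap v a) := by
  have hex : ∃ i : ℕ, ¬ G.inn (((v, a) : V × V).1, (G.ap ((v, a) : V × V).1)^[i] ((v, a) : V × V).2) :=
    hd_ex9 G hR hc
  have hex' : ∃ i : ℕ, ¬ G.inn (((v, G.ap v a) : V × V).1,
      (G.ap ((v, G.ap v a) : V × V).1)^[i] ((v, G.ap v a) : V × V).2) := hd_ex9 G hR hc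
  unfold Tg.hd
  rw [dif_pos hex, dif_pos hex']
  have h0 : Nat.find hex = Nat.find hex' + 1 := by
    rw [Nat.find_eq_iff]
    refine ⟨Nat.find_spec hex', ?_⟩
    intro i hi
    rcases i with _ | i
    · exact not_not.2 ha
    · exact Nat.find_min hex' (show i < Nat.find hex' by omega)
  rw [h0]
  rfl

theorem hd_mem9 (hR : G.Rot9) {v a c : V} (hc : (v, c) ∈ G.oJ) (ha : G.inn (v, a)) :
    G.hd (v, a) ∈ G.iB ∧ (G.hd (v, a)).2 = v := by
  have hex : ∃ i : ℕ, ¬ G.inn (((v, a) : V × V).1, (G.ap ((v, a) : V × V).1)^[i] ((v, a) : V × V).2) :=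
    hd_ex9 G hR hc
  unfold Tg.hd
  rw [dif_pos hex]
  have hs := Nat.find_spec hex
  rcases hn : Nat.find hex with _ | n
  · rw [hn] at hs
    exact absurd ha hs
  · rw [hn] at hs
    have h1 := Nat.find_min hex (show n < Nat.find hex by omega)
    rw [not_not] at h1
    refine ⟨(mem_iB9 G).2 ⟨?_, hs⟩, rfl⟩
    show G.inn ((G.ap v)^[n + 1] a, v)
    rw [Function.iterate_succ_apply']
    exact (inn_ap9 G h1).1

/-- going clockwise does not change the head of the sector -/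
theorem hd_bk9 (hR : G.Rot9) {v b c : V} (hc : (v, c) ∈ G.oJ) (h : G.inn (b, v)) :
    G.hd (v, G.bk v b) = G.hd (v, b) := by
  have h1 := inn_bk9 G h
  rw [hd_step9 G hR hc h1.1, h1.2]

theorem hd_og9 (hR : G.Rot9) {v a c : V} (hc : (v, c) ∈ G.oJ) (ha : G.inn (v, a)) :
    G.hd (v, G.og v a) = G.hd (v, a) :=
  (og_ind9 G hR (fun b => G.hd (v, b) = G.hd (v, a)) ha rfl
    (fun b h1 h2 h3 => (hd_bk9 G hR hc (inn_swap9 G h1 h2).1).trans h3)).2.2

/-- the swap of a boundary dart is an outer contact dart -/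
theorem iB_oJ9 {x : V × V} (hx : x ∈ G.iB) : G.con x.1 x.2 ∧ (x.2, x.1) ∈ G.oJ := by
  obtain ⟨h1, h2⟩ := (mem_iB9 G).1 hx
  have h3 : G.con x.1 x.2 := by
    by_contra h
    exact h2 (inn_swap9 G h1 h).1
  exact ⟨h3, (mem_oJ9 G).2 ⟨G.symm _ _ (G.sub h1.1), G.csymm _ _ h3, h2⟩⟩

theorem nx_ex9 (hR : G.Rot9) {p q c : V} (hc : (q, c) ∈ G.oJ) :
    ∃ i : ℕ, ¬ G.inn ((G.bk q)^[i] p, q) := by
  by_contra hno
  have hno' : ∀ i : ℕ, G.inn ((G.bk q)^[i] p, q) := fun i => by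
    by_contra h
    exact hno ⟨i, h⟩
  obtain ⟨c1, c2, c3⟩ := (mem_oJ9 G).1 hc
  have hv : q ∈ G.P := G.mem _ _ c1
  have hm := mem_img9 G q (fun b => ∃ i : ℕ, b = (G.bk q)^[i + 1] p)
  have hin : ∀ i : ℕ, G.inn (q, (G.bk q)^[i + 1] p) := fun i => by
    rw [Function.iterate_succ_apply']
    exact (inn_bk9 G (hno' i)).1
  have h := inv_bk9 G hR hv _ ⟨(G.bk q)^[0 + 1] p, (hm _).2 ⟨G.sub (hin 0).1, 0, rfl⟩⟩ (by
    intro b hb
    obtain ⟨_, i, rfl⟩ := (hm b).1 hb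
    refine ⟨(hno' (i + 1)).1, (hm _).2 ⟨?_, i + 1, ?_⟩⟩
    · have h1 := hin (i + 1)
      rw [Function.iterate_succ_apply'] at h1
      exact G.sub h1.1
    · exact (Function.iterate_succ_apply' _ _ _).symm) c c1
  obtain ⟨_, i, rfl⟩ := (hm c).1 h
  exact c3 (hin i)

/-- row (d): the structure of a sector -/
theorem nx_fact9 (hR : G.Rot9) {x : V × V} (hx : x ∈ G.iB) : ∃ j : ℕ,
    G.nx x = (x.2, (G.bk x.2)^[j + 1] x.1) ∧ (∀ i ≤ j, G.inn ((G.bk x.2)^[i] x.1, x.2)) ∧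
    G.nx x ∈ G.iB := by
  obtain ⟨p, q⟩ := x
  have hc := (iB_oJ9 G hx).2
  obtain ⟨h1, h2⟩ := (mem_iB9 G).1 hx
  have hex : ∃ i : ℕ, ¬ G.inn ((G.bk ((p, q) : V × V).2)^[i] ((p, q) : V × V).1, ((p, q) : V × V).2) :=
    nx_ex9 G hR hc
  have hs := Nat.find_spec hex
  rcases hn : Nat.find hex with _ | n
  · rw [hn] at hs
    exact absurd h1 hs
  · rw [hn] at hs
    have hlt : ∀ i ≤ n, G.inn ((G.bk q)^[i] p, q) := by
      intro i hi
      have h3 := Nat.find_min hex (show i < Nat.find hex by omega)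
      rw [not_not] at h3
      exact h3
    have e : G.nx (p, q) = (q, (G.bk q)^[n + 1] p) := by
      unfold Tg.nx
      rw [dif_pos hex, hn]
    refine ⟨n, e, hlt, ?_⟩
    rw [e]
    refine (mem_iB9 G).2 ⟨?_, hs⟩
    show G.inn (q, (G.bk q)^[n + 1] p)
    rw [Function.iterate_succ_apply']
    exact (inn_bk9 G (hlt n le_rfl)).1

theorem hd_iter9 (hR : G.Rot9) {p q : V} (hx : (p, q) ∈ G.iB) {j : ℕ}
    (hj : ∀ i ≤ j, G.inn ((G.bk q)^[i] p, q)) :
    ∀ i ≤ j + 1, G.hd (q, (G.bk q)^[i] p) = (p, q) := by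
  have hc := (iB_oJ9 G hx).2
  obtain ⟨h1, h2⟩ := (mem_iB9 G).1 hx
  intro i
  induction i with
  | zero => exact fun _ => hd_zero9 G h2
  | succ i ih =>
    intro hi
    rw [Function.iterate_succ_apply']
    rw [hd_bk9 G hR hc (hj i (by omega))]
    exact ih (by omega)

theorem nx_mem9 (hR : G.Rot9) {x : V × V} (hx : x ∈ G.iB) : G.nx x ∈ G.iB := by
  obtain ⟨_, _, _, h⟩ := nx_fact9 G hR hx
  exact h

theorem nx_fst9 (hR : G.Rot9) {x : V × V} (hx : x ∈ G.iB) : (G.nx x).1 = x.2 := by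
  obtain ⟨_, h, _, _⟩ := nx_fact9 G hR hx
  rw [h]

theorem hd_nx9 (hR : G.Rot9) {x : V × V} (hx : x ∈ G.iB) : G.hd (G.nx x) = x := by
  obtain ⟨j, h1, h2, _⟩ := nx_fact9 G hR hx
  rw [h1]
  exact hd_iter9 G hR hx h2 (j + 1) le_rfl

theorem nx_inj9 (hR : G.Rot9) : Set.InjOn G.nx (G.iB : Set (V × V)) := by
  intro x hx y hy h
  rw [← hd_nx9 G hR hx, ← hd_nx9 G hR hy, h]

/-- the darts of a sector, in order -/
theorem secs_eq9 (hR : G.Rot9) {p q : V} (hx : (p, q) ∈ G.iB) {j : ℕ}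
    (e : G.nx (p, q) = (q, (G.bk q)^[j + 1] p)) (hj : ∀ i ≤ j, G.inn ((G.bk q)^[i] p, q)) :
    G.secs (p, q) = (Finset.range (j + 1)).image (fun i => (q, (G.bk q)^[i + 1] p)) ∧
    Set.InjOn (fun i : ℕ => ((q, (G.bk q)^[i + 1] p) : V × V)) (Finset.range (j + 1) : Set ℕ) := by
  have hc := (iB_oJ9 G hx).2
  obtain ⟨h1, h2⟩ := (mem_iB9 G).1 hx
  have hnx := nx_mem9 G hR hx
  rw [e, mem_iB9] at hnx
  have hout : ∀ i ≤ j, G.inn (q, (G.bk q)^[i + 1] p) := fun i hi => by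
    rw [Function.iterate_succ_apply']
    exact (inn_bk9 G (hj i hi)).1
  constructor
  · ext ⟨y1, y2⟩
    unfold Tg.secs
    rw [Finset.mem_filter, mem_iD9, Finset.mem_image]
    constructor
    · rintro ⟨hy1, hy2, hy3⟩
      simp only at hy2
      subst hy2
      have hex : ∃ i : ℕ, ¬ G.inn (((y1, y2) : V × V).1,
          (G.ap ((y1, y2) : V × V).1)^[i] ((y1, y2) : V × V).2) := hd_ex9 G hR hc
      unfold Tg.hd at hy3
      rw [dif_pos hex] at hy3
      have hy4 : (G.ap y1)^[Nat.find hex] y2 = p := congrArg Prod.fst hy3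
      have hmin : ∀ i, i < Nat.find hex → G.inn (y1, (G.ap y1)^[i] y2) := fun i hi => by
        have h := Nat.find_min hex hi
        rw [not_not] at h
        exact h
      have hback : ∀ i, i ≤ Nat.find hex →
          (G.bk y1)^[i] p = (G.ap y1)^[Nat.find hex - i] y2 := by
        intro i
        induction i with
        | zero => exact fun _ => hy4.symm
        | succ i ih =>
          intro hi
          rw [Function.iterate_succ_apply', ih (by omega)]
          have e1 : Nat.find hex - i = (Nat.find hex - (i + 1)) + 1 := by omega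
          rw [e1, Function.iterate_succ_apply']
          exact (inn_ap9 G (hmin _ (by omega))).2
      have hpos : Nat.find hex ≠ 0 := by
        intro h0
        have hs := Nat.find_spec hex
        rw [h0] at hs
        exact hs hy1
      have hle : Nat.find hex ≤ j + 1 := by
        by_contra hlt
        have h3 : G.inn ((G.bk y1)^[j + 1] p, y1) := by
          rw [hback (j + 1) (by omega)]
          have e1 : Nat.find hex - (j + 1) = (Nat.find hex - (j + 1) - 1) + 1 := by omega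
          rw [e1, Function.iterate_succ_apply']
          exact (inn_ap9 G (hmin _ (by omega))).1
        exact hnx.2 h3
      refine ⟨Nat.find hex - 1, Finset.mem_range.2 (by omega), ?_⟩
      have e1 : Nat.find hex - 1 + 1 = Nat.find hex := by omega
      rw [e1, hback _ le_rfl, Nat.sub_self]
      rfl
    · rintro ⟨i, hi, hy⟩
      have hi' := Finset.mem_range.1 hi
      obtain ⟨e1, e2⟩ := Prod.mk.inj hy
      subst e1
      subst e2
      exact ⟨hout i (by omega), rfl, hd_iter9 G hR hx hj (i + 1) (by omega)⟩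
  · have key : ∀ i i' : ℕ, i < i' → i' ≤ j → (G.bk q)^[i + 1] p ≠ (G.bk q)^[i' + 1] p := by
      intro i i' hlt hle h
      have hfw : ∀ k n : ℕ, n + k ≤ j + 1 → (G.ap q)^[k] ((G.bk q)^[n + k] p) = (G.bk q)^[n] p := by
        intro k
        induction k with
        | zero => exact fun n _ => rfl
        | succ k ih =>
          intro n hn
          rw [Function.iterate_succ_apply]
          have e1 : n + (k + 1) = (n + k) + 1 := by omega
          rw [e1, Function.iterate_succ_apply', (inn_bk9 G (hj (n + k) (by omega))).2]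
          exact ih n (by omega)
      have h3 := hfw (i + 1) 0 (by omega)
      have h4 := hfw (i + 1) (i' - i) (by omega)
      rw [zero_add] at h3
      have e1 : i' - i + (i + 1) = i' + 1 := by omega
      rw [e1, ← h, h3] at h4
      have e2 : i' - i = (i' - i - 1) + 1 := by omega
      rw [e2] at h4
      have h5 := hout (i' - i - 1) (by omega)
      rw [← h4] at h5
      exact h2 h5
    intro i hi i' hi' h
    have hi2 := Finset.mem_range.1 (Finset.mem_coe.1 hi)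
    have hi2' := Finset.mem_range.1 (Finset.mem_coe.1 hi')
    have h3 : (G.bk q)^[i + 1] p = (G.bk q)^[i' + 1] p := congrArg Prod.snd h
    by_contra hne
    rcases lt_or_gt_of_ne hne with h4 | h4
    · exact key i i' h4 (by omega) h3
    · exact key i' i h4 (by omega) h3.symm

theorem sec_sum9 (hR : G.Rot9) {p q : V} (hx : (p, q) ∈ G.iB) {j : ℕ}
    (e : G.nx (p, q) = (q, (G.bk q)^[j + 1] p)) (hj : ∀ i ≤ j, G.inn ((G.bk q)^[i] p, q)) :
    G.secA (p, q) = ∑ i ∈ Finset.range (j + 1), G.th q ((G.bk q)^[i + 1] p) := by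
  obtain ⟨h1, h2⟩ := secs_eq9 G hR hx e hj
  unfold Tg.secA
  rw [h1, Finset.sum_image h2]

/-- row (e) -/
theorem secA_le9 (hR : G.Rot9) (ha : 0 < al) {x : V × V} (hx : x ∈ G.iB) :
    0 < G.secA x ∧ G.secA x ≤ al * G.secW al x := by
  obtain ⟨p, q⟩ := x
  have hc := (iB_oJ9 G hx).2
  constructor
  · unfold Tg.secA
    apply Finset.sum_pos
    · rintro ⟨y1, y2⟩ hy
      unfold Tg.secs at hy
      rw [Finset.mem_filter, mem_iD9] at hy
      exact G.thpos _ _ hy.1.1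
    · refine ⟨G.nx (p, q), ?_⟩
      unfold Tg.secs
      rw [Finset.mem_filter, mem_iD9]
      exact ⟨((mem_iB9 G).1 (nx_mem9 G hR hx)).1, nx_fst9 G hR hx, hd_nx9 G hR hx⟩
  · have h := sum_gp9 G hR (fun y => y.1 = q ∧ G.hd y = (p, q)) (by
      rintro ⟨y1, y2⟩ hy
      have hy' := (mem_iD9 G).1 hy
      constructor
      · rintro ⟨h1, h2⟩
        simp only at h1
        subst h1
        refine ⟨rfl, ?_⟩
        rw [← h2]
        exact (hd_og9 G hR hc hy').symm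
      · rintro ⟨h1, h2⟩
        simp only at h1
        subst h1
        refine ⟨rfl, ?_⟩
        rw [← h2]
        exact hd_og9 G hR hc hy')
    have h' : ∑ x ∈ (G.secs (p, q)).filter (fun y => G.con y.1 y.2), G.gp x = G.secA (p, q) := by
      refine (Finset.sum_congr ?_ fun _ _ => rfl).trans
        (h.trans (Finset.sum_congr ?_ fun _ _ => rfl))
      · ext y
        unfold Tg.secs Tg.iJ
        simp only [Finset.mem_filter]
        tauto
      · ext y
        unfold Tg.secs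
        simp only [Finset.mem_filter]
    rw [← h']
    unfold Tg.secW
    rw [Nat.cast_sum, Finset.mul_sum]
    exact Finset.sum_le_sum fun y _ => gp_le_wt9 G ha y

end D

end

end Pool.Agent.PEN
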