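import Pool.Agent.P4.Defs
import Pool.Agent.PEN.D66

/-! # Hyperbolic penny graphs, part 2: charges at the vertices (rows T0 - T3) -/

set_option autoImplicit false

namespace Pool.Agent.PEN

open Classical UpperHalfPlane

noncomputable section

section D
variable {V : Type} (G : Tg V) {al : ℝ} {kp : V → V → ℝ} {U : ℕ → ℝ}

/-- the contact dart `x` is big: its class is not a single contact triangle -/
def Big (x : V × V) : Prop := (G.cI (G.cl x)).Nonempty

/-- charge of a contact dart, doubled: 2 if it is the only big contact dart at its origin, 1 if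
there are others, 0 if the origin has a contact dart that is not inner -/
def ch (x : V × V) : ℕ :=
  if ∃ a, (x.1, a) ∈ G.oJ then 0
  else if ∀ y ∈ G.D, y.1 = x.1 → G.con y.1 y.2 → Big G y → y = x then 2 else 1

theorem mem_oJ66 {x : V × V} : x ∈ G.oJ ↔ x ∈ G.D ∧ G.con x.1 x.2 ∧ ¬ G.inn x := by
  unfold Tg.oJ
  rw [Finset.mem_filter]

/-- the next dart (counterclockwise) of an inner dart is inner, unless it is a contact dart -/
theorem inn_next66 {v a : V} (h : G.inn (v, a)) (hc : ¬ G.con v (G.ap v a)) :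
    G.inn (v, G.ap v a) := by
  obtain ⟨h1, h2⟩ := h
  have h3 : (G.ap v a, v) ∈ G.Dp := G.ap2 _ _ h1
  have h4 : G.cl (G.ap v a, v) = G.cl (v, a) := by
    unfold Tg.cl
    rw [tri_rot66' G h1]
  have hc' : ¬ G.con (G.ap v a) v := fun h => hc (G.csymm _ _ h)
  have h5 : (v, G.ap v a) ∈ G.Dp := by
    by_contra h6
    have h7 : (G.ap v a, v) ∈ G.cB (G.cl (v, a)) := by
      unfold Tg.cB
      rw [Finset.mem_filter]
      exact ⟨h3, h4, hc', h6⟩
    rw [h2] at h7
    exact absurd h7 (Finset.notMem_empty _)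
  refine ⟨h5, ?_⟩
  have h6 : G.cl (v, G.ap v a) = G.cl (v, a) := by
    rw [← h4]
    unfold Tg.cl
    refine SimpleGraph.ConnectedComponent.sound (SimpleGraph.Adj.reachable ?_)
    refine ⟨(tri_swap66 G h3 h5).symm, v, G.ap v a, h5, h3, hc, rfl, rfl⟩
  rw [h6]
  exact h2

theorem mem_img66 (v : V) (Q : V → Prop) (a : V) :
    a ∈ (G.D.filter (fun y => y.1 = v ∧ Q y.2)).image Prod.snd ↔ (v, a) ∈ G.D ∧ Q a := by
  rw [Finset.mem_image]
  constructor
  · rintro ⟨⟨y1, y2⟩, hy, rfl⟩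
    rw [Finset.mem_filter] at hy
    obtain ⟨hy0, hy1, hy2⟩ := hy
    simp only at hy1 hy2
    subst hy1
    exact ⟨hy0, hy2⟩
  · rintro ⟨h1, h2⟩
    exact ⟨(v, a), Finset.mem_filter.mpr ⟨h1, rfl, h2⟩, rfl⟩

/-- a point has a contact dart -/
theorem con_ex66 (hG : G.Geo al kp U) {v : V} (hv : v ∈ G.P) : ∃ a, (v, a) ∈ G.D ∧ G.con v a := by
  have hpos : 0 < (G.D.filter (fun x => x.1 = v ∧ G.con x.1 x.2)).card :=
    lt_of_lt_of_le (by norm_num) (hG.deg v hv)
  obtain ⟨⟨x1, x2⟩, hx⟩ := Finset.card_pos.mp hpos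
  rw [Finset.mem_filter] at hx
  obtain ⟨hx0, hx1, hx2⟩ := hx
  simp only at hx1 hx2
  subst hx1
  exact ⟨x2, hx0, hx2⟩

/-- T0 = (B) -/
theorem bd_oJ (hG : G.Geo al kp U) {v : V} (hv : v ∈ G.P) (hb : G.bd v) :
    ∃ a, (v, a) ∈ G.oJ := by
  by_contra hno
  have hall : ∀ a, (v, a) ∈ G.D → G.con v a → G.inn (v, a) := by
    intro a h1 h2
    by_contra h3
    exact hno ⟨a, (mem_oJ66 G).2 ⟨h1, h2, h3⟩⟩
  have hmem := mem_img66 G v (fun a => G.inn (v, a))
  refine hG.bdno v hv hb ((G.D.filter (fun y => y.1 = v ∧ G.inn (v, y.2))).image Prod.snd)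
    ?_ ?_
  · obtain ⟨a, h1, h2⟩ := con_ex66 G hG hv
    exact ⟨a, (hmem a).2 ⟨h1, hall a h1 h2⟩⟩
  · intro a ha
    obtain ⟨h1, h2⟩ := (hmem a).1 ha
    refine ⟨h2.1, (hmem _).2 ?_⟩
    have h3 : (v, G.ap v a) ∈ G.D := G.symm _ _ (G.sub (G.ap2 _ _ h2.1))
    refine ⟨h3, ?_⟩
    by_cases hc : G.con v (G.ap v a)
    · exact hall _ h3 hc
    · exact inn_next66 G h2 hc

theorem turn66 (hG : G.Geo al kp U) {v : V} (hv : v ∈ G.P) (hb : ¬ G.bd v) :
    2 * Real.pi ≤ ∑ y ∈ G.D.filter (fun y => y.1 = v ∧ G.HasO v y.2), G.th v y.2 := by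
  have hinj : Set.InjOn Prod.snd
      ((G.D.filter (fun y => y.1 = v ∧ G.HasO v y.2) : Finset (V × V)) : Set (V × V)) := by
    rintro ⟨y1, y2⟩ hy ⟨z1, z2⟩ hz hyz
    rw [Finset.mem_coe, Finset.mem_filter] at hy hz
    have e1 : y1 = v := hy.2.1
    have e2 : z1 = v := hz.2.1
    simp only at hyz
    rw [e1, e2, hyz]
  rw [← Finset.sum_image (f := fun a => G.th v a) hinj]
  have mem := mem_img66 G v (fun a => G.HasO v a)
  apply hG.turn v hv hb
  · obtain ⟨a, h1, h2⟩ := con_ex66 G hG hv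
    exact ⟨a, (mem a).mpr ⟨h1, 0, h2⟩⟩
  · intro a ha
    exact ((mem a).mp ha).1
  · intro a ha
    obtain ⟨h1, i, hi⟩ := (mem a).mp ha
    refine (mem _).mpr ⟨fw_mem11 G hv hb h1, i + 1, ?_⟩
    rw [Function.iterate_succ_apply, bk_fw11 G hv hb h1]
    exact hi

/-- T1: at an interior point every dart lies in a gap and the gaps add to `2π` -/
theorem gap_tot (hG : G.Geo al kp U) {v : V} (hv : v ∈ G.P) (hb : ¬ G.bd v) :
    ∑ x ∈ G.D.filter (fun x => x.1 = v ∧ G.con x.1 x.2), G.Th x.1 x.2 = 2 * Real.pi := by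
  have e1 : G.D.filter (fun x => x.1 = v ∧ G.con x.1 x.2) =
      G.Dp.filter (fun x => x.1 = v ∧ G.con x.1 x.2) := by
    ext ⟨x1, x2⟩
    rw [Finset.mem_filter, Finset.mem_filter]
    constructor
    · rintro ⟨h1, h2, h3⟩
      simp only at h2 h3
      subst h2
      exact ⟨G.int1 _ _ hv hb h1, rfl, h3⟩
    · rintro ⟨h1, h2⟩
      exact ⟨G.sub h1, h2⟩
  rw [e1, sum_Th11 G hv hb]
  apply le_antisymm
  · rw [← hG.tot v hv hb]
    have h1 : ∑ y ∈ G.D.filter (fun y => y.1 = v ∧ G.HasO v y.2), G.th v y.2 =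
        ∑ y ∈ G.D.filter (fun y => y.1 = v ∧ G.HasO v y.2), G.th y.1 y.2 := by
      refine Finset.sum_congr rfl fun y hy => ?_
      rw [Finset.mem_filter] at hy
      rw [hy.2.1]
    rw [h1]
    apply Finset.sum_le_sum_of_subset_of_nonneg
    · intro y hy
      rw [Finset.mem_filter] at hy ⊢
      exact ⟨hy.1, hy.2.1⟩
    · rintro ⟨y1, y2⟩ hy _
      rw [Finset.mem_filter] at hy
      obtain ⟨h2, h3⟩ := hy
      simp only at h3
      subst h3
      exact (G.thpos _ _ (G.int1 _ _ hv hb h2)).le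
  · exact turn66 G hG hv hb

/-- T2: the gap of a contact dart which is inner and not big is `al` -/
theorem Th_small (hG : G.Geo al kp U) {x : V × V} (hx : G.inn x) (hc : G.con x.1 x.2)
    (hb : ¬ Big G x) (hv : x.1 ∈ G.P) (hv' : ¬ G.bd x.1) : G.Th x.1 x.2 = al := by
  obtain ⟨v, a⟩ := x
  dsimp only at hc hv hv' ⊢
  obtain ⟨h1, h2⟩ := hx
  have hI : (G.cI (G.cl (v, a))).card = 0 := by
    rw [Finset.card_eq_zero]
    exact Finset.not_nonempty_iff_eq_empty.1 hb
  have hB : (G.cB (G.cl (v, a))).card = 0 := by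
    rw [Finset.card_eq_zero]
    exact h2
  have hxD : (v, a) ∈ G.cD (G.cl (v, a)) := (mem_cD66 G).2 ⟨h1, rfl⟩
  have c2 := con_of_cD66 G hI hB (rot_cD66 G hxD)
  have c3 := con_of_cD66 G hI hB (rot_cD66' G hxD)
  dsimp only at c2 c3
  have h3 := hG.tcon _ _ h1 hc c2 c3
  rw [← h3]
  unfold Tg.Th
  rw [if_neg hv']
  have hO : G.HasO v a := ⟨0, hc⟩
  have hog : G.og v a = a := by
    unfold Tg.og
    rw [dif_pos hO]
    have : Nat.find hO = 0 := by
      rw [Nat.find_eq_zero]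
      exact hc
    rw [this]
    rfl
  have h4 : G.D.filter (fun y => y.1 = v ∧ G.HasO v y.2 ∧ G.og v y.2 = a) = {(v, a)} := by
    ext y
    rw [Finset.mem_filter, Finset.mem_singleton]
    constructor
    · rintro ⟨hyD, hy1, hy2, hy3⟩
      have h5 : (v, y.2) ∈ G.D := by
        rw [← hy1]
        exact hyD
      rcases og_cases66 G hv' h5 hy2 hy3 with h6 | h6
      · exact Prod.ext hy1 h6
      · exact absurd (G.csymm _ _ c3) h6.1
    · rintro rfl
      exact ⟨G.sub h1, rfl, hO, hog⟩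
  rw [h4, Finset.sum_singleton]

/-- T3: every point without outer contact dart has charge at least one (doubled: two) -/
theorem ch_vertex (hG : G.Geo al kp U) {v : V} (hv : v ∈ G.P) (h : ¬ ∃ a, (v, a) ∈ G.oJ) :
    2 ≤ ∑ x ∈ G.iD.filter (fun x => x.1 = v ∧ G.con x.1 x.2 ∧ Big G x), ch G x := by
  have hb : ¬ G.bd v := fun hb => h (bd_oJ G hG hv hb)
  have hall : ∀ a, (v, a) ∈ G.D → G.con v a → G.inn (v, a) := by
    intro a h1 h2
    by_contra h3
    exact h ⟨a, (mem_oJ66 G).2 ⟨h1, h2, h3⟩⟩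
  obtain ⟨B, hB⟩ : ∃ B, B = G.iD.filter (fun x => x.1 = v ∧ G.con x.1 x.2 ∧ Big G x) :=
    ⟨_, rfl⟩
  have hBm : ∀ x, x ∈ B ↔ x ∈ G.D ∧ x.1 = v ∧ G.con x.1 x.2 ∧ Big G x := by
    rintro ⟨x1, x2⟩
    rw [hB, Finset.mem_filter]
    unfold Tg.iD
    rw [Finset.mem_filter]
    constructor
    · rintro ⟨⟨h1, h2⟩, h3⟩
      exact ⟨G.sub h1, h3⟩
    · rintro ⟨h1, h2, h3⟩
      simp only at h2
      subst h2
      have h4 := hall _ h1 h3.1
      exact ⟨⟨h4.1, h4⟩, rfl, h3⟩
  have hne : B.Nonempty := by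
    rw [Finset.nonempty_iff_ne_empty]
    intro hB0
    have h1 := gap_tot G hG hv hb
    have h2 : ∑ x ∈ G.D.filter (fun x => x.1 = v ∧ G.con x.1 x.2), G.Th x.1 x.2 =
        ∑ x ∈ G.D.filter (fun x => x.1 = v ∧ G.con x.1 x.2), al := by
      refine Finset.sum_congr rfl ?_
      rintro ⟨x1, x2⟩ hx
      rw [Finset.mem_filter] at hx
      obtain ⟨h3, h4, h5⟩ := hx
      simp only at h4 h5
      subst h4
      refine Th_small G hG (hall _ h3 h5) h5 ?_ hv hb
      intro h6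
      have h7 := (hBm (x1, x2)).2 ⟨h3, rfl, h5, h6⟩
      rw [hB0] at h7
      exact absurd h7 (Finset.notMem_empty _)
    rw [h1, Finset.sum_const, nsmul_eq_mul] at h2
    generalize (G.D.filter (fun x => x.1 = v ∧ G.con x.1 x.2)).card = m at h2
    have a1 := hG.al1
    have a2 := hG.al2
    have hal : 0 < al := by
      have := Real.pi_pos
      linarith
    have h3 : (6 : ℝ) < m := by
      by_contra h4
      push_neg at h4
      nlinarith
    have h4 : (m : ℝ) < 7 := by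
      by_contra h4
      push_neg at h4
      nlinarith
    have h5 : 6 < m := by exact_mod_cast h3
    have h6 : m < 7 := by exact_mod_cast h4
    omega
  rw [← hB]
  have hch : ∀ x ∈ B, ch G x =
      if ∀ y ∈ G.D, y.1 = x.1 → G.con y.1 y.2 → Big G y → y = x then 2 else 1 := by
    intro x hx
    obtain ⟨h1, h2, -⟩ := (hBm x).1 hx
    unfold ch
    rw [if_neg]
    rw [h2]
    exact h
  obtain ⟨x, hx⟩ := hne
  by_cases hu : ∀ y ∈ G.D, y.1 = x.1 → G.con y.1 y.2 → Big G y → y = x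
  · have h1 := hch x hx
    rw [if_pos hu] at h1
    calc 2 = ch G x := h1.symm
      _ ≤ ∑ x ∈ B, ch G x := Finset.single_le_sum (f := ch G) (fun _ _ => Nat.zero_le _) hx
  · push_neg at hu
    obtain ⟨y, h1, h2, h3, h4, h5⟩ := hu
    have hy : y ∈ B := (hBm y).2 ⟨h1, h2.trans ((hBm x).1 hx).2.1, h3, h4⟩
    have h6 : 2 ≤ B.card := by
      have : ({x, y} : Finset (V × V)) ⊆ B := by
        intro z hz
        rw [Finset.mem_insert, Finset.mem_singleton] at hz
        rcases hz with rfl | rfl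
        · exact hx
        · exact hy
      calc 2 = ({x, y} : Finset (V × V)).card := (Finset.card_pair (Ne.symm h5)).symm
        _ ≤ B.card := Finset.card_le_card this
    calc 2 ≤ B.card := h6
      _ = ∑ z ∈ B, 1 := by rw [Finset.card_eq_sum_ones]
      _ ≤ ∑ z ∈ B, ch G z := by
        refine Finset.sum_le_sum fun z hz => ?_
        rw [hch z hz]
        split_ifs <;> norm_num

end D

end

end Pool.Agent.PEN
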