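import Pool.Agent.P4.B9
import Pool.Agent.P4.T66

/-! # PENNY, version 4: units at the points and in the sectors (row f) -/

set_option autoImplicit false

namespace Pool.Agent.PEN

open Classical UpperHalfPlane

noncomputable section

section D
variable {V : Type} (G : Tg V) {al : ℝ}

/-- at a point without outer contact dart all darts are inner -/
theorem all_inn9 (hR : G.Rot9) {v : V} (hv : v ∈ G.P) (h : ¬ ∃ a, (v, a) ∈ G.oJ) :
    ∀ a, (v, a) ∈ G.D → G.inn (v, a) := by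
  have hcon : ∀ a, (v, a) ∈ G.D → G.con v a → G.inn (v, a) := fun a h1 h2 => by
    by_contra h3
    exact h ⟨a, (mem_oJ9 G).2 ⟨h1, h2, h3⟩⟩
  obtain ⟨c, hc1, hc2⟩ := hR.ex v hv
  have hm := mem_img9 G v (fun b => G.inn (v, b))
  have hall := hR.inv v hv _ ⟨c, (hm c).2 ⟨hc1, hcon c hc1 hc2⟩⟩ (by
    intro b hb
    obtain ⟨h1, h2⟩ := (hm b).1 hb
    have h3 : (v, G.ap v b) ∈ G.D := G.symm _ _ (G.sub (G.ap2 _ _ h2.1))
    refine ⟨h2.1, (hm _).2 ⟨h3, ?_⟩⟩
    by_cases hc : G.con v (G.ap v b)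
    · exact hcon _ h3 hc
    · exact (inn_swap9 G (inn_ap9 G h2).1 (fun h4 => hc (G.csymm _ _ h4))).1)
  intro a ha
  exact ((hm a).1 (hall a ha)).2

/-- the sum of the gaps at a point without outer contact dart -/
theorem point_sum9 (hR : G.Rot9) {v : V} (hv : v ∈ G.P) (h : ¬ ∃ a, (v, a) ∈ G.oJ)
    (htot : ∑ x ∈ G.D.filter (fun x => x.1 = v), G.th x.1 x.2 = 2 * Real.pi) :
    ∑ x ∈ G.iJ.filter (fun x => x.1 = v), G.gp x = 2 * Real.pi := by
  rw [sum_gp_point9 G hR v, ← htot]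
  apply Finset.sum_congr _ fun _ _ => rfl
  ext ⟨y1, y2⟩
  rw [Finset.mem_filter, Finset.mem_filter, mem_iD9]
  constructor
  · rintro ⟨h1, h2⟩
    exact ⟨G.sub h1.1, h2⟩
  · rintro ⟨h1, h2⟩
    simp only at h2
    subst h2
    exact ⟨all_inn9 G hR hv h y2 h1, rfl⟩

/-- the units at one point -/
theorem L9 (hR : G.Rot9) (ha : 0 < al) (ha3 : 3 * al < Real.pi)
    (hdeg : ∀ v ∈ G.P, 3 ≤ (G.D.filter (fun x => x.1 = v ∧ G.con x.1 x.2)).card)
    (htot : ∀ v ∈ G.P, (¬ ∃ a, (v, a) ∈ G.oJ) →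
      ∑ x ∈ G.D.filter (fun x => x.1 = v), G.th x.1 x.2 = 2 * Real.pi) {v : V} (hv : v ∈ G.P) :
    7 ≤ 4 * (G.oJ.filter (fun x => x.1 = v)).card +
      ∑ x ∈ G.iJ.filter (fun x => x.1 = v), G.wt al x +
      ((G.shp al).filter (fun x => x.2 = v)).card := by
  have hpos : ∀ x ∈ G.iJ.filter (fun x => x.1 = v), 1 ≤ G.wt al x := fun x hx =>
    wt_pos9 G hR ha (Finset.mem_filter.1 hx).1
  by_cases h : ∃ a, (v, a) ∈ G.oJ
  · obtain ⟨c, hc⟩ := h
    have h1 : 1 ≤ (G.oJ.filter (fun x => x.1 = v)).card :=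
      Finset.card_pos.2 ⟨(v, c), Finset.mem_filter.2 ⟨hc, rfl⟩⟩
    rcases Nat.lt_or_ge (G.oJ.filter (fun x => x.1 = v)).card 2 with h2 | h2
    swap
    · omega
    have h3 := hdeg v hv
    have h4 := Finset.card_filter_add_card_filter_not
      (s := G.D.filter (fun x => x.1 = v ∧ G.con x.1 x.2)) (fun x => G.inn x)
    have e1 : (G.D.filter (fun x => x.1 = v ∧ G.con x.1 x.2)).filter (fun x => ¬ G.inn x) =
        G.oJ.filter (fun x => x.1 = v) := by
      ext x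
      rw [Finset.mem_filter, Finset.mem_filter, Finset.mem_filter, mem_oJ9]
      tauto
    have e2 : (G.D.filter (fun x => x.1 = v ∧ G.con x.1 x.2)).filter (fun x => G.inn x) =
        G.iJ.filter (fun x => x.1 = v) := by
      ext x
      rw [Finset.mem_filter, Finset.mem_filter, Finset.mem_filter, mem_iJ9]
      constructor
      · rintro ⟨⟨_, h5, h6⟩, h7⟩
        exact ⟨⟨h7, h6⟩, h5⟩
      · rintro ⟨⟨h7, h6⟩, h5⟩
        exact ⟨⟨G.sub h7.1, h5, h6⟩, h7⟩
    rw [e1, e2] at h4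
    have h5 : (G.iJ.filter (fun x => x.1 = v)).card ≤
        ∑ x ∈ G.iJ.filter (fun x => x.1 = v), G.wt al x := by
      rw [Finset.card_eq_sum_ones]
      exact Finset.sum_le_sum hpos
    by_cases h6 : 3 ≤ ∑ x ∈ G.iJ.filter (fun x => x.1 = v), G.wt al x
    · omega
    · -- two units: the sector is sharp
      have h7 : 0 < (G.iJ.filter (fun x => x.1 = v)).card := by omega
      obtain ⟨⟨y1, y2⟩, hy⟩ := Finset.card_pos.1 h7
      rw [Finset.mem_filter, mem_iJ9] at hy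
      obtain ⟨⟨hy1, hy2⟩, hy3⟩ := hy
      simp only at hy3
      subst hy3
      have h8 := hd_mem9 G hR hc hy1
      have h9 : G.hd (y1, y2) ∈ (G.shp al).filter (fun x => x.2 = y1) := by
        rw [Finset.mem_filter]
        unfold Tg.shp
        rw [Finset.mem_filter]
        refine ⟨⟨h8.1, ?_⟩, h8.2⟩
        refine le_trans ?_ (show ∑ x ∈ G.iJ.filter (fun x => x.1 = y1), G.wt al x ≤ 2 by omega)
        unfold Tg.secW
        apply Finset.sum_le_sum_of_subset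
        intro z hz
        unfold Tg.secs at hz
        rw [Finset.mem_filter, Finset.mem_filter, mem_iD9, h8.2] at hz
        rw [Finset.mem_filter, mem_iJ9]
        exact ⟨⟨hz.1.1, hz.2⟩, hz.1.2.1⟩
      have h10 : 0 < ((G.shp al).filter (fun x => x.2 = y1)).card := Finset.card_pos.2 ⟨_, h9⟩
      omega
  · have h1 := point_sum9 G hR hv h (htot v hv h)
    have h2 : 2 * Real.pi ≤ al * ((∑ x ∈ G.iJ.filter (fun x => x.1 = v), G.wt al x : ℕ) : ℝ) := by
      rw [← h1, Nat.cast_sum, Finset.mul_sum]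
      exact Finset.sum_le_sum fun y _ => gp_le_wt9 G ha y
    have h3 : (6 : ℝ) < ((∑ x ∈ G.iJ.filter (fun x => x.1 = v), G.wt al x : ℕ) : ℝ) := by
      by_contra hcon
      rw [not_lt] at hcon
      nlinarith
    have h4 : 6 < ∑ x ∈ G.iJ.filter (fun x => x.1 = v), G.wt al x := by exact_mod_cast h3
    omega

/-- row (f), units: `7 n ≤ 4 b0 + s + sum of the units` -/
theorem units9 (hR : G.Rot9) (ha : 0 < al) (ha3 : 3 * al < Real.pi)
    (hdeg : ∀ v ∈ G.P, 3 ≤ (G.D.filter (fun x => x.1 = v ∧ G.con x.1 x.2)).card)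
    (htot : ∀ v ∈ G.P, (¬ ∃ a, (v, a) ∈ G.oJ) →
      ∑ x ∈ G.D.filter (fun x => x.1 = v), G.th x.1 x.2 = 2 * Real.pi) :
    7 * G.P.card ≤ 4 * G.oJ.card + (G.shp al).card + ∑ x ∈ G.iJ, G.wt al x := by
  have h1 : ∑ v ∈ G.P, (G.oJ.filter (fun x => x.1 = v)).card = G.oJ.card :=
    (Finset.card_eq_sum_card_fiberwise (f := Prod.fst) (t := G.P) (fun x hx =>
      G.mem x.1 x.2 ((mem_oJ9 G).1 hx).1)).symm
  have h2 : ∑ v ∈ G.P, ((G.shp al).filter (fun x => x.2 = v)).card = (G.shp al).card :=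
    (Finset.card_eq_sum_card_fiberwise (f := Prod.snd) (t := G.P) (fun x hx => by
      have h3 : x ∈ G.iB := by
        have h4 : x ∈ G.shp al := hx
        unfold Tg.shp at h4
        exact (Finset.mem_filter.1 h4).1
      exact G.mem x.2 x.1 (G.symm _ _ (G.sub ((mem_iB9 G).1 h3).1.1)))).symm
  have h3 : ∑ v ∈ G.P, ∑ x ∈ G.iJ.filter (fun x => x.1 = v), G.wt al x =
      ∑ x ∈ G.iJ, G.wt al x :=
    Finset.sum_fiberwise_of_maps_to (fun x hx =>
      G.mem x.1 x.2 (G.sub ((mem_iJ9 G).1 hx).1.1)) _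
  have h4 : ∑ v ∈ G.P, 7 ≤ ∑ v ∈ G.P, (4 * (G.oJ.filter (fun x => x.1 = v)).card +
      ∑ x ∈ G.iJ.filter (fun x => x.1 = v), G.wt al x +
      ((G.shp al).filter (fun x => x.2 = v)).card) :=
    Finset.sum_le_sum fun v hv => L9 G hR ha ha3 hdeg htot hv
  rw [Finset.sum_add_distrib, Finset.sum_add_distrib, ← Finset.mul_sum, h1, h2, h3,
    Finset.sum_const, smul_eq_mul] at h4
  omega

/-- the points with an outer contact dart -/
theorem out_card9 : (G.P.filter (fun v => ∃ a, (v, a) ∈ G.oJ)).card ≤ G.oJ.card := by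
  refine le_trans (Finset.card_le_card (?_ : _ ⊆ G.oJ.image Prod.fst)) Finset.card_image_le
  intro v hv
  rw [Finset.mem_filter] at hv
  obtain ⟨_, a, ha⟩ := hv
  exact Finset.mem_image.2 ⟨(v, a), ha, rfl⟩

/-- row (f), angles -/
theorem ang9 (hR : G.Rot9) (ha : 0 < al) (ha3 : 3 * al < Real.pi) (ha7 : 2 * Real.pi < 7 * al)
    (htot : ∀ v ∈ G.P, (¬ ∃ a, (v, a) ∈ G.oJ) →
      ∑ x ∈ G.D.filter (fun x => x.1 = v), G.th x.1 x.2 = 2 * Real.pi) :
    (7 * al - 2 * Real.pi) * ((G.P.card : ℝ) - G.oJ.card) + ∑ x ∈ G.iD, G.th x.1 x.2 ≤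
      al * ((∑ x ∈ G.iJ, G.wt al x : ℕ) : ℝ) := by
  have h3 : ∑ v ∈ G.P, ∑ x ∈ G.iJ.filter (fun x => x.1 = v), (al * (G.wt al x : ℝ) - G.gp x) =
      ∑ x ∈ G.iJ, (al * (G.wt al x : ℝ) - G.gp x) :=
    Finset.sum_fiberwise_of_maps_to (fun x hx =>
      G.mem x.1 x.2 (G.sub ((mem_iJ9 G).1 hx).1.1)) _
  have h4 : ∑ v ∈ G.P.filter (fun v => ¬ ∃ a, (v, a) ∈ G.oJ), (7 * al - 2 * Real.pi) ≤
      ∑ v ∈ G.P, ∑ x ∈ G.iJ.filter (fun x => x.1 = v), (al * (G.wt al x : ℝ) - G.gp x) := by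
    refine le_trans (Finset.sum_le_sum (g := fun v =>
      ∑ x ∈ G.iJ.filter (fun x => x.1 = v), (al * (G.wt al x : ℝ) - G.gp x)) ?_)
      (Finset.sum_le_sum_of_subset_of_nonneg (Finset.filter_subset _ _) ?_)
    · intro v hv
      obtain ⟨hv1, hv2⟩ := Finset.mem_filter.1 hv
      have h1 := point_sum9 G hR hv1 hv2 (htot v hv1 hv2)
      have h2 : 2 * Real.pi ≤ al * ((∑ x ∈ G.iJ.filter (fun x => x.1 = v), G.wt al x : ℕ) : ℝ) := by
        rw [← h1, Nat.cast_sum, Finset.mul_sum]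
        exact Finset.sum_le_sum fun y _ => gp_le_wt9 G ha y
      have h5 : (6 : ℝ) < ((∑ x ∈ G.iJ.filter (fun x => x.1 = v), G.wt al x : ℕ) : ℝ) := by
        by_contra hcon
        rw [not_lt] at hcon
        nlinarith
      have h6 : 7 ≤ ∑ x ∈ G.iJ.filter (fun x => x.1 = v), G.wt al x := by
        have : 6 < ∑ x ∈ G.iJ.filter (fun x => x.1 = v), G.wt al x := by exact_mod_cast h5
        omega
      have h7 : (7 : ℝ) ≤ ((∑ x ∈ G.iJ.filter (fun x => x.1 = v), G.wt al x : ℕ) : ℝ) := by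
        exact_mod_cast h6
      show 7 * al - 2 * Real.pi ≤ ∑ x ∈ G.iJ.filter (fun x => x.1 = v),
        (al * (G.wt al x : ℝ) - G.gp x)
      rw [Finset.sum_sub_distrib, h1, ← Finset.mul_sum, ← Nat.cast_sum]
      nlinarith
    · intro v _ _
      apply Finset.sum_nonneg
      intro x _
      have := gp_le_wt9 G ha x
      linarith
  have h0 : ∑ x ∈ G.iJ, (al * (G.wt al x : ℝ) - G.gp x) =
      al * ((∑ x ∈ G.iJ, G.wt al x : ℕ) : ℝ) - ∑ x ∈ G.iD, G.th x.1 x.2 := by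
    rw [Finset.sum_sub_distrib, sum_gp_all9 G hR, ← Finset.mul_sum, ← Nat.cast_sum]
  rw [h3, h0, Finset.sum_const, nsmul_eq_mul] at h4
  have h5 := Finset.card_filter_add_card_filter_not (s := G.P) (fun v => ∃ a, (v, a) ∈ G.oJ)
  have h6 := out_card9 G
  have h7 : (G.P.card : ℝ) - G.oJ.card ≤
      ((G.P.filter (fun v => ¬ ∃ a, (v, a) ∈ G.oJ)).card : ℝ) := by
    have : G.P.card ≤ G.oJ.card + (G.P.filter (fun v => ¬ ∃ a, (v, a) ∈ G.oJ)).card := by omega
    have h8 : (G.P.card : ℝ) ≤ G.oJ.card +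
        (G.P.filter (fun v => ¬ ∃ a, (v, a) ∈ G.oJ)).card := by exact_mod_cast this
    linarith
  nlinarith

/-! ### the structure `Geo` -/

variable {kp : V → V → ℝ} {U : ℕ → ℝ}

theorem rot9 (hG : G.Geo al kp U) : G.Rot9 where
  inv := by
    intro v hv S hne hS a ha
    have hb : ¬ G.bd v := fun hb => hG.bdno v hv hb S hne hS
    by_contra hna
    have h1 := hG.turn v hv hb S hne (fun c hc => G.sub (hS c hc).1) (fun c hc => (hS c hc).2)
    have h2 := hG.tot v hv hb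
    have hinj : Set.InjOn (fun c : V => ((v, c) : V × V)) (S : Set V) := by
      intro c _ c' _ h
      exact congrArg Prod.snd h
    have h3 : ∑ c ∈ S, G.th v c = ∑ x ∈ S.image (fun c => ((v, c) : V × V)), G.th x.1 x.2 := by
      rw [Finset.sum_image hinj]
    have h4 : ∑ x ∈ S.image (fun c => ((v, c) : V × V)), G.th x.1 x.2 <
        ∑ x ∈ G.D.filter (fun x => x.1 = v), G.th x.1 x.2 := by
      apply Finset.sum_lt_sum_of_subset (i := (v, a))
      · intro x hx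
        obtain ⟨c, hc, rfl⟩ := Finset.mem_image.1 hx
        exact Finset.mem_filter.2 ⟨G.sub (hS c hc).1, rfl⟩
      · exact Finset.mem_filter.2 ⟨ha, rfl⟩
      · intro hx
        obtain ⟨c, hc, hc2⟩ := Finset.mem_image.1 hx
        have : c = a := congrArg Prod.snd hc2
        exact hna (this ▸ hc)
      · exact G.thpos _ _ (G.int1 _ _ hv hb ha)
      · rintro ⟨x1, x2⟩ hx _
        obtain ⟨hx1, hx2⟩ := Finset.mem_filter.1 hx
        simp only at hx2
        subst hx2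
        exact (G.thpos _ _ (G.int1 _ _ hv hb hx1)).le
    linarith
  ex := fun v hv => con_ex66 G hG hv

theorem tot9 (hG : G.Geo al kp U) : ∀ v ∈ G.P, (¬ ∃ a, (v, a) ∈ G.oJ) →
    ∑ x ∈ G.D.filter (fun x => x.1 = v), G.th x.1 x.2 = 2 * Real.pi := by
  intro v hv h
  by_cases hb : G.bd v
  · exact absurd (bd_oJ G hG hv hb) h
  · exact hG.tot v hv hb

end D

end

end Pool.Agent.PEN
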