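import Pool.Agent.P4.Defs

/-! # Closed walks, balanced sets of darts and the isoperimetric sum (row Q)

`kap` is an antisymmetric function of two points. The sum of `kap` over a closed walk with `b` steps
is a sum of terms `kap v₀ vᵢ + kap vᵢ vᵢ₊₁ + kap vᵢ₊₁ v₀`; if these are bounded by `u i` and by
`u (b - 1 - i)`, the sum is at most `Uw u b`. A balanced finite set of darts is a disjoint union of
closed walks, and `Uw` is superadditive. -/

set_option autoImplicit false

namespace Pool.Agent.PEN

open Classical UpperHalfPlane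

noncomputable section

theorem Uw_nonneg11 {u : ℕ → ℝ} (hu0 : ∀ i, 0 ≤ u i) (b : ℕ) : 0 ≤ Uw u b :=
  Finset.sum_nonneg fun _ _ => hu0 _

theorem Uw_mono11 {u : ℕ → ℝ} (hu0 : ∀ i, 0 ≤ u i) {a b : ℕ} (h : a ≤ b) :
    Uw u a ≤ Uw u b := by
  unfold Uw
  apply Finset.sum_le_sum_of_subset_of_nonneg
  · intro i hi
    simp only [Finset.mem_range] at hi ⊢
    omega
  · intro i _ _
    exact hu0 _

/-- `Uw` is superadditive -/
theorem Uw_add11 {u : ℕ → ℝ} (hu0 : ∀ i, 0 ≤ u i)
    (hum : Monotone u) (x y : ℕ) : Uw u x + Uw u y ≤ Uw u (x + y) := by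
  by_cases hx : x < 2
  · have h0 : Uw u x = 0 := by
      unfold Uw
      have : x - 2 = 0 := by omega
      rw [this]
      simp
    rw [h0, zero_add]
    exact Uw_mono11 hu0 (by omega)
  · have h1 : Uw u (x + y) = Uw u x + ∑ i ∈ Finset.range y, u ((x - 2 + i) / 2 + 1) := by
      unfold Uw
      have h2 : x + y - 2 = (x - 2) + y := by omega
      rw [h2, Finset.sum_range_add]
    have h3 : Uw u y ≤ ∑ i ∈ Finset.range y, u ((x - 2 + i) / 2 + 1) := by
      unfold Uw
      calc ∑ i ∈ Finset.range (y - 2), u (i / 2 + 1)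
          ≤ ∑ i ∈ Finset.range y, u (i / 2 + 1) := by
            apply Finset.sum_le_sum_of_subset_of_nonneg
            · intro i hi
              simp only [Finset.mem_range] at hi ⊢
              omega
            · intro i _ _
              exact hu0 _
        _ ≤ _ := by
            apply Finset.sum_le_sum
            intro i _
            apply hum
            omega
    rw [h1]
    linarith

/-- Q3 -/
theorem Uw_props (u : ℕ → ℝ) (h0 : ∀ i, 0 ≤ u i) (hm : Monotone u) :
    Uw u 0 = 0 ∧ Monotone (Uw u) ∧ ∀ a b, Uw u a + Uw u b ≤ Uw u (a + b) :=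
  ⟨by simp [Uw], fun _ _ h => Uw_mono11 h0 h, fun a b => Uw_add11 h0 hm a b⟩

/-- the multiset `min (i+1) (m-i)`, `i < m`, is `1, 1, 2, 2, …` -/
theorem sum_min_eq11 (m : ℕ) : ∀ u : ℕ → ℝ, ∑ i ∈ Finset.range m, u (min (i + 1) (m - i)) =
    ∑ i ∈ Finset.range m, u (i / 2 + 1) := by
  induction m using Nat.strong_induction_on with
  | _ m ih =>
    intro u
    rcases m with _ | _ | m
    · simp
    · simp
    · have hL : ∑ i ∈ Finset.range (m + 2), u (min (i + 1) (m + 2 - i)) =
          2 * u 1 + ∑ i ∈ Finset.range m, u (min (i + 1) (m - i) + 1) := by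
        rw [Finset.sum_range_succ, Finset.sum_range_succ']
        have e1 : ∀ i ∈ Finset.range m, u (min (i + 1 + 1) (m + 2 - (i + 1))) =
            u (min (i + 1) (m - i) + 1) := by
          intro i hi
          have := Finset.mem_range.mp hi
          congr 1
          omega
        rw [Finset.sum_congr rfl e1]
        have e2 : min (0 + 1) (m + 2 - 0) = 1 := by omega
        have e3 : min (m + 1 + 1) (m + 2 - (m + 1)) = 1 := by omega
        rw [e2, e3]
        ring
      have hR : ∑ i ∈ Finset.range (m + 2), u (i / 2 + 1) =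
          2 * u 1 + ∑ i ∈ Finset.range m, u (i / 2 + 1 + 1) := by
        rw [Finset.sum_range_succ', Finset.sum_range_succ']
        have e1 : ∀ i ∈ Finset.range m, u ((i + 1 + 1) / 2 + 1) = u (i / 2 + 1 + 1) := by
          intro i _
          congr 1
          omega
        rw [Finset.sum_congr rfl e1]
        norm_num
        ring
      rw [hL, hR, ih m (by omega) (fun j => u (j + 1))]

/-- **closed walk**: the sum of an antisymmetric function over a closed walk with `b` steps -/
theorem walk_le_gen11 {V : Type} {kap : V → V → ℝ} (hk : ∀ a b, kap a b = - kap b a) {u : ℕ → ℝ}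
    (v : ℕ → V) (b : ℕ) (hb : v b = v 0)
    (h1 : ∀ i, 1 ≤ i → i + 2 ≤ b →
      kap (v 0) (v i) + kap (v i) (v (i + 1)) + kap (v (i + 1)) (v 0) ≤ u i)
    (h2 : ∀ i, 1 ≤ i → i + 2 ≤ b →
      kap (v 0) (v i) + kap (v i) (v (i + 1)) + kap (v (i + 1)) (v 0) ≤ u (b - 1 - i)) :
    ∑ i ∈ Finset.range b, kap (v i) (v (i + 1)) ≤ Uw u b := by
  have h00 : ∀ x, kap x x = 0 := fun x => by have := hk x x; linarith
  set S : ℕ → ℝ := fun i => kap (v 0) (v i) + kap (v i) (v (i + 1)) + kap (v (i + 1)) (v 0) with hS
  have hsum : ∑ i ∈ Finset.range b, kap (v i) (v (i + 1)) = ∑ i ∈ Finset.range b, S i := by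
    have e : ∀ i ∈ Finset.range b, S i =
        kap (v i) (v (i + 1)) - (kap (v 0) (v (i + 1)) - kap (v 0) (v i)) := by
      intro i _
      simp only [hS]
      rw [hk (v (i + 1)) (v 0)]
      ring
    rw [Finset.sum_congr rfl e, Finset.sum_sub_distrib,
      Finset.sum_range_sub (fun i => kap (v 0) (v i)) b, hb, h00]
    ring
  rw [hsum]
  rcases Nat.lt_or_ge b 2 with hb2 | hb2
  · have : b = 0 ∨ b = 1 := by omega
    rcases this with rfl | rfl
    · simp [Uw]
    · have hU1 : Uw u 1 = 0 := by simp [Uw]
      simp only [Finset.range_one, Finset.sum_singleton, hU1]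
      simp only [hS]
      rw [zero_add, hb, h00]
      simp
  · obtain ⟨m, rfl⟩ : ∃ m, b = m + 2 := ⟨b - 2, by omega⟩
    rw [Finset.sum_range_succ, Finset.sum_range_succ']
    have e0 : S 0 = 0 := by
      simp only [hS]
      rw [h00, zero_add, zero_add, hk (v 1) (v 0)]
      ring
    have e1 : S (m + 1) = 0 := by
      simp only [hS]
      have : v (m + 1 + 1) = v 0 := hb
      rw [this, h00, hk (v (m + 1)) (v 0)]
      ring
    rw [e0, e1, add_zero, add_zero]
    have e2 : Uw u (m + 2) = ∑ i ∈ Finset.range m, u (min (i + 1) (m - i)) := by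
      rw [sum_min_eq11]
      unfold Uw
      congr 1
    rw [e2]
    apply Finset.sum_le_sum
    intro i hi
    have hi' := Finset.mem_range.mp hi
    rcases le_total (i + 1) (m - i) with h | h
    · rw [min_eq_left h]
      exact h1 (i + 1) (by omega) (by omega)
    · rw [min_eq_right h]
      have h3 := h2 (i + 1) (by omega) (by omega)
      have h4 : m + 2 - 1 - (i + 1) = m - i := by omega
      rw [h4] at h3
      exact h3

/-! ### Balanced sets of darts -/

/-- in a balanced set every dart has a successor, bijectively -/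
theorem bal_perm11 {V : Type} {B : Finset (V × V)}
    (hB : ∀ v, (B.filter (fun x => x.1 = v)).card = (B.filter (fun x => x.2 = v)).card) :
    ∃ σ : Equiv.Perm {x // x ∈ B}, ∀ x, (σ x).1.1 = x.1.2 := by
  have he : ∀ v : V, Nonempty ({x : {x // x ∈ B} // x.1.2 = v} ≃ {x : {x // x ∈ B} // x.1.1 = v}) := by
    intro v
    apply Fintype.card_eq.mp
    rw [Fintype.card_subtype, Fintype.card_subtype]
    have h1 : ((Finset.univ : Finset {x // x ∈ B}).filter (fun x => x.1.2 = v)).card =
        (B.filter (fun x => x.2 = v)).card := by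
      apply Finset.card_bij (fun x _ => x.1)
      · intro x hx
        simp only [Finset.mem_filter, Finset.mem_univ, true_and] at hx ⊢
        exact ⟨x.2, hx⟩
      · intro x _ y _ h
        exact Subtype.ext h
      · intro x hx
        simp only [Finset.mem_filter] at hx
        exact ⟨⟨x, hx.1⟩, by simp [hx.2], rfl⟩
    have h2 : ((Finset.univ : Finset {x // x ∈ B}).filter (fun x => x.1.1 = v)).card =
        (B.filter (fun x => x.1 = v)).card := by
      apply Finset.card_bij (fun x _ => x.1)
      · intro x hx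
        simp only [Finset.mem_filter, Finset.mem_univ, true_and] at hx ⊢
        exact ⟨x.2, hx⟩
      · intro x _ y _ h
        exact Subtype.ext h
      · intro x hx
        simp only [Finset.mem_filter] at hx
        exact ⟨⟨x, hx.1⟩, by simp [hx.2], rfl⟩
    rw [h1, h2, hB v]
  let e := fun v => (he v).some
  refine ⟨(Equiv.sigmaFiberEquiv (fun x : {x // x ∈ B} => x.1.2)).symm.trans
    ((Equiv.sigmaCongrRight e).trans (Equiv.sigmaFiberEquiv (fun x : {x // x ∈ B} => x.1.1))), ?_⟩
  intro x
  exact (e x.1.2 ⟨x, rfl⟩).2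

/-- Q2: a balanced set of darts is a union of closed walks -/
theorem bal_sum {V : Type} (B : Finset (V × V)) (f : V → V → ℝ) (U : ℕ → ℝ) (hU0 : U 0 = 0)
    (hUs : ∀ a b, U a + U b ≤ U (a + b))
    (hw : ∀ (v : ℕ → V) (b : ℕ), v b = v 0 → (∀ i < b, (v i, v (i + 1)) ∈ B) →
      ∑ i ∈ Finset.range b, f (v i) (v (i + 1)) ≤ U b)
    (hb : ∀ v, (B.filter (fun x => x.1 = v)).card = (B.filter (fun x => x.2 = v)).card) :
    ∑ x ∈ B, f x.1 x.2 ≤ U B.card := by
  obtain ⟨σ, hσ⟩ := bal_perm11 hb
  have key : ∀ n : ℕ, ∀ S : Finset {x // x ∈ B}, S.card = n → (∀ x ∈ S, σ x ∈ S) →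
      ∑ x ∈ S, f x.1.1 x.1.2 ≤ U n := by
    intro n
    induction n using Nat.strong_induction_on with
    | _ n ih =>
      intro S hS hinv
      rcases S.eq_empty_or_nonempty with rfl | ⟨x, hx⟩
      · simp only [Finset.sum_empty]
        rw [← hS, Finset.card_empty, hU0]
      · have hper : x ∈ Function.periodicPts σ := by
          obtain ⟨k, hk0, hk⟩ := (isOfFinOrder_of_finite σ).exists_pow_eq_one
          refine Function.mk_mem_periodicPts hk0 ?_
          show σ^[k] x = x
          have : (σ ^ k) x = x := by rw [hk]; rfl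
          rwa [Equiv.Perm.coe_pow] at this
        set p := Function.minimalPeriod σ x with hp
        have hppos : 0 < p := Function.minimalPeriod_pos_of_mem_periodicPts hper
        have hpx : σ^[p] x = x := Function.iterate_minimalPeriod
        set O : Finset {x // x ∈ B} := (Finset.range p).image (fun i => σ^[i] x) with hO
        have hinj : ∀ i ∈ Finset.range p, ∀ j ∈ Finset.range p, σ^[i] x = σ^[j] x → i = j := by
          intro i hi j hj hij
          exact (Function.iterate_eq_iterate_iff_of_lt_minimalPeriod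
            (Finset.mem_range.mp hi) (Finset.mem_range.mp hj)).mp hij
        have hOc : O.card = p := by
          rw [hO, Finset.card_image_of_injOn, Finset.card_range]
          intro i hi j hj hij
          exact hinj i (by simpa using hi) j (by simpa using hj) hij
        have hiter : ∀ i, σ^[i] x ∈ S := by
          intro i
          induction i with
          | zero => exact hx
          | succ i ihi =>
            rw [Function.iterate_succ_apply']
            exact hinv _ ihi
        have hOS : O ⊆ S := by
          intro y hy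
          simp only [hO, Finset.mem_image] at hy
          obtain ⟨i, _, rfl⟩ := hy
          exact hiter i
        have hsumO : ∑ y ∈ O, f y.1.1 y.1.2 ≤ U p := by
          rw [hO, Finset.sum_image hinj]
          have h3 := hw (fun i => (σ^[i] x).1.1) p (by simp only [hpx, Function.iterate_zero, id])
            (by
              intro i _
              have : (σ^[i + 1] x).1.1 = (σ^[i] x).1.2 := by
                rw [Function.iterate_succ_apply']
                exact hσ _
              rw [this]
              exact (σ^[i] x).2)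
          refine le_trans (le_of_eq ?_) h3
          apply Finset.sum_congr rfl
          intro i _
          have : (σ^[i + 1] x).1.1 = (σ^[i] x).1.2 := by
            rw [Function.iterate_succ_apply']
            exact hσ _
          rw [this]
        have hinv' : ∀ y ∈ S \ O, σ y ∈ S \ O := by
          intro y hy
          rw [Finset.mem_sdiff] at hy ⊢
          refine ⟨hinv y hy.1, fun h => hy.2 ?_⟩
          simp only [hO, Finset.mem_image, Finset.mem_range] at h ⊢
          obtain ⟨i, hi, hi2⟩ := h
          rcases i with _ | i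
          · refine ⟨p - 1, by omega, ?_⟩
            apply σ.injective
            have h4 : σ (σ^[p - 1] x) = σ^[p - 1 + 1] x := (Function.iterate_succ_apply' _ _ _).symm
            rw [h4]
            have h5 : p - 1 + 1 = p := by omega
            rw [h5, hpx]
            exact hi2
          · refine ⟨i, by omega, ?_⟩
            apply σ.injective
            rw [← hi2, Function.iterate_succ_apply']
        have hcard : (S \ O).card = n - p := by
          rw [Finset.card_sdiff_of_subset hOS, hOc, hS]
        have hpn : p ≤ n := by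
          rw [← hOc, ← hS]
          exact Finset.card_le_card hOS
        have h6 := ih (n - p) (by omega) (S \ O) hcard hinv'
        have h7 : ∑ y ∈ S, f y.1.1 y.1.2 =
            ∑ y ∈ S \ O, f y.1.1 y.1.2 + ∑ y ∈ O, f y.1.1 y.1.2 :=
          (Finset.sum_sdiff hOS).symm
        rw [h7]
        have h8 := hUs (n - p) p
        have h9 : n - p + p = n := by omega
        rw [h9] at h8
        linarith
  have h := key B.card Finset.univ (by simp) (fun x _ => Finset.mem_univ _)
  have h2 : ∑ x ∈ B, f x.1 x.2 = ∑ x : {x // x ∈ B}, f x.1.1 x.1.2 :=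
    (Finset.sum_coe_sort B (fun x => f x.1 x.2)).symm
  rw [h2]
  exact h

theorem bal_three {V : Type} (B : Finset (V × V)) (hne : B.Nonempty)
    (h1 : ∀ x ∈ B, x.1 ≠ x.2) (h2 : ∀ x ∈ B, (x.2, x.1) ∉ B)
    (hb : ∀ v, (B.filter (fun x => x.1 = v)).card = (B.filter (fun x => x.2 = v)).card) :
    3 ≤ B.card := by
  have nxt : ∀ x ∈ B, ∃ y ∈ B, y.1 = x.2 := by
    intro x hx
    have h3 : 0 < (B.filter (fun y => y.2 = x.2)).card :=
      Finset.card_pos.mpr ⟨x, Finset.mem_filter.mpr ⟨hx, rfl⟩⟩
    rw [← hb] at h3
    obtain ⟨y, hy⟩ := Finset.card_pos.mp h3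
    exact ⟨y, (Finset.mem_filter.mp hy).1, (Finset.mem_filter.mp hy).2⟩
  obtain ⟨x, hx⟩ := hne
  obtain ⟨y, hy, hyx⟩ := nxt x hx
  obtain ⟨z, hz, hzy⟩ := nxt y hy
  have hxy : x ≠ y := by
    rintro rfl
    exact h1 x hx hyx
  have hyz : y ≠ z := by
    rintro rfl
    exact h1 y hy hzy
  have hxz : x ≠ z := by
    rintro rfl
    apply h2 x hx
    have : y = (x.2, x.1) := Prod.ext hyx hzy.symm
    rwa [this] at hy
  have hsub : ({x, y, z} : Finset (V × V)) ⊆ B := by
    intro w hw
    simp only [Finset.mem_insert, Finset.mem_singleton] at hw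
    rcases hw with rfl | rfl | rfl
    · exact hx
    · exact hy
    · exact hz
  have hc : ({x, y, z} : Finset (V × V)).card = 3 := by
    rw [Finset.card_insert_of_notMem, Finset.card_insert_of_notMem, Finset.card_singleton]
    · simpa using hyz
    · simp only [Finset.mem_insert, Finset.mem_singleton, not_or]
      exact ⟨hxy, hxz⟩
  rw [← hc]
  exact Finset.card_le_card hsub

/-! ### the bounds `uu` -/

theorem tanh_mono11 {x y : ℝ} (h : x ≤ y) : Real.tanh x ≤ Real.tanh y := by
  rw [← Real.artanh_le_artanh_iff ⟨Real.neg_one_lt_tanh x, Real.tanh_lt_one x⟩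
    ⟨Real.neg_one_lt_tanh y, Real.tanh_lt_one y⟩, Real.artanh_tanh, Real.artanh_tanh]
  exact h

theorem tanh_nonneg11 {x : ℝ} (h : 0 ≤ x) : 0 ≤ Real.tanh x := by
  have := tanh_mono11 h
  rwa [Real.tanh_zero] at this

theorem uu_nonneg {d : ℝ} (hd : 0 < d) (i : ℕ) : 0 ≤ uu d i := by
  unfold uu
  have h1 : 0 ≤ Real.tanh (d / 2) := tanh_nonneg11 (by positivity)
  have h2 : 0 ≤ Real.tanh (i * d / 2) := tanh_nonneg11 (by positivity)
  have := Real.arcsin_nonneg.mpr (mul_nonneg h1 h2)
  linarith

theorem uu_mono {d : ℝ} (hd : 0 < d) : Monotone (uu d) := by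
  intro i j hij
  unfold uu
  have h1 : 0 ≤ Real.tanh (d / 2) := tanh_nonneg11 (by positivity)
  have hc : (i : ℝ) ≤ j := by exact_mod_cast hij
  have h2 : Real.tanh (i * d / 2) ≤ Real.tanh (j * d / 2) := tanh_mono11 (by
    have := mul_le_mul_of_nonneg_right hc hd.le
    linarith)
  have := Real.monotone_arcsin (mul_le_mul_of_nonneg_left h2 h1)
  linarith

theorem uu_le {d : ℝ} (hd : 0 < d) (i : ℕ) :
    uu d i ≤ 2 * Real.arcsin (Real.tanh (d / 2)) := by
  unfold uu
  have h1 : 0 ≤ Real.tanh (d / 2) := tanh_nonneg11 (by positivity)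
  have h2 : Real.tanh (i * d / 2) ≤ 1 := (Real.tanh_lt_one _).le
  have h3 : Real.tanh (d / 2) * Real.tanh (i * d / 2) ≤ Real.tanh (d / 2) := by
    nlinarith
  have := Real.monotone_arcsin h3
  linarith

/-- Q1, with the facts on `kap` (row P) as hypotheses -/
theorem walk_le_of11 {d : ℝ} (hd : 0 < d) (v : ℕ → ℍ) (b : ℕ) (h0 : v b = v 0)
    (h : ∀ i < b, dist (v i) (v (i + 1)) = d) (hanti : ∀ z w : ℍ, kap z w = - kap w z)
    (hS : ∀ a b c : ℍ, kap a b + kap b c + kap c a ≤
      2 * Real.arcsin (Real.tanh (dist a b / 2) * Real.tanh (dist a c / 2))) :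
    ∑ i ∈ Finset.range b, kap (v i) (v (i + 1)) ≤ Uw (uu d) b := by
  have h1 : 0 ≤ Real.tanh (d / 2) := tanh_nonneg11 (by positivity)
  have hfw : ∀ i, i ≤ b → dist (v 0) (v i) ≤ i * d := by
    intro i
    induction i with
    | zero => intro _; simp
    | succ i ih =>
      intro hi
      have h2 := ih (by omega)
      have h3 := dist_triangle (v 0) (v i) (v (i + 1))
      rw [h i (by omega)] at h3
      push_cast
      linarith
  have hbw : ∀ i, i ≤ b → dist (v (b - i)) (v 0) ≤ i * d := by
    intro i
    induction i with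
    | zero =>
      intro _
      rw [Nat.sub_zero, h0]
      simp
    | succ i ih =>
      intro hi
      have h2 := ih (by omega)
      have h3 := dist_triangle (v (b - (i + 1))) (v (b - i)) (v 0)
      have h4 : b - i = b - (i + 1) + 1 := by omega
      have h5 := h (b - (i + 1)) (by omega)
      rw [← h4] at h5
      rw [h5] at h3
      push_cast
      linarith
  apply walk_le_gen11 hanti v b h0
  · intro i hi1 hi2
    have h2 := hS (v i) (v (i + 1)) (v 0)
    rw [h i (by omega)] at h2
    have h3 : Real.tanh (dist (v i) (v 0) / 2) ≤ Real.tanh (i * d / 2) := tanh_mono11 (by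
      rw [dist_comm]
      have := hfw i (by omega)
      linarith)
    have h4 := Real.monotone_arcsin (mul_le_mul_of_nonneg_left h3 h1)
    unfold uu
    linarith
  · intro i hi1 hi2
    have h2 := hS (v (i + 1)) (v 0) (v i)
    have h3 : Real.tanh (dist (v (i + 1)) (v 0) / 2) ≤ Real.tanh ((b - 1 - i : ℕ) * d / 2) :=
      tanh_mono11 (by
        have h5 := hbw (b - 1 - i) (by omega)
        have h6 : b - (b - 1 - i) = i + 1 := by omega
        rw [h6] at h5
        linarith)
    have h4 := Real.monotone_arcsin (mul_le_mul_of_nonneg_left h3 h1)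
    rw [dist_comm (v (i + 1)) (v i), h i (by omega),
      mul_comm (Real.tanh (dist (v (i + 1)) (v 0) / 2))] at h2
    unfold uu
    linarith

end

end Pool.Agent.PEN
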