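import Pool.Agent.P4.Disp9
import Pool.Agent.P4.Q11

/-! # Dispersed isoperimetry for a set of darts with a successor -/

set_option autoImplicit false

namespace Pool.Agent.PEN

open Classical UpperHalfPlane

noncomputable section

/-- the pass of the dart `e` with successor map `σ` is sharp -/
def shd9 (al : ℝ) (σ : ℍ × ℍ → ℍ × ℍ) (e : ℍ × ℍ) : Prop :=
  0 < ang e.2 (σ e).2 e.1 ∧ ang e.2 (σ e).2 e.1 ≤ 2 * al

/-- a closed walk whose points are near the starting point -/
theorem near_walk9 {d q : ℝ} (hd : 0 < d) (v : ℕ → ℍ) (b : ℕ) (h0 : v b = v 0)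
    (h : ∀ i < b, dist (v i) (v (i + 1)) = d)
    (hq : ∀ i < b, Real.tanh (dist (v 0) (v i) / 2) ≤ q) :
    ∑ i ∈ Finset.range b, kap (v i) (v (i + 1)) ≤
      b * (2 * Real.arcsin (q * Real.tanh (d / 2))) := by
  rw [walk_fan51 v b h0]
  have h1 : ∑ i ∈ Finset.range b, S51 (v 0) (v i) (v (i + 1)) ≤
      ∑ _i ∈ Finset.range b, 2 * Real.arcsin (q * Real.tanh (d / 2)) := by
    apply Finset.sum_le_sum
    intro i hi
    have hi' := Finset.mem_range.1 hi
    have h2 := S51_le (v i) (v (i + 1)) (v 0)
    rw [S51_rot] at h2
    refine le_trans h2 ?_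
    have h3 := hq i hi'
    have h4 : 0 < Real.tanh (d / 2) := by
      rw [Real.tanh_eq_sinh_div_cosh]
      exact div_pos (Real.sinh_pos_iff.2 (by linarith)) (Real.cosh_pos _)
    have h5 : 2 * Real.arcsin (Real.tanh (dist (v i) (v (i + 1)) / 2) *
        Real.tanh (dist (v i) (v 0) / 2)) ≤ 2 * Real.arcsin (q * Real.tanh (d / 2)) := by
      have h6 : Real.tanh (dist (v i) (v (i + 1)) / 2) * Real.tanh (dist (v i) (v 0) / 2) ≤
          q * Real.tanh (d / 2) := by
        rw [h i hi', dist_comm (v i) (v 0), mul_comm]
        exact mul_le_mul_of_nonneg_right h3 h4.le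
      have := Real.monotone_arcsin h6
      linarith
    exact h5
  rw [Finset.sum_const, Finset.card_range, nsmul_eq_mul] at h1
  exact h1

theorem cyc_disp9 {d al q : ℝ} (hd : 0 < d) (ha0 : 0 < al)
    (ha : 2 * al ≤ Real.pi - g51 d) (hr : 2 * rho51 d al ≤ g51 d) (hr0 : 0 ≤ rho51 d al)
    (hK : 2 * rho51 d al ≤ 4 * Real.arcsin q)
    (hu : 2 * Real.arcsin (q * Real.tanh (d / 2)) ≤ g51 d - rho51 d al)
    (B : Finset (ℍ × ℍ)) (σ : ℍ × ℍ → ℍ × ℍ) (hσ : ∀ e ∈ B, σ e ∈ B)
    (hinj : Set.InjOn σ (B : Set (ℍ × ℍ))) (hstep : ∀ e ∈ B, (σ e).1 = e.2)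
    (hdist : ∀ e ∈ B, dist e.1 e.2 = d) :
    ∑ e ∈ B, kap e.1 e.2 ≤ B.card * (2 * Real.arcsin (q * Real.tanh (d / 2))) ∨
    ∑ e ∈ B, kap e.1 e.2 ≤ B.card * g51 d - (4 * Real.arcsin q - 2 * rho51 d al) -
      (B.filter (fun e => shd9 al σ e)).card * rho51 d al := by
  set u := 2 * Real.arcsin (q * Real.tanh (d / 2)) with hu_def
  set r := rho51 d al with hr_def
  set g := g51 d with hg_def
  set K := 4 * Real.arcsin q - 2 * r with hK_def
  have hK0 : 0 ≤ K := by rw [hK_def]; linarith
  -- the permutation
  obtain ⟨τ, hτ⟩ : ∃ τ : Equiv.Perm {x // x ∈ B}, ∀ x, (τ x).1 = σ x.1 := by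
    refine ⟨Equiv.ofBijective (fun x : {x // x ∈ B} => (⟨σ x.1, hσ x.1 x.2⟩ : {x // x ∈ B}))
      (Finite.injective_iff_bijective.1 ?_), fun x => rfl⟩
    intro x y hxy
    exact Subtype.ext (hinj x.2 y.2 (congrArg Subtype.val hxy))
  have key : ∀ n : ℕ, ∀ S : Finset {x // x ∈ B}, S.card = n → (∀ x ∈ S, τ x ∈ S) →
      (∑ x ∈ S, kap x.1.1 x.1.2 ≤ n * u ∨ ∑ x ∈ S, kap x.1.1 x.1.2 ≤ n * g - K -
        (S.filter (fun x => shd9 al σ x.1)).card * r) := by
    intro n
    induction n using Nat.strong_induction_on with
    | _ n ih =>
      intro S hS hinv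
      rcases S.eq_empty_or_nonempty with rfl | hne
      · left
        simp only [Finset.sum_empty]
        rw [← hS, Finset.card_empty, Nat.cast_zero, zero_mul]
      · -- choose the starting dart
        obtain ⟨x, hx, hx2⟩ : ∃ x ∈ S, ((∃ j : ℕ, q ≤ Real.tanh (dist x.1.1 (τ^[j] x).1.1 / 2)) ∨
            ∀ j : ℕ, Real.tanh (dist x.1.1 (τ^[j] x).1.1 / 2) ≤ q) := by
          obtain ⟨x, hx⟩ := hne
          refine ⟨x, hx, ?_⟩
          by_cases hex : ∃ j : ℕ, q ≤ Real.tanh (dist x.1.1 (τ^[j] x).1.1 / 2)
          · exact Or.inl hex
          · right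
            intro j
            by_contra hcon
            exact hex ⟨j, (lt_of_not_ge hcon).le⟩
        have hper : x ∈ Function.periodicPts τ := by
          obtain ⟨k, hk0, hk⟩ := (isOfFinOrder_of_finite τ).exists_pow_eq_one
          refine Function.mk_mem_periodicPts hk0 ?_
          show τ^[k] x = x
          have : (τ ^ k) x = x := by rw [hk]; rfl
          rwa [Equiv.Perm.coe_pow] at this
        set p := Function.minimalPeriod τ x with hp
        have hppos : 0 < p := Function.minimalPeriod_pos_of_mem_periodicPts hper
        have hpx : τ^[p] x = x := Function.iterate_minimalPeriod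
        set O : Finset {x // x ∈ B} := (Finset.range p).image (fun i => τ^[i] x) with hO
        have hinj' : ∀ i ∈ Finset.range p, ∀ j ∈ Finset.range p, τ^[i] x = τ^[j] x → i = j := by
          intro i hi j hj hij
          exact (Function.iterate_eq_iterate_iff_of_lt_minimalPeriod
            (Finset.mem_range.mp hi) (Finset.mem_range.mp hj)).mp hij
        have hinjO : Set.InjOn (fun i => τ^[i] x) (Finset.range p : Set ℕ) := by
          intro i hi j hj hij
          exact hinj' i (by simpa using hi) j (by simpa using hj) hij
        have hOc : O.card = p := by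
          rw [hO, Finset.card_image_of_injOn hinjO, Finset.card_range]
        have hiter : ∀ i, τ^[i] x ∈ S := by
          intro i
          induction i with
          | zero => exact hx
          | succ i ihi =>
            rw [Function.iterate_succ_apply']
            exact hinv _ ihi
        have hOS : O ⊆ S := by
          intro y hy
          simp only [hO, Finset.mem_image] at hy
          obtain ⟨i, _, rfl⟩ := hy
          exact hiter i
        -- the walk of the orbit
        obtain ⟨v, hv⟩ : ∃ v : ℕ → ℍ, ∀ i, v i = (τ^[i] x).1.1 := ⟨_, fun _ => rfl⟩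
        have hv2 : ∀ i, v (i + 1) = (τ^[i] x).1.2 := by
          intro i
          rw [hv, Function.iterate_succ_apply', hτ]
          exact hstep _ (τ^[i] x).2
        have hv0 : v p = v 0 := by rw [hv, hv, hpx]; rfl
        have hvd : ∀ i < p, dist (v i) (v (i + 1)) = d := by
          intro i _
          rw [hv2, hv]
          exact hdist _ (τ^[i] x).2
        have hsumO : ∑ y ∈ O, kap y.1.1 y.1.2 = ∑ i ∈ Finset.range p, kap (v i) (v (i + 1)) := by
          rw [hO, Finset.sum_image hinj']
          apply Finset.sum_congr rfl
          intro i _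
          rw [hv2, hv]
        have hsh : ∀ i, Sharp9 al v i ↔ shd9 al σ (τ^[i] x).1 := by
          intro i
          unfold Sharp9 shd9
          have e1 : v (i + 2) = (σ (τ^[i] x).1).2 := by
            rw [hv2 (i + 1), Function.iterate_succ_apply', hτ]
          rw [e1, hv2, hv]
        have hOcase : ∑ y ∈ O, kap y.1.1 y.1.2 ≤ p * u ∨ ∑ y ∈ O, kap y.1.1 y.1.2 ≤
            p * g - K - (O.filter (fun y => shd9 al σ y.1)).card * r := by
          rcases hx2 with ⟨j, hj⟩ | hall
          · right
            have h1 := closed_disp9 hd ha0 ha hr hr0 v p hv0 hvd (j % p)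
              (Nat.mod_lt _ hppos).le
            have h2 : v (j % p) = (τ^[j] x).1.1 := by
              rw [hv, hp, Function.iterate_mod_minimalPeriod_eq]
            have h3 : v 0 = x.1.1 := by rw [hv]; rfl
            rw [h2, h3] at h1
            have h4 : 2 * Real.arcsin q ≤ g51 (dist x.1.1 (τ^[j] x).1.1) := by
              unfold g51
              have := Real.monotone_arcsin hj
              linarith
            have h5 : (O.filter (fun y => shd9 al σ y.1)).card ≤
                ((Finset.range (p - 1)).filter (fun i => Sharp9 al v i)).card + 1 := by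
              have hsub : O.filter (fun y => shd9 al σ y.1) ⊆
                  (((Finset.range (p - 1)).filter (fun i => Sharp9 al v i)) ∪ {p - 1}).image
                    (fun i => τ^[i] x) := by
                intro y hy
                obtain ⟨hy1, hy2⟩ := Finset.mem_filter.1 hy
                simp only [hO, Finset.mem_image] at hy1
                obtain ⟨i, hi, rfl⟩ := hy1
                have hi' := Finset.mem_range.1 hi
                refine Finset.mem_image.2 ⟨i, ?_, rfl⟩
                rw [Finset.mem_union, Finset.mem_filter, Finset.mem_singleton, Finset.mem_range]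
                by_cases h6 : i = p - 1
                · exact Or.inr h6
                · exact Or.inl ⟨by omega, (hsh i).2 hy2⟩
              refine le_trans (Finset.card_le_card hsub) (le_trans Finset.card_image_le ?_)
              refine le_trans (Finset.card_union_le _ _) ?_
              rw [Finset.card_singleton]
            have h6 : ((O.filter (fun y => shd9 al σ y.1)).card : ℝ) ≤
                ((Finset.range (p - 1)).filter (fun i => Sharp9 al v i)).card + 1 := by
              exact_mod_cast h5
            rw [hsumO, hK_def]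
            nlinarith
          · left
            rw [hsumO]
            refine near_walk9 hd v p hv0 hvd ?_
            intro i _
            rw [hv 0, hv i]
            exact hall i
        have hinvO : ∀ y ∈ S \ O, τ y ∈ S \ O := by
          intro y hy
          rw [Finset.mem_sdiff] at hy ⊢
          refine ⟨hinv y hy.1, fun h => hy.2 ?_⟩
          simp only [hO, Finset.mem_image, Finset.mem_range] at h ⊢
          obtain ⟨i, hi, hi2⟩ := h
          rcases i with _ | i
          · refine ⟨p - 1, by omega, ?_⟩
            apply τ.injective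
            have h4 : τ (τ^[p - 1] x) = τ^[p - 1 + 1] x := (Function.iterate_succ_apply' _ _ _).symm
            rw [h4]
            have h5 : p - 1 + 1 = p := by omega
            rw [h5, hpx]
            exact hi2
          · refine ⟨i, by omega, ?_⟩
            apply τ.injective
            rw [← hi2, Function.iterate_succ_apply']
        have hcard : (S \ O).card = n - p := by
          rw [Finset.card_sdiff_of_subset hOS, hOc, hS]
        have hpn : p ≤ n := by
          rw [← hOc, ← hS]
          exact Finset.card_le_card hOS
        have h6 := ih (n - p) (by omega) (S \ O) hcard hinvO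
        have h7 : ∑ y ∈ S, kap y.1.1 y.1.2 =
            ∑ y ∈ S \ O, kap y.1.1 y.1.2 + ∑ y ∈ O, kap y.1.1 y.1.2 :=
          (Finset.sum_sdiff hOS).symm
        have h8 : (S.filter (fun x => shd9 al σ x.1)).card =
            ((S \ O).filter (fun x => shd9 al σ x.1)).card +
            (O.filter (fun x => shd9 al σ x.1)).card := by
          rw [← Finset.card_union_of_disjoint]
          · rw [← Finset.filter_union, Finset.sdiff_union_of_subset hOS]
          · exact Finset.disjoint_filter_filter Finset.sdiff_disjoint
        have h8' : ((S.filter (fun x => shd9 al σ x.1)).card : ℝ) =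
            ((S \ O).filter (fun x => shd9 al σ x.1)).card +
            (O.filter (fun x => shd9 al σ x.1)).card := by exact_mod_cast h8
        have h9 : ((O.filter (fun x => shd9 al σ x.1)).card : ℝ) ≤ p := by
          rw [← hOc]
          exact_mod_cast Finset.card_filter_le _ _
        have h10 : (((S \ O).filter (fun x => shd9 al σ x.1)).card : ℝ) ≤ ((n - p : ℕ) : ℝ) := by
          rw [← hcard]
          exact_mod_cast Finset.card_filter_le _ _
        have h11 : ((n - p : ℕ) : ℝ) = (n : ℝ) - p := Nat.cast_sub hpn
        rw [h7, h8']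
        rw [h11] at h6 h10
        have hp0 : (0 : ℝ) ≤ p := Nat.cast_nonneg p
        have hnp0 : (0 : ℝ) ≤ (n : ℝ) - p := by
          rw [← h11]
          exact Nat.cast_nonneg _
        rcases h6 with h6 | h6
        · rcases hOcase with h12 | h12
          · left
            linarith
          · right
            have h13 : ((n : ℝ) - p) * u ≤ ((n : ℝ) - p) * (g - r) :=
              mul_le_mul_of_nonneg_left hu hnp0
            nlinarith
        · rcases hOcase with h12 | h12
          · right
            have h13 : (p : ℝ) * u ≤ (p : ℝ) * (g - r) := mul_le_mul_of_nonneg_left hu hp0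
            nlinarith
          · right
            linarith
  have h := key B.card Finset.univ (by simp) (fun x _ => Finset.mem_univ _)
  have h2 : ∑ x ∈ B, kap x.1 x.2 = ∑ x : {x // x ∈ B}, kap x.1.1 x.1.2 :=
    (Finset.sum_coe_sort B (fun x => kap x.1 x.2)).symm
  have h3 : ((Finset.univ : Finset {x // x ∈ B}).filter (fun x => shd9 al σ x.1)).card =
      (B.filter (fun e => shd9 al σ e)).card := by
    apply Finset.card_bij (fun x _ => x.1)
    · intro x hx
      exact Finset.mem_filter.2 ⟨x.2, (Finset.mem_filter.1 hx).2⟩
    · intro x _ y _ hxy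
      exact Subtype.ext hxy
    · intro x hx
      obtain ⟨h4, h5⟩ := Finset.mem_filter.1 hx
      exact ⟨⟨x, h4⟩, Finset.mem_filter.2 ⟨Finset.mem_univ _, h5⟩, rfl⟩
  rw [h3] at h
  rw [h2]
  exact h

end

end Pool.Agent.PEN
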