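import Pool.Agent.P4.B9b
import Pool.Agent.P4.Cyc9
import Pool.Agent.P4.DensC39

/-! # PENNY, version 4: sectors of a triangulated set, the sharp boundary darts -/

set_option autoImplicit false

namespace Pool.Agent.PEN

open Classical UpperHalfPlane

noncomputable section

/-- arguments along a chain of quotients -/
theorem arg_chain9 (z : ℕ → ℂ) (n : ℕ) (hz : ∀ i ≤ n, z i ≠ 0) :
    ((∑ i ∈ Finset.range n, Complex.arg (z i / z (i + 1)) : ℝ) : Real.Angle) =
      ((Complex.arg (z 0 / z n) : ℝ) : Real.Angle) := by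
  induction n with
  | zero =>
    rw [Finset.sum_range_zero, div_self (hz 0 le_rfl), Complex.arg_one]
  | succ n ih =>
    rw [Finset.sum_range_succ, Real.Angle.coe_add, ih (fun i hi => hz i (by omega))]
    have h0 := hz 0 (by omega)
    have h1 := hz n (by omega)
    have h2 := hz (n + 1) le_rfl
    rw [← Complex.arg_mul_coe_angle (div_ne_zero h0 h1) (div_ne_zero h1 h2)]
    congr 2
    field_simp

section D
variable {G : Tg ℍ} {d al : ℝ}

/-- the angle of a sector is the oriented angle if it is less than `π` -/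
theorem sec_ang9 (hD : DelG G d) (hR : G.Rot9) {x : ℍ × ℍ} (hx : x ∈ G.iB)
    (h0 : 0 < G.secA x) (h1 : G.secA x ≤ Real.pi) :
    ang x.2 (G.nx x).2 x.1 = G.secA x := by
  obtain ⟨p, q⟩ := x
  obtain ⟨j, e, hj, _⟩ := nx_fact9 G hR hx
  rw [e]
  show ang q ((G.bk q)^[j + 1] p) p = G.secA (p, q)
  have hne : ∀ i ≤ j + 1, Dv q ((G.bk q)^[i] p) ≠ 0 := by
    intro i hi
    rw [Dv_eq49]
    apply Pool.Agent.Penny.disc_ne
    rcases i with _ | i
    · exact G.ne _ _ (G.sub (hj 0 (by omega)).1)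
    · rw [Function.iterate_succ_apply']
      exact (G.ne _ _ (G.sub (inn_bk9 G (hj i (by omega))).1.1)).symm
  have h2 := arg_chain9 (fun i => Dv q ((G.bk q)^[i] p)) (j + 1) hne
  have h3 : G.secA (p, q) = ∑ i ∈ Finset.range (j + 1),
      Complex.arg (Dv q ((G.bk q)^[i] p) / Dv q ((G.bk q)^[i + 1] p)) := by
    rw [sec_sum9 G hR hx e hj]
    apply Finset.sum_congr rfl
    intro i hi
    have hi' := Finset.mem_range.1 hi
    obtain ⟨h4, h5⟩ := inn_bk9 G (hj i (by omega))
    rw [Function.iterate_succ_apply', hD.th _ _ h4.1, h5]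
    rfl
  rw [← h3] at h2
  have h4 : (((G.secA (p, q) : ℝ) : Real.Angle)).toReal = G.secA (p, q) :=
    Real.Angle.toReal_coe_eq_self_iff.2 ⟨by linarith, h1⟩
  rw [← h4, h2]
  unfold ang
  symm
  exact Real.Angle.toReal_coe_eq_self_iff.2 ⟨Complex.neg_pi_lt_arg _, Complex.arg_le_pi _⟩

/-- the boundary darts with at most two units are sharp -/
theorem shp_sub9 (hD : DelG G d) (hR : G.Rot9) (ha0 : 0 < al) (ha : 2 * al ≤ Real.pi) :
    G.shp al ⊆ G.iB.filter (fun e => shd9 al G.nx e) := by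
  intro x hx
  unfold Tg.shp at hx
  obtain ⟨h1, h2⟩ := Finset.mem_filter.1 hx
  obtain ⟨h3, h4⟩ := secA_le9 G hR ha0 h1
  have h5 : ((G.secW al x : ℕ) : ℝ) ≤ 2 := by exact_mod_cast h2
  have h6 : G.secA x ≤ 2 * al := by nlinarith
  have h7 := sec_ang9 hD hR h1 h3 (by linarith)
  refine Finset.mem_filter.2 ⟨h1, ?_, ?_⟩
  · rw [h7]; exact h3
  · rw [h7]; exact h6

/-- the dispersed isoperimetric inequality for the boundary of the inner region -/
theorem bdry_disp9 {q : ℝ} (hD : DelG G d) (hR : G.Rot9) (ha0 : 0 < al)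
    (ha : 2 * al ≤ Real.pi - g51 d) (hr : 2 * rho51 d al ≤ g51 d) (hr0 : 0 ≤ rho51 d al)
    (hK : 2 * rho51 d al ≤ 4 * Real.arcsin q)
    (hu : 2 * Real.arcsin (q * Real.tanh (d / 2)) ≤ g51 d - rho51 d al)
    (hq : 0 ≤ q) :
    ∑ x ∈ G.iB, kap x.1 x.2 ≤ G.oJ.card * (2 * Real.arcsin (q * Real.tanh (d / 2))) ∨
    ∑ x ∈ G.iB, kap x.1 x.2 ≤ G.oJ.card * g51 d - (4 * Real.arcsin q - 2 * rho51 d al) -
      (G.shp al).card * rho51 d al := by
  have hg0 : 0 ≤ g51 d := g51_nonneg hD.hd.le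
  have h1 := cyc_disp9 hD.hd ha0 ha hr hr0 hK hu G.iB G.nx (fun e he => nx_mem9 G hR he)
    (nx_inj9 G hR) (fun e he => nx_fst9 G hR he) (fun e he => hD.con _ _ (iB_oJ9 G he).1)
  have hcard : (G.iB.card : ℝ) ≤ G.oJ.card := by
    have h2 : G.iB.card ≤ G.oJ.card := by
      apply Finset.card_le_card_of_injOn (fun x => (x.2, x.1))
      · intro x hx
        exact Finset.mem_coe.2 (iB_oJ9 G (Finset.mem_coe.1 hx)).2
      · rintro ⟨a, b⟩ _ ⟨c, e⟩ _ h
        exact Prod.ext (congrArg Prod.snd h) (congrArg Prod.fst h)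
    exact_mod_cast h2
  have hpi : 2 * al ≤ Real.pi := by linarith
  have hs : ((G.shp al).card : ℝ) ≤ (G.iB.filter (fun e => shd9 al G.nx e)).card := by
    exact_mod_cast Finset.card_le_card (shp_sub9 hD hR ha0 hpi)
  have hu0 : 0 ≤ 2 * Real.arcsin (q * Real.tanh (d / 2)) := by
    have h3 : 0 ≤ Real.tanh (d / 2) := by
      rw [Real.tanh_eq_sinh_div_cosh]
      exact div_nonneg (Real.sinh_nonneg_iff.2 (by have := hD.hd; linarith))
        (Real.cosh_pos _).le
    have := Real.arcsin_nonneg.2 (mul_nonneg hq h3)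
    linarith
  rcases h1 with h1 | h1
  · left
    refine le_trans h1 (mul_le_mul_of_nonneg_right hcard hu0)
  · right
    have h2 : (G.iB.card : ℝ) * g51 d ≤ G.oJ.card * g51 d :=
      mul_le_mul_of_nonneg_right hcard hg0
    have h3 : ((G.shp al).card : ℝ) * rho51 d al ≤
        (G.iB.filter (fun e => shd9 al G.nx e)).card * rho51 d al :=
      mul_le_mul_of_nonneg_right hs hr0
    linarith

end D

end

end Pool.Agent.PEN
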