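import Pool.Agent.P4.Defs
import Pool.Agent.PEN.D66

/-! # PENNY, version 4: gaps at all points and sectors at the boundary points (definitions)

`G.inn (v, a)`: the triangle on the left of `(v, a)` is inner. At `v` one turns counterclockwise by
`G.ap v` and clockwise by `G.bk v`. -/

set_option autoImplicit false

namespace Pool.Agent.PEN

open Classical UpperHalfPlane

noncomputable section

namespace Tg

variable {V : Type} (G : Tg V)

/-- inner contact darts -/
def iJ : Finset (V × V) := G.iD.filter (fun x => G.con x.1 x.2)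

/-- the darts of the gap of the inner contact dart `x` -/
def gset (x : V × V) : Finset (V × V) :=
  G.iD.filter (fun y => y.1 = x.1 ∧ G.HasO x.1 y.2 ∧ G.og x.1 y.2 = x.2)

/-- the gap of an inner contact dart `x`, at any point -/
def gp (x : V × V) : ℝ := ∑ y ∈ G.gset x, G.th y.1 y.2

/-- units of an inner contact dart -/
def wt (al : ℝ) (x : V × V) : ℕ := ⌈G.gp x / al⌉₊

/-- the boundary dart at which one arrives turning counterclockwise from `x` around `x.1` -/
def hd (x : V × V) : V × V :=
  if h : ∃ i : ℕ, ¬ G.inn (x.1, (G.ap x.1)^[i] x.2) then ((G.ap x.1)^[Nat.find h] x.2, x.1) else x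

/-- the boundary successor of `x`: turn clockwise around `x.2`, starting at `x.1`, as long as the
triangles are inner -/
def nx (x : V × V) : V × V :=
  if h : ∃ i : ℕ, ¬ G.inn ((G.bk x.2)^[i] x.1, x.2) then (x.2, (G.bk x.2)^[Nat.find h] x.1) else x

/-- the sector of a boundary dart `x`: inner darts at `x.2` between `nx x` and `x` -/
def secs (x : V × V) : Finset (V × V) := G.iD.filter (fun y => y.1 = x.2 ∧ G.hd y = x)

/-- the angle of the sector -/
def secA (x : V × V) : ℝ := ∑ y ∈ G.secs x, G.th y.1 y.2

/-- the units of the sector -/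
def secW (al : ℝ) (x : V × V) : ℕ := ∑ y ∈ (G.secs x).filter (fun y => G.con y.1 y.2), G.wt al y

/-- the sharp boundary darts (at most two units at the head) -/
def shp (al : ℝ) : Finset (V × V) := G.iB.filter (fun x => G.secW al x ≤ 2)

/-- rotations: an invariant set of darts at a point contains all darts, and every point has a
contact dart -/
structure Rot9 : Prop where
  inv : ∀ v ∈ G.P, ∀ S : Finset V, S.Nonempty → (∀ a ∈ S, (v, a) ∈ G.Dp ∧ G.ap v a ∈ S) →
    ∀ a, (v, a) ∈ G.D → a ∈ S
  ex : ∀ v ∈ G.P, ∃ a, (v, a) ∈ G.D ∧ G.con v a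

end Tg

end

end Pool.Agent.PEN
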