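import Pool.Agent.P4.Y71g

/-! # PENNY: the angles of the triangles at a hull point add to at most pi -/

set_option autoImplicit false

namespace Pool.Agent.PEN

open Classical UpperHalfPlane

noncomputable section

/-- difference of arguments in a closed half plane -/
theorem arg_sub57 {z1 z2 w : ℂ} (hw : w ≠ 0) (h1 : 0 ≤ (z1 / w).im) (h2 : 0 ≤ (z2 / w).im)
    (h : 0 < (z2 / z1).im) : Complex.arg (z2 / z1) = Complex.arg (z2 / w) - Complex.arg (z1 / w) := by
  have hz1 : z1 ≠ 0 := by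
    intro h0
    rw [h0, div_zero, Complex.zero_im] at h
    exact lt_irrefl _ h
  have hz2 : z2 ≠ 0 := by
    intro h0
    rw [h0, zero_div, Complex.zero_im] at h
    exact lt_irrefl _ h
  have hpi := Real.pi_pos
  have e : z2 / z1 = (z2 / w) / (z1 / w) := (div_div_div_cancel_right₀ hw z2 z1).symm
  have e2 : ((Complex.arg (z2 / z1) : ℝ) : Real.Angle) =
      ((Complex.arg (z2 / w) - Complex.arg (z1 / w) : ℝ) : Real.Angle) := by
    rw [Real.Angle.coe_sub, e]
    exact Complex.arg_div_coe_angle (div_ne_zero hz2 hw) (div_ne_zero hz1 hw)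
  obtain ⟨k, hk⟩ := Real.Angle.angle_eq_iff_two_pi_dvd_sub.1 e2
  have a0 : 0 < Complex.arg (z2 / z1) := by
    rcases (Complex.arg_nonneg_iff.2 h.le).lt_or_eq with h3 | h3
    · exact h3
    · have := Complex.arg_eq_zero_iff.1 h3.symm
      linarith [this.2]
  have a1 := Complex.arg_le_pi (z2 / z1)
  have b0 := Complex.arg_nonneg_iff.2 h1
  have b1 := Complex.arg_le_pi (z1 / w)
  have c0 := Complex.arg_nonneg_iff.2 h2
  have c1 := Complex.arg_le_pi (z2 / w)
  have k0 : k = 0 := by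
    have k1 : (k : ℝ) < 1 + 1 / 10 := by
      by_contra h3
      rw [not_lt] at h3
      nlinarith
    have k2 : (-1 : ℝ) < k := by
      by_contra h3
      rw [not_lt] at h3
      nlinarith
    have k3 : k < 2 := by
      by_contra h3
      rw [not_lt] at h3
      have : (2 : ℝ) ≤ k := by exact_mod_cast h3
      linarith
    have k4 : -1 < k := by exact_mod_cast k2
    have k5 : k ≠ 1 := by
      rintro rfl
      rw [Int.cast_one] at hk
      have : Complex.arg (z2 / z1) = Real.pi := by linarith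
      rw [Complex.arg_eq_pi_iff] at this
      linarith [this.2]
    omega
  rw [k0, Int.cast_zero, mul_zero] at hk
  linarith

section
variable {d : ℝ} {P : Finset ℍ} {T : Pt → Pt → Prop} {Tr : Pt → Pt → Pt → Prop}

/-- **the angles at a hull point** -/
theorem bdsum57 (hT : PTri (P.image kl) T Tr)
    (hleft : ∀ v a b, (v, a) ∈ (tg71 d hT).D → (v, b) ∈ (tg71 d hT).D → (v, a) ∉ (tg71 d hT).Dp →
      (v, b) ∉ (tg71 d hT).Dp → a = b) {v : ℍ} (hb : (tg71 d hT).bd v) :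
    ∑ x ∈ (tg71 d hT).Dp.filter (fun x => x.1 = v), (tg71 d hT).th x.1 x.2 ≤ Real.pi := by
  obtain ⟨u, hu, hu2⟩ := hb
  obtain ⟨w, hw, hw2⟩ := half71 v u hu
  have hpi := Real.pi_pos
  set S := P.filter (fun a => (v, a) ∈ Dp71 P T) with hS
  have hmS : ∀ a, a ∈ S ↔ (v, a) ∈ Dp71 P T := by
    intro a
    rw [hS, Finset.mem_filter]
    exact ⟨fun h => h.2, fun h => ⟨(Dp71_left h).2, h⟩⟩
  have himg : (tg71 d hT).Dp.filter (fun x => x.1 = v) = S.image (fun a => (v, a)) := by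
    ext ⟨x, y⟩
    rw [Finset.mem_filter, Finset.mem_image]
    constructor
    · rintro ⟨h1, h2⟩
      simp only at h2
      subst h2
      exact ⟨y, (hmS y).2 h1, rfl⟩
    · rintro ⟨a, ha, h⟩
      obtain ⟨rfl, rfl⟩ := Prod.mk.inj h
      exact ⟨(hmS _).1 ha, rfl⟩
  rw [himg, Finset.sum_image (fun x _ y _ h => (Prod.mk.inj h).2)]
  change ∑ a ∈ S, Complex.arg (Dv v (ap71 P Tr v a) / Dv v a) ≤ Real.pi
  have hnn : ∀ a ∈ P, 0 ≤ (Dv v a / w).im := fun a ha => hw2 a (hu2 _ (Finset.mem_image_of_mem _ ha))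
  have hapP : ∀ a ∈ S, (v, ap71 P Tr v a) ∈ (tg71 d hT).D := by
    intro a ha
    have h1 := (tg71 d hT).ap2 v a ((hmS a).1 ha)
    exact (tg71 d hT).symm _ _ ((tg71 d hT).sub h1)
  have hterm : ∀ a ∈ S, Complex.arg (Dv v (ap71 P Tr v a) / Dv v a) =
      Complex.arg (Dv v (ap71 P Tr v a) / w) - Complex.arg (Dv v a / w) := by
    intro a ha
    have h1 := (hmS a).1 ha
    exact arg_sub57 hw (hnn a (Dp71_left h1).2) (hnn _ (mem_D71.mp (hapP a ha)).1.2) (him71 hT h1)
  have hinj : Set.InjOn (ap71 P Tr v) S := by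
    intro s hs t ht h
    have e1 := (tg71 d hT).ap4 v s ((hmS s).1 (Finset.mem_coe.mp hs))
    have e2 := (tg71 d hT).ap4 v t ((hmS t).1 (Finset.mem_coe.mp ht))
    change ap71 P Tr (ap71 P Tr v s) v = s at e1
    change ap71 P Tr (ap71 P Tr v t) v = t at e2
    rw [← e1, ← e2, h]
  rw [Finset.sum_congr rfl hterm, Finset.sum_sub_distrib,
    ← Finset.sum_image (g := ap71 P Tr v) (f := fun b => Complex.arg (Dv v b / w)) hinj]
  set R := S.image (ap71 P Tr v) with hR
  have hRD : ∀ b ∈ R, (v, b) ∈ (tg71 d hT).D := by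
    intro b hb'
    obtain ⟨a, ha, rfl⟩ := Finset.mem_image.mp hb'
    exact hapP a ha
  have h3 : ∑ b ∈ R, Complex.arg (Dv v b / w) = ∑ b ∈ R ∩ S, Complex.arg (Dv v b / w) +
      ∑ b ∈ R \ S, Complex.arg (Dv v b / w) := by
    exact (Finset.sum_inter_add_sum_sdiff R S (fun b => Complex.arg (Dv v b / w))).symm
  have h4 : ∑ b ∈ R ∩ S, Complex.arg (Dv v b / w) ≤ ∑ a ∈ S, Complex.arg (Dv v a / w) := by
    apply Finset.sum_le_sum_of_subset_of_nonneg Finset.inter_subset_right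
    intro a ha _
    exact Complex.arg_nonneg_iff.2 (hnn a (Dp71_left ((hmS a).1 ha)).2)
  have h5 : ∑ b ∈ R \ S, Complex.arg (Dv v b / w) ≤ Real.pi := by
    have h6 : (R \ S).card ≤ 1 := by
      apply Finset.card_le_one.2
      intro a ha b hb'
      rw [Finset.mem_sdiff] at ha hb'
      exact hleft v a b (hRD a ha.1) (hRD b hb'.1) (fun h => ha.2 ((hmS a).2 h))
        (fun h => hb'.2 ((hmS b).2 h))
    have h7 : ∑ b ∈ R \ S, Complex.arg (Dv v b / w) ≤ (R \ S).card • Real.pi :=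
      Finset.sum_le_card_nsmul _ _ _ (fun b _ => Complex.arg_le_pi _)
    rw [nsmul_eq_mul] at h7
    have h8 : ((R \ S).card : ℝ) ≤ 1 := by exact_mod_cast h6
    nlinarith
  linarith

end

/-- the angles at the hull points -/
def HullG57 {V : Type} (G : Tg V) : Prop :=
  ∀ v ∈ G.P, G.bd v → ∑ x ∈ G.Dp.filter (fun x => x.1 = v), G.th x.1 x.2 ≤ Real.pi

/-- **existence of the structure**, with the angles at the hull points -/
theorem exists_geo4h57 {d : ℝ} (hd : 0 < d) (ha : 2 * Real.pi < 7 * alpha d) {P : Finset ℍ}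
    (hP : Sep d P) (hne : P.Nonempty)
    (hdeg : ∀ v ∈ P, 3 ≤ (P.filter (fun x => dist v x = d)).card) :
    ∃ G : Tg ℍ, G.Geo4 (alpha d) kap (Ust69 d) ∧ G.P = P ∧
      cd d P = (G.D.filter (fun x => G.con x.1 x.2)).card ∧
      (NoSq d → G.Geo (alpha d) kap (Ust69 d)) ∧ DelG G d ∧ HullG57 G ∧
      (∀ x ∈ P, ∀ y ∈ P, x ≠ y → d ≤ dist x y) := by
  obtain ⟨T, Tr, hT, hT0, hG, hDel⟩ := exists_PTri_del hd hP
  have hG4 := geo4_71 hd ha hP hT hT0 hG hne hdeg hDel _ (walkP_Ust71 d P)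
  refine ⟨tg71 d hT, hG4, rfl, ?_,
    fun hns => geo71 hd ha hP hT hT0 hG hne hdeg _ (walkP_Ust71 d P) hns (pentagon_area hd ha),
    delG71 hd hP hT hDel, fun v _ hb => bdsum57 hT hG4.left hb, hP⟩
  unfold cd
  congr 1
  ext ⟨a, b⟩
  rw [Finset.mem_filter, Finset.mem_filter, Finset.mem_product]
  constructor
  · rintro ⟨h1, h2⟩
    exact ⟨mem_D71.mpr ⟨h1, hG _ h1.1 _ h1.2 h2⟩, h2⟩
  · rintro ⟨h1, h2⟩
    exact ⟨(mem_D71.mp h1).1, h2⟩

end

end Pool.Agent.PEN
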