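import Pool.Agent.PEN.DG66

/-! # PENNY, islands: clusters of contact triangles

A cluster is a connected component of the contact edges, two edges being linked if they are sides
of a common contact triangle. The sides of a cluster are the contact darts whose left face is not a
contact triangle. Connectivity alone gives `sides ≤ triangles + 2`. -/

set_option autoImplicit false

namespace Pool.Agent.PEN.Cl

open Classical

noncomputable section

variable {V : Type} (G : Tg V)

/-- the triangle on the left of the dart is a contact triangle -/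
def tt (x : V × V) : Prop :=
  x ∈ G.Dp ∧ G.con x.1 x.2 ∧ G.con x.2 (G.ap x.1 x.2) ∧ G.con (G.ap x.1 x.2) x.1

/-- the contact darts -/
def KJ : Finset (V × V) := G.D.filter (fun x => G.con x.1 x.2)

/-- the contact darts with a contact triangle on the left -/
def TT : Finset (V × V) := (KJ G).filter (fun x => tt G x)

/-- the sides: contact darts without a contact triangle on the left -/
def SD : Finset (V × V) := (KJ G).filter (fun x => ¬ tt G x)

theorem mem_KJ42 {x : V × V} : x ∈ KJ G ↔ x ∈ G.D ∧ G.con x.1 x.2 := by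
  unfold KJ
  rw [Finset.mem_filter]

theorem mem_TT42 {x : V × V} : x ∈ TT G ↔ x ∈ KJ G ∧ tt G x := by
  unfold TT
  rw [Finset.mem_filter]

theorem mem_SD42 {x : V × V} : x ∈ SD G ↔ x ∈ KJ G ∧ ¬ tt G x := by
  unfold SD
  rw [Finset.mem_filter]

theorem KJ_swap42 {x : V × V} (h : x ∈ KJ G) : (x.2, x.1) ∈ KJ G := by
  rw [mem_KJ42] at h ⊢
  exact ⟨G.symm _ _ h.1, G.csymm _ _ h.2⟩

theorem tt_KJ42 {x : V × V} (h : tt G x) : x ∈ KJ G :=
  (mem_KJ42 G).2 ⟨G.sub h.1, h.2.1⟩

theorem mem_TT42' {x : V × V} : x ∈ TT G ↔ tt G x := by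
  rw [mem_TT42]
  exact ⟨fun h => h.2, fun h => ⟨tt_KJ42 G h, h⟩⟩

theorem tt_rot42 {x : V × V} (h : tt G x) : tt G (x.2, G.ap x.1 x.2) := by
  obtain ⟨h1, h2, h3, h4⟩ := h
  refine ⟨G.ap1 _ _ h1, h3, ?_, ?_⟩
  · dsimp only
    rw [G.ap3 _ _ h1]
    exact h4
  · dsimp only
    rw [G.ap3 _ _ h1]
    exact h2

theorem tt_rot42' {x : V × V} (h : tt G x) : tt G (G.ap x.1 x.2, x.1) := by
  obtain ⟨h1, h2, h3, h4⟩ := h
  refine ⟨G.ap2 _ _ h1, h4, ?_, ?_⟩
  · dsimp only
    rw [G.ap4 _ _ h1]
    exact h2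
  · dsimp only
    rw [G.ap4 _ _ h1]
    exact h3

/-- contact triangles are contracted to one point, the sides are points -/
def pt (x : V × V) : Finset V ⊕ (V × V) := if tt G x then Sum.inl (G.tri x) else Sum.inr x

/-- the two sides of a contact edge are linked -/
def cg : SimpleGraph (Finset V ⊕ (V × V)) where
  Adj s t := s ≠ t ∧ ∃ x ∈ KJ G, pt G x = s ∧ pt G (x.2, x.1) = t
  symm := ⟨by
    rintro s t ⟨h, x, h1, h2, h3⟩
    exact ⟨h.symm, (x.2, x.1), KJ_swap42 G h1, h3, h2⟩⟩
  loopless := ⟨fun s h => h.1 rfl⟩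

/-- the cluster of a contact dart -/
def ku (x : V × V) : (cg G).ConnectedComponent := (cg G).connectedComponentMk (pt G x)

/-- the clusters -/
def Kc : Finset (cg G).ConnectedComponent := (KJ G).image (ku G)

/-- the sides of a cluster -/
def kS (K : (cg G).ConnectedComponent) : Finset (V × V) := (SD G).filter (fun x => ku G x = K)

/-- the contact triangle darts of a cluster -/
def kT (K : (cg G).ConnectedComponent) : Finset (V × V) := (TT G).filter (fun x => ku G x = K)

theorem mem_kS42 {x : V × V} {K : (cg G).ConnectedComponent} :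
    x ∈ kS G K ↔ x ∈ SD G ∧ ku G x = K := by
  unfold kS
  rw [Finset.mem_filter]

theorem mem_kT42 {x : V × V} {K : (cg G).ConnectedComponent} :
    x ∈ kT G K ↔ tt G x ∧ ku G x = K := by
  unfold kT
  rw [Finset.mem_filter, mem_TT42']

theorem pt_tt42 {x : V × V} (h : tt G x) : pt G x = Sum.inl (G.tri x) := by
  unfold pt
  rw [if_pos h]

theorem pt_sd42 {x : V × V} (h : ¬ tt G x) : pt G x = Sum.inr x := by
  unfold pt
  rw [if_neg h]

theorem ku_swap42 {x : V × V} (h : x ∈ KJ G) : ku G (x.2, x.1) = ku G x := by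
  unfold ku
  by_cases he : pt G x = pt G (x.2, x.1)
  · rw [he]
  · have hadj : (cg G).Adj (pt G x) (pt G (x.2, x.1)) := ⟨he, x, h, rfl, rfl⟩
    exact (SimpleGraph.ConnectedComponent.sound hadj.reachable).symm

theorem ku_rot42 {x : V × V} (h : tt G x) : ku G (x.2, G.ap x.1 x.2) = ku G x := by
  unfold ku
  rw [pt_tt42 G h, pt_tt42 G (tt_rot42 G h), tri_rot66 G h.1]

theorem ku_rot42' {x : V × V} (h : tt G x) : ku G (G.ap x.1 x.2, x.1) = ku G x := by
  unfold ku
  rw [pt_tt42 G h, pt_tt42 G (tt_rot42' G h), tri_rot66' G h.1]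

/-- three darts per contact triangle -/
theorem card_kT42 (K : (cg G).ConnectedComponent) :
    (kT G K).card = 3 * ((kT G K).image G.tri).card := by
  rw [Finset.card_eq_sum_card_image G.tri (kT G K), Finset.sum_const_nat (m := 3), mul_comm]
  intro t ht
  obtain ⟨x, hx, rfl⟩ := Finset.mem_image.1 ht
  obtain ⟨hx1, hx2⟩ := (mem_kT42 G).1 hx
  have hxp := hx1.1
  have n1 := G.ne _ _ (G.sub hxp)
  have n2 := G.ne _ _ (G.sub (G.ap1 _ _ hxp))
  have n3 := G.ne _ _ (G.sub (G.ap2 _ _ hxp))
  have e : (kT G K).filter (fun a => G.tri a = G.tri x) =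
      {x, (x.2, G.ap x.1 x.2), (G.ap x.1 x.2, x.1)} := by
    ext y
    rw [Finset.mem_filter, Finset.mem_insert, Finset.mem_insert, Finset.mem_singleton]
    constructor
    · rintro ⟨h1, h2⟩
      exact (tri_eq_iff G hxp ((mem_kT42 G).1 h1).1.1).1 h2.symm
    · rintro (h | h | h)
      · rw [h]
        exact ⟨hx, rfl⟩
      · rw [h]
        exact ⟨(mem_kT42 G).2 ⟨tt_rot42 G hx1, (ku_rot42 G hx1).trans hx2⟩, tri_rot66 G hxp⟩
      · rw [h]
        exact ⟨(mem_kT42 G).2 ⟨tt_rot42' G hx1, (ku_rot42' G hx1).trans hx2⟩, tri_rot66' G hxp⟩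
  rw [e, Finset.card_insert_of_notMem, Finset.card_pair]
  · intro h
    exact n2 (congrArg Prod.fst h)
  · rw [Finset.mem_insert, Finset.mem_singleton, not_or]
    exact ⟨fun h => n1 (congrArg Prod.fst h), fun h => n3 (congrArg Prod.fst h).symm⟩

/-- **connectivity**: a cluster with `m` contact triangles has at most `m + 2` sides -/
theorem conn42 (K : (cg G).ConnectedComponent) : 3 * (kS G K).card ≤ (kT G K).card + 6 := by
  rcases Finset.eq_empty_or_nonempty (kS G K) with hS0 | ⟨s0, hs0⟩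
  · rw [hS0]
    simp
  have hD : ∀ y, y ∈ kT G K ∪ kS G K ↔ y ∈ KJ G ∧ ku G y = K := by
    intro y
    rw [Finset.mem_union, mem_kT42, mem_kS42, mem_SD42]
    constructor
    · rintro (h | h)
      · exact ⟨tt_KJ42 G h.1, h.2⟩
      · exact ⟨h.1.1, h.2⟩
    · rintro ⟨h1, h2⟩
      by_cases h : tt G y
      · exact Or.inl ⟨h, h2⟩
      · exact Or.inr ⟨⟨h1, h⟩, h2⟩
  have hmk : ∀ y ∈ kT G K ∪ kS G K, (cg G).connectedComponentMk (pt G y) = K :=
    fun y hy => ((hD y).1 hy).2
  have hs0' : s0 ∈ kT G K ∪ kS G K := Finset.mem_union_right _ hs0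
  have hS : ∀ t, t ∈ (kT G K ∪ kS G K).image (pt G) ↔ (cg G).connectedComponentMk t = K := by
    intro t
    constructor
    · intro ht
      obtain ⟨y, hy, rfl⟩ := Finset.mem_image.1 ht
      exact hmk y hy
    · intro h
      have h1 : (cg G).Reachable t (pt G s0) :=
        SimpleGraph.ConnectedComponent.exact (h.trans (hmk s0 hs0').symm)
      obtain ⟨p⟩ := h1
      cases p with
      | nil => exact Finset.mem_image_of_mem _ hs0'
      | cons hadj _ =>
        obtain ⟨_, x, h2, h3, _⟩ := hadj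
        rw [Finset.mem_image]
        refine ⟨x, (hD x).2 ⟨h2, ?_⟩, h3⟩
        unfold ku
        rw [h3]
        exact h
  have h1 := comp_edges66 (cg G) K ((kT G K ∪ kS G K).image (pt G)) hS
    ((kT G K ∪ kS G K).image fun x => (pt G x, pt G (x.2, x.1))) (by
      rintro s t ⟨_, x, h2, h3, h4⟩ hs
      rw [Finset.mem_image]
      refine ⟨x, (hD x).2 ⟨h2, ?_⟩, ?_⟩
      · unfold ku
        rw [h3]
        exact hs
      · rw [h3, h4])
  have h2 := Finset.card_image_le (s := kT G K ∪ kS G K)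
    (f := fun x => (pt G x, pt G (x.2, x.1)))
  have hdis : Disjoint (kT G K) (kS G K) := by
    rw [Finset.disjoint_left]
    intro y h3 h4
    exact ((mem_SD42 G).1 ((mem_kS42 G).1 h4).1).2 ((mem_kT42 G).1 h3).1
  rw [Finset.card_union_of_disjoint hdis] at h2
  have h3 : ((kT G K ∪ kS G K).image (pt G)).card =
      ((kT G K).image G.tri).card + (kS G K).card := by
    have e1 : (kT G K).image (pt G) = ((kT G K).image G.tri).image Sum.inl := by
      rw [Finset.image_image]
      exact Finset.image_congr fun y hy => pt_tt42 G ((mem_kT42 G).1 (Finset.mem_coe.1 hy)).1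
    have e2 : (kS G K).image (pt G) = (kS G K).image Sum.inr :=
      Finset.image_congr fun y hy =>
        pt_sd42 G ((mem_SD42 G).1 ((mem_kS42 G).1 (Finset.mem_coe.1 hy)).1).2
    rw [Finset.image_union, e1, e2, Finset.card_union_of_disjoint,
      Finset.card_image_of_injective _ Sum.inl_injective,
      Finset.card_image_of_injective _ Sum.inr_injective]
    rw [Finset.disjoint_left]
    intro y h4 h5
    obtain ⟨a, _, rfl⟩ := Finset.mem_image.1 h4
    obtain ⟨b, _, h6⟩ := Finset.mem_image.1 h5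
    exact absurd h6 (by simp)
  have h4 := card_kT42 G K
  omega

/-- the sum over all clusters -/
theorem conn_sum42 : 3 * (SD G).card ≤ (TT G).card + 6 * (Kc G).card := by
  have hs : ∑ K ∈ Kc G, (kS G K).card = (SD G).card :=
    (Finset.card_eq_sum_card_fiberwise (f := ku G) fun x hx =>
      Finset.mem_coe.2 (Finset.mem_image_of_mem _ ((mem_SD42 G).1 (Finset.mem_coe.1 hx)).1)).symm
  have ht : ∑ K ∈ Kc G, (kT G K).card = (TT G).card :=
    (Finset.card_eq_sum_card_fiberwise (f := ku G) fun x hx =>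
      Finset.mem_coe.2 (Finset.mem_image_of_mem _ ((mem_TT42 G).1 (Finset.mem_coe.1 hx)).1)).symm
  have h : ∑ K ∈ Kc G, 3 * (kS G K).card ≤ ∑ K ∈ Kc G, ((kT G K).card + 6) :=
    Finset.sum_le_sum fun K _ => conn42 G K
  rw [← Finset.mul_sum, hs, Finset.sum_add_distrib, ht, Finset.sum_const, smul_eq_mul] at h
  omega

end

end Pool.Agent.PEN.Cl
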