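import Pool.Agent.P4.W4B_71
import Pool.Agent.P4.Cl42

/-! # PENNY, islands: the boundary walk of a cluster

`nx x` is the next side of the cluster: at the end point of the side `x` one rotates
counterclockwise through the contact triangles to the next side. The pair `(sg x, nx x)` are the two
corners at `x.2` which are separated by these contact triangles. -/

set_option autoImplicit false

namespace Pool.Agent.PEN.Cl

open Classical UpperHalfPlane

noncomputable section

variable {V : Type} (G : Tg V) {al : ℝ} {kp : V → V → ℝ} {U : ℕ → ℝ}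

/-- rotating counterclockwise from `b` around `v` one leaves the contact triangles -/
def HasN (v b : V) : Prop := ∃ i : ℕ, ¬ tt G (v, (G.ap v)^[i] b)

/-- the first contact neighbour, from `b` counterclockwise around `v`, without a contact triangle on
the left -/
def nb (v b : V) : V := if h : HasN G v b then (G.ap v)^[Nat.find h] b else b

/-- the next side along the boundary of the cluster -/
def nx (x : V × V) : V × V := (x.2, nb G x.2 x.1)

theorem tt_ap42 {v c : V} (h : tt G (v, c)) :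
    (v, G.ap v c) ∈ KJ G ∧ ku G (v, G.ap v c) = ku G (v, c) ∧ tt G (G.ap v c, v) := by
  have h1 := tt_rot42' G h
  have h2 := KJ_swap42 G (tt_KJ42 G h1)
  refine ⟨h2, ?_, h1⟩
  rw [← ku_rot42' G h]
  exact ku_swap42 G (tt_KJ42 G h1)

theorem hasN42 (hG : G.Geo4 al kp U) {v b : V} (h : (v, b) ∈ G.D) : HasN G v b := by
  by_contra hno
  have hall : ∀ i, tt G (v, (G.ap v)^[i] b) := by
    intro i
    by_contra hi
    exact hno ⟨i, hi⟩
  have hv := G.mem _ _ h
  obtain ⟨S, hmem⟩ : ∃ S : Finset V, ∀ c, c ∈ S ↔ (v, c) ∈ G.D ∧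
      ∀ i, tt G (v, (G.ap v)^[i] c) :=
    ⟨_, mem_img66 G v (fun c => ∀ i, tt G (v, (G.ap v)^[i] c))⟩
  have hfw : ∀ c ∈ S, G.ap v c ∈ S := by
    intro c hc
    obtain ⟨h1, h2⟩ := (hmem c).1 hc
    have h3 := tt_ap42 G (h2 0)
    refine (hmem _).2 ⟨((mem_KJ42 G).1 h3.1).1, fun i => ?_⟩
    have := h2 (i + 1)
    rw [Function.iterate_succ_apply] at this
    exact this
  have hne : S.Nonempty := ⟨b, (hmem b).2 ⟨h, hall⟩⟩
  have htt : ∀ c ∈ S, tt G (v, c) := fun c hc => ((hmem c).1 hc).2 0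
  by_cases hb : G.bd v
  · exact hG.bdno v hv hb S hne (fun c hc => ⟨(htt c hc).1, hfw c hc⟩)
  · have h1 := hG.turn v hv hb S hne (fun c hc => ((hmem c).1 hc).1) hfw
    have h2 : ∑ a ∈ S, G.th v a = S.card * al := by
      rw [Finset.sum_congr rfl fun c hc => hG.tcon v c (htt c hc).1 (htt c hc).2.1
        (htt c hc).2.2.1 (htt c hc).2.2.2, Finset.sum_const, nsmul_eq_mul]
    have h3 : ∑ b ∈ S, G.th v b ≤
        ∑ x ∈ G.D.filter (fun x => x.1 = v), G.th x.1 x.2 := by
      have e := Finset.sum_image (s := S) (g := fun b => (v, b))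
        (f := fun x : V × V => G.th x.1 x.2) (fun x _ y _ h => (Prod.mk.inj h).2)
      dsimp only at e
      rw [← e]
      apply Finset.sum_le_sum_of_subset_of_nonneg
      · intro x hx
        obtain ⟨b, hb, rfl⟩ := Finset.mem_image.1 hx
        rw [Finset.mem_filter]
        exact ⟨((hmem b).1 hb).1, rfl⟩
      · rintro ⟨x1, x2⟩ hx _
        rw [Finset.mem_filter] at hx
        obtain ⟨h3, h4⟩ := hx
        simp only at h4
        subst h4
        exact (G.thpos _ _ (G.int1 _ _ hv hb h3)).le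
    rw [hG.tot v hv hb, h2] at h3
    rw [h2] at h1
    have al1 := hG.al1
    have al2 := hG.al2
    have hpi := Real.pi_pos
    have hal : 0 < al := by linarith
    rcases Nat.lt_or_ge S.card 7 with h4 | h4
    · have h5 : (S.card : ℝ) ≤ 6 := by exact_mod_cast Nat.lt_succ_iff.1 h4
      nlinarith
    · have h5 : (7 : ℝ) ≤ S.card := by exact_mod_cast h4
      nlinarith

theorem nb_eq42 {v b : V} (h : HasN G v b) : nb G v b = (G.ap v)^[Nat.find h] b := by
  unfold nb
  rw [dif_pos h]

theorem run_tt42 {v b : V} (h : HasN G v b) {i : ℕ} (hi : i < Nat.find h) :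
    tt G (v, (G.ap v)^[i] b) := by
  by_contra hc
  exact Nat.find_min h hi hc

theorem run_mem42 {v b : V} (h : HasN G v b) (hb : (v, b) ∈ KJ G) :
    ∀ i, i ≤ Nat.find h → (v, (G.ap v)^[i] b) ∈ KJ G ∧ ku G (v, (G.ap v)^[i] b) = ku G (v, b) := by
  intro i
  induction i with
  | zero => intro _; exact ⟨hb, rfl⟩
  | succ i ih =>
    intro hi
    obtain ⟨h1, h2⟩ := ih (by omega)
    rw [Function.iterate_succ_apply']
    obtain ⟨h3, h4, _⟩ := tt_ap42 G (run_tt42 G h (i := i) (by omega))
    exact ⟨h3, h4.trans h2⟩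

theorem nx_mem42 (hG : G.Geo4 al kp U) {x : V × V} (hx : x ∈ KJ G) :
    nx G x ∈ SD G ∧ ku G (nx G x) = ku G x := by
  have hx' := KJ_swap42 G hx
  have h := hasN42 G hG ((mem_KJ42 G).1 hx').1
  obtain ⟨h1, h2⟩ := run_mem42 G h hx' _ le_rfl
  unfold nx
  rw [nb_eq42 G h]
  exact ⟨(mem_SD42 G).2 ⟨h1, Nat.find_spec h⟩, h2.trans (ku_swap42 G hx)⟩

theorem run_bk42 {v b : V} (h : HasN G v b) (k : ℕ) :
    ∀ j, k + j ≤ Nat.find h → (G.bk v)^[j] ((G.ap v)^[k + j] b) = (G.ap v)^[k] b := by
  intro j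
  induction j with
  | zero => intro _; rfl
  | succ j ih =>
    intro hj
    have h1 := run_tt42 G h (i := k + j) (by omega)
    rw [Function.iterate_succ_apply, ← add_assoc, Function.iterate_succ_apply', bk_fw71 G h1.1]
    exact ih (by omega)

theorem nx_inj_aux42 {v b b' : V} (hb : ¬ tt G (b, v)) (h : HasN G v b) (h' : HasN G v b')
    (hle : Nat.find h ≤ Nat.find h') (he : nb G v b = nb G v b') : b = b' := by
  rw [nb_eq42 G h, nb_eq42 G h'] at he
  have p1 := run_bk42 G h 0 (Nat.find h) (by omega)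
  rw [zero_add, Function.iterate_zero, id_eq] at p1
  obtain ⟨k, hk⟩ : ∃ k, k + Nat.find h = Nat.find h' := ⟨Nat.find h' - Nat.find h, by omega⟩
  have p2 := run_bk42 G h' k (Nat.find h) (by omega)
  rw [hk, ← he, p1] at p2
  rcases k with _ | k
  · exact p2
  · exfalso
    have h1 := run_tt42 G h' (i := k) (by omega)
    have h2 := (tt_ap42 G h1).2.2
    rw [← Function.iterate_succ_apply' (G.ap v) k b', ← p2] at h2
    exact hb h2

/-- the successor is injective on the sides -/
theorem nx_inj42 (hG : G.Geo4 al kp U) {x y : V × V} (hx : x ∈ SD G) (hy : y ∈ SD G)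
    (he : nx G x = nx G y) : x = y := by
  obtain ⟨b, v⟩ := x
  obtain ⟨b', v'⟩ := y
  rw [mem_SD42] at hx hy
  have hv : v = v' := congrArg Prod.fst he
  subst hv
  have h1 : nb G v b = nb G v b' := congrArg Prod.snd he
  have hO := hasN42 G hG ((mem_KJ42 G).1 (KJ_swap42 G hx.1)).1
  have hO' := hasN42 G hG ((mem_KJ42 G).1 (KJ_swap42 G hy.1)).1
  dsimp only at hO hO'
  rcases le_total (Nat.find hO) (Nat.find hO') with hle | hle
  · rw [nx_inj_aux42 G hx.2 hO hO' hle h1]
  · rw [nx_inj_aux42 G hy.2 hO' hO hle h1.symm]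

/-- the successor is onto on the sides -/
theorem nx_surj42 (hG : G.Geo4 al kp U) {y : V × V} (hy : y ∈ SD G) :
    ∃ x ∈ SD G, nx G x = y := by
  have himg : (SD G).image (nx G) = SD G := by
    apply Finset.eq_of_subset_of_card_le
    · intro z hz
      obtain ⟨x, hx, rfl⟩ := Finset.mem_image.1 hz
      exact (nx_mem42 G hG ((mem_SD42 G).1 hx).1).1
    · rw [Finset.card_image_of_injOn]
      intro x hx z hz h
      exact nx_inj42 G hG (Finset.mem_coe.1 hx) (Finset.mem_coe.1 hz) h
  rw [← himg] at hy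
  obtain ⟨x, hx, h⟩ := Finset.mem_image.1 hy
  exact ⟨x, hx, h⟩

/-- sums over a set of sides which is closed under the successor -/
theorem sum_nx42 (hG : G.Geo4 al kp U) (F : Finset (V × V)) (hF : F ⊆ SD G)
    (hcl : ∀ x ∈ F, nx G x ∈ F) (f : V × V → ℝ) : ∑ x ∈ F, f (nx G x) = ∑ x ∈ F, f x := by
  have hinj : Set.InjOn (nx G) (F : Set (V × V)) := fun x hx z hz h =>
    nx_inj42 G hG (hF (Finset.mem_coe.1 hx)) (hF (Finset.mem_coe.1 hz)) h
  have himg : F.image (nx G) = F := by
    apply Finset.eq_of_subset_of_card_le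
    · intro z hz
      obtain ⟨x, hx, rfl⟩ := Finset.mem_image.1 hz
      exact hcl x hx
    · rw [Finset.card_image_of_injOn hinj]
  have e := Finset.sum_image (s := F) (g := nx G) (f := f) hinj
  rw [himg] at e
  exact e.symm

/-- a side is followed by its swap if and only if there is no contact triangle in between -/
theorem nx_bar42 {x : V × V} (h : ¬ tt G (x.2, x.1)) : nx G x = (x.2, x.1) := by
  have hN : HasN G x.2 x.1 := ⟨0, h⟩
  have h0 : Nat.find hN = 0 := Nat.le_zero.1 (Nat.find_min' hN h)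
  unfold nx
  rw [nb_eq42 G hN, h0]
  rfl

theorem nx_not_bar42 (hG : G.Geo4 al kp U) {x : V × V} (h : tt G (x.2, x.1)) :
    nx G x ≠ (x.2, x.1) := by
  intro he
  have h1 := (nx_mem42 G hG (x := x) (by
    have := KJ_swap42 G (tt_KJ42 G h)
    exact this)).1
  rw [he] at h1
  exact ((mem_SD42 G).1 h1).2 h

/-- the clockwise neighbour of the next dart of a contact triangle -/
theorem pv_tt42 {v c : V} (h : tt G (v, c)) : sg G (G.ap v c, v) = (v, c) := by
  unfold sg
  dsimp only
  rw [G.ap4 _ _ h.1, (og_self66 G h.2.1).2]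

theorem mem_iJ_of_inN42 (hG : G.Geo4 al kp U) {v : V} (hv : v ∈ inN G) {c : V}
    (h : (v, c) ∈ KJ G) : (v, c) ∈ iJ G ∧ (c, v) ∈ iJ G := by
  obtain ⟨_, _, h1, h2⟩ := W4.inN_all51 G hG hv
  obtain ⟨h3, h4⟩ := (mem_KJ42 G).1 h
  exact ⟨(mem_iJ71 G).2 ⟨h1 c h3, h4⟩, (mem_iJ71 G).2 ⟨h2 c h3, G.csymm _ _ h4⟩⟩

/-- if the two corners of a visit coincide, all other corners at the point are contact triangles -/
theorem nofix42 (hG : G.Geo4 al kp U) {v : V} (hv : v ∈ inN G) {x : V × V} (hx : x ∈ SD G)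
    (hxv : x.2 = v) (he : sg G x = nx G x) :
    ∀ y ∈ iJ G, y.1 = v → y ≠ nx G x → tt G y := by
  obtain ⟨b, v'⟩ := x
  simp only at hxv
  subst hxv
  have hb' := KJ_swap42 G ((mem_SD42 G).1 hx).1
  have hN := hasN42 G hG ((mem_KJ42 G).1 hb').1
  dsimp only at hN
  have hnx : nx G (b, v') = (v', (G.ap v')^[Nat.find hN] b) := by
    unfold nx
    rw [nb_eq42 G hN]
  have key := W4.closed51 G hG hv
    ((Finset.range (Nat.find hN + 1)).image fun i => (v', (G.ap v')^[i] b)) (by
      intro y hy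
      obtain ⟨i, hi, rfl⟩ := Finset.mem_image.1 hy
      rw [Finset.mem_range] at hi
      exact ⟨(mem_iJ_of_inN42 G hG hv (run_mem42 G hN hb' i (by omega)).1).1, rfl⟩)
    ⟨(v', b), Finset.mem_image.2 ⟨0, Finset.mem_range.2 (by omega), rfl⟩⟩ (by
      intro y hy
      obtain ⟨i, hi, rfl⟩ := Finset.mem_image.1 hy
      rw [Finset.mem_range] at hi
      rcases i with _ | i
      · rw [Finset.mem_image]
        refine ⟨Nat.find hN, Finset.mem_range.2 (by omega), ?_⟩
        rw [← hnx, ← he]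
        rfl
      · rw [Finset.mem_image]
        refine ⟨i, Finset.mem_range.2 (by omega), ?_⟩
        dsimp only
        rw [Function.iterate_succ_apply', pv_tt42 G (run_tt42 G hN (i := i) (by omega))])
  intro y hy hy1 hne
  obtain ⟨i, hi, rfl⟩ := Finset.mem_image.1 (key y hy hy1)
  rw [Finset.mem_range] at hi
  rcases Nat.lt_or_ge i (Nat.find hN) with h | h
  · exact run_tt42 G hN h
  · exfalso
    have : i = Nat.find hN := by omega
    rw [hnx, this] at hne
    exact hne rfl

/-- if all visits at a point are without contact triangles and there is a contact triangle, then all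
corners are contact triangles -/
theorem allbar42 (hG : G.Geo4 al kp U) {v : V} (hv : v ∈ inN G)
    (hbar : ∀ x ∈ SD G, x.2 = v → ¬ tt G (x.2, x.1)) {z : V × V} (hz : tt G z) (hzv : z.1 = v) :
    ∀ y ∈ iJ G, y.1 = v → tt G y := by
  intro y hy hyv
  have key := W4.closed51 G hG hv ((iJ G).filter fun y => y.1 = v ∧ tt G y) (by
      intro y hy
      rw [Finset.mem_filter] at hy
      exact ⟨hy.1, hy.2.1⟩)
    ⟨z, by
      rw [Finset.mem_filter]
      refine ⟨?_, hzv, hz⟩
      obtain ⟨z1, z2⟩ := z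
      simp only at hzv
      subst hzv
      exact (mem_iJ_of_inN42 G hG hv (tt_KJ42 G hz)).1⟩ (by
      rintro ⟨y1, c⟩ hy
      rw [Finset.mem_filter] at hy
      obtain ⟨h1, h2, h3⟩ := hy
      simp only at h2
      subst h2
      have h4 : tt G (c, y1) := by
        by_contra h5
        exact hbar (c, y1) ((mem_SD42 G).2 ⟨KJ_swap42 G (tt_KJ42 G h3), h5⟩) rfl h3
      have h6 := tt_rot42 G h4
      dsimp only at h6
      have h7 : sg G (c, y1) = (y1, G.ap c y1) := by
        unfold sg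
        dsimp only
        rw [(og_self66 G h6.2.1).2]
      dsimp only
      rw [h7, Finset.mem_filter]
      exact ⟨(mem_iJ_of_inN42 G hG hv (tt_KJ42 G h6)).1, rfl, h6⟩)
  have := key y hy hyv
  rw [Finset.mem_filter] at this
  exact this.2.2

/-- averaging along the boundary of a cluster -/
theorem orbit42 (hG : G.Geo4 al kp U) (F : Finset (V × V)) (hF : F ⊆ SD G) (hne : F.Nonempty)
    (hcl : ∀ x ∈ F, nx G x ∈ F) (f g : V × V → ℝ) (c : ℝ) (h : ∀ x ∈ F, f x + g x ≤ c) :
    ∃ x ∈ F, g x + f (nx G x) ≤ c := by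
  by_contra hno
  push Not at hno
  have h1 : ∑ x ∈ F, c < ∑ x ∈ F, (g x + f (nx G x)) := Finset.sum_lt_sum_of_nonempty hne hno
  have h2 : ∑ x ∈ F, (f x + g x) ≤ ∑ x ∈ F, c := Finset.sum_le_sum h
  rw [Finset.sum_add_distrib, sum_nx42 G hG F hF hcl f] at h1
  rw [Finset.sum_add_distrib] at h2
  linarith

end

end Pool.Agent.PEN.Cl
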