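import Pool.Agent.P4.Iso51
import Pool.Agent.P4.Q11

/-! # STAR, row D: closed walks with restricted corners

Two consecutive steps `a, b, c` of a walk are worth at most `H = S(a,b,c) + g(|ac|)`; if
`H ≤ 2 hs` at the corners of a set `R` the area is at most `hs` per step, up to a constant. -/

set_option autoImplicit false

namespace Pool.Agent.PEN

open Classical UpperHalfPlane

noncomputable section

/-- the abstract induction -/
theorem fwd9 (S ρ η : ℕ → ℝ) (g : ℝ) (n : ℕ) (h1 : ∀ i < n, S i ≤ g + ρ i - ρ (i + 1))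
    (h2 : ∀ i, 1 ≤ i → i < n → S (i - 1) + S i ≤ 2 * η i + ρ (i - 1) - ρ (i + 1))
    (h0 : ρ 0 = 0) (k : ℕ) (hk0 : 1 ≤ k) (hk : k ≤ n) :
    ∑ i ∈ Finset.range k, S i + ρ k ≤ g + ∑ i ∈ Finset.Ico 1 k, η i := by
  have key : ∀ j, 1 ≤ j → j ≤ n →
      (∑ i ∈ Finset.range j, S i + ρ j) + (∑ i ∈ Finset.range (j - 1), S i + ρ (j - 1)) ≤
        g + 2 * ∑ i ∈ Finset.Ico 1 j, η i := by
    intro j hj
    induction j, hj using Nat.le_induction with
    | base =>
      intro hn
      have := h1 0 (by omega)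
      simp only [Finset.sum_range_one, Nat.sub_self, Finset.sum_range_zero, Finset.Ico_self,
        Finset.sum_empty]
      rw [h0] at this ⊢
      simp only [zero_add] at this
      linarith
    | succ j hj ih =>
      intro hn
      have e1 := ih (by omega)
      have e2 := h2 j hj (by omega)
      obtain ⟨m, rfl⟩ : ∃ m, j = m + 1 := ⟨j - 1, by omega⟩
      simp only [Nat.add_sub_cancel] at e1 e2 ⊢
      rw [Finset.sum_range_succ, Finset.sum_Ico_succ_top (by omega)]
      rw [Finset.sum_range_succ] at e1 ⊢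
      linarith
  have e1 := key k hk0 hk
  obtain ⟨m, rfl⟩ : ∃ m, k = m + 1 := ⟨k - 1, by omega⟩
  have e2 := h1 m (by omega)
  simp only [Nat.add_sub_cancel] at e1
  rw [Finset.sum_range_succ] at e1 ⊢
  linarith

/-- the inequality of a fan triangle, forward -/
theorem one_f9 {d : ℝ} (v0 a c : ℍ) (h : dist a c = d) :
    S51 v0 a c ≤ g51 d + g51 (dist v0 a) - g51 (dist v0 c) := by
  have h1 := S51_le_ggg v0 a c
  rw [h, dist_comm c v0] at h1
  linarith

/-- backward -/
theorem one_b9 {d : ℝ} (v0 a c : ℍ) (h : dist a c = d) :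
    S51 v0 a c ≤ g51 d + g51 (dist v0 c) - g51 (dist v0 a) := by
  have h1 := S51_le_ggg a c v0
  have h2 : S51 a c v0 = S51 v0 a c := by
    unfold S51
    ring
  rw [h2, h, dist_comm c v0] at h1
  linarith

/-- two fan triangles -/
theorem split9 (v0 a b c : ℍ) : S51 v0 a b + S51 v0 b c = S51 v0 a c + S51 a b c := by
  unfold S51
  have h1 := kap_anti b v0
  have h2 := kap_anti c a
  linarith

theorem two_f9 (v0 a b c : ℍ) :
    S51 v0 a b + S51 v0 b c ≤ (S51 a b c + g51 (dist c a)) + g51 (dist v0 a) - g51 (dist v0 c) := by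
  have h1 := split9 v0 a b c
  have h2 := one_f9 v0 a c rfl
  rw [dist_comm a c] at h2
  linarith

theorem two_b9 (v0 a b c : ℍ) :
    S51 v0 a b + S51 v0 b c ≤ (S51 a b c + g51 (dist c a)) + g51 (dist v0 c) - g51 (dist v0 a) := by
  have h1 := split9 v0 a b c
  have h2 := one_b9 v0 a c rfl
  rw [dist_comm a c] at h2
  linarith

/-- an arbitrary corner -/
theorem corner9 {d : ℝ} (a b c : ℍ) (h1 : dist a b = d) (h2 : dist b c = d) :
    S51 a b c + g51 (dist c a) ≤ 2 * g51 d := by
  have h3 := S51_le_ggg a b c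
  rw [h1, h2] at h3
  linarith

/-- the walk seen from its start, up to the point `k` and from there back -/
theorem walk_eta9 {d : ℝ} (v : ℕ → ℍ) (b : ℕ) (h0 : v b = v 0)
    (h : ∀ i < b, dist (v i) (v (i + 1)) = d) (η : ℕ → ℝ)
    (hη : ∀ i, 1 ≤ i → i < b →
      S51 (v (i - 1)) (v i) (v (i + 1)) + g51 (dist (v (i + 1)) (v (i - 1))) ≤ 2 * η i)
    (k : ℕ) (hk0 : 1 ≤ k) (hk : k < b) :
    ∑ i ∈ Finset.range b, kap (v i) (v (i + 1)) ≤
      2 * g51 d + ∑ i ∈ Finset.Ico 1 k, η i + ∑ i ∈ Finset.Ico (k + 1) b, η i -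
        2 * g51 (dist (v 0) (v k)) := by
  rw [walk_fan51 v b h0]
  have hA := fwd9 (fun i => S51 (v 0) (v i) (v (i + 1))) (fun i => g51 (dist (v 0) (v i))) η
    (g51 d) b (fun i hi => one_f9 _ _ _ (h i hi))
    (fun i hi1 hi => by
      have e1 := two_f9 (v 0) (v (i - 1)) (v i) (v (i + 1))
      have e2 := hη i hi1 hi
      obtain ⟨m, rfl⟩ : ∃ m, i = m + 1 := ⟨i - 1, by omega⟩
      simp only [Nat.add_sub_cancel] at e1 e2 ⊢
      linarith) (by simp [g51_zero]) k hk0 hk.le
  have hB := fwd9 (fun i => S51 (v 0) (v (b - 1 - i)) (v (b - 1 - i + 1)))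
    (fun i => g51 (dist (v 0) (v (b - i)))) (fun i => η (b - i))
    (g51 d) b (fun i hi => by
      have e1 := one_b9 (v 0) (v (b - 1 - i)) (v (b - 1 - i + 1)) (h _ (by omega))
      have e3 : b - (i + 1) = b - 1 - i := by omega
      have e4 : b - i = b - 1 - i + 1 := by omega
      simp only [e3, e4]
      linarith)
    (fun i hi1 hi => by
      have e1 := two_b9 (v 0) (v (b - i - 1)) (v (b - i)) (v (b - i + 1))
      have e2 := hη (b - i) (by omega) (by omega)
      have e3 : b - 1 - (i - 1) = b - i := by omega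
      have e4 : b - 1 - i = b - i - 1 := by omega
      have e5 : b - i - 1 + 1 = b - i := by omega
      have e6 : b - (i - 1) = b - i + 1 := by omega
      have e7 : b - (i + 1) = b - i - 1 := by omega
      simp only [e3, e4, e5, e6, e7]
      linarith) (by simp [h0, g51_zero]) (b - k) (by omega) (by omega)
  have e1 : b - (b - k) = k := by omega
  simp only [e1] at hB
  have e2 : ∑ i ∈ Finset.range (b - k), S51 (v 0) (v (b - 1 - i)) (v (b - 1 - i + 1)) =
      ∑ i ∈ Finset.Ico k b, S51 (v 0) (v i) (v (i + 1)) := by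
    rw [Finset.sum_Ico_eq_sum_range]
    rw [← Finset.sum_range_reflect]
    apply Finset.sum_congr rfl
    intro i hi
    rw [Finset.mem_range] at hi
    have e3 : b - 1 - (b - k - 1 - i) = k + i := by omega
    rw [e3]
  have e3 : ∑ i ∈ Finset.Ico 1 (b - k), η (b - i) = ∑ i ∈ Finset.Ico (k + 1) b, η i := by
    refine Finset.sum_bij' (fun i _ => b - i) (fun i _ => b - i) ?_ ?_ ?_ ?_ ?_
    · intro i hi
      rw [Finset.mem_Ico] at hi ⊢
      omega
    · intro i hi
      rw [Finset.mem_Ico] at hi ⊢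
      omega
    · intro i hi
      rw [Finset.mem_Ico] at hi
      omega
    · intro i hi
      rw [Finset.mem_Ico] at hi
      omega
    · intro i _
      rfl
  rw [e2, e3] at hB
  have e4 := Finset.sum_range_add_sum_Ico (fun i => S51 (v 0) (v i) (v (i + 1))) hk.le
  rw [← e4]
  linarith

/-- the capped fan -/
theorem walk_cap9 {d : ℝ} (hd : 0 < d) {q : ℝ} (v : ℕ → ℍ) (b : ℕ)
    (hb : 8 ≤ b) (h0 : v b = v 0) (h : ∀ i < b, dist (v i) (v (i + 1)) = d)
    (hcase : ∀ i, i ≤ b → Real.tanh (dist (v 0) (v i) / 2) ≤ q) :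
    ∑ i ∈ Finset.range b, kap (v i) (v (i + 1)) ≤
      2 * (uu d 1 + uu d 2 + uu d 3) +
          ((b : ℝ) - 8) * (2 * Real.arcsin (q * Real.tanh (d / 2))) := by
  have ht0 : 0 ≤ Real.tanh (d / 2) := tanh_nonneg11 (by positivity)
  rw [walk_fan51 v b h0]
  have hfw : ∀ i, i ≤ b → dist (v 0) (v i) ≤ i * d := by
    intro i
    induction i with
    | zero => intro _; simp
    | succ i ih =>
      intro hi
      have h2 := ih (by omega)
      have h3 := dist_triangle (v 0) (v i) (v (i + 1))
      rw [h i (by omega)] at h3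
      push_cast
      linarith
  have hbw : ∀ i, i ≤ b → dist (v 0) (v (b - i)) ≤ i * d := by
    intro i
    induction i with
    | zero =>
      intro _
      rw [Nat.sub_zero, h0]
      simp
    | succ i ih =>
      intro hi
      have h2 := ih (by omega)
      have h3 := dist_triangle (v 0) (v (b - i)) (v (b - (i + 1)))
      have h4 : b - i = b - (i + 1) + 1 := by omega
      have h5 := h (b - (i + 1)) (by omega)
      rw [← h4, dist_comm] at h5
      rw [h5] at h3
      push_cast
      linarith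
  have s1 : ∀ i < b, S51 (v 0) (v i) (v (i + 1)) ≤ uu d i := fun i hi =>
    S51_le_uu hd.le (h i hi) (hfw i hi.le)
  have s2 : ∀ i j, i < b → i + 1 + j = b → S51 (v 0) (v i) (v (i + 1)) ≤ uu d j := by
    intro i j hi hj
    have h6 := hbw j (by omega)
    have h7 : b - j = i + 1 := by omega
    rw [h7] at h6
    exact S51_le_uu' hd.le (h i hi) h6
  have s3 : ∀ i < b, S51 (v 0) (v i) (v (i + 1)) ≤
      2 * Real.arcsin (q * Real.tanh (d / 2)) := by
    intro i hi
    rw [← S51_rot]
    refine (S51_le (v i) (v (i + 1)) (v 0)).trans ?_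
    rw [h i hi, dist_comm (v i) (v 0), mul_comm (Real.tanh (d / 2))]
    have h8 := hcase i hi.le
    have := Real.monotone_arcsin (mul_le_mul_of_nonneg_right h8 ht0)
    linarith
  have hu0 : uu d 0 = 0 := uu_zero51 d
  obtain ⟨m, rfl⟩ : ∃ m, b = 4 + m + 4 := ⟨b - 8, by omega⟩
  rw [Finset.sum_range_add, Finset.sum_range_add]
  have a1 : ∑ i ∈ Finset.range 4, S51 (v 0) (v i) (v (i + 1)) ≤ uu d 1 + uu d 2 + uu d 3 := by
    have e0 := s1 0 (by omega)
    have e1 := s1 1 (by omega)
    have e2 := s1 2 (by omega)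
    have e3 := s1 3 (by omega)
    rw [hu0] at e0
    simp only [Finset.sum_range_succ, Finset.sum_range_zero]
    linarith
  have a2 : ∑ i ∈ Finset.range m, S51 (v 0) (v (4 + i)) (v (4 + i + 1)) ≤
      m * (2 * Real.arcsin (q * Real.tanh (d / 2))) := by
    have := Finset.sum_le_card_nsmul (Finset.range m)
      (fun i => S51 (v 0) (v (4 + i)) (v (4 + i + 1)))
      (2 * Real.arcsin (q * Real.tanh (d / 2)))
      (fun i hi => s3 (4 + i) (by have := Finset.mem_range.mp hi; omega))
    rw [Finset.card_range, nsmul_eq_mul] at this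
    exact this
  have a3 : ∑ i ∈ Finset.range 4, S51 (v 0) (v (4 + m + i)) (v (4 + m + i + 1)) ≤
      uu d 1 + uu d 2 + uu d 3 := by
    have e0 := s2 (4 + m + 0) 3 (by omega) (by omega)
    have e1 := s2 (4 + m + 1) 2 (by omega) (by omega)
    have e2 := s2 (4 + m + 2) 1 (by omega) (by omega)
    have e3 := s2 (4 + m + 3) 0 (by omega) (by omega)
    rw [hu0] at e3
    simp only [Finset.sum_range_succ, Finset.sum_range_zero]
    linarith
  have hcast : ((4 + m + 4 : ℕ) : ℝ) - 8 = m := by
    push_cast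
    ring
  rw [hcast]
  linarith

/-- **Closed walks with restricted corners.** -/
theorem walk_disp9 {d : ℝ} (hd : 0 < d) {q hs : ℝ} (hhs : hs ≤ g51 d) (v : ℕ → ℍ) (b : ℕ)
    (hb : 8 ≤ b) (h0 : v b = v 0) (h : ∀ i < b, dist (v i) (v (i + 1)) = d) (R : Finset ℕ)
    (hR : ∀ i ∈ R, 1 ≤ i ∧ i < b ∧
      S51 (v (i - 1)) (v i) (v (i + 1)) + g51 (dist (v (i + 1)) (v (i - 1))) ≤ 2 * hs) :
    ∑ i ∈ Finset.range b, kap (v i) (v (i + 1)) ≤
      max (2 * (uu d 1 + uu d 2 + uu d 3) +
          ((b : ℝ) - 8) * (2 * Real.arcsin (q * Real.tanh (d / 2))))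
        (b * hs + 2 * (g51 d - hs) - 4 * Real.arcsin q) +
      (g51 d - hs) * ((b : ℝ) - 1 - R.card) := by
  have hRs : R ⊆ Finset.Ico 1 b := by
    intro i hi
    rw [Finset.mem_Ico]
    exact ⟨(hR i hi).1, (hR i hi).2.1⟩
  have hRc : (R.card : ℝ) ≤ (b : ℝ) - 1 := by
    have h1 := Finset.card_le_card hRs
    rw [Nat.card_Ico] at h1
    have h2 : R.card + 1 ≤ b := by omega
    have h3 : ((R.card : ℝ)) + 1 ≤ b := by exact_mod_cast h2
    linarith
  have hpos : 0 ≤ (g51 d - hs) * ((b : ℝ) - 1 - R.card) :=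
    mul_nonneg (by linarith) (by linarith)
  by_cases hcase : ∀ i, i ≤ b → Real.tanh (dist (v 0) (v i) / 2) ≤ q
  · have h1 := walk_cap9 hd v b hb h0 h hcase
    have h2 := le_max_left (2 * (uu d 1 + uu d 2 + uu d 3) +
          ((b : ℝ) - 8) * (2 * Real.arcsin (q * Real.tanh (d / 2))))
        (b * hs + 2 * (g51 d - hs) - 4 * Real.arcsin q)
    linarith
  · push Not at hcase
    obtain ⟨j, hj, hj2⟩ := hcase
    have h2 := le_max_right (2 * (uu d 1 + uu d 2 + uu d 3) +
          ((b : ℝ) - 8) * (2 * Real.arcsin (q * Real.tanh (d / 2))))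
        (b * hs + 2 * (g51 d - hs) - 4 * Real.arcsin q)
    -- a point `k` with `1 ≤ k < b`
    obtain ⟨k, hk0, hk, hk2⟩ : ∃ k, 1 ≤ k ∧ k < b ∧
        4 * Real.arcsin q ≤ 2 * g51 (dist (v 0) (v k)) := by
      have e1 : ∀ k, q < Real.tanh (dist (v 0) (v k) / 2) →
          4 * Real.arcsin q ≤ 2 * g51 (dist (v 0) (v k)) := by
        intro k hk
        unfold g51
        have := Real.monotone_arcsin hk.le
        linarith
      by_cases hj0 : 1 ≤ j ∧ j < b
      · exact ⟨j, hj0.1, hj0.2, e1 j hj2⟩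
      · have hv : v j = v 0 := by
          rcases Nat.lt_or_ge j 1 with h3 | h3
          · have : j = 0 := by omega
            rw [this]
          · have : j = b := by
              have : ¬ j < b := fun h4 => hj0 ⟨h3, h4⟩
              omega
            rw [this, h0]
        rw [hv, dist_self] at hj2
        simp only [zero_div, Real.tanh_zero] at hj2
        refine ⟨1, le_refl _, by omega, ?_⟩
        have h5 : Real.arcsin q ≤ 0 := Real.arcsin_nonpos.mpr hj2.le
        have h6 := g51_nonneg (dist_nonneg (x := v 0) (y := v 1))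
        linarith
    have h3 := walk_eta9 v b h0 h (fun i => if i ∈ R then hs else g51 d)
      (fun i hi1 hi => by
        by_cases hiR : i ∈ R
        · simp only [hiR, if_true]
          exact (hR i hiR).2.2
        · simp only [hiR, if_false]
          apply corner9
          · have := h (i - 1) (by omega)
            rwa [Nat.sub_add_cancel hi1] at this
          · exact h i hi) k hk0 hk
    have h4 : ∑ i ∈ Finset.Ico 1 k, (if i ∈ R then hs else g51 d) +
        ∑ i ∈ Finset.Ico (k + 1) b, (if i ∈ R then hs else g51 d) + hs ≤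
        ∑ i ∈ Finset.Ico 1 b, (if i ∈ R then hs else g51 d) := by
      rw [← Finset.sum_Ico_consecutive _ hk0 hk.le, Finset.sum_eq_sum_Ico_succ_bot hk]
      have : hs ≤ if k ∈ R then hs else g51 d := by split_ifs <;> linarith
      linarith
    have h5 : ∑ i ∈ Finset.Ico 1 b, (if i ∈ R then hs else g51 d) =
        R.card * hs + ((b : ℝ) - 1 - R.card) * g51 d := by
      rw [Finset.sum_ite]
      have e1 : (Finset.Ico 1 b).filter (fun i => i ∈ R) = R := by
        ext i
        rw [Finset.mem_filter]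
        exact ⟨fun h => h.2, fun h => ⟨hRs h, h⟩⟩
      have e2 := Finset.card_filter_add_card_filter_not (s := Finset.Ico 1 b) (fun i => i ∈ R)
      rw [e1] at e2 ⊢
      rw [Nat.card_Ico] at e2
      rw [Finset.sum_const, Finset.sum_const, nsmul_eq_mul, nsmul_eq_mul]
      have e3 : (((Finset.Ico 1 b).filter (fun i => i ∉ R)).card : ℝ) = (b : ℝ) - 1 - R.card := by
        have e4 : R.card + ((Finset.Ico 1 b).filter (fun i => i ∉ R)).card + 1 = b := by omega
        have e5 : (R.card : ℝ) + (((Finset.Ico 1 b).filter (fun i => i ∉ R)).card : ℝ) + 1 = b := by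
          exact_mod_cast e4
        linarith
      rw [e3]
    nlinarith

end

end Pool.Agent.PEN
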