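import Pool.Agent.P4.B51c
import Pool.Agent.P4.B9b
import Pool.Agent.P4.U11

/-! # PENNY, inequality B in the form with sharp boundary darts (D_B)

`8 n ≤ 5 b0 + s + 3 t + 2 (2 I) + K`. The proof is the one of `B_ineq_gen`; at a point outside `N` only
the base weights are used. -/

set_option autoImplicit false

namespace Pool.Agent.PEN

open Classical UpperHalfPlane

noncomputable section

section D
variable {V : Type} (G : Tg V) {al : ℝ} {kp : V → V → ℝ} {U : ℕ → ℝ}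

/-- the weights of inequality B after the exchange along the sides between two rhombi -/
theorem wB9 (hG : G.Geo al kp U) (F : V × V → Prop)
    (hF : ∀ x ∈ iJ G, RC G (G.cl x) → (F (sg G x) ↔ ¬ F x))
    (hA : ∀ C ∈ G.iC, A3 al * (G.cT C).card ≤ ∑ x ∈ G.cD C, G.ar x.1 x.2 / 3)
    (hP : ∀ C ∈ G.iC, (G.cT C).card = 3 → (G.cI C).card = 4 → ∑ x ∈ G.cJ C, wc G al x ≤ 12) :
    ∃ w : V × V → ℝ, (∀ x ∈ iJ G, (bw G al x : ℝ) ≤ w x) ∧
      (∀ v ∈ inN G, (8 : ℝ) ≤ ∑ x ∈ Jv G v, w x) ∧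
      ∑ x ∈ iJ G, w x ≤ (G.iD.card : ℝ) + 2 * G.iI.card + (Kb G al F).card := by
  -- the chosen darts
  have hch : ∀ v, ∃ x, v ∈ inN G → x ∈ Jv G v ∧ ((∃ y ∈ Jv G v, zb G F y) → zb G F x) := by
    intro v
    by_cases hv : v ∈ inN G
    · by_cases h : ∃ y ∈ Jv G v, zb G F y
      · obtain ⟨y, hy, hy2⟩ := h
        exact ⟨y, fun _ => ⟨hy, fun _ => hy2⟩⟩
      · obtain ⟨y, hy⟩ := Jv_ne51 G hG hv
        exact ⟨y, fun _ => ⟨hy, fun h2 => absurd h2 h⟩⟩
    · obtain ⟨x⟩ : Nonempty (V × V) := ⟨(v, v)⟩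
      exact ⟨x, fun h => absurd h hv⟩
  choose p hp using hch
  obtain ⟨Df, hDf⟩ : ∃ Df, Df = (inN G).filter (fun v => ∑ x ∈ Jv G v,
      (bw G al x + xw G F x) = 7 ∧ ∃ x ∈ Jv G v, zb G F x) := ⟨_, rfl⟩
  have hmDf : ∀ v, v ∈ Df ↔ v ∈ inN G ∧ ∑ x ∈ Jv G v, (bw G al x + xw G F x) = 7 ∧
      ∃ x ∈ Jv G v, zb G F x := by
    intro v
    rw [hDf, Finset.mem_filter]
  have hmK : ∀ v, v ∈ Kb G al F ↔ v ∈ inN G ∧ ∑ x ∈ Jv G v, (bw G al x + xw G F x) = 7 ∧
      ∀ x ∈ Jv G v, ¬ zb G F x := by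
    intro v
    unfold Kb
    rw [Finset.mem_filter]
  obtain ⟨Pk, hPk⟩ : ∃ Pk, Pk = Df.image p := ⟨_, rfl⟩
  obtain ⟨Bk, hBk⟩ : ∃ Bk, Bk = (Kb G al F).image p := ⟨_, rfl⟩
  have hPk1 : ∀ x ∈ Pk, x ∈ iJ G ∧ zb G F x := by
    intro x hx
    rw [hPk] at hx
    obtain ⟨v, hv, rfl⟩ := Finset.mem_image.1 hx
    rw [hmDf] at hv
    obtain ⟨h1, h2⟩ := hp v hv.1
    exact ⟨((mem_Jv51 G).1 h1).1, h2 hv.2.2⟩
  have hBk1 : ∀ x ∈ Bk, x ∈ iJ G := by
    intro x hx
    rw [hBk] at hx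
    obtain ⟨v, hv, rfl⟩ := Finset.mem_image.1 hx
    rw [hmK] at hv
    exact ((mem_Jv51 G).1 (hp v hv.1).1).1
  obtain ⟨Sk, hSk⟩ : ∃ Sk, Sk = Pk.image (sg G) := ⟨_, rfl⟩
  have hSk1 : ∀ x ∈ Sk, x ∈ iJ G := by
    intro x hx
    rw [hSk] at hx
    obtain ⟨y, hy, rfl⟩ := Finset.mem_image.1 hx
    exact (sg_mem51 G hG (hPk1 y hy).1).1
  have hSkc : Sk.card = Pk.card := by
    rw [hSk]
    apply Finset.card_image_of_injOn
    intro x hx y hy h
    exact sg_inj51 G hG (hPk1 x hx).1 (hPk1 y hy).1 h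
  have hBkc : Bk.card ≤ (Kb G al F).card := by
    rw [hBk]
    exact Finset.card_image_le
  obtain ⟨w, hw⟩ : ∃ w : V × V → ℝ, ∀ x, w x = ((bw G al x + xw G F x : ℕ) : ℝ) +
      (if x ∈ Pk then 1 else 0) - (if x ∈ Sk then 1 else 0) + (if x ∈ Bk then 1 else 0) :=
    ⟨_, fun _ => rfl⟩
  have hsumw : ∀ J : Finset (V × V), ∑ x ∈ J, w x = ((∑ x ∈ J, (bw G al x + xw G F x) : ℕ) : ℝ) +
      ((J.filter (fun x => x ∈ Pk)).card : ℝ) - ((J.filter (fun x => x ∈ Sk)).card : ℝ) +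
        ((J.filter (fun x => x ∈ Bk)).card : ℝ) := by
    intro J
    rw [Finset.sum_congr rfl (fun x _ => hw x), Finset.sum_add_distrib, Finset.sum_sub_distrib,
      Finset.sum_add_distrib, Finset.sum_boole, Finset.sum_boole, Finset.sum_boole, Nat.cast_sum]
  refine ⟨w, ?_, ?_, ?_⟩
  · intro x hx
    rw [hw]
    have p1 : (0 : ℝ) ≤ (if x ∈ Pk then 1 else 0) := by split_ifs <;> norm_num
    have p2 : (0 : ℝ) ≤ (if x ∈ Bk then 1 else 0) := by split_ifs <;> norm_num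
    by_cases hS : x ∈ Sk
    · rw [if_pos hS]
      rw [hSk] at hS
      obtain ⟨y, hy, hyx⟩ := Finset.mem_image.1 hS
      obtain ⟨h3, h4, h5, h6, h7⟩ := hPk1 y hy
      have h8 : RC G (G.cl x) := by
        rw [← hyx, (sg_mem51 G hG h3).2]
        exact h5
      have h9 : F x := by
        rw [← hyx]
        exact (hF y h3 h5).2 h6
      have e2 : xw G F x = 1 := by
        unfold xw
        rw [if_neg (RC_ne51 G h8), if_pos h8, if_pos h9]
      rw [e2]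
      push_cast
      linarith
    · rw [if_neg hS]
      push_cast
      have p3 : (0 : ℝ) ≤ (xw G F x : ℝ) := Nat.cast_nonneg _
      linarith
  · intro v hv
    rw [hsumw]
    have hS : ((Jv G v).filter (fun x => x ∈ Sk)).card ≤ ((Jv G v).filter (ob G F)).card := by
      calc ((Jv G v).filter (fun x => x ∈ Sk)).card ≤
          (((Jv G v).filter (ob G F)).image (fun x => sg G (x.2, x.1))).card := by
            apply Finset.card_le_card
            intro z hz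
            rw [Finset.mem_filter, mem_Jv51, hSk] at hz
            obtain ⟨⟨h2, h3⟩, h4⟩ := hz
            obtain ⟨y, hy, rfl⟩ := Finset.mem_image.1 h4
            obtain ⟨h5, h6⟩ := hPk1 y hy
            have h7 := zb_ob51 G F hF h5 h6
            rw [Finset.mem_image]
            refine ⟨(y.2, y.1), ?_, rfl⟩
            rw [Finset.mem_filter, mem_Jv51]
            exact ⟨⟨h6.1, h3⟩, h7⟩
        _ ≤ _ := Finset.card_image_le
    have hS' : (((Jv G v).filter (fun x => x ∈ Sk)).card : ℝ) ≤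
        (((Jv G v).filter (ob G F)).card : ℝ) := by exact_mod_cast hS
    have p1 : (0 : ℝ) ≤ (((Jv G v).filter (fun x => x ∈ Pk)).card : ℝ) := Nat.cast_nonneg _
    have p2 : (0 : ℝ) ≤ (((Jv G v).filter (fun x => x ∈ Bk)).card : ℝ) := Nat.cast_nonneg _
    rcases point51 G hG F hv with ⟨h2, h3, h4⟩ | h2
    · rw [h2]
      rw [h3] at hS'
      push_cast at hS' ⊢
      by_cases hz : ∃ x ∈ Jv G v, zb G F x
      · have h5 : p v ∈ (Jv G v).filter (fun x => x ∈ Pk) := by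
          rw [Finset.mem_filter, hPk]
          exact ⟨(hp v hv).1, Finset.mem_image_of_mem p ((hmDf v).2 ⟨hv, h2, hz⟩)⟩
        have h6 : (1 : ℝ) ≤ (((Jv G v).filter (fun x => x ∈ Pk)).card : ℝ) := by
          exact_mod_cast Finset.card_pos.2 ⟨_, h5⟩
        linarith
      · push Not at hz
        have h5 : p v ∈ (Jv G v).filter (fun x => x ∈ Bk) := by
          rw [Finset.mem_filter, hBk]
          exact ⟨(hp v hv).1, Finset.mem_image_of_mem p ((hmK v).2 ⟨hv, h2, hz⟩)⟩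
        have h6 : (1 : ℝ) ≤ (((Jv G v).filter (fun x => x ∈ Bk)).card : ℝ) := by
          exact_mod_cast Finset.card_pos.2 ⟨_, h5⟩
        linarith
    · have h2' : (8 : ℝ) + (((Jv G v).filter (ob G F)).card : ℝ) ≤
          ((∑ x ∈ Jv G v, (bw G al x + xw G F x) : ℕ) : ℝ) := by exact_mod_cast h2
      linarith
  · have hf : ∀ S : Finset (V × V), (∀ x ∈ S, x ∈ iJ G) →
        (iJ G).filter (fun x => x ∈ S) = S := by
      intro S hS
      ext x
      rw [Finset.mem_filter]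
      exact ⟨fun h => h.2, fun h => ⟨hS x h, h⟩⟩
    rw [hsumw, hf Pk (fun x hx => (hPk1 x hx).1), hf Sk hSk1, hf Bk hBk1, hSkc]
    have h2 := wsum51 G hG F hF hA hP
    have h2' : ((∑ x ∈ iJ G, (bw G al x + xw G F x) : ℕ) : ℝ) ≤
        (G.iD.card : ℝ) + 2 * G.iI.card := by exact_mod_cast h2
    have h2'' : (Bk.card : ℝ) ≤ ((Kb G al F).card : ℝ) := by exact_mod_cast hBkc
    linarith

/-- the units are at most the base weights -/
theorem wt_le_bw9 (hG : G.Geo al kp U) {x : V × V} (hx : x ∈ iJ G) :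
    G.wt al x ≤ bw G al x := by
  rw [wt_eq11 G hG]
  unfold wc
  rw [Nat.ceil_le, div_le_iff₀ (al_pos71 G hG), mul_comm]
  exact TH_bw51 G hG hx

/-- **inequality (D_B), general form** -/
theorem DB_ineq_gen9 (hG : G.Geo al kp U) (F : V × V → Prop)
    (hF : ∀ x ∈ iJ G, RC G (G.cl x) → (F (sg G x) ↔ ¬ F x))
    (hA : ∀ C ∈ G.iC, A3 al * (G.cT C).card ≤ ∑ x ∈ G.cD C, G.ar x.1 x.2 / 3)
    (hP : ∀ C ∈ G.iC, (G.cT C).card = 3 → (G.cI C).card = 4 → ∑ x ∈ G.cJ C, wc G al x ≤ 12) :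
    8 * G.P.card ≤ 5 * G.oJ.card + (G.shp al).card + G.iD.card + 2 * G.iI.card +
      (Kb G al F).card := by
  have hal := al_pos71 G hG
  obtain ⟨w, w1, w2, w3⟩ := wB9 G hG F hF hA hP
  have hR := rot9 G hG
  -- one point
  have hpt : ∀ v ∈ G.P, (8 : ℝ) ≤ 5 * ((G.oJ.filter (fun x => x.1 = v)).card : ℝ) +
      ∑ x ∈ Jv G v, w x + (((G.shp al).filter (fun x => x.2 = v)).card : ℝ) := by
    intro v hv
    have p1 : (0 : ℝ) ≤ ((G.oJ.filter (fun x => x.1 = v)).card : ℝ) := Nat.cast_nonneg _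
    have p2 : (0 : ℝ) ≤ (((G.shp al).filter (fun x => x.2 = v)).card : ℝ) := Nat.cast_nonneg _
    by_cases hN : v ∈ inN G
    · have := w2 v hN
      linarith
    · have hex : ∃ a, (v, a) ∈ G.oJ := by
        by_contra h
        exact hN (by
          unfold inN
          exact Finset.mem_filter.2 ⟨hv, h⟩)
      have h1 := L9 G hR hal hG.al2 hG.deg (tot9 G hG) hv
      have h2 : ((∑ x ∈ G.iJ.filter (fun x => x.1 = v), G.wt al x : ℕ) : ℝ) ≤
          ∑ x ∈ Jv G v, w x := by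
        rw [Nat.cast_sum]
        apply Finset.sum_le_sum
        intro x hx
        have hx1 : x ∈ iJ G := (Finset.mem_filter.1 hx).1
        refine le_trans ?_ (w1 x hx1)
        exact_mod_cast wt_le_bw9 G hG hx1
      have h3 : 1 ≤ (G.oJ.filter (fun x => x.1 = v)).card := by
        obtain ⟨a, ha⟩ := hex
        exact Finset.card_pos.2 ⟨(v, a), Finset.mem_filter.2 ⟨ha, rfl⟩⟩
      have h4 : 8 ≤ 5 * (G.oJ.filter (fun x => x.1 = v)).card +
          ∑ x ∈ G.iJ.filter (fun x => x.1 = v), G.wt al x +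
          ((G.shp al).filter (fun x => x.2 = v)).card := by omega
      have h5 : (8 : ℝ) ≤ 5 * ((G.oJ.filter (fun x => x.1 = v)).card : ℝ) +
          ((∑ x ∈ G.iJ.filter (fun x => x.1 = v), G.wt al x : ℕ) : ℝ) +
          (((G.shp al).filter (fun x => x.2 = v)).card : ℝ) := by exact_mod_cast h4
      linarith
  -- summation over the points
  have s1 : ∑ v ∈ G.P, (G.oJ.filter (fun x => x.1 = v)).card = G.oJ.card :=
    (Finset.card_eq_sum_card_fiberwise (f := Prod.fst) (t := G.P) (fun x hx =>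
      G.mem x.1 x.2 ((mem_oJ9 G).1 hx).1)).symm
  have s2 : ∑ v ∈ G.P, ((G.shp al).filter (fun x => x.2 = v)).card = (G.shp al).card :=
    (Finset.card_eq_sum_card_fiberwise (f := Prod.snd) (t := G.P) (fun x hx => by
      have h3 : x ∈ G.iB := by
        have h4 : x ∈ G.shp al := hx
        unfold Tg.shp at h4
        exact (Finset.mem_filter.1 h4).1
      exact G.mem x.2 x.1 (G.symm _ _ (G.sub ((mem_iB9 G).1 h3).1.1)))).symm
  have s3 : ∑ v ∈ G.P, ∑ x ∈ Jv G v, w x = ∑ x ∈ iJ G, w x :=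
    Finset.sum_fiberwise_of_maps_to (fun x hx =>
      G.mem x.1 x.2 (G.sub ((mem_iJ71 G).1 hx).1.1)) _
  have s4 := Finset.sum_le_sum hpt
  rw [Finset.sum_add_distrib, Finset.sum_add_distrib, ← Finset.mul_sum, s3, ← Nat.cast_sum,
    ← Nat.cast_sum, s1, s2, Finset.sum_const, nsmul_eq_mul] at s4
  have s5 : (8 : ℝ) * G.P.card ≤ 5 * G.oJ.card + (G.shp al).card + G.iD.card +
      2 * G.iI.card + (Kb G al F).card := by linarith
  exact_mod_cast s5

/-- no bad points -/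
theorem Kb_empty9 (hG : G.Geo al kp U) (F : V × V → Prop)
    (h5 : ∀ x ∈ iJ G, RC G (G.cl x) → TH G x = 2 * Real.pi - 5 * al → F x)
    (h3 : ∀ x ∈ iJ G, ∀ y ∈ iJ G, RC G (G.cl x) → RC G (G.cl y) → x.1 = y.1 → x ≠ y →
      TH G x + TH G y = 2 * Real.pi - 3 * al → F x ∨ F y) : Kb G al F = ∅ := by
  rw [Finset.eq_empty_iff_forall_notMem]
  intro v hv
  unfold Kb at hv
  rw [Finset.mem_filter] at hv
  obtain ⟨hv, h7, hno⟩ := hv
  have hx0 : ∑ x ∈ Jv G v, xw G F x = 0 := by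
    have h8 := base7_51 G hG hv
    rw [Finset.sum_add_distrib] at h7
    omega
  obtain ⟨x, hx, hR, hnF, h9⟩ := bad51 G hG F hv h7 hx0 hno
  have hxJ := (mem_Jv51 G).1 hx
  rcases h9 with h9 | ⟨y, hy, hne, hyR, hyF, h9⟩
  · exact hnF (h5 x hxJ.1 hR h9)
  · have hyJ := (mem_Jv51 G).1 hy
    rcases h3 x hxJ.1 y hyJ.1 hR hyR (hxJ.2.trans hyJ.2.symm) hne.symm h9 with h | h
    · exact hnF h
    · exact hyF h

/-- **inequality (D_B)** without bad points -/
theorem DB_ineq9 (hG : G.Geo al kp U) (F : V × V → Prop)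
    (hF : ∀ x ∈ iJ G, RC G (G.cl x) → (F (sg G x) ↔ ¬ F x))
    (h5 : ∀ x ∈ iJ G, RC G (G.cl x) → TH G x = 2 * Real.pi - 5 * al → F x)
    (h3 : ∀ x ∈ iJ G, ∀ y ∈ iJ G, RC G (G.cl x) → RC G (G.cl y) → x.1 = y.1 → x ≠ y →
      TH G x + TH G y = 2 * Real.pi - 3 * al → F x ∨ F y)
    (hA : ∀ C ∈ G.iC, A3 al * (G.cT C).card ≤ ∑ x ∈ G.cD C, G.ar x.1 x.2 / 3)
    (hP : ∀ C ∈ G.iC, (G.cT C).card = 3 → (G.cI C).card = 4 → ∑ x ∈ G.cJ C, wc G al x ≤ 12) :
    8 * G.P.card ≤ 5 * G.oJ.card + (G.shp al).card + G.iD.card + 2 * G.iI.card := by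
  have h1 := DB_ineq_gen9 G hG F hF hA hP
  rw [Kb_empty9 G hG F h5 h3, Finset.card_empty] at h1
  exact h1

end D

end

end Pool.Agent.PEN
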