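import Pool.Agent.P4.DB9
import Pool.Agent.P4.F66

/-! # PENNY, inequality (D_B) for the chosen corners `F66` -/

set_option autoImplicit false

namespace Pool.Agent.PEN

open Classical UpperHalfPlane

noncomputable section

section D
variable {V : Type} (G : Tg V) {kp : V → V → ℝ} {U : ℕ → ℝ}

/-- **inequality (D_B)** for every diameter which is not exceptional -/
theorem DB_F9 {d : ℝ} (hd : 0 < d) (hE : ¬ Exc66 d) (hG : G.Geo (alpha d) kp U)
    (hR : Rf G (alpha d) (opp51 d))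
    (hA : ∀ C ∈ G.iC, A3 (alpha d) * (G.cT C).card ≤ ∑ x ∈ G.cD C, G.ar x.1 x.2 / 3)
    (hP : ∀ C ∈ G.iC, (G.cT C).card = 3 → (G.cI C).card = 4 →
      ∑ x ∈ G.cJ C, wc G (alpha d) x ≤ 12) :
    8 * G.P.card ≤ 5 * G.oJ.card + (G.shp (alpha d)).card + G.iD.card + 2 * G.iI.card := by
  refine DB_ineq9 G hG (F66 G d) (F_alt66 G hd hG hR) (fun x _ _ h => F_five66 G hE h) ?_ hA hP
  intro x hx y hy hxC hyC _ _ h
  obtain ⟨h1, h2⟩ := TH_rg66 G hG hR hx hxC
  obtain ⟨h3, h4⟩ := TH_rg66 G hG hR hy hyC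
  exact F_two66 G hd hG.al2 hE h1 h2 h3 h4 h

end D

end

end Pool.Agent.PEN
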