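import Mathlib

/-! # Hyperbolic penny graphs: the density bound, real analysis

`lam = 3 α / π`. Inequalities between a half side angle `β` and the signed angle `κ`,
`sin κ = c sin β`, `c = cosh (side / 2)`. -/

set_option autoImplicit false

namespace Pool.Agent.PEN

noncomputable section

open Real

/-- `tan (μ y) ≤ μ tan y` without denominators -/
lemma hmono39 {μ y : ℝ} (h0 : 0 ≤ μ) (h1 : μ ≤ 1) (y0 : 0 ≤ y) (y1 : y ≤ π) :
    cos y * sin (μ * y) ≤ μ * cos (μ * y) * sin y := by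
  set f : ℝ → ℝ := fun x => μ * cos (μ * x) * sin x - cos x * sin (μ * x) with hf
  have hd : ∀ x, HasDerivAt f ((1 - μ ^ 2) * (sin x * sin (μ * x))) x := by
    intro x
    have h2 : HasDerivAt (fun x : ℝ => μ * x) μ x := by
      simpa using (hasDerivAt_id x).const_mul μ
    have h3 : HasDerivAt (fun x : ℝ => cos (μ * x)) (-sin (μ * x) * μ) x :=
      (hasDerivAt_cos (μ * x)).comp x h2
    have h4 : HasDerivAt (fun x : ℝ => sin (μ * x)) (cos (μ * x) * μ) x :=
      (hasDerivAt_sin (μ * x)).comp x h2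
    have h5 := ((h3.const_mul μ).mul (hasDerivAt_sin x)).sub ((hasDerivAt_cos x).mul h4)
    refine h5.congr_deriv ?_
    ring
  have hmono : MonotoneOn f (Set.Icc 0 π) := by
    refine monotoneOn_of_deriv_nonneg (convex_Icc 0 π)
      (fun x _ => (hd x).continuousAt.continuousWithinAt)
      (fun x _ => (hd x).differentiableAt.differentiableWithinAt) ?_
    intro x hx
    rw [interior_Icc] at hx
    rw [(hd x).deriv]
    have s1 : 0 ≤ sin x := sin_nonneg_of_nonneg_of_le_pi hx.1.le hx.2.le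
    have s2 : 0 ≤ sin (μ * x) :=
      sin_nonneg_of_nonneg_of_le_pi (mul_nonneg h0 hx.1.le) (by nlinarith [hx.1, hx.2])
    exact mul_nonneg (by nlinarith) (mul_nonneg s1 s2)
  have h := hmono ⟨le_refl 0, pi_pos.le⟩ ⟨y0, y1⟩ y0
  simp only [hf, mul_zero, sin_zero, cos_zero] at h
  linarith

/-- `sin (μ x) / sin x` is increasing -/
lemma sinratio39 {μ x y : ℝ} (h0 : 0 ≤ μ) (h1 : μ ≤ 1) (x0 : 0 < x) (hxy : x ≤ y) (y1 : y < π) :
    sin (μ * x) * sin y ≤ sin (μ * y) * sin x := by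
  set f : ℝ → ℝ := fun x => sin (μ * x) / sin x with hf
  have hs : ∀ x ∈ Set.Ioo 0 π, 0 < sin x := fun x hx => sin_pos_of_pos_of_lt_pi hx.1 hx.2
  have hd : ∀ x ∈ Set.Ioo 0 π, HasDerivAt f
      ((cos (μ * x) * μ * sin x - sin (μ * x) * cos x) / sin x ^ 2) x := by
    intro x hx
    have h2 : HasDerivAt (fun x : ℝ => μ * x) μ x := by
      simpa using (hasDerivAt_id x).const_mul μ
    have h4 : HasDerivAt (fun x : ℝ => sin (μ * x)) (cos (μ * x) * μ) x :=
      (hasDerivAt_sin (μ * x)).comp x h2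
    exact h4.div (hasDerivAt_sin x) (hs x hx).ne'
  have hmono : MonotoneOn f (Set.Ioo 0 π) := by
    refine monotoneOn_of_deriv_nonneg (convex_Ioo 0 π)
      (fun x hx => (hd x hx).continuousAt.continuousWithinAt)
      (fun x hx => (hd x (interior_subset hx)).differentiableAt.differentiableWithinAt) ?_
    intro x hx
    rw [isOpen_Ioo.interior_eq] at hx
    rw [(hd x hx).deriv]
    have := hmono39 h0 h1 hx.1.le hx.2.le
    exact div_nonneg (by linarith) (sq_nonneg _)
  have hx : x ∈ Set.Ioo 0 π := ⟨x0, by linarith⟩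
  have hy : y ∈ Set.Ioo 0 π := ⟨by linarith, y1⟩
  have h := hmono hx hy hxy
  simp only [hf] at h
  rw [div_le_div_iff₀ (hs x hx) (hs y hy)] at h
  exact h

/-- `Q0 = √3 tan (α/2)` satisfies `Q0 ≤ 3 α / π` -/
lemma Q0_le39 {α Q0 : ℝ} (a0 : 0 < α) (a1 : α < π / 3) (hQ : Q0 * cos (α / 2) = √3 * sin (α / 2)) :
    Q0 ≤ 3 * α / π := by
  have hp := pi_pos
  have l0 : 0 ≤ 3 * α / π := by positivity
  have l1 : 3 * α / π ≤ 1 := by rw [div_le_one hp]; linarith
  have h := hmono39 (μ := 3 * α / π) (y := π / 6) l0 l1 (by positivity) (by linarith)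
  have e : 3 * α / π * (π / 6) = α / 2 := by field_simp; ring
  rw [e, cos_pi_div_six, sin_pi_div_six] at h
  have hc : 0 < cos (α / 2) := cos_pos_of_mem_Ioo ⟨by linarith, by linarith⟩
  have h2 : Q0 * cos (α / 2) ≤ 3 * α / π * cos (α / 2) := by rw [hQ]; linarith
  exact le_of_mul_le_mul_right h2 hc

lemma Q0_pos39 {α Q0 : ℝ} (a0 : 0 < α) (a1 : α < π / 3) (hQ : Q0 * cos (α / 2) = √3 * sin (α / 2)) :
    0 < Q0 := by
  have hp := pi_pos
  have hc : 0 < cos (α / 2) := cos_pos_of_mem_Ioo ⟨by linarith, by linarith⟩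
  have hs : 0 < sin (α / 2) := sin_pos_of_pos_of_lt_pi (by linarith) (by linarith)
  have h3 : 0 < √3 := Real.sqrt_pos.2 (by norm_num)
  have : 0 < Q0 * cos (α / 2) := by rw [hQ]; positivity
  exact (mul_pos_iff_of_pos_right hc).1 this

lemma Q0_lt39 {α Q0 : ℝ} (a0 : 0 < α) (a1 : α < π / 3) (hQ : Q0 * cos (α / 2) = √3 * sin (α / 2)) :
    Q0 < 1 := by
  have h := Q0_le39 a0 a1 hQ
  have hp := pi_pos
  have l1 : 3 * α / π < 1 := by rw [div_lt_one hp]; linarith
  linarith

/-- case `κ ≤ π/6` -/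
private lemma G39 {α Q0 κ : ℝ} (a0 : 0 < α) (a1 : α < π / 3)
    (hQ : Q0 * cos (α / 2) = √3 * sin (α / 2)) (k0 : 0 ≤ κ) (k1 : κ ≤ π / 6) :
    Q0 * sin κ * cos (3 * α / π * κ) ≤ sin (3 * α / π * κ) * cos κ := by
  have hp := pi_pos
  set l := 3 * α / π with hl
  have l0 : 0 < l := by positivity
  have l1 : l < 1 := by rw [hl, div_lt_one hp]; linarith
  have e : l * (π / 6) = α / 2 := by rw [hl]; field_simp; ring
  have hQ0 := Q0_pos39 a0 a1 hQ
  rcases k0.eq_or_lt with h | h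
  · rw [← h]; simp
  · -- ratio
    have r := sinratio39 (μ := (1 - l) / (1 + l)) (x := (1 + l) * κ) (y := (1 + l) * (π / 6))
      (div_nonneg (by linarith) (by linarith)) (by rw [div_le_one (by linarith)]; linarith)
      (by positivity) (mul_le_mul_of_nonneg_left k1 (by linarith)) (by nlinarith)
    have e1 : (1 - l) / (1 + l) * ((1 + l) * κ) = (1 - l) * κ := by
      field_simp
    have e2 : (1 - l) / (1 + l) * ((1 + l) * (π / 6)) = (1 - l) * (π / 6) := by
      field_simp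
    rw [e1, e2] at r
    -- value at π/6
    have v : (1 + Q0) * sin ((1 - l) * (π / 6)) = (1 - Q0) * sin ((1 + l) * (π / 6)) := by
      rw [show (1 - l) * (π / 6) = π / 6 - α / 2 by linarith,
        show (1 + l) * (π / 6) = π / 6 + α / 2 by linarith, sin_sub, sin_add, sin_pi_div_six,
        cos_pi_div_six]
      linear_combination hQ
    have S : 0 < sin ((1 + l) * (π / 6)) :=
      sin_pos_of_pos_of_lt_pi (by positivity) (by nlinarith)
    have w : (1 + Q0) * sin ((1 - l) * κ) ≤ (1 - Q0) * sin ((1 + l) * κ) := by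
      have h1 := mul_le_mul_of_nonneg_left r (show 0 ≤ 1 + Q0 by linarith)
      have h2 : sin ((1 + l) * (π / 6)) * ((1 + Q0) * sin ((1 - l) * κ)) ≤
          sin ((1 + l) * (π / 6)) * ((1 - Q0) * sin ((1 + l) * κ)) := by
        calc _ = (1 + Q0) * (sin ((1 - l) * κ) * sin ((1 + l) * (π / 6))) := by ring
          _ ≤ (1 + Q0) * (sin ((1 - l) * (π / 6)) * sin ((1 + l) * κ)) := h1
          _ = (1 + Q0) * sin ((1 - l) * (π / 6)) * sin ((1 + l) * κ) := by ring
          _ = _ := by rw [v]; ring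
      exact le_of_mul_le_mul_left h2 S
    have p1 : sin ((1 - l) * κ) = sin κ * cos (l * κ) - cos κ * sin (l * κ) := by
      rw [← sin_sub]; ring_nf
    have p2 : sin ((1 + l) * κ) = sin κ * cos (l * κ) + cos κ * sin (l * κ) := by
      rw [← sin_add]; ring_nf
    rw [p1, p2] at w
    nlinarith

/-- **Claim A**: a nonnegative half side angle -/
theorem claimA39 {α Q0 c β κ : ℝ} (a0 : 0 < α) (a1 : α < π / 3)
    (hQ : Q0 * cos (α / 2) = √3 * sin (α / 2)) (hc : 1 ≤ 2 * sin (α / 2) * c)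
    (b0 : 0 ≤ β) (b1 : β < π / 2) (k0 : 0 ≤ κ) (k1 : κ < π / 2) (hs : sin κ = c * sin β)
    (hq : cos κ ≤ Q0 * (c * cos β)) : β ≤ 3 * α / π * κ := by
  have hp := pi_pos
  have l0 : 0 < 3 * α / π := by positivity
  have l1 : 3 * α / π < 1 := by rw [div_lt_one hp]; linarith
  have e : 3 * α / π * (π / 6) = α / 2 := by field_simp; ring
  have sb : 0 ≤ sin β := sin_nonneg_of_nonneg_of_le_pi b0 (by linarith)
  have cb : 0 < cos β := cos_pos_of_mem_Ioo ⟨by linarith, b1⟩
  have ck : 0 < cos κ := cos_pos_of_mem_Ioo ⟨by linarith, k1⟩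
  have sk : 0 ≤ sin κ := sin_nonneg_of_nonneg_of_le_pi k0 (by linarith)
  have hlk : 3 * α / π * κ ≤ κ := by nlinarith
  have hlk0 : 0 ≤ 3 * α / π * κ := by positivity
  have sa : 0 < sin (α / 2) := sin_pos_of_pos_of_lt_pi (by linarith) (by linarith)
  rcases le_total κ (π / 6) with h | h
  · have g := G39 a0 a1 hQ k0 h
    have cl : 0 < cos (3 * α / π * κ) := cos_pos_of_mem_Ioo ⟨by linarith, by linarith⟩
    -- sin β cos κ ≤ Q0 sin κ cos β
    have h1 : sin β * cos κ ≤ Q0 * sin κ * cos β := by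
      have := mul_le_mul_of_nonneg_left hq sb
      calc sin β * cos κ ≤ sin β * (Q0 * (c * cos β)) := this
        _ = Q0 * (c * sin β) * cos β := by ring
        _ = _ := by rw [← hs]
    have h2 : cos κ * (sin β * cos (3 * α / π * κ)) ≤ cos κ * (sin (3 * α / π * κ) * cos β) := by
      have h3 := mul_le_mul_of_nonneg_right h1 cl.le
      have h4 := mul_le_mul_of_nonneg_right g cb.le
      calc cos κ * (sin β * cos (3 * α / π * κ)) = sin β * cos κ * cos (3 * α / π * κ) := by ring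
        _ ≤ Q0 * sin κ * cos β * cos (3 * α / π * κ) := h3
        _ = Q0 * sin κ * cos (3 * α / π * κ) * cos β := by ring
        _ ≤ sin (3 * α / π * κ) * cos κ * cos β := h4
        _ = _ := by ring
    have h5 : sin (β - 3 * α / π * κ) ≤ 0 := by
      have := le_of_mul_le_mul_left h2 ck
      rw [sin_sub]; linarith
    by_contra hcon
    push Not at hcon
    have := sin_pos_of_pos_of_lt_pi (show 0 < β - 3 * α / π * κ by linarith) (by linarith)
    linarith
  · have r := sinratio39 (μ := 3 * α / π) (x := π / 6) (y := κ) l0.le l1.le (by positivity) h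
      (by linarith)
    rw [e, sin_pi_div_six] at r
    have h1 : sin β ≤ sin (3 * α / π * κ) := by
      have h2 : sin β ≤ 2 * sin (α / 2) * sin κ := by
        rw [hs]
        have := mul_le_mul_of_nonneg_right hc sb
        linarith
      linarith
    by_contra hcon
    push Not at hcon
    have := sin_lt_sin_of_lt_of_le_pi_div_two (by linarith) b1.le hcon
    linarith

/-- `κ - β` is increasing -/
private lemma diff_mono39 {c b β' k κ' : ℝ} (hc : 1 ≤ c) (b0 : 0 ≤ b) (hbb : b ≤ β')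
    (b1 : β' < π / 2) (k0 : 0 ≤ k) (k1 : k < π / 2) (k0' : 0 ≤ κ') (k1' : κ' < π / 2)
    (hs : sin k = c * sin b) (hs' : sin κ' = c * sin β') : β' - b ≤ κ' - k := by
  have hp := pi_pos
  have key : ∀ {β κ : ℝ}, 0 ≤ β → β < π / 2 → 0 ≤ κ → κ < π / 2 → sin κ = c * sin β →
      sin (κ - β) * (c * cos β + cos κ) = sin β * (c ^ 2 - 1) ∧ 0 < c * cos β + cos κ ∧
        β ≤ κ := by
    intro β κ h1 h2 h3 h4 h5
    have cb : 0 < cos β := cos_pos_of_mem_Ioo ⟨by linarith, h2⟩
    have ck : 0 < cos κ := cos_pos_of_mem_Ioo ⟨by linarith, h4⟩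
    have sb : 0 ≤ sin β := sin_nonneg_of_nonneg_of_le_pi h1 (by linarith)
    have e1 := sin_sq_add_cos_sq β
    have e2 := sin_sq_add_cos_sq κ
    refine ⟨?_, ?_, ?_⟩
    · rw [sin_sub, h5]
      rw [h5] at e2
      linear_combination (c ^ 2 * sin β) * e1 - sin β * e2
    · have : 0 < c * cos β := by positivity
      linarith
    · by_contra hcon
      push Not at hcon
      have := sin_lt_sin_of_lt_of_le_pi_div_two (by linarith) h2.le hcon
      nlinarith
  obtain ⟨a1, a2, a3⟩ := key b0 (by linarith) k0 k1 hs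
  obtain ⟨c1, c2, c3⟩ := key (by linarith) b1 k0' k1' hs'
  have hbs : sin b ≤ sin β' := sin_le_sin_of_le_of_le_pi_div_two (by linarith) b1.le hbb
  have sb : 0 ≤ sin b := sin_nonneg_of_nonneg_of_le_pi b0 (by linarith)
  have hkk : k ≤ κ' := by
    by_contra hcon
    push Not at hcon
    have := sin_lt_sin_of_lt_of_le_pi_div_two (by linarith) k1.le hcon
    nlinarith
  have cbb : cos β' ≤ cos b := cos_le_cos_of_nonneg_of_le_pi b0 (by linarith) hbb
  have ckk : cos κ' ≤ cos k := cos_le_cos_of_nonneg_of_le_pi k0 (by linarith) hkk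
  have hden : c * cos β' + cos κ' ≤ c * cos b + cos k := by nlinarith
  have hc2 : 0 ≤ c ^ 2 - 1 := by nlinarith
  have f1 : sin (k - b) = sin b * (c ^ 2 - 1) / (c * cos b + cos k) := by
    rw [eq_div_iff a2.ne']; exact a1
  have f2 : sin (κ' - β') = sin β' * (c ^ 2 - 1) / (c * cos β' + cos κ') := by
    rw [eq_div_iff c2.ne']; exact c1
  have f3 : sin (k - b) ≤ sin (κ' - β') := by
    rw [f1, f2]
    exact div_le_div₀ (mul_nonneg (by linarith) hc2) (mul_le_mul_of_nonneg_right hbs hc2) c2 hden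
  by_contra hcon
  push Not at hcon
  have := sin_lt_sin_of_lt_of_le_pi_div_two (show -(π / 2) ≤ κ' - β' by linarith)
    (show k - b ≤ π / 2 by linarith) (by linarith)
  linarith

/-- **Claim B**: an edge with one negative half side angle -/
theorem claimB39 {α Q0 c b β' k κ' : ℝ} (a0 : 0 < α) (a1 : α < π / 3)
    (hQ : Q0 * cos (α / 2) = √3 * sin (α / 2)) (hc : 1 ≤ c) (b0 : 0 ≤ b) (hbb : b ≤ β')
    (b1 : β' < π / 2) (k0 : 0 ≤ k) (k1 : k < π / 2) (k0' : 0 ≤ κ') (k1' : κ' < π / 2)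
    (hs : sin k = c * sin b) (hs' : sin κ' = c * sin β') (hq : cos k ≤ Q0 * (c * cos b)) :
    β' - b ≤ 3 * α / π * (κ' - k) := by
  have hp := pi_pos
  have l0 : 0 < 3 * α / π := by positivity
  have l1 : 3 * α / π < 1 := by rw [div_lt_one hp]; linarith
  have hd := diff_mono39 hc b0 hbb b1 k0 k1 k0' k1' hs hs'
  have hQl := Q0_le39 a0 a1 hQ
  have hQ0 := Q0_pos39 a0 a1 hQ
  set δ := β' - b with hδ
  set Δ := κ' - k with hΔ
  have δ0 : 0 ≤ δ := by linarith
  have cb : 0 < cos b := cos_pos_of_mem_Ioo ⟨by linarith, by linarith⟩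
  have ck : 0 < cos k := cos_pos_of_mem_Ioo ⟨by linarith, k1⟩
  have sb : 0 ≤ sin b := sin_nonneg_of_nonneg_of_le_pi b0 (by linarith)
  have sΔ : 0 ≤ sin Δ := sin_nonneg_of_nonneg_of_le_pi (by linarith) (by linarith)
  have h1 : sin κ' = sin k * cos Δ + cos k * sin Δ := by
    rw [← sin_add, hΔ]; ring_nf
  have h2 : sin β' = sin b * cos δ + cos b * sin δ := by
    rw [← sin_add, hδ]; ring_nf
  have h3 : cos Δ ≤ cos δ := cos_le_cos_of_nonneg_of_le_pi δ0 (by linarith) hd
  have hcb : 0 < c * cos b := by positivity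
  have h4 : c * cos b * sin δ ≤ cos k * sin Δ := by
    have e : cos k * sin Δ = c * cos b * sin δ + c * sin b * (cos δ - cos Δ) := by
      rw [hs', h2, hs] at h1
      linarith
    have : 0 ≤ c * sin b * (cos δ - cos Δ) := mul_nonneg (mul_nonneg (by linarith) sb) (by linarith)
    linarith
  have h5 : sin δ ≤ Q0 * sin Δ := by
    have h6 := mul_le_mul_of_nonneg_right hq sΔ
    have h7 : c * cos b * sin δ ≤ c * cos b * (Q0 * sin Δ) := by
      calc _ ≤ cos k * sin Δ := h4
        _ ≤ Q0 * (c * cos b) * sin Δ := h6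
        _ = _ := by ring
    exact le_of_mul_le_mul_left h7 hcb
  have h8 : sin δ ≤ 3 * α / π * sin Δ := h5.trans (mul_le_mul_of_nonneg_right hQl sΔ)
  -- concavity of sin
  have h9 : 3 * α / π * sin Δ ≤ sin (3 * α / π * Δ) := by
    have hconc := strictConcaveOn_sin_Icc.concaveOn
    have m1 : Δ ∈ Set.Icc 0 π := ⟨by linarith, by linarith⟩
    have m2 : (0 : ℝ) ∈ Set.Icc 0 π := ⟨le_refl 0, hp.le⟩
    have := hconc.2 m1 m2 l0.le (show 0 ≤ 1 - 3 * α / π by linarith) (by ring)
    simp only [smul_eq_mul, sin_zero, mul_zero, add_zero] at this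
    exact this
  by_contra hcon
  push Not at hcon
  have := sin_lt_sin_of_lt_of_le_pi_div_two (show -(π / 2) ≤ 3 * α / π * Δ by nlinarith)
    (show δ ≤ π / 2 by linarith) hcon
  linarith

/-- the edge inequality for two nonnegative or mixed half side angles -/
theorem edge39 {α Q0 c β β' κ κ' : ℝ} (a0 : 0 < α) (a1 : α < π / 3)
    (hQ : Q0 * cos (α / 2) = √3 * sin (α / 2)) (hc1 : 1 ≤ c) (hc : 1 ≤ 2 * sin (α / 2) * c)
    (b0 : -(π / 2) < β) (b1 : β < π / 2) (b0' : -(π / 2) < β') (b1' : β' < π / 2)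
    (k0 : -(π / 2) < κ) (k1 : κ < π / 2) (k0' : -(π / 2) < κ') (k1' : κ' < π / 2)
    (hs : sin κ = c * sin β) (hs' : sin κ' = c * sin β') (hq : cos κ ≤ Q0 * (c * cos β))
    (hq' : cos κ' ≤ Q0 * (c * cos β')) (h : 0 ≤ β + β') : β + β' ≤ 3 * α / π * (κ + κ') := by
  have hp := pi_pos
  -- signs of κ and β agree
  have sg : ∀ {β κ : ℝ}, -(π / 2) < β → β < π / 2 → -(π / 2) < κ → κ < π / 2 →
      sin κ = c * sin β → 0 ≤ β → 0 ≤ κ := by
    intro β κ h1 h2 h3 h4 h5 h6
    by_contra hcon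
    push Not at hcon
    have s1 := sin_neg_of_neg_of_neg_pi_lt hcon (by linarith)
    have s2 := sin_nonneg_of_nonneg_of_le_pi h6 (by linarith)
    nlinarith
  have main : ∀ {β β' κ κ' : ℝ}, -(π / 2) < β → β < π / 2 → -(π / 2) < β' → β' < π / 2 →
      -(π / 2) < κ → κ < π / 2 → -(π / 2) < κ' → κ' < π / 2 → sin κ = c * sin β →
      sin κ' = c * sin β' → cos κ ≤ Q0 * (c * cos β) → cos κ' ≤ Q0 * (c * cos β') →
      0 ≤ β + β' → β ≤ β' → β + β' ≤ 3 * α / π * (κ + κ') := by
    intro β β' κ κ' b0 b1 b0' b1' k0 k1 k0' k1' hs hs' hq hq' h hle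
    have hβ' : 0 ≤ β' := by linarith
    have hκ' := sg b0' b1' k0' k1' hs' hβ'
    rcases le_or_gt 0 β with h1 | h1
    · have hκ := sg b0 b1 k0 k1 hs h1
      have r1 := claimA39 a0 a1 hQ hc h1 b1 hκ k1 hs hq
      have r2 := claimA39 a0 a1 hQ hc hβ' b1' hκ' k1' hs' hq'
      linarith
    · have hκ : 0 ≤ -κ := by
        refine sg (β := -β) (by linarith) (by linarith) (by linarith) (by linarith) ?_ (by linarith)
        rw [sin_neg, sin_neg, hs]; ring
      have r := claimB39 (b := -β) (β' := β') (k := -κ) (κ' := κ') a0 a1 hQ hc1 (by linarith)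
        (by linarith) b1' hκ (by linarith) hκ' k1' (by rw [sin_neg, sin_neg, hs]; ring) hs'
        (by rw [cos_neg, cos_neg]; exact hq)
      linarith
  rcases le_total β β' with hle | hle
  · exact main b0 b1 b0' b1' k0 k1 k0' k1' hs hs' hq hq' h hle
  · have := main b0' b1' b0 b1 k0' k1' k0 k1 hs' hs hq' hq (by linarith) hle
    linarith

/-! ### Three numbers -/

/-- `κ₁ + κ₂ + κ₃ = π/2` -/
theorem sum_kappa39 {t1 t2 t3 Q : ℝ} (hQ : 0 < Q) (h : t1 * t2 + t2 * t3 + t3 * t1 = Q ^ 2)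
    (h12 : 0 < t1 + t2) (h23 : 0 < t2 + t3) (h31 : 0 < t3 + t1) :
    arctan (t1 / Q) + arctan (t2 / Q) + arctan (t3 / Q) = π / 2 := by
  have hp := pi_pos
  set k1 := arctan (t1 / Q) with hk1
  set k2 := arctan (t2 / Q) with hk2
  set k3 := arctan (t3 / Q) with hk3
  have c1 : 0 < cos k1 := cos_arctan_pos _
  have c2 : 0 < cos k2 := cos_arctan_pos _
  have c3 : 0 < cos k3 := cos_arctan_pos _
  have s1 : sin k1 = cos k1 * (t1 / Q) := by
    rw [← tan_arctan (t1 / Q), tan_eq_sin_div_cos, ← hk1]; field_simp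
  have s2 : sin k2 = cos k2 * (t2 / Q) := by
    rw [← tan_arctan (t2 / Q), tan_eq_sin_div_cos, ← hk2]; field_simp
  have s3 : sin k3 = cos k3 * (t3 / Q) := by
    rw [← tan_arctan (t3 / Q), tan_eq_sin_div_cos, ← hk3]; field_simp
  have hcos : cos (k1 + k2 + k3) = 0 := by
    rw [cos_add, cos_add, sin_add, s1, s2, s3]
    have : t1 / Q * (t2 / Q) + t2 / Q * (t3 / Q) + t3 / Q * (t1 / Q) = 1 := by
      have hQ2 : Q ^ 2 ≠ 0 := by positivity
      have : t1 / Q * (t2 / Q) + t2 / Q * (t3 / Q) + t3 / Q * (t1 / Q) =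
          (t1 * t2 + t2 * t3 + t3 * t1) / Q ^ 2 := by field_simp
      rw [this, h, div_self hQ2]
    linear_combination (-(cos k1 * cos k2 * cos k3)) * this
  have hlt : ∀ x : ℝ, arctan x < π / 2 := arctan_lt_pi_div_two
  have hgt : ∀ x : ℝ, -(π / 2) < arctan x := neg_pi_div_two_lt_arctan
  have pair : ∀ {a b : ℝ}, 0 < a + b → 0 < arctan (a / Q) + arctan (b / Q) := by
    intro a b hab
    have : -(b / Q) < a / Q := by
      rw [← neg_div]
      exact div_lt_div_of_pos_right (by linarith) hQ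
    have h2 := arctan_strictMono this
    rw [arctan_neg] at h2
    linarith
  have p12 := pair h12
  have p23 := pair h23
  have p31 := pair h31
  have l1 := hlt (t1 / Q)
  have l2 := hlt (t2 / Q)
  have l3 := hlt (t3 / Q)
  rw [← hk1, ← hk2] at p12
  rw [← hk2, ← hk3] at p23
  rw [← hk3, ← hk1] at p31
  rw [← hk1] at l1
  rw [← hk2] at l2
  rw [← hk3] at l3
  have hpos : 0 < k1 + k2 + k3 := by linarith
  have hlt3 : k1 + k2 + k3 < 3 * (π / 2) := by linarith
  obtain ⟨n, hn⟩ := cos_eq_zero_iff.1 hcos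
  have hn0 : n = 0 := by
    have a1 : (0 : ℝ) < (2 * (n : ℝ) + 1) * π / 2 := by rw [← hn]; exact hpos
    have a2 : (2 * (n : ℝ) + 1) * π / 2 < 3 * (π / 2) := by rw [← hn]; exact hlt3
    have a3 : (-1 : ℝ) < 2 * n := by
      by_contra hcon
      push Not at hcon
      nlinarith
    have a4 : (2 : ℝ) * n < 2 := by
      by_contra hcon
      push Not at hcon
      nlinarith
    have a5 : (-1 : ℤ) < 2 * n := by exact_mod_cast a3
    have a6 : 2 * n < 2 := by exact_mod_cast a4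
    omega
  rw [hn, hn0]
  push_cast
  ring

end

end Pool.Agent.PEN
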