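import Pool.Agent.P4.P51
import Pool.Agent.PEN.B39b

/-! # Hyperbolic penny graphs, part 2: area of isosceles triangles (row X4) -/

set_option autoImplicit false

namespace Pool.Agent.PEN

open Classical UpperHalfPlane

noncomputable section

/-- X4: area of the isosceles triangle with legs `d` and apex angle `psi` -/
def sA (d psi : ℝ) : ℝ := 2 * Real.arctan (Real.tanh (d / 2) ^ 2 * Real.sin psi /
  (1 - Real.tanh (d / 2) ^ 2 * Real.cos psi))

theorem S_iso {d : ℝ} (hd : 0 < d) {v a b : ℍ} (h1 : dist v a = d) (h2 : dist v b = d) :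
    kap v a + kap a b + kap b v = sA d (ang v a b) :=
  S51_isosceles hd h1 h2

/-- `tanh (d/2) ^ 2 = 2 cos alpha - 1` -/
theorem tanh_sq39 {d : ℝ} (hd : 0 < d) : Real.tanh (d / 2) ^ 2 = 2 * Real.cos (alpha d) - 1 := by
  have hc2 : 0 < Real.cosh (d / 2) := Real.cosh_pos _
  have hcd : Real.cosh d = 2 * Real.cosh (d / 2) ^ 2 - 1 := by
    have h := Real.cosh_two_mul (d / 2)
    have h2 := Real.cosh_sq (d / 2)
    rw [show 2 * (d / 2) = d by ring] at h
    linarith
  rw [cos_alpha hd, Real.tanh_eq_sinh_div_cosh, div_pow, Real.sinh_sq, hcd]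
  field_simp
  ring

/-- a sum `sin + T cos` on an interval is at least its minimum at the ends -/
private lemma conc39 {a b x T : ℝ} (ha : 0 ≤ a)
    (hT : 0 ≤ T) (hbT : b + Real.arctan T ≤ Real.pi) (hax : a ≤ x) (hxb : x ≤ b) {m : ℝ}
    (h1 : m ≤ Real.sin a + T * Real.cos a) (h2 : m ≤ Real.sin b + T * Real.cos b) :
    m ≤ Real.sin x + T * Real.cos x := by
  set w := Real.arctan T with hw
  have hw0 : 0 ≤ w := Real.arctan_nonneg.2 hT
  have hcw : 0 < Real.cos w := Real.cos_arctan_pos T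
  have key : ∀ y : ℝ, Real.sin y + T * Real.cos y = Real.sin (y + w) / Real.cos w := by
    intro y
    have hT' : T = Real.sin w / Real.cos w := by
      rw [← Real.tan_eq_sin_div_cos, hw, Real.tan_arctan]
    rw [Real.sin_add, hT']
    field_simp
  rw [key] at h1 h2 ⊢
  have hconc := strictConcaveOn_sin_Icc.concaveOn
  rcases hax.eq_or_lt with h | h
  · rw [← h]; exact h1
  have hab : a < b := lt_of_lt_of_le h hxb
  have s1 : 0 ≤ (b - x) / (b - a) := div_nonneg (by linarith) (by linarith)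
  have s2 : 0 ≤ (x - a) / (b - a) := div_nonneg (by linarith) (by linarith)
  have s3 : (b - x) / (b - a) + (x - a) / (b - a) = 1 := by
    rw [← add_div, div_eq_one_iff_eq (by linarith)]; ring
  have m1 : a + w ∈ Set.Icc 0 Real.pi := ⟨by linarith, by linarith⟩
  have m2 : b + w ∈ Set.Icc 0 Real.pi := ⟨by linarith, by linarith⟩
  have hx := hconc.2 m1 m2 s1 s2 s3
  simp only [smul_eq_mul] at hx
  have e : (b - x) / (b - a) * (a + w) + (x - a) / (b - a) * (b + w) = x + w := by
    have : b - a ≠ 0 := by linarith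
    field_simp
    ring
  rw [e] at hx
  rw [le_div_iff₀ hcw] at h1 h2 ⊢
  refine le_trans ?_ hx
  calc m * Real.cos w = (b - x) / (b - a) * (m * Real.cos w) + (x - a) / (b - a) *
        (m * Real.cos w) := by rw [← add_mul, s3, one_mul]
    _ ≤ _ := add_le_add (mul_le_mul_of_nonneg_left h1 s1) (mul_le_mul_of_nonneg_left h2 s2)

/-- from the linear form to `sA` -/
private lemma sA_of39 {d psi T : ℝ} (hd : 0 < d)
    (h : T ≤ Real.tanh (d / 2) ^ 2 * (Real.sin psi + T * Real.cos psi)) :
    2 * Real.arctan T ≤ sA d psi := by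
  have t1 : Real.tanh (d / 2) < 1 := Real.tanh_lt_one _
  have t0 : 0 < Real.tanh (d / 2) := by
    rw [Real.tanh_eq_sinh_div_cosh]
    exact div_pos (Real.sinh_pos_iff.2 (by linarith)) (Real.cosh_pos _)
  have hτ0 : 0 < Real.tanh (d / 2) ^ 2 := by positivity
  have hτ1 : Real.tanh (d / 2) ^ 2 < 1 := by nlinarith
  have hden : 0 < 1 - Real.tanh (d / 2) ^ 2 * Real.cos psi := by
    have := Real.cos_le_one psi
    nlinarith
  unfold sA
  have : T ≤ Real.tanh (d / 2) ^ 2 * Real.sin psi / (1 - Real.tanh (d / 2) ^ 2 * Real.cos psi) := by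
    rw [le_div_iff₀ hden]
    linarith
  linarith [Real.arctan_strictMono.monotone this]

private lemma sin_add_le39 {x y : ℝ} (hx : 0 ≤ Real.sin x) (hy : 0 ≤ Real.sin y) :
    Real.sin (x + y) ≤ Real.sin x + Real.sin y := by
  rw [Real.sin_add]
  have := Real.cos_le_one x
  have := Real.cos_le_one y
  nlinarith

/-- `4 tan (3y) ≤ 3 tan (4y)` -/
private lemma tan34_39 {y : ℝ} (h0 : 0 ≤ y) (h1 : 4 * y < Real.pi / 2) :
    4 * Real.tan (3 * y) ≤ 3 * Real.tan (4 * y) := by
  have hs : ∀ k : ℝ, 0 ≤ k → k ≤ 8 → 0 ≤ Real.sin (k * y) := fun k hk hk' =>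
    Real.sin_nonneg_of_nonneg_of_le_pi (by positivity) (by nlinarith)
  have hy1 := hs 1 (by norm_num) (by norm_num)
  rw [one_mul] at hy1
  have e2 : Real.sin (2 * y) ≤ 2 * Real.sin y := by
    have := sin_add_le39 hy1 hy1
    rw [← two_mul] at this
    linarith
  have e3 : Real.sin (3 * y) ≤ 3 * Real.sin y := by
    have := sin_add_le39 (hs 2 (by norm_num) (by norm_num)) hy1
    rw [show 2 * y + y = 3 * y by ring] at this
    linarith
  have e4 : Real.sin (4 * y) ≤ 4 * Real.sin y := by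
    have := sin_add_le39 (hs 2 (by norm_num) (by norm_num)) (hs 2 (by norm_num) (by norm_num))
    rw [show 2 * y + 2 * y = 4 * y by ring] at this
    linarith
  have e7 : Real.sin (7 * y) ≤ 7 * Real.sin y := by
    have := sin_add_le39 (hs 4 (by norm_num) (by norm_num)) (hs 3 (by norm_num) (by norm_num))
    rw [show 4 * y + 3 * y = 7 * y by ring] at this
    linarith
  have c3 : 0 < Real.cos (3 * y) := Real.cos_pos_of_mem_Ioo ⟨by linarith [Real.pi_pos], by linarith⟩
  have c4 : 0 < Real.cos (4 * y) := Real.cos_pos_of_mem_Ioo ⟨by linarith [Real.pi_pos], by linarith⟩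
  rw [Real.tan_eq_sin_div_cos, Real.tan_eq_sin_div_cos, ← mul_div_assoc, ← mul_div_assoc,
    div_le_div_iff₀ c3 c4]
  have h7 : Real.sin (7 * y) = Real.sin (4 * y) * Real.cos (3 * y) +
      Real.cos (4 * y) * Real.sin (3 * y) := by
    rw [← Real.sin_add]; ring_nf
  have h1' : Real.sin y = Real.sin (4 * y) * Real.cos (3 * y) -
      Real.cos (4 * y) * Real.sin (3 * y) := by
    rw [← Real.sin_sub]; ring_nf
  nlinarith

theorem sA_ge {d psi : ℝ} (hd : 0 < d) (ha : 2 * Real.pi < 7 * alpha d) (h1 : alpha d ≤ psi) :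
    (psi ≤ 2 * alpha d → A3 (alpha d) ≤ sA d psi) ∧
    (psi ≤ Real.pi / 2 + alpha d / 2 → 3 / 4 * A3 (alpha d) ≤ sA d psi) := by
  have hal := alpha_lt hd
  have hal0 := alpha_pos hd
  have hτ := tanh_sq39 hd
  set α := alpha d with hα
  set h := Real.cos α with hh
  set σ := Real.sin (α / 2) with hσ
  set c := Real.cos (α / 2) with hc
  have hpi := Real.pi_pos
  have hh1 : 1 / 2 < h := by
    rw [← Real.cos_pi_div_three]
    exact Real.cos_lt_cos_of_nonneg_of_le_pi hal0.le (by linarith) hal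
  have hc0 : 0 < c := Real.cos_pos_of_mem_Ioo ⟨by linarith, by linarith⟩
  have hσ0 : 0 < σ := Real.sin_pos_of_pos_of_lt_pi (by linarith) (by linarith)
  have e0 : σ ^ 2 + c ^ 2 = 1 := Real.sin_sq_add_cos_sq _
  have e1 : h = 1 - 2 * σ ^ 2 := by
    have : h = 2 * c ^ 2 - 1 := by
      rw [hh, hc, ← Real.cos_two_mul]; ring_nf
    linarith
  have e2 : Real.sin α = 2 * σ * c := by
    rw [hσ, hc, ← Real.sin_two_mul]; ring_nf
  have e3 : Real.sin (2 * α) = 4 * h * σ * c := by
    rw [Real.sin_two_mul, e2]; ring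
  have e4 : Real.cos (2 * α) = 2 * h ^ 2 - 1 := Real.cos_two_mul _
  -- T = tan (A3 / 2)
  set T := Real.tan (A3 α / 2) with hT
  have hA0 : 0 < A3 α := by unfold A3; linarith
  have hA1 : A3 α / 2 < Real.pi / 2 := by unfold A3; linarith
  have hT0 : 0 < T := Real.tan_pos_of_pos_of_lt_pi_div_two (by linarith) hA1
  have hTa : Real.arctan T = A3 α / 2 := Real.arctan_tan (by linarith) hA1
  have hc3 : Real.cos (3 * (α / 2)) = c * (2 * h - 1) := by
    rw [Real.cos_three_mul, ← hc, show h = 2 * c ^ 2 - 1 by linarith]; ring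
  have hs3 : Real.sin (3 * (α / 2)) = σ * (2 * h + 1) := by
    rw [Real.sin_three_mul, ← hσ, e1]; ring
  have hTe : T * (σ * (2 * h + 1)) = c * (2 * h - 1) := by
    rw [hT, Real.tan_eq_sin_div_cos, ← hc3, ← hs3]
    have f1 : A3 α / 2 = Real.pi / 2 - 3 * (α / 2) := by unfold A3; ring
    rw [f1, Real.sin_pi_div_two_sub, Real.cos_pi_div_two_sub]
    have f2 : Real.sin (3 * (α / 2)) ≠ 0 := by
      rw [hs3]; positivity
    exact div_mul_cancel₀ _ f2
  have hS : 0 < σ * (2 * h + 1) := by positivity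
  -- the value of the linear form at the ends
  have key1 : Real.sin α + T * Real.cos α = c / (σ * (2 * h + 1)) := by
    rw [eq_div_iff hS.ne', e2, ← hh]
    have : (2 * σ * c + T * h) * (σ * (2 * h + 1)) =
        c * (2 * σ ^ 2 * (2 * h + 1)) + (T * (σ * (2 * h + 1))) * h := by ring
    rw [this, hTe, show 2 * σ ^ 2 = 1 - h by linarith]
    ring
  have key2 : Real.sin (2 * α) + T * Real.cos (2 * α) = c / (σ * (2 * h + 1)) := by
    rw [eq_div_iff hS.ne', e3, e4]
    have : (4 * h * σ * c + T * (2 * h ^ 2 - 1)) * (σ * (2 * h + 1)) =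
        c * (2 * h * (2 * σ ^ 2) * (2 * h + 1)) + (T * (σ * (2 * h + 1))) * (2 * h ^ 2 - 1) := by
      ring
    rw [this, hTe, show 2 * σ ^ 2 = 1 - h by linarith]
    ring
  have hτT : T = (2 * h - 1) * (c / (σ * (2 * h + 1))) := by
    rw [← mul_div_assoc, eq_div_iff hS.ne', hTe]; ring
  constructor
  · intro h2
    have := conc39 (T := T) hal0.le hT0.le (by rw [hTa]; unfold A3; linarith) h1 h2
      key1.symm.le key2.symm.le
    have h3 : T ≤ Real.tanh (d / 2) ^ 2 * (Real.sin psi + T * Real.cos psi) := by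
      rw [hτ]
      calc T = (2 * h - 1) * (c / (σ * (2 * h + 1))) := hτT
        _ ≤ _ := mul_le_mul_of_nonneg_left this (by linarith)
    have h4 := sA_of39 hd h3
    rw [hTa] at h4
    linarith
  · intro h2
    -- sin (alpha/2) ≥ 3/8
    have hσ1 : 3 / 8 ≤ σ := by
      have f1 : (0.44 : ℝ) ≤ α / 2 := by linarith [Real.pi_gt_d2]
      have f2 : Real.sin 0.44 ≤ σ :=
        Real.sin_le_sin_of_le_of_le_pi_div_two (by linarith) (by linarith) f1
      have f3 := Real.sin_gt_sub_cube (x := 0.44) (by norm_num)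
      norm_num at f3 ⊢
      linarith
    have hσ2 : σ < 1 / 2 := by
      rw [← Real.sin_pi_div_six]
      exact Real.sin_lt_sin_of_lt_of_le_pi_div_two (by linarith) (by linarith) (by linarith)
    have hnum : 3 ≤ σ * (2 * h + 7) := by
      rw [e1]
      nlinarith
    have hT' : 0 ≤ 3 / 4 * T := by positivity
    have hTT : Real.arctan (3 / 4 * T) ≤ A3 α / 2 := by
      rw [← hTa]
      exact Real.arctan_strictMono.monotone (by linarith)
    have k1 : 3 / 4 * (c / (σ * (2 * h + 1))) ≤ Real.sin α + 3 / 4 * T * Real.cos α := by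
      rw [← key1, e2]
      have : 0 < σ * c := by positivity
      linarith
    have k2 : 3 / 4 * (c / (σ * (2 * h + 1))) ≤ Real.sin (Real.pi / 2 + α / 2) +
        3 / 4 * T * Real.cos (Real.pi / 2 + α / 2) := by
      have g1 : Real.sin (Real.pi / 2 + α / 2) = c := by
        rw [add_comm, Real.sin_add_pi_div_two]
      have g2 : Real.cos (Real.pi / 2 + α / 2) = -σ := by
        rw [add_comm, Real.cos_add_pi_div_two]
      rw [g1, g2, hτT]
      have g3 : c = (σ * (2 * h + 1)) * (c / (σ * (2 * h + 1))) := by field_simp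
      set m := c / (σ * (2 * h + 1)) with hm
      have hm0 : 0 < m := by positivity
      rw [g3]
      nlinarith [mul_le_mul_of_nonneg_right hnum hm0.le]
    have := conc39 (T := 3 / 4 * T) hal0.le hT'
      (by unfold A3 at hTT; linarith) h1 h2 k1 k2
    have h3 : 3 / 4 * T ≤ Real.tanh (d / 2) ^ 2 * (Real.sin psi + 3 / 4 * T * Real.cos psi) := by
      rw [hτ]
      calc 3 / 4 * T = (2 * h - 1) * (3 / 4 * (c / (σ * (2 * h + 1)))) := by
            rw [show (2 * h - 1) * (3 / 4 * (c / (σ * (2 * h + 1)))) =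
              3 / 4 * ((2 * h - 1) * (c / (σ * (2 * h + 1)))) by ring, ← hτT]
        _ ≤ _ := mul_le_mul_of_nonneg_left this (by linarith)
    have h4 := sA_of39 hd h3
    refine le_trans ?_ h4
    -- 3/8 A3 ≤ arctan (3/4 T)
    have h5 := tan34_39 (y := A3 α / 8) (by linarith) (by linarith)
    rw [show 4 * (A3 α / 8) = A3 α / 2 by ring, ← hT] at h5
    have h6 : Real.tan (3 * (A3 α / 8)) ≤ 3 / 4 * T := by linarith
    have h7 := Real.arctan_strictMono.monotone h6
    rw [Real.arctan_tan (by linarith) (by linarith)] at h7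
    linarith

end

end Pool.Agent.PEN
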