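import Pool.Agent.P4.Z71a
import Pool.Agent.P4.P51
import Pool.Agent.P4.XA39
import Pool.Agent.P4.DensA39

/-! # Hyperbolic penny graphs: the density bound, one triangle (D1)

For a positively oriented triangle `p q r`: `Kr p q r` (the tanh of the circumradius if it is less
than 1), the signed angle `kq p q r` at the circumcentre. -/

set_option autoImplicit false

namespace Pool.Agent.PEN

open Classical UpperHalfPlane

noncomputable section

/-- `tanh` of the circumradius -/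
def Kr (p q r : ℍ) : ℝ :=
  ‖(p : ℂ) - (q : ℂ)‖ * ‖(q : ℂ) - (r : ℂ)‖ * ‖(r : ℂ) - (p : ℂ)‖ / ori (kl p) (kl q) (kl r)

/-- `π/2` minus half of the angle over the side `p q` at the circumcentre -/
def kq (p q r : ℍ) : ℝ := Real.arcsin (Real.cosh (dist p q / 2) * Real.sin (bet p q r))

lemma Kr_rot39 (p q r : ℍ) : Kr q r p = Kr p q r := by
  unfold Kr
  rw [ori_rot71]
  ring

lemma Kr_pos39 {p q r : ℍ} (h : 0 < ori (kl p) (kl q) (kl r)) : 0 < Kr p q r := by
  obtain ⟨h1, h2, h3⟩ := ne_of_ori71 h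
  have g : ∀ {x y : ℍ}, x ≠ y → 0 < ‖(x : ℂ) - (y : ℂ)‖ := fun {x y} hxy =>
    norm_pos_iff.2 (sub_ne_zero.2 fun e => hxy (UpperHalfPlane.ext e))
  unfold Kr
  have := g h1
  have := g h2
  have := g h3
  positivity

lemma tanh_eq39 (p q : ℍ) : Real.tanh (dist p q / 2) =
    ‖(p : ℂ) - (q : ℂ)‖ / ‖(q : ℂ) - (starRingEnd ℂ) (p : ℂ)‖ := by
  rw [← norm_Dv51]
  unfold Dv
  rw [norm_div, norm_sub_rev (q : ℂ) (p : ℂ)]

/-- `tanh (side / 2) = K cos β` -/
lemma tanh_cos39 {p q r : ℍ} (h : 0 < ori (kl p) (kl q) (kl r)) :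
    Real.tanh (dist p q / 2) = Kr p q r * Real.cos (bet p q r) := by
  have hW := norm_pos_iff.2 (Wc_ne h)
  have hc := cos_bet p q r
  have hn := Wc_norm p q r
  have e : Real.cos (bet p q r) = ori (kl p) (kl q) (kl r) / ‖Wc p q r‖ := by
    rw [eq_div_iff hW.ne', mul_comm]; exact hc
  rw [hn] at hW
  have w1 : 0 < ‖(q : ℂ) - (starRingEnd ℂ) (p : ℂ)‖ := by
    by_contra hcon
    have : ‖(q : ℂ) - (starRingEnd ℂ) (p : ℂ)‖ = 0 := le_antisymm (not_lt.1 hcon) (norm_nonneg _)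
    rw [this] at hW
    simp at hW
  have w2 : 0 < ‖(p : ℂ) - (r : ℂ)‖ := by
    by_contra hcon
    have : ‖(p : ℂ) - (r : ℂ)‖ = 0 := le_antisymm (not_lt.1 hcon) (norm_nonneg _)
    rw [this] at hW
    simp at hW
  have w3 : 0 < ‖(q : ℂ) - (r : ℂ)‖ := by
    by_contra hcon
    have : ‖(q : ℂ) - (r : ℂ)‖ = 0 := le_antisymm (not_lt.1 hcon) (norm_nonneg _)
    rw [this] at hW
    simp at hW
  rw [tanh_eq39, e, hn]
  unfold Kr
  rw [norm_sub_rev (r : ℂ) (p : ℂ)]
  field_simp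

lemma tan_bet39 {p q r : ℍ} (h : 0 < ori (kl p) (kl q) (kl r)) :
    Real.tan (bet p q r) = (Wc p q r).im / ori (kl p) (kl q) (kl r) := by
  have hW := norm_pos_iff.2 (Wc_ne h)
  have h1 := cos_bet p q r
  have h2 := sin_bet p q r
  rw [Real.tan_eq_sin_div_cos, ← h1, ← h2, mul_div_mul_left _ _ hW.ne']

lemma cos_bet_pos39 {p q r : ℍ} (h : 0 < ori (kl p) (kl q) (kl r)) :
    0 < Real.cos (bet p q r) := by
  have hb := bet_abs h
  rw [abs_lt] at hb
  exact Real.cos_pos_of_mem_Ioo ⟨by linarith, hb.2⟩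

/-- `Σ tan βᵢ tan βⱼ = 1 - K²` -/
lemma tan_sum39 {p q r : ℍ} (h : 0 < ori (kl p) (kl q) (kl r)) :
    Real.tan (bet p q r) * Real.tan (bet q r p) + Real.tan (bet q r p) * Real.tan (bet r p q) +
      Real.tan (bet r p q) * Real.tan (bet p q r) = 1 - Kr p q r ^ 2 := by
  have h2 : 0 < ori (kl q) (kl r) (kl p) := by rw [ori_rot71]; exact h
  have h3 : 0 < ori (kl r) (kl p) (kl q) := by rw [ori_rot71]; exact h2
  rw [tan_bet39 h, tan_bet39 h2, tan_bet39 h3, ori_rot71 (kl q) (kl r) (kl p),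
    ori_rot71 (kl p) (kl q) (kl r)]
  have hi := Wc_im_sum p q r
  unfold Kr
  field_simp
  linarith

lemma tan_add39 {p q r : ℍ} (h : 0 < ori (kl p) (kl q) (kl r)) :
    0 < Real.tan (bet p q r) + Real.tan (bet r p q) := by
  have h2 : 0 < ori (kl q) (kl r) (kl p) := by rw [ori_rot71]; exact h
  have h3 : 0 < ori (kl r) (kl p) (kl q) := by rw [ori_rot71]; exact h2
  rw [tan_bet39 h, tan_bet39 h3, ori_rot71 (kl q) (kl r) (kl p), ori_rot71 (kl p) (kl q) (kl r),
    ← add_div, Wc_im_add]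
  refine div_pos ?_ h
  have hp := p.im_pos
  have hne := (ne_of_ori71 h).2.1
  have : 0 < (q.re - r.re) ^ 2 + (q.im - r.im) ^ 2 := by
    by_contra hcon
    push Not at hcon
    apply hne
    refine UpperHalfPlane.ext_re_im ?_ ?_
    · nlinarith [sq_nonneg (q.re - r.re), sq_nonneg (q.im - r.im)]
    · nlinarith [sq_nonneg (q.re - r.re), sq_nonneg (q.im - r.im)]
  positivity

/-- the sum of two base angles at a common vertex is positive -/
lemma bet_add39 {p q r : ℍ} (h : 0 < ori (kl p) (kl q) (kl r)) :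
    0 < bet p q r + bet r p q := by
  rw [← ang_eq_bet h]
  exact (ang_pos h).1

/-- a side with negative base angle is the longest -/
lemma neg_longest39 {p q r : ℍ} (h : 0 < ori (kl p) (kl q) (kl r)) (hb : bet p q r < 0) :
    dist q r < dist p q ∧ dist r p < dist p q := by
  have h2 : 0 < ori (kl q) (kl r) (kl p) := by rw [ori_rot71]; exact h
  have h3 : 0 < ori (kl r) (kl p) (kl q) := by rw [ori_rot71]; exact h2
  have a1 := bet_add39 h
  have a2 := bet_add39 h2
  have t1 := tanh_cos39 h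
  have t2 := tanh_cos39 h2
  have t3 := tanh_cos39 h3
  rw [Kr_rot39] at t2
  rw [Kr_rot39, Kr_rot39] at t3
  have hK := Kr_pos39 h
  have b1 := abs_lt.1 (bet_abs h)
  have b2 := abs_lt.1 (bet_abs h2)
  have b3 := abs_lt.1 (bet_abs h3)
  have mono : ∀ {x y : ℝ}, Real.tanh (x / 2) < Real.tanh (y / 2) → x < y := by
    intro x y hxy
    by_contra hcon
    push Not at hcon
    have := tanh_mono51 (show y / 2 ≤ x / 2 by linarith)
    linarith
  constructor
  · apply mono
    rw [t1, t2]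
    refine mul_lt_mul_of_pos_left ?_ hK
    rw [← Real.cos_neg (bet p q r)]
    exact Real.cos_lt_cos_of_nonneg_of_le_pi (by linarith) (by linarith) (by linarith)
  · apply mono
    rw [t1, t3]
    refine mul_lt_mul_of_pos_left ?_ hK
    rw [← Real.cos_neg (bet p q r)]
    exact Real.cos_lt_cos_of_nonneg_of_le_pi (by linarith) (by linarith) (by linarith)

/-- without circumcentre there is a negative base angle -/
lemma exists_neg39 {p q r : ℍ} (h : 0 < ori (kl p) (kl q) (kl r)) (hK : 1 ≤ Kr p q r) :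
    bet p q r < 0 ∨ bet q r p < 0 ∨ bet r p q < 0 := by
  have h2 : 0 < ori (kl q) (kl r) (kl p) := by rw [ori_rot71]; exact h
  have h3 : 0 < ori (kl r) (kl p) (kl q) := by rw [ori_rot71]; exact h2
  by_contra hcon
  push Not at hcon
  obtain ⟨c1, c2, c3⟩ := hcon
  have b1 := abs_lt.1 (bet_abs h)
  have b2 := abs_lt.1 (bet_abs h2)
  have b3 := abs_lt.1 (bet_abs h3)
  have t1 := Real.tan_nonneg_of_nonneg_of_le_pi_div_two c1 b1.2.le
  have t2 := Real.tan_nonneg_of_nonneg_of_le_pi_div_two c2 b2.2.le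
  have t3 := Real.tan_nonneg_of_nonneg_of_le_pi_div_two c3 b3.2.le
  have s := tan_sum39 h
  have a1 := tan_add39 h
  have a2 := tan_add39 h2
  have a3 := tan_add39 h3
  set x := Real.tan (bet p q r)
  set y := Real.tan (bet q r p)
  set z := Real.tan (bet r p q)
  have hs : x * y + y * z + z * x ≤ 0 := by rw [s]; nlinarith
  have m1 := mul_nonneg t1 t2
  have m2 := mul_nonneg t2 t3
  have m3 := mul_nonneg t3 t1
  have z1 : x * y = 0 := by linarith
  have z2 : y * z = 0 := by linarith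
  have z3 : z * x = 0 := by linarith
  rcases mul_eq_zero.1 z1 with e | e
  · rcases mul_eq_zero.1 z2 with e' | e'
    · linarith
    · linarith
  · rcases mul_eq_zero.1 z3 with e' | e'
    · linarith
    · linarith

/-- crossing an edge -/
lemma cross39 {p q r s : ℍ} (h : 0 < ori (kl p) (kl q) (kl r)) (h' : 0 < ori (kl q) (kl p) (kl s))
    (hb : bet p q r < 0) (hd : 0 ≤ bet p q r + bet q p s) (hK : 1 ≤ Kr p q r) :
    0 < bet q p s ∧ 1 ≤ Kr q p s := by
  have hpos : 0 < bet q p s := by linarith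
  refine ⟨hpos, ?_⟩
  have t1 := tanh_cos39 h
  have t2 := tanh_cos39 h'
  rw [dist_comm q p, t1] at t2
  have c1 := cos_bet_pos39 h
  have c2 := cos_bet_pos39 h'
  have b2 := abs_lt.1 (bet_abs h')
  have hcos : Real.cos (bet q p s) ≤ Real.cos (bet p q r) := by
    rw [← Real.cos_neg (bet p q r)]
    exact Real.cos_le_cos_of_nonneg_of_le_pi (by linarith) (by linarith [Real.pi_pos]) (by linarith)
  by_contra hcon
  push Not at hcon
  have hK' := Kr_pos39 h'
  have : Kr q p s * Real.cos (bet q p s) < 1 * Real.cos (bet p q r) :=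
    mul_lt_mul'' hcon (lt_of_le_of_ne hcos ?_) hK'.le c2.le |>.trans_le (le_refl _)
  · nlinarith
  · intro e
    rw [← e] at t2
    nlinarith

/-- the data of `kq` for a triangle with circumcentre -/
lemma kq_data39 {p q r : ℍ} (h : 0 < ori (kl p) (kl q) (kl r)) (hK : Kr p q r < 1) :
    Real.sin (kq p q r) = Real.cosh (dist p q / 2) * Real.sin (bet p q r) ∧
    Real.cos (kq p q r) = Real.sqrt (1 - Kr p q r ^ 2) *
      (Real.cosh (dist p q / 2) * Real.cos (bet p q r)) ∧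
    -(Real.pi / 2) < kq p q r ∧ kq p q r < Real.pi / 2 ∧
    kq p q r = Real.arctan (Real.tan (bet p q r) / Real.sqrt (1 - Kr p q r ^ 2)) := by
  have hK0 := Kr_pos39 h
  have hc := cos_bet_pos39 h
  have ht := tanh_cos39 h
  set c := Real.cosh (dist p q / 2) with hcd
  have hc0 : 0 < c := Real.cosh_pos _
  set b := bet p q r with hb
  set K := Kr p q r with hKd
  have hQ2 : 0 < 1 - K ^ 2 := by nlinarith
  have hQ : 0 < Real.sqrt (1 - K ^ 2) := Real.sqrt_pos.2 hQ2
  -- c² (1 - K² cos² β) = 1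
  have hc2 : c ^ 2 * (1 - (K * Real.cos b) ^ 2) = 1 := by
    rw [← ht, Real.tanh_eq_sinh_div_cosh, div_pow, ← hcd]
    have := Real.cosh_sq (dist p q / 2)
    rw [← hcd] at this
    field_simp
    linarith
  have hsc := Real.sin_sq_add_cos_sq b
  have h1 : (c * Real.sin b) ^ 2 = 1 - (Real.sqrt (1 - K ^ 2) * (c * Real.cos b)) ^ 2 := by
    rw [mul_pow, mul_pow, mul_pow, Real.sq_sqrt hQ2.le]
    have e : Real.sin b ^ 2 = 1 - Real.cos b ^ 2 := by linarith
    rw [e]
    linear_combination hc2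
  have hpos : 0 < Real.sqrt (1 - K ^ 2) * (c * Real.cos b) := by positivity
  have habs : |c * Real.sin b| < 1 := by
    rw [← sq_lt_one_iff_abs_lt_one, h1]
    nlinarith [pow_pos hpos 2]
  have hlt := abs_lt.1 habs
  have hs : Real.sin (kq p q r) = c * Real.sin b := by
    unfold kq
    exact Real.sin_arcsin hlt.1.le hlt.2.le
  have hco : Real.cos (kq p q r) = Real.sqrt (1 - K ^ 2) * (c * Real.cos b) := by
    unfold kq
    rw [Real.cos_arcsin]
    change Real.sqrt (1 - (c * Real.sin b) ^ 2) = _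
    rw [h1, sub_sub_cancel]
    exact Real.sqrt_sq hpos.le
  have k1 : -(Real.pi / 2) < kq p q r := by
    unfold kq; exact Real.neg_pi_div_two_lt_arcsin.2 hlt.1
  have k2 : kq p q r < Real.pi / 2 := by
    unfold kq; exact Real.arcsin_lt_pi_div_two.2 hlt.2
  refine ⟨hs, hco, k1, k2, ?_⟩
  rw [← Real.arctan_tan k1 k2]
  congr 1
  rw [Real.tan_eq_sin_div_cos, hs, hco, Real.tan_eq_sin_div_cos]
  field_simp

/-- `κ₁ + κ₂ + κ₃ = π/2` in a triangle with circumcentre -/
theorem kq_sum39 {p q r : ℍ} (h : 0 < ori (kl p) (kl q) (kl r)) (hK : Kr p q r < 1) :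
    kq p q r + kq q r p + kq r p q = Real.pi / 2 := by
  have h2 : 0 < ori (kl q) (kl r) (kl p) := by rw [ori_rot71]; exact h
  have h3 : 0 < ori (kl r) (kl p) (kl q) := by rw [ori_rot71]; exact h2
  have hK0 := Kr_pos39 h
  have d1 := (kq_data39 h hK).2.2.2.2
  have d2 := (kq_data39 h2 (by rw [Kr_rot39]; exact hK)).2.2.2.2
  have d3 := (kq_data39 h3 (by rw [Kr_rot39, Kr_rot39]; exact hK)).2.2.2.2
  rw [Kr_rot39] at d2
  rw [Kr_rot39, Kr_rot39] at d3
  rw [d1, d2, d3]
  refine sum_kappa39 (Real.sqrt_pos.2 (by nlinarith)) ?_ ?_ ?_ ?_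
  · rw [Real.sq_sqrt (by nlinarith)]
    exact tan_sum39 h
  · rw [add_comm]; exact tan_add39 h2
  · rw [add_comm]; exact tan_add39 h3
  · rw [add_comm]; exact tan_add39 h

/-- the number `Q0 = √3 tan (α/2)` -/
def Q0 (d : ℝ) : ℝ := Real.sqrt 3 * Real.tan (alpha d / 2)

lemma Q0_spec39 {d : ℝ} (hd : 0 < d) :
    Q0 d * Real.cos (alpha d / 2) = Real.sqrt 3 * Real.sin (alpha d / 2) := by
  have hal := alpha_lt hd
  have hal0 := alpha_pos hd
  have hc : 0 < Real.cos (alpha d / 2) :=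
    Real.cos_pos_of_mem_Ioo ⟨by linarith, by linarith [Real.pi_pos]⟩
  unfold Q0
  rw [Real.tan_eq_sin_div_cos]
  field_simp

/-- the circumradius is at least that of the contact triangle -/
theorem Q_le39 {d : ℝ} (hd : 0 < d) {p q r : ℍ} (h : 0 < ori (kl p) (kl q) (kl r))
    (hK : Kr p q r < 1) (h1 : d ≤ dist p q) (h2 : d ≤ dist q r) (h3 : d ≤ dist r p) :
    Real.sqrt (1 - Kr p q r ^ 2) ≤ Q0 d := by
  have o2 : 0 < ori (kl q) (kl r) (kl p) := by rw [ori_rot71]; exact h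
  have o3 : 0 < ori (kl r) (kl p) (kl q) := by rw [ori_rot71]; exact o2
  have hal := alpha_lt hd
  have hal0 := alpha_pos hd
  have hK0 := Kr_pos39 h
  have hs := tan_sum39 h
  -- τ (1 + t²) ≤ K²
  have key : ∀ {x y z : ℍ}, 0 < ori (kl x) (kl y) (kl z) → d ≤ dist x y →
      (2 * Real.cos (alpha d) - 1) * (1 + Real.tan (bet x y z) ^ 2) ≤ Kr x y z ^ 2 := by
    intro x y z o hxy
    have hc := cos_bet_pos39 o
    have ht := tanh_cos39 o
    rw [← tanh_sq39 hd]
    have h5 : 1 + Real.tan (bet x y z) ^ 2 = 1 / Real.cos (bet x y z) ^ 2 := by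
      rw [Real.tan_eq_sin_div_cos]
      have := Real.sin_sq_add_cos_sq (bet x y z)
      field_simp
      linarith
    have h6 : Real.tanh (d / 2) ^ 2 ≤ (Kr x y z * Real.cos (bet x y z)) ^ 2 := by
      rw [← ht]
      exact pow_le_pow_left₀ (tanh_nonneg51 (by linarith)) (tanh_mono51 (by linarith)) 2
    rw [h5, mul_one_div, div_le_iff₀ (by positivity), ← mul_pow]
    exact h6
  have k1 := key h h1
  have k2 := key o2 h2
  have k3 := key o3 h3
  rw [Kr_rot39] at k2
  rw [Kr_rot39, Kr_rot39] at k3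
  set t := 2 * Real.cos (alpha d) - 1 with htd
  have ht0 : 0 < t := by
    rw [htd, ← tanh_sq39 hd]
    have : 0 < Real.tanh (d / 2) := by
      rw [Real.tanh_eq_sinh_div_cosh]
      exact div_pos (Real.sinh_pos_iff.2 (by linarith)) (Real.cosh_pos _)
    positivity
  set x := Real.tan (bet p q r)
  set y := Real.tan (bet q r p)
  set z := Real.tan (bet r p q)
  set K := Kr p q r
  -- (1 - K²) (3 + t) ≤ 3 (1 - t)
  have h7 : (1 - K ^ 2) * (3 + t) ≤ 3 * (1 - t) := by
    have h8 : 1 - K ^ 2 ≤ x ^ 2 + y ^ 2 + z ^ 2 := by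
      rw [← hs]
      nlinarith [sq_nonneg (x - y), sq_nonneg (y - z), sq_nonneg (z - x)]
    nlinarith [mul_le_mul_of_nonneg_left h8 ht0.le]
  -- Q0²
  have hc : 0 < Real.cos (alpha d / 2) :=
    Real.cos_pos_of_mem_Ioo ⟨by linarith, by linarith [Real.pi_pos]⟩
  have hQ0 := Q0_pos39 hal0 hal (Q0_spec39 hd)
  have h9 : Q0 d ^ 2 * (3 + t) = 3 * (1 - t) := by
    have e1 : (Q0 d * Real.cos (alpha d / 2)) ^ 2 = 3 * Real.sin (alpha d / 2) ^ 2 := by
      rw [Q0_spec39 hd, mul_pow, Real.sq_sqrt (by norm_num)]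
    have e2 : Real.cos (alpha d) = 2 * Real.cos (alpha d / 2) ^ 2 - 1 := by
      rw [← Real.cos_two_mul]; ring_nf
    have e3 := Real.sin_sq_add_cos_sq (alpha d / 2)
    rw [htd, e2]
    rw [mul_pow] at e1
    have e4 : Real.sin (alpha d / 2) ^ 2 = 1 - Real.cos (alpha d / 2) ^ 2 := by linarith
    rw [e4] at e1
    linear_combination 4 * e1
  have h10 : 1 - K ^ 2 ≤ Q0 d ^ 2 := by
    rw [← h9] at h7
    exact le_of_mul_le_mul_right h7 (by linarith)
  calc Real.sqrt (1 - K ^ 2) ≤ Real.sqrt (Q0 d ^ 2) := Real.sqrt_le_sqrt h10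
    _ = Q0 d := Real.sqrt_sq hQ0.le

/-- `cosh (side/2) ≥ 1 / (2 sin (α/2))` -/
lemma cosh_half39 {d l : ℝ} (hd : 0 < d) (hl : d ≤ l) :
    1 ≤ 2 * Real.sin (alpha d / 2) * Real.cosh (l / 2) := by
  have hal := alpha_lt hd
  have hal0 := alpha_pos hd
  have hs : 0 < Real.sin (alpha d / 2) :=
    Real.sin_pos_of_pos_of_lt_pi (by linarith) (by linarith [Real.pi_pos])
  have h1 : Real.cosh (d / 2) ≤ Real.cosh (l / 2) :=
    Real.cosh_le_cosh.2 (by rw [abs_of_pos (by linarith), abs_of_pos (by linarith)]; linarith)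
  have h2 : 2 * Real.sin (alpha d / 2) * Real.cosh (d / 2) = 1 := by
    have e1 : (2 * Real.sin (alpha d / 2) * Real.cosh (d / 2)) ^ 2 = 1 := by
      have c1 : Real.cosh d = 2 * Real.cosh (d / 2) ^ 2 - 1 := by
        have h := Real.cosh_two_mul (d / 2)
        have h2 := Real.cosh_sq (d / 2)
        rw [show 2 * (d / 2) = d by ring] at h
        linarith
      have c2 : Real.cos (alpha d) = 1 - 2 * Real.sin (alpha d / 2) ^ 2 := by
        have := Real.cos_two_mul (alpha d / 2)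
        rw [show 2 * (alpha d / 2) = alpha d by ring] at this
        have := Real.sin_sq_add_cos_sq (alpha d / 2)
        linarith
      have c3 := cos_alpha hd
      have c4 : 0 < Real.cosh (d / 2) := Real.cosh_pos _
      rw [c2, c1] at c3
      have c5 : Real.cosh (d / 2) ^ 2 ≠ 0 := by positivity
      field_simp at c3
      nlinarith
    have h3 : 0 ≤ 2 * Real.sin (alpha d / 2) * Real.cosh (d / 2) := by
      have := Real.cosh_pos (d / 2)
      positivity
    nlinarith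
  calc (1 : ℝ) = 2 * Real.sin (alpha d / 2) * Real.cosh (d / 2) := h2.symm
    _ ≤ _ := mul_le_mul_of_nonneg_left h1 (by positivity)

/-- **inner edge**: `β + β' ≤ (3α/π)(κ + κ')` -/
theorem edge_ineq39 {d : ℝ} (hd : 0 < d) {p q r s : ℍ} (h : 0 < ori (kl p) (kl q) (kl r))
    (h' : 0 < ori (kl q) (kl p) (kl s)) (hK : Kr p q r < 1) (hK' : Kr q p s < 1)
    (d1 : d ≤ dist p q) (d2 : d ≤ dist q r) (d3 : d ≤ dist r p) (d4 : d ≤ dist p s)
    (d5 : d ≤ dist s q) (hD : 0 ≤ bet p q r + bet q p s) :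
    bet p q r + bet q p s ≤ 3 * alpha d / Real.pi * (kq p q r + kq q p s) := by
  have hal := alpha_lt hd
  have hal0 := alpha_pos hd
  obtain ⟨a1, a2, a3, a4, -⟩ := kq_data39 h hK
  obtain ⟨c1, c2, c3, c4, -⟩ := kq_data39 h' hK'
  have b1 := abs_lt.1 (bet_abs h)
  have b2 := abs_lt.1 (bet_abs h')
  rw [dist_comm q p] at c1 c2
  have e1 := cos_bet_pos39 h
  have e2 := cos_bet_pos39 h'
  have hc1 : 1 ≤ Real.cosh (dist p q / 2) := Real.one_le_cosh _
  have q1 := Q_le39 hd h hK d1 d2 d3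
  have q2 := Q_le39 hd h' hK' (by rw [dist_comm]; exact d1) d4 d5
  refine edge39 hal0 hal (Q0_spec39 hd) hc1 (cosh_half39 hd d1) b1.1 b1.2 b2.1 b2.2 a3 a4 c3 c4
    a1 c1 ?_ ?_ hD
  · rw [a2]
    exact mul_le_mul_of_nonneg_right q1 (by positivity)
  · rw [c2]
    exact mul_le_mul_of_nonneg_right q2 (by positivity)

/-- **contact side**: `β ≤ (3α/π) κ` -/
theorem side_ineq39 {d : ℝ} (hd : 0 < d) {p q r : ℍ} (h : 0 < ori (kl p) (kl q) (kl r))
    (hK : Kr p q r < 1) (d1 : dist p q = d) (d2 : d ≤ dist q r) (d3 : d ≤ dist r p) :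
    bet p q r ≤ 3 * alpha d / Real.pi * kq p q r := by
  have hal := alpha_lt hd
  have hal0 := alpha_pos hd
  obtain ⟨a1, a2, a3, a4, -⟩ := kq_data39 h hK
  have b1 := abs_lt.1 (bet_abs h)
  have e1 := cos_bet_pos39 h
  have hb : 0 ≤ bet p q r := by
    by_contra hcon
    push Not at hcon
    have := (neg_longest39 h hcon).1
    linarith
  have hc1 : 1 ≤ Real.cosh (dist p q / 2) := Real.one_le_cosh _
  have q1 := Q_le39 hd h hK d1.ge d2 d3
  have hk : 0 ≤ kq p q r := by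
    unfold kq
    refine Real.arcsin_nonneg.2 (mul_nonneg (by linarith) ?_)
    exact Real.sin_nonneg_of_nonneg_of_le_pi hb (by linarith [Real.pi_pos])
  refine claimA39 hal0 hal (Q0_spec39 hd) (cosh_half39 hd d1.ge) hb b1.2 hk a4 a1 ?_
  rw [a2]
  exact mul_le_mul_of_nonneg_right q1 (by positivity)

end

end Pool.Agent.PEN
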