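import Pool.Agent.P4.Iso51

/-! # Hyperbolic penny graphs: the dispersed isoperimetric inequality

For darts `(p e, q e)` of length `d` with a successor permutation, the enclosed area is at most
`g` per dart, minus `rho` for every pass with interior angle at most `2 al`. -/

set_option autoImplicit false
set_option linter.all false

namespace Pool.Agent.PEN

open Classical UpperHalfPlane Filter Topology

noncomputable section

/-! ### The area of a triangle with an ideal vertex -/

/-- area of the triangle with an ideal vertex, a side with `tanh (d / 2) = t` and the angle `φ` -/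
def kt51 (t φ : ℝ) : ℝ := 2 * Real.arctan (t * Real.sin φ / (1 - t * Real.cos φ))

theorem den_pos51 {t : ℝ} (h0 : 0 ≤ t) (h1 : t < 1) (φ : ℝ) : 0 < 1 - t * Real.cos φ := by
  have := Real.cos_le_one φ
  nlinarith

theorem den2_pos51 {t : ℝ} (h0 : 0 ≤ t) (h1 : t < 1) (φ : ℝ) :
    0 < 1 + t ^ 2 - 2 * t * Real.cos φ := by
  have := Real.cos_le_one φ
  nlinarith [sq_nonneg (1 - t)]

theorem kt51_zero (t : ℝ) : kt51 t 0 = 0 := by
  unfold kt51
  simp

theorem kt51_deriv {t : ℝ} (h0 : 0 ≤ t) (h1 : t < 1) (φ : ℝ) :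
    HasDerivAt (kt51 t) (2 * (t * Real.cos φ - t ^ 2) / (1 + t ^ 2 - 2 * t * Real.cos φ)) φ := by
  have hd := den_pos51 h0 h1 φ
  have hd2 := den2_pos51 h0 h1 φ
  have e1 : HasDerivAt (fun x => t * Real.sin x) (t * Real.cos φ) φ :=
    (Real.hasDerivAt_sin φ).const_mul t
  have e2 : HasDerivAt (fun x => 1 - t * Real.cos x) (t * Real.sin φ) φ := by
    have := ((Real.hasDerivAt_cos φ).const_mul t).const_sub 1
    exact this.congr_deriv (by ring)
  have e3 : HasDerivAt (kt51 t) (2 * (1 / (1 + (t * Real.sin φ / (1 - t * Real.cos φ)) ^ 2) *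
      ((t * Real.cos φ * (1 - t * Real.cos φ) - t * Real.sin φ * (t * Real.sin φ)) /
        (1 - t * Real.cos φ) ^ 2))) φ := (e1.div e2 hd.ne').arctan.const_mul 2
  have hs : Real.sin φ ^ 2 = 1 - Real.cos φ ^ 2 := by
    have := Real.sin_sq_add_cos_sq φ
    linarith
  refine e3.congr_deriv ?_
  have e4 : 1 + (t * Real.sin φ / (1 - t * Real.cos φ)) ^ 2 =
      (1 + t ^ 2 - 2 * t * Real.cos φ) / (1 - t * Real.cos φ) ^ 2 := by
    rw [div_pow, mul_pow, hs]
    field_simp
    ring
  rw [e4]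
  have e5 : t * Real.cos φ * (1 - t * Real.cos φ) - t * Real.sin φ * (t * Real.sin φ) =
      t * Real.cos φ - t ^ 2 := by
    have : t * Real.sin φ * (t * Real.sin φ) = t ^ 2 * Real.sin φ ^ 2 := by ring
    rw [this, hs]
    ring
  rw [e5]
  field_simp

theorem kt51_continuous {t : ℝ} (h0 : 0 ≤ t) (h1 : t < 1) : Continuous (kt51 t) :=
  continuous_iff_continuousAt.2 (fun φ => (kt51_deriv h0 h1 φ).continuousAt)

theorem kt51_concave {t : ℝ} (h0 : 0 ≤ t) (h1 : t < 1) :
    ConcaveOn ℝ (Set.Icc 0 Real.pi) (kt51 t) := by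
  apply AntitoneOn.concaveOn_of_deriv (convex_Icc _ _)
  · exact (kt51_continuous h0 h1).continuousOn
  · intro φ _
    exact (kt51_deriv h0 h1 φ).differentiableAt.differentiableWithinAt
  · rw [interior_Icc]
    intro x hx y hy hxy
    rw [(kt51_deriv h0 h1 x).deriv, (kt51_deriv h0 h1 y).deriv]
    have hc : Real.cos y ≤ Real.cos x :=
      Real.cos_le_cos_of_nonneg_of_le_pi hx.1.le hy.2.le hxy
    rw [div_le_div_iff₀ (den2_pos51 h0 h1 y) (den2_pos51 h0 h1 x)]
    have e : 2 * (t * Real.cos x - t ^ 2) * (1 + t ^ 2 - 2 * t * Real.cos y) -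
        2 * (t * Real.cos y - t ^ 2) * (1 + t ^ 2 - 2 * t * Real.cos x) =
        2 * (t * (1 - t ^ 2)) * (Real.cos x - Real.cos y) := by ring
    have h2 : 0 ≤ t * (1 - t ^ 2) := by
      apply mul_nonneg h0
      nlinarith
    have h3 : 0 ≤ 2 * (t * (1 - t ^ 2)) * (Real.cos x - Real.cos y) := by
      apply mul_nonneg (by linarith)
      linarith
    linarith

theorem kt51_mono {t : ℝ} (h0 : 0 ≤ t) (h1 : t < 1) :
    MonotoneOn (kt51 t) (Set.Icc 0 (Real.arccos t)) := by
  apply monotoneOn_of_deriv_nonneg (convex_Icc _ _)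
  · exact (kt51_continuous h0 h1).continuousOn
  · intro φ _
    exact (kt51_deriv h0 h1 φ).differentiableAt.differentiableWithinAt
  · rw [interior_Icc]
    intro x hx
    rw [(kt51_deriv h0 h1 x).deriv]
    have hc : t ≤ Real.cos x := by
      have := Real.cos_le_cos_of_nonneg_of_le_pi hx.1.le (Real.arccos_le_pi t) hx.2.le
      rwa [Real.cos_arccos (by linarith) h1.le] at this
    apply div_nonneg
    · nlinarith
    · exact (den2_pos51 h0 h1 x).le

theorem kt51_arccos {t : ℝ} (h0 : 0 ≤ t) (h1 : t < 1) :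
    kt51 t (Real.arccos t) = 2 * Real.arcsin t := by
  unfold kt51
  rw [Real.sin_arccos, Real.cos_arccos (by linarith) h1.le,
    Real.arcsin_eq_arctan ⟨by linarith, h1⟩]
  congr 2
  have h2 : 0 < 1 - t ^ 2 := by nlinarith
  have h3 := Real.sqrt_pos.2 h2
  have h4 := Real.sq_sqrt h2.le
  rw [div_eq_div_iff (by nlinarith) h3.ne']
  have h5 : Real.sqrt (1 - t ^ 2) * Real.sqrt (1 - t ^ 2) = 1 - t ^ 2 := by
    rw [← sq]; exact h4
  rw [mul_assoc, h5]
  ring

theorem kt51_arg {X : ℂ} (h0 : X ≠ 0) (h1 : ‖X‖ < 1) :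
    2 * Complex.arg (1 - X) = kt51 ‖X‖ (Complex.arg X⁻¹) := by
  have hn := norm_pos_iff.2 h0
  have hi : X⁻¹ ≠ 0 := inv_ne_zero h0
  have hni : ‖X⁻¹‖ = ‖X‖⁻¹ := norm_inv X
  have hN : Complex.normSq X = ‖X‖ ^ 2 := Complex.normSq_eq_norm_sq X
  have hc : ‖X‖ * Real.cos (Complex.arg X⁻¹) = X.re := by
    rw [Complex.cos_arg hi, hni, Complex.inv_re, hN]
    field_simp
  have hs : ‖X‖ * Real.sin (Complex.arg X⁻¹) = - X.im := by
    rw [Complex.sin_arg, hni, Complex.inv_im, hN]
    field_simp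
  have hre : 0 < (1 - X).re := by
    have := (abs_le.1 (Complex.abs_re_le_norm X)).2
    simp only [Complex.sub_re, Complex.one_re]
    linarith
  have h2 := abs_lt.1 (Complex.abs_arg_lt_pi_div_two_iff.2 (Or.inl hre))
  unfold kt51
  rw [hc, hs, ← Real.arctan_tan h2.1 h2.2, Complex.tan_arg]
  simp

theorem kt51_le {t : ℝ} (h0 : 0 < t) (h1 : t < 1) (φ : ℝ) : kt51 t φ ≤ 2 * Real.arcsin t := by
  set X : ℂ := ⟨t * Real.cos φ, - (t * Real.sin φ)⟩ with hX
  have hn : ‖X‖ = t := by
    rw [Complex.norm_def, Complex.normSq_apply]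
    have : X.re * X.re + X.im * X.im = t ^ 2 := by
      show t * Real.cos φ * (t * Real.cos φ) + - (t * Real.sin φ) * - (t * Real.sin φ) = t ^ 2
      have := Real.sin_sq_add_cos_sq φ
      nlinarith
    rw [this, Real.sqrt_sq h0.le]
  have h3 := abs_arg_one_sub_le51 (x := X) (by rw [hn]; exact h1)
  rw [hn] at h3
  have hre : 0 < (1 - X).re := by
    simp only [Complex.sub_re, Complex.one_re]
    exact den_pos51 h0.le h1 φ
  have h2 := abs_lt.1 (Complex.abs_arg_lt_pi_div_two_iff.2 (Or.inl hre))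
  have h4 : kt51 t φ = 2 * Complex.arg (1 - X) := by
    unfold kt51
    rw [← Real.arctan_tan h2.1 h2.2, Complex.tan_arg]
    simp [hX]
  rw [h4]
  have := (abs_le.1 h3).2
  linarith

/-- positive area: the angle is in `(0, π)` -/
theorem kt51_pos_angle {t φ : ℝ} (h0 : 0 < t) (h1 : t < 1) (hφ : φ ∈ Set.Ioc (-Real.pi) Real.pi)
    (h : 0 < kt51 t φ) : 0 < φ ∧ φ < Real.pi := by
  unfold kt51 at h
  have h2 : 0 < t * Real.sin φ / (1 - t * Real.cos φ) := by
    by_contra hcon
    push Not at hcon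
    have h3 := Real.arctan_strictMono.monotone hcon
    rw [Real.arctan_zero] at h3
    linarith
  have h3 : 0 < t * Real.sin φ := by
    by_contra hcon
    push Not at hcon
    have := div_nonpos_of_nonpos_of_nonneg hcon (den_pos51 h0.le h1 φ).le
    linarith
  have h4 : 0 < Real.sin φ := by
    by_contra hcon
    push Not at hcon
    nlinarith
  constructor
  · by_contra hcon
    push Not at hcon
    have := Real.sin_nonpos_of_nonpos_of_neg_pi_le hcon hφ.1.le
    linarith
  · rcases lt_or_eq_of_le hφ.2 with h5 | h5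
    · exact h5
    · rw [h5, Real.sin_pi] at h4
      exact absurd h4 (lt_irrefl _)

/-! ### Angles with the ideal point infinity -/

/-- angle at `z` from `w` to infinity -/
def up51 (z w : ℍ) : ℝ := Complex.arg (Dv z w)⁻¹

/-- angle at `w` from infinity to `z` -/
def dn51 (w z : ℍ) : ℝ := Complex.arg (Dv w z)

theorem one_sub_Dv51 (z w : ℍ) :
    1 - Dv z w = ((2 * z.im / Complex.normSq ((w : ℂ) - (starRingEnd ℂ) (z : ℂ)) : ℝ) : ℂ) *
      Kz z w := by
  have h1 := Pool.Agent.Penny.sub_conj_ne z w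
  have h2 : ((Complex.normSq ((w : ℂ) - (starRingEnd ℂ) (z : ℂ)) : ℝ) : ℂ) =
      ((w : ℂ) - (starRingEnd ℂ) (z : ℂ)) *
        (starRingEnd ℂ) ((w : ℂ) - (starRingEnd ℂ) (z : ℂ)) := (Complex.mul_conj _).symm
  have h3 : (starRingEnd ℂ) ((w : ℂ) - (starRingEnd ℂ) (z : ℂ)) ≠ 0 := by
    rw [Ne, map_eq_zero]; exact h1
  rw [Complex.ofReal_div, h2, Kz_eq51]
  unfold Dv
  rw [map_sub, Complex.conj_conj] at h3 ⊢
  have h4 : ((2 * z.im : ℝ) : ℂ) * Complex.I = (z : ℂ) - (starRingEnd ℂ) (z : ℂ) := by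
    apply Complex.ext
    · simp
    · simp; ring
  rw [eq_comm, div_mul_eq_mul_div, div_eq_iff (mul_ne_zero h1 h3), sub_mul, one_mul,
    div_mul_eq_mul_div, eq_sub_iff_add_eq, ← eq_sub_iff_add_eq']
  rw [div_eq_iff h1]
  linear_combination (-((z : ℂ) - (starRingEnd ℂ) (w : ℂ)) * ((w : ℂ) - (starRingEnd ℂ) (z : ℂ))) * h4

theorem kap_eq_arg51 (z w : ℍ) : kap z w = 2 * Complex.arg (1 - Dv z w) := by
  rw [one_sub_Dv51, Complex.arg_real_mul]
  · rfl
  · have := Pool.Agent.Penny.normSq_pos49 z w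
    have := z.im_pos
    positivity

theorem kap_up51 {z w : ℍ} (h : w ≠ z) : kap z w = kt51 (Real.tanh (dist z w / 2)) (up51 z w) := by
  have h0 : Dv z w ≠ 0 := by
    rw [Dv_eq49]; exact Pool.Agent.Penny.disc_ne h
  have h1 : ‖Dv z w‖ < 1 := by
    rw [norm_Dv51]; exact tanh_half_lt_one51 z w
  rw [kap_eq_arg51, kt51_arg h0 h1, norm_Dv51]
  rfl

theorem kap_dn51 {z w : ℍ} (h : w ≠ z) : kap z w = kt51 (Real.tanh (dist z w / 2)) (dn51 w z) := by
  have h0 : Dv w z ≠ 0 := by
    rw [Dv_eq49]; exact Pool.Agent.Penny.disc_ne h.symm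
  have h1 : ‖Dv w z‖ < 1 := by
    rw [norm_Dv51]; exact tanh_half_lt_one51 w z
  have h2 : kap z w = 2 * Complex.arg (1 - (starRingEnd ℂ) (Dv w z)) := by
    rw [kap_anti z w, kap_eq_arg51]
    have h3 : 1 - (starRingEnd ℂ) (Dv w z) = (starRingEnd ℂ) (1 - Dv w z) := by
      rw [map_sub, map_one]
    rw [h3, Complex.arg_conj, if_neg]
    · ring
    · intro h4
      have hre : 0 < (1 - Dv w z).re := by
        have := (abs_le.1 (Complex.abs_re_le_norm (Dv w z))).2
        simp only [Complex.sub_re, Complex.one_re]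
        linarith
      have h5 := abs_lt.1 (Complex.abs_arg_lt_pi_div_two_iff.2 (Or.inl hre))
      rw [h4] at h5
      linarith [Real.pi_pos, h5.2]
  have h3 : (starRingEnd ℂ) (Dv w z) ≠ 0 := by rw [Ne, map_eq_zero]; exact h0
  have h4 : ‖(starRingEnd ℂ) (Dv w z)‖ < 1 := by rw [Complex.norm_conj]; exact h1
  rw [h2, kt51_arg h3 h4, Complex.norm_conj, norm_Dv51, dist_comm w z]
  congr 1
  unfold dn51
  have h5 : ((starRingEnd ℂ) (Dv w z))⁻¹ = (((Complex.normSq (Dv w z))⁻¹ : ℝ) : ℂ) * Dv w z := by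
    have h6 : ((Complex.normSq (Dv w z) : ℝ) : ℂ) = Dv w z * (starRingEnd ℂ) (Dv w z) :=
      (Complex.mul_conj _).symm
    rw [Complex.ofReal_inv, h6]
    field_simp
  rw [h5, Complex.arg_real_mul]
  exact inv_pos.2 (Complex.normSq_pos.2 h0)

theorem dist_pos_ne51 {d : ℝ} (hd : 0 < d) {z w : ℍ} (h : dist z w = d) : w ≠ z := by
  rintro rfl
  rw [dist_self] at h
  linarith

/-- the two angles of an edge seen from infinity -/
theorem up_add_dn51 {z w : ℍ} (hne : w ≠ z) (h : 0 < kap z w) :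
    up51 z w + dn51 w z = Real.pi - kap z w := by
  have ht0 : 0 < Real.tanh (dist z w / 2) := by
    rw [← norm_Dv51, norm_pos_iff, Dv_eq49]
    exact Pool.Agent.Penny.disc_ne hne
  have ht1 := tanh_half_lt_one51 z w
  have u1 := kt51_pos_angle ht0 ht1 (φ := up51 z w) ⟨Complex.neg_pi_lt_arg _, Complex.arg_le_pi _⟩
    (by rw [← kap_up51 hne]; exact h)
  have u2 := kt51_pos_angle ht0 ht1 (φ := dn51 w z) ⟨Complex.neg_pi_lt_arg _, Complex.arg_le_pi _⟩
    (by rw [← kap_dn51 hne]; exact h)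
  have h0 : Dv z w ≠ 0 := by
    rw [Dv_eq49]; exact Pool.Agent.Penny.disc_ne hne
  have h0' : Dv w z ≠ 0 := by
    rw [Dv_eq49]; exact Pool.Agent.Penny.disc_ne hne.symm
  have hK := Kz_ne51 z w
  have hK' := Kz_ne51 w z
  have e1 : Dv w z * (Dv z w)⁻¹ = -(Kz w z / Kz z w) := by
    have a1 := Pool.Agent.Penny.sub_conj_ne z w
    have a2 := Pool.Agent.Penny.sub_conj_ne w z
    have a3 : (w : ℂ) - (z : ℂ) ≠ 0 := by
      intro h2; exact hne (UpperHalfPlane.ext (sub_eq_zero.1 h2))
    have b1 : Kz w z = -Complex.I * ((w : ℂ) - (starRingEnd ℂ) (z : ℂ)) := Kz_eq51 w z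
    have b2 : Kz z w = -Complex.I * ((z : ℂ) - (starRingEnd ℂ) (w : ℂ)) := Kz_eq51 z w
    have hI : -Complex.I ≠ 0 := neg_ne_zero.2 Complex.I_ne_zero
    rw [b1, b2, mul_div_mul_left _ _ hI]
    unfold Dv
    rw [inv_div]
    field_simp
    ring
  have e2 : ((up51 z w + dn51 w z : ℝ) : Real.Angle) = ((Real.pi - kap z w : ℝ) : Real.Angle) := by
    have c1 : ((Complex.arg (Dv w z * (Dv z w)⁻¹) : ℝ) : Real.Angle) =
        ((dn51 w z : ℝ) : Real.Angle) + ((up51 z w : ℝ) : Real.Angle) :=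
      Complex.arg_mul_coe_angle h0' (inv_ne_zero h0)
    have c2 : ((Complex.arg (-(Kz w z / Kz z w)) : ℝ) : Real.Angle) =
        ((Complex.arg (Kz w z / Kz z w) : ℝ) : Real.Angle) + ((Real.pi : ℝ) : Real.Angle) :=
      Complex.arg_neg_coe_angle (div_ne_zero hK' hK)
    rw [Complex.arg_div_coe_angle hK' hK] at c2
    have c3 : Complex.arg (Kz w z) = - Complex.arg (Kz z w) := by
      have := kap_anti w z
      unfold kap at this
      linarith
    rw [Real.Angle.coe_add, add_comm, ← c1, e1, c2, c3]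
    have c4 : Real.pi - kap z w = - Complex.arg (Kz z w) - Complex.arg (Kz z w) + Real.pi := by
      unfold kap
      ring
    rw [c4, Real.Angle.coe_add, Real.Angle.coe_sub]
  rw [Real.Angle.angle_eq_iff_two_pi_dvd_sub] at e2
  obtain ⟨k, hk⟩ := e2
  have hkap : kap z w < Real.pi := by
    have := (abs_lt.1 (arg_Kz51 z w)).2
    unfold kap
    linarith
  have hpi := Real.pi_pos
  have hk0 : k = 0 := by
    have e1 : (k : ℝ) < 1 := by
      by_contra hcon
      push Not at hcon
      nlinarith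
    have e2 : (-1 : ℝ) < k := by
      by_contra hcon
      push Not at hcon
      nlinarith
    have e3 : k < 1 := by exact_mod_cast e1
    have e4 : -1 < k := by exact_mod_cast e2
    omega
  rw [hk0] at hk
  simp only [Int.cast_zero, mul_zero] at hk
  linarith

/-- the angle at a pass of a chain -/
theorem pass51 {v n p : ℍ} (hn : n ≠ v) (hp : p ≠ v) (h0 : 0 < ang v n p) :
    dn51 v p + up51 v n ≤ ang v n p := by
  have h1 : Dv v n ≠ 0 := by
    rw [Dv_eq49]; exact Pool.Agent.Penny.disc_ne hn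
  have h2 : Dv v p ≠ 0 := by
    rw [Dv_eq49]; exact Pool.Agent.Penny.disc_ne hp
  have e2 : ((dn51 v p + up51 v n : ℝ) : Real.Angle) = ((ang v n p : ℝ) : Real.Angle) := by
    have c1 : ((Complex.arg (Dv v p * (Dv v n)⁻¹) : ℝ) : Real.Angle) =
        ((dn51 v p : ℝ) : Real.Angle) + ((up51 v n : ℝ) : Real.Angle) :=
      Complex.arg_mul_coe_angle h2 (inv_ne_zero h1)
    rw [Real.Angle.coe_add, ← c1]
    unfold ang
    rw [div_eq_mul_inv]
  rw [Real.Angle.angle_eq_iff_two_pi_dvd_sub] at e2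
  obtain ⟨k, hk⟩ := e2
  have a1 : dn51 v p ≤ Real.pi := Complex.arg_le_pi _
  have a2 : up51 v n ≤ Real.pi := Complex.arg_le_pi _
  have hpi := Real.pi_pos
  have hk0 : k < 1 := by
    have e1 : (k : ℝ) < 1 := by
      by_contra hcon
      push Not at hcon
      nlinarith
    exact_mod_cast e1
  have hk1 : (k : ℝ) ≤ 0 := by
    have : k ≤ 0 := by omega
    exact_mod_cast this
  nlinarith

/-! ### The loss function -/

/-- the part of the loss of an edge charged to one of its ends -/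
def C51 (t φ : ℝ) : ℝ :=
  if φ ≤ 0 then Real.arcsin t
  else min (2 * Real.arcsin t - kt51 t (min φ (Real.arccos t))) (Real.arcsin t)

theorem C51_nonneg {t : ℝ} (h0 : 0 < t) (h1 : t < 1) (φ : ℝ) : 0 ≤ C51 t φ := by
  have hg : 0 ≤ Real.arcsin t := Real.arcsin_nonneg.2 h0.le
  unfold C51
  split_ifs
  · exact hg
  · refine le_min ?_ hg
    have := kt51_le h0 h1 (min φ (Real.arccos t))
    linarith

theorem C51_le {t : ℝ} (φ : ℝ) : C51 t φ ≤ Real.arcsin t := by
  unfold C51
  split_ifs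
  · exact le_refl _
  · exact min_le_right _ _

theorem C51_big {t φ : ℝ} (h0 : 0 < t) (h1 : t < 1) (h : Real.arccos t ≤ φ) : C51 t φ = 0 := by
  have hg : 0 ≤ Real.arcsin t := Real.arcsin_nonneg.2 h0.le
  have ha : 0 < Real.arccos t := Real.arccos_pos.2 h1
  unfold C51
  rw [if_neg (by linarith), min_eq_right h, kt51_arccos h0.le h1, sub_self, min_eq_left hg]

theorem C51_le_loss {t φ : ℝ} (h0 : 0 < t) (h1 : t < 1) (hφ : 0 < φ) :
    C51 t φ ≤ 2 * Real.arcsin t - kt51 t φ := by
  by_cases h : φ ≤ Real.arccos t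
  · unfold C51
    rw [if_neg (by linarith), min_eq_left h]
    exact min_le_left _ _
  · rw [C51_big h0 h1 (by linarith)]
    have := kt51_le h0 h1 φ
    linarith

/-- the inequality of an edge -/
theorem edge51 {d : ℝ} (hd : 0 < d) {z w : ℍ} (h : dist z w = d) :
    C51 (Real.tanh (d / 2)) (up51 z w) + C51 (Real.tanh (d / 2)) (dn51 w z) ≤
      g51 d - kap z w := by
  have hne := dist_pos_ne51 hd h
  set t := Real.tanh (d / 2) with ht
  have ht0 : 0 < t := by
    rw [ht, ← h, ← norm_Dv51, norm_pos_iff, Dv_eq49]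
    exact Pool.Agent.Penny.disc_ne hne
  have ht1 : t < 1 := Real.tanh_lt_one _
  have hg : g51 d = 2 * Real.arcsin t := rfl
  have e1 : kap z w = kt51 t (up51 z w) := by rw [kap_up51 hne, h]
  have e2 : kap z w = kt51 t (dn51 w z) := by rw [kap_dn51 hne, h]
  by_cases hk : 0 < kap z w
  · have h1 := up_add_dn51 hne hk
    have h2 := kt51_le ht0 ht1 (up51 z w)
    rw [← e1] at h2
    have h3 : Real.arccos t = Real.pi / 2 - Real.arcsin t := by
      rw [Real.arccos_eq_pi_div_two_sub_arcsin]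
    have u1 := kt51_pos_angle ht0 ht1 (φ := up51 z w)
      ⟨Complex.neg_pi_lt_arg _, Complex.arg_le_pi _⟩ (by rw [← e1]; exact hk)
    have u2 := kt51_pos_angle ht0 ht1 (φ := dn51 w z)
      ⟨Complex.neg_pi_lt_arg _, Complex.arg_le_pi _⟩ (by rw [← e2]; exact hk)
    rcases le_total (Real.arccos t) (up51 z w) with h4 | h4
    · rw [C51_big ht0 ht1 h4, zero_add, hg, e2]
      exact C51_le_loss ht0 ht1 u2.1
    · have h5 : Real.arccos t ≤ dn51 w z := by linarith
      rw [C51_big ht0 ht1 h5, add_zero, hg, e1]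
      exact C51_le_loss ht0 ht1 u1.1
  · push Not at hk
    have h1 := C51_le (t := t) (up51 z w)
    have h2 := C51_le (t := t) (dn51 w z)
    rw [hg]
    linarith

/-- the inequality of a pass -/
theorem vert51 {t al x y : ℝ} (h0 : 0 < t) (h1 : t < 1) (ha0 : 0 < al) (ha : al ≤ Real.arccos t)
    (hr : 2 * (2 * Real.arcsin t - kt51 t al) ≤ Real.arcsin t) (hxy : x + y ≤ 2 * al) :
    2 * (2 * Real.arcsin t - kt51 t al) ≤ C51 t x + C51 t y := by
  have n1 := C51_nonneg h0 h1 x
  have n2 := C51_nonneg h0 h1 y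
  have hac : Real.arccos t ≤ Real.pi := Real.arccos_le_pi t
  by_cases hx : x ≤ 0
  · have : C51 t x = Real.arcsin t := by unfold C51; rw [if_pos hx]
    linarith
  · by_cases hy : y ≤ 0
    · have : C51 t y = Real.arcsin t := by unfold C51; rw [if_pos hy]
      linarith
    · push Not at hx hy
      have ex : C51 t x = min (2 * Real.arcsin t - kt51 t (min x (Real.arccos t)))
          (Real.arcsin t) := by unfold C51; rw [if_neg (by linarith)]
      have ey : C51 t y = min (2 * Real.arcsin t - kt51 t (min y (Real.arccos t)))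
          (Real.arcsin t) := by unfold C51; rw [if_neg (by linarith)]
      rcases le_total (2 * Real.arcsin t - kt51 t (min x (Real.arccos t))) (Real.arcsin t)
        with h2 | h2
      · rcases le_total (2 * Real.arcsin t - kt51 t (min y (Real.arccos t))) (Real.arcsin t)
          with h3 | h3
        · rw [ex, ey, min_eq_left h2, min_eq_left h3]
          set X := min x (Real.arccos t) with hX
          set Y := min y (Real.arccos t) with hY
          have hX0 : 0 ≤ X := le_min hx.le (by linarith)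
          have hY0 : 0 ≤ Y := le_min hy.le (by linarith)
          have hX1 : X ≤ Real.pi := (min_le_right _ _).trans hac
          have hY1 : Y ≤ Real.pi := (min_le_right _ _).trans hac
          have hXY : X + Y ≤ 2 * al := by
            have := min_le_left x (Real.arccos t)
            have := min_le_left y (Real.arccos t)
            linarith
          have hc := (kt51_concave h0.le h1).2 (⟨hX0, hX1⟩ : X ∈ Set.Icc 0 Real.pi)
            (⟨hY0, hY1⟩ : Y ∈ Set.Icc 0 Real.pi) (by norm_num : (0 : ℝ) ≤ 1 / 2)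
            (by norm_num : (0 : ℝ) ≤ 1 / 2) (by norm_num)
          simp only [smul_eq_mul] at hc
          have hm := kt51_mono h0.le h1 (a := 1 / 2 * X + 1 / 2 * Y) (b := al)
            ⟨by linarith, by linarith⟩ ⟨ha0.le, ha⟩ (by linarith)
          linarith
        · rw [ey, min_eq_right h3]
          linarith
      · rw [ex, min_eq_right h2]
        linarith

/-- the deficit of a sharp pass -/
def rho51 (d al : ℝ) : ℝ := 2 * (g51 d - kt51 (Real.tanh (d / 2)) al)

/-- The dispersed isoperimetric inequality. -/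
theorem disp51 {ι : Type} {d al : ℝ} (hd : 0 < d) (ha0 : 0 < al)
    (ha : 2 * al ≤ Real.pi - g51 d) (hr : 2 * rho51 d al ≤ g51 d)
    (B : Finset ι) (p q : ι → ℍ) (σ : ι → ι) (hσ : ∀ e ∈ B, σ e ∈ B)
    (hinj : Set.InjOn σ (B : Set ι)) (hstep : ∀ e ∈ B, p (σ e) = q e)
    (hdist : ∀ e ∈ B, dist (p e) (q e) = d) :
    ∑ e ∈ B, kap (p e) (q e) ≤ B.card * g51 d -
      (B.filter (fun e => 0 < ang (q e) (q (σ e)) (p e) ∧
        ang (q e) (q (σ e)) (p e) ≤ 2 * al)).card * rho51 d al := by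
  set t := Real.tanh (d / 2) with ht
  have hg : g51 d = 2 * Real.arcsin t := rfl
  have ht1 : t < 1 := Real.tanh_lt_one _
  have ht0 : 0 < t := by
    rw [ht, Real.tanh_eq_sinh_div_cosh]
    exact div_pos (Real.sinh_pos_iff.2 (by linarith)) (Real.cosh_pos _)
  have hac : al ≤ Real.arccos t := by
    rw [Real.arccos_eq_pi_div_two_sub_arcsin]
    linarith
  have hrho : rho51 d al = 2 * (2 * Real.arcsin t - kt51 t al) := rfl
  have hr' : 2 * (2 * Real.arcsin t - kt51 t al) ≤ Real.arcsin t := by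
    rw [hrho, hg] at hr
    linarith
  -- edges
  have h1 : ∑ e ∈ B, (C51 t (up51 (p e) (q e)) + C51 t (dn51 (q e) (p e))) ≤
      ∑ e ∈ B, (g51 d - kap (p e) (q e)) :=
    Finset.sum_le_sum (fun e he => edge51 hd (hdist e he))
  rw [Finset.sum_add_distrib, Finset.sum_sub_distrib, Finset.sum_const, nsmul_eq_mul] at h1
  -- the permutation
  have h2 : ∑ e ∈ B, C51 t (up51 (p e) (q e)) = ∑ e ∈ B, C51 t (up51 (p (σ e)) (q (σ e))) := by
    have himg : B.image σ = B := by
      apply Finset.eq_of_subset_of_card_le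
      · intro x hx
        obtain ⟨e, he, rfl⟩ := Finset.mem_image.1 hx
        exact hσ e he
      · rw [Finset.card_image_of_injOn hinj]
    conv_lhs => rw [← himg]
    rw [Finset.sum_image hinj]
  -- passes
  set F := B.filter (fun e => 0 < ang (q e) (q (σ e)) (p e) ∧
        ang (q e) (q (σ e)) (p e) ≤ 2 * al) with hF
  have hFB : F ⊆ B := Finset.filter_subset _ B
  have h3 : (F.card : ℝ) * rho51 d al ≤
      ∑ e ∈ B, (C51 t (up51 (p (σ e)) (q (σ e))) + C51 t (dn51 (q e) (p e))) := by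
    rw [← nsmul_eq_mul, ← Finset.sum_const]
    refine le_trans ?_ (Finset.sum_le_sum_of_subset_of_nonneg hFB ?_)
    · apply Finset.sum_le_sum
      intro e he
      obtain ⟨heB, hs0, hs1⟩ := Finset.mem_filter.1 he
      rw [hstep e heB]
      have hn : q (σ e) ≠ q e := by
        have := dist_pos_ne51 hd (hdist (σ e) (hσ e heB))
        rwa [hstep e heB] at this
      have hp : p e ≠ q e := (dist_pos_ne51 hd (hdist e heB)).symm
      have h4 := pass51 hn hp hs0
      rw [hrho]
      exact vert51 ht0 ht1 ha0 hac hr' (by linarith)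
    · intro e he _
      have n1 := C51_nonneg ht0 ht1 (up51 (p (σ e)) (q (σ e)))
      have n2 := C51_nonneg ht0 ht1 (dn51 (q e) (p e))
      linarith
  rw [Finset.sum_add_distrib] at h3
  linarith

end

end Pool.Agent.PEN
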