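import Pool.Agent.P4.Iso51

/-! # Hyperbolic penny graphs: the sharp isoperimetric inequality for closed walks

A closed walk of `b` steps of length `d` encloses at most the area of the regular `b`-gon. -/

set_option autoImplicit false
set_option linter.all false

namespace Pool.Agent.PEN

open Classical UpperHalfPlane Filter Topology

noncomputable section

/-- area of the isosceles triangle with base `x` and apex angle `2 w` -/
def psi51 (w x : ℝ) : ℝ := 2 * Real.arccos (Real.cos w / Real.cosh (x / 2)) - 2 * w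

/-- area of the regular `b`-gon with side `d`, divided by `b` -/
def astar51 (d : ℝ) (b : ℕ) : ℝ := psi51 (Real.pi / b) d

theorem norm_Kz51 (z w : ℍ) :
    ‖Kz z w‖ = 2 * (Real.sqrt z.im * Real.sqrt w.im) * Real.cosh (dist z w / 2) := by
  rw [UpperHalfPlane.cosh_half_dist, Kz_eq51, norm_mul, norm_neg, Complex.norm_I, one_mul,
    Complex.dist_eq, Real.sqrt_mul z.im_pos.le]
  have h1 := Real.sqrt_pos.2 z.im_pos
  have h2 := Real.sqrt_pos.2 w.im_pos
  field_simp

theorem norm_one_sub51 (a b c : ℍ) :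
    Real.cosh (dist a b / 2) * Real.cosh (dist a c / 2) *
      ‖1 - Dv a b * (starRingEnd ℂ) (Dv a c)‖ = Real.cosh (dist b c / 2) := by
  have h1 := Real.sqrt_pos.2 a.im_pos
  have h2 := Real.sqrt_pos.2 b.im_pos
  have h3 := Real.sqrt_pos.2 c.im_pos
  have h4 : Real.sqrt a.im * Real.sqrt a.im = a.im := Real.mul_self_sqrt a.im_pos.le
  have c1 := Real.cosh_pos (dist a b / 2)
  have c2 := Real.cosh_pos (dist a c / 2)
  rw [S51_identity, norm_mul, norm_mul, norm_div, norm_mul (Kz b a), norm_Kz51, norm_Kz51,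
    norm_Kz51, Complex.norm_real, Real.norm_eq_abs, abs_of_pos a.im_pos, dist_comm b a]
  have h5 : ‖(2 : ℂ)‖ = 2 := by norm_num
  rw [h5, show (2 : ℝ) * a.im = 2 * (Real.sqrt a.im * Real.sqrt a.im) by rw [h4]]
  field_simp

theorem tanh_half_eq51 (x : ℝ) : Real.tanh x = Real.sinh x / Real.cosh x :=
  Real.tanh_eq_sinh_div_cosh x

theorem arccos_cos_le51 {y : ℝ} (h : 0 ≤ y) : Real.arccos (Real.cos y) ≤ y := by
  rcases le_total y Real.pi with h1 | h1
  · rw [Real.arccos_cos h h1]
  · exact (Real.arccos_le_pi _).trans h1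

theorem cs51 {p q u v X Y : ℝ} (hX : 0 ≤ X) (hY : 0 ≤ Y) (h1 : X ^ 2 = p ^ 2 + u ^ 2)
    (h2 : Y ^ 2 = q ^ 2 + v ^ 2) : p * q + u * v ≤ X * Y := by
  have h0 : 0 ≤ X * Y := mul_nonneg hX hY
  have h3 : (p * q + u * v) ^ 2 ≤ (X * Y) ^ 2 := by
    rw [mul_pow, h1, h2]
    have : (p ^ 2 + u ^ 2) * (q ^ 2 + v ^ 2) - (p * q + u * v) ^ 2 = (p * v - u * q) ^ 2 := by ring
    have h4 := sq_nonneg (p * v - u * q)
    linarith
  exact (abs_le_of_sq_le_sq' h3 h0).2

theorem dot51 {c s x y r : ℝ} (h : s ^ 2 + c ^ 2 = 1) (hr : 0 ≤ r) (hxy : x * x + y * y = r ^ 2) :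
    -r ≤ c * x + s * y := by
  have h1 : (c * x + s * y) ^ 2 ≤ r ^ 2 := by
    have h2 : r ^ 2 = (s ^ 2 + c ^ 2) * (x * x + y * y) := by rw [h, one_mul, hxy]
    have h3 : (s ^ 2 + c ^ 2) * (x * x + y * y) - (c * x + s * y) ^ 2 = (c * y - s * x) ^ 2 := by
      ring
    have h4 := sq_nonneg (c * y - s * x)
    rw [h2]
    linarith
  exact (abs_le_of_sq_le_sq' h1 hr).1

theorem mul_lt_one51 {x y : ℝ} (hx : 0 ≤ x) (hy : 0 ≤ y) (hx1 : x < 1) (hy1 : y < 1) :
    x * y < 1 := by
  have : x * y ≤ x * 1 := mul_le_mul_of_nonneg_left hy1.le hx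
  linarith

theorem sinh_le_cosh51 {p P : ℝ} (hp : 0 ≤ p) (hP : 0 ≤ P) (h : P ^ 2 = 1 + p ^ 2) : p ≤ P := by
  have : p ^ 2 ≤ P ^ 2 := by rw [h]; linarith
  exact (abs_le_of_sq_le_sq' this hP).2

/-- one step of the isoperimetric inequality -/
theorem step_reg51 {d w f : ℝ} (O a b : ℍ) (hab : dist a b = d) (hw : 0 ≤ w) (hf : 0 ≤ f)
    (hs : w + f ≤ Real.pi) :
    S51 O a b + psi51 (w + f) (dist O b) ≤ psi51 w (dist O a) + psi51 f d := by
  have hd0 : 0 ≤ d := by rw [← hab]; exact dist_nonneg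
  set x := dist O a with hx
  set x' := dist O b with hx'
  have hx0 : 0 ≤ x := dist_nonneg
  set P := Real.cosh (x / 2) with hP
  set Q := Real.cosh (d / 2) with hQ
  set p := Real.sinh (x / 2) with hp
  set q := Real.sinh (d / 2) with hq
  have hP1 : 1 ≤ P := Real.one_le_cosh _
  have hQ1 : 1 ≤ Q := Real.one_le_cosh _
  have hp0 : 0 ≤ p := Real.sinh_nonneg_iff.2 (by linarith)
  have hq0 : 0 ≤ q := Real.sinh_nonneg_iff.2 (by linarith)
  have hPp : P ^ 2 = 1 + p ^ 2 := by
    have := Real.cosh_sq (x / 2)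
    linarith
  have hQq : Q ^ 2 = 1 + q ^ 2 := by
    have := Real.cosh_sq (d / 2)
    linarith
  set X := Dv a b * (starRingEnd ℂ) (Dv a O) with hX
  have hXn : ‖X‖ = q / Q * (p / P) := by
    rw [hX, norm_mul, Complex.norm_conj, norm_Dv51, norm_Dv51, hab, dist_comm a O, ← hx,
      tanh_half_eq51, tanh_half_eq51]
  have hYn : Q * P * ‖1 - X‖ = Real.cosh (x' / 2) := by
    have h := norm_one_sub51 a b O
    rw [hab, dist_comm a O, dist_comm b O] at h
    exact h
  have hre := one_sub_re_pos51 a b O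
  rw [← hX] at hre
  have hY0 : 1 - X ≠ 0 := by
    intro h
    rw [h] at hre
    simp at hre
  have hYp : 0 < ‖1 - X‖ := norm_pos_iff.2 hY0
  set s := Complex.arg (1 - X) with hsdef
  have hS : S51 O a b = 2 * s := by
    rw [← S51_rot, S51_eq_arg]
  -- the two angles
  set A := Real.arccos (Real.cos w / P) with hA
  set B := Real.arccos (Real.cos f / Q) with hB
  have sw : 0 ≤ Real.sin w := Real.sin_nonneg_of_nonneg_of_le_pi hw (by linarith)
  have sf : 0 ≤ Real.sin f := Real.sin_nonneg_of_nonneg_of_le_pi hf (by linarith)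
  have cw1 : Real.cos w ^ 2 = 1 - Real.sin w ^ 2 := by
    have := Real.sin_sq_add_cos_sq w
    linarith
  have cf1 : Real.cos f ^ 2 = 1 - Real.sin f ^ 2 := by
    have := Real.sin_sq_add_cos_sq f
    linarith
  have hcw : |Real.cos w / P| ≤ 1 := by
    rw [abs_div, abs_of_pos (by linarith : 0 < P), div_le_one (by linarith)]
    exact (Real.abs_cos_le_one w).trans hP1
  have hcf : |Real.cos f / Q| ≤ 1 := by
    rw [abs_div, abs_of_pos (by linarith : 0 < Q), div_le_one (by linarith)]
    exact (Real.abs_cos_le_one f).trans hQ1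
  have hA1 : P * Real.cos A = Real.cos w := by
    rw [hA, Real.cos_arccos (abs_le.1 hcw).1 (abs_le.1 hcw).2]
    field_simp
  have hB1 : Q * Real.cos B = Real.cos f := by
    rw [hB, Real.cos_arccos (abs_le.1 hcf).1 (abs_le.1 hcf).2]
    field_simp
  have hA2 : 0 ≤ Real.sin A := by
    rw [hA, Real.sin_arccos]; exact Real.sqrt_nonneg _
  have hB2 : 0 ≤ Real.sin B := by
    rw [hB, Real.sin_arccos]; exact Real.sqrt_nonneg _
  have hA3 : (P * Real.sin A) ^ 2 = p ^ 2 + Real.sin w ^ 2 := by
    have h1 := Real.sin_sq_add_cos_sq A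
    have h2 : (P * Real.sin A) ^ 2 + (P * Real.cos A) ^ 2 = P ^ 2 := by
      have : (P * Real.sin A) ^ 2 + (P * Real.cos A) ^ 2 =
        P ^ 2 * (Real.sin A ^ 2 + Real.cos A ^ 2) := by ring
      rw [this, h1, mul_one]
    rw [hA1, cw1] at h2
    linarith
  have hB3 : (Q * Real.sin B) ^ 2 = q ^ 2 + Real.sin f ^ 2 := by
    have h1 := Real.sin_sq_add_cos_sq B
    have h2 : (Q * Real.sin B) ^ 2 + (Q * Real.cos B) ^ 2 = Q ^ 2 := by
      have : (Q * Real.sin B) ^ 2 + (Q * Real.cos B) ^ 2 =
        Q ^ 2 * (Real.sin B ^ 2 + Real.cos B ^ 2) := by ring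
      rw [this, h1, mul_one]
    rw [hB1, cf1] at h2
    linarith
  -- Cauchy-Schwarz
  have hCS : p * q + Real.sin w * Real.sin f ≤ (P * Real.sin A) * (Q * Real.sin B) :=
    cs51 (mul_nonneg (by linarith) hA2) (mul_nonneg (by linarith) hB2) hA3 hB3
  -- the main inequality
  have hmain : Real.cosh (x' / 2) * Real.cos (A + B - s) ≤ Real.cos (w + f) := by
    have e1 : ‖1 - X‖ * Real.cos s = (1 - X).re := by
      rw [hsdef, Complex.cos_arg hY0]
      field_simp
    have e2 : ‖1 - X‖ * Real.sin s = (1 - X).im := by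
      rw [hsdef, Complex.sin_arg]
      field_simp
    have e3 : Real.cosh (x' / 2) * Real.cos (A + B - s) =
        Q * P * (Real.cos (A + B) * (1 - X).re + Real.sin (A + B) * (1 - X).im) := by
      rw [← hYn, Real.cos_sub, ← e1, ← e2]
      ring
    have e4 : -‖X‖ ≤ Real.cos (A + B) * X.re + Real.sin (A + B) * X.im := by
      apply dot51 (Real.sin_sq_add_cos_sq (A + B)) (norm_nonneg X)
      rw [← Complex.normSq_eq_norm_sq, Complex.normSq_apply]
    have e5 : Q * P * ‖X‖ = p * q := by
      rw [hXn]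
      field_simp
    have e6 : Q * P * Real.cos (A + B) =
        Real.cos w * Real.cos f - (P * Real.sin A) * (Q * Real.sin B) := by
      rw [Real.cos_add, ← hA1, ← hB1]
      ring
    have hQP : 0 < Q * P := by positivity
    have e7 : Real.cosh (x' / 2) * Real.cos (A + B - s) ≤
        Q * P * Real.cos (A + B) + Q * P * ‖X‖ := by
      rw [e3]
      simp only [Complex.sub_re, Complex.sub_im, Complex.one_re, Complex.one_im]
      have e8 := mul_le_mul_of_nonneg_left e4 hQP.le
      have e9 : Q * P * (Real.cos (A + B) * (1 - X.re) + Real.sin (A + B) * (0 - X.im)) =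
          Q * P * Real.cos (A + B) -
            Q * P * (Real.cos (A + B) * X.re + Real.sin (A + B) * X.im) := by ring
      rw [e9]
      linarith
    rw [e5, e6] at e7
    rw [Real.cos_add]
    linarith
  -- the argument is not larger than `A + B`
  have hsB : s ≤ B := by
    have h1 : s ≤ Real.arcsin ‖X‖ := by
      have hX1 : ‖X‖ < 1 := by
        rw [hX, norm_mul, Complex.norm_conj, norm_Dv51, norm_Dv51]
        have t1 := tanh_half_lt_one51 a b
        have t2 := tanh_half_lt_one51 a O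
        have t3 : 0 ≤ Real.tanh (dist a b / 2) := by rw [← norm_Dv51]; exact norm_nonneg _
        have t4 : 0 ≤ Real.tanh (dist a O / 2) := by rw [← norm_Dv51]; exact norm_nonneg _
        exact mul_lt_one51 t3 t4 t1 t2
      exact (abs_le.1 (abs_arg_one_sub_le51 hX1)).2
    have h2 : ‖X‖ ≤ q / Q := by
      rw [hXn]
      have : p / P ≤ 1 := by
        rw [div_le_one (by linarith)]
        exact sinh_le_cosh51 hp0 (by linarith) hPp
      have h3 : 0 ≤ q / Q := div_nonneg hq0 (by linarith)
      calc q / Q * (p / P) ≤ q / Q * 1 := mul_le_mul_of_nonneg_left this h3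
        _ = q / Q := mul_one _
    have h3 : Real.arccos (1 / Q) = Real.arcsin (q / Q) := by
      rw [Real.arccos_eq_arcsin (by positivity)]
      congr 1
      rw [Real.sqrt_eq_iff_mul_self_eq (by
        rw [div_pow, one_pow, sub_nonneg, div_le_one (by positivity), hQq]
        linarith [sq_nonneg q]) (by positivity)]
      field_simp
      linarith
    have h4 : Real.arccos (1 / Q) ≤ B := by
      rw [hB]
      apply Real.arccos_le_arccos
      gcongr
      exact Real.cos_le_one f
    have h5 := Real.monotone_arcsin h2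
    linarith
  have hA0 : 0 ≤ A := Real.arccos_nonneg _
  have hx'0 := Real.cosh_pos (x' / 2)
  have hfin : Real.arccos (Real.cos (w + f) / Real.cosh (x' / 2)) ≤ A + B - s := by
    refine le_trans ?_ (arccos_cos_le51 (by linarith))
    apply Real.arccos_le_arccos
    rw [le_div_iff₀ hx'0]
    linarith
  rw [hS]
  unfold psi51
  rw [← hP, ← hQ, ← hA, ← hB]
  linarith

/-- a closed walk of `b` steps `d` encloses at most the area of the regular `b`-gon -/
theorem walk_reg51 {d : ℝ} (v : ℕ → ℍ) (b : ℕ) (hb : 1 ≤ b) (h0 : v b = v 0)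
    (h : ∀ i < b, dist (v i) (v (i + 1)) = d) :
    ∑ i ∈ Finset.range b, kap (v i) (v (i + 1)) ≤ b * astar51 d b := by
  rw [walk_fan51 v b h0]
  have hb0 : (0 : ℝ) < b := by exact_mod_cast hb
  set f := Real.pi / b with hf
  have hf0 : 0 ≤ f := by rw [hf]; positivity
  have hbf : (b : ℝ) * f = Real.pi := by rw [hf]; field_simp
  have key : ∀ m : ℕ, 1 ≤ m → m ≤ b →
      ∑ i ∈ Finset.range m, S51 (v 0) (v i) (v (i + 1)) + psi51 (m * f) (dist (v 0) (v m)) ≤
        m * psi51 f d := by
    intro m hm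
    induction m, hm using Nat.le_induction with
    | base =>
      intro _
      rw [Finset.sum_range_one, S51_self₁, h 0 (by omega)]
      simp
    | succ m hm ih =>
      intro hmb
      have h1 := ih (by omega)
      rw [Finset.sum_range_succ]
      have h2 : ((m : ℝ) + 1) * f ≤ Real.pi := by
        rw [← hbf]
        apply mul_le_mul_of_nonneg_right _ hf0
        exact_mod_cast hmb
      have h3 := step_reg51 (d := d) (w := m * f) (f := f) (v 0) (v m) (v (m + 1))
        (h m (by omega)) (by positivity) hf0 (by linarith)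
      push_cast
      have h4 : ((m : ℝ) + 1) * f = m * f + f := by ring
      rw [h4]
      linarith
  have h1 := key b hb (le_refl b)
  rw [h0, dist_self, hbf] at h1
  have h2 : psi51 Real.pi 0 = 0 := by
    unfold psi51
    simp
  rw [h2, add_zero] at h1
  exact h1

end

end Pool.Agent.PEN
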