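import Pool.Agent.P4.Disp51
import Pool.Agent.P4.Reg51

/-! # Dispersed isoperimetry with the constant of a diameter

`Disp51` for paths, after an isometry that moves the ideal point of the isosceles ideal triangle over
the segment of the two ends to infinity. -/

set_option autoImplicit false

namespace Pool.Agent.PEN

open Classical UpperHalfPlane

noncomputable section

/-! ### Isometries, in disc coordinates -/

/-- an orientation preserving isometry -/
def Isom9 (φ : ℍ → ℍ) : Prop :=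
  ∀ a : ℍ, ∃ ω : ℂ, ‖ω‖ = 1 ∧ ∀ b : ℍ, Dv (φ a) (φ b) = ω * Dv a b

theorem den_ne9 (a b : ℍ) : (a : ℂ) - (starRingEnd ℂ) (b : ℂ) ≠ 0 := by
  intro h
  have h3 := congrArg Complex.im h
  simp only [Complex.sub_im, Complex.conj_im, Complex.zero_im, UpperHalfPlane.coe_im] at h3
  have := a.im_pos
  have := b.im_pos
  linarith

theorem den_ne9' (a b : ℍ) : (starRingEnd ℂ) (a : ℂ) - (b : ℂ) ≠ 0 := by
  intro h
  have h3 := congrArg Complex.im h
  simp only [Complex.sub_im, Complex.conj_im, Complex.zero_im, UpperHalfPlane.coe_im] at h3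
  have := a.im_pos
  have := b.im_pos
  linarith

/-- the unit factor of the change of centre -/
def eta9 (z a : ℍ) : ℂ :=
  -((starRingEnd ℂ) (a : ℂ) - (z : ℂ)) / ((a : ℂ) - (starRingEnd ℂ) (z : ℂ))

theorem norm_eta9 (z a : ℍ) : ‖eta9 z a‖ = 1 := by
  unfold eta9
  have h : (starRingEnd ℂ) (a : ℂ) - (z : ℂ) =
      (starRingEnd ℂ) ((a : ℂ) - (starRingEnd ℂ) (z : ℂ)) := by
    rw [map_sub, Complex.conj_conj]
  rw [norm_div, norm_neg, h, Complex.norm_conj, div_self]
  exact norm_ne_zero_iff.2 (den_ne9 a z)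

theorem moeb9 (z a b : ℍ) : Dv a b * eta9 z a *
    (1 - (starRingEnd ℂ) (Dv z a) * Dv z b) = Dv z b - Dv z a := by
  have h1 := den_ne9 b a
  have h2 := den_ne9 a z
  have h3 := den_ne9 b z
  have h4 := den_ne9' a z
  unfold Dv eta9
  rw [map_div₀, map_sub, map_sub, Complex.conj_conj]
  field_simp
  ring

theorem Dv_norm_lt9 (v p : ℍ) : ‖Dv v p‖ < 1 := by
  rw [norm_Dv51]
  exact Real.tanh_lt_one _

theorem one_sub_ne9 (z a b : ℍ) : 1 - (starRingEnd ℂ) (Dv z a) * Dv z b ≠ 0 := by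
  intro h
  have h1 : (starRingEnd ℂ) (Dv z a) * Dv z b = 1 := (sub_eq_zero.1 h).symm
  have h2 := congrArg norm h1
  rw [norm_mul, Complex.norm_conj, norm_one] at h2
  have h3 := Dv_norm_lt9 z a
  have h4 := Dv_norm_lt9 z b
  have h5 := norm_nonneg (Dv z a)
  have h6 := norm_nonneg (Dv z b)
  nlinarith

theorem Dv_inj9 {v p p' : ℍ} (h : Dv v p = Dv v p') : p = p' := by
  have h1 := den_ne9 p v
  have h2 := den_ne9 p' v
  unfold Dv at h
  rw [div_eq_div_iff h1 h2] at h
  have h3 : ((p : ℂ) - (p' : ℂ)) * ((v : ℂ) - (starRingEnd ℂ) (v : ℂ)) = 0 := by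
    linear_combination h
  rcases mul_eq_zero.1 h3 with h4 | h4
  · exact UpperHalfPlane.ext (sub_eq_zero.1 h4)
  · exact absurd h4 (den_ne9 v v)

/-- there is an isometry with prescribed values at two points -/
theorem isom_exists9 (z w z' w' : ℍ) (hd : dist z w = dist z' w') (hne : z ≠ w) :
    ∃ φ : ℍ → ℍ, Isom9 φ ∧ φ z = z' ∧ φ w = w' := by
  have hn : ‖Dv z w‖ = ‖Dv z' w'‖ := by rw [norm_Dv51, norm_Dv51, hd]
  have h0 : Dv z w ≠ 0 := by
    rw [Dv_eq49]
    exact Pool.Agent.Penny.disc_ne (Ne.symm hne)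
  obtain ⟨u, hu⟩ : ∃ u : ℂ, u = Dv z' w' / Dv z w := ⟨_, rfl⟩
  have hu1 : ‖u‖ = 1 := by
    rw [hu, norm_div, hn, div_self]
    rw [← hn]
    exact norm_ne_zero_iff.2 h0
  have huu : (starRingEnd ℂ) u * u = 1 := by
    rw [mul_comm, Complex.mul_conj, Complex.normSq_eq_norm_sq, hu1]
    norm_num
  have hex : ∀ p : ℍ, ∃ p' : ℍ, Dv z' p' = u * Dv z p := fun p => Dv_surj51 z' _ (by
    rw [norm_mul, hu1, one_mul]
    exact Dv_norm_lt9 z p)
  choose φ hφ using hex
  refine ⟨φ, ?_, ?_, ?_⟩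
  · intro a
    have he := norm_eta9 z a
    have he' := norm_eta9 z' (φ a)
    have hne' : eta9 z' (φ a) ≠ 0 := by
      rw [← norm_ne_zero_iff, he']
      exact one_ne_zero
    refine ⟨u * eta9 z a / eta9 z' (φ a), ?_, ?_⟩
    · rw [norm_div, norm_mul, hu1, he, he']
      norm_num
    · intro b
      have h1 := moeb9 z a b
      have h2 := moeb9 z' (φ a) (φ b)
      rw [hφ, hφ, map_mul] at h2
      have h3 : (1 : ℂ) - (starRingEnd ℂ) u * (starRingEnd ℂ) (Dv z a) * (u * Dv z b) =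
          1 - (starRingEnd ℂ) (Dv z a) * Dv z b := by
        linear_combination (-(starRingEnd ℂ) (Dv z a) * Dv z b) * huu
      rw [h3, ← mul_sub, ← h1] at h2
      have h4 := one_sub_ne9 z a b
      have h5 : Dv (φ a) (φ b) * eta9 z' (φ a) = u * (Dv a b * eta9 z a) := by
        apply mul_right_cancel₀ h4
        rw [h2]
        ring
      field_simp
      rw [h5]
      ring
  · apply Dv_inj9 (v := z')
    rw [hφ]
    have h1 : Dv z z = 0 := by unfold Dv; rw [sub_self, zero_div]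
    have h2 : Dv z' z' = 0 := by unfold Dv; rw [sub_self, zero_div]
    rw [h1, h2, mul_zero]
  · apply Dv_inj9 (v := z')
    rw [hφ, hu, div_mul_cancel₀ _ h0]

theorem isom_dist9 {φ : ℍ → ℍ} (h : Isom9 φ) (a b : ℍ) : dist (φ a) (φ b) = dist a b := by
  obtain ⟨ω, h1, h2⟩ := h a
  have h3 : ‖Dv (φ a) (φ b)‖ = ‖Dv a b‖ := by rw [h2, norm_mul, h1, one_mul]
  rw [norm_Dv51, norm_Dv51] at h3
  have h4 : Real.tanh (dist (φ a) (φ b) / 2) = Real.tanh (dist a b / 2) := h3
  have h5 : dist (φ a) (φ b) / 2 = dist a b / 2 := Real.tanh_injective h4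
  linarith

theorem isom_ang9 {φ : ℍ → ℍ} (h : Isom9 φ) (v a b : ℍ) :
    ang (φ v) (φ a) (φ b) = ang v a b := by
  obtain ⟨ω, h1, h2⟩ := h v
  have h3 : ω ≠ 0 := by
    rw [← norm_ne_zero_iff, h1]
    exact one_ne_zero
  unfold ang
  rw [h2, h2, mul_div_mul_left _ _ h3]

theorem isom_S9 {φ : ℍ → ℍ} (h : Isom9 φ) (a b c : ℍ) :
    S51 (φ a) (φ b) (φ c) = S51 a b c := by
  obtain ⟨ω, h1, h2⟩ := h a
  have h3 : ω * (starRingEnd ℂ) ω = 1 := by
    rw [Complex.mul_conj, Complex.normSq_eq_norm_sq, h1]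
    norm_num
  rw [S51_eq_arg, S51_eq_arg, h2, h2, map_mul]
  have h4 : ω * Dv a b * ((starRingEnd ℂ) ω * (starRingEnd ℂ) (Dv a c)) =
      Dv a b * (starRingEnd ℂ) (Dv a c) := by
    linear_combination (Dv a b * (starRingEnd ℂ) (Dv a c)) * h3
  rw [h4]

/-- the standard position: equal heights -/
theorem level9 {x : ℝ} (hx : 0 ≤ x) : ∃ z w : ℍ, dist z w = x ∧ kap w z = - g51 x := by
  obtain ⟨s, hs⟩ : ∃ s : ℝ, s = 2 * Real.sinh (x / 2) := ⟨_, rfl⟩
  have hs0 : 0 ≤ s := by
    rw [hs]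
    have := Real.sinh_nonneg_iff.2 (show 0 ≤ x / 2 by linarith)
    linarith
  obtain ⟨z, hz⟩ : ∃ z : ℍ, (z : ℂ) = ⟨0, 1⟩ := ⟨⟨⟨0, 1⟩, one_pos⟩, rfl⟩
  obtain ⟨w, hw⟩ : ∃ w : ℍ, (w : ℂ) = ⟨s, 1⟩ := ⟨⟨⟨s, 1⟩, one_pos⟩, rfl⟩
  have z1 : z.re = 0 := by rw [← UpperHalfPlane.coe_re, hz]
  have z2 : z.im = 1 := by rw [← UpperHalfPlane.coe_im, hz]
  have w1 : w.re = s := by rw [← UpperHalfPlane.coe_re, hw]
  have w2 : w.im = 1 := by rw [← UpperHalfPlane.coe_im, hw]
  have hd : dist z w = x := by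
    have h1 := UpperHalfPlane.sinh_half_dist z w
    have h2 : dist (z : ℂ) (w : ℂ) = s := by
      rw [Complex.dist_eq, hz, hw]
      have : (⟨0, 1⟩ : ℂ) - ⟨s, 1⟩ = ((-s : ℝ) : ℂ) := by
        apply Complex.ext
        · simp
        · simp
      rw [this, Complex.norm_real, Real.norm_eq_abs, abs_neg, abs_of_nonneg hs0]
    rw [h2, z2, w2, mul_one, Real.sqrt_one, mul_one, hs, mul_div_cancel_left₀ _ (by norm_num)] at h1
    have h3 := Real.sinh_injective h1
    linarith
  refine ⟨z, w, hd, ?_⟩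
  have h1 : (Kz w z).re = 2 := by rw [Kz_re51, z2, w2]; norm_num
  have h2 : (Kz w z).im = -s := by rw [Kz_im51, z1, w1]; ring
  have h3 : ‖Kz w z‖ = 2 * Real.cosh (x / 2) := by
    rw [norm_Kz51, z2, w2, dist_comm w z, hd, Real.sqrt_one]
    ring
  unfold kap g51
  rw [Complex.arg_of_re_nonneg (by rw [h1]; norm_num), h2, h3, hs, Real.tanh_eq_sinh_div_cosh]
  have hc := Real.cosh_pos (x / 2)
  have h4 : -(2 * Real.sinh (x / 2)) / (2 * Real.cosh (x / 2)) =
      -(Real.sinh (x / 2) / Real.cosh (x / 2)) := by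
    field_simp
  rw [h4, Real.arcsin_neg]
  ring

/-- the ideal point of the isosceles triangle over the segment `b a` moved to infinity -/
theorem isom_level9 (a b : ℍ) : ∃ φ : ℍ → ℍ, Isom9 φ ∧ kap (φ b) (φ a) = - g51 (dist a b) := by
  by_cases hne : a = b
  · refine ⟨id, fun c => ⟨1, norm_one, fun e => by simp⟩, ?_⟩
    rw [hne, dist_self, g51_zero, kap_self51, neg_zero]
  · obtain ⟨z, w, h1, h2⟩ := level9 (dist_nonneg (x := a) (y := b))
    obtain ⟨φ, h3, h4, h5⟩ := isom_exists9 a b z w h1.symm hne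
    exact ⟨φ, h3, by rw [h4, h5, h2]⟩

/-! ### Paths -/

/-- the pass of the walk at `v (i + 1)` is sharp -/
def Sharp9 (al : ℝ) (v : ℕ → ℍ) (i : ℕ) : Prop :=
  0 < ang (v (i + 1)) (v (i + 2)) (v i) ∧ ang (v (i + 1)) (v (i + 2)) (v i) ≤ 2 * al

theorem path_disp9 {d al : ℝ} (hd : 0 < d) (ha0 : 0 < al)
    (ha : 2 * al ≤ Real.pi - g51 d) (hr : 2 * rho51 d al ≤ g51 d) (v : ℕ → ℍ) (m : ℕ)
    (h : ∀ i < m, dist (v i) (v (i + 1)) = d) :
    ∑ i ∈ Finset.range m, kap (v i) (v (i + 1)) ≤ m * g51 d -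
      ((Finset.range (m - 1)).filter (fun i => Sharp9 al v i)).card * rho51 d al := by
  set t := Real.tanh (d / 2) with ht
  have hg : g51 d = 2 * Real.arcsin t := rfl
  have ht1 : t < 1 := Real.tanh_lt_one _
  have ht0 : 0 < t := by
    rw [ht, Real.tanh_eq_sinh_div_cosh]
    exact div_pos (Real.sinh_pos_iff.2 (by linarith)) (Real.cosh_pos _)
  have hac : al ≤ Real.arccos t := by
    rw [Real.arccos_eq_pi_div_two_sub_arcsin]
    linarith
  have hrho : rho51 d al = 2 * (2 * Real.arcsin t - kt51 t al) := rfl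
  have hr' : 2 * (2 * Real.arcsin t - kt51 t al) ≤ Real.arcsin t := by
    rw [hrho, hg] at hr
    linarith
  rcases Nat.eq_zero_or_pos m with rfl | hm
  · simp
  obtain ⟨n, rfl⟩ : ∃ n, m = n + 1 := ⟨m - 1, by omega⟩
  rw [Nat.add_sub_cancel]
  have h1 : ∑ i ∈ Finset.range (n + 1),
      (C51 t (up51 (v i) (v (i + 1))) + C51 t (dn51 (v (i + 1)) (v i))) ≤
      ∑ i ∈ Finset.range (n + 1), (g51 d - kap (v i) (v (i + 1))) :=
    Finset.sum_le_sum (fun i hi => edge51 hd (h i (Finset.mem_range.1 hi)))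
  rw [Finset.sum_add_distrib, Finset.sum_sub_distrib, Finset.sum_const, nsmul_eq_mul,
    Finset.card_range] at h1
  have h2 : ∑ i ∈ Finset.range n, C51 t (up51 (v (i + 1)) (v (i + 2))) ≤
      ∑ i ∈ Finset.range (n + 1), C51 t (up51 (v i) (v (i + 1))) := by
    rw [Finset.sum_range_succ']
    have := C51_nonneg ht0 ht1 (up51 (v 0) (v (0 + 1)))
    linarith
  have h3 : ∑ i ∈ Finset.range n, C51 t (dn51 (v (i + 1)) (v i)) ≤
      ∑ i ∈ Finset.range (n + 1), C51 t (dn51 (v (i + 1)) (v i)) := by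
    rw [Finset.sum_range_succ]
    have := C51_nonneg ht0 ht1 (dn51 (v (n + 1)) (v n))
    linarith
  set F := (Finset.range n).filter (fun i => Sharp9 al v i) with hF
  have hFB : F ⊆ Finset.range n := Finset.filter_subset _ (Finset.range n)
  have h4 : (F.card : ℝ) * rho51 d al ≤ ∑ i ∈ Finset.range n,
      (C51 t (up51 (v (i + 1)) (v (i + 2))) + C51 t (dn51 (v (i + 1)) (v i))) := by
    rw [← nsmul_eq_mul, ← Finset.sum_const]
    refine le_trans ?_ (Finset.sum_le_sum_of_subset_of_nonneg hFB ?_)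
    · apply Finset.sum_le_sum
      intro i hi
      obtain ⟨hi0, hs0, hs1⟩ := Finset.mem_filter.1 hi
      have hi1 := Finset.mem_range.1 hi0
      have hn : v (i + 2) ≠ v (i + 1) := dist_pos_ne51 hd (h (i + 1) (by omega))
      have hp : v i ≠ v (i + 1) := (dist_pos_ne51 hd (h i (by omega))).symm
      have h5 := pass51 hn hp hs0
      rw [hrho]
      exact vert51 ht0 ht1 ha0 hac hr' (by linarith)
    · intro i _ _
      have n1 := C51_nonneg ht0 ht1 (up51 (v (i + 1)) (v (i + 2)))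
      have n2 := C51_nonneg ht0 ht1 (dn51 (v (i + 1)) (v i))
      linarith
  rw [Finset.sum_add_distrib] at h4
  push_cast at h1 ⊢
  linarith

theorem fan_path9 (v : ℕ → ℍ) (m : ℕ) :
    ∑ i ∈ Finset.range m, kap (v i) (v (i + 1)) + kap (v m) (v 0) =
      ∑ i ∈ Finset.range m, S51 (v 0) (v i) (v (i + 1)) := by
  have h1 : ∀ i : ℕ, S51 (v 0) (v i) (v (i + 1)) =
      kap (v i) (v (i + 1)) + (kap (v 0) (v i) - kap (v 0) (v (i + 1))) := by
    intro i
    unfold S51
    have := kap_swap51 (v 0) (v (i + 1))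
    linarith
  rw [Finset.sum_congr rfl (fun i _ => h1 i), Finset.sum_add_distrib,
    Finset.sum_range_sub' (fun i => kap (v 0) (v i)), kap_self51]
  have := kap_swap51 (v 0) (v m)
  linarith

/-- a path, closed by the segment of its ends, with the ideal triangle over that segment -/
theorem poly_disp9 {d al : ℝ} (hd : 0 < d) (ha0 : 0 < al)
    (ha : 2 * al ≤ Real.pi - g51 d) (hr : 2 * rho51 d al ≤ g51 d) (v : ℕ → ℍ) (m : ℕ)
    (h : ∀ i < m, dist (v i) (v (i + 1)) = d) :
    ∑ i ∈ Finset.range m, kap (v i) (v (i + 1)) + kap (v m) (v 0) + g51 (dist (v 0) (v m)) ≤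
      m * g51 d -
      ((Finset.range (m - 1)).filter (fun i => Sharp9 al v i)).card * rho51 d al := by
  obtain ⟨φ, h1, h2⟩ := isom_level9 (v 0) (v m)
  have h3 := path_disp9 hd ha0 ha hr (fun i => φ (v i)) m (fun i hi => by
    rw [isom_dist9 h1]
    exact h i hi)
  have h4 : (fun i => Sharp9 al (fun i => φ (v i)) i) = fun i => Sharp9 al v i := by
    funext i
    unfold Sharp9
    simp only [isom_ang9 h1]
  have h5 := fan_path9 v m
  have h6 := fan_path9 (fun i => φ (v i)) m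
  simp only [isom_S9 h1] at h6
  have e : ((Finset.range (m - 1)).filter (fun i => Sharp9 al (fun i => φ (v i)) i)).card =
      ((Finset.range (m - 1)).filter (fun i => Sharp9 al v i)).card := by
    congr 1
    apply Finset.filter_congr
    intro i _
    rw [iff_iff_eq]
    exact congrFun h4 i
  rw [e] at h3
  linarith

/-- closed walks: the sharp passes except at the two ends of a chord -/
theorem closed_disp9 {d al : ℝ} (hd : 0 < d) (ha0 : 0 < al)
    (ha : 2 * al ≤ Real.pi - g51 d) (hr : 2 * rho51 d al ≤ g51 d) (hr0 : 0 ≤ rho51 d al)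
    (v : ℕ → ℍ) (b : ℕ) (h0 : v b = v 0) (h : ∀ i < b, dist (v i) (v (i + 1)) = d) (j : ℕ)
    (hj : j ≤ b) :
    ∑ i ∈ Finset.range b, kap (v i) (v (i + 1)) ≤ b * g51 d - 2 * g51 (dist (v 0) (v j)) -
      (((Finset.range (b - 1)).filter (fun i => Sharp9 al v i)).card - 1) * rho51 d al := by
  obtain ⟨m, rfl⟩ := Nat.exists_eq_add_of_le hj
  have h1 := poly_disp9 hd ha0 ha hr v j (fun i hi => h i (by omega))
  have h2 := poly_disp9 hd ha0 ha hr (fun i => v (j + i)) m (fun i hi => h (j + i) (by omega))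
  rw [Finset.sum_range_add]
  have e1 : kap (v (j + m)) (v j) = - kap (v j) (v 0) := by rw [h0]; exact kap_swap51 _ _
  simp only [add_zero] at h2
  have e2 : ∀ x, v (j + (x + 1)) = v (j + x + 1) := fun x => rfl
  simp only [e2] at h2
  rw [e1, h0, dist_comm (v j) (v 0)] at h2
  -- counting
  have h3 : ((Finset.range (j + m - 1)).filter (fun i => Sharp9 al v i)).card ≤
      ((Finset.range (j - 1)).filter (fun i => Sharp9 al v i)).card + 1 +
      ((Finset.range (m - 1)).filter (fun i => Sharp9 al (fun i => v (j + i)) i)).card := by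
    have hsub : (Finset.range (j + m - 1)).filter (fun i => Sharp9 al v i) ⊆
        ((Finset.range (j - 1)).filter (fun i => Sharp9 al v i) ∪ {j - 1}) ∪
        ((Finset.range (m - 1)).filter (fun i => Sharp9 al (fun i => v (j + i)) i)).image
          (fun i => j + i) := by
      intro i hi
      rw [Finset.mem_filter, Finset.mem_range] at hi
      rw [Finset.mem_union, Finset.mem_union, Finset.mem_filter, Finset.mem_range,
        Finset.mem_singleton, Finset.mem_image]
      rcases lt_trichotomy i (j - 1) with h4 | h4 | h4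
      · exact Or.inl (Or.inl ⟨h4, hi.2⟩)
      · exact Or.inl (Or.inr h4)
      · right
        refine ⟨i - j, Finset.mem_filter.2 ⟨Finset.mem_range.2 (by omega), ?_⟩, by omega⟩
        have h5 := hi.2
        obtain ⟨k, rfl⟩ := Nat.exists_eq_add_of_le (show j ≤ i by omega)
        rw [Nat.add_sub_cancel_left]
        exact h5
    refine le_trans (Finset.card_le_card hsub) ?_
    refine le_trans (Finset.card_union_le _ _) ?_
    have h6 := Finset.card_union_le ((Finset.range (j - 1)).filter (fun i => Sharp9 al v i))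
      {j - 1}
    rw [Finset.card_singleton] at h6
    have h7 := Finset.card_image_le (s := (Finset.range (m - 1)).filter
      (fun i => Sharp9 al (fun i => v (j + i)) i)) (f := fun i => j + i)
    omega
  have h4 : ((((Finset.range (j + m - 1)).filter (fun i => Sharp9 al v i)).card : ℕ) : ℝ) ≤
      ((Finset.range (j - 1)).filter (fun i => Sharp9 al v i)).card + 1 +
      ((Finset.range (m - 1)).filter (fun i => Sharp9 al (fun i => v (j + i)) i)).card := by
    exact_mod_cast h3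
  push_cast
  nlinarith

end

end Pool.Agent.PEN
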