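import Pool.Agent.P4.B51c

/-! # PENNY, inequality (E): G with the excess area of the rhombi -/

set_option autoImplicit false

namespace Pool.Agent.PEN

open Classical UpperHalfPlane

noncomputable section

section D
variable {V : Type} (G : Tg V) {al : ℝ} {kp : V → V → ℝ} {U : ℕ → ℝ}

/-- small rhombus corners -/
def Sm62 (al : ℝ) : Finset (V × V) :=
  (iJ G).filter (fun x => RC G (G.cl x) ∧ TH G x < 2 * Real.pi - 5 * al)

theorem mem_Sm62 {x : V × V} : x ∈ Sm62 G al ↔
    x ∈ iJ G ∧ RC G (G.cl x) ∧ TH G x < 2 * Real.pi - 5 * al := by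
  unfold Sm62
  rw [Finset.mem_filter]

theorem bw_RC62 {x : V × V} (h : RC G (G.cl x)) : bw G al x = 2 := by
  unfold bw
  rw [if_neg (RC_ne51 G h), if_pos h]

/-- at a point of `N` -/
theorem point62 (hG : G.Geo al kp U) (he : 2 * Real.pi - 6 * al ≤ al / 4) {v : V}
    (hv : v ∈ inN G) :
    ((Jv G v).filter (fun x => x ∈ Sm62 G al)).card + 14 ≤ 2 * ∑ x ∈ Jv G v, bw G al x := by
  have hal := al_pos71 G hG
  have h7 := base7_51 G hG hv
  obtain ⟨S, hS⟩ : ∃ S, S = (Jv G v).filter (fun x => x ∈ Sm62 G al) := ⟨_, rfl⟩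
  obtain ⟨c, hc⟩ : ∃ c, c = ∑ x ∈ Jv G v, bw G al x := ⟨_, rfl⟩
  rw [← hS, ← hc]
  rw [← hc] at h7
  rcases Nat.eq_zero_or_pos S.card with h0 | hpos
  · omega
  have hne : S.Nonempty := Finset.card_pos.1 hpos
  have hsum : ∑ x ∈ Jv G v, (al * (bw G al x : ℝ) - TH G x) = al * c - 2 * Real.pi := by
    have h1 := sum_TH_point71 G hG hv
    change ∑ x ∈ Jv G v, TH G x = _ at h1
    rw [Finset.sum_sub_distrib, ← Finset.mul_sum, h1, hc, Nat.cast_sum]
  have h1 : ∑ x ∈ S, (al * (bw G al x : ℝ) - TH G x) ≤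
      ∑ x ∈ Jv G v, (al * (bw G al x : ℝ) - TH G x) := by
    apply Finset.sum_le_sum_of_subset_of_nonneg
    · rw [hS]
      exact Finset.filter_subset _ _
    · intro x hx _
      have := TH_bw51 G hG ((mem_Jv51 G).1 hx).1
      linarith
  have h2 : ∑ x ∈ S, (7 * al - 2 * Real.pi) < ∑ x ∈ S, (al * (bw G al x : ℝ) - TH G x) := by
    apply Finset.sum_lt_sum_of_nonempty hne
    intro x hx
    rw [hS, Finset.mem_filter, mem_Sm62] at hx
    obtain ⟨_, _, h3, h4⟩ := hx
    rw [bw_RC62 G h3]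
    push_cast
    linarith
  rw [Finset.sum_const, nsmul_eq_mul] at h2
  rw [hsum] at h1
  have h3 : (3 / 4 : ℝ) * al ≤ 7 * al - 2 * Real.pi := by linarith
  have h4 : (1 : ℝ) ≤ S.card := by exact_mod_cast hpos
  have h5 : ((S.card : ℝ) - 1) * (3 / 4 * al) ≤ ((S.card : ℝ) - 1) * (7 * al - 2 * Real.pi) :=
    mul_le_mul_of_nonneg_left h3 (by linarith)
  have h6 : al * (3 * ((S.card : ℝ) - 1)) < al * (4 * ((c : ℝ) - 7)) := by nlinarith
  have h7' := lt_of_mul_lt_mul_left h6 hal.le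
  have h8 : 3 * (S.card : ℝ) + 28 < 4 * c + 3 := by linarith
  have h9 : 3 * S.card + 28 < 4 * c + 3 := by exact_mod_cast h8
  omega

theorem sum_cJ_TH62 (hG : G.Geo al kp U) {C : G.adj.ConnectedComponent} (hC : C ∈ G.iC) :
    ∑ x ∈ G.cJ C, TH G (sg G x) = ∑ x ∈ G.cJ C, TH G x := by
  have hmem : ∀ x ∈ G.cJ C, sg G x ∈ G.cJ C := by
    intro x hx
    obtain ⟨h1, h2⟩ := cJ_iJ51 G hC hx
    obtain ⟨h3, h5⟩ := sg_mem51 G hG h1
    have := iJ_cJ51 G h3
    rw [h5, h2] at this
    exact this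
  have hinj : Set.InjOn (sg G) (G.cJ C : Set (V × V)) := by
    intro x hx y hy h
    exact sg_inj51 G hG (cJ_iJ51 G hC (Finset.mem_coe.1 hx)).1
      (cJ_iJ51 G hC (Finset.mem_coe.1 hy)).1 h
  have himg : (G.cJ C).image (sg G) = G.cJ C := by
    apply Finset.eq_of_subset_of_card_le
    · intro y hy
      obtain ⟨x, hx, rfl⟩ := Finset.mem_image.1 hy
      exact hmem x hx
    · rw [Finset.card_image_of_injOn hinj]
  conv_rhs => rw [← himg]
  rw [Finset.sum_image hinj]

/-- the inequality of a class -/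
theorem class62 (hG : G.Geo al kp U) {s1 : ℝ} (hs1 : s1 ≤ 3 * al)
    (hs : ∀ x ∈ iJ G, RC G (G.cl x) → 2 * Real.pi - 5 * al ≤ TH G x →
      2 * Real.pi - 5 * al ≤ TH G (sg G x) → TH G x + TH G (sg G x) ≤ s1)
    {C : G.adj.ConnectedComponent} (hC : C ∈ G.iC)
    (hA : A3 al * (G.cT C).card ≤ ∑ x ∈ G.cD C, G.ar x.1 x.2 / 3)
    (hP : (G.cT C).card = 3 → (G.cI C).card = 4 → ∑ x ∈ G.cJ C, wc G al x ≤ 12) :
    (6 * al - 2 * s1) * ((G.cI C).card / 2) ≤
      (∑ x ∈ G.cD C, G.ar x.1 x.2 / 3 - A3 al * (G.cT C).card) +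
      (6 * al - 2 * s1) * (((G.cJ C).filter (fun x => x ∈ Sm62 G al)).card +
        3 * (3 * ((G.cT C).card : ℝ) + (G.cI C).card - ∑ x ∈ G.cJ C, (bw G al x : ℝ))) := by
  have hal := al_pos71 G hG
  have hcl : ∀ x ∈ G.cJ C, G.cl x = C := fun x hx => (cJ_iJ51 G hC hx).2
  have hsplit := card_split66 G C
  have hB : (G.cB C).card = 0 := by
    rw [cB_of_iC66 G hC]
    rfl
  have hk : 0 ≤ 6 * al - 2 * s1 := by linarith
  have hSm : (0 : ℝ) ≤ ((G.cJ C).filter (fun x => x ∈ Sm62 G al)).card := Nat.cast_nonneg _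
  -- it is enough to have an inequality of numbers
  have key : ((G.cI C).card / 2 : ℝ) ≤ (((G.cJ C).filter (fun x => x ∈ Sm62 G al)).card +
        3 * (3 * ((G.cT C).card : ℝ) + (G.cI C).card - ∑ x ∈ G.cJ C, (bw G al x : ℝ))) →
      (6 * al - 2 * s1) * ((G.cI C).card / 2) ≤
      (∑ x ∈ G.cD C, G.ar x.1 x.2 / 3 - A3 al * (G.cT C).card) +
      (6 * al - 2 * s1) * (((G.cJ C).filter (fun x => x ∈ Sm62 G al)).card +
        3 * (3 * ((G.cT C).card : ℝ) + (G.cI C).card - ∑ x ∈ G.cJ C, (bw G al x : ℝ))) := by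
    intro h
    have := mul_le_mul_of_nonneg_left h hk
    linarith
  by_cases hI : G.cI C = ∅
  · apply key
    have h1 : ∑ x ∈ G.cJ C, (bw G al x : ℝ) = (G.cJ C).card := by
      rw [Finset.card_eq_sum_ones, Nat.cast_sum]
      refine Finset.sum_congr rfl fun x hx => ?_
      unfold bw
      rw [hcl x hx, if_pos hI]
    have h2 : ((G.cJ C).card : ℝ) ≤ 3 * (G.cT C).card + (G.cI C).card := by
      have : (G.cJ C).card ≤ 3 * (G.cT C).card + (G.cI C).card := by omega
      exact_mod_cast this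
    rw [h1]
    have h3 : ((G.cI C).card : ℝ) = 0 := by
      rw [hI, Finset.card_empty]
      norm_num
    linarith
  by_cases hR : RC G C
  · have h4 : (G.cJ C).card = 4 := by
      have h1 := hR.1
      have h2 := hR.2
      omega
    have h1 : ∑ x ∈ G.cJ C, (bw G al x : ℝ) = 8 := by
      have : ∑ x ∈ G.cJ C, (bw G al x : ℝ) = ∑ x ∈ G.cJ C, (2 : ℝ) := by
        refine Finset.sum_congr rfl fun x hx => ?_
        rw [bw_RC62 G (by rw [hcl x hx]; exact hR)]
        norm_num
      rw [this, Finset.sum_const, h4, nsmul_eq_mul]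
      norm_num
    have hc1 : ((G.cT C).card : ℝ) = 2 := by exact_mod_cast hR.1
    have hc2 : ((G.cI C).card : ℝ) = 2 := by exact_mod_cast hR.2
    by_cases hsm : ∃ x ∈ G.cJ C, x ∈ Sm62 G al
    · apply key
      obtain ⟨x, hx, hx2⟩ := hsm
      have h5 : (1 : ℝ) ≤ ((G.cJ C).filter (fun x => x ∈ Sm62 G al)).card := by
        exact_mod_cast Finset.card_pos.2 ⟨x, Finset.mem_filter.2 ⟨hx, hx2⟩⟩
      rw [h1, hc1, hc2]
      linarith
    · push Not at hsm
      have hbig : ∀ x ∈ G.cJ C, 2 * Real.pi - 5 * al ≤ TH G x := by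
        intro x hx
        by_contra h
        push Not at h
        exact hsm x hx ((mem_Sm62 G).2 ⟨(cJ_iJ51 G hC hx).1, by rw [hcl x hx]; exact hR, h⟩)
      have hmem : ∀ x ∈ G.cJ C, sg G x ∈ G.cJ C := by
        intro x hx
        obtain ⟨h1, h2⟩ := cJ_iJ51 G hC hx
        obtain ⟨h3, h5⟩ := sg_mem51 G hG h1
        have := iJ_cJ51 G h3
        rw [h5, h2] at this
        exact this
      have h5 : ∑ x ∈ G.cJ C, (TH G x + TH G (sg G x)) ≤ ∑ x ∈ G.cJ C, s1 := by
        apply Finset.sum_le_sum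
        intro x hx
        exact hs x (cJ_iJ51 G hC hx).1 (by rw [hcl x hx]; exact hR) (hbig x hx)
          (hbig _ (hmem x hx))
      rw [Finset.sum_add_distrib, sum_cJ_TH62 G hG hC, Finset.sum_const, h4, nsmul_eq_mul,
        sum_TH_class71 G hG hC, sum_th71] at h5
      push_cast at h5
      rw [hc1] at h5
      have h6 : (0 : ℝ) ≤ (6 * al - 2 * s1) *
          ((G.cJ C).filter (fun x => x ∈ Sm62 G al)).card := mul_nonneg hk hSm
      rw [h1, hc1, hc2]
      unfold A3
      linarith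
  · apply key
    have h1 : ∑ x ∈ G.cJ C, (bw G al x : ℝ) = ((∑ x ∈ G.cJ C, wc G al x : ℕ) : ℝ) := by
      rw [Nat.cast_sum]
      refine Finset.sum_congr rfl fun x hx => ?_
      unfold bw
      rw [hcl x hx, if_neg hI, if_neg hR]
    rw [h1]
    have hIpos := Finset.card_pos.2 (Finset.nonempty_iff_ne_empty.2 hI)
    have hconn := conn G C
    have hm1 : (G.cT C).card ≠ 1 := fun h => hI (cI_one11 G h)
    have hR' : ¬ ((G.cT C).card = 2 ∧ (G.cI C).card = 2) := hR
    have hgoal : (G.cI C).card + 6 * ∑ x ∈ G.cJ C, wc G al x ≤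
        18 * (G.cT C).card + 6 * (G.cI C).card := by
      by_cases hP5 : (G.cT C).card = 3 ∧ (G.cI C).card = 4
      · have := hP hP5.1 hP5.2
        obtain ⟨h3, h4⟩ := hP5
        omega
      rcases Finset.eq_empty_or_nonempty (G.cJ C) with hJ | hJ
      · rw [hJ, Finset.sum_empty]
        omega
      have h2 : (∑ x ∈ G.cJ C, wc G al x : ℕ) < 3 * (G.cT C).card + (G.cJ C).card := by
        have h2 : ((∑ x ∈ G.cJ C, wc G al x : ℕ) : ℝ) <
            ((3 * (G.cT C).card + (G.cJ C).card : ℕ) : ℝ) := by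
          rw [Nat.cast_sum]
          calc ∑ x ∈ G.cJ C, (wc G al x : ℝ) < ∑ x ∈ G.cJ C, (TH G x / al + 1) := by
                apply Finset.sum_lt_sum_of_nonempty hJ
                intro x hx
                unfold wc
                apply Nat.ceil_lt_add_one
                exact (div_pos (TH_pos71 G (cJ_iJ51 G hC hx).1) hal).le
            _ = (∑ x ∈ G.cJ C, TH G x) / al + (G.cJ C).card := by
                rw [Finset.sum_add_distrib, Finset.sum_div]
                simp
            _ ≤ ((3 * (G.cT C).card + (G.cJ C).card : ℕ) : ℝ) := by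
                rw [sum_TH_class71 G hG hC, sum_th71]
                push_cast
                have h3 : (Real.pi * (G.cT C).card - ∑ x ∈ G.cD C, G.ar x.1 x.2 / 3) / al ≤
                    3 * (G.cT C).card := by
                  rw [div_le_iff₀ hal]
                  unfold A3 at hA
                  linarith
                linarith
        exact_mod_cast h2
      omega
    have hgoal' : ((G.cI C).card : ℝ) + 6 * ((∑ x ∈ G.cJ C, wc G al x : ℕ) : ℝ) ≤
        18 * (G.cT C).card + 6 * (G.cI C).card := by exact_mod_cast hgoal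
    linarith

/-- **inequality (E)**: inequality G with a surplus `y`, and the excess area of the rhombi -/
theorem E62 (hG : G.Geo al kp U) (he : 2 * Real.pi - 6 * al ≤ al / 4) {s1 : ℝ}
    (hs1 : s1 ≤ 3 * al)
    (hs : ∀ x ∈ iJ G, RC G (G.cl x) → 2 * Real.pi - 5 * al ≤ TH G x →
      2 * Real.pi - 5 * al ≤ TH G (sg G x) → TH G x + TH G (sg G x) ≤ s1)
    (hA : ∀ C ∈ G.iC, A3 al * (G.cT C).card ≤ ∑ x ∈ G.cD C, G.ar x.1 x.2 / 3)
    (hP : ∀ C ∈ G.iC, (G.cT C).card = 3 → (G.cI C).card = 4 → ∑ x ∈ G.cJ C, wc G al x ≤ 12) :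
    ∃ y : ℝ, 0 ≤ y ∧
      (7 * al - 2 * Real.pi) * ((G.P.card : ℝ) - G.oJ.card) + al * y ≤
        al * G.iI.card + (∑ x ∈ G.iD, G.ar x.1 x.2 / 3 - A3 al * (G.iD.card / 3)) ∧
      (6 * al - 2 * s1) * ((G.iI.card : ℝ) / 2 - 3 * y) ≤
        ∑ x ∈ G.iD, G.ar x.1 x.2 / 3 - A3 al * (G.iD.card / 3) := by
  have hal := al_pos71 G hG
  have hk : 0 ≤ 6 * al - 2 * s1 := by linarith
  have hSsub : (iJ G).filter (fun x => x ∈ Sm62 G al) = Sm62 G al := by
    ext x
    rw [Finset.mem_filter]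
    exact ⟨fun h => h.2, fun h => ⟨((mem_Sm62 G).1 h).1, h⟩⟩
  -- the transfer
  have h1 := transfer71 G hG (fun x => (bw G al x : ℝ) - (if x ∈ Sm62 G al then 1 else 0) / 2) 7
    (fun C => ∑ x ∈ G.cJ C, ((bw G al x : ℝ) - (if x ∈ Sm62 G al then 1 else 0) / 2))
    ?_ ?_ (fun C _ => le_rfl)
  · rw [← sum_iJ71 G, Finset.sum_sub_distrib, ← Finset.sum_div, Finset.sum_boole, hSsub] at h1
    have hI : ∑ C ∈ G.iC, ((3 * ((G.cT C).card : ℝ) + (G.cI C).card)) =
        G.iD.card + G.iI.card := by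
      rw [card_iD27, ← sum_cI66 G]
      push_cast
      rw [Finset.sum_add_distrib, Finset.mul_sum]
    have hI2 : ∑ C ∈ G.iC, ((G.cI C).card : ℝ) = G.iI.card := by
      rw [← sum_cI66 G, Nat.cast_sum]
    have hI3 : ∑ C ∈ G.iC, ((G.cT C).card : ℝ) = (G.iD.card : ℝ) / 3 := by
      rw [card_iD27]
      push_cast
      ring
    have hA1 : ∑ C ∈ G.iC, ∑ x ∈ G.cD C, G.ar x.1 x.2 / 3 = ∑ x ∈ G.iD, G.ar x.1 x.2 / 3 := by
      rw [← Finset.sum_fiberwise_of_maps_to (s := G.iD) (t := G.iC) (g := G.cl)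
        (fun x hx => Finset.mem_image_of_mem _ hx)]
      exact Finset.sum_congr rfl fun C hC => by rw [iD_fiber27 G hC]
    have hS1 : ∑ C ∈ G.iC, (((G.cJ C).filter (fun x => x ∈ Sm62 G al)).card : ℝ) =
        (Sm62 G al).card := by
      have h2 := sum_iJ71 G (fun x => if x ∈ Sm62 G al then (1 : ℝ) else 0)
      rw [Finset.sum_boole, hSsub] at h2
      rw [h2]
      exact Finset.sum_congr rfl fun C _ => by rw [Finset.sum_boole]
    have hB1 := sum_iJ71 G (fun x => (bw G al x : ℝ))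
    have hcls := Finset.sum_le_sum fun C (hC : C ∈ G.iC) =>
      class62 G hG hs1 hs hC (hA C hC) (hP C hC)
    rw [← Finset.mul_sum, Finset.sum_add_distrib, Finset.sum_sub_distrib, ← Finset.mul_sum,
      ← Finset.mul_sum, hA1, hI3, Finset.sum_add_distrib, hS1, ← Finset.mul_sum,
      Finset.sum_sub_distrib, hI, ← hB1, ← Finset.sum_div, hI2] at hcls
    have hsc : (0 : ℝ) ≤ (G.iD.card : ℝ) + G.iI.card - ∑ x ∈ iJ G, (bw G al x : ℝ) := by
      have h2 : ∑ C ∈ G.iC, ∑ x ∈ G.cJ C, (bw G al x : ℝ) ≤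
          ∑ C ∈ G.iC, ((3 * ((G.cT C).card : ℝ) + (G.cI C).card)) := by
        apply Finset.sum_le_sum
        intro C hC
        -- class sums of the base weights
        have hsplit := card_split66 G C
        have hB : (G.cB C).card = 0 := by
          rw [cB_of_iC66 G hC]
          rfl
        have hcl : ∀ x ∈ G.cJ C, G.cl x = C := fun x hx => (cJ_iJ51 G hC hx).2
        by_cases hI : G.cI C = ∅
        · have h3 : ∑ x ∈ G.cJ C, (bw G al x : ℝ) = (G.cJ C).card := by
            rw [Finset.card_eq_sum_ones, Nat.cast_sum]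
            refine Finset.sum_congr rfl fun x hx => ?_
            unfold bw
            rw [hcl x hx, if_pos hI]
          rw [h3]
          have : (G.cJ C).card ≤ 3 * (G.cT C).card + (G.cI C).card := by omega
          exact_mod_cast this
        by_cases hR : RC G C
        · have h4 : (G.cJ C).card = 4 := by
            have h1 := hR.1
            have h2 := hR.2
            omega
          have : ∑ x ∈ G.cJ C, (bw G al x : ℝ) = ∑ x ∈ G.cJ C, (2 : ℝ) := by
            refine Finset.sum_congr rfl fun x hx => ?_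
            rw [bw_RC62 G (by rw [hcl x hx]; exact hR)]
            norm_num
          rw [this, Finset.sum_const, h4, nsmul_eq_mul]
          have hc1 : ((G.cT C).card : ℝ) = 2 := by exact_mod_cast hR.1
          have hc2 : ((G.cI C).card : ℝ) = 2 := by exact_mod_cast hR.2
          rw [hc1, hc2]
          norm_num
        · have h3 : ∑ x ∈ G.cJ C, (bw G al x : ℝ) = ((∑ x ∈ G.cJ C, wc G al x : ℕ) : ℝ) := by
            rw [Nat.cast_sum]
            refine Finset.sum_congr rfl fun x hx => ?_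
            unfold bw
            rw [hcl x hx, if_neg hI, if_neg hR]
          rw [h3]
          have := wc_class71 G hG hC (hA C hC)
          exact_mod_cast this
      rw [hI, ← hB1] at h2
      linarith
    refine ⟨((Sm62 G al).card : ℝ) / 2 + ((G.iD.card : ℝ) + G.iI.card -
      ∑ x ∈ iJ G, (bw G al x : ℝ)), ?_, ?_, ?_⟩
    · have : (0 : ℝ) ≤ (Sm62 G al).card := Nat.cast_nonneg _
      linarith
    · have h3 : (G.P.card : ℝ) - G.oJ.card ≤ (inN G).card := by
        have := card_inN71 G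
        have h4 : (G.P.card : ℝ) ≤ G.oJ.card + (inN G).card := by exact_mod_cast this
        linarith
      have h5 := mul_le_mul_of_nonneg_left h3 (by linarith [hG.al1] : 0 ≤ 7 * al - 2 * Real.pi)
      unfold A3
      linarith
    · have hSnn : (0 : ℝ) ≤ (6 * al - 2 * s1) * (Sm62 G al).card :=
        mul_nonneg hk (Nat.cast_nonneg _)
      linarith
  · intro x hx
    have h2 := TH_bw51 G hG hx
    by_cases hS : x ∈ Sm62 G al
    · rw [if_pos hS]
      obtain ⟨_, h3, h4⟩ := (mem_Sm62 G).1 hS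
      rw [bw_RC62 G h3]
      push_cast
      linarith
    · rw [if_neg hS]
      linarith
  · intro v hv
    change (7 : ℝ) ≤ ∑ x ∈ Jv G v, _
    rw [Finset.sum_sub_distrib, ← Finset.sum_div, Finset.sum_boole]
    have h2 := point62 G hG he hv
    have h3 : (((Jv G v).filter (fun x => x ∈ Sm62 G al)).card : ℝ) + 14 ≤
        2 * ∑ x ∈ Jv G v, (bw G al x : ℝ) := by
      rw [← Nat.cast_sum]
      exact_mod_cast h2
    linarith

end D

end

end Pool.Agent.PEN
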