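import Pool.Agent.P4.T66b
import Pool.Agent.P4.Uc27
import Pool.Agent.P4.Uc11

/-! # PENNY, inequality G

The gap `TH` of an inner contact dart (also at hull points) and the transfer inequality: weights
`w x` of the inner contact darts with `TH x ≤ al * w x`. -/

set_option autoImplicit false

namespace Pool.Agent.PEN

open Classical UpperHalfPlane

noncomputable section

section D
variable {V : Type} (G : Tg V) {al : ℝ} {kp : V → V → ℝ} {U : ℕ → ℝ}

/-! ### gaps of inner darts -/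

theorem inn_bk71 {v a : V} (h : G.inn (v, a)) (hc : ¬ G.con v a) :
    (a, v) ∈ G.Dp ∧ G.inn (v, G.bk v a) ∧ G.cl (v, G.bk v a) = G.cl (v, a) := by
  have h1 : (v, a) ∈ G.cD (G.cl (v, a)) := (mem_cD66 G).2 ⟨h.1, rfl⟩
  have h2 := mem_cI11 G h.2 h1 hc
  have h3 : (a, v) ∈ G.Dp := cI_swap11 G h2
  have h4 := swap_cD66 G h2
  have h5 := rot_cD66 G (cI_sub11 G h4)
  rw [mem_cD66] at h5
  exact ⟨h3, inn_of_cl27 G h h5.1 h5.2, h5.2⟩

theorem fw_bk71 {v a : V} (h : (a, v) ∈ G.Dp) : G.ap v (G.bk v a) = a := G.ap3 _ _ h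

theorem bk_fw71 {v a : V} (h : (v, a) ∈ G.Dp) : G.bk v (G.ap v a) = a := G.ap4 _ _ h

/-- going clockwise from an inner dart one meets a contact dart -/
theorem hasO71 (hG : G.Geo al kp U) {v a : V} (h : G.inn (v, a)) : G.HasO v a := by
  by_contra hno
  have hv := G.mem _ _ (G.sub h.1)
  obtain ⟨S, hmem⟩ : ∃ S : Finset V, ∀ b, b ∈ S ↔ (v, b) ∈ G.D ∧
      (G.inn (v, b) ∧ ¬ G.HasO v b) := ⟨_, mem_img66 G v (fun b => G.inn (v, b) ∧ ¬ G.HasO v b)⟩
  have hbk : ∀ b ∈ S, G.bk v b ∈ S := by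
    intro b hb
    obtain ⟨h1, h2, h3⟩ := (hmem b).1 hb
    have hc : ¬ G.con v b := fun hc => h3 ⟨0, hc⟩
    obtain ⟨h4, h5, _⟩ := inn_bk71 G h2 hc
    refine (hmem _).2 ⟨G.sub h5.1, h5, ?_⟩
    rintro ⟨i, hi⟩
    exact h3 ⟨i + 1, by rw [Function.iterate_succ_apply]; exact hi⟩
  have hfb : ∀ b ∈ S, G.ap v (G.bk v b) = b := by
    intro b hb
    obtain ⟨h1, h2, h3⟩ := (hmem b).1 hb
    have hc : ¬ G.con v b := fun hc => h3 ⟨0, hc⟩
    exact fw_bk71 G (inn_bk71 G h2 hc).1
  have himg : S.image (G.bk v) = S := by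
    apply Finset.eq_of_subset_of_card_le
    · intro b hb
      obtain ⟨c, hc, rfl⟩ := Finset.mem_image.1 hb
      exact hbk c hc
    · rw [Finset.card_image_of_injOn]
      intro b hb c hc hbc
      rw [← hfb b (Finset.mem_coe.1 hb), ← hfb c (Finset.mem_coe.1 hc)]
      exact congrArg _ hbc
  have hfw : ∀ b ∈ S, G.ap v b ∈ S := by
    intro b hb
    rw [← himg] at hb
    obtain ⟨c, hc, rfl⟩ := Finset.mem_image.1 hb
    rw [hfb c hc]
    exact hc
  have hne : S.Nonempty := ⟨a, (hmem a).2 ⟨G.sub h.1, h, hno⟩⟩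
  by_cases hb : G.bd v
  · exact hG.bdno v hv hb S hne (fun b hb => ⟨((hmem b).1 hb).2.1.1, hfw b hb⟩)
  · have h1 := hG.turn v hv hb S hne (fun b hb => ((hmem b).1 hb).1) hfw
    obtain ⟨c, hc1, hc2⟩ := con_ex66 G hG hv
    have hcS : c ∉ S := fun h2 => ((hmem c).1 h2).2.2 ⟨0, hc2⟩
    have h2 : ∑ b ∈ insert c S, G.th v b ≤
        ∑ x ∈ G.D.filter (fun x => x.1 = v), G.th x.1 x.2 := by
      have e := Finset.sum_image (s := insert c S) (g := fun b => (v, b))
        (f := fun x : V × V => G.th x.1 x.2) (fun x _ y _ h => (Prod.mk.inj h).2)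
      dsimp only at e
      rw [← e]
      apply Finset.sum_le_sum_of_subset_of_nonneg
      · intro x hx
        obtain ⟨b, hb, rfl⟩ := Finset.mem_image.1 hx
        rw [Finset.mem_filter]
        refine ⟨?_, rfl⟩
        rcases Finset.mem_insert.1 hb with rfl | hb
        · exact hc1
        · exact ((hmem b).1 hb).1
      · rintro ⟨x1, x2⟩ hx _
        rw [Finset.mem_filter] at hx
        obtain ⟨h3, h4⟩ := hx
        simp only at h4
        subst h4
        exact (G.thpos _ _ (G.int1 _ _ hv hb h3)).le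
    rw [hG.tot v hv hb, Finset.sum_insert hcS] at h2
    have h3 := G.thpos _ _ (G.int1 _ _ hv hb hc1)
    linarith

/-- the gap of an inner dart lies in its class -/
theorem og71 (hG : G.Geo al kp U) {v a : V} (h : G.inn (v, a)) :
    G.con v (G.og v a) ∧ G.inn (v, G.og v a) ∧ G.cl (v, G.og v a) = G.cl (v, a) := by
  have hO := hasO71 G hG h
  have e : G.og v a = (G.bk v)^[Nat.find hO] a := by
    unfold Tg.og
    rw [dif_pos hO]
  rw [e]
  have key : ∀ i, i ≤ Nat.find hO → G.inn (v, (G.bk v)^[i] a) ∧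
      G.cl (v, (G.bk v)^[i] a) = G.cl (v, a) := by
    intro i
    induction i with
    | zero => intro _; exact ⟨h, rfl⟩
    | succ i ih =>
      intro hi
      obtain ⟨h1, h2⟩ := ih (by omega)
      obtain ⟨_, h3, h4⟩ := inn_bk71 G h1 (Nat.find_min hO (by omega))
      rw [Function.iterate_succ_apply']
      exact ⟨h3, h4.trans h2⟩
  exact ⟨Nat.find_spec hO, key _ le_rfl⟩

/-- the gap of a contact dart: the inner darts from it to the next contact dart -/
def gp (x : V × V) : Finset (V × V) :=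
  G.iD.filter (fun y => y.1 = x.1 ∧ G.og x.1 y.2 = x.2)

/-- the angle of the gap -/
def TH (x : V × V) : ℝ := ∑ y ∈ gp G x, G.th y.1 y.2

/-- inner contact darts -/
def iJ : Finset (V × V) := G.iD.filter (fun x => G.con x.1 x.2)

/-- points all of whose contact darts are inner -/
def inN : Finset V := G.P.filter (fun v => ¬ ∃ a, (v, a) ∈ G.oJ)

theorem mem_iJ71 {x : V × V} : x ∈ iJ G ↔ G.inn x ∧ G.con x.1 x.2 := by
  unfold iJ
  rw [Finset.mem_filter, mem_iD27]

theorem iJ_fiber71 {C : G.adj.ConnectedComponent} (hC : C ∈ G.iC) :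
    (iJ G).filter (fun x => G.cl x = C) = G.cJ C := by
  have h := iD_fiber27 G hC
  ext x
  rw [Finset.mem_filter, mem_iJ71]
  unfold Tg.cJ
  rw [Finset.mem_filter]
  constructor
  · rintro ⟨⟨h1, h2⟩, h3⟩
    exact ⟨h1.1, h3, h2⟩
  · rintro ⟨h1, h2, h3⟩
    have h4 : x ∈ G.iD.filter (fun x => G.cl x = C) := by
      rw [h, mem_cD66]
      exact ⟨h1, h2⟩
    rw [Finset.mem_filter, mem_iD27] at h4
    exact ⟨⟨h4.1, h3⟩, h2⟩

theorem cl_iJ71 {x : V × V} (hx : x ∈ iJ G) : G.cl x ∈ G.iC := by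
  unfold iJ at hx
  rw [Finset.mem_filter] at hx
  exact Finset.mem_image_of_mem _ hx.1

/-- sum over the inner contact darts, class by class -/
theorem sum_iJ71 (f : V × V → ℝ) : ∑ x ∈ iJ G, f x = ∑ C ∈ G.iC, ∑ x ∈ G.cJ C, f x := by
  rw [← Finset.sum_fiberwise_of_maps_to (g := G.cl) (fun x hx => cl_iJ71 G hx)]
  exact Finset.sum_congr rfl fun C hC => by rw [iJ_fiber71 G hC]

/-- all the angles of inner triangles are shared among the inner contact darts -/
theorem sum_TH71 (hG : G.Geo al kp U) : ∑ x ∈ iJ G, TH G x = ∑ y ∈ G.iD, G.th y.1 y.2 := by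
  rw [← Finset.sum_fiberwise_of_maps_to (s := G.iD) (t := iJ G)
    (g := fun y => (y.1, G.og y.1 y.2))]
  · refine Finset.sum_congr rfl fun x _ => ?_
    unfold TH gp
    refine Finset.sum_congr (Finset.filter_congr fun y _ => ?_) fun _ _ => rfl
    constructor
    · rintro ⟨h1, h2⟩
      exact Prod.ext h1 (by rw [h1]; exact h2)
    · intro h
      have h1 : y.1 = x.1 := by rw [← h]
      have h2 : G.og y.1 y.2 = x.2 := by rw [← h]
      exact ⟨h1, by rw [← h1]; exact h2⟩
  · rintro ⟨v, a⟩ hy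
    rw [mem_iD27] at hy
    obtain ⟨h1, h2, _⟩ := og71 G hG hy
    exact (mem_iJ71 G).2 ⟨h2, h1⟩

theorem sum_TH_class71 (hG : G.Geo al kp U) {C : G.adj.ConnectedComponent} (hC : C ∈ G.iC) :
    ∑ x ∈ G.cJ C, TH G x = ∑ y ∈ G.cD C, G.th y.1 y.2 := by
  rw [← Finset.sum_fiberwise_of_maps_to (s := G.cD C) (t := G.cJ C)
    (g := fun y => (y.1, G.og y.1 y.2))]
  · refine Finset.sum_congr rfl fun x hx => ?_
    unfold TH gp
    refine Finset.sum_congr ?_ fun _ _ => rfl
    have hx' := hx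
    unfold Tg.cJ at hx'
    rw [Finset.mem_filter] at hx'
    ext y
    rw [Finset.mem_filter, Finset.mem_filter, mem_iD27]
    constructor
    · rintro ⟨h1, h2, h3⟩
      have e : (y.1, G.og y.1 y.2) = x := Prod.ext h2 (by rw [h2]; exact h3)
      have h4 := (og71 G hG h1).2.2
      rw [mem_cD66]
      refine ⟨⟨h1.1, ?_⟩, e⟩
      rw [← hx'.2.1, ← e]
      exact h4.symm
    · rintro ⟨h1, h⟩
      have h2 : y.1 = x.1 := by rw [← h]
      have h3 : G.og y.1 y.2 = x.2 := by rw [← h]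
      rw [← iD_fiber27 G hC, Finset.mem_filter, mem_iD27] at h1
      exact ⟨h1.1, h2, by rw [← h2]; exact h3⟩
  · rintro ⟨v, a⟩ hy
    rw [← iD_fiber27 G hC, Finset.mem_filter, mem_iD27] at hy
    obtain ⟨h1, h2, h3⟩ := og71 G hG hy.1
    unfold Tg.cJ
    rw [Finset.mem_filter]
    exact ⟨h2.1, h3.trans hy.2, h1⟩

/-- at a point of `N` the gaps add to `2π` -/
theorem sum_TH_point71 (hG : G.Geo al kp U) {v : V} (hv : v ∈ inN G) :
    ∑ x ∈ (iJ G).filter (fun x => x.1 = v), TH G x = 2 * Real.pi := by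
  unfold inN at hv
  rw [Finset.mem_filter] at hv
  obtain ⟨hv, hno⟩ := hv
  have hb : ¬ G.bd v := fun hb => hno (bd_oJ G hG hv hb)
  have hall : ∀ a, (v, a) ∈ G.D → G.con v a → G.inn (v, a) := by
    intro a h1 h2
    by_contra h3
    exact hno ⟨a, (mem_oJ66 G).2 ⟨h1, h2, h3⟩⟩
  have e1 : ∑ x ∈ (iJ G).filter (fun x => x.1 = v), TH G x =
      ∑ y ∈ G.iD.filter (fun y => y.1 = v), G.th y.1 y.2 := by
    rw [← Finset.sum_fiberwise_of_maps_to (s := G.iD.filter (fun y => y.1 = v))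
      (t := (iJ G).filter (fun x => x.1 = v)) (g := fun y => (y.1, G.og y.1 y.2))]
    · refine Finset.sum_congr rfl fun x hx => ?_
      rw [Finset.mem_filter] at hx
      unfold TH gp
      rw [Finset.filter_filter]
      refine Finset.sum_congr (Finset.filter_congr fun y _ => ?_) fun _ _ => rfl
      constructor
      · rintro ⟨h1, h2⟩
        exact ⟨h1.trans hx.2, Prod.ext h1 (by rw [h1]; exact h2)⟩
      · rintro ⟨_, h⟩
        have h1 : y.1 = x.1 := by rw [← h]
        have h2 : G.og y.1 y.2 = x.2 := by rw [← h]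
        exact ⟨h1, by rw [← h1]; exact h2⟩
    · rintro ⟨u, a⟩ hy
      rw [Finset.mem_filter, mem_iD27] at hy
      obtain ⟨h1, h2, _⟩ := og71 G hG hy.1
      rw [Finset.mem_filter]
      exact ⟨(mem_iJ71 G).2 ⟨h2, h1⟩, hy.2⟩
  rw [e1]
  apply le_antisymm
  · rw [← hG.tot v hv hb]
    apply Finset.sum_le_sum_of_subset_of_nonneg
    · intro y hy
      rw [Finset.mem_filter, mem_iD27] at hy
      rw [Finset.mem_filter]
      exact ⟨G.sub hy.1.1, hy.2⟩
    · rintro ⟨y1, y2⟩ hy _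
      rw [Finset.mem_filter] at hy
      obtain ⟨h2, h3⟩ := hy
      simp only at h3
      subst h3
      exact (G.thpos _ _ (G.int1 _ _ hv hb h2)).le
  · have hmem := mem_img66 G v (fun b => G.inn (v, b))
    have h1 := hG.turn v hv hb
      ((G.D.filter (fun y => y.1 = v ∧ G.inn (v, y.2))).image Prod.snd) (by
        obtain ⟨a, h1, h2⟩ := con_ex66 G hG hv
        exact ⟨a, (hmem a).2 ⟨h1, hall a h1 h2⟩⟩) (fun a ha => ((hmem a).1 ha).1) (by
        intro a ha
        obtain ⟨h1, h2⟩ := (hmem a).1 ha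
        have h3 : (v, G.ap v a) ∈ G.D := G.symm _ _ (G.sub (G.ap2 _ _ h2.1))
        refine (hmem _).2 ⟨h3, ?_⟩
        by_cases hc : G.con v (G.ap v a)
        · exact hall _ h3 hc
        · exact inn_next66 G h2 hc)
    refine le_trans h1 (le_of_eq ?_)
    have hinj : Set.InjOn Prod.snd
        ((G.D.filter (fun y => y.1 = v ∧ G.inn (v, y.2)) : Finset (V × V)) : Set (V × V)) := by
      rintro ⟨y1, y2⟩ hy ⟨z1, z2⟩ hz hyz
      rw [Finset.mem_coe, Finset.mem_filter] at hy hz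
      have e1 : y1 = v := hy.2.1
      have e2 : z1 = v := hz.2.1
      simp only at hyz
      rw [e1, e2, hyz]
    rw [Finset.sum_image (f := fun a => G.th v a) hinj]
    refine Finset.sum_congr ?_ ?_
    · ext ⟨y1, y2⟩
      rw [Finset.mem_filter, Finset.mem_filter, mem_iD27]
      constructor
      · rintro ⟨_, h2, h3⟩
        simp only at h2 h3
        subst h2
        exact ⟨h3, rfl⟩
      · rintro ⟨h2, h3⟩
        simp only at h3
        subst h3
        exact ⟨G.sub h2.1, rfl, h2⟩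
    · rintro ⟨y1, y2⟩ hy
      rw [Finset.mem_filter] at hy
      have : y1 = v := hy.2
      rw [this]

theorem gp_self71 {x : V × V} (hx : x ∈ iJ G) : x ∈ gp G x := by
  rw [mem_iJ71] at hx
  unfold gp
  rw [Finset.mem_filter, mem_iD27]
  exact ⟨hx.1, rfl, (og_self66 G hx.2).2⟩

theorem TH_pos71 {x : V × V} (hx : x ∈ iJ G) : 0 < TH G x := by
  unfold TH
  apply Finset.sum_pos
  · intro y hy
    unfold gp at hy
    rw [Finset.mem_filter, mem_iD27] at hy
    exact G.thpos _ _ hy.1.1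
  · exact ⟨x, gp_self71 G hx⟩

/-- the other darts of a gap are inner non-contact darts of the class with the same origin -/
theorem gp_sub71 (hG : G.Geo al kp U) {C : G.adj.ConnectedComponent} (hC : C ∈ G.iC) {x : V × V}
    (hx : x ∈ G.cJ C) : gp G x ⊆ insert x ((G.cI C).filter (fun y => y.1 = x.1)) := by
  intro y hy
  unfold gp at hy
  rw [Finset.mem_filter, mem_iD27] at hy
  obtain ⟨h1, h2, h3⟩ := hy
  have hx' := hx
  unfold Tg.cJ at hx'
  rw [Finset.mem_filter] at hx'
  rw [Finset.mem_insert, Finset.mem_filter]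
  by_cases hc : G.con y.1 y.2
  · left
    have := (og_self66 G hc).2
    rw [h2] at this
    exact Prod.ext h2 (by rw [← this]; exact h3)
  · right
    refine ⟨?_, h2⟩
    have e : (y.1, G.og y.1 y.2) = x := Prod.ext h2 (by rw [h2]; exact h3)
    have h4 : G.cl (y.1, G.og y.1 y.2) = G.cl (y.1, y.2) := (og71 G hG h1).2.2
    rw [e, hx'.2.1] at h4
    exact mem_cI11 G (cB_of_iC66 G hC) ((mem_cD66 G).2 ⟨h1.1, h4.symm⟩) hc

/-- the sum of the angles of a class -/
theorem sum_th71 (C : G.adj.ConnectedComponent) : ∑ y ∈ G.cD C, G.th y.1 y.2 =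
    Real.pi * (G.cT C).card - ∑ x ∈ G.cD C, G.ar x.1 x.2 / 3 := by
  have h1 : ∑ x ∈ G.cD C, G.th x.2 (G.ap x.1 x.2) = ∑ x ∈ G.cD C, G.th x.1 x.2 := by
    refine Finset.sum_bij' (fun x _ => (x.2, G.ap x.1 x.2)) (fun x _ => (G.ap x.1 x.2, x.1))
      (fun x hx => rot_cD66 G hx) (fun x hx => rot_cD66' G hx) ?_ ?_ ?_
    · intro x hx
      have hx' := ((mem_cD66 G).1 hx).1
      exact Prod.ext (G.ap3 _ _ hx') rfl
    · intro x hx
      have hx' := ((mem_cD66 G).1 hx).1
      exact Prod.ext rfl (G.ap4 _ _ hx')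
    · intro x _
      rfl
  have h2 : ∑ x ∈ G.cD C, G.th (G.ap x.1 x.2) x.1 = ∑ x ∈ G.cD C, G.th x.1 x.2 := by
    refine Finset.sum_bij' (fun x _ => (G.ap x.1 x.2, x.1)) (fun x _ => (x.2, G.ap x.1 x.2))
      (fun x hx => rot_cD66' G hx) (fun x hx => rot_cD66 G hx) ?_ ?_ ?_
    · intro x hx
      have hx' := ((mem_cD66 G).1 hx).1
      exact Prod.ext rfl (G.ap4 _ _ hx')
    · intro x hx
      have hx' := ((mem_cD66 G).1 hx).1
      exact Prod.ext (G.ap3 _ _ hx') rfl
    · intro x _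
      rfl
  have h3 : ∑ x ∈ G.cD C, G.ar x.1 x.2 / 3 = (∑ x ∈ G.cD C, (Real.pi : ℝ)) / 3 -
      (∑ x ∈ G.cD C, G.th x.1 x.2 + ∑ x ∈ G.cD C, G.th x.2 (G.ap x.1 x.2) +
        ∑ x ∈ G.cD C, G.th (G.ap x.1 x.2) x.1) / 3 := by
    rw [← Finset.sum_add_distrib, ← Finset.sum_add_distrib, ← sub_div,
      ← Finset.sum_sub_distrib, Finset.sum_div]
    exact Finset.sum_congr rfl fun x _ => rfl
  rw [h3, h1, h2, Finset.sum_const, card_cD, nsmul_eq_mul]
  push_cast
  ring

theorem sum_th_iD71 : ∑ y ∈ G.iD, G.th y.1 y.2 =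
    Real.pi * (G.iD.card / 3) - ∑ x ∈ G.iD, G.ar x.1 x.2 / 3 := by
  rw [sum_iD27 G (fun y => G.th y.1 y.2), sum_iD27 G (fun x => G.ar x.1 x.2 / 3), card_iD27]
  push_cast
  rw [mul_div_cancel_left₀ _ (by norm_num : (3 : ℝ) ≠ 0), Finset.mul_sum,
    ← Finset.sum_sub_distrib]
  exact Finset.sum_congr rfl fun C _ => sum_th71 G C

/-- the number of points that are not in `N` -/
theorem card_inN71 : G.P.card ≤ G.oJ.card + (inN G).card := by
  have h2 : (G.P \ inN G).card ≤ G.oJ.card := by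
    calc (G.P \ inN G).card ≤ (G.oJ.image Prod.fst).card := by
          refine Finset.card_le_card fun v hv => ?_
          unfold inN at hv
          rw [Finset.mem_sdiff, Finset.mem_filter, not_and, not_not] at hv
          obtain ⟨a, ha⟩ := hv.2 hv.1
          exact Finset.mem_image_of_mem Prod.fst ha
      _ ≤ G.oJ.card := Finset.card_image_le
  have h3 : G.P.card ≤ (G.P \ inN G).card + (inN G).card := Finset.card_le_card_sdiff_add_card
  omega

/-- **transfer**: weights `w` of the inner contact darts with `TH x ≤ al * w x`, at least `K` in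
total at every point of `N`, at most `c C` in total in every inner class -/
theorem transfer71 (hG : G.Geo al kp U) (w : V × V → ℝ) (K : ℝ)
    (c : G.adj.ConnectedComponent → ℝ) (h0 : ∀ x ∈ iJ G, TH G x ≤ al * w x)
    (hK : ∀ v ∈ inN G, K ≤ ∑ x ∈ (iJ G).filter (fun x => x.1 = v), w x)
    (hc : ∀ C ∈ G.iC, ∑ x ∈ G.cJ C, w x ≤ c C) :
    (K * al - 2 * Real.pi) * (inN G).card ≤
      al * ∑ C ∈ G.iC, c C - Real.pi * (G.iD.card / 3) + ∑ x ∈ G.iD, G.ar x.1 x.2 / 3 := by
  have hal : 0 < al := by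
    have a1 := hG.al1
    have := Real.pi_pos
    linarith
  have h1 : ∑ v ∈ inN G, ∑ x ∈ (iJ G).filter (fun x => x.1 = v), (al * w x - TH G x) ≤
      ∑ x ∈ iJ G, (al * w x - TH G x) := by
    rw [← Finset.sum_fiberwise_of_maps_to (s := iJ G) (t := (iJ G).image Prod.fst)
      (g := Prod.fst) (fun x hx => Finset.mem_image_of_mem _ hx)]
    have hnn : ∀ v, 0 ≤ ∑ x ∈ (iJ G).filter (fun x => x.1 = v), (al * w x - TH G x) := by
      intro v
      apply Finset.sum_nonneg
      intro x hx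
      have := h0 x (Finset.mem_filter.1 hx).1
      linarith
    have h2 : ∑ v ∈ inN G, ∑ x ∈ (iJ G).filter (fun x => x.1 = v), (al * w x - TH G x) =
        ∑ v ∈ (inN G).filter (fun v => v ∈ (iJ G).image Prod.fst),
          ∑ x ∈ (iJ G).filter (fun x => x.1 = v), (al * w x - TH G x) := by
      symm
      apply Finset.sum_filter_of_ne
      intro v _ hne
      by_contra hcon
      apply hne
      apply Finset.sum_eq_zero
      intro x hx
      rw [Finset.mem_filter] at hx
      exact absurd (hx.2 ▸ Finset.mem_image_of_mem Prod.fst hx.1) hcon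
    rw [h2]
    apply Finset.sum_le_sum_of_subset_of_nonneg
    · intro v hv
      exact (Finset.mem_filter.1 hv).2
    · intro v _ _
      exact hnn v
  have h3 : (K * al - 2 * Real.pi) * (inN G).card ≤
      ∑ v ∈ inN G, ∑ x ∈ (iJ G).filter (fun x => x.1 = v), (al * w x - TH G x) := by
    calc (K * al - 2 * Real.pi) * (inN G).card = ∑ v ∈ inN G, (K * al - 2 * Real.pi) := by
          rw [Finset.sum_const, nsmul_eq_mul]; ring
      _ ≤ _ := by
        apply Finset.sum_le_sum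
        intro v hv
        rw [Finset.sum_sub_distrib, ← Finset.mul_sum, sum_TH_point71 G hG hv]
        have := mul_le_mul_of_nonneg_left (hK v hv) hal.le
        linarith
  have h4 : ∑ x ∈ iJ G, (al * w x - TH G x) ≤
      al * ∑ C ∈ G.iC, c C - (Real.pi * (G.iD.card / 3) - ∑ x ∈ G.iD, G.ar x.1 x.2 / 3) := by
    rw [Finset.sum_sub_distrib, sum_TH71 G hG, sum_th_iD71, ← Finset.mul_sum, sum_iJ71]
    have := mul_le_mul_of_nonneg_left (Finset.sum_le_sum hc) hal.le
    linarith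
  linarith

end D

end

end Pool.Agent.PEN
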