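import Pool.Agent.P4.Reg51

/-! # Hyperbolic penny graphs: isoperimetry with prescribed apex angles

For a closed polygon and nonnegative numbers `f i` with sum `π`, the enclosed area is at most the
sum of the areas of the isosceles triangles over the sides with apex angles `2 f i`. -/

set_option autoImplicit false
set_option linter.all false

namespace Pool.Agent.PEN

open Classical UpperHalfPlane

noncomputable section

theorem psi51_zero : psi51 0 0 = 0 := by
  unfold psi51
  simp

theorem psi51_pi : psi51 Real.pi 0 = 0 := by
  unfold psi51
  simp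

/-- the isoperimetric inequality with prescribed apex angles -/
theorem walk_gen51 (v : ℕ → ℍ) (b : ℕ) (h0 : v b = v 0) (f : ℕ → ℝ) (hf : ∀ i < b, 0 ≤ f i)
    (hsum : ∑ i ∈ Finset.range b, f i = Real.pi) :
    ∑ i ∈ Finset.range b, kap (v i) (v (i + 1)) ≤
      ∑ i ∈ Finset.range b, psi51 (f i) (dist (v i) (v (i + 1))) := by
  rw [walk_fan51 v b h0]
  have key : ∀ m : ℕ, m ≤ b →
      ∑ i ∈ Finset.range m, S51 (v 0) (v i) (v (i + 1)) +
        psi51 (∑ i ∈ Finset.range m, f i) (dist (v 0) (v m)) ≤
        ∑ i ∈ Finset.range m, psi51 (f i) (dist (v i) (v (i + 1))) := by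
    intro m
    induction m with
    | zero =>
      intro _
      simp [psi51_zero]
    | succ m ih =>
      intro hmb
      have h1 := ih (by omega)
      rw [Finset.sum_range_succ, Finset.sum_range_succ, Finset.sum_range_succ]
      have h2 : ∑ i ∈ Finset.range m, f i + f m ≤ Real.pi := by
        rw [← hsum, ← Finset.sum_range_succ]
        apply Finset.sum_le_sum_of_subset_of_nonneg
        · intro x hx
          rw [Finset.mem_range] at hx ⊢
          omega
        · intro i hi _
          exact hf i (Finset.mem_range.1 hi)
      have h3 : 0 ≤ ∑ i ∈ Finset.range m, f i := by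
        apply Finset.sum_nonneg
        intro i hi
        exact hf i (by have := Finset.mem_range.1 hi; omega)
      have h4 := step_reg51 (d := dist (v m) (v (m + 1))) (w := ∑ i ∈ Finset.range m, f i)
        (f := f m) (v 0) (v m) (v (m + 1)) rfl h3 (hf m (by omega)) h2
      linarith
  have h1 := key b (le_refl b)
  rw [h0, dist_self, hsum, psi51_pi, add_zero] at h1
  exact h1

end

end Pool.Agent.PEN
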