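import Pool.Agent.P4.T66
import Pool.Agent.P4.Uc27

/-! # PENNY, version 4: the structure without squares and pentagons, with the polygon lemma -/

set_option autoImplicit false

namespace Pool.Agent.PEN

open Classical UpperHalfPlane

noncomputable section

namespace Tg

variable {V : Type} (G : Tg V)

/-- metric facts of version 4: valid for every diameter with `2π < 7 al` -/
structure Geo4 (al : ℝ) (kp : V → V → ℝ) (U : ℕ → ℝ) : Prop where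
  al1 : 2 * Real.pi < 7 * al
  al2 : 3 * al < Real.pi
  turn : ∀ v ∈ G.P, ¬ G.bd v → ∀ S : Finset V, S.Nonempty → (∀ a ∈ S, (v, a) ∈ G.D) →
    (∀ a ∈ S, G.ap v a ∈ S) → 2 * Real.pi ≤ ∑ a ∈ S, G.th v a
  tot : ∀ v ∈ G.P, ¬ G.bd v →
    ∑ x ∈ G.D.filter (fun x => x.1 = v), G.th x.1 x.2 = 2 * Real.pi
  bdno : ∀ v ∈ G.P, G.bd v → ∀ S : Finset V, S.Nonempty →
    ¬ (∀ a ∈ S, (v, a) ∈ G.Dp ∧ G.ap v a ∈ S)
  deg : ∀ v ∈ G.P, 3 ≤ (G.D.filter (fun x => x.1 = v ∧ G.con x.1 x.2)).card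
  left : ∀ v a b, (v, a) ∈ G.D → (v, b) ∈ G.D → (v, a) ∉ G.Dp → (v, b) ∉ G.Dp → a = b
  cnt : G.Dp.card + 3 * (G.P.filter G.bd).card + 6 ≤ 6 * G.P.card
  tpos : ∀ a b, (a, b) ∈ G.Dp → 0 < G.ar a b
  tcon : ∀ a b, (a, b) ∈ G.Dp → G.con a b → G.con b (G.ap a b) → G.con (G.ap a b) a →
    G.th a b = al
  rh1 : ∀ a b, G.Rh a b → al ≤ G.th (G.ap a b) a ∧ G.th (G.ap a b) a ≤ 2 * al
  rh2 : ∀ a b, G.Rh a b → al ≤ G.th a b + G.th a (G.ap b a) ∧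
    G.th a b + G.th a (G.ap b a) ≤ 2 * al
  /-- the polygon lemma -/
  pol : ∀ C : G.adj.ConnectedComponent, G.cB C = ∅ →
    A3 al * (G.cT C).card ≤ ∑ x ∈ G.cD C, G.ar x.1 x.2 / 3
  kanti : ∀ a b, kp a b = - kp b a
  kar : ∀ a b, (a, b) ∈ G.Dp → kp a b + kp b (G.ap a b) + kp (G.ap a b) a = G.ar a b
  walk : ∀ (v : ℕ → V) (b : ℕ), v b = v 0 → (∀ i < b, (v i, v (i + 1)) ∈ G.D) →
    (∀ i < b, G.con (v i) (v (i + 1))) →
    ∑ i ∈ Finset.range b, kp (v i) (v (i + 1)) ≤ U b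

end Tg

end

end Pool.Agent.PEN
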