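import Pool.Agent.P4.Orb85

/-! # P4, row L: interval sets in a strip of the order 7 tiling -/

set_option autoImplicit false

namespace Pool.Agent.PEN

open Classical UpperHalfPlane

noncomputable section

/-! ### bounds for the horocyclic coordinate, decidable -/

theorem kl85 : (12469796 / 10 ^ 7 : ℝ) < kap40 := by
  have h := kap_cubic
  have h1 := kap_one_lt
  by_contra h2
  push Not at h2
  nlinarith [mul_nonneg (sub_nonneg.2 h2) (sub_nonneg.2 h1.le),
    mul_nonneg (sub_nonneg.2 h2) (sq_nonneg (kap40 + 1))]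

theorem ku85 : kap40 < (12469797 / 10 ^ 7 : ℝ) := by
  have h := kap_cubic
  have h1 := kap_one_lt
  by_contra h2
  push Not at h2
  nlinarith [mul_nonneg (sub_nonneg.2 h2) (sub_nonneg.2 h1.le),
    mul_nonneg (sub_nonneg.2 h2) (sq_nonneg (kap40 + 1))]

theorem rl85 : (16355731 / 10 ^ 7 : ℝ) < r85 := by
  have h1 := rs85
  have h2 := r_add_s85
  have h3 := kl85
  have h5 := r_gt85
  by_contra h6
  push Not at h6
  have e : r85 ^ 2 - (1 + kap40) * r85 + 1 = 0 := by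
    linear_combination r85 * h2 - h1
  have h7 : (0 : ℝ) ≤ r85 - 10 ^ 7 / 16355731 := by
    have : (10 ^ 7 / 16355731 : ℝ) < 1 := by norm_num
    linarith
  nlinarith [mul_nonneg (sub_nonneg.2 h6) h7,
    mul_pos (sub_pos.2 h3) (lt_trans one_pos h5)]

theorem ru85 : r85 < (16355733 / 10 ^ 7 : ℝ) := by
  have h1 := rs85
  have h2 := r_add_s85
  have h3 := ku85
  have h5 := r_gt85
  by_contra h6
  push Not at h6
  have e : r85 ^ 2 - (1 + kap40) * r85 + 1 = 0 := by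
    linear_combination r85 * h2 - h1
  have h7 : (0 : ℝ) ≤ r85 - 10 ^ 7 / 16355733 := by
    have : (10 ^ 7 / 16355733 : ℝ) < 1 := by norm_num
    linarith
  nlinarith [mul_nonneg (sub_nonneg.2 h6) h7,
    mul_pos (sub_pos.2 h3) (lt_trans one_pos h5)]

/-- a lower bound for `c * m`, `m` in `[lo, hi]` -/
def lw85 (c lo hi : ℤ) : ℤ := if 0 ≤ c then c * lo else c * hi

theorem lw_le85 {c lo hi : ℤ} {m : ℝ} (h1 : (lo : ℝ) ≤ m) (h2 : m ≤ hi) :
    (lw85 c lo hi : ℝ) ≤ c * m := by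
  unfold lw85
  split_ifs with h
  · push_cast
    exact mul_le_mul_of_nonneg_left h1 (by exact_mod_cast h)
  · push_cast
    have h3 : (c : ℝ) ≤ 0 := by
      have : c ≤ 0 := by omega
      exact_mod_cast this
    exact mul_le_mul_of_nonpos_left h2 h3

/-- a lower bound for `10 ^ 7 * (ev A + r * ev B)` -/
def lwAB85 (A B : Z85) : ℤ :=
  A.1 * 10000000 + lw85 A.2.1 12469796 12469797 + lw85 A.2.2 15549580 15549585
  + lw85 B.1 16355731 16355733 + lw85 B.2.1 20395260 20395268 + lw85 B.2.2 25432470 25432485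

theorem lwAB_le85 (A B : Z85) :
    (lwAB85 A B : ℝ) ≤ 10 ^ 7 * (ev85 kap40 A + r85 * ev85 kap40 B) := by
  have k1 := kl85
  have k2 := ku85
  have r1 := rl85
  have r2 := ru85
  have k0 : 0 < kap40 := lt_trans one_pos kap_one_lt
  have r0 : 0 < r85 := lt_trans one_pos r_gt85
  have a1 : (15549580 : ℝ) ≤ 10 ^ 7 * kap40 ^ 2 := by nlinarith
  have a2 : 10 ^ 7 * kap40 ^ 2 ≤ (15549585 : ℝ) := by nlinarith
  have b1 : (20395260 : ℝ) ≤ 10 ^ 7 * (r85 * kap40) := by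
    have : (16355731 / 10 ^ 7 : ℝ) * (12469796 / 10 ^ 7) ≤ r85 * kap40 :=
      mul_le_mul r1.le k1.le (by norm_num) r0.le
    linarith
  have b2 : 10 ^ 7 * (r85 * kap40) ≤ (20395268 : ℝ) := by
    have : r85 * kap40 ≤ (16355733 / 10 ^ 7 : ℝ) * (12469797 / 10 ^ 7) :=
      mul_le_mul r2.le k2.le k0.le (by norm_num)
    linarith
  have c1 : (25432470 : ℝ) ≤ 10 ^ 7 * (r85 * kap40 ^ 2) := by
    have : (16355731 / 10 ^ 7 : ℝ) * (12469796 / 10 ^ 7) ^ 2 ≤ r85 * kap40 ^ 2 :=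
      mul_le_mul r1.le (pow_le_pow_left₀ (by norm_num) k1.le 2) (by norm_num) r0.le
    linarith
  have c2 : 10 ^ 7 * (r85 * kap40 ^ 2) ≤ (25432485 : ℝ) := by
    have : r85 * kap40 ^ 2 ≤ (16355733 / 10 ^ 7 : ℝ) * (12469797 / 10 ^ 7) ^ 2 :=
      mul_le_mul r2.le (pow_le_pow_left₀ k0.le k2.le 2) (by positivity) (by norm_num)
    linarith
  have e1 := lw_le85 (c := A.2.1) (lo := 12469796) (hi := 12469797) (m := 10 ^ 7 * kap40)
    (by push_cast; linarith) (by push_cast; linarith)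
  have e2 := lw_le85 (c := A.2.2) (lo := 15549580) (hi := 15549585) (m := 10 ^ 7 * kap40 ^ 2)
    (by push_cast; linarith) (by push_cast; linarith)
  have e3 := lw_le85 (c := B.1) (lo := 16355731) (hi := 16355733) (m := 10 ^ 7 * r85)
    (by push_cast; linarith) (by push_cast; linarith)
  have e4 := lw_le85 (c := B.2.1) (lo := 20395260) (hi := 20395268) (m := 10 ^ 7 * (r85 * kap40))
    (by push_cast; linarith) (by push_cast; linarith)
  have e5 := lw_le85 (c := B.2.2) (lo := 25432470) (hi := 25432485)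
    (m := 10 ^ 7 * (r85 * kap40 ^ 2)) (by push_cast; linarith) (by push_cast; linarith)
  unfold lwAB85 ev85
  push_cast
  linarith

theorem phi_lin85 (v : W85) : phi85 v = ev85 kap40 (v.1 - v.2.2) +
    r85 * ev85 kap40 (v.2.1 + mul85 (1, 1, 0) v.2.2) := by
  have hr : r85 ^ 2 = (1 + kap40) * r85 - 1 := by
    linear_combination (-r85) * r_add_s85.symm - rs85
  have e2 : ev85 kap40 (1, 1, 0) = 1 + kap40 := by
    unfold ev85; push_cast; ring
  unfold phi85
  rw [ev_sub85, ev_add85, ev_mul85 rt_kap85, e2]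
  linear_combination (ev85 kap40 v.2.2) * hr

/-- `1 ≤ phi v < r`, checked with integers -/
def Win85 (v : W85) : Prop :=
  10000000 ≤ lwAB85 (v.1 - v.2.2) (v.2.1 + mul85 (1, 1, 0) v.2.2) ∧
  0 < lwAB85 ((0, 0, 0) - (v.1 - v.2.2)) ((1, 0, 0) - (v.2.1 + mul85 (1, 1, 0) v.2.2))

instance (v : W85) : Decidable (Win85 v) :=
  inferInstanceAs (Decidable (10000000 ≤ lwAB85 (v.1 - v.2.2) (v.2.1 + mul85 (1, 1, 0) v.2.2) ∧
  0 < lwAB85 ((0, 0, 0) - (v.1 - v.2.2)) ((1, 0, 0) - (v.2.1 + mul85 (1, 1, 0) v.2.2))))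

theorem Win85.lo {v : W85} (h : Win85 v) : 1 ≤ phi85 v := by
  have h1 := lwAB_le85 (v.1 - v.2.2) (v.2.1 + mul85 (1, 1, 0) v.2.2)
  have h2 : ((10000000 : ℤ) : ℝ) ≤ lwAB85 (v.1 - v.2.2) (v.2.1 + mul85 (1, 1, 0) v.2.2) := by
    exact_mod_cast h.1
  rw [← phi_lin85] at h1
  push_cast at h2
  linarith

theorem Win85.hi {v : W85} (h : Win85 v) : phi85 v < r85 := by
  have h1 := lwAB_le85 ((0, 0, 0) - (v.1 - v.2.2)) ((1, 0, 0) - (v.2.1 + mul85 (1, 1, 0) v.2.2))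
  have h2 : ((0 : ℤ) : ℝ) < lwAB85 ((0, 0, 0) - (v.1 - v.2.2))
      ((1, 0, 0) - (v.2.1 + mul85 (1, 1, 0) v.2.2)) := by
    exact_mod_cast h.2
  have e0 : ev85 kap40 (0, 0, 0) = 0 := by unfold ev85; push_cast; ring
  have e1 : ev85 kap40 (1, 0, 0) = 1 := by unfold ev85; push_cast; ring
  rw [ev_sub85 kap40 (0, 0, 0), ev_sub85 kap40 (1, 0, 0), e0, e1] at h1
  have h3 := phi_lin85 v
  push_cast at h2
  nlinarith

/-! ### interval sets -/

/-- the edges of an interval set -/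
theorem interval85 {T : ℕ} (R : Rep85 (Fin T)) {d : ℝ} (hd : 0 < d)
    (ha : alpha d = 2 * Real.pi / 7) (EL : Finset (Fin T × Fin T × ℕ))
    (h0 : ∀ e ∈ EL, e.2.2 = 0 → e.1 < e.2.1)
    (hE : ∀ e ∈ EL, T85 (R.v e.1) (gl85^[e.2.2] (R.v e.2.1)) = (0, 1, 0))
    (lo hi : Fin T → ℕ) : ∃ P : Finset ℍ, P.card = ∑ t, (hi t - lo t) ∧ Sep d P ∧
      2 * ∑ e ∈ EL, (min (hi e.1) (hi e.2.1 - e.2.2) - max (lo e.1) (lo e.2.1 - e.2.2)) ≤
        cd d P := by
  have hinj := R.pt_inj hd ha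
  set A : Finset (Σ _ : Fin T, ℕ) := Finset.univ.sigma (fun t => Finset.Ico (lo t) (hi t)) with hA
  set f : (Σ _ : Fin T, ℕ) → ℍ := fun x => R.pt (x.1, x.2) with hf
  have hfi : Function.Injective f := by
    rintro ⟨t, p⟩ ⟨u, q⟩ h
    have h1 := hinj h
    simp only [Prod.mk.injEq] at h1
    obtain ⟨rfl, rfl⟩ := h1
    rfl
  refine ⟨A.image f, ?_, ?_, ?_⟩
  · rw [Finset.card_image_of_injective _ hfi, hA, Finset.card_sigma]
    exact Finset.sum_congr rfl (fun t _ => Nat.card_Ico _ _)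
  · intro x hx y hy hxy
    obtain ⟨a, -, rfl⟩ := Finset.mem_image.1 hx
    obtain ⟨b, -, rfl⟩ := Finset.mem_image.1 hy
    refine R.sep hd ha ?_
    intro h
    apply hxy
    rw [hf]
    simp only
    rw [h]
  · set B : Finset (Σ _ : Fin T × Fin T × ℕ, ℕ) := EL.sigma (fun e =>
      Finset.Ico (max (lo e.1) (lo e.2.1 - e.2.2)) (min (hi e.1) (hi e.2.1 - e.2.2))) with hB
    have hBc : B.card = ∑ e ∈ EL,
        (min (hi e.1) (hi e.2.1 - e.2.2) - max (lo e.1) (lo e.2.1 - e.2.2)) := by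
      rw [hB, Finset.card_sigma]
      exact Finset.sum_congr rfl (fun t _ => Nat.card_Ico _ _)
    rw [← hBc]
    set g1 : (Σ _ : Fin T × Fin T × ℕ, ℕ) → ℍ × ℍ := fun x =>
      (R.pt (x.1.1, x.2), R.pt (x.1.2.1, x.2 + x.1.2.2)) with hg1
    set g2 : (Σ _ : Fin T × Fin T × ℕ, ℕ) → ℍ × ℍ := fun x =>
      (R.pt (x.1.2.1, x.2 + x.1.2.2), R.pt (x.1.1, x.2)) with hg2
    have i1 : Function.Injective g1 := by
      rintro ⟨⟨t, u, k⟩, p⟩ ⟨⟨t', u', k'⟩, p'⟩ h
      rw [hg1] at h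
      simp only [Prod.mk.injEq] at h
      have h1 := hinj h.1
      have h2 := hinj h.2
      simp only [Prod.mk.injEq] at h1 h2
      obtain ⟨rfl, rfl⟩ := h1
      obtain ⟨rfl, h3⟩ := h2
      have h4 : k = k' := by omega
      subst h4
      rfl
    have i2 : Function.Injective g2 := by
      rintro ⟨⟨t, u, k⟩, p⟩ ⟨⟨t', u', k'⟩, p'⟩ h
      rw [hg2] at h
      simp only [Prod.mk.injEq] at h
      have h1 := hinj h.2
      have h2 := hinj h.1
      simp only [Prod.mk.injEq] at h1 h2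
      obtain ⟨rfl, rfl⟩ := h1
      obtain ⟨rfl, h3⟩ := h2
      have h4 : k = k' := by omega
      subst h4
      rfl
    have hdis : Disjoint (B.image g1) (B.image g2) := by
      rw [Finset.disjoint_left]
      rintro z hz1 hz2
      obtain ⟨⟨⟨t, u, k⟩, p⟩, ha1, rfl⟩ := Finset.mem_image.1 hz1
      obtain ⟨⟨⟨t', u', k'⟩, p'⟩, ha2, h⟩ := Finset.mem_image.1 hz2
      rw [hg1, hg2] at h
      simp only [Prod.mk.injEq] at h
      have h1 := hinj h.1
      have h2 := hinj h.2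
      simp only [Prod.mk.injEq] at h1 h2
      have hk : k = 0 := by omega
      have hk' : k' = 0 := by omega
      have e1 := h0 _ (Finset.mem_sigma.1 ha1).1 hk
      have e2 := h0 _ (Finset.mem_sigma.1 ha2).1 hk'
      simp only at e1 e2
      rw [h1.1, h2.1] at e2
      exact absurd e1 (not_lt.2 e2.le)
    have hcard : (B.image g1 ∪ B.image g2).card = 2 * B.card := by
      rw [Finset.card_union_of_disjoint hdis, Finset.card_image_of_injective _ i1,
        Finset.card_image_of_injective _ i2]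
      ring
    rw [← hcard]
    unfold cd
    apply Finset.card_le_card
    have key : ∀ x ∈ B, f ⟨x.1.1, x.2⟩ ∈ A.image f ∧ f ⟨x.1.2.1, x.2 + x.1.2.2⟩ ∈ A.image f ∧
        dist (R.pt (x.1.1, x.2)) (R.pt (x.1.2.1, x.2 + x.1.2.2)) = d := by
      rintro ⟨⟨t, u, k⟩, p⟩ hx
      obtain ⟨hx1, hx2⟩ := Finset.mem_sigma.1 hx
      simp only [Finset.mem_Ico] at hx2
      refine ⟨Finset.mem_image_of_mem _ ?_, Finset.mem_image_of_mem _ ?_,
        R.con hd ha (hE _ hx1) p⟩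
      · rw [hA, Finset.mem_sigma]
        exact ⟨Finset.mem_univ _, Finset.mem_Ico.2 ⟨by simp only; omega, by simp only; omega⟩⟩
      · rw [hA, Finset.mem_sigma]
        exact ⟨Finset.mem_univ _, Finset.mem_Ico.2 ⟨by simp only; omega, by simp only; omega⟩⟩
    intro z hz
    rw [Finset.mem_filter, Finset.mem_product]
    rcases Finset.mem_union.1 hz with h | h
    · obtain ⟨x, hx, rfl⟩ := Finset.mem_image.1 h
      obtain ⟨k1, k2, k3⟩ := key x hx
      exact ⟨⟨k1, k2⟩, k3⟩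
    · obtain ⟨x, hx, rfl⟩ := Finset.mem_image.1 h
      obtain ⟨k1, k2, k3⟩ := key x hx
      exact ⟨⟨k2, k1⟩, by rw [dist_comm]; exact k3⟩

/-- the heights: `j` types are one higher -/
def Hj85 {T : ℕ} (c : Fin T → ℕ) (j : ℕ) (t : Fin T) : ℕ := c t + (if (t : ℕ) < j then 1 else 0)

/-- the number of points of the first set -/
def Nj85 {T : ℕ} (lo c : Fin T → ℕ) (j : ℕ) : ℕ := ∑ t, (Hj85 c j t - lo t)

/-- the number of edges of the first set -/
def Ej85 {T : ℕ} (EL : Finset (Fin T × Fin T × ℕ)) (lo c : Fin T → ℕ) (j : ℕ) : ℕ :=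
  ∑ e ∈ EL, (min (Hj85 c j e.1) (Hj85 c j e.2.1 - e.2.2) - max (lo e.1) (lo e.2.1 - e.2.2))

/-- the growing family -/
theorem grow85 {T : ℕ} (R : Rep85 (Fin T)) {d : ℝ} (hd : 0 < d)
    (ha : alpha d = 2 * Real.pi / 7) (EL : Finset (Fin T × Fin T × ℕ))
    (h0 : ∀ e ∈ EL, e.2.2 = 0 → e.1 < e.2.1)
    (hE : ∀ e ∈ EL, T85 (R.v e.1) (gl85^[e.2.2] (R.v e.2.1)) = (0, 1, 0))
    (lo c : Fin T → ℕ) (h1 : ∀ t, lo t ≤ c t)
    (h2 : ∀ e ∈ EL, e.2.2 ≤ c e.2.1 ∧
      max (lo e.1) (lo e.2.1 - e.2.2) ≤ min (c e.1) (c e.2.1 - e.2.2)) (j q : ℕ) :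
    ∃ P : Finset ℍ, P.card = Nj85 lo c j + T * q ∧ Sep d P ∧
      2 * (Ej85 EL lo c j + EL.card * q) ≤ cd d P := by
  obtain ⟨P, p1, p2, p3⟩ := interval85 R hd ha EL h0 hE lo (fun t => Hj85 c j t + q)
  have hge : ∀ t, c t ≤ Hj85 c j t := by
    intro t
    unfold Hj85
    omega
  refine ⟨P, ?_, p2, le_trans ?_ p3⟩
  · rw [p1]
    unfold Nj85
    have : T * q = ∑ _t : Fin T, q := by
      rw [Finset.sum_const, Finset.card_univ, Fintype.card_fin, smul_eq_mul]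
    rw [this, ← Finset.sum_add_distrib]
    refine Finset.sum_congr rfl (fun t _ => ?_)
    have := h1 t
    have := hge t
    omega
  · apply Nat.mul_le_mul_left
    unfold Ej85
    have : EL.card * q = ∑ _e ∈ EL, q := by
      rw [Finset.sum_const, smul_eq_mul]
    rw [this, ← Finset.sum_add_distrib]
    refine Finset.sum_le_sum (fun e he => ?_)
    obtain ⟨h3, h4⟩ := h2 e he
    have h5 := hge e.1
    have h6 := hge e.2.1
    omega

end

end Pool.Agent.PEN
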