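import Pool.Agent.P4.Defs3
import Pool.Agent.PEN.FS40

/-! # Lower bounds together (row L, strip_Lb)

The three constructions `strip2`, `ball29`, `strip3` enter as hypotheses. -/

set_option autoImplicit false

namespace Pool.Agent.PEN

open Classical UpperHalfPlane

noncomputable section

/-- `strip_Lb` from `strip2`, `ball29`, `strip3` -/
theorem strip_Lb_of11 {d : ℝ} (hd : 0 < d) (ha : alpha d = 2 * Real.pi / 7)
    (s2 : ∀ n : ℕ, 30 ≤ n →
      ∃ P : Finset ℍ, P.card = n ∧ Sep d P ∧ 2 * ((19 * n - 48) / 8) ≤ cd d P)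
    (s29 : ∃ P : Finset ℍ, P.card = 29 ∧ Sep d P ∧ 126 ≤ cd d P)
    (s3 : ∀ n : ℕ, 93 ≤ n →
      ∃ P : Finset ℍ, P.card = n ∧ Sep d P ∧ 2 * ((50 * n - 135) / 21) ≤ cd d P)
    (n : ℕ) (hn : 9 ≤ n) :
    ∃ P : Finset ℍ, P.card = n ∧ Sep d P ∧ 2 * Lb n ≤ cd d P := by
  rcases eq_or_ne n 29 with rfl | h29
  · obtain ⟨P, h1, h2, h3⟩ := s29
    refine ⟨P, h1, h2, le_trans ?_ h3⟩
    unfold Lb
    norm_num
  · rcases Nat.lt_or_ge n 93 with h93 | h93
    · have hL : Lb n = max ((7 * n - 15) / 3) ((19 * n - 48) / 8) := by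
        unfold Lb
        rw [if_neg h29, if_neg (by omega)]
        exact max_eq_left (Nat.zero_le _)
      rw [hL]
      rcases le_total ((19 * n - 48) / 8) ((7 * n - 15) / 3) with h | h
      · rw [max_eq_left h]
        exact strip hd ha n (by omega)
      · rw [max_eq_right h]
        rcases Nat.lt_or_ge n 30 with h30 | h30
        · have h4 : (19 * n - 48) / 8 ≤ (7 * n - 15) / 3 := by
            interval_cases n <;> omega
          have h5 : (19 * n - 48) / 8 = (7 * n - 15) / 3 := le_antisymm h4 h
          rw [h5]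
          exact strip hd ha n (by omega)
        · exact s2 n h30
    · have hL : Lb n = max (max ((7 * n - 15) / 3) ((19 * n - 48) / 8))
          ((50 * n - 135) / 21) := by
        unfold Lb
        rw [if_neg h29, if_pos h93]
      rw [hL]
      rcases le_total (max ((7 * n - 15) / 3) ((19 * n - 48) / 8)) ((50 * n - 135) / 21) with h | h
      · rw [max_eq_right h]
        exact s3 n h93
      · rw [max_eq_left h]
        rcases le_total ((19 * n - 48) / 8) ((7 * n - 15) / 3) with h' | h'
        · rw [max_eq_left h']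
          exact strip hd ha n (by omega)
        · rw [max_eq_right h']
          exact s2 n (by omega)

end

end Pool.Agent.PEN
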