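import Pool.Agent.P4.NumW69
import Pool.Agent.P4.Y71m

/-! # The lines of the range `0.0538 ≤ A3 ≤ 0.0646` -/

set_option autoImplicit false

namespace Pool.Agent.PEN

open Classical UpperHalfPlane

noncomputable section

theorem line_of69 {d e c0 K r c1 v w : ℝ} (hd : 0 < d) (h : NW69 d e c0 c1 v w) (he2 : e ≤ 1)
    (hr : r * A3 (alpha d) ≤ rho51 d (alpha d))
    (hK : K * A3 (alpha d) ≤ 4 * Real.arcsin (6 / 7) - 2 * rho51 d (alpha d))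
    (hs : Side9 d (6 / 7)) : Line71 d e c0 K r c1 v w := by
  have h1 := h.he
  rw [div_le_iff₀ (alpha_pos hd)] at h1
  have h2 := h.h80 80 (by norm_num) le_rfl
  have e1 : (v + (w - v) / 68 * (((80 : ℕ) : ℝ) - 12)) = w := by
    push_cast
    ring
  rw [e1] at h2
  exact ⟨h1, he2, h.hg, hr, hK, h.hc, h.h12 12 le_rfl, h2, hs⟩

/-- `0.0570 ≤ A3 ≤ 0.0646` -/
theorem lineTD69 {d : ℝ} (hd : 0 < d) (h1 : 570 / 10000 ≤ A3 (alpha d))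
    (h2 : A3 (alpha d) ≤ 646 / 10000) :
    ∃ e c0 K r c1 v w : ℝ, TD e c0 K r c1 v w ∧ Line71 d e c0 K r c1 v w := by
  obtain ⟨e, c0, K, r, c1, v, w, hT, hN, hr, hK, hs⟩ := numTD69 hd h1 h2
  refine ⟨e, c0, K, r, c1, v, w, hT, line_of69 hd hN ?_ hr hK hs⟩
  rcases hT with ⟨rfl, _⟩ | ⟨rfl, _⟩ <;> norm_num

/-- `0.0538 ≤ A3 ≤ 0.0570` -/
theorem lineTS69 {d : ℝ} (hd : 0 < d) (h1 : 538 / 10000 ≤ A3 (alpha d))
    (h2 : A3 (alpha d) ≤ 570 / 10000) :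
    ∃ e c0 K r c1 v w κ : ℝ, TS e c0 K r c1 v w κ ∧ 0 ≤ κ ∧
      2 * Real.pi - 6 * alpha d ≤ alpha d / 4 ∧
      2 * Real.pi - 5 * alpha d + opp51 d (2 * Real.pi - 5 * alpha d) ≤ 3 * alpha d ∧
      κ * A3 (alpha d) ≤ 6 * alpha d -
        2 * (2 * Real.pi - 5 * alpha d + opp51 d (2 * Real.pi - 5 * alpha d)) ∧
      Line71 d e c0 K r c1 v w := by
  obtain ⟨e, c0, K, r, c1, v, w, κ, hT, hN, hr, hK, hs, hk⟩ := numTS69 hd h1 h2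
  have hA := A3_pos69 hd
  have hpi := Real.pi_gt_three
  have he2 : e ≤ 1 := by
    rcases hT with ⟨rfl, _⟩ | ⟨rfl, _⟩ | ⟨rfl, _⟩ | ⟨rfl, _⟩ <;> norm_num
  have hk0 : 0 ≤ κ := by
    rcases hT with ⟨_, _, _, _, _, _, _, rfl⟩ | ⟨_, _, _, _, _, _, _, rfl⟩ |
      ⟨_, _, _, _, _, _, _, rfl⟩ | ⟨_, _, _, _, _, _, _, rfl⟩ <;> norm_num
  have hkA := mul_nonneg hk0 hA.le
  refine ⟨e, c0, K, r, c1, v, w, κ, hT, hk0, ?_, by linarith, hk,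
    line_of69 hd hN he2 hr hK hs⟩
  unfold A3 at h2
  linarith

/-- **the range `0.0538 ≤ A3 ≤ 0.0646`** -/
theorem main_W69 {d : ℝ} (hd : 0 < d) (hC : Real.cosh d ≤ 611 / 500)
    (h1 : 538 / 10000 ≤ A3 (alpha d)) (h2 : A3 (alpha d) ≤ 646 / 10000) (hE : ¬ Exc66 d)
    {G : Tg ℍ} (hG : G.Geo4 (alpha d) kap (Ust69 d)) (hD : DelG G d)
    (hP : PentaG G (alpha d)) (hn : 10 ≤ G.P.card) :
    (G.D.filter (fun x => G.con x.1 x.2)).card ≤ 2 * Lb G.P.card := by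
  rcases le_total (A3 (alpha d)) (570 / 10000) with g | g
  · obtain ⟨e, c0, K, r, c1, v, w, κ, hT, hk, he4, m1, m2, L⟩ := lineTS69 hd h1 g
    exact main_DS71 hd hC hT hk he4 m1 m2 L hE hG hD hP hn
  · obtain ⟨e, c0, K, r, c1, v, w, hT, L⟩ := lineTD69 hd g h2
    exact main_DB71 hd hC hT L hE hG hD hP hn

end

end Pool.Agent.PEN
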