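import Pool.Agent.P4.Iso51
import Pool.Agent.P4.Q11

/-! # Closed walks: the two cases (row M1) -/

set_option autoImplicit false

namespace Pool.Agent.PEN

open Classical UpperHalfPlane

noncomputable section

/-- M1: two cases: all distances `D` from `v 0` have `tanh (D/2) ≤ q`, or one has not -/
theorem walk_two {d : ℝ} (hd : 0 < d) {q : ℝ} (hq0 : 0 ≤ q) (hq1 : q < 1) (v : ℕ → ℍ) (b : ℕ)
    (hb : 8 ≤ b) (h0 : v b = v 0) (h : ∀ i < b, dist (v i) (v (i + 1)) = d) :
    ∑ i ∈ Finset.range b, kap (v i) (v (i + 1)) ≤
      max (2 * (uu d 1 + uu d 2 + uu d 3) +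
          ((b : ℝ) - 8) * (2 * Real.arcsin (q * Real.tanh (d / 2))))
        (b * (2 * Real.arcsin (Real.tanh (d / 2))) - 4 * Real.arcsin q) := by
  have _ := hq0
  have _ := hq1
  have ht0 : 0 ≤ Real.tanh (d / 2) := tanh_nonneg11 (by positivity)
  by_cases hcase : ∀ i, i ≤ b → Real.tanh (dist (v 0) (v i) / 2) ≤ q
  · apply le_max_of_le_left
    rw [walk_fan51 v b h0]
    have hfw : ∀ i, i ≤ b → dist (v 0) (v i) ≤ i * d := by
      intro i
      induction i with
      | zero => intro _; simp
      | succ i ih =>
        intro hi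
        have h2 := ih (by omega)
        have h3 := dist_triangle (v 0) (v i) (v (i + 1))
        rw [h i (by omega)] at h3
        push_cast
        linarith
    have hbw : ∀ i, i ≤ b → dist (v 0) (v (b - i)) ≤ i * d := by
      intro i
      induction i with
      | zero =>
        intro _
        rw [Nat.sub_zero, h0]
        simp
      | succ i ih =>
        intro hi
        have h2 := ih (by omega)
        have h3 := dist_triangle (v 0) (v (b - i)) (v (b - (i + 1)))
        have h4 : b - i = b - (i + 1) + 1 := by omega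
        have h5 := h (b - (i + 1)) (by omega)
        rw [← h4, dist_comm] at h5
        rw [h5] at h3
        push_cast
        linarith
    have s1 : ∀ i < b, S51 (v 0) (v i) (v (i + 1)) ≤ uu d i := fun i hi =>
      S51_le_uu hd.le (h i hi) (hfw i hi.le)
    have s2 : ∀ i j, i < b → i + 1 + j = b → S51 (v 0) (v i) (v (i + 1)) ≤ uu d j := by
      intro i j hi hj
      have h6 := hbw j (by omega)
      have h7 : b - j = i + 1 := by omega
      rw [h7] at h6
      exact S51_le_uu' hd.le (h i hi) h6
    have s3 : ∀ i < b, S51 (v 0) (v i) (v (i + 1)) ≤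
        2 * Real.arcsin (q * Real.tanh (d / 2)) := by
      intro i hi
      rw [← S51_rot]
      refine (S51_le (v i) (v (i + 1)) (v 0)).trans ?_
      rw [h i hi, dist_comm (v i) (v 0), mul_comm (Real.tanh (d / 2))]
      have h8 := hcase i hi.le
      have := Real.monotone_arcsin (mul_le_mul_of_nonneg_right h8 ht0)
      linarith
    have hu0 : uu d 0 = 0 := uu_zero51 d
    obtain ⟨m, rfl⟩ : ∃ m, b = 4 + m + 4 := ⟨b - 8, by omega⟩
    rw [Finset.sum_range_add, Finset.sum_range_add]
    have a1 : ∑ i ∈ Finset.range 4, S51 (v 0) (v i) (v (i + 1)) ≤ uu d 1 + uu d 2 + uu d 3 := by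
      have e0 := s1 0 (by omega)
      have e1 := s1 1 (by omega)
      have e2 := s1 2 (by omega)
      have e3 := s1 3 (by omega)
      rw [hu0] at e0
      simp only [Finset.sum_range_succ, Finset.sum_range_zero]
      linarith
    have a2 : ∑ i ∈ Finset.range m, S51 (v 0) (v (4 + i)) (v (4 + i + 1)) ≤
        m * (2 * Real.arcsin (q * Real.tanh (d / 2))) := by
      have := Finset.sum_le_card_nsmul (Finset.range m)
        (fun i => S51 (v 0) (v (4 + i)) (v (4 + i + 1)))
        (2 * Real.arcsin (q * Real.tanh (d / 2)))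
        (fun i hi => s3 (4 + i) (by have := Finset.mem_range.mp hi; omega))
      rw [Finset.card_range, nsmul_eq_mul] at this
      exact this
    have a3 : ∑ i ∈ Finset.range 4, S51 (v 0) (v (4 + m + i)) (v (4 + m + i + 1)) ≤
        uu d 1 + uu d 2 + uu d 3 := by
      have e0 := s2 (4 + m + 0) 3 (by omega) (by omega)
      have e1 := s2 (4 + m + 1) 2 (by omega) (by omega)
      have e2 := s2 (4 + m + 2) 1 (by omega) (by omega)
      have e3 := s2 (4 + m + 3) 0 (by omega) (by omega)
      rw [hu0] at e3
      simp only [Finset.sum_range_succ, Finset.sum_range_zero]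
      linarith
    have hcast : ((4 + m + 4 : ℕ) : ℝ) - 8 = m := by
      push_cast
      ring
    rw [hcast]
    linarith
  · apply le_max_of_le_right
    push Not at hcase
    obtain ⟨j, hj, hj2⟩ := hcase
    have h1 := walk_le_g51 v b h0 h j hj
    unfold g51 at h1
    have h2 := Real.monotone_arcsin hj2.le
    linarith

end

end Pool.Agent.PEN
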