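import Pool.Agent.P4.XA39

/-! # Row M2b: numbers for `611/500 ≤ cosh d ≤ 27/20`

Page: `MP_45fc25_PENNY2_h56.md`, version 3. -/

set_option autoImplicit false

namespace Pool.Agent.PEN

open Classical UpperHalfPlane

noncomputable section

private lemma sqrt3_lt9 : Real.sqrt 3 ≤ 17320509 / 10000000 :=
  Real.sqrt_le_iff.mpr ⟨by norm_num, by norm_num⟩

private lemma sqrt3_gt9 : 17320508 / 10000000 ≤ Real.sqrt 3 :=
  Real.le_sqrt_of_sq_le (by norm_num)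

private lemma cos_form9 (y : ℝ) : Real.cos (Real.pi / 3 - 2 * y) =
    1 / 2 * Real.cos (2 * y) + Real.sqrt 3 / 2 * Real.sin (2 * y) := by
  rw [Real.cos_sub, Real.cos_pi_div_three, Real.sin_pi_div_three]

private lemma cos_up9 {y : ℝ} (h0 : 0 ≤ y) (h1 : y ≤ 1 / 2) :
    Real.cos (2 * y) ≤ 1 - 2 * y ^ 2 + 5 / 6 * y ^ 4 := by
  have h2 : |2 * y| ≤ 1 := by
    rw [abs_le]
    constructor <;> linarith
  have h3 := (abs_le.mp (Real.cos_bound h2)).2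
  rw [abs_of_nonneg (by linarith : (0 : ℝ) ≤ 2 * y)] at h3
  nlinarith

/-- bounds for `y = A3 / 6` -/
theorem y_bounds9 {d : ℝ} (hd : 0 < d) (h1 : 611 / 500 ≤ Real.cosh d)
    (h2 : Real.cosh d ≤ 27 / 20) :
    2933 / 100000 ≤ A3 (alpha d) / 6 ∧ A3 (alpha d) / 6 ≤ 1 / 20 := by
  obtain ⟨y, hy⟩ : ∃ y, y = A3 (alpha d) / 6 := ⟨_, rfl⟩
  rw [← hy]
  have hal : alpha d = Real.pi / 3 - 2 * y := by
    rw [hy]
    unfold A3
    ring
  have hy0 : 0 < y := by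
    have := alpha_lt hd
    rw [hal] at this
    linarith
  have hc := cos_alpha hd
  have hlo : 611 / 1111 ≤ Real.cos (alpha d) := by
    rw [hc, div_le_div_iff₀ (by norm_num) (by linarith)]
    linarith
  have hhi : Real.cos (alpha d) ≤ 27 / 47 := by
    rw [hc, div_le_div_iff₀ (by linarith) (by norm_num)]
    linarith
  constructor
  · by_contra hcon
    rw [not_le] at hcon
    rw [hal, cos_form9] at hlo
    have h3 := cos_up9 hy0.le (by linarith)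
    have h4 := Real.sin_le (by linarith : (0 : ℝ) ≤ 2 * y)
    have h5 := sqrt3_lt9
    have h6 : Real.sqrt 3 / 2 * Real.sin (2 * y) ≤ 17320509 / 10000000 * y := by
      have h7 : Real.sqrt 3 / 2 * Real.sin (2 * y) ≤ Real.sqrt 3 / 2 * (2 * y) :=
        mul_le_mul_of_nonneg_left h4 (by positivity)
      nlinarith
    have h8 : y ^ 4 ≤ (2933 / 100000) ^ 4 := pow_le_pow_left₀ hy0.le hcon.le 4
    nlinarith [mul_pos (sub_pos.mpr hcon) (by linarith : (0 : ℝ) < 17 / 10 - 2933 / 100000 - y)]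
  · by_contra hcon
    rw [not_le] at hcon
    have h3 : Real.cos (Real.pi / 3 - 2 * (1 / 20)) ≤ Real.cos (alpha d) := by
      apply Real.cos_le_cos_of_nonneg_of_le_pi (alpha_nonneg39 d)
      · linarith [Real.pi_pos]
      · rw [hal]
        linarith
    rw [cos_form9] at h3
    have h4 := Real.one_sub_sq_div_two_le_cos (x := 2 * (1 / 20))
    have h5 := Real.sin_gt_sub_cube (x := 2 * (1 / 20)) (by norm_num)
    have h6 := sqrt3_gt9
    nlinarith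

private lemma key9 {y t q k : ℝ} (hy0 : 2933 / 100000 ≤ y) (hy1 : y ≤ 1 / 20) (ht0 : 0 ≤ t)
    (ht1 : t ≤ 1) (ht : t ^ 2 = 2 * Real.cos (Real.pi / 3 - 2 * y) - 1) (hq : 0 ≤ q)
    (hq1 : q ≤ 1) (hk : 0 < k) (hk1 : k ≤ 11)
    (hP : q ^ 2 * (2 * (17320509 / 10000000) - 2 * y + 5 / 6 * y ^ 3) ≤
      k ^ 2 * y * (1 - k ^ 2 / 3 * y ^ 2 - 5 / 48 * k ^ 3 * y ^ 3)) :
    Real.arcsin (q * t) ≤ k * y := by
  have hy : 0 < y := by linarith
  have hz : 0 < k * y := mul_pos hk hy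
  have hz1 : k * y ≤ 11 / 20 := by nlinarith
  have hqt : q * t ≤ 1 := by nlinarith
  have hqt0 : 0 ≤ q * t := mul_nonneg hq ht0
  rw [Real.arcsin_le_iff_le_sin ⟨by linarith, hqt⟩
    ⟨by linarith [Real.pi_pos], by linarith [Real.pi_gt_three]⟩]
  obtain ⟨z, hzz⟩ : ∃ z, z = k * y := ⟨_, rfl⟩
  rw [← hzz]
  rw [← hzz] at hz hz1
  have hs : z - z ^ 3 / 6 - 5 / 96 * z ^ 4 ≤ Real.sin z := by
    have h3 := Real.sin_gt_sub_cube hz
    have h4 : 0 ≤ z ^ 4 := by positivity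
    linarith
  have hu : 0 ≤ 1 - z ^ 2 / 6 - 5 / 96 * z ^ 3 := by
    have e2 : z ^ 2 ≤ (11 / 20) ^ 2 := pow_le_pow_left₀ hz.le hz1 2
    have e3 : z ^ 3 ≤ (11 / 20) ^ 3 := pow_le_pow_left₀ hz.le hz1 3
    nlinarith
  have hs0 : 0 ≤ z - z ^ 3 / 6 - 5 / 96 * z ^ 4 := by
    have : z - z ^ 3 / 6 - 5 / 96 * z ^ 4 = z * (1 - z ^ 2 / 6 - 5 / 96 * z ^ 3) := by ring
    rw [this]
    exact mul_nonneg hz.le hu
  have hsq : z ^ 2 * (1 - z ^ 2 / 3 - 5 / 48 * z ^ 3) ≤ (z - z ^ 3 / 6 - 5 / 96 * z ^ 4) ^ 2 := by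
    have : (z - z ^ 3 / 6 - 5 / 96 * z ^ 4) ^ 2 - z ^ 2 * (1 - z ^ 2 / 3 - 5 / 48 * z ^ 3) =
      z ^ 2 * (z ^ 2 / 6 + 5 / 96 * z ^ 3) ^ 2 := by ring
    have h4 : 0 ≤ z ^ 2 * (z ^ 2 / 6 + 5 / 96 * z ^ 3) ^ 2 := by positivity
    linarith
  have ht2 : t ^ 2 ≤ y * (2 * (17320509 / 10000000) - 2 * y + 5 / 6 * y ^ 3) := by
    rw [ht, cos_form9]
    have h3 := cos_up9 hy.le (by linarith)
    have h4 := Real.sin_le (by linarith : (0 : ℝ) ≤ 2 * y)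
    have h5 := sqrt3_lt9
    have h6 : Real.sqrt 3 / 2 * Real.sin (2 * y) ≤ 17320509 / 10000000 * y := by
      have h7 : Real.sqrt 3 / 2 * Real.sin (2 * y) ≤ Real.sqrt 3 / 2 * (2 * y) :=
        mul_le_mul_of_nonneg_left h4 (by positivity)
      nlinarith
    nlinarith
  have hfin : (q * t) ^ 2 ≤ (z - z ^ 3 / 6 - 5 / 96 * z ^ 4) ^ 2 := by
    calc (q * t) ^ 2 = q ^ 2 * t ^ 2 := by ring
      _ ≤ q ^ 2 * (y * (2 * (17320509 / 10000000) - 2 * y + 5 / 6 * y ^ 3)) :=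
          mul_le_mul_of_nonneg_left ht2 (sq_nonneg q)
      _ = y * (q ^ 2 * (2 * (17320509 / 10000000) - 2 * y + 5 / 6 * y ^ 3)) := by ring
      _ ≤ y * (k ^ 2 * y * (1 - k ^ 2 / 3 * y ^ 2 - 5 / 48 * k ^ 3 * y ^ 3)) :=
          mul_le_mul_of_nonneg_left hP hy.le
      _ = z ^ 2 * (1 - z ^ 2 / 3 - 5 / 48 * z ^ 3) := by rw [hzz]; ring
      _ ≤ _ := hsq
  exact le_trans (abs_le_of_sq_le_sq' hfin hs0).2 hs

private lemma row9 {d : ℝ} (hd : 0 < d) (h1 : 611 / 500 ≤ Real.cosh d)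
    (h2 : Real.cosh d ≤ 27 / 20) {q k c : ℝ} (hq : 0 ≤ q) (hq1 : q ≤ 1) (hk : 0 < k)
    (hk1 : k ≤ 11) (hc : k = 3 * c)
    (hP : ∀ y : ℝ, 2933 / 100000 ≤ y → y ≤ 1 / 20 →
      y ^ 2 ≤ (2933 / 100000 + 1 / 20) * y - 2933 / 100000 * (1 / 20) →
      y ^ 3 ≤ (2933 / 100000 + 1 / 20) * y ^ 2 - 2933 / 100000 * (1 / 20) * y →
      y ^ 4 ≤ (2933 / 100000 + 1 / 20) * y ^ 3 - 2933 / 100000 * (1 / 20) * y ^ 2 →
      q ^ 2 * (2 * (17320509 / 10000000) - 2 * y + 5 / 6 * y ^ 3) ≤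
      k ^ 2 * y * (1 - k ^ 2 / 3 * y ^ 2 - 5 / 48 * k ^ 3 * y ^ 3)) :
    2 * Real.arcsin (q * Real.tanh (d / 2)) ≤ c * A3 (alpha d) := by
  obtain ⟨b1, b2⟩ := y_bounds9 hd h1 h2
  obtain ⟨y, hy⟩ : ∃ y, y = A3 (alpha d) / 6 := ⟨_, rfl⟩
  rw [← hy] at b1 b2
  have hal : alpha d = Real.pi / 3 - 2 * y := by
    rw [hy]
    unfold A3
    ring
  have ht0 : 0 ≤ Real.tanh (d / 2) := by
    rw [Real.tanh_eq_sinh_div_cosh]
    have := Real.sinh_pos_iff.mpr (by linarith : (0 : ℝ) < d / 2)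
    have := Real.cosh_pos (d / 2)
    positivity
  have ht := tanh_sq39 hd
  rw [hal] at ht
  have e1 : y ^ 2 ≤ (2933 / 100000 + 1 / 20) * y - 2933 / 100000 * (1 / 20) := by
    nlinarith [mul_nonneg (sub_nonneg.mpr b1) (sub_nonneg.mpr b2)]
  have hy0 : 0 ≤ y := by linarith
  have e2 : y ^ 3 ≤ (2933 / 100000 + 1 / 20) * y ^ 2 - 2933 / 100000 * (1 / 20) * y := by
    have := mul_le_mul_of_nonneg_left e1 hy0
    nlinarith
  have e3 : y ^ 4 ≤ (2933 / 100000 + 1 / 20) * y ^ 3 - 2933 / 100000 * (1 / 20) * y ^ 2 := by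
    have := mul_le_mul_of_nonneg_left e2 hy0
    nlinarith
  have key := key9 b1 b2 ht0 (Real.tanh_lt_one _).le ht hq hq1 hk hk1 (hP y b1 b2 e1 e2 e3)
  have e4 : c * A3 (alpha d) = 2 * (k * y) := by
    rw [hc, hy]
    ring
  rw [e4]
  linarith

/-- M2b -/
theorem num_x {d : ℝ} (hd : 0 < d) (h1 : 611 / 500 ≤ Real.cosh d) (h2 : Real.cosh d ≤ 27 / 20) :
    2 * Real.arcsin (9 / 11 * Real.tanh (d / 2)) ≤ 3 * A3 (alpha d) ∧
    2 * Real.arcsin (5 / 6 * Real.tanh (d / 2)) ≤ 107 / 35 * A3 (alpha d) ∧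
    2 * Real.arcsin (13 / 15 * Real.tanh (d / 2)) ≤ 35 / 11 * A3 (alpha d) ∧
    2 * Real.arcsin (23 / 26 * Real.tanh (d / 2)) ≤ 13 / 4 * A3 (alpha d) ∧
    2 * Real.arcsin (9 / 10 * Real.tanh (d / 2)) ≤ 10 / 3 * A3 (alpha d) ∧
    2 * Real.arcsin (Real.tanh (d / 2)) ≤ 11 / 3 * A3 (alpha d) := by
  refine ⟨?_, ?_, ?_, ?_, ?_, ?_⟩
  · exact row9 hd h1 h2 (k := 9) (by norm_num) (by norm_num) (by norm_num) (by norm_num)
      (by norm_num) (fun y b1 b2 e1 e2 e3 => by linarith)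
  · exact row9 hd h1 h2 (k := 321 / 35) (by norm_num) (by norm_num) (by norm_num) (by norm_num)
      (by norm_num) (fun y b1 b2 e1 e2 e3 => by linarith)
  · exact row9 hd h1 h2 (k := 105 / 11) (by norm_num) (by norm_num) (by norm_num) (by norm_num)
      (by norm_num) (fun y b1 b2 e1 e2 e3 => by linarith)
  · exact row9 hd h1 h2 (k := 39 / 4) (by norm_num) (by norm_num) (by norm_num) (by norm_num)
      (by norm_num) (fun y b1 b2 e1 e2 e3 => by linarith)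
  · exact row9 hd h1 h2 (k := 10) (by norm_num) (by norm_num) (by norm_num) (by norm_num)
      (by norm_num) (fun y b1 b2 e1 e2 e3 => by linarith)
  · have h := row9 hd h1 h2 (q := 1) (k := 11) (c := 11 / 3) (by norm_num) (by norm_num)
      (by norm_num) (by norm_num) (by norm_num) (fun y b1 b2 e1 e2 e3 => by linarith)
    rwa [one_mul] at h

end

end Pool.Agent.PEN
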