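import Pool.Agent.P4.N52

/-! # Row M2a: `u 1 + u 2 + u 3 < 6 A3` for `611 / 500 ≤ cosh d ≤ 27 / 20`

With `h = cos α = C / (C + 1)` and `u = 2 h - 1` we have `u 1 = 2 arcsin u`,
`u 2 = 2 arcsin (2 u / (1 + u))`, `u 3 = 2 arcsin (u (3 + u) / (1 + 3 u))` and
`A3 ≥ u √(3 + u)` (from `1 - cos A3 = (1 + h) (2 h - 1) ^ 2`). With the constants `23 / 20`,
`209 / 100`, `11 / 4` each `u i ≤ c i A3` is a polynomial inequality in `u`. -/

set_option autoImplicit false

namespace Pool.Agent.PEN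

open Classical UpperHalfPlane

noncomputable section

/-! ### The three polynomials -/

private lemma Q1_38 {u : ℝ} (h1 : 999 / 10000 ≤ u) (h2 : u ≤ 149 / 1000) :
    0 ≤ 23 / 40 * (1 - (23 / 40) ^ 2 * (u ^ 2 * (3 + u)) / 6) * (1732 / 1000 + 285 / 1000 * u) - 1 := by
  have x1 : 0 ≤ u - 999 / 10000 := by linarith
  have x2 : 0 ≤ 149 / 1000 - u := by linarith
  have key : 23 / 40 * (1 - (23 / 40) ^ 2 * (u ^ 2 * (3 + u)) / 6) * (1732 / 1000 + 285 / 1000 * u) - 1 =
      2699631048394599146827 / 1487873243161600000 * (u - 999 / 10000) ^ 0 * (149 / 1000 - u) ^ 4 +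
      310340060610043770427 / 37196831079040000 * (u - 999 / 10000) ^ 1 * (149 / 1000 - u) ^ 3 +
      104629593597436619581 / 7439366215808000 * (u - 999 / 10000) ^ 2 * (149 / 1000 - u) ^ 2 +
      11555220838314115381 / 1115904932371200 * (u - 999 / 10000) ^ 3 * (149 / 1000 - u) ^ 1 +
      1258500101545798681 / 446361972948480 * (u - 999 / 10000) ^ 4 * (149 / 1000 - u) ^ 0 := by
    ring
  rw [key]
  positivity

private lemma Q2_38 {u : ℝ} (h1 : 999 / 10000 ≤ u) (h2 : u ≤ 149 / 1000) :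
    0 ≤ (1 + u) * (209 / 200 * (1 - (209 / 200) ^ 2 * (u ^ 2 * (3 + u)) / 6)) * (1732 / 1000 + 285 / 1000 * u) - 2 := by
  have x1 : 0 ≤ u - 999 / 10000 := by linarith
  have x2 : 0 ≤ 149 / 1000 - u := by linarith
  have key : (1 + u) * (209 / 200 * (1 - (209 / 200) ^ 2 * (u ^ 2 * (3 + u)) / 6)) * (1732 / 1000 + 285 / 1000 * u) - 2 =
      3867035264269733028856610251 / 91318220299043200000000 * (u - 999 / 10000) ^ 0 * (149 / 1000 - u) ^ 5 +
      991079120644100327028220161 / 1826364405980864000000 * (u - 999 / 10000) ^ 1 * (149 / 1000 - u) ^ 4 +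
      158644935758506231190109571 / 91318220299043200000 * (u - 999 / 10000) ^ 2 * (149 / 1000 - u) ^ 3 +
      65165063903964981131360443 / 27395466089712960000 * (u - 999 / 10000) ^ 3 * (149 / 1000 - u) ^ 2 +
      8242712017135894898530673 / 5479093217942592000 * (u - 999 / 10000) ^ 4 * (149 / 1000 - u) ^ 1 +
      331196639796794280454801 / 913182202990432000 * (u - 999 / 10000) ^ 5 * (149 / 1000 - u) ^ 0 := by
    ring
  rw [key]
  positivity

private lemma Q3_38 {u : ℝ} (h1 : 999 / 10000 ≤ u) (h2 : u ≤ 149 / 1000) :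
    0 ≤ (1 + 3 * u) * (11 / 8 * (1 - (11 / 8) ^ 2 * (u ^ 2 * (3 + u)) / 6)) * (1732 / 1000 + 285 / 1000 * u) - (3 + u) := by
  have x1 : 0 ≤ u - 999 / 10000 := by linarith
  have x2 : 0 ≤ 149 / 1000 - u := by linarith
  have key : (1 + 3 * u) * (11 / 8 * (1 - (11 / 8) ^ 2 * (u ^ 2 * (3 + u)) / 6)) * (1732 / 1000 + 285 / 1000 * u) - (3 + u) =
      318403508723774587256867 / 5844366099138764800 * (u - 999 / 10000) ^ 0 * (149 / 1000 - u) ^ 5 +
      153948655766557271450937 / 116887321982775296 * (u - 999 / 10000) ^ 1 * (149 / 1000 - u) ^ 4 +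
      137127882776897513282535 / 29221830495693824 * (u - 999 / 10000) ^ 2 * (149 / 1000 - u) ^ 3 +
      294402085233558988643275 / 43832745743540736 * (u - 999 / 10000) ^ 3 * (149 / 1000 - u) ^ 2 +
      190708272753185282055125 / 43832745743540736 * (u - 999 / 10000) ^ 4 * (149 / 1000 - u) ^ 1 +
      23327637925174753331375 / 21916372871770368 * (u - 999 / 10000) ^ 5 * (149 / 1000 - u) ^ 0 := by
    ring
  rw [key]
  positivity

/-! ### The half areas -/

private lemma half38 {d : ℝ} (hd : 0 < d) :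
    Real.cosh (d / 2) ^ 2 * (2 * (1 - Real.cos (alpha d))) = 1 ∧
      Real.sinh (d / 2) ^ 2 = Real.cosh (d / 2) ^ 2 - 1 := by
  have hK : 0 < Real.cosh (d / 2) := Real.cosh_pos _
  have hc : Real.cosh d = Real.cosh (d / 2) ^ 2 + Real.sinh (d / 2) ^ 2 := by
    rw [← Real.cosh_two_mul]; ring_nf
  have hs := Real.cosh_sq (d / 2)
  have hs' : Real.sinh (d / 2) ^ 2 = Real.cosh (d / 2) ^ 2 - 1 := by linarith
  refine ⟨?_, hs'⟩
  rw [cos_alpha hd, hc, hs']
  have h2 : Real.cosh (d / 2) ^ 2 + (Real.cosh (d / 2) ^ 2 - 1) + 1 ≠ 0 := by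
    have : 0 < Real.cosh (d / 2) ^ 2 := by positivity
    intro h
    linarith
  field_simp
  ring

private lemma s1_38 {d : ℝ} (hd : 0 < d) :
    Real.tanh (d / 2) * Real.tanh (d / 2) = 2 * Real.cos (alpha d) - 1 := by
  obtain ⟨h1, h2⟩ := half38 hd
  have hK : 0 < Real.cosh (d / 2) := Real.cosh_pos _
  rw [Real.tanh_eq_sinh_div_cosh, div_mul_div_comm, ← sq, ← sq, h2, div_eq_iff (by positivity)]
  linarith

private lemma s2_38 {d : ℝ} (hd : 0 < d) :
    Real.tanh (d / 2) * Real.tanh (2 * d / 2) * Real.cos (alpha d) =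
      2 * Real.cos (alpha d) - 1 := by
  obtain ⟨h1, h2⟩ := half38 hd
  have hK : 0 < Real.cosh (d / 2) := Real.cosh_pos _
  have e : 2 * d / 2 = 2 * (d / 2) := by ring
  have hc2 : Real.cosh (2 * (d / 2)) = Real.cosh (d / 2) ^ 2 + Real.sinh (d / 2) ^ 2 :=
    Real.cosh_two_mul _
  have hs2 : Real.sinh (2 * (d / 2)) = 2 * Real.sinh (d / 2) * Real.cosh (d / 2) :=
    Real.sinh_two_mul _
  have hpos : 0 < Real.cosh (2 * (d / 2)) := Real.cosh_pos _
  have key : Real.tanh (d / 2) * Real.tanh (2 * d / 2) * Real.cosh (2 * (d / 2)) =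
      2 * Real.sinh (d / 2) ^ 2 := by
    rw [e, Real.tanh_eq_sinh_div_cosh, Real.tanh_eq_sinh_div_cosh, hs2]
    field_simp
  rw [hc2, h2] at key
  set T := Real.tanh (d / 2) * Real.tanh (2 * d / 2)
  set K := Real.cosh (d / 2) ^ 2
  set h := Real.cos (alpha d)
  have hKp : 0 < K := by positivity
  have h3 : T * (2 * K - 1) = 2 * (K - 1) := by linarith
  have h4 : 2 * K * h = 2 * K - 1 := by linarith
  have h5 : 2 * K * (T * h) = 2 * K * (2 * h - 1) := by
    have : 2 * K * (T * h) = T * (2 * K * h) := by ring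
    rw [this, h4, h3]
    linarith
  exact mul_left_cancel₀ (by positivity) h5

private lemma s3_38 {d : ℝ} (hd : 0 < d) :
    Real.tanh (d / 2) * Real.tanh (3 * d / 2) * (3 * Real.cos (alpha d) - 1) =
      (2 * Real.cos (alpha d) - 1) * (1 + Real.cos (alpha d)) := by
  obtain ⟨h1, h2⟩ := half38 hd
  have hK : 0 < Real.cosh (d / 2) := Real.cosh_pos _
  have e : 3 * d / 2 = 3 * (d / 2) := by ring
  have hc3 : Real.cosh (3 * (d / 2)) = 4 * Real.cosh (d / 2) ^ 3 - 3 * Real.cosh (d / 2) :=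
    Real.cosh_three_mul _
  have hs3 : Real.sinh (3 * (d / 2)) = 4 * Real.sinh (d / 2) ^ 3 + 3 * Real.sinh (d / 2) :=
    Real.sinh_three_mul _
  have hpos : 0 < Real.cosh (3 * (d / 2)) := Real.cosh_pos _
  have key : Real.tanh (d / 2) * Real.tanh (3 * d / 2) *
      (Real.cosh (d / 2) * Real.cosh (3 * (d / 2))) =
      Real.sinh (d / 2) * Real.sinh (3 * (d / 2)) := by
    rw [e, Real.tanh_eq_sinh_div_cosh, Real.tanh_eq_sinh_div_cosh]
    field_simp
  have e1 : Real.cosh (d / 2) * Real.cosh (3 * (d / 2)) =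
      Real.cosh (d / 2) ^ 2 * (4 * Real.cosh (d / 2) ^ 2 - 3) := by
    rw [hc3]; ring
  have e2 : Real.sinh (d / 2) * Real.sinh (3 * (d / 2)) =
      Real.sinh (d / 2) ^ 2 * (4 * Real.sinh (d / 2) ^ 2 + 3) := by
    rw [hs3]; ring
  rw [e1, e2, h2] at key
  set T := Real.tanh (d / 2) * Real.tanh (3 * d / 2)
  set K := Real.cosh (d / 2) ^ 2
  set h := Real.cos (alpha d)
  have hKp : 0 < K := by positivity
  have h4 : 2 * K * h = 2 * K - 1 := by linarith
  have h5 : 4 * K ^ 2 * (T * (3 * h - 1)) = 4 * K ^ 2 * ((2 * h - 1) * (1 + h)) := by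
    have a1 : 4 * K ^ 2 * (T * (3 * h - 1)) = 2 * K * T * (3 * (2 * K * h) - 2 * K) := by ring
    have a2 : 4 * K ^ 2 * ((2 * h - 1) * (1 + h)) =
        (2 * (2 * K * h) - 2 * K) * (2 * K + 2 * K * h) := by ring
    rw [a1, a2, h4]
    linear_combination 2 * key
  exact mul_left_cancel₀ (by positivity) h5

/-! ### The lower bound of `A3` -/

/-- `u √(3 + u) ≤ A3` with `u = 2 cos α - 1` -/
theorem A3_ge38 {d : ℝ} (hd : 0 < d) :
    (2 * Real.cos (alpha d) - 1) * √(2 + 2 * Real.cos (alpha d)) ≤ A3 (alpha d) := by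
  have hA : 0 < A3 (alpha d) := by
    have := alpha_lt hd
    unfold A3
    linarith
  have hc : Real.cos (A3 (alpha d)) = 3 * Real.cos (alpha d) - 4 * Real.cos (alpha d) ^ 3 := by
    unfold A3
    rw [Real.cos_pi_sub, Real.cos_three_mul]
    ring
  have h1 := Real.one_sub_sq_div_two_le_cos (x := A3 (alpha d))
  rw [hc] at h1
  set h := Real.cos (alpha d)
  have hh : -1 ≤ h := Real.neg_one_le_cos _
  refine (abs_le_of_sq_le_sq' ?_ hA.le).2
  rw [mul_pow, Real.sq_sqrt (by linarith)]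
  nlinarith

/-- `2 arcsin s ≤ c A` from `s ≤ y - y ^ 3 / 6`, `y = c A0 / 2`, `A0 ≤ A` -/
private lemma arc38 {s y x : ℝ} (hy : 0 < y) (hy1 : y ≤ 1) (hs : s ≤ y - y ^ 3 / 6)
    (hyx : y ≤ x) : Real.arcsin s ≤ x := by
  have h1 := Real.sin_gt_sub_cube hy
  have hpi := Real.pi_gt_three
  calc Real.arcsin s ≤ Real.arcsin (Real.sin y) := Real.monotone_arcsin (by linarith)
    _ = y := Real.arcsin_sin (by linarith) (by linarith)
    _ ≤ x := hyx

/-- the three areas -/
theorem u_bounds38 {d : ℝ} (hd : 0 < d) (h1 : 611 / 500 ≤ Real.cosh d)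
    (h2 : Real.cosh d ≤ 27 / 20) :
    uu d 1 ≤ 23 / 20 * A3 (alpha d) ∧ uu d 2 ≤ 209 / 100 * A3 (alpha d) ∧
      uu d 3 ≤ 11 / 4 * A3 (alpha d) := by
  have hh1 : 999 / 10000 ≤ 2 * Real.cos (alpha d) - 1 := by
    have : 10999 / 20000 ≤ Real.cos (alpha d) := by
      rw [cos_alpha hd, div_le_div_iff₀ (by norm_num) (by linarith)]
      linarith
    linarith
  have hh2 : 2 * Real.cos (alpha d) - 1 ≤ 149 / 1000 := by
    have : Real.cos (alpha d) ≤ 1149 / 2000 := by
      rw [cos_alpha hd, div_le_div_iff₀ (by linarith) (by norm_num)]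
      linarith
    linarith
  have hA := A3_ge38 hd
  have e1 := s1_38 hd
  have e2 := s2_38 hd
  have e3 := s3_38 hd
  have hcos : Real.cos (alpha d) = (1 + (2 * Real.cos (alpha d) - 1)) / 2 := by ring
  have hs : 2 + 2 * Real.cos (alpha d) = 3 + (2 * Real.cos (alpha d) - 1) := by ring
  have e3a : 3 * Real.cos (alpha d) - 1 = (1 + 3 * (2 * Real.cos (alpha d) - 1)) / 2 := by ring
  have e3b : 1 + Real.cos (alpha d) = (3 + (2 * Real.cos (alpha d) - 1)) / 2 := by ring
  rw [hs] at hA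
  rw [e3a, e3b] at e3
  have e2' : Real.tanh (d / 2) * Real.tanh (2 * d / 2) * (1 + (2 * Real.cos (alpha d) - 1)) =
      2 * (2 * Real.cos (alpha d) - 1) := by linarith
  clear hs e3a e3b hcos e2 h1 h2
  generalize A3 (alpha d) = A at hA ⊢
  generalize 2 * Real.cos (alpha d) - 1 = u at *
  set r := √(3 + u) with hr
  have hr2 : r ^ 2 = 3 + u := Real.sq_sqrt (by linarith)
  have hr0 : 0 ≤ r := Real.sqrt_nonneg _
  have hr1 : 1732 / 1000 + 285 / 1000 * u ≤ r := by
    refine (abs_le_of_sq_le_sq' ?_ hr0).2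
    rw [hr2]
    nlinarith
  have hr3 : r ≤ 9 / 5 := by
    refine (abs_le_of_sq_le_sq' ?_ (by norm_num)).2
    rw [hr2]
    linarith
  have hu : 0 < u := by linarith
  have hrp : 0 < r := by linarith
  have hm : u ^ 2 * (3 + u) ≤ 1 / 10 := by nlinarith
  have hm0 : 0 ≤ u ^ 2 * (3 + u) := by positivity
  have hur : u * r ≤ 3 / 10 := by nlinarith
  have hur0 : 0 < u * r := by positivity
  -- `y - y ^ 3 / 6` for `y = k u r`
  have hy : ∀ k : ℝ, k * (u * r) - (k * (u * r)) ^ 3 / 6 =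
      u * (k * (1 - k ^ 2 * (u ^ 2 * (3 + u)) / 6) * r) := by
    intro k
    rw [← hr2]
    ring
  have q : ∀ k : ℝ, 0 < k → k ≤ 2 → 0 ≤ k * (1 - k ^ 2 * (u ^ 2 * (3 + u)) / 6) := by
    intro k k0 k2
    apply mul_nonneg k0.le
    nlinarith [mul_nonneg (sq_nonneg k) hm0, mul_le_mul_of_nonneg_left hm (sq_nonneg k)]
  have b1 := Q1_38 hh1 hh2
  have b2 := Q2_38 hh1 hh2
  have b3 := Q3_38 hh1 hh2
  have c1 : 1 ≤ 23 / 40 * (1 - (23 / 40) ^ 2 * (u ^ 2 * (3 + u)) / 6) * r := by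
    have := mul_le_mul_of_nonneg_left hr1 (q (23 / 40) (by norm_num) (by norm_num))
    linarith
  have c2 : 2 ≤ (1 + u) * (209 / 200 * (1 - (209 / 200) ^ 2 * (u ^ 2 * (3 + u)) / 6)) * r := by
    have := mul_le_mul_of_nonneg_left hr1
      (mul_nonneg (by linarith : 0 ≤ 1 + u) (q (209 / 200) (by norm_num) (by norm_num)))
    linarith
  have c3 : 3 + u ≤ (1 + 3 * u) * (11 / 8 * (1 - (11 / 8) ^ 2 * (u ^ 2 * (3 + u)) / 6)) * r := by
    have := mul_le_mul_of_nonneg_left hr1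
      (mul_nonneg (by linarith : 0 ≤ 1 + 3 * u) (q (11 / 8) (by norm_num) (by norm_num)))
    linarith
  refine ⟨?_, ?_, ?_⟩
  · have h : Real.arcsin (Real.tanh (d / 2) * Real.tanh (d / 2)) ≤ 23 / 40 * A := by
      refine arc38 (y := 23 / 40 * (u * r)) (by positivity) (by linarith) ?_ (by linarith)
      rw [hy, e1]
      have := mul_le_mul_of_nonneg_left c1 hu.le
      linarith
    unfold uu
    rw [Nat.cast_one, one_mul]
    linarith
  · have h : Real.arcsin (Real.tanh (d / 2) * Real.tanh (2 * d / 2)) ≤ 209 / 200 * A := by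
      refine arc38 (y := 209 / 200 * (u * r)) (by positivity) (by linarith) ?_ (by linarith)
      rw [hy]
      have h1 := mul_le_mul_of_nonneg_left c2 hu.le
      have h2 : Real.tanh (d / 2) * Real.tanh (2 * d / 2) * (1 + u) ≤
          u * (209 / 200 * (1 - (209 / 200) ^ 2 * (u ^ 2 * (3 + u)) / 6) * r) * (1 + u) := by
        rw [e2']
        linarith
      exact le_of_mul_le_mul_right h2 (by linarith)
    unfold uu
    rw [Nat.cast_ofNat]
    linarith
  · have h : Real.arcsin (Real.tanh (d / 2) * Real.tanh (3 * d / 2)) ≤ 11 / 8 * A := by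
      refine arc38 (y := 11 / 8 * (u * r)) (by positivity) (by linarith) ?_ (by linarith)
      rw [hy]
      have h1 := mul_le_mul_of_nonneg_left c3 hu.le
      have h2 : Real.tanh (d / 2) * Real.tanh (3 * d / 2) * (1 + 3 * u) ≤
          u * (11 / 8 * (1 - (11 / 8) ^ 2 * (u ^ 2 * (3 + u)) / 6) * r) * (1 + 3 * u) := by
        linarith
      exact le_of_mul_le_mul_right h2 (by linarith)
    unfold uu
    rw [Nat.cast_ofNat]
    linarith

/-- M2a -/
theorem num_s {d : ℝ} (hd : 0 < d) (h1 : 611 / 500 ≤ Real.cosh d) (h2 : Real.cosh d ≤ 27 / 20) :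
    uu d 1 + uu d 2 + uu d 3 < 6 * A3 (alpha d) := by
  obtain ⟨a1, a2, a3⟩ := u_bounds38 hd h1 h2
  have hA : 0 < A3 (alpha d) := by
    have := alpha_lt hd
    unfold A3
    linarith
  linarith

end

end Pool.Agent.PEN
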