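import Pool.Agent.P4.P51
import Pool.Agent.P4.Q11

/-! # Row Q: the area enclosed by a closed walk with steps `d` -/

set_option autoImplicit false

namespace Pool.Agent.PEN

open Classical UpperHalfPlane

noncomputable section

/-- Q1 -/
theorem walk_le {d : ℝ} (hd : 0 < d) (v : ℕ → ℍ) (b : ℕ) (h0 : v b = v 0)
    (h : ∀ i < b, dist (v i) (v (i + 1)) = d) :
    ∑ i ∈ Finset.range b, kap (v i) (v (i + 1)) ≤ Uw (uu d) b :=
  walk_le_of11 hd v b h0 h kap_anti S_le

end

end Pool.Agent.PEN
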