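import Pool.Agent.P4.Defs3
import Pool.Agent.P4.M11
import Pool.Agent.P4.M52
import Pool.Agent.P4.M9
import Pool.Agent.P4.Ms38
import Pool.Agent.P4.QW11

/-! # PENNY 2, version 3, row M3: the walk bound with the requirement function -/

set_option autoImplicit false

namespace Pool.Agent.PEN

open Classical UpperHalfPlane

noncomputable section

theorem Phi_ge27 (b : ℕ) : (2 * b - 4 : ℝ) ≤ Phi b ∧ (3 * b - 12 : ℝ) ≤ Phi b ∧
    ((17 * b - 88) / 5 : ℝ) ≤ Phi b ∧ ((25 * b - 152) / 7 : ℝ) ≤ Phi b ∧
    ((11 * b - 77) / 3 : ℝ) ≤ Phi b := by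
  unfold Phi
  refine ⟨?_, ?_, ?_, ?_, ?_⟩
  · exact le_max_left _ _
  · exact le_trans (le_max_left _ _) (le_max_right _ _)
  · exact le_trans (le_trans (le_max_left _ _) (le_max_right _ _)) (le_max_right _ _)
  · exact le_trans (le_trans (le_trans (le_max_left _ _) (le_max_right _ _)) (le_max_right _ _))
      (le_max_right _ _)
  · exact le_trans (le_trans (le_trans (le_max_right _ _) (le_max_right _ _)) (le_max_right _ _))
      (le_max_right _ _)

theorem Phi_le27 {b : ℕ} {y : ℝ} (h1 : (2 * b - 4 : ℝ) ≤ y) (h2 : (3 * b - 12 : ℝ) ≤ y)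
    (h3 : ((17 * b - 88) / 5 : ℝ) ≤ y) (h4 : ((25 * b - 152) / 7 : ℝ) ≤ y)
    (h5 : ((11 * b - 77) / 3 : ℝ) ≤ y) : Phi b ≤ y := by
  unfold Phi
  exact max_le h1 (max_le h2 (max_le h3 (max_le h4 h5)))

theorem Phi_mono27 {a b : ℕ} (h : a ≤ b) : Phi a ≤ Phi b := by
  have hab : (a : ℝ) ≤ b := by exact_mod_cast h
  obtain ⟨h1, h2, h3, h4, h5⟩ := Phi_ge27 b
  exact Phi_le27 (by linarith) (by linarith) (by linarith) (by linarith) (by linarith)

theorem Phi_sup27 {a b : ℕ} (ha : 3 ≤ a) (hb : 3 ≤ b) : Phi a + Phi b ≤ Phi (a + b) := by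
  have ha' : (3 : ℝ) ≤ a := by exact_mod_cast ha
  have hb' : (3 : ℝ) ≤ b := by exact_mod_cast hb
  obtain ⟨h1, h2, h3, h4, h5⟩ := Phi_ge27 (a + b)
  push_cast at h1 h2 h3 h4 h5
  have key : ∀ y : ℝ, (∀ z : ℝ, (z = 2 * (a : ℝ) - 4 ∨ z = 3 * (a : ℝ) - 12 ∨
      z = (17 * (a : ℝ) - 88) / 5 ∨ z = (25 * (a : ℝ) - 152) / 7 ∨
      z = (11 * (a : ℝ) - 77) / 3) → z + y ≤ Phi (a + b)) → Phi a + y ≤ Phi (a + b) := by
    intro y hy
    have := @Phi_le27 a (Phi (a + b) - y) (by have := hy _ (Or.inl rfl); linarith)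
      (by have := hy _ (Or.inr (Or.inl rfl)); linarith)
      (by have := hy _ (Or.inr (Or.inr (Or.inl rfl))); linarith)
      (by have := hy _ (Or.inr (Or.inr (Or.inr (Or.inl rfl)))); linarith)
      (by have := hy _ (Or.inr (Or.inr (Or.inr (Or.inr rfl)))); linarith)
    linarith
  apply key
  intro z hz
  have hb2 := @Phi_le27 b (Phi (a + b) - z)
  have : Phi b ≤ Phi (a + b) - z := by
    apply hb2
    all_goals
      rcases hz with hz | hz | hz | hz | hz <;> rw [hz] <;> linarith
  linarith

theorem lin27 {p r x x0 x1 y : ℝ} (h0 : x0 ≤ x) (h1 : x ≤ x1) (e0 : p * x0 + r ≤ y)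
    (e1 : p * x1 + r ≤ y) : p * x + r ≤ y := by
  rcases le_total 0 p with h | h
  · nlinarith
  · nlinarith

theorem walk3_low27 {d : ℝ} (hd : 0 < d) (h1 : 611 / 500 ≤ Real.cosh d)
    (h2 : Real.cosh d ≤ 27 / 20) : ∃ U : ℕ → ℝ, NumU3 (alpha d) U ∧
      ∀ (v : ℕ → ℍ) (b : ℕ), v b = v 0 → (∀ i < b, dist (v i) (v (i + 1)) = d) →
        ∑ i ∈ Finset.range b, kap (v i) (v (i + 1)) ≤ U b := by
  have hA : 0 < A3 (alpha d) := by unfold A3; linarith [alpha_lt hd]
  have hs := num_s hd h1 h2
  obtain ⟨x1, x2, x3, x4, x5, x6⟩ := num_x hd h1 h2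
  obtain ⟨g, hg⟩ : ∃ g, g = 2 * Real.arcsin (Real.tanh (d / 2)) := ⟨_, rfl⟩
  obtain ⟨g1, g2, g3, g4, g5, g6, g7, g8, g9, g10⟩ := num_g hd h1 h2 hg
  have hu1 : uu d 1 ≤ uu d 2 := uu_mono hd (by norm_num)
  have hu2 : uu d 2 ≤ uu d 3 := uu_mono hd (by norm_num)
  have hu0 : 0 ≤ uu d 1 := uu_nonneg hd 1
  set A := A3 (alpha d) with hAdef
  -- one small gap
  obtain ⟨δ, hδ, k0, k1, k2, k3, k4, k5, k6, k7, k8, k9, k10⟩ : ∃ δ : ℝ, 0 < δ ∧
      uu d 1 + uu d 2 + uu d 3 + 3 * δ ≤ 6 * A ∧
      9 * g - 15 * A + δ ≤ 4 * Real.arcsin (9 / 11) ∧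
      14 * g - 30 * A + δ ≤ 4 * Real.arcsin (9 / 11) ∧
      15 * g - 167 / 5 * A + δ ≤ 4 * Real.arcsin (5 / 6) ∧
      18 * g - 218 / 5 * A + δ ≤ 4 * Real.arcsin (5 / 6) ∧
      19 * g - 47 * A + δ ≤ 4 * Real.arcsin (13 / 15) ∧
      24 * g - 64 * A + δ ≤ 4 * Real.arcsin (13 / 15) ∧
      25 * g - 473 / 7 * A + δ ≤ 4 * Real.arcsin (23 / 26) ∧
      34 * g - 698 / 7 * A + δ ≤ 4 * Real.arcsin (23 / 26) ∧
      35 * g - 723 / 7 * A + δ ≤ 4 * Real.arcsin (9 / 10) ∧
      42 * g - 898 / 7 * A + δ ≤ 4 * Real.arcsin (9 / 10) := by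
    refine ⟨min ((6 * A - (uu d 1 + uu d 2 + uu d 3)) / 3)
      (min (4 * Real.arcsin (9 / 11) - (9 * g - 15 * A))
      (min (4 * Real.arcsin (9 / 11) - (14 * g - 30 * A))
      (min (4 * Real.arcsin (5 / 6) - (15 * g - 167 / 5 * A))
      (min (4 * Real.arcsin (5 / 6) - (18 * g - 218 / 5 * A))
      (min (4 * Real.arcsin (13 / 15) - (19 * g - 47 * A))
      (min (4 * Real.arcsin (13 / 15) - (24 * g - 64 * A))
      (min (4 * Real.arcsin (23 / 26) - (25 * g - 473 / 7 * A))
      (min (4 * Real.arcsin (23 / 26) - (34 * g - 698 / 7 * A))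
      (min (4 * Real.arcsin (9 / 10) - (35 * g - 723 / 7 * A))
      (4 * Real.arcsin (9 / 10) - (42 * g - 898 / 7 * A))))))))))), ?_, ?_⟩
    · refine lt_min ?_ (lt_min ?_ (lt_min ?_ (lt_min ?_ (lt_min ?_ (lt_min ?_ (lt_min ?_
        (lt_min ?_ (lt_min ?_ (lt_min ?_ ?_))))))))) <;> linarith
    · generalize hm1 : (6 * A - (uu d 1 + uu d 2 + uu d 3)) / 3 = m1
      generalize hm2 : 4 * Real.arcsin (9 / 11) - (9 * g - 15 * A) = m2
      generalize hm3 : 4 * Real.arcsin (9 / 11) - (14 * g - 30 * A) = m3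
      generalize hm4 : 4 * Real.arcsin (5 / 6) - (15 * g - 167 / 5 * A) = m4
      generalize hm5 : 4 * Real.arcsin (5 / 6) - (18 * g - 218 / 5 * A) = m5
      generalize hm6 : 4 * Real.arcsin (13 / 15) - (19 * g - 47 * A) = m6
      generalize hm7 : 4 * Real.arcsin (13 / 15) - (24 * g - 64 * A) = m7
      generalize hm8 : 4 * Real.arcsin (23 / 26) - (25 * g - 473 / 7 * A) = m8
      generalize hm9 : 4 * Real.arcsin (23 / 26) - (34 * g - 698 / 7 * A) = m9
      generalize hm10 : 4 * Real.arcsin (9 / 10) - (35 * g - 723 / 7 * A) = m10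
      generalize hm11 : 4 * Real.arcsin (9 / 10) - (42 * g - 898 / 7 * A) = m11
      have q1 := min_le_left m1 (min m2 (min m3 (min m4 (min m5 (min m6 (min m7 (min m8
        (min m9 (min m10 m11)))))))))
      have r1 := min_le_right m1 (min m2 (min m3 (min m4 (min m5 (min m6 (min m7 (min m8
        (min m9 (min m10 m11)))))))))
      have q2 := min_le_left m2 (min m3 (min m4 (min m5 (min m6 (min m7 (min m8
        (min m9 (min m10 m11))))))))
      have r2 := min_le_right m2 (min m3 (min m4 (min m5 (min m6 (min m7 (min m8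
        (min m9 (min m10 m11))))))))
      have q3 := min_le_left m3 (min m4 (min m5 (min m6 (min m7 (min m8
        (min m9 (min m10 m11)))))))
      have r3 := min_le_right m3 (min m4 (min m5 (min m6 (min m7 (min m8
        (min m9 (min m10 m11)))))))
      have q4 := min_le_left m4 (min m5 (min m6 (min m7 (min m8 (min m9 (min m10 m11))))))
      have r4 := min_le_right m4 (min m5 (min m6 (min m7 (min m8 (min m9 (min m10 m11))))))
      have q5 := min_le_left m5 (min m6 (min m7 (min m8 (min m9 (min m10 m11)))))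
      have r5 := min_le_right m5 (min m6 (min m7 (min m8 (min m9 (min m10 m11)))))
      have q6 := min_le_left m6 (min m7 (min m8 (min m9 (min m10 m11))))
      have r6 := min_le_right m6 (min m7 (min m8 (min m9 (min m10 m11))))
      have q7 := min_le_left m7 (min m8 (min m9 (min m10 m11)))
      have r7 := min_le_right m7 (min m8 (min m9 (min m10 m11)))
      have q8 := min_le_left m8 (min m9 (min m10 m11))
      have r8 := min_le_right m8 (min m9 (min m10 m11))
      have q9 := min_le_left m9 (min m10 m11)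
      have r9 := min_le_right m9 (min m10 m11)
      have q10 := min_le_left m10 m11
      have r10 := min_le_right m10 m11
      refine ⟨?_, ?_, ?_, ?_, ?_, ?_, ?_, ?_, ?_, ?_, ?_⟩ <;> linarith
  have hPhi3 : ∀ b : ℕ, 3 ≤ b → 0 ≤ Phi b * A - δ := by
    intro b hb
    have hb' : (3 : ℝ) ≤ b := by exact_mod_cast hb
    have h3 : (2 : ℝ) ≤ Phi b := le_trans (by linarith) (Phi_ge27 b).1
    have h4 := mul_le_mul_of_nonneg_right h3 hA.le
    linarith
  refine ⟨fun b => if b ≤ 2 then 0 else Phi b * A - δ, ⟨?_, ?_, ?_, ?_⟩, ?_⟩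
  · simp
  · intro a b hab
    dsimp only
    by_cases ha2 : a ≤ 2
    · rw [if_pos ha2]
      by_cases hb2 : b ≤ 2
      · rw [if_pos hb2]
      · rw [if_neg hb2]
        exact hPhi3 b (by omega)
    · rw [if_neg ha2, if_neg (by omega)]
      have := mul_le_mul_of_nonneg_right (Phi_mono27 hab) hA.le
      linarith
  · intro a b
    by_cases ha2 : a ≤ 2
    · rw [if_pos ha2, zero_add]
      by_cases hb2 : b ≤ 2
      · rw [if_pos hb2]
        by_cases hab : a + b ≤ 2
        · rw [if_pos hab]
        · rw [if_neg hab]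
          exact hPhi3 _ (by omega)
      · rw [if_neg hb2, if_neg (by omega)]
        have := mul_le_mul_of_nonneg_right (@Phi_mono27 b (a + b) (by omega)) hA.le
        linarith
    · by_cases hb2 : b ≤ 2
      · rw [if_neg ha2, if_pos hb2, add_zero, if_neg (by omega)]
        have := mul_le_mul_of_nonneg_right (@Phi_mono27 a (a + b) (by omega)) hA.le
        linarith
      · rw [if_neg ha2, if_neg hb2, if_neg (by omega)]
        have := mul_le_mul_of_nonneg_right (@Phi_sup27 a b (by omega) (by omega)) hA.le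
        linarith
  · intro b hb
    rw [if_neg (by omega)]
    linarith
  · intro v b h0 h
    dsimp only
    by_cases hb2 : b ≤ 2
    · rw [if_pos hb2]
      have hb3 : b = 0 ∨ b = 1 ∨ b = 2 := by omega
      rcases hb3 with rfl | rfl | rfl
      · simp
      · have h3 := h 0 (by norm_num)
        rw [zero_add, h0, dist_self] at h3
        linarith
      · rw [Finset.sum_range_succ, Finset.sum_range_one, h0, kap_anti (v 1) (v 0)]
        simp
    · rw [if_neg hb2]
      have hPA : ∀ y : ℝ, y ≤ Phi b → y * A ≤ Phi b * A := fun y hy =>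
        mul_le_mul_of_nonneg_right hy hA.le
      obtain ⟨p1, p2, p3, p4, p5⟩ := Phi_ge27 b
      replace p1 := hPA _ p1
      replace p2 := hPA _ p2
      replace p3 := hPA _ p3
      replace p4 := hPA _ p4
      replace p5 := hPA _ p5
      by_cases hb8 : b ≤ 8
      · have hw := walk_le hd v b h0 h
        refine le_trans hw ?_
        have hb3 : b = 3 ∨ b = 4 ∨ b = 5 ∨ b = 6 ∨ b = 7 ∨ b = 8 := by omega
        rcases hb3 with rfl | rfl | rfl | rfl | rfl | rfl <;>
          norm_num [Uw, Finset.sum_range_succ] at p1 ⊢ <;> linarith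
      · have hb9 : (9 : ℝ) ≤ b := by
          have : 9 ≤ b := by omega
          exact_mod_cast this
        have hb7 : 8 ≤ b := by omega
        have case : ∀ (q X c K x0 x1 y0 y1 : ℝ), 0 ≤ q → q < 1 →
            2 * Real.arcsin (q * Real.tanh (d / 2)) ≤ X * A → x0 ≤ b → (b : ℝ) ≤ x1 →
            (c * b + K) * A ≤ Phi b * A → X ≤ c → 12 + (x0 - 8) * X ≤ c * x0 + K →
            c * x0 + K = y0 → c * x1 + K = y1 → 
            x0 * g - y0 * A + δ ≤ 4 * Real.arcsin q → x1 * g - y1 * A + δ ≤ 4 * Real.arcsin q →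
            ∑ i ∈ Finset.range b, kap (v i) (v (i + 1)) ≤ Phi b * A - δ := by
          intro q X c K x0 x1 y0 y1 hq0 hq1 hX hx0 hx1 hP hXc h12 e0 e1 f0 f1
          refine le_trans (walk_two hd hq0 hq1 v b hb7 h0 h) (max_le ?_ ?_)
          · have t1 : ((b : ℝ) - 8) * (2 * Real.arcsin (q * Real.tanh (d / 2))) ≤
                ((b : ℝ) - 8) * (X * A) := mul_le_mul_of_nonneg_left hX (by linarith)
            have t0 := mul_le_mul_of_nonneg_left hXc (sub_nonneg.2 hx0)
            have t2 : 12 + ((b : ℝ) - 8) * X ≤ c * b + K := by linarith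
            have t3 : (12 + ((b : ℝ) - 8) * X) * A ≤ (c * b + K) * A :=
              mul_le_mul_of_nonneg_right t2 hA.le
            linarith
          · rw [← hg]
            have t1 := @lin27 (g - c * A) (-(K * A) + δ) b x0 x1 (4 * Real.arcsin q) hx0 hx1
              (by rw [← e0] at f0; linarith) (by rw [← e1] at f1; linarith)
            linarith
        by_cases hb14 : b ≤ 14
        · have hb14' : (b : ℝ) ≤ 14 := by exact_mod_cast hb14
          refine case (9 / 11) 3 3 (-12) 9 14 15 30 (by norm_num) (by norm_num) x1 hb9 hb14'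
            (by linarith) (by norm_num) (by norm_num) (by norm_num) (by norm_num) k1 k2
        · have hb15 : (15 : ℝ) ≤ b := by
            have : 15 ≤ b := by omega
            exact_mod_cast this
          by_cases hb18 : b ≤ 18
          · have hb18' : (b : ℝ) ≤ 18 := by exact_mod_cast hb18
            refine case (5 / 6) (107 / 35) (17 / 5) (-88 / 5) 15 18 (167 / 5) (218 / 5)
              (by norm_num) (by norm_num) x2 hb15 hb18' (by linarith) (by norm_num)
              (by norm_num) (by norm_num) (by norm_num) k3 k4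
          · have hb19 : (19 : ℝ) ≤ b := by
              have : 19 ≤ b := by omega
              exact_mod_cast this
            by_cases hb24 : b ≤ 24
            · have hb24' : (b : ℝ) ≤ 24 := by exact_mod_cast hb24
              refine case (13 / 15) (35 / 11) (17 / 5) (-88 / 5) 19 24 47 64
                (by norm_num) (by norm_num) x3 hb19 hb24' (by linarith) (by norm_num)
                (by norm_num) (by norm_num) (by norm_num) k5 k6
            · have hb25 : (25 : ℝ) ≤ b := by
                have : 25 ≤ b := by omega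
                exact_mod_cast this
              by_cases hb34 : b ≤ 34
              · have hb34' : (b : ℝ) ≤ 34 := by exact_mod_cast hb34
                refine case (23 / 26) (13 / 4) (25 / 7) (-152 / 7) 25 34 (473 / 7) (698 / 7)
                  (by norm_num) (by norm_num) x4 hb25 hb34' (by linarith) (by norm_num)
                  (by norm_num) (by norm_num) (by norm_num) k7 k8
              · have hb35 : (35 : ℝ) ≤ b := by
                  have : 35 ≤ b := by omega
                  exact_mod_cast this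
                by_cases hb42 : b ≤ 42
                · have hb42' : (b : ℝ) ≤ 42 := by exact_mod_cast hb42
                  refine case (9 / 10) (10 / 3) (25 / 7) (-152 / 7) 35 42 (723 / 7) (898 / 7)
                    (by norm_num) (by norm_num) x5 hb35 hb42' (by linarith) (by norm_num)
                    (by norm_num) (by norm_num) (by norm_num) k9 k10
                · have hb43 : (42 : ℝ) ≤ b := by
                    have : 42 ≤ b := by omega
                    exact_mod_cast this
                  refine le_trans (walk_two hd (by norm_num : (0 : ℝ) ≤ 9 / 10) (by norm_num) v b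
                    hb7 h0 h) (max_le ?_ ?_)
                  · have t1 : ((b : ℝ) - 8) * (2 * Real.arcsin (9 / 10 * Real.tanh (d / 2))) ≤
                        ((b : ℝ) - 8) * (10 / 3 * A) := mul_le_mul_of_nonneg_left x5 (by linarith)
                    have t2 := mul_nonneg (sub_nonneg.2 hb43) hA.le
                    linarith
                  · rw [← hg]
                    rw [← hg] at x6
                    have t2 := mul_le_mul_of_nonneg_left x6 (sub_nonneg.2 hb43)
                    linarith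

/-- M3 -/
theorem walk3 {d : ℝ} (hd : 0 < d) (h1 : 611 / 500 ≤ Real.cosh d)
    (ha : 2 * Real.pi < 7 * alpha d) : ∃ U : ℕ → ℝ, NumU3 (alpha d) U ∧
      ∀ (v : ℕ → ℍ) (b : ℕ), v b = v 0 → (∀ i < b, dist (v i) (v (i + 1)) = d) →
        ∑ i ∈ Finset.range b, kap (v i) (v (i + 1)) ≤ U b := by
  rcases le_total (Real.cosh d) (27 / 20) with h2 | h2
  · exact walk3_low27 hd h1 h2
  · have hU := numU hd h2 ha
    have hA : 0 < A3 (alpha d) := by unfold A3; linarith [alpha_lt hd]
    refine ⟨Uw (uu d), ⟨hU.zero, hU.mono, hU.sup, ?_⟩, fun v b h0 h => walk_le hd v b h0 h⟩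
    intro b hb
    obtain ⟨p1, p2, -, -, -⟩ := Phi_ge27 b
    by_cases hb7 : b ≤ 7
    · exact lt_of_lt_of_le (hU.small b hb hb7) (mul_le_mul_of_nonneg_right p1 hA.le)
    · exact lt_of_lt_of_le (hU.big b (by omega)) (mul_le_mul_of_nonneg_right p2 hA.le)

end

end Pool.Agent.PEN
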