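import Pool.Agent.P4.B51c

/-! # PENNY: the master identity for weights of the corners, real valued `F` -/

set_option autoImplicit false

namespace Pool.Agent.PEN

open Classical UpperHalfPlane

noncomputable section

section D
variable {V : Type} (G : Tg V) {al : ℝ} {kp : V → V → ℝ} {U : ℕ → ℝ}

/-- slack of a point for the corner weight `w` and the target `K` -/
def slk (al : ℝ) (w : V × V → ℝ) (K : ℝ) (v : V) : ℝ :=
  if v ∈ inN G then ∑ x ∈ Jv G v, w x - K else ∑ x ∈ Jv G v, (w x - TH G x / al)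

/-- **master identity** -/
theorem master51 (hG : G.Geo al kp U) (w : V × V → ℝ) (K : ℝ) :
    al * ∑ v ∈ G.P, slk G al w K v = al * ∑ x ∈ iJ G, w x -
      (K * al - 2 * Real.pi) * (inN G).card -
      (Real.pi * (G.iD.card / 3) - ∑ x ∈ G.iD, G.ar x.1 x.2 / 3) := by
  have hal := al_pos71 G hG
  have h1 : ∀ v ∈ G.P, slk G al w K v = ∑ x ∈ Jv G v, (w x - TH G x / al) +
      (if v ∈ inN G then 2 * Real.pi / al - K else 0) := by
    intro v _
    unfold slk
    by_cases hv : v ∈ inN G
    · rw [if_pos hv, if_pos hv, Finset.sum_sub_distrib, ← Finset.sum_div]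
      have h2 := sum_TH_point71 G hG hv
      change ∑ x ∈ Jv G v, TH G x = _ at h2
      rw [h2]
      ring
    · rw [if_neg hv, if_neg hv, add_zero]
  have h2 : ∑ v ∈ G.P, ∑ x ∈ Jv G v, (w x - TH G x / al) = ∑ x ∈ iJ G, (w x - TH G x / al) := by
    unfold Jv
    refine Finset.sum_fiberwise_of_maps_to (s := iJ G) (t := G.P) (g := Prod.fst) ?_ _
    intro x hx
    rw [mem_iJ71] at hx
    exact G.mem _ _ (G.sub hx.1.1)
  have h3 : ∑ v ∈ G.P, (if v ∈ inN G then 2 * Real.pi / al - K else 0) =
      (inN G).card * (2 * Real.pi / al - K) := by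
    rw [← Finset.sum_filter, Finset.sum_const, nsmul_eq_mul]
    congr 3
    ext v
    rw [Finset.mem_filter]
    refine ⟨fun h => h.2, fun h => ⟨?_, h⟩⟩
    unfold inN at h
    exact (Finset.mem_filter.1 h).1
  rw [Finset.sum_congr rfl h1, Finset.sum_add_distrib, h2, h3, Finset.sum_sub_distrib,
    ← Finset.sum_div, sum_TH71 G hG, sum_th_iD71]
  field_simp
  ring

/-- extra weight with a real valued function on the rhombus corners -/
def xr (F : V × V → ℝ) (x : V × V) : ℝ :=
  if G.cI (G.cl x) = ∅ then 0 else if RC G (G.cl x) then F x else 1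

/-- the sum of all weights, real valued `F` -/
theorem wsumR51 (hG : G.Geo al kp U) (F : V × V → ℝ)
    (hF : ∀ x ∈ iJ G, RC G (G.cl x) → F (sg G x) = 1 - F x)
    (hA : ∀ C ∈ G.iC, A3 al * (G.cT C).card ≤ ∑ x ∈ G.cD C, G.ar x.1 x.2 / 3)
    (hP : ∀ C ∈ G.iC, (G.cT C).card = 3 → (G.cI C).card = 4 → ∑ x ∈ G.cJ C, wc G al x ≤ 12) :
    ∑ x ∈ iJ G, ((bw G al x : ℝ) + xr G F x) ≤ G.iD.card + 2 * G.iI.card := by
  -- compare with a 0/1 function having the same class sums
  have hcl : ∀ C ∈ G.iC, ∑ x ∈ G.cJ C, ((bw G al x : ℝ) + xr G F x) ≤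
      ((3 * (G.cT C).card + 2 * (G.cI C).card : ℕ) : ℝ) := by
    intro C hC
    have hclx : ∀ x ∈ G.cJ C, G.cl x = C := fun x hx => (cJ_iJ51 G hC hx).2
    by_cases hR : RC G C
    · have hI := RC_ne51 G hR
      have hmem : ∀ y ∈ G.cJ C, sg G y ∈ G.cJ C := by
        intro y hy
        obtain ⟨h1, h2⟩ := cJ_iJ51 G hC hy
        obtain ⟨h3, h4⟩ := sg_mem51 G hG h1
        have := iJ_cJ51 G h3
        rw [h4, h2] at this
        exact this
      have hinj : Set.InjOn (sg G) ((G.cJ C : Finset (V × V)) : Set (V × V)) := by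
        intro y hy z hz hyz
        exact sg_inj51 G hG (cJ_iJ51 G hC (Finset.mem_coe.1 hy)).1
          (cJ_iJ51 G hC (Finset.mem_coe.1 hz)).1 hyz
      have himg : (G.cJ C).image (sg G) = G.cJ C := by
        apply Finset.eq_of_subset_of_card_le
        · intro y hy
          obtain ⟨z, hz, rfl⟩ := Finset.mem_image.1 hy
          exact hmem z hz
        · rw [Finset.card_image_of_injOn hinj]
      have hsum : ∑ y ∈ G.cJ C, F (sg G y) = ∑ y ∈ G.cJ C, F y := by
        conv_rhs => rw [← himg]
        rw [Finset.sum_image hinj]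
      have h4 : (G.cJ C).card = 4 := by
        have hsplit := card_split66 G C
        have hB : (G.cB C).card = 0 := by
          rw [cB_of_iC66 G hC]
          rfl
        have h1 := hR.1
        have h2 := hR.2
        omega
      have h5 : ∑ y ∈ G.cJ C, F (sg G y) = ∑ y ∈ G.cJ C, (1 - F y) := by
        refine Finset.sum_congr rfl fun y hy => ?_
        obtain ⟨h1, h2⟩ := cJ_iJ51 G hC hy
        exact hF y h1 (by rw [h2]; exact hR)
      rw [hsum, Finset.sum_sub_distrib, Finset.sum_const, h4, nsmul_eq_mul] at h5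
      have h6 : ∑ x ∈ G.cJ C, ((bw G al x : ℝ) + xr G F x) = ∑ x ∈ G.cJ C, (2 + F x) := by
        refine Finset.sum_congr rfl fun x hx => ?_
        unfold bw xr
        rw [hclx x hx, if_neg hI, if_neg hI, if_pos hR, if_pos hR]
        norm_num
      rw [h6, Finset.sum_add_distrib, Finset.sum_const, h4, nsmul_eq_mul, hR.1, hR.2]
      push_cast at h5 ⊢
      linarith
    · -- no rhombus: a constant function gives the same weights
      have hq : ∑ x ∈ G.cJ C, ((bw G al x : ℝ) + xr G F x) =
          ((∑ x ∈ G.cJ C, (bw G al x + (if G.cI (G.cl x) = ∅ then 0 else 1)) : ℕ) : ℝ) := by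
        rw [Nat.cast_sum]
        refine Finset.sum_congr rfl fun x hx => ?_
        unfold xr
        rw [hclx x hx]
        by_cases hI : G.cI C = ∅
        · rw [if_pos hI, if_pos hI]
          push_cast
          ring
        · rw [if_neg hI, if_neg hI, if_neg hR]
          push_cast
          ring
      rw [hq, Nat.cast_le]
      have hB0 : (G.cB C).card = 0 := by
        rw [cB_of_iC66 G hC]
        rfl
      have hsplit := card_split66 G C
      by_cases hI : G.cI C = ∅
      · have h1 : ∑ x ∈ G.cJ C, (bw G al x + (if G.cI (G.cl x) = ∅ then 0 else 1)) =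
            ∑ x ∈ G.cJ C, 1 := by
          refine Finset.sum_congr rfl fun x hx => ?_
          unfold bw
          rw [hclx x hx, if_pos hI, if_pos hI]
        rw [h1, Finset.sum_const, smul_eq_mul, mul_one]
        omega
      · have h1 : ∑ x ∈ G.cJ C, (bw G al x + (if G.cI (G.cl x) = ∅ then 0 else 1)) =
            ∑ x ∈ G.cJ C, wc G al x + (G.cJ C).card := by
          rw [Finset.card_eq_sum_ones, ← Finset.sum_add_distrib]
          refine Finset.sum_congr rfl fun x hx => ?_
          unfold bw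
          rw [hclx x hx, if_neg hI, if_neg hI, if_neg hR]
        rw [h1]
        exact other51 G hG hC (hA C hC) (hP C hC) hI hR
  rw [sum_iJ71 G (fun x => (bw G al x : ℝ) + xr G F x)]
  calc ∑ C ∈ G.iC, ∑ x ∈ G.cJ C, ((bw G al x : ℝ) + xr G F x) ≤
      ∑ C ∈ G.iC, ((3 * (G.cT C).card + 2 * (G.cI C).card : ℕ) : ℝ) := Finset.sum_le_sum hcl
    _ = G.iD.card + 2 * G.iI.card := by
      rw [card_iD27, ← sum_cI66 G, ← Nat.cast_sum, Finset.sum_add_distrib, ← Finset.mul_sum,
        ← Finset.mul_sum]
      push_cast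
      ring

end D

end

end Pool.Agent.PEN
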