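import Pool.Agent.P4.Q11
import Pool.Agent.PEN.B39

/-! # Numbers (row N)

With `h = cos α = C / (C + 1)`, `C = cosh d ≥ 27 / 20` and `7 α > 2 π` we have
`287 / 500 ≤ h ≤ 79 / 125`. The maximal area `g` of a triangle with two sides `d` satisfies
`cos g = 3 - 4 h`, and `cos A3 = 3 h - 4 h ^ 3`, so `g ≤ 3 A3` and the bounds of the areas
`uu d 1`, `uu d 2`, `uu d 3` become polynomial inequalities in `h`; they are proved by writing the
polynomial in the Bernstein basis of the interval. -/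

set_option autoImplicit false

namespace Pool.Agent.PEN

open Classical UpperHalfPlane

noncomputable section

/-! ### The three polynomials -/

private lemma P1_52 {h : ℝ} (h1 : 287 / 500 ≤ h) (h2 : h ≤ 79 / 125) :
    0 ≤ (h + 1) * (2 * h - 1) * (8 * h ^ 3 - 6 * h - 1) ^ 2 - 2 := by
  have x1 : 0 ≤ h - 287 / 500 := by linarith
  have x2 : 0 ≤ 79 / 125 - h := by linarith
  have key : (h + 1) * (2 * h - 1) * (8 * h ^ 3 - 6 * h - 1) ^ 2 - 2 =
      5070535076328405888 / 500246412961 * (h - 287 / 500) ^ 0 * (79 / 125 - h) ^ 8 +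
      5865778252106314364672 / 500246412961 * (h - 287 / 500) ^ 1 * (79 / 125 - h) ^ 7 +
      40423900134478984692736 / 500246412961 * (h - 287 / 500) ^ 2 * (79 / 125 - h) ^ 6 +
      119436242311103409360896 / 500246412961 * (h - 287 / 500) ^ 3 * (79 / 125 - h) ^ 5 +
      195766285611513797724160 / 500246412961 * (h - 287 / 500) ^ 4 * (79 / 125 - h) ^ 4 +
      192164455457637954965504 / 500246412961 * (h - 287 / 500) ^ 5 * (79 / 125 - h) ^ 3 +
      112939117879172549287936 / 500246412961 * (h - 287 / 500) ^ 6 * (79 / 125 - h) ^ 2 +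
      36792323220237403209728 / 500246412961 * (h - 287 / 500) ^ 7 * (79 / 125 - h) ^ 1 +
      5124425144874962649088 / 500246412961 * (h - 287 / 500) ^ 8 * (79 / 125 - h) ^ 0 := by
    ring
  rw [key]
  positivity

private lemma P2_52 {h : ℝ} (h1 : 287 / 500 ≤ h) (h2 : h ≤ 79 / 125) :
    0 ≤ h ^ 2 * (1 - h ^ 2) * (1 + 2 * h) ^ 2 - 1 := by
  have x1 : 0 ≤ h - 287 / 500 := by linarith
  have x2 : 0 ≤ 79 / 125 - h := by linarith
  have key : h ^ 2 * (1 - h ^ 2) * (1 + 2 * h) ^ 2 - 1 =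
      301732724938364 / 594823321 * (h - 287 / 500) ^ 0 * (79 / 125 - h) ^ 6 +
      5167697445476112 / 594823321 * (h - 287 / 500) ^ 1 * (79 / 125 - h) ^ 5 +
      21298858117301040 / 594823321 * (h - 287 / 500) ^ 2 * (79 / 125 - h) ^ 4 +
      39500003703848960 / 594823321 * (h - 287 / 500) ^ 3 * (79 / 125 - h) ^ 3 +
      37852851070984960 / 594823321 * (h - 287 / 500) ^ 4 * (79 / 125 - h) ^ 2 +
      18372850318784512 / 594823321 * (h - 287 / 500) ^ 5 * (79 / 125 - h) ^ 1 +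
      3587107175591936 / 594823321 * (h - 287 / 500) ^ 6 * (79 / 125 - h) ^ 0 := by
    ring
  rw [key]
  positivity

private lemma P3_52 {h : ℝ} (h1 : 287 / 500 ≤ h) (h2 : h ≤ 79 / 125) :
    0 ≤ 8 * h ^ 2 * (3 - 4 * h ^ 2) ^ 2 * (1 - h) * (1 + 2 * h) ^ 2 * (3 * h - 1) ^ 2 - 23 / 5 * (1 + h) := by
  have x1 : 0 ≤ h - 287 / 500 := by linarith
  have x2 : 0 ≤ 79 / 125 - h := by linarith
  have key : 8 * h ^ 2 * (3 - 4 * h ^ 2) ^ 2 * (1 - h) * (1 + 2 * h) ^ 2 * (3 * h - 1) ^ 2 - 23 / 5 * (1 + h) =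
      195757328346341319884807952896 / 12200509765705829 * (h - 287 / 500) ^ 0 * (79 / 125 - h) ^ 11 +
      3288913043688109181337842628608 / 12200509765705829 * (h - 287 / 500) ^ 1 * (79 / 125 - h) ^ 10 +
      21883717478762729121373043742720 / 12200509765705829 * (h - 287 / 500) ^ 2 * (79 / 125 - h) ^ 9 +
      81138066575252115896527993978880 / 12200509765705829 * (h - 287 / 500) ^ 3 * (79 / 125 - h) ^ 8 +
      191359332616158287660953263431680 / 12200509765705829 * (h - 287 / 500) ^ 4 * (79 / 125 - h) ^ 7 +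
      305652869595002743140008149876736 / 12200509765705829 * (h - 287 / 500) ^ 5 * (79 / 125 - h) ^ 6 +
      340121033010824418002720285032448 / 12200509765705829 * (h - 287 / 500) ^ 6 * (79 / 125 - h) ^ 5 +
      265000670676634816400034310389760 / 12200509765705829 * (h - 287 / 500) ^ 7 * (79 / 125 - h) ^ 4 +
      142142165676633819019207536803840 / 12200509765705829 * (h - 287 / 500) ^ 8 * (79 / 125 - h) ^ 3 +
      50099275110954877348229718999040 / 12200509765705829 * (h - 287 / 500) ^ 9 * (79 / 125 - h) ^ 2 +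
      10458335214083607158293496070144 / 12200509765705829 * (h - 287 / 500) ^ 10 * (79 / 125 - h) ^ 1 +
      980546323220320367294044700672 / 12200509765705829 * (h - 287 / 500) ^ 11 * (79 / 125 - h) ^ 0 := by
    ring
  rw [key]
  positivity
/-! ### The range of `h` -/

private lemma h_range52 {d : ℝ} (hd : 0 < d) (hC : 27 / 20 ≤ Real.cosh d)
    (ha : 2 * Real.pi < 7 * alpha d) :
    287 / 500 ≤ Real.cos (alpha d) ∧ Real.cos (alpha d) ≤ 79 / 125 := by
  constructor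
  · rw [cos_alpha hd, div_le_div_iff₀ (by norm_num) (by linarith)]
    linarith
  · have hpi := Real.pi_gt_d4
    have h1 : (359 / 400 : ℝ) ≤ alpha d := by linarith
    have h2 : Real.cos (alpha d) ≤ Real.cos (359 / 400) :=
      Real.cos_le_cos_of_nonneg_of_le_pi (by norm_num) (alpha_le_pi39 d) h1
    have h3 := Real.cos_bound (x := 359 / 400) (by rw [abs_of_pos (by norm_num)]; norm_num)
    rw [abs_of_pos (show (0 : ℝ) < 359 / 400 by norm_num)] at h3
    have h4 := (abs_le.1 h3).2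
    norm_num at h4 ⊢
    linarith

private lemma A3_pos52 {d : ℝ} (hd : 0 < d) : 0 < A3 (alpha d) := by
  have := alpha_lt hd
  unfold A3
  linarith

private lemma A3_lt52 {d : ℝ} (ha : 2 * Real.pi < 7 * alpha d) : 7 * A3 (alpha d) < Real.pi := by
  unfold A3
  linarith

private lemma cos_A352 (d : ℝ) :
    Real.cos (A3 (alpha d)) = 3 * Real.cos (alpha d) - 4 * Real.cos (alpha d) ^ 3 := by
  unfold A3
  rw [Real.cos_pi_sub, Real.cos_three_mul]
  ring

/-! ### The sines of the half areas -/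

private lemma half52 {d : ℝ} (hd : 0 < d) :
    Real.cosh (d / 2) ^ 2 * (2 * (1 - Real.cos (alpha d))) = 1 ∧
      Real.sinh (d / 2) ^ 2 = Real.cosh (d / 2) ^ 2 - 1 := by
  have hK : 0 < Real.cosh (d / 2) := Real.cosh_pos _
  have hc : Real.cosh d = Real.cosh (d / 2) ^ 2 + Real.sinh (d / 2) ^ 2 := by
    rw [← Real.cosh_two_mul]; ring_nf
  have hs := Real.cosh_sq (d / 2)
  have hs' : Real.sinh (d / 2) ^ 2 = Real.cosh (d / 2) ^ 2 - 1 := by linarith
  refine ⟨?_, hs'⟩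
  rw [cos_alpha hd, hc, hs']
  have h2 : Real.cosh (d / 2) ^ 2 + (Real.cosh (d / 2) ^ 2 - 1) + 1 ≠ 0 := by
    have : 0 < Real.cosh (d / 2) ^ 2 := by positivity
    intro h
    linarith
  field_simp
  ring

private lemma s1_52 {d : ℝ} (hd : 0 < d) :
    Real.tanh (d / 2) * Real.tanh (d / 2) = 2 * Real.cos (alpha d) - 1 := by
  obtain ⟨h1, h2⟩ := half52 hd
  have hK : 0 < Real.cosh (d / 2) := Real.cosh_pos _
  rw [Real.tanh_eq_sinh_div_cosh, div_mul_div_comm, ← sq, ← sq, h2, div_eq_iff (by positivity)]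
  linarith

private lemma s2_52 {d : ℝ} (hd : 0 < d) :
    Real.tanh (d / 2) * Real.tanh (2 * d / 2) * Real.cos (alpha d) =
      2 * Real.cos (alpha d) - 1 := by
  obtain ⟨h1, h2⟩ := half52 hd
  have hK : 0 < Real.cosh (d / 2) := Real.cosh_pos _
  have e : 2 * d / 2 = 2 * (d / 2) := by ring
  have hc2 : Real.cosh (2 * (d / 2)) = Real.cosh (d / 2) ^ 2 + Real.sinh (d / 2) ^ 2 :=
    Real.cosh_two_mul _
  have hs2 : Real.sinh (2 * (d / 2)) = 2 * Real.sinh (d / 2) * Real.cosh (d / 2) :=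
    Real.sinh_two_mul _
  have hpos : 0 < Real.cosh (2 * (d / 2)) := Real.cosh_pos _
  have key : Real.tanh (d / 2) * Real.tanh (2 * d / 2) * Real.cosh (2 * (d / 2)) =
      2 * Real.sinh (d / 2) ^ 2 := by
    rw [e, Real.tanh_eq_sinh_div_cosh, Real.tanh_eq_sinh_div_cosh, hs2]
    field_simp
  rw [hc2, h2] at key
  set T := Real.tanh (d / 2) * Real.tanh (2 * d / 2)
  set K := Real.cosh (d / 2) ^ 2
  set h := Real.cos (alpha d)
  -- `T (2 K - 1) = 2 (K - 1)` and `2 K (1 - h) = 1`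
  have hKp : 0 < K := by positivity
  have h3 : T * (2 * K - 1) = 2 * (K - 1) := by linarith
  have h4 : 2 * K * h = 2 * K - 1 := by linarith
  have h5 : 2 * K * (T * h) = 2 * K * (2 * h - 1) := by
    have : 2 * K * (T * h) = T * (2 * K * h) := by ring
    rw [this, h4, h3]
    linarith
  exact mul_left_cancel₀ (by positivity) h5

private lemma s3_52 {d : ℝ} (hd : 0 < d) :
    Real.tanh (d / 2) * Real.tanh (3 * d / 2) * (3 * Real.cos (alpha d) - 1) =
      (2 * Real.cos (alpha d) - 1) * (1 + Real.cos (alpha d)) := by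
  obtain ⟨h1, h2⟩ := half52 hd
  have hK : 0 < Real.cosh (d / 2) := Real.cosh_pos _
  have e : 3 * d / 2 = 3 * (d / 2) := by ring
  have hc3 : Real.cosh (3 * (d / 2)) = 4 * Real.cosh (d / 2) ^ 3 - 3 * Real.cosh (d / 2) :=
    Real.cosh_three_mul _
  have hs3 : Real.sinh (3 * (d / 2)) = 4 * Real.sinh (d / 2) ^ 3 + 3 * Real.sinh (d / 2) :=
    Real.sinh_three_mul _
  have hpos : 0 < Real.cosh (3 * (d / 2)) := Real.cosh_pos _
  have key : Real.tanh (d / 2) * Real.tanh (3 * d / 2) *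
      (Real.cosh (d / 2) * Real.cosh (3 * (d / 2))) =
      Real.sinh (d / 2) * Real.sinh (3 * (d / 2)) := by
    rw [e, Real.tanh_eq_sinh_div_cosh, Real.tanh_eq_sinh_div_cosh]
    field_simp
  have e1 : Real.cosh (d / 2) * Real.cosh (3 * (d / 2)) =
      Real.cosh (d / 2) ^ 2 * (4 * Real.cosh (d / 2) ^ 2 - 3) := by
    rw [hc3]; ring
  have e2 : Real.sinh (d / 2) * Real.sinh (3 * (d / 2)) =
      Real.sinh (d / 2) ^ 2 * (4 * Real.sinh (d / 2) ^ 2 + 3) := by
    rw [hs3]; ring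
  rw [e1, e2, h2] at key
  set T := Real.tanh (d / 2) * Real.tanh (3 * d / 2)
  set K := Real.cosh (d / 2) ^ 2
  set h := Real.cos (alpha d)
  -- `T K (4 K - 3) = (K - 1) (4 K - 1)` and `2 K (1 - h) = 1`
  have hKp : 0 < K := by positivity
  have h4 : 2 * K * h = 2 * K - 1 := by linarith
  have h5 : 4 * K ^ 2 * (T * (3 * h - 1)) = 4 * K ^ 2 * ((2 * h - 1) * (1 + h)) := by
    have a1 : 4 * K ^ 2 * (T * (3 * h - 1)) = 2 * K * T * (3 * (2 * K * h) - 2 * K) := by ring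
    have a2 : 4 * K ^ 2 * ((2 * h - 1) * (1 + h)) =
        (2 * (2 * K * h) - 2 * K) * (2 * K + 2 * K * h) := by ring
    rw [a1, a2, h4]
    linear_combination 2 * key
  exact mul_left_cancel₀ (by positivity) h5

/-! ### The first inequality -/

private lemma cos_two_arcsin52 {s : ℝ} (h0 : 0 ≤ s) (h1 : s ≤ 1) :
    Real.cos (2 * Real.arcsin s) = 1 - 2 * (s * s) := by
  rw [Real.cos_two_mul, Real.cos_sq', Real.sin_arcsin (by linarith) h1]
  ring

/-- N1 -/
theorem g_le {d : ℝ} (hd : 0 < d) (hC : 27 / 20 ≤ Real.cosh d) (ha : 2 * Real.pi < 7 * alpha d) :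
    2 * Real.arcsin (Real.tanh (d / 2)) ≤ 3 * A3 (alpha d) := by
  obtain ⟨r1, r2⟩ := h_range52 hd hC ha
  by_contra hcon
  rw [not_le] at hcon
  have ht0 : 0 ≤ Real.tanh (d / 2) := tanh_nonneg11 (by linarith)
  have ht1 : Real.tanh (d / 2) ≤ 1 := (Real.tanh_lt_one _).le
  have h1 := Real.cos_lt_cos_of_nonneg_of_le_pi (by linarith [A3_pos52 hd])
    (by linarith [Real.arcsin_le_pi_div_two (Real.tanh (d / 2))]) hcon
  rw [cos_two_arcsin52 ht0 ht1, s1_52 hd, Real.cos_three_mul, cos_A352] at h1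
  have hP := P1_52 r1 r2
  set h := Real.cos (alpha d)
  have h2 : 0 ≤ (2 * h - 1) * ((h + 1) * (2 * h - 1) * (8 * h ^ 3 - 6 * h - 1) ^ 2 - 2) :=
    mul_nonneg (by linarith) hP
  nlinarith [h1, h2]

/-! ### The areas `u 1`, `u 2`, `u 3` -/

private lemma uu_cast52 (d : ℝ) (i : ℕ) (s : ℝ) (h : Real.tanh (d / 2) * Real.tanh (i * d / 2) = s) :
    uu d i = 2 * Real.arcsin s := by
  unfold uu
  rw [h]

/-- `u 2 ≤ 2 A3` and `u 1 ≤ 2 h A3` -/
private lemma u12_52 {d : ℝ} (hd : 0 < d) (hC : 27 / 20 ≤ Real.cosh d)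
    (ha : 2 * Real.pi < 7 * alpha d) :
    uu d 1 ≤ 2 * (Real.cos (alpha d) * A3 (alpha d)) ∧ uu d 2 ≤ 2 * A3 (alpha d) := by
  obtain ⟨r1, r2⟩ := h_range52 hd hC ha
  have hA := A3_pos52 hd
  have hA' := A3_lt52 ha
  have hpi := Real.pi_pos
  have ht0 : 0 ≤ Real.tanh (d / 2) := tanh_nonneg11 (by linarith)
  have ht1 : Real.tanh (d / 2) ≤ 1 := (Real.tanh_lt_one _).le
  have hT0 : 0 ≤ Real.tanh (2 * d / 2) := tanh_nonneg11 (by linarith)
  have hT1 : Real.tanh (2 * d / 2) ≤ 1 := (Real.tanh_lt_one _).le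
  have h1 := s1_52 hd
  have h2 := s2_52 hd
  have hcA := cos_A352 d
  have hP := P2_52 r1 r2
  have hsin0 : 0 ≤ Real.sin (A3 (alpha d)) :=
    Real.sin_nonneg_of_nonneg_of_le_pi hA.le (by linarith)
  have hT : Real.tanh (d / 2) * Real.tanh (2 * d / 2) ≤ Real.sin (A3 (alpha d)) := by
    have hsq := Real.sin_sq_add_cos_sq (A3 (alpha d))
    rw [hcA] at hsq
    have e : (Real.tanh (d / 2) * Real.tanh (2 * d / 2)) ^ 2 ≤ Real.sin (A3 (alpha d)) ^ 2 := by
      set T := Real.tanh (d / 2) * Real.tanh (2 * d / 2)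
      set h := Real.cos (alpha d)
      have hh : 0 < h := by linarith
      have e1 : T ^ 2 * h ^ 2 = (2 * h - 1) ^ 2 := by rw [← mul_pow, h2]
      have e2 : (2 * h - 1) ^ 2 ≤ (1 - (3 * h - 4 * h ^ 3) ^ 2) * h ^ 2 := by
        have : (1 - (3 * h - 4 * h ^ 3) ^ 2) * h ^ 2 - (2 * h - 1) ^ 2 =
            (2 * h - 1) ^ 2 * (h ^ 2 * (1 - h ^ 2) * (1 + 2 * h) ^ 2 - 1) := by ring
        have h5 : 0 ≤ (2 * h - 1) ^ 2 * (h ^ 2 * (1 - h ^ 2) * (1 + 2 * h) ^ 2 - 1) :=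
          mul_nonneg (sq_nonneg _) hP
        linarith
      have e3 : T ^ 2 * h ^ 2 ≤ (1 - (3 * h - 4 * h ^ 3) ^ 2) * h ^ 2 := by rw [e1]; exact e2
      have e4 := le_of_mul_le_mul_right e3 (by positivity)
      linarith
    exact (abs_le_of_sq_le_sq' e hsin0).2
  have ha2 : Real.arcsin (Real.tanh (d / 2) * Real.tanh (2 * d / 2)) ≤ A3 (alpha d) := by
    rw [Real.arcsin_le_iff_le_sin (x := Real.tanh (d / 2) * Real.tanh (2 * d / 2))
      ⟨by nlinarith, by nlinarith⟩ ⟨by linarith, by linarith⟩]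
    exact hT
  have ha1 : Real.arcsin (Real.tanh (d / 2) * Real.tanh (d / 2)) ≤
      Real.cos (alpha d) * A3 (alpha d) := by
    have hh : 0 < Real.cos (alpha d) := by linarith
    rw [Real.arcsin_le_iff_le_sin ⟨by nlinarith, by nlinarith⟩ ⟨by nlinarith, by nlinarith⟩]
    have hm1 : A3 (alpha d) ∈ Set.Icc (0 : ℝ) Real.pi := ⟨hA.le, by linarith⟩
    have hm2 : (0 : ℝ) ∈ Set.Icc (0 : ℝ) Real.pi := ⟨le_refl _, hpi.le⟩
    have hb : 0 ≤ 1 - Real.cos (alpha d) := by linarith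
    have hconc := strictConcaveOn_sin_Icc.concaveOn.2 hm1 hm2 hh.le hb (by ring)
    simp only [smul_eq_mul, Real.sin_zero, mul_zero, add_zero] at hconc
    calc Real.tanh (d / 2) * Real.tanh (d / 2)
        = Real.cos (alpha d) * (Real.tanh (d / 2) * Real.tanh (2 * d / 2)) := by
          rw [h1, mul_comm (Real.cos _), h2]
      _ ≤ Real.cos (alpha d) * Real.sin (A3 (alpha d)) := mul_le_mul_of_nonneg_left hT hh.le
      _ ≤ _ := hconc
  constructor
  · unfold uu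
    rw [Nat.cast_one, one_mul]
    linarith
  · unfold uu
    rw [Nat.cast_ofNat]
    linarith

/-- `3 u 3 ≤ 8 A3` -/
private lemma u3_52 {d : ℝ} (hd : 0 < d) (hC : 27 / 20 ≤ Real.cosh d)
    (ha : 2 * Real.pi < 7 * alpha d) : uu d 3 ≤ 8 / 3 * A3 (alpha d) := by
  obtain ⟨r1, r2⟩ := h_range52 hd hC ha
  have hA := A3_pos52 hd
  have hA' := A3_lt52 ha
  have hpi := Real.pi_pos
  have ht0 : 0 ≤ Real.tanh (d / 2) := tanh_nonneg11 (by linarith)
  have hT0 : 0 ≤ Real.tanh (3 * d / 2) := tanh_nonneg11 (by linarith)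
  have h3 := s3_52 hd
  have hcA := cos_A352 d
  have hP := P3_52 r1 r2
  have hs0 : 0 ≤ Real.tanh (d / 2) * Real.tanh (3 * d / 2) := mul_nonneg ht0 hT0
  unfold uu
  rw [Nat.cast_ofNat]
  set s := Real.tanh (d / 2) * Real.tanh (3 * d / 2)
  set h := Real.cos (alpha d)
  have hs12 : s ≤ 1 / 2 := by
    have h5 : s * (3 * h - 1) ≤ 1 / 2 * (3 * h - 1) := by
      rw [h3]
      nlinarith
    exact le_of_mul_le_mul_right h5 (by linarith)
  have hspos : 0 < s := by
    rcases hs0.lt_or_eq with h5 | h5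
    · exact h5
    · rw [← h5, zero_mul] at h3
      nlinarith
  have hy0 : 0 ≤ Real.sin (4 / 3 * A3 (alpha d)) :=
    Real.sin_nonneg_of_nonneg_of_le_pi (by linarith) (by linarith)
  have hcy0 : 0 ≤ Real.cos (4 / 3 * A3 (alpha d)) :=
    Real.cos_nonneg_of_mem_Icc ⟨by linarith, by linarith⟩
  have key : Real.arcsin s ≤ 4 / 3 * A3 (alpha d) := by
    rw [Real.arcsin_le_iff_le_sin ⟨by linarith, by linarith⟩ ⟨by linarith, by linarith⟩]
    by_contra hcon
    rw [not_le] at hcon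
    -- `cos (4 A3)` in two ways
    have c1 : Real.cos (3 * (4 / 3 * A3 (alpha d))) =
        Real.cos (4 / 3 * A3 (alpha d)) * (1 - 4 * Real.sin (4 / 3 * A3 (alpha d)) ^ 2) := by
      rw [Real.cos_three_mul]
      have := Real.sin_sq_add_cos_sq (4 / 3 * A3 (alpha d))
      linear_combination (4 * Real.cos (4 / 3 * A3 (alpha d))) * this
    have c2 : Real.cos (3 * (4 / 3 * A3 (alpha d))) =
        1 - 8 * (3 * h - 4 * h ^ 3) ^ 2 * (1 - (3 * h - 4 * h ^ 3) ^ 2) := by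
      have e : 3 * (4 / 3 * A3 (alpha d)) = 2 * (2 * A3 (alpha d)) := by ring
      rw [e, Real.cos_two_mul, Real.cos_two_mul, hcA]
      ring
    have hsc := Real.sin_sq_add_cos_sq (4 / 3 * A3 (alpha d))
    rw [c1] at c2
    set X := Real.sin (4 / 3 * A3 (alpha d))
    set Y := Real.cos (4 / 3 * A3 (alpha d))
    have hX2 : X ^ 2 ≤ s ^ 2 := pow_le_pow_left₀ hy0 hcon.le 2
    have hs2 : s ^ 2 ≤ 1 / 4 := by nlinarith
    have hs2p : 0 < s ^ 2 := by positivity
    have hY : 1 - 3 / 5 * s ^ 2 ≤ Y := by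
      refine (abs_le_of_sq_le_sq' ?_ hcy0).2
      have : Y ^ 2 = 1 - X ^ 2 := by linarith
      rw [this]
      nlinarith
    have low : (1 - 3 / 5 * s ^ 2) * (1 - 4 * s ^ 2) ≤ Y * (1 - 4 * X ^ 2) :=
      mul_le_mul hY (by linarith) (by linarith) hcy0
    rw [c2] at low
    have hlow2 : 8 * (3 * h - 4 * h ^ 3) ^ 2 * (1 - (3 * h - 4 * h ^ 3) ^ 2) < 23 / 5 * s ^ 2 := by
      nlinarith
    -- the polynomial inequality
    have e1 : s ^ 2 * (3 * h - 1) ^ 2 = ((2 * h - 1) * (1 + h)) ^ 2 := by rw [← mul_pow, h3]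
    have e2 : 8 * (3 * h - 4 * h ^ 3) ^ 2 * (1 - (3 * h - 4 * h ^ 3) ^ 2) * (3 * h - 1) ^ 2 -
        23 / 5 * ((2 * h - 1) * (1 + h)) ^ 2 = (2 * h - 1) ^ 2 * (1 + h) *
        (8 * h ^ 2 * (3 - 4 * h ^ 2) ^ 2 * (1 - h) * (1 + 2 * h) ^ 2 * (3 * h - 1) ^ 2 -
          23 / 5 * (1 + h)) := by ring
    have e3 : 0 ≤ (2 * h - 1) ^ 2 * (1 + h) *
        (8 * h ^ 2 * (3 - 4 * h ^ 2) ^ 2 * (1 - h) * (1 + 2 * h) ^ 2 * (3 * h - 1) ^ 2 -
          23 / 5 * (1 + h)) := mul_nonneg (mul_nonneg (sq_nonneg _) (by linarith)) hP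
    have e4 : 0 < (3 * h - 1) ^ 2 := by
      have : 0 < 3 * h - 1 := by linarith
      positivity
    have e5 := mul_lt_mul_of_pos_right hlow2 e4
    have e6 : 23 / 5 * s ^ 2 * (3 * h - 1) ^ 2 = 23 / 5 * ((2 * h - 1) * (1 + h)) ^ 2 := by
      rw [← e1]; ring
    linarith
  linarith

/-- the three areas -/
private lemma u_bounds52 {d : ℝ} (hd : 0 < d) (hC : 27 / 20 ≤ Real.cosh d)
    (ha : 2 * Real.pi < 7 * alpha d) :
    3 * uu d 1 < 4 * A3 (alpha d) ∧ uu d 2 ≤ 2 * A3 (alpha d) ∧ 3 * uu d 3 ≤ 8 * A3 (alpha d) := by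
  obtain ⟨r1, r2⟩ := h_range52 hd hC ha
  have hA := A3_pos52 hd
  obtain ⟨h1, h2⟩ := u12_52 hd hC ha
  have h3 := u3_52 hd hC ha
  refine ⟨?_, h2, by linarith⟩
  nlinarith

/-- N2 -/
theorem u123 {d : ℝ} (hd : 0 < d) (hC : 27 / 20 ≤ Real.cosh d) (ha : 2 * Real.pi < 7 * alpha d) :
    uu d 1 + uu d 2 + uu d 3 < 6 * A3 (alpha d) := by
  obtain ⟨h1, h2, h3⟩ := u_bounds52 hd hC ha
  linarith

/-! ### The conclusion -/

/-- N3 -/
theorem numU {d : ℝ} (hd : 0 < d) (hC : 27 / 20 ≤ Real.cosh d) (ha : 2 * Real.pi < 7 * alpha d) :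
    NumU (alpha d) (Uw (uu d)) := by
  obtain ⟨h1, h2, h3⟩ := u_bounds52 hd hC ha
  have hA := A3_pos52 hd
  have h123 := u123 hd hC ha
  obtain ⟨p1, p2, p3⟩ := Uw_props (uu d) (uu_nonneg hd) (uu_mono hd)
  refine ⟨p1, p2, p3, ?_, ?_⟩
  · intro b hb3 hb7
    interval_cases b <;> simp [Uw, Finset.sum_range_succ] <;> linarith
  · intro b hb
    obtain ⟨k, rfl⟩ := Nat.exists_eq_add_of_le hb
    induction k with
    | zero =>
      simp [Uw, Finset.sum_range_succ]
      linarith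
    | succ k ih =>
      have h5 : Uw (uu d) (8 + (k + 1)) = Uw (uu d) (8 + k) + uu d ((6 + k) / 2 + 1) := by
        unfold Uw
        have e1 : 8 + (k + 1) - 2 = (6 + k) + 1 := by omega
        have e2 : 8 + k - 2 = 6 + k := by omega
        rw [e1, e2, Finset.sum_range_succ]
      have h6 := ih (by omega)
      have h7 := uu_le hd ((6 + k) / 2 + 1)
      have h8 := g_le hd hC ha
      rw [h5]
      push_cast at h6 ⊢
      linarith

end

end Pool.Agent.PEN
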