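import Pool.Agent.P4.X39

/-! # Hyperbolic penny graphs, part 2: the square and the exceptional distance (row X3') -/

set_option autoImplicit false

namespace Pool.Agent.PEN

open Classical UpperHalfPlane

noncomputable section

/-! ### The square -/

private lemma base_unique39b {d D β β' : ℝ} (hd : 0 < d) (hD : 0 < D)
    (b0 : 0 ≤ β) (b1 : β ≤ Real.pi) (c0 : 0 ≤ β') (c1 : β' ≤ Real.pi)
    (h : Penny39.Cos d d D β) (h' : Penny39.Cos d d D β') : β' = β := by
  refine Real.injOn_cos ⟨c0, c1⟩ ⟨b0, b1⟩ ?_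
  have e1 : Real.cosh d = Real.cosh d * Real.cosh D - Real.sinh d * Real.sinh D * Real.cos β := h
  have e2 : Real.cosh d = Real.cosh d * Real.cosh D - Real.sinh d * Real.sinh D * Real.cos β' := h'
  have h3 : 0 < Real.sinh d * Real.sinh D :=
    mul_pos (Real.sinh_pos_iff.2 hd) (Real.sinh_pos_iff.2 hD)
  have h5 : Real.sinh d * Real.sinh D * (Real.cos β' - Real.cos β) = 0 := by linarith
  rcases mul_eq_zero.1 h5 with h4 | h4
  · linarith
  · linarith

/-- X3': no square with angle `2π - 5 alpha`, except at the exceptional distance -/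
theorem no_square3 {d : ℝ} (hd : 0 < d) (ha : 2 * Real.pi < 7 * alpha d)
    (hne : Real.cos (5 * alpha d) ≠ 2 * Real.cos (alpha d) - 1)
    {a b p q : ℍ} (h1 : 0 < ori (kl a) (kl b) (kl p))
    (h2 : 0 < ori (kl b) (kl a) (kl q)) (hbp : dist b p = d) (hpa : dist p a = d)
    (haq : dist a q = d) (hqb : dist q b = d) (hab : d ≤ dist a b) (hpq : d ≤ dist p q)
    (e1 : ang p a b = 2 * Real.pi - 5 * alpha d)
    (e2 : ang a b p + ang a q b = 2 * Real.pi - 5 * alpha d) : False := by
  have nab : b ≠ a := (ne_of_dist39 hd hab).symm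
  have nbp : p ≠ b := (ne_of_dist39 hd hbp.ge).symm
  have npa : a ≠ p := (ne_of_dist39 hd hpa.ge).symm
  have naq : q ≠ a := (ne_of_dist39 hd haq.ge).symm
  have o1 : 0 < ori (kl p) (kl a) (kl b) := by rw [ori_rot39]; exact h1
  have o2 : 0 < ori (kl a) (kl q) (kl b) := by rw [← ori_rot39]; exact h2
  obtain ⟨g0, g1⟩ := ang_pos o1
  obtain ⟨b0, b1⟩ := ang_pos h1
  obtain ⟨c0, c1⟩ := ang_pos o2
  have eγ : Penny39.Cos (dist a b) d d (ang p a b) := by
    have := cosh_law npa nbp.symm
    rw [hpa, dist_comm p b, hbp] at this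
    exact this
  have eβ : Penny39.Cos d d (dist a b) (ang a b p) := by
    have := cosh_law nab npa.symm
    rw [hbp, dist_comm a p, hpa] at this
    unfold Penny39.Cos
    linarith
  have eβ' : Penny39.Cos d d (dist a b) (ang a q b) := by
    have := cosh_law naq nab
    rw [hqb, haq] at this
    unfold Penny39.Cos
    linarith
  have hD : 0 < dist a b := by linarith
  have hc := Penny39.cosh_gt_one hd
  have u1 : ang a q b = ang a b p := base_unique39b hd hD b0.le b1.le c0.le c1.le eβ eβ'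
  rw [u1] at e2
  have h3 : Real.cos (ang a b p) ^ 2 * (Real.cosh d ^ 2 + 1 - (Real.cosh d ^ 2 - 1) *
      Real.cos (ang p a b)) = Real.cosh d ^ 2 * (1 - Real.cos (ang p a b)) := by
    have k2 : Real.cosh (dist a b) = Real.cosh d * Real.cosh d - Real.sinh d * Real.sinh d *
      Real.cos (ang p a b) := eγ
    rw [Penny39.sinh_sq'] at k2
    have k3 := Penny39.base_sq hD eβ
    rw [k2] at k3
    have k4 : 0 < Real.cosh d ^ 2 - 1 := by nlinarith
    have k5 : (Real.cosh d ^ 2 - 1) * (Real.cos (ang a b p) ^ 2 * (Real.cosh d ^ 2 + 1 -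
        (Real.cosh d ^ 2 - 1) * Real.cos (ang p a b))) = (Real.cosh d ^ 2 - 1) *
        (Real.cosh d ^ 2 * (1 - Real.cos (ang p a b))) := by
      linear_combination k3
    exact mul_left_cancel₀ k4.ne' k5
  have h4 : Real.cos (ang a b p) ^ 2 = (Real.cos (5 * alpha d) + 1) / 2 := by
    have : Real.cos (2 * ang a b p) = Real.cos (5 * alpha d) := by
      rw [show 2 * ang a b p = 2 * Real.pi - 5 * alpha d by linarith, Real.cos_two_pi_sub]
    rw [Real.cos_two_mul] at this
    linarith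
  have h5 : Real.cos (ang p a b) = Real.cos (5 * alpha d) := by
    rw [e1, Real.cos_two_pi_sub]
  rw [h4, h5] at h3
  apply hne
  have h8 := cos_alpha hd
  have h9 : Real.cos (alpha d) * (Real.cosh d + 1) = Real.cosh d := by
    rw [h8]; field_simp
  set t := Real.cos (5 * alpha d) with ht
  have ht1 : t ≤ 1 := Real.cos_le_one _
  have h6 : ((Real.cosh d + 1) * t - (Real.cosh d - 1)) *
      ((Real.cosh d - 1) * t - (Real.cosh d + 1)) = 0 := by
    linear_combination (-2) * h3
  have h7 : (Real.cosh d + 1) * t = Real.cosh d - 1 := by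
    rcases mul_eq_zero.1 h6 with h | h
    · linarith
    · exfalso
      nlinarith
  have : (Real.cosh d + 1) * (t - (2 * Real.cos (alpha d) - 1)) = 0 := by
    linear_combination h7 - 2 * h9
  rcases mul_eq_zero.1 this with h | h
  · linarith
  · linarith

/-! ### The exceptional distance -/

/-- the quartic -/
def qq39 (h : ℝ) : ℝ := 16 * h ^ 4 + 16 * h ^ 3 - 4 * h ^ 2 - 4 * h - 1

lemma qq_mono39 {x y : ℝ} (hx : 1 / 2 ≤ x) (hxy : x < y) : qq39 x < qq39 y := by
  obtain ⟨s, rfl⟩ : ∃ s, x = 1 / 2 + s := ⟨x - 1 / 2, by ring⟩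
  obtain ⟨t, rfl⟩ : ∃ t, y = 1 / 2 + s + t := ⟨y - (1 / 2 + s), by ring⟩
  have hs : 0 ≤ s := by linarith
  have ht : 0 < t := by linarith
  have key : qq39 (1 / 2 + s + t) - qq39 (1 / 2 + s) = 12 * t + 44 * t ^ 2 + 48 * t ^ 3 + 16 * t ^ 4 +
      (88 * t + 144 * t ^ 2 + 64 * t ^ 3) * s + (144 * t + 96 * t ^ 2) * s ^ 2 +
      64 * t * s ^ 3 := by
    unfold qq39; ring
  have : 0 < qq39 (1 / 2 + s + t) - qq39 (1 / 2 + s) := by
    rw [key]; positivity
  linarith

lemma qq_inj39 {x y : ℝ} (hx : 1 / 2 ≤ x) (hy : 1 / 2 ≤ y) (h : qq39 x = qq39 y) : x = y := by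
  rcases lt_trichotomy x y with h1 | h1 | h1
  · exact absurd h (qq_mono39 hx h1).ne
  · exact h1
  · exact absurd h (qq_mono39 hy h1).ne'

lemma exc_iff39 {d : ℝ} (hd : 0 < d) :
    Real.cos (5 * alpha d) = 2 * Real.cos (alpha d) - 1 ↔ qq39 (Real.cos (alpha d)) = 0 := by
  have h5 : Real.cos (5 * alpha d) = 16 * Real.cos (alpha d) ^ 5 - 20 * Real.cos (alpha d) ^ 3 +
      5 * Real.cos (alpha d) := by
    have h1 : Real.sin (alpha d) ^ 2 = 1 - Real.cos (alpha d) ^ 2 := by
      linarith [Real.sin_sq_add_cos_sq (alpha d)]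
    rw [show 5 * alpha d = 2 * alpha d + 3 * alpha d by ring, Real.cos_add, Real.cos_two_mul,
      Real.cos_three_mul, Real.sin_two_mul, Real.sin_three_mul]
    have h2 : 2 * Real.sin (alpha d) * Real.cos (alpha d) *
        (3 * Real.sin (alpha d) - 4 * Real.sin (alpha d) ^ 3) =
        2 * Real.cos (alpha d) * Real.sin (alpha d) ^ 2 * (3 - 4 * Real.sin (alpha d) ^ 2) := by ring
    rw [h2, h1]
    ring
  have hc := Penny39.cosh_gt_one hd
  have hlt : Real.cos (alpha d) < 1 := by
    rw [cos_alpha hd, div_lt_one (by linarith)]; linarith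
  rw [h5]
  unfold qq39
  constructor
  · intro h
    have : (Real.cos (alpha d) - 1) * (16 * Real.cos (alpha d) ^ 4 + 16 * Real.cos (alpha d) ^ 3 -
        4 * Real.cos (alpha d) ^ 2 - 4 * Real.cos (alpha d) - 1) = 0 := by
      linear_combination h
    rcases mul_eq_zero.1 this with h1 | h1
    · linarith
    · exact h1
  · intro h
    linear_combination (Real.cos (alpha d) - 1) * h

lemma half_lt_cos39 {d : ℝ} (hd : 0 < d) : 1 / 2 < Real.cos (alpha d) := by
  have hc := Penny39.cosh_gt_one hd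
  rw [cos_alpha hd, lt_div_iff₀ (by linarith)]
  linarith

/-- `cosh` from above -/
private lemma cosh_le39 {x : ℝ} (h0 : 0 ≤ x) (h1 : x ≤ 1) :
    Real.cosh x ≤ (((∑ m ∈ Finset.range 10, x ^ m / (m.factorial : ℝ)) +
      x ^ 10 * (10 + 1) / ((Nat.factorial 10 : ℝ) * 10)) +
      1 / (∑ m ∈ Finset.range 10, x ^ m / (m.factorial : ℝ))) / 2 := by
  have a1 := Real.exp_bound' h0 h1 (n := 10) (by norm_num)
  have a2 := Real.sum_le_exp_of_nonneg h0 10
  have a3 : 0 < ∑ m ∈ Finset.range 10, x ^ m / (m.factorial : ℝ) :=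
    Finset.sum_pos' (fun i _ => by positivity) ⟨0, by simp, by simp⟩
  rw [Real.cosh_eq, Real.exp_neg]
  have a4 : (Real.exp x)⁻¹ ≤ 1 / (∑ m ∈ Finset.range 10, x ^ m / (m.factorial : ℝ)) := by
    rw [inv_eq_one_div]
    exact one_div_le_one_div_of_le a3 a2
  push_cast at a1 ⊢
  linarith

/-- `cosh` from below -/
private lemma le_cosh39 {x : ℝ} (h0 : 0 ≤ x) (h1 : x ≤ 1) :
    ((∑ m ∈ Finset.range 10, x ^ m / (m.factorial : ℝ)) +
      1 / ((∑ m ∈ Finset.range 10, x ^ m / (m.factorial : ℝ)) +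
      x ^ 10 * (10 + 1) / ((Nat.factorial 10 : ℝ) * 10))) / 2 ≤ Real.cosh x := by
  have a1 := Real.exp_bound' h0 h1 (n := 10) (by norm_num)
  have a2 := Real.sum_le_exp_of_nonneg h0 10
  rw [Real.cosh_eq, Real.exp_neg]
  have a4 : 1 / ((∑ m ∈ Finset.range 10, x ^ m / (m.factorial : ℝ)) +
      x ^ 10 * (10 + 1) / ((Nat.factorial 10 : ℝ) * 10)) ≤ (Real.exp x)⁻¹ := by
    rw [inv_eq_one_div]
    refine one_div_le_one_div_of_le (Real.exp_pos _) ?_
    push_cast at a1 ⊢
    linarith
  linarith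

/-- the exceptional distance with four decimals -/
theorem exc_unique39 : ∃ ds : ℝ, 0 < ds ∧ 2 * Real.pi < 7 * alpha ds ∧
    Real.cos (5 * alpha ds) = 2 * Real.cos (alpha ds) - 1 ∧
    7621 / 10000 < ds ∧ ds < 7622 / 10000 ∧
    ∀ d : ℝ, 0 < d → Real.cos (5 * alpha d) = 2 * Real.cos (alpha d) - 1 → d = ds := by
  -- the root of the quartic
  have hcont : ContinuousOn qq39 (Set.Icc (1 / 2) (27 / 47)) := by
    unfold qq39; fun_prop
  have hmem : (0 : ℝ) ∈ Set.Icc (qq39 (1 / 2)) (qq39 (27 / 47)) := by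
    unfold qq39; constructor <;> norm_num
  obtain ⟨h, hh, hq⟩ := intermediate_value_Icc (by norm_num) hcont hmem
  have hh0 : 1 / 2 < h := by
    rcases hh.1.eq_or_lt with e | e
    · rw [← e] at hq
      unfold qq39 at hq
      norm_num at hq
    · exact e
  have hh1 : h ≤ 27 / 47 := hh.2
  -- the distance
  set C := h / (1 - h) with hC
  have hC1 : 1 < C := by
    rw [hC, lt_div_iff₀ (by linarith)]; linarith
  have hCh : C / (C + 1) = h := by
    rw [hC]
    have : 1 - h ≠ 0 := by linarith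
    field_simp
    ring
  set ds := Real.arsinh (Real.sqrt (C ^ 2 - 1)) with hds
  have hds0 : 0 < ds := by
    rw [hds, Real.arsinh_pos_iff]
    exact Real.sqrt_pos.2 (by nlinarith)
  have hcosh : Real.cosh ds = C := by
    rw [hds, Real.cosh_arsinh, Real.sq_sqrt (by nlinarith)]
    rw [show 1 + (C ^ 2 - 1) = C ^ 2 by ring]
    exact Real.sqrt_sq (by linarith)
  have hcos : Real.cos (alpha ds) = h := by
    rw [cos_alpha hds0, hcosh, hCh]
  refine ⟨ds, hds0, ?_, ?_, ?_, ?_, ?_⟩
  · -- 2π/7 < alpha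
    by_contra hcon
    push Not at hcon
    have h1 : alpha ds ≤ 2 * Real.pi / 7 := by linarith
    have h2 : Real.cos (2 * Real.pi / 7) ≤ Real.cos (alpha ds) :=
      Real.cos_le_cos_of_nonneg_of_le_pi (alpha_nonneg39 _) (by linarith [Real.pi_pos]) h1
    have h3 := Real.one_sub_sq_div_two_le_cos (x := 2 * Real.pi / 7)
    have h4 : Real.pi < 3.1416 := Real.pi_lt_d4
    have h5 := Real.pi_pos
    rw [hcos] at h2
    nlinarith
  · rw [exc_iff39 hds0, hcos]; exact hq
  · by_contra hcon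
    push Not at hcon
    have h1 : Real.cosh ds ≤ Real.cosh (7621 / 10000) :=
      Real.cosh_le_cosh.2 (by rw [abs_of_pos hds0, abs_of_pos (by norm_num)]; exact hcon)
    have h2 := cosh_le39 (x := 7621 / 10000) (by norm_num) (by norm_num)
    have h3 : C ≤ 13047284 / 10000000 := by
      rw [← hcosh]
      refine h1.trans (h2.trans ?_)
      norm_num [Finset.sum_range_succ, Nat.factorial]
    have h4 : h < 56610943 / 100000000 := by
      have : h * (C + 1) = C := by rw [← hCh]; field_simp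
      nlinarith
    have h5 := qq_mono39 hh0.le h4
    rw [hq] at h5
    unfold qq39 at h5
    norm_num at h5
  · by_contra hcon
    push Not at hcon
    have h1 : Real.cosh (7622 / 10000) ≤ Real.cosh ds :=
      Real.cosh_le_cosh.2 (by rw [abs_of_pos hds0, abs_of_pos (by norm_num)]; exact hcon)
    have h2 := le_cosh39 (x := 7622 / 10000) (by norm_num) (by norm_num)
    have h3 : 13048120 / 10000000 ≤ C := by
      rw [← hcosh]
      refine le_trans ?_ (h2.trans h1)
      norm_num [Finset.sum_range_succ, Nat.factorial]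
    have h4 : 56612500 / 100000000 < h := by
      have : h * (C + 1) = C := by rw [← hCh]; field_simp
      nlinarith
    have h5 := qq_mono39 (by norm_num) h4
    rw [hq] at h5
    unfold qq39 at h5
    norm_num at h5
  · intro d hd he
    rw [exc_iff39 hd] at he
    have h1 : Real.cos (alpha d) = h :=
      qq_inj39 (half_lt_cos39 hd).le hh0.le (by rw [he, hq])
    have hc := Penny39.cosh_gt_one hd
    have h2 : Real.cosh d = C := by
      rw [cos_alpha hd] at h1
      rw [hC, ← h1]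
      field_simp
      ring
    have h3 : Real.cosh d = Real.cosh ds := by rw [h2, hcosh]
    exact Real.cosh_injOn hd.le hds0.le h3

/-- the exceptional distance: exactly one `d > 0` with `cos (5 α) = 2 cos α - 1`, `2π/7 < α` -/
theorem exc_unique : ∃ ds : ℝ, 0 < ds ∧ 2 * Real.pi < 7 * alpha ds ∧
    Real.cos (5 * alpha ds) = 2 * Real.cos (alpha ds) - 1 ∧
    76 / 100 < ds ∧ ds < 77 / 100 ∧
    ∀ d : ℝ, 0 < d → 2 * Real.pi < 7 * alpha d →
      Real.cos (5 * alpha d) = 2 * Real.cos (alpha d) - 1 → d = ds := by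
  obtain ⟨ds, h0, h1, h2, h3, h4, h5⟩ := exc_unique39
  exact ⟨ds, h0, h1, h2, by linarith, by linarith, fun d hd _ he => h5 d hd he⟩

end

end Pool.Agent.PEN
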