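import Pool.Agent.P4.NumG52
import Pool.Agent.P4.X3b39

/-! # Numbers for inequality G at the exceptional distance (`10 ≤ n ≤ 160`) -/

set_option autoImplicit false

namespace Pool.Agent.PEN

noncomputable section

def lds_52 : List ℕ :=
  [107, 229, 381, 557, 753, 967, 1195, 1434, 1684, 1942, 2207, 2477, 2753, 3034, 3317, 3605,
    3894, 4187, 4481, 4778, 5076, 5375, 5676, 5978, 6281, 6585, 6890, 7195, 7502, 7809, 8117,
    8425, 8733, 9043, 9352, 9662, 9972, 10283, 10594, 10905, 11217, 11529, 11841, 12153, 12466,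
    12778, 13091, 13404, 13718, 14031, 14345, 14658, 14972, 15286, 15600, 15914, 16228, 16543,
    16857, 17172, 17487, 17801, 18116, 18431, 18746, 19061, 19376, 19691, 20007, 20322, 20637,
    20953, 21268, 21584, 21899, 22215, 22530, 22846, 23162, 23478, 23793, 24109, 24425, 24741,
    25057, 25373, 25689, 26005, 26321, 26637, 26953, 27269, 27586, 27902, 28218, 28534, 28851,
    29167, 29483, 29799, 30116, 30432, 30749, 31065, 31381, 31698, 32014, 32331, 32647, 32964,
    33280, 33597, 33914, 34230, 34547, 34863, 35180, 35497, 35813, 36130, 36447, 36763, 37080,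
    37397, 37713, 38030, 38347, 38663, 38980, 39297, 39614, 39931, 40247, 40564, 40881, 41198,
    41515, 41831, 42148, 42465, 42782, 43099, 43416, 43732, 44049, 44366, 44683, 45000, 45317,
    45634, 45951, 46268, 46585, 46902, 47219, 47535, 47852, 48169]

theorem tEds_52 : tstP52 (rl52 lds_52) (40000 - 4 * 4855) (2 * 4855) 161 = true := by decide +kernel

theorem tWds_52 : tstW52 (rl52 lds_52) 2345 9315591 161 = true := by decide +kernel

/-- `A3 ≥ x` if `cos α ≥ cos (π / 3 - x / 3)` -/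
theorem A3_ge_of52 {d x : ℝ} (h0 : 0 ≤ x) (h1 : x ≤ 3)
    (h : Real.cos (Real.pi / 3 - x / 3) ≤ Real.cos (alpha d)) : x ≤ A3 (alpha d) := by
  have hpi := Real.pi_gt_three
  have h2 := Real.arccos_le_arccos h
  rw [Real.arccos_cos (alpha_nonneg39 d) (alpha_le_pi39 d),
    Real.arccos_cos (by linarith) (by linarith)] at h2
  unfold A3
  linarith

theorem A3_le_of52 {d x : ℝ} (h0 : 0 ≤ x) (h1 : x ≤ 3)
    (h : Real.cos (alpha d) ≤ Real.cos (Real.pi / 3 - x / 3)) : A3 (alpha d) ≤ x := by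
  have hpi := Real.pi_gt_three
  have h2 := Real.arccos_le_arccos h
  rw [Real.arccos_cos (by linarith) (by linarith),
    Real.arccos_cos (alpha_nonneg39 d) (alpha_le_pi39 d)] at h2
  unfold A3
  linarith

theorem cos_third_ub52 {z : ℝ} (h0 : 0 ≤ z) (h1 : z ≤ 1) :
    Real.cos (Real.pi / 3 - z) ≤ (1 - z ^ 2 / 2 + z ^ 4 / 24) / 2 +
      17320509 / 20000000 * (z - z ^ 3 / 6 + z ^ 5 / 120) := by
  rw [Real.cos_sub, Real.cos_pi_div_three, Real.sin_pi_div_three]
  have h2 := cos_le52 h0 (by linarith)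
  have h3 := sin_le52 h0 (by linarith)
  have h4 : 0 ≤ Real.sin z := Real.sin_nonneg_of_nonneg_of_le_pi h0 (by linarith [Real.pi_gt_three])
  have h5 : √(3 : ℝ) ≤ 17320509 / 10000000 := by
    rw [Real.sqrt_le_left (by norm_num)]
    norm_num
  have h6 := mul_le_mul h5 h3 h4 (by norm_num)
  linarith

theorem cos_third_lb52 {z : ℝ} (h0 : 0 ≤ z) (h1 : z ≤ 1) :
    (1 - z ^ 2 / 2 + z ^ 4 / 24 - z ^ 6 / 720) / 2 + 17320508 / 20000000 * (z - z ^ 3 / 6) ≤
      Real.cos (Real.pi / 3 - z) := by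
  rw [Real.cos_sub, Real.cos_pi_div_three, Real.sin_pi_div_three]
  have h2 := cos_ge52 h0 (by linarith)
  have h3 := Real.sin_ge_sub_cube h0
  have h4 : 0 ≤ z - z ^ 3 / 6 := by nlinarith [mul_nonneg h0 (sq_nonneg z), sq_nonneg z]
  have h5 : 17320508 / 10000000 ≤ √(3 : ℝ) := by
    rw [Real.le_sqrt (by norm_num) (by norm_num)]
    norm_num
  have h6 := mul_le_mul h5 h3 h4 (by positivity)
  linarith

/-- the root of the quartic -/
theorem h_ds52 {d : ℝ} (hd : 0 < d) (hq : Real.cos (5 * alpha d) = 2 * Real.cos (alpha d) - 1) :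
    56612 / 100000 ≤ Real.cos (alpha d) ∧ Real.cos (alpha d) ≤ 566122 / 1000000 := by
  rw [exc_iff39 hd] at hq
  have hh := half_lt_cos39 hd
  constructor
  · by_contra hcon
    push Not at hcon
    have h5 := qq_mono39 hh.le hcon
    rw [hq] at h5
    unfold qq39 at h5
    norm_num at h5
  · by_contra hcon
    push Not at hcon
    have h5 := qq_mono39 (by norm_num) hcon
    rw [hq] at h5
    unfold qq39 at h5
    norm_num at h5

theorem A3_ds52 {d : ℝ} (hd : 0 < d) (hq : Real.cos (5 * alpha d) = 2 * Real.cos (alpha d) - 1) :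
    23457 / 100000 ≤ A3 (alpha d) ∧ A3 (alpha d) ≤ 23459 / 100000 := by
  obtain ⟨h1, h2⟩ := h_ds52 hd hq
  constructor
  · apply A3_ge_of52 (by norm_num) (by norm_num)
    refine (cos_third_ub52 (by norm_num) (by norm_num)).trans (le_trans ?_ h1)
    norm_num
  · apply A3_le_of52 (by norm_num) (by norm_num)
    refine le_trans (h2.trans ?_) (cos_third_lb52 (by norm_num) (by norm_num))
    norm_num

theorem GN_ds52 {d : ℝ} (hd : 0 < d)
    (hq : Real.cos (5 * alpha d) = 2 * Real.cos (alpha d) - 1) : GN52 d 161 := by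
  obtain ⟨h1, h2⟩ := A3_ds52 hd hq
  have hp := Real.pi_gt_d6
  exact GN_of52 hd (by norm_num) tEds_52 (by push_cast; linarith) fun b hb hbN =>
    Ust_le52 hd tWds_52 hb hbN (by norm_num) (by norm_num) (by norm_num) (by push_cast; linarith)

/-- **numbers of inequality G at the exceptional distance**, `10 ≤ n ≤ 160` -/
theorem G_ds52 {d : ℝ} (hd : 0 < d) (hq : Real.cos (5 * alpha d) = 2 * Real.cos (alpha d) - 1)
    {n b t I : ℕ} {A : ℝ} (hn : 10 ≤ n) (hn2 : n ≤ 160) (h1 : t + b ≤ 2 * n - 2)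
    (h2 : A3 (alpha d) * t ≤ A) (h3 : A ≤ Ust69 d b)
    (h4 : (7 * alpha d - 2 * Real.pi) * ((n : ℝ) - b) ≤
      alpha d * (2 * I) + (A - A3 (alpha d) * t)) :
    3 * t + b < 2 * Lb n + 2 + 2 * I := by
  rcases lt_or_ge b 3 with hb | hb
  · exact small_b52 hd hb hn h2 h3
  · exact GN_ds52 hd hq n b t I A hb hn (by omega) h1 h2 h3 h4

end

end Pool.Agent.PEN
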