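import Pool.Agent.PEN.F40

/-! # P4, row L: all vertices of the order 7 triangular tiling at once

A vertex of the tiling is a triple `(x, y, z)` of elements of `ℤ[λ]`, `λ = 2 cos (2π/7)`, and stands
for `x c₀ + y c₁ + z c₂` in the hyperboloid model, `c₀, c₁, c₂` a triangle of the tiling. Two
different such points have distance at least `d`, because `T(v,w) - (2 - λ) = 2 U` with
`U ∈ ℤ[λ]`, and the conjugates of `U` lie in `[-(2-λ'), 0]`. -/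

set_option autoImplicit false

namespace Pool.Agent.PEN

open Classical UpperHalfPlane

noncomputable section

/-! ### the ring `ℤ[λ]` -/

/-- `(a, b, c)` stands for `a + b λ + c λ²` -/
abbrev Z85 := ℤ × ℤ × ℤ

/-- the product in `ℤ[λ]`, `λ³ = -λ² + 2 λ + 1` -/
def mul85 (u v : Z85) : Z85 :=
  (u.1 * v.1 + (u.2.1 * v.2.2 + u.2.2 * v.2.1) - u.2.2 * v.2.2,
   u.1 * v.2.1 + u.2.1 * v.1 + 2 * (u.2.1 * v.2.2 + u.2.2 * v.2.1) - u.2.2 * v.2.2,
   u.1 * v.2.2 + u.2.1 * v.2.1 + u.2.2 * v.1 - (u.2.1 * v.2.2 + u.2.2 * v.2.1)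
     + 3 * (u.2.2 * v.2.2))

/-- evaluation at a root -/
def ev85 (l : ℝ) (u : Z85) : ℝ := u.1 + u.2.1 * l + u.2.2 * l ^ 2

/-- the cubic equation -/
def Rt85 (l : ℝ) : Prop := l ^ 3 + l ^ 2 - 2 * l - 1 = 0

theorem ev_mul85 {l : ℝ} (h : Rt85 l) (u v : Z85) : ev85 l (mul85 u v) = ev85 l u * ev85 l v := by
  unfold ev85 mul85
  unfold Rt85 at h
  push_cast
  linear_combination (-(u.2.1 * v.2.2 + u.2.2 * v.2.1 : ℝ) - (u.2.2 * v.2.2 : ℝ) * (l - 1)) * h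

theorem ev_add85 (l : ℝ) (u v : Z85) : ev85 l (u + v) = ev85 l u + ev85 l v := by
  unfold ev85
  simp only [Prod.fst_add, Prod.snd_add]
  push_cast
  ring

theorem ev_sub85 (l : ℝ) (u v : Z85) : ev85 l (u - v) = ev85 l u - ev85 l v := by
  unfold ev85
  simp only [Prod.fst_sub, Prod.snd_sub]
  push_cast
  ring

/-! ### vectors and the form -/

/-- `(x, y, z)` stands for `x c₀ + y c₁ + z c₂` -/
abbrev W85 := Z85 × Z85 × Z85

/-- the bilinear form `T(v,w) = (2 - λ) cosh dist` -/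
def T85 (v w : W85) : Z85 :=
  mul85 (2, -1, 0) (mul85 v.1 w.1 + mul85 v.2.1 w.2.1 + mul85 v.2.2 w.2.2) +
  mul85 (0, 1, 0) (mul85 v.1 w.2.1 + mul85 v.2.1 w.1 + mul85 v.2.1 w.2.2 + mul85 v.2.2 w.2.1
    + mul85 v.2.2 w.1 + mul85 v.1 w.2.2)

/-- the form over the reals -/
def TR85 (l : ℝ) (a b c a' b' c' : ℝ) : ℝ :=
  (2 - l) * (a * a' + b * b' + c * c') + l * (a * b' + b * a' + b * c' + c * b' + c * a' + a * c')

theorem ev_T85 {l : ℝ} (h : Rt85 l) (v w : W85) : ev85 l (T85 v w) =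
    TR85 l (ev85 l v.1) (ev85 l v.2.1) (ev85 l v.2.2) (ev85 l w.1) (ev85 l w.2.1)
      (ev85 l w.2.2) := by
  unfold T85 TR85
  simp only [ev_add85, ev_mul85 h]
  have e1 : ev85 l (2, -1, 0) = 2 - l := by
    unfold ev85; push_cast; ring
  have e2 : ev85 l (0, 1, 0) = l := by
    unfold ev85; push_cast; ring
  rw [e1, e2]

/-- a vertex: norm `2 - λ` and odd sum -/
def Good85 (v : W85) : Prop := T85 v v = (2, -1, 0) ∧
  (v.1.1 + v.2.1.1 + v.2.2.1) % 2 = 1 ∧ (v.1.2.1 + v.2.1.2.1 + v.2.2.2.1) % 2 = 0 ∧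
  (v.1.2.2 + v.2.1.2.2 + v.2.2.2.2) % 2 = 0

instance (v : W85) : Decidable (Good85 v) := by
  unfold Good85
  infer_instance

/-! ### the three roots -/

theorem rt_kap85 : Rt85 kap40 := kap_cubic

theorem kap_lo85 : (12469 / 10000 : ℝ) < kap40 := by
  have h := kap_cubic
  have h1 := kap_one_lt
  by_contra h2
  push Not at h2
  nlinarith [mul_nonneg (sub_nonneg.2 h2) (sub_nonneg.2 h1.le),
    mul_nonneg (sub_nonneg.2 h2) (sq_nonneg (kap40 + 1))]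

theorem kap_hi85 : kap40 < (12470 / 10000 : ℝ) := by
  have h := kap_cubic
  have h1 := kap_one_lt
  by_contra h2
  push Not at h2
  nlinarith [mul_nonneg (sub_nonneg.2 h2) (sub_nonneg.2 h1.le),
    mul_nonneg (sub_nonneg.2 h2) (sq_nonneg (kap40 + 1))]

/-- the second root -/
def l2_85 : ℝ := kap40 ^ 2 - 2

/-- the third root -/
def l3_85 : ℝ := 1 - kap40 - kap40 ^ 2

theorem rt_l2 : Rt85 l2_85 := by
  have h := kap_cubic
  unfold Rt85 l2_85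
  linear_combination (kap40 ^ 3 - kap40 ^ 2 - 2 * kap40 + 1) * h

theorem rt_l3 : Rt85 l3_85 := by
  have h := kap_cubic
  unfold Rt85 l3_85
  linear_combination (-kap40 ^ 3 - 2 * kap40 ^ 2 + kap40 + 1) * h

theorem l2_neg85 : l2_85 < 0 ∧ -1 < l2_85 := by
  have h1 := kap_lo85
  have h2 := kap_hi85
  unfold l2_85
  constructor <;> nlinarith

theorem l3_neg85 : l3_85 < -1 ∧ -2 < l3_85 := by
  have h1 := kap_lo85
  have h2 := kap_hi85
  unfold l3_85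
  constructor <;> nlinarith

/-! ### irreducibility -/

/-- the norm form -/
def N85 (a b c : ℤ) : ℤ :=
  a ^ 3 + b ^ 3 + c ^ 3 - a ^ 2 * b + 5 * a ^ 2 * c - 2 * a * b ^ 2 + 6 * a * c ^ 2 - a * b * c
      - b ^ 2 * c - 2 * b * c ^ 2

theorem N_even85 {a b c : ℤ} (h : N85 a b c = 0) :
    (2 : ℤ) ∣ a ∧ (2 : ℤ) ∣ b ∧ (2 : ℤ) ∣ c := by
  have key : ∀ x y z : ZMod 2, x ^ 3 + y ^ 3 + z ^ 3 - x ^ 2 * y + 5 * x ^ 2 * z - 2 * x * y ^ 2
      + 6 * x * z ^ 2 - x * y * z - y ^ 2 * z - 2 * y * z ^ 2 = 0 → x = 0 ∧ y = 0 ∧ z = 0 := by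
    decide
  have h1 : ((N85 a b c : ℤ) : ZMod 2) = 0 := by rw [h]; simp
  unfold N85 at h1
  push_cast at h1
  obtain ⟨h2, h3, h4⟩ := key _ _ _ h1
  exact ⟨(ZMod.intCast_zmod_eq_zero_iff_dvd a 2).1 h2, (ZMod.intCast_zmod_eq_zero_iff_dvd b 2).1 h3,
    (ZMod.intCast_zmod_eq_zero_iff_dvd c 2).1 h4⟩

theorem irr_aux85 (n : ℕ) : ∀ a b c : ℤ, a.natAbs + b.natAbs + c.natAbs ≤ n →
    N85 a b c = 0 → a = 0 ∧ b = 0 ∧ c = 0 := by
  induction n with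
  | zero =>
    intro a b c h _
    omega
  | succ n ih =>
    intro a b c h h0
    obtain ⟨⟨x, rfl⟩, ⟨y, rfl⟩, ⟨z, rfl⟩⟩ := N_even85 h0
    have h1 : N85 x y z = 0 := by
      unfold N85 at h0 ⊢
      linarith
    by_cases h2 : x.natAbs + y.natAbs + z.natAbs ≤ n
    · obtain ⟨h3, h4, h5⟩ := ih x y z h2 h1
      subst h3 h4 h5
      simp
    · omega

theorem ev_zero85 {l : ℝ} (h : Rt85 l) {u : Z85} (h0 : ev85 l u = 0) : u = (0, 0, 0) := by
  obtain ⟨a, b, c⟩ := u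
  have h1 : mul85 (a, b, c) (mul85 (a - 2 * b + 3 * c, -c, b - c) (a + b + 2 * c, -b + c, -b))
      = (N85 a b c, 0, 0) := by
    unfold mul85 N85
    ext <;> simp <;> ring
  have h2 := ev_mul85 h (a, b, c)
    (mul85 (a - 2 * b + 3 * c, -c, b - c) (a + b + 2 * c, -b + c, -b))
  rw [h1, h0, zero_mul] at h2
  have h3 : N85 a b c = 0 := by
    unfold ev85 at h2
    push_cast at h2
    have : ((N85 a b c : ℤ) : ℝ) = 0 := by linarith
    exact_mod_cast this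
  obtain ⟨h4, h5, h6⟩ := irr_aux85 _ a b c (le_refl _) h3
  subst h4 h5 h6
  rfl

/-! ### the conjugate forms are positive definite -/

theorem TR_pos85 {l : ℝ} (h1 : l < 0) (h2 : -2 < l) (a b c : ℝ) :
    0 ≤ TR85 l a b c a b c := by
  have e : TR85 l a b c a b c = (2 - 2 * l) / 3 * ((a - b) ^ 2 + (b - c) ^ 2 + (c - a) ^ 2)
      + (2 + l) / 3 * (a + b + c) ^ 2 := by
    unfold TR85; ring
  rw [e]
  have h3 : 0 ≤ (2 - 2 * l) / 3 := by linarith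
  have h4 : 0 ≤ (2 + l) / 3 := by linarith
  positivity

theorem TR_zero85 {l : ℝ} (h1 : l < 0) (h2 : -2 < l) {a b c : ℝ}
    (h : TR85 l a b c a b c = 0) : a = 0 ∧ b = 0 ∧ c = 0 := by
  have e : TR85 l a b c a b c = (2 - 2 * l) / 3 * ((a - b) ^ 2 + (b - c) ^ 2 + (c - a) ^ 2)
      + (2 + l) / 3 * (a + b + c) ^ 2 := by
    unfold TR85; ring
  rw [e] at h
  have h3 : 0 < (2 - 2 * l) / 3 := by linarith
  have h4 : 0 < (2 + l) / 3 := by linarith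
  have h5 : 0 ≤ (a - b) ^ 2 + (b - c) ^ 2 + (c - a) ^ 2 := by positivity
  have h6 : 0 ≤ (a + b + c) ^ 2 := sq_nonneg _
  have h7 : (a + b + c) ^ 2 = 0 := by nlinarith [mul_nonneg h3.le h5, mul_nonneg h4.le h6]
  have h8 : (a - b) ^ 2 + (b - c) ^ 2 + (c - a) ^ 2 = 0 := by
    nlinarith [mul_nonneg h3.le h5, mul_nonneg h4.le h6]
  have h9 : a + b + c = 0 := by simpa using h7
  have h10 : a - b = 0 := by
    have : (a - b) ^ 2 = 0 := by nlinarith [sq_nonneg (a - b), sq_nonneg (b - c), sq_nonneg (c - a)]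
    simpa using this
  have h11 : b - c = 0 := by
    have : (b - c) ^ 2 = 0 := by nlinarith [sq_nonneg (a - b), sq_nonneg (b - c), sq_nonneg (c - a)]
    simpa using this
  refine ⟨by linarith, by linarith, by linarith⟩

theorem TR_sub85 (l : ℝ) (a b c a' b' c' : ℝ) :
    TR85 l (a - a') (b - b') (c - c') (a - a') (b - b') (c - c') =
      TR85 l a b c a b c + TR85 l a' b' c' a' b' c' - 2 * TR85 l a b c a' b' c' := by
  unfold TR85; ring

theorem TR_add85 (l : ℝ) (a b c a' b' c' : ℝ) :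
    TR85 l (a + a') (b + b') (c + c') (a + a') (b + b') (c + c') =
      TR85 l a b c a b c + TR85 l a' b' c' a' b' c' + 2 * TR85 l a b c a' b' c' := by
  unfold TR85; ring

/-- Cauchy-Schwarz for the conjugate forms -/
theorem T_bd85 {l : ℝ} (h : Rt85 l) (h1 : l < 0) (h2 : -2 < l) {v w : W85} (hv : Good85 v)
    (hw : Good85 w) : -(2 - l) ≤ ev85 l (T85 v w) ∧ ev85 l (T85 v w) ≤ 2 - l := by
  have e : ev85 l (2, -1, 0) = 2 - l := by
    unfold ev85; push_cast; ring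
  have hv' := ev_T85 h v v
  have hw' := ev_T85 h w w
  rw [hv.1, e] at hv'
  rw [hw.1, e] at hw'
  rw [ev_T85 h v w]
  have p1 := TR_pos85 h1 h2 (ev85 l v.1 - ev85 l w.1) (ev85 l v.2.1 - ev85 l w.2.1)
    (ev85 l v.2.2 - ev85 l w.2.2)
  have p2 := TR_pos85 h1 h2 (ev85 l v.1 + ev85 l w.1) (ev85 l v.2.1 + ev85 l w.2.1)
    (ev85 l v.2.2 + ev85 l w.2.2)
  rw [TR_sub85] at p1
  rw [TR_add85] at p2
  constructor <;> linarith

/-- the conjugate form separates the vertices -/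
theorem T_eq85 {l : ℝ} (h : Rt85 l) (h1 : l < 0) (h2 : -2 < l) {v w : W85} (hv : Good85 v)
    (hw : Good85 w) (h0 : T85 v w = (2, -1, 0)) : v = w := by
  have e : ev85 l (2, -1, 0) = 2 - l := by
    unfold ev85; push_cast; ring
  have hv' := ev_T85 h v v
  have hw' := ev_T85 h w w
  have hvw := ev_T85 h v w
  rw [hv.1, e] at hv'
  rw [hw.1, e] at hw'
  rw [h0, e] at hvw
  have p1 := TR_sub85 l (ev85 l v.1) (ev85 l v.2.1) (ev85 l v.2.2) (ev85 l w.1) (ev85 l w.2.1)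
    (ev85 l w.2.2)
  rw [← hv', ← hw', ← hvw] at p1
  obtain ⟨q1, q2, q3⟩ := TR_zero85 h1 h2 (by linarith : TR85 l (ev85 l v.1 - ev85 l w.1)
    (ev85 l v.2.1 - ev85 l w.2.1) (ev85 l v.2.2 - ev85 l w.2.2) (ev85 l v.1 - ev85 l w.1)
    (ev85 l v.2.1 - ev85 l w.2.1) (ev85 l v.2.2 - ev85 l w.2.2) = 0)
  rw [← ev_sub85] at q1 q2 q3
  have r1 := sub_eq_zero.1 (ev_zero85 h q1)
  have r2 := sub_eq_zero.1 (ev_zero85 h q2)
  have r3 := sub_eq_zero.1 (ev_zero85 h q3)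
  exact Prod.ext r1 (Prod.ext r2 r3)

/-! ### parity -/

/-- `T(v,w) - (2 - λ)` is twice an element of `ℤ[λ]` -/
theorem T_par85 {v w : W85} (hv : Good85 v) (hw : Good85 w) :
    ∃ u : Z85, T85 v w - (2, -1, 0) = u + u := by
  obtain ⟨⟨a1, a2, a3⟩, ⟨b1, b2, b3⟩, ⟨c1, c2, c3⟩⟩ := v
  obtain ⟨⟨x1, x2, x3⟩, ⟨y1, y2, y3⟩, ⟨z1, z2, z3⟩⟩ := w
  obtain ⟨-, p1, p2, p3⟩ := hv
  obtain ⟨-, q1, q2, q3⟩ := hw
  simp only at p1 p2 p3 q1 q2 q3
  obtain ⟨s1, hs1⟩ : ∃ s, a1 + b1 + c1 = 2 * s + 1 := ⟨(a1 + b1 + c1) / 2, by omega⟩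
  obtain ⟨s2, hs2⟩ : ∃ s, a2 + b2 + c2 = 2 * s := ⟨(a2 + b2 + c2) / 2, by omega⟩
  obtain ⟨s3, hs3⟩ : ∃ s, a3 + b3 + c3 = 2 * s := ⟨(a3 + b3 + c3) / 2, by omega⟩
  obtain ⟨t1, ht1⟩ : ∃ s, x1 + y1 + z1 = 2 * s + 1 := ⟨(x1 + y1 + z1) / 2, by omega⟩
  obtain ⟨t2, ht2⟩ : ∃ s, x2 + y2 + z2 = 2 * s := ⟨(x2 + y2 + z2) / 2, by omega⟩
  obtain ⟨t3, ht3⟩ : ∃ s, x3 + y3 + z3 = 2 * s := ⟨(x3 + y3 + z3) / 2, by omega⟩
  have e1 : c1 = 2 * s1 + 1 - a1 - b1 := by linarith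
  have e2 : c2 = 2 * s2 - a2 - b2 := by linarith
  have e3 : c3 = 2 * s3 - a3 - b3 := by linarith
  have f1 : z1 = 2 * t1 + 1 - x1 - y1 := by linarith
  have f2 : z2 = 2 * t2 - x2 - y2 := by linarith
  have f3 : z3 = 2 * t3 - x3 - y3 := by linarith
  subst e1 e2 e3 f1 f2 f3
  refine ⟨(-1, 1, 0) + mul85 (0, 1, 0) ((s1, s2, s3) + (t1, t2, t3)
    + mul85 (2, 0, 0) (mul85 (s1, s2, s3) (t1, t2, t3)))
    + mul85 (1, -1, 0) (mul85 (a1, a2, a3) (x1, x2, x3) + mul85 (b1, b2, b3) (y1, y2, y3)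
      + mul85 (2 * s1 + 1 - a1 - b1, 2 * s2 - a2 - b2, 2 * s3 - a3 - b3)
        (2 * t1 + 1 - x1 - y1, 2 * t2 - x2 - y2, 2 * t3 - x3 - y3)), ?_⟩
  unfold T85 mul85
  ext <;> simp only [Prod.mk_add_mk, Prod.mk_sub_mk] <;> ring

/-! ### the enumeration -/

theorem prod_bd85 {x y X Y : ℝ} (h1 : 0 ≤ x) (h2 : x ≤ X) (h3 : 0 ≤ y) (h4 : y ≤ Y) :
    0 ≤ x * y ∧ x * y ≤ X * Y :=
  ⟨mul_nonneg h1 h3, mul_le_mul h2 h4 h3 (le_trans h1 h2)⟩

theorem enum_a85 {t a b c U1 U2 U3 : ℝ} (hk : t ^ 3 + t ^ 2 - 2 * t - 1 = 0)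
    (hU1 : U1 = a + b * t + c * t ^ 2) (hU2 : U2 = a + b * (t ^ 2 - 2) + c * (t ^ 2 - 2) ^ 2)
    (hU3 : U3 = a + b * (1 - t - t ^ 2) + c * (1 - t - t ^ 2) ^ 2) :
    7 * a = (7 - t - 3 * t ^ 2) * U1 + (7 - (t ^ 2 - 2) - 3 * (t ^ 2 - 2) ^ 2) * U2
      + (7 - (1 - t - t ^ 2) - 3 * (1 - t - t ^ 2) ^ 2) * U3 ∧
    7 * b = (t ^ 2 + 2 * t - 1) * U1 + ((t ^ 2 - 2) ^ 2 + 2 * (t ^ 2 - 2) - 1) * U2
      + ((1 - t - t ^ 2) ^ 2 + 2 * (1 - t - t ^ 2) - 1) * U3 ∧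
    7 * c = (2 * t ^ 2 + t - 3) * U1 + (2 * (t ^ 2 - 2) ^ 2 + (t ^ 2 - 2) - 3) * U2
      + (2 * (1 - t - t ^ 2) ^ 2 + (1 - t - t ^ 2) - 3) * U3 := by
  subst hU1 hU2 hU3
  refine ⟨?_, ?_, ?_⟩
  · linear_combination (-(a * (-6 * t) + b * (-9 + 7 * t + 9 * t ^ 2)
      + c * (9 - 19 * t - 3 * t ^ 2 + 12 * t ^ 3 - 6 * t ^ 4 - 6 * t ^ 5))) * hk
  · linear_combination (-(a * (2 * t) + b * (3 + t - 3 * t ^ 2)
      + c * (2 + 4 * t - 4 * t ^ 2 - 4 * t ^ 3 + 2 * t ^ 4 + 2 * t ^ 5))) * hk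
  · linear_combination (-(a * (4 * t) + b * (6 - 4 * t - 6 * t ^ 2)
      + c * (-5 + 15 * t + t ^ 2 - 8 * t ^ 3 + 4 * t ^ 4 + 4 * t ^ 5))) * hk

theorem enum_c85 {a b c A1 A2 A3 B1 B2 B3 C1 C2 C3 U1 U2 U3 : ℝ}
    (ea : 7 * a = A1 * U1 + A2 * U2 + A3 * U3) (eb : 7 * b = B1 * U1 + B2 * U2 + B3 * U3)
    (ec : 7 * c = C1 * U1 + C2 * U2 + C3 * U3)
    (hA1 : 0 ≤ A1 ∧ A1 ≤ 11 / 10) (hA2 : 0 ≤ A2 ∧ A2 ≤ 686 / 100)
    (hA3 : 0 ≤ -A3 ∧ -A3 ≤ 95 / 100) (hB1 : 0 < B1 ∧ B1 ≤ 306 / 100)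
    (hB2 : 0 ≤ -B2 ∧ -B2 ≤ 17 / 10) (hB3 : 0 ≤ -B3 ∧ -B3 ≤ 137 / 100)
    (hC1 : 0 ≤ C1 ∧ C1 ≤ 136 / 100) (hC2 : 0 ≤ -C2 ∧ -C2 ≤ 306 / 100)
    (hC3 : 0 ≤ C3 ∧ C3 ≤ 170 / 100)
    (h1 : 0 < U1) (w1 : U1 ≤ 2470 / 10000) (h2 : U2 ≤ 0) (w2 : -U2 ≤ 24453 / 10000) (h3 : U3 ≤ 0)
    (w3 : -U3 ≤ 38021 / 10000) :
    (-3 < a ∧ a < 1) ∧ (0 < b ∧ b < 2) ∧ (-1 < c ∧ c < 2) := by
  have a1 := prod_bd85 hA1.1 hA1.2 h1.le w1
  have a2 := prod_bd85 hA2.1 hA2.2 (neg_nonneg.2 h2) w2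
  have a3 := prod_bd85 hA3.1 hA3.2 (neg_nonneg.2 h3) w3
  have b1 := prod_bd85 hB1.1.le hB1.2 h1.le w1
  have b1' : 0 < B1 * U1 := mul_pos hB1.1 h1
  have b2 := prod_bd85 hB2.1 hB2.2 (neg_nonneg.2 h2) w2
  have b3 := prod_bd85 hB3.1 hB3.2 (neg_nonneg.2 h3) w3
  have c1 := prod_bd85 hC1.1 hC1.2 h1.le w1
  have c2 := prod_bd85 hC2.1 hC2.2 (neg_nonneg.2 h2) w2
  have c3 := prod_bd85 hC3.1 hC3.2 (neg_nonneg.2 h3) w3
  refine ⟨⟨?_, ?_⟩, ⟨?_, ?_⟩, ⟨?_, ?_⟩⟩ <;> linarith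

theorem enum_b85 {t : ℝ} (k1 : (12469 / 10000 : ℝ) < t) (k2 : t < 12470 / 10000) {a b c : ℤ}
    {U1 U2 U3 : ℝ} (hk : t ^ 3 + t ^ 2 - 2 * t - 1 = 0)
    (hU1 : U1 = a + b * t + c * t ^ 2) (hU2 : U2 = a + b * (t ^ 2 - 2) + c * (t ^ 2 - 2) ^ 2)
    (hU3 : U3 = a + b * (1 - t - t ^ 2) + c * (1 - t - t ^ 2) ^ 2)
    (h1 : 0 < U1) (h4 : U1 < t - 1) (h2 : U2 ≤ 0) (h2' : -(4 - t ^ 2) ≤ U2) (h3 : U3 ≤ 0)
    (h3' : -(1 + t + t ^ 2) ≤ U3) : False := by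
  obtain ⟨ea, eb, ec⟩ := enum_a85 hk hU1 hU2 hU3
  have s1 : (15547 / 10000 : ℝ) < t ^ 2 := by nlinarith
  have s2 : t ^ 2 < 15551 / 10000 := by nlinarith
  have q1 : (t ^ 2 - 2) ^ 2 < 1984 / 10000 := by nlinarith
  have q2 : (1979 / 10000 : ℝ) < (t ^ 2 - 2) ^ 2 := by nlinarith
  have q3 : (1 - t - t ^ 2) ^ 2 < 32480 / 10000 := by nlinarith
  have q4 : (32455 / 10000 : ℝ) < (1 - t - t ^ 2) ^ 2 := by nlinarith
  obtain ⟨⟨ha0, ha1⟩, ⟨hb0, hb1⟩, ⟨hc0, hc1⟩⟩ := enum_c85 ea eb ec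
    ⟨by linarith, by linarith⟩ ⟨by linarith, by linarith⟩ ⟨by linarith, by linarith⟩
    ⟨by linarith, by linarith⟩ ⟨by linarith, by linarith⟩ ⟨by linarith, by linarith⟩
    ⟨by linarith, by linarith⟩ ⟨by linarith, by linarith⟩ ⟨by linarith, by linarith⟩
    h1 (by linarith) h2 (by linarith) h3 (by linarith)
  have hb0' : 0 < b := by exact_mod_cast hb0
  have hb1' : b < 2 := by exact_mod_cast hb1
  have hc0' : -1 < c := by exact_mod_cast hc0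
  have hc1' : c < 2 := by exact_mod_cast hc1
  have ha0' : -3 < a := by exact_mod_cast ha0
  have ha1' : a < 1 := by exact_mod_cast ha1
  have hb : b = 1 := by omega
  have hc : c = 0 ∨ c = 1 := by omega
  have ha : a = -2 ∨ a = -1 ∨ a = 0 := by omega
  clear ea eb ec q1 q2 q3 q4 hU2 hU3 hb0 hb1 hc0 hc1 ha0 ha1 h2 h2' h3 h3' hk
  rcases hc with rfl | rfl <;> rcases ha with rfl | rfl | rfl <;> rw [hb] at hU1 <;>
    push_cast at hU1 <;> linarith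

theorem enum85 {u : Z85} (h1 : 0 < ev85 kap40 u) (h2 : ev85 l2_85 u ≤ 0)
    (h2' : -(2 - l2_85) ≤ ev85 l2_85 u) (h3 : ev85 l3_85 u ≤ 0)
    (h3' : -(2 - l3_85) ≤ ev85 l3_85 u) : kap40 - 1 ≤ ev85 kap40 u := by
  by_contra h4
  push Not at h4
  obtain ⟨a, b, c⟩ := u
  exact enum_b85 kap_lo85 kap_hi85 (a := a) (b := b) (c := c) kap_cubic rfl rfl rfl h1 h4 h2
    (by have h := h2'; unfold ev85 l2_85 at h; simp only at h; linarith) h3
    (by have h := h3'; unfold ev85 l3_85 at h; simp only at h; linarith)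

/-! ### the points -/

/-- `e^ℓ`, `ℓ` = half the translation length of the strip -/
def r85 : ℝ := Real.exp ell40

def s85 : ℝ := Real.exp (-ell40)

theorem rs85 : r85 * s85 = 1 := by
  unfold r85 s85
  rw [← Real.exp_add, add_neg_cancel, Real.exp_zero]

theorem r_add_s85 : r85 + s85 = 1 + kap40 := by
  have h := cosh_ell40
  rw [Real.cosh_eq] at h
  unfold r85 s85
  linarith

/-- the coordinates of a vector -/
def WX85 (v : W85) : ℝ := ss40 * (ev85 kap40 v.1 - ev85 kap40 v.2.1 + ev85 kap40 v.2.2)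

/-- the horocyclic coordinate -/
def phi85 (v : W85) : ℝ :=
  ev85 kap40 v.1 + r85 * ev85 kap40 v.2.1 + r85 ^ 2 * ev85 kap40 v.2.2

def psi85 (v : W85) : ℝ :=
  ev85 kap40 v.1 + s85 * ev85 kap40 v.2.1 + s85 ^ 2 * ev85 kap40 v.2.2

theorem form85 (v w : W85) :
    (cc40 * psi85 v * (cc40 * phi85 w) + cc40 * psi85 w * (cc40 * phi85 v)) / 2
      - WX85 v * WX85 w = ev85 kap40 (T85 v w) / (2 - kap40) := by
  have hk2 := kap_lt_two
  have h2 : (2 - kap40) ≠ 0 := by linarith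
  have hrs := rs85
  have hrs' := r_add_s85
  rw [ev_T85 rt_kap85, eq_div_iff h2]
  unfold WX85 phi85 psi85 TR85
  have hP := cc_sq40
  have hQ := ss_sq40
  have hd := den_pos40
  have hPQ : cc40 ^ 2 - ss40 ^ 2 = 1 := by
    rw [hP, hQ]
    rw [← sub_div, div_eq_one_iff_eq hd.ne']
    unfold den40
    ring
  have h1 : (cc40 ^ 2 * (r85 + s85) / 2 + ss40 ^ 2) * (2 - kap40) = kap40 := by
    rw [hP, hQ, hrs']
    field_simp
    unfold den40
    ring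
  have h3 : (cc40 ^ 2 * (r85 ^ 2 + s85 ^ 2) / 2 - ss40 ^ 2) * (2 - kap40) = kap40 := by
    have e : r85 ^ 2 + s85 ^ 2 = (1 + kap40) ^ 2 - 2 := by
      rw [← hrs']
      linear_combination (-2 : ℝ) * hrs
    rw [hP, hQ, e]
    field_simp
    unfold den40
    ring
  generalize ev85 kap40 v.1 = x
  generalize ev85 kap40 v.2.1 = y
  generalize ev85 kap40 v.2.2 = z
  generalize ev85 kap40 w.1 = x'
  generalize ev85 kap40 w.2.1 = y'
  generalize ev85 kap40 w.2.2 = z'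
  generalize r85 = r at *
  generalize s85 = s at *
  generalize cc40 = C at *
  generalize ss40 = S at *
  generalize kap40 = k at *
  have hrs2 : r ^ 2 * s ^ 2 = 1 := by
    have : (r * s) ^ 2 = 1 := by rw [hrs]; ring
    linarith [mul_pow r s 2]
  linear_combination (2 - k) * (x * x' + y * y' + z * z') * hPQ + (2 - k) * y * y' * C ^ 2 * hrs
    + (2 - k) * z * z' * C ^ 2 * hrs2 + (x * y' + y * x' + y * z' + z * y') * h1
    + (x * z' + z * x') * h3 + (y * z' + z * y') * (2 - k) * C ^ 2 * (r + s) / 2 * hrs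

/-- the point of a vector -/
def pt85 (v : W85) (h : 0 < phi85 v) : ℍ :=
  ⟨⟨WX85 v / (cc40 * phi85 v), 1 / (cc40 * phi85 v)⟩,
    div_pos one_pos (mul_pos cc_pos40 h)⟩

theorem cosh_aux85 {X Z X' Z' : ℝ} (hZ : 0 < Z) (hZ' : 0 < Z') :
    Real.cosh (dist (⟨⟨X / Z, 1 / Z⟩, div_pos one_pos hZ⟩ : ℍ)
      (⟨⟨X' / Z', 1 / Z'⟩, div_pos one_pos hZ'⟩ : ℍ)) =
      ((X ^ 2 + 1) / Z * Z' + (X' ^ 2 + 1) / Z' * Z) / 2 - X * X' := by
  rw [UpperHalfPlane.cosh_dist, Complex.dist_eq, Complex.sq_norm, Complex.normSq_apply]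
  have e1 : ((((⟨⟨X / Z, 1 / Z⟩, div_pos one_pos hZ⟩ : ℍ) : ℂ)
      - ((⟨⟨X' / Z', 1 / Z'⟩, div_pos one_pos hZ'⟩ : ℍ) : ℂ))).re = X / Z - X' / Z' := by
    simp
  have e2 : ((((⟨⟨X / Z, 1 / Z⟩, div_pos one_pos hZ⟩ : ℍ) : ℂ)
      - ((⟨⟨X' / Z', 1 / Z'⟩, div_pos one_pos hZ'⟩ : ℍ) : ℂ))).im = 1 / Z - 1 / Z' := by
    simp
  have e3 : (⟨⟨X / Z, 1 / Z⟩, div_pos one_pos hZ⟩ : ℍ).im = 1 / Z := rfl
  have e4 : (⟨⟨X' / Z', 1 / Z'⟩, div_pos one_pos hZ'⟩ : ℍ).im = 1 / Z' := rfl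
  rw [e1, e2, e3, e4]
  field_simp
  ring

theorem ev_two85 : ev85 kap40 (2, -1, 0) = 2 - kap40 := by
  unfold ev85; push_cast; ring

/-- the distance of two vertices -/
theorem cosh_pt85 {v w : W85} (hv : Good85 v) (hw : Good85 w) (h1 : 0 < phi85 v)
    (h2 : 0 < phi85 w) :
    Real.cosh (dist (pt85 v h1) (pt85 w h2)) = ev85 kap40 (T85 v w) / (2 - kap40) := by
  have hk2 := kap_lt_two
  have h3 : (2 - kap40) ≠ 0 := by linarith
  have f1 := form85 v v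
  have f2 := form85 w w
  rw [hv.1, ev_two85, div_self h3] at f1
  rw [hw.1, ev_two85, div_self h3] at f2
  have z1 := mul_pos cc_pos40 h1
  have z2 := mul_pos cc_pos40 h2
  rw [← form85 v w]
  unfold pt85
  rw [cosh_aux85 z1 z2]
  have g1 : (WX85 v ^ 2 + 1) / (cc40 * phi85 v) = cc40 * psi85 v := by
    rw [div_eq_iff z1.ne']
    linarith
  have g2 : (WX85 w ^ 2 + 1) / (cc40 * phi85 w) = cc40 * psi85 w := by
    rw [div_eq_iff z2.ne']
    linarith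
  rw [g1, g2]

/-- two different vertices have distance at least `d` -/
theorem sep_pt85 {d : ℝ} (hd : 0 < d) (ha : alpha d = 2 * Real.pi / 7) {v w : W85}
    (hv : Good85 v) (hw : Good85 w) (h1 : 0 < phi85 v) (h2 : 0 < phi85 w) (hne : v ≠ w) :
    d ≤ dist (pt85 v h1) (pt85 w h2) := by
  have hk2 := kap_lt_two
  have hk1 := kap_one_lt
  have h3 : 0 < 2 - kap40 := by linarith
  obtain ⟨u, hu⟩ := T_par85 hv hw
  have hc := cosh_pt85 hv hw h1 h2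
  have hc1 := Real.one_le_cosh (dist (pt85 v h1) (pt85 w h2))
  rw [hc, le_div_iff₀ h3] at hc1
  have key : ∀ l : ℝ, ev85 l (T85 v w) = ev85 l (2, -1, 0) + 2 * ev85 l u := by
    intro l
    have := congrArg (ev85 l) hu
    rw [ev_sub85, ev_add85] at this
    linarith
  have e : ∀ l : ℝ, ev85 l (2, -1, 0) = 2 - l := by
    intro l
    unfold ev85; push_cast; ring
  have hu0 : 0 ≤ ev85 kap40 u := by
    have := key kap40
    rw [e] at this
    linarith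
  obtain ⟨m1, m2⟩ := l2_neg85
  obtain ⟨n1, n2⟩ := l3_neg85
  have b2 := T_bd85 rt_l2 m1 (by linarith) hv hw
  have b3 := T_bd85 rt_l3 (by linarith) n2 hv hw
  have k2 := key l2_85
  have k3 := key l3_85
  rw [e] at k2 k3
  have hu1 : 0 < ev85 kap40 u := by
    rcases hu0.lt_or_eq with h | h
    · exact h
    · exfalso
      have hz := ev_zero85 rt_kap85 h.symm
      rw [hz] at hu
      have : T85 v w = (2, -1, 0) := by
        have h5 := sub_eq_iff_eq_add.1 hu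
        rw [h5]
        decide
      exact hne (T_eq85 rt_l2 m1 (by linarith) hv hw this)
  have h6 := enum85 hu1 (by linarith) (by linarith) (by linarith) (by linarith)
  have hD := cosh_d40 hd ha
  have h7 : Real.cosh d ≤ Real.cosh (dist (pt85 v h1) (pt85 w h2)) := by
    rw [hD, hc, div_le_div_iff_of_pos_right h3, key, e]
    linarith
  rw [Real.cosh_le_cosh, abs_of_pos hd, abs_of_nonneg dist_nonneg] at h7
  exact h7

/-- contacts -/
theorem con_pt85 {d : ℝ} (hd : 0 < d) (ha : alpha d = 2 * Real.pi / 7) {v w : W85}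
    (hv : Good85 v) (hw : Good85 w) (h1 : 0 < phi85 v) (h2 : 0 < phi85 w)
    (h : T85 v w = (0, 1, 0)) : dist (pt85 v h1) (pt85 w h2) = d := by
  have hD := cosh_d40 hd ha
  have hc := cosh_pt85 hv hw h1 h2
  have e : ev85 kap40 (0, 1, 0) = kap40 := by
    unfold ev85; push_cast; ring
  rw [h, e, ← hD] at hc
  exact Real.cosh_injOn (Set.mem_Ici.2 dist_nonneg) (Set.mem_Ici.2 hd.le) hc

/-! ### the glide -/

/-- the glide `c₀ → c₁ → c₂ → c₃ = λ (c₁ + c₂) - c₀` -/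
def gl85 (v : W85) : W85 :=
  ((0, 0, 0) - v.2.2, v.1 + mul85 (0, 1, 0) v.2.2, v.2.1 + mul85 (0, 1, 0) v.2.2)

theorem gl_T85 (v w : W85) : T85 (gl85 v) (gl85 w) = T85 v w := by
  obtain ⟨⟨a1, a2, a3⟩, ⟨b1, b2, b3⟩, ⟨c1, c2, c3⟩⟩ := v
  obtain ⟨⟨x1, x2, x3⟩, ⟨y1, y2, y3⟩, ⟨z1, z2, z3⟩⟩ := w
  unfold gl85 T85 mul85
  ext <;> simp only [Prod.mk_add_mk, Prod.mk_sub_mk] <;> ring

theorem gl_good85 {v : W85} (h : Good85 v) : Good85 (gl85 v) := by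
  obtain ⟨h1, h2, h3, h4⟩ := h
  refine ⟨by rw [gl_T85]; exact h1, ?_, ?_, ?_⟩
  all_goals
    unfold gl85 mul85
    simp only [Prod.fst_add, Prod.snd_add, Prod.fst_sub, Prod.snd_sub]
    omega

theorem gl_phi85 (v : W85) : phi85 (gl85 v) = r85 * phi85 v := by
  have hr : r85 ^ 2 = (1 + kap40) * r85 - 1 := by
    linear_combination (-r85) * r_add_s85.symm - rs85
  have e1 : ev85 kap40 ((0, 0, 0) - v.2.2) = - ev85 kap40 v.2.2 := by
    rw [ev_sub85]; unfold ev85; push_cast; ring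
  have e2 : ev85 kap40 (0, 1, 0) = kap40 := by
    unfold ev85; push_cast; ring
  unfold phi85 gl85
  simp only
  rw [e1, ev_add85, ev_add85, ev_mul85 rt_kap85, e2]
  linear_combination (-(ev85 kap40 v.2.2 * (1 + r85))) * hr

theorem gl_inj85 {v w : W85} (h : gl85 v = gl85 w) : v = w := by
  obtain ⟨⟨a1, a2, a3⟩, ⟨b1, b2, b3⟩, ⟨c1, c2, c3⟩⟩ := v
  obtain ⟨⟨x1, x2, x3⟩, ⟨y1, y2, y3⟩, ⟨z1, z2, z3⟩⟩ := w
  unfold gl85 mul85 at h
  simp only [Prod.mk_add_mk, Prod.mk_sub_mk, Prod.mk.injEq] at h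
  obtain ⟨⟨h1, h2, h3⟩, ⟨h4, h5, h6⟩, ⟨h7, h8, h9⟩⟩ := h
  have e1 : c1 = z1 := by omega
  have e2 : c2 = z2 := by omega
  have e3 : c3 = z3 := by omega
  subst e1 e2 e3
  have e4 : a1 = x1 := by omega
  have e5 : a2 = x2 := by omega
  have e6 : a3 = x3 := by omega
  have e7 : b1 = y1 := by omega
  have e8 : b2 = y2 := by omega
  have e9 : b3 = y3 := by omega
  rw [e4, e5, e6, e7, e8, e9]

theorem r_gt85 : 1 < r85 := by
  have h1 := rs85
  have h2 := r_add_s85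
  have h3 := kap_one_lt
  have h4 : 0 < s85 := Real.exp_pos _
  by_contra h5
  push Not at h5
  have h6 : 0 < r85 := Real.exp_pos _
  -- then s ≥ 1 and ell ≤ 0, but ell > 0
  have h7 : 0 ≤ ell40 := Real.arcosh_nonneg (by linarith)
  have h8 : (1 : ℝ) ≤ r85 := by
    unfold r85
    exact Real.one_le_exp h7
  have h9 : r85 = 1 := le_antisymm h5 h8
  rw [h9] at h1 h2
  linarith

theorem r_lo85 : (16353 / 10000 : ℝ) < r85 := by
  have h1 := rs85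
  have h2 := r_add_s85
  have h3 := kap_lo85
  have h5 := r_gt85
  by_contra h6
  push Not at h6
  have e : r85 ^ 2 - (1 + kap40) * r85 + 1 = 0 := by
    linear_combination r85 * h2 - h1
  nlinarith [mul_nonneg (sub_nonneg.2 h6) (sub_nonneg.2 h5.le),
    mul_pos (sub_pos.2 h3) (sub_pos.2 h5)]

theorem r_hi85 : r85 < (16357 / 10000 : ℝ) := by
  have h1 := rs85
  have h2 := r_add_s85
  have h3 := kap_hi85
  have h5 := r_gt85
  by_contra h6
  push Not at h6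
  have e : r85 ^ 2 - (1 + kap40) * r85 + 1 = 0 := by
    linear_combination r85 * h2 - h1
  nlinarith

/-- a family of representatives for the strip -/
structure Rep85 (ι : Type) where
  v : ι → W85
  good : ∀ t, Good85 (v t)
  inj : Function.Injective v
  lo : ∀ t, 1 ≤ phi85 (v t)
  hi : ∀ t, phi85 (v t) < r85

namespace Rep85

variable {ι : Type} (R : Rep85 ι)

/-- the vector of index `(t, p)` -/
def vec (x : ι × ℕ) : W85 := gl85^[x.2] (R.v x.1)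

theorem vec_succ (t : ι) (p : ℕ) : R.vec (t, p + 1) = gl85 (R.vec (t, p)) := by
  unfold vec
  simp only
  rw [Function.iterate_succ_apply']

theorem good_vec (x : ι × ℕ) : Good85 (R.vec x) := by
  obtain ⟨t, p⟩ := x
  induction p with
  | zero => exact R.good t
  | succ p ih => rw [R.vec_succ]; exact gl_good85 ih

theorem phi_vec (t : ι) (p : ℕ) : phi85 (R.vec (t, p)) = r85 ^ p * phi85 (R.v t) := by
  induction p with
  | zero => simp [vec]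
  | succ p ih => rw [R.vec_succ, gl_phi85, ih]; ring

theorem phi_pos (x : ι × ℕ) : 0 < phi85 (R.vec x) := by
  obtain ⟨t, p⟩ := x
  rw [R.phi_vec]
  have h1 := r_gt85
  have h2 := R.lo t
  positivity

theorem vec_T (t u : ι) (p k : ℕ) :
    T85 (R.vec (t, p)) (R.vec (u, p + k)) = T85 (R.v t) (R.vec (u, k)) := by
  induction p with
  | zero => simp [vec]
  | succ p ih =>
    have e : p + 1 + k = (p + k) + 1 := by omega
    rw [e, R.vec_succ, R.vec_succ, gl_T85, ih]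

theorem vec_inj : Function.Injective R.vec := by
  have key : ∀ (t u : ι) (p k : ℕ), R.vec (t, p) = R.vec (u, p + k) → t = u ∧ k = 0 := by
    intro t u p k h
    have h1 := r_gt85
    have hk : k = 0 := by
      by_contra hk
      have e1 := R.phi_vec t p
      have e2 := R.phi_vec u (p + k)
      rw [h, e2] at e1
      have h2 := R.hi t
      have h3 := R.lo u
      have h4 : r85 ^ (p + 1) ≤ r85 ^ (p + k) := pow_le_pow_right₀ h1.le (by omega)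
      have h5 : r85 ^ p * phi85 (R.v t) < r85 ^ (p + 1) := by
        rw [pow_succ]
        have : 0 < r85 ^ p := by positivity
        exact mul_lt_mul_of_pos_left h2 this
      have h6 : r85 ^ (p + k) ≤ r85 ^ (p + k) * phi85 (R.v u) := by
        have : 0 < r85 ^ (p + k) := by positivity
        exact le_mul_of_one_le_right this.le h3
      linarith
    subst hk
    refine ⟨?_, rfl⟩
    apply R.inj
    rw [Nat.add_zero] at h
    clear h1
    induction p with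
    | zero => simpa [vec] using h
    | succ p ih =>
      rw [R.vec_succ, R.vec_succ] at h
      exact ih (gl_inj85 h)
  rintro ⟨t, p⟩ ⟨u, q⟩ h
  rcases le_total p q with hpq | hpq
  · obtain ⟨k, rfl⟩ := Nat.exists_eq_add_of_le hpq
    obtain ⟨rfl, rfl⟩ := key t u p k h
    rfl
  · obtain ⟨k, rfl⟩ := Nat.exists_eq_add_of_le hpq
    obtain ⟨rfl, rfl⟩ := key u t q k h.symm
    rfl

/-- the points of the strip -/
def pt (x : ι × ℕ) : ℍ := pt85 (R.vec x) (R.phi_pos x)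

theorem sep {d : ℝ} (hd : 0 < d) (ha : alpha d = 2 * Real.pi / 7) {x y : ι × ℕ} (h : x ≠ y) :
    d ≤ dist (R.pt x) (R.pt y) :=
  sep_pt85 hd ha (R.good_vec x) (R.good_vec y) _ _ (fun e => h (R.vec_inj e))

theorem pt_inj {d : ℝ} (hd : 0 < d) (ha : alpha d = 2 * Real.pi / 7) :
    Function.Injective R.pt := by
  intro x y h
  by_contra hne
  have := R.sep hd ha hne
  rw [h, dist_self] at this
  linarith

/-- contacts, checked on the representatives -/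
theorem con {d : ℝ} (hd : 0 < d) (ha : alpha d = 2 * Real.pi / 7) {t u : ι} {k : ℕ}
    (h : T85 (R.v t) (gl85^[k] (R.v u)) = (0, 1, 0)) (p : ℕ) :
    dist (R.pt (t, p)) (R.pt (u, p + k)) = d :=
  con_pt85 hd ha (R.good_vec _) (R.good_vec _) _ _ (by rw [R.vec_T]; exact h)

end Rep85

/-! ### finite patches -/

/-- the point of a vertex (junk value `i` for other vectors) -/
def P85 (v : W85) : ℍ := if h : 0 < phi85 v then pt85 v h else UpperHalfPlane.I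

theorem sep_P85 {d : ℝ} (hd : 0 < d) (ha : alpha d = 2 * Real.pi / 7) {v w : W85}
    (hv : Good85 v) (hw : Good85 w) (h1 : 0 < phi85 v) (h2 : 0 < phi85 w) (hne : v ≠ w) :
    d ≤ dist (P85 v) (P85 w) := by
  unfold P85
  rw [dif_pos h1, dif_pos h2]
  exact sep_pt85 hd ha hv hw h1 h2 hne

theorem con_P85 {d : ℝ} (hd : 0 < d) (ha : alpha d = 2 * Real.pi / 7) {v w : W85}
    (hv : Good85 v) (hw : Good85 w) (h1 : 0 < phi85 v) (h2 : 0 < phi85 w)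
    (h : T85 v w = (0, 1, 0)) : dist (P85 v) (P85 w) = d := by
  unfold P85
  rw [dif_pos h1, dif_pos h2]
  exact con_pt85 hd ha hv hw h1 h2 h

end

end Pool.Agent.PEN
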