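import Pool.Agent.P4.RfD51

/-! # PENNY: the four corners of a rhombus class -/

set_option autoImplicit false

namespace Pool.Agent.PEN

open Classical UpperHalfPlane

noncomputable section

section D
variable {V : Type} (G : Tg V) {al : ℝ} {kp : V → V → ℝ} {U : ℕ → ℝ}

/-- the four corners of a rhombus class -/
theorem rh_data51 (hG : G.Geo al kp U) {C : G.adj.ConnectedComponent} (hC : C ∈ G.iC)
    (hR : RC G C) : ∃ a b, G.Rh a b ∧
    (∀ x ∈ G.cJ C, x = (b, G.ap a b) ∨ x = (G.ap a b, a) ∨ x = (a, G.ap b a) ∨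
      x = (G.ap b a, b)) ∧
    sg G (b, G.ap a b) = (G.ap a b, a) ∧ sg G (G.ap a b, a) = (a, G.ap b a) ∧
    sg G (a, G.ap b a) = (G.ap b a, b) ∧ sg G (G.ap b a, b) = (b, G.ap a b) ∧
    TH G (b, G.ap a b) = G.th b (G.ap a b) + G.th b a ∧ TH G (G.ap a b, a) = G.th (G.ap a b) a ∧
    TH G (a, G.ap b a) = G.th a (G.ap b a) + G.th a b ∧ TH G (G.ap b a, b) = G.th (G.ap b a) b ∧
    ¬ Q51 G (b, G.ap a b) ∧ Q51 G (G.ap a b, a) ∧ ¬ Q51 G (a, G.ap b a) ∧
      Q51 G (G.ap b a, b) := by
  have hB := cB_of_iC66 G hC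
  obtain ⟨hm, hI⟩ := hR
  obtain ⟨x, hx⟩ : (G.cI C).Nonempty := by
    rw [← Finset.card_pos]
    omega
  obtain ⟨a, b⟩ := x
  have hx' : (b, a) ∈ G.cI C := swap_cD66 G hx
  have R1 : G.Rh a b := Rh_of_class66 G hB hI hx
  obtain ⟨p1, p4, p3, c1, c2, c3, c4⟩ := R1
  have hxD : (a, b) ∈ G.cD C := cI_sub11 G hx
  have hxD' : (b, a) ∈ G.cD C := cI_sub11 G hx'
  have p3' : ¬ G.con b a := fun h => p3 (G.csymm _ _ h)
  have n1 := G.ne _ _ (G.sub p1)
  have n2 := G.ne _ _ (G.sub (G.ap1 _ _ p1))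
  have n3 := G.ne _ _ (G.sub (G.ap2 _ _ p1))
  have n2' := G.ne _ _ (G.sub (G.ap1 _ _ p4))
  have n3' := G.ne _ _ (G.sub (G.ap2 _ _ p4))
  have hII : G.cI C = {(a, b), (b, a)} := by
    symm
    apply Finset.eq_of_subset_of_card_le
    · intro y hy
      rw [Finset.mem_insert, Finset.mem_singleton] at hy
      rcases hy with rfl | rfl
      · exact hx
      · exact hx'
    · rw [hI, Finset.card_pair]
      intro h
      exact n1 (congrArg Prod.fst h)
  have hT : G.cT C = {G.tri (a, b), G.tri (b, a)} := by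
    symm
    apply Finset.eq_of_subset_of_card_le
    · intro y hy
      rw [Finset.mem_insert, Finset.mem_singleton] at hy
      rcases hy with rfl | rfl
      · exact mem_cT66 G hxD
      · exact mem_cT66 G hxD'
    · rw [hm, Finset.card_pair (tri_swap66 G p1 p4)]
  -- apexes
  have e1 : G.ap b (G.ap a b) = a := G.ap3 _ _ p1
  have e2 : G.ap (G.ap a b) a = b := G.ap4 _ _ p1
  have e3 : G.ap a (G.ap b a) = b := G.ap3 _ _ p4
  have e4 : G.ap (G.ap b a) b = a := G.ap4 _ _ p4
  -- the outer darts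
  have i0 : G.inn (a, b) := ⟨p1, by rw [((mem_cD66 G).1 hxD).2]; exact hB⟩
  have i0' : G.inn (b, a) := ⟨p4, by rw [((mem_cD66 G).1 hxD').2]; exact hB⟩
  have j1 : (b, G.ap a b) ∈ iJ G := (mem_iJ71 G).2 ⟨inn_rot27 G i0, c1⟩
  have j2 : (G.ap a b, a) ∈ iJ G := (mem_iJ71 G).2 ⟨inn_rot27' G i0, c2⟩
  have j3 : (a, G.ap b a) ∈ iJ G := (mem_iJ71 G).2 ⟨inn_rot27 G i0', c3⟩
  have j4 : (G.ap b a, b) ∈ iJ G := (mem_iJ71 G).2 ⟨inn_rot27' G i0', c4⟩
  have cC1 : (b, G.ap a b) ∈ G.cJ C := by
    unfold Tg.cJ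
    rw [Finset.mem_filter]
    have := (mem_cD66 G).1 (rot_cD66 G hxD)
    exact ⟨this.1, this.2, c1⟩
  have cC2 : (G.ap a b, a) ∈ G.cJ C := by
    unfold Tg.cJ
    rw [Finset.mem_filter]
    have := (mem_cD66 G).1 (rot_cD66' G hxD)
    exact ⟨this.1, this.2, c2⟩
  have cC3 : (a, G.ap b a) ∈ G.cJ C := by
    unfold Tg.cJ
    rw [Finset.mem_filter]
    have := (mem_cD66 G).1 (rot_cD66 G hxD')
    exact ⟨this.1, this.2, c3⟩
  have cC4 : (G.ap b a, b) ∈ G.cJ C := by
    unfold Tg.cJ
    rw [Finset.mem_filter]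
    have := (mem_cD66 G).1 (rot_cD66' G hxD')
    exact ⟨this.1, this.2, c4⟩
  -- og
  have o1 : G.og a b = G.ap b a := by
    have h := (og_next66 G p3 (by
      change G.con a (G.ap b a)
      exact c3)).2
    exact h
  have o2 : G.og b a = G.ap a b := by
    have h := (og_next66 G p3' (by
      change G.con b (G.ap a b)
      exact c1)).2
    exact h
  have o3 : G.og (G.ap a b) a = a := (og_self66 G c2).2
  have o4 : G.og (G.ap b a) b = b := (og_self66 G c4).2
  -- gaps
  have far : ∀ z ∈ G.cJ C, z.1 ≠ a → z.1 ≠ b → TH G z = G.th z.1 z.2 := by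
    intro z hz h1 h2
    have h3 := gp_sub71 G hG hC hz
    have h4 : (G.cI C).filter (fun y => y.1 = z.1) = ∅ := by
      rw [Finset.filter_eq_empty_iff]
      intro y hy h
      rw [hII, Finset.mem_insert, Finset.mem_singleton] at hy
      rcases hy with rfl | rfl
      · exact h1 h.symm
      · exact h2 h.symm
    rw [h4] at h3
    have h5 : gp G z = {z} := by
      apply Finset.Subset.antisymm
      · exact h3
      · rw [Finset.singleton_subset_iff]
        exact gp_self71 G (cJ_iJ51 G hC hz).1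
    unfold TH
    rw [h5, Finset.sum_singleton]
  have near : ∀ z ∈ G.cJ C, ∀ w ∈ G.cI C, z.1 = w.1 → G.og w.1 w.2 = z.2 →
      TH G z = G.th z.1 z.2 + G.th w.1 w.2 := by
    intro z hz w hw h1 h2
    have h3 := gp_sub71 G hG hC hz
    have h4 : (G.cI C).filter (fun y => y.1 = z.1) ⊆ {w} := by
      intro y hy
      rw [Finset.mem_filter] at hy
      rw [Finset.mem_singleton]
      obtain ⟨hy1, hy2⟩ := hy
      rw [hII, Finset.mem_insert, Finset.mem_singleton] at hy1 hw
      rcases hy1 with rfl | rfl <;> rcases hw with rfl | rfl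
      · rfl
      · exact absurd (hy2.trans h1) n1
      · exact absurd (hy2.trans h1).symm n1
      · rfl
    have hwD := (mem_cD66 G).1 (cI_sub11 G hw)
    have h5 : gp G z = {z, w} := by
      apply Finset.Subset.antisymm
      · intro y hy
        rcases Finset.mem_insert.1 (h3 hy) with h | h
        · rw [h]
          exact Finset.mem_insert_self _ _
        · exact Finset.mem_insert_of_mem (h4 h)
      · intro y hy
        rw [Finset.mem_insert, Finset.mem_singleton] at hy
        rcases hy with rfl | rfl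
        · exact gp_self71 G (cJ_iJ51 G hC hz).1
        · unfold gp
          rw [Finset.mem_filter, mem_iD27]
          refine ⟨⟨hwD.1, by rw [hwD.2]; exact hB⟩, h1.symm, ?_⟩
          rw [h1]
          exact h2
    unfold TH
    rw [h5, Finset.sum_pair]
    intro h
    have h6 := cI_ncon11 G hw
    rw [← h] at h6
    unfold Tg.cJ at hz
    rw [Finset.mem_filter] at hz
    exact h6 hz.2.2
  refine ⟨a, b, ⟨p1, p4, p3, c1, c2, c3, c4⟩, ?_, ?_, ?_, ?_, ?_, ?_, ?_, ?_, ?_, ?_, ?_, ?_, ?_⟩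
  · intro z hz
    have hzD := cJ_sub66 G C hz
    have hzp := ((mem_cD66 G).1 hzD).1
    have hzc : G.con z.1 z.2 := by
      unfold Tg.cJ at hz
      rw [Finset.mem_filter] at hz
      exact hz.2.2
    have h2 := mem_cT66 G hzD
    rw [hT, Finset.mem_insert, Finset.mem_singleton] at h2
    rcases h2 with h2 | h2
    · rcases (tri_eq_iff G p1 hzp).1 h2.symm with h3 | h3 | h3
      · rw [h3] at hzc
        exact absurd hzc p3
      · exact Or.inl h3
      · exact Or.inr (Or.inl h3)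
    · rcases (tri_eq_iff G p4 hzp).1 h2.symm with h3 | h3 | h3
      · rw [h3] at hzc
        exact absurd hzc p3'
      · exact Or.inr (Or.inr (Or.inl h3))
      · exact Or.inr (Or.inr (Or.inr h3))
  · unfold sg
    dsimp only
    rw [e1, o3]
  · unfold sg
    dsimp only
    rw [e2, o1]
  · unfold sg
    dsimp only
    rw [e3, o4]
  · unfold sg
    dsimp only
    rw [e4, o2]
  · exact near _ cC1 _ hx' rfl o2
  · exact far _ cC2 n3 (fun h => n2 h.symm)
  · exact near _ cC3 _ hx rfl o1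
  · exact far _ cC4 (fun h => n2' h.symm) n3'
  · unfold Q51
    dsimp only
    rw [e1]
    exact p3'
  · unfold Q51
    dsimp only
    rw [e2]
    exact G.csymm _ _ c1
  · unfold Q51
    dsimp only
    rw [e3]
    exact p3
  · unfold Q51
    dsimp only
    rw [e4]
    exact G.csymm _ _ c3

end D

end

end Pool.Agent.PEN
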