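import Pool.Agent.P4.NumV52

/-! # The deficit `rho51` as an algebraic function of `t = tanh (d / 2)` -/

set_option autoImplicit false

namespace Pool.Agent.PEN

noncomputable section

/-- `tan (rho51 / 4)` -/
def V52 (t : ℝ) : ℝ :=
  t / √(1 - t ^ 2) * (1 - (√(3 + t ^ 2) / 2) /
    (1 - t * (1 + t ^ 2) / 2 + t ^ 2 * (√(3 + t ^ 2) / 2)))

theorem rho_eq52 {d : ℝ} (hd : 0 < d) :
    rho51 d (alpha d) = 4 * Real.arctan (V52 (Real.tanh (d / 2))) := by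
  obtain ⟨e1, e2⟩ := tanh_sq52 hd
  have e3 : Real.tanh (d / 2) < 1 := Real.tanh_lt_one _
  have hrho : rho51 d (alpha d) = 2 * (2 * Real.arcsin (Real.tanh (d / 2)) -
    2 * Real.arctan (Real.tanh (d / 2) * Real.sin (alpha d) /
      (1 - Real.tanh (d / 2) * Real.cos (alpha d)))) := rfl
  have hs0 : 0 ≤ Real.sin (alpha d) :=
    Real.sin_nonneg_of_nonneg_of_le_pi (alpha_nonneg39 d) (alpha_le_pi39 d)
  have hs1 := Real.sin_sq_add_cos_sq (alpha d)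
  set t := Real.tanh (d / 2) with ht
  have hh : Real.cos (alpha d) = (1 + t ^ 2) / 2 := by linarith
  have ht2 : t ^ 2 < 1 := by nlinarith
  set w := √(1 - t ^ 2) with hw
  have hw0 : 0 < w := Real.sqrt_pos.2 (by linarith)
  have hw2 : w ^ 2 = 1 - t ^ 2 := Real.sq_sqrt (by linarith)
  set c := √(3 + t ^ 2) / 2 with hc
  have hc0 : 0 < c := by rw [hc]; positivity
  have hc2 : c ^ 2 = (3 + t ^ 2) / 4 := by
    rw [hc, div_pow, Real.sq_sqrt (by positivity)]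
    norm_num
  have hsin : Real.sin (alpha d) = w * c := by
    have h1 : Real.sin (alpha d) ^ 2 = (w * c) ^ 2 := by
      rw [mul_pow, hw2, hc2]
      rw [hh] at hs1
      linarith
    exact (sq_eq_sq₀ hs0 (by positivity)).1 h1
  rw [hrho, hsin, hh, Real.arcsin_eq_arctan ⟨by linarith, e3⟩, ← hw]
  have hth : 0 < 1 - t * ((1 + t ^ 2) / 2) := by nlinarith
  have hD : 0 < 1 - t * (1 + t ^ 2) / 2 + t ^ 2 * c := by
    have : 0 ≤ t ^ 2 * c := by positivity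
    have h2 : t * ((1 + t ^ 2) / 2) = t * (1 + t ^ 2) / 2 := by ring
    linarith
  have hT0 : 0 ≤ t * (w * c) / (1 - t * ((1 + t ^ 2) / 2)) := by positivity
  have hadd := Real.arctan_add (x := t / w) (y := -(t * (w * c) / (1 - t * ((1 + t ^ 2) / 2))))
    (by
      have : 0 ≤ t / w * (t * (w * c) / (1 - t * ((1 + t ^ 2) / 2))) := by positivity
      linarith)
  rw [Real.arctan_neg] at hadd
  have key : (t / w + -(t * (w * c) / (1 - t * ((1 + t ^ 2) / 2)))) /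
      (1 - t / w * -(t * (w * c) / (1 - t * ((1 + t ^ 2) / 2)))) = V52 t := by
    unfold V52
    rw [← hw, ← hc]
    have hE : 1 - t * ((1 + t ^ 2) / 2) = (1 - t * (1 + t ^ 2) / 2 + t ^ 2 * c) - t ^ 2 * c := by
      ring
    rw [hE] at hth ⊢
    set D := 1 - t * (1 + t ^ 2) / 2 + t ^ 2 * c with hDdef
    set E := D - t ^ 2 * c with hEdef
    have hDne : D ≠ 0 := hD.ne'
    have hEne : E ≠ 0 := hth.ne'
    have hwne : w ≠ 0 := hw0.ne'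
    have n1 : t / w + -(t * (w * c) / E) = t * (E - w ^ 2 * c) / (w * E) := by
      field_simp
      ring
    have n2 : 1 - t / w * -(t * (w * c) / E) = D / E := by
      have e3 : D = E + t ^ 2 * c := by rw [hEdef]; ring
      rw [e3]
      field_simp
      ring
    have n3 : E - w ^ 2 * c = D - c := by
      rw [hEdef, hw2]
      ring
    rw [n1, n2, n3]
    field_simp
  rw [key] at hadd
  linarith

theorem sqrt3_le52 {t t2 c2 : ℝ} (h0 : 0 ≤ t) (ht : t ≤ t2) (hc0 : 0 ≤ c2)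
    (hc : 3 + t2 ^ 2 ≤ 4 * c2 ^ 2) : √(3 + t ^ 2) / 2 ≤ c2 := by
  have h1 : √(3 + t ^ 2) ≤ 2 * c2 := by
    rw [Real.sqrt_le_left (by positivity)]
    have := pow_le_pow_left₀ h0 ht 2
    nlinarith
  linarith

theorem le_sqrt3_52 {t t1 c1 : ℝ} (h0 : 0 ≤ t1) (ht : t1 ≤ t) (hc0 : 0 ≤ c1)
    (hc : 4 * c1 ^ 2 ≤ 3 + t1 ^ 2) : c1 ≤ √(3 + t ^ 2) / 2 := by
  have h1 : 2 * c1 ≤ √(3 + t ^ 2) := by
    rw [Real.le_sqrt (by positivity) (by positivity)]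
    have := pow_le_pow_left₀ h0 ht 2
    nlinarith
  linarith

theorem le_V52 {t t1 t2 w1 c1 c2 D y : ℝ} (h0 : 0 ≤ t1) (ht1 : t1 ≤ t) (ht2 : t ≤ t2)
    (h1 : t2 < 1) (hw0 : 0 < w1) (hw : 1 - t1 ^ 2 ≤ w1 ^ 2) (hc10 : 0 ≤ c1)
    (hc1 : 4 * c1 ^ 2 ≤ 3 + t1 ^ 2) (hc20 : 0 ≤ c2) (hc2 : 3 + t2 ^ 2 ≤ 4 * c2 ^ 2)
    (hD : D ≤ 1 - t2 * (1 + t2 ^ 2) / 2 + t1 ^ 2 * c1) (hD0 : c2 ≤ D) (hD1 : 0 < D)
    (hy : y ≤ t1 / w1 * (1 - c2 / D)) : y ≤ V52 t := by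
  have ht0 : 0 ≤ t := h0.trans ht1
  have b1 := sqrt3_le52 ht0 ht2 hc20 hc2
  have b2 := le_sqrt3_52 h0 ht1 hc10 hc1
  have b3 : √(1 - t ^ 2) ≤ w1 := by
    rw [Real.sqrt_le_left hw0.le]
    have := pow_le_pow_left₀ h0 ht1 2
    linarith
  have b4 : 0 < √(1 - t ^ 2) := Real.sqrt_pos.2 (by nlinarith)
  have b5 : D ≤ 1 - t * (1 + t ^ 2) / 2 + t ^ 2 * (√(3 + t ^ 2) / 2) := by
    have e1 : t * (1 + t ^ 2) ≤ t2 * (1 + t2 ^ 2) :=
      mul_le_mul ht2 (by nlinarith) (by positivity) (by linarith)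
    have e2 : t1 ^ 2 * c1 ≤ t ^ 2 * (√(3 + t ^ 2) / 2) :=
      mul_le_mul (pow_le_pow_left₀ h0 ht1 2) b2 hc10 (by positivity)
    linarith
  have b6 : t1 / w1 ≤ t / √(1 - t ^ 2) := div_le_div₀ ht0 ht1 b4 b3
  have b7 : √(3 + t ^ 2) / 2 / (1 - t * (1 + t ^ 2) / 2 + t ^ 2 * (√(3 + t ^ 2) / 2)) ≤
      c2 / D := div_le_div₀ hc20 b1 hD1 b5
  have b8 : 0 ≤ 1 - c2 / D := by
    rw [sub_nonneg, div_le_one hD1]
    exact hD0
  unfold V52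
  exact hy.trans (mul_le_mul b6 (by linarith) b8 (by positivity))

theorem V_le52 {t t1 t2 w2 c1 c2 D y : ℝ} (h0 : 0 ≤ t1) (ht1 : t1 ≤ t) (ht2 : t ≤ t2)
    (h1 : t2 < 1) (hw0 : 0 < w2) (hw : w2 ^ 2 ≤ 1 - t2 ^ 2) (hc10 : 0 ≤ c1)
    (hc1 : 4 * c1 ^ 2 ≤ 3 + t1 ^ 2) (hc20 : 0 ≤ c2) (hc2 : 3 + t2 ^ 2 ≤ 4 * c2 ^ 2)
    (hD : 1 - t1 * (1 + t1 ^ 2) / 2 + t2 ^ 2 * c2 ≤ D) (hD0 : c1 ≤ D)
    (hy : t2 / w2 * (1 - c1 / D) ≤ y) : V52 t ≤ y := by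
  have ht0 : 0 ≤ t := h0.trans ht1
  have b1 := sqrt3_le52 ht0 ht2 hc20 hc2
  have b2 := le_sqrt3_52 h0 ht1 hc10 hc1
  have b3 : w2 ≤ √(1 - t ^ 2) := by
    rw [Real.le_sqrt hw0.le (by nlinarith)]
    have := pow_le_pow_left₀ ht0 ht2 2
    linarith
  have b5 : 1 - t * (1 + t ^ 2) / 2 + t ^ 2 * (√(3 + t ^ 2) / 2) ≤ D := by
    have e1 : t1 * (1 + t1 ^ 2) ≤ t * (1 + t ^ 2) :=
      mul_le_mul ht1 (by nlinarith) (by positivity) ht0
    have e2 : t ^ 2 * (√(3 + t ^ 2) / 2) ≤ t2 ^ 2 * c2 :=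
      mul_le_mul (pow_le_pow_left₀ ht0 ht2 2) b1 (by positivity) (by positivity)
    linarith
  have b4 : 0 < 1 - t * (1 + t ^ 2) / 2 + t ^ 2 * (√(3 + t ^ 2) / 2) := by
    have e1 : 0 ≤ t ^ 2 * (√(3 + t ^ 2) / 2) := by positivity
    have e2 : t * (1 + t ^ 2) < 2 := by
      have e3 : t < 1 := by linarith
      nlinarith
    linarith
  have b6 : t / √(1 - t ^ 2) ≤ t2 / w2 := div_le_div₀ (by linarith) ht2 hw0 b3
  have b7 : c1 / D ≤ √(3 + t ^ 2) / 2 /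
      (1 - t * (1 + t ^ 2) / 2 + t ^ 2 * (√(3 + t ^ 2) / 2)) := div_le_div₀ (by positivity) b2 b4 b5
  have hD1 : 0 < D := by linarith
  have b8 : 0 ≤ 1 - c1 / D := by
    rw [sub_nonneg, div_le_one hD1]
    exact hD0
  unfold V52
  have b9 : 0 ≤ t / √(1 - t ^ 2) := by positivity
  refine le_trans ?_ hy
  calc t / √(1 - t ^ 2) * (1 - √(3 + t ^ 2) / 2 /
        (1 - t * (1 + t ^ 2) / 2 + t ^ 2 * (√(3 + t ^ 2) / 2)))
      ≤ t / √(1 - t ^ 2) * (1 - c1 / D) := mul_le_mul_of_nonneg_left (by linarith) b9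
    _ ≤ t2 / w2 * (1 - c1 / D) := mul_le_mul_of_nonneg_right b6 b8

theorem le_rho52 {d y k : ℝ} (hd : 0 < d) (hy : y ≤ V52 (Real.tanh (d / 2))) (hy0 : 0 ≤ y)
    (hk0 : 0 ≤ k) (hk1 : k ≤ 1) (hk : k ≤ y * (1 - k ^ 2 / 2)) :
    4 * k ≤ rho51 d (alpha d) := by
  have hpi := Real.pi_gt_three
  have c3 : 0 < Real.cos k := Real.cos_pos_of_mem_Ioo ⟨by linarith, by linarith⟩
  have c1 := Real.one_sub_sq_div_two_le_cos (x := k)
  have c2 := Real.sin_le hk0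
  have c4 : Real.tan k ≤ y := by
    rw [Real.tan_eq_sin_div_cos, div_le_iff₀ c3]
    have := mul_le_mul_of_nonneg_left c1 hy0
    linarith
  have c5 := Real.arctan_strictMono.monotone (c4.trans hy)
  rw [Real.arctan_tan (by linarith) (by linarith)] at c5
  rw [rho_eq52 hd]
  linarith

theorem rho_le52 {d y : ℝ} (hd : 0 < d) (hy : V52 (Real.tanh (d / 2)) ≤ y) (hy0 : 0 ≤ y) :
    rho51 d (alpha d) ≤ 4 * y := by
  have h1 := Real.arctan_strictMono.monotone hy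
  have h2 : Real.arctan y ≤ y := by
    have h3 := Real.le_tan (Real.arctan_nonneg.2 hy0) (Real.arctan_lt_pi_div_two y)
    rwa [Real.tan_arctan] at h3
  rw [rho_eq52 hd]
  linarith

end

end Pool.Agent.PEN
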