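import Pool.Agent.P4.Int85

/-! # P4, row L: the second layer strip -/

set_option autoImplicit false

namespace Pool.Agent.PEN

open Classical UpperHalfPlane

noncomputable section

/-- the types -/
def vs2_85 : Fin 8 → W85 := ![
  ((1, 0, 0), (0, 0, 0), (0, 0, 0)),
  ((1, 2, 0), (1, 0, -1), (1, 0, -1)),
  ((1, 1, 0), (0, 2, 1), (0, -1, -1)),
  ((3, 7, 3), (1, 0, 0), (-1, -3, -1)),
  ((4, 10, 5), (0, 1, 1), (-1, -5, -2)),
  ((2, 5, 2), (1, 5, 2), (-2, -4, -2)),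
  ((4, 11, 5), (4, 8, 3), (-3, -9, -4)),
  ((2, 9, 5), (2, 7, 4), (-3, -8, -3))]

/-- the left ends -/
def los2_85 : Fin 8 → ℕ := ![0, 2, 3, 6, 6, 5, 7, 7]

/-- the right ends -/
def cs2_85 : Fin 8 → ℕ := ![8, 8, 7, 8, 8, 7, 7, 7]

/-- the 19 classes of edges -/
def ELs2_85 : Finset (Fin 8 × Fin 8 × ℕ) := {
  (0, 1, 0), (3, 4, 0), (5, 7, 0), (6, 7, 0), (0, 0, 1), (0, 2, 1), (1, 2, 1), (1, 5, 1),
  (2, 1, 1), (2, 3, 1), (3, 6, 1), (5, 4, 1), (0, 0, 2), (0, 1, 2), (1, 3, 2), (1, 4, 2),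
  (2, 5, 2), (2, 6, 2), (2, 7, 2)}

/-- the strip -/
def Rs2_85 : Rep85 (Fin 8) where
  v := vs2_85
  good := by decide +kernel
  inj := by
    have h : ∀ t u : Fin 8, vs2_85 t = vs2_85 u → t = u := by decide +kernel
    exact fun t u => h t u
  lo := fun t => Win85.lo ((by decide +kernel : ∀ t, Win85 (vs2_85 t)) t)
  hi := fun t => Win85.hi ((by decide +kernel : ∀ t, Win85 (vs2_85 t)) t)

theorem card_ELs2_85 : ELs2_85.card = 19 := by decide +kernel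

theorem nj_s2_85 : ∀ j : Fin 8, Nj85 los2_85 cs2_85 j = 24 + j := by decide +kernel

theorem ej_s2_85 : ∀ j : Fin 8,
    (19 * (24 + (j : ℕ)) - 48) / 8 ≤ Ej85 ELs2_85 los2_85 cs2_85 j := by decide +kernel

/-- L2: second layer strip (V = 40 + 8k, E = 89 + 19k) -/
theorem strip2_all {d : ℝ} (hd : 0 < d) (ha : alpha d = 2 * Real.pi / 7) (n : ℕ)
    (hn : 24 ≤ n) :
    ∃ P : Finset ℍ, P.card = n ∧ Sep d P ∧ 2 * ((19 * n - 48) / 8) ≤ cd d P := by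
  obtain ⟨m, rfl⟩ := Nat.exists_eq_add_of_le hn
  have hj : m % 8 < 8 := Nat.mod_lt _ (by norm_num)
  obtain ⟨P, h1, h2, h3⟩ := grow85 Rs2_85 hd ha ELs2_85 (by decide +kernel)
    (by
      have h : ∀ e ∈ ELs2_85, T85 (vs2_85 e.1) (gl85^[e.2.2] (vs2_85 e.2.1)) = (0, 1, 0) := by
        decide +kernel
      exact h)
    los2_85 cs2_85 (by decide +kernel) (by decide +kernel) (m % 8) (m / 8)
  have e1 := nj_s2_85 ⟨m % 8, hj⟩
  have e2 := ej_s2_85 ⟨m % 8, hj⟩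
  simp only at e1 e2
  have e3 := Nat.div_add_mod m 8
  refine ⟨P, by omega, h2, le_trans ?_ h3⟩
  rw [card_ELs2_85]
  apply Nat.mul_le_mul_left
  omega

/-- L2: second layer strip (V = 40 + 8k, E = 89 + 19k) -/
theorem strip2 {d : ℝ} (hd : 0 < d) (ha : alpha d = 2 * Real.pi / 7) (n : ℕ) (hn : 30 ≤ n) :
    ∃ P : Finset ℍ, P.card = n ∧ Sep d P ∧ 2 * ((19 * n - 48) / 8) ≤ cd d P :=
  strip2_all hd ha n (by omega)

end

end Pool.Agent.PEN
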