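import Pool.Agent.P4.Tk62c

/-! # PENNY, token rows: the points with seven units and no corner in `F` -/

set_option autoImplicit false

namespace Pool.Agent.PEN

open Classical UpperHalfPlane

noncomputable section

section D
variable {V : Type} (G : Tg V) {al : ℝ} {kp : V → V → ℝ} {U : ℕ → ℝ}
variable {Q : ℝ} {opp : ℝ → ℝ} {g : ℕ → ℝ} {m : ℕ} {s' p q : V × V → V × V}

/-- deficient points: seven units, no rhombus corner in `F` -/
def Df57 (al : ℝ) (F : V × V → Prop) (v : V) : Prop :=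
  B7 G al v ∧ ∀ x ∈ Jv G v, RC G (G.cl x) → ¬ F x

/-- deficient points without a side between two rhombi -/
def KP57 (al : ℝ) (F : V × V → Prop) (p : V × V → V × V) (v : V) : Prop :=
  B7 G al v ∧ (∀ x ∈ Jv G v, RC G (G.cl x) → ¬ F x) ∧
    ∀ x ∈ Jv G v, RC G (G.cl x) → ¬ RC G (G.cl (p x))

theorem J4_57 (hG : G.Geo al kp U) {v : V} (hB : B7 G al v) : 4 ≤ (Jv G v).card := by
  obtain ⟨h7, _⟩ := count62 G hG hB
  have h8 : ((Jv G v).filter (fun x => ¬ RC G (G.cl x))).card +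
      ((Jv G v).filter (fun x => RC G (G.cl x))).card = (Jv G v).card := by
    rw [add_comm]
    exact Finset.card_filter_add_card_filter_not (fun x => RC G (G.cl x))
  omega

theorem pJ57 {s : V × V → V × V} (O : Or62 G opp s s' p q) {v : V} (hv : v ∈ inN G)
    {x : V × V} (hx : x ∈ Jv G v) : p x ∈ Jv G v ∧ q x ∈ Jv G v := by
  obtain ⟨h1, h2⟩ := (mem_Jv51 G).1 hx
  obtain ⟨h3, h4⟩ := O.N x h1 (by rw [h2]; exact hv)
  exact ⟨(mem_Jv51 G).2 ⟨h3, (O.pf _ h1 h3).trans h2⟩,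
    (mem_Jv51 G).2 ⟨h4, (O.qf _ h1 h4).trans h2⟩⟩

theorem ne57 {s : V × V → V × V} (hG : G.Geo al kp U) (O : Or62 G opp s s' p q) {v : V}
    (hB : B7 G al v) {x : V × V} (hx : x ∈ Jv G v) : p x ≠ x := by
  intro h
  obtain ⟨h1, h2⟩ := (mem_Jv51 G).1 hx
  have h5 := (O.cyc v {x} ⟨x, Finset.mem_singleton_self _⟩ (by
    intro y hy
    rw [Finset.mem_singleton] at hy
    subst hy
    exact ⟨h1, h2, by rw [h]; exact Finset.mem_singleton_self _⟩)).2
  have h6 : Jv G v ⊆ {x} := fun y hy => h5 y ((mem_Jv51 G).1 hy).1 ((mem_Jv51 G).1 hy).2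
  have h7 := Finset.card_le_card h6
  rw [Finset.card_singleton] at h7
  have := J4_57 G hG hB
  omega

/-- `p` and `q` agree nowhere -/
theorem pq57 {s : V × V → V × V} (hG : G.Geo al kp U) (O : Or62 G opp s s' p q) {v : V}
    (hB : B7 G al v) {x : V × V} (hx : x ∈ Jv G v) : p x ≠ q x := by
  intro h
  obtain ⟨h1, h2⟩ := (mem_Jv51 G).1 hx
  obtain ⟨hp, hq⟩ := pJ57 G O hB.1 hx
  have hp' := (mem_Jv51 G).1 hp
  have h3 : p (p x) = x := by
    rw [h]
    exact O.qp _ h1 ((mem_Jv51 G).1 hq).1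
  have h5 := (O.cyc v {x, p x} ⟨x, Finset.mem_insert_self _ _⟩ (by
    intro y hy
    rw [Finset.mem_insert, Finset.mem_singleton] at hy
    rcases hy with rfl | rfl
    · exact ⟨h1, h2, Finset.mem_insert_of_mem (Finset.mem_singleton_self _)⟩
    · exact ⟨hp'.1, hp'.2, by rw [h3]; exact Finset.mem_insert_self _ _⟩)).2
  have h6 : Jv G v ⊆ {x, p x} := fun y hy => h5 y ((mem_Jv51 G).1 hy).1 ((mem_Jv51 G).1 hy).2
  have h7 := Finset.card_le_card h6
  have h8 : ({x, p x} : Finset (V × V)).card ≤ 2 := Finset.card_le_two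
  have := J4_57 G hG hB
  omega

/-- **the deficient points without a side between two rhombi** -/
theorem Kst57 {s : V × V → V × V} (hG : G.Geo al kp U) (O : Or62 G opp s s' p q)
    (c : Ch62 al Q opp g m)
    {F : V × V → Prop} (f : Fc62 G Q opp g m F) (hm : 2 * opp (g m) = 2 * Real.pi - 3 * al)
    {v : V} (hK : KP57 G al F p v) :
    ∃ t0 ∈ Jv G v, G.cI (G.cl t0) = ∅ ∧ p t0 ∈ Jv G v ∧ q t0 ∈ Jv G v ∧
      RC G (G.cl (p t0)) ∧ RC G (G.cl (q t0)) ∧ TH G (p t0) = opp (g m) ∧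
      TH G (q t0) = opp (g m) ∧ p t0 ≠ q t0 := by
  obtain ⟨hB, hF, hno⟩ := hK
  obtain ⟨h1, h2⟩ := count62 G hG hB
  have hTR := hB.2.2
  obtain ⟨JR, hJR⟩ : ∃ JR, JR = (Jv G v).filter (fun x => RC G (G.cl x)) := ⟨_, rfl⟩
  obtain ⟨JT, hJT⟩ : ∃ JT, JT = (Jv G v).filter (fun x => ¬ RC G (G.cl x)) := ⟨_, rfl⟩
  have hmR : ∀ x, x ∈ JR ↔ x ∈ Jv G v ∧ RC G (G.cl x) := by
    intro x
    rw [hJR, Finset.mem_filter]
  have hmT : ∀ x, x ∈ JT ↔ x ∈ Jv G v ∧ ¬ RC G (G.cl x) := by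
    intro x
    rw [hJT, Finset.mem_filter]
  rw [← hJR, ← hJT] at h1 h2
  have hpT : ∀ x ∈ JR, p x ∈ JT := by
    intro x hx
    obtain ⟨h3, h4⟩ := (hmR x).1 hx
    exact (hmT _).2 ⟨(pJ57 G O hB.1 h3).1, hno x h3 h4⟩
  have hqT : ∀ x ∈ JR, q x ∈ JT := by
    intro x hx
    obtain ⟨h3, h4⟩ := (hmR x).1 hx
    have h5 := (pJ57 G O hB.1 h3).2
    refine (hmT _).2 ⟨h5, fun h6 => hno _ h5 h6 ?_⟩
    rw [O.qp _ ((mem_Jv51 G).1 h3).1 ((mem_Jv51 G).1 h5).1]
    exact h4
  have hqp : ∀ x ∈ Jv G v, q (p x) = x := fun x hx =>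
    O.pq _ ((mem_Jv51 G).1 hx).1 ((mem_Jv51 G).1 (pJ57 G O hB.1 hx).1).1
  have hpq : ∀ x ∈ Jv G v, p (q x) = x := fun x hx =>
    O.qp _ ((mem_Jv51 G).1 hx).1 ((mem_Jv51 G).1 (pJ57 G O hB.1 hx).2).1
  have hle : JR.card ≤ JT.card := by
    apply Finset.card_le_card_of_injOn p
    · intro x hx
      exact Finset.mem_coe.2 (hpT x (Finset.mem_coe.1 hx))
    · intro x hx y hy h
      rw [← hqp x ((hmR x).1 (Finset.mem_coe.1 hx)).1, h,
        hqp y ((hmR y).1 (Finset.mem_coe.1 hy)).1]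
  have hcases : JR.card = 0 ∨ JR.card = 1 ∨ JR.card = 2 := by omega
  rcases hcases with h0 | h0 | h0
  · exfalso
    have h3 : JT.card = 7 := by omega
    rw [Finset.card_eq_zero] at h0
    rw [h3, h0, Finset.sum_empty] at h2
    push_cast at h2
    linarith [c.al7]
  · exfalso
    obtain ⟨x, hx⟩ := Finset.card_eq_one.1 h0
    have h3 : JT.card = 5 := by omega
    rw [h3, hx, Finset.sum_singleton] at h2
    push_cast at h2
    have hxR := (hmR x).1 (by rw [hx]; exact Finset.mem_singleton_self x)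
    have h4 : TH G x = g 0 := by
      rw [c.g0]
      linarith
    apply hF x hxR.1 hxR.2
    rw [f.lo x ((mem_Jv51 G).1 hxR.1).1 hxR.2 (by rw [h4]; exact c.gm (Nat.zero_le _))]
    exact ⟨0, Nat.zero_le _, h4⟩
  · obtain ⟨x, y, hxy, hJe⟩ := Finset.card_eq_two.1 h0
    have h3 : JT.card = 3 := by omega
    rw [h3, hJe, Finset.sum_pair hxy] at h2
    push_cast at h2
    have hxR' : x ∈ JR := by
      rw [hJe]
      exact Finset.mem_insert_self _ _
    have hyR' : y ∈ JR := by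
      rw [hJe]
      exact Finset.mem_insert_of_mem (Finset.mem_singleton_self _)
    have hxR := (hmR x).1 hxR'
    have hyR := (hmR y).1 hyR'
    -- both angles are `opp (g m)`
    have key : ∀ a b : V × V, a ∈ Jv G v → b ∈ Jv G v → a ≠ b → RC G (G.cl a) → RC G (G.cl b) →
        TH G a + TH G b = 2 * Real.pi - 3 * al → TH G a ≤ TH G b →
        TH G a = opp (g m) ∧ TH G b = opp (g m) := by
      intro a b ha hb hab ra rb hs hle
      have hbQ : Q < TH G b := by
        by_contra h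
        push Not at h
        exact c1_62 G hG c hB ha hb hab ra rb (hle.trans h) h
      obtain ⟨j, hj, hbj⟩ := (f.hi b ((mem_Jv51 G).1 hb).1 rb hbQ).1 (hF b hb rb)
      have haQ : Q < TH G a := by
        by_contra h
        push Not at h
        rcases Nat.eq_or_lt_of_le hj with rfl | hlt
        · have := c.Qb
          linarith
        · have h5 := c.gs j hlt
          have h6 : TH G a = g (j + 1) := by linarith
          apply hF a ha ra
          rw [f.lo a ((mem_Jv51 G).1 ha).1 ra (by rw [h6]; exact c.gm hlt)]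
          exact ⟨j + 1, hlt, h6⟩
      obtain ⟨i, hi, hai⟩ := (f.hi a ((mem_Jv51 G).1 ha).1 ra haQ).1 (hF a ha ra)
      have hlow : ∀ k, k ≤ m → opp (g m) ≤ opp (g k) := by
        intro k hk
        rcases Nat.eq_or_lt_of_le hk with rfl | hlt
        · exact le_rfl
        · exact (c.banti hlt le_rfl).le
      have h5 := hlow i hi
      have h6 := hlow j hj
      rw [hai, hbj] at hs ⊢
      constructor <;> linarith
    have hxy2 : TH G x = opp (g m) ∧ TH G y = opp (g m) := by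
      rcases le_total (TH G x) (TH G y) with h | h
      · exact key x y hxR.1 hyR.1 hxy hxR.2 hyR.2 (by linarith) h
      · exact (key y x hyR.1 hxR.1 hxy.symm hyR.2 hxR.2 (by linarith) h).symm
    -- the triangle between them
    have hJRm : ∀ a ∈ JR, a ∈ Jv G v ∧ RC G (G.cl a) ∧ TH G a = opp (g m) := by
      intro a ha
      rw [hJe, Finset.mem_insert, Finset.mem_singleton] at ha
      rcases ha with rfl | rfl
      · exact ⟨hxR.1, hxR.2, hxy2.1⟩
      · exact ⟨hyR.1, hyR.2, hxy2.2⟩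
    have hmeet : ¬ Disjoint (JR.image p) (JR.image q) := by
      intro hd
      have h5 : (JR.image p).card = 2 := by
        rw [Finset.card_image_of_injOn, h0]
        intro a ha b hb h
        rw [← hqp a ((hmR a).1 (Finset.mem_coe.1 ha)).1, h,
          hqp b ((hmR b).1 (Finset.mem_coe.1 hb)).1]
      have h6 : (JR.image q).card = 2 := by
        rw [Finset.card_image_of_injOn, h0]
        intro a ha b hb h
        rw [← hpq a ((hmR a).1 (Finset.mem_coe.1 ha)).1, h,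
          hpq b ((hmR b).1 (Finset.mem_coe.1 hb)).1]
      have h7 : JR.image p ∪ JR.image q ⊆ JT := by
        intro z hz
        rw [Finset.mem_union] at hz
        rcases hz with hz | hz
        · obtain ⟨a, ha, rfl⟩ := Finset.mem_image.1 hz
          exact hpT a ha
        · obtain ⟨a, ha, rfl⟩ := Finset.mem_image.1 hz
          exact hqT a ha
      have h8 := Finset.card_le_card h7
      rw [Finset.card_union_of_disjoint hd] at h8
      omega
    rw [Finset.not_disjoint_iff] at hmeet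
    obtain ⟨t, ht1, ht2⟩ := hmeet
    obtain ⟨a, ha, hat⟩ := Finset.mem_image.1 ht1
    obtain ⟨b, hb, hbt⟩ := Finset.mem_image.1 ht2
    have haJ := hJRm a ha
    have hbJ := hJRm b hb
    have htT := hpT a ha
    rw [hat] at htT
    have e1 : q t = a := by
      rw [← hat]
      exact hqp a haJ.1
    have e2 : p t = b := by
      rw [← hbt]
      exact hpq b hbJ.1
    have htJ := ((hmT t).1 htT).1
    refine ⟨t, htJ, (hTR t htJ).resolve_right ((hmT t).1 htT).2, ?_, ?_, ?_, ?_, ?_, ?_, ?_⟩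
    · rw [e2]
      exact hbJ.1
    · rw [e1]
      exact haJ.1
    · rw [e2]
      exact hbJ.2.1
    · rw [e1]
      exact haJ.2.1
    · rw [e2]
      exact hbJ.2.2
    · rw [e1]
      exact haJ.2.2
    · exact pq57 G hG O hB htJ

/-- **a side between two rhombi at a deficient point ends at a point without seven units** -/
theorem zb57 (hG : G.Geo al kp U) (O : Or62 G opp (sg G) s' p q)
    (c : Ch62 al Q opp g m)
    {F : V × V → Prop} (f : Fc62 G Q opp g m F) (hm : 2 * opp (g m) = 2 * Real.pi - 3 * al)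
    (hF : ∀ x ∈ iJ G, RC G (G.cl x) → (F (sg G x) ↔ ¬ F x))
    {v : V} (hD : Df57 G al F v) {x : V × V} (hx : x ∈ Jv G v) (rx : RC G (G.cl x))
    (rp : RC G (G.cl (p x))) :
    s' (p x) ∈ iJ G ∧ sg G x ∈ iJ G ∧ RC G (G.cl (s' (p x))) ∧ RC G (G.cl (sg G x)) ∧
      F (s' (p x)) ∧ F (sg G x) ∧ (s' (p x)).1 = (sg G x).1 ∧ p (s' (p x)) = sg G x ∧
      q (sg G x) = s' (p x) ∧ ¬ B7 G al (sg G x).1 := by
  obtain ⟨hB, hnF⟩ := hD
  obtain ⟨hpJ, hqJ⟩ := pJ57 G O hB.1 hx
  have ix := ((mem_Jv51 G).1 hx).1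
  have ip := ((mem_Jv51 G).1 hpJ).1
  have ia := O.s2 _ ip
  have ib := O.s1 _ ix
  have ra : RC G (G.cl (s' (p x))) := by
    rw [O.s2c _ ip]
    exact rp
  have rb : RC G (G.cl (sg G x)) := by
    rw [O.s1c _ ix]
    exact rx
  have e1 : p (s' (p x)) = sg G x := O.ps _ ix ip
  have e2 : q (sg G x) = s' (p x) := by
    rw [← e1]
    exact O.pq _ ia (by rw [e1]; exact ib)
  have e3 : (s' (p x)).1 = (sg G x).1 := by
    rw [← e1]
    exact (O.pf _ ia (by rw [e1]; exact ib)).symm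
  have fa : F (s' (p x)) := by
    have h1 := hF _ ia ra
    rw [O.s21 _ ip] at h1
    by_contra h2
    exact hnF _ hpJ rp (h1.2 h2)
  have fb : F (sg G x) := (hF _ ix rx).2 (hnF x hx rx)
  refine ⟨ia, ib, ra, rb, fa, fb, e3, e1, e2, fun hBu => ?_⟩
  have haJ : s' (p x) ∈ Jv G (sg G x).1 := (mem_Jv51 G).2 ⟨ia, e3⟩
  have hbJ : sg G x ∈ Jv G (sg G x).1 := (mem_Jv51 G).2 ⟨ib, rfl⟩
  have hab : s' (p x) ≠ sg G x := by
    intro h
    apply ne57 G hG O hBu haJ
    rw [e1, h]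
  have hxp : x ≠ p x := (ne57 G hG O hB hx).symm
  have tb : TH G (sg G x) = opp (TH G x) := O.o1 _ ix rx
  have ta : TH G (s' (p x)) = opp (TH G (p x)) := O.o2 _ ip rp
  have hend : Q < 2 * Real.pi - 3 * al - opp (g m) := by
    have := c.Qb
    linarith
  rcases le_or_gt (TH G x) Q with h1 | h1
  · rcases le_or_gt (TH G (p x)) Q with h2 | h2
    · exact c1_62 G hG c hB hx hpJ hxp rx rp h1 h2
    · obtain ⟨k, hk, hkt⟩ := (f.hi _ ip rp h2).1 (hnF _ hpJ rp)
      have h3 := two62 G hG hB hx hpJ hxp rx rp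
      have h4 := two62 G hG hBu hbJ haJ hab.symm rb ra
      rw [tb, ta, hkt, c.goo hk] at h4
      rw [hkt] at h3
      exact c.nz hk (fun h => Or.inl (by linarith)) h1 h3 h4
  · obtain ⟨k, hk, hkt⟩ := (f.hi _ ix rx h1).1 (hnF _ hx rx)
    rcases le_or_gt (TH G (p x)) Q with h2 | h2
    · have h3 := two62 G hG hB hpJ hx hxp.symm rp rx
      have h4 := two62 G hG hBu haJ hbJ hab ra rb
      rw [tb, ta, hkt, c.goo hk] at h4
      rw [hkt] at h3
      exact c.nz hk (fun h => Or.inl (by linarith)) h2 h3 h4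
    · obtain ⟨l, hl, hlt⟩ := (f.hi _ ip rp h2).1 (hnF _ hpJ rp)
      apply c1_62 G hG c hBu haJ hbJ hab ra rb
      · rw [ta, hlt, c.goo hl]
        exact (c.gm hl).le
      · rw [tb, hkt, c.goo hk]
        exact (c.gm hk).le

end D

end

end Pool.Agent.PEN
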