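import Pool.Agent.P4.Tk57a

/-! # PENNY, token rows: the accounting -/

set_option autoImplicit false

namespace Pool.Agent.PEN

open Classical UpperHalfPlane

noncomputable section

/-- transfer of values -/
theorem tok57 {V : Type} (P : Finset V) (sl : V → ℝ) (Tk : V → Finset ((V × V) × ℕ))
    (loc : (V × V) × ℕ → V) (val : (V × V) × ℕ → ℝ)
    (hdis : ∀ v ∈ P, ∀ v' ∈ P, v ≠ v' → Disjoint (Tk v) (Tk v'))
    (hloc : ∀ v ∈ P, ∀ t ∈ Tk v, loc t ∈ P)
    (h : ∀ v ∈ P, ∑ t ∈ (P.biUnion Tk).filter (fun t => loc t = v), val t ≤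
      sl v + ∑ t ∈ Tk v, val t) : 0 ≤ ∑ v ∈ P, sl v := by
  have h1 : ∑ v ∈ P, ∑ t ∈ (P.biUnion Tk).filter (fun t => loc t = v), val t =
      ∑ t ∈ P.biUnion Tk, val t := by
    refine Finset.sum_fiberwise_of_maps_to (s := P.biUnion Tk) (t := P) (g := loc) ?_ _
    intro t ht
    rw [Finset.mem_biUnion] at ht
    obtain ⟨v, hv, ht⟩ := ht
    exact hloc v hv t ht
  have h2 : ∑ t ∈ P.biUnion Tk, val t = ∑ v ∈ P, ∑ t ∈ Tk v, val t :=
    Finset.sum_biUnion (fun v hv v' hv' hne => hdis v hv v' hv' hne)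
  have h3 := Finset.sum_le_sum h
  rw [h1, h2, Finset.sum_add_distrib] at h3
  linarith

/-- the value of a token -/
def val57 {V : Type} (fr : V × V → ℝ) (t : (V × V) × ℕ) : ℝ := if t.2 = 2 then 1 / 2 else fr t.1 / 2

theorem val0_57 {V : Type} (fr : V × V → ℝ) (k : V × V) : val57 fr (k, 0) = fr k / 2 := by
  unfold val57
  rw [if_neg (by norm_num)]

theorem val1_57 {V : Type} (fr : V × V → ℝ) (k : V × V) : val57 fr (k, 1) = fr k / 2 := by
  unfold val57
  rw [if_neg (by norm_num)]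

theorem val2_57 {V : Type} (fr : V × V → ℝ) (k : V × V) : val57 fr (k, 2) = 1 / 2 := by
  unfold val57
  rw [if_pos rfl]

theorem valn_57 {V : Type} (fr : V × V → ℝ) (t : (V × V) × ℕ) (h : 0 ≤ fr t.1) : 0 ≤ val57 fr t := by
  unfold val57
  split_ifs
  · norm_num
  · linarith

/-- tokens of one corner -/
theorem cor57 {V : Type} (S : Finset ((V × V) × ℕ)) (fr : V × V → ℝ) (k : V × V)
    (h0 : 0 ≤ fr k) (hn : ∀ n, (k, n) ∈ S → n ≤ 2) :
    ∑ t ∈ S.filter (fun t => t.1 = k), val57 fr t ≤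
      fr k + if (k, 2) ∈ S then 1 / 2 else 0 := by
  have n01 : ((k, 0) : (V × V) × ℕ) ≠ (k, 1) := fun h => absurd (congrArg Prod.snd h) (by norm_num)
  have n02 : ((k, 0) : (V × V) × ℕ) ≠ (k, 2) := fun h => absurd (congrArg Prod.snd h) (by norm_num)
  have n12 : ((k, 1) : (V × V) × ℕ) ≠ (k, 2) := fun h => absurd (congrArg Prod.snd h) (by norm_num)
  have hmem : ∀ t ∈ S.filter (fun t => t.1 = k), t = (k, 0) ∨ t = (k, 1) ∨
      (t = (k, 2) ∧ (k, 2) ∈ S) := by
    rintro ⟨k', n⟩ ht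
    rw [Finset.mem_filter] at ht
    obtain ⟨ht, hk⟩ := ht
    simp only at hk
    subst hk
    have := hn n ht
    have h3 : n = 0 ∨ n = 1 ∨ n = 2 := by omega
    rcases h3 with rfl | rfl | rfl
    · exact Or.inl rfl
    · exact Or.inr (Or.inl rfl)
    · exact Or.inr (Or.inr ⟨rfl, ht⟩)
  by_cases h2 : (k, 2) ∈ S
  · rw [if_pos h2]
    have e : ∑ t ∈ ({(k, 0), (k, 1), (k, 2)} : Finset ((V × V) × ℕ)), val57 fr t = fr k + 1 / 2 := by
      rw [Finset.sum_insert (by
        rw [Finset.mem_insert, Finset.mem_singleton]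
        rintro (h | h)
        · exact n01 h
        · exact n02 h), Finset.sum_pair n12, val0_57, val1_57, val2_57]
      ring
    rw [← e]
    apply Finset.sum_le_sum_of_subset_of_nonneg
    · intro t ht
      rw [Finset.mem_insert, Finset.mem_insert, Finset.mem_singleton]
      rcases hmem t ht with h | h | ⟨h, _⟩
      · exact Or.inl h
      · exact Or.inr (Or.inl h)
      · exact Or.inr (Or.inr h)
    · intro t ht _
      rw [Finset.mem_insert, Finset.mem_insert, Finset.mem_singleton] at ht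
      apply valn_57
      rcases ht with rfl | rfl | rfl <;> exact h0
  · rw [if_neg h2]
    have e : ∑ t ∈ ({(k, 0), (k, 1)} : Finset ((V × V) × ℕ)), val57 fr t = fr k + 0 := by
      rw [Finset.sum_pair n01, val0_57, val1_57]
      ring
    rw [← e]
    apply Finset.sum_le_sum_of_subset_of_nonneg
    · intro t ht
      rw [Finset.mem_insert, Finset.mem_singleton]
      rcases hmem t ht with h | h | ⟨_, h⟩
      · exact Or.inl h
      · exact Or.inr h
      · exact absurd h h2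
    · intro t ht _
      rw [Finset.mem_insert, Finset.mem_singleton] at ht
      apply valn_57
      rcases ht with rfl | rfl <;> exact h0

section D
variable {V : Type} (G : Tg V) {al : ℝ} {kp : V → V → ℝ} {U : ℕ → ℝ}
variable {Q : ℝ} {opp : ℝ → ℝ} {g : ℕ → ℝ} {m : ℕ} {s' p q : V × V → V × V}

/-- the values of the function `fr` -/
structure Fr57 (Q : ℝ) (opp : ℝ → ℝ) (g : ℕ → ℝ) (m : ℕ) (de : ℝ) (F : V × V → Prop)
    (fr : V × V → ℝ) : Prop where
  sg : ∀ x ∈ iJ G, RC G (G.cl x) → fr (sg G x) = 1 - fr x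
  lo : ∀ x ∈ iJ G, RC G (G.cl x) → ∀ j ≤ m, TH G x = g j → fr x = 1 - ((j : ℝ) + 1) * de
  hi : ∀ x ∈ iJ G, RC G (G.cl x) → ∀ j ≤ m, TH G x = opp (g j) → fr x = ((j : ℝ) + 1) * de
  el : ∀ x ∈ iJ G, RC G (G.cl x) → (∀ j ≤ m, TH G x ≠ g j) → (∀ j ≤ m, TH G x ≠ opp (g j)) →
    fr x = if F x then 1 else 0

/-- **the accounting** -/
theorem acc57 (hG : G.Geo al kp U) (O : Or62 G opp (sg G) s' p q) (c : Ch62 al Q opp g m)
    {F : V × V → Prop} (f : Fc62 G Q opp g m F) (hm : 2 * opp (g m) = 2 * Real.pi - 3 * al)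
    (hg : g m ≤ 3 / 2 * al) {de : ℝ} (hd0 : 0 ≤ de) (hd1 : ((m : ℝ) + 1) * de ≤ 1 / 2)
    (hF : ∀ x ∈ iJ G, RC G (G.cl x) → (F (sg G x) ↔ ¬ F x))
    {fr : V × V → ℝ} (hfr : Fr57 G Q opp g m de F fr)
    (hA : ∀ C ∈ G.iC, A3 al * (G.cT C).card ≤ ∑ x ∈ G.cD C, G.ar x.1 x.2 / 3)
    (hP : ∀ C ∈ G.iC, (G.cT C).card = 3 → (G.cI C).card = 4 → ∑ x ∈ G.cJ C, wc G al x ≤ 12)
    (cl : V → Finset ((V × V) × ℕ))
    (hcl : ∀ v, KP57 G al F p v → ∀ t ∈ cl v, t.1 ∈ iJ G ∧ RC G (G.cl t.1) ∧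
      (∃ j ≤ m, TH G t.1 = g j) ∧ ¬ Tight62 G al F t.1 ∧ t.2 ≤ 2 ∧ (t.2 = 2 → t.1.1 ∉ inN G) ∧
      (t.2 = 0 → p t.1 ∈ iJ G → RC G (G.cl (p t.1)) → ¬ F (p t.1)) ∧
      (t.2 = 1 → q t.1 ∈ iJ G → RC G (G.cl (q t.1)) → ¬ F (q t.1)))
    (hdis : ∀ v v', KP57 G al F p v → KP57 G al F p v' → v ≠ v' → Disjoint (cl v) (cl v'))
    (hval : ∀ v, KP57 G al F p v →
      1 - (2 * (m : ℝ) + 3) * de ≤ ∑ t ∈ cl v, (if t.2 = 2 then 1 / 2 else fr t.1 / 2)) :
    (8 * al - 2 * Real.pi - de * al) * ((G.P.card : ℝ) - G.oJ.card) ≤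
      2 * al * G.iI.card + (∑ x ∈ G.iD, G.ar x.1 x.2 / 3 - A3 al * (G.iD.card / 3)) := by
  have hal := al_pos71 G hG
  have hpi := Real.pi_pos
  have hm0 : (0 : ℝ) ≤ (m : ℝ) := Nat.cast_nonneg m
  -- `fr`
  have hjm : ∀ j ≤ m, ((j : ℝ) + 1) * de ≤ 1 / 2 := by
    intro j hj
    have h1 : (j : ℝ) ≤ (m : ℝ) := by exact_mod_cast hj
    have h2 := mul_le_mul_of_nonneg_right (by linarith : (j : ℝ) + 1 ≤ (m : ℝ) + 1) hd0
    linarith
  have hjn : ∀ j : ℕ, 0 ≤ ((j : ℝ) + 1) * de := fun j =>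
    mul_nonneg (by have : (0 : ℝ) ≤ (j : ℝ) := Nat.cast_nonneg j; linarith) hd0
  have hfr0 : ∀ x ∈ iJ G, RC G (G.cl x) → 0 ≤ fr x := by
    intro x hx rx
    by_cases h1 : ∃ j ≤ m, TH G x = g j
    · obtain ⟨j, hj, h1⟩ := h1
      rw [hfr.lo x hx rx j hj h1]
      linarith [hjm j hj]
    · by_cases h2 : ∃ j ≤ m, TH G x = opp (g j)
      · obtain ⟨j, hj, h2⟩ := h2
        rw [hfr.hi x hx rx j hj h2]
        exact hjn j
      · rw [hfr.el x hx rx (fun j hj h => h1 ⟨j, hj, h⟩) (fun j hj h => h2 ⟨j, hj, h⟩)]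
        split_ifs <;> norm_num
  have hfr1 : ∀ x ∈ iJ G, RC G (G.cl x) → F x → (∀ j ≤ m, TH G x ≠ g j) → fr x = 1 := by
    intro x hx rx hFx h1
    rw [hfr.el x hx rx h1, if_pos hFx]
    intro j hj h
    exact (f.hi x hx rx (by rw [h]; exact c.bQ hj)).2 ⟨j, hj, h⟩ hFx
  have hxrR : ∀ x, RC G (G.cl x) → xr G fr x = fr x := by
    intro x rx
    unfold xr
    rw [if_neg (RC_ne51 G rx), if_pos rx]
  have hbwR : ∀ x, RC G (G.cl x) → (bw G al x : ℝ) = 2 := by
    intro x rx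
    unfold bw
    rw [if_neg (RC_ne51 G rx), if_pos rx]
    norm_num
  have hxr0 : ∀ x ∈ iJ G, 0 ≤ xr G fr x := by
    intro x hx
    unfold xr
    split_ifs with h1 h2
    · exact le_rfl
    · exact hfr0 x hx h2
    · norm_num
  -- the sides between two rhombi
  have hXe : ∀ v, ∃ x : V × V, Df57 G al F v → ¬ KP57 G al F p v →
      x ∈ Jv G v ∧ RC G (G.cl x) ∧ RC G (G.cl (p x)) := by
    intro v
    by_cases h : ∃ x ∈ Jv G v, RC G (G.cl x) ∧ RC G (G.cl (p x))
    · obtain ⟨x, h1, h2, h3⟩ := h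
      exact ⟨x, fun _ _ => ⟨h1, h2, h3⟩⟩
    · refine ⟨(v, v), fun h1 h2 => absurd ⟨h1.1, h1.2, fun x hx rx rp => h ⟨x, hx, rx, rp⟩⟩ h2⟩
  choose X hX using hXe
  have hz : ∀ v, Df57 G al F v → ¬ KP57 G al F p v →
      X v ∈ iJ G ∧ (X v).1 = v ∧ p (X v) ∈ Jv G v ∧
      s' (p (X v)) ∈ iJ G ∧ sg G (X v) ∈ iJ G ∧ RC G (G.cl (s' (p (X v)))) ∧
      RC G (G.cl (sg G (X v))) ∧
      F (s' (p (X v))) ∧ F (sg G (X v)) ∧ (s' (p (X v))).1 = (sg G (X v)).1 ∧
      p (s' (p (X v))) = sg G (X v) ∧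
      q (sg G (X v)) = s' (p (X v)) ∧ ¬ B7 G al (sg G (X v)).1 := by
    intro v h1 h2
    obtain ⟨h3, h4, h5⟩ := hX v h1 h2
    exact ⟨((mem_Jv51 G).1 h3).1, ((mem_Jv51 G).1 h3).2, (pJ57 G O h1.1.1 h3).1,
      zb57 G hG O c f hm hF h1 h3 h4 h5⟩
  -- the tokens
  obtain ⟨Tk, hTk⟩ : ∃ Tk : V → Finset ((V × V) × ℕ), ∀ v, Tk v =
      if KP57 G al F p v then cl v else
        if Df57 G al F v then {(s' (p (X v)), 0), (sg G (X v), 1)} else ∅ := ⟨_, fun _ => rfl⟩
  have mT : ∀ v, ∀ t ∈ Tk v, (KP57 G al F p v ∧ t ∈ cl v) ∨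
      (Df57 G al F v ∧ ¬ KP57 G al F p v ∧
        (t = (s' (p (X v)), 0) ∨ t = (sg G (X v), 1))) := by
    intro v t ht
    rw [hTk] at ht
    by_cases h1 : KP57 G al F p v
    · rw [if_pos h1] at ht
      exact Or.inl ⟨h1, ht⟩
    · rw [if_neg h1] at ht
      by_cases h2 : Df57 G al F v
      · rw [if_pos h2, Finset.mem_insert, Finset.mem_singleton] at ht
        exact Or.inr ⟨h2, h1, ht⟩
      · rw [if_neg h2] at ht
        exact absurd ht (Finset.notMem_empty _)
  have tf : ∀ v, ∀ t ∈ Tk v, t.1 ∈ iJ G ∧ RC G (G.cl t.1) ∧ F t.1 ∧ t.2 ≤ 2 ∧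
      (t.2 = 2 → t.1.1 ∉ inN G ∧ TH G t.1 ≤ 3 / 2 * al) ∧
      (B7 G al t.1.1 → (∃ j ≤ m, TH G t.1 = g j) ∧ ¬ Tight62 G al F t.1) := by
    intro v t ht
    rcases mT v t ht with ⟨h1, h2⟩ | ⟨h1, h2, h3⟩
    · obtain ⟨k1, k2, ⟨j, hj, k3⟩, k4, k5, k6, _, _⟩ := hcl v h1 t h2
      refine ⟨k1, k2, ?_, k5, fun h => ⟨k6 h, ?_⟩, fun _ => ⟨⟨j, hj, k3⟩, k4⟩⟩
      · exact (f.lo _ k1 k2 (by rw [k3]; exact c.gm hj)).2 ⟨j, hj, k3⟩
      · rw [k3]
        rcases Nat.eq_or_lt_of_le hj with rfl | hlt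
        · exact hg
        · exact (c.mono j m hlt le_rfl).le.trans hg
    · obtain ⟨z1, z2, z3, z4, z5, z6, z7, z8, z9, z10, z11, z12, z13⟩ := hz v h1 h2
      rcases h3 with rfl | rfl
      · refine ⟨z4, z6, z8, by norm_num, fun h => absurd h (by norm_num), fun h => ?_⟩
        exact absurd (by rw [← z10]; exact h) z13
      · exact ⟨z5, z7, z9, by norm_num, fun h => absurd h (by norm_num), fun h => absurd h z13⟩
  have hdisT : ∀ v ∈ G.P, ∀ v' ∈ G.P, v ≠ v' → Disjoint (Tk v) (Tk v') := by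
    have hmix : ∀ v v' t, KP57 G al F p v → t ∈ cl v → Df57 G al F v' → ¬ KP57 G al F p v' →
        (t = (s' (p (X v')), 0) ∨ t = (sg G (X v'), 1)) → False := by
      intro v v' t h1 h2 h3 h4 h5
      obtain ⟨k1, k2, _, k4, k5, k6, k7, k8⟩ := hcl v h1 t h2
      obtain ⟨z1, z2, z3, z4, z5, z6, z7, z8, z9, z10, z11, z12, z13⟩ := hz v' h3 h4
      rcases h5 with rfl | rfl
      · dsimp only at k7
        rw [z11] at k7
        exact k7 rfl z5 z7 z9
      · dsimp only at k8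
        rw [z12] at k8
        exact k8 rfl z4 z6 z8
    intro v _ v' _ hne
    rw [Finset.disjoint_left]
    intro t ht ht'
    rcases mT v t ht with ⟨h1, h2⟩ | ⟨h1, h2, h3⟩
    · rcases mT v' t ht' with ⟨k1, k2⟩ | ⟨k1, k2, k3⟩
      · exact Finset.disjoint_left.1 (hdis v v' h1 k1 hne) h2 k2
      · exact hmix v v' t h1 h2 k1 k2 k3
    · rcases mT v' t ht' with ⟨k1, k2⟩ | ⟨k1, k2, k3⟩
      · exact hmix v' v t k1 k2 h1 h2 h3
      · obtain ⟨z1, z2, z3, z4, z5, z6, z7, z8, z9, z10, z11, z12, z13⟩ := hz v h1 h2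
        obtain ⟨y1, y2, y3, y4, y5, y6, y7, y8, y9, y10, y11, y12, y13⟩ := hz v' k1 k2
        have hXX : sg G (X v) = sg G (X v') := by
          rcases h3 with h3 | h3 <;> rcases k3 with k3 | k3
          · have h4 : s' (p (X v)) = s' (p (X v')) := congrArg Prod.fst (h3.symm.trans k3)
            rw [← z11, ← y11, h4]
          · exact absurd (congrArg Prod.snd (h3.symm.trans k3)) (by norm_num)
          · exact absurd (congrArg Prod.snd (h3.symm.trans k3)) (by norm_num)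
          · exact congrArg Prod.fst (h3.symm.trans k3)
        apply hne
        have h5 : X v = X v' := by
          rw [← O.s12 _ z1, hXX, O.s12 _ y1]
        rw [← z2, ← y2, h5]
  obtain ⟨TU, hTU⟩ : ∃ TU, TU = G.P.biUnion Tk := ⟨_, rfl⟩
  have tfU : ∀ t ∈ TU, t.1 ∈ iJ G ∧ RC G (G.cl t.1) ∧ F t.1 ∧ t.2 ≤ 2 ∧
      (t.2 = 2 → t.1.1 ∉ inN G ∧ TH G t.1 ≤ 3 / 2 * al) ∧
      (B7 G al t.1.1 → (∃ j ≤ m, TH G t.1 = g j) ∧ ¬ Tight62 G al F t.1) := by
    intro t ht
    rw [hTU, Finset.mem_biUnion] at ht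
    obtain ⟨v, _, ht⟩ := ht
    exact tf v t ht
  obtain ⟨W, hW⟩ : ∃ W : V × V → ℝ, ∀ k, W k =
      ∑ t ∈ TU.filter (fun t => t.1 = k), val57 fr t := ⟨_, fun _ => rfl⟩
  have hWs : ∀ v, ∑ t ∈ TU.filter (fun t => t.1.1 = v), val57 fr t = ∑ k ∈ Jv G v, W k := by
    intro v
    have h1 : ∑ k ∈ Jv G v, ∑ t ∈ (TU.filter (fun t => t.1.1 = v)).filter (fun t => t.1 = k),
        val57 fr t = ∑ t ∈ TU.filter (fun t => t.1.1 = v), val57 fr t := by
      refine Finset.sum_fiberwise_of_maps_to (g := Prod.fst) ?_ _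
      intro t ht
      rw [Finset.mem_filter] at ht
      exact (mem_Jv51 G).2 ⟨(tfU t ht.1).1, ht.2⟩
    rw [← h1]
    refine Finset.sum_congr rfl fun k hk => ?_
    rw [hW, Finset.filter_filter]
    refine Finset.sum_congr ?_ fun _ _ => rfl
    apply Finset.filter_congr
    intro t _
    constructor
    · exact fun h => h.2
    · intro h
      exact ⟨by rw [h]; exact ((mem_Jv51 G).1 hk).2, h⟩
  have hW0 : ∀ k, (∀ t ∈ TU, t.1 ≠ k) → W k = 0 := by
    intro k hk
    rw [hW, Finset.filter_eq_empty_iff.2 (fun t ht => hk t ht), Finset.sum_empty]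
  have hW1 : ∀ k ∈ iJ G, RC G (G.cl k) → W k ≤ fr k + if (k, 2) ∈ TU then 1 / 2 else 0 := by
    intro k hk rk
    rw [hW]
    exact cor57 TU fr k (hfr0 k hk rk) (fun n hn => (tfU _ hn).2.2.2.1)
  have hW2 : ∀ k ∈ iJ G, (k, 2) ∉ TU → W k ≤ xr G fr k := by
    intro k hk h2
    by_cases rk : RC G (G.cl k)
    · have := hW1 k hk rk
      rw [if_neg h2, add_zero] at this
      rw [hxrR k rk]
      exact this
    · rw [hW0 k (fun t ht h => rk (by rw [← h]; exact (tfU t ht).2.1))]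
      exact hxr0 k hk
  have hvn : ∀ v, 0 ≤ ∑ t ∈ Tk v, val57 fr t := by
    intro v
    apply Finset.sum_nonneg
    intro t ht
    obtain ⟨h1, h2, _⟩ := tf v t ht
    exact valn_57 fr t (hfr0 _ h1 h2)
  obtain ⟨w, hw⟩ : ∃ w : V × V → ℝ, w = fun x => (bw G al x : ℝ) + xr G fr x := ⟨_, rfl⟩
  -- the slack of the points
  have main : 0 ≤ ∑ v ∈ G.P, slk G al w (8 - de) v := by
    apply tok57 G.P (slk G al w (8 - de)) Tk (fun t => t.1.1) (val57 fr) hdisT
    · intro v _ t ht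
      have h1 := (tf v t ht).1
      rw [mem_iJ71] at h1
      exact G.mem _ _ (G.sub h1.1.1)
    intro v hvP
    rw [← hTU, hWs]
    by_cases hvN : v ∈ inN G
    swap
    · -- outside `N`
      have h1 : slk G al w (8 - de) v = ∑ x ∈ Jv G v, (w x - TH G x / al) := by
        unfold slk
        rw [if_neg hvN]
      have h2 : ∑ k ∈ Jv G v, W k ≤ ∑ x ∈ Jv G v, (w x - TH G x / al) := by
        apply Finset.sum_le_sum
        intro x hx
        have ix := ((mem_Jv51 G).1 hx).1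
        have h3 : TH G x / al ≤ bw G al x := by
          rw [div_le_iff₀ hal]
          have := TH_bw51 G hG ix
          linarith
        have hwx : w x = (bw G al x : ℝ) + xr G fr x := by rw [hw]
        by_cases h4 : (x, 2) ∈ TU
        · obtain ⟨k1, k2, k3, k4, k5, _⟩ := tfU _ h4
          have k6 := (k5 rfl).2
          dsimp only at k2 k6
          have h5 := hW1 x ix k2
          rw [if_pos h4] at h5
          have h6 : TH G x / al ≤ 3 / 2 := by
            rw [div_le_iff₀ hal]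
            exact k6
          rw [hwx, hxrR x k2, hbwR x k2]
          linarith
        · have h5 := hW2 x ix h4
          linarith
      have := hvn v
      linarith
    have hslk : slk G al w (8 - de) v = ∑ x ∈ Jv G v, (bw G al x : ℝ) +
        ∑ x ∈ Jv G v, xr G fr x - (8 - de) := by
      unfold slk
      rw [if_pos hvN, hw, Finset.sum_add_distrib]
    have hno2 : ∀ x ∈ Jv G v, (x, 2) ∉ TU := by
      intro x hx h
      have h1 := ((tfU _ h).2.2.2.2.1 rfl).1
      dsimp only at h1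
      rw [((mem_Jv51 G).1 hx).2] at h1
      exact h1 hvN
    have hWJ : ∀ x ∈ Jv G v, W x ≤ xr G fr x := fun x hx =>
      hW2 x ((mem_Jv51 G).1 hx).1 (hno2 x hx)
    have hb7 := base7_51 G hG hvN
    by_cases hB : B7 G al v
    swap
    · -- not seven units
      have := hvn v
      rcases Nat.lt_or_ge (∑ x ∈ Jv G v, bw G al x) 8 with hlt | hge
      · have h7 : ∑ x ∈ Jv G v, bw G al x = 7 := by omega
        have hex : ∃ x ∈ Jv G v, G.cI (G.cl x) ≠ ∅ ∧ ¬ RC G (G.cl x) := by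
          by_contra hno
          push Not at hno
          refine hB ⟨hvN, h7, fun x hx => ?_⟩
          by_cases h1 : G.cI (G.cl x) = ∅
          · exact Or.inl h1
          · exact Or.inr (hno x hx (Finset.nonempty_iff_ne_empty.2 h1))
        obtain ⟨x0, hx0, hx1, hx2⟩ := hex
        have h7' : ∑ x ∈ Jv G v, (bw G al x : ℝ) = 7 := by exact_mod_cast h7
        have h8 : W x0 = 0 := hW0 x0 (fun t ht h => hx2 (by rw [← h]; exact (tfU t ht).2.1))
        have h9 : xr G fr x0 = 1 := by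
          unfold xr
          rw [if_neg hx1, if_neg hx2]
        rw [hslk, h7', ← Finset.add_sum_erase _ W hx0, ← Finset.add_sum_erase _ (xr G fr) hx0,
          h8, h9]
        have h10 : ∑ x ∈ (Jv G v).erase x0, W x ≤ ∑ x ∈ (Jv G v).erase x0, xr G fr x :=
          Finset.sum_le_sum fun x hx => hWJ x (Finset.mem_of_mem_erase hx)
        linarith
      · have h8 : (8 : ℝ) ≤ ∑ x ∈ Jv G v, (bw G al x : ℝ) := by exact_mod_cast hge
        have h10 : ∑ x ∈ Jv G v, W x ≤ ∑ x ∈ Jv G v, xr G fr x := Finset.sum_le_sum hWJ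
        rw [hslk]
        linarith
    have h7' : ∑ x ∈ Jv G v, (bw G al x : ℝ) = 7 := by exact_mod_cast hB.2.1
    rw [hslk, h7']
    have hone : ∀ x ∈ Jv G v, xr G fr x ≤ ∑ x ∈ Jv G v, xr G fr x := fun x hx =>
      Finset.single_le_sum (fun y hy => hxr0 y ((mem_Jv51 G).1 hy).1) hx
    have htwo : ∀ x ∈ Jv G v, ∀ y ∈ Jv G v, x ≠ y → xr G fr x + xr G fr y ≤
        ∑ x ∈ Jv G v, xr G fr x := by
      intro x hx y hy hxy
      rw [← Finset.sum_pair hxy]
      apply Finset.sum_le_sum_of_subset_of_nonneg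
      · intro z hz
        rw [Finset.mem_insert, Finset.mem_singleton] at hz
        rcases hz with rfl | rfl
        · exact hx
        · exact hy
      · intro z hz _
        exact hxr0 z ((mem_Jv51 G).1 hz).1
    by_cases hD : Df57 G al F v
    · -- deficient points
      have hW00 : ∑ x ∈ Jv G v, W x = 0 := by
        apply Finset.sum_eq_zero
        intro x hx
        apply hW0
        intro t ht h
        obtain ⟨k1, k2, k3, _⟩ := tfU t ht
        rw [h] at k1 k2 k3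
        exact hD.2 x hx k2 k3
      rw [hW00, hTk]
      by_cases hK : KP57 G al F p v
      · rw [if_pos hK]
        obtain ⟨t0, ht0, e1, e2, e3, e4, e5, e6, e7, e8⟩ := Kst57 G hG O c f hm hK
        have h1 := htwo _ e2 _ e3 e8
        rw [hxrR _ e4, hxrR _ e5, hfr.hi _ ((mem_Jv51 G).1 e2).1 e4 m le_rfl e6,
          hfr.hi _ ((mem_Jv51 G).1 e3).1 e5 m le_rfl e7] at h1
        have h2 := hval v hK
        change _ ≤ ∑ t ∈ cl v, val57 fr t at h2
        linarith
      · rw [if_neg hK, if_pos hD]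
        obtain ⟨z1, z2, z3, z4, z5, z6, z7, z8, z9, z10, z11, z12, z13⟩ := hz v hD hK
        obtain ⟨x1, x2, x3⟩ := hX v hD hK
        rw [Finset.sum_pair (fun h => absurd (congrArg Prod.snd h) (by norm_num)), val0_57,
          val1_57]
        have h1 := hfr.sg _ z1 x2
        have h2 := hfr.sg _ z4 z6
        rw [O.s21 _ ((mem_Jv51 G).1 z3).1] at h2
        have h3 := hone _ x1
        have h4 := hone _ z3
        rw [hxrR _ x2] at h3
        rw [hxrR _ x3] at h4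
        linarith
    · -- a corner in `F`
      have hvn' := hvn v
      obtain ⟨y, hy, ry, hFy⟩ : ∃ y ∈ Jv G v, RC G (G.cl y) ∧ F y := by
        by_contra hno
        push Not at hno
        exact hD ⟨hB, hno⟩
      have tip : ∀ x ∈ Jv G v, ∀ z ∈ Jv G v, x ≠ z → RC G (G.cl x) → RC G (G.cl z) →
          (∃ j ≤ m, TH G x = g j) → ∀ j ≤ m, TH G z ≠ g j := by
        rintro x hx z hz hxz rx rz ⟨j, hj, h1⟩ k hk h2
        exact c1_62 G hG c hB hx hz hxz rx rz (by rw [h1]; exact (c.gm hj).le)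
          (by rw [h2]; exact (c.gm hk).le)
      by_cases hex : ∃ t ∈ TU, t.1.1 = v
      · obtain ⟨t, ht, htv⟩ := hex
        obtain ⟨k1, k2, k3, k4, k5, k6⟩ := tfU t ht
        obtain ⟨hj, hnT⟩ := k6 (by rw [htv]; exact hB)
        have htJ : t.1 ∈ Jv G v := (mem_Jv51 G).2 ⟨k1, htv⟩
        obtain ⟨x, hx, rx, hFx, hxt⟩ : ∃ x ∈ Jv G v, RC G (G.cl x) ∧ F x ∧ x ≠ t.1 := by
          by_contra hno
          push Not at hno
          apply hnT
          refine ⟨by rw [htv]; exact hB, ?_⟩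
          rw [htv]
          exact hno
        have h1 : fr x = 1 := hfr1 x ((mem_Jv51 G).1 hx).1 rx hFx
          (tip _ htJ x hx hxt.symm k2 rx hj)
        have h2 := htwo _ htJ x hx hxt.symm
        rw [hxrR _ k2, hxrR _ rx, h1] at h2
        have h3 : ∑ y ∈ Jv G v, W y = W t.1 := by
          apply Finset.sum_eq_single_of_mem _ htJ
          intro z hz hzt
          apply hW0
          intro t' ht' h
          obtain ⟨l1, l2, l3, l4, l5, l6⟩ := tfU t' ht'
          rw [h] at l1 l2 l3 l6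
          have hzv := ((mem_Jv51 G).1 hz).2
          obtain ⟨⟨j', hj', h5⟩, _⟩ := l6 (by rw [hzv]; exact hB)
          exact tip _ htJ z hz hzt.symm k2 l2 hj j' hj' h5
        have h4 := hWJ _ htJ
        rw [hxrR _ k2] at h4
        rw [h3]
        linarith
      · have h3 : ∑ y ∈ Jv G v, W y = 0 := by
          apply Finset.sum_eq_zero
          intro x hx
          apply hW0
          intro t ht h
          apply hex
          exact ⟨t, ht, by rw [h]; exact ((mem_Jv51 G).1 hx).2⟩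
        rw [h3]
        have hn1 : ∀ x ∈ Jv G v, RC G (G.cl x) → F x → (∀ j ≤ m, TH G x ≠ g j) →
            1 ≤ ∑ x ∈ Jv G v, xr G fr x := by
          intro x hx rx hFx h4
          have h5 := hone x hx
          rw [hxrR x rx, hfr1 x ((mem_Jv51 G).1 hx).1 rx hFx h4] at h5
          exact h5
        by_cases hyt : ∃ j ≤ m, TH G y = g j
        · by_cases hx : ∃ x ∈ Jv G v, RC G (G.cl x) ∧ F x ∧ x ≠ y
          · obtain ⟨x, hx, rx, hFx, hxy⟩ := hx
            have := hn1 x hx rx hFx (tip y hy x hx hxy.symm ry rx hyt)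
            linarith
          · push Not at hx
            obtain ⟨j, hj, hyj⟩ := hyt
            have h5 := hfr.lo y ((mem_Jv51 G).1 hy).1 ry j hj hyj
            rcases c0_62 G hG c f hB hy ry hj hyj hx with ⟨h0, _⟩ |
              ⟨i, hi, z, hz, hzy, rz, hzt, _, _⟩
            · subst h0
              have h4 := hone y hy
              rw [hxrR y ry, h5] at h4
              push_cast at h4
              linarith
            · subst hi
              have h4 := htwo y hy z hz hzy.symm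
              rw [hxrR y ry, hxrR z rz, h5,
                hfr.hi z ((mem_Jv51 G).1 hz).1 rz i (by omega) hzt] at h4
              push_cast at h4
              linarith
        · push Not at hyt
          have := hn1 y hy ry hFy hyt
          linarith
  -- the conclusion
  have h1 := master51 G hG w (8 - de)
  have h2 : ∑ x ∈ iJ G, w x ≤ G.iD.card + 2 * G.iI.card := by
    rw [hw]
    exact wsumR51 G hG fr hfr.sg hA hP
  have h3 : (G.P.card : ℝ) - G.oJ.card ≤ (inN G).card := by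
    have := card_inN71 G
    have h4 : (G.P.card : ℝ) ≤ G.oJ.card + (inN G).card := by exact_mod_cast this
    linarith
  have hde : de ≤ 1 / 2 := by
    have h5 := mul_nonneg hm0 hd0
    linarith
  have hcoef : 0 ≤ 8 * al - 2 * Real.pi - de * al := by
    have h5 := mul_le_mul_of_nonneg_right hde hal.le
    have h6 := c.al7
    linarith
  have h5 := mul_le_mul_of_nonneg_left h3 hcoef
  have h6 := mul_le_mul_of_nonneg_left h2 hal.le
  have h7 := mul_nonneg hal.le main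
  rw [h1] at h7
  unfold A3
  linarith

/-- a function `fr` -/
def fr57 (opp : ℝ → ℝ) (g : ℕ → ℝ) (m : ℕ) (de : ℝ) (F : V × V → Prop) (x : V × V) : ℝ :=
  if h : ∃ j, j ≤ m ∧ TH G x = g j then 1 - ((Nat.find h : ℝ) + 1) * de
  else if h : ∃ j, j ≤ m ∧ TH G x = opp (g j) then ((Nat.find h : ℝ) + 1) * de
  else if F x then 1 else 0

theorem fr57_ok (O : Or62 G opp (sg G) s' p q) (c : Ch62 al Q opp g m) (de : ℝ)
    {F : V × V → Prop} (hF : ∀ x ∈ iJ G, RC G (G.cl x) → (F (sg G x) ↔ ¬ F x)) :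
    Fr57 G Q opp g m de F (fr57 G opp g m de F) := by
  have oi : ∀ j k, j ≤ m → k ≤ m → opp (g j) = opp (g k) → j = k := by
    intro j k hj hk h
    rcases lt_trichotomy j k with h1 | h1 | h1
    · have := c.banti h1 hk
      linarith
    · exact h1
    · have := c.banti h1 hj
      linarith
  have hgo : ∀ j k, j ≤ m → k ≤ m → g j ≠ opp (g k) := by
    intro j k hj hk h
    have h1 := c.gm hj
    have h2 := c.bQ hk
    linarith
  have lo : ∀ x ∈ iJ G, RC G (G.cl x) → ∀ j ≤ m, TH G x = g j →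
      fr57 G opp g m de F x = 1 - ((j : ℝ) + 1) * de := by
    intro x _ _ j hj h
    have h1 : ∃ j, j ≤ m ∧ TH G x = g j := ⟨j, hj, h⟩
    unfold fr57
    rw [dif_pos h1]
    have h2 := Nat.find_spec h1
    have h3 : Nat.find h1 = j := c.ginj h2.1 hj (h2.2.symm.trans h)
    rw [h3]
  have hi : ∀ x ∈ iJ G, RC G (G.cl x) → ∀ j ≤ m, TH G x = opp (g j) →
      fr57 G opp g m de F x = ((j : ℝ) + 1) * de := by
    intro x _ _ j hj h
    have h0 : ¬ ∃ j, j ≤ m ∧ TH G x = g j := by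
      rintro ⟨k, hk, h4⟩
      exact hgo k j hk hj (h4.symm.trans h)
    have h1 : ∃ j, j ≤ m ∧ TH G x = opp (g j) := ⟨j, hj, h⟩
    unfold fr57
    rw [dif_neg h0, dif_pos h1]
    have h2 := Nat.find_spec h1
    have h3 : Nat.find h1 = j := oi _ _ h2.1 hj (h2.2.symm.trans h)
    rw [h3]
  have el : ∀ x ∈ iJ G, RC G (G.cl x) → (∀ j ≤ m, TH G x ≠ g j) →
      (∀ j ≤ m, TH G x ≠ opp (g j)) → fr57 G opp g m de F x = if F x then 1 else 0 := by
    intro x _ _ h1 h2
    unfold fr57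
    rw [dif_neg (fun ⟨j, hj, h⟩ => h1 j hj h), dif_neg (fun ⟨j, hj, h⟩ => h2 j hj h)]
  refine ⟨?_, lo, hi, el⟩
  intro x hx rx
  have is := O.s1 _ hx
  have rs : RC G (G.cl (sg G x)) := by
    rw [O.s1c _ hx]
    exact rx
  have t1 : TH G (sg G x) = opp (TH G x) := O.o1 _ hx rx
  have t2 : TH G x = opp (TH G (sg G x)) := by
    have := O.o2 _ is rs
    rw [O.s12 _ hx] at this
    exact this
  by_cases h1 : ∃ j, j ≤ m ∧ TH G x = g j
  · obtain ⟨j, hj, h⟩ := h1
    rw [lo x hx rx j hj h, hi _ is rs j hj (by rw [t1, h])]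
    ring
  · by_cases h2 : ∃ j, j ≤ m ∧ TH G x = opp (g j)
    · obtain ⟨j, hj, h⟩ := h2
      rw [hi x hx rx j hj h, lo _ is rs j hj (by rw [t1, h, c.goo hj])]
    · rw [el x hx rx (fun j hj h => h1 ⟨j, hj, h⟩) (fun j hj h => h2 ⟨j, hj, h⟩),
        el _ is rs]
      · have h3 := hF x hx rx
        by_cases h4 : F x
        · rw [if_pos h4, if_neg (fun h => h3.1 h h4)]
          norm_num
        · rw [if_neg h4, if_pos (h3.2 h4)]
          norm_num
      · intro j hj h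
        exact h2 ⟨j, hj, by rw [t2, h]⟩
      · intro j hj h
        exact h1 ⟨j, hj, by rw [t2, h, c.goo hj]⟩

end D

end

end Pool.Agent.PEN
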