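import Pool.Agent.P4.Tk57b

/-! # PENNY, token rows: the core of the accounting, and chains ending in a square -/

set_option autoImplicit false

namespace Pool.Agent.PEN

open Classical UpperHalfPlane

noncomputable section

section D
variable {V : Type} (G : Tg V) {al : ℝ} {kp : V → V → ℝ} {U : ℕ → ℝ}
variable {Q : ℝ} {opp : ℝ → ℝ} {g : ℕ → ℝ} {m : ℕ} {s' p q : V × V → V × V}

/-- **the core of the accounting** -/
theorem core57 (hG : G.Geo al kp U) {de : ℝ} (hd0 : 0 ≤ de) (hd1 : de ≤ 1 / 2)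
    {fr : V × V → ℝ} (hsg : ∀ x ∈ iJ G, RC G (G.cl x) → fr (sg G x) = 1 - fr x)
    (hfr0 : ∀ x ∈ iJ G, RC G (G.cl x) → 0 ≤ fr x)
    (hA : ∀ C ∈ G.iC, A3 al * (G.cT C).card ≤ ∑ x ∈ G.cD C, G.ar x.1 x.2 / 3)
    (hP : ∀ C ∈ G.iC, (G.cT C).card = 3 → (G.cI C).card = 4 → ∑ x ∈ G.cJ C, wc G al x ≤ 12)
    (Tk : V → Finset ((V × V) × ℕ)) (val : (V × V) × ℕ → ℝ)
    (hdis : ∀ v ∈ G.P, ∀ v' ∈ G.P, v ≠ v' → Disjoint (Tk v) (Tk v'))
    (hT : ∀ v ∈ G.P, ∀ t ∈ Tk v, t.1 ∈ iJ G ∧ RC G (G.cl t.1) ∧ 0 ≤ val t)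
    (hout : ∀ k ∈ iJ G, RC G (G.cl k) → k.1 ∉ inN G →
      ∑ t ∈ (G.P.biUnion Tk).filter (fun t => t.1 = k), val t ≤ 2 + fr k - TH G k / al)
    (hin : ∀ k ∈ iJ G, RC G (G.cl k) → k.1 ∈ inN G → ¬ B7 G al k.1 →
      ∑ t ∈ (G.P.biUnion Tk).filter (fun t => t.1 = k), val t ≤ fr k)
    (hB7 : ∀ v, B7 G al v → ∑ t ∈ (G.P.biUnion Tk).filter (fun t => t.1.1 = v), val t ≤
      ∑ x ∈ Jv G v, xr G fr x - (1 - de) + ∑ t ∈ Tk v, val t) :
    (8 * al - 2 * Real.pi - de * al) * ((G.P.card : ℝ) - G.oJ.card) ≤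
      2 * al * G.iI.card + (∑ x ∈ G.iD, G.ar x.1 x.2 / 3 - A3 al * (G.iD.card / 3)) := by
  have hal := al_pos71 G hG
  have hpi := Real.pi_pos
  have hxrR : ∀ x, RC G (G.cl x) → xr G fr x = fr x := by
    intro x rx
    unfold xr
    rw [if_neg (RC_ne51 G rx), if_pos rx]
  have hbwR : ∀ x, RC G (G.cl x) → (bw G al x : ℝ) = 2 := by
    intro x rx
    unfold bw
    rw [if_neg (RC_ne51 G rx), if_pos rx]
    norm_num
  have hxr0 : ∀ x ∈ iJ G, 0 ≤ xr G fr x := by
    intro x hx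
    unfold xr
    split_ifs with h1 h2
    · exact le_rfl
    · exact hfr0 x hx h2
    · norm_num
  obtain ⟨TU, hTU⟩ : ∃ TU, TU = G.P.biUnion Tk := ⟨_, rfl⟩
  rw [← hTU] at hout hin hB7
  have tfU : ∀ t ∈ TU, t.1 ∈ iJ G ∧ RC G (G.cl t.1) ∧ 0 ≤ val t := by
    intro t ht
    rw [hTU, Finset.mem_biUnion] at ht
    obtain ⟨v, hv, ht⟩ := ht
    exact hT v hv t ht
  obtain ⟨W, hW⟩ : ∃ W : V × V → ℝ, ∀ k, W k =
      ∑ t ∈ TU.filter (fun t => t.1 = k), val t := ⟨_, fun _ => rfl⟩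
  have hWs : ∀ v, ∑ t ∈ TU.filter (fun t => t.1.1 = v), val t = ∑ k ∈ Jv G v, W k := by
    intro v
    have h1 : ∑ k ∈ Jv G v, ∑ t ∈ (TU.filter (fun t => t.1.1 = v)).filter (fun t => t.1 = k),
        val t = ∑ t ∈ TU.filter (fun t => t.1.1 = v), val t := by
      refine Finset.sum_fiberwise_of_maps_to (g := Prod.fst) ?_ _
      intro t ht
      rw [Finset.mem_filter] at ht
      exact (mem_Jv51 G).2 ⟨(tfU t ht.1).1, ht.2⟩
    rw [← h1]
    refine Finset.sum_congr rfl fun k hk => ?_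
    rw [hW, Finset.filter_filter]
    refine Finset.sum_congr ?_ fun _ _ => rfl
    apply Finset.filter_congr
    intro t _
    constructor
    · exact fun h => h.2
    · intro h
      exact ⟨by rw [h]; exact ((mem_Jv51 G).1 hk).2, h⟩
  have hW0 : ∀ k, ¬ RC G (G.cl k) → W k = 0 := by
    intro k hk
    rw [hW, Finset.filter_eq_empty_iff.2 (fun t ht h => hk (by rw [← h]; exact (tfU t ht).2.1)),
      Finset.sum_empty]
  have hvn : ∀ v ∈ G.P, 0 ≤ ∑ t ∈ Tk v, val t := fun v hv =>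
    Finset.sum_nonneg fun t ht => (hT v hv t ht).2.2
  obtain ⟨w, hw⟩ : ∃ w : V × V → ℝ, w = fun x => (bw G al x : ℝ) + xr G fr x := ⟨_, rfl⟩
  -- the slack of the points
  have main : 0 ≤ ∑ v ∈ G.P, slk G al w (8 - de) v := by
    apply tok57 G.P (slk G al w (8 - de)) Tk (fun t => t.1.1) val hdis
    · intro v hv t ht
      have h1 := (hT v hv t ht).1
      rw [mem_iJ71] at h1
      exact G.mem _ _ (G.sub h1.1.1)
    intro v hvP
    rw [← hTU, hWs]
    have hv0 := hvn v hvP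
    by_cases hvN : v ∈ inN G
    swap
    · -- outside `N`
      have h1 : slk G al w (8 - de) v = ∑ x ∈ Jv G v, (w x - TH G x / al) := by
        unfold slk
        rw [if_neg hvN]
      have h2 : ∑ k ∈ Jv G v, W k ≤ ∑ x ∈ Jv G v, (w x - TH G x / al) := by
        apply Finset.sum_le_sum
        intro x hx
        have ix := ((mem_Jv51 G).1 hx).1
        have hwx : w x = (bw G al x : ℝ) + xr G fr x := by rw [hw]
        by_cases rx : RC G (G.cl x)
        · have h5 := hout x ix rx (by rw [((mem_Jv51 G).1 hx).2]; exact hvN)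
          rw [← hW] at h5
          rw [hwx, hxrR x rx, hbwR x rx]
          linarith
        · have h3 : TH G x / al ≤ bw G al x := by
            rw [div_le_iff₀ hal]
            have := TH_bw51 G hG ix
            linarith
          have h4 := hxr0 x ix
          rw [hW0 x rx, hwx]
          linarith
      linarith
    have hslk : slk G al w (8 - de) v = ∑ x ∈ Jv G v, (bw G al x : ℝ) +
        ∑ x ∈ Jv G v, xr G fr x - (8 - de) := by
      unfold slk
      rw [if_pos hvN, hw, Finset.sum_add_distrib]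
    by_cases hB : B7 G al v
    · have h7' : ∑ x ∈ Jv G v, (bw G al x : ℝ) = 7 := by exact_mod_cast hB.2.1
      have h8 := hB7 v hB
      rw [hWs] at h8
      rw [hslk, h7']
      linarith
    · -- not seven units
      have hb7 := base7_51 G hG hvN
      have hWJ : ∀ x ∈ Jv G v, W x ≤ xr G fr x := by
        intro x hx
        have hx' := (mem_Jv51 G).1 hx
        by_cases rx : RC G (G.cl x)
        · have := hin x hx'.1 rx (by rw [hx'.2]; exact hvN) (by rw [hx'.2]; exact hB)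
          rw [← hW] at this
          rw [hxrR x rx]
          exact this
        · rw [hW0 x rx]
          exact hxr0 x hx'.1
      rcases Nat.lt_or_ge (∑ x ∈ Jv G v, bw G al x) 8 with hlt | hge
      · have h7 : ∑ x ∈ Jv G v, bw G al x = 7 := by omega
        have hex : ∃ x ∈ Jv G v, G.cI (G.cl x) ≠ ∅ ∧ ¬ RC G (G.cl x) := by
          by_contra hno
          push Not at hno
          refine hB ⟨hvN, h7, fun x hx => ?_⟩
          by_cases h1 : G.cI (G.cl x) = ∅
          · exact Or.inl h1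
          · exact Or.inr (hno x hx (Finset.nonempty_iff_ne_empty.2 h1))
        obtain ⟨x0, hx0, hx1, hx2⟩ := hex
        have h7' : ∑ x ∈ Jv G v, (bw G al x : ℝ) = 7 := by exact_mod_cast h7
        have h8 : W x0 = 0 := hW0 x0 hx2
        have h9 : xr G fr x0 = 1 := by
          unfold xr
          rw [if_neg hx1, if_neg hx2]
        rw [hslk, h7', ← Finset.add_sum_erase _ W hx0, ← Finset.add_sum_erase _ (xr G fr) hx0,
          h8, h9]
        have h10 : ∑ x ∈ (Jv G v).erase x0, W x ≤ ∑ x ∈ (Jv G v).erase x0, xr G fr x :=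
          Finset.sum_le_sum fun x hx => hWJ x (Finset.mem_of_mem_erase hx)
        linarith
      · have h8 : (8 : ℝ) ≤ ∑ x ∈ Jv G v, (bw G al x : ℝ) := by exact_mod_cast hge
        have h10 : ∑ x ∈ Jv G v, W x ≤ ∑ x ∈ Jv G v, xr G fr x := Finset.sum_le_sum hWJ
        rw [hslk]
        linarith
  -- the conclusion
  have h1 := master51 G hG w (8 - de)
  have h2 : ∑ x ∈ iJ G, w x ≤ G.iD.card + 2 * G.iI.card := by
    rw [hw]
    exact wsumR51 G hG fr hsg hA hP
  have h3 : (G.P.card : ℝ) - G.oJ.card ≤ (inN G).card := by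
    have := card_inN71 G
    have h4 : (G.P.card : ℝ) ≤ G.oJ.card + (inN G).card := by exact_mod_cast this
    linarith
  have hcoef : 0 ≤ 8 * al - 2 * Real.pi - de * al := by
    have h5 := mul_le_mul_of_nonneg_right hd1 hal.le
    have h6 := hG.al1
    linarith
  have h5 := mul_le_mul_of_nonneg_left h3 hcoef
  have h6 := mul_le_mul_of_nonneg_left h2 hal.le
  have h7 := mul_nonneg hal.le main
  rw [h1] at h7
  unfold A3
  linarith

/-- the values of the function `fr` of a chain ending in a square -/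
structure Fb57 (Q : ℝ) (opp : ℝ → ℝ) (g : ℕ → ℝ) (m : ℕ) (de : ℝ) (F : V × V → Prop)
    (fr : V × V → ℝ) : Prop where
  sg : ∀ x ∈ iJ G, RC G (G.cl x) → fr (sg G x) = 1 - fr x
  sq : ∀ x ∈ iJ G, RC G (G.cl x) → TH G x = Q → fr x = 1 / 2
  lo : ∀ x ∈ iJ G, RC G (G.cl x) → ∀ j ≤ m, TH G x = g j → fr x = 1 - ((j : ℝ) + 1) * de
  hi : ∀ x ∈ iJ G, RC G (G.cl x) → ∀ j ≤ m, TH G x = opp (g j) → fr x = ((j : ℝ) + 1) * de
  el : ∀ x ∈ iJ G, RC G (G.cl x) → TH G x ≠ Q → (∀ j ≤ m, TH G x ≠ g j) →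
    (∀ j ≤ m, TH G x ≠ opp (g j)) → fr x = if F x then 1 else 0

/-- a function `fr` -/
def fb57 (Q : ℝ) (opp : ℝ → ℝ) (g : ℕ → ℝ) (m : ℕ) (de : ℝ) (F : V × V → Prop)
    (x : V × V) : ℝ :=
  if TH G x = Q then 1 / 2 else fr57 G opp g m de F x

theorem fb57_ok (O : Or62 G opp (sg G) s' p q) (c : Ch62 al Q opp g m) (hoQ : opp Q = Q) (de : ℝ)
    {F : V × V → Prop} (hF : ∀ x ∈ iJ G, RC G (G.cl x) → (F (sg G x) ↔ ¬ F x)) :
    Fb57 G Q opp g m de F (fb57 G Q opp g m de F) := by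
  have H := fr57_ok G O c de hF
  refine ⟨?_, ?_, ?_, ?_, ?_⟩
  · intro x hx rx
    have is := O.s1 _ hx
    have rs : RC G (G.cl (sg G x)) := by
      rw [O.s1c _ hx]
      exact rx
    have t1 : TH G (sg G x) = opp (TH G x) := O.o1 _ hx rx
    have t2 : TH G x = opp (TH G (sg G x)) := by
      have := O.o2 _ is rs
      rw [O.s12 _ hx] at this
      exact this
    unfold fb57
    by_cases h : TH G x = Q
    · have h2 : TH G (sg G x) = Q := by rw [t1, h, hoQ]
      rw [if_pos h, if_pos h2]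
      norm_num
    · have h2 : TH G (sg G x) ≠ Q := fun h3 => h (by rw [t2, h3, hoQ])
      rw [if_neg h, if_neg h2]
      exact H.sg x hx rx
  · intro x _ _ h
    unfold fb57
    rw [if_pos h]
  · intro x hx rx j hj h
    unfold fb57
    rw [if_neg (by rw [h]; exact (c.gm hj).ne)]
    exact H.lo x hx rx j hj h
  · intro x hx rx j hj h
    unfold fb57
    rw [if_neg (by rw [h]; exact (c.bQ hj).ne')]
    exact H.hi x hx rx j hj h
  · intro x hx rx h0 h1 h2
    unfold fb57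
    rw [if_neg h0]
    exact H.el x hx rx h1 h2

/-- seven unit points with a square corner, a large obtuse corner and three contact triangles -/
def VS57 (al Q : ℝ) (opp : ℝ → ℝ) (g : ℕ → ℝ) (m : ℕ) (v : V) : Prop :=
  B7 G al v ∧ ∃ x ∈ Jv G v, ∃ y ∈ Jv G v, RC G (G.cl x) ∧ RC G (G.cl y) ∧ TH G x = Q ∧
    TH G y = opp (g m) ∧ ∀ z ∈ Jv G v, z ≠ x → z ≠ y → G.cI (G.cl z) = ∅

/-- seven unit points all whose rhombus corners are outside `F` and no squares -/
def Db57 (al Q : ℝ) (F : V × V → Prop) (v : V) : Prop :=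
  B7 G al v ∧ ∀ x ∈ Jv G v, RC G (G.cl x) → ¬ F x ∧ TH G x ≠ Q

theorem Dbx57 {s : V × V → V × V} (hG : G.Geo al kp U) (O : Or62 G opp s s' p q)
    (c : Ch62 al Q opp g m) {F : V × V → Prop} (f : Fc62 G Q opp g m F)
    (hS : Q + opp (g m) = 2 * Real.pi - 3 * al) {v : V} (hD : Db57 G al Q F v) :
    ∃ x ∈ Jv G v, RC G (G.cl x) ∧ RC G (G.cl (p x)) := by
  obtain ⟨hB, hF⟩ := hD
  by_contra hno
  push Not at hno
  obtain ⟨h1, h2⟩ := count62 G hG hB
  obtain ⟨JR, hJR⟩ : ∃ JR, JR = (Jv G v).filter (fun x => RC G (G.cl x)) := ⟨_, rfl⟩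
  obtain ⟨JT, hJT⟩ : ∃ JT, JT = (Jv G v).filter (fun x => ¬ RC G (G.cl x)) := ⟨_, rfl⟩
  have hmR : ∀ x, x ∈ JR ↔ x ∈ Jv G v ∧ RC G (G.cl x) := by
    intro x
    rw [hJR, Finset.mem_filter]
  have hmT : ∀ x, x ∈ JT ↔ x ∈ Jv G v ∧ ¬ RC G (G.cl x) := by
    intro x
    rw [hJT, Finset.mem_filter]
  rw [← hJR, ← hJT] at h1 h2
  have hqp : ∀ x ∈ Jv G v, q (p x) = x := fun x hx =>
    O.pq _ ((mem_Jv51 G).1 hx).1 ((mem_Jv51 G).1 (pJ57 G O hB.1 hx).1).1
  have hle : JR.card ≤ JT.card := by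
    apply Finset.card_le_card_of_injOn p
    · intro x hx
      obtain ⟨h3, h4⟩ := (hmR x).1 (Finset.mem_coe.1 hx)
      exact Finset.mem_coe.2 ((hmT _).2 ⟨(pJ57 G O hB.1 h3).1, hno x h3 h4⟩)
    · intro x hx y hy h
      rw [← hqp x ((hmR x).1 (Finset.mem_coe.1 hx)).1, h,
        hqp y ((hmR y).1 (Finset.mem_coe.1 hy)).1]
  have hcases : JR.card = 0 ∨ JR.card = 1 ∨ JR.card = 2 := by omega
  rcases hcases with h0 | h0 | h0
  · have h3 : JT.card = 7 := by omega
    rw [Finset.card_eq_zero] at h0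
    rw [h3, h0, Finset.sum_empty] at h2
    push_cast at h2
    linarith [c.al7]
  · obtain ⟨x, hx⟩ := Finset.card_eq_one.1 h0
    have h3 : JT.card = 5 := by omega
    rw [h3, hx, Finset.sum_singleton] at h2
    push_cast at h2
    have hxR := (hmR x).1 (by rw [hx]; exact Finset.mem_singleton_self x)
    have h4 : TH G x = g 0 := by
      rw [c.g0]
      linarith
    apply (hF x hxR.1 hxR.2).1
    rw [f.lo x ((mem_Jv51 G).1 hxR.1).1 hxR.2 (by rw [h4]; exact c.gm (Nat.zero_le _))]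
    exact ⟨0, Nat.zero_le _, h4⟩
  · obtain ⟨x, y, hxy, hJe⟩ := Finset.card_eq_two.1 h0
    have h3 : JT.card = 3 := by omega
    rw [h3, hJe, Finset.sum_pair hxy] at h2
    push_cast at h2
    have hxR := (hmR x).1 (by rw [hJe]; exact Finset.mem_insert_self _ _)
    have hyR := (hmR y).1 (by
      rw [hJe]
      exact Finset.mem_insert_of_mem (Finset.mem_singleton_self _))
    have key : ∀ a b : V × V, a ∈ Jv G v → b ∈ Jv G v → a ≠ b → RC G (G.cl a) → RC G (G.cl b) →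
        TH G a + TH G b = 2 * Real.pi - 3 * al → TH G a ≤ TH G b → False := by
      intro a b ha hb hab ra rb hs hle
      have hbQ : Q < TH G b := by
        by_contra h
        push Not at h
        exact c1_62 G hG c hB ha hb hab ra rb (hle.trans h) h
      obtain ⟨j, hj, hbj⟩ := (f.hi b ((mem_Jv51 G).1 hb).1 rb hbQ).1 (hF b hb rb).1
      rcases Nat.eq_or_lt_of_le hj with rfl | hlt
      · exact (hF a ha ra).2 (by linarith)
      · have h5 := c.gs j hlt
        have h6 : TH G a = g (j + 1) := by linarith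
        apply (hF a ha ra).1
        rw [f.lo a ((mem_Jv51 G).1 ha).1 ra (by rw [h6]; exact c.gm hlt)]
        exact ⟨j + 1, hlt, h6⟩
    rcases le_total (TH G x) (TH G y) with h | h
    · exact key x y hxR.1 hyR.1 hxy hxR.2 hyR.2 (by linarith) h
    · exact key y x hyR.1 hxR.1 hxy.symm hyR.2 hxR.2 (by linarith) h

/-- **a side between two rhombi at a deficient point ends at a point without seven units** -/
theorem zbb57 (hG : G.Geo al kp U) (O : Or62 G opp (sg G) s' p q)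
    (c : Ch62 al Q opp g m) (hoQ : opp Q = Q)
    {F : V × V → Prop} (f : Fc62 G Q opp g m F) (hS : Q + opp (g m) = 2 * Real.pi - 3 * al)
    (hF : ∀ x ∈ iJ G, RC G (G.cl x) → (F (sg G x) ↔ ¬ F x))
    {v : V} (hD : Db57 G al Q F v) {x : V × V} (hx : x ∈ Jv G v) (rx : RC G (G.cl x))
    (rp : RC G (G.cl (p x))) :
    s' (p x) ∈ iJ G ∧ sg G x ∈ iJ G ∧ RC G (G.cl (s' (p x))) ∧ RC G (G.cl (sg G x)) ∧
      F (s' (p x)) ∧ F (sg G x) ∧ (s' (p x)).1 = (sg G x).1 ∧ p (s' (p x)) = sg G x ∧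
      q (sg G x) = s' (p x) ∧ ¬ B7 G al (sg G x).1 ∧ TH G (s' (p x)) ≠ Q ∧
      TH G (sg G x) ≠ Q := by
  obtain ⟨hB, hnF⟩ := hD
  obtain ⟨hpJ, hqJ⟩ := pJ57 G O hB.1 hx
  have ix := ((mem_Jv51 G).1 hx).1
  have ip := ((mem_Jv51 G).1 hpJ).1
  have ia := O.s2 _ ip
  have ib := O.s1 _ ix
  have ra : RC G (G.cl (s' (p x))) := by
    rw [O.s2c _ ip]
    exact rp
  have rb : RC G (G.cl (sg G x)) := by
    rw [O.s1c _ ix]
    exact rx
  have e1 : p (s' (p x)) = sg G x := O.ps _ ix ip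
  have e2 : q (sg G x) = s' (p x) := by
    rw [← e1]
    exact O.pq _ ia (by rw [e1]; exact ib)
  have e3 : (s' (p x)).1 = (sg G x).1 := by
    rw [← e1]
    exact (O.pf _ ia (by rw [e1]; exact ib)).symm
  have fa : F (s' (p x)) := by
    have h1 := hF _ ia ra
    rw [O.s21 _ ip] at h1
    by_contra h2
    exact (hnF _ hpJ rp).1 (h1.2 h2)
  have fb : F (sg G x) := (hF _ ix rx).2 (hnF x hx rx).1
  have qa : TH G (s' (p x)) ≠ Q := by
    intro h
    have h1 := O.o1 _ ia ra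
    rw [O.s21 _ ip, h, hoQ] at h1
    exact (hnF _ hpJ rp).2 h1
  have qb : TH G (sg G x) ≠ Q := by
    intro h
    have h1 := O.o2 _ ib rb
    rw [O.s12 _ ix, h, hoQ] at h1
    exact (hnF _ hx rx).2 h1
  refine ⟨ia, ib, ra, rb, fa, fb, e3, e1, e2, fun hBu => ?_, qa, qb⟩
  have haJ : s' (p x) ∈ Jv G (sg G x).1 := (mem_Jv51 G).2 ⟨ia, e3⟩
  have hbJ : sg G x ∈ Jv G (sg G x).1 := (mem_Jv51 G).2 ⟨ib, rfl⟩
  have hab : s' (p x) ≠ sg G x := by
    intro h
    apply ne57 G hG O hBu haJ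
    rw [e1, h]
  have hxp : x ≠ p x := (ne57 G hG O hB hx).symm
  have tb : TH G (sg G x) = opp (TH G x) := O.o1 _ ix rx
  have ta : TH G (s' (p x)) = opp (TH G (p x)) := O.o2 _ ip rp
  have nqx := (hnF x hx rx).2
  have nqp := (hnF _ hpJ rp).2
  rcases le_or_gt (TH G x) Q with h1 | h1
  · rcases le_or_gt (TH G (p x)) Q with h2 | h2
    · exact c1_62 G hG c hB hx hpJ hxp rx rp h1 h2
    · obtain ⟨k, hk, hkt⟩ := (f.hi _ ip rp h2).1 (hnF _ hpJ rp).1
      have h3 := two62 G hG hB hx hpJ hxp rx rp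
      have h4 := two62 G hG hBu hbJ haJ hab.symm rb ra
      rw [tb, ta, hkt, c.goo hk] at h4
      rw [hkt] at h3
      have h5 := lt_of_le_of_ne h1 nqx
      exact c.nz hk (fun h => by linarith) h1 h3 h4
  · obtain ⟨k, hk, hkt⟩ := (f.hi _ ix rx h1).1 (hnF _ hx rx).1
    rcases le_or_gt (TH G (p x)) Q with h2 | h2
    · have h3 := two62 G hG hB hpJ hx hxp.symm rp rx
      have h4 := two62 G hG hBu haJ hbJ hab ra rb
      rw [tb, ta, hkt, c.goo hk] at h4
      rw [hkt] at h3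
      have h5 := lt_of_le_of_ne h2 nqp
      exact c.nz hk (fun h => by linarith) h2 h3 h4
    · obtain ⟨l, hl, hlt⟩ := (f.hi _ ip rp h2).1 (hnF _ hpJ rp).1
      apply c1_62 G hG c hBu haJ hbJ hab ra rb
      · rw [ta, hlt, c.goo hl]
        exact (c.gm hl).le
      · rw [tb, hkt, c.goo hk]
        exact (c.gm hk).le

end D

end

end Pool.Agent.PEN
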