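import Pool.Agent.P4.Tk57c

/-! # PENNY, token rows: the accounting for chains ending in a square -/

set_option autoImplicit false

namespace Pool.Agent.PEN

open Classical UpperHalfPlane

noncomputable section

/-- the value of a token -/
def vb57 {V : Type} (fr : V × V → ℝ) (t : (V × V) × ℕ) : ℝ :=
  if 2 ≤ t.2 then 1 / 2 else fr t.1 / 2

theorem vbn57 {V : Type} (fr : V × V → ℝ) (t : (V × V) × ℕ) (h : 0 ≤ fr t.1) :
    0 ≤ vb57 fr t := by
  unfold vb57
  split_ifs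
  · norm_num
  · linarith

/-- at most two tokens at a corner -/
theorem corb57 {V : Type} (S : Finset ((V × V) × ℕ)) (fr : V × V → ℝ) (k : V × V)
    (h0 : 0 ≤ fr k) (hn : ∀ n, (k, n) ∈ S → n ≤ 3) (a b : ℝ) (hfa : fr k / 2 ≤ a)
    (hfb : fr k / 2 ≤ b)
    (h2 : (k, 2) ∈ S → (k, 0) ∉ S ∧ 1 / 2 ≤ a) (h3 : (k, 3) ∈ S → (k, 1) ∉ S ∧ 1 / 2 ≤ b) :
    ∑ t ∈ S.filter (fun t => t.1 = k), vb57 fr t ≤ a + b := by
  have v0 : ∀ n, n < 2 → vb57 fr (k, n) = fr k / 2 := by
    intro n hn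
    unfold vb57
    rw [if_neg (by dsimp only; omega)]
  have v2 : ∀ n, 2 ≤ n → vb57 fr (k, n) = 1 / 2 := by
    intro n hn
    unfold vb57
    rw [if_pos (by dsimp only; omega)]
  obtain ⟨i, hi⟩ : ∃ i : ℕ, i = if (k, 2) ∈ S then 2 else 0 := ⟨_, rfl⟩
  obtain ⟨j, hj⟩ : ∃ j : ℕ, j = if (k, 3) ∈ S then 3 else 1 := ⟨_, rfl⟩
  have hva : 0 ≤ vb57 fr (k, i) ∧ vb57 fr (k, i) ≤ a := by
    rw [hi]
    by_cases h : (k, 2) ∈ S
    · rw [if_pos h, v2 2 le_rfl]
      exact ⟨by norm_num, (h2 h).2⟩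
    · rw [if_neg h, v0 0 (by norm_num)]
      exact ⟨by linarith, hfa⟩
  have hvb : 0 ≤ vb57 fr (k, j) ∧ vb57 fr (k, j) ≤ b := by
    rw [hj]
    by_cases h : (k, 3) ∈ S
    · rw [if_pos h, v2 3 (by norm_num)]
      exact ⟨by norm_num, (h3 h).2⟩
    · rw [if_neg h, v0 1 (by norm_num)]
      exact ⟨by linarith, hfb⟩
  have hij : ((k, i) : (V × V) × ℕ) ≠ (k, j) := by
    intro h
    have h4 := congrArg Prod.snd h
    dsimp only at h4
    rw [hi, hj] at h4
    split_ifs at h4 <;> omega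
  have hsub : S.filter (fun t => t.1 = k) ⊆ ({(k, i), (k, j)} : Finset ((V × V) × ℕ)) := by
    rintro ⟨k', n⟩ ht
    rw [Finset.mem_filter] at ht
    obtain ⟨ht, hk⟩ := ht
    simp only at hk
    subst hk
    rw [Finset.mem_insert, Finset.mem_singleton]
    have h4 := hn n ht
    have h5 : n = 0 ∨ n = 1 ∨ n = 2 ∨ n = 3 := by omega
    rcases h5 with rfl | rfl | rfl | rfl
    · left
      rw [hi, if_neg (fun h => (h2 h).1 ht)]
    · right
      rw [hj, if_neg (fun h => (h3 h).1 ht)]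
    · left
      rw [hi, if_pos ht]
    · right
      rw [hj, if_pos ht]
  calc ∑ t ∈ S.filter (fun t => t.1 = k), vb57 fr t ≤
      ∑ t ∈ ({(k, i), (k, j)} : Finset ((V × V) × ℕ)), vb57 fr t := by
        apply Finset.sum_le_sum_of_subset_of_nonneg hsub
        intro t ht _
        rw [Finset.mem_insert, Finset.mem_singleton] at ht
        rcases ht with rfl | rfl
        · exact hva.1
        · exact hvb.1
    _ = vb57 fr (k, i) + vb57 fr (k, j) := Finset.sum_pair hij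
    _ ≤ a + b := add_le_add hva.2 hvb.2

section D
variable {V : Type} (G : Tg V) {al : ℝ} {kp : V → V → ℝ} {U : ℕ → ℝ}
variable {Q : ℝ} {opp : ℝ → ℝ} {g : ℕ → ℝ} {m : ℕ} {s' p q : V × V → V × V}

/-- the seven unit points which are not deficient -/
theorem good57 (hG : G.Geo al kp U) (c : Ch62 al Q opp g m)
    {F : V × V → Prop} (f : Fc62 G Q opp g m F) (hS : Q + opp (g m) = 2 * Real.pi - 3 * al)
    (hN4 : ∀ k l, k ≤ m → l ≤ m → opp (g k) + opp (g l) ≠ 2 * al + opp (g m))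
    {de : ℝ} (hd0 : 0 ≤ de)
    {fr : V × V → ℝ} (hfr : Fb57 G Q opp g m de F fr)
    (hfr0 : ∀ x ∈ iJ G, RC G (G.cl x) → 0 ≤ fr x)
    {v : V} (hB : B7 G al v) (hD : ¬ Db57 G al Q F v) (hV : ¬ VS57 G al Q opp g m v) :
    1 - de ≤ ∑ x ∈ Jv G v, xr G fr x := by
  have hxrR : ∀ x, RC G (G.cl x) → xr G fr x = fr x := by
    intro x rx
    unfold xr
    rw [if_neg (RC_ne51 G rx), if_pos rx]
  have hxr0 : ∀ x ∈ iJ G, 0 ≤ xr G fr x := by
    intro x hx
    unfold xr
    split_ifs with h1 h2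
    · exact le_rfl
    · exact hfr0 x hx h2
    · norm_num
  have hone : ∀ x ∈ Jv G v, xr G fr x ≤ ∑ x ∈ Jv G v, xr G fr x := fun x hx =>
    Finset.single_le_sum (fun y hy => hxr0 y ((mem_Jv51 G).1 hy).1) hx
  have htwo : ∀ x ∈ Jv G v, ∀ y ∈ Jv G v, x ≠ y → xr G fr x + xr G fr y ≤
      ∑ x ∈ Jv G v, xr G fr x := by
    intro x hx y hy hxy
    rw [← Finset.sum_pair hxy]
    apply Finset.sum_le_sum_of_subset_of_nonneg
    · intro z hz
      rw [Finset.mem_insert, Finset.mem_singleton] at hz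
      rcases hz with rfl | rfl
      · exact hx
      · exact hy
    · intro z hz _
      exact hxr0 z ((mem_Jv51 G).1 hz).1
  have hfr1 : ∀ x ∈ iJ G, RC G (G.cl x) → F x → TH G x ≠ Q → (∀ j ≤ m, TH G x ≠ g j) →
      fr x = 1 := by
    intro x hx rx hFx hq h1
    rw [hfr.el x hx rx hq h1, if_pos hFx]
    intro j hj h
    exact (f.hi x hx rx (by rw [h]; exact c.bQ hj)).2 ⟨j, hj, h⟩ hFx
  have hn1 : ∀ x ∈ Jv G v, RC G (G.cl x) → F x → TH G x ≠ Q → (∀ j ≤ m, TH G x ≠ g j) →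
      1 ≤ ∑ x ∈ Jv G v, xr G fr x := by
    intro x hx rx hFx hq h4
    have h5 := hone x hx
    rw [hxrR x rx, hfr1 x ((mem_Jv51 G).1 hx).1 rx hFx hq h4] at h5
    exact h5
  by_cases hsq : ∃ y ∈ Jv G v, RC G (G.cl y) ∧ TH G y = Q
  · obtain ⟨y, hy, ry, hyQ⟩ := hsq
    have big : ∀ x ∈ Jv G v, RC G (G.cl x) → x ≠ y → Q < TH G x := by
      intro x hx rx hxy
      by_contra h
      push Not at h
      exact c1_62 G hG c hB hx hy hxy rx ry h hyQ.le
    by_cases hx : ∃ x ∈ Jv G v, RC G (G.cl x) ∧ x ≠ y ∧ F x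
    · obtain ⟨x, hx, rx, hxy, hFx⟩ := hx
      have h1 := big x hx rx hxy
      have := hn1 x hx rx hFx h1.ne' (fun j hj h => by
        have := c.gm hj
        linarith)
      linarith
    push Not at hx
    exfalso
    have ob : ∀ x ∈ Jv G v, RC G (G.cl x) → x ≠ y → ∃ j, j ≤ m ∧ TH G x = opp (g j) :=
      fun x hx' rx hxy => (f.hi x ((mem_Jv51 G).1 hx').1 rx (big x hx' rx hxy)).1
        (hx x hx' rx hxy)
    obtain ⟨h1, h2⟩ := count62 G hG hB
    obtain ⟨JR, hJR⟩ : ∃ JR, JR = (Jv G v).filter (fun x => RC G (G.cl x)) := ⟨_, rfl⟩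
    have hmR : ∀ x, x ∈ JR ↔ x ∈ Jv G v ∧ RC G (G.cl x) := by
      intro x
      rw [hJR, Finset.mem_filter]
    rw [← hJR] at h1 h2
    have hyR : y ∈ JR := (hmR y).2 ⟨hy, ry⟩
    have hpos : 0 < JR.card := Finset.card_pos.2 ⟨y, hyR⟩
    have her : (JR.erase y).card + 1 = JR.card := Finset.card_erase_add_one hyR
    have hmE : ∀ x, x ∈ JR.erase y → x ∈ Jv G v ∧ RC G (G.cl x) ∧ x ≠ y := by
      intro x hx'
      have h3 := (hmR x).1 (Finset.mem_of_mem_erase hx')
      exact ⟨h3.1, h3.2, Finset.ne_of_mem_erase hx'⟩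
    rw [← Finset.add_sum_erase JR _ hyR, hyQ] at h2
    have hcases : JR.card = 1 ∨ JR.card = 2 ∨ JR.card = 3 := by omega
    rcases hcases with h0 | h0 | h0
    · have h5 : ((Jv G v).filter (fun x => ¬ RC G (G.cl x))).card = 5 := by omega
      have h6 : JR.erase y = ∅ := Finset.card_eq_zero.1 (by omega)
      rw [h5, h6, Finset.sum_empty] at h2
      push_cast at h2
      have h7 := c.g0
      have h8 := c.gm (j := 0) (Nat.zero_le _)
      linarith
    · have h5 : ((Jv G v).filter (fun x => ¬ RC G (G.cl x))).card = 3 := by omega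
      obtain ⟨z, hz⟩ := Finset.card_eq_one.1 (show (JR.erase y).card = 1 by omega)
      rw [h5, hz, Finset.sum_singleton] at h2
      push_cast at h2
      obtain ⟨hzJ, rz, hzy⟩ := hmE z (by rw [hz]; exact Finset.mem_singleton_self z)
      apply hV
      refine ⟨hB, y, hy, z, hzJ, ry, rz, hyQ, by linarith, ?_⟩
      intro w hw hwy hwz
      refine (hB.2.2 w hw).resolve_right (fun rw' => hwz ?_)
      have : w ∈ JR.erase y := Finset.mem_erase.2 ⟨hwy, (hmR w).2 ⟨hw, rw'⟩⟩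
      rw [hz, Finset.mem_singleton] at this
      exact this
    · have h5 : ((Jv G v).filter (fun x => ¬ RC G (G.cl x))).card = 1 := by omega
      obtain ⟨z, w, hzw, hJe⟩ := Finset.card_eq_two.1 (show (JR.erase y).card = 2 by omega)
      rw [h5, hJe, Finset.sum_pair hzw] at h2
      push_cast at h2
      obtain ⟨hzJ, rz, hzy⟩ := hmE z (by rw [hJe]; exact Finset.mem_insert_self _ _)
      obtain ⟨hwJ, rw', hwy⟩ := hmE w (by
        rw [hJe]
        exact Finset.mem_insert_of_mem (Finset.mem_singleton_self _))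
      obtain ⟨k, hk, e1⟩ := ob z hzJ rz hzy
      obtain ⟨l, hl, e2⟩ := ob w hwJ rw' hwy
      apply hN4 k l hk hl
      rw [e1, e2] at h2
      linarith
  · push Not at hsq
    obtain ⟨y, hy, ry, hFy⟩ : ∃ y ∈ Jv G v, RC G (G.cl y) ∧ F y := by
      by_contra hno
      push Not at hno
      exact hD ⟨hB, fun x hx rx => ⟨hno x hx rx, hsq x hx rx⟩⟩
    by_cases hyt : ∃ j ≤ m, TH G y = g j
    · obtain ⟨j, hj, hyj⟩ := hyt
      by_cases hx : ∃ x ∈ Jv G v, RC G (G.cl x) ∧ F x ∧ x ≠ y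
      · obtain ⟨x, hx, rx, hFx, hxy⟩ := hx
        have := hn1 x hx rx hFx (hsq x hx rx) (fun k hk h =>
          c1_62 G hG c hB hx hy hxy rx ry (by rw [h]; exact (c.gm hk).le)
            (by rw [hyj]; exact (c.gm hj).le))
        linarith
      · push Not at hx
        have h5 := hfr.lo y ((mem_Jv51 G).1 hy).1 ry j hj hyj
        rcases c0_62 G hG c f hB hy ry hj hyj hx with ⟨h0, _⟩ |
          ⟨i, hi, z, hz, hzy, rz, hzt, _, _⟩
        · subst h0
          have h4 := hone y hy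
          rw [hxrR y ry, h5] at h4
          push_cast at h4
          linarith
        · subst hi
          have h4 := htwo y hy z hz hzy.symm
          rw [hxrR y ry, hxrR z rz, h5,
            hfr.hi z ((mem_Jv51 G).1 hz).1 rz i (by omega) hzt] at h4
          push_cast at h4
          linarith
    · push Not at hyt
      have := hn1 y hy ry hFy (hsq y hy ry) hyt
      linarith

/-- **the accounting for a chain ending in a square** -/
theorem accb57 (hG : G.Geo al kp U) (O : Or62 G opp (sg G) s' p q) (c : Ch62 al Q opp g m)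
    {F : V × V → Prop} (f : Fc62 G Q opp g m F) (hS : Q + opp (g m) = 2 * Real.pi - 3 * al)
    (hoQ : opp Q = Q) (hQ : Q ≤ 3 / 2 * al)
    (hN4 : ∀ k l, k ≤ m → l ≤ m → opp (g k) + opp (g l) ≠ 2 * al + opp (g m))
    {de : ℝ} (hd0 : 0 ≤ de) (hd1 : ((m : ℝ) + 1) * de ≤ 1 / 2)
    (hF : ∀ x ∈ iJ G, RC G (G.cl x) → (F (sg G x) ↔ ¬ F x))
    {fr : V × V → ℝ} (hfr : Fb57 G Q opp g m de F fr)
    (hA : ∀ C ∈ G.iC, A3 al * (G.cT C).card ≤ ∑ x ∈ G.cD C, G.ar x.1 x.2 / 3)
    (hP : ∀ C ∈ G.iC, (G.cT C).card = 3 → (G.cI C).card = 4 → ∑ x ∈ G.cJ C, wc G al x ≤ 12)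
    (cl : V → Finset ((V × V) × ℕ))
    (hcl : ∀ v, VS57 G al Q opp g m v → ∀ t ∈ cl v, t.1 ∈ iJ G ∧ RC G (G.cl t.1) ∧
      (¬ B7 G al t.1.1 ∨ ((∃ j ≤ m, TH G t.1 = g j) ∧ ¬ Tight62 G al F t.1)) ∧ t.2 ≤ 3 ∧
      (t.2 = 0 → ¬ (RC G (G.cl (p t.1)) ∧ F (p t.1) ∧ TH G (p t.1) ≠ Q ∧ TH G t.1 ≠ Q)) ∧
      (t.2 = 1 → ¬ (RC G (G.cl (q t.1)) ∧ F (q t.1) ∧ TH G (q t.1) ≠ Q ∧ TH G t.1 ≠ Q)) ∧
      (2 ≤ t.2 → TH G t.1 = Q ∧ t.1.1 ∉ inN G))
    (hex : ∀ v w k, VS57 G al Q opp g m v → VS57 G al Q opp g m w →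
      ((k, 2) ∈ cl v → (k, 0) ∉ cl w) ∧ ((k, 3) ∈ cl v → (k, 1) ∉ cl w))
    (hdis : ∀ v v', VS57 G al Q opp g m v → VS57 G al Q opp g m v' → v ≠ v' →
      Disjoint (cl v) (cl v'))
    (hval : ∀ v, VS57 G al Q opp g m v →
      1 / 2 - ((m : ℝ) + 2) * de ≤ ∑ t ∈ cl v, (if 2 ≤ t.2 then 1 / 2 else fr t.1 / 2)) :
    (8 * al - 2 * Real.pi - de * al) * ((G.P.card : ℝ) - G.oJ.card) ≤
      2 * al * G.iI.card + (∑ x ∈ G.iD, G.ar x.1 x.2 / 3 - A3 al * (G.iD.card / 3)) := by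
  have hal := al_pos71 G hG
  have hm0 : (0 : ℝ) ≤ (m : ℝ) := Nat.cast_nonneg m
  have hde : de ≤ 1 / 2 := by
    have h5 := mul_nonneg hm0 hd0
    linarith
  -- `fr`
  have hjm : ∀ j ≤ m, ((j : ℝ) + 1) * de ≤ 1 / 2 := by
    intro j hj
    have h1 : (j : ℝ) ≤ (m : ℝ) := by exact_mod_cast hj
    have h2 := mul_le_mul_of_nonneg_right (by linarith : (j : ℝ) + 1 ≤ (m : ℝ) + 1) hd0
    linarith
  have hjn : ∀ j : ℕ, 0 ≤ ((j : ℝ) + 1) * de := fun j =>
    mul_nonneg (by have : (0 : ℝ) ≤ (j : ℝ) := Nat.cast_nonneg j; linarith) hd0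
  have hfr0 : ∀ x ∈ iJ G, RC G (G.cl x) → 0 ≤ fr x := by
    intro x hx rx
    by_cases h0 : TH G x = Q
    · rw [hfr.sq x hx rx h0]
      norm_num
    by_cases h1 : ∃ j ≤ m, TH G x = g j
    · obtain ⟨j, hj, h1⟩ := h1
      rw [hfr.lo x hx rx j hj h1]
      linarith [hjm j hj]
    · by_cases h2 : ∃ j ≤ m, TH G x = opp (g j)
      · obtain ⟨j, hj, h2⟩ := h2
        rw [hfr.hi x hx rx j hj h2]
        exact hjn j
      · rw [hfr.el x hx rx h0 (fun j hj h => h1 ⟨j, hj, h⟩) (fun j hj h => h2 ⟨j, hj, h⟩)]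
        split_ifs <;> norm_num
  have hfr1 : ∀ x ∈ iJ G, RC G (G.cl x) → F x → TH G x ≠ Q → (∀ j ≤ m, TH G x ≠ g j) →
      fr x = 1 := by
    intro x hx rx hFx hq h1
    rw [hfr.el x hx rx hq h1, if_pos hFx]
    intro j hj h
    exact (f.hi x hx rx (by rw [h]; exact c.bQ hj)).2 ⟨j, hj, h⟩ hFx
  have hxrR : ∀ x, RC G (G.cl x) → xr G fr x = fr x := by
    intro x rx
    unfold xr
    rw [if_neg (RC_ne51 G rx), if_pos rx]
  have hxr0 : ∀ x ∈ iJ G, 0 ≤ xr G fr x := by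
    intro x hx
    unfold xr
    split_ifs with h1 h2
    · exact le_rfl
    · exact hfr0 x hx h2
    · norm_num
  -- the sides between two rhombi
  have hXe : ∀ v, ∃ x : V × V, Db57 G al Q F v →
      x ∈ Jv G v ∧ RC G (G.cl x) ∧ RC G (G.cl (p x)) := by
    intro v
    by_cases h : Db57 G al Q F v
    · obtain ⟨x, h1, h2, h3⟩ := Dbx57 G hG O c f hS h
      exact ⟨x, fun _ => ⟨h1, h2, h3⟩⟩
    · exact ⟨(v, v), fun h1 => absurd h1 h⟩
  choose X hX using hXe
  have hz : ∀ v, Db57 G al Q F v →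
      X v ∈ iJ G ∧ (X v).1 = v ∧ p (X v) ∈ Jv G v ∧
      s' (p (X v)) ∈ iJ G ∧ sg G (X v) ∈ iJ G ∧ RC G (G.cl (s' (p (X v)))) ∧
      RC G (G.cl (sg G (X v))) ∧
      F (s' (p (X v))) ∧ F (sg G (X v)) ∧ (s' (p (X v))).1 = (sg G (X v)).1 ∧
      p (s' (p (X v))) = sg G (X v) ∧
      q (sg G (X v)) = s' (p (X v)) ∧ ¬ B7 G al (sg G (X v)).1 ∧ TH G (s' (p (X v))) ≠ Q ∧
      TH G (sg G (X v)) ≠ Q := by
    intro v h1
    obtain ⟨h3, h4, h5⟩ := hX v h1
    exact ⟨((mem_Jv51 G).1 h3).1, ((mem_Jv51 G).1 h3).2, (pJ57 G O h1.1.1 h3).1,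
      zbb57 G hG O c hoQ f hS hF h1 h3 h4 h5⟩
  have hVD : ∀ v, VS57 G al Q opp g m v → ¬ Db57 G al Q F v := by
    rintro v ⟨_, x, hx, y, hy, rx, ry, hxQ, _⟩ hD
    exact (hD.2 x hx rx).2 hxQ
  -- the tokens
  obtain ⟨Tk, hTk⟩ : ∃ Tk : V → Finset ((V × V) × ℕ), ∀ v, Tk v =
      if VS57 G al Q opp g m v then cl v else
        if Db57 G al Q F v then {(s' (p (X v)), 0), (sg G (X v), 1)} else ∅ := ⟨_, fun _ => rfl⟩
  have mT : ∀ v, ∀ t ∈ Tk v, (VS57 G al Q opp g m v ∧ t ∈ cl v) ∨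
      (Db57 G al Q F v ∧ (t = (s' (p (X v)), 0) ∨ t = (sg G (X v), 1))) := by
    intro v t ht
    rw [hTk] at ht
    by_cases h1 : VS57 G al Q opp g m v
    · rw [if_pos h1] at ht
      exact Or.inl ⟨h1, ht⟩
    · rw [if_neg h1] at ht
      by_cases h2 : Db57 G al Q F v
      · rw [if_pos h2, Finset.mem_insert, Finset.mem_singleton] at ht
        exact Or.inr ⟨h2, ht⟩
      · rw [if_neg h2] at ht
        exact absurd ht (Finset.notMem_empty _)
  have tf : ∀ v, ∀ t ∈ Tk v, t.1 ∈ iJ G ∧ RC G (G.cl t.1) ∧ t.2 ≤ 3 ∧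
      (2 ≤ t.2 → TH G t.1 = Q ∧ t.1.1 ∉ inN G) ∧
      (B7 G al t.1.1 → (∃ j ≤ m, TH G t.1 = g j) ∧ ¬ Tight62 G al F t.1) := by
    intro v t ht
    rcases mT v t ht with ⟨h1, h2⟩ | ⟨h1, h3⟩
    · obtain ⟨k1, k2, k3, k4, _, _, k5⟩ := hcl v h1 t h2
      exact ⟨k1, k2, k4, k5, fun h => k3.resolve_left (fun h' => h' h)⟩
    · obtain ⟨z1, z2, z3, z4, z5, z6, z7, z8, z9, z10, z11, z12, z13, z14, z15⟩ := hz v h1
      rcases h3 with rfl | rfl
      · refine ⟨z4, z6, by norm_num, fun h => absurd h (by norm_num), fun h => ?_⟩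
        exact absurd (by rw [← z10]; exact h) z13
      · exact ⟨z5, z7, by norm_num, fun h => absurd h (by norm_num), fun h => absurd h z13⟩
  have hdisT : ∀ v ∈ G.P, ∀ v' ∈ G.P, v ≠ v' → Disjoint (Tk v) (Tk v') := by
    have hmix : ∀ v v' t, VS57 G al Q opp g m v → t ∈ cl v → Db57 G al Q F v' →
        (t = (s' (p (X v')), 0) ∨ t = (sg G (X v'), 1)) → False := by
      intro v v' t h1 h2 h3 h5
      obtain ⟨k1, k2, _, k4, k5, k6, k7⟩ := hcl v h1 t h2
      obtain ⟨z1, z2, z3, z4, z5, z6, z7, z8, z9, z10, z11, z12, z13, z14, z15⟩ := hz v' h3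
      rcases h5 with rfl | rfl
      · dsimp only at k5
        rw [z11] at k5
        exact k5 rfl ⟨z7, z9, z15, z14⟩
      · dsimp only at k6
        rw [z12] at k6
        exact k6 rfl ⟨z6, z8, z14, z15⟩
    intro v _ v' _ hne
    rw [Finset.disjoint_left]
    intro t ht ht'
    rcases mT v t ht with ⟨h1, h2⟩ | ⟨h1, h3⟩
    · rcases mT v' t ht' with ⟨k1, k2⟩ | ⟨k1, k3⟩
      · exact Finset.disjoint_left.1 (hdis v v' h1 k1 hne) h2 k2
      · exact hmix v v' t h1 h2 k1 k3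
    · rcases mT v' t ht' with ⟨k1, k2⟩ | ⟨k1, k3⟩
      · exact hmix v' v t k1 k2 h1 h3
      · obtain ⟨z1, z2, z3, z4, z5, z6, z7, z8, z9, z10, z11, z12, z13, z14, z15⟩ := hz v h1
        obtain ⟨y1, y2, y3, y4, y5, y6, y7, y8, y9, y10, y11, y12, y13, y14, y15⟩ := hz v' k1
        have hXX : sg G (X v) = sg G (X v') := by
          rcases h3 with h3 | h3 <;> rcases k3 with k3 | k3
          · have h4 : s' (p (X v)) = s' (p (X v')) := congrArg Prod.fst (h3.symm.trans k3)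
            rw [← z11, ← y11, h4]
          · exact absurd (congrArg Prod.snd (h3.symm.trans k3)) (by norm_num)
          · exact absurd (congrArg Prod.snd (h3.symm.trans k3)) (by norm_num)
          · exact congrArg Prod.fst (h3.symm.trans k3)
        apply hne
        have h5 : X v = X v' := by
          rw [← O.s12 _ z1, hXX, O.s12 _ y1]
        rw [← z2, ← y2, h5]
  obtain ⟨TU, hTU⟩ : ∃ TU, TU = G.P.biUnion Tk := ⟨_, rfl⟩
  have tfU : ∀ t ∈ TU, t.1 ∈ iJ G ∧ RC G (G.cl t.1) ∧ t.2 ≤ 3 ∧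
      (2 ≤ t.2 → TH G t.1 = Q ∧ t.1.1 ∉ inN G) ∧
      (B7 G al t.1.1 → (∃ j ≤ m, TH G t.1 = g j) ∧ ¬ Tight62 G al F t.1) := by
    intro t ht
    rw [hTU, Finset.mem_biUnion] at ht
    obtain ⟨v, _, ht⟩ := ht
    exact tf v t ht
  -- two tokens on the same side of a square corner
  have hexU : ∀ k, TH G k = Q → ((k, 2) ∈ TU → (k, 0) ∉ TU) ∧ ((k, 3) ∈ TU → (k, 1) ∉ TU) := by
    intro k hkQ
    have hc : ∀ n, (k, n) ∈ TU → ∃ v, VS57 G al Q opp g m v ∧ (k, n) ∈ cl v := by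
      intro n hn
      rw [hTU, Finset.mem_biUnion] at hn
      obtain ⟨v, _, hn⟩ := hn
      rcases mT v _ hn with h | ⟨h1, h3⟩
      · exact ⟨v, h⟩
      · obtain ⟨z1, z2, z3, z4, z5, z6, z7, z8, z9, z10, z11, z12, z13, z14, z15⟩ := hz v h1
        rcases h3 with h3 | h3
        · have := congrArg Prod.fst h3
          dsimp only at this
          rw [← this] at z14
          exact absurd hkQ z14
        · have := congrArg Prod.fst h3
          dsimp only at this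
          rw [← this] at z15
          exact absurd hkQ z15
    constructor
    · intro h h'
      obtain ⟨v, hv1, hv2⟩ := hc _ h
      obtain ⟨w, hw1, hw2⟩ := hc _ h'
      exact (hex v w k hv1 hw1).1 hv2 hw2
    · intro h h'
      obtain ⟨v, hv1, hv2⟩ := hc _ h
      obtain ⟨w, hw1, hw2⟩ := hc _ h'
      exact (hex v w k hv1 hw1).2 hv2 hw2
  -- the sum at a corner without tokens of the large kind
  have hWfr : ∀ k ∈ iJ G, RC G (G.cl k) → (TH G k ≠ Q ∨ k.1 ∈ inN G) →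
      ∑ t ∈ TU.filter (fun t => t.1 = k), vb57 fr t ≤ fr k := by
    intro k hk rk h
    have hno : ∀ n, 2 ≤ n → (k, n) ∉ TU := by
      intro n hn hmem
      have h1 := (tfU _ hmem).2.2.2.1 hn
      rcases h with h | h
      · exact h h1.1
      · exact h1.2 h
    have := corb57 TU fr k (hfr0 k hk rk) (fun n hn => (tfU _ hn).2.2.1) (fr k / 2) (fr k / 2)
      le_rfl le_rfl (fun h => absurd h (hno 2 le_rfl)) (fun h => absurd h (hno 3 (by norm_num)))
    linarith
  apply core57 G hG hd0 hde hfr.sg hfr0 hA hP Tk (vb57 fr) hdisT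
  · intro v _ t ht
    obtain ⟨h1, h2, _⟩ := tf v t ht
    exact ⟨h1, h2, vbn57 fr t (hfr0 _ h1 h2)⟩
  · -- outside `N`
    intro k hk rk hkN
    rw [← hTU]
    by_cases hkQ : TH G k = Q
    · have h1 := hfr.sq k hk rk hkQ
      have h2 := hexU k hkQ
      have h3 := corb57 TU fr k (hfr0 k hk rk) (fun n hn => (tfU _ hn).2.2.1) (1 / 2) (1 / 2)
        (by rw [h1]; norm_num) (by rw [h1]; norm_num) (fun h => ⟨h2.1 h, le_rfl⟩)
        (fun h => ⟨h2.2 h, le_rfl⟩)
      have h4 : TH G k / al ≤ 3 / 2 := by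
        rw [div_le_iff₀ hal, hkQ]
        exact hQ
      linarith
    · have h1 := hWfr k hk rk (Or.inl hkQ)
      have h2 : TH G k / al ≤ 2 := by
        rw [div_le_iff₀ hal]
        exact TH_R51 G hG hk rk
      linarith
  · intro k hk rk hkN _
    rw [← hTU]
    exact hWfr k hk rk (Or.inr hkN)
  · -- seven units
    intro v hB
    rw [← hTU]
    have hone : ∀ x ∈ Jv G v, xr G fr x ≤ ∑ x ∈ Jv G v, xr G fr x := fun x hx =>
      Finset.single_le_sum (fun y hy => hxr0 y ((mem_Jv51 G).1 hy).1) hx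
    have htwo : ∀ x ∈ Jv G v, ∀ y ∈ Jv G v, x ≠ y → xr G fr x + xr G fr y ≤
        ∑ x ∈ Jv G v, xr G fr x := by
      intro x hx y hy hxy
      rw [← Finset.sum_pair hxy]
      apply Finset.sum_le_sum_of_subset_of_nonneg
      · intro z hz
        rw [Finset.mem_insert, Finset.mem_singleton] at hz
        rcases hz with rfl | rfl
        · exact hx
        · exact hy
      · intro z hz _
        exact hxr0 z ((mem_Jv51 G).1 hz).1
    have tip : ∀ x ∈ Jv G v, ∀ z ∈ Jv G v, x ≠ z → RC G (G.cl x) → RC G (G.cl z) →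
        (∃ j ≤ m, TH G x = g j) → Q < TH G z := by
      rintro x hx z hz hxz rx rz ⟨j, hj, h1⟩
      by_contra h
      push Not at h
      exact c1_62 G hG c hB hx hz hxz rx rz (by rw [h1]; exact (c.gm hj).le) h
    have hempty : (∀ t ∈ TU, t.1.1 ≠ v) →
        ∑ t ∈ TU.filter (fun t => t.1.1 = v), vb57 fr t = 0 := by
      intro h
      rw [Finset.filter_eq_empty_iff.2 (fun t ht => h t ht), Finset.sum_empty]
    have htipv : ∀ t ∈ TU, t.1.1 = v → t.1 ∈ Jv G v ∧ RC G (G.cl t.1) ∧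
        (∃ j ≤ m, TH G t.1 = g j) ∧ ¬ Tight62 G al F t.1 ∧ F t.1 := by
      intro t ht htv
      obtain ⟨k1, k2, _, _, k3⟩ := tfU t ht
      obtain ⟨⟨j, hj, k4⟩, k5⟩ := k3 (by rw [htv]; exact hB)
      exact ⟨(mem_Jv51 G).2 ⟨k1, htv⟩, k2, ⟨j, hj, k4⟩, k5,
        (f.lo _ k1 k2 (by rw [k4]; exact c.gm hj)).2 ⟨j, hj, k4⟩⟩
    by_cases hV : VS57 G al Q opp g m v
    · obtain ⟨_, x, hx, y, hy, rx, ry, hxQ, hyg, _⟩ := id hV
      rw [hempty, hTk, if_pos hV]
      · have hxy : x ≠ y := by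
          intro h
          rw [h, hyg] at hxQ
          have := c.Qb
          linarith
        have h1 := htwo x hx y hy hxy
        rw [hxrR x rx, hxrR y ry, hfr.sq x ((mem_Jv51 G).1 hx).1 rx hxQ,
          hfr.hi y ((mem_Jv51 G).1 hy).1 ry m le_rfl hyg] at h1
        have h2 := hval v hV
        change _ ≤ ∑ t ∈ cl v, vb57 fr t at h2
        linarith
      · intro t ht htv
        obtain ⟨t1, t2, t3, _, _⟩ := htipv t ht htv
        by_cases h : t.1 = x
        · obtain ⟨j, hj, t4⟩ := t3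
          rw [h, hxQ] at t4
          have := c.gm hj
          linarith
        · have := tip _ t1 x hx h t2 rx t3
          linarith
    · by_cases hD : Db57 G al Q F v
      · rw [hempty, hTk, if_neg hV, if_pos hD]
        · obtain ⟨z1, z2, z3, z4, z5, z6, z7, z8, z9, z10, z11, z12, z13, z14, z15⟩ := hz v hD
          obtain ⟨x1, x2, x3⟩ := hX v hD
          rw [Finset.sum_pair (fun h => absurd (congrArg Prod.snd h) (by norm_num))]
          have v0 : vb57 fr (s' (p (X v)), 0) = fr (s' (p (X v))) / 2 := by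
            unfold vb57
            rw [if_neg (by norm_num)]
          have v1 : vb57 fr (sg G (X v), 1) = fr (sg G (X v)) / 2 := by
            unfold vb57
            rw [if_neg (by norm_num)]
          rw [v0, v1]
          have h1 := hfr.sg _ z1 x2
          have h2 := hfr.sg _ z4 z6
          rw [O.s21 _ ((mem_Jv51 G).1 z3).1] at h2
          have h3 := hone _ x1
          have h4 := hone _ z3
          rw [hxrR _ x2] at h3
          rw [hxrR _ x3] at h4
          linarith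
        · intro t ht htv
          obtain ⟨t1, t2, t3, _, t5⟩ := htipv t ht htv
          exact (hD.2 _ t1 t2).1 t5
      · rw [hTk, if_neg hV, if_neg hD, Finset.sum_empty, add_zero]
        by_cases hex' : ∃ t ∈ TU, t.1.1 = v
        · obtain ⟨t, ht, htv⟩ := hex'
          obtain ⟨t1, t2, t3, t4, t5⟩ := htipv t ht htv
          obtain ⟨x, hx, rx, hFx, hxt⟩ : ∃ x ∈ Jv G v, RC G (G.cl x) ∧ F x ∧ x ≠ t.1 := by
            by_contra hno
            push Not at hno
            apply t4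
            refine ⟨by rw [htv]; exact hB, ?_⟩
            rw [htv]
            exact hno
          have hxQ := tip _ t1 x hx hxt.symm t2 rx t3
          have h1 : fr x = 1 := hfr1 x ((mem_Jv51 G).1 hx).1 rx hFx hxQ.ne' (fun j hj h => by
            have := c.gm hj
            linarith)
          have h2 := htwo _ t1 x hx hxt.symm
          rw [hxrR _ t2, hxrR _ rx, h1] at h2
          have h3 : TU.filter (fun t => t.1.1 = v) = TU.filter (fun t' => t'.1 = t.1) := by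
            apply Finset.filter_congr
            intro t' ht'
            constructor
            · intro h
              obtain ⟨l1, l2, ⟨j, hj, l3⟩, _, _⟩ := htipv t' ht' h
              by_contra hne
              have h4 := tip _ t1 _ l1 (fun h => hne h.symm) t2 l2 t3
              have := c.gm hj
              linarith
            · intro h
              rw [h]
              exact htv
          have h4 := hWfr t.1 ((mem_Jv51 G).1 t1).1 t2 (Or.inr (by rw [htv]; exact hB.1))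
          rw [h3]
          linarith
        · rw [hempty (fun t ht h => hex' ⟨t, ht, h⟩)]
          have := good57 G hG c f hS hN4 hd0 hfr hfr0 hB hD hV
          linarith

end D

end

end Pool.Agent.PEN
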