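import Pool.Agent.P4.W4Tk57
import Pool.Agent.P4.W4D9

/-! # PENNY, token rows: the tokens of type (a) and inequality (D_B) -/

set_option autoImplicit false

namespace Pool.Agent.PEN.W4

open Classical UpperHalfPlane

noncomputable section

section
variable {V : Type} (G : Tg V) {al : ℝ} {kp : V → V → ℝ} {U : ℕ → ℝ}
variable {Q : ℝ} {opp : ℝ → ℝ} {g : ℕ → ℝ} {m : ℕ} {s s' p q : V × V → V × V}

/-- tokens at a point, sorted by corners -/
theorem fib57 (TU : Finset ((V × V) × ℕ)) (val : (V × V) × ℕ → ℝ)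
    (h : ∀ t ∈ TU, t.1 ∈ iJ G) (v : V) :
    ∑ t ∈ TU.filter (fun t => t.1.1 = v), val t =
      ∑ k ∈ Jv G v, ∑ t ∈ TU.filter (fun t => t.1 = k), val t := by
  have h1 : ∑ k ∈ Jv G v, ∑ t ∈ (TU.filter (fun t => t.1.1 = v)).filter (fun t => t.1 = k),
      val t = ∑ t ∈ TU.filter (fun t => t.1.1 = v), val t := by
    refine Finset.sum_fiberwise_of_maps_to (g := Prod.fst) ?_ _
    intro t ht
    rw [Finset.mem_filter] at ht
    exact (mem_Jv51 G).2 ⟨h t ht.1, ht.2⟩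
  rw [← h1]
  refine Finset.sum_congr rfl fun k hk => ?_
  rw [Finset.filter_filter]
  refine Finset.sum_congr ?_ fun _ _ => rfl
  apply Finset.filter_congr
  intro t _
  constructor
  · exact fun h => h.2
  · intro h
    exact ⟨by rw [h]; exact ((mem_Jv51 G).1 hk).2, h⟩

/-- **inequality (D_B) with tokens, the core** -/
theorem coreD57 (hG : G.Geo4 al kp U)
    {fr : V × V → ℝ} (hsg : ∀ x ∈ iJ G, RC G (G.cl x) → fr (sg G x) = 1 - fr x)
    (hfr0 : ∀ x ∈ iJ G, RC G (G.cl x) → 0 ≤ fr x)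
    (hA : ∀ C ∈ G.iC, A3 al * (G.cT C).card ≤ ∑ x ∈ G.cD C, G.ar x.1 x.2 / 3)
    (hP : ∀ C ∈ G.iC, (G.cT C).card = 3 → (G.cI C).card = 4 → ∑ x ∈ G.cJ C, wc G al x ≤ 12)
    (Tk : V → Finset ((V × V) × ℕ)) (val : (V × V) × ℕ → ℝ)
    (hdis : ∀ v ∈ G.P, ∀ v' ∈ G.P, v ≠ v' → Disjoint (Tk v) (Tk v'))
    (hT : ∀ v ∈ G.P, ∀ t ∈ Tk v, t.1 ∈ iJ G ∧ RC G (G.cl t.1) ∧ 0 ≤ val t)
    (hout : ∀ v ∈ G.P, v ∉ inN G → (∀ k ∈ Jv G v, RC G (G.cl k) →
      ∑ t ∈ (G.P.biUnion Tk).filter (fun t => t.1 = k), val t ≤ fr k) ∨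
      ∑ t ∈ (G.P.biUnion Tk).filter (fun t => t.1.1 = v), val t + 3 ≤
        ∑ x ∈ Jv G v, ((bw G al x : ℝ) + xr G fr x))
    (hin : ∀ k ∈ iJ G, RC G (G.cl k) → k.1 ∈ inN G → ¬ B7 G al k.1 →
      ∑ t ∈ (G.P.biUnion Tk).filter (fun t => t.1 = k), val t ≤ fr k)
    (hB7 : ∀ v, B7 G al v → ∑ t ∈ (G.P.biUnion Tk).filter (fun t => t.1.1 = v), val t ≤
      ∑ x ∈ Jv G v, xr G fr x - 1 + ∑ t ∈ Tk v, val t) :
    8 * G.P.card ≤ 5 * G.oJ.card + (G.shp al).card + G.iD.card + 2 * G.iI.card := by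
  have hal := al_pos71 G hG
  have hR := rot9_4 G hG
  have hxrR : ∀ x, RC G (G.cl x) → xr G fr x = fr x := by
    intro x rx
    unfold xr
    rw [if_neg (RC_ne51 G rx), if_pos rx]
  have hxr0 : ∀ x ∈ iJ G, 0 ≤ xr G fr x := by
    intro x hx
    unfold xr
    split_ifs with h1 h2
    · exact le_rfl
    · exact hfr0 x hx h2
    · norm_num
  obtain ⟨TU, hTU⟩ : ∃ TU, TU = G.P.biUnion Tk := ⟨_, rfl⟩
  rw [← hTU] at hin hB7
  simp only [← hTU] at hout
  have tfU : ∀ t ∈ TU, t.1 ∈ iJ G ∧ RC G (G.cl t.1) ∧ 0 ≤ val t := by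
    intro t ht
    rw [hTU, Finset.mem_biUnion] at ht
    obtain ⟨v, hv, ht⟩ := ht
    exact hT v hv t ht
  obtain ⟨W, hW⟩ : ∃ W : V × V → ℝ, ∀ k, W k =
      ∑ t ∈ TU.filter (fun t => t.1 = k), val t := ⟨_, fun _ => rfl⟩
  have hWs : ∀ v, ∑ t ∈ TU.filter (fun t => t.1.1 = v), val t = ∑ k ∈ Jv G v, W k := by
    intro v
    rw [fib57 G TU val (fun t ht => (tfU t ht).1)]
    exact Finset.sum_congr rfl fun k _ => (hW k).symm
  have hW0 : ∀ k, ¬ RC G (G.cl k) → W k = 0 := by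
    intro k hk
    rw [hW, Finset.filter_eq_empty_iff.2 (fun t ht h => hk (by rw [← h]; exact (tfU t ht).2.1)),
      Finset.sum_empty]
  have hvn : ∀ v ∈ G.P, 0 ≤ ∑ t ∈ Tk v, val t := fun v hv =>
    Finset.sum_nonneg fun t ht => (hT v hv t ht).2.2
  obtain ⟨w, hw⟩ : ∃ w : V × V → ℝ, w = fun x => (bw G al x : ℝ) + xr G fr x := ⟨_, rfl⟩
  have main : 0 ≤ ∑ v ∈ G.P, (5 * ((G.oJ.filter (fun x => x.1 = v)).card : ℝ) +
      ∑ x ∈ Jv G v, w x + (((G.shp al).filter (fun x => x.2 = v)).card : ℝ) - 8) := by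
    apply tok57 G.P (fun v => 5 * ((G.oJ.filter (fun x => x.1 = v)).card : ℝ) +
      ∑ x ∈ Jv G v, w x + (((G.shp al).filter (fun x => x.2 = v)).card : ℝ) - 8) Tk
      (fun t => t.1.1) val hdis
    · intro v hv t ht
      have h1 := (hT v hv t ht).1
      rw [mem_iJ71] at h1
      exact G.mem _ _ (G.sub h1.1.1)
    intro v hvP
    rw [← hTU, hWs]
    have hv0 := hvn v hvP
    have p1 : (0 : ℝ) ≤ ((G.oJ.filter (fun x => x.1 = v)).card : ℝ) := Nat.cast_nonneg _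
    have p2 : (0 : ℝ) ≤ (((G.shp al).filter (fun x => x.2 = v)).card : ℝ) := Nat.cast_nonneg _
    have hwv : ∑ x ∈ Jv G v, w x = ∑ x ∈ Jv G v, (bw G al x : ℝ) +
        ∑ x ∈ Jv G v, xr G fr x := by
      rw [hw, Finset.sum_add_distrib]
    by_cases hvN : v ∈ inN G
    swap
    · -- outside `N`
      have hex : ∃ a, (v, a) ∈ G.oJ := by
        by_contra h
        exact hvN (by
          unfold inN
          exact Finset.mem_filter.2 ⟨hvP, h⟩)
      have h3 : 1 ≤ (G.oJ.filter (fun x => x.1 = v)).card := by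
        obtain ⟨a, ha⟩ := hex
        exact Finset.card_pos.2 ⟨(v, a), Finset.mem_filter.2 ⟨ha, rfl⟩⟩
      have h3' : (1 : ℝ) ≤ ((G.oJ.filter (fun x => x.1 = v)).card : ℝ) := by exact_mod_cast h3
      rcases hout v hvP hvN with hk | hk
      · have hWJ : ∑ x ∈ Jv G v, W x ≤ ∑ x ∈ Jv G v, xr G fr x := by
          apply Finset.sum_le_sum
          intro x hx
          by_cases rx : RC G (G.cl x)
          · have := hk x hx rx
            rw [← hW] at this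
            rw [hxrR x rx]
            exact this
          · rw [hW0 x rx]
            exact hxr0 x ((mem_Jv51 G).1 hx).1
        have h1 := L9 G hR hal hG.al2 hG.deg (tot9_4 G hG) hvP
        have h2 : ((∑ x ∈ G.iJ.filter (fun x => x.1 = v), G.wt al x : ℕ) : ℝ) ≤
            ∑ x ∈ Jv G v, (bw G al x : ℝ) := by
          rw [Nat.cast_sum]
          apply Finset.sum_le_sum
          intro x hx
          have hx1 : x ∈ iJ G := (Finset.mem_filter.1 hx).1
          exact_mod_cast wt_le_bw9 G hG hx1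
        have h4 : 8 ≤ 5 * (G.oJ.filter (fun x => x.1 = v)).card +
            ∑ x ∈ G.iJ.filter (fun x => x.1 = v), G.wt al x +
            ((G.shp al).filter (fun x => x.2 = v)).card := by omega
        have h5 : (8 : ℝ) ≤ 5 * ((G.oJ.filter (fun x => x.1 = v)).card : ℝ) +
            ((∑ x ∈ G.iJ.filter (fun x => x.1 = v), G.wt al x : ℕ) : ℝ) +
            (((G.shp al).filter (fun x => x.2 = v)).card : ℝ) := by exact_mod_cast h4
        rw [hwv]
        linarith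
      · rw [hWs, Finset.sum_add_distrib] at hk
        rw [hwv]
        linarith
    by_cases hB : B7 G al v
    · have h7' : ∑ x ∈ Jv G v, (bw G al x : ℝ) = 7 := by exact_mod_cast hB.2.1
      have h8 := hB7 v hB
      rw [hWs] at h8
      rw [hwv, h7']
      linarith
    · -- not seven units
      have hb7 := base7_51 G hG hvN
      have hWJ : ∀ x ∈ Jv G v, W x ≤ xr G fr x := by
        intro x hx
        have hx' := (mem_Jv51 G).1 hx
        by_cases rx : RC G (G.cl x)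
        · have := hin x hx'.1 rx (by rw [hx'.2]; exact hvN) (by rw [hx'.2]; exact hB)
          rw [← hW] at this
          rw [hxrR x rx]
          exact this
        · rw [hW0 x rx]
          exact hxr0 x hx'.1
      rcases Nat.lt_or_ge (∑ x ∈ Jv G v, bw G al x) 8 with hlt | hge
      · have h7 : ∑ x ∈ Jv G v, bw G al x = 7 := by omega
        have hex : ∃ x ∈ Jv G v, G.cI (G.cl x) ≠ ∅ ∧ ¬ RC G (G.cl x) := by
          by_contra hno
          push Not at hno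
          refine hB ⟨hvN, h7, fun x hx => ?_⟩
          by_cases h1 : G.cI (G.cl x) = ∅
          · exact Or.inl h1
          · exact Or.inr (hno x hx (Finset.nonempty_iff_ne_empty.2 h1))
        obtain ⟨x0, hx0, hx1, hx2⟩ := hex
        have h7' : ∑ x ∈ Jv G v, (bw G al x : ℝ) = 7 := by exact_mod_cast h7
        have h8 : W x0 = 0 := hW0 x0 hx2
        have h9 : xr G fr x0 = 1 := by
          unfold xr
          rw [if_neg hx1, if_neg hx2]
        rw [hwv, h7', ← Finset.add_sum_erase _ W hx0, ← Finset.add_sum_erase _ (xr G fr) hx0,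
          h8, h9]
        have h10 : ∑ x ∈ (Jv G v).erase x0, W x ≤ ∑ x ∈ (Jv G v).erase x0, xr G fr x :=
          Finset.sum_le_sum fun x hx => hWJ x (Finset.mem_of_mem_erase hx)
        linarith
      · have h8 : (8 : ℝ) ≤ ∑ x ∈ Jv G v, (bw G al x : ℝ) := by exact_mod_cast hge
        have h10 : ∑ x ∈ Jv G v, W x ≤ ∑ x ∈ Jv G v, xr G fr x := Finset.sum_le_sum hWJ
        rw [hwv]
        linarith
  -- summation over the points
  have h2 : ∑ x ∈ iJ G, w x ≤ G.iD.card + 2 * G.iI.card := by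
    rw [hw]
    exact wsumR51 G hG fr hsg hA hP
  have s1 : ∑ v ∈ G.P, (G.oJ.filter (fun x => x.1 = v)).card = G.oJ.card :=
    (Finset.card_eq_sum_card_fiberwise (f := Prod.fst) (t := G.P) (fun x hx =>
      G.mem x.1 x.2 ((mem_oJ9 G).1 hx).1)).symm
  have s2 : ∑ v ∈ G.P, ((G.shp al).filter (fun x => x.2 = v)).card = (G.shp al).card :=
    (Finset.card_eq_sum_card_fiberwise (f := Prod.snd) (t := G.P) (fun x hx => by
      have h3 : x ∈ G.iB := by
        have h4 : x ∈ G.shp al := hx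
        unfold Tg.shp at h4
        exact (Finset.mem_filter.1 h4).1
      exact G.mem x.2 x.1 (G.symm _ _ (G.sub ((mem_iB9 G).1 h3).1.1)))).symm
  have s3 : ∑ v ∈ G.P, ∑ x ∈ Jv G v, w x = ∑ x ∈ iJ G, w x :=
    Finset.sum_fiberwise_of_maps_to (fun x hx =>
      G.mem x.1 x.2 (G.sub ((mem_iJ71 G).1 hx).1.1)) _
  rw [Finset.sum_sub_distrib, Finset.sum_add_distrib, Finset.sum_add_distrib, ← Finset.mul_sum,
    s3, ← Nat.cast_sum, ← Nat.cast_sum, s1, s2, Finset.sum_const, nsmul_eq_mul] at main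
  have s5 : (8 : ℝ) * G.P.card ≤ 5 * G.oJ.card + (G.shp al).card + G.iD.card +
      2 * G.iI.card := by linarith
  exact_mod_cast s5

/-- **the tokens of type (a)** -/
theorem tkex57 (hG : G.Geo4 al kp U) (O : Or62 G opp (sg G) s' p q) (c : Ch62 al Q opp g m)
    {F : V × V → Prop} (f : Fc62 G Q opp g m F) (hm : 2 * opp (g m) = 2 * Real.pi - 3 * al)
    {de : ℝ} (hd0 : 0 ≤ de)
    (hF : ∀ x ∈ iJ G, RC G (G.cl x) → (F (sg G x) ↔ ¬ F x))
    {fr : V × V → ℝ} (hfr : Fr57 G Q opp g m de F fr)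
    (hfr0 : ∀ x ∈ iJ G, RC G (G.cl x) → 0 ≤ fr x)
    (P2 : V × V → Prop)
    (cl : V → Finset ((V × V) × ℕ))
    (hcl : ∀ v, KP57 G al F p v → ∀ t ∈ cl v, t.1 ∈ iJ G ∧ RC G (G.cl t.1) ∧
      (∃ j ≤ m, TH G t.1 = g j) ∧ ¬ Tight62 G al F t.1 ∧ t.2 ≤ 2 ∧
      (t.2 = 2 → t.1.1 ∉ inN G ∧ P2 t.1) ∧
      (t.2 = 0 → p t.1 ∈ iJ G → RC G (G.cl (p t.1)) → ¬ F (p t.1)) ∧
      (t.2 = 1 → q t.1 ∈ iJ G → RC G (G.cl (q t.1)) → ¬ F (q t.1)))
    (hdis : ∀ v v', KP57 G al F p v → KP57 G al F p v' → v ≠ v' → Disjoint (cl v) (cl v'))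
    (hval : ∀ v, KP57 G al F p v →
      1 - (2 * (m : ℝ) + 3) * de ≤ ∑ t ∈ cl v, (if t.2 = 2 then 1 / 2 else fr t.1 / 2)) :
    ∃ Tk : V → Finset ((V × V) × ℕ), (∀ v v', v ≠ v' → Disjoint (Tk v) (Tk v')) ∧
      (∀ v, ∀ t ∈ Tk v, t.1 ∈ iJ G ∧ RC G (G.cl t.1) ∧ F t.1 ∧ t.2 ≤ 2 ∧
        (t.2 = 2 → t.1.1 ∉ inN G ∧ P2 t.1)) ∧
      (∀ v, B7 G al v → ∑ t ∈ (G.P.biUnion Tk).filter (fun t => t.1.1 = v), val57 fr t ≤
        ∑ x ∈ Jv G v, xr G fr x - (1 - de) + ∑ t ∈ Tk v, val57 fr t) := by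
  have hfr1 : ∀ x ∈ iJ G, RC G (G.cl x) → F x → (∀ j ≤ m, TH G x ≠ g j) → fr x = 1 := by
    intro x hx rx hFx h1
    rw [hfr.el x hx rx h1, if_pos hFx]
    intro j hj h
    exact (f.hi x hx rx (by rw [h]; exact c.bQ hj)).2 ⟨j, hj, h⟩ hFx
  have hxrR : ∀ x, RC G (G.cl x) → xr G fr x = fr x := by
    intro x rx
    unfold xr
    rw [if_neg (RC_ne51 G rx), if_pos rx]
  have hxr0 : ∀ x ∈ iJ G, 0 ≤ xr G fr x := by
    intro x hx
    unfold xr
    split_ifs with h1 h2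
    · exact le_rfl
    · exact hfr0 x hx h2
    · norm_num
  -- the sides between two rhombi
  have hXe : ∀ v, ∃ x : V × V, Df57 G al F v → ¬ KP57 G al F p v →
      x ∈ Jv G v ∧ RC G (G.cl x) ∧ RC G (G.cl (p x)) := by
    intro v
    by_cases h : ∃ x ∈ Jv G v, RC G (G.cl x) ∧ RC G (G.cl (p x))
    · obtain ⟨x, h1, h2, h3⟩ := h
      exact ⟨x, fun _ _ => ⟨h1, h2, h3⟩⟩
    · refine ⟨(v, v), fun h1 h2 => absurd ⟨h1.1, h1.2, fun x hx rx rp => h ⟨x, hx, rx, rp⟩⟩ h2⟩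
  choose X hX using hXe
  have hz : ∀ v, Df57 G al F v → ¬ KP57 G al F p v →
      X v ∈ iJ G ∧ (X v).1 = v ∧ p (X v) ∈ Jv G v ∧
      s' (p (X v)) ∈ iJ G ∧ sg G (X v) ∈ iJ G ∧ RC G (G.cl (s' (p (X v)))) ∧
      RC G (G.cl (sg G (X v))) ∧
      F (s' (p (X v))) ∧ F (sg G (X v)) ∧ (s' (p (X v))).1 = (sg G (X v)).1 ∧
      p (s' (p (X v))) = sg G (X v) ∧
      q (sg G (X v)) = s' (p (X v)) ∧ ¬ B7 G al (sg G (X v)).1 := by
    intro v h1 h2
    obtain ⟨h3, h4, h5⟩ := hX v h1 h2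
    exact ⟨((mem_Jv51 G).1 h3).1, ((mem_Jv51 G).1 h3).2, (pJ57 G O h1.1.1 h3).1,
      zb57 G hG O c f hm hF h1 h3 h4 h5⟩
  -- the tokens
  obtain ⟨Tk, hTk⟩ : ∃ Tk : V → Finset ((V × V) × ℕ), ∀ v, Tk v =
      if KP57 G al F p v then cl v else
        if Df57 G al F v then {(s' (p (X v)), 0), (sg G (X v), 1)} else ∅ := ⟨_, fun _ => rfl⟩
  have mT : ∀ v, ∀ t ∈ Tk v, (KP57 G al F p v ∧ t ∈ cl v) ∨
      (Df57 G al F v ∧ ¬ KP57 G al F p v ∧
        (t = (s' (p (X v)), 0) ∨ t = (sg G (X v), 1))) := by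
    intro v t ht
    rw [hTk] at ht
    by_cases h1 : KP57 G al F p v
    · rw [if_pos h1] at ht
      exact Or.inl ⟨h1, ht⟩
    · rw [if_neg h1] at ht
      by_cases h2 : Df57 G al F v
      · rw [if_pos h2, Finset.mem_insert, Finset.mem_singleton] at ht
        exact Or.inr ⟨h2, h1, ht⟩
      · rw [if_neg h2] at ht
        exact absurd ht (Finset.notMem_empty _)
  have tf : ∀ v, ∀ t ∈ Tk v, t.1 ∈ iJ G ∧ RC G (G.cl t.1) ∧ F t.1 ∧ t.2 ≤ 2 ∧
      (t.2 = 2 → t.1.1 ∉ inN G ∧ P2 t.1) ∧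
      (B7 G al t.1.1 → (∃ j ≤ m, TH G t.1 = g j) ∧ ¬ Tight62 G al F t.1) := by
    intro v t ht
    rcases mT v t ht with ⟨h1, h2⟩ | ⟨h1, h2, h3⟩
    · obtain ⟨k1, k2, ⟨j, hj, k3⟩, k4, k5, k6, _, _⟩ := hcl v h1 t h2
      refine ⟨k1, k2, ?_, k5, k6, fun _ => ⟨⟨j, hj, k3⟩, k4⟩⟩
      exact (f.lo _ k1 k2 (by rw [k3]; exact c.gm hj)).2 ⟨j, hj, k3⟩
    · obtain ⟨z1, z2, z3, z4, z5, z6, z7, z8, z9, z10, z11, z12, z13⟩ := hz v h1 h2
      rcases h3 with rfl | rfl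
      · refine ⟨z4, z6, z8, by norm_num, fun h => absurd h (by norm_num), fun h => ?_⟩
        exact absurd (by rw [← z10]; exact h) z13
      · exact ⟨z5, z7, z9, by norm_num, fun h => absurd h (by norm_num), fun h => absurd h z13⟩
  refine ⟨Tk, ?_, fun v t ht => ?_, ?_⟩
  · have hmix : ∀ v v' t, KP57 G al F p v → t ∈ cl v → Df57 G al F v' → ¬ KP57 G al F p v' →
        (t = (s' (p (X v')), 0) ∨ t = (sg G (X v'), 1)) → False := by
      intro v v' t h1 h2 h3 h4 h5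
      obtain ⟨k1, k2, _, k4, k5, k6, k7, k8⟩ := hcl v h1 t h2
      obtain ⟨z1, z2, z3, z4, z5, z6, z7, z8, z9, z10, z11, z12, z13⟩ := hz v' h3 h4
      rcases h5 with rfl | rfl
      · dsimp only at k7
        rw [z11] at k7
        exact k7 rfl z5 z7 z9
      · dsimp only at k8
        rw [z12] at k8
        exact k8 rfl z4 z6 z8
    intro v v' hne
    rw [Finset.disjoint_left]
    intro t ht ht'
    rcases mT v t ht with ⟨h1, h2⟩ | ⟨h1, h2, h3⟩
    · rcases mT v' t ht' with ⟨k1, k2⟩ | ⟨k1, k2, k3⟩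
      · exact Finset.disjoint_left.1 (hdis v v' h1 k1 hne) h2 k2
      · exact hmix v v' t h1 h2 k1 k2 k3
    · rcases mT v' t ht' with ⟨k1, k2⟩ | ⟨k1, k2, k3⟩
      · exact hmix v' v t k1 k2 h1 h2 h3
      · obtain ⟨z1, z2, z3, z4, z5, z6, z7, z8, z9, z10, z11, z12, z13⟩ := hz v h1 h2
        obtain ⟨y1, y2, y3, y4, y5, y6, y7, y8, y9, y10, y11, y12, y13⟩ := hz v' k1 k2
        have hXX : sg G (X v) = sg G (X v') := by
          rcases h3 with h3 | h3 <;> rcases k3 with k3 | k3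
          · have h4 : s' (p (X v)) = s' (p (X v')) := congrArg Prod.fst (h3.symm.trans k3)
            rw [← z11, ← y11, h4]
          · exact absurd (congrArg Prod.snd (h3.symm.trans k3)) (by norm_num)
          · exact absurd (congrArg Prod.snd (h3.symm.trans k3)) (by norm_num)
          · exact congrArg Prod.fst (h3.symm.trans k3)
        apply hne
        have h5 : X v = X v' := by
          rw [← O.s12 _ z1, hXX, O.s12 _ y1]
        rw [← z2, ← y2, h5]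
  · obtain ⟨k1, k2, k3, k4, k5, _⟩ := tf v t ht
    exact ⟨k1, k2, k3, k4, k5⟩
  intro v hB
  obtain ⟨TU, hTU⟩ : ∃ TU, TU = G.P.biUnion Tk := ⟨_, rfl⟩
  rw [← hTU]
  have tfU : ∀ t ∈ TU, t.1 ∈ iJ G ∧ RC G (G.cl t.1) ∧ F t.1 ∧ t.2 ≤ 2 ∧
      (t.2 = 2 → t.1.1 ∉ inN G ∧ P2 t.1) ∧
      (B7 G al t.1.1 → (∃ j ≤ m, TH G t.1 = g j) ∧ ¬ Tight62 G al F t.1) := by
    intro t ht
    rw [hTU, Finset.mem_biUnion] at ht
    obtain ⟨v, _, ht⟩ := ht
    exact tf v t ht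
  have hone : ∀ x ∈ Jv G v, xr G fr x ≤ ∑ x ∈ Jv G v, xr G fr x := fun x hx =>
    Finset.single_le_sum (fun y hy => hxr0 y ((mem_Jv51 G).1 hy).1) hx
  have htwo : ∀ x ∈ Jv G v, ∀ y ∈ Jv G v, x ≠ y → xr G fr x + xr G fr y ≤
      ∑ x ∈ Jv G v, xr G fr x := by
    intro x hx y hy hxy
    rw [← Finset.sum_pair hxy]
    apply Finset.sum_le_sum_of_subset_of_nonneg
    · intro z hz
      rw [Finset.mem_insert, Finset.mem_singleton] at hz
      rcases hz with rfl | rfl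
      · exact hx
      · exact hy
    · intro z hz _
      exact hxr0 z ((mem_Jv51 G).1 hz).1
  have hempty : (∀ t ∈ TU, t.1.1 ≠ v) →
      ∑ t ∈ TU.filter (fun t => t.1.1 = v), val57 fr t = 0 := by
    intro h
    rw [Finset.filter_eq_empty_iff.2 (fun t ht => h t ht), Finset.sum_empty]
  have htipv : ∀ t ∈ TU, t.1.1 = v → t.1 ∈ Jv G v ∧ RC G (G.cl t.1) ∧
      (∃ j ≤ m, TH G t.1 = g j) ∧ ¬ Tight62 G al F t.1 ∧ F t.1 ∧ t.2 ≤ 2 ∧ t.2 ≠ 2 := by
    intro t ht htv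
    obtain ⟨k1, k2, k4, k5, k6, k3⟩ := tfU t ht
    obtain ⟨k7, k8⟩ := k3 (by rw [htv]; exact hB)
    refine ⟨(mem_Jv51 G).2 ⟨k1, htv⟩, k2, k7, k8, k4, k5, fun h => (k6 h).1 ?_⟩
    rw [htv]
    exact hB.1
  have tip : ∀ x ∈ Jv G v, ∀ z ∈ Jv G v, x ≠ z → RC G (G.cl x) → RC G (G.cl z) →
      (∃ j ≤ m, TH G x = g j) → ∀ j ≤ m, TH G z ≠ g j := by
    rintro x hx z hz hxz rx rz ⟨j, hj, h1⟩ k hk h2
    exact c1_62 G hG c hB hx hz hxz rx rz (by rw [h1]; exact (c.gm hj).le)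
      (by rw [h2]; exact (c.gm hk).le)
  by_cases hD : Df57 G al F v
  · -- deficient points
    rw [hempty (fun t ht htv => hD.2 _ (htipv t ht htv).1 (htipv t ht htv).2.1
      (htipv t ht htv).2.2.2.2.1), hTk]
    by_cases hK : KP57 G al F p v
    · rw [if_pos hK]
      obtain ⟨t0, ht0, e1, e2, e3, e4, e5, e6, e7, e8⟩ := Kst57 G hG O c f hm hK
      have h1 := htwo _ e2 _ e3 e8
      rw [hxrR _ e4, hxrR _ e5, hfr.hi _ ((mem_Jv51 G).1 e2).1 e4 m le_rfl e6,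
        hfr.hi _ ((mem_Jv51 G).1 e3).1 e5 m le_rfl e7] at h1
      have h2 := hval v hK
      change _ ≤ ∑ t ∈ cl v, val57 fr t at h2
      linarith
    · rw [if_neg hK, if_pos hD]
      obtain ⟨z1, z2, z3, z4, z5, z6, z7, z8, z9, z10, z11, z12, z13⟩ := hz v hD hK
      obtain ⟨x1, x2, x3⟩ := hX v hD hK
      rw [Finset.sum_pair (fun h => absurd (congrArg Prod.snd h) (by norm_num)), val0_57,
        val1_57]
      have h1 := hfr.sg _ z1 x2
      have h2 := hfr.sg _ z4 z6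
      rw [O.s21 _ ((mem_Jv51 G).1 z3).1] at h2
      have h3 := hone _ x1
      have h4 := hone _ z3
      rw [hxrR _ x2] at h3
      rw [hxrR _ x3] at h4
      linarith
  · -- a corner in `F`
    have hTv : Tk v = ∅ := by
      rw [hTk, if_neg (fun h : KP57 G al F p v => hD ⟨h.1, h.2.1⟩), if_neg hD]
    rw [hTv, Finset.sum_empty, add_zero]
    obtain ⟨y, hy, ry, hFy⟩ : ∃ y ∈ Jv G v, RC G (G.cl y) ∧ F y := by
      by_contra hno
      push Not at hno
      exact hD ⟨hB, hno⟩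
    by_cases hex : ∃ t ∈ TU, t.1.1 = v
    · obtain ⟨t, ht, htv⟩ := hex
      obtain ⟨htJ, k2, hj, hnT, k3, k4, k5⟩ := htipv t ht htv
      obtain ⟨x, hx, rx, hFx, hxt⟩ : ∃ x ∈ Jv G v, RC G (G.cl x) ∧ F x ∧ x ≠ t.1 := by
        by_contra hno
        push Not at hno
        apply hnT
        refine ⟨by rw [htv]; exact hB, ?_⟩
        rw [htv]
        exact hno
      have h1 : fr x = 1 := hfr1 x ((mem_Jv51 G).1 hx).1 rx hFx
        (tip _ htJ x hx hxt.symm k2 rx hj)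
      have h2 := htwo _ htJ x hx hxt.symm
      rw [hxrR _ k2, hxrR _ rx, h1] at h2
      have h3 : TU.filter (fun t => t.1.1 = v) = TU.filter (fun t' => t'.1 = t.1) := by
        apply Finset.filter_congr
        intro t' ht'
        constructor
        · intro h
          obtain ⟨l1, l2, ⟨j, hj', l3⟩, _⟩ := htipv t' ht' h
          by_contra hne
          exact tip _ htJ _ l1 (fun h => hne h.symm) k2 l2 hj j hj' l3
        · intro h
          rw [h]
          exact htv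
      have h4 := cor57 TU fr t.1 (hfr0 _ ((mem_Jv51 G).1 htJ).1 k2)
        (fun n hn => (tfU _ hn).2.2.2.1)
      rw [if_neg (fun h => (htipv (t.1, 2) h htv).2.2.2.2.2.2 rfl), add_zero] at h4
      rw [h3]
      linarith
    · rw [hempty (fun t ht h => hex ⟨t, ht, h⟩)]
      have hn1 : ∀ x ∈ Jv G v, RC G (G.cl x) → F x → (∀ j ≤ m, TH G x ≠ g j) →
          1 ≤ ∑ x ∈ Jv G v, xr G fr x := by
        intro x hx rx hFx h4
        have h5 := hone x hx
        rw [hxrR x rx, hfr1 x ((mem_Jv51 G).1 hx).1 rx hFx h4] at h5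
        exact h5
      by_cases hyt : ∃ j ≤ m, TH G y = g j
      · by_cases hx : ∃ x ∈ Jv G v, RC G (G.cl x) ∧ F x ∧ x ≠ y
        · obtain ⟨x, hx, rx, hFx, hxy⟩ := hx
          have := hn1 x hx rx hFx (tip y hy x hx hxy.symm ry rx hyt)
          linarith
        · push Not at hx
          obtain ⟨j, hj, hyj⟩ := hyt
          have h5 := hfr.lo y ((mem_Jv51 G).1 hy).1 ry j hj hyj
          rcases c0_62 G hG c f hB hy ry hj hyj hx with ⟨h0, _⟩ |
            ⟨i, hi, z, hz, hzy, rz, hzt, _, _⟩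
          · subst h0
            have h4 := hone y hy
            rw [hxrR y ry, h5] at h4
            push_cast at h4
            linarith
          · subst hi
            have h4 := htwo y hy z hz hzy.symm
            rw [hxrR y ry, hxrR z rz, h5,
              hfr.hi z ((mem_Jv51 G).1 hz).1 rz i (by omega) hzt] at h4
            push_cast at h4
            linarith
      · push Not at hyt
        have := hn1 y hy ry hFy hyt
        linarith

end

end

end Pool.Agent.PEN.W4
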