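import Pool.Agent.P4.Tk57e

/-! # PENNY, token rows: the rows B and (D_B) without loss for type (a), `2 ≤ m` -/

set_option autoImplicit false

namespace Pool.Agent.PEN.W4

open Classical UpperHalfPlane

noncomputable section

section
variable {V : Type} (G : Tg V) {al : ℝ} {kp : V → V → ℝ} {U : ℕ → ℝ}
variable {Q : ℝ} {opp : ℝ → ℝ} {g : ℕ → ℝ} {m : ℕ} {s s' p q : V × V → V × V}

/-- two contact triangles at the point of a corner -/
def TT57 (k : V × V) : Prop :=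
  ∃ y ∈ Jv G k.1, ∃ z ∈ Jv G k.1, y ≠ z ∧ G.cI (G.cl y) = ∅ ∧ G.cI (G.cl z) = ∅

theorem fl57 (O : Or62 G opp s s' p q) (c : Ch62 al Q opp g m) {t0 : V × V}
    (h : St62 G opp g m p q t0) (hf : Fl62 G m s' q t0) (hN : (s (q t0)).1 ∉ inN G) :
    TT57 G (s (q t0)) := by
  obtain ⟨e1, e2, e3, e4, e5⟩ := k0_62 G O c h
  obtain ⟨f1, f2⟩ := hf 0 (by omega)
  obtain ⟨f3, f4⟩ := hf 1 (by omega)
  rw [Function.iterate_zero, id_eq] at f1 f2
  rw [Function.iterate_one] at f3 f4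
  have g1 : (s' t0).1 = (s (q t0)).1 := by
    rw [← e4]
    exact O.qf _ e1 (by rw [e4]; exact f1)
  have g2 : (q (s' t0)).1 = (s (q t0)).1 := (O.qf _ f1 f3).trans g1
  refine ⟨s' t0, (mem_Jv51 G).2 ⟨f1, g1⟩, q (s' t0), (mem_Jv51 G).2 ⟨f3, g2⟩, ?_, f2, f4⟩
  intro hne
  apply hN
  refine (O.mirror.cyc (s (q t0)).1 {s' t0} ⟨s' t0, Finset.mem_singleton_self _⟩ ?_).1
  intro x hx
  rw [Finset.mem_singleton] at hx
  subst hx
  exact ⟨f1, g1, by rw [← hne]; exact Finset.mem_singleton_self _⟩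

theorem tkA2_57 (O : Or62 G opp s s' p q) (c : Ch62 al Q opp g m) {F : V × V → Prop}
    {t0 : V × V} (h : St62 G opp g m p q t0) {k : V × V}
    (hk : TkA G al F opp g m s s' p q t0 k 2) : TT57 G k := by
  rcases hk with ⟨i, τ, _, ⟨_, h, _⟩ | ⟨l, _, _, _, _, _, h⟩ | ⟨l, _, _, _, _, _, h⟩⟩ |
    ⟨hf, rfl, ⟨_, h2⟩ | ⟨hN, _⟩⟩
  · omega
  · omega
  · omega
  · omega
  · exact fl57 G O c h hf hN

theorem tkB2_57 (O : Or62 G opp s s' p q) (c : Ch62 al Q opp g m) {F : V × V → Prop}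
    {t0 : V × V} (h : St62 G opp g m p q t0) {k : V × V}
    (hk : TkB G al F opp g m s s' p q t0 k 2) : TT57 G k := by
  rcases hk with ⟨hn, _⟩ | ⟨_, hk⟩
  · omega
  · exact tkA2_57 G O.mirror c h.mir hk

/-- **the two tokens** with the contact triangles at the boundary -/
theorem tokens57 (hG : G.Geo4 al kp U) (O : Or62 G opp s s' p q) (c : Ch62 al Q opp g m)
    (hlow : ∀ x ∈ iJ G, RC G (G.cl x) → al ≤ TH G x) (hm : 2 ≤ m)
    (hsum : ∀ v ∈ G.P, ∑ x ∈ Jv G v, TH G x ≤ 2 * Real.pi)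
    {F : V × V → Prop} (f : Fc62 G Q opp g m F) (KP : V → Prop)
    (hK : ∀ v, KP v → ∃ t0, t0.1 = v ∧ St62 G opp g m p q t0) :
    ∃ a b : V → (V × V) × ℕ, (∀ v, KP v → a v ≠ b v) ∧
      (∀ v, KP v → ∀ t, t = a v ∨ t = b v →
        t.1 ∈ iJ G ∧ RC G (G.cl t.1) ∧ (∃ j, j ≤ m ∧ TH G t.1 = g j) ∧ ¬ Tight62 G al F t.1 ∧
        t.2 ≤ 2 ∧ (t.2 = 2 → t.1.1 ∉ inN G ∧ TT57 G t.1) ∧
        (t.2 = 0 → RC G (G.cl (p t.1)) → ¬ F (p t.1)) ∧
        (t.2 = 1 → RC G (G.cl (q t.1)) → ¬ F (q t.1))) ∧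
      (∀ v w, KP v → KP w → ∀ t, (t = a v ∨ t = b v) → (t = a w ∨ t = b w) → v = w) := by
  have h1 : ∀ v, ∃ x : (V × V) × ((V × V) × ℕ), KP v →
      x.1.1 = v ∧ St62 G opp g m p q x.1 ∧ TkA G al F opp g m s s' p q x.1 x.2.1 x.2.2 := by
    intro v
    by_cases hv : KP v
    · obtain ⟨t0, e1, e2⟩ := hK v hv
      obtain ⟨k, n, e3⟩ := tkA_ex62 G hG O c f e2
      exact ⟨(t0, (k, n)), fun _ => ⟨e1, e2, e3⟩⟩
    · exact ⟨((v, v), ((v, v), 0)), fun h => absurd h hv⟩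
  have h2 : ∀ v, ∃ x : (V × V) × ((V × V) × ℕ), KP v →
      x.1.1 = v ∧ St62 G opp g m p q x.1 ∧ TkB G al F opp g m s s' p q x.1 x.2.1 x.2.2 := by
    intro v
    by_cases hv : KP v
    · obtain ⟨t0, e1, e2⟩ := hK v hv
      obtain ⟨k, n, e3⟩ := tkB_ex62 G hG O c f e2
      exact ⟨(t0, (k, n)), fun _ => ⟨e1, e2, e3⟩⟩
    · exact ⟨((v, v), ((v, v), 0)), fun h => absurd h hv⟩
  choose A hA using h1
  choose B hB using h2
  refine ⟨fun v => (A v).2, fun v => (B v).2, ?_, ?_, ?_⟩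
  · intro v hv h
    obtain ⟨a1, a2, a3⟩ := hA v hv
    obtain ⟨b1, b2, b3⟩ := hB v hv
    dsimp only at h
    rw [← h] at b3
    exact tkAB62 G hG O c hlow hm hsum f a2 b2 a3 b3
  · rintro v hv ⟨k, n⟩ ht
    rcases ht with h | h <;> dsimp only at h ⊢
    · obtain ⟨a1, a2, a3⟩ := hA v hv
      rw [← h] at a3
      dsimp only at a3
      obtain ⟨c1, c2, c3, c4, c5⟩ := tkA_fact62 G hG O c hlow hm f a2 a3
      refine ⟨c1, c2, c3, c4, ?_⟩
      rcases c5 with ⟨d1, d2, d3⟩ | ⟨d1, d2, d3, d4⟩ | ⟨d1, d2⟩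
      · exact ⟨by omega, fun h' => by omega, fun _ h' => absurd h' d3, fun h' => by omega⟩
      · exact ⟨by omega, fun h' => by omega, fun h' => by omega, fun _ _ => d4⟩
      · subst d1
        exact ⟨by omega, fun _ => ⟨d2, tkA2_57 G O c a2 a3⟩, fun h' => by omega,
          fun h' => by omega⟩
    · obtain ⟨a1, a2, a3⟩ := hB v hv
      rw [← h] at a3
      dsimp only at a3
      obtain ⟨c1, c2, c3, c4, c5⟩ := tkB_fact62 G hG O c hlow hm f a2 a3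
      refine ⟨c1, c2, c3, c4, ?_⟩
      rcases c5 with ⟨d1, d2, d3⟩ | ⟨d1, d2, d3, d4⟩ | ⟨d1, d2⟩
      · exact ⟨by omega, fun h' => by omega, fun h' => by omega, fun _ h' => absurd h' d3⟩
      · exact ⟨by omega, fun h' => by omega, fun _ _ => d4, fun h' => by omega⟩
      · subst d1
        exact ⟨by omega, fun _ => ⟨d2, tkB2_57 G O c a2 a3⟩, fun h' => by omega,
          fun h' => by omega⟩
  · intro v w hv hw t ht ht'
    obtain ⟨a1, a2, a3⟩ := hA v hv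
    obtain ⟨b1, b2, b3⟩ := hB v hv
    obtain ⟨c1, c2, c3⟩ := hA w hw
    obtain ⟨d1, d2, d3⟩ := hB w hw
    rcases ht with h | h <;> rcases ht' with h' | h' <;> dsimp only at h h'
    · rw [← h] at a3
      rw [← h'] at c3
      rw [← a1, ← c1, tkA_uniq62 G hG O c hlow hm a2 c2 a3 c3]
    · rw [← h] at a3
      rw [← h'] at d3
      exact absurd (tkAB62 G hG O c hlow hm hsum f a2 d2 a3 d3) id
    · rw [← h] at b3
      rw [← h'] at c3
      exact absurd (tkAB62 G hG O c hlow hm hsum f c2 b2 c3 b3) id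
    · rw [← h] at b3
      rw [← h'] at d3
      rw [← b1, ← d1, tkB_uniq62 G hG O c hlow hm b2 d2 b3 d3]

/-- **the rows B and (D_B) without loss**, type (a), `2 ≤ m` -/
theorem rowsA57 (hG : G.Geo4 al kp U) (O : Or62 G opp (sg G) s' p q) (c : Ch62 al Q opp g m)
    (hm2 : 2 ≤ m)
    {F : V × V → Prop} (f : Fc62 G Q opp g m F) (hm : 2 * opp (g m) = 2 * Real.pi - 3 * al)
    (hg : g m ≤ 3 / 2 * al)
    (hF : ∀ x ∈ iJ G, RC G (G.cl x) → (F (sg G x) ↔ ¬ F x))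
    (hlow : ∀ x ∈ iJ G, RC G (G.cl x) → al ≤ TH G x)
    (hsum : ∀ v ∈ G.P, ∑ x ∈ Jv G v, TH G x ≤ 2 * Real.pi)
    (hA : ∀ C ∈ G.iC, A3 al * (G.cT C).card ≤ ∑ x ∈ G.cD C, G.ar x.1 x.2 / 3)
    (hP : ∀ C ∈ G.iC, (G.cT C).card = 3 → (G.cI C).card = 4 → ∑ x ∈ G.cJ C, wc G al x ≤ 12) :
    ((8 * al - 2 * Real.pi - 0 * al) * ((G.P.card : ℝ) - G.oJ.card) ≤
      2 * al * G.iI.card + (∑ x ∈ G.iD, G.ar x.1 x.2 / 3 - A3 al * (G.iD.card / 3))) ∧
    8 * G.P.card ≤ 5 * G.oJ.card + (G.shp al).card + G.iD.card + 2 * G.iI.card := by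
  have hfr := fr57_ok G O c 0 hF
  obtain ⟨fr, hfre⟩ : ∃ fr, fr = fr57 G opp g m 0 F := ⟨_, rfl⟩
  rw [← hfre] at hfr
  obtain ⟨a, b, h1, h2, h3⟩ := tokens57 G hG O c hlow hm2 hsum f (KP57 G al F p) (by
    intro v hv
    obtain ⟨t0, ht0, e1, e2, e3, e4, e5, e6, e7, e8⟩ := Kst57 G hG O c f hm hv
    have e9 := (mem_Jv51 G).1 ht0
    exact ⟨t0, e9.2, e9.1, e1, ((mem_Jv51 G).1 e2).1, e4, e6, ((mem_Jv51 G).1 e3).1, e5, e7⟩)
  obtain ⟨cl, hcle⟩ : ∃ cl : V → Finset ((V × V) × ℕ), ∀ v, cl v = {a v, b v} :=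
    ⟨_, fun _ => rfl⟩
  have hmem : ∀ v t, t ∈ cl v ↔ t = a v ∨ t = b v := by
    intro v t
    rw [hcle, Finset.mem_insert, Finset.mem_singleton]
  have hfr0 : ∀ x ∈ iJ G, RC G (G.cl x) → 0 ≤ fr x := by
    intro x hx rx
    by_cases h1 : ∃ j ≤ m, TH G x = g j
    · obtain ⟨j, hj, h1⟩ := h1
      rw [hfr.lo x hx rx j hj h1]
      norm_num
    · by_cases h2 : ∃ j ≤ m, TH G x = opp (g j)
      · obtain ⟨j, hj, h2⟩ := h2
        rw [hfr.hi x hx rx j hj h2]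
        norm_num
      · rw [hfr.el x hx rx (fun j hj h => h1 ⟨j, hj, h⟩) (fun j hj h => h2 ⟨j, hj, h⟩)]
        split_ifs <;> norm_num
  have hcl : ∀ v, KP57 G al F p v → ∀ t ∈ cl v, t.1 ∈ iJ G ∧ RC G (G.cl t.1) ∧
      (∃ j ≤ m, TH G t.1 = g j) ∧ ¬ Tight62 G al F t.1 ∧ t.2 ≤ 2 ∧
      (t.2 = 2 → t.1.1 ∉ inN G ∧ TT57 G t.1) ∧
      (t.2 = 0 → p t.1 ∈ iJ G → RC G (G.cl (p t.1)) → ¬ F (p t.1)) ∧
      (t.2 = 1 → q t.1 ∈ iJ G → RC G (G.cl (q t.1)) → ¬ F (q t.1)) := by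
    intro v hv t ht
    obtain ⟨c1, c2, c3, c4, c5, c6, c7, c8⟩ := h2 v hv t ((hmem v t).1 ht)
    exact ⟨c1, c2, c3, c4, c5, c6, fun h _ => c7 h, fun h _ => c8 h⟩
  have hdis : ∀ v v', KP57 G al F p v → KP57 G al F p v' → v ≠ v' →
      Disjoint (cl v) (cl v') := by
    intro v v' hv hv' hne
    rw [Finset.disjoint_left]
    intro t ht ht'
    exact hne (h3 v v' hv hv' t ((hmem v t).1 ht) ((hmem v' t).1 ht'))
  have hval : ∀ v, KP57 G al F p v →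
      1 - (2 * (m : ℝ) + 3) * 0 ≤ ∑ t ∈ cl v, (if t.2 = 2 then 1 / 2 else fr t.1 / 2) := by
    intro v hv
    have hv1 : ∀ t, t = a v ∨ t = b v → (if t.2 = 2 then 1 / 2 else fr t.1 / 2) = (1 / 2 : ℝ) := by
      intro t ht
      obtain ⟨c1, c2, ⟨j, hj, c3⟩, _⟩ := h2 v hv t ht
      split_ifs
      · rfl
      · rw [hfr.lo _ c1 c2 j hj c3]
        norm_num
    rw [hcle, Finset.sum_pair (h1 v hv), hv1 _ (Or.inl rfl), hv1 _ (Or.inr rfl)]
    norm_num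
  refine ⟨acc57 G hG O c f hm hg le_rfl (by norm_num) hF hfr hA hP cl ?_ hdis hval, ?_⟩
  · intro v hv t ht
    obtain ⟨c1, c2, c3, c4, c5, c6, c7, c8⟩ := hcl v hv t ht
    exact ⟨c1, c2, c3, c4, c5, fun h => (c6 h).1, c7, c8⟩
  obtain ⟨Tk, k1, k2, k3⟩ := tkex57 G hG O c f hm le_rfl hF hfr hfr0 (TT57 G) cl hcl hdis hval
  have k2U : ∀ t ∈ G.P.biUnion Tk, t.1 ∈ iJ G ∧ RC G (G.cl t.1) ∧ F t.1 ∧ t.2 ≤ 2 ∧
      (t.2 = 2 → t.1.1 ∉ inN G ∧ TT57 G t.1) := by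
    intro t ht
    rw [Finset.mem_biUnion] at ht
    obtain ⟨v, _, ht⟩ := ht
    exact k2 v t ht
  have hno : ∀ k ∈ iJ G, RC G (G.cl k) → (k, 2) ∉ G.P.biUnion Tk →
      ∑ t ∈ (G.P.biUnion Tk).filter (fun t => t.1 = k), val57 fr t ≤ fr k := by
    intro k hk rk h
    have h4 := cor57 (G.P.biUnion Tk) fr k (hfr0 k hk rk) (fun n hn => (k2U _ hn).2.2.2.1)
    rw [if_neg h, add_zero] at h4
    exact h4
  apply coreD57 G hG hfr.sg hfr0 hA hP Tk (val57 fr) (fun v _ v' _ hne => k1 v v' hne)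
  · intro v _ t ht
    obtain ⟨c1, c2, _⟩ := k2 v t ht
    exact ⟨c1, c2, valn_57 fr t (hfr0 _ c1 c2)⟩
  · intro v hvP hvN
    by_cases hex : ∃ k ∈ Jv G v, (k, 2) ∈ G.P.biUnion Tk
    swap
    · left
      intro k hk rk
      exact hno k ((mem_Jv51 G).1 hk).1 rk (fun h => hex ⟨k, hk, h⟩)
    right
    obtain ⟨k, hk, hkU⟩ := hex
    obtain ⟨_, rk, _, _, hT⟩ := k2U _ hkU
    obtain ⟨_, y, hy, z, hz, hyz, Ty, Tz⟩ := hT rfl
    dsimp only at rk hy hz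
    have hkv := ((mem_Jv51 G).1 hk).2
    rw [hkv] at hy hz
    rw [fib57 G _ _ (fun t ht => (k2U t ht).1)]
    obtain ⟨W, hW⟩ : ∃ W : V × V → ℝ, ∀ k, W k =
        ∑ t ∈ (G.P.biUnion Tk).filter (fun t => t.1 = k), val57 fr t := ⟨_, fun _ => rfl⟩
    have e1 : ∑ k ∈ Jv G v, ∑ t ∈ (G.P.biUnion Tk).filter (fun t => t.1 = k), val57 fr t =
        ∑ k ∈ Jv G v, W k := Finset.sum_congr rfl fun k _ => (hW k).symm
    rw [e1]
    have hRC : ∀ x ∈ iJ G, RC G (G.cl x) → 3 / 2 ≤ (bw G al x : ℝ) + xr G fr x - W x := by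
      intro x hx rx
      have h4 := cor57 (G.P.biUnion Tk) fr x (hfr0 x hx rx) (fun n hn => (k2U _ hn).2.2.2.1)
      rw [← hW] at h4
      have h5 : (if (x, 2) ∈ G.P.biUnion Tk then (1 / 2 : ℝ) else 0) ≤ 1 / 2 := by
        split_ifs <;> norm_num
      have h6 : xr G fr x = fr x := by
        unfold xr
        rw [if_neg (RC_ne51 G rx), if_pos rx]
      have h7 : (bw G al x : ℝ) = 2 := by
        unfold bw
        rw [if_neg (RC_ne51 G rx), if_pos rx]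
        norm_num
      rw [h6, h7]
      linarith
    have hW0 : ∀ x, ¬ RC G (G.cl x) → W x = 0 := by
      intro x rx
      rw [hW, Finset.filter_eq_empty_iff.2 (fun t ht h => rx (by
        rw [← h]
        exact (k2U t ht).2.1)), Finset.sum_empty]
    have hnn : ∀ x, ¬ RC G (G.cl x) → 1 ≤ (bw G al x : ℝ) + xr G fr x - W x := by
      intro x rx
      rw [hW0 x rx]
      unfold bw xr
      by_cases h8 : G.cI (G.cl x) = ∅
      · rw [if_pos h8, if_pos h8]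
        norm_num
      · rw [if_neg h8, if_neg h8, if_neg rx, if_neg rx]
        have : (0 : ℝ) ≤ (wc G al x : ℝ) := Nat.cast_nonneg _
        linarith
    have hpos : ∀ x ∈ Jv G v, 0 ≤ (bw G al x : ℝ) + xr G fr x - W x := by
      intro x hx
      by_cases rx : RC G (G.cl x)
      · have := hRC x ((mem_Jv51 G).1 hx).1 rx
        linarith
      · have := hnn x rx
        linarith
    have nT : ∀ x : V × V, G.cI (G.cl x) = ∅ → ¬ RC G (G.cl x) := fun x h1 h2 => RC_ne51 G h2 h1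
    have hky : k ≠ y := fun h => nT y Ty (by rw [← h]; exact rk)
    have hkz : k ≠ z := fun h => nT z Tz (by rw [← h]; exact rk)
    have hsub : ({k, y, z} : Finset (V × V)) ⊆ Jv G v := by
      intro x hx
      rw [Finset.mem_insert, Finset.mem_insert, Finset.mem_singleton] at hx
      rcases hx with rfl | rfl | rfl
      · exact hk
      · exact hy
      · exact hz
    have h9 : ∑ x ∈ ({k, y, z} : Finset (V × V)), ((bw G al x : ℝ) + xr G fr x - W x) ≤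
        ∑ x ∈ Jv G v, ((bw G al x : ℝ) + xr G fr x - W x) :=
      Finset.sum_le_sum_of_subset_of_nonneg hsub fun x hx _ => hpos x hx
    rw [Finset.sum_insert (by
      rw [Finset.mem_insert, Finset.mem_singleton]
      rintro (h | h)
      · exact hky h
      · exact hkz h), Finset.sum_pair hyz, Finset.sum_sub_distrib] at h9
    have h10 := hRC k ((mem_Jv51 G).1 hk).1 rk
    have h11 := hnn y (nT y Ty)
    have h12 := hnn z (nT z Tz)
    linarith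
  · intro k hk rk hkN _
    apply hno k hk rk
    intro h
    exact ((k2U _ h).2.2.2.2 rfl).1 hkN
  · intro v hB
    have := k3 v hB
    linarith

end

end

end Pool.Agent.PEN.W4
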