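import Pool.Agent.P4.F66
import Pool.Agent.P4.Ms51

/-! # PENNY, token rows: the corners with a successor along the class and a neighbour at the point -/

set_option autoImplicit false

namespace Pool.Agent.PEN

open Classical UpperHalfPlane

noncomputable section

/-- an orientation: `s`, `s'` next and previous corner of the class, `p`, `q` the two neighbouring
corners at the point -/
structure Or62 {V : Type} (G : Tg V) (opp : ℝ → ℝ) (s s' p q : V × V → V × V) : Prop where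
  s1 : ∀ x ∈ iJ G, s x ∈ iJ G
  s1c : ∀ x ∈ iJ G, G.cl (s x) = G.cl x
  s12 : ∀ x ∈ iJ G, s' (s x) = x
  s2 : ∀ x ∈ iJ G, s' x ∈ iJ G
  s2c : ∀ x ∈ iJ G, G.cl (s' x) = G.cl x
  s21 : ∀ x ∈ iJ G, s (s' x) = x
  pq : ∀ x ∈ iJ G, p x ∈ iJ G → q (p x) = x
  pf : ∀ x ∈ iJ G, p x ∈ iJ G → (p x).1 = x.1
  ps : ∀ x ∈ iJ G, p x ∈ iJ G → p (s' (p x)) = s x
  qp : ∀ x ∈ iJ G, q x ∈ iJ G → p (q x) = x
  qf : ∀ x ∈ iJ G, q x ∈ iJ G → (q x).1 = x.1
  qs : ∀ x ∈ iJ G, q x ∈ iJ G → q (s (q x)) = s' x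
  N : ∀ x ∈ iJ G, x.1 ∈ inN G → p x ∈ iJ G ∧ q x ∈ iJ G
  T3 : ∀ x ∈ iJ G, G.cI (G.cl x) = ∅ → s (s x) = s' x
  o1 : ∀ x ∈ iJ G, RC G (G.cl x) → TH G (s x) = opp (TH G x)
  o2 : ∀ x ∈ iJ G, RC G (G.cl x) → TH G (s' x) = opp (TH G x)
  cyc : ∀ (w : V) (S : Finset (V × V)), S.Nonempty →
    (∀ x ∈ S, x ∈ iJ G ∧ x.1 = w ∧ p x ∈ S) → w ∈ inN G ∧ ∀ x ∈ iJ G, x.1 = w → x ∈ S

section M
variable {V : Type} {G : Tg V} {opp : ℝ → ℝ} {s s' p q : V × V → V × V}

/-- the mirror image -/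
theorem Or62.mirror (O : Or62 G opp s s' p q) : Or62 G opp s' s q p where
  s1 := O.s2
  s1c := O.s2c
  s12 := O.s21
  s2 := O.s1
  s2c := O.s1c
  s21 := O.s12
  pq := O.qp
  pf := O.qf
  ps := O.qs
  qp := O.pq
  qf := O.pf
  qs := O.ps
  N := fun x hx h => ⟨(O.N x hx h).2, (O.N x hx h).1⟩
  T3 := by
    intro x hx hT
    have h1 := O.T3 (s' x) (O.s2 x hx) (by rw [O.s2c x hx]; exact hT)
    rw [O.s21 x hx] at h1
    exact h1.symm
  o1 := O.o2
  o2 := O.o1
  cyc := by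
    intro w S hne hS
    have hinj : Set.InjOn q (S : Set (V × V)) := by
      intro x hx y hy h
      obtain ⟨h1, _, h3⟩ := hS x (Finset.mem_coe.1 hx)
      obtain ⟨k1, _, k3⟩ := hS y (Finset.mem_coe.1 hy)
      rw [← O.qp x h1 (hS _ h3).1, h, O.qp y k1 (hS _ k3).1]
    have himg : S.image q = S := by
      apply Finset.eq_of_subset_of_card_le
      · intro x hx
        obtain ⟨y, hy, rfl⟩ := Finset.mem_image.1 hx
        exact (hS y hy).2.2
      · rw [Finset.card_image_of_injOn hinj]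
    apply O.cyc w S hne
    intro x hx
    refine ⟨(hS x hx).1, (hS x hx).2.1, ?_⟩
    rw [← himg] at hx
    obtain ⟨y, hy, rfl⟩ := Finset.mem_image.1 hx
    rw [O.qp y (hS y hy).1 (hS _ (hS y hy).2.2).1]
    exact hy

end M

section D
variable {V : Type} (G : Tg V) {al : ℝ} {kp : V → V → ℝ} {U : ℕ → ℝ}

/-- a set of corners closed under the predecessor map is the set of all corners of a point of `N` -/
theorem cyc62 (hG : G.Geo al kp U) {v : V} (S0 : Finset (V × V)) (hne : S0.Nonempty)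
    (hS : ∀ x ∈ S0, x ∈ iJ G ∧ x.1 = v ∧ (x.2, x.1) ∈ iJ G ∧ sg G (x.2, x.1) ∈ S0) :
    v ∈ inN G ∧ ∀ x ∈ iJ G, x.1 = v → x ∈ S0 := by
  have hvN : v ∈ inN G := by
    obtain ⟨y, hy⟩ := hne
    obtain ⟨y1, y2, y3, y4⟩ := hS y hy
    have hvP : v ∈ G.P := by
      rw [← y2]
      rw [mem_iJ71] at y1
      exact G.mem _ _ (G.sub y1.1.1)
    unfold inN
    rw [Finset.mem_filter]
    refine ⟨hvP, ?_⟩
    rintro ⟨c, hc⟩
    rw [mem_oJ66] at hc
    obtain ⟨c1, c2, c3⟩ := hc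
    dsimp only at c2
    obtain ⟨S, hmem⟩ : ∃ S : Finset V, ∀ b, b ∈ S ↔ (v, b) ∈ G.D ∧
      (G.inn (v, b) ∧ (v, G.og v b) ∈ S0) :=
      ⟨_, mem_img66 G v (fun b => G.inn (v, b) ∧ (v, G.og v b) ∈ S0)⟩
    have hbk0 : ∀ b ∈ S, (b, v) ∈ G.Dp ∧ G.bk v b ∈ S := by
      intro b hb
      obtain ⟨h1, h2, h3⟩ := (hmem b).1 hb
      by_cases hcb : G.con v b
      · rw [(og_self66 G hcb).2] at h3
        obtain ⟨k1, k2, k3, k4⟩ := hS _ h3
        dsimp only at k3 k4
        rw [mem_iJ71] at k3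
        have k5 := inn_rot27 G k3.1
        dsimp only at k5
        refine ⟨k3.1.1, (hmem _).2 ⟨G.sub k5.1, k5, ?_⟩⟩
        exact k4
      · obtain ⟨k1, k2, _⟩ := inn_bk71 G h2 hcb
        refine ⟨k1, (hmem _).2 ⟨G.sub k2.1, k2, ?_⟩⟩
        rw [og_bk51 G (hasO71 G hG h2) hcb]
        exact h3
    have hbk : ∀ b ∈ S, G.bk v b ∈ S := fun b hb => (hbk0 b hb).2
    have hfb : ∀ b ∈ S, G.ap v (G.bk v b) = b := fun b hb => fw_bk71 G (hbk0 b hb).1
    have himg : S.image (G.bk v) = S := by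
      apply Finset.eq_of_subset_of_card_le
      · intro b hb
        obtain ⟨c, hc, rfl⟩ := Finset.mem_image.1 hb
        exact hbk c hc
      · rw [Finset.card_image_of_injOn]
        intro b hb c hc hbc
        rw [← hfb b (Finset.mem_coe.1 hb), ← hfb c (Finset.mem_coe.1 hc)]
        exact congrArg _ hbc
    have hfw : ∀ b ∈ S, G.ap v b ∈ S := by
      intro b hb
      rw [← himg] at hb
      obtain ⟨c, hc, rfl⟩ := Finset.mem_image.1 hb
      rw [hfb c hc]
      exact hc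
    have hneS : S.Nonempty := by
      obtain ⟨a, b⟩ := y
      dsimp only at y2
      subst y2
      rw [mem_iJ71] at y1
      exact ⟨b, (hmem _).2 ⟨G.sub y1.1.1, y1.1, by rw [(og_self66 G y1.2).2]; exact hy⟩⟩
    by_cases hb : G.bd v
    · exact hG.bdno v hvP hb S hneS (fun b hb => ⟨((hmem b).1 hb).2.1.1, hfw b hb⟩)
    · have h1 := hG.turn v hvP hb S hneS (fun b hb => ((hmem b).1 hb).1) hfw
      have hcS : c ∉ S := by
        intro h2
        exact c3 ((hmem c).1 h2).2.1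
      have h2 : ∑ b ∈ insert c S, G.th v b ≤
          ∑ x ∈ G.D.filter (fun x => x.1 = v), G.th x.1 x.2 := by
        have e := Finset.sum_image (s := insert c S) (g := fun b => (v, b))
          (f := fun x : V × V => G.th x.1 x.2) (fun x _ y _ h => (Prod.mk.inj h).2)
        dsimp only at e
        rw [← e]
        apply Finset.sum_le_sum_of_subset_of_nonneg
        · intro x hx
          obtain ⟨b, hb, rfl⟩ := Finset.mem_image.1 hx
          rw [Finset.mem_filter]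
          refine ⟨?_, rfl⟩
          rcases Finset.mem_insert.1 hb with rfl | hb
          · exact c1
          · exact ((hmem b).1 hb).1
        · rintro ⟨x1, x2⟩ hx _
          rw [Finset.mem_filter] at hx
          obtain ⟨h3, h4⟩ := hx
          simp only at h4
          subst h4
          exact (G.thpos _ _ (G.int1 _ _ hvP hb h3)).le
      rw [hG.tot v hvP hb, Finset.sum_insert hcS] at h2
      have h3 := G.thpos _ _ (G.int1 _ _ hvP hb c1)
      linarith
  exact ⟨hvN, closed51 G hG hvN S0 (fun x hx => ⟨(hS x hx).1, (hS x hx).2.1⟩) hne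
    (fun x hx => (hS x hx).2.2.2)⟩

/-- three steps around a contact triangle -/
theorem T3_62 {x : V × V} (hx : x ∈ iJ G) (hI : G.cI (G.cl x) = ∅) :
    sg G (sg G (sg G x)) = x := by
  have hC := cl_iJ71 G hx
  have hB := cB_of_iC66 G hC
  have hcon : ∀ y ∈ G.cD (G.cl x), G.con y.1 y.2 := by
    intro y hy
    by_contra hc
    have := mem_cI11 G hB hy hc
    rw [hI] at this
    exact absurd this (Finset.notMem_empty _)
  have h0 := cJ_sub66 G _ (iJ_cJ51 G hx)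
  have h1 := rot_cD66 G h0
  have h2 := rot_cD66 G h1
  have h3 := rot_cD66 G h2
  have e1 : sg G x = (x.2, G.ap x.1 x.2) := by
    unfold sg
    rw [(og_self66 G (hcon _ h1)).2]
  have e2 : sg G (x.2, G.ap x.1 x.2) = (G.ap x.1 x.2, G.ap x.2 (G.ap x.1 x.2)) := by
    unfold sg
    rw [(og_self66 G (hcon _ h2)).2]
  have hxp := ((mem_cD66 G).1 h0).1
  have a3 : G.ap x.2 (G.ap x.1 x.2) = x.1 := G.ap3 _ _ hxp
  have a4 : G.ap (G.ap x.1 x.2) x.1 = x.2 := G.ap4 _ _ hxp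
  rw [e1, e2]
  unfold sg
  dsimp only
  rw [a3, a4]
  have h4 : G.con x.1 x.2 := hcon _ h0
  rw [(og_self66 G h4).2]

/-- the orientation of the corners -/
theorem or62 (hG : G.Geo al kp U) {opp : ℝ → ℝ} (hR : Rf G al opp) :
    ∃ s' p q : V × V → V × V, Or62 G opp (sg G) s' p q := by
  -- the inverse of `sg`
  have hsurj : ∀ x ∈ iJ G, ∃ y ∈ iJ G, sg G y = x := by
    have himg : (iJ G).image (sg G) = iJ G := by
      apply Finset.eq_of_subset_of_card_le
      · intro x hx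
        obtain ⟨y, hy, rfl⟩ := Finset.mem_image.1 hx
        exact (sg_mem51 G hG hy).1
      · rw [Finset.card_image_of_injOn]
        intro x hx y hy h
        exact sg_inj51 G hG (Finset.mem_coe.1 hx) (Finset.mem_coe.1 hy) h
    intro x hx
    rw [← himg] at hx
    obtain ⟨y, hy, h⟩ := Finset.mem_image.1 hx
    exact ⟨y, hy, h⟩
  have hch : ∀ x : V × V, ∃ y : V × V, x ∈ iJ G → y ∈ iJ G ∧ sg G y = x := by
    intro x
    by_cases hx : x ∈ iJ G
    · obtain ⟨y, h1, h2⟩ := hsurj x hx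
      exact ⟨y, fun _ => ⟨h1, h2⟩⟩
    · exact ⟨x, fun h => absurd h hx⟩
  choose s' hs' using hch
  have hnd : ∀ a : V, (a, a) ∉ iJ G := by
    intro a h
    rw [mem_iJ71] at h
    exact G.ne _ _ (G.sub h.1.1) rfl
  obtain ⟨p, hp⟩ : ∃ p : V × V → V × V, ∀ x, p x =
      if (x.2, x.1) ∈ iJ G then sg G (x.2, x.1) else (x.1, x.1) := ⟨_, fun _ => rfl⟩
  obtain ⟨q, hq⟩ : ∃ q : V × V → V × V, ∀ x, q x = ((s' x).2, (s' x).1) := ⟨_, fun _ => rfl⟩
  have s12 : ∀ x ∈ iJ G, s' (sg G x) = x := by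
    intro x hx
    obtain ⟨h1, h2⟩ := hs' _ (sg_mem51 G hG hx).1
    exact sg_inj51 G hG h1 hx h2
  have hpm : ∀ x ∈ iJ G, p x ∈ iJ G → (x.2, x.1) ∈ iJ G ∧ p x = sg G (x.2, x.1) := by
    intro x _ h
    rw [hp] at h ⊢
    by_cases h1 : (x.2, x.1) ∈ iJ G
    · rw [if_pos h1]
      exact ⟨h1, rfl⟩
    · rw [if_neg h1] at h
      exact absurd h (hnd _)
  have hsf : ∀ x ∈ iJ G, (s' x).2 = x.1 := by
    intro x hx
    have := congrArg Prod.fst (hs' x hx).2
    exact this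
  have hpp : ∀ x, (x.2, x.1) ∈ iJ G → p x = sg G (x.2, x.1) := by
    intro x h
    rw [hp, if_pos h]
  refine ⟨s', p, q, ?_⟩
  constructor
  · exact fun x hx => (sg_mem51 G hG hx).1
  · exact fun x hx => (sg_mem51 G hG hx).2
  · exact s12
  · exact fun x hx => (hs' x hx).1
  · intro x hx
    have h1 := (sg_mem51 G hG (hs' x hx).1).2
    rw [(hs' x hx).2] at h1
    exact h1.symm
  · exact fun x hx => (hs' x hx).2
  · intro x hx h
    obtain ⟨h1, h2⟩ := hpm x hx h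
    rw [h2, hq, s12 _ h1]
  · intro x hx h
    obtain ⟨h1, h2⟩ := hpm x hx h
    rw [h2]
    rfl
  · intro x hx h
    obtain ⟨h1, h2⟩ := hpm x hx h
    rw [h2, s12 _ h1, hpp (x.2, x.1) hx]
  · intro x hx h
    rw [hq] at h ⊢
    rw [hpp ((s' x).2, (s' x).1) (hs' x hx).1]
    exact (hs' x hx).2
  · intro x hx h
    rw [hq]
    exact hsf x hx
  · intro x hx h
    rw [hq] at h ⊢
    rw [hq, s12 _ h]
  · intro x hx hN
    obtain ⟨h1, h2⟩ := Jv_swap51 G hG hN ((mem_Jv51 G).2 ⟨hx, rfl⟩)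
    refine ⟨by rw [hpp x h1]; exact (sg_mem51 G hG h1).1, ?_⟩
    rw [hq]
    have h3 := (hs' x hx).1
    have h4 := hsf x hx
    obtain ⟨k1, k2, k3, k4⟩ := inN_all51 G hG hN
    have h3' := h3
    rw [mem_iJ71] at h3'
    rw [mem_iJ71]
    refine ⟨?_, G.csymm _ _ h3'.2⟩
    rw [h4]
    apply k3
    rw [← h4]
    exact G.symm _ _ (G.sub h3'.1.1)
  · intro x hx hT
    have h1 := T3_62 G hx hT
    have h2 := (sg_mem51 G hG (sg_mem51 G hG hx).1).1
    rw [← s12 _ h2, h1]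
  · exact fun x hx h => hR.opp x hx h
  · intro x hx h
    have h1 := (hs' x hx).1
    have h2 := (hs' x hx).2
    have h3 : G.cl (s' x) = G.cl x := by
      have h1 := (sg_mem51 G hG (hs' x hx).1).2
      rw [(hs' x hx).2] at h1
      exact h1.symm
    have h4 := hR.per _ h1 (by rw [h3]; exact h)
    rw [h2] at h4
    rw [← h4]
    exact hR.opp x hx h
  · intro w S hne hS
    apply cyc62 G hG S hne
    intro x hx
    obtain ⟨h1, h2, h3⟩ := hS x hx
    obtain ⟨h4, h5⟩ := hpm x h1 (hS _ h3).1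
    rw [h5] at h3
    exact ⟨h1, h2, h4, h3⟩

end D

end

end Pool.Agent.PEN
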