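import Pool.Agent.P4.Tk62a

/-! # PENNY, token rows: points whose corners are contact triangles and rhombus corners, seven units -/

set_option autoImplicit false

namespace Pool.Agent.PEN

open Classical UpperHalfPlane

noncomputable section

/-- numbers of a chain: `g j` the tips, `opp (g j)` the obtuse angles, `Q` the square -/
structure Ch62 (al Q : ℝ) (opp : ℝ → ℝ) (g : ℕ → ℝ) (m : ℕ) : Prop where
  al0 : 0 < al
  al7 : 2 * Real.pi < 7 * al
  al3 : al < 2 * Real.pi - 5 * al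
  g0 : g 0 = 2 * Real.pi - 5 * al
  gs : ∀ j < m, g (j + 1) + opp (g j) = 2 * Real.pi - 3 * al
  mono : ∀ i j, i < j → j ≤ m → g i < g j
  anti : ∀ t u, al ≤ t → t < u → u ≤ 2 * al → opp u < opp t
  oo : ∀ t, al ≤ t → t ≤ 2 * al → opp (opp t) = t
  gQ : g m < Q
  Qb : Q < opp (g m)
  Q2 : 2 * Q + 3 * al < 2 * Real.pi
  b0 : opp (g 0) < 2 * al
  N3 : ∀ k l j, k ≤ m → l ≤ m → j < m → opp (g k) + opp (g l) ≠ 2 * al + opp (g j)

namespace Ch62
variable {al Q : ℝ} {opp : ℝ → ℝ} {g : ℕ → ℝ} {m : ℕ}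

theorem Qal (c : Ch62 al Q opp g m) : Q < 2 * al := by
  have := c.Q2
  have := c.al7
  linarith

theorem glo (c : Ch62 al Q opp g m) {j : ℕ} (hj : j ≤ m) : al ≤ g j := by
  have h1 := c.al3
  have h2 := c.g0
  rcases Nat.eq_zero_or_pos j with rfl | h
  · linarith
  · have := c.mono 0 j h hj
    linarith

theorem gm (c : Ch62 al Q opp g m) {j : ℕ} (hj : j ≤ m) : g j < Q := by
  have h1 := c.gQ
  rcases Nat.eq_or_lt_of_le hj with rfl | h
  · exact h1
  · have := c.mono j m h le_rfl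
    linarith

theorem bQ (c : Ch62 al Q opp g m) {j : ℕ} (hj : j ≤ m) : Q < opp (g j) := by
  have h1 := c.Qb
  rcases Nat.eq_or_lt_of_le hj with rfl | h
  · exact h1
  · have := c.anti (g j) (g m) (c.glo hj) (c.mono j m h le_rfl) (by
      have := c.gQ
      have := c.Qal
      linarith)
    linarith

theorem banti (c : Ch62 al Q opp g m) {i j : ℕ} (h : i < j) (hj : j ≤ m) :
    opp (g j) < opp (g i) :=
  c.anti (g i) (g j) (c.glo (by omega)) (c.mono i j h hj) (by
    have := c.gm hj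
    have := c.Qal
    linarith)

theorem bhi (c : Ch62 al Q opp g m) {j : ℕ} (hj : j ≤ m) : opp (g j) < 2 * al := by
  have h1 := c.b0
  rcases Nat.eq_zero_or_pos j with rfl | h
  · exact h1
  · have := c.banti h hj
    linarith

theorem ginj (c : Ch62 al Q opp g m) {i j : ℕ} (hi : i ≤ m) (hj : j ≤ m) (h : g i = g j) :
    i = j := by
  rcases lt_trichotomy i j with h1 | h1 | h1
  · have := c.mono i j h1 hj
    linarith
  · exact h1
  · have := c.mono j i h1 hi
    linarith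

theorem goo (c : Ch62 al Q opp g m) {j : ℕ} (hj : j ≤ m) : opp (opp (g j)) = g j :=
  c.oo _ (c.glo hj) (by
    have := c.gm hj
    have := c.Qal
    linarith)

/-- the inequality of helper66 -/
theorem nz (c : Ch62 al Q opp g m) {t : ℝ} {k : ℕ} (hk : k ≤ m)
    (hend : 2 * Real.pi - 3 * al - opp (g m) ≤ t → Q < t ∨ m < k)
    (ht : t ≤ Q) (h1 : 2 * Real.pi ≤ t + opp (g k) + 3 * al)
    (h2 : 2 * Real.pi ≤ opp t + g k + 3 * al) : False := by
  have hQ := c.Qal
  rcases Nat.eq_or_lt_of_le hk with rfl | hk'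
  · rcases hend (by linarith) with h | h
    · linarith
    · exact absurd h (lt_irrefl _)
  have h3 := c.gs k hk'
  have h4 : g (k + 1) ≤ t := by linarith
  rcases k with _ | i
  · have h5 := c.anti (g 0) t (c.glo (by omega))
      (lt_of_lt_of_le (c.mono 0 1 (by omega) (by omega)) h4) (by linarith)
    have h6 := c.b0
    have h7 := c.g0
    linarith
  · have h5 := c.anti (g i) t (c.glo (by omega))
      (lt_of_lt_of_le (c.mono i (i + 1 + 1) (by omega) (by omega)) h4) (by linarith)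
    have h6 := c.gs i (by omega)
    linarith

end Ch62

/-- the function `F` of inequality B -/
structure Fc62 {V : Type} (G : Tg V) (Q : ℝ) (opp : ℝ → ℝ) (g : ℕ → ℝ) (m : ℕ)
    (F : V × V → Prop) : Prop where
  lo : ∀ x ∈ iJ G, RC G (G.cl x) → TH G x < Q → (F x ↔ ∃ j, j ≤ m ∧ TH G x = g j)
  hi : ∀ x ∈ iJ G, RC G (G.cl x) → Q < TH G x → (¬ F x ↔ ∃ j, j ≤ m ∧ TH G x = opp (g j))

section D
variable {V : Type} (G : Tg V) {al : ℝ} {kp : V → V → ℝ} {U : ℕ → ℝ}

/-- seven units, only contact triangles and rhombus corners -/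
def B7 (al : ℝ) (v : V) : Prop :=
  v ∈ inN G ∧ ∑ x ∈ Jv G v, bw G al x = 7 ∧
    ∀ x ∈ Jv G v, G.cI (G.cl x) = ∅ ∨ RC G (G.cl x)

theorem two62 (hG : G.Geo al kp U) {v : V} (hB : B7 G al v) {x y : V × V} (hx : x ∈ Jv G v)
    (hy : y ∈ Jv G v) (hxy : x ≠ y) (rx : RC G (G.cl x)) (ry : RC G (G.cl y)) :
    2 * Real.pi ≤ TH G x + TH G y + 3 * al := by
  obtain ⟨hv, h7, hTR⟩ := hB
  have h1 := sum_TH_point71 G hG hv
  change ∑ x ∈ Jv G v, TH G x = _ at h1
  have hsub : ({x, y} : Finset (V × V)) ⊆ Jv G v := by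
    intro z hz
    rw [Finset.mem_insert, Finset.mem_singleton] at hz
    rcases hz with rfl | rfl
    · exact hx
    · exact hy
  rw [← Finset.sum_sdiff hsub, Finset.sum_pair hxy] at h1 h7
  have ex : bw G al x = 2 := by
    unfold bw
    rw [if_neg (RC_ne51 G rx), if_pos rx]
  have ey : bw G al y = 2 := by
    unfold bw
    rw [if_neg (RC_ne51 G ry), if_pos ry]
  have h3 : ∑ z ∈ Jv G v \ {x, y}, bw G al z = 3 := by omega
  have h2 : ∑ z ∈ Jv G v \ {x, y}, TH G z ≤ ∑ z ∈ Jv G v \ {x, y}, al * (bw G al z : ℝ) :=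
    Finset.sum_le_sum fun z hz =>
      TH_bw51 G hG ((mem_Jv51 G).1 (Finset.mem_sdiff.1 hz).1).1
  rw [← Finset.mul_sum, ← Nat.cast_sum, h3] at h2
  push_cast at h2
  linarith

variable {Q : ℝ} {opp : ℝ → ℝ} {g : ℕ → ℝ} {m : ℕ}

/-- at most one small rhombus corner -/
theorem c1_62 (hG : G.Geo al kp U) (c : Ch62 al Q opp g m) {v : V} (hB : B7 G al v)
    {x y : V × V} (hx : x ∈ Jv G v) (hy : y ∈ Jv G v) (hxy : x ≠ y) (rx : RC G (G.cl x))
    (ry : RC G (G.cl y)) (h1 : TH G x ≤ Q) (h2 : TH G y ≤ Q) : False := by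
  have := two62 G hG hB hx hy hxy rx ry
  have := c.Q2
  linarith

theorem c2_62 (hG : G.Geo al kp U) (c : Ch62 al Q opp g m) {v : V} (hB : B7 G al v)
    {x y : V × V} (hx : x ∈ Jv G v) (hy : y ∈ Jv G v) (hxy : x ≠ y) (rx : RC G (G.cl x))
    (ry : RC G (G.cl y)) {j : ℕ} (hj : j < m) (h1 : TH G x = g j)
    (h2 : TH G y = opp (g (j + 1))) : False := by
  have h3 := two62 G hG hB hx hy hxy rx ry
  have h4 := c.gs j hj
  have h5 := c.mono j (j + 1) (by omega) (by omega)
  have h6 := c.banti (i := j) (j := j + 1) (by omega) (by omega)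
  linarith

/-- counting and angles at a point with seven units -/
theorem count62 (hG : G.Geo al kp U) {v : V} (hB : B7 G al v) :
    ((Jv G v).filter (fun x => ¬ RC G (G.cl x))).card +
      2 * ((Jv G v).filter (fun x => RC G (G.cl x))).card = 7 ∧
    (((Jv G v).filter (fun x => ¬ RC G (G.cl x))).card : ℝ) * al +
      ∑ x ∈ (Jv G v).filter (fun x => RC G (G.cl x)), TH G x = 2 * Real.pi := by
  obtain ⟨hv, h7, hTR⟩ := hB
  obtain ⟨JR, hJR⟩ : ∃ JR, JR = (Jv G v).filter (fun x => RC G (G.cl x)) := ⟨_, rfl⟩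
  obtain ⟨JT, hJT⟩ : ∃ JT, JT = (Jv G v).filter (fun x => ¬ RC G (G.cl x)) := ⟨_, rfl⟩
  have hmR : ∀ x, x ∈ JR ↔ x ∈ Jv G v ∧ RC G (G.cl x) := by
    intro x
    rw [hJR, Finset.mem_filter]
  have hmT : ∀ x, x ∈ JT ↔ x ∈ Jv G v ∧ ¬ RC G (G.cl x) := by
    intro x
    rw [hJT, Finset.mem_filter]
  have hTT : ∀ x ∈ JT, G.cI (G.cl x) = ∅ := by
    intro x hx
    rw [hmT] at hx
    exact (hTR x hx.1).resolve_right hx.2
  rw [← hJR, ← hJT]
  constructor
  · rw [← h7, ← Finset.sum_filter_add_sum_filter_not (Jv G v) (fun x => RC G (G.cl x)),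
      ← hJR, ← hJT]
    have h1 : ∑ x ∈ JR, bw G al x = ∑ x ∈ JR, 2 := by
      refine Finset.sum_congr rfl fun x hx => ?_
      have h2 := ((hmR x).1 hx).2
      unfold bw
      rw [if_neg (RC_ne51 G h2), if_pos h2]
    have h3 : ∑ x ∈ JT, bw G al x = ∑ x ∈ JT, 1 := by
      refine Finset.sum_congr rfl fun x hx => ?_
      unfold bw
      rw [if_pos (hTT x hx)]
    rw [h1, h3, Finset.sum_const, Finset.sum_const, smul_eq_mul, smul_eq_mul]
    omega
  · have h1 := sum_TH_point71 G hG hv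
    change ∑ x ∈ Jv G v, TH G x = _ at h1
    rw [← Finset.sum_filter_add_sum_filter_not (Jv G v) (fun x => RC G (G.cl x)),
      ← hJR, ← hJT] at h1
    have h3 : ∑ x ∈ JT, TH G x = ∑ x ∈ JT, al := by
      refine Finset.sum_congr rfl fun x hx => ?_
      exact TH_T51 G hG ((mem_Jv51 G).1 ((hmT x).1 hx).1).1 (hTT x hx)
    rw [h3, Finset.sum_const, nsmul_eq_mul] at h1
    linarith

/-- points with a chain tip and no other corner in `F` -/
theorem c0_62 (hG : G.Geo al kp U) (c : Ch62 al Q opp g m) {F : V × V → Prop}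
    (f : Fc62 G Q opp g m F) {v : V} (hB : B7 G al v) {k : V × V} (hk : k ∈ Jv G v)
    (rk : RC G (G.cl k)) {j : ℕ} (hj : j ≤ m) (hkj : TH G k = g j)
    (hF : ∀ x ∈ Jv G v, RC G (G.cl x) → F x → x = k) :
    (j = 0 ∧ ∀ x ∈ Jv G v, x ≠ k → G.cI (G.cl x) = ∅) ∨
    (∃ i, j = i + 1 ∧ ∃ y ∈ Jv G v, y ≠ k ∧ RC G (G.cl y) ∧ TH G y = opp (g i) ∧
      ((Jv G v).filter (fun x => ¬ RC G (G.cl x))).card = 3 ∧
      ∀ x ∈ Jv G v, x ≠ k → x ≠ y → G.cI (G.cl x) = ∅) := by
  obtain ⟨h1, h2⟩ := count62 G hG hB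
  obtain ⟨hv, h7, hTR⟩ := hB
  have hB : B7 G al v := ⟨hv, h7, hTR⟩
  obtain ⟨JR, hJR⟩ : ∃ JR, JR = (Jv G v).filter (fun x => RC G (G.cl x)) := ⟨_, rfl⟩
  have hmR : ∀ x, x ∈ JR ↔ x ∈ Jv G v ∧ RC G (G.cl x) := by
    intro x
    rw [hJR, Finset.mem_filter]
  rw [← hJR] at h1 h2
  have hkR : k ∈ JR := (hmR k).2 ⟨hk, rk⟩
  have hpos : 0 < JR.card := Finset.card_pos.2 ⟨k, hkR⟩
  have hke : ∀ x ∈ Jv G v, x ∉ JR → G.cI (G.cl x) = ∅ := by
    intro x hx hxR
    exact (hTR x hx).resolve_right (fun h => hxR ((hmR x).2 ⟨hx, h⟩))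
  have hob : ∀ x ∈ JR, x ≠ k → ∃ i, i ≤ m ∧ TH G x = opp (g i) := by
    intro x hx hxk
    obtain ⟨hx1, hx2⟩ := (hmR x).1 hx
    have h3 : Q < TH G x := by
      by_contra h
      push Not at h
      exact c1_62 G hG c hB hx1 hk hxk hx2 rk h (by rw [hkj]; exact (c.gm hj).le)
    exact (f.hi x ((mem_Jv51 G).1 hx1).1 hx2 h3).1 (fun h => hxk (hF x hx1 hx2 h))
  have hcases : JR.card = 1 ∨ JR.card = 2 ∨ JR.card = 3 := by omega
  rcases hcases with h0 | h0 | h0
  · left
    obtain ⟨x, hx⟩ := Finset.card_eq_one.1 h0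
    have hxk : k = x := by
      rw [hx, Finset.mem_singleton] at hkR
      exact hkR
    have h5 : ((Jv G v).filter (fun x => ¬ RC G (G.cl x))).card = 5 := by omega
    rw [h5, hx, Finset.sum_singleton, ← hxk, hkj] at h2
    push_cast at h2
    refine ⟨?_, ?_⟩
    · apply c.ginj hj (Nat.zero_le _)
      rw [c.g0]
      linarith
    · intro y hy hyk
      apply hke y hy
      rw [hx, Finset.mem_singleton, ← hxk]
      exact hyk
  · right
    obtain ⟨y, hyR, hy⟩ : ∃ y ∈ JR, y ≠ k := by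
      by_contra hno
      push Not at hno
      have : JR ⊆ {k} := fun z hz => Finset.mem_singleton.2 (hno z hz)
      have := Finset.card_le_card this
      rw [Finset.card_singleton] at this
      omega
    have hJe : JR = {k, y} := by
      symm
      apply Finset.eq_of_subset_of_card_le
      · intro z hz
        rw [Finset.mem_insert, Finset.mem_singleton] at hz
        rcases hz with rfl | rfl
        · exact hkR
        · exact hyR
      · rw [h0, Finset.card_pair hy.symm]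
    have h5 : ((Jv G v).filter (fun x => ¬ RC G (G.cl x))).card = 3 := by omega
    rw [h5, hJe, Finset.sum_pair hy.symm, hkj] at h2
    push_cast at h2
    rcases j with _ | i
    · exfalso
      obtain ⟨i, hi, hyi⟩ := hob y hyR hy
      rw [c.g0, hyi] at h2
      have := c.bhi hi
      linarith
    · refine ⟨i, rfl, y, ((hmR y).1 hyR).1, hy, ((hmR y).1 hyR).2, ?_, h5, ?_⟩
      · have := c.gs i (by omega)
        linarith
      · intro x hx hxk hxy
        apply hke x hx
        rw [hJe, Finset.mem_insert, Finset.mem_singleton]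
        rintro (h | h)
        · exact hxk h
        · exact hxy h
  · exfalso
    obtain ⟨y, z, hyz, hJe⟩ : ∃ y z, y ≠ z ∧ JR.erase k = {y, z} := by
      have : (JR.erase k).card = 2 := by
        rw [Finset.card_erase_of_mem hkR]
        omega
      exact Finset.card_eq_two.1 this
    have hy : y ∈ JR.erase k := by
      rw [hJe]
      exact Finset.mem_insert_self _ _
    have hz : z ∈ JR.erase k := by
      rw [hJe]
      exact Finset.mem_insert_of_mem (Finset.mem_singleton_self _)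
    obtain ⟨i1, hi1, e1⟩ := hob y (Finset.mem_of_mem_erase hy) (Finset.ne_of_mem_erase hy)
    obtain ⟨i2, hi2, e2⟩ := hob z (Finset.mem_of_mem_erase hz) (Finset.ne_of_mem_erase hz)
    have h5 : ((Jv G v).filter (fun x => ¬ RC G (G.cl x))).card = 1 := by omega
    rw [h5, ← Finset.add_sum_erase JR _ hkR, hJe, Finset.sum_pair hyz, hkj, e1, e2] at h2
    push_cast at h2
    rcases j with _ | i
    · rw [c.g0] at h2
      have := c.bhi hi1
      have := c.bhi hi2
      linarith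
    · have h6 := c.gs i (by omega)
      apply c.N3 i1 i2 i hi1 hi2 (by omega)
      linarith

end D

end

end Pool.Agent.PEN
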