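import Pool.Agent.P4.Tk62b

/-! # PENNY, token rows: the walk around a neighbour of a point with two large obtuse corners -/

set_option autoImplicit false

namespace Pool.Agent.PEN

open Classical UpperHalfPlane

noncomputable section

section D
variable {V : Type} (G : Tg V) {al : ℝ} {kp : V → V → ℝ} {U : ℕ → ℝ}
variable {Q : ℝ} {opp : ℝ → ℝ} {g : ℕ → ℝ} {m : ℕ} {s s' p q : V × V → V × V}

/-- the state of the walk: `τ` corner of a contact triangle whose neighbour `p τ` is an obtuse
corner of type `j` -/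
def A62 (opp : ℝ → ℝ) (g : ℕ → ℝ) (p : V × V → V × V) (j : ℕ) (τ : V × V) : Prop :=
  τ ∈ iJ G ∧ G.cI (G.cl τ) = ∅ ∧ p τ ∈ iJ G ∧ RC G (G.cl (p τ)) ∧ TH G (p τ) = opp (g j)

/-- all other rhombus corners at the point of `k` are outside `F`, and the point is a seven unit
point -/
def Tight62 (al : ℝ) (F : V × V → Prop) (k : V × V) : Prop :=
  B7 G al k.1 ∧ ∀ x ∈ Jv G k.1, RC G (G.cl x) → F x → x = k

/-- the tip `s' (p τ)` -/
theorem tip62 (O : Or62 G opp s s' p q) (c : Ch62 al Q opp g m) {j : ℕ} (hj : j ≤ m) {τ : V × V}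
    (hA : A62 G opp g p j τ) :
    s' (p τ) ∈ iJ G ∧ RC G (G.cl (s' (p τ))) ∧ TH G (s' (p τ)) = g j ∧ p (s' (p τ)) = s τ ∧
      s τ ∈ iJ G ∧ G.cI (G.cl (s τ)) = ∅ ∧ q (s τ) = s' (p τ) ∧ (s τ).1 = (s' (p τ)).1 ∧
      s' (s τ) = τ := by
  obtain ⟨h1, h2, h3, h4, h5⟩ := hA
  have e1 := O.s2 _ h3
  have e2 : RC G (G.cl (s' (p τ))) := by
    rw [O.s2c _ h3]
    exact h4
  have e3 : TH G (s' (p τ)) = g j := by
    rw [O.o2 _ h3 h4, h5, c.goo hj]
  have e4 := O.ps _ h1 h3
  have e5 := O.s1 _ h1
  have e6 : G.cI (G.cl (s τ)) = ∅ := by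
    rw [O.s1c _ h1]
    exact h2
  have e7 : q (s τ) = s' (p τ) := by
    rw [← e4]
    exact O.pq _ e1 (by rw [e4]; exact e5)
  have e8 : (s τ).1 = (s' (p τ)).1 := by
    rw [← e4]
    exact O.pf _ e1 (by rw [e4]; exact e5)
  exact ⟨e1, e2, e3, e4, e5, e6, e7, e8, O.s12 _ h1⟩

/-- one step of the walk -/
theorem step62 (hG : G.Geo al kp U) (O : Or62 G opp s s' p q) (c : Ch62 al Q opp g m)
    {F : V × V → Prop} (f : Fc62 G Q opp g m F) {j : ℕ} (hj : j ≤ m) {τ : V × V}
    (hA : A62 G opp g p j τ) :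
    ¬ Tight62 G al F (s' (p τ)) ∨
    (∃ i, j = i + 1 ∧ p (s τ) ∈ iJ G ∧ RC G (G.cl (p (s τ))) ∧ TH G (p (s τ)) = opp (g i)) ∨
    (∃ i, j = i + 1 ∧ q (s' (p τ)) ∈ iJ G ∧ RC G (G.cl (q (s' (p τ)))) ∧
      TH G (q (s' (p τ))) = opp (g i)) ∨
    (∃ i, j = i + 1 ∧ A62 G opp g p i (p (s τ))) ∨
    (j = 0 ∧ p (s τ) ∈ iJ G ∧ G.cI (G.cl (p (s τ))) = ∅) := by
  obtain ⟨e1, e2, e3, e4, e5, e6, e7, e8, e9⟩ := tip62 G O c hj hA
  by_cases hT : Tight62 G al F (s' (p τ))
  swap
  · exact Or.inl hT
  right
  obtain ⟨k, hk⟩ : ∃ k, k = s' (p τ) := ⟨_, rfl⟩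
  rw [← hk] at e1 e2 e3 e4 e7 e8 hT ⊢
  obtain ⟨hB, hF⟩ := hT
  have hN := hB.1
  have hkJ : k ∈ Jv G k.1 := (mem_Jv51 G).2 ⟨e1, rfl⟩
  have hsJ : s τ ∈ Jv G k.1 := (mem_Jv51 G).2 ⟨e5, e8⟩
  have hpJ : ∀ x ∈ Jv G k.1, p x ∈ Jv G k.1 ∧ q x ∈ Jv G k.1 := by
    intro x hx
    obtain ⟨h1, h2⟩ := (mem_Jv51 G).1 hx
    obtain ⟨h3, h4⟩ := O.N x h1 (by rw [h2]; exact hN)
    exact ⟨(mem_Jv51 G).2 ⟨h3, (O.pf _ h1 h3).trans h2⟩,
      (mem_Jv51 G).2 ⟨h4, (O.qf _ h1 h4).trans h2⟩⟩
  have hp1 := (hpJ _ hsJ).1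
  have hnRT : ∀ x : V × V, G.cI (G.cl x) = ∅ → ¬ RC G (G.cl x) := fun x h1 h2 => RC_ne51 G h2 h1
  rcases c0_62 G hG c f hB hkJ e2 hj e3 hF with ⟨h0, hall⟩ | ⟨i, hi, y, hy, hyk, ry, hyt, h3, hall⟩
  · right; right; right
    refine ⟨h0, ((mem_Jv51 G).1 hp1).1, hall _ hp1 ?_⟩
    intro h
    -- `{k, s τ}` would be closed
    have h4 : ∀ x ∈ ({k, s τ} : Finset (V × V)), x ∈ iJ G ∧ x.1 = k.1 ∧
        p x ∈ ({k, s τ} : Finset (V × V)) := by
      intro x hx
      rw [Finset.mem_insert, Finset.mem_singleton] at hx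
      rcases hx with rfl | rfl
      · exact ⟨e1, rfl, by rw [e4]; exact Finset.mem_insert_of_mem (Finset.mem_singleton_self _)⟩
      · exact ⟨e5, e8, by rw [h]; exact Finset.mem_insert_self _ _⟩
    have h5 := (O.cyc k.1 {k, s τ} ⟨k, Finset.mem_insert_self _ _⟩ h4).2
    have h6 : Jv G k.1 ⊆ {k, s τ} := fun x hx =>
      h5 x ((mem_Jv51 G).1 hx).1 ((mem_Jv51 G).1 hx).2
    obtain ⟨h7, _⟩ := count62 G hG hB
    have h8 : ((Jv G k.1).filter (fun x => ¬ RC G (G.cl x))).card +
        ((Jv G k.1).filter (fun x => RC G (G.cl x))).card = (Jv G k.1).card := by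
      rw [add_comm]
      exact Finset.card_filter_add_card_filter_not (fun x => RC G (G.cl x))
    have h9 := Finset.card_le_card h6
    have h10 : ({k, s τ} : Finset (V × V)).card ≤ 2 := Finset.card_le_two
    omega
  · by_cases r1 : RC G (G.cl (p (s τ)))
    · left
      refine ⟨i, hi, ((mem_Jv51 G).1 hp1).1, r1, ?_⟩
      have : p (s τ) = y := by
        by_contra hne
        by_cases hpk : p (s τ) = k
        · -- `{k, s τ}` closed, `y` missing
          have h4 : ∀ x ∈ ({k, s τ} : Finset (V × V)), x ∈ iJ G ∧ x.1 = k.1 ∧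
              p x ∈ ({k, s τ} : Finset (V × V)) := by
            intro x hx
            rw [Finset.mem_insert, Finset.mem_singleton] at hx
            rcases hx with rfl | rfl
            · exact ⟨e1, rfl, by
                rw [e4]
                exact Finset.mem_insert_of_mem (Finset.mem_singleton_self _)⟩
            · exact ⟨e5, e8, by rw [hpk]; exact Finset.mem_insert_self _ _⟩
          have h5 := (O.cyc k.1 {k, s τ} ⟨k, Finset.mem_insert_self _ _⟩ h4).2 y
            ((mem_Jv51 G).1 hy).1 ((mem_Jv51 G).1 hy).2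
          rw [Finset.mem_insert, Finset.mem_singleton] at h5
          rcases h5 with h5 | h5
          · exact hyk h5
          · rw [h5] at ry
            exact hnRT _ e6 ry
        · exact hnRT _ (hall _ hp1 hpk hne) r1
      rw [this]
      exact hyt
    · right
      by_cases r3 : RC G (G.cl (q k))
      · left
        have hq1 := (hpJ _ hkJ).2
        refine ⟨i, hi, ((mem_Jv51 G).1 hq1).1, r3, ?_⟩
        have : q k = y := by
          by_contra hne
          by_cases hqk : q k = k
          · have h4 : ∀ x ∈ ({k} : Finset (V × V)), x ∈ iJ G ∧ x.1 = k.1 ∧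
                q x ∈ ({k} : Finset (V × V)) := by
              intro x hx
              rw [Finset.mem_singleton] at hx
              subst hx
              exact ⟨e1, rfl, by rw [hqk]; exact Finset.mem_singleton_self _⟩
            have h5 := (O.mirror.cyc k.1 {k} ⟨k, Finset.mem_singleton_self _⟩ h4).2 y
              ((mem_Jv51 G).1 hy).1 ((mem_Jv51 G).1 hy).2
            exact hyk (Finset.mem_singleton.1 h5)
          · exact hnRT _ (hall _ hq1 hqk hne) r3
        rw [this]
        exact hyt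
      · right; left
        refine ⟨i, hi, ?_⟩
        -- the corners `k, s τ, p (s τ), p (p (s τ))`
        have hTp : G.cI (G.cl (p (s τ))) = ∅ := (hB.2.2 _ hp1).resolve_right r1
        have hp2 := (hpJ _ hp1).1
        have hq1 := (hpJ _ hkJ).2
        have hTq : G.cI (G.cl (q k)) = ∅ := (hB.2.2 _ hq1).resolve_right r3
        have hjp : s τ ∈ iJ G := e5
        have i1 := ((mem_Jv51 G).1 hp1).1
        have i2 := ((mem_Jv51 G).1 hp2).1
        have iq := ((mem_Jv51 G).1 hq1).1
        have key : RC G (G.cl (p (p (s τ)))) → p (p (s τ)) = y := by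
          intro r2
          by_contra hne
          by_cases hpk : p (p (s τ)) = k
          · have h4 : ∀ x ∈ ({k, s τ, p (s τ)} : Finset (V × V)), x ∈ iJ G ∧ x.1 = k.1 ∧
                p x ∈ ({k, s τ, p (s τ)} : Finset (V × V)) := by
              intro x hx
              simp only [Finset.mem_insert, Finset.mem_singleton] at hx ⊢
              rcases hx with rfl | rfl | rfl
              · exact ⟨e1, rfl, Or.inr (Or.inl e4)⟩
              · exact ⟨e5, e8, Or.inr (Or.inr rfl)⟩
              · exact ⟨i1, ((mem_Jv51 G).1 hp1).2, Or.inl hpk⟩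
            have h5 := (O.cyc k.1 {k, s τ, p (s τ)} ⟨k, Finset.mem_insert_self _ _⟩ h4).2 y
              ((mem_Jv51 G).1 hy).1 ((mem_Jv51 G).1 hy).2
            simp only [Finset.mem_insert, Finset.mem_singleton] at h5
            rcases h5 with h5 | h5 | h5
            · exact hyk h5
            · rw [h5] at ry
              exact hnRT _ e6 ry
            · rw [h5] at ry
              exact hnRT _ hTp ry
          · exact hnRT _ (hall _ hp2 hpk hne) r2
        by_cases r2 : RC G (G.cl (p (p (s τ))))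
        · exact ⟨i1, hTp, i2, r2, by rw [key r2]; exact hyt⟩
        · exfalso
          -- three triangles `s τ, p (s τ), p (p (s τ))`; `q k` is one of them
          obtain ⟨JT, hJT⟩ : ∃ JT, JT = (Jv G k.1).filter (fun x => ¬ RC G (G.cl x)) := ⟨_, rfl⟩
          rw [← hJT] at h3
          have hmT : ∀ x, x ∈ JT ↔ x ∈ Jv G k.1 ∧ ¬ RC G (G.cl x) := by
            intro x
            rw [hJT, Finset.mem_filter]
          have n1 : p (s τ) ≠ k := fun h => r1 (by rw [h]; exact e2)
          have n2 : p (p (s τ)) ≠ k := fun h => r2 (by rw [h]; exact e2)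
          have n3 : s τ ≠ k := fun h => hnRT _ e6 (by rw [h]; exact e2)
          have qp0 : q (p k) = k := O.pq _ e1 (by rw [e4]; exact e5)
          have qp1 : q (p (s τ)) = s τ := O.pq _ e5 i1
          have qp2 : q (p (p (s τ))) = p (s τ) := O.pq _ i1 i2
          have d1 : s τ ≠ p (s τ) := by
            intro h
            apply n3
            rw [← h] at qp1
            rw [← qp1, ← e4]
            exact qp0
          have d2 : p (s τ) ≠ p (p (s τ)) := by
            intro h
            rw [← h] at qp2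
            exact d1 (qp1.symm.trans qp2)
          have d3 : s τ ≠ p (p (s τ)) := by
            intro h
            rw [← h] at qp2
            apply n1
            rw [← qp2, ← e4]
            exact qp0
          have hsub : ({s τ, p (s τ), p (p (s τ))} : Finset (V × V)) ⊆ JT := by
            intro x hx
            simp only [Finset.mem_insert, Finset.mem_singleton] at hx
            rcases hx with rfl | rfl | rfl
            · exact (hmT _).2 ⟨hsJ, hnRT _ e6⟩
            · exact (hmT _).2 ⟨hp1, r1⟩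
            · exact (hmT _).2 ⟨hp2, r2⟩
          have hcard : ({s τ, p (s τ), p (p (s τ))} : Finset (V × V)).card = 3 := by
            rw [Finset.card_eq_three]
            exact ⟨_, _, _, d1, d3, d2, rfl⟩
          have heq := Finset.eq_of_subset_of_card_le hsub (by omega)
          have hqT : q k ∈ JT := (hmT _).2 ⟨hq1, r3⟩
          rw [← heq] at hqT
          simp only [Finset.mem_insert, Finset.mem_singleton] at hqT
          have pq0 : p (q k) = k := O.qp _ e1 iq
          rcases hqT with h | h | h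
          · rw [h] at pq0
            exact n1 pq0
          · rw [h] at pq0
            exact n2 pq0
          · have hclosed : ∀ x ∈ ({k, s τ, p (s τ), p (p (s τ))} : Finset (V × V)),
                x ∈ iJ G ∧ x.1 = k.1 ∧
                p x ∈ ({k, s τ, p (s τ), p (p (s τ))} : Finset (V × V)) := by
              intro x hx
              simp only [Finset.mem_insert, Finset.mem_singleton] at hx ⊢
              rcases hx with rfl | rfl | rfl | rfl
              · exact ⟨e1, rfl, Or.inr (Or.inl e4)⟩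
              · exact ⟨e5, e8, Or.inr (Or.inr (Or.inl rfl))⟩
              · exact ⟨i1, ((mem_Jv51 G).1 hp1).2, Or.inr (Or.inr (Or.inr rfl))⟩
              · exact ⟨i2, ((mem_Jv51 G).1 hp2).2, Or.inl (by rw [← h]; exact pq0)⟩
            have h5 := (O.cyc k.1 _ ⟨k, Finset.mem_insert_self _ _⟩ hclosed).2 y
              ((mem_Jv51 G).1 hy).1 ((mem_Jv51 G).1 hy).2
            simp only [Finset.mem_insert, Finset.mem_singleton] at h5
            rcases h5 with h5 | h5 | h5 | h5
            · exact hyk h5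
            · rw [h5] at ry
              exact hnRT _ e6 ry
            · rw [h5] at ry
              exact r1 ry
            · rw [h5] at ry
              exact r2 ry

end D

end

end Pool.Agent.PEN
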