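import Pool.Agent.P4.Tk62c

/-! # PENNY, token rows: the walk and its claims -/

set_option autoImplicit false

namespace Pool.Agent.PEN

open Classical UpperHalfPlane

noncomputable section

section D
variable {V : Type} (G : Tg V) {al : ℝ} {kp : V → V → ℝ} {U : ℕ → ℝ}
variable {Q : ℝ} {opp : ℝ → ℝ} {g : ℕ → ℝ} {m : ℕ} {s s' p q : V × V → V × V}

/-- the walk from `t0` after `i` steps -/
def Wk62 (opp : ℝ → ℝ) (g : ℕ → ℝ) (m : ℕ) (s' p q : V × V → V × V) (t0 : V × V) (i : ℕ)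
    (τ : V × V) : Prop :=
  i ≤ m ∧ A62 G opp g p (m - i) τ ∧ (fun x => s' (q x))^[i] τ = t0 ∧
    (0 < i → q τ ∈ iJ G ∧ G.cI (G.cl (q τ)) = ∅) ∧ q^[i] (s' t0) = s' τ ∧
    (∀ k, k ≤ i → q^[k] (s' t0) ∈ iJ G ∧ G.cI (G.cl (q^[k] (s' t0))) = ∅) ∧
    (s' τ).1 = (s' t0).1

theorem wk0_62 (O : Or62 G opp s s' p q) {t0 : V × V} (hA : A62 G opp g p m t0) :
    Wk62 G opp g m s' p q t0 0 t0 := by
  refine ⟨Nat.zero_le _, hA, rfl, fun h => absurd h (lt_irrefl _), rfl, ?_, rfl⟩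
  intro k hk
  rw [Nat.le_zero.1 hk]
  refine ⟨O.s2 _ hA.1, ?_⟩
  show G.cI (G.cl (s' t0)) = ∅
  rw [O.s2c _ hA.1]
  exact hA.2.1

/-- the corner at the centre of the walk -/
theorem centre62 (O : Or62 G opp s s' p q) {τ : V × V} (hτ : τ ∈ iJ G)
    (hT : G.cI (G.cl τ) = ∅) (hp : p (s τ) ∈ iJ G) :
    p (s' (p (s τ))) = s' τ ∧ q (s' τ) = s' (p (s τ)) ∧ (s' (p (s τ))).1 = (s' τ).1 := by
  have h1 := O.s1 _ hτ
  have h2 := O.ps _ h1 hp
  rw [O.T3 _ hτ hT] at h2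
  have h3 := O.s2 _ hp
  have h4 := O.s2 _ hτ
  refine ⟨h2, ?_, ?_⟩
  · rw [← h2]
    exact O.pq _ h3 (by rw [h2]; exact h4)
  · rw [← h2]
    exact (O.pf _ h3 (by rw [h2]; exact h4)).symm

theorem wkS_62 (O : Or62 G opp s s' p q) {t0 τ : V × V} {i : ℕ}
    (h : Wk62 G opp g m s' p q t0 i τ) (hi : i < m)
    (hA : A62 G opp g p (m - i - 1) (p (s τ))) :
    Wk62 G opp g m s' p q t0 (i + 1) (p (s τ)) := by
  obtain ⟨h1, h2, h3, h4, h5, h6, h7⟩ := h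
  obtain ⟨k1, k2, k3⟩ := centre62 G O h2.1 h2.2.1 hA.1
  have e1 : q (p (s τ)) = s τ := O.pq _ (O.s1 _ h2.1) hA.1
  refine ⟨hi, ?_, ?_, ?_, ?_, ?_, k3.trans h7⟩
  · rw [Nat.sub_add_eq]
    exact hA
  · rw [Function.iterate_succ_apply, e1, O.s12 _ h2.1]
    exact h3
  · intro _
    rw [e1]
    refine ⟨O.s1 _ h2.1, ?_⟩
    rw [O.s1c _ h2.1]
    exact h2.2.1
  · rw [Function.iterate_succ_apply', h5]
    exact k2
  · intro k hk
    rcases Nat.lt_or_ge k (i + 1) with hlt | hge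
    · exact h6 k (by omega)
    · have : k = i + 1 := by omega
      subst this
      rw [Function.iterate_succ_apply', h5, k2]
      refine ⟨O.s2 _ hA.1, ?_⟩
      rw [O.s2c _ hA.1]
      exact hA.2.1

/-- the end of the walk -/
theorem walk62 (hG : G.Geo al kp U) (O : Or62 G opp s s' p q) (c : Ch62 al Q opp g m)
    {F : V × V → Prop} (f : Fc62 G Q opp g m F) {t0 : V × V} (hA : A62 G opp g p m t0) :
    ∃ i τ, Wk62 G opp g m s' p q t0 i τ ∧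
      (¬ Tight62 G al F (s' (p τ)) ∨
      (∃ l, m - i = l + 1 ∧ p (s τ) ∈ iJ G ∧ RC G (G.cl (p (s τ))) ∧
        TH G (p (s τ)) = opp (g l)) ∨
      (∃ l, m - i = l + 1 ∧ q (s' (p τ)) ∈ iJ G ∧ RC G (G.cl (q (s' (p τ)))) ∧
        TH G (q (s' (p τ))) = opp (g l)) ∨
      (i = m ∧ p (s τ) ∈ iJ G ∧ G.cI (G.cl (p (s τ))) = ∅)) := by
  have key : ∀ n i τ, m - i = n → Wk62 G opp g m s' p q t0 i τ →
      ∃ i τ, Wk62 G opp g m s' p q t0 i τ ∧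
      (¬ Tight62 G al F (s' (p τ)) ∨
      (∃ l, m - i = l + 1 ∧ p (s τ) ∈ iJ G ∧ RC G (G.cl (p (s τ))) ∧
        TH G (p (s τ)) = opp (g l)) ∨
      (∃ l, m - i = l + 1 ∧ q (s' (p τ)) ∈ iJ G ∧ RC G (G.cl (q (s' (p τ)))) ∧
        TH G (q (s' (p τ))) = opp (g l)) ∨
      (i = m ∧ p (s τ) ∈ iJ G ∧ G.cI (G.cl (p (s τ))) = ∅)) := by
    intro n
    induction n with
    | zero =>
      intro i τ hn hW
      rcases step62 G hG O c f (Nat.sub_le m i) hW.2.1 with h | ⟨l, h, _⟩ | ⟨l, h, _⟩ |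
        ⟨l, h, _⟩ | ⟨h, h1, h2⟩
      · exact ⟨i, τ, hW, Or.inl h⟩
      · omega
      · omega
      · omega
      · have := hW.1
        exact ⟨i, τ, hW, Or.inr (Or.inr (Or.inr ⟨by omega, h1, h2⟩))⟩
    | succ n ih =>
      intro i τ hn hW
      rcases step62 G hG O c f (Nat.sub_le m i) hW.2.1 with h | ⟨l, h, h1⟩ | ⟨l, h, h1⟩ |
        ⟨l, h, h1⟩ | ⟨h, h1, h2⟩
      · exact ⟨i, τ, hW, Or.inl h⟩
      · exact ⟨i, τ, hW, Or.inr (Or.inl ⟨l, h, h1⟩)⟩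
      · exact ⟨i, τ, hW, Or.inr (Or.inr (Or.inl ⟨l, h, h1⟩))⟩
      · have hl : l = m - i - 1 := by omega
        rw [hl] at h1
        exact ih (i + 1) _ (by omega) (wkS_62 G O hW (by omega) h1)
      · omega
  exact key _ 0 t0 rfl (wk0_62 G O hA)

/-- the claims of the walk: `(k, 0)` the clockwise half, `(k, 1)` the counterclockwise half -/
def Cl62 (al : ℝ) (F : V × V → Prop) (opp : ℝ → ℝ) (g : ℕ → ℝ) (m : ℕ)
    (s s' p q : V × V → V × V) (t0 : V × V) (k : V × V) (n : ℕ) : Prop :=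
  ∃ i τ, Wk62 G opp g m s' p q t0 i τ ∧
    ((k = s' (p τ) ∧ n = 0 ∧ ¬ Tight62 G al F k) ∨
    (∃ l, m - i = l + 1 ∧ p (s τ) ∈ iJ G ∧ RC G (G.cl (p (s τ))) ∧
        TH G (p (s τ)) = opp (g l) ∧ k = s' (p (s τ)) ∧ n = 0) ∨
    (∃ l, m - i = l + 1 ∧ q (s' (p τ)) ∈ iJ G ∧ RC G (G.cl (q (s' (p τ)))) ∧
        TH G (q (s' (p τ))) = opp (g l) ∧ k = s (q (s' (p τ))) ∧ n = 1))

/-- a walk claims or fails -/
theorem walk62' (hG : G.Geo al kp U) (O : Or62 G opp s s' p q) (c : Ch62 al Q opp g m)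
    {F : V × V → Prop} (f : Fc62 G Q opp g m F) {t0 : V × V} (hA : A62 G opp g p m t0) :
    (∃ k n, Cl62 G al F opp g m s s' p q t0 k n) ∨
    (∀ k, k ≤ m + 1 → q^[k] (s' t0) ∈ iJ G ∧ G.cI (G.cl (q^[k] (s' t0))) = ∅) := by
  obtain ⟨i, τ, hW, h⟩ := walk62 G hG O c f hA
  rcases h with h | ⟨l, h, h1, h2, h3⟩ | ⟨l, h, h1, h2, h3⟩ | ⟨h, h1, h2⟩
  · exact Or.inl ⟨_, 0, i, τ, hW, Or.inl ⟨rfl, rfl, h⟩⟩
  · exact Or.inl ⟨_, 0, i, τ, hW, Or.inr (Or.inl ⟨l, h, h1, h2, h3, rfl, rfl⟩)⟩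
  · exact Or.inl ⟨_, 1, i, τ, hW, Or.inr (Or.inr ⟨l, h, h1, h2, h3, rfl, rfl⟩)⟩
  · right
    subst h
    intro k hk
    obtain ⟨g1, g2, g3, g4, g5, g6, g7⟩ := hW
    rcases Nat.lt_or_ge k (i + 1) with hlt | hge
    · exact g6 k (by omega)
    · have : k = i + 1 := by omega
      subst this
      rw [Function.iterate_succ_apply', g5, (centre62 G O g2.1 g2.2.1 h1).2.1]
      refine ⟨O.s2 _ h1, ?_⟩
      rw [O.s2c _ h1]
      exact h2

/-- facts on a claim -/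
theorem cl_fact62 (hG : G.Geo al kp U) (O : Or62 G opp s s' p q) (c : Ch62 al Q opp g m)
    {F : V × V → Prop} {t0 : V × V}
    (ht0 : t0 ∈ iJ G) (hq : q t0 ∈ iJ G) (rq : RC G (G.cl (q t0))) (k1 : g m ≤ TH G (s (q t0)))
    (k2 : TH G (s (q t0)) ≤ Q)
    {k : V × V} {n : ℕ} (h : Cl62 G al F opp g m s s' p q t0 k n) :
    k ∈ iJ G ∧ RC G (G.cl k) ∧ (∃ j, j ≤ m ∧ TH G k = g j) ∧ ¬ Tight62 G al F k ∧
    ((n = 0 ∧ p k ∈ iJ G ∧ G.cI (G.cl (p k)) = ∅) ∨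
     (n = 1 ∧ q k ∈ iJ G ∧ RC G (G.cl (q k)) ∧ ∃ j, j ≤ m ∧ TH G (q k) = opp (g j))) := by
  obtain ⟨i, τ, hW, h⟩ := h
  obtain ⟨h1, h2, h3, h4, h5, h6, h7⟩ := hW
  obtain ⟨e1, e2, e3, e4, e5, e6, e7, e8, e9⟩ := tip62 G O c (Nat.sub_le m i) h2
  rcases h with ⟨a1, a2, a3⟩ | ⟨l, a1, a2, a3, a4, a5, a6⟩ | ⟨l, a1, a2, a3, a4, a5, a6⟩
  · subst a1
    refine ⟨e1, e2, ⟨_, Nat.sub_le m i, e3⟩, a3, Or.inl ⟨a2, ?_, ?_⟩⟩
    · rw [e4]
      exact e5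
    · rw [e4]
      exact e6
  · subst a5
    obtain ⟨b1, b2, b3⟩ := centre62 G O h2.1 h2.2.1 a2
    have r1 : RC G (G.cl (s' (p (s τ)))) := by
      rw [O.s2c _ a2]
      exact a3
    have hj : s' (p (s τ)) ∈ iJ G := O.s2 _ a2
    have ht : TH G (s' (p (s τ))) = g l := by
      rw [O.o2 _ a2 a3, a4, c.goo (by omega)]
    refine ⟨hj, r1, ⟨l, by omega, ht⟩, ?_, Or.inl ⟨a6, ?_, ?_⟩⟩
    · rintro ⟨hB, _⟩
      have f1 := O.s1 _ hq
      have rf1 : RC G (G.cl (s (q t0))) := by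
        rw [O.s1c _ hq]
        exact rq
      have f2 := O.qs _ ht0 hq
      have f3 := O.s2 _ ht0
      have f4 : (s' t0).1 = (s (q t0)).1 := by
        rw [← f2]
        exact O.qf _ f1 (by rw [f2]; exact f3)
      refine c1_62 G hG c hB ((mem_Jv51 G).2 ⟨hj, rfl⟩) (y := s (q t0))
        ((mem_Jv51 G).2 ⟨f1, (f4.symm.trans h7.symm).trans b3.symm⟩) ?_ r1 rf1 ?_ k2
      · intro h
        rw [h] at ht
        have := c.mono l m (by omega) le_rfl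
        linarith
      · rw [ht]
        exact (c.gm (by omega)).le
    · rw [b1]
      exact O.s2 _ h2.1
    · rw [b1, O.s2c _ h2.1]
      exact h2.2.1
  · subst a5
    obtain ⟨k, hk⟩ : ∃ k, k = s' (p τ) := ⟨_, rfl⟩
    rw [← hk] at e1 e2 e3 e4 e7 e8 a2 a3 a4 ⊢
    have b1 := O.qs _ e1 a2
    have r1 : RC G (G.cl (s (q k))) := by
      rw [O.s1c _ a2]
      exact a3
    have r2 : RC G (G.cl (s' k)) := by
      rw [O.s2c _ e1]
      exact e2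
    have ht : TH G (s (q k)) = g l := by
      rw [O.o1 _ a2 a3, a4, c.goo (by omega)]
    have ht' : TH G (s' k) = opp (g (l + 1)) := by
      rw [O.o2 _ e1 e2, e3, a1]
    have i1 := O.s1 _ a2
    have i2 := O.s2 _ e1
    refine ⟨i1, r1, ⟨l, by omega, ht⟩, ?_, Or.inr ⟨a6, ?_, ?_, ?_⟩⟩
    · rintro ⟨hB, _⟩
      refine c2_62 G hG c hB ((mem_Jv51 G).2 ⟨i1, rfl⟩) (y := s' k)
        ((mem_Jv51 G).2 ⟨i2, ?_⟩) ?_ r1 r2 (j := l) (by omega) ht ht'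
      · rw [← b1]
        exact O.qf _ i1 (by rw [b1]; exact i2)
      · intro h
        rw [h, ht'] at ht
        have := c.gm (j := l) (by omega)
        have := c.bQ (j := l + 1) (by omega)
        linarith
    · rw [b1]
      exact i2
    · rw [b1]
      exact r2
    · rw [b1]
      exact ⟨l + 1, by omega, ht'⟩

/-- the claimed half token determines the walk -/
theorem cl_uniq62 (O : Or62 G opp s s' p q) (c : Ch62 al Q opp g m)
    {F : V × V → Prop} {t0 t1 : V × V} {k : V × V} {n : ℕ}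
    (h : Cl62 G al F opp g m s s' p q t0 k n) (h' : Cl62 G al F opp g m s s' p q t1 k n) :
    t0 = t1 := by
  -- the two kinds of claims with `n = 0`
  have facA : ∀ (u : V × V) i τ, Wk62 G opp g m s' p q u i τ → k = s' (p τ) →
      TH G k = g (m - i) ∧ s' (p k) = τ := by
    intro u i τ hW hk
    obtain ⟨e1, e2, e3, e4, e5, e6, e7, e8, e9⟩ := tip62 G O c (Nat.sub_le m i) hW.2.1
    subst hk
    exact ⟨e3, by rw [e4]; exact e9⟩
  have facB : ∀ (u : V × V) i τ, Wk62 G opp g m s' p q u i τ → ∀ l, m - i = l + 1 →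
      p (s τ) ∈ iJ G → RC G (G.cl (p (s τ))) → TH G (p (s τ)) = opp (g l) →
      k = s' (p (s τ)) →
      TH G k = g l ∧ s' (p k) = s τ ∧ RC G (G.cl (q (s τ))) ∧ s' (s τ) = τ := by
    intro u i τ hW l hl a2 a3 a4 hk
    obtain ⟨e1, e2, e3, e4, e5, e6, e7, e8, e9⟩ := tip62 G O c (Nat.sub_le m i) hW.2.1
    obtain ⟨b1, b2, b3⟩ := centre62 G O hW.2.1.1 hW.2.1.2.1 a2
    subst hk
    refine ⟨?_, ?_, by rw [e7]; exact e2, e9⟩
    · rw [O.o2 _ a2 a3, a4, c.goo (by omega)]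
    · rw [b1]
      exact O.mirror.T3 _ hW.2.1.1 hW.2.1.2.1
  have hAB : ∀ (u u' : V × V) i τ i' τ', Wk62 G opp g m s' p q u i τ →
      Wk62 G opp g m s' p q u' i' τ' → k = s' (p τ) → ∀ l, m - i' = l + 1 →
      p (s τ') ∈ iJ G → RC G (G.cl (p (s τ'))) → TH G (p (s τ')) = opp (g l) →
      k = s' (p (s τ')) → False := by
    intro u u' i τ i' τ' hW hW' hk l hl a2 a3 a4 hk'
    obtain ⟨c1, c2⟩ := facA u i τ hW hk
    obtain ⟨c3, c4, c5, _⟩ := facB u' i' τ' hW' l hl a2 a3 a4 hk'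
    have h1 := hW.1
    rcases Nat.eq_zero_or_pos i with h0 | h0
    · subst h0
      have := c.ginj (i := m - 0) (j := l) (by omega) (by omega) (c1.symm.trans c3)
      omega
    · have h2 := (hW.2.2.2.1 h0).2
      rw [← c2, c4] at h2
      exact RC_ne51 G c5 h2
  have hfin : ∀ (u u' : V × V) i τ i' τ', Wk62 G opp g m s' p q u i τ →
      Wk62 G opp g m s' p q u' i' τ' → i = i' → τ = τ' → u = u' := by
    intro u u' i τ i' τ' hW hW' hi hτ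
    rw [← hW.2.2.1, ← hW'.2.2.1, hi, hτ]
  obtain ⟨i, τ, hW, h⟩ := h
  obtain ⟨i', τ', hW', h'⟩ := h'
  have m1 := hW.1
  have m2 := hW'.1
  rcases h with ⟨a1, a2, a3⟩ | ⟨l, a1, a2, a3, a4, a5, a6⟩ | ⟨l, a1, a2, a3, a4, a5, a6⟩ <;>
    rcases h' with ⟨b1, b2, b3⟩ | ⟨l', b1, b2, b3, b4, b5, b6⟩ | ⟨l', b1, b2, b3, b4, b5, b6⟩
  · obtain ⟨c1, c2⟩ := facA _ i τ hW a1
    obtain ⟨d1, d2⟩ := facA _ i' τ' hW' b1
    have := c.ginj (i := m - i) (j := m - i') (by omega) (by omega) (c1.symm.trans d1)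
    exact hfin _ _ i τ i' τ' hW hW' (by omega) (c2.symm.trans d2)
  · exact absurd (hAB _ _ i τ i' τ' hW hW' a1 l' b1 b2 b3 b4 b5) id
  · omega
  · exact absurd (hAB _ _ i' τ' i τ hW' hW b1 l a1 a2 a3 a4 a5) id
  · obtain ⟨c1, c2, _, c3⟩ := facB _ i τ hW l a1 a2 a3 a4 a5
    obtain ⟨d1, d2, _, d3⟩ := facB _ i' τ' hW' l' b1 b2 b3 b4 b5
    have := c.ginj (i := l) (j := l') (by omega) (by omega) (c1.symm.trans d1)
    refine hfin _ _ i τ i' τ' hW hW' (by omega) ?_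
    rw [← c3, ← d3, ← c2, ← d2]
  · omega
  · omega
  · omega
  · have t1 : TH G k = g l := by
      rw [a5, O.o1 _ a2 a3, a4, c.goo (by omega)]
    have t2 : TH G k = g l' := by
      rw [b5, O.o1 _ b2 b3, b4, c.goo (by omega)]
    have := c.ginj (i := l) (j := l') (by omega) (by omega) (t1.symm.trans t2)
    obtain ⟨e1, e2, e3, e4, e5, e6, e7, e8, e9⟩ := tip62 G O c (Nat.sub_le m i) hW.2.1
    obtain ⟨f1, f2, f3, f4, f5, f6, f7, f8, f9⟩ := tip62 G O c (Nat.sub_le m i') hW'.2.1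
    refine hfin _ _ i τ i' τ' hW hW' (by omega) ?_
    have g1 : s' (p (p (s' k))) = τ := by
      rw [a5, O.s12 _ a2, O.qp _ e1 a2, e4]
      exact e9
    have g2 : s' (p (p (s' k))) = τ' := by
      rw [b5, O.s12 _ b2, O.qp _ f1 b2, f4]
      exact f9
    exact g1.symm.trans g2

end D

end

end Pool.Agent.PEN
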