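import Pool.Agent.P4.Tk62d

/-! # PENNY, token rows: walks that fail -/

set_option autoImplicit false

namespace Pool.Agent.PEN

open Classical UpperHalfPlane

noncomputable section

section D
variable {V : Type} (G : Tg V) {al : ℝ} {kp : V → V → ℝ} {U : ℕ → ℝ}
variable {Q : ℝ} {opp : ℝ → ℝ} {g : ℕ → ℝ} {m : ℕ} {s s' p q : V × V → V × V}

/-- corners met from a rhombus corner along contact triangles are different -/
theorem orb62 (O : Or62 G opp s s' p q) {k : V × V} (hk : k ∈ iJ G) (rk : RC G (G.cl k)) {n : ℕ}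
    (hT : ∀ j, j < n → q^[j + 1] k ∈ iJ G ∧ G.cI (G.cl (q^[j + 1] k)) = ∅) :
    (∀ j, j ≤ n → q^[j] k ∈ Jv G k.1) ∧ (∀ j, j < n → p (q^[j + 1] k) = q^[j] k) ∧
    ∀ a b, a ≤ n → b ≤ n → q^[a] k = q^[b] k → a = b := by
  have hJ : ∀ j, j ≤ n → q^[j] k ∈ iJ G := by
    intro j hj
    rcases j with _ | j
    · exact hk
    · exact (hT j (by omega)).1
  have hf : ∀ j, j ≤ n → (q^[j] k).1 = k.1 := by
    intro j
    induction j with
    | zero => intro _; rfl
    | succ j ih =>
      intro hj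
      have h1 := hJ (j + 1) hj
      rw [Function.iterate_succ_apply'] at h1 ⊢
      rw [O.qf _ (hJ j (by omega)) h1]
      exact ih (by omega)
  have hp : ∀ j, j < n → p (q^[j + 1] k) = q^[j] k := by
    intro j hj
    have h1 := (hT j hj).1
    rw [Function.iterate_succ_apply'] at h1 ⊢
    exact O.qp _ (hJ j (by omega)) h1
  refine ⟨fun j hj => (mem_Jv51 G).2 ⟨hJ j hj, hf j hj⟩, hp, ?_⟩
  have key : ∀ a b, a ≤ n → b ≤ n → a < b → q^[a] k ≠ q^[b] k := by
    intro a
    induction a with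
    | zero =>
      intro b _ hb hab h
      obtain ⟨b', rfl⟩ : ∃ b', b = b' + 1 := ⟨b - 1, by omega⟩
      have h1 := (hT b' (by omega)).2
      rw [← h] at h1
      exact RC_ne51 G rk h1
    | succ a ih =>
      intro b ha hb hab h
      obtain ⟨b', rfl⟩ : ∃ b', b = b' + 1 := ⟨b - 1, by omega⟩
      apply ih b' (by omega) (by omega) (by omega)
      rw [← hp a (by omega), ← hp b' (by omega), h]
  intro a b ha hb h
  rcases lt_trichotomy a b with h1 | h1 | h1
  · exact absurd h (key a b ha hb h1)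
  · exact h1
  · exact absurd h.symm (key b a hb ha h1)

/-- the corner before a chain tip followed by four contact triangles -/
theorem fan62 (hG : G.Geo al kp U) (O : Or62 G opp s s' p q) (c : Ch62 al Q opp g m)
    (hlow : ∀ x ∈ iJ G, RC G (G.cl x) → al ≤ TH G x) {k : V × V} (hk : k ∈ iJ G)
    (rk : RC G (G.cl k)) (hN : k.1 ∈ inN G) (h1 : g 0 < TH G k) (h2 : TH G k ≤ Q)
    (hT : ∀ j, j < 4 → q^[j + 1] k ∈ iJ G ∧ G.cI (G.cl (q^[j + 1] k)) = ∅) :
    p k ∈ iJ G ∧ G.cI (G.cl (p k)) ≠ ∅ ∧ ¬ RC G (G.cl (p k)) := by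
  obtain ⟨o1, o2, o3⟩ := orb62 G O hk rk hT
  have hpk := (O.N k hk hN).1
  have hpJ : p k ∈ Jv G k.1 := (mem_Jv51 G).2 ⟨hpk, O.pf _ hk hpk⟩
  have hqp := O.pq _ hk hpk
  obtain ⟨S, hS⟩ : ∃ S, S = (Finset.range 5).image (fun j => q^[j] k) := ⟨_, rfl⟩
  have hmS : ∀ x, x ∈ S ↔ ∃ j, j ≤ 4 ∧ q^[j] k = x := by
    intro x
    rw [hS, Finset.mem_image]
    constructor
    · rintro ⟨j, hj, h⟩
      exact ⟨j, by have := Finset.mem_range.1 hj; omega, h⟩
    · rintro ⟨j, hj, h⟩
      exact ⟨j, Finset.mem_range.2 (by omega), h⟩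
  have hsumS : ∑ x ∈ S, TH G x = TH G k + 4 * al := by
    rw [hS, Finset.sum_image]
    · rw [Finset.sum_range_succ' _ 4]
      have h3 : ∑ j ∈ Finset.range 4, TH G (q^[j + 1] k) = ∑ j ∈ Finset.range 4, al := by
        refine Finset.sum_congr rfl fun j hj => ?_
        obtain ⟨h4, h5⟩ := hT j (Finset.mem_range.1 hj)
        exact TH_T51 G hG h4 h5
      rw [h3, Finset.sum_const, Finset.card_range, nsmul_eq_mul]
      show _ + TH G k = _
      push_cast
      ring
    · intro a ha b hb h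
      have := Finset.mem_range.1 (Finset.mem_coe.1 ha)
      have := Finset.mem_range.1 (Finset.mem_coe.1 hb)
      exact o3 a b (by omega) (by omega) h
  have htot := sum_TH_point71 G hG hN
  change ∑ x ∈ Jv G k.1, TH G x = _ at htot
  have hSJ : S ⊆ Jv G k.1 := by
    intro x hx
    obtain ⟨j, hj, rfl⟩ := (hmS x).1 hx
    exact o1 j hj
  have hpS : p k ∉ S := by
    intro h
    obtain ⟨j, hj, hjk⟩ := (hmS _).1 h
    have hcl : ∀ x ∈ S, x ∈ iJ G ∧ x.1 = k.1 ∧ p x ∈ S := by
      intro x hx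
      have hx' := (mem_Jv51 G).1 (hSJ hx)
      refine ⟨hx'.1, hx'.2, ?_⟩
      obtain ⟨i, hi, rfl⟩ := (hmS x).1 hx
      rcases i with _ | i
      · exact h
      · rw [o2 i (by omega)]
        exact (hmS _).2 ⟨i, by omega, rfl⟩
    have h3 := (O.cyc k.1 S ⟨p k, h⟩ hcl).2
    have h4 : Jv G k.1 = S := by
      apply Finset.Subset.antisymm _ hSJ
      intro x hx
      exact h3 x ((mem_Jv51 G).1 hx).1 ((mem_Jv51 G).1 hx).2
    rw [h4, hsumS] at htot
    have := c.Q2
    have := c.al3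
    have := Real.pi_pos
    linarith
  have hge : TH G (p k) < al := by
    by_contra hcon
    push Not at hcon
    have h3 : ∑ x ∈ insert (p k) S, TH G x ≤ ∑ x ∈ Jv G k.1, TH G x := by
      apply Finset.sum_le_sum_of_subset_of_nonneg
      · intro x hx
        rcases Finset.mem_insert.1 hx with rfl | hx
        · exact hpJ
        · exact hSJ hx
      · intro x hx _
        exact (TH_pos71 G ((mem_Jv51 G).1 hx).1).le
    rw [Finset.sum_insert hpS, hsumS, htot] at h3
    have := c.g0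
    linarith
  refine ⟨hpk, ?_, ?_⟩
  · intro h
    rw [TH_T51 G hG hpk h] at hge
    exact lt_irrefl _ hge
  · intro h
    have := hlow _ hpk h
    linarith

/-- three contact triangles on both sides of a rhombus corner: only at points of `N` -/
theorem dbl62 (hG : G.Geo al kp U) (O : Or62 G opp s s' p q) (c : Ch62 al Q opp g m)
    (hlow : ∀ x ∈ iJ G, RC G (G.cl x) → al ≤ TH G x) {k : V × V} (hk : k ∈ iJ G)
    (rk : RC G (G.cl k)) (hN : k.1 ∉ inN G) (hsum : ∑ x ∈ Jv G k.1, TH G x ≤ 2 * Real.pi)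
    (hT : ∀ j, j < 3 → q^[j + 1] k ∈ iJ G ∧ G.cI (G.cl (q^[j + 1] k)) = ∅)
    (hT' : ∀ j, j < 3 → p^[j + 1] k ∈ iJ G ∧ G.cI (G.cl (p^[j + 1] k)) = ∅) : False := by
  obtain ⟨o1, o2, o3⟩ := orb62 G O hk rk hT
  obtain ⟨u1, u2, u3⟩ := orb62 G O.mirror hk rk hT'
  have hcross : ∀ a b, a ≤ 3 → b < 3 → q^[a] k ≠ p^[b + 1] k := by
    intro a b ha hb h
    obtain ⟨S, hS⟩ : ∃ S, S = (Finset.range (a + 1)).image (fun j => q^[j] k) ∪
      (Finset.range (b + 2)).image (fun j => p^[j] k) := ⟨_, rfl⟩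
    have hmS : ∀ x, x ∈ S ↔ (∃ j, j ≤ a ∧ q^[j] k = x) ∨ (∃ j, j ≤ b + 1 ∧ p^[j] k = x) := by
      intro x
      rw [hS, Finset.mem_union, Finset.mem_image, Finset.mem_image]
      constructor
      · rintro (⟨j, hj, h⟩ | ⟨j, hj, h⟩)
        · exact Or.inl ⟨j, by have := Finset.mem_range.1 hj; omega, h⟩
        · exact Or.inr ⟨j, by have := Finset.mem_range.1 hj; omega, h⟩
      · rintro (⟨j, hj, h⟩ | ⟨j, hj, h⟩)
        · exact Or.inl ⟨j, Finset.mem_range.2 (by omega), h⟩
        · exact Or.inr ⟨j, Finset.mem_range.2 (by omega), h⟩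
    have hpS : ∀ j, j ≤ b → p^[j] k ∈ S ∧ q (p^[j + 1] k) = p^[j] k := by
      intro j hj
      exact ⟨(hmS _).2 (Or.inr ⟨j, by omega, rfl⟩), u2 j (by omega)⟩
    have hcl : ∀ x ∈ S, x ∈ iJ G ∧ x.1 = k.1 ∧ q x ∈ S := by
      intro x hx
      rcases (hmS x).1 hx with ⟨j, hj, rfl⟩ | ⟨j, hj, rfl⟩
      · have h1 := (mem_Jv51 G).1 (o1 j (by omega))
        refine ⟨h1.1, h1.2, ?_⟩
        rcases Nat.eq_or_lt_of_le hj with rfl | hlt
        · rw [h, (hpS b le_rfl).2]
          exact (hpS b le_rfl).1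
        · exact (hmS _).2 (Or.inl ⟨j + 1, by omega, by rw [Function.iterate_succ_apply']⟩)
      · have h1 := (mem_Jv51 G).1 (u1 j (by omega))
        refine ⟨h1.1, h1.2, ?_⟩
        rcases j with _ | j
        · rcases Nat.eq_zero_or_pos a with h0 | h0
          · subst h0
            have h3 : p^[b + 1] k = k := h.symm
            show q k ∈ S
            rw [← h3, (hpS b le_rfl).2]
            exact (hpS b le_rfl).1
          · exact (hmS _).2 (Or.inl ⟨1, h0, rfl⟩)
        · rw [(hpS j (by omega)).2]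
          exact (hpS j (by omega)).1
    exact hN (O.mirror.cyc k.1 S ⟨k, (hmS k).2 (Or.inl ⟨0, Nat.zero_le _, rfl⟩)⟩ hcl).1
  obtain ⟨S1, hS1⟩ : ∃ S1, S1 = (Finset.range 4).image (fun j => q^[j] k) := ⟨_, rfl⟩
  obtain ⟨S2, hS2⟩ : ∃ S2, S2 = (Finset.range 3).image (fun j => p^[j + 1] k) := ⟨_, rfl⟩
  have hdis : Disjoint S1 S2 := by
    rw [Finset.disjoint_left]
    intro x hx hy
    rw [hS1, Finset.mem_image] at hx
    rw [hS2, Finset.mem_image] at hy
    obtain ⟨a, ha, rfl⟩ := hx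
    obtain ⟨b, hb, h⟩ := hy
    exact hcross a b (by have := Finset.mem_range.1 ha; omega) (Finset.mem_range.1 hb) h.symm
  have hs1 : ∑ x ∈ S1, TH G x = TH G k + 3 * al := by
    rw [hS1, Finset.sum_image]
    · rw [Finset.sum_range_succ' _ 3]
      have h3 : ∑ j ∈ Finset.range 3, TH G (q^[j + 1] k) = ∑ j ∈ Finset.range 3, al := by
        refine Finset.sum_congr rfl fun j hj => ?_
        obtain ⟨h4, h5⟩ := hT j (Finset.mem_range.1 hj)
        exact TH_T51 G hG h4 h5
      rw [h3, Finset.sum_const, Finset.card_range, nsmul_eq_mul]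
      show _ + TH G k = _
      push_cast
      ring
    · intro a ha b hb h
      have := Finset.mem_range.1 (Finset.mem_coe.1 ha)
      have := Finset.mem_range.1 (Finset.mem_coe.1 hb)
      exact o3 a b (by omega) (by omega) h
  have hs2 : ∑ x ∈ S2, TH G x = 3 * al := by
    rw [hS2, Finset.sum_image]
    · have h3 : ∑ j ∈ Finset.range 3, TH G (p^[j + 1] k) = ∑ j ∈ Finset.range 3, al := by
        refine Finset.sum_congr rfl fun j hj => ?_
        obtain ⟨h4, h5⟩ := hT' j (Finset.mem_range.1 hj)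
        exact TH_T51 G hG h4 h5
      rw [h3, Finset.sum_const, Finset.card_range, nsmul_eq_mul]
      push_cast
      ring
    · intro a ha b hb h
      have := Finset.mem_range.1 (Finset.mem_coe.1 ha)
      have := Finset.mem_range.1 (Finset.mem_coe.1 hb)
      have := u3 (a + 1) (b + 1) (by omega) (by omega) h
      omega
  have h3 : ∑ x ∈ S1 ∪ S2, TH G x ≤ ∑ x ∈ Jv G k.1, TH G x := by
    apply Finset.sum_le_sum_of_subset_of_nonneg
    · intro x hx
      rcases Finset.mem_union.1 hx with hx | hx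
      · rw [hS1, Finset.mem_image] at hx
        obtain ⟨a, ha, rfl⟩ := hx
        exact o1 a (by have := Finset.mem_range.1 ha; omega)
      · rw [hS2, Finset.mem_image] at hx
        obtain ⟨a, ha, rfl⟩ := hx
        exact u1 (a + 1) (by have := Finset.mem_range.1 ha; omega)
    · intro x hx _
      exact (TH_pos71 G ((mem_Jv51 G).1 hx).1).le
  rw [Finset.sum_union hdis, hs1, hs2] at h3
  have := hlow k hk rk
  have := c.al7
  linarith

/-- the inner angles at any point add to at most `2π` -/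
theorem sumTH62 (hG : G.Geo al kp U)
    (hH : ∀ v ∈ G.P, G.bd v → ∑ x ∈ G.Dp.filter (fun x => x.1 = v), G.th x.1 x.2 ≤ Real.pi)
    (v : V) (hv : v ∈ G.P) : ∑ x ∈ Jv G v, TH G x ≤ 2 * Real.pi := by
  have e1 : ∑ x ∈ Jv G v, TH G x = ∑ y ∈ G.iD.filter (fun y => y.1 = v), G.th y.1 y.2 := by
    unfold Jv
    rw [← Finset.sum_fiberwise_of_maps_to (s := G.iD.filter (fun y => y.1 = v))
      (t := (iJ G).filter (fun x => x.1 = v)) (g := fun y => (y.1, G.og y.1 y.2))]
    · refine Finset.sum_congr rfl fun x hx => ?_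
      rw [Finset.mem_filter] at hx
      unfold TH gp
      rw [Finset.filter_filter]
      refine Finset.sum_congr (Finset.filter_congr fun y _ => ?_) fun _ _ => rfl
      constructor
      · rintro ⟨h1, h2⟩
        exact ⟨h1.trans hx.2, Prod.ext h1 (by rw [h1]; exact h2)⟩
      · rintro ⟨_, h⟩
        have h1 : y.1 = x.1 := by rw [← h]
        have h2 : G.og y.1 y.2 = x.2 := by rw [← h]
        exact ⟨h1, by rw [← h1]; exact h2⟩
    · rintro ⟨u, a⟩ hy
      rw [Finset.mem_filter, mem_iD27] at hy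
      obtain ⟨h1, h2, _⟩ := og71 G hG hy.1
      rw [Finset.mem_filter]
      exact ⟨(mem_iJ71 G).2 ⟨h2, h1⟩, hy.2⟩
  have e2 : ∑ y ∈ G.iD.filter (fun y => y.1 = v), G.th y.1 y.2 ≤
      ∑ y ∈ G.Dp.filter (fun y => y.1 = v), G.th y.1 y.2 := by
    apply Finset.sum_le_sum_of_subset_of_nonneg
    · intro y hy
      rw [Finset.mem_filter, mem_iD27] at hy
      rw [Finset.mem_filter]
      exact ⟨hy.1.1, hy.2⟩
    · intro y hy _
      rw [Finset.mem_filter] at hy
      exact (G.thpos _ _ hy.1).le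
  rw [e1]
  refine le_trans e2 ?_
  by_cases hb : G.bd v
  · have := hH v hv hb
    have := Real.pi_pos
    linarith
  · rw [← hG.tot v hv hb]
    apply Finset.sum_le_sum_of_subset_of_nonneg
    · intro y hy
      rw [Finset.mem_filter] at hy ⊢
      exact ⟨G.sub hy.1, hy.2⟩
    · rintro ⟨y1, y2⟩ hy _
      rw [Finset.mem_filter] at hy
      obtain ⟨h2, h3⟩ := hy
      simp only at h3
      subst h3
      exact (G.thpos _ _ (G.int1 _ _ hv hb h2)).le

end D

end

end Pool.Agent.PEN
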