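import Pool.Agent.P4.Tk62e

/-! # PENNY, token rows: the half tokens of a point with two large obtuse corners -/

set_option autoImplicit false

namespace Pool.Agent.PEN

open Classical UpperHalfPlane

noncomputable section

section D
variable {V : Type} (G : Tg V) {al : ℝ} {kp : V → V → ℝ} {U : ℕ → ℝ}
variable {Q : ℝ} {opp : ℝ → ℝ} {g : ℕ → ℝ} {m : ℕ} {s s' p q : V × V → V × V}

/-- the start of the two walks: the contact triangle between the two obtuse corners -/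
def St62 (opp : ℝ → ℝ) (g : ℕ → ℝ) (m : ℕ) (p q : V × V → V × V) (t0 : V × V) : Prop :=
  t0 ∈ iJ G ∧ G.cI (G.cl t0) = ∅ ∧ p t0 ∈ iJ G ∧ RC G (G.cl (p t0)) ∧
    TH G (p t0) = opp (g m) ∧ q t0 ∈ iJ G ∧ RC G (G.cl (q t0)) ∧ TH G (q t0) = opp (g m)

theorem St62.mir {t0 : V × V} (h : St62 G opp g m p q t0) : St62 G opp g m q p t0 := by
  obtain ⟨h1, h2, h3, h4, h5, h6, h7, h8⟩ := h
  exact ⟨h1, h2, h6, h7, h8, h3, h4, h5⟩

theorem St62.a {t0 : V × V} (h : St62 G opp g m p q t0) : A62 G opp g p m t0 := by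
  obtain ⟨h1, h2, h3, h4, h5, _⟩ := h
  exact ⟨h1, h2, h3, h4, h5⟩

/-- the tip at the centre of the walk -/
theorem k0_62 (O : Or62 G opp s s' p q) (c : Ch62 al Q opp g m) {t0 : V × V}
    (h : St62 G opp g m p q t0) :
    s (q t0) ∈ iJ G ∧ RC G (G.cl (s (q t0))) ∧ TH G (s (q t0)) = g m ∧
      q (s (q t0)) = s' t0 ∧ p (s' (s (q t0))) = t0 := by
  obtain ⟨h1, h2, h3, h4, h5, h6, h7, h8⟩ := h
  refine ⟨O.s1 _ h6, ?_, ?_, O.qs _ h1 h6, ?_⟩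
  · rw [O.s1c _ h6]
    exact h7
  · rw [O.o1 _ h6 h7, h8, c.goo le_rfl]
  · rw [O.s12 _ h6]
    exact O.qp _ h1 h6

/-- the walk around `(s' t0).1` fails -/
def Fl62 (m : ℕ) (s' q : V × V → V × V) (t0 : V × V) : Prop :=
  ∀ k, k ≤ m + 1 → q^[k] (s' t0) ∈ iJ G ∧ G.cI (G.cl (q^[k] (s' t0))) = ∅

/-- the token of a walk -/
def TkA (al : ℝ) (F : V × V → Prop) (opp : ℝ → ℝ) (g : ℕ → ℝ) (m : ℕ)
    (s s' p q : V × V → V × V) (t0 : V × V) (k : V × V) (n : ℕ) : Prop :=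
  Cl62 G al F opp g m s s' p q t0 k n ∨
    (Fl62 G m s' q t0 ∧ k = s (q t0) ∧ ((k.1 ∈ inN G ∧ n = 0) ∨ (k.1 ∉ inN G ∧ n = 2)))

theorem tkA_ex62 (hG : G.Geo al kp U) (O : Or62 G opp s s' p q) (c : Ch62 al Q opp g m)
    {F : V × V → Prop} (f : Fc62 G Q opp g m F) {t0 : V × V} (h : St62 G opp g m p q t0) :
    ∃ k n, TkA G al F opp g m s s' p q t0 k n := by
  rcases walk62' G hG O c f h.a with ⟨k, n, h1⟩ | h1
  · exact ⟨k, n, Or.inl h1⟩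
  · by_cases hN : (s (q t0)).1 ∈ inN G
    · exact ⟨_, 0, Or.inr ⟨h1, rfl, Or.inl ⟨hN, rfl⟩⟩⟩
    · exact ⟨_, 2, Or.inr ⟨h1, rfl, Or.inr ⟨hN, rfl⟩⟩⟩

/-- properties of a token -/
theorem tkA_fact62 (hG : G.Geo al kp U) (O : Or62 G opp s s' p q) (c : Ch62 al Q opp g m)
    (hlow : ∀ x ∈ iJ G, RC G (G.cl x) → al ≤ TH G x) (hm : 2 ≤ m)
    {F : V × V → Prop} (f : Fc62 G Q opp g m F) {t0 : V × V} (h : St62 G opp g m p q t0)
    {k : V × V} {n : ℕ} (hk : TkA G al F opp g m s s' p q t0 k n) :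
    k ∈ iJ G ∧ RC G (G.cl k) ∧ (∃ j, j ≤ m ∧ TH G k = g j) ∧ ¬ Tight62 G al F k ∧
    ((n = 0 ∧ p k ∈ iJ G ∧ ¬ RC G (G.cl (p k))) ∨
     (n = 1 ∧ q k ∈ iJ G ∧ RC G (G.cl (q k)) ∧ ¬ F (q k)) ∨ (n = 2 ∧ k.1 ∉ inN G)) := by
  obtain ⟨e1, e2, e3, e4, e5⟩ := k0_62 G O c h
  obtain ⟨h1, h2, h3, h4, h5, h6, h7, h8⟩ := h
  rcases hk with hk | ⟨hk, rfl, hk2⟩
  · obtain ⟨c1, c2, c3, c4, c5⟩ := cl_fact62 G hG O c h1 h6 h7 e3.ge
      (by rw [e3]; exact c.gQ.le) hk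
    refine ⟨c1, c2, c3, c4, ?_⟩
    rcases c5 with ⟨a1, a2, a3⟩ | ⟨a1, a2, a3, j, a4, a5⟩
    · exact Or.inl ⟨a1, a2, fun h => RC_ne51 G h a3⟩
    · refine Or.inr (Or.inl ⟨a1, a2, a3, ?_⟩)
      exact (f.hi _ a2 a3 (by rw [a5]; exact c.bQ a4)).2 ⟨j, a4, a5⟩
  · refine ⟨e1, e2, ⟨m, le_rfl, e3⟩, ?_, ?_⟩
    · rintro ⟨hB, _⟩
      rcases hk2 with ⟨a1, a2⟩ | ⟨a1, a2⟩
      · obtain ⟨b1, b2, b3⟩ := fan62 G hG O c hlow e1 e2 a1
          (by rw [e3]; exact c.mono 0 m (by omega) le_rfl) (by rw [e3]; exact c.gQ.le) (by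
            intro j hj
            rw [Function.iterate_succ_apply, e4]
            exact hk j (by omega))
        rcases hB.2.2 _ ((mem_Jv51 G).2 ⟨b1, O.pf _ e1 b1⟩) with h | h
        · exact b2 h
        · exact b3 h
      · exact a1 hB.1
    · rcases hk2 with ⟨a1, a2⟩ | ⟨a1, a2⟩
      · obtain ⟨b1, b2, b3⟩ := fan62 G hG O c hlow e1 e2 a1
          (by rw [e3]; exact c.mono 0 m (by omega) le_rfl) (by rw [e3]; exact c.gQ.le) (by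
            intro j hj
            rw [Function.iterate_succ_apply, e4]
            exact hk j (by omega))
        exact Or.inl ⟨a2, b1, b3⟩
      · exact Or.inr (Or.inr ⟨a2, a1⟩)

/-- a token determines its walk -/
theorem tkA_uniq62 (hG : G.Geo al kp U) (O : Or62 G opp s s' p q) (c : Ch62 al Q opp g m)
    (hlow : ∀ x ∈ iJ G, RC G (G.cl x) → al ≤ TH G x) (hm : 2 ≤ m)
    {F : V × V → Prop} {t0 t1 : V × V} (h : St62 G opp g m p q t0)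
    (h' : St62 G opp g m p q t1) {k : V × V} {n : ℕ}
    (hk : TkA G al F opp g m s s' p q t0 k n) (hk' : TkA G al F opp g m s s' p q t1 k n) :
    t0 = t1 := by
  have key : ∀ t0 t1 : V × V, St62 G opp g m p q t0 → St62 G opp g m p q t1 →
      Cl62 G al F opp g m s s' p q t0 k n →
      (Fl62 G m s' q t1 ∧ k = s (q t1) ∧ ((k.1 ∈ inN G ∧ n = 0) ∨ (k.1 ∉ inN G ∧ n = 2))) →
      False := by
    intro t0 t1 h h' hk hk'
    obtain ⟨e1, e2, e3, e4, e5⟩ := k0_62 G O c h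
    obtain ⟨f1, f2, f3, f4, f5⟩ := k0_62 G O c h'
    obtain ⟨c1, c2, c3, c4, c5⟩ := cl_fact62 G hG O c h.1 h.2.2.2.2.2.1 h.2.2.2.2.2.2.1 e3.ge
      (by rw [e3]; exact c.gQ.le) hk
    obtain ⟨a1, a2, a3⟩ := hk'
    rcases a3 with ⟨a3, a4⟩ | ⟨a3, a4⟩
    · rcases c5 with ⟨b1, b2, b3⟩ | ⟨b1, b2⟩
      · subst a2
        obtain ⟨d1, d2, d3⟩ := fan62 G hG O c hlow f1 f2 a3
          (by rw [f3]; exact c.mono 0 m (by omega) le_rfl) (by rw [f3]; exact c.gQ.le) (by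
            intro j hj
            rw [Function.iterate_succ_apply, f4]
            exact a1 j (by omega))
        exact d2 b3
      · omega
    · rcases c5 with ⟨b1, b2, b3⟩ | ⟨b1, b2⟩ <;> omega
  rcases hk with hk | hk <;> rcases hk' with hk' | hk'
  · exact cl_uniq62 G O c hk hk'
  · exact absurd (key t0 t1 h h' hk hk') id
  · exact absurd (key t1 t0 h' h hk' hk) id
  · rw [← (k0_62 G O c h).2.2.2.2, ← (k0_62 G O c h').2.2.2.2, ← hk.2.1, ← hk'.2.1]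

/-- the token of the mirrored walk -/
def TkB (al : ℝ) (F : V × V → Prop) (opp : ℝ → ℝ) (g : ℕ → ℝ) (m : ℕ)
    (s s' p q : V × V → V × V) (t0 : V × V) (k : V × V) (n : ℕ) : Prop :=
  (n ≤ 1 ∧ TkA G al F opp g m s' s q p t0 k (1 - n)) ∨
  (n = 2 ∧ TkA G al F opp g m s' s q p t0 k 2)

theorem tkB_ex62 (hG : G.Geo al kp U) (O : Or62 G opp s s' p q) (c : Ch62 al Q opp g m)
    {F : V × V → Prop} (f : Fc62 G Q opp g m F) {t0 : V × V} (h : St62 G opp g m p q t0) :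
    ∃ k n, TkB G al F opp g m s s' p q t0 k n := by
  obtain ⟨k, n, h1⟩ := tkA_ex62 G hG O.mirror c f h.mir
  have hn : n = 0 ∨ n = 1 ∨ n = 2 := by
    rcases h1 with ⟨i, τ, _, ⟨_, h, _⟩ | ⟨l, _, _, _, _, _, h⟩ | ⟨l, _, _, _, _, _, h⟩⟩ |
      ⟨_, _, ⟨_, h⟩ | ⟨_, h⟩⟩ <;> omega
  rcases hn with rfl | rfl | rfl
  · exact ⟨k, 1, Or.inl ⟨le_rfl, h1⟩⟩
  · exact ⟨k, 0, Or.inl ⟨Nat.zero_le _, h1⟩⟩
  · exact ⟨k, 2, Or.inr ⟨rfl, h1⟩⟩

theorem tkB_fact62 (hG : G.Geo al kp U) (O : Or62 G opp s s' p q) (c : Ch62 al Q opp g m)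
    (hlow : ∀ x ∈ iJ G, RC G (G.cl x) → al ≤ TH G x) (hm : 2 ≤ m)
    {F : V × V → Prop} (f : Fc62 G Q opp g m F) {t0 : V × V} (h : St62 G opp g m p q t0)
    {k : V × V} {n : ℕ} (hk : TkB G al F opp g m s s' p q t0 k n) :
    k ∈ iJ G ∧ RC G (G.cl k) ∧ (∃ j, j ≤ m ∧ TH G k = g j) ∧ ¬ Tight62 G al F k ∧
    ((n = 1 ∧ q k ∈ iJ G ∧ ¬ RC G (G.cl (q k))) ∨
     (n = 0 ∧ p k ∈ iJ G ∧ RC G (G.cl (p k)) ∧ ¬ F (p k)) ∨ (n = 2 ∧ k.1 ∉ inN G)) := by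
  rcases hk with ⟨hn, hk⟩ | ⟨hn, hk⟩
  · obtain ⟨c1, c2, c3, c4, c5⟩ := tkA_fact62 G hG O.mirror c hlow hm f h.mir hk
    refine ⟨c1, c2, c3, c4, ?_⟩
    rcases c5 with ⟨a1, a2⟩ | ⟨a1, a2⟩ | ⟨a1, a2⟩
    · exact Or.inl ⟨by omega, a2⟩
    · exact Or.inr (Or.inl ⟨by omega, a2⟩)
    · omega
  · obtain ⟨c1, c2, c3, c4, c5⟩ := tkA_fact62 G hG O.mirror c hlow hm f h.mir hk
    refine ⟨c1, c2, c3, c4, ?_⟩
    rcases c5 with ⟨a1, a2⟩ | ⟨a1, a2⟩ | ⟨a1, a2⟩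
    · omega
    · omega
    · exact Or.inr (Or.inr ⟨hn, a2⟩)

theorem tkB_uniq62 (hG : G.Geo al kp U) (O : Or62 G opp s s' p q) (c : Ch62 al Q opp g m)
    (hlow : ∀ x ∈ iJ G, RC G (G.cl x) → al ≤ TH G x) (hm : 2 ≤ m)
    {F : V × V → Prop} {t0 t1 : V × V} (h : St62 G opp g m p q t0)
    (h' : St62 G opp g m p q t1) {k : V × V} {n : ℕ}
    (hk : TkB G al F opp g m s s' p q t0 k n) (hk' : TkB G al F opp g m s s' p q t1 k n) :
    t0 = t1 := by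
  rcases hk with ⟨hn, hk⟩ | ⟨hn, hk⟩ <;> rcases hk' with ⟨hn', hk'⟩ | ⟨hn', hk'⟩
  · exact tkA_uniq62 G hG O.mirror c hlow hm h.mir h'.mir hk hk'
  · omega
  · omega
  · exact tkA_uniq62 G hG O.mirror c hlow hm h.mir h'.mir hk hk'

/-- the tokens of the two walks are different -/
theorem tkAB62 (hG : G.Geo al kp U) (O : Or62 G opp s s' p q) (c : Ch62 al Q opp g m)
    (hlow : ∀ x ∈ iJ G, RC G (G.cl x) → al ≤ TH G x) (hm : 2 ≤ m)
    (hsum : ∀ v ∈ G.P, ∑ x ∈ Jv G v, TH G x ≤ 2 * Real.pi)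
    {F : V × V → Prop} (f : Fc62 G Q opp g m F) {t0 t1 : V × V}
    (h : St62 G opp g m p q t0) (h' : St62 G opp g m p q t1) {k : V × V} {n : ℕ}
    (hk : TkA G al F opp g m s s' p q t0 k n) (hk' : TkB G al F opp g m s s' p q t1 k n) :
    False := by
  obtain ⟨c1, c2, c3, c4, c5⟩ := tkA_fact62 G hG O c hlow hm f h hk
  obtain ⟨d1, d2, d3, d4, d5⟩ := tkB_fact62 G hG O c hlow hm f h' hk'
  rcases c5 with ⟨a1, a2, a3⟩ | ⟨a1, a2, a3, a4⟩ | ⟨a1, a2⟩ <;>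
    rcases d5 with ⟨b1, b2, b3⟩ | ⟨b1, b2, b3, b4⟩ | ⟨b1, b2⟩
  · omega
  · exact a3 b3
  · omega
  · exact b3 a3
  · omega
  · omega
  · omega
  · omega
  · -- both walks fail around the same tip
    subst a1
    have hkP : k.1 ∈ G.P := by
      rw [mem_iJ71] at c1
      exact G.mem _ _ (G.sub c1.1.1)
    obtain ⟨e1, e2, e3, e4, e5⟩ := k0_62 G O c h
    obtain ⟨f1, f2, f3, f4, f5⟩ := k0_62 G O.mirror c h'.mir
    have hA : Fl62 G m s' q t0 ∧ k = s (q t0) := by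
      rcases hk with ⟨i, τ, _, ⟨_, h, _⟩ | ⟨l, _, _, _, _, _, h⟩ | ⟨l, _, _, _, _, _, h⟩⟩ | h
      · omega
      · omega
      · omega
      · exact ⟨h.1, h.2.1⟩
    have hB : Fl62 G m s p t1 ∧ k = s' (p t1) := by
      rcases hk' with ⟨hn, _⟩ | ⟨_, hk'⟩
      · omega
      · rcases hk' with ⟨i, τ, _, ⟨_, h, _⟩ | ⟨l, _, _, _, _, _, h⟩ | ⟨l, _, _, _, _, _, h⟩⟩ | h
        · omega
        · omega
        · omega
        · exact ⟨h.1, h.2.1⟩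
    refine dbl62 G hG O c hlow c1 c2 a2 (hsum _ hkP) ?_ ?_
    · intro j hj
      rw [Function.iterate_succ_apply, hA.2, e4]
      exact hA.1 j (by omega)
    · intro j hj
      rw [Function.iterate_succ_apply, hB.2, f4]
      exact hB.1 j (by omega)

/-- **the two tokens** of every point with two large obtuse corners, `2 ≤ m` -/
theorem tokens62 (hG : G.Geo al kp U) (O : Or62 G opp s s' p q) (c : Ch62 al Q opp g m)
    (hlow : ∀ x ∈ iJ G, RC G (G.cl x) → al ≤ TH G x) (hm : 2 ≤ m)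
    (hsum : ∀ v ∈ G.P, ∑ x ∈ Jv G v, TH G x ≤ 2 * Real.pi)
    {F : V × V → Prop} (f : Fc62 G Q opp g m F) (KP : V → Prop)
    (hK : ∀ v, KP v → ∃ t0, t0.1 = v ∧ St62 G opp g m p q t0) :
    ∃ a b : V → (V × V) × ℕ, (∀ v, KP v → a v ≠ b v) ∧
      (∀ v, KP v → ∀ t, t = a v ∨ t = b v →
        t.1 ∈ iJ G ∧ RC G (G.cl t.1) ∧ (∃ j, j ≤ m ∧ TH G t.1 = g j) ∧ ¬ Tight62 G al F t.1 ∧
        t.2 ≤ 2 ∧ (t.2 = 2 → t.1.1 ∉ inN G) ∧
        (t.2 = 0 → RC G (G.cl (p t.1)) → ¬ F (p t.1)) ∧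
        (t.2 = 1 → RC G (G.cl (q t.1)) → ¬ F (q t.1))) ∧
      (∀ v w, KP v → KP w → ∀ t, (t = a v ∨ t = b v) → (t = a w ∨ t = b w) → v = w) := by
  have h1 : ∀ v, ∃ x : (V × V) × ((V × V) × ℕ), KP v →
      x.1.1 = v ∧ St62 G opp g m p q x.1 ∧ TkA G al F opp g m s s' p q x.1 x.2.1 x.2.2 := by
    intro v
    by_cases hv : KP v
    · obtain ⟨t0, e1, e2⟩ := hK v hv
      obtain ⟨k, n, e3⟩ := tkA_ex62 G hG O c f e2
      exact ⟨(t0, (k, n)), fun _ => ⟨e1, e2, e3⟩⟩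
    · exact ⟨((v, v), ((v, v), 0)), fun h => absurd h hv⟩
  have h2 : ∀ v, ∃ x : (V × V) × ((V × V) × ℕ), KP v →
      x.1.1 = v ∧ St62 G opp g m p q x.1 ∧ TkB G al F opp g m s s' p q x.1 x.2.1 x.2.2 := by
    intro v
    by_cases hv : KP v
    · obtain ⟨t0, e1, e2⟩ := hK v hv
      obtain ⟨k, n, e3⟩ := tkB_ex62 G hG O c f e2
      exact ⟨(t0, (k, n)), fun _ => ⟨e1, e2, e3⟩⟩
    · exact ⟨((v, v), ((v, v), 0)), fun h => absurd h hv⟩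
  choose A hA using h1
  choose B hB using h2
  refine ⟨fun v => (A v).2, fun v => (B v).2, ?_, ?_, ?_⟩
  · intro v hv h
    obtain ⟨a1, a2, a3⟩ := hA v hv
    obtain ⟨b1, b2, b3⟩ := hB v hv
    dsimp only at h
    rw [← h] at b3
    exact tkAB62 G hG O c hlow hm hsum f a2 b2 a3 b3
  · intro v hv t ht
    rcases ht with h | h <;> dsimp only at h
    · obtain ⟨a1, a2, a3⟩ := hA v hv
      rw [← h] at a3
      obtain ⟨c1, c2, c3, c4, c5⟩ := tkA_fact62 G hG O c hlow hm f a2 a3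
      refine ⟨c1, c2, c3, c4, ?_⟩
      rcases c5 with ⟨d1, d2, d3⟩ | ⟨d1, d2, d3, d4⟩ | ⟨d1, d2⟩
      · exact ⟨by omega, fun h' => by omega, fun _ h' => absurd h' d3, fun h' => by omega⟩
      · exact ⟨by omega, fun h' => by omega, fun h' => by omega, fun _ _ => d4⟩
      · exact ⟨by omega, fun _ => d2, fun h' => by omega, fun h' => by omega⟩
    · obtain ⟨a1, a2, a3⟩ := hB v hv
      rw [← h] at a3
      obtain ⟨c1, c2, c3, c4, c5⟩ := tkB_fact62 G hG O c hlow hm f a2 a3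
      refine ⟨c1, c2, c3, c4, ?_⟩
      rcases c5 with ⟨d1, d2, d3⟩ | ⟨d1, d2, d3, d4⟩ | ⟨d1, d2⟩
      · exact ⟨by omega, fun h' => by omega, fun h' => by omega, fun _ h' => absurd h' d3⟩
      · exact ⟨by omega, fun h' => by omega, fun _ _ => d4, fun h' => by omega⟩
      · exact ⟨by omega, fun _ => d2, fun h' => by omega, fun h' => by omega⟩
  · intro v w hv hw t ht ht'
    obtain ⟨a1, a2, a3⟩ := hA v hv
    obtain ⟨b1, b2, b3⟩ := hB v hv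
    obtain ⟨c1, c2, c3⟩ := hA w hw
    obtain ⟨d1, d2, d3⟩ := hB w hw
    rcases ht with h | h <;> rcases ht' with h' | h' <;> dsimp only at h h'
    · rw [← h] at a3
      rw [← h'] at c3
      rw [← a1, ← c1, tkA_uniq62 G hG O c hlow hm a2 c2 a3 c3]
    · rw [← h] at a3
      rw [← h'] at d3
      exact absurd (tkAB62 G hG O c hlow hm hsum f a2 d2 a3 d3) id
    · rw [← h] at b3
      rw [← h'] at c3
      exact absurd (tkAB62 G hG O c hlow hm hsum f c2 b2 c3 b3) id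
    · rw [← h] at b3
      rw [← h'] at d3
      rw [← b1, ← d1, tkB_uniq62 G hG O c hlow hm b2 d2 b3 d3]

end D

end

end Pool.Agent.PEN
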