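import Pool.Agent.P4.Tk62f

/-! # PENNY, token rows: one half token, chains of length two -/

set_option autoImplicit false

namespace Pool.Agent.PEN

open Classical UpperHalfPlane

noncomputable section

section D
variable {V : Type} (G : Tg V) {al : ℝ} {kp : V → V → ℝ} {U : ℕ → ℝ}
variable {Q : ℝ} {opp : ℝ → ℝ} {g : ℕ → ℝ} {s s' p q : V × V → V × V}

/-- a tight tip followed by three contact triangles -/
theorem tfan62 (hG : G.Geo al kp U) (O : Or62 G opp s s' p q) (c : Ch62 al Q opp g 1)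
    {F : V × V → Prop} (f : Fc62 G Q opp g 1 F) {k : V × V} (hk : k ∈ iJ G)
    (rk : RC G (G.cl k)) (ht : TH G k = g 1) (hT : Tight62 G al F k)
    (hq : ∀ j, j < 3 → q^[j + 1] k ∈ iJ G ∧ G.cI (G.cl (q^[j + 1] k)) = ∅) :
    p k ∈ iJ G ∧ RC G (G.cl (p k)) ∧ TH G (p k) = opp (g 0) := by
  obtain ⟨o1, o2, o3⟩ := orb62 G O hk rk hq
  obtain ⟨hB, hF⟩ := hT
  have hN := hB.1
  have hpk := (O.N k hk hN).1
  have hpJ : p k ∈ Jv G k.1 := (mem_Jv51 G).2 ⟨hpk, O.pf _ hk hpk⟩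
  have hqp := O.pq _ hk hpk
  have hkJ : k ∈ Jv G k.1 := (mem_Jv51 G).2 ⟨hk, rfl⟩
  have hnRT : ∀ x : V × V, G.cI (G.cl x) = ∅ → ¬ RC G (G.cl x) := fun x h1 h2 => RC_ne51 G h2 h1
  rcases c0_62 G hG c f hB hkJ rk le_rfl ht hF with ⟨h0, _⟩ | ⟨i, hi, y, hy, hyk, ry, hyt, h3, hall⟩
  · omega
  have hi0 : i = 0 := by omega
  subst hi0
  have hyJ := (mem_Jv51 G).1 hy
  have hpy : p k = y := by
    by_contra hne
    by_cases hpk' : p k = k
    · have h4 : ∀ x ∈ ({k} : Finset (V × V)), x ∈ iJ G ∧ x.1 = k.1 ∧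
          p x ∈ ({k} : Finset (V × V)) := by
        intro x hx
        rw [Finset.mem_singleton] at hx
        subst hx
        exact ⟨hk, rfl, by rw [hpk']; exact Finset.mem_singleton_self _⟩
      have h5 := (O.cyc k.1 {k} ⟨k, Finset.mem_singleton_self _⟩ h4).2 y hyJ.1 hyJ.2
      exact hyk (Finset.mem_singleton.1 h5)
    · have hTp := hall _ hpJ hpk' hne
      obtain ⟨S, hS⟩ : ∃ S, S = (Finset.range 3).image (fun j => q^[j + 1] k) := ⟨_, rfl⟩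
      obtain ⟨JT, hJT⟩ : ∃ JT, JT = (Jv G k.1).filter (fun x => ¬ RC G (G.cl x)) := ⟨_, rfl⟩
      rw [← hJT] at h3
      have hSc : S.card = 3 := by
        rw [hS, Finset.card_image_of_injOn, Finset.card_range]
        intro a ha b hb h
        have := Finset.mem_range.1 (Finset.mem_coe.1 ha)
        have := Finset.mem_range.1 (Finset.mem_coe.1 hb)
        have := o3 (a + 1) (b + 1) (by omega) (by omega) h
        omega
      have hsub : S ⊆ JT := by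
        intro x hx
        rw [hS, Finset.mem_image] at hx
        obtain ⟨a, ha, rfl⟩ := hx
        have ha' := Finset.mem_range.1 ha
        rw [hJT, Finset.mem_filter]
        exact ⟨o1 (a + 1) (by omega), hnRT _ (hq a ha').2⟩
      have heq := Finset.eq_of_subset_of_card_le hsub (by omega)
      have hpT : p k ∈ S := by
        rw [heq, hJT, Finset.mem_filter]
        exact ⟨hpJ, hnRT _ hTp⟩
      rw [hS, Finset.mem_image] at hpT
      obtain ⟨a, ha, hak⟩ := hpT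
      have ha' := Finset.mem_range.1 ha
      rcases Nat.lt_or_ge a 2 with hlt | hge
      · have h5 : q^[a + 1 + 1] k = k := by
          rw [Function.iterate_succ_apply', hak, hqp]
        have h6 := (hq (a + 1) (by omega)).2
        rw [h5] at h6
        exact hnRT _ h6 rk
      · have ha2 : a = 2 := by omega
        subst ha2
        obtain ⟨S', hS'⟩ : ∃ S', S' = (Finset.range 4).image (fun j => q^[j] k) := ⟨_, rfl⟩
        have hmS : ∀ x, x ∈ S' ↔ ∃ j, j ≤ 3 ∧ q^[j] k = x := by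
          intro x
          rw [hS', Finset.mem_image]
          constructor
          · rintro ⟨j, hj, h⟩
            exact ⟨j, by have := Finset.mem_range.1 hj; omega, h⟩
          · rintro ⟨j, hj, h⟩
            exact ⟨j, Finset.mem_range.2 (by omega), h⟩
        have hcl : ∀ x ∈ S', x ∈ iJ G ∧ x.1 = k.1 ∧ p x ∈ S' := by
          intro x hx
          obtain ⟨i, hi, rfl⟩ := (hmS x).1 hx
          have hx' := (mem_Jv51 G).1 (o1 i hi)
          refine ⟨hx'.1, hx'.2, ?_⟩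
          rcases i with _ | i
          · exact (hmS _).2 ⟨3, le_rfl, hak⟩
          · rw [o2 i (by omega)]
            exact (hmS _).2 ⟨i, by omega, rfl⟩
        have h5 := (O.cyc k.1 S' ⟨k, (hmS k).2 ⟨0, by omega, rfl⟩⟩ hcl).2 y hyJ.1 hyJ.2
        obtain ⟨j, hj, h6⟩ := (hmS y).1 h5
        rcases j with _ | j
        · exact hyk h6.symm
        · have h7 := (hq j (by omega)).2
          rw [h6] at h7
          exact hnRT _ h7 ry
  rw [hpy]
  exact ⟨hyJ.1, ry, hyt⟩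

/-- the token of a point with two large obtuse corners, `m = 1` -/
def TkC (al : ℝ) (F : V × V → Prop) (opp : ℝ → ℝ) (g : ℕ → ℝ)
    (s s' p q : V × V → V × V) (t0 : V × V) (k : V × V) (n : ℕ) : Prop :=
  Cl62 G al F opp g 1 s s' p q t0 k n ∨
    (Fl62 G 1 s' q t0 ∧ ¬ Tight62 G al F (s (q t0)) ∧ k = s (q t0) ∧ n = 1) ∨
    (Fl62 G 1 s' q t0 ∧ Tight62 G al F (s (q t0)) ∧ k = s' (p (s (q t0))) ∧ n = 0)

theorem tkC_ex62 (hG : G.Geo al kp U) (O : Or62 G opp s s' p q) (c : Ch62 al Q opp g 1)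
    {F : V × V → Prop} (f : Fc62 G Q opp g 1 F) {t0 : V × V} (h : St62 G opp g 1 p q t0) :
    ∃ k n, TkC G al F opp g s s' p q t0 k n := by
  rcases walk62' G hG O c f h.a with ⟨k, n, h1⟩ | h1
  · exact ⟨k, n, Or.inl h1⟩
  · by_cases hT : Tight62 G al F (s (q t0))
    · exact ⟨_, 0, Or.inr (Or.inr ⟨h1, hT, rfl, rfl⟩)⟩
    · exact ⟨_, 1, Or.inr (Or.inl ⟨h1, hT, rfl, rfl⟩)⟩

/-- the second kind of token at a failing walk -/
theorem tkC_t62 (hG : G.Geo al kp U) (O : Or62 G opp s s' p q) (c : Ch62 al Q opp g 1)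
    {F : V × V → Prop} (f : Fc62 G Q opp g 1 F) {t0 : V × V} (h : St62 G opp g 1 p q t0)
    (h1 : Fl62 G 1 s' q t0) (h2 : Tight62 G al F (s (q t0))) :
    s' (p (s (q t0))) ∈ iJ G ∧ RC G (G.cl (s' (p (s (q t0))))) ∧
      TH G (s' (p (s (q t0)))) = g 0 ∧ p (s' (p (s (q t0)))) = s (s (q t0)) ∧
      s (s (q t0)) ∈ iJ G ∧ RC G (G.cl (s (s (q t0)))) ∧ TH G (s (s (q t0))) = opp (g 1) ∧
      s' (p (s' (p (s (q t0))))) = s (q t0) ∧ ¬ Tight62 G al F (s' (p (s (q t0)))) := by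
  obtain ⟨e1, e2, e3, e4, e5⟩ := k0_62 G O c h
  obtain ⟨b1, b2, b3⟩ := tfan62 G hG O c f e1 e2 e3 h2 (by
    intro j hj
    rw [Function.iterate_succ_apply, e4]
    exact h1 j (by omega))
  obtain ⟨k, hk⟩ : ∃ k, k = s (q t0) := ⟨_, rfl⟩
  rw [← hk] at e1 e2 e3 b1 b2 b3 ⊢
  have c1 := O.s2 _ b1
  have c2 : RC G (G.cl (s' (p k))) := by
    rw [O.s2c _ b1]
    exact b2
  have c3 : TH G (s' (p k)) = g 0 := by
    rw [O.o2 _ b1 b2, b3, c.goo (by omega)]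
  have c4 := O.ps _ e1 b1
  have c5 := O.s1 _ e1
  have c6 : RC G (G.cl (s k)) := by
    rw [O.s1c _ e1]
    exact e2
  have c7 : TH G (s k) = opp (g 1) := by
    rw [O.o1 _ e1 e2, e3]
  refine ⟨c1, c2, c3, c4, c5, c6, c7, by rw [c4]; exact O.s12 _ e1, ?_⟩
  rintro ⟨hB, _⟩
  refine c2_62 G hG c hB ((mem_Jv51 G).2 ⟨c1, rfl⟩) (y := s k) ((mem_Jv51 G).2 ⟨c5, ?_⟩) ?_
    c2 c6 (j := 0) (by omega) c3 c7
  · rw [← c4]
    exact O.pf _ c1 (by rw [c4]; exact c5)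
  · intro hh
    rw [hh, c7] at c3
    have := c.gm (j := 0) (by omega)
    have := c.bQ (j := 1) (by omega)
    linarith

theorem tkC_fact62 (hG : G.Geo al kp U) (O : Or62 G opp s s' p q) (c : Ch62 al Q opp g 1)
    {F : V × V → Prop} (f : Fc62 G Q opp g 1 F) {t0 : V × V} (h : St62 G opp g 1 p q t0)
    {k : V × V} {n : ℕ} (hk : TkC G al F opp g s s' p q t0 k n) :
    k ∈ iJ G ∧ RC G (G.cl k) ∧ (∃ j, j ≤ 1 ∧ TH G k = g j) ∧ ¬ Tight62 G al F k ∧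
    n ≤ 1 ∧ (n = 0 → RC G (G.cl (p k)) → ¬ F (p k)) ∧
        (n = 1 → RC G (G.cl (q k)) → ¬ F (q k)) := by
  obtain ⟨e1, e2, e3, e4, e5⟩ := k0_62 G O c h
  rcases hk with hk | ⟨h1, h2, rfl, rfl⟩ | ⟨h1, h2, rfl, rfl⟩
  · obtain ⟨c1, c2, c3, c4, c5⟩ := cl_fact62 G hG O c h.1 h.2.2.2.2.2.1 h.2.2.2.2.2.2.1 e3.ge
      (by rw [e3]; exact c.gQ.le) hk
    refine ⟨c1, c2, c3, c4, ?_⟩
    rcases c5 with ⟨a1, a2, a3⟩ | ⟨a1, a2, a3, j, a4, a5⟩
    · exact ⟨by omega, fun _ h => absurd a3 (RC_ne51 G h), fun h' => by omega⟩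
    · refine ⟨by omega, fun h' => by omega, fun _ _ => ?_⟩
      exact (f.hi _ a2 a3 (by rw [a5]; exact c.bQ a4)).2 ⟨j, a4, a5⟩
  · refine ⟨e1, e2, ⟨1, le_rfl, e3⟩, h2, le_rfl, fun h' => by omega, fun _ h' => ?_⟩
    rw [e4, O.s2c _ h.1] at h'
    exact absurd h.2.1 (RC_ne51 G h')
  · obtain ⟨c1, c2, c3, c4, c5, c6, c7, c8, c9⟩ := tkC_t62 G hG O c f h h1 h2
    refine ⟨c1, c2, ⟨0, Nat.zero_le _, c3⟩, c9, Nat.zero_le _, fun _ _ => ?_, fun h' => by omega⟩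
    rw [c4]
    exact (f.hi _ c5 c6 (by rw [c7]; exact c.bQ le_rfl)).2 ⟨1, le_rfl, c7⟩

theorem tkC_uniq62 (hG : G.Geo al kp U) (O : Or62 G opp s s' p q) (c : Ch62 al Q opp g 1)
    {F : V × V → Prop} (f : Fc62 G Q opp g 1 F) {t0 t1 : V × V} (h : St62 G opp g 1 p q t0)
    (h' : St62 G opp g 1 p q t1) {k : V × V} {n : ℕ}
    (hk : TkC G al F opp g s s' p q t0 k n) (hk' : TkC G al F opp g s s' p q t1 k n) :
    t0 = t1 := by
  have key : ∀ t0 t1 : V × V, St62 G opp g 1 p q t0 → St62 G opp g 1 p q t1 →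
      Cl62 G al F opp g 1 s s' p q t0 k n →
      ((Fl62 G 1 s' q t1 ∧ ¬ Tight62 G al F (s (q t1)) ∧ k = s (q t1) ∧ n = 1) ∨
      (Fl62 G 1 s' q t1 ∧ Tight62 G al F (s (q t1)) ∧ k = s' (p (s (q t1))) ∧ n = 0)) →
      False := by
    intro t0 t1 h h' hk hk'
    obtain ⟨e1, e2, e3, e4, e5⟩ := k0_62 G O c h
    obtain ⟨f1, f2, f3, f4, f5⟩ := k0_62 G O c h'
    obtain ⟨c1, c2, c3, c4, c5⟩ := cl_fact62 G hG O c h.1 h.2.2.2.2.2.1 h.2.2.2.2.2.2.1 e3.ge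
      (by rw [e3]; exact c.gQ.le) hk
    rcases hk' with ⟨a1, a2, a3, a4⟩ | ⟨a1, a2, a3, a4⟩
    · rcases c5 with ⟨b1, b2, b3⟩ | ⟨b1, b2, b3, b4⟩
      · omega
      · rw [a3, f4, O.s2c _ h'.1] at b3
        exact RC_ne51 G b3 h'.2.1
    · rcases c5 with ⟨b1, b2, b3⟩ | ⟨b1, b2, b3, b4⟩
      · obtain ⟨d1, d2, d3, d4, d5, d6, _⟩ := tkC_t62 G hG O c f h' a1 a2
        rw [a3, d4] at b3
        exact RC_ne51 G d6 b3
      · omega
  rcases hk with hk | hk <;> rcases hk' with hk' | hk'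
  · exact cl_uniq62 G O c hk hk'
  · exact absurd (key t0 t1 h h' hk hk') id
  · exact absurd (key t1 t0 h' h hk' hk) id
  · have h0 : s (q t0) = s (q t1) := by
      rcases hk with ⟨a1, a2, a3, a4⟩ | ⟨a1, a2, a3, a4⟩ <;>
        rcases hk' with ⟨b1, b2, b3, b4⟩ | ⟨b1, b2, b3, b4⟩
      · exact a3.symm.trans b3
      · omega
      · omega
      · obtain ⟨_, _, _, _, _, _, _, d8, _⟩ := tkC_t62 G hG O c f h a1 a2
        obtain ⟨_, _, _, _, _, _, _, e8, _⟩ := tkC_t62 G hG O c f h' b1 b2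
        rw [← d8, ← e8, ← a3, ← b3]
    rw [← (k0_62 G O c h).2.2.2.2, ← (k0_62 G O c h').2.2.2.2, h0]

/-- **one token** for every point with two large obtuse corners, `m = 1` -/
theorem token1_62 (hG : G.Geo al kp U) (O : Or62 G opp s s' p q) (c : Ch62 al Q opp g 1)
    {F : V × V → Prop} (f : Fc62 G Q opp g 1 F) (KP : V → Prop)
    (hK : ∀ v, KP v → ∃ t0, t0.1 = v ∧ St62 G opp g 1 p q t0) :
    ∃ a : V → (V × V) × ℕ,
      (∀ v, KP v →
        (a v).1 ∈ iJ G ∧ RC G (G.cl (a v).1) ∧ (∃ j, j ≤ 1 ∧ TH G (a v).1 = g j) ∧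
        ¬ Tight62 G al F (a v).1 ∧ (a v).2 ≤ 1 ∧
        ((a v).2 = 0 → RC G (G.cl (p (a v).1)) → ¬ F (p (a v).1)) ∧
        ((a v).2 = 1 → RC G (G.cl (q (a v).1)) → ¬ F (q (a v).1))) ∧
      (∀ v w, KP v → KP w → a v = a w → v = w) := by
  have h1 : ∀ v, ∃ x : (V × V) × ((V × V) × ℕ), KP v →
      x.1.1 = v ∧ St62 G opp g 1 p q x.1 ∧ TkC G al F opp g s s' p q x.1 x.2.1 x.2.2 := by
    intro v
    by_cases hv : KP v
    · obtain ⟨t0, e1, e2⟩ := hK v hv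
      obtain ⟨k, n, e3⟩ := tkC_ex62 G hG O c f e2
      exact ⟨(t0, (k, n)), fun _ => ⟨e1, e2, e3⟩⟩
    · exact ⟨((v, v), ((v, v), 0)), fun h => absurd h hv⟩
  choose A hA using h1
  refine ⟨fun v => (A v).2, ?_, ?_⟩
  · intro v hv
    obtain ⟨a1, a2, a3⟩ := hA v hv
    exact tkC_fact62 G hG O c f a2 a3
  · intro v w hv hw h
    obtain ⟨a1, a2, a3⟩ := hA v hv
    obtain ⟨c1, c2, c3⟩ := hA w hw
    dsimp only at h
    rw [h] at a3
    rw [← a1, ← c1, tkC_uniq62 G hG O c f a2 c2 a3 c3]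

end D

end

end Pool.Agent.PEN
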