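import Pool.Agent.P4.Tk62g

/-! # PENNY, token rows: chains ending in a square, the claims -/

set_option autoImplicit false

namespace Pool.Agent.PEN

open Classical UpperHalfPlane

noncomputable section

section D
variable {V : Type} (G : Tg V) {al : ℝ} {kp : V → V → ℝ} {U : ℕ → ℝ}
variable {Q : ℝ} {opp : ℝ → ℝ} {g : ℕ → ℝ} {s s' p q : V × V → V × V}

/-- a rhombus corner followed by the three contact triangles of its point: the corner before it is
the other rhombus corner -/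
theorem py62 (O : Or62 G opp s s' p q) {k y : V × V} (hk : k ∈ iJ G)
    (rk : RC G (G.cl k)) (hN : k.1 ∈ inN G) (hy : y ∈ Jv G k.1) (hyk : y ≠ k)
    (ry : RC G (G.cl y))
    (h3 : ((Jv G k.1).filter (fun x => ¬ RC G (G.cl x))).card = 3)
    (hall : ∀ x ∈ Jv G k.1, x ≠ k → x ≠ y → G.cI (G.cl x) = ∅)
    (hq : ∀ j, j < 3 → q^[j + 1] k ∈ iJ G ∧ G.cI (G.cl (q^[j + 1] k)) = ∅) : p k = y := by
  obtain ⟨o1, o2, o3⟩ := orb62 G O hk rk hq
  have hpk := (O.N k hk hN).1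
  have hpJ : p k ∈ Jv G k.1 := (mem_Jv51 G).2 ⟨hpk, O.pf _ hk hpk⟩
  have hqp := O.pq _ hk hpk
  have hkJ : k ∈ Jv G k.1 := (mem_Jv51 G).2 ⟨hk, rfl⟩
  have hnRT : ∀ x : V × V, G.cI (G.cl x) = ∅ → ¬ RC G (G.cl x) := fun x h1 h2 => RC_ne51 G h2 h1
  have hyJ := (mem_Jv51 G).1 hy
  by_contra hne
  by_cases hpk' : p k = k
  · have h4 : ∀ x ∈ ({k} : Finset (V × V)), x ∈ iJ G ∧ x.1 = k.1 ∧
        p x ∈ ({k} : Finset (V × V)) := by
      intro x hx
      rw [Finset.mem_singleton] at hx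
      subst hx
      exact ⟨hk, rfl, by rw [hpk']; exact Finset.mem_singleton_self _⟩
    have h5 := (O.cyc k.1 {k} ⟨k, Finset.mem_singleton_self _⟩ h4).2 y hyJ.1 hyJ.2
    exact hyk (Finset.mem_singleton.1 h5)
  · have hTp := hall _ hpJ hpk' hne
    obtain ⟨S, hS⟩ : ∃ S, S = (Finset.range 3).image (fun j => q^[j + 1] k) := ⟨_, rfl⟩
    obtain ⟨JT, hJT⟩ : ∃ JT, JT = (Jv G k.1).filter (fun x => ¬ RC G (G.cl x)) := ⟨_, rfl⟩
    rw [← hJT] at h3
    have hSc : S.card = 3 := by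
      rw [hS, Finset.card_image_of_injOn, Finset.card_range]
      intro a ha b hb h
      have := Finset.mem_range.1 (Finset.mem_coe.1 ha)
      have := Finset.mem_range.1 (Finset.mem_coe.1 hb)
      have := o3 (a + 1) (b + 1) (by omega) (by omega) h
      omega
    have hsub : S ⊆ JT := by
      intro x hx
      rw [hS, Finset.mem_image] at hx
      obtain ⟨a, ha, rfl⟩ := hx
      have ha' := Finset.mem_range.1 ha
      rw [hJT, Finset.mem_filter]
      exact ⟨o1 (a + 1) (by omega), hnRT _ (hq a ha').2⟩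
    have heq := Finset.eq_of_subset_of_card_le hsub (by omega)
    have hpT : p k ∈ S := by
      rw [heq, hJT, Finset.mem_filter]
      exact ⟨hpJ, hnRT _ hTp⟩
    rw [hS, Finset.mem_image] at hpT
    obtain ⟨a, ha, hak⟩ := hpT
    have ha' := Finset.mem_range.1 ha
    rcases Nat.lt_or_ge a 2 with hlt | hge
    · have h5 : q^[a + 1 + 1] k = k := by
        rw [Function.iterate_succ_apply', hak, hqp]
      have h6 := (hq (a + 1) (by omega)).2
      rw [h5] at h6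
      exact hnRT _ h6 rk
    · have ha2 : a = 2 := by omega
      subst ha2
      obtain ⟨S', hS'⟩ : ∃ S', S' = (Finset.range 4).image (fun j => q^[j] k) := ⟨_, rfl⟩
      have hmS : ∀ x, x ∈ S' ↔ ∃ j, j ≤ 3 ∧ q^[j] k = x := by
        intro x
        rw [hS', Finset.mem_image]
        constructor
        · rintro ⟨j, hj, h⟩
          exact ⟨j, by have := Finset.mem_range.1 hj; omega, h⟩
        · rintro ⟨j, hj, h⟩
          exact ⟨j, Finset.mem_range.2 (by omega), h⟩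
      have hcl : ∀ x ∈ S', x ∈ iJ G ∧ x.1 = k.1 ∧ p x ∈ S' := by
        intro x hx
        obtain ⟨i, hi, rfl⟩ := (hmS x).1 hx
        have hx' := (mem_Jv51 G).1 (o1 i hi)
        refine ⟨hx'.1, hx'.2, ?_⟩
        rcases i with _ | i
        · exact (hmS _).2 ⟨3, le_rfl, hak⟩
        · rw [o2 i (by omega)]
          exact (hmS _).2 ⟨i, by omega, rfl⟩
      have h5 := (O.cyc k.1 S' ⟨k, (hmS k).2 ⟨0, by omega, rfl⟩⟩ hcl).2 y hyJ.1 hyJ.2
      obtain ⟨j, hj, h6⟩ := (hmS y).1 h5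
      rcases j with _ | j
      · exact hyk h6.symm
      · have h7 := (hq j (by omega)).2
        rw [h6] at h7
        exact hnRT _ h7 ry

/-- a seven unit point with a square corner and three contact triangles -/
theorem sq62 (hG : G.Geo al kp U) (c : Ch62 al Q opp g 1)
    (hS : Q + opp (g 1) = 2 * Real.pi - 3 * al) {v : V} (hB : B7 G al v) {k : V × V}
    (hk : k ∈ Jv G v) (rk : RC G (G.cl k)) (ht : TH G k = Q)
    (h3 : 3 ≤ ((Jv G v).filter (fun x => ¬ RC G (G.cl x))).card) :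
    ((Jv G v).filter (fun x => ¬ RC G (G.cl x))).card = 3 ∧
    ∃ y ∈ Jv G v, y ≠ k ∧ RC G (G.cl y) ∧ TH G y = opp (g 1) ∧
      ∀ x ∈ Jv G v, x ≠ k → x ≠ y → G.cI (G.cl x) = ∅ := by
  obtain ⟨h1, h2⟩ := count62 G hG hB
  obtain ⟨JR, hJR⟩ : ∃ JR, JR = (Jv G v).filter (fun x => RC G (G.cl x)) := ⟨_, rfl⟩
  have hmR : ∀ x, x ∈ JR ↔ x ∈ Jv G v ∧ RC G (G.cl x) := by
    intro x
    rw [hJR, Finset.mem_filter]
  rw [← hJR] at h1 h2
  have hkR : k ∈ JR := (hmR k).2 ⟨hk, rk⟩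
  have hpos : 0 < JR.card := Finset.card_pos.2 ⟨k, hkR⟩
  have hcases : JR.card = 1 ∨ JR.card = 2 := by omega
  rcases hcases with h0 | h0
  · exfalso
    obtain ⟨x, hx⟩ := Finset.card_eq_one.1 h0
    have hxk : k = x := by
      rw [hx, Finset.mem_singleton] at hkR
      exact hkR
    have h5 : ((Jv G v).filter (fun x => ¬ RC G (G.cl x))).card = 5 := by omega
    rw [h5, hx, Finset.sum_singleton, ← hxk, ht] at h2
    push_cast at h2
    have := c.g0
    have := c.gm (j := 0) (by omega)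
    linarith
  · have h5 : ((Jv G v).filter (fun x => ¬ RC G (G.cl x))).card = 3 := by omega
    obtain ⟨y, hyR, hy⟩ : ∃ y ∈ JR, y ≠ k := by
      by_contra hno
      push Not at hno
      have : JR ⊆ {k} := fun z hz => Finset.mem_singleton.2 (hno z hz)
      have := Finset.card_le_card this
      rw [Finset.card_singleton] at this
      omega
    have hJe : JR = {k, y} := by
      symm
      apply Finset.eq_of_subset_of_card_le
      · intro z hz
        rw [Finset.mem_insert, Finset.mem_singleton] at hz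
        rcases hz with rfl | rfl
        · exact hkR
        · exact hyR
      · rw [h0, Finset.card_pair hy.symm]
    rw [h5, hJe, Finset.sum_pair hy.symm, ht] at h2
    push_cast at h2
    refine ⟨h5, y, ((hmR y).1 hyR).1, hy, ((hmR y).1 hyR).2, by linarith, ?_⟩
    intro x hx hxk hxy
    refine (hB.2.2 x hx).resolve_right (fun h => ?_)
    have hx' := (hmR x).2 ⟨hx, h⟩
    rw [hJe, Finset.mem_insert, Finset.mem_singleton] at hx'
    rcases hx' with h | h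
    · exact hxk h
    · exact hxy h

/-- the start of the walk of a point with a large obtuse corner and a square corner -/
def Sb62 (opp : ℝ → ℝ) (g : ℕ → ℝ) (Q : ℝ) (p q : V × V → V × V) (t0 : V × V) : Prop :=
  t0 ∈ iJ G ∧ G.cI (G.cl t0) = ∅ ∧ p t0 ∈ iJ G ∧ RC G (G.cl (p t0)) ∧
    TH G (p t0) = opp (g 1) ∧ q t0 ∈ iJ G ∧ RC G (G.cl (q t0)) ∧ TH G (q t0) = Q

/-- the square corner at the centre -/
theorem k0b_62 (O : Or62 G opp s s' p q) (hQ : opp Q = Q) {t0 : V × V}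
    (h : Sb62 G opp g Q p q t0) :
    s (q t0) ∈ iJ G ∧ RC G (G.cl (s (q t0))) ∧ TH G (s (q t0)) = Q ∧
      q (s (q t0)) = s' t0 ∧ p (s' (s (q t0))) = t0 := by
  obtain ⟨h1, h2, h3, h4, h5, h6, h7, h8⟩ := h
  refine ⟨O.s1 _ h6, ?_, ?_, O.qs _ h1 h6, ?_⟩
  · rw [O.s1c _ h6]
    exact h7
  · rw [O.o1 _ h6 h7, h8, hQ]
  · rw [O.s12 _ h6]
    exact O.qp _ h1 h6

/-- the claims in one orientation; `v` is the claiming point -/
def AC62 (al : ℝ) (F : V × V → Prop) (opp : ℝ → ℝ) (g : ℕ → ℝ) (Q : ℝ)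
    (s s' p q : V × V → V × V) (v : V) (k : V × V) (n : ℕ) : Prop :=
  (∃ x ∈ Jv G v, B7 G al v ∧ RC G (G.cl x) ∧ ¬ F x ∧ TH G x ≠ Q ∧ p x ∈ Jv G v ∧
    RC G (G.cl (p x)) ∧ ¬ F (p x) ∧ TH G (p x) ≠ Q ∧ k = s' (p x) ∧ n = 0) ∨
  (∃ x ∈ Jv G v, RC G (G.cl x) ∧ TH G x = Q ∧ p x ∈ Jv G v ∧ RC G (G.cl (p x)) ∧
    TH G (p x) = opp (g 1) ∧ k = s' (p x) ∧ n = 0) ∨
  (∃ t0 ∈ Jv G v, Sb62 G opp g Q p q t0 ∧ (Cl62 G al F opp g 1 s s' p q t0 k n ∨
    (Fl62 G 1 s' q t0 ∧ ¬ B7 G al k.1 ∧ k = s (q t0) ∧ n = 1) ∨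
    (Fl62 G 1 s' q t0 ∧ B7 G al (s (q t0)).1 ∧ k = s (s (q t0)) ∧ n = 1)))

/-- the failing walk around a seven unit point -/
theorem fb62 (hG : G.Geo al kp U) (O : Or62 G opp s s' p q) (c : Ch62 al Q opp g 1)
    (hQ : opp Q = Q) (hS : Q + opp (g 1) = 2 * Real.pi - 3 * al) {t0 : V × V}
    (h : Sb62 G opp g Q p q t0) (h1 : Fl62 G 1 s' q t0) (hB : B7 G al (s (q t0)).1) :
    p (s (q t0)) ∈ iJ G ∧ RC G (G.cl (p (s (q t0)))) ∧ TH G (p (s (q t0))) = opp (g 1) := by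
  obtain ⟨e1, e2, e3, e4, e5⟩ := k0b_62 G O hQ h
  have hq : ∀ j, j < 3 → q^[j + 1] (s (q t0)) ∈ iJ G ∧
      G.cI (G.cl (q^[j + 1] (s (q t0)))) = ∅ := by
    intro j hj
    rw [Function.iterate_succ_apply, e4]
    exact h1 j (by omega)
  obtain ⟨k, hk⟩ : ∃ k, k = s (q t0) := ⟨_, rfl⟩
  rw [← hk] at e1 e2 e3 hq hB ⊢
  obtain ⟨o1, o2, o3⟩ := orb62 G O e1 e2 hq
  have hkJ : k ∈ Jv G k.1 := (mem_Jv51 G).2 ⟨e1, rfl⟩
  have h3 : 3 ≤ ((Jv G k.1).filter (fun x => ¬ RC G (G.cl x))).card := by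
    obtain ⟨S, hS⟩ : ∃ S, S = (Finset.range 3).image (fun j => q^[j + 1] k) := ⟨_, rfl⟩
    have hSc : S.card = 3 := by
      rw [hS, Finset.card_image_of_injOn, Finset.card_range]
      intro a ha b hb h
      have := Finset.mem_range.1 (Finset.mem_coe.1 ha)
      have := Finset.mem_range.1 (Finset.mem_coe.1 hb)
      have := o3 (a + 1) (b + 1) (by omega) (by omega) h
      omega
    rw [← hSc]
    apply Finset.card_le_card
    intro x hx
    rw [hS, Finset.mem_image] at hx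
    obtain ⟨a, ha, rfl⟩ := hx
    have ha' := Finset.mem_range.1 ha
    rw [Finset.mem_filter]
    exact ⟨o1 (a + 1) (by omega), fun h => RC_ne51 G h (hq a ha').2⟩
  obtain ⟨f1, y, f2, f3, f4, f5, f6⟩ := sq62 G hG c hS hB hkJ e2 e3 h3
  have := py62 G O e1 e2 hB.1 f2 f3 f4 f1 f6 hq
  rw [this]
  exact ⟨((mem_Jv51 G).1 f2).1, f4, f5⟩

end D

end

end Pool.Agent.PEN
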