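import Pool.Agent.P4.Tk62h

/-! # PENNY, token rows: chains ending in a square, facts on the claims -/

set_option autoImplicit false

namespace Pool.Agent.PEN

open Classical UpperHalfPlane

noncomputable section

section D
variable {V : Type} (G : Tg V) {al : ℝ} {kp : V → V → ℝ} {U : ℕ → ℝ}
variable {Q : ℝ} {opp : ℝ → ℝ} {g : ℕ → ℝ} {s s' p q : V × V → V × V}

/-- the hypotheses on `F` and the angles of rhombus corners -/
structure Hb62 (al Q : ℝ) (opp : ℝ → ℝ) (s s' : V × V → V × V) (F : V × V → Prop) : Prop where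
  F1 : ∀ x ∈ iJ G, RC G (G.cl x) → (F (s x) ↔ ¬ F x)
  F2 : ∀ x ∈ iJ G, RC G (G.cl x) → (F (s' x) ↔ ¬ F x)
  lo : ∀ x ∈ iJ G, RC G (G.cl x) → al ≤ TH G x
  hi : ∀ x ∈ iJ G, RC G (G.cl x) → TH G x ≤ 2 * al
  oQ : opp Q = Q

theorem Hb62.mirror {F : V × V → Prop} (h : Hb62 G al Q opp s s' F) :
    Hb62 G al Q opp s' s F := ⟨h.F2, h.F1, h.lo, h.hi, h.oQ⟩

/-- a rhombus corner is not its own neighbour -/
theorem pne62 (O : Or62 G opp s s' p q) {v : V} (hB : B7 G al v)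
    {x : V × V} (hx : x ∈ Jv G v) (rx : RC G (G.cl x)) : p x ≠ x := by
  intro h
  obtain ⟨h1, h2⟩ := (mem_Jv51 G).1 hx
  have h4 : ∀ y ∈ ({x} : Finset (V × V)), y ∈ iJ G ∧ y.1 = v ∧
      p y ∈ ({x} : Finset (V × V)) := by
    intro y hy
    rw [Finset.mem_singleton] at hy
    subst hy
    exact ⟨h1, h2, by rw [h]; exact Finset.mem_singleton_self _⟩
  have h5 := (O.cyc v {x} ⟨x, Finset.mem_singleton_self _⟩ h4).2
  have h6 : Jv G v = {x} := by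
    apply Finset.Subset.antisymm
    · intro y hy
      exact h5 y ((mem_Jv51 G).1 hy).1 ((mem_Jv51 G).1 hy).2
    · rw [Finset.singleton_subset_iff]
      exact hx
  have h7 := hB.2.1
  rw [h6, Finset.sum_singleton] at h7
  unfold bw at h7
  rw [if_neg (RC_ne51 G rx), if_pos rx] at h7
  omega

theorem oppQ62 (c : Ch62 al Q opp g 1) (hQ : opp Q = Q) {t : ℝ} (h1 : al ≤ t) (h2 : t ≤ 2 * al)
    (h : opp t = Q) : t = Q := by
  have h3 := c.oo t h1 h2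
  rw [h, hQ] at h3
  exact h3.symm

/-- the other end of a side between two rhombus corners outside `F` -/
theorem zbb62 (hG : G.Geo al kp U) (O : Or62 G opp s s' p q) (c : Ch62 al Q opp g 1)
    (hS : Q + opp (g 1) = 2 * Real.pi - 3 * al) {F : V × V → Prop} (f : Fc62 G Q opp g 1 F)
    {v : V} (hB : B7 G al v) {x : V × V} (hx : x ∈ Jv G v) (rx : RC G (G.cl x)) (nx : ¬ F x)
    (qx : TH G x ≠ Q) (hp : p x ∈ Jv G v) (rp : RC G (G.cl (p x))) (np : ¬ F (p x))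
    (qp : TH G (p x) ≠ Q) : ¬ B7 G al (s' (p x)).1 := by
  intro hB'
  obtain ⟨hx1, hx2⟩ := (mem_Jv51 G).1 hx
  obtain ⟨hp1, hp2⟩ := (mem_Jv51 G).1 hp
  have e1 := O.s2 _ hp1
  have e2 := O.ps _ hx1 hp1
  have e3 := O.s1 _ hx1
  have r1 : RC G (G.cl (s' (p x))) := by
    rw [O.s2c _ hp1]
    exact rp
  have r2 : RC G (G.cl (s x)) := by
    rw [O.s1c _ hx1]
    exact rx
  have t1 := O.o2 _ hp1 rp
  have t2 := O.o1 _ hx1 rx
  have j1 : s' (p x) ∈ Jv G (s' (p x)).1 := (mem_Jv51 G).2 ⟨e1, rfl⟩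
  have j2 : s x ∈ Jv G (s' (p x)).1 := by
    rw [← e2]
    exact (mem_Jv51 G).2 ⟨by rw [e2]; exact e3, O.pf _ e1 (by rw [e2]; exact e3)⟩
  have d1 : p x ≠ x := pne62 G O hB hx rx
  have d2 : s x ≠ s' (p x) := by
    intro h
    exact pne62 G O hB' j1 r1 (by rw [e2]; exact h)
  have w1 := two62 G hG hB hp hx d1 rp rx
  have w2 := two62 G hG hB' j2 j1 d2 r2 r1
  rw [t1, t2] at w2
  have hch : ∀ y ∈ iJ G, RC G (G.cl y) → ¬ F y → TH G y ≠ Q → Q ≤ TH G y →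
      ∃ j, j ≤ 1 ∧ TH G y = opp (g j) := by
    intro y hy ry ny qy h
    exact (f.hi y hy ry (lt_of_le_of_ne h (Ne.symm qy))).1 ny
  rcases lt_or_ge (TH G x) Q with h1 | h1 <;> rcases lt_or_ge (TH G (p x)) Q with h2 | h2
  · exact c1_62 G hG c hB hp hx d1 rp rx h2.le h1.le
  · obtain ⟨j, hj, h3⟩ := hch _ hp1 rp np qp h2
    rw [h3] at w1 w2
    rw [c.goo hj] at w2
    exact c.nz hj (fun h => by linarith) h1.le (by linarith) (by linarith)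
  · obtain ⟨j, hj, h3⟩ := hch _ hx1 rx nx qx h1
    rw [h3] at w1 w2
    rw [c.goo hj] at w2
    exact c.nz hj (fun h => by linarith) h2.le (by linarith) (by linarith)
  · obtain ⟨i, hi, h3⟩ := hch _ hx1 rx nx qx h1
    obtain ⟨j, hj, h4⟩ := hch _ hp1 rp np qp h2
    refine c1_62 G hG c hB' j2 j1 d2 r2 r1 ?_ ?_
    · rw [t2, h3, c.goo hi]
      exact (c.gm hi).le
    · rw [t1, h4, c.goo hj]
      exact (c.gm hj).le

/-- facts on a claim -/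
theorem ac_cases62 (hG : G.Geo al kp U) (O : Or62 G opp s s' p q) (c : Ch62 al Q opp g 1)
    (hS : Q + opp (g 1) = 2 * Real.pi - 3 * al) {F : V × V → Prop} (f : Fc62 G Q opp g 1 F)
    (H : Hb62 G al Q opp s s' F) {v : V} {k : V × V} {n : ℕ}
    (h : AC62 G al F opp g Q s s' p q v k n) :
    k ∈ iJ G ∧ RC G (G.cl k) ∧
    (¬ B7 G al k.1 ∨ ((∃ j, j ≤ 1 ∧ TH G k = g j) ∧ ¬ Tight62 G al F k)) ∧
    ((n = 0 ∧ RC G (G.cl (p k)) ∧ (s' (p k)).1 = v ∧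
      ((TH G (p k) ≠ Q ∧ F (p k) ∧ TH G k ≠ Q) ∨ (TH G (p k) = Q ∧ TH G k = g 1))) ∨
    (n ≤ 1 ∧ (∃ t0, t0.1 = v ∧ Cl62 G al F opp g 1 s s' p q t0 k n) ∧
      (∃ j, j ≤ 1 ∧ TH G k = g j) ∧
      (n = 0 → G.cI (G.cl (p k)) = ∅) ∧
      (n = 1 → RC G (G.cl (q k)) ∧ ¬ F (q k) ∧ TH G (q k) ≠ Q)) ∨
    (n = 1 ∧ G.cI (G.cl (q k)) = ∅ ∧ TH G k = Q ∧ (p (s' k)).1 = v) ∨
    (n = 1 ∧ RC G (G.cl (q k)) ∧ F (q k) ∧ TH G (q k) ≠ Q ∧ TH G k = Q ∧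
      (p (s' (s' k))).1 = v)) := by
  rcases h with ⟨x, hx, hB, rx, nx, qx, hp, rp, np, qp, rfl, rfl⟩ |
    ⟨x, hx, rx, tx, hp, rp, tp, rfl, rfl⟩ | ⟨t0, ht, hb, h⟩
  · obtain ⟨hx1, hx2⟩ := (mem_Jv51 G).1 hx
    obtain ⟨hp1, hp2⟩ := (mem_Jv51 G).1 hp
    have e1 := O.s2 _ hp1
    have e2 := O.ps _ hx1 hp1
    have e3 := O.s1 _ hx1
    have r1 : RC G (G.cl (s' (p x))) := by
      rw [O.s2c _ hp1]
      exact rp
    have r2 : RC G (G.cl (s x)) := by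
      rw [O.s1c _ hx1]
      exact rx
    refine ⟨e1, r1, Or.inl (zbb62 G hG O c hS f hB hx rx nx qx hp rp np qp), Or.inl ⟨rfl, ?_, ?_,
      Or.inl ⟨?_, ?_, ?_⟩⟩⟩
    · rw [e2]
      exact r2
    · rw [e2, O.s12 _ hx1]
      exact hx2
    · rw [e2, O.o1 _ hx1 rx]
      exact fun h => qx (oppQ62 c H.oQ (H.lo _ hx1 rx) (H.hi _ hx1 rx) h)
    · rw [e2]
      exact (H.F1 _ hx1 rx).2 nx
    · rw [O.o2 _ hp1 rp]
      exact fun h => qp (oppQ62 c H.oQ (H.lo _ hp1 rp) (H.hi _ hp1 rp) h)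
  · obtain ⟨hx1, hx2⟩ := (mem_Jv51 G).1 hx
    obtain ⟨hp1, hp2⟩ := (mem_Jv51 G).1 hp
    have e1 := O.s2 _ hp1
    have e2 := O.ps _ hx1 hp1
    have e3 := O.s1 _ hx1
    have r1 : RC G (G.cl (s' (p x))) := by
      rw [O.s2c _ hp1]
      exact rp
    have r2 : RC G (G.cl (s x)) := by
      rw [O.s1c _ hx1]
      exact rx
    have t1 : TH G (s' (p x)) = g 1 := by
      rw [O.o2 _ hp1 rp, tp, c.goo le_rfl]
    have t2 : TH G (s x) = Q := by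
      rw [O.o1 _ hx1 rx, tx, H.oQ]
    refine ⟨e1, r1, Or.inl ?_, Or.inl ⟨rfl, ?_, ?_, Or.inr ⟨?_, t1⟩⟩⟩
    · intro hB'
      have j1 : s' (p x) ∈ Jv G (s' (p x)).1 := (mem_Jv51 G).2 ⟨e1, rfl⟩
      have j2 : s x ∈ Jv G (s' (p x)).1 := by
        rw [← e2]
        exact (mem_Jv51 G).2 ⟨by rw [e2]; exact e3, O.pf _ e1 (by rw [e2]; exact e3)⟩
      refine c1_62 G hG c hB' j1 j2 ?_ r1 r2 (by rw [t1]; exact c.gQ.le) (by rw [t2])
      intro h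
      rw [h, t2] at t1
      have := c.gQ
      linarith
    · rw [e2]
      exact r2
    · rw [e2, O.s12 _ hx1]
      exact hx2
    · rw [e2]
      exact t2
  · obtain ⟨e1, e2, e3, e4, e5⟩ := k0b_62 G O H.oQ hb
    have htv := ((mem_Jv51 G).1 ht).2
    rcases h with h | ⟨h1, h2, rfl, rfl⟩ | ⟨h1, h2, rfl, rfl⟩
    · obtain ⟨c1, c2, c3, c4, c5⟩ := cl_fact62 G hG O c hb.1 hb.2.2.2.2.2.1 hb.2.2.2.2.2.2.1
        (by rw [e3]; exact c.gQ.le) (by rw [e3]) h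
      refine ⟨c1, c2, Or.inr ⟨c3, c4⟩, Or.inr (Or.inl ⟨?_, ⟨t0, htv, h⟩, c3, ?_, ?_⟩)⟩
      · rcases c5 with ⟨a1, _⟩ | ⟨a1, _⟩ <;> omega
      · intro hn
        rcases c5 with ⟨a1, a2, a3⟩ | ⟨a1, _⟩
        · exact a3
        · omega
      · intro hn
        rcases c5 with ⟨a1, _⟩ | ⟨a1, a2, a3, j, a4, a5⟩
        · omega
        · have := c.bQ a4
          refine ⟨a3, (f.hi _ a2 a3 (by rw [a5]; exact this)).2 ⟨j, a4, a5⟩, ?_⟩
          rw [a5]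
          exact this.ne'
    · refine ⟨e1, e2, Or.inl h2, Or.inr (Or.inr (Or.inl ⟨rfl, ?_, e3, ?_⟩))⟩
      · rw [e4, O.s2c _ hb.1]
        exact hb.2.1
      · rw [e5]
        exact htv
    · obtain ⟨b1, b2, b3⟩ := fb62 G hG O c H.oQ hS hb h1 h2
      obtain ⟨k, hk⟩ : ∃ k, k = s (q t0) := ⟨_, rfl⟩
      rw [← hk] at e1 e2 e3 e4 e5 b1 b2 b3 h2 ⊢
      have f1 := O.s1 _ e1
      have f2 : RC G (G.cl (s k)) := by
        rw [O.s1c _ e1]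
        exact e2
      have f3 : TH G (s k) = Q := by
        rw [O.o1 _ e1 e2, e3, H.oQ]
      have g1 := O.s2 _ b1
      have g2 : RC G (G.cl (s' (p k))) := by
        rw [O.s2c _ b1]
        exact b2
      have g3 : TH G (s' (p k)) = g 1 := by
        rw [O.o2 _ b1 b2, b3, c.goo le_rfl]
      have g4 := O.ps _ e1 b1
      have g5 : q (s k) = s' (p k) := by
        rw [← g4]
        exact O.pq _ g1 (by rw [g4]; exact f1)
      have g6 : (s' (p k)).1 = (s k).1 := by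
        rw [← g5]
        exact O.qf _ f1 (by rw [g5]; exact g1)
      refine ⟨f1, f2, Or.inl ?_, Or.inr (Or.inr (Or.inr ⟨rfl, ?_, ?_, ?_, f3, ?_⟩))⟩
      · intro hB'
        refine c1_62 G hG c hB' ((mem_Jv51 G).2 ⟨f1, rfl⟩) ((mem_Jv51 G).2 ⟨g1, g6⟩) ?_ f2 g2
          (by rw [f3]) (by rw [g3]; exact c.gQ.le)
        intro h
        rw [h, g3] at f3
        have := c.gQ
        linarith
      · rw [g5]
        exact g2
      · rw [g5]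
        exact (f.lo _ g1 g2 (by rw [g3]; exact c.gQ)).2 ⟨1, le_rfl, g3⟩
      · rw [g5, g3]
        exact c.gQ.ne
      · rw [O.s12 _ e1, e5]
        exact htv

/-- a claim determines the claiming point -/
theorem ac_uniq62 (hG : G.Geo al kp U) (O : Or62 G opp s s' p q) (c : Ch62 al Q opp g 1)
    (hS : Q + opp (g 1) = 2 * Real.pi - 3 * al) {F : V × V → Prop} (f : Fc62 G Q opp g 1 F)
    (H : Hb62 G al Q opp s s' F) {v w : V} {k : V × V} {n : ℕ}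
    (h : AC62 G al F opp g Q s s' p q v k n) (h' : AC62 G al F opp g Q s s' p q w k n) :
    v = w := by
  obtain ⟨_, _, _, a⟩ := ac_cases62 G hG O c hS f H h
  obtain ⟨_, _, _, b⟩ := ac_cases62 G hG O c hS f H h'
  have hg : ∀ j, j ≤ 1 → g j ≠ Q := fun j hj => (c.gm hj).ne
  rcases a with ⟨a1, a2, a3, a4⟩ | ⟨a1, ⟨t, a2, a3⟩, ⟨j, aj, a4⟩, a5, a6⟩ | ⟨a1, a2, a3, a4⟩ |
    ⟨a1, a2, a3, a4, a5, a6⟩ <;>
    rcases b with ⟨b1, b2, b3, b4⟩ | ⟨b1, ⟨u, b2, b3⟩, ⟨i, bi, b4⟩, b5, b6⟩ | ⟨b1, b2, b3, b4⟩ |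
      ⟨b1, b2, b3, b4, b5, b6⟩
  · exact a3.symm.trans b3
  · exact absurd (b5 a1) (RC_ne51 G a2)
  · omega
  · omega
  · exact absurd (a5 b1) (RC_ne51 G b2)
  · have := cl_uniq62 G O c a3 b3
    rw [← a2, ← b2, this]
  · exact absurd (a4.symm.trans b3) (hg j aj)
  · exact absurd (a4.symm.trans b5) (hg j aj)
  · omega
  · exact absurd (b4.symm.trans a3) (hg i bi)
  · exact a4.symm.trans b4
  · exact absurd a2 (RC_ne51 G b2)
  · omega
  · exact absurd (b4.symm.trans a5) (hg i bi)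
  · exact absurd b2 (RC_ne51 G a2)
  · exact a6.symm.trans b6

/-- claims of the two orientations are different -/
theorem ac_dis62 (hG : G.Geo al kp U) (O : Or62 G opp s s' p q) (c : Ch62 al Q opp g 1)
    (hS : Q + opp (g 1) = 2 * Real.pi - 3 * al) {F : V × V → Prop} (f : Fc62 G Q opp g 1 F)
    (H : Hb62 G al Q opp s s' F) {v w : V} {k : V × V} {n n' : ℕ} (hn : n + n' = 1)
    (h : AC62 G al F opp g Q s s' p q v k n) (h' : AC62 G al F opp g Q s' s q p w k n') :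
    False := by
  obtain ⟨_, _, _, a⟩ := ac_cases62 G hG O c hS f H h
  obtain ⟨_, _, _, b⟩ := ac_cases62 G hG O.mirror c hS f H.mirror h'
  have hg : ∀ j, j ≤ 1 → g j ≠ Q := fun j hj => (c.gm hj).ne
  rcases a with ⟨a1, a2, a3, a4⟩ | ⟨a1, ⟨t, a2, a3⟩, ⟨j, aj, a4⟩, a5, a6⟩ | ⟨a1, a2, a3, a4⟩ |
    ⟨a1, a2, a3, a4, a5, a6⟩ <;>
    rcases b with ⟨b1, b2, b3, b4⟩ | ⟨b1, ⟨u, b2, b3⟩, ⟨i, bi, b4⟩, b5, b6⟩ | ⟨b1, b2, b3, b4⟩ |
      ⟨b1, b2, b3, b4, b5, b6⟩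
  · omega
  · obtain ⟨c1, c2, c3⟩ := b6 (by omega)
    rcases a4 with ⟨a4, a5, _⟩ | ⟨a4, _⟩
    · exact c2 a5
    · exact c3 a4
  · exact RC_ne51 G a2 b2
  · rcases a4 with ⟨_, _, a4⟩ | ⟨a4, _⟩
    · exact a4 b5
    · exact b4 a4
  · obtain ⟨c1, c2, c3⟩ := a6 (by omega)
    rcases b4 with ⟨b4, b5, _⟩ | ⟨b4, _⟩
    · exact c2 b5
    · exact c3 b4
  · have hn0 : n = 0 ∨ n = 1 := by omega
    rcases hn0 with h0 | h0
    · exact RC_ne51 G (b6 (by omega)).1 (a5 h0)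
    · exact RC_ne51 G (a6 h0).1 (b5 (by omega))
  · exact hg j aj (a4.symm.trans b3)
  · exact hg j aj (a4.symm.trans b5)
  · exact RC_ne51 G b2 a2
  · exact hg i bi (b4.symm.trans a3)
  · omega
  · omega
  · rcases b4 with ⟨_, _, b4⟩ | ⟨b4, _⟩
    · exact b4 a5
    · exact a4 b4
  · exact hg i bi (b4.symm.trans a5)
  · omega
  · omega

end D

end

end Pool.Agent.PEN
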