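import Pool.Agent.P4.Tk62j

/-! # PENNY, token rows: the numbers of the chain at `d₅` and `d₇` (type b) -/

set_option autoImplicit false

namespace Pool.Agent.PEN

open Classical UpperHalfPlane

noncomputable section

theorem al3'_62 {d : ℝ} {m : ℕ} (c : Ch62 (alpha d) (qa66 d) (opp51 d) (ch66 d) m) :
    3 * alpha d < Real.pi := by
  have := c.al3
  linarith

/-- the differences of a chain increase -/
theorem diff0_62 {d : ℝ} {m : ℕ} (hd : 0 < d) (c : Ch62 (alpha d) (qa66 d) (opp51 d) (ch66 d) m)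
    (hm : 1 ≤ m) (hb : ∀ j ≤ m, ch66 d j < qa66 d) :
    2 * alpha d + opp51 d (ch66 d 1) < 2 * opp51 d (ch66 d 0) := by
  have hpi := Real.pi_pos
  have hq := qa_lt66 hd
  have e1 : ch66 d (0 + 1) = 2 * Real.pi - 3 * alpha d - opp51 d (ch66 d 0) := rfl
  have e0 : ch66 d 0 = 2 * Real.pi - 5 * alpha d := rfl
  rw [zero_add] at e1
  have h0 : 0 < ch66 d 0 := ch_pos66 (al3'_62 c) 0
  have h1 : qa66 d < opp51 d (ch66 d 1) := opp_gt_qa66 hd (ch_pos66 (al3'_62 c) 1) (hb 1 hm)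
  have h2 := opp_sum_lt62 hd h0 (c.mono 0 1 (by omega) hm)
    (by have := hb 1 hm; linarith) (by have := hb 0 (by omega); linarith)
  linarith

theorem diff1_62 {d : ℝ} {m : ℕ} (hd : 0 < d) (c : Ch62 (alpha d) (qa66 d) (opp51 d) (ch66 d) m)
    (j : ℕ) (hm : j + 2 ≤ m) (hb : ∀ j ≤ m, ch66 d j < qa66 d) :
    opp51 d (ch66 d j) + opp51 d (ch66 d (j + 2)) < 2 * opp51 d (ch66 d (j + 1)) := by
  have hpi := Real.pi_pos
  have hq := qa_lt66 hd
  have e1 : ch66 d (j + 1) = 2 * Real.pi - 3 * alpha d - opp51 d (ch66 d j) := rfl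
  have e2 : ch66 d (j + 2) = 2 * Real.pi - 3 * alpha d - opp51 d (ch66 d (j + 1)) := rfl
  have h0 : 0 < ch66 d (j + 1) := ch_pos66 (al3'_62 c) _
  have h1 : qa66 d < opp51 d (ch66 d (j + 2)) := opp_gt_qa66 hd (ch_pos66 (al3'_62 c) _) (hb _ hm)
  have h2 := opp_sum_lt62 hd h0 (c.mono (j + 1) (j + 2) (by omega) hm)
    (by have := hb (j + 2) hm; linarith) (by have := hb (j + 1) (by omega); linarith)
  linarith

/-- numbers of the square near the end -/
theorem num7_62 {d : ℝ} (hd : 0 < d) (h3 : 3 * alpha d < Real.pi)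
    (hc : Real.cos (alpha d) ≤ 5199 / 10000) :
    6 * Real.pi < 11 * alpha d + 5 * qa66 d := by
  have hC := cosh_gt66 hd
  have hp3 := Real.pi_gt_d2
  have hp4 := Real.pi_lt_d2
  have hpi := Real.pi_pos
  have hq := qa_lt66 hd
  have ha0 : 0 < alpha d := by
    rw [al57_eq hd]
    exact al57_pos hC
  have e1 : Real.cos (alpha d) = Real.cosh d / (Real.cosh d + 1) := cos_alpha hd
  have e2 : Real.cos (qa66 d) = (Real.cosh d - 1) / (Real.cosh d + 1) := by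
    unfold qa66
    rw [Real.cos_two_mul, Real.cos_sq_arctan]
    have h4 : (1 / √(Real.cosh d)) ^ 2 = 1 / Real.cosh d := by
      rw [div_pow, one_pow, Real.sq_sqrt (by linarith)]
    rw [h4]
    field_simp
    ring
  have e3 : Real.cos (qa66 d) = 2 * Real.cos (alpha d) - 1 := by
    rw [e2, e1]
    field_simp
    ring
  have hs3 : (1732 / 1000 : ℝ) ≤ √3 := by
    apply Real.le_sqrt_of_sq_le
    norm_num
  -- `α`
  have k1 : Real.pi / 3 - 1 / 40 < alpha d := by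
    by_contra hcon
    push Not at hcon
    have h1 := Real.cos_le_cos_of_nonneg_of_le_pi ha0.le (by linarith) hcon
    rw [Real.cos_sub, Real.cos_pi_div_three, Real.sin_pi_div_three] at h1
    have h2 := Real.one_sub_sq_div_two_le_cos (x := 1 / 40)
    have h4 := Real.sin_gt_sub_cube (x := 1 / 40) (by norm_num)
    have h5 : (1732 / 1000 : ℝ) / 2 * (1 / 40 - (1 / 40) ^ 3 / 6) ≤ √3 / 2 * Real.sin (1 / 40) :=
      mul_le_mul (by linarith) h4.le (by norm_num) (by positivity)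
    norm_num at h2 h5
    linarith
  have k2 : Real.pi / 2 - 1 / 25 < qa66 d := by
    by_contra hcon
    push Not at hcon
    have h0 : 0 ≤ qa66 d := by
      unfold qa66
      have := Real.arctan_pos.2 (by positivity : 0 < 1 / √(Real.cosh d))
      linarith
    have h1 := Real.cos_le_cos_of_nonneg_of_le_pi h0 (by linarith) hcon
    rw [Real.cos_pi_div_two_sub] at h1
    have h4 := Real.sin_gt_sub_cube (x := 1 / 25) (by norm_num)
    norm_num at h4
    linarith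
  linarith

/-- no accidental sums at `d₅` -/
theorem hN5_62 {d : ℝ} (hd : 0 < d) (c : Ch62 (alpha d) (qa66 d) (opp51 d) (ch66 d) 1)
    (hb : ∀ j ≤ 1, ch66 d j < qa66 d) : ∀ k l, k ≤ 1 → l ≤ 1 →
    opp51 d (ch66 d k) + opp51 d (ch66 d l) ≠ 2 * alpha d + opp51 d (ch66 d 1) := by
  intro k l hk hl h
  have h0 := diff0_62 hd c le_rfl hb
  have b0 := c.b0
  have b1 : opp51 d (ch66 d 1) < opp51 d (ch66 d 0) := by linarith
  interval_cases k <;> interval_cases l <;> linarith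

/-- no accidental sums at `d₇` -/
theorem hN7_62 {d : ℝ} (hd : 0 < d) (c : Ch62 (alpha d) (qa66 d) (opp51 d) (ch66 d) 2)
    (hb : ∀ j ≤ 2, ch66 d j < qa66 d)
    (he : qa66 d + opp51 d (ch66 d 2) = 2 * Real.pi - 3 * alpha d)
    (hc : Real.cos (alpha d) ≤ 5199 / 10000) : ∀ k l, k ≤ 2 → l ≤ 2 →
    opp51 d (ch66 d k) + opp51 d (ch66 d l) ≠ 2 * alpha d + opp51 d (ch66 d 2) := by
  intro k l hk hl h
  have h0 := diff0_62 hd c (by omega) hb
  have h1 := diff1_62 hd c 0 le_rfl hb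
  have b0 := c.b0
  have hn := num7_62 hd (al3'_62 c) hc
  have hpi := Real.pi_pos
  have hq := qa_lt66 hd
  rw [zero_add] at h1
  have e0 : ch66 d 0 = 2 * Real.pi - 5 * alpha d := rfl
  have e1 : ch66 d 1 = 2 * Real.pi - 3 * alpha d - opp51 d (ch66 d 0) := rfl
  have e2 : ch66 d 2 = 2 * Real.pi - 3 * alpha d - opp51 d (ch66 d 1) := rfl
  -- `Q - g₂ < b₂ - Q`
  have h2 : qa66 d + qa66 d < ch66 d 2 + opp51 d (ch66 d 2) := by
    have h5 := opp_sum_lt62 hd (ch_pos66 (al3'_62 c) 2) (hb 2 le_rfl) (by linarith)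
      (by rw [opp_qa66 hd]; exact hb 2 le_rfl)
    rw [opp_qa66 hd] at h5
    exact h5
  interval_cases k <;> interval_cases l <;> linarith

/-- the data of the accounting at `d₅` (`m = 1`) -/
theorem inst5_62 {V : Type} (G : Tg V) {d : ℝ} (hd : 0 < d) (h7 : 2 * Real.pi < 7 * alpha d)
    (h3 : 3 * alpha d < Real.pi) (hb : ∀ j ≤ 1, ch66 d j < qa66 d)
    (he : qa66 d + opp51 d (ch66 d 1) = 2 * Real.pi - 3 * alpha d)
    (hrg : ∀ x ∈ iJ G, RC G (G.cl x) → 0 < TH G x ∧ TH G x < Real.pi) :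
    Ch62 (alpha d) (qa66 d) (opp51 d) (ch66 d) 1 ∧
    Fc62 G (qa66 d) (opp51 d) (ch66 d) 1 (F66 G d) ∧
    opp51 d (qa66 d) = qa66 d ∧ qa66 d ≤ 3 / 2 * alpha d ∧
    (∀ k l, k ≤ 1 → l ≤ 1 →
      opp51 d (ch66 d k) + opp51 d (ch66 d l) ≠ 2 * alpha d + opp51 d (ch66 d 1)) := by
  have c := Ch_of62 hd h7 h3 (by omega) hb
  have h2 : ch66 d (1 + 1) = 2 * Real.pi - 3 * alpha d - opp51 d (ch66 d 1) := rfl
  exact ⟨c, Fc_of62 G h3 hb (by linarith) hd hrg, opp_qa66 hd, Qle62 hd h3, hN5_62 hd c hb⟩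

/-- the data of the accounting at `d₇` (`m = 2`) -/
theorem inst7_62 {V : Type} (G : Tg V) {d : ℝ} (hd : 0 < d) (h7 : 2 * Real.pi < 7 * alpha d)
    (h3 : 3 * alpha d < Real.pi) (hb : ∀ j ≤ 2, ch66 d j < qa66 d)
    (he : qa66 d + opp51 d (ch66 d 2) = 2 * Real.pi - 3 * alpha d)
    (hc : Real.cos (alpha d) ≤ 5199 / 10000)
    (hrg : ∀ x ∈ iJ G, RC G (G.cl x) → 0 < TH G x ∧ TH G x < Real.pi) :
    Ch62 (alpha d) (qa66 d) (opp51 d) (ch66 d) 2 ∧
    Fc62 G (qa66 d) (opp51 d) (ch66 d) 2 (F66 G d) ∧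
    opp51 d (qa66 d) = qa66 d ∧ qa66 d ≤ 3 / 2 * alpha d ∧
    (∀ k l, k ≤ 2 → l ≤ 2 →
      opp51 d (ch66 d k) + opp51 d (ch66 d l) ≠ 2 * alpha d + opp51 d (ch66 d 2)) := by
  have c := Ch_of62 hd h7 h3 le_rfl hb
  have h2 : ch66 d (2 + 1) = 2 * Real.pi - 3 * alpha d - opp51 d (ch66 d 2) := rfl
  exact ⟨c, Fc_of62 G h3 hb (by linarith) hd hrg, opp_qa66 hd, Qle62 hd h3,
    hN7_62 hd c hb he hc⟩

end

end Pool.Agent.PEN
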