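import Pool.Agent.P4.Tk57a
import Pool.Agent.P4.Tk62e

/-! # PENNY, token rows at the chain diameters that end in the square: structure lemmas -/

set_option autoImplicit false

namespace Pool.Agent.PEN

open Classical UpperHalfPlane

noncomputable section

section D
variable {V : Type} (G : Tg V) {al : ℝ} {kp : V → V → ℝ} {U : ℕ → ℝ}
variable {Q : ℝ} {opp : ℝ → ℝ} {g : ℕ → ℝ} {m : ℕ} {s s' p q : V × V → V × V}

/-- the chosen corners: chain tips and the obtuse corners outside the chain -/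
def F89 (Q : ℝ) (opp : ℝ → ℝ) (g : ℕ → ℝ) (m : ℕ) (x : V × V) : Prop :=
  (TH G x < Q ∧ ∃ j, j ≤ m ∧ TH G x = g j) ∨ (Q < TH G x ∧ ¬ ∃ j, j ≤ m ∧ TH G x = opp (g j))

theorem F89_lt {x : V × V} (h : TH G x < Q) :
    F89 G Q opp g m x ↔ ∃ j, j ≤ m ∧ TH G x = g j := by
  unfold F89
  constructor
  · rintro (⟨_, h1⟩ | ⟨h1, _⟩)
    · exact h1
    · exact absurd h (not_lt.2 h1.le)
  · exact fun h1 => Or.inl ⟨h, h1⟩

theorem F89_gt {x : V × V} (h : Q < TH G x) :
    F89 G Q opp g m x ↔ ¬ ∃ j, j ≤ m ∧ TH G x = opp (g j) := by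
  unfold F89
  constructor
  · rintro (⟨h1, _⟩ | ⟨_, h1⟩)
    · exact absurd h (not_lt.2 h1.le)
    · exact h1
  · exact fun h1 => Or.inr ⟨h, h1⟩

theorem F89_ne {x : V × V} (h : F89 G Q opp g m x) : TH G x ≠ Q := by
  rcases h with ⟨h, _⟩ | ⟨h, _⟩
  · exact h.ne
  · exact h.ne'

theorem fc89 : Fc62 G Q opp g m (F89 G Q opp g m) where
  lo := fun _ _ _ h => F89_lt G h
  hi := by
    intro x _ _ h
    rw [F89_gt G h, not_not]

/-- the chain ends in the square -/
structure Sq89 (al Q : ℝ) (opp : ℝ → ℝ) (g : ℕ → ℝ) (m : ℕ) : Prop where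
  hsq : Q + opp (g m) = 2 * Real.pi - 3 * al
  hQQ : opp Q = Q
  hm : 1 ≤ m
  hQ3 : 2 * Q ≤ 3 * al

namespace Sq89
variable {al : ℝ}

theorem lt (S : Sq89 al Q opp g m) (c : Ch62 al Q opp g m) {t : ℝ} (h0 : al ≤ t)
    (h : t < Q) : Q < opp t := by
  have h1 := c.anti t Q h0 h c.Qal.le
  rwa [S.hQQ] at h1

theorem gt (S : Sq89 al Q opp g m) (c : Ch62 al Q opp g m) {t : ℝ} (h0 : t ≤ 2 * al)
    (h : Q < t) : opp t < Q := by
  have h1 := c.anti Q t ((c.glo le_rfl).trans c.gQ.le) h h0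
  rwa [S.hQQ] at h1

end Sq89

/-- alternation -/
theorem alt89 (O : Or62 G opp s s' p q) (c : Ch62 al Q opp g m) (S : Sq89 al Q opp g m)
    (hlow : ∀ x ∈ iJ G, RC G (G.cl x) → al ≤ TH G x ∧ TH G x ≤ 2 * al) {x : V × V}
    (hx : x ∈ iJ G) (rx : RC G (G.cl x)) (h : TH G x ≠ Q) :
    TH G (s x) ≠ Q ∧ (F89 G Q opp g m (s x) ↔ ¬ F89 G Q opp g m x) := by
  obtain ⟨l1, l2⟩ := hlow x hx rx
  have h1 := O.o1 x hx rx
  have hoo : ∀ j, j ≤ m → (opp (TH G x) = opp (g j) ↔ TH G x = g j) := by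
    intro j hj
    constructor
    · intro h2
      rw [← c.oo _ l1 l2, h2, c.goo hj]
    · intro h2
      rw [h2]
  have hoo' : ∀ j, j ≤ m → (opp (TH G x) = g j ↔ TH G x = opp (g j)) := by
    intro j hj
    constructor
    · intro h2
      rw [← c.oo _ l1 l2, h2]
    · intro h2
      rw [h2, c.goo hj]
  rcases lt_or_gt_of_ne h with h2 | h2
  · have h3 : Q < TH G (s x) := by
      rw [h1]
      exact S.lt c l1 h2
    refine ⟨h3.ne', ?_⟩
    rw [F89_gt G h3, F89_lt G h2, h1]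
    constructor
    · rintro h4 ⟨j, hj, h5⟩
      exact h4 ⟨j, hj, (hoo j hj).2 h5⟩
    · rintro h4 ⟨j, hj, h5⟩
      exact h4 ⟨j, hj, (hoo j hj).1 h5⟩
  · have h3 : TH G (s x) < Q := by
      rw [h1]
      exact S.gt c l2 h2
    refine ⟨h3.ne, ?_⟩
    rw [F89_lt G h3, F89_gt G h2, h1, not_not]
    constructor
    · rintro ⟨j, hj, h5⟩
      exact ⟨j, hj, (hoo' j hj).1 h5⟩
    · rintro ⟨j, hj, h5⟩
      exact ⟨j, hj, (hoo' j hj).2 h5⟩

theorem altQ89 (O : Or62 G opp s s' p q) (S : Sq89 al Q opp g m) {x : V × V}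
    (hx : x ∈ iJ G) (rx : RC G (G.cl x)) (h : TH G x = Q) : TH G (s x) = Q := by
  rw [O.o1 x hx rx, h, S.hQQ]

/-- the deficient points without a side between two rhombi -/
theorem Kst89 (hG : G.Geo al kp U) (O : Or62 G opp s s' p q) (c : Ch62 al Q opp g m)
    (S : Sq89 al Q opp g m) {v : V} (hK : KP57 G al (F89 G Q opp g m) p v) :
    ∃ t0 ∈ Jv G v, G.cI (G.cl t0) = ∅ ∧ p t0 ∈ Jv G v ∧ q t0 ∈ Jv G v ∧
      RC G (G.cl (p t0)) ∧ RC G (G.cl (q t0)) ∧
      ((TH G (p t0) = opp (g m) ∧ TH G (q t0) = Q) ∨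
        (TH G (p t0) = Q ∧ TH G (q t0) = opp (g m))) := by
  have f : Fc62 G Q opp g m (F89 G Q opp g m) := fc89 G
  obtain ⟨hB, hF, hno⟩ := hK
  obtain ⟨h1, h2⟩ := count62 G hG hB
  have hTR := hB.2.2
  obtain ⟨JR, hJR⟩ : ∃ JR, JR = (Jv G v).filter (fun x => RC G (G.cl x)) := ⟨_, rfl⟩
  obtain ⟨JT, hJT⟩ : ∃ JT, JT = (Jv G v).filter (fun x => ¬ RC G (G.cl x)) := ⟨_, rfl⟩
  have hmR : ∀ x, x ∈ JR ↔ x ∈ Jv G v ∧ RC G (G.cl x) := by
    intro x
    rw [hJR, Finset.mem_filter]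
  have hmT : ∀ x, x ∈ JT ↔ x ∈ Jv G v ∧ ¬ RC G (G.cl x) := by
    intro x
    rw [hJT, Finset.mem_filter]
  rw [← hJR, ← hJT] at h1 h2
  have hpT : ∀ x ∈ JR, p x ∈ JT := by
    intro x hx
    obtain ⟨h3, h4⟩ := (hmR x).1 hx
    exact (hmT _).2 ⟨(pJ57 G O hB.1 h3).1, hno x h3 h4⟩
  have hqT : ∀ x ∈ JR, q x ∈ JT := by
    intro x hx
    obtain ⟨h3, h4⟩ := (hmR x).1 hx
    have h5 := (pJ57 G O hB.1 h3).2
    refine (hmT _).2 ⟨h5, fun h6 => hno _ h5 h6 ?_⟩
    rw [O.qp _ ((mem_Jv51 G).1 h3).1 ((mem_Jv51 G).1 h5).1]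
    exact h4
  have hqp : ∀ x ∈ Jv G v, q (p x) = x := fun x hx =>
    O.pq _ ((mem_Jv51 G).1 hx).1 ((mem_Jv51 G).1 (pJ57 G O hB.1 hx).1).1
  have hpq : ∀ x ∈ Jv G v, p (q x) = x := fun x hx =>
    O.qp _ ((mem_Jv51 G).1 hx).1 ((mem_Jv51 G).1 (pJ57 G O hB.1 hx).2).1
  have hle : JR.card ≤ JT.card := by
    apply Finset.card_le_card_of_injOn p
    · intro x hx
      exact Finset.mem_coe.2 (hpT x (Finset.mem_coe.1 hx))
    · intro x hx y hy h
      rw [← hqp x ((hmR x).1 (Finset.mem_coe.1 hx)).1, h,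
        hqp y ((hmR y).1 (Finset.mem_coe.1 hy)).1]
  have hcases : JR.card = 0 ∨ JR.card = 1 ∨ JR.card = 2 := by omega
  rcases hcases with h0 | h0 | h0
  · exfalso
    have h3 : JT.card = 7 := by omega
    rw [Finset.card_eq_zero] at h0
    rw [h3, h0, Finset.sum_empty] at h2
    push_cast at h2
    linarith [c.al7]
  · exfalso
    obtain ⟨x, hx⟩ := Finset.card_eq_one.1 h0
    have h3 : JT.card = 5 := by omega
    rw [h3, hx, Finset.sum_singleton] at h2
    push_cast at h2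
    have hxR := (hmR x).1 (by rw [hx]; exact Finset.mem_singleton_self x)
    have h4 : TH G x = g 0 := by
      rw [c.g0]
      linarith
    apply hF x hxR.1 hxR.2
    rw [f.lo x ((mem_Jv51 G).1 hxR.1).1 hxR.2 (by rw [h4]; exact c.gm (Nat.zero_le _))]
    exact ⟨0, Nat.zero_le _, h4⟩
  · obtain ⟨x, y, hxy, hJe⟩ := Finset.card_eq_two.1 h0
    have h3 : JT.card = 3 := by omega
    rw [h3, hJe, Finset.sum_pair hxy] at h2
    push_cast at h2
    have hxR' : x ∈ JR := by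
      rw [hJe]
      exact Finset.mem_insert_self _ _
    have hyR' : y ∈ JR := by
      rw [hJe]
      exact Finset.mem_insert_of_mem (Finset.mem_singleton_self _)
    have hxR := (hmR x).1 hxR'
    have hyR := (hmR y).1 hyR'
    have key : ∀ a b : V × V, a ∈ Jv G v → b ∈ Jv G v → a ≠ b → RC G (G.cl a) → RC G (G.cl b) →
        TH G a + TH G b = 2 * Real.pi - 3 * al → TH G a ≤ TH G b →
        TH G a = Q ∧ TH G b = opp (g m) := by
      intro a b ha hb hab ra rb hs hle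
      have hbQ : Q < TH G b := by
        by_contra h
        push Not at h
        exact c1_62 G hG c hB ha hb hab ra rb (hle.trans h) h
      obtain ⟨j, hj, hbj⟩ := (f.hi b ((mem_Jv51 G).1 hb).1 rb hbQ).1 (hF b hb rb)
      have hlo : ∀ k, k ≤ m → opp (g m) ≤ opp (g k) := by
        intro k hk
        rcases Nat.eq_or_lt_of_le hk with rfl | hlt
        · exact le_rfl
        · exact (c.banti hlt le_rfl).le
      have haQ : TH G a ≤ Q := by
        by_contra h
        push Not at h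
        obtain ⟨i, hi, hai⟩ := (f.hi a ((mem_Jv51 G).1 ha).1 ra h).1 (hF a ha ra)
        have h5 := hlo i hi
        have h6 := hlo j hj
        have h7 := S.hsq
        have h8 := c.Qb
        rw [hai, hbj] at hs
        linarith
      rcases Nat.eq_or_lt_of_le hj with rfl | hlt
      · have h7 := S.hsq
        exact ⟨by linarith, hbj⟩
      · exfalso
        have h5 := c.gs j hlt
        have h6 : TH G a = g (j + 1) := by linarith
        apply hF a ha ra
        rw [f.lo a ((mem_Jv51 G).1 ha).1 ra (by rw [h6]; exact c.gm hlt)]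
        exact ⟨j + 1, hlt, h6⟩
    have hxy2 : (TH G x = Q ∧ TH G y = opp (g m)) ∨ (TH G y = Q ∧ TH G x = opp (g m)) := by
      rcases le_total (TH G x) (TH G y) with h | h
      · exact Or.inl (key x y hxR.1 hyR.1 hxy hxR.2 hyR.2 (by linarith) h)
      · exact Or.inr (key y x hyR.1 hxR.1 hxy.symm hyR.2 hxR.2 (by linarith) h)
    have hmeet : ¬ Disjoint (JR.image p) (JR.image q) := by
      intro hd
      have h5 : (JR.image p).card = 2 := by
        rw [Finset.card_image_of_injOn, h0]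
        intro a ha b hb h
        rw [← hqp a ((hmR a).1 (Finset.mem_coe.1 ha)).1, h,
          hqp b ((hmR b).1 (Finset.mem_coe.1 hb)).1]
      have h6 : (JR.image q).card = 2 := by
        rw [Finset.card_image_of_injOn, h0]
        intro a ha b hb h
        rw [← hpq a ((hmR a).1 (Finset.mem_coe.1 ha)).1, h,
          hpq b ((hmR b).1 (Finset.mem_coe.1 hb)).1]
      have h7 : JR.image p ∪ JR.image q ⊆ JT := by
        intro z hz
        rw [Finset.mem_union] at hz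
        rcases hz with hz | hz
        · obtain ⟨a, ha, rfl⟩ := Finset.mem_image.1 hz
          exact hpT a ha
        · obtain ⟨a, ha, rfl⟩ := Finset.mem_image.1 hz
          exact hqT a ha
      have h8 := Finset.card_le_card h7
      rw [Finset.card_union_of_disjoint hd] at h8
      omega
    rw [Finset.not_disjoint_iff] at hmeet
    obtain ⟨t, ht1, ht2⟩ := hmeet
    obtain ⟨a, ha, hat⟩ := Finset.mem_image.1 ht1
    obtain ⟨b, hb, hbt⟩ := Finset.mem_image.1 ht2
    have haJ := (hmR a).1 ha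
    have hbJ := (hmR b).1 hb
    have htT := hpT a ha
    rw [hat] at htT
    have e1 : q t = a := by
      rw [← hat]
      exact hqp a haJ.1
    have e2 : p t = b := by
      rw [← hbt]
      exact hpq b hbJ.1
    have htJ := ((hmT t).1 htT).1
    have hab : b ≠ a := by
      intro h
      apply pq57 G hG O hB htJ
      rw [e1, e2, h]
    refine ⟨t, htJ, (hTR t htJ).resolve_right ((hmT t).1 htT).2, ?_, ?_, ?_, ?_, ?_⟩
    · rw [e2]
      exact hbJ.1
    · rw [e1]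
      exact haJ.1
    · rw [e2]
      exact hbJ.2
    · rw [e1]
      exact haJ.2
    · rw [e1, e2]
      rw [hJe, Finset.mem_insert, Finset.mem_singleton] at ha hb
      rcases ha with rfl | rfl <;> rcases hb with rfl | rfl
      · exact absurd rfl hab
      · rcases hxy2 with ⟨h3, h4⟩ | ⟨h3, h4⟩
        · exact Or.inl ⟨h4, h3⟩
        · exact Or.inr ⟨h3, h4⟩
      · rcases hxy2 with ⟨h3, h4⟩ | ⟨h3, h4⟩
        · exact Or.inr ⟨h3, h4⟩
        · exact Or.inl ⟨h4, h3⟩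
      · exact absurd rfl hab

/-- a side between two rhombi at a deficient point ends at a point without seven units -/
theorem zb89 (hG : G.Geo al kp U) (O : Or62 G opp (sg G) s' p q)
    (c : Ch62 al Q opp g m) (S : Sq89 al Q opp g m)
    (hlow : ∀ x ∈ iJ G, RC G (G.cl x) → al ≤ TH G x ∧ TH G x ≤ 2 * al)
    {v : V} (hD : Df57 G al (F89 G Q opp g m) v) {x : V × V} (hx : x ∈ Jv G v)
    (rx : RC G (G.cl x)) (rp : RC G (G.cl (p x))) :
    s' (p x) ∈ iJ G ∧ sg G x ∈ iJ G ∧ RC G (G.cl (s' (p x))) ∧ RC G (G.cl (sg G x)) ∧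
      (TH G (p x) ≠ Q → F89 G Q opp g m (s' (p x))) ∧
      (TH G x ≠ Q → F89 G Q opp g m (sg G x)) ∧
      (F89 G Q opp g m (sg G x) ∨ TH G (sg G x) = Q) ∧
      (F89 G Q opp g m (s' (p x)) ∨ TH G (s' (p x)) = Q) ∧
      (TH G x ≠ Q ∨ TH G (p x) ≠ Q) ∧
      (s' (p x)).1 = (sg G x).1 ∧ p (s' (p x)) = sg G x ∧
      q (sg G x) = s' (p x) ∧ ¬ B7 G al (sg G x).1 := by
  have f : Fc62 G Q opp g m (F89 G Q opp g m) := fc89 G
  obtain ⟨hB, hnF⟩ := hD
  obtain ⟨hpJ, hqJ⟩ := pJ57 G O hB.1 hx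
  have ix := ((mem_Jv51 G).1 hx).1
  have ip := ((mem_Jv51 G).1 hpJ).1
  have ia := O.s2 _ ip
  have ib := O.s1 _ ix
  have ra : RC G (G.cl (s' (p x))) := by
    rw [O.s2c _ ip]
    exact rp
  have rb : RC G (G.cl (sg G x)) := by
    rw [O.s1c _ ix]
    exact rx
  have e1 : p (s' (p x)) = sg G x := O.ps _ ix ip
  have e2 : q (sg G x) = s' (p x) := by
    rw [← e1]
    exact O.pq _ ia (by rw [e1]; exact ib)
  have e3 : (s' (p x)).1 = (sg G x).1 := by
    rw [← e1]
    exact (O.pf _ ia (by rw [e1]; exact ib)).symm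
  have tb : TH G (sg G x) = opp (TH G x) := O.o1 _ ix rx
  have ta : TH G (s' (p x)) = opp (TH G (p x)) := O.o2 _ ip rp
  have fa : TH G (p x) ≠ Q → F89 G Q opp g m (s' (p x)) := by
    intro h
    have h1 := alt89 G O.mirror c S hlow ip rp h
    exact h1.2.2 (hnF _ hpJ rp)
  have fb : TH G x ≠ Q → F89 G Q opp g m (sg G x) := by
    intro h
    have h1 := alt89 G O c S hlow ix rx h
    exact h1.2.2 (hnF _ hx rx)
  have hxp : x ≠ p x := (ne57 G hG O hB hx).symm
  refine ⟨ia, ib, ra, rb, fa, fb, ?_, ?_, ?_, e3, e1, e2, fun hBu => ?_⟩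
  · by_cases h : TH G x = Q
    · right
      rw [tb, h, S.hQQ]
    · exact Or.inl (fb h)
  · by_cases h : TH G (p x) = Q
    · right
      rw [ta, h, S.hQQ]
    · exact Or.inl (fa h)
  · by_contra h
    push Not at h
    exact c1_62 G hG c hB hx hpJ hxp rx rp h.1.le h.2.le
  have haJ : s' (p x) ∈ Jv G (sg G x).1 := (mem_Jv51 G).2 ⟨ia, e3⟩
  have hbJ : sg G x ∈ Jv G (sg G x).1 := (mem_Jv51 G).2 ⟨ib, rfl⟩
  have hab : s' (p x) ≠ sg G x := by
    intro h
    apply ne57 G hG O hBu haJ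
    rw [e1, h]
  have hend : 2 * Real.pi - 3 * al - opp (g m) = Q := by
    have := S.hsq
    linarith
  rcases lt_trichotomy (TH G x) Q with h1 | h1 | h1
  · rcases le_or_gt (TH G (p x)) Q with h2 | h2
    · exact c1_62 G hG c hB hx hpJ hxp rx rp h1.le h2
    · obtain ⟨k, hk, hkt⟩ := (f.hi _ ip rp h2).1 (hnF _ hpJ rp)
      have h3 := two62 G hG hB hx hpJ hxp rx rp
      have h4 := two62 G hG hBu hbJ haJ hab.symm rb ra
      rw [tb, ta, hkt, c.goo hk] at h4
      rw [hkt] at h3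
      exact c.nz hk (fun h => absurd h1 (not_lt.2 (by linarith))) h1.le h3 h4
  · rcases le_or_gt (TH G (p x)) Q with h2 | h2
    · exact c1_62 G hG c hB hx hpJ hxp rx rp h1.le h2
    · obtain ⟨k, hk, hkt⟩ := (f.hi _ ip rp h2).1 (hnF _ hpJ rp)
      apply c1_62 G hG c hBu haJ hbJ hab ra rb
      · rw [ta, hkt, c.goo hk]
        exact (c.gm hk).le
      · rw [tb, h1, S.hQQ]
  · obtain ⟨k, hk, hkt⟩ := (f.hi _ ix rx h1).1 (hnF _ hx rx)
    rcases lt_trichotomy (TH G (p x)) Q with h2 | h2 | h2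
    · have h3 := two62 G hG hB hpJ hx hxp.symm rp rx
      have h4 := two62 G hG hBu haJ hbJ hab ra rb
      rw [tb, ta, hkt, c.goo hk] at h4
      rw [hkt] at h3
      exact c.nz hk (fun h => absurd h2 (not_lt.2 (by linarith))) h2.le h3 h4
    · apply c1_62 G hG c hBu haJ hbJ hab ra rb
      · rw [ta, h2, S.hQQ]
      · rw [tb, hkt, c.goo hk]
        exact (c.gm hk).le
    · obtain ⟨l, hl, hlt⟩ := (f.hi _ ip rp h2).1 (hnF _ hpJ rp)
      apply c1_62 G hG c hBu haJ hbJ hab ra rb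
      · rw [ta, hlt, c.goo hl]
        exact (c.gm hl).le
      · rw [tb, hkt, c.goo hk]
        exact (c.gm hk).le

/-- four steps around a rhombus -/
theorem R4_89 (hG : G.Geo al kp U) (hR : Rf G al opp) (O : Or62 G opp (sg G) s' p q)
    {x : V × V} (hx : x ∈ iJ G) (rx : RC G (G.cl x)) :
    sg G (sg G x) = s' (s' x) := by
  have hC := cl_iJ71 G hx
  have hcJ : ∀ y, y ∈ G.cJ (G.cl x) ↔ y ∈ iJ G ∧ G.cl y = G.cl x := by
    intro y
    rw [← iJ_fiber71 G hC, Finset.mem_filter]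
  have key : ∀ F : V × V → Prop, (∀ x ∈ iJ G, RC G (G.cl x) → (F (sg G x) ↔ ¬ F x)) → F x →
      sg G (sg G (sg G (sg G x))) = x := by
    intro F hF hFx
    have h2 := alt51 G hG F hF hC rx
    obtain ⟨a, b, hab, hS⟩ := Finset.card_eq_two.1 h2
    have hm : ∀ y, y ∈ ({a, b} : Finset (V × V)) ↔ y ∈ G.cJ (G.cl x) ∧ F y := by
      intro y
      rw [← hS, Finset.mem_filter]
    have hstep : ∀ y, y ∈ ({a, b} : Finset (V × V)) → sg G (sg G y) ∈ ({a, b} : Finset (V × V)) := by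
      intro y hy
      obtain ⟨h3, h4⟩ := (hm y).1 hy
      obtain ⟨h5, h6⟩ := (hcJ y).1 h3
      have h7 := O.s1 _ h5
      have h8 := O.s1c _ h5
      have h9 := O.s1 _ h7
      have h10 := O.s1c _ h7
      refine (hm _).2 ⟨(hcJ _).2 ⟨h9, h10.trans (h8.trans h6)⟩, ?_⟩
      rw [hF _ h7 (by rw [h8, h6]; exact rx), hF _ h5 (by rw [h6]; exact rx), not_not]
      exact h4
    have hinj : ∀ y z, y ∈ ({a, b} : Finset (V × V)) → z ∈ ({a, b} : Finset (V × V)) →
        sg G (sg G y) = sg G (sg G z) → y = z := by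
      intro y z hy hz h
      have hy1 := ((hcJ y).1 ((hm y).1 hy).1).1
      have hz1 := ((hcJ z).1 ((hm z).1 hz).1).1
      exact sg_inj51 G hG hy1 hz1 (sg_inj51 G hG (O.s1 _ hy1) (O.s1 _ hz1) h)
    have hxS : x ∈ ({a, b} : Finset (V × V)) := (hm x).2 ⟨(hcJ x).2 ⟨hx, rfl⟩, hFx⟩
    have h3 := hstep x hxS
    have h4 := hstep _ h3
    by_contra hne
    have h5 : sg G (sg G x) ≠ x := by
      intro h
      apply hne
      rw [h, h]
    have h6 : sg G (sg G (sg G (sg G x))) ≠ sg G (sg G x) := fun h => h5 (hinj _ _ h3 hxS h)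
    simp only [Finset.mem_insert, Finset.mem_singleton] at hxS h3 h4
    rcases hxS with e1 | e1 <;> rcases h3 with e2 | e2 <;> rcases h4 with e3 | e3
    · exact h5 (e2.trans e1.symm)
    · exact h5 (e2.trans e1.symm)
    · exact hne (e3.trans e1.symm)
    · exact h6 (e3.trans e2.symm)
    · exact h6 (e3.trans e2.symm)
    · exact hne (e3.trans e1.symm)
    · exact h5 (e2.trans e1.symm)
    · exact h5 (e2.trans e1.symm)
  have h4 : sg G (sg G (sg G (sg G x))) = x := by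
    by_cases h : Q51 G x
    · exact key (Q51 G) (fun y hy ry => hR.alt y hy ry) h
    · refine key (fun y => ¬ Q51 G y) (fun y hy ry => ?_) h
      rw [hR.alt y hy ry]
  have i1 := O.s1 _ hx
  have i2 := O.s1 _ i1
  have i3 := O.s1 _ i2
  have e1 := O.s12 _ i3
  rw [h4] at e1
  rw [e1]
  exact (O.s12 _ i2).symm

end D

end

end Pool.Agent.PEN
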