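import Pool.Agent.P4.Tk89a
import Pool.Agent.P4.Tk62f

/-! # PENNY, token rows at the chain diameters that end in the square: the tokens -/

set_option autoImplicit false

namespace Pool.Agent.PEN

open Classical UpperHalfPlane

noncomputable section

section D
variable {V : Type} (G : Tg V) {al : ℝ} {kp : V → V → ℝ} {U : ℕ → ℝ}
variable {Q : ℝ} {opp : ℝ → ℝ} {g : ℕ → ℝ} {m : ℕ} {s s' p q : V × V → V × V}

/-- a square corner followed by `m + 2` contact triangles at a seven unit point -/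
theorem fail89 (hG : G.Geo al kp U) (O : Or62 G opp s s' p q) (c : Ch62 al Q opp g m)
    (S : Sq89 al Q opp g m) {k : V × V} (hk : k ∈ iJ G) (rk : RC G (G.cl k)) (ht : TH G k = Q)
    (hB : B7 G al k.1)
    (hT : ∀ j, j < m + 2 → q^[j + 1] k ∈ iJ G ∧ G.cI (G.cl (q^[j + 1] k)) = ∅) :
    m = 1 ∧ p k ∈ iJ G ∧ RC G (G.cl (p k)) ∧ TH G (p k) = opp (g m) := by
  obtain ⟨o1, o2, o3⟩ := orb62 G O hk rk hT
  obtain ⟨h1, h2⟩ := count62 G hG hB
  have hTR := hB.2.2
  have hnRT : ∀ x : V × V, G.cI (G.cl x) = ∅ → ¬ RC G (G.cl x) := fun x h1 h2 => RC_ne51 G h2 h1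
  obtain ⟨JR, hJR⟩ : ∃ JR, JR = (Jv G k.1).filter (fun x => RC G (G.cl x)) := ⟨_, rfl⟩
  obtain ⟨JT, hJT⟩ : ∃ JT, JT = (Jv G k.1).filter (fun x => ¬ RC G (G.cl x)) := ⟨_, rfl⟩
  have hmR : ∀ x, x ∈ JR ↔ x ∈ Jv G k.1 ∧ RC G (G.cl x) := by
    intro x
    rw [hJR, Finset.mem_filter]
  have hmT : ∀ x, x ∈ JT ↔ x ∈ Jv G k.1 ∧ ¬ RC G (G.cl x) := by
    intro x
    rw [hJT, Finset.mem_filter]
  rw [← hJR, ← hJT] at h1 h2
  obtain ⟨S0, hS0⟩ : ∃ S0, S0 = (Finset.range (m + 2)).image (fun j => q^[j + 1] k) := ⟨_, rfl⟩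
  have hS0c : S0.card = m + 2 := by
    rw [hS0, Finset.card_image_of_injOn, Finset.card_range]
    intro a ha b hb h
    have := Finset.mem_range.1 (Finset.mem_coe.1 ha)
    have := Finset.mem_range.1 (Finset.mem_coe.1 hb)
    have := o3 (a + 1) (b + 1) (by omega) (by omega) h
    omega
  have hsub : S0 ⊆ JT := by
    intro x hx
    rw [hS0, Finset.mem_image] at hx
    obtain ⟨a, ha, rfl⟩ := hx
    have ha' := Finset.mem_range.1 ha
    exact (hmT _).2 ⟨o1 (a + 1) (by omega), hnRT _ (hT a ha').2⟩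
  have hc := Finset.card_le_card hsub
  have hkR : k ∈ JR := (hmR k).2 ⟨(mem_Jv51 G).2 ⟨hk, rfl⟩, rk⟩
  have hpos : 0 < JR.card := Finset.card_pos.2 ⟨k, hkR⟩
  have hm := S.hm
  have hcases : JR.card = 1 ∨ JR.card = 2 := by omega
  rcases hcases with h0 | h0
  · exfalso
    obtain ⟨x, hx⟩ := Finset.card_eq_one.1 h0
    have h3 : JT.card = 5 := by omega
    rw [hx, Finset.mem_singleton] at hkR
    rw [h3, hx, Finset.sum_singleton, ← hkR, ht] at h2
    push_cast at h2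
    have := c.g0
    have := c.gm (Nat.zero_le m)
    linarith
  · have h3 : JT.card = 3 := by omega
    have hm1 : m = 1 := by omega
    obtain ⟨x, y, hxy, hJe⟩ := Finset.card_eq_two.1 h0
    obtain ⟨y, hyR, hyk, hyt⟩ : ∃ y ∈ JR, y ≠ k ∧ TH G y = opp (g m) := by
      rw [h3, hJe, Finset.sum_pair hxy] at h2
      push_cast at h2
      have h4 := S.hsq
      rw [hJe, Finset.mem_insert, Finset.mem_singleton] at hkR
      rcases hkR with h5 | h5
      · refine ⟨y, ?_, fun h => hxy (h5.symm.trans h.symm), ?_⟩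
        · rw [hJe]
          exact Finset.mem_insert_of_mem (Finset.mem_singleton_self _)
        · rw [← h5, ht] at h2
          linarith
      · refine ⟨x, ?_, fun h => hxy (h.trans h5), ?_⟩
        · rw [hJe]
          exact Finset.mem_insert_self _ _
        · rw [← h5, ht] at h2
          linarith
    have hkJ := ((hmR k).1 hkR).1
    obtain ⟨hpJ, hqJ⟩ := pJ57 G O hB.1 hkJ
    have hyJ := (hmR y).1 hyR
    have hpy : p k = y := by
      by_contra hne
      obtain ⟨S', hS'⟩ : ∃ S', S' = (Finset.range (m + 3)).image (fun j => q^[j] k) := ⟨_, rfl⟩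
      have hmS : ∀ x, x ∈ S' ↔ ∃ j, j ≤ m + 2 ∧ q^[j] k = x := by
        intro x
        rw [hS', Finset.mem_image]
        constructor
        · rintro ⟨j, hj, h⟩
          exact ⟨j, by have := Finset.mem_range.1 hj; omega, h⟩
        · rintro ⟨j, hj, h⟩
          exact ⟨j, Finset.mem_range.2 (by omega), h⟩
      have hpS : p k ∈ S' := by
        by_cases hr : RC G (G.cl (p k))
        · have h5 : p k ∈ JR := (hmR _).2 ⟨hpJ, hr⟩
          have h6 : JR = {k, y} := by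
            symm
            apply Finset.eq_of_subset_of_card_le
            · intro z hz
              rw [Finset.mem_insert, Finset.mem_singleton] at hz
              rcases hz with rfl | rfl
              · exact hkR
              · exact hyR
            · rw [Finset.card_pair hyk.symm]
              omega
          rw [h6, Finset.mem_insert, Finset.mem_singleton] at h5
          rcases h5 with h5 | h5
          · exact absurd h5 (ne57 G hG O hB hkJ)
          · exact absurd h5 hne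
        · have heq := Finset.eq_of_subset_of_card_le hsub (by omega)
          have h5 : p k ∈ S0 := by
            rw [heq]
            exact (hmT _).2 ⟨hpJ, hr⟩
          rw [hS0, Finset.mem_image] at h5
          obtain ⟨a, ha, h6⟩ := h5
          exact (hmS _).2 ⟨a + 1, by have := Finset.mem_range.1 ha; omega, h6⟩
      have hcl : ∀ x ∈ S', x ∈ iJ G ∧ x.1 = k.1 ∧ p x ∈ S' := by
        intro x hx
        obtain ⟨i, hi, rfl⟩ := (hmS x).1 hx
        have hx' := (mem_Jv51 G).1 (o1 i hi)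
        refine ⟨hx'.1, hx'.2, ?_⟩
        rcases i with _ | i
        · exact hpS
        · rw [o2 i (by omega)]
          exact (hmS _).2 ⟨i, by omega, rfl⟩
      have h5 := (O.cyc k.1 S' ⟨k, (hmS k).2 ⟨0, by omega, rfl⟩⟩ hcl).2 y
        ((mem_Jv51 G).1 hyJ.1).1 ((mem_Jv51 G).1 hyJ.1).2
      obtain ⟨j, hj, h6⟩ := (hmS y).1 h5
      rcases j with _ | j
      · exact hyk h6.symm
      · have h7 := (hT j (by omega)).2
        rw [h6] at h7
        exact hnRT _ h7 hyJ.2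
    rw [hpy]
    exact ⟨hm1, ((mem_Jv51 G).1 hyJ.1).1, hyJ.2, hyt⟩

/-- three contact triangles on both sides of a square corner: impossible -/
theorem dbl89 (hG : G.Geo al kp U) (O : Or62 G opp s s' p q) (c : Ch62 al Q opp g m)
    {k : V × V} (hk : k ∈ iJ G) (rk : RC G (G.cl k)) (ht : TH G k = Q)
    (hsum : ∑ x ∈ Jv G k.1, TH G x ≤ 2 * Real.pi)
    (hT : ∀ j, j < 3 → q^[j + 1] k ∈ iJ G ∧ G.cI (G.cl (q^[j + 1] k)) = ∅)
    (hT' : ∀ j, j < 3 → p^[j + 1] k ∈ iJ G ∧ G.cI (G.cl (p^[j + 1] k)) = ∅) : False := by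
  have hal := al_pos71 G hG
  obtain ⟨o1, o2, o3⟩ := orb62 G O hk rk hT
  obtain ⟨u1, u2, u3⟩ := orb62 G O.mirror hk rk hT'
  have hkJ : k ∈ Jv G k.1 := (mem_Jv51 G).2 ⟨hk, rfl⟩
  have hcross : ∀ a b, a ≤ 3 → b < 3 → q^[a] k ≠ p^[b + 1] k := by
    intro a b ha hb h
    obtain ⟨S, hS⟩ : ∃ S, S = (Finset.range (a + 1)).image (fun j => q^[j] k) ∪
      (Finset.range (b + 2)).image (fun j => p^[j] k) := ⟨_, rfl⟩
    have hmS : ∀ x, x ∈ S ↔ (∃ j, j ≤ a ∧ q^[j] k = x) ∨ (∃ j, j ≤ b + 1 ∧ p^[j] k = x) := by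
      intro x
      rw [hS, Finset.mem_union, Finset.mem_image, Finset.mem_image]
      constructor
      · rintro (⟨j, hj, h⟩ | ⟨j, hj, h⟩)
        · exact Or.inl ⟨j, by have := Finset.mem_range.1 hj; omega, h⟩
        · exact Or.inr ⟨j, by have := Finset.mem_range.1 hj; omega, h⟩
      · rintro (⟨j, hj, h⟩ | ⟨j, hj, h⟩)
        · exact Or.inl ⟨j, Finset.mem_range.2 (by omega), h⟩
        · exact Or.inr ⟨j, Finset.mem_range.2 (by omega), h⟩
    have hpS : ∀ j, j ≤ b → p^[j] k ∈ S ∧ q (p^[j + 1] k) = p^[j] k := by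
      intro j hj
      exact ⟨(hmS _).2 (Or.inr ⟨j, by omega, rfl⟩), u2 j (by omega)⟩
    have hcl : ∀ x ∈ S, x ∈ iJ G ∧ x.1 = k.1 ∧ q x ∈ S := by
      intro x hx
      rcases (hmS x).1 hx with ⟨j, hj, rfl⟩ | ⟨j, hj, rfl⟩
      · have h1 := (mem_Jv51 G).1 (o1 j (by omega))
        refine ⟨h1.1, h1.2, ?_⟩
        rcases Nat.eq_or_lt_of_le hj with rfl | hlt
        · rw [h, (hpS b le_rfl).2]
          exact (hpS b le_rfl).1
        · exact (hmS _).2 (Or.inl ⟨j + 1, by omega, by rw [Function.iterate_succ_apply']⟩)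
      · have h1 := (mem_Jv51 G).1 (u1 j (by omega))
        refine ⟨h1.1, h1.2, ?_⟩
        rcases j with _ | j
        · rcases Nat.eq_zero_or_pos a with h0 | h0
          · subst h0
            have h3 : p^[b + 1] k = k := h.symm
            show q k ∈ S
            rw [← h3, (hpS b le_rfl).2]
            exact (hpS b le_rfl).1
          · exact (hmS _).2 (Or.inl ⟨1, h0, rfl⟩)
        · rw [(hpS j (by omega)).2]
          exact (hpS j (by omega)).1
    obtain ⟨hN, hall⟩ := O.mirror.cyc k.1 S ⟨k, (hmS k).2 (Or.inl ⟨0, Nat.zero_le _, rfl⟩)⟩ hcl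
    have htot := sum_TH_point71 G hG hN
    change ∑ x ∈ Jv G k.1, TH G x = _ at htot
    have hTJ : ∀ x ∈ (Jv G k.1).erase k, TH G x = al := by
      intro x hx
      rw [Finset.mem_erase] at hx
      obtain ⟨hx1, hx2⟩ := hx
      have hx3 := (mem_Jv51 G).1 hx2
      rcases (hmS x).1 (hall x hx3.1 hx3.2) with ⟨j, hj, rfl⟩ | ⟨j, hj, rfl⟩
      · rcases j with _ | j
        · exact absurd rfl hx1
        · obtain ⟨h4, h5⟩ := hT j (by omega)
          exact TH_T51 G hG h4 h5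
      · rcases j with _ | j
        · exact absurd rfl hx1
        · obtain ⟨h4, h5⟩ := hT' j (by omega)
          exact TH_T51 G hG h4 h5
    rw [← Finset.add_sum_erase _ _ hkJ, Finset.sum_congr rfl hTJ, Finset.sum_const,
      nsmul_eq_mul, ht] at htot
    have h6 := c.Qal
    have h7 := c.g0
    have h8 := c.gm (Nat.zero_le m)
    have h9 := hG.al2
    rcases Nat.lt_or_ge ((Jv G k.1).erase k).card 5 with hlt | hge
    · have h10 : (((Jv G k.1).erase k).card : ℝ) ≤ 4 := by exact_mod_cast Nat.lt_succ_iff.1 hlt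
      have h11 := mul_le_mul_of_nonneg_right h10 hal.le
      linarith
    · have h10 : (5 : ℝ) ≤ (((Jv G k.1).erase k).card : ℝ) := by exact_mod_cast hge
      have h11 := mul_le_mul_of_nonneg_right h10 hal.le
      linarith
  obtain ⟨S1, hS1⟩ : ∃ S1, S1 = (Finset.range 4).image (fun j => q^[j] k) := ⟨_, rfl⟩
  obtain ⟨S2, hS2⟩ : ∃ S2, S2 = (Finset.range 3).image (fun j => p^[j + 1] k) := ⟨_, rfl⟩
  have hdis : Disjoint S1 S2 := by
    rw [Finset.disjoint_left]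
    intro x hx hy
    rw [hS1, Finset.mem_image] at hx
    rw [hS2, Finset.mem_image] at hy
    obtain ⟨a, ha, rfl⟩ := hx
    obtain ⟨b, hb, h⟩ := hy
    exact hcross a b (by have := Finset.mem_range.1 ha; omega) (Finset.mem_range.1 hb) h.symm
  have hs1 : ∑ x ∈ S1, TH G x = TH G k + 3 * al := by
    rw [hS1, Finset.sum_image]
    · rw [Finset.sum_range_succ' _ 3]
      have h3 : ∑ j ∈ Finset.range 3, TH G (q^[j + 1] k) = ∑ j ∈ Finset.range 3, al := by
        refine Finset.sum_congr rfl fun j hj => ?_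
        obtain ⟨h4, h5⟩ := hT j (Finset.mem_range.1 hj)
        exact TH_T51 G hG h4 h5
      rw [h3, Finset.sum_const, Finset.card_range, nsmul_eq_mul]
      show _ + TH G k = _
      push_cast
      ring
    · intro a ha b hb h
      have := Finset.mem_range.1 (Finset.mem_coe.1 ha)
      have := Finset.mem_range.1 (Finset.mem_coe.1 hb)
      exact o3 a b (by omega) (by omega) h
  have hs2 : ∑ x ∈ S2, TH G x = 3 * al := by
    rw [hS2, Finset.sum_image]
    · have h3 : ∑ j ∈ Finset.range 3, TH G (p^[j + 1] k) = ∑ j ∈ Finset.range 3, al := by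
        refine Finset.sum_congr rfl fun j hj => ?_
        obtain ⟨h4, h5⟩ := hT' j (Finset.mem_range.1 hj)
        exact TH_T51 G hG h4 h5
      rw [h3, Finset.sum_const, Finset.card_range, nsmul_eq_mul]
      push_cast
      ring
    · intro a ha b hb h
      have := Finset.mem_range.1 (Finset.mem_coe.1 ha)
      have := Finset.mem_range.1 (Finset.mem_coe.1 hb)
      have := u3 (a + 1) (b + 1) (by omega) (by omega) h
      omega
  have h3 : ∑ x ∈ S1 ∪ S2, TH G x ≤ ∑ x ∈ Jv G k.1, TH G x := by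
    apply Finset.sum_le_sum_of_subset_of_nonneg
    · intro x hx
      rcases Finset.mem_union.1 hx with hx | hx
      · rw [hS1, Finset.mem_image] at hx
        obtain ⟨a, ha, rfl⟩ := hx
        exact o1 a (by have := Finset.mem_range.1 ha; omega)
      · rw [hS2, Finset.mem_image] at hx
        obtain ⟨a, ha, rfl⟩ := hx
        exact u1 (a + 1) (by have := Finset.mem_range.1 ha; omega)
    · intro x hx _
      exact (TH_pos71 G ((mem_Jv51 G).1 hx).1).le
  rw [Finset.sum_union hdis, hs1, hs2, ht] at h3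
  have := c.al7
  have := c.glo le_rfl
  have := c.gQ
  linarith

/-- a square corner between a chain tip and three contact triangles: another face at the point -/
theorem dd89 (hG : G.Geo al kp U) (O : Or62 G opp s s' p q) (c : Ch62 al Q opp g m)
    (S : Sq89 al Q opp g m)
    (hlow : ∀ x ∈ iJ G, RC G (G.cl x) → al ≤ TH G x ∧ TH G x ≤ 2 * al)
    {k : V × V} (hk : k ∈ iJ G) (rk : RC G (G.cl k)) (ht : TH G k = Q) (hN : k.1 ∈ inN G)
    (hq : q k ∈ iJ G) (rq : RC G (G.cl (q k))) (tq : TH G (q k) = g m)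
    (hT' : ∀ j, j < 3 → p^[j + 1] k ∈ iJ G ∧ G.cI (G.cl (p^[j + 1] k)) = ∅) :
    (∃ x ∈ Jv G k.1, G.cI (G.cl x) ≠ ∅ ∧ ¬ RC G (G.cl x)) ∧ 8 ≤ ∑ x ∈ Jv G k.1, bw G al x := by
  have hal := al_pos71 G hG
  obtain ⟨u1, u2, u3⟩ := orb62 G O.mirror hk rk hT'
  have hnRT : ∀ x : V × V, G.cI (G.cl x) = ∅ → ¬ RC G (G.cl x) := fun x h1 h2 => RC_ne51 G h2 h1
  have hkJ : k ∈ Jv G k.1 := (mem_Jv51 G).2 ⟨hk, rfl⟩
  have hqJ : q k ∈ Jv G k.1 := (mem_Jv51 G).2 ⟨hq, O.qf _ hk hq⟩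
  have hkq : k ≠ q k := by
    intro h
    rw [← h, ht] at tq
    have := c.gQ
    linarith
  obtain ⟨S2, hS2⟩ : ∃ S2, S2 = (Finset.range 3).image (fun j => p^[j + 1] k) := ⟨_, rfl⟩
  have hinj : Set.InjOn (fun j => p^[j + 1] k) ((Finset.range 3 : Finset ℕ) : Set ℕ) := by
    intro a ha b hb h
    have := Finset.mem_range.1 (Finset.mem_coe.1 ha)
    have := Finset.mem_range.1 (Finset.mem_coe.1 hb)
    have := u3 (a + 1) (b + 1) (by omega) (by omega) h
    omega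
  have hS2T : ∀ x ∈ S2, x ∈ Jv G k.1 ∧ x ∈ iJ G ∧ G.cI (G.cl x) = ∅ := by
    intro x hx
    rw [hS2, Finset.mem_image] at hx
    obtain ⟨a, ha, rfl⟩ := hx
    have ha' := Finset.mem_range.1 ha
    exact ⟨u1 (a + 1) (by omega), (hT' a ha').1, (hT' a ha').2⟩
  have hS2c : S2.card = 3 := by
    rw [hS2, Finset.card_image_of_injOn hinj, Finset.card_range]
  have hdis : Disjoint ({k, q k} : Finset (V × V)) S2 := by
    rw [Finset.disjoint_left]
    intro x hx hy
    rw [Finset.mem_insert, Finset.mem_singleton] at hx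
    have h1 := (hS2T x hy).2.2
    rcases hx with rfl | rfl
    · exact hnRT _ h1 rk
    · exact hnRT _ h1 rq
  obtain ⟨S1, hS1⟩ : ∃ S1, S1 = ({k, q k} : Finset (V × V)) ∪ S2 := ⟨_, rfl⟩
  have hsub : S1 ⊆ Jv G k.1 := by
    intro x hx
    rw [hS1, Finset.mem_union, Finset.mem_insert, Finset.mem_singleton] at hx
    rcases hx with (rfl | rfl) | hx
    · exact hkJ
    · exact hqJ
    · exact (hS2T x hx).1
  have hth : ∑ x ∈ S1, TH G x = Q + g m + 3 * al := by
    rw [hS1, Finset.sum_union hdis, Finset.sum_pair hkq, ht, tq,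
      Finset.sum_congr rfl (fun x hx => TH_T51 G hG (hS2T x hx).2.1 (hS2T x hx).2.2),
      Finset.sum_const, hS2c, nsmul_eq_mul]
    push_cast
    ring
  have hbw : ∑ x ∈ S1, bw G al x = 7 := by
    have e1 : bw G al k = 2 := by
      unfold bw
      rw [if_neg (RC_ne51 G rk), if_pos rk]
    have e2 : bw G al (q k) = 2 := by
      unfold bw
      rw [if_neg (RC_ne51 G rq), if_pos rq]
    have e3 : ∀ x ∈ S2, bw G al x = 1 := by
      intro x hx
      unfold bw
      rw [if_pos (hS2T x hx).2.2]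
    rw [hS1, Finset.sum_union hdis, Finset.sum_pair hkq, e1, e2, Finset.sum_congr rfl e3,
      Finset.sum_const, hS2c, smul_eq_mul]
  have htot := sum_TH_point71 G hG hN
  change ∑ x ∈ Jv G k.1, TH G x = _ at htot
  have hsq := S.hsq
  have hgq := c.gQ
  have hQb := c.Qb
  obtain ⟨y, hy, hyS⟩ : ∃ y ∈ Jv G k.1, y ∉ S1 := by
    by_contra hno
    push Not at hno
    have h1 : Jv G k.1 = S1 := Finset.Subset.antisymm hno hsub
    rw [h1, hth] at htot
    linarith
  have hyJ := (mem_Jv51 G).1 hy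
  have hylt : TH G y < al := by
    have h1 : ∑ x ∈ insert y S1, TH G x ≤ ∑ x ∈ Jv G k.1, TH G x := by
      apply Finset.sum_le_sum_of_subset_of_nonneg
      · intro x hx
        rcases Finset.mem_insert.1 hx with rfl | hx
        · exact hy
        · exact hsub hx
      · intro x hx _
        exact (TH_pos71 G ((mem_Jv51 G).1 hx).1).le
    rw [Finset.sum_insert hyS, hth, htot] at h1
    have h2 := c.bhi (le_refl m)
    have h3 := c.glo (le_refl m)
    linarith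
  have hyT : G.cI (G.cl y) ≠ ∅ := by
    intro h
    rw [TH_T51 G hG hyJ.1 h] at hylt
    exact lt_irrefl _ hylt
  have hyR : ¬ RC G (G.cl y) := by
    intro h
    have := (hlow y hyJ.1 h).1
    linarith
  refine ⟨⟨y, hy, hyT, hyR⟩, ?_⟩
  have hy1 : 1 ≤ bw G al y := by
    have h1 := TH_bw51 G hG hyJ.1
    have h2 := TH_pos71 G hyJ.1
    by_contra h
    have h3 : bw G al y = 0 := by omega
    rw [h3] at h1
    push_cast at h1
    linarith
  have h1 : ∑ x ∈ insert y S1, bw G al x ≤ ∑ x ∈ Jv G k.1, bw G al x := by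
    apply Finset.sum_le_sum_of_subset
    intro x hx
    rcases Finset.mem_insert.1 hx with rfl | hx
    · exact hy
    · exact hsub hx
  rw [Finset.sum_insert hyS, hbw] at h1
  omega

/-- the start of the walk: the contact triangle between the obtuse corner and the square -/
def St89 (Q : ℝ) (opp : ℝ → ℝ) (g : ℕ → ℝ) (m : ℕ) (p q : V × V → V × V) (t0 : V × V) : Prop :=
  t0 ∈ iJ G ∧ G.cI (G.cl t0) = ∅ ∧ p t0 ∈ iJ G ∧ RC G (G.cl (p t0)) ∧
    TH G (p t0) = opp (g m) ∧ q t0 ∈ iJ G ∧ RC G (G.cl (q t0)) ∧ TH G (q t0) = Q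

/-- the square corner at the centre of the walk -/
theorem k0_89 (O : Or62 G opp s s' p q) (S : Sq89 al Q opp g m) {t0 : V × V}
    (h : St89 G Q opp g m p q t0) :
    s (q t0) ∈ iJ G ∧ RC G (G.cl (s (q t0))) ∧ TH G (s (q t0)) = Q ∧
      q (s (q t0)) = s' t0 ∧ p (s' (s (q t0))) = t0 := by
  obtain ⟨h1, h2, h3, h4, h5, h6, h7, h8⟩ := h
  refine ⟨O.s1 _ h6, ?_, altQ89 G O S h6 h7 h8, O.qs _ h1 h6, ?_⟩
  · rw [O.s1c _ h6]
    exact h7
  · rw [O.s12 _ h6]
    exact O.qp _ h1 h6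

/-- the token of a walk -/
def Tk89 (al Q : ℝ) (opp : ℝ → ℝ) (g : ℕ → ℝ) (m : ℕ)
    (s s' p q : V × V → V × V) (t0 : V × V) (k : V × V) (n : ℕ) : Prop :=
  Cl62 G al (F89 G Q opp g m) opp g m s s' p q t0 k n ∨
    (Fl62 G m s' q t0 ∧ ¬ B7 G al (s (q t0)).1 ∧ k = s (q t0) ∧ n = 2) ∨
    (Fl62 G m s' q t0 ∧ B7 G al (s (q t0)).1 ∧ k = s (s (q t0)) ∧ n = 3)

theorem tk_ex89 (hG : G.Geo al kp U) (O : Or62 G opp s s' p q) (c : Ch62 al Q opp g m)
    {t0 : V × V} (h : St89 G Q opp g m p q t0) :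
    ∃ k n, Tk89 G al Q opp g m s s' p q t0 k n := by
  have hA : A62 G opp g p m t0 := ⟨h.1, h.2.1, h.2.2.1, h.2.2.2.1, h.2.2.2.2.1⟩
  rcases walk62' G hG O c (fc89 G) hA with ⟨k, n, h1⟩ | h1
  · exact ⟨k, n, Or.inl h1⟩
  · by_cases hB : B7 G al (s (q t0)).1
    · exact ⟨_, 3, Or.inr (Or.inr ⟨h1, hB, rfl, rfl⟩)⟩
    · exact ⟨_, 2, Or.inr (Or.inl ⟨h1, hB, rfl, rfl⟩)⟩

theorem fl89 (O : Or62 G opp s s' p q) (S : Sq89 al Q opp g m) {t0 : V × V}
    (h : St89 G Q opp g m p q t0) (hF : Fl62 G m s' q t0) :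
    ∀ j, j < m + 2 → q^[j + 1] (s (q t0)) ∈ iJ G ∧ G.cI (G.cl (q^[j + 1] (s (q t0)))) = ∅ := by
  obtain ⟨e1, e2, e3, e4, e5⟩ := k0_89 G O S h
  intro j hj
  rw [Function.iterate_succ_apply, e4]
  exact hF j (by omega)

/-- properties of a token -/
theorem tk_fact89 (hG : G.Geo al kp U) (O : Or62 G opp s s' p q) (c : Ch62 al Q opp g m)
    (S : Sq89 al Q opp g m) {t0 : V × V} (h : St89 G Q opp g m p q t0)
    {k : V × V} {n : ℕ} (hk : Tk89 G al Q opp g m s s' p q t0 k n) :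
    k ∈ iJ G ∧ RC G (G.cl k) ∧
    (((∃ j, j ≤ m ∧ TH G k = g j) ∧ ¬ Tight62 G al (F89 G Q opp g m) k ∧
      ((n = 0 ∧ p k ∈ iJ G ∧ G.cI (G.cl (p k)) = ∅) ∨
       (n = 1 ∧ q k ∈ iJ G ∧ RC G (G.cl (q k)) ∧ ∃ j, j ≤ m ∧ TH G (q k) = opp (g j)))) ∨
    (n = 2 ∧ TH G k = Q ∧ ¬ B7 G al k.1 ∧ k = s (q t0) ∧
      ∀ j, j < m + 2 → q^[j + 1] k ∈ iJ G ∧ G.cI (G.cl (q^[j + 1] k)) = ∅) ∨
    (n = 3 ∧ TH G k = Q ∧ ¬ B7 G al k.1 ∧ k = s (s (q t0)) ∧ m = 1 ∧
      q k ∈ iJ G ∧ RC G (G.cl (q k)) ∧ TH G (q k) = g m)) := by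
  obtain ⟨e1, e2, e3, e4, e5⟩ := k0_89 G O S h
  rcases hk with hk | ⟨h1, h2, h3, h4⟩ | ⟨h1, h2, h3, h4⟩
  · obtain ⟨c1, c2, c3, c4, c5⟩ := cl_fact62 G hG O c h.1 h.2.2.2.2.2.1 h.2.2.2.2.2.2.1
      (by rw [e3]; exact c.gQ.le) e3.le hk
    exact ⟨c1, c2, Or.inl ⟨c3, c4, c5⟩⟩
  · have hT := fl89 G O S h h1
    subst h3
    exact ⟨e1, e2, Or.inr (Or.inl ⟨h4, e3, h2, rfl, hT⟩)⟩
  · have hT := fl89 G O S h h1
    obtain ⟨k0, hk0⟩ : ∃ k0, k0 = s (q t0) := ⟨_, rfl⟩
    rw [← hk0] at e1 e2 e3 e4 e5 hT h2 h3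
    obtain ⟨f1, f2, f3, f4⟩ := fail89 G hG O c S e1 e2 e3 h2 hT
    have i1 := O.s1 _ e1
    have r1 : RC G (G.cl (s k0)) := by
      rw [O.s1c _ e1]
      exact e2
    have t1 : TH G (s k0) = Q := altQ89 G O S e1 e2 e3
    have a1 := O.s2 _ f2
    have ra : RC G (G.cl (s' (p k0))) := by
      rw [O.s2c _ f2]
      exact f3
    have ta : TH G (s' (p k0)) = g m := by
      rw [O.o2 _ f2 f3, f4, c.goo le_rfl]
    have a2 := O.ps _ e1 f2
    have a3 : q (s k0) = s' (p k0) := by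
      rw [← a2]
      exact O.pq _ a1 (by rw [a2]; exact i1)
    subst h3
    refine ⟨i1, r1, Or.inr (Or.inr ⟨h4, t1, ?_, by rw [hk0], f1, by rw [a3]; exact a1,
      by rw [a3]; exact ra, by rw [a3]; exact ta⟩)⟩
    intro hB
    refine c1_62 G hG c hB ((mem_Jv51 G).2 ⟨i1, rfl⟩) (y := s' (p k0))
      ((mem_Jv51 G).2 ⟨a1, ?_⟩) ?_ r1 ra t1.le (by rw [ta]; exact c.gQ.le)
    · rw [← a2]
      exact (O.pf _ a1 (by rw [a2]; exact i1)).symm
    · intro hh
      rw [hh, ta] at t1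
      have := c.gQ
      linarith

/-- a token determines its walk -/
theorem tk_uniq89 (hG : G.Geo al kp U) (O : Or62 G opp s s' p q) (c : Ch62 al Q opp g m)
    (S : Sq89 al Q opp g m) {t0 t1 : V × V} (h : St89 G Q opp g m p q t0)
    (h' : St89 G Q opp g m p q t1) {k : V × V} {n : ℕ}
    (hk : Tk89 G al Q opp g m s s' p q t0 k n) (hk' : Tk89 G al Q opp g m s s' p q t1 k n) :
    t0 = t1 := by
  have hn : ∀ t, St89 G Q opp g m p q t → Cl62 G al (F89 G Q opp g m) opp g m s s' p q t k n →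
      n ≤ 1 := by
    rintro t _ ⟨i, τ, _, ⟨_, h, _⟩ | ⟨l, _, _, _, _, _, h⟩ | ⟨l, _, _, _, _, _, h⟩⟩ <;> omega
  have hfin : s (q t0) = s (q t1) → t0 = t1 := by
    intro h3
    have h4 : q t0 = q t1 := by
      rw [← O.s12 _ h.2.2.2.2.2.1, h3, O.s12 _ h'.2.2.2.2.2.1]
    rw [← O.qp _ h.1 h.2.2.2.2.2.1, h4, O.qp _ h'.1 h'.2.2.2.2.2.1]
  have e1 := (k0_89 G O S h).1
  have e1' := (k0_89 G O S h').1
  rcases hk with hk | ⟨_, _, h3, h4⟩ | ⟨_, _, h3, h4⟩ <;>
    rcases hk' with hk' | ⟨_, _, k3, k4⟩ | ⟨_, _, k3, k4⟩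
  · exact cl_uniq62 G O c hk hk'
  · have := hn _ h hk
    omega
  · have := hn _ h hk
    omega
  · have := hn _ h' hk'
    omega
  · exact hfin (h3.symm.trans k3)
  · omega
  · have := hn _ h' hk'
    omega
  · omega
  · apply hfin
    rw [← O.s12 _ e1, ← h3, k3, O.s12 _ e1']

/-- the flip of the two halves -/
def fl89n (n : ℕ) : ℕ := if n = 0 then 1 else if n = 1 then 0 else n

/-- tokens of the two orientations -/
theorem tk_om89 (hG : G.Geo al kp U) (hR : Rf G al opp) (O : Or62 G opp (sg G) s' p q)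
    (c : Ch62 al Q opp g m) (S : Sq89 al Q opp g m)
    (hsum : ∀ v ∈ G.P, ∑ x ∈ Jv G v, TH G x ≤ 2 * Real.pi) {t0 t1 : V × V}
    (h : St89 G Q opp g m p q t0) (h' : St89 G Q opp g m q p t1) {k : V × V} {n : ℕ}
    (hk : Tk89 G al Q opp g m (sg G) s' p q t0 k n)
    (hk' : Tk89 G al Q opp g m s' (sg G) q p t1 k (fl89n n)) : t0.1 = t1.1 := by
  obtain ⟨c1, c2, c3⟩ := tk_fact89 G hG O c S h hk
  obtain ⟨d1, d2, d3⟩ := tk_fact89 G hG O.mirror c S h' hk'
  have hm := S.hm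
  have hnQ : ∀ j, j ≤ m → TH G k = g j → TH G k = Q → False := by
    intro j hj h1 h2
    have := c.gm hj
    linarith
  rcases c3 with ⟨⟨j, hj, a1⟩, a2, a3⟩ | ⟨a1, a2, a3, a4, a5⟩ | ⟨a1, a2, a3, a4, a5, a6, a7, a8⟩
  · rcases d3 with ⟨⟨j', hj', b1⟩, b2, b3⟩ | ⟨b1, b2, _⟩ | ⟨b1, b2, _⟩
    · exfalso
      rcases a3 with ⟨n0, n1, n2⟩ | ⟨n0, n1, n2, n3⟩
      · subst n0
        rcases b3 with ⟨k0, k1, k2⟩ | ⟨k0, k1, k2, k3⟩
        · exact absurd k0 (by unfold fl89n; norm_num)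
        · exact RC_ne51 G k2 n2
      · subst n0
        rcases b3 with ⟨k0, k1, k2⟩ | ⟨k0, k1, k2, k3⟩
        · exact RC_ne51 G n2 k2
        · exact absurd k0 (by unfold fl89n; norm_num)
    · exact absurd b2 (fun h2 => hnQ j hj a1 h2)
    · exact absurd b2 (fun h2 => hnQ j hj a1 h2)
  · subst a1
    rcases d3 with ⟨⟨j', hj', b1⟩, b2, b3⟩ | ⟨b1, b2, b3, b4, b5⟩ | ⟨b1, b2, _⟩
    · exact absurd a2 (fun h2 => hnQ j' hj' b1 h2)
    · exfalso
      have hkP : k.1 ∈ G.P := by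
        rw [mem_iJ71] at c1
        exact G.mem _ _ (G.sub c1.1.1)
      exact dbl89 G hG O c c1 c2 a2 (hsum _ hkP) (fun j hj => a5 j (by omega))
        (fun j hj => b5 j (by omega))
    · exact absurd b1 (by unfold fl89n; norm_num)
  · subst a1
    rcases d3 with ⟨⟨j', hj', b1⟩, b2, b3⟩ | ⟨b1, b2, b3, b4, b5⟩ | ⟨b1, b2, b3, b4, _⟩
    · exact absurd a2 (fun h2 => hnQ j' hj' b1 h2)
    · exact absurd b1 (by unfold fl89n; norm_num)
    · have h6 := h.2.2.2.2.2.1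
      have h6' := h'.2.2.2.2.2.1
      have r6' := h'.2.2.2.2.2.2.1
      rw [← R4_89 G hG hR O h6' r6'] at b4
      have h7 : q t0 = p t1 := by
        have h8 : sg G (q t0) = sg G (p t1) := by
          rw [← O.s12 _ (O.s1 _ h6), ← a4, b4, O.s12 _ (O.s1 _ h6')]
        rw [← O.s12 _ h6, h8, O.s12 _ h6']
      rw [← O.qf _ h.1 h6, h7]
      exact O.pf _ h'.1 h6'

end D

end

end Pool.Agent.PEN
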