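import Pool.Agent.P4.W4_71
import Pool.Agent.P4.B51c

/-! # PENNY, version 4: inequality B over `Geo4` (copies of B51, B51b, B51c) -/

set_option autoImplicit false

namespace Pool.Agent.PEN.W4

open Classical UpperHalfPlane

noncomputable section

section
variable {V : Type} (G : Tg V) {al : ℝ} {kp : V → V → ℝ} {U : ℕ → ℝ}

theorem sg_mem51 (hG : G.Geo4 al kp U) {x : V × V} (hx : x ∈ iJ G) :
    sg G x ∈ iJ G ∧ G.cl (sg G x) = G.cl x := by
  rw [mem_iJ71] at hx
  have h1 := inn_rot27 G hx.1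
  obtain ⟨h2, h3, h4⟩ := og71 G hG h1
  refine ⟨(mem_iJ71 G).2 ⟨h3, h2⟩, ?_⟩
  have h5 : G.cl (x.2, G.ap x.1 x.2) = G.cl x := by
    unfold Tg.cl
    rw [tri_rot66 G hx.1.1]
  exact h4.trans h5

theorem sg_inj51 (hG : G.Geo4 al kp U) {x y : V × V} (hx : x ∈ iJ G) (hy : y ∈ iJ G)
    (h : sg G x = sg G y) : x = y := by
  obtain ⟨w, u⟩ := x
  obtain ⟨w', u'⟩ := y
  rw [mem_iJ71] at hx hy
  obtain ⟨h1, h2⟩ := hx
  obtain ⟨h3, h4⟩ := hy
  have hu : u = u' := congrArg Prod.fst h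
  subst hu
  have ho : G.og u (G.ap w u) = G.og u (G.ap w' u) := congrArg Prod.snd h
  have hO : G.HasO u (G.ap w u) := hasO71 G hG (inn_rot27 G h1)
  have hO' : G.HasO u (G.ap w' u) := hasO71 G hG (inn_rot27 G h3)
  rcases le_total (Nat.find hO) (Nat.find hO') with hle | hle
  · rw [sg_inj_aux51 G h1 h2 h3 hO hO' hle ho]
  · rw [sg_inj_aux51 G h3 h4 h1 hO' hO hle ho.symm]

/-- at a point of `N` every dart is inner -/
theorem inN_all51 (hG : G.Geo4 al kp U) {v : V} (hv : v ∈ inN G) :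
    v ∈ G.P ∧ ¬ G.bd v ∧ (∀ a, (v, a) ∈ G.D → G.inn (v, a)) ∧
      ∀ a, (v, a) ∈ G.D → G.inn (a, v) := by
  unfold inN at hv
  rw [Finset.mem_filter] at hv
  obtain ⟨hv, hno⟩ := hv
  have hb : ¬ G.bd v := fun hb => hno (bd_oJ G hG hv hb)
  have hall : ∀ a, (v, a) ∈ G.D → G.con v a → G.inn (v, a) := by
    intro a h1 h2
    by_contra h3
    exact hno ⟨a, (mem_oJ66 G).2 ⟨h1, h2, h3⟩⟩
  have key : ∀ a, (v, a) ∈ G.D → G.inn (v, a) := by
    intro a ha
    by_contra hna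
    obtain ⟨S, hmem⟩ : ∃ S : Finset V, ∀ b, b ∈ S ↔ (v, b) ∈ G.D ∧ ¬ G.inn (v, b) :=
      ⟨_, mem_img66 G v (fun b => ¬ G.inn (v, b))⟩
    have hfb : ∀ b ∈ S, G.ap v (G.bk v b) = b := by
      intro b hb'
      obtain ⟨h1, h2⟩ := (hmem b).1 hb'
      exact fw_bk71 G (G.int2 _ _ hv hb h1)
    have hbk : ∀ b ∈ S, G.bk v b ∈ S := by
      intro b hb'
      obtain ⟨h1, h2⟩ := (hmem b).1 hb'
      have h3 : (b, v) ∈ G.Dp := G.int2 _ _ hv hb h1
      have h4 : (v, b) ∈ G.Dp := G.int1 _ _ hv hb h1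
      have hc : ¬ G.con v b := fun hc => h2 (hall b h1 hc)
      have h5 : (v, G.ap b v) ∈ G.Dp := G.ap1 _ _ h3
      refine (hmem _).2 ⟨G.sub h5, fun h6 => h2 ?_⟩
      have h7 : G.cl (v, G.ap b v) = G.cl (b, v) := by
        unfold Tg.cl
        have := tri_rot66 G (x := (b, v)) h3
        dsimp only at this
        rw [this]
      have h8 : G.cl (b, v) = G.cl (v, b) := by
        unfold Tg.cl
        refine SimpleGraph.ConnectedComponent.sound (SimpleGraph.Adj.reachable ?_)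
        exact ⟨(tri_swap66 G h4 h3).symm, b, v, h3, h4, fun h => hc (G.csymm _ _ h), rfl, rfl⟩
      exact inn_of_cl27 G h6 h4 (by
        rw [← h8, ← h7]
        rfl)
    have himg : S.image (G.bk v) = S := by
      apply Finset.eq_of_subset_of_card_le
      · intro b hb
        obtain ⟨c, hc, rfl⟩ := Finset.mem_image.1 hb
        exact hbk c hc
      · rw [Finset.card_image_of_injOn]
        intro b hb c hc hbc
        rw [← hfb b (Finset.mem_coe.1 hb), ← hfb c (Finset.mem_coe.1 hc)]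
        exact congrArg _ hbc
    have hfw : ∀ b ∈ S, G.ap v b ∈ S := by
      intro b hb
      rw [← himg] at hb
      obtain ⟨c, hc, rfl⟩ := Finset.mem_image.1 hb
      rw [hfb c hc]
      exact hc
    have hne : S.Nonempty := ⟨a, (hmem a).2 ⟨ha, hna⟩⟩
    have h1 := hG.turn v hv hb S hne (fun b hb => ((hmem b).1 hb).1) hfw
    obtain ⟨c, hc1, hc2⟩ := con_ex66 G hG hv
    have hcS : c ∉ S := fun h2 => ((hmem c).1 h2).2 (hall c hc1 hc2)
    have h2 : ∑ b ∈ insert c S, G.th v b ≤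
        ∑ x ∈ G.D.filter (fun x => x.1 = v), G.th x.1 x.2 := by
      have e := Finset.sum_image (s := insert c S) (g := fun b => (v, b))
        (f := fun x : V × V => G.th x.1 x.2) (fun x _ y _ h => (Prod.mk.inj h).2)
      dsimp only at e
      rw [← e]
      apply Finset.sum_le_sum_of_subset_of_nonneg
      · intro x hx
        obtain ⟨b, hb, rfl⟩ := Finset.mem_image.1 hx
        rw [Finset.mem_filter]
        refine ⟨?_, rfl⟩
        rcases Finset.mem_insert.1 hb with rfl | hb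
        · exact hc1
        · exact ((hmem b).1 hb).1
      · rintro ⟨x1, x2⟩ hx _
        rw [Finset.mem_filter] at hx
        obtain ⟨h3, h4⟩ := hx
        simp only at h4
        subst h4
        exact (G.thpos _ _ (G.int1 _ _ hv hb h3)).le
    rw [hG.tot v hv hb, Finset.sum_insert hcS] at h2
    have h3 := G.thpos _ _ (G.int1 _ _ hv hb hc1)
    linarith
  refine ⟨hv, hb, key, fun a ha => ?_⟩
  have h3 : (a, v) ∈ G.Dp := G.int2 _ _ hv hb ha
  have h5 : (v, G.ap a v) ∈ G.Dp := G.ap1 _ _ h3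
  refine inn_of_cl27 G (key _ (G.sub h5)) h3 ?_
  unfold Tg.cl
  have := tri_rot66 G (x := (a, v)) h3
  dsimp only at this
  rw [this]

/-- a set of contact darts at a point of `N` closed under the predecessor map is everything -/
theorem closed51 (hG : G.Geo4 al kp U) {v : V} (hv : v ∈ inN G) (F1 : Finset (V × V))
    (hsub : ∀ x ∈ F1, x ∈ iJ G ∧ x.1 = v) (hne : F1.Nonempty)
    (hcl : ∀ x ∈ F1, sg G (x.2, x.1) ∈ F1) :
    ∀ x ∈ iJ G, x.1 = v → x ∈ F1 := by
  obtain ⟨hvP, hb, hall, hall'⟩ := inN_all51 G hG hv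
  rintro ⟨v', c⟩ hc hc1
  simp only at hc1
  subst hc1
  by_contra hcF
  rw [mem_iJ71] at hc
  obtain ⟨hc1, hc2⟩ := hc
  dsimp only at hc2
  obtain ⟨S, hmem⟩ : ∃ S : Finset V, ∀ b, b ∈ S ↔ (v', b) ∈ G.D ∧ (v', G.og v' b) ∈ F1 :=
    ⟨_, mem_img66 G v' (fun b => (v', G.og v' b) ∈ F1)⟩
  have hfb : ∀ b ∈ S, G.ap v' (G.bk v' b) = b := by
    intro b hb'
    obtain ⟨h1, h2⟩ := (hmem b).1 hb'
    exact fw_bk71 G (G.int2 _ _ hvP hb h1)
  have hbk : ∀ b ∈ S, G.bk v' b ∈ S := by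
    intro b hb'
    obtain ⟨h1, h2⟩ := (hmem b).1 hb'
    have h3 : (b, v') ∈ G.Dp := G.int2 _ _ hvP hb h1
    have h5 : (v', G.ap b v') ∈ G.Dp := G.ap1 _ _ h3
    refine (hmem _).2 ⟨G.sub h5, ?_⟩
    by_cases hc : G.con v' b
    · rw [(og_self66 G hc).2] at h2
      exact hcl _ h2
    · rw [og_bk51 G (hasO71 G hG (hall b h1)) hc]
      exact h2
  have himg : S.image (G.bk v') = S := by
    apply Finset.eq_of_subset_of_card_le
    · intro b hb
      obtain ⟨c, hc, rfl⟩ := Finset.mem_image.1 hb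
      exact hbk c hc
    · rw [Finset.card_image_of_injOn]
      intro b hb c hc hbc
      rw [← hfb b (Finset.mem_coe.1 hb), ← hfb c (Finset.mem_coe.1 hc)]
      exact congrArg _ hbc
  have hfw : ∀ b ∈ S, G.ap v' b ∈ S := by
    intro b hb
    rw [← himg] at hb
    obtain ⟨c, hc, rfl⟩ := Finset.mem_image.1 hb
    rw [hfb c hc]
    exact hc
  have hneS : S.Nonempty := by
    obtain ⟨⟨y1, y2⟩, hy⟩ := hne
    obtain ⟨h1, h2⟩ := hsub _ hy
    simp only at h2
    subst h2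
    rw [mem_iJ71] at h1
    exact ⟨y2, (hmem _).2 ⟨G.sub h1.1.1, by rw [(og_self66 G h1.2).2]; exact hy⟩⟩
  have h1 := hG.turn v' hvP hb S hneS (fun b hb => ((hmem b).1 hb).1) hfw
  have hcS : c ∉ S := by
    intro h2
    have h3 := ((hmem c).1 h2).2
    rw [(og_self66 G hc2).2] at h3
    exact hcF h3
  have hcD : (v', c) ∈ G.D := G.sub hc1.1
  have h2 : ∑ b ∈ insert c S, G.th v' b ≤
      ∑ x ∈ G.D.filter (fun x => x.1 = v'), G.th x.1 x.2 := by
    have e := Finset.sum_image (s := insert c S) (g := fun b => (v', b))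
      (f := fun x : V × V => G.th x.1 x.2) (fun x _ y _ h => (Prod.mk.inj h).2)
    dsimp only at e
    rw [← e]
    apply Finset.sum_le_sum_of_subset_of_nonneg
    · intro x hx
      obtain ⟨b, hb, rfl⟩ := Finset.mem_image.1 hx
      rw [Finset.mem_filter]
      refine ⟨?_, rfl⟩
      rcases Finset.mem_insert.1 hb with rfl | hb
      · exact hcD
      · exact ((hmem b).1 hb).1
    · rintro ⟨x1, x2⟩ hx _
      rw [Finset.mem_filter] at hx
      obtain ⟨h3, h4⟩ := hx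
      simp only at h4
      subst h4
      exact (G.thpos _ _ (G.int1 _ _ hvP hb h3)).le
  rw [hG.tot v' hvP hb, Finset.sum_insert hcS] at h2
  have h3 := G.thpos _ _ (G.int1 _ _ hvP hb hcD)
  linarith

/-- the gap of a contact triangle -/
theorem TH_T51 (hG : G.Geo4 al kp U) {x : V × V} (hx : x ∈ iJ G) (hI : G.cI (G.cl x) = ∅) :
    TH G x = al := by
  have hC := cl_iJ71 G hx
  have hxJ := iJ_cJ51 G hx
  have hB := cB_of_iC66 G hC
  have hcon : ∀ y ∈ G.cD (G.cl x), G.con y.1 y.2 := by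
    intro y hy
    by_contra hc
    have := mem_cI11 G hB hy hc
    rw [hI] at this
    exact absurd this (Finset.notMem_empty _)
  have hxD := cJ_sub66 G _ hxJ
  have h2 := gp_sub71 G hG hC hxJ
  rw [hI, Finset.filter_empty] at h2
  have h3 : gp G x = {x} := by
    apply Finset.Subset.antisymm
    · exact h2
    · rw [Finset.singleton_subset_iff]
      exact gp_self71 G hx
  unfold TH
  rw [h3, Finset.sum_singleton, hG.tcon _ _ ((mem_cD66 G).1 hxD).1 (hcon _ hxD)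
    (hcon _ (rot_cD66 G hxD)) (hcon _ (rot_cD66' G hxD))]

theorem TH_R51 (hG : G.Geo4 al kp U) {x : V × V} (hx : x ∈ iJ G) (h : RC G (G.cl x)) :
    TH G x ≤ 2 * al :=
  wc_two71 G hG (cl_iJ71 G hx) h.2 x (iJ_cJ51 G hx) h.1

theorem TH_bw51 (hG : G.Geo4 al kp U) {x : V × V} (hx : x ∈ iJ G) :
    TH G x ≤ al * bw G al x := by
  unfold bw
  split_ifs with h1 h2
  · rw [TH_T51 G hG hx h1]
    push_cast
    linarith
  · have := TH_R51 G hG hx h2
    push_cast
    linarith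
  · have := Nat.le_ceil (TH G x / al)
    rw [div_le_iff₀ (al_pos71 G hG)] at this
    unfold wc
    linarith

/-- two corners of a rhombus are in `F`, two are not -/
theorem alt51 (hG : G.Geo4 al kp U) (F : V × V → Prop)
    (hF : ∀ x ∈ iJ G, RC G (G.cl x) → (F (sg G x) ↔ ¬ F x))
    {C : G.adj.ConnectedComponent} (hC : C ∈ G.iC) (hR : RC G C) :
    ((G.cJ C).filter F).card = 2 := by
  have hsplit := card_split66 G C
  have hB : (G.cB C).card = 0 := by
    rw [cB_of_iC66 G hC]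
    rfl
  have h4 : (G.cJ C).card = 4 := by
    have h1 := hR.1
    have h2 := hR.2
    omega
  have hmem : ∀ x ∈ G.cJ C, sg G x ∈ G.cJ C ∧ (F (sg G x) ↔ ¬ F x) := by
    intro x hx
    obtain ⟨h1, h2⟩ := cJ_iJ51 G hC hx
    obtain ⟨h3, h5⟩ := sg_mem51 G hG h1
    refine ⟨?_, hF x h1 (by rw [h2]; exact hR)⟩
    have := iJ_cJ51 G h3
    rw [h5, h2] at this
    exact this
  have hinj : ∀ x ∈ G.cJ C, ∀ y ∈ G.cJ C, sg G x = sg G y → x = y := fun x hx y hy h =>
    sg_inj51 G hG (cJ_iJ51 G hC hx).1 (cJ_iJ51 G hC hy).1 h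
  have h1 : ((G.cJ C).filter F).card ≤ ((G.cJ C).filter (fun x => ¬ F x)).card := by
    apply Finset.card_le_card_of_injOn (sg G)
    · intro x hx
      rw [Finset.mem_coe, Finset.mem_filter] at hx
      rw [Finset.mem_coe, Finset.mem_filter]
      obtain ⟨h5, h6⟩ := hmem x hx.1
      exact ⟨h5, fun h7 => (h6.1 h7) hx.2⟩
    · intro x hx y hy h
      rw [Finset.mem_coe, Finset.mem_filter] at hx hy
      exact hinj x hx.1 y hy.1 h
  have h2 : ((G.cJ C).filter (fun x => ¬ F x)).card ≤ ((G.cJ C).filter F).card := by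
    apply Finset.card_le_card_of_injOn (sg G)
    · intro x hx
      rw [Finset.mem_coe, Finset.mem_filter] at hx
      rw [Finset.mem_coe, Finset.mem_filter]
      obtain ⟨h5, h6⟩ := hmem x hx.1
      exact ⟨h5, h6.2 hx.2⟩
    · intro x hx y hy h
      rw [Finset.mem_coe, Finset.mem_filter] at hx hy
      exact hinj x hx.1 y hy.1 h
  have h3 := Finset.card_filter_add_card_filter_not (s := G.cJ C) F
  omega

/-- the class sums of inequality B -/
theorem clsum51 (hG : G.Geo4 al kp U) (F : V × V → Prop)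
    (hF : ∀ x ∈ iJ G, RC G (G.cl x) → (F (sg G x) ↔ ¬ F x))
    {C : G.adj.ConnectedComponent} (hC : C ∈ G.iC)
    (hA : A3 al * (G.cT C).card ≤ ∑ x ∈ G.cD C, G.ar x.1 x.2 / 3)
    (hP : (G.cT C).card = 3 → (G.cI C).card = 4 → ∑ x ∈ G.cJ C, wc G al x ≤ 12) :
    ∑ x ∈ G.cJ C, (bw G al x + xw G F x) ≤ 3 * (G.cT C).card + 2 * (G.cI C).card := by
  have hal := al_pos71 G hG
  have hcl : ∀ x ∈ G.cJ C, G.cl x = C := fun x hx => (cJ_iJ51 G hC hx).2
  have hsplit := card_split66 G C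
  have hB : (G.cB C).card = 0 := by
    rw [cB_of_iC66 G hC]
    rfl
  by_cases hI : G.cI C = ∅
  · have h1 : ∑ x ∈ G.cJ C, (bw G al x + xw G F x) = ∑ x ∈ G.cJ C, 1 := by
      refine Finset.sum_congr rfl fun x hx => ?_
      unfold bw xw
      rw [hcl x hx, if_pos hI, if_pos hI]
    rw [h1, Finset.sum_const, smul_eq_mul, mul_one]
    omega
  by_cases hR : RC G C
  · have h1 : ∑ x ∈ G.cJ C, (bw G al x + xw G F x) =
        ∑ x ∈ G.cJ C, (2 + if F x then 1 else 0) := by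
      refine Finset.sum_congr rfl fun x hx => ?_
      unfold bw xw
      rw [hcl x hx, if_neg hI, if_neg hI, if_pos hR, if_pos hR]
    have h2 := alt51 G hG F hF hC hR
    rw [h1, Finset.sum_add_distrib, Finset.sum_const, smul_eq_mul, ← Finset.card_filter, h2]
    have h3 := hR.1
    have h4 := hR.2
    omega
  · have h1 : ∑ x ∈ G.cJ C, (bw G al x + xw G F x) =
        ∑ x ∈ G.cJ C, wc G al x + (G.cJ C).card := by
      rw [Finset.card_eq_sum_ones, ← Finset.sum_add_distrib]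
      refine Finset.sum_congr rfl fun x hx => ?_
      unfold bw xw
      rw [hcl x hx, if_neg hI, if_neg hI, if_neg hR, if_neg hR]
    rw [h1]
    have hIpos := Finset.card_pos.2 (Finset.nonempty_iff_ne_empty.2 hI)
    have hconn := conn G C
    have hm1 : (G.cT C).card ≠ 1 := fun h => hI (cI_one11 G h)
    have hR' : ¬ ((G.cT C).card = 2 ∧ (G.cI C).card = 2) := hR
    by_cases hP5 : (G.cT C).card = 3 ∧ (G.cI C).card = 4
    · have := hP hP5.1 hP5.2
      obtain ⟨h3, h4⟩ := hP5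
      omega
    rcases Finset.eq_empty_or_nonempty (G.cJ C) with hJ | hJ
    · rw [hJ, Finset.sum_empty, Finset.card_empty]
      omega
    have h2 : (∑ x ∈ G.cJ C, wc G al x : ℕ) < 3 * (G.cT C).card + (G.cJ C).card := by
      have h2 : ((∑ x ∈ G.cJ C, wc G al x : ℕ) : ℝ) <
          ((3 * (G.cT C).card + (G.cJ C).card : ℕ) : ℝ) := by
        rw [Nat.cast_sum]
        calc ∑ x ∈ G.cJ C, (wc G al x : ℝ) < ∑ x ∈ G.cJ C, (TH G x / al + 1) := by
              apply Finset.sum_lt_sum_of_nonempty hJ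
              intro x hx
              unfold wc
              apply Nat.ceil_lt_add_one
              exact (div_pos (TH_pos71 G (cJ_iJ51 G hC hx).1) hal).le
          _ = (∑ x ∈ G.cJ C, TH G x) / al + (G.cJ C).card := by
              rw [Finset.sum_add_distrib, Finset.sum_div]
              simp
          _ ≤ ((3 * (G.cT C).card + (G.cJ C).card : ℕ) : ℝ) := by
              rw [sum_TH_class71 G hG hC, sum_th71]
              push_cast
              have h3 : (Real.pi * (G.cT C).card - ∑ x ∈ G.cD C, G.ar x.1 x.2 / 3) / al ≤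
                  3 * (G.cT C).card := by
                rw [div_le_iff₀ hal]
                unfold A3 at hA
                linarith
              linarith
      exact_mod_cast h2
    omega

/-- the sum of all weights -/
theorem wsum51 (hG : G.Geo4 al kp U) (F : V × V → Prop)
    (hF : ∀ x ∈ iJ G, RC G (G.cl x) → (F (sg G x) ↔ ¬ F x))
    (hA : ∀ C ∈ G.iC, A3 al * (G.cT C).card ≤ ∑ x ∈ G.cD C, G.ar x.1 x.2 / 3)
    (hP : ∀ C ∈ G.iC, (G.cT C).card = 3 → (G.cI C).card = 4 → ∑ x ∈ G.cJ C, wc G al x ≤ 12) :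
    ∑ x ∈ iJ G, (bw G al x + xw G F x) ≤ G.iD.card + 2 * G.iI.card := by
  have h1 : ((∑ x ∈ iJ G, (bw G al x + xw G F x) : ℕ) : ℝ) =
      ((∑ C ∈ G.iC, ∑ x ∈ G.cJ C, (bw G al x + xw G F x) : ℕ) : ℝ) := by
    push_cast
    exact sum_iJ71 G (fun x => (bw G al x : ℝ) + (xw G F x : ℝ))
  have h2 : ∑ x ∈ iJ G, (bw G al x + xw G F x) =
      ∑ C ∈ G.iC, ∑ x ∈ G.cJ C, (bw G al x + xw G F x) := by exact_mod_cast h1
  rw [h2, card_iD27, ← sum_cI66 G, Finset.mul_sum, Finset.mul_sum, ← Finset.sum_add_distrib]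
  exact Finset.sum_le_sum fun C hC => clsum51 G hG F hF hC (hA C hC) (hP C hC)

theorem Jv_ne51 (hG : G.Geo4 al kp U) {v : V} (hv : v ∈ inN G) : (Jv G v).Nonempty := by
  obtain ⟨h1, h2, h3, h4⟩ := inN_all51 G hG hv
  obtain ⟨a, h5, h6⟩ := con_ex66 G hG h1
  exact ⟨(v, a), (mem_Jv51 G).2 ⟨(mem_iJ71 G).2 ⟨h3 a h5, h6⟩, rfl⟩⟩

theorem Jv_swap51 (hG : G.Geo4 al kp U) {v : V} (hv : v ∈ inN G) {x : V × V}
    (hx : x ∈ Jv G v) : (x.2, x.1) ∈ iJ G ∧ sg G (x.2, x.1) ∈ Jv G v := by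
  obtain ⟨h1, h2, h3, h4⟩ := inN_all51 G hG hv
  rw [mem_Jv51] at hx
  obtain ⟨h5, h6⟩ := hx
  have h7 := h5
  rw [mem_iJ71] at h7
  have h8 : (x.2, x.1) ∈ iJ G := by
    rw [mem_iJ71]
    refine ⟨?_, G.csymm _ _ h7.2⟩
    rw [h6]
    apply h4
    rw [← h6]
    exact G.sub h7.1.1
  exact ⟨h8, (mem_Jv51 G).2 ⟨(sg_mem51 G hG h8).1, h6⟩⟩

theorem base7_51 (hG : G.Geo4 al kp U) {v : V} (hv : v ∈ inN G) :
    7 ≤ ∑ x ∈ Jv G v, bw G al x := by
  have hal := al_pos71 G hG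
  have h1 := sum_TH_point71 G hG hv
  have h2 : ∑ x ∈ Jv G v, TH G x ≤ ∑ x ∈ Jv G v, al * (bw G al x : ℝ) :=
    Finset.sum_le_sum fun x hx => TH_bw51 G hG ((mem_Jv51 G).1 hx).1
  unfold Jv at h2 ⊢
  rw [h1, ← Finset.mul_sum, ← Nat.cast_sum] at h2
  have h3 : (6 : ℝ) < ((∑ x ∈ (iJ G).filter (fun x => x.1 = v), bw G al x : ℕ) : ℝ) := by
    by_contra h
    push Not at h
    have := mul_le_mul_of_nonneg_left h hal.le
    linarith [hG.al2]
  have h4 : 6 < ∑ x ∈ (iJ G).filter (fun x => x.1 = v), bw G al x := by exact_mod_cast h3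
  omega

/-- **the points of `N`** -/
theorem point51 (hG : G.Geo4 al kp U) (F : V × V → Prop)
    {v : V} (hv : v ∈ inN G) :
    (∑ x ∈ Jv G v, (bw G al x + xw G F x) = 7 ∧ ((Jv G v).filter (ob G F)).card = 0 ∧
      ∑ x ∈ Jv G v, xw G F x = 0) ∨
    8 + ((Jv G v).filter (ob G F)).card ≤ ∑ x ∈ Jv G v, (bw G al x + xw G F x) := by
  have h7 := base7_51 G hG hv
  obtain ⟨F1, hF1⟩ : ∃ F1, F1 = (Jv G v).filter (fun x => RC G (G.cl x) ∧ F x) := ⟨_, rfl⟩
  have hmF : ∀ x, x ∈ F1 ↔ x ∈ Jv G v ∧ RC G (G.cl x) ∧ F x := by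
    intro x
    rw [hF1, Finset.mem_filter]
  have hs : F1.card ≤ ∑ x ∈ Jv G v, xw G F x := by
    rw [hF1, Finset.card_filter]
    exact Finset.sum_le_sum fun x _ => xw_ge51 G F x
  have hsub : (Jv G v).filter (ob G F) ⊆ F1 := by
    intro x hx
    rw [Finset.mem_filter] at hx
    exact (hmF x).2 ⟨hx.1, hx.2.2.1, hx.2.2.2.1⟩
  have hS := Finset.card_le_card hsub
  rw [Finset.sum_add_distrib]
  rcases Nat.lt_or_ge (∑ x ∈ Jv G v, bw G al x + ∑ x ∈ Jv G v, xw G F x) 8 with hlt | hge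
  · left
    refine ⟨by omega, by omega, by omega⟩
  · right
    by_contra hcon
    have hbw : ∑ x ∈ Jv G v, bw G al x = 7 := by omega
    have hxw : ∑ x ∈ Jv G v, xw G F x = F1.card := by omega
    have hSs : ((Jv G v).filter (ob G F)).card = F1.card := by omega
    have hpos : 0 < F1.card := by omega
    have heq : (Jv G v).filter (ob G F) = F1 := Finset.eq_of_subset_of_card_le hsub (by omega)
    -- no other face
    have hTR : ∀ x ∈ Jv G v, G.cI (G.cl x) = ∅ ∨ RC G (G.cl x) := by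
      intro x hx
      by_contra hno
      rw [not_or] at hno
      obtain ⟨n1, n2⟩ := hno
      have h1 : ∑ x ∈ Jv G v, (if RC G (G.cl x) ∧ F x then 1 else 0) <
          ∑ x ∈ Jv G v, xw G F x := by
        refine Finset.sum_lt_sum (fun x _ => xw_ge51 G F x) ⟨x, hx, ?_⟩
        unfold xw
        rw [if_neg n1, if_neg n2, if_neg (fun h => n2 h.1)]
        exact Nat.zero_lt_one
      rw [← Finset.card_filter, ← hF1] at h1
      omega
    -- a contact triangle
    obtain ⟨y, hy, hyT⟩ : ∃ y ∈ Jv G v, G.cI (G.cl y) = ∅ := by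
      by_contra hno
      push Not at hno
      have h1 : ∑ x ∈ Jv G v, bw G al x = ∑ x ∈ Jv G v, 2 := by
        refine Finset.sum_congr rfl fun x hx => ?_
        have h2 := Finset.nonempty_iff_ne_empty.1 (hno x hx)
        unfold bw
        rw [if_neg h2, if_pos ((hTR x hx).resolve_left h2)]
      rw [Finset.sum_const, smul_eq_mul] at h1
      omega
    have h1 := closed51 G hG hv F1 (fun x hx => (mem_Jv51 G).1 ((hmF x).1 hx).1)
      (Finset.card_pos.1 hpos) (by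
        intro x hx
        have hx' := hx
        rw [← heq, Finset.mem_filter] at hx'
        obtain ⟨h2, h3, h4, h5, h6, h7⟩ := hx'
        refine (hmF _).2 ⟨(Jv_swap51 G hG hv h2).2, ?_, h7⟩
        rw [(sg_mem51 G hG h3).2]
        exact h6)
    rw [mem_Jv51] at hy
    have h2 := (hmF _).1 (h1 y hy.1 hy.2)
    exact RC_ne51 G h2.2.1 hyT

/-- deficient points without a side between two rhombus corners outside `F` -/
theorem bad51 (hG : G.Geo4 al kp U) (F : V × V → Prop)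
    {v : V} (hv : v ∈ inN G)
    (h7 : ∑ x ∈ Jv G v, (bw G al x + xw G F x) = 7) (hx0 : ∑ x ∈ Jv G v, xw G F x = 0)
    (hno : ∀ x ∈ Jv G v, ¬ zb G F x) :
    ∃ x ∈ Jv G v, RC G (G.cl x) ∧ ¬ F x ∧ (TH G x = 2 * Real.pi - 5 * al ∨
      ∃ y ∈ Jv G v, y ≠ x ∧ RC G (G.cl y) ∧ ¬ F y ∧
        TH G x + TH G y = 2 * Real.pi - 3 * al) := by
  have hal := al_pos71 G hG
  have hb7 : ∑ x ∈ Jv G v, bw G al x = 7 := by
    rw [Finset.sum_add_distrib] at h7
    omega
  have hTR : ∀ x ∈ Jv G v, G.cI (G.cl x) = ∅ ∨ (RC G (G.cl x) ∧ ¬ F x) := by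
    intro x hx
    have h1 : xw G F x = 0 := by
      rw [Finset.sum_eq_zero_iff] at hx0
      exact hx0 x hx
    unfold xw at h1
    by_cases h2 : G.cI (G.cl x) = ∅
    · exact Or.inl h2
    right
    rw [if_neg h2] at h1
    by_cases h3 : RC G (G.cl x)
    · rw [if_pos h3] at h1
      by_cases h4 : F x
      · rw [if_pos h4] at h1
        omega
      · exact ⟨h3, h4⟩
    · rw [if_neg h3] at h1
      omega
  obtain ⟨JR, hJR⟩ : ∃ JR, JR = (Jv G v).filter (fun x => RC G (G.cl x)) := ⟨_, rfl⟩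
  obtain ⟨JT, hJT⟩ : ∃ JT, JT = (Jv G v).filter (fun x => ¬ RC G (G.cl x)) := ⟨_, rfl⟩
  have hmR : ∀ x, x ∈ JR ↔ x ∈ Jv G v ∧ RC G (G.cl x) := by
    intro x
    rw [hJR, Finset.mem_filter]
  have hmT : ∀ x, x ∈ JT ↔ x ∈ Jv G v ∧ ¬ RC G (G.cl x) := by
    intro x
    rw [hJT, Finset.mem_filter]
  have hTT : ∀ x ∈ JT, G.cI (G.cl x) = ∅ := by
    intro x hx
    rw [hmT] at hx
    exact (hTR x hx.1).resolve_right (fun h => hx.2 h.1)
  have hcount : JT.card + 2 * JR.card = 7 := by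
    rw [← hb7, ← Finset.sum_filter_add_sum_filter_not (Jv G v) (fun x => RC G (G.cl x)),
      ← hJR, ← hJT]
    have h1 : ∑ x ∈ JR, bw G al x = ∑ x ∈ JR, 2 := by
      refine Finset.sum_congr rfl fun x hx => ?_
      have h2 := ((hmR x).1 hx).2
      unfold bw
      rw [if_neg (RC_ne51 G h2), if_pos h2]
    have h3 : ∑ x ∈ JT, bw G al x = ∑ x ∈ JT, 1 := by
      refine Finset.sum_congr rfl fun x hx => ?_
      unfold bw
      rw [if_pos (hTT x hx)]
    rw [h1, h3, Finset.sum_const, Finset.sum_const, smul_eq_mul, smul_eq_mul]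
    omega
  have hang : (JT.card : ℝ) * al + ∑ x ∈ JR, TH G x = 2 * Real.pi := by
    have h1 := sum_TH_point71 G hG hv
    change ∑ x ∈ Jv G v, TH G x = _ at h1
    rw [← Finset.sum_filter_add_sum_filter_not (Jv G v) (fun x => RC G (G.cl x)),
      ← hJR, ← hJT] at h1
    have h3 : ∑ x ∈ JT, TH G x = ∑ x ∈ JT, al := by
      refine Finset.sum_congr rfl fun x hx => ?_
      exact TH_T51 G hG ((mem_Jv51 G).1 ((hmT x).1 hx).1).1 (hTT x hx)
    rw [h3, Finset.sum_const, nsmul_eq_mul] at h1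
    linarith
  have hle : JR.card ≤ JT.card := by
    apply Finset.card_le_card_of_injOn (fun x => sg G (x.2, x.1))
    · intro x hx
      rw [Finset.mem_coe] at hx
      rw [Finset.mem_coe]
      obtain ⟨h1, h2⟩ := (hmR x).1 hx
      obtain ⟨h3, h4⟩ := Jv_swap51 G hG hv h1
      refine (hmT _).2 ⟨h4, fun h5 => hno x h1 ?_⟩
      have h6 := (hTR _ h4).resolve_left (RC_ne51 G h5)
      have h7 := (hTR _ h1).resolve_left (RC_ne51 G h2)
      refine ⟨h3, h2, h7.2, ?_, h6.2⟩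
      rw [← (sg_mem51 G hG h3).2]
      exact h5
    · intro x hx y hy h
      rw [Finset.mem_coe] at hx hy
      have h1 := (Jv_swap51 G hG hv ((hmR x).1 hx).1).1
      have h2 := (Jv_swap51 G hG hv ((hmR y).1 hy).1).1
      have h3 := sg_inj51 G hG h1 h2 h
      have h4 := congrArg Prod.fst h3
      have h5 := congrArg Prod.snd h3
      exact Prod.ext h5 h4
  have hcases : JR.card = 0 ∨ JR.card = 1 ∨ JR.card = 2 := by omega
  rcases hcases with h0 | h0 | h0
  · exfalso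
    have h1 : JT.card = 7 := by omega
    rw [Finset.card_eq_zero] at h0
    rw [h1, h0, Finset.sum_empty] at hang
    push_cast at hang
    linarith [hG.al1]
  · obtain ⟨x, hx⟩ := Finset.card_eq_one.1 h0
    have h1 : JT.card = 5 := by omega
    rw [h1, hx, Finset.sum_singleton] at hang
    push_cast at hang
    have hxR := (hmR x).1 (by rw [hx]; exact Finset.mem_singleton_self x)
    refine ⟨x, hxR.1, hxR.2, ((hTR x hxR.1).resolve_left (RC_ne51 G hxR.2)).2, Or.inl ?_⟩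
    linarith
  · obtain ⟨x, y, hxy, hx⟩ := Finset.card_eq_two.1 h0
    have h1 : JT.card = 3 := by omega
    rw [h1, hx, Finset.sum_pair hxy] at hang
    push_cast at hang
    have hxR := (hmR x).1 (by rw [hx]; exact Finset.mem_insert_self _ _)
    have hyR := (hmR y).1 (by
      rw [hx]
      exact Finset.mem_insert_of_mem (Finset.mem_singleton_self _))
    refine ⟨x, hxR.1, hxR.2, ((hTR x hxR.1).resolve_left (RC_ne51 G hxR.2)).2, Or.inr
      ⟨y, hyR.1, hxy.symm, hyR.2, ((hTR y hyR.1).resolve_left (RC_ne51 G hyR.2)).2, ?_⟩⟩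
    linarith

/-- **inequality B, general form** -/
theorem B_ineq_gen (hG : G.Geo4 al kp U) (F : V × V → Prop)
    (hF : ∀ x ∈ iJ G, RC G (G.cl x) → (F (sg G x) ↔ ¬ F x))
    (hA : ∀ C ∈ G.iC, A3 al * (G.cT C).card ≤ ∑ x ∈ G.cD C, G.ar x.1 x.2 / 3)
    (hP : ∀ C ∈ G.iC, (G.cT C).card = 3 → (G.cI C).card = 4 → ∑ x ∈ G.cJ C, wc G al x ≤ 12) :
    (8 * al - 2 * Real.pi) * ((G.P.card : ℝ) - G.oJ.card) ≤
      2 * al * G.iI.card + (∑ x ∈ G.iD, G.ar x.1 x.2 / 3 - A3 al * (G.iD.card / 3)) +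
        al * (Kb G al F).card := by
  have hal := al_pos71 G hG
  have hpi := Real.pi_pos
  -- the chosen darts
  have hch : ∀ v, ∃ x, v ∈ inN G → x ∈ Jv G v ∧ ((∃ y ∈ Jv G v, zb G F y) → zb G F x) := by
    intro v
    by_cases hv : v ∈ inN G
    · by_cases h : ∃ y ∈ Jv G v, zb G F y
      · obtain ⟨y, hy, hy2⟩ := h
        exact ⟨y, fun _ => ⟨hy, fun _ => hy2⟩⟩
      · obtain ⟨y, hy⟩ := Jv_ne51 G hG hv
        exact ⟨y, fun _ => ⟨hy, fun h2 => absurd h2 h⟩⟩
    · obtain ⟨x⟩ : Nonempty (V × V) := ⟨(v, v)⟩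
      exact ⟨x, fun h => absurd h hv⟩
  choose p hp using hch
  obtain ⟨Df, hDf⟩ : ∃ Df, Df = (inN G).filter (fun v => ∑ x ∈ Jv G v,
      (bw G al x + xw G F x) = 7 ∧ ∃ x ∈ Jv G v, zb G F x) := ⟨_, rfl⟩
  have hmDf : ∀ v, v ∈ Df ↔ v ∈ inN G ∧ ∑ x ∈ Jv G v, (bw G al x + xw G F x) = 7 ∧
      ∃ x ∈ Jv G v, zb G F x := by
    intro v
    rw [hDf, Finset.mem_filter]
  have hmK : ∀ v, v ∈ Kb G al F ↔ v ∈ inN G ∧ ∑ x ∈ Jv G v, (bw G al x + xw G F x) = 7 ∧
      ∀ x ∈ Jv G v, ¬ zb G F x := by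
    intro v
    unfold Kb
    rw [Finset.mem_filter]
  obtain ⟨Pk, hPk⟩ : ∃ Pk, Pk = Df.image p := ⟨_, rfl⟩
  obtain ⟨Bk, hBk⟩ : ∃ Bk, Bk = (Kb G al F).image p := ⟨_, rfl⟩
  have hPk1 : ∀ x ∈ Pk, x ∈ iJ G ∧ zb G F x := by
    intro x hx
    rw [hPk] at hx
    obtain ⟨v, hv, rfl⟩ := Finset.mem_image.1 hx
    rw [hmDf] at hv
    obtain ⟨h1, h2⟩ := hp v hv.1
    exact ⟨((mem_Jv51 G).1 h1).1, h2 hv.2.2⟩
  have hBk1 : ∀ x ∈ Bk, x ∈ iJ G := by
    intro x hx
    rw [hBk] at hx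
    obtain ⟨v, hv, rfl⟩ := Finset.mem_image.1 hx
    rw [hmK] at hv
    exact ((mem_Jv51 G).1 (hp v hv.1).1).1
  obtain ⟨Sk, hSk⟩ : ∃ Sk, Sk = Pk.image (sg G) := ⟨_, rfl⟩
  have hSk1 : ∀ x ∈ Sk, x ∈ iJ G := by
    intro x hx
    rw [hSk] at hx
    obtain ⟨y, hy, rfl⟩ := Finset.mem_image.1 hx
    exact (sg_mem51 G hG (hPk1 y hy).1).1
  have hSkc : Sk.card = Pk.card := by
    rw [hSk]
    apply Finset.card_image_of_injOn
    intro x hx y hy h
    exact sg_inj51 G hG (hPk1 x hx).1 (hPk1 y hy).1 h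
  have hBkc : Bk.card ≤ (Kb G al F).card := by
    rw [hBk]
    exact Finset.card_image_le
  obtain ⟨w, hw⟩ : ∃ w : V × V → ℝ, ∀ x, w x = ((bw G al x + xw G F x : ℕ) : ℝ) +
      (if x ∈ Pk then 1 else 0) - (if x ∈ Sk then 1 else 0) + (if x ∈ Bk then 1 else 0) :=
    ⟨_, fun _ => rfl⟩
  have hsumw : ∀ J : Finset (V × V), ∑ x ∈ J, w x = ((∑ x ∈ J, (bw G al x + xw G F x) : ℕ) : ℝ) +
      ((J.filter (fun x => x ∈ Pk)).card : ℝ) - ((J.filter (fun x => x ∈ Sk)).card : ℝ) +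
        ((J.filter (fun x => x ∈ Bk)).card : ℝ) := by
    intro J
    rw [Finset.sum_congr rfl (fun x _ => hw x), Finset.sum_add_distrib, Finset.sum_sub_distrib,
      Finset.sum_add_distrib, Finset.sum_boole, Finset.sum_boole, Finset.sum_boole, Nat.cast_sum]
  have h1 := transfer71 G hG w 8 (fun C => ∑ x ∈ G.cJ C, w x) ?_ ?_ (fun C _ => le_rfl)
  · rw [← sum_iJ71 G w, hsumw] at h1
    have hf : ∀ S : Finset (V × V), (∀ x ∈ S, x ∈ iJ G) →
        (iJ G).filter (fun x => x ∈ S) = S := by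
      intro S hS
      ext x
      rw [Finset.mem_filter]
      exact ⟨fun h => h.2, fun h => ⟨hS x h, h⟩⟩
    rw [hf Pk (fun x hx => (hPk1 x hx).1), hf Sk hSk1, hf Bk hBk1, hSkc] at h1
    have h2 := wsum51 G hG F hF hA hP
    have h2' : ((∑ x ∈ iJ G, (bw G al x + xw G F x) : ℕ) : ℝ) ≤
        (G.iD.card : ℝ) + 2 * G.iI.card := by exact_mod_cast h2
    have h2'' : (Bk.card : ℝ) ≤ ((Kb G al F).card : ℝ) := by exact_mod_cast hBkc
    have h3 : (G.P.card : ℝ) - G.oJ.card ≤ (inN G).card := by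
      have := card_inN71 G
      have h4 : (G.P.card : ℝ) ≤ G.oJ.card + (inN G).card := by exact_mod_cast this
      linarith
    have h5 := mul_le_mul_of_nonneg_left h3
      (by linarith [hG.al1, hG.al2] : 0 ≤ 8 * al - 2 * Real.pi)
    have h6 : al * (((∑ x ∈ iJ G, (bw G al x + xw G F x) : ℕ) : ℝ) + Pk.card - Pk.card +
        Bk.card) ≤ al * ((G.iD.card : ℝ) + 2 * G.iI.card + (Kb G al F).card) :=
      mul_le_mul_of_nonneg_left (by linarith) hal.le
    unfold A3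
    linarith
  · intro x hx
    rw [hw]
    have h2 := TH_bw51 G hG hx
    have p1 : (0 : ℝ) ≤ (if x ∈ Pk then 1 else 0) := by split_ifs <;> norm_num
    have p2 : (0 : ℝ) ≤ (if x ∈ Bk then 1 else 0) := by split_ifs <;> norm_num
    by_cases hS : x ∈ Sk
    · rw [if_pos hS]
      rw [hSk] at hS
      obtain ⟨y, hy, hyx⟩ := Finset.mem_image.1 hS
      obtain ⟨h3, h4, h5, h6, h7⟩ := hPk1 y hy
      have h8 : RC G (G.cl x) := by
        rw [← hyx, (sg_mem51 G hG h3).2]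
        exact h5
      have h9 : F x := by
        rw [← hyx]
        exact (hF y h3 h5).2 h6
      have h10 := TH_R51 G hG hx h8
      have e1 : bw G al x = 2 := by
        unfold bw
        rw [if_neg (RC_ne51 G h8), if_pos h8]
      have e2 : xw G F x = 1 := by
        unfold xw
        rw [if_neg (RC_ne51 G h8), if_pos h8, if_pos h9]
      rw [e1, e2]
      push_cast
      nlinarith
    · rw [if_neg hS]
      push_cast
      have p3 : (0 : ℝ) ≤ (xw G F x : ℝ) := Nat.cast_nonneg _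
      nlinarith
  · intro v hv
    change (8 : ℝ) ≤ ∑ x ∈ Jv G v, w x
    rw [hsumw]
    have hS : ((Jv G v).filter (fun x => x ∈ Sk)).card ≤ ((Jv G v).filter (ob G F)).card := by
      calc ((Jv G v).filter (fun x => x ∈ Sk)).card ≤
          (((Jv G v).filter (ob G F)).image (fun x => sg G (x.2, x.1))).card := by
            apply Finset.card_le_card
            intro z hz
            rw [Finset.mem_filter, mem_Jv51, hSk] at hz
            obtain ⟨⟨h2, h3⟩, h4⟩ := hz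
            obtain ⟨y, hy, rfl⟩ := Finset.mem_image.1 h4
            obtain ⟨h5, h6⟩ := hPk1 y hy
            have h7 := zb_ob51 G F hF h5 h6
            rw [Finset.mem_image]
            refine ⟨(y.2, y.1), ?_, rfl⟩
            rw [Finset.mem_filter, mem_Jv51]
            exact ⟨⟨h6.1, h3⟩, h7⟩
        _ ≤ _ := Finset.card_image_le
    have hS' : (((Jv G v).filter (fun x => x ∈ Sk)).card : ℝ) ≤
        (((Jv G v).filter (ob G F)).card : ℝ) := by exact_mod_cast hS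
    have p1 : (0 : ℝ) ≤ (((Jv G v).filter (fun x => x ∈ Pk)).card : ℝ) := Nat.cast_nonneg _
    have p2 : (0 : ℝ) ≤ (((Jv G v).filter (fun x => x ∈ Bk)).card : ℝ) := Nat.cast_nonneg _
    rcases point51 G hG F hv with ⟨h2, h3, h4⟩ | h2
    · rw [h2]
      rw [h3] at hS'
      push_cast at hS' ⊢
      by_cases hz : ∃ x ∈ Jv G v, zb G F x
      · have h5 : p v ∈ (Jv G v).filter (fun x => x ∈ Pk) := by
          rw [Finset.mem_filter, hPk]
          exact ⟨(hp v hv).1, Finset.mem_image_of_mem p ((hmDf v).2 ⟨hv, h2, hz⟩)⟩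
        have h6 : (1 : ℝ) ≤ (((Jv G v).filter (fun x => x ∈ Pk)).card : ℝ) := by
          exact_mod_cast Finset.card_pos.2 ⟨_, h5⟩
        linarith
      · push Not at hz
        have h5 : p v ∈ (Jv G v).filter (fun x => x ∈ Bk) := by
          rw [Finset.mem_filter, hBk]
          exact ⟨(hp v hv).1, Finset.mem_image_of_mem p ((hmK v).2 ⟨hv, h2, hz⟩)⟩
        have h6 : (1 : ℝ) ≤ (((Jv G v).filter (fun x => x ∈ Bk)).card : ℝ) := by
          exact_mod_cast Finset.card_pos.2 ⟨_, h5⟩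
        linarith
    · have h2' : (8 : ℝ) + (((Jv G v).filter (ob G F)).card : ℝ) ≤
          ((∑ x ∈ Jv G v, (bw G al x + xw G F x) : ℕ) : ℝ) := by exact_mod_cast h2
      linarith

/-- **inequality B** without bad points: `F` contains the rhombus corners of angle `2π - 5 al` and
one of two rhombus corners at a point with angles adding to `2π - 3 al` -/
theorem B_ineq (hG : G.Geo4 al kp U) (F : V × V → Prop)
    (hF : ∀ x ∈ iJ G, RC G (G.cl x) → (F (sg G x) ↔ ¬ F x))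
    (h5 : ∀ x ∈ iJ G, RC G (G.cl x) → TH G x = 2 * Real.pi - 5 * al → F x)
    (h3 : ∀ x ∈ iJ G, ∀ y ∈ iJ G, RC G (G.cl x) → RC G (G.cl y) → x.1 = y.1 → x ≠ y →
      TH G x + TH G y = 2 * Real.pi - 3 * al → F x ∨ F y)
    (hA : ∀ C ∈ G.iC, A3 al * (G.cT C).card ≤ ∑ x ∈ G.cD C, G.ar x.1 x.2 / 3)
    (hP : ∀ C ∈ G.iC, (G.cT C).card = 3 → (G.cI C).card = 4 → ∑ x ∈ G.cJ C, wc G al x ≤ 12) :
    (8 * al - 2 * Real.pi) * ((G.P.card : ℝ) - G.oJ.card) ≤
      2 * al * G.iI.card + (∑ x ∈ G.iD, G.ar x.1 x.2 / 3 - A3 al * (G.iD.card / 3)) := by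
  have h1 := B_ineq_gen G hG F hF hA hP
  have h2 : Kb G al F = ∅ := by
    rw [Finset.eq_empty_iff_forall_notMem]
    intro v hv
    unfold Kb at hv
    rw [Finset.mem_filter] at hv
    obtain ⟨hv, h7, hno⟩ := hv
    have hx0 : ∑ x ∈ Jv G v, xw G F x = 0 := by
      have h8 := base7_51 G hG hv
      rw [Finset.sum_add_distrib] at h7
      omega
    obtain ⟨x, hx, hR, hnF, h9⟩ := bad51 G hG F hv h7 hx0 hno
    have hxJ := (mem_Jv51 G).1 hx
    rcases h9 with h9 | ⟨y, hy, hne, hyR, hyF, h9⟩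
    · exact hnF (h5 x hxJ.1 hR h9)
    · have hyJ := (mem_Jv51 G).1 hy
      rcases h3 x hxJ.1 y hyJ.1 hR hyR (hxJ.2.trans hyJ.2.symm) hne.symm h9 with h | h
      · exact hnF h
      · exact hyF h
  rw [h2, Finset.card_empty] at h1
  push_cast at h1
  linarith

end

end

end Pool.Agent.PEN.W4
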