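import Pool.Agent.P4.W4Tk62
import Pool.Agent.P4.Tk57d

/-! # PENNY, token rows: the accounting over `Geo4` (copies of Tk57a to Tk57d) -/

set_option autoImplicit false

namespace Pool.Agent.PEN.W4

open Classical UpperHalfPlane

noncomputable section

section
variable {V : Type} (G : Tg V) {al : ℝ} {kp : V → V → ℝ} {U : ℕ → ℝ}
variable {Q : ℝ} {opp : ℝ → ℝ} {g : ℕ → ℝ} {m : ℕ} {s' p q : V × V → V × V}

theorem J4_57 (hG : G.Geo4 al kp U) {v : V} (hB : B7 G al v) : 4 ≤ (Jv G v).card := by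
  obtain ⟨h7, _⟩ := count62 G hG hB
  have h8 : ((Jv G v).filter (fun x => ¬ RC G (G.cl x))).card +
      ((Jv G v).filter (fun x => RC G (G.cl x))).card = (Jv G v).card := by
    rw [add_comm]
    exact Finset.card_filter_add_card_filter_not (fun x => RC G (G.cl x))
  omega

theorem ne57 {s : V × V → V × V} (hG : G.Geo4 al kp U) (O : Or62 G opp s s' p q) {v : V}
    (hB : B7 G al v) {x : V × V} (hx : x ∈ Jv G v) : p x ≠ x := by
  intro h
  obtain ⟨h1, h2⟩ := (mem_Jv51 G).1 hx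
  have h5 := (O.cyc v {x} ⟨x, Finset.mem_singleton_self _⟩ (by
    intro y hy
    rw [Finset.mem_singleton] at hy
    subst hy
    exact ⟨h1, h2, by rw [h]; exact Finset.mem_singleton_self _⟩)).2
  have h6 : Jv G v ⊆ {x} := fun y hy => h5 y ((mem_Jv51 G).1 hy).1 ((mem_Jv51 G).1 hy).2
  have h7 := Finset.card_le_card h6
  rw [Finset.card_singleton] at h7
  have := J4_57 G hG hB
  omega

/-- `p` and `q` agree nowhere -/
theorem pq57 {s : V × V → V × V} (hG : G.Geo4 al kp U) (O : Or62 G opp s s' p q) {v : V}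
    (hB : B7 G al v) {x : V × V} (hx : x ∈ Jv G v) : p x ≠ q x := by
  intro h
  obtain ⟨h1, h2⟩ := (mem_Jv51 G).1 hx
  obtain ⟨hp, hq⟩ := pJ57 G O hB.1 hx
  have hp' := (mem_Jv51 G).1 hp
  have h3 : p (p x) = x := by
    rw [h]
    exact O.qp _ h1 ((mem_Jv51 G).1 hq).1
  have h5 := (O.cyc v {x, p x} ⟨x, Finset.mem_insert_self _ _⟩ (by
    intro y hy
    rw [Finset.mem_insert, Finset.mem_singleton] at hy
    rcases hy with rfl | rfl
    · exact ⟨h1, h2, Finset.mem_insert_of_mem (Finset.mem_singleton_self _)⟩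
    · exact ⟨hp'.1, hp'.2, by rw [h3]; exact Finset.mem_insert_self _ _⟩)).2
  have h6 : Jv G v ⊆ {x, p x} := fun y hy => h5 y ((mem_Jv51 G).1 hy).1 ((mem_Jv51 G).1 hy).2
  have h7 := Finset.card_le_card h6
  have h8 : ({x, p x} : Finset (V × V)).card ≤ 2 := Finset.card_le_two
  have := J4_57 G hG hB
  omega

/-- **the deficient points without a side between two rhombi** -/
theorem Kst57 {s : V × V → V × V} (hG : G.Geo4 al kp U) (O : Or62 G opp s s' p q)
    (c : Ch62 al Q opp g m)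
    {F : V × V → Prop} (f : Fc62 G Q opp g m F) (hm : 2 * opp (g m) = 2 * Real.pi - 3 * al)
    {v : V} (hK : KP57 G al F p v) :
    ∃ t0 ∈ Jv G v, G.cI (G.cl t0) = ∅ ∧ p t0 ∈ Jv G v ∧ q t0 ∈ Jv G v ∧
      RC G (G.cl (p t0)) ∧ RC G (G.cl (q t0)) ∧ TH G (p t0) = opp (g m) ∧
      TH G (q t0) = opp (g m) ∧ p t0 ≠ q t0 := by
  obtain ⟨hB, hF, hno⟩ := hK
  obtain ⟨h1, h2⟩ := count62 G hG hB
  have hTR := hB.2.2
  obtain ⟨JR, hJR⟩ : ∃ JR, JR = (Jv G v).filter (fun x => RC G (G.cl x)) := ⟨_, rfl⟩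
  obtain ⟨JT, hJT⟩ : ∃ JT, JT = (Jv G v).filter (fun x => ¬ RC G (G.cl x)) := ⟨_, rfl⟩
  have hmR : ∀ x, x ∈ JR ↔ x ∈ Jv G v ∧ RC G (G.cl x) := by
    intro x
    rw [hJR, Finset.mem_filter]
  have hmT : ∀ x, x ∈ JT ↔ x ∈ Jv G v ∧ ¬ RC G (G.cl x) := by
    intro x
    rw [hJT, Finset.mem_filter]
  rw [← hJR, ← hJT] at h1 h2
  have hpT : ∀ x ∈ JR, p x ∈ JT := by
    intro x hx
    obtain ⟨h3, h4⟩ := (hmR x).1 hx
    exact (hmT _).2 ⟨(pJ57 G O hB.1 h3).1, hno x h3 h4⟩
  have hqT : ∀ x ∈ JR, q x ∈ JT := by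
    intro x hx
    obtain ⟨h3, h4⟩ := (hmR x).1 hx
    have h5 := (pJ57 G O hB.1 h3).2
    refine (hmT _).2 ⟨h5, fun h6 => hno _ h5 h6 ?_⟩
    rw [O.qp _ ((mem_Jv51 G).1 h3).1 ((mem_Jv51 G).1 h5).1]
    exact h4
  have hqp : ∀ x ∈ Jv G v, q (p x) = x := fun x hx =>
    O.pq _ ((mem_Jv51 G).1 hx).1 ((mem_Jv51 G).1 (pJ57 G O hB.1 hx).1).1
  have hpq : ∀ x ∈ Jv G v, p (q x) = x := fun x hx =>
    O.qp _ ((mem_Jv51 G).1 hx).1 ((mem_Jv51 G).1 (pJ57 G O hB.1 hx).2).1
  have hle : JR.card ≤ JT.card := by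
    apply Finset.card_le_card_of_injOn p
    · intro x hx
      exact Finset.mem_coe.2 (hpT x (Finset.mem_coe.1 hx))
    · intro x hx y hy h
      rw [← hqp x ((hmR x).1 (Finset.mem_coe.1 hx)).1, h,
        hqp y ((hmR y).1 (Finset.mem_coe.1 hy)).1]
  have hcases : JR.card = 0 ∨ JR.card = 1 ∨ JR.card = 2 := by omega
  rcases hcases with h0 | h0 | h0
  · exfalso
    have h3 : JT.card = 7 := by omega
    rw [Finset.card_eq_zero] at h0
    rw [h3, h0, Finset.sum_empty] at h2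
    push_cast at h2
    linarith [c.al7]
  · exfalso
    obtain ⟨x, hx⟩ := Finset.card_eq_one.1 h0
    have h3 : JT.card = 5 := by omega
    rw [h3, hx, Finset.sum_singleton] at h2
    push_cast at h2
    have hxR := (hmR x).1 (by rw [hx]; exact Finset.mem_singleton_self x)
    have h4 : TH G x = g 0 := by
      rw [c.g0]
      linarith
    apply hF x hxR.1 hxR.2
    rw [f.lo x ((mem_Jv51 G).1 hxR.1).1 hxR.2 (by rw [h4]; exact c.gm (Nat.zero_le _))]
    exact ⟨0, Nat.zero_le _, h4⟩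
  · obtain ⟨x, y, hxy, hJe⟩ := Finset.card_eq_two.1 h0
    have h3 : JT.card = 3 := by omega
    rw [h3, hJe, Finset.sum_pair hxy] at h2
    push_cast at h2
    have hxR' : x ∈ JR := by
      rw [hJe]
      exact Finset.mem_insert_self _ _
    have hyR' : y ∈ JR := by
      rw [hJe]
      exact Finset.mem_insert_of_mem (Finset.mem_singleton_self _)
    have hxR := (hmR x).1 hxR'
    have hyR := (hmR y).1 hyR'
    -- both angles are `opp (g m)`
    have key : ∀ a b : V × V, a ∈ Jv G v → b ∈ Jv G v → a ≠ b → RC G (G.cl a) → RC G (G.cl b) →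
        TH G a + TH G b = 2 * Real.pi - 3 * al → TH G a ≤ TH G b →
        TH G a = opp (g m) ∧ TH G b = opp (g m) := by
      intro a b ha hb hab ra rb hs hle
      have hbQ : Q < TH G b := by
        by_contra h
        push Not at h
        exact c1_62 G hG c hB ha hb hab ra rb (hle.trans h) h
      obtain ⟨j, hj, hbj⟩ := (f.hi b ((mem_Jv51 G).1 hb).1 rb hbQ).1 (hF b hb rb)
      have haQ : Q < TH G a := by
        by_contra h
        push Not at h
        rcases Nat.eq_or_lt_of_le hj with rfl | hlt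
        · have := c.Qb
          linarith
        · have h5 := c.gs j hlt
          have h6 : TH G a = g (j + 1) := by linarith
          apply hF a ha ra
          rw [f.lo a ((mem_Jv51 G).1 ha).1 ra (by rw [h6]; exact c.gm hlt)]
          exact ⟨j + 1, hlt, h6⟩
      obtain ⟨i, hi, hai⟩ := (f.hi a ((mem_Jv51 G).1 ha).1 ra haQ).1 (hF a ha ra)
      have hlow : ∀ k, k ≤ m → opp (g m) ≤ opp (g k) := by
        intro k hk
        rcases Nat.eq_or_lt_of_le hk with rfl | hlt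
        · exact le_rfl
        · exact (c.banti hlt le_rfl).le
      have h5 := hlow i hi
      have h6 := hlow j hj
      rw [hai, hbj] at hs ⊢
      constructor <;> linarith
    have hxy2 : TH G x = opp (g m) ∧ TH G y = opp (g m) := by
      rcases le_total (TH G x) (TH G y) with h | h
      · exact key x y hxR.1 hyR.1 hxy hxR.2 hyR.2 (by linarith) h
      · exact (key y x hyR.1 hxR.1 hxy.symm hyR.2 hxR.2 (by linarith) h).symm
    -- the triangle between them
    have hJRm : ∀ a ∈ JR, a ∈ Jv G v ∧ RC G (G.cl a) ∧ TH G a = opp (g m) := by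
      intro a ha
      rw [hJe, Finset.mem_insert, Finset.mem_singleton] at ha
      rcases ha with rfl | rfl
      · exact ⟨hxR.1, hxR.2, hxy2.1⟩
      · exact ⟨hyR.1, hyR.2, hxy2.2⟩
    have hmeet : ¬ Disjoint (JR.image p) (JR.image q) := by
      intro hd
      have h5 : (JR.image p).card = 2 := by
        rw [Finset.card_image_of_injOn, h0]
        intro a ha b hb h
        rw [← hqp a ((hmR a).1 (Finset.mem_coe.1 ha)).1, h,
          hqp b ((hmR b).1 (Finset.mem_coe.1 hb)).1]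
      have h6 : (JR.image q).card = 2 := by
        rw [Finset.card_image_of_injOn, h0]
        intro a ha b hb h
        rw [← hpq a ((hmR a).1 (Finset.mem_coe.1 ha)).1, h,
          hpq b ((hmR b).1 (Finset.mem_coe.1 hb)).1]
      have h7 : JR.image p ∪ JR.image q ⊆ JT := by
        intro z hz
        rw [Finset.mem_union] at hz
        rcases hz with hz | hz
        · obtain ⟨a, ha, rfl⟩ := Finset.mem_image.1 hz
          exact hpT a ha
        · obtain ⟨a, ha, rfl⟩ := Finset.mem_image.1 hz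
          exact hqT a ha
      have h8 := Finset.card_le_card h7
      rw [Finset.card_union_of_disjoint hd] at h8
      omega
    rw [Finset.not_disjoint_iff] at hmeet
    obtain ⟨t, ht1, ht2⟩ := hmeet
    obtain ⟨a, ha, hat⟩ := Finset.mem_image.1 ht1
    obtain ⟨b, hb, hbt⟩ := Finset.mem_image.1 ht2
    have haJ := hJRm a ha
    have hbJ := hJRm b hb
    have htT := hpT a ha
    rw [hat] at htT
    have e1 : q t = a := by
      rw [← hat]
      exact hqp a haJ.1
    have e2 : p t = b := by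
      rw [← hbt]
      exact hpq b hbJ.1
    have htJ := ((hmT t).1 htT).1
    refine ⟨t, htJ, (hTR t htJ).resolve_right ((hmT t).1 htT).2, ?_, ?_, ?_, ?_, ?_, ?_, ?_⟩
    · rw [e2]
      exact hbJ.1
    · rw [e1]
      exact haJ.1
    · rw [e2]
      exact hbJ.2.1
    · rw [e1]
      exact haJ.2.1
    · rw [e2]
      exact hbJ.2.2
    · rw [e1]
      exact haJ.2.2
    · exact pq57 G hG O hB htJ

/-- **a side between two rhombi at a deficient point ends at a point without seven units** -/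
theorem zb57 (hG : G.Geo4 al kp U) (O : Or62 G opp (sg G) s' p q)
    (c : Ch62 al Q opp g m)
    {F : V × V → Prop} (f : Fc62 G Q opp g m F) (hm : 2 * opp (g m) = 2 * Real.pi - 3 * al)
    (hF : ∀ x ∈ iJ G, RC G (G.cl x) → (F (sg G x) ↔ ¬ F x))
    {v : V} (hD : Df57 G al F v) {x : V × V} (hx : x ∈ Jv G v) (rx : RC G (G.cl x))
    (rp : RC G (G.cl (p x))) :
    s' (p x) ∈ iJ G ∧ sg G x ∈ iJ G ∧ RC G (G.cl (s' (p x))) ∧ RC G (G.cl (sg G x)) ∧
      F (s' (p x)) ∧ F (sg G x) ∧ (s' (p x)).1 = (sg G x).1 ∧ p (s' (p x)) = sg G x ∧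
      q (sg G x) = s' (p x) ∧ ¬ B7 G al (sg G x).1 := by
  obtain ⟨hB, hnF⟩ := hD
  obtain ⟨hpJ, hqJ⟩ := pJ57 G O hB.1 hx
  have ix := ((mem_Jv51 G).1 hx).1
  have ip := ((mem_Jv51 G).1 hpJ).1
  have ia := O.s2 _ ip
  have ib := O.s1 _ ix
  have ra : RC G (G.cl (s' (p x))) := by
    rw [O.s2c _ ip]
    exact rp
  have rb : RC G (G.cl (sg G x)) := by
    rw [O.s1c _ ix]
    exact rx
  have e1 : p (s' (p x)) = sg G x := O.ps _ ix ip
  have e2 : q (sg G x) = s' (p x) := by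
    rw [← e1]
    exact O.pq _ ia (by rw [e1]; exact ib)
  have e3 : (s' (p x)).1 = (sg G x).1 := by
    rw [← e1]
    exact (O.pf _ ia (by rw [e1]; exact ib)).symm
  have fa : F (s' (p x)) := by
    have h1 := hF _ ia ra
    rw [O.s21 _ ip] at h1
    by_contra h2
    exact hnF _ hpJ rp (h1.2 h2)
  have fb : F (sg G x) := (hF _ ix rx).2 (hnF x hx rx)
  refine ⟨ia, ib, ra, rb, fa, fb, e3, e1, e2, fun hBu => ?_⟩
  have haJ : s' (p x) ∈ Jv G (sg G x).1 := (mem_Jv51 G).2 ⟨ia, e3⟩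
  have hbJ : sg G x ∈ Jv G (sg G x).1 := (mem_Jv51 G).2 ⟨ib, rfl⟩
  have hab : s' (p x) ≠ sg G x := by
    intro h
    apply ne57 G hG O hBu haJ
    rw [e1, h]
  have hxp : x ≠ p x := (ne57 G hG O hB hx).symm
  have tb : TH G (sg G x) = opp (TH G x) := O.o1 _ ix rx
  have ta : TH G (s' (p x)) = opp (TH G (p x)) := O.o2 _ ip rp
  have hend : Q < 2 * Real.pi - 3 * al - opp (g m) := by
    have := c.Qb
    linarith
  rcases le_or_gt (TH G x) Q with h1 | h1
  · rcases le_or_gt (TH G (p x)) Q with h2 | h2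
    · exact c1_62 G hG c hB hx hpJ hxp rx rp h1 h2
    · obtain ⟨k, hk, hkt⟩ := (f.hi _ ip rp h2).1 (hnF _ hpJ rp)
      have h3 := two62 G hG hB hx hpJ hxp rx rp
      have h4 := two62 G hG hBu hbJ haJ hab.symm rb ra
      rw [tb, ta, hkt, c.goo hk] at h4
      rw [hkt] at h3
      exact c.nz hk (fun h => Or.inl (by linarith)) h1 h3 h4
  · obtain ⟨k, hk, hkt⟩ := (f.hi _ ix rx h1).1 (hnF _ hx rx)
    rcases le_or_gt (TH G (p x)) Q with h2 | h2
    · have h3 := two62 G hG hB hpJ hx hxp.symm rp rx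
      have h4 := two62 G hG hBu haJ hbJ hab ra rb
      rw [tb, ta, hkt, c.goo hk] at h4
      rw [hkt] at h3
      exact c.nz hk (fun h => Or.inl (by linarith)) h2 h3 h4
    · obtain ⟨l, hl, hlt⟩ := (f.hi _ ip rp h2).1 (hnF _ hpJ rp)
      apply c1_62 G hG c hBu haJ hbJ hab ra rb
      · rw [ta, hlt, c.goo hl]
        exact (c.gm hl).le
      · rw [tb, hkt, c.goo hk]
        exact (c.gm hk).le

/-- **the accounting** -/
theorem acc57 (hG : G.Geo4 al kp U) (O : Or62 G opp (sg G) s' p q) (c : Ch62 al Q opp g m)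
    {F : V × V → Prop} (f : Fc62 G Q opp g m F) (hm : 2 * opp (g m) = 2 * Real.pi - 3 * al)
    (hg : g m ≤ 3 / 2 * al) {de : ℝ} (hd0 : 0 ≤ de) (hd1 : ((m : ℝ) + 1) * de ≤ 1 / 2)
    (hF : ∀ x ∈ iJ G, RC G (G.cl x) → (F (sg G x) ↔ ¬ F x))
    {fr : V × V → ℝ} (hfr : Fr57 G Q opp g m de F fr)
    (hA : ∀ C ∈ G.iC, A3 al * (G.cT C).card ≤ ∑ x ∈ G.cD C, G.ar x.1 x.2 / 3)
    (hP : ∀ C ∈ G.iC, (G.cT C).card = 3 → (G.cI C).card = 4 → ∑ x ∈ G.cJ C, wc G al x ≤ 12)
    (cl : V → Finset ((V × V) × ℕ))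
    (hcl : ∀ v, KP57 G al F p v → ∀ t ∈ cl v, t.1 ∈ iJ G ∧ RC G (G.cl t.1) ∧
      (∃ j ≤ m, TH G t.1 = g j) ∧ ¬ Tight62 G al F t.1 ∧ t.2 ≤ 2 ∧ (t.2 = 2 → t.1.1 ∉ inN G) ∧
      (t.2 = 0 → p t.1 ∈ iJ G → RC G (G.cl (p t.1)) → ¬ F (p t.1)) ∧
      (t.2 = 1 → q t.1 ∈ iJ G → RC G (G.cl (q t.1)) → ¬ F (q t.1)))
    (hdis : ∀ v v', KP57 G al F p v → KP57 G al F p v' → v ≠ v' → Disjoint (cl v) (cl v'))
    (hval : ∀ v, KP57 G al F p v →
      1 - (2 * (m : ℝ) + 3) * de ≤ ∑ t ∈ cl v, (if t.2 = 2 then 1 / 2 else fr t.1 / 2)) :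
    (8 * al - 2 * Real.pi - de * al) * ((G.P.card : ℝ) - G.oJ.card) ≤
      2 * al * G.iI.card + (∑ x ∈ G.iD, G.ar x.1 x.2 / 3 - A3 al * (G.iD.card / 3)) := by
  have hal := al_pos71 G hG
  have hpi := Real.pi_pos
  have hm0 : (0 : ℝ) ≤ (m : ℝ) := Nat.cast_nonneg m
  -- `fr`
  have hjm : ∀ j ≤ m, ((j : ℝ) + 1) * de ≤ 1 / 2 := by
    intro j hj
    have h1 : (j : ℝ) ≤ (m : ℝ) := by exact_mod_cast hj
    have h2 := mul_le_mul_of_nonneg_right (by linarith : (j : ℝ) + 1 ≤ (m : ℝ) + 1) hd0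
    linarith
  have hjn : ∀ j : ℕ, 0 ≤ ((j : ℝ) + 1) * de := fun j =>
    mul_nonneg (by have : (0 : ℝ) ≤ (j : ℝ) := Nat.cast_nonneg j; linarith) hd0
  have hfr0 : ∀ x ∈ iJ G, RC G (G.cl x) → 0 ≤ fr x := by
    intro x hx rx
    by_cases h1 : ∃ j ≤ m, TH G x = g j
    · obtain ⟨j, hj, h1⟩ := h1
      rw [hfr.lo x hx rx j hj h1]
      linarith [hjm j hj]
    · by_cases h2 : ∃ j ≤ m, TH G x = opp (g j)
      · obtain ⟨j, hj, h2⟩ := h2
        rw [hfr.hi x hx rx j hj h2]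
        exact hjn j
      · rw [hfr.el x hx rx (fun j hj h => h1 ⟨j, hj, h⟩) (fun j hj h => h2 ⟨j, hj, h⟩)]
        split_ifs <;> norm_num
  have hfr1 : ∀ x ∈ iJ G, RC G (G.cl x) → F x → (∀ j ≤ m, TH G x ≠ g j) → fr x = 1 := by
    intro x hx rx hFx h1
    rw [hfr.el x hx rx h1, if_pos hFx]
    intro j hj h
    exact (f.hi x hx rx (by rw [h]; exact c.bQ hj)).2 ⟨j, hj, h⟩ hFx
  have hxrR : ∀ x, RC G (G.cl x) → xr G fr x = fr x := by
    intro x rx
    unfold xr
    rw [if_neg (RC_ne51 G rx), if_pos rx]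
  have hbwR : ∀ x, RC G (G.cl x) → (bw G al x : ℝ) = 2 := by
    intro x rx
    unfold bw
    rw [if_neg (RC_ne51 G rx), if_pos rx]
    norm_num
  have hxr0 : ∀ x ∈ iJ G, 0 ≤ xr G fr x := by
    intro x hx
    unfold xr
    split_ifs with h1 h2
    · exact le_rfl
    · exact hfr0 x hx h2
    · norm_num
  -- the sides between two rhombi
  have hXe : ∀ v, ∃ x : V × V, Df57 G al F v → ¬ KP57 G al F p v →
      x ∈ Jv G v ∧ RC G (G.cl x) ∧ RC G (G.cl (p x)) := by
    intro v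
    by_cases h : ∃ x ∈ Jv G v, RC G (G.cl x) ∧ RC G (G.cl (p x))
    · obtain ⟨x, h1, h2, h3⟩ := h
      exact ⟨x, fun _ _ => ⟨h1, h2, h3⟩⟩
    · refine ⟨(v, v), fun h1 h2 => absurd ⟨h1.1, h1.2, fun x hx rx rp => h ⟨x, hx, rx, rp⟩⟩ h2⟩
  choose X hX using hXe
  have hz : ∀ v, Df57 G al F v → ¬ KP57 G al F p v →
      X v ∈ iJ G ∧ (X v).1 = v ∧ p (X v) ∈ Jv G v ∧
      s' (p (X v)) ∈ iJ G ∧ sg G (X v) ∈ iJ G ∧ RC G (G.cl (s' (p (X v)))) ∧
      RC G (G.cl (sg G (X v))) ∧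
      F (s' (p (X v))) ∧ F (sg G (X v)) ∧ (s' (p (X v))).1 = (sg G (X v)).1 ∧
      p (s' (p (X v))) = sg G (X v) ∧
      q (sg G (X v)) = s' (p (X v)) ∧ ¬ B7 G al (sg G (X v)).1 := by
    intro v h1 h2
    obtain ⟨h3, h4, h5⟩ := hX v h1 h2
    exact ⟨((mem_Jv51 G).1 h3).1, ((mem_Jv51 G).1 h3).2, (pJ57 G O h1.1.1 h3).1,
      zb57 G hG O c f hm hF h1 h3 h4 h5⟩
  -- the tokens
  obtain ⟨Tk, hTk⟩ : ∃ Tk : V → Finset ((V × V) × ℕ), ∀ v, Tk v =
      if KP57 G al F p v then cl v else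
        if Df57 G al F v then {(s' (p (X v)), 0), (sg G (X v), 1)} else ∅ := ⟨_, fun _ => rfl⟩
  have mT : ∀ v, ∀ t ∈ Tk v, (KP57 G al F p v ∧ t ∈ cl v) ∨
      (Df57 G al F v ∧ ¬ KP57 G al F p v ∧
        (t = (s' (p (X v)), 0) ∨ t = (sg G (X v), 1))) := by
    intro v t ht
    rw [hTk] at ht
    by_cases h1 : KP57 G al F p v
    · rw [if_pos h1] at ht
      exact Or.inl ⟨h1, ht⟩
    · rw [if_neg h1] at ht
      by_cases h2 : Df57 G al F v
      · rw [if_pos h2, Finset.mem_insert, Finset.mem_singleton] at ht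
        exact Or.inr ⟨h2, h1, ht⟩
      · rw [if_neg h2] at ht
        exact absurd ht (Finset.notMem_empty _)
  have tf : ∀ v, ∀ t ∈ Tk v, t.1 ∈ iJ G ∧ RC G (G.cl t.1) ∧ F t.1 ∧ t.2 ≤ 2 ∧
      (t.2 = 2 → t.1.1 ∉ inN G ∧ TH G t.1 ≤ 3 / 2 * al) ∧
      (B7 G al t.1.1 → (∃ j ≤ m, TH G t.1 = g j) ∧ ¬ Tight62 G al F t.1) := by
    intro v t ht
    rcases mT v t ht with ⟨h1, h2⟩ | ⟨h1, h2, h3⟩
    · obtain ⟨k1, k2, ⟨j, hj, k3⟩, k4, k5, k6, _, _⟩ := hcl v h1 t h2
      refine ⟨k1, k2, ?_, k5, fun h => ⟨k6 h, ?_⟩, fun _ => ⟨⟨j, hj, k3⟩, k4⟩⟩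
      · exact (f.lo _ k1 k2 (by rw [k3]; exact c.gm hj)).2 ⟨j, hj, k3⟩
      · rw [k3]
        rcases Nat.eq_or_lt_of_le hj with rfl | hlt
        · exact hg
        · exact (c.mono j m hlt le_rfl).le.trans hg
    · obtain ⟨z1, z2, z3, z4, z5, z6, z7, z8, z9, z10, z11, z12, z13⟩ := hz v h1 h2
      rcases h3 with rfl | rfl
      · refine ⟨z4, z6, z8, by norm_num, fun h => absurd h (by norm_num), fun h => ?_⟩
        exact absurd (by rw [← z10]; exact h) z13
      · exact ⟨z5, z7, z9, by norm_num, fun h => absurd h (by norm_num), fun h => absurd h z13⟩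
  have hdisT : ∀ v ∈ G.P, ∀ v' ∈ G.P, v ≠ v' → Disjoint (Tk v) (Tk v') := by
    have hmix : ∀ v v' t, KP57 G al F p v → t ∈ cl v → Df57 G al F v' → ¬ KP57 G al F p v' →
        (t = (s' (p (X v')), 0) ∨ t = (sg G (X v'), 1)) → False := by
      intro v v' t h1 h2 h3 h4 h5
      obtain ⟨k1, k2, _, k4, k5, k6, k7, k8⟩ := hcl v h1 t h2
      obtain ⟨z1, z2, z3, z4, z5, z6, z7, z8, z9, z10, z11, z12, z13⟩ := hz v' h3 h4
      rcases h5 with rfl | rfl
      · dsimp only at k7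
        rw [z11] at k7
        exact k7 rfl z5 z7 z9
      · dsimp only at k8
        rw [z12] at k8
        exact k8 rfl z4 z6 z8
    intro v _ v' _ hne
    rw [Finset.disjoint_left]
    intro t ht ht'
    rcases mT v t ht with ⟨h1, h2⟩ | ⟨h1, h2, h3⟩
    · rcases mT v' t ht' with ⟨k1, k2⟩ | ⟨k1, k2, k3⟩
      · exact Finset.disjoint_left.1 (hdis v v' h1 k1 hne) h2 k2
      · exact hmix v v' t h1 h2 k1 k2 k3
    · rcases mT v' t ht' with ⟨k1, k2⟩ | ⟨k1, k2, k3⟩
      · exact hmix v' v t k1 k2 h1 h2 h3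
      · obtain ⟨z1, z2, z3, z4, z5, z6, z7, z8, z9, z10, z11, z12, z13⟩ := hz v h1 h2
        obtain ⟨y1, y2, y3, y4, y5, y6, y7, y8, y9, y10, y11, y12, y13⟩ := hz v' k1 k2
        have hXX : sg G (X v) = sg G (X v') := by
          rcases h3 with h3 | h3 <;> rcases k3 with k3 | k3
          · have h4 : s' (p (X v)) = s' (p (X v')) := congrArg Prod.fst (h3.symm.trans k3)
            rw [← z11, ← y11, h4]
          · exact absurd (congrArg Prod.snd (h3.symm.trans k3)) (by norm_num)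
          · exact absurd (congrArg Prod.snd (h3.symm.trans k3)) (by norm_num)
          · exact congrArg Prod.fst (h3.symm.trans k3)
        apply hne
        have h5 : X v = X v' := by
          rw [← O.s12 _ z1, hXX, O.s12 _ y1]
        rw [← z2, ← y2, h5]
  obtain ⟨TU, hTU⟩ : ∃ TU, TU = G.P.biUnion Tk := ⟨_, rfl⟩
  have tfU : ∀ t ∈ TU, t.1 ∈ iJ G ∧ RC G (G.cl t.1) ∧ F t.1 ∧ t.2 ≤ 2 ∧
      (t.2 = 2 → t.1.1 ∉ inN G ∧ TH G t.1 ≤ 3 / 2 * al) ∧
      (B7 G al t.1.1 → (∃ j ≤ m, TH G t.1 = g j) ∧ ¬ Tight62 G al F t.1) := by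
    intro t ht
    rw [hTU, Finset.mem_biUnion] at ht
    obtain ⟨v, _, ht⟩ := ht
    exact tf v t ht
  obtain ⟨W, hW⟩ : ∃ W : V × V → ℝ, ∀ k, W k =
      ∑ t ∈ TU.filter (fun t => t.1 = k), val57 fr t := ⟨_, fun _ => rfl⟩
  have hWs : ∀ v, ∑ t ∈ TU.filter (fun t => t.1.1 = v), val57 fr t = ∑ k ∈ Jv G v, W k := by
    intro v
    have h1 : ∑ k ∈ Jv G v, ∑ t ∈ (TU.filter (fun t => t.1.1 = v)).filter (fun t => t.1 = k),
        val57 fr t = ∑ t ∈ TU.filter (fun t => t.1.1 = v), val57 fr t := by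
      refine Finset.sum_fiberwise_of_maps_to (g := Prod.fst) ?_ _
      intro t ht
      rw [Finset.mem_filter] at ht
      exact (mem_Jv51 G).2 ⟨(tfU t ht.1).1, ht.2⟩
    rw [← h1]
    refine Finset.sum_congr rfl fun k hk => ?_
    rw [hW, Finset.filter_filter]
    refine Finset.sum_congr ?_ fun _ _ => rfl
    apply Finset.filter_congr
    intro t _
    constructor
    · exact fun h => h.2
    · intro h
      exact ⟨by rw [h]; exact ((mem_Jv51 G).1 hk).2, h⟩
  have hW0 : ∀ k, (∀ t ∈ TU, t.1 ≠ k) → W k = 0 := by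
    intro k hk
    rw [hW, Finset.filter_eq_empty_iff.2 (fun t ht => hk t ht), Finset.sum_empty]
  have hW1 : ∀ k ∈ iJ G, RC G (G.cl k) → W k ≤ fr k + if (k, 2) ∈ TU then 1 / 2 else 0 := by
    intro k hk rk
    rw [hW]
    exact cor57 TU fr k (hfr0 k hk rk) (fun n hn => (tfU _ hn).2.2.2.1)
  have hW2 : ∀ k ∈ iJ G, (k, 2) ∉ TU → W k ≤ xr G fr k := by
    intro k hk h2
    by_cases rk : RC G (G.cl k)
    · have := hW1 k hk rk
      rw [if_neg h2, add_zero] at this
      rw [hxrR k rk]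
      exact this
    · rw [hW0 k (fun t ht h => rk (by rw [← h]; exact (tfU t ht).2.1))]
      exact hxr0 k hk
  have hvn : ∀ v, 0 ≤ ∑ t ∈ Tk v, val57 fr t := by
    intro v
    apply Finset.sum_nonneg
    intro t ht
    obtain ⟨h1, h2, _⟩ := tf v t ht
    exact valn_57 fr t (hfr0 _ h1 h2)
  obtain ⟨w, hw⟩ : ∃ w : V × V → ℝ, w = fun x => (bw G al x : ℝ) + xr G fr x := ⟨_, rfl⟩
  -- the slack of the points
  have main : 0 ≤ ∑ v ∈ G.P, slk G al w (8 - de) v := by
    apply tok57 G.P (slk G al w (8 - de)) Tk (fun t => t.1.1) (val57 fr) hdisT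
    · intro v _ t ht
      have h1 := (tf v t ht).1
      rw [mem_iJ71] at h1
      exact G.mem _ _ (G.sub h1.1.1)
    intro v hvP
    rw [← hTU, hWs]
    by_cases hvN : v ∈ inN G
    swap
    · -- outside `N`
      have h1 : slk G al w (8 - de) v = ∑ x ∈ Jv G v, (w x - TH G x / al) := by
        unfold slk
        rw [if_neg hvN]
      have h2 : ∑ k ∈ Jv G v, W k ≤ ∑ x ∈ Jv G v, (w x - TH G x / al) := by
        apply Finset.sum_le_sum
        intro x hx
        have ix := ((mem_Jv51 G).1 hx).1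
        have h3 : TH G x / al ≤ bw G al x := by
          rw [div_le_iff₀ hal]
          have := TH_bw51 G hG ix
          linarith
        have hwx : w x = (bw G al x : ℝ) + xr G fr x := by rw [hw]
        by_cases h4 : (x, 2) ∈ TU
        · obtain ⟨k1, k2, k3, k4, k5, _⟩ := tfU _ h4
          have k6 := (k5 rfl).2
          dsimp only at k2 k6
          have h5 := hW1 x ix k2
          rw [if_pos h4] at h5
          have h6 : TH G x / al ≤ 3 / 2 := by
            rw [div_le_iff₀ hal]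
            exact k6
          rw [hwx, hxrR x k2, hbwR x k2]
          linarith
        · have h5 := hW2 x ix h4
          linarith
      have := hvn v
      linarith
    have hslk : slk G al w (8 - de) v = ∑ x ∈ Jv G v, (bw G al x : ℝ) +
        ∑ x ∈ Jv G v, xr G fr x - (8 - de) := by
      unfold slk
      rw [if_pos hvN, hw, Finset.sum_add_distrib]
    have hno2 : ∀ x ∈ Jv G v, (x, 2) ∉ TU := by
      intro x hx h
      have h1 := ((tfU _ h).2.2.2.2.1 rfl).1
      dsimp only at h1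
      rw [((mem_Jv51 G).1 hx).2] at h1
      exact h1 hvN
    have hWJ : ∀ x ∈ Jv G v, W x ≤ xr G fr x := fun x hx =>
      hW2 x ((mem_Jv51 G).1 hx).1 (hno2 x hx)
    have hb7 := base7_51 G hG hvN
    by_cases hB : B7 G al v
    swap
    · -- not seven units
      have := hvn v
      rcases Nat.lt_or_ge (∑ x ∈ Jv G v, bw G al x) 8 with hlt | hge
      · have h7 : ∑ x ∈ Jv G v, bw G al x = 7 := by omega
        have hex : ∃ x ∈ Jv G v, G.cI (G.cl x) ≠ ∅ ∧ ¬ RC G (G.cl x) := by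
          by_contra hno
          push Not at hno
          refine hB ⟨hvN, h7, fun x hx => ?_⟩
          by_cases h1 : G.cI (G.cl x) = ∅
          · exact Or.inl h1
          · exact Or.inr (hno x hx (Finset.nonempty_iff_ne_empty.2 h1))
        obtain ⟨x0, hx0, hx1, hx2⟩ := hex
        have h7' : ∑ x ∈ Jv G v, (bw G al x : ℝ) = 7 := by exact_mod_cast h7
        have h8 : W x0 = 0 := hW0 x0 (fun t ht h => hx2 (by rw [← h]; exact (tfU t ht).2.1))
        have h9 : xr G fr x0 = 1 := by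
          unfold xr
          rw [if_neg hx1, if_neg hx2]
        rw [hslk, h7', ← Finset.add_sum_erase _ W hx0, ← Finset.add_sum_erase _ (xr G fr) hx0,
          h8, h9]
        have h10 : ∑ x ∈ (Jv G v).erase x0, W x ≤ ∑ x ∈ (Jv G v).erase x0, xr G fr x :=
          Finset.sum_le_sum fun x hx => hWJ x (Finset.mem_of_mem_erase hx)
        linarith
      · have h8 : (8 : ℝ) ≤ ∑ x ∈ Jv G v, (bw G al x : ℝ) := by exact_mod_cast hge
        have h10 : ∑ x ∈ Jv G v, W x ≤ ∑ x ∈ Jv G v, xr G fr x := Finset.sum_le_sum hWJ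
        rw [hslk]
        linarith
    have h7' : ∑ x ∈ Jv G v, (bw G al x : ℝ) = 7 := by exact_mod_cast hB.2.1
    rw [hslk, h7']
    have hone : ∀ x ∈ Jv G v, xr G fr x ≤ ∑ x ∈ Jv G v, xr G fr x := fun x hx =>
      Finset.single_le_sum (fun y hy => hxr0 y ((mem_Jv51 G).1 hy).1) hx
    have htwo : ∀ x ∈ Jv G v, ∀ y ∈ Jv G v, x ≠ y → xr G fr x + xr G fr y ≤
        ∑ x ∈ Jv G v, xr G fr x := by
      intro x hx y hy hxy
      rw [← Finset.sum_pair hxy]
      apply Finset.sum_le_sum_of_subset_of_nonneg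
      · intro z hz
        rw [Finset.mem_insert, Finset.mem_singleton] at hz
        rcases hz with rfl | rfl
        · exact hx
        · exact hy
      · intro z hz _
        exact hxr0 z ((mem_Jv51 G).1 hz).1
    by_cases hD : Df57 G al F v
    · -- deficient points
      have hW00 : ∑ x ∈ Jv G v, W x = 0 := by
        apply Finset.sum_eq_zero
        intro x hx
        apply hW0
        intro t ht h
        obtain ⟨k1, k2, k3, _⟩ := tfU t ht
        rw [h] at k1 k2 k3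
        exact hD.2 x hx k2 k3
      rw [hW00, hTk]
      by_cases hK : KP57 G al F p v
      · rw [if_pos hK]
        obtain ⟨t0, ht0, e1, e2, e3, e4, e5, e6, e7, e8⟩ := Kst57 G hG O c f hm hK
        have h1 := htwo _ e2 _ e3 e8
        rw [hxrR _ e4, hxrR _ e5, hfr.hi _ ((mem_Jv51 G).1 e2).1 e4 m le_rfl e6,
          hfr.hi _ ((mem_Jv51 G).1 e3).1 e5 m le_rfl e7] at h1
        have h2 := hval v hK
        change _ ≤ ∑ t ∈ cl v, val57 fr t at h2
        linarith
      · rw [if_neg hK, if_pos hD]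
        obtain ⟨z1, z2, z3, z4, z5, z6, z7, z8, z9, z10, z11, z12, z13⟩ := hz v hD hK
        obtain ⟨x1, x2, x3⟩ := hX v hD hK
        rw [Finset.sum_pair (fun h => absurd (congrArg Prod.snd h) (by norm_num)), val0_57,
          val1_57]
        have h1 := hfr.sg _ z1 x2
        have h2 := hfr.sg _ z4 z6
        rw [O.s21 _ ((mem_Jv51 G).1 z3).1] at h2
        have h3 := hone _ x1
        have h4 := hone _ z3
        rw [hxrR _ x2] at h3
        rw [hxrR _ x3] at h4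
        linarith
    · -- a corner in `F`
      have hvn' := hvn v
      obtain ⟨y, hy, ry, hFy⟩ : ∃ y ∈ Jv G v, RC G (G.cl y) ∧ F y := by
        by_contra hno
        push Not at hno
        exact hD ⟨hB, hno⟩
      have tip : ∀ x ∈ Jv G v, ∀ z ∈ Jv G v, x ≠ z → RC G (G.cl x) → RC G (G.cl z) →
          (∃ j ≤ m, TH G x = g j) → ∀ j ≤ m, TH G z ≠ g j := by
        rintro x hx z hz hxz rx rz ⟨j, hj, h1⟩ k hk h2
        exact c1_62 G hG c hB hx hz hxz rx rz (by rw [h1]; exact (c.gm hj).le)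
          (by rw [h2]; exact (c.gm hk).le)
      by_cases hex : ∃ t ∈ TU, t.1.1 = v
      · obtain ⟨t, ht, htv⟩ := hex
        obtain ⟨k1, k2, k3, k4, k5, k6⟩ := tfU t ht
        obtain ⟨hj, hnT⟩ := k6 (by rw [htv]; exact hB)
        have htJ : t.1 ∈ Jv G v := (mem_Jv51 G).2 ⟨k1, htv⟩
        obtain ⟨x, hx, rx, hFx, hxt⟩ : ∃ x ∈ Jv G v, RC G (G.cl x) ∧ F x ∧ x ≠ t.1 := by
          by_contra hno
          push Not at hno
          apply hnT
          refine ⟨by rw [htv]; exact hB, ?_⟩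
          rw [htv]
          exact hno
        have h1 : fr x = 1 := hfr1 x ((mem_Jv51 G).1 hx).1 rx hFx
          (tip _ htJ x hx hxt.symm k2 rx hj)
        have h2 := htwo _ htJ x hx hxt.symm
        rw [hxrR _ k2, hxrR _ rx, h1] at h2
        have h3 : ∑ y ∈ Jv G v, W y = W t.1 := by
          apply Finset.sum_eq_single_of_mem _ htJ
          intro z hz hzt
          apply hW0
          intro t' ht' h
          obtain ⟨l1, l2, l3, l4, l5, l6⟩ := tfU t' ht'
          rw [h] at l1 l2 l3 l6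
          have hzv := ((mem_Jv51 G).1 hz).2
          obtain ⟨⟨j', hj', h5⟩, _⟩ := l6 (by rw [hzv]; exact hB)
          exact tip _ htJ z hz hzt.symm k2 l2 hj j' hj' h5
        have h4 := hWJ _ htJ
        rw [hxrR _ k2] at h4
        rw [h3]
        linarith
      · have h3 : ∑ y ∈ Jv G v, W y = 0 := by
          apply Finset.sum_eq_zero
          intro x hx
          apply hW0
          intro t ht h
          apply hex
          exact ⟨t, ht, by rw [h]; exact ((mem_Jv51 G).1 hx).2⟩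
        rw [h3]
        have hn1 : ∀ x ∈ Jv G v, RC G (G.cl x) → F x → (∀ j ≤ m, TH G x ≠ g j) →
            1 ≤ ∑ x ∈ Jv G v, xr G fr x := by
          intro x hx rx hFx h4
          have h5 := hone x hx
          rw [hxrR x rx, hfr1 x ((mem_Jv51 G).1 hx).1 rx hFx h4] at h5
          exact h5
        by_cases hyt : ∃ j ≤ m, TH G y = g j
        · by_cases hx : ∃ x ∈ Jv G v, RC G (G.cl x) ∧ F x ∧ x ≠ y
          · obtain ⟨x, hx, rx, hFx, hxy⟩ := hx
            have := hn1 x hx rx hFx (tip y hy x hx hxy.symm ry rx hyt)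
            linarith
          · push Not at hx
            obtain ⟨j, hj, hyj⟩ := hyt
            have h5 := hfr.lo y ((mem_Jv51 G).1 hy).1 ry j hj hyj
            rcases c0_62 G hG c f hB hy ry hj hyj hx with ⟨h0, _⟩ |
              ⟨i, hi, z, hz, hzy, rz, hzt, _, _⟩
            · subst h0
              have h4 := hone y hy
              rw [hxrR y ry, h5] at h4
              push_cast at h4
              linarith
            · subst hi
              have h4 := htwo y hy z hz hzy.symm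
              rw [hxrR y ry, hxrR z rz, h5,
                hfr.hi z ((mem_Jv51 G).1 hz).1 rz i (by omega) hzt] at h4
              push_cast at h4
              linarith
        · push Not at hyt
          have := hn1 y hy ry hFy hyt
          linarith
  -- the conclusion
  have h1 := master51 G hG w (8 - de)
  have h2 : ∑ x ∈ iJ G, w x ≤ G.iD.card + 2 * G.iI.card := by
    rw [hw]
    exact wsumR51 G hG fr hfr.sg hA hP
  have h3 : (G.P.card : ℝ) - G.oJ.card ≤ (inN G).card := by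
    have := card_inN71 G
    have h4 : (G.P.card : ℝ) ≤ G.oJ.card + (inN G).card := by exact_mod_cast this
    linarith
  have hde : de ≤ 1 / 2 := by
    have h5 := mul_nonneg hm0 hd0
    linarith
  have hcoef : 0 ≤ 8 * al - 2 * Real.pi - de * al := by
    have h5 := mul_le_mul_of_nonneg_right hde hal.le
    have h6 := c.al7
    linarith
  have h5 := mul_le_mul_of_nonneg_left h3 hcoef
  have h6 := mul_le_mul_of_nonneg_left h2 hal.le
  have h7 := mul_nonneg hal.le main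
  rw [h1] at h7
  unfold A3
  linarith

/-- **the core of the accounting** -/
theorem core57 (hG : G.Geo4 al kp U) {de : ℝ} (hd0 : 0 ≤ de) (hd1 : de ≤ 1 / 2)
    {fr : V × V → ℝ} (hsg : ∀ x ∈ iJ G, RC G (G.cl x) → fr (sg G x) = 1 - fr x)
    (hfr0 : ∀ x ∈ iJ G, RC G (G.cl x) → 0 ≤ fr x)
    (hA : ∀ C ∈ G.iC, A3 al * (G.cT C).card ≤ ∑ x ∈ G.cD C, G.ar x.1 x.2 / 3)
    (hP : ∀ C ∈ G.iC, (G.cT C).card = 3 → (G.cI C).card = 4 → ∑ x ∈ G.cJ C, wc G al x ≤ 12)
    (Tk : V → Finset ((V × V) × ℕ)) (val : (V × V) × ℕ → ℝ)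
    (hdis : ∀ v ∈ G.P, ∀ v' ∈ G.P, v ≠ v' → Disjoint (Tk v) (Tk v'))
    (hT : ∀ v ∈ G.P, ∀ t ∈ Tk v, t.1 ∈ iJ G ∧ RC G (G.cl t.1) ∧ 0 ≤ val t)
    (hout : ∀ k ∈ iJ G, RC G (G.cl k) → k.1 ∉ inN G →
      ∑ t ∈ (G.P.biUnion Tk).filter (fun t => t.1 = k), val t ≤ 2 + fr k - TH G k / al)
    (hin : ∀ k ∈ iJ G, RC G (G.cl k) → k.1 ∈ inN G → ¬ B7 G al k.1 →
      ∑ t ∈ (G.P.biUnion Tk).filter (fun t => t.1 = k), val t ≤ fr k)
    (hB7 : ∀ v, B7 G al v → ∑ t ∈ (G.P.biUnion Tk).filter (fun t => t.1.1 = v), val t ≤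
      ∑ x ∈ Jv G v, xr G fr x - (1 - de) + ∑ t ∈ Tk v, val t) :
    (8 * al - 2 * Real.pi - de * al) * ((G.P.card : ℝ) - G.oJ.card) ≤
      2 * al * G.iI.card + (∑ x ∈ G.iD, G.ar x.1 x.2 / 3 - A3 al * (G.iD.card / 3)) := by
  have hal := al_pos71 G hG
  have hpi := Real.pi_pos
  have hxrR : ∀ x, RC G (G.cl x) → xr G fr x = fr x := by
    intro x rx
    unfold xr
    rw [if_neg (RC_ne51 G rx), if_pos rx]
  have hbwR : ∀ x, RC G (G.cl x) → (bw G al x : ℝ) = 2 := by
    intro x rx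
    unfold bw
    rw [if_neg (RC_ne51 G rx), if_pos rx]
    norm_num
  have hxr0 : ∀ x ∈ iJ G, 0 ≤ xr G fr x := by
    intro x hx
    unfold xr
    split_ifs with h1 h2
    · exact le_rfl
    · exact hfr0 x hx h2
    · norm_num
  obtain ⟨TU, hTU⟩ : ∃ TU, TU = G.P.biUnion Tk := ⟨_, rfl⟩
  rw [← hTU] at hout hin hB7
  have tfU : ∀ t ∈ TU, t.1 ∈ iJ G ∧ RC G (G.cl t.1) ∧ 0 ≤ val t := by
    intro t ht
    rw [hTU, Finset.mem_biUnion] at ht
    obtain ⟨v, hv, ht⟩ := ht
    exact hT v hv t ht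
  obtain ⟨W, hW⟩ : ∃ W : V × V → ℝ, ∀ k, W k =
      ∑ t ∈ TU.filter (fun t => t.1 = k), val t := ⟨_, fun _ => rfl⟩
  have hWs : ∀ v, ∑ t ∈ TU.filter (fun t => t.1.1 = v), val t = ∑ k ∈ Jv G v, W k := by
    intro v
    have h1 : ∑ k ∈ Jv G v, ∑ t ∈ (TU.filter (fun t => t.1.1 = v)).filter (fun t => t.1 = k),
        val t = ∑ t ∈ TU.filter (fun t => t.1.1 = v), val t := by
      refine Finset.sum_fiberwise_of_maps_to (g := Prod.fst) ?_ _
      intro t ht
      rw [Finset.mem_filter] at ht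
      exact (mem_Jv51 G).2 ⟨(tfU t ht.1).1, ht.2⟩
    rw [← h1]
    refine Finset.sum_congr rfl fun k hk => ?_
    rw [hW, Finset.filter_filter]
    refine Finset.sum_congr ?_ fun _ _ => rfl
    apply Finset.filter_congr
    intro t _
    constructor
    · exact fun h => h.2
    · intro h
      exact ⟨by rw [h]; exact ((mem_Jv51 G).1 hk).2, h⟩
  have hW0 : ∀ k, ¬ RC G (G.cl k) → W k = 0 := by
    intro k hk
    rw [hW, Finset.filter_eq_empty_iff.2 (fun t ht h => hk (by rw [← h]; exact (tfU t ht).2.1)),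
      Finset.sum_empty]
  have hvn : ∀ v ∈ G.P, 0 ≤ ∑ t ∈ Tk v, val t := fun v hv =>
    Finset.sum_nonneg fun t ht => (hT v hv t ht).2.2
  obtain ⟨w, hw⟩ : ∃ w : V × V → ℝ, w = fun x => (bw G al x : ℝ) + xr G fr x := ⟨_, rfl⟩
  -- the slack of the points
  have main : 0 ≤ ∑ v ∈ G.P, slk G al w (8 - de) v := by
    apply tok57 G.P (slk G al w (8 - de)) Tk (fun t => t.1.1) val hdis
    · intro v hv t ht
      have h1 := (hT v hv t ht).1
      rw [mem_iJ71] at h1
      exact G.mem _ _ (G.sub h1.1.1)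
    intro v hvP
    rw [← hTU, hWs]
    have hv0 := hvn v hvP
    by_cases hvN : v ∈ inN G
    swap
    · -- outside `N`
      have h1 : slk G al w (8 - de) v = ∑ x ∈ Jv G v, (w x - TH G x / al) := by
        unfold slk
        rw [if_neg hvN]
      have h2 : ∑ k ∈ Jv G v, W k ≤ ∑ x ∈ Jv G v, (w x - TH G x / al) := by
        apply Finset.sum_le_sum
        intro x hx
        have ix := ((mem_Jv51 G).1 hx).1
        have hwx : w x = (bw G al x : ℝ) + xr G fr x := by rw [hw]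
        by_cases rx : RC G (G.cl x)
        · have h5 := hout x ix rx (by rw [((mem_Jv51 G).1 hx).2]; exact hvN)
          rw [← hW] at h5
          rw [hwx, hxrR x rx, hbwR x rx]
          linarith
        · have h3 : TH G x / al ≤ bw G al x := by
            rw [div_le_iff₀ hal]
            have := TH_bw51 G hG ix
            linarith
          have h4 := hxr0 x ix
          rw [hW0 x rx, hwx]
          linarith
      linarith
    have hslk : slk G al w (8 - de) v = ∑ x ∈ Jv G v, (bw G al x : ℝ) +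
        ∑ x ∈ Jv G v, xr G fr x - (8 - de) := by
      unfold slk
      rw [if_pos hvN, hw, Finset.sum_add_distrib]
    by_cases hB : B7 G al v
    · have h7' : ∑ x ∈ Jv G v, (bw G al x : ℝ) = 7 := by exact_mod_cast hB.2.1
      have h8 := hB7 v hB
      rw [hWs] at h8
      rw [hslk, h7']
      linarith
    · -- not seven units
      have hb7 := base7_51 G hG hvN
      have hWJ : ∀ x ∈ Jv G v, W x ≤ xr G fr x := by
        intro x hx
        have hx' := (mem_Jv51 G).1 hx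
        by_cases rx : RC G (G.cl x)
        · have := hin x hx'.1 rx (by rw [hx'.2]; exact hvN) (by rw [hx'.2]; exact hB)
          rw [← hW] at this
          rw [hxrR x rx]
          exact this
        · rw [hW0 x rx]
          exact hxr0 x hx'.1
      rcases Nat.lt_or_ge (∑ x ∈ Jv G v, bw G al x) 8 with hlt | hge
      · have h7 : ∑ x ∈ Jv G v, bw G al x = 7 := by omega
        have hex : ∃ x ∈ Jv G v, G.cI (G.cl x) ≠ ∅ ∧ ¬ RC G (G.cl x) := by
          by_contra hno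
          push Not at hno
          refine hB ⟨hvN, h7, fun x hx => ?_⟩
          by_cases h1 : G.cI (G.cl x) = ∅
          · exact Or.inl h1
          · exact Or.inr (hno x hx (Finset.nonempty_iff_ne_empty.2 h1))
        obtain ⟨x0, hx0, hx1, hx2⟩ := hex
        have h7' : ∑ x ∈ Jv G v, (bw G al x : ℝ) = 7 := by exact_mod_cast h7
        have h8 : W x0 = 0 := hW0 x0 hx2
        have h9 : xr G fr x0 = 1 := by
          unfold xr
          rw [if_neg hx1, if_neg hx2]
        rw [hslk, h7', ← Finset.add_sum_erase _ W hx0, ← Finset.add_sum_erase _ (xr G fr) hx0,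
          h8, h9]
        have h10 : ∑ x ∈ (Jv G v).erase x0, W x ≤ ∑ x ∈ (Jv G v).erase x0, xr G fr x :=
          Finset.sum_le_sum fun x hx => hWJ x (Finset.mem_of_mem_erase hx)
        linarith
      · have h8 : (8 : ℝ) ≤ ∑ x ∈ Jv G v, (bw G al x : ℝ) := by exact_mod_cast hge
        have h10 : ∑ x ∈ Jv G v, W x ≤ ∑ x ∈ Jv G v, xr G fr x := Finset.sum_le_sum hWJ
        rw [hslk]
        linarith
  -- the conclusion
  have h1 := master51 G hG w (8 - de)
  have h2 : ∑ x ∈ iJ G, w x ≤ G.iD.card + 2 * G.iI.card := by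
    rw [hw]
    exact wsumR51 G hG fr hsg hA hP
  have h3 : (G.P.card : ℝ) - G.oJ.card ≤ (inN G).card := by
    have := card_inN71 G
    have h4 : (G.P.card : ℝ) ≤ G.oJ.card + (inN G).card := by exact_mod_cast this
    linarith
  have hcoef : 0 ≤ 8 * al - 2 * Real.pi - de * al := by
    have h5 := mul_le_mul_of_nonneg_right hd1 hal.le
    have h6 := hG.al1
    linarith
  have h5 := mul_le_mul_of_nonneg_left h3 hcoef
  have h6 := mul_le_mul_of_nonneg_left h2 hal.le
  have h7 := mul_nonneg hal.le main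
  rw [h1] at h7
  unfold A3
  linarith

theorem Dbx57 {s : V × V → V × V} (hG : G.Geo4 al kp U) (O : Or62 G opp s s' p q)
    (c : Ch62 al Q opp g m) {F : V × V → Prop} (f : Fc62 G Q opp g m F)
    (hS : Q + opp (g m) = 2 * Real.pi - 3 * al) {v : V} (hD : Db57 G al Q F v) :
    ∃ x ∈ Jv G v, RC G (G.cl x) ∧ RC G (G.cl (p x)) := by
  obtain ⟨hB, hF⟩ := hD
  by_contra hno
  push Not at hno
  obtain ⟨h1, h2⟩ := count62 G hG hB
  obtain ⟨JR, hJR⟩ : ∃ JR, JR = (Jv G v).filter (fun x => RC G (G.cl x)) := ⟨_, rfl⟩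
  obtain ⟨JT, hJT⟩ : ∃ JT, JT = (Jv G v).filter (fun x => ¬ RC G (G.cl x)) := ⟨_, rfl⟩
  have hmR : ∀ x, x ∈ JR ↔ x ∈ Jv G v ∧ RC G (G.cl x) := by
    intro x
    rw [hJR, Finset.mem_filter]
  have hmT : ∀ x, x ∈ JT ↔ x ∈ Jv G v ∧ ¬ RC G (G.cl x) := by
    intro x
    rw [hJT, Finset.mem_filter]
  rw [← hJR, ← hJT] at h1 h2
  have hqp : ∀ x ∈ Jv G v, q (p x) = x := fun x hx =>
    O.pq _ ((mem_Jv51 G).1 hx).1 ((mem_Jv51 G).1 (pJ57 G O hB.1 hx).1).1
  have hle : JR.card ≤ JT.card := by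
    apply Finset.card_le_card_of_injOn p
    · intro x hx
      obtain ⟨h3, h4⟩ := (hmR x).1 (Finset.mem_coe.1 hx)
      exact Finset.mem_coe.2 ((hmT _).2 ⟨(pJ57 G O hB.1 h3).1, hno x h3 h4⟩)
    · intro x hx y hy h
      rw [← hqp x ((hmR x).1 (Finset.mem_coe.1 hx)).1, h,
        hqp y ((hmR y).1 (Finset.mem_coe.1 hy)).1]
  have hcases : JR.card = 0 ∨ JR.card = 1 ∨ JR.card = 2 := by omega
  rcases hcases with h0 | h0 | h0
  · have h3 : JT.card = 7 := by omega
    rw [Finset.card_eq_zero] at h0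
    rw [h3, h0, Finset.sum_empty] at h2
    push_cast at h2
    linarith [c.al7]
  · obtain ⟨x, hx⟩ := Finset.card_eq_one.1 h0
    have h3 : JT.card = 5 := by omega
    rw [h3, hx, Finset.sum_singleton] at h2
    push_cast at h2
    have hxR := (hmR x).1 (by rw [hx]; exact Finset.mem_singleton_self x)
    have h4 : TH G x = g 0 := by
      rw [c.g0]
      linarith
    apply (hF x hxR.1 hxR.2).1
    rw [f.lo x ((mem_Jv51 G).1 hxR.1).1 hxR.2 (by rw [h4]; exact c.gm (Nat.zero_le _))]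
    exact ⟨0, Nat.zero_le _, h4⟩
  · obtain ⟨x, y, hxy, hJe⟩ := Finset.card_eq_two.1 h0
    have h3 : JT.card = 3 := by omega
    rw [h3, hJe, Finset.sum_pair hxy] at h2
    push_cast at h2
    have hxR := (hmR x).1 (by rw [hJe]; exact Finset.mem_insert_self _ _)
    have hyR := (hmR y).1 (by
      rw [hJe]
      exact Finset.mem_insert_of_mem (Finset.mem_singleton_self _))
    have key : ∀ a b : V × V, a ∈ Jv G v → b ∈ Jv G v → a ≠ b → RC G (G.cl a) → RC G (G.cl b) →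
        TH G a + TH G b = 2 * Real.pi - 3 * al → TH G a ≤ TH G b → False := by
      intro a b ha hb hab ra rb hs hle
      have hbQ : Q < TH G b := by
        by_contra h
        push Not at h
        exact c1_62 G hG c hB ha hb hab ra rb (hle.trans h) h
      obtain ⟨j, hj, hbj⟩ := (f.hi b ((mem_Jv51 G).1 hb).1 rb hbQ).1 (hF b hb rb).1
      rcases Nat.eq_or_lt_of_le hj with rfl | hlt
      · exact (hF a ha ra).2 (by linarith)
      · have h5 := c.gs j hlt
        have h6 : TH G a = g (j + 1) := by linarith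
        apply (hF a ha ra).1
        rw [f.lo a ((mem_Jv51 G).1 ha).1 ra (by rw [h6]; exact c.gm hlt)]
        exact ⟨j + 1, hlt, h6⟩
    rcases le_total (TH G x) (TH G y) with h | h
    · exact key x y hxR.1 hyR.1 hxy hxR.2 hyR.2 (by linarith) h
    · exact key y x hyR.1 hxR.1 hxy.symm hyR.2 hxR.2 (by linarith) h

/-- **a side between two rhombi at a deficient point ends at a point without seven units** -/
theorem zbb57 (hG : G.Geo4 al kp U) (O : Or62 G opp (sg G) s' p q)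
    (c : Ch62 al Q opp g m) (hoQ : opp Q = Q)
    {F : V × V → Prop} (f : Fc62 G Q opp g m F) (hS : Q + opp (g m) = 2 * Real.pi - 3 * al)
    (hF : ∀ x ∈ iJ G, RC G (G.cl x) → (F (sg G x) ↔ ¬ F x))
    {v : V} (hD : Db57 G al Q F v) {x : V × V} (hx : x ∈ Jv G v) (rx : RC G (G.cl x))
    (rp : RC G (G.cl (p x))) :
    s' (p x) ∈ iJ G ∧ sg G x ∈ iJ G ∧ RC G (G.cl (s' (p x))) ∧ RC G (G.cl (sg G x)) ∧
      F (s' (p x)) ∧ F (sg G x) ∧ (s' (p x)).1 = (sg G x).1 ∧ p (s' (p x)) = sg G x ∧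
      q (sg G x) = s' (p x) ∧ ¬ B7 G al (sg G x).1 ∧ TH G (s' (p x)) ≠ Q ∧
      TH G (sg G x) ≠ Q := by
  obtain ⟨hB, hnF⟩ := hD
  obtain ⟨hpJ, hqJ⟩ := pJ57 G O hB.1 hx
  have ix := ((mem_Jv51 G).1 hx).1
  have ip := ((mem_Jv51 G).1 hpJ).1
  have ia := O.s2 _ ip
  have ib := O.s1 _ ix
  have ra : RC G (G.cl (s' (p x))) := by
    rw [O.s2c _ ip]
    exact rp
  have rb : RC G (G.cl (sg G x)) := by
    rw [O.s1c _ ix]
    exact rx
  have e1 : p (s' (p x)) = sg G x := O.ps _ ix ip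
  have e2 : q (sg G x) = s' (p x) := by
    rw [← e1]
    exact O.pq _ ia (by rw [e1]; exact ib)
  have e3 : (s' (p x)).1 = (sg G x).1 := by
    rw [← e1]
    exact (O.pf _ ia (by rw [e1]; exact ib)).symm
  have fa : F (s' (p x)) := by
    have h1 := hF _ ia ra
    rw [O.s21 _ ip] at h1
    by_contra h2
    exact (hnF _ hpJ rp).1 (h1.2 h2)
  have fb : F (sg G x) := (hF _ ix rx).2 (hnF x hx rx).1
  have qa : TH G (s' (p x)) ≠ Q := by
    intro h
    have h1 := O.o1 _ ia ra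
    rw [O.s21 _ ip, h, hoQ] at h1
    exact (hnF _ hpJ rp).2 h1
  have qb : TH G (sg G x) ≠ Q := by
    intro h
    have h1 := O.o2 _ ib rb
    rw [O.s12 _ ix, h, hoQ] at h1
    exact (hnF _ hx rx).2 h1
  refine ⟨ia, ib, ra, rb, fa, fb, e3, e1, e2, fun hBu => ?_, qa, qb⟩
  have haJ : s' (p x) ∈ Jv G (sg G x).1 := (mem_Jv51 G).2 ⟨ia, e3⟩
  have hbJ : sg G x ∈ Jv G (sg G x).1 := (mem_Jv51 G).2 ⟨ib, rfl⟩
  have hab : s' (p x) ≠ sg G x := by
    intro h
    apply ne57 G hG O hBu haJ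
    rw [e1, h]
  have hxp : x ≠ p x := (ne57 G hG O hB hx).symm
  have tb : TH G (sg G x) = opp (TH G x) := O.o1 _ ix rx
  have ta : TH G (s' (p x)) = opp (TH G (p x)) := O.o2 _ ip rp
  have nqx := (hnF x hx rx).2
  have nqp := (hnF _ hpJ rp).2
  rcases le_or_gt (TH G x) Q with h1 | h1
  · rcases le_or_gt (TH G (p x)) Q with h2 | h2
    · exact c1_62 G hG c hB hx hpJ hxp rx rp h1 h2
    · obtain ⟨k, hk, hkt⟩ := (f.hi _ ip rp h2).1 (hnF _ hpJ rp).1
      have h3 := two62 G hG hB hx hpJ hxp rx rp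
      have h4 := two62 G hG hBu hbJ haJ hab.symm rb ra
      rw [tb, ta, hkt, c.goo hk] at h4
      rw [hkt] at h3
      have h5 := lt_of_le_of_ne h1 nqx
      exact c.nz hk (fun h => by linarith) h1 h3 h4
  · obtain ⟨k, hk, hkt⟩ := (f.hi _ ix rx h1).1 (hnF _ hx rx).1
    rcases le_or_gt (TH G (p x)) Q with h2 | h2
    · have h3 := two62 G hG hB hpJ hx hxp.symm rp rx
      have h4 := two62 G hG hBu haJ hbJ hab ra rb
      rw [tb, ta, hkt, c.goo hk] at h4
      rw [hkt] at h3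
      have h5 := lt_of_le_of_ne h2 nqp
      exact c.nz hk (fun h => by linarith) h2 h3 h4
    · obtain ⟨l, hl, hlt⟩ := (f.hi _ ip rp h2).1 (hnF _ hpJ rp).1
      apply c1_62 G hG c hBu haJ hbJ hab ra rb
      · rw [ta, hlt, c.goo hl]
        exact (c.gm hl).le
      · rw [tb, hkt, c.goo hk]
        exact (c.gm hk).le

/-- the seven unit points which are not deficient -/
theorem good57 (hG : G.Geo4 al kp U) (c : Ch62 al Q opp g m)
    {F : V × V → Prop} (f : Fc62 G Q opp g m F) (hS : Q + opp (g m) = 2 * Real.pi - 3 * al)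
    (hN4 : ∀ k l, k ≤ m → l ≤ m → opp (g k) + opp (g l) ≠ 2 * al + opp (g m))
    {de : ℝ} (hd0 : 0 ≤ de)
    {fr : V × V → ℝ} (hfr : Fb57 G Q opp g m de F fr)
    (hfr0 : ∀ x ∈ iJ G, RC G (G.cl x) → 0 ≤ fr x)
    {v : V} (hB : B7 G al v) (hD : ¬ Db57 G al Q F v) (hV : ¬ VS57 G al Q opp g m v) :
    1 - de ≤ ∑ x ∈ Jv G v, xr G fr x := by
  have hxrR : ∀ x, RC G (G.cl x) → xr G fr x = fr x := by
    intro x rx
    unfold xr
    rw [if_neg (RC_ne51 G rx), if_pos rx]
  have hxr0 : ∀ x ∈ iJ G, 0 ≤ xr G fr x := by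
    intro x hx
    unfold xr
    split_ifs with h1 h2
    · exact le_rfl
    · exact hfr0 x hx h2
    · norm_num
  have hone : ∀ x ∈ Jv G v, xr G fr x ≤ ∑ x ∈ Jv G v, xr G fr x := fun x hx =>
    Finset.single_le_sum (fun y hy => hxr0 y ((mem_Jv51 G).1 hy).1) hx
  have htwo : ∀ x ∈ Jv G v, ∀ y ∈ Jv G v, x ≠ y → xr G fr x + xr G fr y ≤
      ∑ x ∈ Jv G v, xr G fr x := by
    intro x hx y hy hxy
    rw [← Finset.sum_pair hxy]
    apply Finset.sum_le_sum_of_subset_of_nonneg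
    · intro z hz
      rw [Finset.mem_insert, Finset.mem_singleton] at hz
      rcases hz with rfl | rfl
      · exact hx
      · exact hy
    · intro z hz _
      exact hxr0 z ((mem_Jv51 G).1 hz).1
  have hfr1 : ∀ x ∈ iJ G, RC G (G.cl x) → F x → TH G x ≠ Q → (∀ j ≤ m, TH G x ≠ g j) →
      fr x = 1 := by
    intro x hx rx hFx hq h1
    rw [hfr.el x hx rx hq h1, if_pos hFx]
    intro j hj h
    exact (f.hi x hx rx (by rw [h]; exact c.bQ hj)).2 ⟨j, hj, h⟩ hFx
  have hn1 : ∀ x ∈ Jv G v, RC G (G.cl x) → F x → TH G x ≠ Q → (∀ j ≤ m, TH G x ≠ g j) →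
      1 ≤ ∑ x ∈ Jv G v, xr G fr x := by
    intro x hx rx hFx hq h4
    have h5 := hone x hx
    rw [hxrR x rx, hfr1 x ((mem_Jv51 G).1 hx).1 rx hFx hq h4] at h5
    exact h5
  by_cases hsq : ∃ y ∈ Jv G v, RC G (G.cl y) ∧ TH G y = Q
  · obtain ⟨y, hy, ry, hyQ⟩ := hsq
    have big : ∀ x ∈ Jv G v, RC G (G.cl x) → x ≠ y → Q < TH G x := by
      intro x hx rx hxy
      by_contra h
      push Not at h
      exact c1_62 G hG c hB hx hy hxy rx ry h hyQ.le
    by_cases hx : ∃ x ∈ Jv G v, RC G (G.cl x) ∧ x ≠ y ∧ F x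
    · obtain ⟨x, hx, rx, hxy, hFx⟩ := hx
      have h1 := big x hx rx hxy
      have := hn1 x hx rx hFx h1.ne' (fun j hj h => by
        have := c.gm hj
        linarith)
      linarith
    push Not at hx
    exfalso
    have ob : ∀ x ∈ Jv G v, RC G (G.cl x) → x ≠ y → ∃ j, j ≤ m ∧ TH G x = opp (g j) :=
      fun x hx' rx hxy => (f.hi x ((mem_Jv51 G).1 hx').1 rx (big x hx' rx hxy)).1
        (hx x hx' rx hxy)
    obtain ⟨h1, h2⟩ := count62 G hG hB
    obtain ⟨JR, hJR⟩ : ∃ JR, JR = (Jv G v).filter (fun x => RC G (G.cl x)) := ⟨_, rfl⟩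
    have hmR : ∀ x, x ∈ JR ↔ x ∈ Jv G v ∧ RC G (G.cl x) := by
      intro x
      rw [hJR, Finset.mem_filter]
    rw [← hJR] at h1 h2
    have hyR : y ∈ JR := (hmR y).2 ⟨hy, ry⟩
    have hpos : 0 < JR.card := Finset.card_pos.2 ⟨y, hyR⟩
    have her : (JR.erase y).card + 1 = JR.card := Finset.card_erase_add_one hyR
    have hmE : ∀ x, x ∈ JR.erase y → x ∈ Jv G v ∧ RC G (G.cl x) ∧ x ≠ y := by
      intro x hx'
      have h3 := (hmR x).1 (Finset.mem_of_mem_erase hx')
      exact ⟨h3.1, h3.2, Finset.ne_of_mem_erase hx'⟩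
    rw [← Finset.add_sum_erase JR _ hyR, hyQ] at h2
    have hcases : JR.card = 1 ∨ JR.card = 2 ∨ JR.card = 3 := by omega
    rcases hcases with h0 | h0 | h0
    · have h5 : ((Jv G v).filter (fun x => ¬ RC G (G.cl x))).card = 5 := by omega
      have h6 : JR.erase y = ∅ := Finset.card_eq_zero.1 (by omega)
      rw [h5, h6, Finset.sum_empty] at h2
      push_cast at h2
      have h7 := c.g0
      have h8 := c.gm (j := 0) (Nat.zero_le _)
      linarith
    · have h5 : ((Jv G v).filter (fun x => ¬ RC G (G.cl x))).card = 3 := by omega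
      obtain ⟨z, hz⟩ := Finset.card_eq_one.1 (show (JR.erase y).card = 1 by omega)
      rw [h5, hz, Finset.sum_singleton] at h2
      push_cast at h2
      obtain ⟨hzJ, rz, hzy⟩ := hmE z (by rw [hz]; exact Finset.mem_singleton_self z)
      apply hV
      refine ⟨hB, y, hy, z, hzJ, ry, rz, hyQ, by linarith, ?_⟩
      intro w hw hwy hwz
      refine (hB.2.2 w hw).resolve_right (fun rw' => hwz ?_)
      have : w ∈ JR.erase y := Finset.mem_erase.2 ⟨hwy, (hmR w).2 ⟨hw, rw'⟩⟩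
      rw [hz, Finset.mem_singleton] at this
      exact this
    · have h5 : ((Jv G v).filter (fun x => ¬ RC G (G.cl x))).card = 1 := by omega
      obtain ⟨z, w, hzw, hJe⟩ := Finset.card_eq_two.1 (show (JR.erase y).card = 2 by omega)
      rw [h5, hJe, Finset.sum_pair hzw] at h2
      push_cast at h2
      obtain ⟨hzJ, rz, hzy⟩ := hmE z (by rw [hJe]; exact Finset.mem_insert_self _ _)
      obtain ⟨hwJ, rw', hwy⟩ := hmE w (by
        rw [hJe]
        exact Finset.mem_insert_of_mem (Finset.mem_singleton_self _))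
      obtain ⟨k, hk, e1⟩ := ob z hzJ rz hzy
      obtain ⟨l, hl, e2⟩ := ob w hwJ rw' hwy
      apply hN4 k l hk hl
      rw [e1, e2] at h2
      linarith
  · push Not at hsq
    obtain ⟨y, hy, ry, hFy⟩ : ∃ y ∈ Jv G v, RC G (G.cl y) ∧ F y := by
      by_contra hno
      push Not at hno
      exact hD ⟨hB, fun x hx rx => ⟨hno x hx rx, hsq x hx rx⟩⟩
    by_cases hyt : ∃ j ≤ m, TH G y = g j
    · obtain ⟨j, hj, hyj⟩ := hyt
      by_cases hx : ∃ x ∈ Jv G v, RC G (G.cl x) ∧ F x ∧ x ≠ y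
      · obtain ⟨x, hx, rx, hFx, hxy⟩ := hx
        have := hn1 x hx rx hFx (hsq x hx rx) (fun k hk h =>
          c1_62 G hG c hB hx hy hxy rx ry (by rw [h]; exact (c.gm hk).le)
            (by rw [hyj]; exact (c.gm hj).le))
        linarith
      · push Not at hx
        have h5 := hfr.lo y ((mem_Jv51 G).1 hy).1 ry j hj hyj
        rcases c0_62 G hG c f hB hy ry hj hyj hx with ⟨h0, _⟩ |
          ⟨i, hi, z, hz, hzy, rz, hzt, _, _⟩
        · subst h0
          have h4 := hone y hy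
          rw [hxrR y ry, h5] at h4
          push_cast at h4
          linarith
        · subst hi
          have h4 := htwo y hy z hz hzy.symm
          rw [hxrR y ry, hxrR z rz, h5,
            hfr.hi z ((mem_Jv51 G).1 hz).1 rz i (by omega) hzt] at h4
          push_cast at h4
          linarith
    · push Not at hyt
      have := hn1 y hy ry hFy (hsq y hy ry) hyt
      linarith

/-- **the accounting for a chain ending in a square** -/
theorem accb57 (hG : G.Geo4 al kp U) (O : Or62 G opp (sg G) s' p q) (c : Ch62 al Q opp g m)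
    {F : V × V → Prop} (f : Fc62 G Q opp g m F) (hS : Q + opp (g m) = 2 * Real.pi - 3 * al)
    (hoQ : opp Q = Q) (hQ : Q ≤ 3 / 2 * al)
    (hN4 : ∀ k l, k ≤ m → l ≤ m → opp (g k) + opp (g l) ≠ 2 * al + opp (g m))
    {de : ℝ} (hd0 : 0 ≤ de) (hd1 : ((m : ℝ) + 1) * de ≤ 1 / 2)
    (hF : ∀ x ∈ iJ G, RC G (G.cl x) → (F (sg G x) ↔ ¬ F x))
    {fr : V × V → ℝ} (hfr : Fb57 G Q opp g m de F fr)
    (hA : ∀ C ∈ G.iC, A3 al * (G.cT C).card ≤ ∑ x ∈ G.cD C, G.ar x.1 x.2 / 3)
    (hP : ∀ C ∈ G.iC, (G.cT C).card = 3 → (G.cI C).card = 4 → ∑ x ∈ G.cJ C, wc G al x ≤ 12)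
    (cl : V → Finset ((V × V) × ℕ))
    (hcl : ∀ v, VS57 G al Q opp g m v → ∀ t ∈ cl v, t.1 ∈ iJ G ∧ RC G (G.cl t.1) ∧
      (¬ B7 G al t.1.1 ∨ ((∃ j ≤ m, TH G t.1 = g j) ∧ ¬ Tight62 G al F t.1)) ∧ t.2 ≤ 3 ∧
      (t.2 = 0 → ¬ (RC G (G.cl (p t.1)) ∧ F (p t.1) ∧ TH G (p t.1) ≠ Q ∧ TH G t.1 ≠ Q)) ∧
      (t.2 = 1 → ¬ (RC G (G.cl (q t.1)) ∧ F (q t.1) ∧ TH G (q t.1) ≠ Q ∧ TH G t.1 ≠ Q)) ∧
      (2 ≤ t.2 → TH G t.1 = Q ∧ t.1.1 ∉ inN G))
    (hex : ∀ v w k, VS57 G al Q opp g m v → VS57 G al Q opp g m w →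
      ((k, 2) ∈ cl v → (k, 0) ∉ cl w) ∧ ((k, 3) ∈ cl v → (k, 1) ∉ cl w))
    (hdis : ∀ v v', VS57 G al Q opp g m v → VS57 G al Q opp g m v' → v ≠ v' →
      Disjoint (cl v) (cl v'))
    (hval : ∀ v, VS57 G al Q opp g m v →
      1 / 2 - ((m : ℝ) + 2) * de ≤ ∑ t ∈ cl v, (if 2 ≤ t.2 then 1 / 2 else fr t.1 / 2)) :
    (8 * al - 2 * Real.pi - de * al) * ((G.P.card : ℝ) - G.oJ.card) ≤
      2 * al * G.iI.card + (∑ x ∈ G.iD, G.ar x.1 x.2 / 3 - A3 al * (G.iD.card / 3)) := by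
  have hal := al_pos71 G hG
  have hm0 : (0 : ℝ) ≤ (m : ℝ) := Nat.cast_nonneg m
  have hde : de ≤ 1 / 2 := by
    have h5 := mul_nonneg hm0 hd0
    linarith
  -- `fr`
  have hjm : ∀ j ≤ m, ((j : ℝ) + 1) * de ≤ 1 / 2 := by
    intro j hj
    have h1 : (j : ℝ) ≤ (m : ℝ) := by exact_mod_cast hj
    have h2 := mul_le_mul_of_nonneg_right (by linarith : (j : ℝ) + 1 ≤ (m : ℝ) + 1) hd0
    linarith
  have hjn : ∀ j : ℕ, 0 ≤ ((j : ℝ) + 1) * de := fun j =>
    mul_nonneg (by have : (0 : ℝ) ≤ (j : ℝ) := Nat.cast_nonneg j; linarith) hd0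
  have hfr0 : ∀ x ∈ iJ G, RC G (G.cl x) → 0 ≤ fr x := by
    intro x hx rx
    by_cases h0 : TH G x = Q
    · rw [hfr.sq x hx rx h0]
      norm_num
    by_cases h1 : ∃ j ≤ m, TH G x = g j
    · obtain ⟨j, hj, h1⟩ := h1
      rw [hfr.lo x hx rx j hj h1]
      linarith [hjm j hj]
    · by_cases h2 : ∃ j ≤ m, TH G x = opp (g j)
      · obtain ⟨j, hj, h2⟩ := h2
        rw [hfr.hi x hx rx j hj h2]
        exact hjn j
      · rw [hfr.el x hx rx h0 (fun j hj h => h1 ⟨j, hj, h⟩) (fun j hj h => h2 ⟨j, hj, h⟩)]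
        split_ifs <;> norm_num
  have hfr1 : ∀ x ∈ iJ G, RC G (G.cl x) → F x → TH G x ≠ Q → (∀ j ≤ m, TH G x ≠ g j) →
      fr x = 1 := by
    intro x hx rx hFx hq h1
    rw [hfr.el x hx rx hq h1, if_pos hFx]
    intro j hj h
    exact (f.hi x hx rx (by rw [h]; exact c.bQ hj)).2 ⟨j, hj, h⟩ hFx
  have hxrR : ∀ x, RC G (G.cl x) → xr G fr x = fr x := by
    intro x rx
    unfold xr
    rw [if_neg (RC_ne51 G rx), if_pos rx]
  have hxr0 : ∀ x ∈ iJ G, 0 ≤ xr G fr x := by
    intro x hx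
    unfold xr
    split_ifs with h1 h2
    · exact le_rfl
    · exact hfr0 x hx h2
    · norm_num
  -- the sides between two rhombi
  have hXe : ∀ v, ∃ x : V × V, Db57 G al Q F v →
      x ∈ Jv G v ∧ RC G (G.cl x) ∧ RC G (G.cl (p x)) := by
    intro v
    by_cases h : Db57 G al Q F v
    · obtain ⟨x, h1, h2, h3⟩ := Dbx57 G hG O c f hS h
      exact ⟨x, fun _ => ⟨h1, h2, h3⟩⟩
    · exact ⟨(v, v), fun h1 => absurd h1 h⟩
  choose X hX using hXe
  have hz : ∀ v, Db57 G al Q F v →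
      X v ∈ iJ G ∧ (X v).1 = v ∧ p (X v) ∈ Jv G v ∧
      s' (p (X v)) ∈ iJ G ∧ sg G (X v) ∈ iJ G ∧ RC G (G.cl (s' (p (X v)))) ∧
      RC G (G.cl (sg G (X v))) ∧
      F (s' (p (X v))) ∧ F (sg G (X v)) ∧ (s' (p (X v))).1 = (sg G (X v)).1 ∧
      p (s' (p (X v))) = sg G (X v) ∧
      q (sg G (X v)) = s' (p (X v)) ∧ ¬ B7 G al (sg G (X v)).1 ∧ TH G (s' (p (X v))) ≠ Q ∧
      TH G (sg G (X v)) ≠ Q := by
    intro v h1
    obtain ⟨h3, h4, h5⟩ := hX v h1
    exact ⟨((mem_Jv51 G).1 h3).1, ((mem_Jv51 G).1 h3).2, (pJ57 G O h1.1.1 h3).1,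
      zbb57 G hG O c hoQ f hS hF h1 h3 h4 h5⟩
  have hVD : ∀ v, VS57 G al Q opp g m v → ¬ Db57 G al Q F v := by
    rintro v ⟨_, x, hx, y, hy, rx, ry, hxQ, _⟩ hD
    exact (hD.2 x hx rx).2 hxQ
  -- the tokens
  obtain ⟨Tk, hTk⟩ : ∃ Tk : V → Finset ((V × V) × ℕ), ∀ v, Tk v =
      if VS57 G al Q opp g m v then cl v else
        if Db57 G al Q F v then {(s' (p (X v)), 0), (sg G (X v), 1)} else ∅ := ⟨_, fun _ => rfl⟩
  have mT : ∀ v, ∀ t ∈ Tk v, (VS57 G al Q opp g m v ∧ t ∈ cl v) ∨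
      (Db57 G al Q F v ∧ (t = (s' (p (X v)), 0) ∨ t = (sg G (X v), 1))) := by
    intro v t ht
    rw [hTk] at ht
    by_cases h1 : VS57 G al Q opp g m v
    · rw [if_pos h1] at ht
      exact Or.inl ⟨h1, ht⟩
    · rw [if_neg h1] at ht
      by_cases h2 : Db57 G al Q F v
      · rw [if_pos h2, Finset.mem_insert, Finset.mem_singleton] at ht
        exact Or.inr ⟨h2, ht⟩
      · rw [if_neg h2] at ht
        exact absurd ht (Finset.notMem_empty _)
  have tf : ∀ v, ∀ t ∈ Tk v, t.1 ∈ iJ G ∧ RC G (G.cl t.1) ∧ t.2 ≤ 3 ∧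
      (2 ≤ t.2 → TH G t.1 = Q ∧ t.1.1 ∉ inN G) ∧
      (B7 G al t.1.1 → (∃ j ≤ m, TH G t.1 = g j) ∧ ¬ Tight62 G al F t.1) := by
    intro v t ht
    rcases mT v t ht with ⟨h1, h2⟩ | ⟨h1, h3⟩
    · obtain ⟨k1, k2, k3, k4, _, _, k5⟩ := hcl v h1 t h2
      exact ⟨k1, k2, k4, k5, fun h => k3.resolve_left (fun h' => h' h)⟩
    · obtain ⟨z1, z2, z3, z4, z5, z6, z7, z8, z9, z10, z11, z12, z13, z14, z15⟩ := hz v h1
      rcases h3 with rfl | rfl
      · refine ⟨z4, z6, by norm_num, fun h => absurd h (by norm_num), fun h => ?_⟩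
        exact absurd (by rw [← z10]; exact h) z13
      · exact ⟨z5, z7, by norm_num, fun h => absurd h (by norm_num), fun h => absurd h z13⟩
  have hdisT : ∀ v ∈ G.P, ∀ v' ∈ G.P, v ≠ v' → Disjoint (Tk v) (Tk v') := by
    have hmix : ∀ v v' t, VS57 G al Q opp g m v → t ∈ cl v → Db57 G al Q F v' →
        (t = (s' (p (X v')), 0) ∨ t = (sg G (X v'), 1)) → False := by
      intro v v' t h1 h2 h3 h5
      obtain ⟨k1, k2, _, k4, k5, k6, k7⟩ := hcl v h1 t h2
      obtain ⟨z1, z2, z3, z4, z5, z6, z7, z8, z9, z10, z11, z12, z13, z14, z15⟩ := hz v' h3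
      rcases h5 with rfl | rfl
      · dsimp only at k5
        rw [z11] at k5
        exact k5 rfl ⟨z7, z9, z15, z14⟩
      · dsimp only at k6
        rw [z12] at k6
        exact k6 rfl ⟨z6, z8, z14, z15⟩
    intro v _ v' _ hne
    rw [Finset.disjoint_left]
    intro t ht ht'
    rcases mT v t ht with ⟨h1, h2⟩ | ⟨h1, h3⟩
    · rcases mT v' t ht' with ⟨k1, k2⟩ | ⟨k1, k3⟩
      · exact Finset.disjoint_left.1 (hdis v v' h1 k1 hne) h2 k2
      · exact hmix v v' t h1 h2 k1 k3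
    · rcases mT v' t ht' with ⟨k1, k2⟩ | ⟨k1, k3⟩
      · exact hmix v' v t k1 k2 h1 h3
      · obtain ⟨z1, z2, z3, z4, z5, z6, z7, z8, z9, z10, z11, z12, z13, z14, z15⟩ := hz v h1
        obtain ⟨y1, y2, y3, y4, y5, y6, y7, y8, y9, y10, y11, y12, y13, y14, y15⟩ := hz v' k1
        have hXX : sg G (X v) = sg G (X v') := by
          rcases h3 with h3 | h3 <;> rcases k3 with k3 | k3
          · have h4 : s' (p (X v)) = s' (p (X v')) := congrArg Prod.fst (h3.symm.trans k3)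
            rw [← z11, ← y11, h4]
          · exact absurd (congrArg Prod.snd (h3.symm.trans k3)) (by norm_num)
          · exact absurd (congrArg Prod.snd (h3.symm.trans k3)) (by norm_num)
          · exact congrArg Prod.fst (h3.symm.trans k3)
        apply hne
        have h5 : X v = X v' := by
          rw [← O.s12 _ z1, hXX, O.s12 _ y1]
        rw [← z2, ← y2, h5]
  obtain ⟨TU, hTU⟩ : ∃ TU, TU = G.P.biUnion Tk := ⟨_, rfl⟩
  have tfU : ∀ t ∈ TU, t.1 ∈ iJ G ∧ RC G (G.cl t.1) ∧ t.2 ≤ 3 ∧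
      (2 ≤ t.2 → TH G t.1 = Q ∧ t.1.1 ∉ inN G) ∧
      (B7 G al t.1.1 → (∃ j ≤ m, TH G t.1 = g j) ∧ ¬ Tight62 G al F t.1) := by
    intro t ht
    rw [hTU, Finset.mem_biUnion] at ht
    obtain ⟨v, _, ht⟩ := ht
    exact tf v t ht
  -- two tokens on the same side of a square corner
  have hexU : ∀ k, TH G k = Q → ((k, 2) ∈ TU → (k, 0) ∉ TU) ∧ ((k, 3) ∈ TU → (k, 1) ∉ TU) := by
    intro k hkQ
    have hc : ∀ n, (k, n) ∈ TU → ∃ v, VS57 G al Q opp g m v ∧ (k, n) ∈ cl v := by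
      intro n hn
      rw [hTU, Finset.mem_biUnion] at hn
      obtain ⟨v, _, hn⟩ := hn
      rcases mT v _ hn with h | ⟨h1, h3⟩
      · exact ⟨v, h⟩
      · obtain ⟨z1, z2, z3, z4, z5, z6, z7, z8, z9, z10, z11, z12, z13, z14, z15⟩ := hz v h1
        rcases h3 with h3 | h3
        · have := congrArg Prod.fst h3
          dsimp only at this
          rw [← this] at z14
          exact absurd hkQ z14
        · have := congrArg Prod.fst h3
          dsimp only at this
          rw [← this] at z15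
          exact absurd hkQ z15
    constructor
    · intro h h'
      obtain ⟨v, hv1, hv2⟩ := hc _ h
      obtain ⟨w, hw1, hw2⟩ := hc _ h'
      exact (hex v w k hv1 hw1).1 hv2 hw2
    · intro h h'
      obtain ⟨v, hv1, hv2⟩ := hc _ h
      obtain ⟨w, hw1, hw2⟩ := hc _ h'
      exact (hex v w k hv1 hw1).2 hv2 hw2
  -- the sum at a corner without tokens of the large kind
  have hWfr : ∀ k ∈ iJ G, RC G (G.cl k) → (TH G k ≠ Q ∨ k.1 ∈ inN G) →
      ∑ t ∈ TU.filter (fun t => t.1 = k), vb57 fr t ≤ fr k := by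
    intro k hk rk h
    have hno : ∀ n, 2 ≤ n → (k, n) ∉ TU := by
      intro n hn hmem
      have h1 := (tfU _ hmem).2.2.2.1 hn
      rcases h with h | h
      · exact h h1.1
      · exact h1.2 h
    have := corb57 TU fr k (hfr0 k hk rk) (fun n hn => (tfU _ hn).2.2.1) (fr k / 2) (fr k / 2)
      le_rfl le_rfl (fun h => absurd h (hno 2 le_rfl)) (fun h => absurd h (hno 3 (by norm_num)))
    linarith
  apply core57 G hG hd0 hde hfr.sg hfr0 hA hP Tk (vb57 fr) hdisT
  · intro v _ t ht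
    obtain ⟨h1, h2, _⟩ := tf v t ht
    exact ⟨h1, h2, vbn57 fr t (hfr0 _ h1 h2)⟩
  · -- outside `N`
    intro k hk rk hkN
    rw [← hTU]
    by_cases hkQ : TH G k = Q
    · have h1 := hfr.sq k hk rk hkQ
      have h2 := hexU k hkQ
      have h3 := corb57 TU fr k (hfr0 k hk rk) (fun n hn => (tfU _ hn).2.2.1) (1 / 2) (1 / 2)
        (by rw [h1]; norm_num) (by rw [h1]; norm_num) (fun h => ⟨h2.1 h, le_rfl⟩)
        (fun h => ⟨h2.2 h, le_rfl⟩)
      have h4 : TH G k / al ≤ 3 / 2 := by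
        rw [div_le_iff₀ hal, hkQ]
        exact hQ
      linarith
    · have h1 := hWfr k hk rk (Or.inl hkQ)
      have h2 : TH G k / al ≤ 2 := by
        rw [div_le_iff₀ hal]
        exact TH_R51 G hG hk rk
      linarith
  · intro k hk rk hkN _
    rw [← hTU]
    exact hWfr k hk rk (Or.inr hkN)
  · -- seven units
    intro v hB
    rw [← hTU]
    have hone : ∀ x ∈ Jv G v, xr G fr x ≤ ∑ x ∈ Jv G v, xr G fr x := fun x hx =>
      Finset.single_le_sum (fun y hy => hxr0 y ((mem_Jv51 G).1 hy).1) hx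
    have htwo : ∀ x ∈ Jv G v, ∀ y ∈ Jv G v, x ≠ y → xr G fr x + xr G fr y ≤
        ∑ x ∈ Jv G v, xr G fr x := by
      intro x hx y hy hxy
      rw [← Finset.sum_pair hxy]
      apply Finset.sum_le_sum_of_subset_of_nonneg
      · intro z hz
        rw [Finset.mem_insert, Finset.mem_singleton] at hz
        rcases hz with rfl | rfl
        · exact hx
        · exact hy
      · intro z hz _
        exact hxr0 z ((mem_Jv51 G).1 hz).1
    have tip : ∀ x ∈ Jv G v, ∀ z ∈ Jv G v, x ≠ z → RC G (G.cl x) → RC G (G.cl z) →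
        (∃ j ≤ m, TH G x = g j) → Q < TH G z := by
      rintro x hx z hz hxz rx rz ⟨j, hj, h1⟩
      by_contra h
      push Not at h
      exact c1_62 G hG c hB hx hz hxz rx rz (by rw [h1]; exact (c.gm hj).le) h
    have hempty : (∀ t ∈ TU, t.1.1 ≠ v) →
        ∑ t ∈ TU.filter (fun t => t.1.1 = v), vb57 fr t = 0 := by
      intro h
      rw [Finset.filter_eq_empty_iff.2 (fun t ht => h t ht), Finset.sum_empty]
    have htipv : ∀ t ∈ TU, t.1.1 = v → t.1 ∈ Jv G v ∧ RC G (G.cl t.1) ∧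
        (∃ j ≤ m, TH G t.1 = g j) ∧ ¬ Tight62 G al F t.1 ∧ F t.1 := by
      intro t ht htv
      obtain ⟨k1, k2, _, _, k3⟩ := tfU t ht
      obtain ⟨⟨j, hj, k4⟩, k5⟩ := k3 (by rw [htv]; exact hB)
      exact ⟨(mem_Jv51 G).2 ⟨k1, htv⟩, k2, ⟨j, hj, k4⟩, k5,
        (f.lo _ k1 k2 (by rw [k4]; exact c.gm hj)).2 ⟨j, hj, k4⟩⟩
    by_cases hV : VS57 G al Q opp g m v
    · obtain ⟨_, x, hx, y, hy, rx, ry, hxQ, hyg, _⟩ := id hV
      rw [hempty, hTk, if_pos hV]
      · have hxy : x ≠ y := by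
          intro h
          rw [h, hyg] at hxQ
          have := c.Qb
          linarith
        have h1 := htwo x hx y hy hxy
        rw [hxrR x rx, hxrR y ry, hfr.sq x ((mem_Jv51 G).1 hx).1 rx hxQ,
          hfr.hi y ((mem_Jv51 G).1 hy).1 ry m le_rfl hyg] at h1
        have h2 := hval v hV
        change _ ≤ ∑ t ∈ cl v, vb57 fr t at h2
        linarith
      · intro t ht htv
        obtain ⟨t1, t2, t3, _, _⟩ := htipv t ht htv
        by_cases h : t.1 = x
        · obtain ⟨j, hj, t4⟩ := t3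
          rw [h, hxQ] at t4
          have := c.gm hj
          linarith
        · have := tip _ t1 x hx h t2 rx t3
          linarith
    · by_cases hD : Db57 G al Q F v
      · rw [hempty, hTk, if_neg hV, if_pos hD]
        · obtain ⟨z1, z2, z3, z4, z5, z6, z7, z8, z9, z10, z11, z12, z13, z14, z15⟩ := hz v hD
          obtain ⟨x1, x2, x3⟩ := hX v hD
          rw [Finset.sum_pair (fun h => absurd (congrArg Prod.snd h) (by norm_num))]
          have v0 : vb57 fr (s' (p (X v)), 0) = fr (s' (p (X v))) / 2 := by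
            unfold vb57
            rw [if_neg (by norm_num)]
          have v1 : vb57 fr (sg G (X v), 1) = fr (sg G (X v)) / 2 := by
            unfold vb57
            rw [if_neg (by norm_num)]
          rw [v0, v1]
          have h1 := hfr.sg _ z1 x2
          have h2 := hfr.sg _ z4 z6
          rw [O.s21 _ ((mem_Jv51 G).1 z3).1] at h2
          have h3 := hone _ x1
          have h4 := hone _ z3
          rw [hxrR _ x2] at h3
          rw [hxrR _ x3] at h4
          linarith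
        · intro t ht htv
          obtain ⟨t1, t2, t3, _, t5⟩ := htipv t ht htv
          exact (hD.2 _ t1 t2).1 t5
      · rw [hTk, if_neg hV, if_neg hD, Finset.sum_empty, add_zero]
        by_cases hex' : ∃ t ∈ TU, t.1.1 = v
        · obtain ⟨t, ht, htv⟩ := hex'
          obtain ⟨t1, t2, t3, t4, t5⟩ := htipv t ht htv
          obtain ⟨x, hx, rx, hFx, hxt⟩ : ∃ x ∈ Jv G v, RC G (G.cl x) ∧ F x ∧ x ≠ t.1 := by
            by_contra hno
            push Not at hno
            apply t4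
            refine ⟨by rw [htv]; exact hB, ?_⟩
            rw [htv]
            exact hno
          have hxQ := tip _ t1 x hx hxt.symm t2 rx t3
          have h1 : fr x = 1 := hfr1 x ((mem_Jv51 G).1 hx).1 rx hFx hxQ.ne' (fun j hj h => by
            have := c.gm hj
            linarith)
          have h2 := htwo _ t1 x hx hxt.symm
          rw [hxrR _ t2, hxrR _ rx, h1] at h2
          have h3 : TU.filter (fun t => t.1.1 = v) = TU.filter (fun t' => t'.1 = t.1) := by
            apply Finset.filter_congr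
            intro t' ht'
            constructor
            · intro h
              obtain ⟨l1, l2, ⟨j, hj, l3⟩, _, _⟩ := htipv t' ht' h
              by_contra hne
              have h4 := tip _ t1 _ l1 (fun h => hne h.symm) t2 l2 t3
              have := c.gm hj
              linarith
            · intro h
              rw [h]
              exact htv
          have h4 := hWfr t.1 ((mem_Jv51 G).1 t1).1 t2 (Or.inr (by rw [htv]; exact hB.1))
          rw [h3]
          linarith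
        · rw [hempty (fun t ht h => hex' ⟨t, ht, h⟩)]
          have := good57 G hG c f hS hN4 hd0 hfr hfr0 hB hD hV
          linarith


end

end

end Pool.Agent.PEN.W4
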