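import Pool.Agent.P4.W4Ms62
import Pool.Agent.P4.Tk62g

/-! # PENNY, token rows over `Geo4` (copies of Tk62a to Tk62g) -/

set_option autoImplicit false

namespace Pool.Agent.PEN.W4

open Classical UpperHalfPlane

noncomputable section

section
variable {V : Type} (G : Tg V) {al : ℝ} {kp : V → V → ℝ} {U : ℕ → ℝ}
variable {Q : ℝ} {opp : ℝ → ℝ} {g : ℕ → ℝ} {m : ℕ} {s s' p q : V × V → V × V}

/-- a set of corners closed under the predecessor map is the set of all corners of a point of `N` -/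
theorem cyc62 (hG : G.Geo4 al kp U) {v : V} (S0 : Finset (V × V)) (hne : S0.Nonempty)
    (hS : ∀ x ∈ S0, x ∈ iJ G ∧ x.1 = v ∧ (x.2, x.1) ∈ iJ G ∧ sg G (x.2, x.1) ∈ S0) :
    v ∈ inN G ∧ ∀ x ∈ iJ G, x.1 = v → x ∈ S0 := by
  have hvN : v ∈ inN G := by
    obtain ⟨y, hy⟩ := hne
    obtain ⟨y1, y2, y3, y4⟩ := hS y hy
    have hvP : v ∈ G.P := by
      rw [← y2]
      rw [mem_iJ71] at y1
      exact G.mem _ _ (G.sub y1.1.1)
    unfold inN
    rw [Finset.mem_filter]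
    refine ⟨hvP, ?_⟩
    rintro ⟨c, hc⟩
    rw [mem_oJ66] at hc
    obtain ⟨c1, c2, c3⟩ := hc
    dsimp only at c2
    obtain ⟨S, hmem⟩ : ∃ S : Finset V, ∀ b, b ∈ S ↔ (v, b) ∈ G.D ∧
      (G.inn (v, b) ∧ (v, G.og v b) ∈ S0) :=
      ⟨_, mem_img66 G v (fun b => G.inn (v, b) ∧ (v, G.og v b) ∈ S0)⟩
    have hbk0 : ∀ b ∈ S, (b, v) ∈ G.Dp ∧ G.bk v b ∈ S := by
      intro b hb
      obtain ⟨h1, h2, h3⟩ := (hmem b).1 hb
      by_cases hcb : G.con v b
      · rw [(og_self66 G hcb).2] at h3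
        obtain ⟨k1, k2, k3, k4⟩ := hS _ h3
        dsimp only at k3 k4
        rw [mem_iJ71] at k3
        have k5 := inn_rot27 G k3.1
        dsimp only at k5
        refine ⟨k3.1.1, (hmem _).2 ⟨G.sub k5.1, k5, ?_⟩⟩
        exact k4
      · obtain ⟨k1, k2, _⟩ := inn_bk71 G h2 hcb
        refine ⟨k1, (hmem _).2 ⟨G.sub k2.1, k2, ?_⟩⟩
        rw [og_bk51 G (hasO71 G hG h2) hcb]
        exact h3
    have hbk : ∀ b ∈ S, G.bk v b ∈ S := fun b hb => (hbk0 b hb).2
    have hfb : ∀ b ∈ S, G.ap v (G.bk v b) = b := fun b hb => fw_bk71 G (hbk0 b hb).1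
    have himg : S.image (G.bk v) = S := by
      apply Finset.eq_of_subset_of_card_le
      · intro b hb
        obtain ⟨c, hc, rfl⟩ := Finset.mem_image.1 hb
        exact hbk c hc
      · rw [Finset.card_image_of_injOn]
        intro b hb c hc hbc
        rw [← hfb b (Finset.mem_coe.1 hb), ← hfb c (Finset.mem_coe.1 hc)]
        exact congrArg _ hbc
    have hfw : ∀ b ∈ S, G.ap v b ∈ S := by
      intro b hb
      rw [← himg] at hb
      obtain ⟨c, hc, rfl⟩ := Finset.mem_image.1 hb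
      rw [hfb c hc]
      exact hc
    have hneS : S.Nonempty := by
      obtain ⟨a, b⟩ := y
      dsimp only at y2
      subst y2
      rw [mem_iJ71] at y1
      exact ⟨b, (hmem _).2 ⟨G.sub y1.1.1, y1.1, by rw [(og_self66 G y1.2).2]; exact hy⟩⟩
    by_cases hb : G.bd v
    · exact hG.bdno v hvP hb S hneS (fun b hb => ⟨((hmem b).1 hb).2.1.1, hfw b hb⟩)
    · have h1 := hG.turn v hvP hb S hneS (fun b hb => ((hmem b).1 hb).1) hfw
      have hcS : c ∉ S := by
        intro h2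
        exact c3 ((hmem c).1 h2).2.1
      have h2 : ∑ b ∈ insert c S, G.th v b ≤
          ∑ x ∈ G.D.filter (fun x => x.1 = v), G.th x.1 x.2 := by
        have e := Finset.sum_image (s := insert c S) (g := fun b => (v, b))
          (f := fun x : V × V => G.th x.1 x.2) (fun x _ y _ h => (Prod.mk.inj h).2)
        dsimp only at e
        rw [← e]
        apply Finset.sum_le_sum_of_subset_of_nonneg
        · intro x hx
          obtain ⟨b, hb, rfl⟩ := Finset.mem_image.1 hx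
          rw [Finset.mem_filter]
          refine ⟨?_, rfl⟩
          rcases Finset.mem_insert.1 hb with rfl | hb
          · exact c1
          · exact ((hmem b).1 hb).1
        · rintro ⟨x1, x2⟩ hx _
          rw [Finset.mem_filter] at hx
          obtain ⟨h3, h4⟩ := hx
          simp only at h4
          subst h4
          exact (G.thpos _ _ (G.int1 _ _ hvP hb h3)).le
      rw [hG.tot v hvP hb, Finset.sum_insert hcS] at h2
      have h3 := G.thpos _ _ (G.int1 _ _ hvP hb c1)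
      linarith
  exact ⟨hvN, closed51 G hG hvN S0 (fun x hx => ⟨(hS x hx).1, (hS x hx).2.1⟩) hne
    (fun x hx => (hS x hx).2.2.2)⟩

/-- the orientation of the corners -/
theorem or62 (hG : G.Geo4 al kp U) {opp : ℝ → ℝ} (hR : Rf G al opp) :
    ∃ s' p q : V × V → V × V, Or62 G opp (sg G) s' p q := by
  -- the inverse of `sg`
  have hsurj : ∀ x ∈ iJ G, ∃ y ∈ iJ G, sg G y = x := by
    have himg : (iJ G).image (sg G) = iJ G := by
      apply Finset.eq_of_subset_of_card_le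
      · intro x hx
        obtain ⟨y, hy, rfl⟩ := Finset.mem_image.1 hx
        exact (sg_mem51 G hG hy).1
      · rw [Finset.card_image_of_injOn]
        intro x hx y hy h
        exact sg_inj51 G hG (Finset.mem_coe.1 hx) (Finset.mem_coe.1 hy) h
    intro x hx
    rw [← himg] at hx
    obtain ⟨y, hy, h⟩ := Finset.mem_image.1 hx
    exact ⟨y, hy, h⟩
  have hch : ∀ x : V × V, ∃ y : V × V, x ∈ iJ G → y ∈ iJ G ∧ sg G y = x := by
    intro x
    by_cases hx : x ∈ iJ G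
    · obtain ⟨y, h1, h2⟩ := hsurj x hx
      exact ⟨y, fun _ => ⟨h1, h2⟩⟩
    · exact ⟨x, fun h => absurd h hx⟩
  choose s' hs' using hch
  have hnd : ∀ a : V, (a, a) ∉ iJ G := by
    intro a h
    rw [mem_iJ71] at h
    exact G.ne _ _ (G.sub h.1.1) rfl
  obtain ⟨p, hp⟩ : ∃ p : V × V → V × V, ∀ x, p x =
      if (x.2, x.1) ∈ iJ G then sg G (x.2, x.1) else (x.1, x.1) := ⟨_, fun _ => rfl⟩
  obtain ⟨q, hq⟩ : ∃ q : V × V → V × V, ∀ x, q x = ((s' x).2, (s' x).1) := ⟨_, fun _ => rfl⟩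
  have s12 : ∀ x ∈ iJ G, s' (sg G x) = x := by
    intro x hx
    obtain ⟨h1, h2⟩ := hs' _ (sg_mem51 G hG hx).1
    exact sg_inj51 G hG h1 hx h2
  have hpm : ∀ x ∈ iJ G, p x ∈ iJ G → (x.2, x.1) ∈ iJ G ∧ p x = sg G (x.2, x.1) := by
    intro x _ h
    rw [hp] at h ⊢
    by_cases h1 : (x.2, x.1) ∈ iJ G
    · rw [if_pos h1]
      exact ⟨h1, rfl⟩
    · rw [if_neg h1] at h
      exact absurd h (hnd _)
  have hsf : ∀ x ∈ iJ G, (s' x).2 = x.1 := by
    intro x hx
    have := congrArg Prod.fst (hs' x hx).2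
    exact this
  have hpp : ∀ x, (x.2, x.1) ∈ iJ G → p x = sg G (x.2, x.1) := by
    intro x h
    rw [hp, if_pos h]
  refine ⟨s', p, q, ?_⟩
  constructor
  · exact fun x hx => (sg_mem51 G hG hx).1
  · exact fun x hx => (sg_mem51 G hG hx).2
  · exact s12
  · exact fun x hx => (hs' x hx).1
  · intro x hx
    have h1 := (sg_mem51 G hG (hs' x hx).1).2
    rw [(hs' x hx).2] at h1
    exact h1.symm
  · exact fun x hx => (hs' x hx).2
  · intro x hx h
    obtain ⟨h1, h2⟩ := hpm x hx h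
    rw [h2, hq, s12 _ h1]
  · intro x hx h
    obtain ⟨h1, h2⟩ := hpm x hx h
    rw [h2]
    rfl
  · intro x hx h
    obtain ⟨h1, h2⟩ := hpm x hx h
    rw [h2, s12 _ h1, hpp (x.2, x.1) hx]
  · intro x hx h
    rw [hq] at h ⊢
    rw [hpp ((s' x).2, (s' x).1) (hs' x hx).1]
    exact (hs' x hx).2
  · intro x hx h
    rw [hq]
    exact hsf x hx
  · intro x hx h
    rw [hq] at h ⊢
    rw [hq, s12 _ h]
  · intro x hx hN
    obtain ⟨h1, h2⟩ := Jv_swap51 G hG hN ((mem_Jv51 G).2 ⟨hx, rfl⟩)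
    refine ⟨by rw [hpp x h1]; exact (sg_mem51 G hG h1).1, ?_⟩
    rw [hq]
    have h3 := (hs' x hx).1
    have h4 := hsf x hx
    obtain ⟨k1, k2, k3, k4⟩ := inN_all51 G hG hN
    have h3' := h3
    rw [mem_iJ71] at h3'
    rw [mem_iJ71]
    refine ⟨?_, G.csymm _ _ h3'.2⟩
    rw [h4]
    apply k3
    rw [← h4]
    exact G.symm _ _ (G.sub h3'.1.1)
  · intro x hx hT
    have h1 := T3_62 G hx hT
    have h2 := (sg_mem51 G hG (sg_mem51 G hG hx).1).1
    rw [← s12 _ h2, h1]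
  · exact fun x hx h => hR.opp x hx h
  · intro x hx h
    have h1 := (hs' x hx).1
    have h2 := (hs' x hx).2
    have h3 : G.cl (s' x) = G.cl x := by
      have h1 := (sg_mem51 G hG (hs' x hx).1).2
      rw [(hs' x hx).2] at h1
      exact h1.symm
    have h4 := hR.per _ h1 (by rw [h3]; exact h)
    rw [h2] at h4
    rw [← h4]
    exact hR.opp x hx h
  · intro w S hne hS
    apply cyc62 G hG S hne
    intro x hx
    obtain ⟨h1, h2, h3⟩ := hS x hx
    obtain ⟨h4, h5⟩ := hpm x h1 (hS _ h3).1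
    rw [h5] at h3
    exact ⟨h1, h2, h4, h3⟩

end

section
variable {V : Type} (G : Tg V) {al : ℝ} {kp : V → V → ℝ} {U : ℕ → ℝ}
variable {Q : ℝ} {opp : ℝ → ℝ} {g : ℕ → ℝ} {m : ℕ} {s s' p q : V × V → V × V}

theorem two62 (hG : G.Geo4 al kp U) {v : V} (hB : B7 G al v) {x y : V × V} (hx : x ∈ Jv G v)
    (hy : y ∈ Jv G v) (hxy : x ≠ y) (rx : RC G (G.cl x)) (ry : RC G (G.cl y)) :
    2 * Real.pi ≤ TH G x + TH G y + 3 * al := by
  obtain ⟨hv, h7, hTR⟩ := hB
  have h1 := sum_TH_point71 G hG hv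
  change ∑ x ∈ Jv G v, TH G x = _ at h1
  have hsub : ({x, y} : Finset (V × V)) ⊆ Jv G v := by
    intro z hz
    rw [Finset.mem_insert, Finset.mem_singleton] at hz
    rcases hz with rfl | rfl
    · exact hx
    · exact hy
  rw [← Finset.sum_sdiff hsub, Finset.sum_pair hxy] at h1 h7
  have ex : bw G al x = 2 := by
    unfold bw
    rw [if_neg (RC_ne51 G rx), if_pos rx]
  have ey : bw G al y = 2 := by
    unfold bw
    rw [if_neg (RC_ne51 G ry), if_pos ry]
  have h3 : ∑ z ∈ Jv G v \ {x, y}, bw G al z = 3 := by omega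
  have h2 : ∑ z ∈ Jv G v \ {x, y}, TH G z ≤ ∑ z ∈ Jv G v \ {x, y}, al * (bw G al z : ℝ) :=
    Finset.sum_le_sum fun z hz =>
      TH_bw51 G hG ((mem_Jv51 G).1 (Finset.mem_sdiff.1 hz).1).1
  rw [← Finset.mul_sum, ← Nat.cast_sum, h3] at h2
  push_cast at h2
  linarith

/-- at most one small rhombus corner -/
theorem c1_62 (hG : G.Geo4 al kp U) (c : Ch62 al Q opp g m) {v : V} (hB : B7 G al v)
    {x y : V × V} (hx : x ∈ Jv G v) (hy : y ∈ Jv G v) (hxy : x ≠ y) (rx : RC G (G.cl x))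
    (ry : RC G (G.cl y)) (h1 : TH G x ≤ Q) (h2 : TH G y ≤ Q) : False := by
  have := two62 G hG hB hx hy hxy rx ry
  have := c.Q2
  linarith

theorem c2_62 (hG : G.Geo4 al kp U) (c : Ch62 al Q opp g m) {v : V} (hB : B7 G al v)
    {x y : V × V} (hx : x ∈ Jv G v) (hy : y ∈ Jv G v) (hxy : x ≠ y) (rx : RC G (G.cl x))
    (ry : RC G (G.cl y)) {j : ℕ} (hj : j < m) (h1 : TH G x = g j)
    (h2 : TH G y = opp (g (j + 1))) : False := by
  have h3 := two62 G hG hB hx hy hxy rx ry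
  have h4 := c.gs j hj
  have h5 := c.mono j (j + 1) (by omega) (by omega)
  have h6 := c.banti (i := j) (j := j + 1) (by omega) (by omega)
  linarith

/-- counting and angles at a point with seven units -/
theorem count62 (hG : G.Geo4 al kp U) {v : V} (hB : B7 G al v) :
    ((Jv G v).filter (fun x => ¬ RC G (G.cl x))).card +
      2 * ((Jv G v).filter (fun x => RC G (G.cl x))).card = 7 ∧
    (((Jv G v).filter (fun x => ¬ RC G (G.cl x))).card : ℝ) * al +
      ∑ x ∈ (Jv G v).filter (fun x => RC G (G.cl x)), TH G x = 2 * Real.pi := by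
  obtain ⟨hv, h7, hTR⟩ := hB
  obtain ⟨JR, hJR⟩ : ∃ JR, JR = (Jv G v).filter (fun x => RC G (G.cl x)) := ⟨_, rfl⟩
  obtain ⟨JT, hJT⟩ : ∃ JT, JT = (Jv G v).filter (fun x => ¬ RC G (G.cl x)) := ⟨_, rfl⟩
  have hmR : ∀ x, x ∈ JR ↔ x ∈ Jv G v ∧ RC G (G.cl x) := by
    intro x
    rw [hJR, Finset.mem_filter]
  have hmT : ∀ x, x ∈ JT ↔ x ∈ Jv G v ∧ ¬ RC G (G.cl x) := by
    intro x
    rw [hJT, Finset.mem_filter]
  have hTT : ∀ x ∈ JT, G.cI (G.cl x) = ∅ := by
    intro x hx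
    rw [hmT] at hx
    exact (hTR x hx.1).resolve_right hx.2
  rw [← hJR, ← hJT]
  constructor
  · rw [← h7, ← Finset.sum_filter_add_sum_filter_not (Jv G v) (fun x => RC G (G.cl x)),
      ← hJR, ← hJT]
    have h1 : ∑ x ∈ JR, bw G al x = ∑ x ∈ JR, 2 := by
      refine Finset.sum_congr rfl fun x hx => ?_
      have h2 := ((hmR x).1 hx).2
      unfold bw
      rw [if_neg (RC_ne51 G h2), if_pos h2]
    have h3 : ∑ x ∈ JT, bw G al x = ∑ x ∈ JT, 1 := by
      refine Finset.sum_congr rfl fun x hx => ?_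
      unfold bw
      rw [if_pos (hTT x hx)]
    rw [h1, h3, Finset.sum_const, Finset.sum_const, smul_eq_mul, smul_eq_mul]
    omega
  · have h1 := sum_TH_point71 G hG hv
    change ∑ x ∈ Jv G v, TH G x = _ at h1
    rw [← Finset.sum_filter_add_sum_filter_not (Jv G v) (fun x => RC G (G.cl x)),
      ← hJR, ← hJT] at h1
    have h3 : ∑ x ∈ JT, TH G x = ∑ x ∈ JT, al := by
      refine Finset.sum_congr rfl fun x hx => ?_
      exact TH_T51 G hG ((mem_Jv51 G).1 ((hmT x).1 hx).1).1 (hTT x hx)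
    rw [h3, Finset.sum_const, nsmul_eq_mul] at h1
    linarith

/-- points with a chain tip and no other corner in `F` -/
theorem c0_62 (hG : G.Geo4 al kp U) (c : Ch62 al Q opp g m) {F : V × V → Prop}
    (f : Fc62 G Q opp g m F) {v : V} (hB : B7 G al v) {k : V × V} (hk : k ∈ Jv G v)
    (rk : RC G (G.cl k)) {j : ℕ} (hj : j ≤ m) (hkj : TH G k = g j)
    (hF : ∀ x ∈ Jv G v, RC G (G.cl x) → F x → x = k) :
    (j = 0 ∧ ∀ x ∈ Jv G v, x ≠ k → G.cI (G.cl x) = ∅) ∨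
    (∃ i, j = i + 1 ∧ ∃ y ∈ Jv G v, y ≠ k ∧ RC G (G.cl y) ∧ TH G y = opp (g i) ∧
      ((Jv G v).filter (fun x => ¬ RC G (G.cl x))).card = 3 ∧
      ∀ x ∈ Jv G v, x ≠ k → x ≠ y → G.cI (G.cl x) = ∅) := by
  obtain ⟨h1, h2⟩ := count62 G hG hB
  obtain ⟨hv, h7, hTR⟩ := hB
  have hB : B7 G al v := ⟨hv, h7, hTR⟩
  obtain ⟨JR, hJR⟩ : ∃ JR, JR = (Jv G v).filter (fun x => RC G (G.cl x)) := ⟨_, rfl⟩
  have hmR : ∀ x, x ∈ JR ↔ x ∈ Jv G v ∧ RC G (G.cl x) := by
    intro x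
    rw [hJR, Finset.mem_filter]
  rw [← hJR] at h1 h2
  have hkR : k ∈ JR := (hmR k).2 ⟨hk, rk⟩
  have hpos : 0 < JR.card := Finset.card_pos.2 ⟨k, hkR⟩
  have hke : ∀ x ∈ Jv G v, x ∉ JR → G.cI (G.cl x) = ∅ := by
    intro x hx hxR
    exact (hTR x hx).resolve_right (fun h => hxR ((hmR x).2 ⟨hx, h⟩))
  have hob : ∀ x ∈ JR, x ≠ k → ∃ i, i ≤ m ∧ TH G x = opp (g i) := by
    intro x hx hxk
    obtain ⟨hx1, hx2⟩ := (hmR x).1 hx
    have h3 : Q < TH G x := by
      by_contra h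
      push Not at h
      exact c1_62 G hG c hB hx1 hk hxk hx2 rk h (by rw [hkj]; exact (c.gm hj).le)
    exact (f.hi x ((mem_Jv51 G).1 hx1).1 hx2 h3).1 (fun h => hxk (hF x hx1 hx2 h))
  have hcases : JR.card = 1 ∨ JR.card = 2 ∨ JR.card = 3 := by omega
  rcases hcases with h0 | h0 | h0
  · left
    obtain ⟨x, hx⟩ := Finset.card_eq_one.1 h0
    have hxk : k = x := by
      rw [hx, Finset.mem_singleton] at hkR
      exact hkR
    have h5 : ((Jv G v).filter (fun x => ¬ RC G (G.cl x))).card = 5 := by omega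
    rw [h5, hx, Finset.sum_singleton, ← hxk, hkj] at h2
    push_cast at h2
    refine ⟨?_, ?_⟩
    · apply c.ginj hj (Nat.zero_le _)
      rw [c.g0]
      linarith
    · intro y hy hyk
      apply hke y hy
      rw [hx, Finset.mem_singleton, ← hxk]
      exact hyk
  · right
    obtain ⟨y, hyR, hy⟩ : ∃ y ∈ JR, y ≠ k := by
      by_contra hno
      push Not at hno
      have : JR ⊆ {k} := fun z hz => Finset.mem_singleton.2 (hno z hz)
      have := Finset.card_le_card this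
      rw [Finset.card_singleton] at this
      omega
    have hJe : JR = {k, y} := by
      symm
      apply Finset.eq_of_subset_of_card_le
      · intro z hz
        rw [Finset.mem_insert, Finset.mem_singleton] at hz
        rcases hz with rfl | rfl
        · exact hkR
        · exact hyR
      · rw [h0, Finset.card_pair hy.symm]
    have h5 : ((Jv G v).filter (fun x => ¬ RC G (G.cl x))).card = 3 := by omega
    rw [h5, hJe, Finset.sum_pair hy.symm, hkj] at h2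
    push_cast at h2
    rcases j with _ | i
    · exfalso
      obtain ⟨i, hi, hyi⟩ := hob y hyR hy
      rw [c.g0, hyi] at h2
      have := c.bhi hi
      linarith
    · refine ⟨i, rfl, y, ((hmR y).1 hyR).1, hy, ((hmR y).1 hyR).2, ?_, h5, ?_⟩
      · have := c.gs i (by omega)
        linarith
      · intro x hx hxk hxy
        apply hke x hx
        rw [hJe, Finset.mem_insert, Finset.mem_singleton]
        rintro (h | h)
        · exact hxk h
        · exact hxy h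
  · exfalso
    obtain ⟨y, z, hyz, hJe⟩ : ∃ y z, y ≠ z ∧ JR.erase k = {y, z} := by
      have : (JR.erase k).card = 2 := by
        rw [Finset.card_erase_of_mem hkR]
        omega
      exact Finset.card_eq_two.1 this
    have hy : y ∈ JR.erase k := by
      rw [hJe]
      exact Finset.mem_insert_self _ _
    have hz : z ∈ JR.erase k := by
      rw [hJe]
      exact Finset.mem_insert_of_mem (Finset.mem_singleton_self _)
    obtain ⟨i1, hi1, e1⟩ := hob y (Finset.mem_of_mem_erase hy) (Finset.ne_of_mem_erase hy)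
    obtain ⟨i2, hi2, e2⟩ := hob z (Finset.mem_of_mem_erase hz) (Finset.ne_of_mem_erase hz)
    have h5 : ((Jv G v).filter (fun x => ¬ RC G (G.cl x))).card = 1 := by omega
    rw [h5, ← Finset.add_sum_erase JR _ hkR, hJe, Finset.sum_pair hyz, hkj, e1, e2] at h2
    push_cast at h2
    rcases j with _ | i
    · rw [c.g0] at h2
      have := c.bhi hi1
      have := c.bhi hi2
      linarith
    · have h6 := c.gs i (by omega)
      apply c.N3 i1 i2 i hi1 hi2 (by omega)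
      linarith

end

section
variable {V : Type} (G : Tg V) {al : ℝ} {kp : V → V → ℝ} {U : ℕ → ℝ}
variable {Q : ℝ} {opp : ℝ → ℝ} {g : ℕ → ℝ} {m : ℕ} {s s' p q : V × V → V × V}

/-- one step of the walk -/
theorem step62 (hG : G.Geo4 al kp U) (O : Or62 G opp s s' p q) (c : Ch62 al Q opp g m)
    {F : V × V → Prop} (f : Fc62 G Q opp g m F) {j : ℕ} (hj : j ≤ m) {τ : V × V}
    (hA : A62 G opp g p j τ) :
    ¬ Tight62 G al F (s' (p τ)) ∨
    (∃ i, j = i + 1 ∧ p (s τ) ∈ iJ G ∧ RC G (G.cl (p (s τ))) ∧ TH G (p (s τ)) = opp (g i)) ∨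
    (∃ i, j = i + 1 ∧ q (s' (p τ)) ∈ iJ G ∧ RC G (G.cl (q (s' (p τ)))) ∧
      TH G (q (s' (p τ))) = opp (g i)) ∨
    (∃ i, j = i + 1 ∧ A62 G opp g p i (p (s τ))) ∨
    (j = 0 ∧ p (s τ) ∈ iJ G ∧ G.cI (G.cl (p (s τ))) = ∅) := by
  obtain ⟨e1, e2, e3, e4, e5, e6, e7, e8, e9⟩ := tip62 G O c hj hA
  by_cases hT : Tight62 G al F (s' (p τ))
  swap
  · exact Or.inl hT
  right
  obtain ⟨k, hk⟩ : ∃ k, k = s' (p τ) := ⟨_, rfl⟩
  rw [← hk] at e1 e2 e3 e4 e7 e8 hT ⊢
  obtain ⟨hB, hF⟩ := hT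
  have hN := hB.1
  have hkJ : k ∈ Jv G k.1 := (mem_Jv51 G).2 ⟨e1, rfl⟩
  have hsJ : s τ ∈ Jv G k.1 := (mem_Jv51 G).2 ⟨e5, e8⟩
  have hpJ : ∀ x ∈ Jv G k.1, p x ∈ Jv G k.1 ∧ q x ∈ Jv G k.1 := by
    intro x hx
    obtain ⟨h1, h2⟩ := (mem_Jv51 G).1 hx
    obtain ⟨h3, h4⟩ := O.N x h1 (by rw [h2]; exact hN)
    exact ⟨(mem_Jv51 G).2 ⟨h3, (O.pf _ h1 h3).trans h2⟩,
      (mem_Jv51 G).2 ⟨h4, (O.qf _ h1 h4).trans h2⟩⟩
  have hp1 := (hpJ _ hsJ).1
  have hnRT : ∀ x : V × V, G.cI (G.cl x) = ∅ → ¬ RC G (G.cl x) := fun x h1 h2 => RC_ne51 G h2 h1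
  rcases c0_62 G hG c f hB hkJ e2 hj e3 hF with ⟨h0, hall⟩ | ⟨i, hi, y, hy, hyk, ry, hyt, h3, hall⟩
  · right; right; right
    refine ⟨h0, ((mem_Jv51 G).1 hp1).1, hall _ hp1 ?_⟩
    intro h
    -- `{k, s τ}` would be closed
    have h4 : ∀ x ∈ ({k, s τ} : Finset (V × V)), x ∈ iJ G ∧ x.1 = k.1 ∧
        p x ∈ ({k, s τ} : Finset (V × V)) := by
      intro x hx
      rw [Finset.mem_insert, Finset.mem_singleton] at hx
      rcases hx with rfl | rfl
      · exact ⟨e1, rfl, by rw [e4]; exact Finset.mem_insert_of_mem (Finset.mem_singleton_self _)⟩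
      · exact ⟨e5, e8, by rw [h]; exact Finset.mem_insert_self _ _⟩
    have h5 := (O.cyc k.1 {k, s τ} ⟨k, Finset.mem_insert_self _ _⟩ h4).2
    have h6 : Jv G k.1 ⊆ {k, s τ} := fun x hx =>
      h5 x ((mem_Jv51 G).1 hx).1 ((mem_Jv51 G).1 hx).2
    obtain ⟨h7, _⟩ := count62 G hG hB
    have h8 : ((Jv G k.1).filter (fun x => ¬ RC G (G.cl x))).card +
        ((Jv G k.1).filter (fun x => RC G (G.cl x))).card = (Jv G k.1).card := by
      rw [add_comm]
      exact Finset.card_filter_add_card_filter_not (fun x => RC G (G.cl x))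
    have h9 := Finset.card_le_card h6
    have h10 : ({k, s τ} : Finset (V × V)).card ≤ 2 := Finset.card_le_two
    omega
  · by_cases r1 : RC G (G.cl (p (s τ)))
    · left
      refine ⟨i, hi, ((mem_Jv51 G).1 hp1).1, r1, ?_⟩
      have : p (s τ) = y := by
        by_contra hne
        by_cases hpk : p (s τ) = k
        · -- `{k, s τ}` closed, `y` missing
          have h4 : ∀ x ∈ ({k, s τ} : Finset (V × V)), x ∈ iJ G ∧ x.1 = k.1 ∧
              p x ∈ ({k, s τ} : Finset (V × V)) := by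
            intro x hx
            rw [Finset.mem_insert, Finset.mem_singleton] at hx
            rcases hx with rfl | rfl
            · exact ⟨e1, rfl, by
                rw [e4]
                exact Finset.mem_insert_of_mem (Finset.mem_singleton_self _)⟩
            · exact ⟨e5, e8, by rw [hpk]; exact Finset.mem_insert_self _ _⟩
          have h5 := (O.cyc k.1 {k, s τ} ⟨k, Finset.mem_insert_self _ _⟩ h4).2 y
            ((mem_Jv51 G).1 hy).1 ((mem_Jv51 G).1 hy).2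
          rw [Finset.mem_insert, Finset.mem_singleton] at h5
          rcases h5 with h5 | h5
          · exact hyk h5
          · rw [h5] at ry
            exact hnRT _ e6 ry
        · exact hnRT _ (hall _ hp1 hpk hne) r1
      rw [this]
      exact hyt
    · right
      by_cases r3 : RC G (G.cl (q k))
      · left
        have hq1 := (hpJ _ hkJ).2
        refine ⟨i, hi, ((mem_Jv51 G).1 hq1).1, r3, ?_⟩
        have : q k = y := by
          by_contra hne
          by_cases hqk : q k = k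
          · have h4 : ∀ x ∈ ({k} : Finset (V × V)), x ∈ iJ G ∧ x.1 = k.1 ∧
                q x ∈ ({k} : Finset (V × V)) := by
              intro x hx
              rw [Finset.mem_singleton] at hx
              subst hx
              exact ⟨e1, rfl, by rw [hqk]; exact Finset.mem_singleton_self _⟩
            have h5 := (O.mirror.cyc k.1 {k} ⟨k, Finset.mem_singleton_self _⟩ h4).2 y
              ((mem_Jv51 G).1 hy).1 ((mem_Jv51 G).1 hy).2
            exact hyk (Finset.mem_singleton.1 h5)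
          · exact hnRT _ (hall _ hq1 hqk hne) r3
        rw [this]
        exact hyt
      · right; left
        refine ⟨i, hi, ?_⟩
        -- the corners `k, s τ, p (s τ), p (p (s τ))`
        have hTp : G.cI (G.cl (p (s τ))) = ∅ := (hB.2.2 _ hp1).resolve_right r1
        have hp2 := (hpJ _ hp1).1
        have hq1 := (hpJ _ hkJ).2
        have hTq : G.cI (G.cl (q k)) = ∅ := (hB.2.2 _ hq1).resolve_right r3
        have hjp : s τ ∈ iJ G := e5
        have i1 := ((mem_Jv51 G).1 hp1).1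
        have i2 := ((mem_Jv51 G).1 hp2).1
        have iq := ((mem_Jv51 G).1 hq1).1
        have key : RC G (G.cl (p (p (s τ)))) → p (p (s τ)) = y := by
          intro r2
          by_contra hne
          by_cases hpk : p (p (s τ)) = k
          · have h4 : ∀ x ∈ ({k, s τ, p (s τ)} : Finset (V × V)), x ∈ iJ G ∧ x.1 = k.1 ∧
                p x ∈ ({k, s τ, p (s τ)} : Finset (V × V)) := by
              intro x hx
              simp only [Finset.mem_insert, Finset.mem_singleton] at hx ⊢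
              rcases hx with rfl | rfl | rfl
              · exact ⟨e1, rfl, Or.inr (Or.inl e4)⟩
              · exact ⟨e5, e8, Or.inr (Or.inr rfl)⟩
              · exact ⟨i1, ((mem_Jv51 G).1 hp1).2, Or.inl hpk⟩
            have h5 := (O.cyc k.1 {k, s τ, p (s τ)} ⟨k, Finset.mem_insert_self _ _⟩ h4).2 y
              ((mem_Jv51 G).1 hy).1 ((mem_Jv51 G).1 hy).2
            simp only [Finset.mem_insert, Finset.mem_singleton] at h5
            rcases h5 with h5 | h5 | h5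
            · exact hyk h5
            · rw [h5] at ry
              exact hnRT _ e6 ry
            · rw [h5] at ry
              exact hnRT _ hTp ry
          · exact hnRT _ (hall _ hp2 hpk hne) r2
        by_cases r2 : RC G (G.cl (p (p (s τ))))
        · exact ⟨i1, hTp, i2, r2, by rw [key r2]; exact hyt⟩
        · exfalso
          -- three triangles `s τ, p (s τ), p (p (s τ))`; `q k` is one of them
          obtain ⟨JT, hJT⟩ : ∃ JT, JT = (Jv G k.1).filter (fun x => ¬ RC G (G.cl x)) := ⟨_, rfl⟩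
          rw [← hJT] at h3
          have hmT : ∀ x, x ∈ JT ↔ x ∈ Jv G k.1 ∧ ¬ RC G (G.cl x) := by
            intro x
            rw [hJT, Finset.mem_filter]
          have n1 : p (s τ) ≠ k := fun h => r1 (by rw [h]; exact e2)
          have n2 : p (p (s τ)) ≠ k := fun h => r2 (by rw [h]; exact e2)
          have n3 : s τ ≠ k := fun h => hnRT _ e6 (by rw [h]; exact e2)
          have qp0 : q (p k) = k := O.pq _ e1 (by rw [e4]; exact e5)
          have qp1 : q (p (s τ)) = s τ := O.pq _ e5 i1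
          have qp2 : q (p (p (s τ))) = p (s τ) := O.pq _ i1 i2
          have d1 : s τ ≠ p (s τ) := by
            intro h
            apply n3
            rw [← h] at qp1
            rw [← qp1, ← e4]
            exact qp0
          have d2 : p (s τ) ≠ p (p (s τ)) := by
            intro h
            rw [← h] at qp2
            exact d1 (qp1.symm.trans qp2)
          have d3 : s τ ≠ p (p (s τ)) := by
            intro h
            rw [← h] at qp2
            apply n1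
            rw [← qp2, ← e4]
            exact qp0
          have hsub : ({s τ, p (s τ), p (p (s τ))} : Finset (V × V)) ⊆ JT := by
            intro x hx
            simp only [Finset.mem_insert, Finset.mem_singleton] at hx
            rcases hx with rfl | rfl | rfl
            · exact (hmT _).2 ⟨hsJ, hnRT _ e6⟩
            · exact (hmT _).2 ⟨hp1, r1⟩
            · exact (hmT _).2 ⟨hp2, r2⟩
          have hcard : ({s τ, p (s τ), p (p (s τ))} : Finset (V × V)).card = 3 := by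
            rw [Finset.card_eq_three]
            exact ⟨_, _, _, d1, d3, d2, rfl⟩
          have heq := Finset.eq_of_subset_of_card_le hsub (by omega)
          have hqT : q k ∈ JT := (hmT _).2 ⟨hq1, r3⟩
          rw [← heq] at hqT
          simp only [Finset.mem_insert, Finset.mem_singleton] at hqT
          have pq0 : p (q k) = k := O.qp _ e1 iq
          rcases hqT with h | h | h
          · rw [h] at pq0
            exact n1 pq0
          · rw [h] at pq0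
            exact n2 pq0
          · have hclosed : ∀ x ∈ ({k, s τ, p (s τ), p (p (s τ))} : Finset (V × V)),
                x ∈ iJ G ∧ x.1 = k.1 ∧
                p x ∈ ({k, s τ, p (s τ), p (p (s τ))} : Finset (V × V)) := by
              intro x hx
              simp only [Finset.mem_insert, Finset.mem_singleton] at hx ⊢
              rcases hx with rfl | rfl | rfl | rfl
              · exact ⟨e1, rfl, Or.inr (Or.inl e4)⟩
              · exact ⟨e5, e8, Or.inr (Or.inr (Or.inl rfl))⟩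
              · exact ⟨i1, ((mem_Jv51 G).1 hp1).2, Or.inr (Or.inr (Or.inr rfl))⟩
              · exact ⟨i2, ((mem_Jv51 G).1 hp2).2, Or.inl (by rw [← h]; exact pq0)⟩
            have h5 := (O.cyc k.1 _ ⟨k, Finset.mem_insert_self _ _⟩ hclosed).2 y
              ((mem_Jv51 G).1 hy).1 ((mem_Jv51 G).1 hy).2
            simp only [Finset.mem_insert, Finset.mem_singleton] at h5
            rcases h5 with h5 | h5 | h5 | h5
            · exact hyk h5
            · rw [h5] at ry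
              exact hnRT _ e6 ry
            · rw [h5] at ry
              exact r1 ry
            · rw [h5] at ry
              exact r2 ry

end

section
variable {V : Type} (G : Tg V) {al : ℝ} {kp : V → V → ℝ} {U : ℕ → ℝ}
variable {Q : ℝ} {opp : ℝ → ℝ} {g : ℕ → ℝ} {m : ℕ} {s s' p q : V × V → V × V}

/-- the end of the walk -/
theorem walk62 (hG : G.Geo4 al kp U) (O : Or62 G opp s s' p q) (c : Ch62 al Q opp g m)
    {F : V × V → Prop} (f : Fc62 G Q opp g m F) {t0 : V × V} (hA : A62 G opp g p m t0) :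
    ∃ i τ, Wk62 G opp g m s' p q t0 i τ ∧
      (¬ Tight62 G al F (s' (p τ)) ∨
      (∃ l, m - i = l + 1 ∧ p (s τ) ∈ iJ G ∧ RC G (G.cl (p (s τ))) ∧
        TH G (p (s τ)) = opp (g l)) ∨
      (∃ l, m - i = l + 1 ∧ q (s' (p τ)) ∈ iJ G ∧ RC G (G.cl (q (s' (p τ)))) ∧
        TH G (q (s' (p τ))) = opp (g l)) ∨
      (i = m ∧ p (s τ) ∈ iJ G ∧ G.cI (G.cl (p (s τ))) = ∅)) := by
  have key : ∀ n i τ, m - i = n → Wk62 G opp g m s' p q t0 i τ →
      ∃ i τ, Wk62 G opp g m s' p q t0 i τ ∧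
      (¬ Tight62 G al F (s' (p τ)) ∨
      (∃ l, m - i = l + 1 ∧ p (s τ) ∈ iJ G ∧ RC G (G.cl (p (s τ))) ∧
        TH G (p (s τ)) = opp (g l)) ∨
      (∃ l, m - i = l + 1 ∧ q (s' (p τ)) ∈ iJ G ∧ RC G (G.cl (q (s' (p τ)))) ∧
        TH G (q (s' (p τ))) = opp (g l)) ∨
      (i = m ∧ p (s τ) ∈ iJ G ∧ G.cI (G.cl (p (s τ))) = ∅)) := by
    intro n
    induction n with
    | zero =>
      intro i τ hn hW
      rcases step62 G hG O c f (Nat.sub_le m i) hW.2.1 with h | ⟨l, h, _⟩ | ⟨l, h, _⟩ |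
        ⟨l, h, _⟩ | ⟨h, h1, h2⟩
      · exact ⟨i, τ, hW, Or.inl h⟩
      · omega
      · omega
      · omega
      · have := hW.1
        exact ⟨i, τ, hW, Or.inr (Or.inr (Or.inr ⟨by omega, h1, h2⟩))⟩
    | succ n ih =>
      intro i τ hn hW
      rcases step62 G hG O c f (Nat.sub_le m i) hW.2.1 with h | ⟨l, h, h1⟩ | ⟨l, h, h1⟩ |
        ⟨l, h, h1⟩ | ⟨h, h1, h2⟩
      · exact ⟨i, τ, hW, Or.inl h⟩
      · exact ⟨i, τ, hW, Or.inr (Or.inl ⟨l, h, h1⟩)⟩
      · exact ⟨i, τ, hW, Or.inr (Or.inr (Or.inl ⟨l, h, h1⟩))⟩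
      · have hl : l = m - i - 1 := by omega
        rw [hl] at h1
        exact ih (i + 1) _ (by omega) (wkS_62 G O hW (by omega) h1)
      · omega
  exact key _ 0 t0 rfl (wk0_62 G O hA)

/-- a walk claims or fails -/
theorem walk62' (hG : G.Geo4 al kp U) (O : Or62 G opp s s' p q) (c : Ch62 al Q opp g m)
    {F : V × V → Prop} (f : Fc62 G Q opp g m F) {t0 : V × V} (hA : A62 G opp g p m t0) :
    (∃ k n, Cl62 G al F opp g m s s' p q t0 k n) ∨
    (∀ k, k ≤ m + 1 → q^[k] (s' t0) ∈ iJ G ∧ G.cI (G.cl (q^[k] (s' t0))) = ∅) := by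
  obtain ⟨i, τ, hW, h⟩ := walk62 G hG O c f hA
  rcases h with h | ⟨l, h, h1, h2, h3⟩ | ⟨l, h, h1, h2, h3⟩ | ⟨h, h1, h2⟩
  · exact Or.inl ⟨_, 0, i, τ, hW, Or.inl ⟨rfl, rfl, h⟩⟩
  · exact Or.inl ⟨_, 0, i, τ, hW, Or.inr (Or.inl ⟨l, h, h1, h2, h3, rfl, rfl⟩)⟩
  · exact Or.inl ⟨_, 1, i, τ, hW, Or.inr (Or.inr ⟨l, h, h1, h2, h3, rfl, rfl⟩)⟩
  · right
    subst h
    intro k hk
    obtain ⟨g1, g2, g3, g4, g5, g6, g7⟩ := hW
    rcases Nat.lt_or_ge k (i + 1) with hlt | hge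
    · exact g6 k (by omega)
    · have : k = i + 1 := by omega
      subst this
      rw [Function.iterate_succ_apply', g5, (centre62 G O g2.1 g2.2.1 h1).2.1]
      refine ⟨O.s2 _ h1, ?_⟩
      rw [O.s2c _ h1]
      exact h2

/-- facts on a claim -/
theorem cl_fact62 (hG : G.Geo4 al kp U) (O : Or62 G opp s s' p q) (c : Ch62 al Q opp g m)
    {F : V × V → Prop} {t0 : V × V}
    (ht0 : t0 ∈ iJ G) (hq : q t0 ∈ iJ G) (rq : RC G (G.cl (q t0))) (k1 : g m ≤ TH G (s (q t0)))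
    (k2 : TH G (s (q t0)) ≤ Q)
    {k : V × V} {n : ℕ} (h : Cl62 G al F opp g m s s' p q t0 k n) :
    k ∈ iJ G ∧ RC G (G.cl k) ∧ (∃ j, j ≤ m ∧ TH G k = g j) ∧ ¬ Tight62 G al F k ∧
    ((n = 0 ∧ p k ∈ iJ G ∧ G.cI (G.cl (p k)) = ∅) ∨
     (n = 1 ∧ q k ∈ iJ G ∧ RC G (G.cl (q k)) ∧ ∃ j, j ≤ m ∧ TH G (q k) = opp (g j))) := by
  obtain ⟨i, τ, hW, h⟩ := h
  obtain ⟨h1, h2, h3, h4, h5, h6, h7⟩ := hW
  obtain ⟨e1, e2, e3, e4, e5, e6, e7, e8, e9⟩ := tip62 G O c (Nat.sub_le m i) h2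
  rcases h with ⟨a1, a2, a3⟩ | ⟨l, a1, a2, a3, a4, a5, a6⟩ | ⟨l, a1, a2, a3, a4, a5, a6⟩
  · subst a1
    refine ⟨e1, e2, ⟨_, Nat.sub_le m i, e3⟩, a3, Or.inl ⟨a2, ?_, ?_⟩⟩
    · rw [e4]
      exact e5
    · rw [e4]
      exact e6
  · subst a5
    obtain ⟨b1, b2, b3⟩ := centre62 G O h2.1 h2.2.1 a2
    have r1 : RC G (G.cl (s' (p (s τ)))) := by
      rw [O.s2c _ a2]
      exact a3
    have hj : s' (p (s τ)) ∈ iJ G := O.s2 _ a2
    have ht : TH G (s' (p (s τ))) = g l := by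
      rw [O.o2 _ a2 a3, a4, c.goo (by omega)]
    refine ⟨hj, r1, ⟨l, by omega, ht⟩, ?_, Or.inl ⟨a6, ?_, ?_⟩⟩
    · rintro ⟨hB, _⟩
      have f1 := O.s1 _ hq
      have rf1 : RC G (G.cl (s (q t0))) := by
        rw [O.s1c _ hq]
        exact rq
      have f2 := O.qs _ ht0 hq
      have f3 := O.s2 _ ht0
      have f4 : (s' t0).1 = (s (q t0)).1 := by
        rw [← f2]
        exact O.qf _ f1 (by rw [f2]; exact f3)
      refine c1_62 G hG c hB ((mem_Jv51 G).2 ⟨hj, rfl⟩) (y := s (q t0))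
        ((mem_Jv51 G).2 ⟨f1, (f4.symm.trans h7.symm).trans b3.symm⟩) ?_ r1 rf1 ?_ k2
      · intro h
        rw [h] at ht
        have := c.mono l m (by omega) le_rfl
        linarith
      · rw [ht]
        exact (c.gm (by omega)).le
    · rw [b1]
      exact O.s2 _ h2.1
    · rw [b1, O.s2c _ h2.1]
      exact h2.2.1
  · subst a5
    obtain ⟨k, hk⟩ : ∃ k, k = s' (p τ) := ⟨_, rfl⟩
    rw [← hk] at e1 e2 e3 e4 e7 e8 a2 a3 a4 ⊢
    have b1 := O.qs _ e1 a2
    have r1 : RC G (G.cl (s (q k))) := by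
      rw [O.s1c _ a2]
      exact a3
    have r2 : RC G (G.cl (s' k)) := by
      rw [O.s2c _ e1]
      exact e2
    have ht : TH G (s (q k)) = g l := by
      rw [O.o1 _ a2 a3, a4, c.goo (by omega)]
    have ht' : TH G (s' k) = opp (g (l + 1)) := by
      rw [O.o2 _ e1 e2, e3, a1]
    have i1 := O.s1 _ a2
    have i2 := O.s2 _ e1
    refine ⟨i1, r1, ⟨l, by omega, ht⟩, ?_, Or.inr ⟨a6, ?_, ?_, ?_⟩⟩
    · rintro ⟨hB, _⟩
      refine c2_62 G hG c hB ((mem_Jv51 G).2 ⟨i1, rfl⟩) (y := s' k)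
        ((mem_Jv51 G).2 ⟨i2, ?_⟩) ?_ r1 r2 (j := l) (by omega) ht ht'
      · rw [← b1]
        exact O.qf _ i1 (by rw [b1]; exact i2)
      · intro h
        rw [h, ht'] at ht
        have := c.gm (j := l) (by omega)
        have := c.bQ (j := l + 1) (by omega)
        linarith
    · rw [b1]
      exact i2
    · rw [b1]
      exact r2
    · rw [b1]
      exact ⟨l + 1, by omega, ht'⟩

end

section
variable {V : Type} (G : Tg V) {al : ℝ} {kp : V → V → ℝ} {U : ℕ → ℝ}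
variable {Q : ℝ} {opp : ℝ → ℝ} {g : ℕ → ℝ} {m : ℕ} {s s' p q : V × V → V × V}

/-- the corner before a chain tip followed by four contact triangles -/
theorem fan62 (hG : G.Geo4 al kp U) (O : Or62 G opp s s' p q) (c : Ch62 al Q opp g m)
    (hlow : ∀ x ∈ iJ G, RC G (G.cl x) → al ≤ TH G x) {k : V × V} (hk : k ∈ iJ G)
    (rk : RC G (G.cl k)) (hN : k.1 ∈ inN G) (h1 : g 0 < TH G k) (h2 : TH G k ≤ Q)
    (hT : ∀ j, j < 4 → q^[j + 1] k ∈ iJ G ∧ G.cI (G.cl (q^[j + 1] k)) = ∅) :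
    p k ∈ iJ G ∧ G.cI (G.cl (p k)) ≠ ∅ ∧ ¬ RC G (G.cl (p k)) := by
  obtain ⟨o1, o2, o3⟩ := orb62 G O hk rk hT
  have hpk := (O.N k hk hN).1
  have hpJ : p k ∈ Jv G k.1 := (mem_Jv51 G).2 ⟨hpk, O.pf _ hk hpk⟩
  have hqp := O.pq _ hk hpk
  obtain ⟨S, hS⟩ : ∃ S, S = (Finset.range 5).image (fun j => q^[j] k) := ⟨_, rfl⟩
  have hmS : ∀ x, x ∈ S ↔ ∃ j, j ≤ 4 ∧ q^[j] k = x := by
    intro x
    rw [hS, Finset.mem_image]
    constructor
    · rintro ⟨j, hj, h⟩
      exact ⟨j, by have := Finset.mem_range.1 hj; omega, h⟩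
    · rintro ⟨j, hj, h⟩
      exact ⟨j, Finset.mem_range.2 (by omega), h⟩
  have hsumS : ∑ x ∈ S, TH G x = TH G k + 4 * al := by
    rw [hS, Finset.sum_image]
    · rw [Finset.sum_range_succ' _ 4]
      have h3 : ∑ j ∈ Finset.range 4, TH G (q^[j + 1] k) = ∑ j ∈ Finset.range 4, al := by
        refine Finset.sum_congr rfl fun j hj => ?_
        obtain ⟨h4, h5⟩ := hT j (Finset.mem_range.1 hj)
        exact TH_T51 G hG h4 h5
      rw [h3, Finset.sum_const, Finset.card_range, nsmul_eq_mul]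
      show _ + TH G k = _
      push_cast
      ring
    · intro a ha b hb h
      have := Finset.mem_range.1 (Finset.mem_coe.1 ha)
      have := Finset.mem_range.1 (Finset.mem_coe.1 hb)
      exact o3 a b (by omega) (by omega) h
  have htot := sum_TH_point71 G hG hN
  change ∑ x ∈ Jv G k.1, TH G x = _ at htot
  have hSJ : S ⊆ Jv G k.1 := by
    intro x hx
    obtain ⟨j, hj, rfl⟩ := (hmS x).1 hx
    exact o1 j hj
  have hpS : p k ∉ S := by
    intro h
    obtain ⟨j, hj, hjk⟩ := (hmS _).1 h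
    have hcl : ∀ x ∈ S, x ∈ iJ G ∧ x.1 = k.1 ∧ p x ∈ S := by
      intro x hx
      have hx' := (mem_Jv51 G).1 (hSJ hx)
      refine ⟨hx'.1, hx'.2, ?_⟩
      obtain ⟨i, hi, rfl⟩ := (hmS x).1 hx
      rcases i with _ | i
      · exact h
      · rw [o2 i (by omega)]
        exact (hmS _).2 ⟨i, by omega, rfl⟩
    have h3 := (O.cyc k.1 S ⟨p k, h⟩ hcl).2
    have h4 : Jv G k.1 = S := by
      apply Finset.Subset.antisymm _ hSJ
      intro x hx
      exact h3 x ((mem_Jv51 G).1 hx).1 ((mem_Jv51 G).1 hx).2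
    rw [h4, hsumS] at htot
    have := c.Q2
    have := c.al3
    have := Real.pi_pos
    linarith
  have hge : TH G (p k) < al := by
    by_contra hcon
    push Not at hcon
    have h3 : ∑ x ∈ insert (p k) S, TH G x ≤ ∑ x ∈ Jv G k.1, TH G x := by
      apply Finset.sum_le_sum_of_subset_of_nonneg
      · intro x hx
        rcases Finset.mem_insert.1 hx with rfl | hx
        · exact hpJ
        · exact hSJ hx
      · intro x hx _
        exact (TH_pos71 G ((mem_Jv51 G).1 hx).1).le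
    rw [Finset.sum_insert hpS, hsumS, htot] at h3
    have := c.g0
    linarith
  refine ⟨hpk, ?_, ?_⟩
  · intro h
    rw [TH_T51 G hG hpk h] at hge
    exact lt_irrefl _ hge
  · intro h
    have := hlow _ hpk h
    linarith

/-- three contact triangles on both sides of a rhombus corner: only at points of `N` -/
theorem dbl62 (hG : G.Geo4 al kp U) (O : Or62 G opp s s' p q) (c : Ch62 al Q opp g m)
    (hlow : ∀ x ∈ iJ G, RC G (G.cl x) → al ≤ TH G x) {k : V × V} (hk : k ∈ iJ G)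
    (rk : RC G (G.cl k)) (hN : k.1 ∉ inN G) (hsum : ∑ x ∈ Jv G k.1, TH G x ≤ 2 * Real.pi)
    (hT : ∀ j, j < 3 → q^[j + 1] k ∈ iJ G ∧ G.cI (G.cl (q^[j + 1] k)) = ∅)
    (hT' : ∀ j, j < 3 → p^[j + 1] k ∈ iJ G ∧ G.cI (G.cl (p^[j + 1] k)) = ∅) : False := by
  obtain ⟨o1, o2, o3⟩ := orb62 G O hk rk hT
  obtain ⟨u1, u2, u3⟩ := orb62 G O.mirror hk rk hT'
  have hcross : ∀ a b, a ≤ 3 → b < 3 → q^[a] k ≠ p^[b + 1] k := by
    intro a b ha hb h
    obtain ⟨S, hS⟩ : ∃ S, S = (Finset.range (a + 1)).image (fun j => q^[j] k) ∪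
      (Finset.range (b + 2)).image (fun j => p^[j] k) := ⟨_, rfl⟩
    have hmS : ∀ x, x ∈ S ↔ (∃ j, j ≤ a ∧ q^[j] k = x) ∨ (∃ j, j ≤ b + 1 ∧ p^[j] k = x) := by
      intro x
      rw [hS, Finset.mem_union, Finset.mem_image, Finset.mem_image]
      constructor
      · rintro (⟨j, hj, h⟩ | ⟨j, hj, h⟩)
        · exact Or.inl ⟨j, by have := Finset.mem_range.1 hj; omega, h⟩
        · exact Or.inr ⟨j, by have := Finset.mem_range.1 hj; omega, h⟩
      · rintro (⟨j, hj, h⟩ | ⟨j, hj, h⟩)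
        · exact Or.inl ⟨j, Finset.mem_range.2 (by omega), h⟩
        · exact Or.inr ⟨j, Finset.mem_range.2 (by omega), h⟩
    have hpS : ∀ j, j ≤ b → p^[j] k ∈ S ∧ q (p^[j + 1] k) = p^[j] k := by
      intro j hj
      exact ⟨(hmS _).2 (Or.inr ⟨j, by omega, rfl⟩), u2 j (by omega)⟩
    have hcl : ∀ x ∈ S, x ∈ iJ G ∧ x.1 = k.1 ∧ q x ∈ S := by
      intro x hx
      rcases (hmS x).1 hx with ⟨j, hj, rfl⟩ | ⟨j, hj, rfl⟩
      · have h1 := (mem_Jv51 G).1 (o1 j (by omega))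
        refine ⟨h1.1, h1.2, ?_⟩
        rcases Nat.eq_or_lt_of_le hj with rfl | hlt
        · rw [h, (hpS b le_rfl).2]
          exact (hpS b le_rfl).1
        · exact (hmS _).2 (Or.inl ⟨j + 1, by omega, by rw [Function.iterate_succ_apply']⟩)
      · have h1 := (mem_Jv51 G).1 (u1 j (by omega))
        refine ⟨h1.1, h1.2, ?_⟩
        rcases j with _ | j
        · rcases Nat.eq_zero_or_pos a with h0 | h0
          · subst h0
            have h3 : p^[b + 1] k = k := h.symm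
            show q k ∈ S
            rw [← h3, (hpS b le_rfl).2]
            exact (hpS b le_rfl).1
          · exact (hmS _).2 (Or.inl ⟨1, h0, rfl⟩)
        · rw [(hpS j (by omega)).2]
          exact (hpS j (by omega)).1
    exact hN (O.mirror.cyc k.1 S ⟨k, (hmS k).2 (Or.inl ⟨0, Nat.zero_le _, rfl⟩)⟩ hcl).1
  obtain ⟨S1, hS1⟩ : ∃ S1, S1 = (Finset.range 4).image (fun j => q^[j] k) := ⟨_, rfl⟩
  obtain ⟨S2, hS2⟩ : ∃ S2, S2 = (Finset.range 3).image (fun j => p^[j + 1] k) := ⟨_, rfl⟩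
  have hdis : Disjoint S1 S2 := by
    rw [Finset.disjoint_left]
    intro x hx hy
    rw [hS1, Finset.mem_image] at hx
    rw [hS2, Finset.mem_image] at hy
    obtain ⟨a, ha, rfl⟩ := hx
    obtain ⟨b, hb, h⟩ := hy
    exact hcross a b (by have := Finset.mem_range.1 ha; omega) (Finset.mem_range.1 hb) h.symm
  have hs1 : ∑ x ∈ S1, TH G x = TH G k + 3 * al := by
    rw [hS1, Finset.sum_image]
    · rw [Finset.sum_range_succ' _ 3]
      have h3 : ∑ j ∈ Finset.range 3, TH G (q^[j + 1] k) = ∑ j ∈ Finset.range 3, al := by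
        refine Finset.sum_congr rfl fun j hj => ?_
        obtain ⟨h4, h5⟩ := hT j (Finset.mem_range.1 hj)
        exact TH_T51 G hG h4 h5
      rw [h3, Finset.sum_const, Finset.card_range, nsmul_eq_mul]
      show _ + TH G k = _
      push_cast
      ring
    · intro a ha b hb h
      have := Finset.mem_range.1 (Finset.mem_coe.1 ha)
      have := Finset.mem_range.1 (Finset.mem_coe.1 hb)
      exact o3 a b (by omega) (by omega) h
  have hs2 : ∑ x ∈ S2, TH G x = 3 * al := by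
    rw [hS2, Finset.sum_image]
    · have h3 : ∑ j ∈ Finset.range 3, TH G (p^[j + 1] k) = ∑ j ∈ Finset.range 3, al := by
        refine Finset.sum_congr rfl fun j hj => ?_
        obtain ⟨h4, h5⟩ := hT' j (Finset.mem_range.1 hj)
        exact TH_T51 G hG h4 h5
      rw [h3, Finset.sum_const, Finset.card_range, nsmul_eq_mul]
      push_cast
      ring
    · intro a ha b hb h
      have := Finset.mem_range.1 (Finset.mem_coe.1 ha)
      have := Finset.mem_range.1 (Finset.mem_coe.1 hb)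
      have := u3 (a + 1) (b + 1) (by omega) (by omega) h
      omega
  have h3 : ∑ x ∈ S1 ∪ S2, TH G x ≤ ∑ x ∈ Jv G k.1, TH G x := by
    apply Finset.sum_le_sum_of_subset_of_nonneg
    · intro x hx
      rcases Finset.mem_union.1 hx with hx | hx
      · rw [hS1, Finset.mem_image] at hx
        obtain ⟨a, ha, rfl⟩ := hx
        exact o1 a (by have := Finset.mem_range.1 ha; omega)
      · rw [hS2, Finset.mem_image] at hx
        obtain ⟨a, ha, rfl⟩ := hx
        exact u1 (a + 1) (by have := Finset.mem_range.1 ha; omega)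
    · intro x hx _
      exact (TH_pos71 G ((mem_Jv51 G).1 hx).1).le
  rw [Finset.sum_union hdis, hs1, hs2] at h3
  have := hlow k hk rk
  have := c.al7
  linarith

/-- the inner angles at any point add to at most `2π` -/
theorem sumTH62 (hG : G.Geo4 al kp U)
    (hH : ∀ v ∈ G.P, G.bd v → ∑ x ∈ G.Dp.filter (fun x => x.1 = v), G.th x.1 x.2 ≤ Real.pi)
    (v : V) (hv : v ∈ G.P) : ∑ x ∈ Jv G v, TH G x ≤ 2 * Real.pi := by
  have e1 : ∑ x ∈ Jv G v, TH G x = ∑ y ∈ G.iD.filter (fun y => y.1 = v), G.th y.1 y.2 := by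
    unfold Jv
    rw [← Finset.sum_fiberwise_of_maps_to (s := G.iD.filter (fun y => y.1 = v))
      (t := (iJ G).filter (fun x => x.1 = v)) (g := fun y => (y.1, G.og y.1 y.2))]
    · refine Finset.sum_congr rfl fun x hx => ?_
      rw [Finset.mem_filter] at hx
      unfold TH gp
      rw [Finset.filter_filter]
      refine Finset.sum_congr (Finset.filter_congr fun y _ => ?_) fun _ _ => rfl
      constructor
      · rintro ⟨h1, h2⟩
        exact ⟨h1.trans hx.2, Prod.ext h1 (by rw [h1]; exact h2)⟩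
      · rintro ⟨_, h⟩
        have h1 : y.1 = x.1 := by rw [← h]
        have h2 : G.og y.1 y.2 = x.2 := by rw [← h]
        exact ⟨h1, by rw [← h1]; exact h2⟩
    · rintro ⟨u, a⟩ hy
      rw [Finset.mem_filter, mem_iD27] at hy
      obtain ⟨h1, h2, _⟩ := og71 G hG hy.1
      rw [Finset.mem_filter]
      exact ⟨(mem_iJ71 G).2 ⟨h2, h1⟩, hy.2⟩
  have e2 : ∑ y ∈ G.iD.filter (fun y => y.1 = v), G.th y.1 y.2 ≤
      ∑ y ∈ G.Dp.filter (fun y => y.1 = v), G.th y.1 y.2 := by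
    apply Finset.sum_le_sum_of_subset_of_nonneg
    · intro y hy
      rw [Finset.mem_filter, mem_iD27] at hy
      rw [Finset.mem_filter]
      exact ⟨hy.1.1, hy.2⟩
    · intro y hy _
      rw [Finset.mem_filter] at hy
      exact (G.thpos _ _ hy.1).le
  rw [e1]
  refine le_trans e2 ?_
  by_cases hb : G.bd v
  · have := hH v hv hb
    have := Real.pi_pos
    linarith
  · rw [← hG.tot v hv hb]
    apply Finset.sum_le_sum_of_subset_of_nonneg
    · intro y hy
      rw [Finset.mem_filter] at hy ⊢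
      exact ⟨G.sub hy.1, hy.2⟩
    · rintro ⟨y1, y2⟩ hy _
      rw [Finset.mem_filter] at hy
      obtain ⟨h2, h3⟩ := hy
      simp only at h3
      subst h3
      exact (G.thpos _ _ (G.int1 _ _ hv hb h2)).le

end

section
variable {V : Type} (G : Tg V) {al : ℝ} {kp : V → V → ℝ} {U : ℕ → ℝ}
variable {Q : ℝ} {opp : ℝ → ℝ} {g : ℕ → ℝ} {m : ℕ} {s s' p q : V × V → V × V}

theorem tkA_ex62 (hG : G.Geo4 al kp U) (O : Or62 G opp s s' p q) (c : Ch62 al Q opp g m)
    {F : V × V → Prop} (f : Fc62 G Q opp g m F) {t0 : V × V} (h : St62 G opp g m p q t0) :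
    ∃ k n, TkA G al F opp g m s s' p q t0 k n := by
  rcases walk62' G hG O c f h.a with ⟨k, n, h1⟩ | h1
  · exact ⟨k, n, Or.inl h1⟩
  · by_cases hN : (s (q t0)).1 ∈ inN G
    · exact ⟨_, 0, Or.inr ⟨h1, rfl, Or.inl ⟨hN, rfl⟩⟩⟩
    · exact ⟨_, 2, Or.inr ⟨h1, rfl, Or.inr ⟨hN, rfl⟩⟩⟩

/-- properties of a token -/
theorem tkA_fact62 (hG : G.Geo4 al kp U) (O : Or62 G opp s s' p q) (c : Ch62 al Q opp g m)
    (hlow : ∀ x ∈ iJ G, RC G (G.cl x) → al ≤ TH G x) (hm : 2 ≤ m)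
    {F : V × V → Prop} (f : Fc62 G Q opp g m F) {t0 : V × V} (h : St62 G opp g m p q t0)
    {k : V × V} {n : ℕ} (hk : TkA G al F opp g m s s' p q t0 k n) :
    k ∈ iJ G ∧ RC G (G.cl k) ∧ (∃ j, j ≤ m ∧ TH G k = g j) ∧ ¬ Tight62 G al F k ∧
    ((n = 0 ∧ p k ∈ iJ G ∧ ¬ RC G (G.cl (p k))) ∨
     (n = 1 ∧ q k ∈ iJ G ∧ RC G (G.cl (q k)) ∧ ¬ F (q k)) ∨ (n = 2 ∧ k.1 ∉ inN G)) := by
  obtain ⟨e1, e2, e3, e4, e5⟩ := k0_62 G O c h
  obtain ⟨h1, h2, h3, h4, h5, h6, h7, h8⟩ := h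
  rcases hk with hk | ⟨hk, rfl, hk2⟩
  · obtain ⟨c1, c2, c3, c4, c5⟩ := cl_fact62 G hG O c h1 h6 h7 e3.ge
      (by rw [e3]; exact c.gQ.le) hk
    refine ⟨c1, c2, c3, c4, ?_⟩
    rcases c5 with ⟨a1, a2, a3⟩ | ⟨a1, a2, a3, j, a4, a5⟩
    · exact Or.inl ⟨a1, a2, fun h => RC_ne51 G h a3⟩
    · refine Or.inr (Or.inl ⟨a1, a2, a3, ?_⟩)
      exact (f.hi _ a2 a3 (by rw [a5]; exact c.bQ a4)).2 ⟨j, a4, a5⟩
  · refine ⟨e1, e2, ⟨m, le_rfl, e3⟩, ?_, ?_⟩
    · rintro ⟨hB, _⟩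
      rcases hk2 with ⟨a1, a2⟩ | ⟨a1, a2⟩
      · obtain ⟨b1, b2, b3⟩ := fan62 G hG O c hlow e1 e2 a1
          (by rw [e3]; exact c.mono 0 m (by omega) le_rfl) (by rw [e3]; exact c.gQ.le) (by
            intro j hj
            rw [Function.iterate_succ_apply, e4]
            exact hk j (by omega))
        rcases hB.2.2 _ ((mem_Jv51 G).2 ⟨b1, O.pf _ e1 b1⟩) with h | h
        · exact b2 h
        · exact b3 h
      · exact a1 hB.1
    · rcases hk2 with ⟨a1, a2⟩ | ⟨a1, a2⟩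
      · obtain ⟨b1, b2, b3⟩ := fan62 G hG O c hlow e1 e2 a1
          (by rw [e3]; exact c.mono 0 m (by omega) le_rfl) (by rw [e3]; exact c.gQ.le) (by
            intro j hj
            rw [Function.iterate_succ_apply, e4]
            exact hk j (by omega))
        exact Or.inl ⟨a2, b1, b3⟩
      · exact Or.inr (Or.inr ⟨a2, a1⟩)

/-- a token determines its walk -/
theorem tkA_uniq62 (hG : G.Geo4 al kp U) (O : Or62 G opp s s' p q) (c : Ch62 al Q opp g m)
    (hlow : ∀ x ∈ iJ G, RC G (G.cl x) → al ≤ TH G x) (hm : 2 ≤ m)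
    {F : V × V → Prop} {t0 t1 : V × V} (h : St62 G opp g m p q t0)
    (h' : St62 G opp g m p q t1) {k : V × V} {n : ℕ}
    (hk : TkA G al F opp g m s s' p q t0 k n) (hk' : TkA G al F opp g m s s' p q t1 k n) :
    t0 = t1 := by
  have key : ∀ t0 t1 : V × V, St62 G opp g m p q t0 → St62 G opp g m p q t1 →
      Cl62 G al F opp g m s s' p q t0 k n →
      (Fl62 G m s' q t1 ∧ k = s (q t1) ∧ ((k.1 ∈ inN G ∧ n = 0) ∨ (k.1 ∉ inN G ∧ n = 2))) →
      False := by
    intro t0 t1 h h' hk hk'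
    obtain ⟨e1, e2, e3, e4, e5⟩ := k0_62 G O c h
    obtain ⟨f1, f2, f3, f4, f5⟩ := k0_62 G O c h'
    obtain ⟨c1, c2, c3, c4, c5⟩ := cl_fact62 G hG O c h.1 h.2.2.2.2.2.1 h.2.2.2.2.2.2.1 e3.ge
      (by rw [e3]; exact c.gQ.le) hk
    obtain ⟨a1, a2, a3⟩ := hk'
    rcases a3 with ⟨a3, a4⟩ | ⟨a3, a4⟩
    · rcases c5 with ⟨b1, b2, b3⟩ | ⟨b1, b2⟩
      · subst a2
        obtain ⟨d1, d2, d3⟩ := fan62 G hG O c hlow f1 f2 a3
          (by rw [f3]; exact c.mono 0 m (by omega) le_rfl) (by rw [f3]; exact c.gQ.le) (by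
            intro j hj
            rw [Function.iterate_succ_apply, f4]
            exact a1 j (by omega))
        exact d2 b3
      · omega
    · rcases c5 with ⟨b1, b2, b3⟩ | ⟨b1, b2⟩ <;> omega
  rcases hk with hk | hk <;> rcases hk' with hk' | hk'
  · exact cl_uniq62 G O c hk hk'
  · exact absurd (key t0 t1 h h' hk hk') id
  · exact absurd (key t1 t0 h' h hk' hk) id
  · rw [← (k0_62 G O c h).2.2.2.2, ← (k0_62 G O c h').2.2.2.2, ← hk.2.1, ← hk'.2.1]

theorem tkB_ex62 (hG : G.Geo4 al kp U) (O : Or62 G opp s s' p q) (c : Ch62 al Q opp g m)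
    {F : V × V → Prop} (f : Fc62 G Q opp g m F) {t0 : V × V} (h : St62 G opp g m p q t0) :
    ∃ k n, TkB G al F opp g m s s' p q t0 k n := by
  obtain ⟨k, n, h1⟩ := tkA_ex62 G hG O.mirror c f h.mir
  have hn : n = 0 ∨ n = 1 ∨ n = 2 := by
    rcases h1 with ⟨i, τ, _, ⟨_, h, _⟩ | ⟨l, _, _, _, _, _, h⟩ | ⟨l, _, _, _, _, _, h⟩⟩ |
      ⟨_, _, ⟨_, h⟩ | ⟨_, h⟩⟩ <;> omega
  rcases hn with rfl | rfl | rfl
  · exact ⟨k, 1, Or.inl ⟨le_rfl, h1⟩⟩
  · exact ⟨k, 0, Or.inl ⟨Nat.zero_le _, h1⟩⟩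
  · exact ⟨k, 2, Or.inr ⟨rfl, h1⟩⟩

theorem tkB_fact62 (hG : G.Geo4 al kp U) (O : Or62 G opp s s' p q) (c : Ch62 al Q opp g m)
    (hlow : ∀ x ∈ iJ G, RC G (G.cl x) → al ≤ TH G x) (hm : 2 ≤ m)
    {F : V × V → Prop} (f : Fc62 G Q opp g m F) {t0 : V × V} (h : St62 G opp g m p q t0)
    {k : V × V} {n : ℕ} (hk : TkB G al F opp g m s s' p q t0 k n) :
    k ∈ iJ G ∧ RC G (G.cl k) ∧ (∃ j, j ≤ m ∧ TH G k = g j) ∧ ¬ Tight62 G al F k ∧
    ((n = 1 ∧ q k ∈ iJ G ∧ ¬ RC G (G.cl (q k))) ∨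
     (n = 0 ∧ p k ∈ iJ G ∧ RC G (G.cl (p k)) ∧ ¬ F (p k)) ∨ (n = 2 ∧ k.1 ∉ inN G)) := by
  rcases hk with ⟨hn, hk⟩ | ⟨hn, hk⟩
  · obtain ⟨c1, c2, c3, c4, c5⟩ := tkA_fact62 G hG O.mirror c hlow hm f h.mir hk
    refine ⟨c1, c2, c3, c4, ?_⟩
    rcases c5 with ⟨a1, a2⟩ | ⟨a1, a2⟩ | ⟨a1, a2⟩
    · exact Or.inl ⟨by omega, a2⟩
    · exact Or.inr (Or.inl ⟨by omega, a2⟩)
    · omega
  · obtain ⟨c1, c2, c3, c4, c5⟩ := tkA_fact62 G hG O.mirror c hlow hm f h.mir hk
    refine ⟨c1, c2, c3, c4, ?_⟩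
    rcases c5 with ⟨a1, a2⟩ | ⟨a1, a2⟩ | ⟨a1, a2⟩
    · omega
    · omega
    · exact Or.inr (Or.inr ⟨hn, a2⟩)

theorem tkB_uniq62 (hG : G.Geo4 al kp U) (O : Or62 G opp s s' p q) (c : Ch62 al Q opp g m)
    (hlow : ∀ x ∈ iJ G, RC G (G.cl x) → al ≤ TH G x) (hm : 2 ≤ m)
    {F : V × V → Prop} {t0 t1 : V × V} (h : St62 G opp g m p q t0)
    (h' : St62 G opp g m p q t1) {k : V × V} {n : ℕ}
    (hk : TkB G al F opp g m s s' p q t0 k n) (hk' : TkB G al F opp g m s s' p q t1 k n) :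
    t0 = t1 := by
  rcases hk with ⟨hn, hk⟩ | ⟨hn, hk⟩ <;> rcases hk' with ⟨hn', hk'⟩ | ⟨hn', hk'⟩
  · exact tkA_uniq62 G hG O.mirror c hlow hm h.mir h'.mir hk hk'
  · omega
  · omega
  · exact tkA_uniq62 G hG O.mirror c hlow hm h.mir h'.mir hk hk'

/-- the tokens of the two walks are different -/
theorem tkAB62 (hG : G.Geo4 al kp U) (O : Or62 G opp s s' p q) (c : Ch62 al Q opp g m)
    (hlow : ∀ x ∈ iJ G, RC G (G.cl x) → al ≤ TH G x) (hm : 2 ≤ m)
    (hsum : ∀ v ∈ G.P, ∑ x ∈ Jv G v, TH G x ≤ 2 * Real.pi)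
    {F : V × V → Prop} (f : Fc62 G Q opp g m F) {t0 t1 : V × V}
    (h : St62 G opp g m p q t0) (h' : St62 G opp g m p q t1) {k : V × V} {n : ℕ}
    (hk : TkA G al F opp g m s s' p q t0 k n) (hk' : TkB G al F opp g m s s' p q t1 k n) :
    False := by
  obtain ⟨c1, c2, c3, c4, c5⟩ := tkA_fact62 G hG O c hlow hm f h hk
  obtain ⟨d1, d2, d3, d4, d5⟩ := tkB_fact62 G hG O c hlow hm f h' hk'
  rcases c5 with ⟨a1, a2, a3⟩ | ⟨a1, a2, a3, a4⟩ | ⟨a1, a2⟩ <;>
    rcases d5 with ⟨b1, b2, b3⟩ | ⟨b1, b2, b3, b4⟩ | ⟨b1, b2⟩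
  · omega
  · exact a3 b3
  · omega
  · exact b3 a3
  · omega
  · omega
  · omega
  · omega
  · -- both walks fail around the same tip
    subst a1
    have hkP : k.1 ∈ G.P := by
      rw [mem_iJ71] at c1
      exact G.mem _ _ (G.sub c1.1.1)
    obtain ⟨e1, e2, e3, e4, e5⟩ := k0_62 G O c h
    obtain ⟨f1, f2, f3, f4, f5⟩ := k0_62 G O.mirror c h'.mir
    have hA : Fl62 G m s' q t0 ∧ k = s (q t0) := by
      rcases hk with ⟨i, τ, _, ⟨_, h, _⟩ | ⟨l, _, _, _, _, _, h⟩ | ⟨l, _, _, _, _, _, h⟩⟩ | h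
      · omega
      · omega
      · omega
      · exact ⟨h.1, h.2.1⟩
    have hB : Fl62 G m s p t1 ∧ k = s' (p t1) := by
      rcases hk' with ⟨hn, _⟩ | ⟨_, hk'⟩
      · omega
      · rcases hk' with ⟨i, τ, _, ⟨_, h, _⟩ | ⟨l, _, _, _, _, _, h⟩ | ⟨l, _, _, _, _, _, h⟩⟩ | h
        · omega
        · omega
        · omega
        · exact ⟨h.1, h.2.1⟩
    refine dbl62 G hG O c hlow c1 c2 a2 (hsum _ hkP) ?_ ?_
    · intro j hj
      rw [Function.iterate_succ_apply, hA.2, e4]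
      exact hA.1 j (by omega)
    · intro j hj
      rw [Function.iterate_succ_apply, hB.2, f4]
      exact hB.1 j (by omega)

/-- **the two tokens** of every point with two large obtuse corners, `2 ≤ m` -/
theorem tokens62 (hG : G.Geo4 al kp U) (O : Or62 G opp s s' p q) (c : Ch62 al Q opp g m)
    (hlow : ∀ x ∈ iJ G, RC G (G.cl x) → al ≤ TH G x) (hm : 2 ≤ m)
    (hsum : ∀ v ∈ G.P, ∑ x ∈ Jv G v, TH G x ≤ 2 * Real.pi)
    {F : V × V → Prop} (f : Fc62 G Q opp g m F) (KP : V → Prop)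
    (hK : ∀ v, KP v → ∃ t0, t0.1 = v ∧ St62 G opp g m p q t0) :
    ∃ a b : V → (V × V) × ℕ, (∀ v, KP v → a v ≠ b v) ∧
      (∀ v, KP v → ∀ t, t = a v ∨ t = b v →
        t.1 ∈ iJ G ∧ RC G (G.cl t.1) ∧ (∃ j, j ≤ m ∧ TH G t.1 = g j) ∧ ¬ Tight62 G al F t.1 ∧
        t.2 ≤ 2 ∧ (t.2 = 2 → t.1.1 ∉ inN G) ∧
        (t.2 = 0 → RC G (G.cl (p t.1)) → ¬ F (p t.1)) ∧
        (t.2 = 1 → RC G (G.cl (q t.1)) → ¬ F (q t.1))) ∧
      (∀ v w, KP v → KP w → ∀ t, (t = a v ∨ t = b v) → (t = a w ∨ t = b w) → v = w) := by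
  have h1 : ∀ v, ∃ x : (V × V) × ((V × V) × ℕ), KP v →
      x.1.1 = v ∧ St62 G opp g m p q x.1 ∧ TkA G al F opp g m s s' p q x.1 x.2.1 x.2.2 := by
    intro v
    by_cases hv : KP v
    · obtain ⟨t0, e1, e2⟩ := hK v hv
      obtain ⟨k, n, e3⟩ := tkA_ex62 G hG O c f e2
      exact ⟨(t0, (k, n)), fun _ => ⟨e1, e2, e3⟩⟩
    · exact ⟨((v, v), ((v, v), 0)), fun h => absurd h hv⟩
  have h2 : ∀ v, ∃ x : (V × V) × ((V × V) × ℕ), KP v →
      x.1.1 = v ∧ St62 G opp g m p q x.1 ∧ TkB G al F opp g m s s' p q x.1 x.2.1 x.2.2 := by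
    intro v
    by_cases hv : KP v
    · obtain ⟨t0, e1, e2⟩ := hK v hv
      obtain ⟨k, n, e3⟩ := tkB_ex62 G hG O c f e2
      exact ⟨(t0, (k, n)), fun _ => ⟨e1, e2, e3⟩⟩
    · exact ⟨((v, v), ((v, v), 0)), fun h => absurd h hv⟩
  choose A hA using h1
  choose B hB using h2
  refine ⟨fun v => (A v).2, fun v => (B v).2, ?_, ?_, ?_⟩
  · intro v hv h
    obtain ⟨a1, a2, a3⟩ := hA v hv
    obtain ⟨b1, b2, b3⟩ := hB v hv
    dsimp only at h
    rw [← h] at b3
    exact tkAB62 G hG O c hlow hm hsum f a2 b2 a3 b3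
  · intro v hv t ht
    rcases ht with h | h <;> dsimp only at h
    · obtain ⟨a1, a2, a3⟩ := hA v hv
      rw [← h] at a3
      obtain ⟨c1, c2, c3, c4, c5⟩ := tkA_fact62 G hG O c hlow hm f a2 a3
      refine ⟨c1, c2, c3, c4, ?_⟩
      rcases c5 with ⟨d1, d2, d3⟩ | ⟨d1, d2, d3, d4⟩ | ⟨d1, d2⟩
      · exact ⟨by omega, fun h' => by omega, fun _ h' => absurd h' d3, fun h' => by omega⟩
      · exact ⟨by omega, fun h' => by omega, fun h' => by omega, fun _ _ => d4⟩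
      · exact ⟨by omega, fun _ => d2, fun h' => by omega, fun h' => by omega⟩
    · obtain ⟨a1, a2, a3⟩ := hB v hv
      rw [← h] at a3
      obtain ⟨c1, c2, c3, c4, c5⟩ := tkB_fact62 G hG O c hlow hm f a2 a3
      refine ⟨c1, c2, c3, c4, ?_⟩
      rcases c5 with ⟨d1, d2, d3⟩ | ⟨d1, d2, d3, d4⟩ | ⟨d1, d2⟩
      · exact ⟨by omega, fun h' => by omega, fun h' => by omega, fun _ h' => absurd h' d3⟩
      · exact ⟨by omega, fun h' => by omega, fun _ _ => d4, fun h' => by omega⟩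
      · exact ⟨by omega, fun _ => d2, fun h' => by omega, fun h' => by omega⟩
  · intro v w hv hw t ht ht'
    obtain ⟨a1, a2, a3⟩ := hA v hv
    obtain ⟨b1, b2, b3⟩ := hB v hv
    obtain ⟨c1, c2, c3⟩ := hA w hw
    obtain ⟨d1, d2, d3⟩ := hB w hw
    rcases ht with h | h <;> rcases ht' with h' | h' <;> dsimp only at h h'
    · rw [← h] at a3
      rw [← h'] at c3
      rw [← a1, ← c1, tkA_uniq62 G hG O c hlow hm a2 c2 a3 c3]
    · rw [← h] at a3
      rw [← h'] at d3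
      exact absurd (tkAB62 G hG O c hlow hm hsum f a2 d2 a3 d3) id
    · rw [← h] at b3
      rw [← h'] at c3
      exact absurd (tkAB62 G hG O c hlow hm hsum f c2 b2 c3 b3) id
    · rw [← h] at b3
      rw [← h'] at d3
      rw [← b1, ← d1, tkB_uniq62 G hG O c hlow hm b2 d2 b3 d3]

end

section
variable {V : Type} (G : Tg V) {al : ℝ} {kp : V → V → ℝ} {U : ℕ → ℝ}
variable {Q : ℝ} {opp : ℝ → ℝ} {g : ℕ → ℝ} {m : ℕ} {s s' p q : V × V → V × V}

/-- a tight tip followed by three contact triangles -/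
theorem tfan62 (hG : G.Geo4 al kp U) (O : Or62 G opp s s' p q) (c : Ch62 al Q opp g 1)
    {F : V × V → Prop} (f : Fc62 G Q opp g 1 F) {k : V × V} (hk : k ∈ iJ G)
    (rk : RC G (G.cl k)) (ht : TH G k = g 1) (hT : Tight62 G al F k)
    (hq : ∀ j, j < 3 → q^[j + 1] k ∈ iJ G ∧ G.cI (G.cl (q^[j + 1] k)) = ∅) :
    p k ∈ iJ G ∧ RC G (G.cl (p k)) ∧ TH G (p k) = opp (g 0) := by
  obtain ⟨o1, o2, o3⟩ := orb62 G O hk rk hq
  obtain ⟨hB, hF⟩ := hT
  have hN := hB.1
  have hpk := (O.N k hk hN).1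
  have hpJ : p k ∈ Jv G k.1 := (mem_Jv51 G).2 ⟨hpk, O.pf _ hk hpk⟩
  have hqp := O.pq _ hk hpk
  have hkJ : k ∈ Jv G k.1 := (mem_Jv51 G).2 ⟨hk, rfl⟩
  have hnRT : ∀ x : V × V, G.cI (G.cl x) = ∅ → ¬ RC G (G.cl x) := fun x h1 h2 => RC_ne51 G h2 h1
  rcases c0_62 G hG c f hB hkJ rk le_rfl ht hF with ⟨h0, _⟩ | ⟨i, hi, y, hy, hyk, ry, hyt, h3, hall⟩
  · omega
  have hi0 : i = 0 := by omega
  subst hi0
  have hyJ := (mem_Jv51 G).1 hy
  have hpy : p k = y := by
    by_contra hne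
    by_cases hpk' : p k = k
    · have h4 : ∀ x ∈ ({k} : Finset (V × V)), x ∈ iJ G ∧ x.1 = k.1 ∧
          p x ∈ ({k} : Finset (V × V)) := by
        intro x hx
        rw [Finset.mem_singleton] at hx
        subst hx
        exact ⟨hk, rfl, by rw [hpk']; exact Finset.mem_singleton_self _⟩
      have h5 := (O.cyc k.1 {k} ⟨k, Finset.mem_singleton_self _⟩ h4).2 y hyJ.1 hyJ.2
      exact hyk (Finset.mem_singleton.1 h5)
    · have hTp := hall _ hpJ hpk' hne
      obtain ⟨S, hS⟩ : ∃ S, S = (Finset.range 3).image (fun j => q^[j + 1] k) := ⟨_, rfl⟩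
      obtain ⟨JT, hJT⟩ : ∃ JT, JT = (Jv G k.1).filter (fun x => ¬ RC G (G.cl x)) := ⟨_, rfl⟩
      rw [← hJT] at h3
      have hSc : S.card = 3 := by
        rw [hS, Finset.card_image_of_injOn, Finset.card_range]
        intro a ha b hb h
        have := Finset.mem_range.1 (Finset.mem_coe.1 ha)
        have := Finset.mem_range.1 (Finset.mem_coe.1 hb)
        have := o3 (a + 1) (b + 1) (by omega) (by omega) h
        omega
      have hsub : S ⊆ JT := by
        intro x hx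
        rw [hS, Finset.mem_image] at hx
        obtain ⟨a, ha, rfl⟩ := hx
        have ha' := Finset.mem_range.1 ha
        rw [hJT, Finset.mem_filter]
        exact ⟨o1 (a + 1) (by omega), hnRT _ (hq a ha').2⟩
      have heq := Finset.eq_of_subset_of_card_le hsub (by omega)
      have hpT : p k ∈ S := by
        rw [heq, hJT, Finset.mem_filter]
        exact ⟨hpJ, hnRT _ hTp⟩
      rw [hS, Finset.mem_image] at hpT
      obtain ⟨a, ha, hak⟩ := hpT
      have ha' := Finset.mem_range.1 ha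
      rcases Nat.lt_or_ge a 2 with hlt | hge
      · have h5 : q^[a + 1 + 1] k = k := by
          rw [Function.iterate_succ_apply', hak, hqp]
        have h6 := (hq (a + 1) (by omega)).2
        rw [h5] at h6
        exact hnRT _ h6 rk
      · have ha2 : a = 2 := by omega
        subst ha2
        obtain ⟨S', hS'⟩ : ∃ S', S' = (Finset.range 4).image (fun j => q^[j] k) := ⟨_, rfl⟩
        have hmS : ∀ x, x ∈ S' ↔ ∃ j, j ≤ 3 ∧ q^[j] k = x := by
          intro x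
          rw [hS', Finset.mem_image]
          constructor
          · rintro ⟨j, hj, h⟩
            exact ⟨j, by have := Finset.mem_range.1 hj; omega, h⟩
          · rintro ⟨j, hj, h⟩
            exact ⟨j, Finset.mem_range.2 (by omega), h⟩
        have hcl : ∀ x ∈ S', x ∈ iJ G ∧ x.1 = k.1 ∧ p x ∈ S' := by
          intro x hx
          obtain ⟨i, hi, rfl⟩ := (hmS x).1 hx
          have hx' := (mem_Jv51 G).1 (o1 i hi)
          refine ⟨hx'.1, hx'.2, ?_⟩
          rcases i with _ | i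
          · exact (hmS _).2 ⟨3, le_rfl, hak⟩
          · rw [o2 i (by omega)]
            exact (hmS _).2 ⟨i, by omega, rfl⟩
        have h5 := (O.cyc k.1 S' ⟨k, (hmS k).2 ⟨0, by omega, rfl⟩⟩ hcl).2 y hyJ.1 hyJ.2
        obtain ⟨j, hj, h6⟩ := (hmS y).1 h5
        rcases j with _ | j
        · exact hyk h6.symm
        · have h7 := (hq j (by omega)).2
          rw [h6] at h7
          exact hnRT _ h7 ry
  rw [hpy]
  exact ⟨hyJ.1, ry, hyt⟩

theorem tkC_ex62 (hG : G.Geo4 al kp U) (O : Or62 G opp s s' p q) (c : Ch62 al Q opp g 1)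
    {F : V × V → Prop} (f : Fc62 G Q opp g 1 F) {t0 : V × V} (h : St62 G opp g 1 p q t0) :
    ∃ k n, TkC G al F opp g s s' p q t0 k n := by
  rcases walk62' G hG O c f h.a with ⟨k, n, h1⟩ | h1
  · exact ⟨k, n, Or.inl h1⟩
  · by_cases hT : Tight62 G al F (s (q t0))
    · exact ⟨_, 0, Or.inr (Or.inr ⟨h1, hT, rfl, rfl⟩)⟩
    · exact ⟨_, 1, Or.inr (Or.inl ⟨h1, hT, rfl, rfl⟩)⟩

/-- the second kind of token at a failing walk -/
theorem tkC_t62 (hG : G.Geo4 al kp U) (O : Or62 G opp s s' p q) (c : Ch62 al Q opp g 1)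
    {F : V × V → Prop} (f : Fc62 G Q opp g 1 F) {t0 : V × V} (h : St62 G opp g 1 p q t0)
    (h1 : Fl62 G 1 s' q t0) (h2 : Tight62 G al F (s (q t0))) :
    s' (p (s (q t0))) ∈ iJ G ∧ RC G (G.cl (s' (p (s (q t0))))) ∧
      TH G (s' (p (s (q t0)))) = g 0 ∧ p (s' (p (s (q t0)))) = s (s (q t0)) ∧
      s (s (q t0)) ∈ iJ G ∧ RC G (G.cl (s (s (q t0)))) ∧ TH G (s (s (q t0))) = opp (g 1) ∧
      s' (p (s' (p (s (q t0))))) = s (q t0) ∧ ¬ Tight62 G al F (s' (p (s (q t0)))) := by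
  obtain ⟨e1, e2, e3, e4, e5⟩ := k0_62 G O c h
  obtain ⟨b1, b2, b3⟩ := tfan62 G hG O c f e1 e2 e3 h2 (by
    intro j hj
    rw [Function.iterate_succ_apply, e4]
    exact h1 j (by omega))
  obtain ⟨k, hk⟩ : ∃ k, k = s (q t0) := ⟨_, rfl⟩
  rw [← hk] at e1 e2 e3 b1 b2 b3 ⊢
  have c1 := O.s2 _ b1
  have c2 : RC G (G.cl (s' (p k))) := by
    rw [O.s2c _ b1]
    exact b2
  have c3 : TH G (s' (p k)) = g 0 := by
    rw [O.o2 _ b1 b2, b3, c.goo (by omega)]
  have c4 := O.ps _ e1 b1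
  have c5 := O.s1 _ e1
  have c6 : RC G (G.cl (s k)) := by
    rw [O.s1c _ e1]
    exact e2
  have c7 : TH G (s k) = opp (g 1) := by
    rw [O.o1 _ e1 e2, e3]
  refine ⟨c1, c2, c3, c4, c5, c6, c7, by rw [c4]; exact O.s12 _ e1, ?_⟩
  rintro ⟨hB, _⟩
  refine c2_62 G hG c hB ((mem_Jv51 G).2 ⟨c1, rfl⟩) (y := s k) ((mem_Jv51 G).2 ⟨c5, ?_⟩) ?_
    c2 c6 (j := 0) (by omega) c3 c7
  · rw [← c4]
    exact O.pf _ c1 (by rw [c4]; exact c5)
  · intro hh
    rw [hh, c7] at c3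
    have := c.gm (j := 0) (by omega)
    have := c.bQ (j := 1) (by omega)
    linarith

theorem tkC_fact62 (hG : G.Geo4 al kp U) (O : Or62 G opp s s' p q) (c : Ch62 al Q opp g 1)
    {F : V × V → Prop} (f : Fc62 G Q opp g 1 F) {t0 : V × V} (h : St62 G opp g 1 p q t0)
    {k : V × V} {n : ℕ} (hk : TkC G al F opp g s s' p q t0 k n) :
    k ∈ iJ G ∧ RC G (G.cl k) ∧ (∃ j, j ≤ 1 ∧ TH G k = g j) ∧ ¬ Tight62 G al F k ∧
    n ≤ 1 ∧ (n = 0 → RC G (G.cl (p k)) → ¬ F (p k)) ∧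
        (n = 1 → RC G (G.cl (q k)) → ¬ F (q k)) := by
  obtain ⟨e1, e2, e3, e4, e5⟩ := k0_62 G O c h
  rcases hk with hk | ⟨h1, h2, rfl, rfl⟩ | ⟨h1, h2, rfl, rfl⟩
  · obtain ⟨c1, c2, c3, c4, c5⟩ := cl_fact62 G hG O c h.1 h.2.2.2.2.2.1 h.2.2.2.2.2.2.1 e3.ge
      (by rw [e3]; exact c.gQ.le) hk
    refine ⟨c1, c2, c3, c4, ?_⟩
    rcases c5 with ⟨a1, a2, a3⟩ | ⟨a1, a2, a3, j, a4, a5⟩
    · exact ⟨by omega, fun _ h => absurd a3 (RC_ne51 G h), fun h' => by omega⟩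
    · refine ⟨by omega, fun h' => by omega, fun _ _ => ?_⟩
      exact (f.hi _ a2 a3 (by rw [a5]; exact c.bQ a4)).2 ⟨j, a4, a5⟩
  · refine ⟨e1, e2, ⟨1, le_rfl, e3⟩, h2, le_rfl, fun h' => by omega, fun _ h' => ?_⟩
    rw [e4, O.s2c _ h.1] at h'
    exact absurd h.2.1 (RC_ne51 G h')
  · obtain ⟨c1, c2, c3, c4, c5, c6, c7, c8, c9⟩ := tkC_t62 G hG O c f h h1 h2
    refine ⟨c1, c2, ⟨0, Nat.zero_le _, c3⟩, c9, Nat.zero_le _, fun _ _ => ?_, fun h' => by omega⟩
    rw [c4]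
    exact (f.hi _ c5 c6 (by rw [c7]; exact c.bQ le_rfl)).2 ⟨1, le_rfl, c7⟩

theorem tkC_uniq62 (hG : G.Geo4 al kp U) (O : Or62 G opp s s' p q) (c : Ch62 al Q opp g 1)
    {F : V × V → Prop} (f : Fc62 G Q opp g 1 F) {t0 t1 : V × V} (h : St62 G opp g 1 p q t0)
    (h' : St62 G opp g 1 p q t1) {k : V × V} {n : ℕ}
    (hk : TkC G al F opp g s s' p q t0 k n) (hk' : TkC G al F opp g s s' p q t1 k n) :
    t0 = t1 := by
  have key : ∀ t0 t1 : V × V, St62 G opp g 1 p q t0 → St62 G opp g 1 p q t1 →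
      Cl62 G al F opp g 1 s s' p q t0 k n →
      ((Fl62 G 1 s' q t1 ∧ ¬ Tight62 G al F (s (q t1)) ∧ k = s (q t1) ∧ n = 1) ∨
      (Fl62 G 1 s' q t1 ∧ Tight62 G al F (s (q t1)) ∧ k = s' (p (s (q t1))) ∧ n = 0)) →
      False := by
    intro t0 t1 h h' hk hk'
    obtain ⟨e1, e2, e3, e4, e5⟩ := k0_62 G O c h
    obtain ⟨f1, f2, f3, f4, f5⟩ := k0_62 G O c h'
    obtain ⟨c1, c2, c3, c4, c5⟩ := cl_fact62 G hG O c h.1 h.2.2.2.2.2.1 h.2.2.2.2.2.2.1 e3.ge
      (by rw [e3]; exact c.gQ.le) hk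
    rcases hk' with ⟨a1, a2, a3, a4⟩ | ⟨a1, a2, a3, a4⟩
    · rcases c5 with ⟨b1, b2, b3⟩ | ⟨b1, b2, b3, b4⟩
      · omega
      · rw [a3, f4, O.s2c _ h'.1] at b3
        exact RC_ne51 G b3 h'.2.1
    · rcases c5 with ⟨b1, b2, b3⟩ | ⟨b1, b2, b3, b4⟩
      · obtain ⟨d1, d2, d3, d4, d5, d6, _⟩ := tkC_t62 G hG O c f h' a1 a2
        rw [a3, d4] at b3
        exact RC_ne51 G d6 b3
      · omega
  rcases hk with hk | hk <;> rcases hk' with hk' | hk'
  · exact cl_uniq62 G O c hk hk'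
  · exact absurd (key t0 t1 h h' hk hk') id
  · exact absurd (key t1 t0 h' h hk' hk) id
  · have h0 : s (q t0) = s (q t1) := by
      rcases hk with ⟨a1, a2, a3, a4⟩ | ⟨a1, a2, a3, a4⟩ <;>
        rcases hk' with ⟨b1, b2, b3, b4⟩ | ⟨b1, b2, b3, b4⟩
      · exact a3.symm.trans b3
      · omega
      · omega
      · obtain ⟨_, _, _, _, _, _, _, d8, _⟩ := tkC_t62 G hG O c f h a1 a2
        obtain ⟨_, _, _, _, _, _, _, e8, _⟩ := tkC_t62 G hG O c f h' b1 b2
        rw [← d8, ← e8, ← a3, ← b3]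
    rw [← (k0_62 G O c h).2.2.2.2, ← (k0_62 G O c h').2.2.2.2, h0]

/-- **one token** for every point with two large obtuse corners, `m = 1` -/
theorem token1_62 (hG : G.Geo4 al kp U) (O : Or62 G opp s s' p q) (c : Ch62 al Q opp g 1)
    {F : V × V → Prop} (f : Fc62 G Q opp g 1 F) (KP : V → Prop)
    (hK : ∀ v, KP v → ∃ t0, t0.1 = v ∧ St62 G opp g 1 p q t0) :
    ∃ a : V → (V × V) × ℕ,
      (∀ v, KP v →
        (a v).1 ∈ iJ G ∧ RC G (G.cl (a v).1) ∧ (∃ j, j ≤ 1 ∧ TH G (a v).1 = g j) ∧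
        ¬ Tight62 G al F (a v).1 ∧ (a v).2 ≤ 1 ∧
        ((a v).2 = 0 → RC G (G.cl (p (a v).1)) → ¬ F (p (a v).1)) ∧
        ((a v).2 = 1 → RC G (G.cl (q (a v).1)) → ¬ F (q (a v).1))) ∧
      (∀ v w, KP v → KP w → a v = a w → v = w) := by
  have h1 : ∀ v, ∃ x : (V × V) × ((V × V) × ℕ), KP v →
      x.1.1 = v ∧ St62 G opp g 1 p q x.1 ∧ TkC G al F opp g s s' p q x.1 x.2.1 x.2.2 := by
    intro v
    by_cases hv : KP v
    · obtain ⟨t0, e1, e2⟩ := hK v hv
      obtain ⟨k, n, e3⟩ := tkC_ex62 G hG O c f e2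
      exact ⟨(t0, (k, n)), fun _ => ⟨e1, e2, e3⟩⟩
    · exact ⟨((v, v), ((v, v), 0)), fun h => absurd h hv⟩
  choose A hA using h1
  refine ⟨fun v => (A v).2, ?_, ?_⟩
  · intro v hv
    obtain ⟨a1, a2, a3⟩ := hA v hv
    exact tkC_fact62 G hG O c f a2 a3
  · intro v w hv hw h
    obtain ⟨a1, a2, a3⟩ := hA v hv
    obtain ⟨c1, c2, c3⟩ := hA w hw
    dsimp only at h
    rw [h] at a3
    rw [← a1, ← c1, tkC_uniq62 G hG O c f a2 c2 a3 c3]

end

end

end Pool.Agent.PEN.W4
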