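import Pool.Agent.P4.W4Tk62
import Pool.Agent.P4.Tk89b

/-! # PENNY, token rows over `Geo4` (copies of Tk89a, Tk89b) -/

set_option autoImplicit false

namespace Pool.Agent.PEN.W4

open Classical UpperHalfPlane

noncomputable section

section
variable {V : Type} (G : Tg V) {al : ℝ} {kp : V → V → ℝ} {U : ℕ → ℝ}
variable {Q : ℝ} {opp : ℝ → ℝ} {g : ℕ → ℝ} {m : ℕ} {s s' p q : V × V → V × V}

theorem J4_89 (hG : G.Geo4 al kp U) {v : V} (hB : B7 G al v) : 4 ≤ (Jv G v).card := by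
  obtain ⟨h7, _⟩ := count62 G hG hB
  have h8 : ((Jv G v).filter (fun x => ¬ RC G (G.cl x))).card +
      ((Jv G v).filter (fun x => RC G (G.cl x))).card = (Jv G v).card := by
    rw [add_comm]
    exact Finset.card_filter_add_card_filter_not (fun x => RC G (G.cl x))
  omega

theorem ne89 {s : V × V → V × V} (hG : G.Geo4 al kp U) (O : Or62 G opp s s' p q) {v : V}
    (hB : B7 G al v) {x : V × V} (hx : x ∈ Jv G v) : p x ≠ x := by
  intro h
  obtain ⟨h1, h2⟩ := (mem_Jv51 G).1 hx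
  have h5 := (O.cyc v {x} ⟨x, Finset.mem_singleton_self _⟩ (by
    intro y hy
    rw [Finset.mem_singleton] at hy
    subst hy
    exact ⟨h1, h2, by rw [h]; exact Finset.mem_singleton_self _⟩)).2
  have h6 : Jv G v ⊆ {x} := fun y hy => h5 y ((mem_Jv51 G).1 hy).1 ((mem_Jv51 G).1 hy).2
  have h7 := Finset.card_le_card h6
  rw [Finset.card_singleton] at h7
  have := J4_89 G hG hB
  omega

/-- `p` and `q` agree nowhere -/
theorem pq89 {s : V × V → V × V} (hG : G.Geo4 al kp U) (O : Or62 G opp s s' p q) {v : V}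
    (hB : B7 G al v) {x : V × V} (hx : x ∈ Jv G v) : p x ≠ q x := by
  intro h
  obtain ⟨h1, h2⟩ := (mem_Jv51 G).1 hx
  obtain ⟨hp, hq⟩ := pJ57 G O hB.1 hx
  have hp' := (mem_Jv51 G).1 hp
  have h3 : p (p x) = x := by
    rw [h]
    exact O.qp _ h1 ((mem_Jv51 G).1 hq).1
  have h5 := (O.cyc v {x, p x} ⟨x, Finset.mem_insert_self _ _⟩ (by
    intro y hy
    rw [Finset.mem_insert, Finset.mem_singleton] at hy
    rcases hy with rfl | rfl
    · exact ⟨h1, h2, Finset.mem_insert_of_mem (Finset.mem_singleton_self _)⟩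
    · exact ⟨hp'.1, hp'.2, by rw [h3]; exact Finset.mem_insert_self _ _⟩)).2
  have h6 : Jv G v ⊆ {x, p x} := fun y hy => h5 y ((mem_Jv51 G).1 hy).1 ((mem_Jv51 G).1 hy).2
  have h7 := Finset.card_le_card h6
  have h8 : ({x, p x} : Finset (V × V)).card ≤ 2 := Finset.card_le_two
  have := J4_89 G hG hB
  omega

/-- the deficient points without a side between two rhombi -/
theorem Kst89 (hG : G.Geo4 al kp U) (O : Or62 G opp s s' p q) (c : Ch62 al Q opp g m)
    (S : Sq89 al Q opp g m) {v : V} (hK : KP57 G al (F89 G Q opp g m) p v) :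
    ∃ t0 ∈ Jv G v, G.cI (G.cl t0) = ∅ ∧ p t0 ∈ Jv G v ∧ q t0 ∈ Jv G v ∧
      RC G (G.cl (p t0)) ∧ RC G (G.cl (q t0)) ∧
      ((TH G (p t0) = opp (g m) ∧ TH G (q t0) = Q) ∨
        (TH G (p t0) = Q ∧ TH G (q t0) = opp (g m))) := by
  have f : Fc62 G Q opp g m (F89 G Q opp g m) := fc89 G
  obtain ⟨hB, hF, hno⟩ := hK
  obtain ⟨h1, h2⟩ := count62 G hG hB
  have hTR := hB.2.2
  obtain ⟨JR, hJR⟩ : ∃ JR, JR = (Jv G v).filter (fun x => RC G (G.cl x)) := ⟨_, rfl⟩
  obtain ⟨JT, hJT⟩ : ∃ JT, JT = (Jv G v).filter (fun x => ¬ RC G (G.cl x)) := ⟨_, rfl⟩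
  have hmR : ∀ x, x ∈ JR ↔ x ∈ Jv G v ∧ RC G (G.cl x) := by
    intro x
    rw [hJR, Finset.mem_filter]
  have hmT : ∀ x, x ∈ JT ↔ x ∈ Jv G v ∧ ¬ RC G (G.cl x) := by
    intro x
    rw [hJT, Finset.mem_filter]
  rw [← hJR, ← hJT] at h1 h2
  have hpT : ∀ x ∈ JR, p x ∈ JT := by
    intro x hx
    obtain ⟨h3, h4⟩ := (hmR x).1 hx
    exact (hmT _).2 ⟨(pJ57 G O hB.1 h3).1, hno x h3 h4⟩
  have hqT : ∀ x ∈ JR, q x ∈ JT := by
    intro x hx
    obtain ⟨h3, h4⟩ := (hmR x).1 hx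
    have h5 := (pJ57 G O hB.1 h3).2
    refine (hmT _).2 ⟨h5, fun h6 => hno _ h5 h6 ?_⟩
    rw [O.qp _ ((mem_Jv51 G).1 h3).1 ((mem_Jv51 G).1 h5).1]
    exact h4
  have hqp : ∀ x ∈ Jv G v, q (p x) = x := fun x hx =>
    O.pq _ ((mem_Jv51 G).1 hx).1 ((mem_Jv51 G).1 (pJ57 G O hB.1 hx).1).1
  have hpq : ∀ x ∈ Jv G v, p (q x) = x := fun x hx =>
    O.qp _ ((mem_Jv51 G).1 hx).1 ((mem_Jv51 G).1 (pJ57 G O hB.1 hx).2).1
  have hle : JR.card ≤ JT.card := by
    apply Finset.card_le_card_of_injOn p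
    · intro x hx
      exact Finset.mem_coe.2 (hpT x (Finset.mem_coe.1 hx))
    · intro x hx y hy h
      rw [← hqp x ((hmR x).1 (Finset.mem_coe.1 hx)).1, h,
        hqp y ((hmR y).1 (Finset.mem_coe.1 hy)).1]
  have hcases : JR.card = 0 ∨ JR.card = 1 ∨ JR.card = 2 := by omega
  rcases hcases with h0 | h0 | h0
  · exfalso
    have h3 : JT.card = 7 := by omega
    rw [Finset.card_eq_zero] at h0
    rw [h3, h0, Finset.sum_empty] at h2
    push_cast at h2
    linarith [c.al7]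
  · exfalso
    obtain ⟨x, hx⟩ := Finset.card_eq_one.1 h0
    have h3 : JT.card = 5 := by omega
    rw [h3, hx, Finset.sum_singleton] at h2
    push_cast at h2
    have hxR := (hmR x).1 (by rw [hx]; exact Finset.mem_singleton_self x)
    have h4 : TH G x = g 0 := by
      rw [c.g0]
      linarith
    apply hF x hxR.1 hxR.2
    rw [f.lo x ((mem_Jv51 G).1 hxR.1).1 hxR.2 (by rw [h4]; exact c.gm (Nat.zero_le _))]
    exact ⟨0, Nat.zero_le _, h4⟩
  · obtain ⟨x, y, hxy, hJe⟩ := Finset.card_eq_two.1 h0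
    have h3 : JT.card = 3 := by omega
    rw [h3, hJe, Finset.sum_pair hxy] at h2
    push_cast at h2
    have hxR' : x ∈ JR := by
      rw [hJe]
      exact Finset.mem_insert_self _ _
    have hyR' : y ∈ JR := by
      rw [hJe]
      exact Finset.mem_insert_of_mem (Finset.mem_singleton_self _)
    have hxR := (hmR x).1 hxR'
    have hyR := (hmR y).1 hyR'
    have key : ∀ a b : V × V, a ∈ Jv G v → b ∈ Jv G v → a ≠ b → RC G (G.cl a) → RC G (G.cl b) →
        TH G a + TH G b = 2 * Real.pi - 3 * al → TH G a ≤ TH G b →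
        TH G a = Q ∧ TH G b = opp (g m) := by
      intro a b ha hb hab ra rb hs hle
      have hbQ : Q < TH G b := by
        by_contra h
        push Not at h
        exact c1_62 G hG c hB ha hb hab ra rb (hle.trans h) h
      obtain ⟨j, hj, hbj⟩ := (f.hi b ((mem_Jv51 G).1 hb).1 rb hbQ).1 (hF b hb rb)
      have hlo : ∀ k, k ≤ m → opp (g m) ≤ opp (g k) := by
        intro k hk
        rcases Nat.eq_or_lt_of_le hk with rfl | hlt
        · exact le_rfl
        · exact (c.banti hlt le_rfl).le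
      have haQ : TH G a ≤ Q := by
        by_contra h
        push Not at h
        obtain ⟨i, hi, hai⟩ := (f.hi a ((mem_Jv51 G).1 ha).1 ra h).1 (hF a ha ra)
        have h5 := hlo i hi
        have h6 := hlo j hj
        have h7 := S.hsq
        have h8 := c.Qb
        rw [hai, hbj] at hs
        linarith
      rcases Nat.eq_or_lt_of_le hj with rfl | hlt
      · have h7 := S.hsq
        exact ⟨by linarith, hbj⟩
      · exfalso
        have h5 := c.gs j hlt
        have h6 : TH G a = g (j + 1) := by linarith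
        apply hF a ha ra
        rw [f.lo a ((mem_Jv51 G).1 ha).1 ra (by rw [h6]; exact c.gm hlt)]
        exact ⟨j + 1, hlt, h6⟩
    have hxy2 : (TH G x = Q ∧ TH G y = opp (g m)) ∨ (TH G y = Q ∧ TH G x = opp (g m)) := by
      rcases le_total (TH G x) (TH G y) with h | h
      · exact Or.inl (key x y hxR.1 hyR.1 hxy hxR.2 hyR.2 (by linarith) h)
      · exact Or.inr (key y x hyR.1 hxR.1 hxy.symm hyR.2 hxR.2 (by linarith) h)
    have hmeet : ¬ Disjoint (JR.image p) (JR.image q) := by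
      intro hd
      have h5 : (JR.image p).card = 2 := by
        rw [Finset.card_image_of_injOn, h0]
        intro a ha b hb h
        rw [← hqp a ((hmR a).1 (Finset.mem_coe.1 ha)).1, h,
          hqp b ((hmR b).1 (Finset.mem_coe.1 hb)).1]
      have h6 : (JR.image q).card = 2 := by
        rw [Finset.card_image_of_injOn, h0]
        intro a ha b hb h
        rw [← hpq a ((hmR a).1 (Finset.mem_coe.1 ha)).1, h,
          hpq b ((hmR b).1 (Finset.mem_coe.1 hb)).1]
      have h7 : JR.image p ∪ JR.image q ⊆ JT := by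
        intro z hz
        rw [Finset.mem_union] at hz
        rcases hz with hz | hz
        · obtain ⟨a, ha, rfl⟩ := Finset.mem_image.1 hz
          exact hpT a ha
        · obtain ⟨a, ha, rfl⟩ := Finset.mem_image.1 hz
          exact hqT a ha
      have h8 := Finset.card_le_card h7
      rw [Finset.card_union_of_disjoint hd] at h8
      omega
    rw [Finset.not_disjoint_iff] at hmeet
    obtain ⟨t, ht1, ht2⟩ := hmeet
    obtain ⟨a, ha, hat⟩ := Finset.mem_image.1 ht1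
    obtain ⟨b, hb, hbt⟩ := Finset.mem_image.1 ht2
    have haJ := (hmR a).1 ha
    have hbJ := (hmR b).1 hb
    have htT := hpT a ha
    rw [hat] at htT
    have e1 : q t = a := by
      rw [← hat]
      exact hqp a haJ.1
    have e2 : p t = b := by
      rw [← hbt]
      exact hpq b hbJ.1
    have htJ := ((hmT t).1 htT).1
    have hab : b ≠ a := by
      intro h
      apply pq89 G hG O hB htJ
      rw [e1, e2, h]
    refine ⟨t, htJ, (hTR t htJ).resolve_right ((hmT t).1 htT).2, ?_, ?_, ?_, ?_, ?_⟩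
    · rw [e2]
      exact hbJ.1
    · rw [e1]
      exact haJ.1
    · rw [e2]
      exact hbJ.2
    · rw [e1]
      exact haJ.2
    · rw [e1, e2]
      rw [hJe, Finset.mem_insert, Finset.mem_singleton] at ha hb
      rcases ha with rfl | rfl <;> rcases hb with rfl | rfl
      · exact absurd rfl hab
      · rcases hxy2 with ⟨h3, h4⟩ | ⟨h3, h4⟩
        · exact Or.inl ⟨h4, h3⟩
        · exact Or.inr ⟨h3, h4⟩
      · rcases hxy2 with ⟨h3, h4⟩ | ⟨h3, h4⟩
        · exact Or.inr ⟨h3, h4⟩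
        · exact Or.inl ⟨h4, h3⟩
      · exact absurd rfl hab

/-- a side between two rhombi at a deficient point ends at a point without seven units -/
theorem zb89 (hG : G.Geo4 al kp U) (O : Or62 G opp (sg G) s' p q)
    (c : Ch62 al Q opp g m) (S : Sq89 al Q opp g m)
    (hlow : ∀ x ∈ iJ G, RC G (G.cl x) → al ≤ TH G x ∧ TH G x ≤ 2 * al)
    {v : V} (hD : Df57 G al (F89 G Q opp g m) v) {x : V × V} (hx : x ∈ Jv G v)
    (rx : RC G (G.cl x)) (rp : RC G (G.cl (p x))) :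
    s' (p x) ∈ iJ G ∧ sg G x ∈ iJ G ∧ RC G (G.cl (s' (p x))) ∧ RC G (G.cl (sg G x)) ∧
      (TH G (p x) ≠ Q → F89 G Q opp g m (s' (p x))) ∧
      (TH G x ≠ Q → F89 G Q opp g m (sg G x)) ∧
      (F89 G Q opp g m (sg G x) ∨ TH G (sg G x) = Q) ∧
      (F89 G Q opp g m (s' (p x)) ∨ TH G (s' (p x)) = Q) ∧
      (TH G x ≠ Q ∨ TH G (p x) ≠ Q) ∧
      (s' (p x)).1 = (sg G x).1 ∧ p (s' (p x)) = sg G x ∧
      q (sg G x) = s' (p x) ∧ ¬ B7 G al (sg G x).1 := by
  have f : Fc62 G Q opp g m (F89 G Q opp g m) := fc89 G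
  obtain ⟨hB, hnF⟩ := hD
  obtain ⟨hpJ, hqJ⟩ := pJ57 G O hB.1 hx
  have ix := ((mem_Jv51 G).1 hx).1
  have ip := ((mem_Jv51 G).1 hpJ).1
  have ia := O.s2 _ ip
  have ib := O.s1 _ ix
  have ra : RC G (G.cl (s' (p x))) := by
    rw [O.s2c _ ip]
    exact rp
  have rb : RC G (G.cl (sg G x)) := by
    rw [O.s1c _ ix]
    exact rx
  have e1 : p (s' (p x)) = sg G x := O.ps _ ix ip
  have e2 : q (sg G x) = s' (p x) := by
    rw [← e1]
    exact O.pq _ ia (by rw [e1]; exact ib)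
  have e3 : (s' (p x)).1 = (sg G x).1 := by
    rw [← e1]
    exact (O.pf _ ia (by rw [e1]; exact ib)).symm
  have tb : TH G (sg G x) = opp (TH G x) := O.o1 _ ix rx
  have ta : TH G (s' (p x)) = opp (TH G (p x)) := O.o2 _ ip rp
  have fa : TH G (p x) ≠ Q → F89 G Q opp g m (s' (p x)) := by
    intro h
    have h1 := alt89 G O.mirror c S hlow ip rp h
    exact h1.2.2 (hnF _ hpJ rp)
  have fb : TH G x ≠ Q → F89 G Q opp g m (sg G x) := by
    intro h
    have h1 := alt89 G O c S hlow ix rx h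
    exact h1.2.2 (hnF _ hx rx)
  have hxp : x ≠ p x := (ne89 G hG O hB hx).symm
  refine ⟨ia, ib, ra, rb, fa, fb, ?_, ?_, ?_, e3, e1, e2, fun hBu => ?_⟩
  · by_cases h : TH G x = Q
    · right
      rw [tb, h, S.hQQ]
    · exact Or.inl (fb h)
  · by_cases h : TH G (p x) = Q
    · right
      rw [ta, h, S.hQQ]
    · exact Or.inl (fa h)
  · by_contra h
    push Not at h
    exact c1_62 G hG c hB hx hpJ hxp rx rp h.1.le h.2.le
  have haJ : s' (p x) ∈ Jv G (sg G x).1 := (mem_Jv51 G).2 ⟨ia, e3⟩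
  have hbJ : sg G x ∈ Jv G (sg G x).1 := (mem_Jv51 G).2 ⟨ib, rfl⟩
  have hab : s' (p x) ≠ sg G x := by
    intro h
    apply ne89 G hG O hBu haJ
    rw [e1, h]
  have hend : 2 * Real.pi - 3 * al - opp (g m) = Q := by
    have := S.hsq
    linarith
  rcases lt_trichotomy (TH G x) Q with h1 | h1 | h1
  · rcases le_or_gt (TH G (p x)) Q with h2 | h2
    · exact c1_62 G hG c hB hx hpJ hxp rx rp h1.le h2
    · obtain ⟨k, hk, hkt⟩ := (f.hi _ ip rp h2).1 (hnF _ hpJ rp)
      have h3 := two62 G hG hB hx hpJ hxp rx rp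
      have h4 := two62 G hG hBu hbJ haJ hab.symm rb ra
      rw [tb, ta, hkt, c.goo hk] at h4
      rw [hkt] at h3
      exact c.nz hk (fun h => absurd h1 (not_lt.2 (by linarith))) h1.le h3 h4
  · rcases le_or_gt (TH G (p x)) Q with h2 | h2
    · exact c1_62 G hG c hB hx hpJ hxp rx rp h1.le h2
    · obtain ⟨k, hk, hkt⟩ := (f.hi _ ip rp h2).1 (hnF _ hpJ rp)
      apply c1_62 G hG c hBu haJ hbJ hab ra rb
      · rw [ta, hkt, c.goo hk]
        exact (c.gm hk).le
      · rw [tb, h1, S.hQQ]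
  · obtain ⟨k, hk, hkt⟩ := (f.hi _ ix rx h1).1 (hnF _ hx rx)
    rcases lt_trichotomy (TH G (p x)) Q with h2 | h2 | h2
    · have h3 := two62 G hG hB hpJ hx hxp.symm rp rx
      have h4 := two62 G hG hBu haJ hbJ hab ra rb
      rw [tb, ta, hkt, c.goo hk] at h4
      rw [hkt] at h3
      exact c.nz hk (fun h => absurd h2 (not_lt.2 (by linarith))) h2.le h3 h4
    · apply c1_62 G hG c hBu haJ hbJ hab ra rb
      · rw [ta, h2, S.hQQ]
      · rw [tb, hkt, c.goo hk]
        exact (c.gm hk).le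
    · obtain ⟨l, hl, hlt⟩ := (f.hi _ ip rp h2).1 (hnF _ hpJ rp)
      apply c1_62 G hG c hBu haJ hbJ hab ra rb
      · rw [ta, hlt, c.goo hl]
        exact (c.gm hl).le
      · rw [tb, hkt, c.goo hk]
        exact (c.gm hk).le

/-- four steps around a rhombus -/
theorem R4_89 (hG : G.Geo4 al kp U) (hR : Rf G al opp) (O : Or62 G opp (sg G) s' p q)
    {x : V × V} (hx : x ∈ iJ G) (rx : RC G (G.cl x)) :
    sg G (sg G x) = s' (s' x) := by
  have hC := cl_iJ71 G hx
  have hcJ : ∀ y, y ∈ G.cJ (G.cl x) ↔ y ∈ iJ G ∧ G.cl y = G.cl x := by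
    intro y
    rw [← iJ_fiber71 G hC, Finset.mem_filter]
  have key : ∀ F : V × V → Prop, (∀ x ∈ iJ G, RC G (G.cl x) → (F (sg G x) ↔ ¬ F x)) → F x →
      sg G (sg G (sg G (sg G x))) = x := by
    intro F hF hFx
    have h2 := alt51 G hG F hF hC rx
    obtain ⟨a, b, hab, hS⟩ := Finset.card_eq_two.1 h2
    have hm : ∀ y, y ∈ ({a, b} : Finset (V × V)) ↔ y ∈ G.cJ (G.cl x) ∧ F y := by
      intro y
      rw [← hS, Finset.mem_filter]
    have hstep : ∀ y, y ∈ ({a, b} : Finset (V × V)) → sg G (sg G y) ∈ ({a, b} : Finset (V × V)) := by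
      intro y hy
      obtain ⟨h3, h4⟩ := (hm y).1 hy
      obtain ⟨h5, h6⟩ := (hcJ y).1 h3
      have h7 := O.s1 _ h5
      have h8 := O.s1c _ h5
      have h9 := O.s1 _ h7
      have h10 := O.s1c _ h7
      refine (hm _).2 ⟨(hcJ _).2 ⟨h9, h10.trans (h8.trans h6)⟩, ?_⟩
      rw [hF _ h7 (by rw [h8, h6]; exact rx), hF _ h5 (by rw [h6]; exact rx), not_not]
      exact h4
    have hinj : ∀ y z, y ∈ ({a, b} : Finset (V × V)) → z ∈ ({a, b} : Finset (V × V)) →
        sg G (sg G y) = sg G (sg G z) → y = z := by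
      intro y z hy hz h
      have hy1 := ((hcJ y).1 ((hm y).1 hy).1).1
      have hz1 := ((hcJ z).1 ((hm z).1 hz).1).1
      exact sg_inj51 G hG hy1 hz1 (sg_inj51 G hG (O.s1 _ hy1) (O.s1 _ hz1) h)
    have hxS : x ∈ ({a, b} : Finset (V × V)) := (hm x).2 ⟨(hcJ x).2 ⟨hx, rfl⟩, hFx⟩
    have h3 := hstep x hxS
    have h4 := hstep _ h3
    by_contra hne
    have h5 : sg G (sg G x) ≠ x := by
      intro h
      apply hne
      rw [h, h]
    have h6 : sg G (sg G (sg G (sg G x))) ≠ sg G (sg G x) := fun h => h5 (hinj _ _ h3 hxS h)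
    simp only [Finset.mem_insert, Finset.mem_singleton] at hxS h3 h4
    rcases hxS with e1 | e1 <;> rcases h3 with e2 | e2 <;> rcases h4 with e3 | e3
    · exact h5 (e2.trans e1.symm)
    · exact h5 (e2.trans e1.symm)
    · exact hne (e3.trans e1.symm)
    · exact h6 (e3.trans e2.symm)
    · exact h6 (e3.trans e2.symm)
    · exact hne (e3.trans e1.symm)
    · exact h5 (e2.trans e1.symm)
    · exact h5 (e2.trans e1.symm)
  have h4 : sg G (sg G (sg G (sg G x))) = x := by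
    by_cases h : Q51 G x
    · exact key (Q51 G) (fun y hy ry => hR.alt y hy ry) h
    · refine key (fun y => ¬ Q51 G y) (fun y hy ry => ?_) h
      rw [hR.alt y hy ry]
  have i1 := O.s1 _ hx
  have i2 := O.s1 _ i1
  have i3 := O.s1 _ i2
  have e1 := O.s12 _ i3
  rw [h4] at e1
  rw [e1]
  exact (O.s12 _ i2).symm

/-- a square corner followed by `m + 2` contact triangles at a seven unit point -/
theorem fail89 (hG : G.Geo4 al kp U) (O : Or62 G opp s s' p q) (c : Ch62 al Q opp g m)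
    (S : Sq89 al Q opp g m) {k : V × V} (hk : k ∈ iJ G) (rk : RC G (G.cl k)) (ht : TH G k = Q)
    (hB : B7 G al k.1)
    (hT : ∀ j, j < m + 2 → q^[j + 1] k ∈ iJ G ∧ G.cI (G.cl (q^[j + 1] k)) = ∅) :
    m = 1 ∧ p k ∈ iJ G ∧ RC G (G.cl (p k)) ∧ TH G (p k) = opp (g m) := by
  obtain ⟨o1, o2, o3⟩ := orb62 G O hk rk hT
  obtain ⟨h1, h2⟩ := count62 G hG hB
  have hTR := hB.2.2
  have hnRT : ∀ x : V × V, G.cI (G.cl x) = ∅ → ¬ RC G (G.cl x) := fun x h1 h2 => RC_ne51 G h2 h1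
  obtain ⟨JR, hJR⟩ : ∃ JR, JR = (Jv G k.1).filter (fun x => RC G (G.cl x)) := ⟨_, rfl⟩
  obtain ⟨JT, hJT⟩ : ∃ JT, JT = (Jv G k.1).filter (fun x => ¬ RC G (G.cl x)) := ⟨_, rfl⟩
  have hmR : ∀ x, x ∈ JR ↔ x ∈ Jv G k.1 ∧ RC G (G.cl x) := by
    intro x
    rw [hJR, Finset.mem_filter]
  have hmT : ∀ x, x ∈ JT ↔ x ∈ Jv G k.1 ∧ ¬ RC G (G.cl x) := by
    intro x
    rw [hJT, Finset.mem_filter]
  rw [← hJR, ← hJT] at h1 h2
  obtain ⟨S0, hS0⟩ : ∃ S0, S0 = (Finset.range (m + 2)).image (fun j => q^[j + 1] k) := ⟨_, rfl⟩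
  have hS0c : S0.card = m + 2 := by
    rw [hS0, Finset.card_image_of_injOn, Finset.card_range]
    intro a ha b hb h
    have := Finset.mem_range.1 (Finset.mem_coe.1 ha)
    have := Finset.mem_range.1 (Finset.mem_coe.1 hb)
    have := o3 (a + 1) (b + 1) (by omega) (by omega) h
    omega
  have hsub : S0 ⊆ JT := by
    intro x hx
    rw [hS0, Finset.mem_image] at hx
    obtain ⟨a, ha, rfl⟩ := hx
    have ha' := Finset.mem_range.1 ha
    exact (hmT _).2 ⟨o1 (a + 1) (by omega), hnRT _ (hT a ha').2⟩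
  have hc := Finset.card_le_card hsub
  have hkR : k ∈ JR := (hmR k).2 ⟨(mem_Jv51 G).2 ⟨hk, rfl⟩, rk⟩
  have hpos : 0 < JR.card := Finset.card_pos.2 ⟨k, hkR⟩
  have hm := S.hm
  have hcases : JR.card = 1 ∨ JR.card = 2 := by omega
  rcases hcases with h0 | h0
  · exfalso
    obtain ⟨x, hx⟩ := Finset.card_eq_one.1 h0
    have h3 : JT.card = 5 := by omega
    rw [hx, Finset.mem_singleton] at hkR
    rw [h3, hx, Finset.sum_singleton, ← hkR, ht] at h2
    push_cast at h2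
    have := c.g0
    have := c.gm (Nat.zero_le m)
    linarith
  · have h3 : JT.card = 3 := by omega
    have hm1 : m = 1 := by omega
    obtain ⟨x, y, hxy, hJe⟩ := Finset.card_eq_two.1 h0
    obtain ⟨y, hyR, hyk, hyt⟩ : ∃ y ∈ JR, y ≠ k ∧ TH G y = opp (g m) := by
      rw [h3, hJe, Finset.sum_pair hxy] at h2
      push_cast at h2
      have h4 := S.hsq
      rw [hJe, Finset.mem_insert, Finset.mem_singleton] at hkR
      rcases hkR with h5 | h5
      · refine ⟨y, ?_, fun h => hxy (h5.symm.trans h.symm), ?_⟩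
        · rw [hJe]
          exact Finset.mem_insert_of_mem (Finset.mem_singleton_self _)
        · rw [← h5, ht] at h2
          linarith
      · refine ⟨x, ?_, fun h => hxy (h.trans h5), ?_⟩
        · rw [hJe]
          exact Finset.mem_insert_self _ _
        · rw [← h5, ht] at h2
          linarith
    have hkJ := ((hmR k).1 hkR).1
    obtain ⟨hpJ, hqJ⟩ := pJ57 G O hB.1 hkJ
    have hyJ := (hmR y).1 hyR
    have hpy : p k = y := by
      by_contra hne
      obtain ⟨S', hS'⟩ : ∃ S', S' = (Finset.range (m + 3)).image (fun j => q^[j] k) := ⟨_, rfl⟩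
      have hmS : ∀ x, x ∈ S' ↔ ∃ j, j ≤ m + 2 ∧ q^[j] k = x := by
        intro x
        rw [hS', Finset.mem_image]
        constructor
        · rintro ⟨j, hj, h⟩
          exact ⟨j, by have := Finset.mem_range.1 hj; omega, h⟩
        · rintro ⟨j, hj, h⟩
          exact ⟨j, Finset.mem_range.2 (by omega), h⟩
      have hpS : p k ∈ S' := by
        by_cases hr : RC G (G.cl (p k))
        · have h5 : p k ∈ JR := (hmR _).2 ⟨hpJ, hr⟩
          have h6 : JR = {k, y} := by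
            symm
            apply Finset.eq_of_subset_of_card_le
            · intro z hz
              rw [Finset.mem_insert, Finset.mem_singleton] at hz
              rcases hz with rfl | rfl
              · exact hkR
              · exact hyR
            · rw [Finset.card_pair hyk.symm]
              omega
          rw [h6, Finset.mem_insert, Finset.mem_singleton] at h5
          rcases h5 with h5 | h5
          · exact absurd h5 (ne89 G hG O hB hkJ)
          · exact absurd h5 hne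
        · have heq := Finset.eq_of_subset_of_card_le hsub (by omega)
          have h5 : p k ∈ S0 := by
            rw [heq]
            exact (hmT _).2 ⟨hpJ, hr⟩
          rw [hS0, Finset.mem_image] at h5
          obtain ⟨a, ha, h6⟩ := h5
          exact (hmS _).2 ⟨a + 1, by have := Finset.mem_range.1 ha; omega, h6⟩
      have hcl : ∀ x ∈ S', x ∈ iJ G ∧ x.1 = k.1 ∧ p x ∈ S' := by
        intro x hx
        obtain ⟨i, hi, rfl⟩ := (hmS x).1 hx
        have hx' := (mem_Jv51 G).1 (o1 i hi)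
        refine ⟨hx'.1, hx'.2, ?_⟩
        rcases i with _ | i
        · exact hpS
        · rw [o2 i (by omega)]
          exact (hmS _).2 ⟨i, by omega, rfl⟩
      have h5 := (O.cyc k.1 S' ⟨k, (hmS k).2 ⟨0, by omega, rfl⟩⟩ hcl).2 y
        ((mem_Jv51 G).1 hyJ.1).1 ((mem_Jv51 G).1 hyJ.1).2
      obtain ⟨j, hj, h6⟩ := (hmS y).1 h5
      rcases j with _ | j
      · exact hyk h6.symm
      · have h7 := (hT j (by omega)).2
        rw [h6] at h7
        exact hnRT _ h7 hyJ.2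
    rw [hpy]
    exact ⟨hm1, ((mem_Jv51 G).1 hyJ.1).1, hyJ.2, hyt⟩

/-- three contact triangles on both sides of a square corner: impossible -/
theorem dbl89 (hG : G.Geo4 al kp U) (O : Or62 G opp s s' p q) (c : Ch62 al Q opp g m)
    {k : V × V} (hk : k ∈ iJ G) (rk : RC G (G.cl k)) (ht : TH G k = Q)
    (hsum : ∑ x ∈ Jv G k.1, TH G x ≤ 2 * Real.pi)
    (hT : ∀ j, j < 3 → q^[j + 1] k ∈ iJ G ∧ G.cI (G.cl (q^[j + 1] k)) = ∅)
    (hT' : ∀ j, j < 3 → p^[j + 1] k ∈ iJ G ∧ G.cI (G.cl (p^[j + 1] k)) = ∅) : False := by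
  have hal := al_pos71 G hG
  obtain ⟨o1, o2, o3⟩ := orb62 G O hk rk hT
  obtain ⟨u1, u2, u3⟩ := orb62 G O.mirror hk rk hT'
  have hkJ : k ∈ Jv G k.1 := (mem_Jv51 G).2 ⟨hk, rfl⟩
  have hcross : ∀ a b, a ≤ 3 → b < 3 → q^[a] k ≠ p^[b + 1] k := by
    intro a b ha hb h
    obtain ⟨S, hS⟩ : ∃ S, S = (Finset.range (a + 1)).image (fun j => q^[j] k) ∪
      (Finset.range (b + 2)).image (fun j => p^[j] k) := ⟨_, rfl⟩
    have hmS : ∀ x, x ∈ S ↔ (∃ j, j ≤ a ∧ q^[j] k = x) ∨ (∃ j, j ≤ b + 1 ∧ p^[j] k = x) := by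
      intro x
      rw [hS, Finset.mem_union, Finset.mem_image, Finset.mem_image]
      constructor
      · rintro (⟨j, hj, h⟩ | ⟨j, hj, h⟩)
        · exact Or.inl ⟨j, by have := Finset.mem_range.1 hj; omega, h⟩
        · exact Or.inr ⟨j, by have := Finset.mem_range.1 hj; omega, h⟩
      · rintro (⟨j, hj, h⟩ | ⟨j, hj, h⟩)
        · exact Or.inl ⟨j, Finset.mem_range.2 (by omega), h⟩
        · exact Or.inr ⟨j, Finset.mem_range.2 (by omega), h⟩
    have hpS : ∀ j, j ≤ b → p^[j] k ∈ S ∧ q (p^[j + 1] k) = p^[j] k := by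
      intro j hj
      exact ⟨(hmS _).2 (Or.inr ⟨j, by omega, rfl⟩), u2 j (by omega)⟩
    have hcl : ∀ x ∈ S, x ∈ iJ G ∧ x.1 = k.1 ∧ q x ∈ S := by
      intro x hx
      rcases (hmS x).1 hx with ⟨j, hj, rfl⟩ | ⟨j, hj, rfl⟩
      · have h1 := (mem_Jv51 G).1 (o1 j (by omega))
        refine ⟨h1.1, h1.2, ?_⟩
        rcases Nat.eq_or_lt_of_le hj with rfl | hlt
        · rw [h, (hpS b le_rfl).2]
          exact (hpS b le_rfl).1
        · exact (hmS _).2 (Or.inl ⟨j + 1, by omega, by rw [Function.iterate_succ_apply']⟩)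
      · have h1 := (mem_Jv51 G).1 (u1 j (by omega))
        refine ⟨h1.1, h1.2, ?_⟩
        rcases j with _ | j
        · rcases Nat.eq_zero_or_pos a with h0 | h0
          · subst h0
            have h3 : p^[b + 1] k = k := h.symm
            show q k ∈ S
            rw [← h3, (hpS b le_rfl).2]
            exact (hpS b le_rfl).1
          · exact (hmS _).2 (Or.inl ⟨1, h0, rfl⟩)
        · rw [(hpS j (by omega)).2]
          exact (hpS j (by omega)).1
    obtain ⟨hN, hall⟩ := O.mirror.cyc k.1 S ⟨k, (hmS k).2 (Or.inl ⟨0, Nat.zero_le _, rfl⟩)⟩ hcl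
    have htot := sum_TH_point71 G hG hN
    change ∑ x ∈ Jv G k.1, TH G x = _ at htot
    have hTJ : ∀ x ∈ (Jv G k.1).erase k, TH G x = al := by
      intro x hx
      rw [Finset.mem_erase] at hx
      obtain ⟨hx1, hx2⟩ := hx
      have hx3 := (mem_Jv51 G).1 hx2
      rcases (hmS x).1 (hall x hx3.1 hx3.2) with ⟨j, hj, rfl⟩ | ⟨j, hj, rfl⟩
      · rcases j with _ | j
        · exact absurd rfl hx1
        · obtain ⟨h4, h5⟩ := hT j (by omega)
          exact TH_T51 G hG h4 h5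
      · rcases j with _ | j
        · exact absurd rfl hx1
        · obtain ⟨h4, h5⟩ := hT' j (by omega)
          exact TH_T51 G hG h4 h5
    rw [← Finset.add_sum_erase _ _ hkJ, Finset.sum_congr rfl hTJ, Finset.sum_const,
      nsmul_eq_mul, ht] at htot
    have h6 := c.Qal
    have h7 := c.g0
    have h8 := c.gm (Nat.zero_le m)
    have h9 := hG.al2
    rcases Nat.lt_or_ge ((Jv G k.1).erase k).card 5 with hlt | hge
    · have h10 : (((Jv G k.1).erase k).card : ℝ) ≤ 4 := by exact_mod_cast Nat.lt_succ_iff.1 hlt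
      have h11 := mul_le_mul_of_nonneg_right h10 hal.le
      linarith
    · have h10 : (5 : ℝ) ≤ (((Jv G k.1).erase k).card : ℝ) := by exact_mod_cast hge
      have h11 := mul_le_mul_of_nonneg_right h10 hal.le
      linarith
  obtain ⟨S1, hS1⟩ : ∃ S1, S1 = (Finset.range 4).image (fun j => q^[j] k) := ⟨_, rfl⟩
  obtain ⟨S2, hS2⟩ : ∃ S2, S2 = (Finset.range 3).image (fun j => p^[j + 1] k) := ⟨_, rfl⟩
  have hdis : Disjoint S1 S2 := by
    rw [Finset.disjoint_left]
    intro x hx hy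
    rw [hS1, Finset.mem_image] at hx
    rw [hS2, Finset.mem_image] at hy
    obtain ⟨a, ha, rfl⟩ := hx
    obtain ⟨b, hb, h⟩ := hy
    exact hcross a b (by have := Finset.mem_range.1 ha; omega) (Finset.mem_range.1 hb) h.symm
  have hs1 : ∑ x ∈ S1, TH G x = TH G k + 3 * al := by
    rw [hS1, Finset.sum_image]
    · rw [Finset.sum_range_succ' _ 3]
      have h3 : ∑ j ∈ Finset.range 3, TH G (q^[j + 1] k) = ∑ j ∈ Finset.range 3, al := by
        refine Finset.sum_congr rfl fun j hj => ?_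
        obtain ⟨h4, h5⟩ := hT j (Finset.mem_range.1 hj)
        exact TH_T51 G hG h4 h5
      rw [h3, Finset.sum_const, Finset.card_range, nsmul_eq_mul]
      show _ + TH G k = _
      push_cast
      ring
    · intro a ha b hb h
      have := Finset.mem_range.1 (Finset.mem_coe.1 ha)
      have := Finset.mem_range.1 (Finset.mem_coe.1 hb)
      exact o3 a b (by omega) (by omega) h
  have hs2 : ∑ x ∈ S2, TH G x = 3 * al := by
    rw [hS2, Finset.sum_image]
    · have h3 : ∑ j ∈ Finset.range 3, TH G (p^[j + 1] k) = ∑ j ∈ Finset.range 3, al := by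
        refine Finset.sum_congr rfl fun j hj => ?_
        obtain ⟨h4, h5⟩ := hT' j (Finset.mem_range.1 hj)
        exact TH_T51 G hG h4 h5
      rw [h3, Finset.sum_const, Finset.card_range, nsmul_eq_mul]
      push_cast
      ring
    · intro a ha b hb h
      have := Finset.mem_range.1 (Finset.mem_coe.1 ha)
      have := Finset.mem_range.1 (Finset.mem_coe.1 hb)
      have := u3 (a + 1) (b + 1) (by omega) (by omega) h
      omega
  have h3 : ∑ x ∈ S1 ∪ S2, TH G x ≤ ∑ x ∈ Jv G k.1, TH G x := by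
    apply Finset.sum_le_sum_of_subset_of_nonneg
    · intro x hx
      rcases Finset.mem_union.1 hx with hx | hx
      · rw [hS1, Finset.mem_image] at hx
        obtain ⟨a, ha, rfl⟩ := hx
        exact o1 a (by have := Finset.mem_range.1 ha; omega)
      · rw [hS2, Finset.mem_image] at hx
        obtain ⟨a, ha, rfl⟩ := hx
        exact u1 (a + 1) (by have := Finset.mem_range.1 ha; omega)
    · intro x hx _
      exact (TH_pos71 G ((mem_Jv51 G).1 hx).1).le
  rw [Finset.sum_union hdis, hs1, hs2, ht] at h3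
  have := c.al7
  have := c.glo le_rfl
  have := c.gQ
  linarith

/-- a square corner between a chain tip and three contact triangles: another face at the point -/
theorem dd89 (hG : G.Geo4 al kp U) (O : Or62 G opp s s' p q) (c : Ch62 al Q opp g m)
    (S : Sq89 al Q opp g m)
    (hlow : ∀ x ∈ iJ G, RC G (G.cl x) → al ≤ TH G x ∧ TH G x ≤ 2 * al)
    {k : V × V} (hk : k ∈ iJ G) (rk : RC G (G.cl k)) (ht : TH G k = Q) (hN : k.1 ∈ inN G)
    (hq : q k ∈ iJ G) (rq : RC G (G.cl (q k))) (tq : TH G (q k) = g m)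
    (hT' : ∀ j, j < 3 → p^[j + 1] k ∈ iJ G ∧ G.cI (G.cl (p^[j + 1] k)) = ∅) :
    (∃ x ∈ Jv G k.1, G.cI (G.cl x) ≠ ∅ ∧ ¬ RC G (G.cl x)) ∧ 8 ≤ ∑ x ∈ Jv G k.1, bw G al x := by
  have hal := al_pos71 G hG
  obtain ⟨u1, u2, u3⟩ := orb62 G O.mirror hk rk hT'
  have hnRT : ∀ x : V × V, G.cI (G.cl x) = ∅ → ¬ RC G (G.cl x) := fun x h1 h2 => RC_ne51 G h2 h1
  have hkJ : k ∈ Jv G k.1 := (mem_Jv51 G).2 ⟨hk, rfl⟩
  have hqJ : q k ∈ Jv G k.1 := (mem_Jv51 G).2 ⟨hq, O.qf _ hk hq⟩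
  have hkq : k ≠ q k := by
    intro h
    rw [← h, ht] at tq
    have := c.gQ
    linarith
  obtain ⟨S2, hS2⟩ : ∃ S2, S2 = (Finset.range 3).image (fun j => p^[j + 1] k) := ⟨_, rfl⟩
  have hinj : Set.InjOn (fun j => p^[j + 1] k) ((Finset.range 3 : Finset ℕ) : Set ℕ) := by
    intro a ha b hb h
    have := Finset.mem_range.1 (Finset.mem_coe.1 ha)
    have := Finset.mem_range.1 (Finset.mem_coe.1 hb)
    have := u3 (a + 1) (b + 1) (by omega) (by omega) h
    omega
  have hS2T : ∀ x ∈ S2, x ∈ Jv G k.1 ∧ x ∈ iJ G ∧ G.cI (G.cl x) = ∅ := by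
    intro x hx
    rw [hS2, Finset.mem_image] at hx
    obtain ⟨a, ha, rfl⟩ := hx
    have ha' := Finset.mem_range.1 ha
    exact ⟨u1 (a + 1) (by omega), (hT' a ha').1, (hT' a ha').2⟩
  have hS2c : S2.card = 3 := by
    rw [hS2, Finset.card_image_of_injOn hinj, Finset.card_range]
  have hdis : Disjoint ({k, q k} : Finset (V × V)) S2 := by
    rw [Finset.disjoint_left]
    intro x hx hy
    rw [Finset.mem_insert, Finset.mem_singleton] at hx
    have h1 := (hS2T x hy).2.2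
    rcases hx with rfl | rfl
    · exact hnRT _ h1 rk
    · exact hnRT _ h1 rq
  obtain ⟨S1, hS1⟩ : ∃ S1, S1 = ({k, q k} : Finset (V × V)) ∪ S2 := ⟨_, rfl⟩
  have hsub : S1 ⊆ Jv G k.1 := by
    intro x hx
    rw [hS1, Finset.mem_union, Finset.mem_insert, Finset.mem_singleton] at hx
    rcases hx with (rfl | rfl) | hx
    · exact hkJ
    · exact hqJ
    · exact (hS2T x hx).1
  have hth : ∑ x ∈ S1, TH G x = Q + g m + 3 * al := by
    rw [hS1, Finset.sum_union hdis, Finset.sum_pair hkq, ht, tq,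
      Finset.sum_congr rfl (fun x hx => TH_T51 G hG (hS2T x hx).2.1 (hS2T x hx).2.2),
      Finset.sum_const, hS2c, nsmul_eq_mul]
    push_cast
    ring
  have hbw : ∑ x ∈ S1, bw G al x = 7 := by
    have e1 : bw G al k = 2 := by
      unfold bw
      rw [if_neg (RC_ne51 G rk), if_pos rk]
    have e2 : bw G al (q k) = 2 := by
      unfold bw
      rw [if_neg (RC_ne51 G rq), if_pos rq]
    have e3 : ∀ x ∈ S2, bw G al x = 1 := by
      intro x hx
      unfold bw
      rw [if_pos (hS2T x hx).2.2]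
    rw [hS1, Finset.sum_union hdis, Finset.sum_pair hkq, e1, e2, Finset.sum_congr rfl e3,
      Finset.sum_const, hS2c, smul_eq_mul]
  have htot := sum_TH_point71 G hG hN
  change ∑ x ∈ Jv G k.1, TH G x = _ at htot
  have hsq := S.hsq
  have hgq := c.gQ
  have hQb := c.Qb
  obtain ⟨y, hy, hyS⟩ : ∃ y ∈ Jv G k.1, y ∉ S1 := by
    by_contra hno
    push Not at hno
    have h1 : Jv G k.1 = S1 := Finset.Subset.antisymm hno hsub
    rw [h1, hth] at htot
    linarith
  have hyJ := (mem_Jv51 G).1 hy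
  have hylt : TH G y < al := by
    have h1 : ∑ x ∈ insert y S1, TH G x ≤ ∑ x ∈ Jv G k.1, TH G x := by
      apply Finset.sum_le_sum_of_subset_of_nonneg
      · intro x hx
        rcases Finset.mem_insert.1 hx with rfl | hx
        · exact hy
        · exact hsub hx
      · intro x hx _
        exact (TH_pos71 G ((mem_Jv51 G).1 hx).1).le
    rw [Finset.sum_insert hyS, hth, htot] at h1
    have h2 := c.bhi (le_refl m)
    have h3 := c.glo (le_refl m)
    linarith
  have hyT : G.cI (G.cl y) ≠ ∅ := by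
    intro h
    rw [TH_T51 G hG hyJ.1 h] at hylt
    exact lt_irrefl _ hylt
  have hyR : ¬ RC G (G.cl y) := by
    intro h
    have := (hlow y hyJ.1 h).1
    linarith
  refine ⟨⟨y, hy, hyT, hyR⟩, ?_⟩
  have hy1 : 1 ≤ bw G al y := by
    have h1 := TH_bw51 G hG hyJ.1
    have h2 := TH_pos71 G hyJ.1
    by_contra h
    have h3 : bw G al y = 0 := by omega
    rw [h3] at h1
    push_cast at h1
    linarith
  have h1 : ∑ x ∈ insert y S1, bw G al x ≤ ∑ x ∈ Jv G k.1, bw G al x := by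
    apply Finset.sum_le_sum_of_subset
    intro x hx
    rcases Finset.mem_insert.1 hx with rfl | hx
    · exact hy
    · exact hsub hx
  rw [Finset.sum_insert hyS, hbw] at h1
  omega

theorem tk_ex89 (hG : G.Geo4 al kp U) (O : Or62 G opp s s' p q) (c : Ch62 al Q opp g m)
    {t0 : V × V} (h : St89 G Q opp g m p q t0) :
    ∃ k n, Tk89 G al Q opp g m s s' p q t0 k n := by
  have hA : A62 G opp g p m t0 := ⟨h.1, h.2.1, h.2.2.1, h.2.2.2.1, h.2.2.2.2.1⟩
  rcases walk62' G hG O c (fc89 G) hA with ⟨k, n, h1⟩ | h1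
  · exact ⟨k, n, Or.inl h1⟩
  · by_cases hB : B7 G al (s (q t0)).1
    · exact ⟨_, 3, Or.inr (Or.inr ⟨h1, hB, rfl, rfl⟩)⟩
    · exact ⟨_, 2, Or.inr (Or.inl ⟨h1, hB, rfl, rfl⟩)⟩

/-- properties of a token -/
theorem tk_fact89 (hG : G.Geo4 al kp U) (O : Or62 G opp s s' p q) (c : Ch62 al Q opp g m)
    (S : Sq89 al Q opp g m) {t0 : V × V} (h : St89 G Q opp g m p q t0)
    {k : V × V} {n : ℕ} (hk : Tk89 G al Q opp g m s s' p q t0 k n) :
    k ∈ iJ G ∧ RC G (G.cl k) ∧
    (((∃ j, j ≤ m ∧ TH G k = g j) ∧ ¬ Tight62 G al (F89 G Q opp g m) k ∧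
      ((n = 0 ∧ p k ∈ iJ G ∧ G.cI (G.cl (p k)) = ∅) ∨
       (n = 1 ∧ q k ∈ iJ G ∧ RC G (G.cl (q k)) ∧ ∃ j, j ≤ m ∧ TH G (q k) = opp (g j)))) ∨
    (n = 2 ∧ TH G k = Q ∧ ¬ B7 G al k.1 ∧ k = s (q t0) ∧
      ∀ j, j < m + 2 → q^[j + 1] k ∈ iJ G ∧ G.cI (G.cl (q^[j + 1] k)) = ∅) ∨
    (n = 3 ∧ TH G k = Q ∧ ¬ B7 G al k.1 ∧ k = s (s (q t0)) ∧ m = 1 ∧
      q k ∈ iJ G ∧ RC G (G.cl (q k)) ∧ TH G (q k) = g m)) := by
  obtain ⟨e1, e2, e3, e4, e5⟩ := k0_89 G O S h
  rcases hk with hk | ⟨h1, h2, h3, h4⟩ | ⟨h1, h2, h3, h4⟩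
  · obtain ⟨c1, c2, c3, c4, c5⟩ := cl_fact62 G hG O c h.1 h.2.2.2.2.2.1 h.2.2.2.2.2.2.1
      (by rw [e3]; exact c.gQ.le) e3.le hk
    exact ⟨c1, c2, Or.inl ⟨c3, c4, c5⟩⟩
  · have hT := fl89 G O S h h1
    subst h3
    exact ⟨e1, e2, Or.inr (Or.inl ⟨h4, e3, h2, rfl, hT⟩)⟩
  · have hT := fl89 G O S h h1
    obtain ⟨k0, hk0⟩ : ∃ k0, k0 = s (q t0) := ⟨_, rfl⟩
    rw [← hk0] at e1 e2 e3 e4 e5 hT h2 h3
    obtain ⟨f1, f2, f3, f4⟩ := fail89 G hG O c S e1 e2 e3 h2 hT
    have i1 := O.s1 _ e1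
    have r1 : RC G (G.cl (s k0)) := by
      rw [O.s1c _ e1]
      exact e2
    have t1 : TH G (s k0) = Q := altQ89 G O S e1 e2 e3
    have a1 := O.s2 _ f2
    have ra : RC G (G.cl (s' (p k0))) := by
      rw [O.s2c _ f2]
      exact f3
    have ta : TH G (s' (p k0)) = g m := by
      rw [O.o2 _ f2 f3, f4, c.goo le_rfl]
    have a2 := O.ps _ e1 f2
    have a3 : q (s k0) = s' (p k0) := by
      rw [← a2]
      exact O.pq _ a1 (by rw [a2]; exact i1)
    subst h3
    refine ⟨i1, r1, Or.inr (Or.inr ⟨h4, t1, ?_, by rw [hk0], f1, by rw [a3]; exact a1,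
      by rw [a3]; exact ra, by rw [a3]; exact ta⟩)⟩
    intro hB
    refine c1_62 G hG c hB ((mem_Jv51 G).2 ⟨i1, rfl⟩) (y := s' (p k0))
      ((mem_Jv51 G).2 ⟨a1, ?_⟩) ?_ r1 ra t1.le (by rw [ta]; exact c.gQ.le)
    · rw [← a2]
      exact (O.pf _ a1 (by rw [a2]; exact i1)).symm
    · intro hh
      rw [hh, ta] at t1
      have := c.gQ
      linarith

/-- a token determines its walk -/
theorem tk_uniq89 (hG : G.Geo4 al kp U) (O : Or62 G opp s s' p q) (c : Ch62 al Q opp g m)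
    (S : Sq89 al Q opp g m) {t0 t1 : V × V} (h : St89 G Q opp g m p q t0)
    (h' : St89 G Q opp g m p q t1) {k : V × V} {n : ℕ}
    (hk : Tk89 G al Q opp g m s s' p q t0 k n) (hk' : Tk89 G al Q opp g m s s' p q t1 k n) :
    t0 = t1 := by
  have hn : ∀ t, St89 G Q opp g m p q t → Cl62 G al (F89 G Q opp g m) opp g m s s' p q t k n →
      n ≤ 1 := by
    rintro t _ ⟨i, τ, _, ⟨_, h, _⟩ | ⟨l, _, _, _, _, _, h⟩ | ⟨l, _, _, _, _, _, h⟩⟩ <;> omega
  have hfin : s (q t0) = s (q t1) → t0 = t1 := by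
    intro h3
    have h4 : q t0 = q t1 := by
      rw [← O.s12 _ h.2.2.2.2.2.1, h3, O.s12 _ h'.2.2.2.2.2.1]
    rw [← O.qp _ h.1 h.2.2.2.2.2.1, h4, O.qp _ h'.1 h'.2.2.2.2.2.1]
  have e1 := (k0_89 G O S h).1
  have e1' := (k0_89 G O S h').1
  rcases hk with hk | ⟨_, _, h3, h4⟩ | ⟨_, _, h3, h4⟩ <;>
    rcases hk' with hk' | ⟨_, _, k3, k4⟩ | ⟨_, _, k3, k4⟩
  · exact cl_uniq62 G O c hk hk'
  · have := hn _ h hk
    omega
  · have := hn _ h hk
    omega
  · have := hn _ h' hk'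
    omega
  · exact hfin (h3.symm.trans k3)
  · omega
  · have := hn _ h' hk'
    omega
  · omega
  · apply hfin
    rw [← O.s12 _ e1, ← h3, k3, O.s12 _ e1']

/-- tokens of the two orientations -/
theorem tk_om89 (hG : G.Geo4 al kp U) (hR : Rf G al opp) (O : Or62 G opp (sg G) s' p q)
    (c : Ch62 al Q opp g m) (S : Sq89 al Q opp g m)
    (hsum : ∀ v ∈ G.P, ∑ x ∈ Jv G v, TH G x ≤ 2 * Real.pi) {t0 t1 : V × V}
    (h : St89 G Q opp g m p q t0) (h' : St89 G Q opp g m q p t1) {k : V × V} {n : ℕ}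
    (hk : Tk89 G al Q opp g m (sg G) s' p q t0 k n)
    (hk' : Tk89 G al Q opp g m s' (sg G) q p t1 k (fl89n n)) : t0.1 = t1.1 := by
  obtain ⟨c1, c2, c3⟩ := tk_fact89 G hG O c S h hk
  obtain ⟨d1, d2, d3⟩ := tk_fact89 G hG O.mirror c S h' hk'
  have hm := S.hm
  have hnQ : ∀ j, j ≤ m → TH G k = g j → TH G k = Q → False := by
    intro j hj h1 h2
    have := c.gm hj
    linarith
  rcases c3 with ⟨⟨j, hj, a1⟩, a2, a3⟩ | ⟨a1, a2, a3, a4, a5⟩ | ⟨a1, a2, a3, a4, a5, a6, a7, a8⟩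
  · rcases d3 with ⟨⟨j', hj', b1⟩, b2, b3⟩ | ⟨b1, b2, _⟩ | ⟨b1, b2, _⟩
    · exfalso
      rcases a3 with ⟨n0, n1, n2⟩ | ⟨n0, n1, n2, n3⟩
      · subst n0
        rcases b3 with ⟨k0, k1, k2⟩ | ⟨k0, k1, k2, k3⟩
        · exact absurd k0 (by unfold fl89n; norm_num)
        · exact RC_ne51 G k2 n2
      · subst n0
        rcases b3 with ⟨k0, k1, k2⟩ | ⟨k0, k1, k2, k3⟩
        · exact RC_ne51 G n2 k2
        · exact absurd k0 (by unfold fl89n; norm_num)
    · exact absurd b2 (fun h2 => hnQ j hj a1 h2)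
    · exact absurd b2 (fun h2 => hnQ j hj a1 h2)
  · subst a1
    rcases d3 with ⟨⟨j', hj', b1⟩, b2, b3⟩ | ⟨b1, b2, b3, b4, b5⟩ | ⟨b1, b2, _⟩
    · exact absurd a2 (fun h2 => hnQ j' hj' b1 h2)
    · exfalso
      have hkP : k.1 ∈ G.P := by
        rw [mem_iJ71] at c1
        exact G.mem _ _ (G.sub c1.1.1)
      exact dbl89 G hG O c c1 c2 a2 (hsum _ hkP) (fun j hj => a5 j (by omega))
        (fun j hj => b5 j (by omega))
    · exact absurd b1 (by unfold fl89n; norm_num)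
  · subst a1
    rcases d3 with ⟨⟨j', hj', b1⟩, b2, b3⟩ | ⟨b1, b2, b3, b4, b5⟩ | ⟨b1, b2, b3, b4, _⟩
    · exact absurd a2 (fun h2 => hnQ j' hj' b1 h2)
    · exact absurd b1 (by unfold fl89n; norm_num)
    · have h6 := h.2.2.2.2.2.1
      have h6' := h'.2.2.2.2.2.1
      have r6' := h'.2.2.2.2.2.2.1
      rw [← R4_89 G hG hR O h6' r6'] at b4
      have h7 : q t0 = p t1 := by
        have h8 : sg G (q t0) = sg G (p t1) := by
          rw [← O.s12 _ (O.s1 _ h6), ← a4, b4, O.s12 _ (O.s1 _ h6')]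
        rw [← O.s12 _ h6, h8, O.s12 _ h6']
      rw [← O.qf _ h.1 h6, h7]
      exact O.pf _ h'.1 h6'

end

end

end Pool.Agent.PEN.W4
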