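import Pool.Agent.P4.W4Tk89c
import Pool.Agent.P4.NumT52

/-! # PENNY, token rows at the chain diameters that end in the square: the row -/

set_option autoImplicit false

namespace Pool.Agent.PEN.W4

open Classical UpperHalfPlane

noncomputable section

section
variable {V : Type} (G : Tg V) {al : ℝ} {kp : V → V → ℝ} {U : ℕ → ℝ}
variable {Q : ℝ} {opp : ℝ → ℝ} {g : ℕ → ℝ} {m : ℕ} {s' p q : V × V → V × V}

theorem fb89_ok (O : Or62 G opp (sg G) s' p q) (c : Ch62 al Q opp g m) (hoQ : opp Q = Q) (de : ℝ)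
    {F : V × V → Prop}
    (hF : ∀ x ∈ iJ G, RC G (G.cl x) → TH G x ≠ Q → (F (sg G x) ↔ ¬ F x)) :
    Fb57 G Q opp g m de F (fb57 G Q opp g m de F) := by
  have oi : ∀ j k, j ≤ m → k ≤ m → opp (g j) = opp (g k) → j = k := by
    intro j k hj hk h
    rcases lt_trichotomy j k with h1 | h1 | h1
    · have := c.banti h1 hk
      linarith
    · exact h1
    · have := c.banti h1 hj
      linarith
  have hgo : ∀ j k, j ≤ m → k ≤ m → g j ≠ opp (g k) := by
    intro j k hj hk h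
    have h1 := c.gm hj
    have h2 := c.bQ hk
    linarith
  have lo : ∀ x ∈ iJ G, RC G (G.cl x) → ∀ j ≤ m, TH G x = g j →
      fr57 G opp g m de F x = 1 - ((j : ℝ) + 1) * de := by
    intro x _ _ j hj h
    have h1 : ∃ j, j ≤ m ∧ TH G x = g j := ⟨j, hj, h⟩
    unfold fr57
    rw [dif_pos h1]
    have h2 := Nat.find_spec h1
    have h3 : Nat.find h1 = j := c.ginj h2.1 hj (h2.2.symm.trans h)
    rw [h3]
  have hi : ∀ x ∈ iJ G, RC G (G.cl x) → ∀ j ≤ m, TH G x = opp (g j) →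
      fr57 G opp g m de F x = ((j : ℝ) + 1) * de := by
    intro x _ _ j hj h
    have h0 : ¬ ∃ j, j ≤ m ∧ TH G x = g j := by
      rintro ⟨k, hk, h4⟩
      exact hgo k j hk hj (h4.symm.trans h)
    have h1 : ∃ j, j ≤ m ∧ TH G x = opp (g j) := ⟨j, hj, h⟩
    unfold fr57
    rw [dif_neg h0, dif_pos h1]
    have h2 := Nat.find_spec h1
    have h3 : Nat.find h1 = j := oi _ _ h2.1 hj (h2.2.symm.trans h)
    rw [h3]
  have el : ∀ x ∈ iJ G, RC G (G.cl x) → (∀ j ≤ m, TH G x ≠ g j) →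
      (∀ j ≤ m, TH G x ≠ opp (g j)) → fr57 G opp g m de F x = if F x then 1 else 0 := by
    intro x _ _ h1 h2
    unfold fr57
    rw [dif_neg (fun ⟨j, hj, h⟩ => h1 j hj h), dif_neg (fun ⟨j, hj, h⟩ => h2 j hj h)]
  refine ⟨?_, ?_, ?_, ?_, ?_⟩
  · intro x hx rx
    have is := O.s1 _ hx
    have rs : RC G (G.cl (sg G x)) := by
      rw [O.s1c _ hx]
      exact rx
    have t1 : TH G (sg G x) = opp (TH G x) := O.o1 _ hx rx
    have t2 : TH G x = opp (TH G (sg G x)) := by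
      have := O.o2 _ is rs
      rw [O.s12 _ hx] at this
      exact this
    unfold fb57
    by_cases h : TH G x = Q
    · have h2 : TH G (sg G x) = Q := by rw [t1, h, hoQ]
      rw [if_pos h, if_pos h2]
      norm_num
    · have h2 : TH G (sg G x) ≠ Q := fun h3 => h (by rw [t2, h3, hoQ])
      rw [if_neg h, if_neg h2]
      by_cases h1 : ∃ j, j ≤ m ∧ TH G x = g j
      · obtain ⟨j, hj, h⟩ := h1
        rw [lo x hx rx j hj h, hi _ is rs j hj (by rw [t1, h])]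
        ring
      · by_cases h2 : ∃ j, j ≤ m ∧ TH G x = opp (g j)
        · obtain ⟨j, hj, h⟩ := h2
          rw [hi x hx rx j hj h, lo _ is rs j hj (by rw [t1, h, c.goo hj])]
        · rw [el x hx rx (fun j hj h => h1 ⟨j, hj, h⟩) (fun j hj h => h2 ⟨j, hj, h⟩),
            el _ is rs]
          · have h3 := hF x hx rx h
            by_cases h4 : F x
            · rw [if_pos h4, if_neg (fun h => h3.1 h h4)]
              norm_num
            · rw [if_neg h4, if_pos (h3.2 h4)]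
              norm_num
          · intro j hj h
            exact h2 ⟨j, hj, by rw [t2, h]⟩
          · intro j hj h
            exact h1 ⟨j, hj, by rw [t2, h, c.goo hj]⟩
  · intro x _ _ h
    unfold fb57
    rw [if_pos h]
  · intro x hx rx j hj h
    unfold fb57
    rw [if_neg (by rw [h]; exact (c.gm hj).ne)]
    exact lo x hx rx j hj h
  · intro x hx rx j hj h
    unfold fb57
    rw [if_neg (by rw [h]; exact (c.bQ hj).ne')]
    exact hi x hx rx j hj h
  · intro x hx rx h0 h1 h2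
    unfold fb57
    rw [if_neg h0]
    exact el x hx rx h1 h2

/-- the raw token of a deficient point with a square -/
def Rw89 (al Q : ℝ) (opp : ℝ → ℝ) (g : ℕ → ℝ) (m : ℕ) (s' p q : V × V → V × V)
    (v : V) (k : V × V) (n : ℕ) : Prop :=
  (∃ x ∈ Jv G v, RC G (G.cl x) ∧ RC G (G.cl (p x)) ∧ TH G x = Q ∧ TH G (p x) = opp (g m) ∧
    k = s' (p x) ∧ n = 0) ∨
  (∃ x ∈ Jv G v, RC G (G.cl x) ∧ RC G (G.cl (p x)) ∧ TH G x = opp (g m) ∧ TH G (p x) = Q ∧
    k = sg G x ∧ n = 1) ∨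
  (∃ t0, t0.1 = v ∧ St89 G Q opp g m p q t0 ∧ Tk89 G al Q opp g m (sg G) s' p q t0 k n) ∨
  (∃ t0, t0.1 = v ∧ St89 G Q opp g m q p t0 ∧
    Tk89 G al Q opp g m s' (sg G) q p t0 k (fl89n n))

theorem fl89n2 (n : ℕ) : fl89n (fl89n n) = n := by
  unfold fl89n
  by_cases h0 : n = 0
  · subst h0
    norm_num
  · by_cases h1 : n = 1
    · subst h1
      norm_num
    · rw [if_neg h0, if_neg h1, if_neg h0, if_neg h1]

theorem fl89n3 {n a b : ℕ} (h : fl89n n = a) (h' : fl89n a = b) : n = b := by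
  rw [← h', ← h, fl89n2]

theorem vs_df89 (c : Ch62 al Q opp g m) {v : V} (h : VS57 G al Q opp g m v) :
    Df57 G al (F89 G Q opp g m) v := by
  obtain ⟨hB, x, hx, y, hy, rx, ry, tx, ty, hz⟩ := h
  refine ⟨hB, fun z hzJ rz hF => ?_⟩
  by_cases h1 : z = x
  · exact F89_ne G hF (by rw [h1, tx])
  · by_cases h2 : z = y
    · have h3 : Q < TH G z := by
        rw [h2, ty]
        exact c.Qb
      exact (F89_gt G h3).1 hF ⟨m, le_rfl, by rw [h2, ty]⟩
    · exact RC_ne51 G rz (hz z hzJ h1 h2)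

theorem rw_ex89 (hG : G.Geo4 al kp U) (O : Or62 G opp (sg G) s' p q) (c : Ch62 al Q opp g m)
    (S : Sq89 al Q opp g m) {v : V} (h : VS57 G al Q opp g m v) :
    ∃ k n, Rw89 G al Q opp g m s' p q v k n := by
  have hD := vs_df89 G c h
  obtain ⟨hB, x, hx, y, hy, rx, ry, tx, ty, hz⟩ := h
  by_cases hadj : ∃ z ∈ Jv G v, RC G (G.cl z) ∧ RC G (G.cl (p z))
  · obtain ⟨z, hzJ, rz, rp⟩ := hadj
    obtain ⟨hpJ, hqJ⟩ := pJ57 G O hB.1 hzJ
    have hne : p z ≠ z := ne89 G hG O hB hzJ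
    have hmem : ∀ w ∈ Jv G v, RC G (G.cl w) → w = x ∨ w = y := by
      intro w hw rw'
      by_contra h
      rw [not_or] at h
      exact RC_ne51 G rw' (hz w hw h.1 h.2)
    rcases hmem z hzJ rz with h1 | h1
    · rcases hmem _ hpJ rp with h2 | h2
      · exact absurd (h2.trans h1.symm) hne
      · refine ⟨_, _, Or.inl ⟨z, hzJ, rz, rp, ?_, ?_, rfl, rfl⟩⟩
        · rw [h1, tx]
        · rw [h2, ty]
    · rcases hmem _ hpJ rp with h2 | h2
      · refine ⟨_, _, Or.inr (Or.inl ⟨z, hzJ, rz, rp, ?_, ?_, rfl, rfl⟩)⟩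
        · rw [h1, ty]
        · rw [h2, tx]
      · exact absurd (h2.trans h1.symm) hne
  · have hK : KP57 G al (F89 G Q opp g m) p v :=
      ⟨hB, hD.2, fun z hzJ rz rp => hadj ⟨z, hzJ, rz, rp⟩⟩
    obtain ⟨t0, h1, h2, h3, h4, h5, h6, h7⟩ := Kst89 G hG O c S hK
    rw [mem_Jv51] at h1 h3 h4
    rcases h7 with ⟨h8, h9⟩ | ⟨h8, h9⟩
    · have hS : St89 G Q opp g m p q t0 := ⟨h1.1, h2, h3.1, h5, h8, h4.1, h6, h9⟩
      obtain ⟨k, n, hk⟩ := tk_ex89 G hG O c hS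
      exact ⟨k, n, Or.inr (Or.inr (Or.inl ⟨t0, h1.2, hS, hk⟩))⟩
    · have hS : St89 G Q opp g m q p t0 := ⟨h1.1, h2, h4.1, h6, h9, h3.1, h5, h8⟩
      obtain ⟨k, n, hk⟩ := tk_ex89 G hG O.mirror c hS
      exact ⟨k, fl89n n, Or.inr (Or.inr (Or.inr ⟨t0, h1.2, hS, by rw [fl89n2]; exact hk⟩))⟩

/-- properties of a raw token -/
theorem rw_fact89 (hG : G.Geo4 al kp U) (O : Or62 G opp (sg G) s' p q) (c : Ch62 al Q opp g m)
    (S : Sq89 al Q opp g m)
    (hlow : ∀ x ∈ iJ G, RC G (G.cl x) → al ≤ TH G x ∧ TH G x ≤ 2 * al)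
    {v : V} (hD : Df57 G al (F89 G Q opp g m) v) {k : V × V} {n : ℕ}
    (hk : Rw89 G al Q opp g m s' p q v k n) :
    k ∈ iJ G ∧ RC G (G.cl k) ∧
    ((n ≤ 1 ∧ (∃ j, j ≤ m ∧ TH G k = g j) ∧ ¬ Tight62 G al (F89 G Q opp g m) k ∧
      (n = 0 → ¬ (RC G (G.cl (p k)) ∧ F89 G Q opp g m (p k) ∧ TH G (p k) ≠ Q)) ∧
      (n = 1 → ¬ (RC G (G.cl (q k)) ∧ F89 G Q opp g m (q k) ∧ TH G (q k) ≠ Q))) ∨
     (TH G k = Q ∧ ¬ B7 G al k.1 ∧ (n = 2 ∨ (n = 3 ∧ m = 1)))) := by
  have hnF : ∀ w, (∃ j, j ≤ m ∧ TH G w = opp (g j)) → ¬ F89 G Q opp g m w := by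
    rintro w ⟨j, hj, h⟩ hF
    have h3 : Q < TH G w := by
      rw [h]
      exact c.bQ hj
    exact (F89_gt G h3).1 hF ⟨j, hj, h⟩
  rcases hk with ⟨x, hx, rx, rp, tx, tp, h1, h2⟩ | ⟨x, hx, rx, rp, tx, tp, h1, h2⟩ |
    ⟨t0, h0, hS, hk⟩ | ⟨t0, h0, hS, hk⟩
  · obtain ⟨z1, z2, z3, z4, z5, z6, z7, z8, z9, z10, z11, z12, z13⟩ :=
      zb89 G hG O c S hlow hD hx rx rp
    have hxi := ((mem_Jv51 G).1 hx).1
    have hpi := ((mem_Jv51 G).1 (pJ57 G O hD.1.1 hx).1).1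
    subst h1
    subst h2
    refine ⟨z1, z3, Or.inl ⟨by norm_num, ⟨m, le_rfl, ?_⟩, fun h => ?_, fun _ h => ?_,
      fun h => absurd h (by norm_num)⟩⟩
    · rw [O.o2 _ hpi rp, tp, c.goo le_rfl]
    · apply z13
      rw [← z10]
      exact h.1
    · apply h.2.2
      rw [z11, O.o1 _ hxi rx, tx, S.hQQ]
  · obtain ⟨z1, z2, z3, z4, z5, z6, z7, z8, z9, z10, z11, z12, z13⟩ :=
      zb89 G hG O c S hlow hD hx rx rp
    have hxi := ((mem_Jv51 G).1 hx).1
    have hpi := ((mem_Jv51 G).1 (pJ57 G O hD.1.1 hx).1).1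
    subst h1
    subst h2
    refine ⟨z2, z4, Or.inl ⟨by norm_num, ⟨m, le_rfl, ?_⟩, fun h => z13 h.1,
      fun h => absurd h (by norm_num), fun _ h => ?_⟩⟩
    · rw [O.o1 _ hxi rx, tx, c.goo le_rfl]
    · apply h.2.2
      rw [z12, O.o2 _ hpi rp, tp, S.hQQ]
  · obtain ⟨c1, c2, c3⟩ := tk_fact89 G hG O c S hS hk
    refine ⟨c1, c2, ?_⟩
    rcases c3 with ⟨a1, a2, a3⟩ | ⟨a1, a2, a3, a4, a5⟩ | ⟨a1, a2, a3, a4, a5, a6, a7, a8⟩
    · rcases a3 with ⟨n0, n1, n2⟩ | ⟨n0, n1, n2, n3⟩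
      · exact Or.inl ⟨by omega, a1, a2, fun _ h => RC_ne51 G h.1 n2, fun h => by omega⟩
      · exact Or.inl ⟨by omega, a1, a2, fun h => by omega, fun _ h => hnF _ n3 h.2.1⟩
    · exact Or.inr ⟨a2, a3, Or.inl a1⟩
    · exact Or.inr ⟨a2, a3, Or.inr ⟨a1, a5⟩⟩
  · obtain ⟨c1, c2, c3⟩ := tk_fact89 G hG O.mirror c S hS hk
    refine ⟨c1, c2, ?_⟩
    have f0 : fl89n n = 0 → n = 1 := fun h => fl89n3 h (by unfold fl89n; norm_num)
    have f1 : fl89n n = 1 → n = 0 := fun h => fl89n3 h (by unfold fl89n; norm_num)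
    have f2 : fl89n n = 2 → n = 2 := fun h => fl89n3 h (by unfold fl89n; norm_num)
    have f3 : fl89n n = 3 → n = 3 := fun h => fl89n3 h (by unfold fl89n; norm_num)
    rcases c3 with ⟨a1, a2, a3⟩ | ⟨a1, a2, a3, a4, a5⟩ | ⟨a1, a2, a3, a4, a5, a6, a7, a8⟩
    · rcases a3 with ⟨n0, n1, n2⟩ | ⟨n0, n1, n2, n3⟩
      · have := f0 n0
        exact Or.inl ⟨by omega, a1, a2, fun h => by omega, fun _ h => RC_ne51 G h.1 n2⟩
      · have := f1 n0
        exact Or.inl ⟨by omega, a1, a2, fun _ h => hnF _ n3 h.2.1, fun h => by omega⟩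
    · exact Or.inr ⟨a2, a3, Or.inl (f2 a1)⟩
    · exact Or.inr ⟨a2, a3, Or.inr ⟨f3 a1, a5⟩⟩

/-- a raw token determines its point -/
theorem rw_uniq89 (hG : G.Geo4 al kp U) (hR : Rf G al opp) (O : Or62 G opp (sg G) s' p q)
    (c : Ch62 al Q opp g m) (S : Sq89 al Q opp g m)
    (hsum : ∀ v ∈ G.P, ∑ x ∈ Jv G v, TH G x ≤ 2 * Real.pi)
    {v v' : V} (hD : Df57 G al (F89 G Q opp g m) v) (hD' : Df57 G al (F89 G Q opp g m) v')
    {k : V × V} {n : ℕ} (hk : Rw89 G al Q opp g m s' p q v k n)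
    (hk' : Rw89 G al Q opp g m s' p q v' k n) : v = v' := by
  have key : ∀ w : V, Df57 G al (F89 G Q opp g m) w → ∀ x ∈ Jv G w, RC G (G.cl x) →
      RC G (G.cl (p x)) → x ∈ iJ G ∧ p x ∈ iJ G ∧ x.1 = w ∧ p (s' (p x)) = sg G x ∧
      q (sg G x) = s' (p x) ∧ RC G (G.cl (sg G x)) ∧ RC G (G.cl (s' (p x))) ∧
      TH G (sg G x) = opp (TH G x) ∧ TH G (s' (p x)) = opp (TH G (p x)) ∧ q (p x) = x := by
    intro w hw x hx rx rp
    obtain ⟨hpJ, hqJ⟩ := pJ57 G O hw.1.1 hx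
    have ix := (mem_Jv51 G).1 hx
    have ip := ((mem_Jv51 G).1 hpJ).1
    have ia := O.s2 _ ip
    have ib := O.s1 _ ix.1
    have e1 : p (s' (p x)) = sg G x := O.ps _ ix.1 ip
    refine ⟨ix.1, ip, ix.2, e1, ?_, ?_, ?_, O.o1 _ ix.1 rx, O.o2 _ ip rp, O.pq _ ix.1 ip⟩
    · rw [← e1]
      exact O.pq _ ia (by rw [e1]; exact ib)
    · rw [O.s1c _ ix.1]
      exact rx
    · rw [O.s2c _ ip]
      exact rp
  -- a bar token against a walk token of the first orientation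
  have A0 : ∀ w x, Df57 G al (F89 G Q opp g m) w → x ∈ Jv G w → RC G (G.cl x) →
      RC G (G.cl (p x)) → TH G x = Q → ∀ t0, St89 G Q opp g m p q t0 →
      Tk89 G al Q opp g m (sg G) s' p q t0 (s' (p x)) 0 → False := by
    intro w x hw hx rx rp tx t0 hS hT
    obtain ⟨k1, k2, k3, k4, k5, k6, k7, k8, k9, k10⟩ := key w hw x hx rx rp
    obtain ⟨c1, c2, c3⟩ := tk_fact89 G hG O c S hS hT
    rcases c3 with ⟨a1, a2, a3⟩ | ⟨a1, _⟩ | ⟨a1, _⟩
    · rcases a3 with ⟨n0, n1, n2⟩ | ⟨n0, n1, n2, n3⟩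
      · rw [k4] at n2
        exact RC_ne51 G k6 n2
      · omega
    · omega
    · omega
  have A1 : ∀ w x, Df57 G al (F89 G Q opp g m) w → x ∈ Jv G w → RC G (G.cl x) →
      RC G (G.cl (p x)) → TH G x = Q → ∀ t0, St89 G Q opp g m q p t0 →
      Tk89 G al Q opp g m s' (sg G) q p t0 (s' (p x)) 1 → False := by
    intro w x hw hx rx rp tx t0 hS hT
    obtain ⟨k1, k2, k3, k4, k5, k6, k7, k8, k9, k10⟩ := key w hw x hx rx rp
    obtain ⟨c1, c2, c3⟩ := tk_fact89 G hG O.mirror c S hS hT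
    rcases c3 with ⟨a1, a2, a3⟩ | ⟨a1, _⟩ | ⟨a1, _⟩
    · rcases a3 with ⟨n0, n1, n2⟩ | ⟨n0, n1, n2, n3⟩
      · omega
      · obtain ⟨j, hj, h⟩ := n3
        rw [k4, k8, tx, S.hQQ] at h
        have := c.bQ hj
        linarith
    · omega
    · omega
  have B0 : ∀ w x, Df57 G al (F89 G Q opp g m) w → x ∈ Jv G w → RC G (G.cl x) →
      RC G (G.cl (p x)) → TH G (p x) = Q → ∀ t0, St89 G Q opp g m q p t0 →
      Tk89 G al Q opp g m s' (sg G) q p t0 (sg G x) 0 → False := by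
    intro w x hw hx rx rp tx t0 hS hT
    obtain ⟨k1, k2, k3, k4, k5, k6, k7, k8, k9, k10⟩ := key w hw x hx rx rp
    obtain ⟨c1, c2, c3⟩ := tk_fact89 G hG O.mirror c S hS hT
    rcases c3 with ⟨a1, a2, a3⟩ | ⟨a1, _⟩ | ⟨a1, _⟩
    · rcases a3 with ⟨n0, n1, n2⟩ | ⟨n0, n1, n2, n3⟩
      · rw [k5] at n2
        exact RC_ne51 G k7 n2
      · omega
    · omega
    · omega
  have B1 : ∀ w x, Df57 G al (F89 G Q opp g m) w → x ∈ Jv G w → RC G (G.cl x) →
      RC G (G.cl (p x)) → TH G (p x) = Q → ∀ t0, St89 G Q opp g m p q t0 →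
      Tk89 G al Q opp g m (sg G) s' p q t0 (sg G x) 1 → False := by
    intro w x hw hx rx rp tx t0 hS hT
    obtain ⟨k1, k2, k3, k4, k5, k6, k7, k8, k9, k10⟩ := key w hw x hx rx rp
    obtain ⟨c1, c2, c3⟩ := tk_fact89 G hG O c S hS hT
    rcases c3 with ⟨a1, a2, a3⟩ | ⟨a1, _⟩ | ⟨a1, _⟩
    · rcases a3 with ⟨n0, n1, n2⟩ | ⟨n0, n1, n2, n3⟩
      · omega
      · obtain ⟨j, hj, h⟩ := n3
        rw [k5, k9, tx, S.hQQ] at h
        have := c.bQ hj
        linarith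
    · omega
    · omega
  have f00 : fl89n 0 = 1 := by
    unfold fl89n
    norm_num
  have f11 : fl89n 1 = 0 := by
    unfold fl89n
    norm_num
  rcases hk with ⟨x, hx, rx, rp, tx, tp, h1, h2⟩ | ⟨x, hx, rx, rp, tx, tp, h1, h2⟩ |
    ⟨t0, h0, hS, hk⟩ | ⟨t0, h0, hS, hk⟩
  · obtain ⟨k1, k2, k3, k4, k5, k6, k7, k8, k9, k10⟩ := key v hD x hx rx rp
    rcases hk' with ⟨y, hy, ry, rq, ty, tq, h1', h2'⟩ | ⟨y, hy, ry, rq, ty, tq, h1', h2'⟩ |
      ⟨t1, h0', hS', hk'⟩ | ⟨t1, h0', hS', hk'⟩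
    · obtain ⟨l1, l2, l3, l4, l5, l6, l7, l8, l9, l10⟩ := key v' hD' y hy ry rq
      have h3 : p x = p y := by
        rw [← O.s21 _ k2, ← h1, h1', O.s21 _ l2]
      rw [← k3, ← l3, ← k10, h3, l10]
    · omega
    · subst h1
      subst h2
      exact (A0 v x hD hx rx rp tx t1 hS' hk').elim
    · subst h1
      subst h2
      rw [f00] at hk'
      exact (A1 v x hD hx rx rp tx t1 hS' hk').elim
  · obtain ⟨k1, k2, k3, k4, k5, k6, k7, k8, k9, k10⟩ := key v hD x hx rx rp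
    rcases hk' with ⟨y, hy, ry, rq, ty, tq, h1', h2'⟩ | ⟨y, hy, ry, rq, ty, tq, h1', h2'⟩ |
      ⟨t1, h0', hS', hk'⟩ | ⟨t1, h0', hS', hk'⟩
    · omega
    · obtain ⟨l1, l2, l3, l4, l5, l6, l7, l8, l9, l10⟩ := key v' hD' y hy ry rq
      have h3 : x = y := by
        rw [← O.s12 _ k1, ← h1, h1', O.s12 _ l1]
      rw [← k3, ← l3, h3]
    · subst h1
      subst h2
      exact (B1 v x hD hx rx rp tp t1 hS' hk').elim
    · subst h1
      subst h2
      rw [f11] at hk'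
      exact (B0 v x hD hx rx rp tp t1 hS' hk').elim
  · rcases hk' with ⟨y, hy, ry, rq, ty, tq, h1', h2'⟩ | ⟨y, hy, ry, rq, ty, tq, h1', h2'⟩ |
      ⟨t1, h0', hS', hk'⟩ | ⟨t1, h0', hS', hk'⟩
    · subst h1'
      subst h2'
      exact (A0 v' y hD' hy ry rq ty t0 hS hk).elim
    · subst h1'
      subst h2'
      exact (B1 v' y hD' hy ry rq tq t0 hS hk).elim
    · rw [← h0, ← h0', tk_uniq89 G hG O c S hS hS' hk hk']
    · rw [← h0, ← h0']
      exact tk_om89 G hG hR O c S hsum hS hS' hk hk'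
  · rcases hk' with ⟨y, hy, ry, rq, ty, tq, h1', h2'⟩ | ⟨y, hy, ry, rq, ty, tq, h1', h2'⟩ |
      ⟨t1, h0', hS', hk'⟩ | ⟨t1, h0', hS', hk'⟩
    · subst h1'
      subst h2'
      rw [f00] at hk
      exact (A1 v' y hD' hy ry rq ty t0 hS hk).elim
    · subst h1'
      subst h2'
      rw [f11] at hk
      exact (B0 v' y hD' hy ry rq tq t0 hS hk).elim
    · rw [← h0, ← h0']
      exact (tk_om89 G hG hR O c S hsum hS' hS hk' hk).symm
    · rw [← h0, ← h0', tk_uniq89 G hG O.mirror c S hS hS' hk hk']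

/-- the tokens handed to the accounting -/
def cv89 (m : ℕ) (u : (V × V) × ℕ) : Finset ((V × V) × ℕ) :=
  if u.2 ≤ 1 ∨ u.1.1 ∉ inN G then {u}
  else if m = 1 then (if u.2 = 2 then {(u.1, 0)} else {(u.1, 1)})
  else {(u.1, 0), (u.1, 1)}

theorem cv_mem89 {u t : (V × V) × ℕ} (h : t ∈ cv89 G m u) :
    t.1 = u.1 ∧ ((t = u ∧ (u.2 ≤ 1 ∨ u.1.1 ∉ inN G)) ∨
      (2 ≤ u.2 ∧ u.1.1 ∈ inN G ∧ t.2 ≤ 1 ∧ (m = 1 → u.2 ≤ 3 → u.2 = t.2 + 2))) := by
  unfold cv89 at h
  by_cases h1 : u.2 ≤ 1 ∨ u.1.1 ∉ inN G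
  · rw [if_pos h1, Finset.mem_singleton] at h
    rw [h]
    exact ⟨rfl, Or.inl ⟨rfl, h1⟩⟩
  · rw [if_neg h1] at h
    rw [not_or, not_not, not_le] at h1
    by_cases hm : m = 1
    · rw [if_pos hm] at h
      by_cases h2 : u.2 = 2
      · rw [if_pos h2, Finset.mem_singleton] at h
        rw [h]
        exact ⟨rfl, Or.inr ⟨h1.1, h1.2, Nat.zero_le _, fun _ _ => h2⟩⟩
      · rw [if_neg h2, Finset.mem_singleton] at h
        rw [h]
        refine ⟨rfl, Or.inr ⟨h1.1, h1.2, le_rfl, fun _ h3 => ?_⟩⟩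
        show u.2 = 1 + 2
        omega
    · rw [if_neg hm, Finset.mem_insert, Finset.mem_singleton] at h
      rcases h with h | h
      · rw [h]
        exact ⟨rfl, Or.inr ⟨h1.1, h1.2, Nat.zero_le _, fun h => absurd h hm⟩⟩
      · rw [h]
        exact ⟨rfl, Or.inr ⟨h1.1, h1.2, le_rfl, fun h => absurd h hm⟩⟩

/-- the token row of a chain that ends in the square -/
theorem row89 (hG : G.Geo4 al kp U) (hR : Rf G al opp) (c : Ch62 al Q opp g m)
    (S : Sq89 al Q opp g m)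
    (hN4 : ∀ k l, k ≤ m → l ≤ m → opp (g k) + opp (g l) ≠ 2 * al + opp (g m))
    (hsum : ∀ v ∈ G.P, ∑ x ∈ Jv G v, TH G x ≤ 2 * Real.pi)
    (hA : ∀ C ∈ G.iC, A3 al * (G.cT C).card ≤ ∑ x ∈ G.cD C, G.ar x.1 x.2 / 3)
    (hP : ∀ C ∈ G.iC, (G.cT C).card = 3 → (G.cI C).card = 4 → ∑ x ∈ G.cJ C, wc G al x ≤ 12)
    {de : ℝ} (hd0 : 0 ≤ de) (hd1 : ((m : ℝ) + 1) * de ≤ 1 / 2) (hd2 : m = 1 → 1 / 12 ≤ de) :
    TokRow G al de := by
  obtain ⟨s', p, q, O⟩ := or62 G hG hR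
  have hlow := hR.low
  have hF : ∀ x ∈ iJ G, RC G (G.cl x) → TH G x ≠ Q →
      (F89 G Q opp g m (sg G x) ↔ ¬ F89 G Q opp g m x) :=
    fun x hx rx h => (alt89 G O c S hlow hx rx h).2
  have hfr := fb89_ok G O c S.hQQ de hF
  have hT : ∀ v, ∃ t : (V × V) × ℕ, VS57 G al Q opp g m v →
      Rw89 G al Q opp g m s' p q v t.1 t.2 := by
    intro v
    by_cases h : VS57 G al Q opp g m v
    · obtain ⟨k, n, hk⟩ := rw_ex89 G hG O c S h
      exact ⟨(k, n), fun _ => hk⟩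
    · exact ⟨((v, v), 0), fun h' => absurd h' h⟩
  choose tk htk using hT
  have hfact : ∀ v, VS57 G al Q opp g m v → _ := fun v hv =>
    rw_fact89 G hG O c S hlow (vs_df89 G c hv) (htk v hv)
  have hnQ : ∀ k, (∃ j, j ≤ m ∧ TH G k = g j) → TH G k = Q → False := by
    rintro k ⟨j, hj, h1⟩ h2
    have := c.gm hj
    linarith
  have hm := S.hm
  have hm1 : (1 : ℝ) ≤ (m : ℝ) := by exact_mod_cast hm
  unfold TokRow
  refine accb89 G hG O c (fc89 G) S.hsq S.hQQ (by have := S.hQ3; linarith) hN4 hd0 hd1 hF hfr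
    hA hP (fun v => cv89 G m (tk v)) ?_ ?_ ?_ ?_
  · intro v hv t ht
    obtain ⟨h1, h2⟩ := cv_mem89 G ht
    obtain ⟨c1, c2, c3⟩ := hfact v hv
    rw [h1]
    refine ⟨c1, c2, ?_⟩
    rcases c3 with ⟨a1, a2, a3, a4, a5⟩ | ⟨a1, a2, a3⟩
    · have h3 : t = tk v := by
        rcases h2 with h2 | h2
        · exact h2.1
        · exact absurd a1 (by omega)
      rw [h3]
      exact ⟨Or.inr ⟨a2, a3⟩, by omega, fun h h' => a4 h ⟨h'.1, h'.2.1, h'.2.2.1⟩,
        fun h h' => a5 h ⟨h'.1, h'.2.1, h'.2.2.1⟩, fun h => absurd h (by omega)⟩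
    · refine ⟨Or.inl a2, ?_, fun _ h' => h'.2.2.2 a1, fun _ h' => h'.2.2.2 a1, fun h => ⟨a1, ?_⟩⟩
      · rcases h2 with h2 | h2
        · rw [h2.1]
          omega
        · omega
      · rcases h2 with h2 | h2
        · rw [h2.1] at h
          rcases h2.2 with h4 | h4
          · exact absurd h4 (by omega)
          · exact h4
        · exact absurd h2.2.2.1 (by omega)
  · have main : ∀ v w k a b, VS57 G al Q opp g m v → VS57 G al Q opp g m w → 2 ≤ a → b ≤ 1 →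
        (k, a) ∈ cv89 G m (tk v) → (k, b) ∈ cv89 G m (tk w) → False := by
      intro v w k a b hv hw ha hb h1 h2
      obtain ⟨e1, e2⟩ := cv_mem89 G h1
      obtain ⟨f1, f2⟩ := cv_mem89 G h2
      obtain ⟨c1, c2, c3⟩ := hfact v hv
      obtain ⟨d1, d2, d3⟩ := hfact w hw
      rcases e2 with ⟨e3, e4⟩ | e3
      · rw [← e3] at c3 e4
        change _ ∨ k.1 ∉ inN G at e4
        have hkN : k.1 ∉ inN G := by
          rcases e4 with e4 | e4
          · exact absurd (show a ≤ 1 from e4) (by omega)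
          · exact e4
        have hkQ : TH G k = Q := by
          rcases c3 with ⟨a1, _⟩ | ⟨a1, _⟩
          · exact absurd (show a ≤ 1 from a1) (by omega)
          · exact a1
        rcases f2 with ⟨f3, f4⟩ | f3
        · rw [← f3] at d3
          rcases d3 with ⟨_, a1, _⟩ | ⟨_, _, a1⟩
          · exact hnQ _ a1 hkQ
          · change b = 2 ∨ (b = 3 ∧ m = 1) at a1
            omega
        · apply hkN
          have h5 := f3.2.1
          rw [← f1] at h5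
          exact h5
      · exact absurd (show a ≤ 1 from e3.2.2.1) (by omega)
    intro v w k hv hw
    exact ⟨fun h1 h2 => main v w k 2 0 hv hw le_rfl (by norm_num) h1 h2,
      fun h1 h2 => main v w k 3 1 hv hw (by norm_num) le_rfl h1 h2⟩
  · intro v v' hv hv' hne
    rw [Finset.disjoint_left]
    intro t h1 h2
    apply hne
    have hD := vs_df89 G c hv
    have hD' := vs_df89 G c hv'
    have key : tk v = tk v' := by
      obtain ⟨e1, e2⟩ := cv_mem89 G h1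
      obtain ⟨f1, f2⟩ := cv_mem89 G h2
      obtain ⟨c1, c2, c3⟩ := hfact v hv
      obtain ⟨d1, d2, d3⟩ := hfact v' hv'
      rcases e2 with ⟨e3, e4⟩ | e3
      · rcases f2 with ⟨f3, f4⟩ | f3
        · exact e3.symm.trans f3
        · exfalso
          have hQ : TH G (tk v').1 = Q := by
            rcases d3 with ⟨a1, _⟩ | ⟨a1, _⟩
            · exact absurd a1 (by omega)
            · exact a1
          rw [← f1, e1] at hQ
          have h5 := f3.2.2.1
          rw [e3] at h5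
          rcases c3 with ⟨_, a1, _⟩ | ⟨_, _, a1⟩
          · exact hnQ _ a1 hQ
          · omega
      · rcases f2 with ⟨f3, f4⟩ | f3
        · exfalso
          have hQ : TH G (tk v).1 = Q := by
            rcases c3 with ⟨a1, _⟩ | ⟨a1, _⟩
            · exact absurd a1 (by omega)
            · exact a1
          rw [← e1, f1] at hQ
          have h5 := e3.2.2.1
          rw [f3] at h5
          rcases d3 with ⟨_, a1, _⟩ | ⟨_, _, a1⟩
          · exact hnQ _ a1 hQ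
          · omega
        · have h5 : (tk v).2 = (tk v').2 := by
            rcases c3 with ⟨a1, _⟩ | ⟨_, _, a1⟩
            · exact absurd a1 (by omega)
            · rcases d3 with ⟨b1, _⟩ | ⟨_, _, b1⟩
              · exact absurd b1 (by omega)
              · by_cases hm1 : m = 1
                · have := e3.2.2.2 hm1 (by omega)
                  have := f3.2.2.2 hm1 (by omega)
                  omega
                · omega
          exact Prod.ext (e1.symm.trans f1) h5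
    have h3 := htk v hv
    rw [key] at h3
    exact rw_uniq89 G hG hR O c S hsum hD hD' h3 (htk v' hv')
  · intro v hv
    obtain ⟨c1, c2, c3⟩ := hfact v hv
    have h5 : 0 ≤ ((m : ℝ) + 2) * de := mul_nonneg (by linarith) hd0
    have hpos : ∀ j : ℕ, j ≤ m → ((j : ℝ) + 1) * de ≤ 2 * (((m : ℝ) + 2) * de) := by
      intro j hj
      have h6 : (j : ℝ) ≤ (m : ℝ) := by exact_mod_cast hj
      have h7 := mul_le_mul_of_nonneg_right (by linarith : (j : ℝ) + 1 ≤ 2 * ((m : ℝ) + 2)) hd0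
      linarith
    show _ ≤ ∑ t ∈ cv89 G m (tk v), _
    unfold cv89
    by_cases h1 : (tk v).2 ≤ 1 ∨ (tk v).1.1 ∉ inN G
    · rw [if_pos h1, Finset.sum_singleton]
      by_cases h2 : 2 ≤ (tk v).2
      · rw [if_pos h2]
        linarith
      · rw [if_neg h2]
        rcases c3 with ⟨_, ⟨j, hj, a2⟩, _⟩ | ⟨_, _, a1⟩
        · rw [hfr.lo _ c1 c2 j hj a2]
          have := hpos j hj
          linarith
        · exact absurd h2 (by omega)
    · rw [if_neg h1]
      rw [not_or, not_not, not_le] at h1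
      have hQ : TH G (tk v).1 = Q := by
        rcases c3 with ⟨a1, _⟩ | ⟨a1, _⟩
        · exact absurd a1 (by omega)
        · exact a1
      have hv := hfr.sq _ c1 c2 hQ
      by_cases h2 : m = 1
      · rw [if_pos h2]
        have h6 := hd2 h2
        have h7 : (m : ℝ) = 1 := by exact_mod_cast h2
        rw [h7]
        by_cases h3 : (tk v).2 = 2
        · rw [if_pos h3, Finset.sum_singleton, if_neg (by norm_num), hv]
          linarith
        · rw [if_neg h3, Finset.sum_singleton, if_neg (by norm_num), hv]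
          linarith
      · rw [if_neg h2, Finset.sum_pair (fun h => absurd (congrArg Prod.snd h) (by norm_num)),
          if_neg (by norm_num), if_neg (by norm_num), hv]
        linarith

end

end

end Pool.Agent.PEN.W4
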