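import Mathlib

/-! # Hyperbolic penny graphs, part 2: the arithmetic of the wide range (row W3) -/

set_option autoImplicit false

namespace Pool.Agent.PEN

/-- the integer inequalities have no solution -/
theorem arith66 {n t I b e l M : ℕ} (hn : 10 ≤ n) (hM : M + I = 3 * t + b)
    (h1 : 3 * t + 3 * b + 6 ≤ 6 * n) (h2 : 2 * n + e ≤ 2 * b + 3 * I)
    (hl1 : 7 * n ≤ 3 * l + 17) (hl2 : 19 * n ≤ 8 * l + 55) (hl3 : n = 29 → 63 ≤ l)
    (hl4 : 93 ≤ n → 50 * n ≤ 21 * l + 155) (hL : 2 * l + 2 ≤ M)
    (hph : (4 * t + 16 < 3 * e + 8 * b) ∨ (4 * t + 48 < 3 * e + 12 * b) ∨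
      (20 * t + 352 < 15 * e + 68 * b) ∨ (28 * t + 608 < 21 * e + 100 * b) ∨
      (12 * t + 308 < 9 * e + 44 * b)) : False := by
  rcases hph with h | h | h | h | h
  · rcases Nat.lt_or_ge n 11 with h3 | h3
    · have : n = 10 := by omega
      subst this
      omega
    · omega
  · omega
  · by_cases h3 : n ≤ 23
    · omega
    · by_cases h4 : 45 ≤ n
      · omega
      · have h5 : 24 ≤ n := by omega
        have h6 : n ≤ 44 := by omega
        interval_cases n <;> omega
  · omega
  · by_cases h3 : n ≤ 85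
    · omega
    · by_cases h4 : 93 ≤ n
      · omega
      · have h5 : 86 ≤ n := by omega
        have h6 : n ≤ 92 := by omega
        interval_cases n <;> omega

end Pool.Agent.PEN
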