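import Pool.Agent.P4.Defs3
import Pool.Agent.P4.W18
import Pool.Agent.P4.WA66

/-! # Hyperbolic penny graphs, part 2: the combinatorial theorem for the wide range (row W3) -/

set_option autoImplicit false

namespace Pool.Agent.PEN

open Classical UpperHalfPlane

noncomputable section

theorem Lb_facts66 (n : ℕ) (hn : 10 ≤ n) : 7 * n ≤ 3 * Lb n + 17 ∧ 19 * n ≤ 8 * Lb n + 55 ∧
    (n = 29 → 63 ≤ Lb n) ∧ (93 ≤ n → 50 * n ≤ 21 * Lb n + 155) := by
  have h1 : (7 * n - 15) / 3 ≤ Lb n := le_trans (le_max_left _ _) (le_max_left _ _)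
  have h2 : (19 * n - 48) / 8 ≤ Lb n := le_trans (le_max_right _ _) (le_max_left _ _)
  have h3 : (if n = 29 then 63 else if 93 ≤ n then (50 * n - 135) / 21 else 0) ≤ Lb n :=
    le_max_right _ _
  refine ⟨by omega, by omega, ?_, ?_⟩
  · intro h
    rw [if_pos h] at h3
    exact h3
  · intro h
    rw [if_neg (by omega), if_pos h] at h3
    omega

/-- W3 -/
theorem p4_main3 {V : Type} (G : Tg V) {al : ℝ} {kp : V → V → ℝ} {U : ℕ → ℝ}
    (hG : G.Geo al kp U) (hU : NumU3 al U) (hn : 10 ≤ G.P.card) :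
    (G.D.filter (fun x => G.con x.1 x.2)).card ≤ 2 * Lb G.P.card := by
  have h1 := dart_count G
  have h2 := E1_ineq G hG
  have h3 := E2_ineq G hG
  obtain ⟨E, hE⟩ := even_con18 G
  have hA := area_ge G hG
  have hB := area_le G hG hU.zero hU.mono hU.sup
  have hal : 0 < A3 al := by
    have := hG.al2
    unfold A3
    linarith
  obtain ⟨l1, l2, l3, l4⟩ := Lb_facts66 _ hn
  have hc3 := card_iD27 G
  generalize Lb G.P.card = l at l1 l2 l3 l4 ⊢
  generalize (∑ C ∈ G.iC, (G.cT C).card) = t at hc3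
  by_contra hc
  rw [not_le] at hc
  rcases Nat.eq_zero_or_pos G.iD.card with h0 | h0
  · omega
  have hb := hB.2 (Finset.card_pos.1 h0)
  have hAU := hA.trans hB.1
  have hs := hU.lt _ hb
  have h4 : A3 al * ((G.iD.card : ℝ) / 3 - 3 / 4 * (G.E2 : ℝ)) < A3 al * Phi G.oJ.card := by
    calc _ ≤ U G.oJ.card := hAU
      _ < _ := hs
      _ = _ := by ring
  have h5 := lt_of_mul_lt_mul_left h4 hal.le
  have h6 : (G.iD.card : ℝ) = 3 * t := by
    rw [hc3]
    push_cast
    ring
  rw [h6] at h5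
  unfold Phi at h5
  rw [lt_max_iff, lt_max_iff, lt_max_iff, lt_max_iff] at h5
  refine arith66 (n := G.P.card) (t := t) (I := G.iI.card) (b := G.oJ.card) (e := G.E2) (l := l)
    (M := (G.D.filter (fun x => G.con x.1 x.2)).card) hn (by omega) (by omega) h3 l1 l2 l3 l4
    (by omega) ?_
  rcases h5 with h5 | h5 | h5 | h5 | h5
  · left
    have h7 : (4 * t + 16 : ℝ) < 3 * G.E2 + 8 * G.oJ.card := by linarith
    exact_mod_cast h7
  · right; left
    have h7 : (4 * t + 48 : ℝ) < 3 * G.E2 + 12 * G.oJ.card := by linarith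
    exact_mod_cast h7
  · right; right; left
    have h7 : (20 * t + 352 : ℝ) < 15 * G.E2 + 68 * G.oJ.card := by linarith
    exact_mod_cast h7
  · right; right; right; left
    have h7 : (28 * t + 608 : ℝ) < 21 * G.E2 + 100 * G.oJ.card := by linarith
    exact_mod_cast h7
  · right; right; right; right
    have h7 : (12 * t + 308 : ℝ) < 9 * G.E2 + 44 * G.oJ.card := by linarith
    exact_mod_cast h7

end

end Pool.Agent.PEN
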