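import Pool.Agent.P4.XA39
import Pool.Agent.P4.X39

/-! # Hyperbolic penny graphs, part 2: the pentagon (row X5) -/

set_option autoImplicit false

namespace Pool.Agent.PEN

open Classical UpperHalfPlane

noncomputable section

/-! ### Angles at one vertex -/

lemma ang_coe_add39 {v a b c : ℍ} (ha : a ≠ v) (hb : b ≠ v) (hc : c ≠ v) :
    ((ang v a c : ℝ) : Real.Angle) = ((ang v a b : ℝ) : Real.Angle) + ((ang v b c : ℝ) : Real.Angle) := by
  unfold ang
  have h1 : Dv v c / Dv v a = (Dv v b / Dv v a) * (Dv v c / Dv v b) := by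
    field_simp [Dv_ne39 ha, Dv_ne39 hb]
  have hz : Dv v b / Dv v a ≠ 0 := div_ne_zero (Dv_ne39 hb) (Dv_ne39 ha)
  have hw : Dv v c / Dv v b ≠ 0 := div_ne_zero (Dv_ne39 hc) (Dv_ne39 hb)
  rw [h1, Complex.arg_mul_coe_angle hz hw]

lemma ang_eq_of_coe39 {v a b : ℍ} {t : ℝ} (h : ((ang v a b : ℝ) : Real.Angle) = (t : Real.Angle))
    (h1 : -Real.pi < t) (h2 : t ≤ Real.pi) : ang v a b = t := by
  have h3 := congrArg Real.Angle.toReal h
  have h4 : (((ang v a b : ℝ) : Real.Angle)).toReal = ang v a b := by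
    rw [Real.Angle.toReal_coe_eq_self_iff]
    exact ⟨Complex.neg_pi_lt_arg _, Complex.arg_le_pi _⟩
  have h5 : ((t : ℝ) : Real.Angle).toReal = t := by
    rw [Real.Angle.toReal_coe_eq_self_iff]
    exact ⟨h1, h2⟩
  rw [h4, h5] at h3
  exact h3

lemma ang_add39 {v a b c : ℍ} (ha : a ≠ v) (hb : b ≠ v) (hc : c ≠ v)
    (h1 : -Real.pi < ang v a b + ang v b c) (h2 : ang v a b + ang v b c ≤ Real.pi) :
    ang v a c = ang v a b + ang v b c := by
  refine ang_eq_of_coe39 ?_ h1 h2
  rw [ang_coe_add39 ha hb hc]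
  rfl

lemma ori_of_ang39 {v a b : ℍ} (h1 : 0 < ang v a b) (h2 : ang v a b < Real.pi) :
    0 < ori (kl v) (kl a) (kl b) := by
  rw [ori_pos_iff]
  unfold ang at h1 h2
  have h3 : 0 < Real.sin (Complex.arg (Dv v b / Dv v a)) := Real.sin_pos_of_pos_of_lt_pi h1 h2
  rw [Complex.sin_arg] at h3
  by_contra hcon
  push Not at hcon
  have := div_nonpos_of_nonpos_of_nonneg hcon (norm_nonneg (Dv v b / Dv v a))
  linarith

/-! ### Isosceles ears -/

private lemma iso_cot39' {d D γ β : ℝ} (hd : 0 < d) (hD : 0 < D)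
    (hγ : Penny39.Cos D d d γ) (hβ : Penny39.Cos d d D β)
    (h0 : 0 ≤ γ) (h1 : γ ≤ Real.pi) (b0 : 0 ≤ β) (b1 : β ≤ Real.pi) :
    Real.cos (γ / 2) * Real.cos β = Real.cosh d * (Real.sin (γ / 2) * Real.sin β) := by
  have hc := Penny39.cosh_gt_one hd
  have g2 : Real.cosh D = Real.cosh d * Real.cosh d - Real.sinh d * Real.sinh d * Real.cos γ := hγ
  rw [Penny39.sinh_sq'] at g2
  have g3 := Penny39.base_sq hD hβ
  rw [g2] at g3
  have g4 : 0 < Real.cosh d ^ 2 - 1 := by nlinarith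
  have h : Real.cos β ^ 2 * (Real.cosh d ^ 2 + 1 - (Real.cosh d ^ 2 - 1) * Real.cos γ) =
      Real.cosh d ^ 2 * (1 - Real.cos γ) := by
    have g5 : (Real.cosh d ^ 2 - 1) * (Real.cos β ^ 2 * (Real.cosh d ^ 2 + 1 -
        (Real.cosh d ^ 2 - 1) * Real.cos γ)) = (Real.cosh d ^ 2 - 1) *
        (Real.cosh d ^ 2 * (1 - Real.cos γ)) := by
      linear_combination g3
    exact mul_left_cancel₀ g4.ne' g5
  have hb := Penny39.base_pos hd hD hβ
  have e : Real.cos γ = 2 * Real.cos (γ / 2) ^ 2 - 1 := by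
    rw [← Real.cos_two_mul]; ring_nf
  have hs := Real.sin_sq_add_cos_sq (γ / 2)
  have hs' := Real.sin_sq_add_cos_sq β
  have c1 : 0 ≤ Real.cos (γ / 2) :=
    Real.cos_nonneg_of_mem_Icc ⟨by linarith [Real.pi_pos], by linarith⟩
  have s1 : 0 ≤ Real.sin (γ / 2) :=
    Real.sin_nonneg_of_nonneg_of_le_pi (by linarith) (by linarith [Real.pi_pos])
  have s2 : 0 ≤ Real.sin β := Real.sin_nonneg_of_nonneg_of_le_pi b0 b1
  have h2 : (Real.cos (γ / 2) * Real.cos β) ^ 2 =
      (Real.cosh d * (Real.sin (γ / 2) * Real.sin β)) ^ 2 := by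
    rw [e] at h
    have e1 : Real.sin (γ / 2) ^ 2 = 1 - Real.cos (γ / 2) ^ 2 := by linarith
    have e2 : Real.sin β ^ 2 = 1 - Real.cos β ^ 2 := by linarith
    rw [mul_pow, mul_pow, mul_pow, e1, e2]
    linear_combination h / 2
  have h3 : 0 ≤ Real.cos (γ / 2) * Real.cos β := mul_nonneg c1 hb.le
  have h4 : 0 ≤ Real.cosh d * (Real.sin (γ / 2) * Real.sin β) :=
    mul_nonneg (by linarith) (mul_nonneg s1 s2)
  exact (pow_left_inj₀ h3 h4 two_ne_zero).1 h2

/-- if the apex angle is at least `2 alpha` then the base angle is at most `alpha / 2` -/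
private lemma base_half39 {d D γ β : ℝ} (hd : 0 < d) (hD : 0 < D)
    (hγ : Penny39.Cos D d d γ) (hβ : Penny39.Cos d d D β)
    (h0 : 2 * alpha d ≤ γ) (h1 : γ ≤ Real.pi) (b0 : 0 ≤ β) (b1 : β ≤ Real.pi) :
    β ≤ alpha d / 2 := by
  have hal := alpha_lt hd
  have hal0 := alpha_pos hd
  have hl := cos_alpha_law39 hd
  have hpi := Real.pi_pos
  have hc := Penny39.cosh_gt_one hd
  have e1 := iso_cot39' hd hD hγ hβ (by linarith) h1 b0 b1
  have e2 := iso_cot39' hd hd hl hl hal0.le (alpha_le_pi39 d) hal0.le (alpha_le_pi39 d)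
  have hb := Penny39.base_pos hd hD hβ
  have hβ2 : β < Real.pi / 2 := by
    by_contra hcon
    push Not at hcon
    have := Real.cos_nonpos_of_pi_div_two_le_of_le hcon (by linarith)
    linarith
  by_contra hcon
  push Not at hcon
  have a1 : Real.sin (alpha d / 2) < Real.sin β :=
    Real.sin_lt_sin_of_lt_of_le_pi_div_two (by linarith) hβ2.le hcon
  have a2 : Real.cos β < Real.cos (alpha d / 2) :=
    Real.cos_lt_cos_of_nonneg_of_le_pi (by linarith) b1 hcon
  have a3 : Real.sin (alpha d) ≤ Real.sin (γ / 2) :=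
    Real.sin_le_sin_of_le_of_le_pi_div_two (by linarith) (by linarith) (by linarith)
  have a4 : Real.cos (γ / 2) ≤ Real.cos (alpha d) :=
    Real.cos_le_cos_of_nonneg_of_le_pi (by linarith) (by linarith) (by linarith)
  have p1 : 0 < Real.sin (alpha d) := Real.sin_pos_of_pos_of_lt_pi hal0 (by linarith)
  have p2 : 0 < Real.sin (alpha d / 2) := Real.sin_pos_of_pos_of_lt_pi (by linarith) (by linarith)
  have p3 : 0 < Real.cos (alpha d) := Real.cos_pos_of_mem_Ioo ⟨by linarith, by linarith⟩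
  have p4 : 0 ≤ Real.cos (γ / 2) :=
    Real.cos_nonneg_of_mem_Icc ⟨by linarith, by linarith⟩
  have q1 : Real.sin (alpha d) * Real.sin (alpha d / 2) < Real.sin (γ / 2) * Real.sin β :=
    mul_lt_mul' a3 a1 p2.le (by linarith)
  have q2 : Real.cos (γ / 2) * Real.cos β ≤ Real.cos (alpha d) * Real.cos (alpha d / 2) :=
    mul_le_mul a4 a2.le hb.le p3.le
  have q3 := mul_lt_mul_of_pos_left q1 (show 0 < Real.cosh d by linarith)
  rw [← e1] at q3
  have q4 : Real.cosh d * (Real.sin (alpha d) * Real.sin (alpha d / 2)) =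
      Real.cos (alpha d) * Real.cos (alpha d / 2) := by linarith
  linarith

/-- data of an isosceles ear `u v w` with apex `w` -/
structure Ear39 (d : ℝ) (u v w : ℍ) : Prop where
  ap0 : 0 < ang w u v
  ap1 : ang w u v < Real.pi
  ge : alpha d ≤ ang w u v
  u0 : 0 < ang u v w
  u1 : ang u v w ≤ alpha d
  v0 : 0 < ang v w u
  v1 : ang v w u ≤ alpha d
  uh : 2 * alpha d ≤ ang w u v → ang u v w ≤ alpha d / 2
  vh : 2 * alpha d ≤ ang w u v → ang v w u ≤ alpha d / 2
  law : Penny39.Cos (dist u v) d d (ang w u v)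
  area : S51 u v w = sA d (ang w u v)

lemma ear39 {d : ℝ} (hd : 0 < d) {u v w : ℍ} (o : 0 < ori (kl u) (kl v) (kl w))
    (h1 : dist v w = d) (h2 : dist w u = d) (h3 : d ≤ dist u v) : Ear39 d u v w := by
  have nuv : u ≠ v := ne_of_dist39 hd h3
  have nvw : v ≠ w := ne_of_dist39 hd h1.ge
  have nwu : w ≠ u := ne_of_dist39 hd h2.ge
  have o1 : 0 < ori (kl v) (kl w) (kl u) := by rw [← ori_rot39]; exact o
  have o2 : 0 < ori (kl w) (kl u) (kl v) := by rw [← ori_rot39]; exact o1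
  obtain ⟨g0, g1⟩ := ang_pos o2
  obtain ⟨b0, b1⟩ := ang_pos o
  obtain ⟨c0, c1⟩ := ang_pos o1
  have eγ : Penny39.Cos (dist u v) d d (ang w u v) := by
    have := cosh_law nwu.symm nvw
    rw [h2, dist_comm w v, h1] at this
    exact this
  have eβ : Penny39.Cos d d (dist u v) (ang u v w) := by
    have := cosh_law nuv.symm nwu
    rw [h1, dist_comm u w, h2] at this
    unfold Penny39.Cos
    linarith
  have eβ' : Penny39.Cos d d (dist u v) (ang v w u) := by
    have := cosh_law nvw.symm nuv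
    rw [h1, h2, dist_comm v u] at this
    exact this
  have hl := cos_alpha_law39 hd
  have hD : 0 < dist u v := by linarith
  refine ⟨g0, g1, ?_, b0, ?_, c0, ?_, ?_, ?_, eγ, ?_⟩
  · exact Penny39.apex_ge hd h3 (alpha_le_pi39 d) g0.le hl eγ
  · exact Penny39.base_le hd h3 (alpha_nonneg39 d) b1.le hl eβ
  · exact Penny39.base_le hd h3 (alpha_nonneg39 d) c1.le hl eβ'
  · intro h
    exact base_half39 hd hD eγ eβ h g1.le b0.le b1.le
  · intro h
    exact base_half39 hd hD eγ eβ' h g1.le c0.le c1.le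
  · rw [← S51_rot, ← S51_rot]
    exact S51_isosceles hd h2 (by rw [dist_comm]; exact h1)

/-! ### The middle triangle -/

/-- the angle opposite to a side `d` between sides at least `d` is at most `alpha` -/
private lemma opp_cos39 {d x y t : ℝ} (hd : 0 < d) (hx : d ≤ x) (hxy : x ≤ y)
    (h : Real.cosh d = Real.cosh x * Real.cosh y - Real.sinh x * Real.sinh y * Real.cos t) :
    Real.cosh d / (Real.cosh d + 1) ≤ Real.cos t := by
  have hc := Penny39.cosh_gt_one hd
  have hx0 : 0 < x := by linarith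
  have hy0 : 0 < y := by linarith
  have h1 : Real.cosh d ≤ Real.cosh x :=
    Real.cosh_le_cosh.2 (by rw [abs_of_pos hd, abs_of_pos hx0]; exact hx)
  have h2 : Real.cosh x ≤ Real.cosh y :=
    Real.cosh_le_cosh.2 (by rw [abs_of_pos hx0, abs_of_pos hy0]; exact hxy)
  set C := Real.cosh d with hC
  set X := Real.cosh x with hX
  set Y := Real.cosh y with hY
  have hs : 0 < Real.sinh x * Real.sinh y := mul_pos (Real.sinh_pos_iff.2 hx0) (Real.sinh_pos_iff.2 hy0)
  have hs2 : (Real.sinh x * Real.sinh y) ^ 2 = (X ^ 2 - 1) * (Y ^ 2 - 1) := Penny39.sinh_sinh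
  have h3 : X * (Y - 1) ≤ Real.sinh x * Real.sinh y * Real.cos t := by linarith
  have hXY : 0 < X * (Y - 1) := mul_pos (by linarith) (by linarith)
  have ht : 0 < Real.cos t := by
    by_contra hcon
    push Not at hcon
    nlinarith
  have h4 : (X * (Y - 1)) ^ 2 ≤ (X ^ 2 - 1) * (Y ^ 2 - 1) * Real.cos t ^ 2 := by
    rw [← hs2, ← mul_pow]
    exact pow_le_pow_left₀ hXY.le h3 2
  -- divide by Y - 1
  have h5 : X ^ 2 * (Y - 1) ≤ (X ^ 2 - 1) * (Y + 1) * Real.cos t ^ 2 := by
    have : (Y - 1) * (X ^ 2 * (Y - 1)) ≤ (Y - 1) * ((X ^ 2 - 1) * (Y + 1) * Real.cos t ^ 2) := by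
      linarith
    exact le_of_mul_le_mul_left this (by linarith)
  have h6 : X ^ 2 * ((X - 1) * (Y + 1)) ≤ (X + 1) * ((X ^ 2 - 1) * (Y + 1) * Real.cos t ^ 2) := by
    have h7 : (X - 1) * (Y + 1) ≤ (X + 1) * (Y - 1) := by nlinarith
    have h8 := mul_le_mul_of_nonneg_left h7 (show 0 ≤ X ^ 2 by positivity)
    have h9 := mul_le_mul_of_nonneg_left h5 (show 0 ≤ X + 1 by linarith)
    nlinarith
  have h10 : X ^ 2 ≤ ((X + 1) * Real.cos t) ^ 2 := by
    have hp : 0 < (X - 1) * (Y + 1) := mul_pos (by linarith) (by linarith)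
    have : (X - 1) * (Y + 1) * X ^ 2 ≤ (X - 1) * (Y + 1) * ((X + 1) * Real.cos t) ^ 2 := by
      linarith
    exact le_of_mul_le_mul_left this hp
  have h11 : X ≤ (X + 1) * Real.cos t := by
    have hp : 0 ≤ (X + 1) * Real.cos t := mul_nonneg (by linarith) ht.le
    exact le_of_sq_le_sq h10 hp
  rw [div_le_iff₀ (by linarith)]
  have h12 : Real.cos t ≤ 1 := Real.cos_le_one t
  nlinarith

private lemma opp_le39 {d x y t : ℝ} (hd : 0 < d) (hx : d ≤ x) (hy : d ≤ y) (t1 : t ≤ Real.pi)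
    (h : Real.cosh d = Real.cosh x * Real.cosh y - Real.sinh x * Real.sinh y * Real.cos t) :
    t ≤ alpha d := by
  have h1 : Real.cos (alpha d) ≤ Real.cos t := by
    rw [cos_alpha hd]
    rcases le_total x y with h2 | h2
    · exact opp_cos39 hd hx h2 h
    · exact opp_cos39 hd hy h2 (by linarith)
  by_contra hcon
  push Not at hcon
  have := Real.cos_lt_cos_of_nonneg_of_le_pi (alpha_nonneg39 d) t1 hcon
  linarith

/-! ### The pentagon -/

/-- the hypotheses of the pentagon -/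
structure Pent39 (d : ℝ) (a b c p q : ℍ) : Prop where
  o1 : 0 < ori (kl a) (kl b) (kl c)
  o2 : 0 < ori (kl c) (kl b) (kl p)
  o3 : 0 < ori (kl a) (kl c) (kl q)
  hab : dist a b = d
  hbp : dist b p = d
  hpc : dist p c = d
  hcq : dist c q = d
  hqa : dist q a = d
  hbc : d ≤ dist b c
  hca : d ≤ dist c a
  hap : d ≤ dist a p
  hbq : d ≤ dist b q
  hpq : d ≤ dist p q

/-- the area of the pentagon -/
def PA39 (a b c p q : ℍ) : ℝ := S51 a b c + S51 c b p + S51 a c q

section core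

variable {d : ℝ} {a b c p q : ℍ}

/-- the ears of the pentagon -/
private lemma Pent39.ears (h : Pent39 d a b c p q) (hd : 0 < d) :
    Ear39 d c b p ∧ Ear39 d a c q :=
  ⟨ear39 hd h.o2 h.hbp h.hpc (by rw [dist_comm]; exact h.hbc),
    ear39 hd h.o3 h.hcq h.hqa (by rw [dist_comm]; exact h.hca)⟩

/-- case (i) -/
private lemma pent_i39 (h : Pent39 d a b c p q) (hd : 0 < d) (ha : 2 * Real.pi < 7 * alpha d)
    (hθ : ang p c b ≤ 2 * alpha d) (hφ : ang q a c ≤ 2 * alpha d) :
    3 / 2 * A3 (alpha d) ≤ PA39 a b c p q := by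
  obtain ⟨e1, e2⟩ := h.ears hd
  have hA : 0 < A3 (alpha d) := by unfold A3; linarith [alpha_lt hd]
  have f1 := S51_pos h.o1
  have f2 := (sA_ge hd ha e1.ge).1 hθ
  have f3 := (sA_ge hd ha e2.ge).1 hφ
  rw [← e1.area] at f2
  rw [← e2.area] at f3
  unfold PA39
  linarith

/-- the angle at `c` of the middle triangle -/
private lemma Pent39.gam (h : Pent39 d a b c p q) (hd : 0 < d) :
    0 < ang c a b ∧ ang c a b ≤ alpha d := by
  have o : 0 < ori (kl c) (kl a) (kl b) := by rw [ori_rot39]; exact h.o1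
  obtain ⟨g0, g1⟩ := ang_pos o
  refine ⟨g0, ?_⟩
  have hcb : b ≠ c := ne_of_dist39 hd h.hbc
  have hac : a ≠ c := (ne_of_dist39 hd h.hca).symm
  have := cosh_law hac hcb
  rw [h.hab, dist_comm c b] at this
  exact opp_le39 hd h.hca h.hbc g1.le this

/-- case (ii) -/
private lemma pent_ii39 (h : Pent39 d a b c p q) (hd : 0 < d) (ha : 2 * Real.pi < 7 * alpha d)
    (hθ : ang p c b ≤ 2 * alpha d) (hφ : 2 * alpha d ≤ ang q a c) :
    3 / 2 * A3 (alpha d) ≤ PA39 a b c p q := by
  obtain ⟨e1, e2⟩ := h.ears hd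
  have hal := alpha_lt hd
  have hal0 := alpha_pos hd
  have hpi := Real.pi_pos
  have hA : 0 < A3 (alpha d) := by unfold A3; linarith
  obtain ⟨gc0, gc1⟩ := h.gam hd
  have nab : b ≠ a := (ne_of_dist39 hd h.hab.ge).symm
  have nbc : b ≠ c := ne_of_dist39 hd h.hbc
  have nca : c ≠ a := ne_of_dist39 hd h.hca
  have ncq : c ≠ q := ne_of_dist39 hd h.hcq.ge
  have nqa : q ≠ a := ne_of_dist39 hd h.hqa.ge
  -- |bc| ≤ |ca|
  have hbc_ca : Real.cosh (dist b c) ≤ Real.cosh (dist c a) := by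
    have l1 : Real.cosh (dist c b) = Real.cosh d * Real.cosh d -
      Real.sinh d * Real.sinh d * Real.cos (ang p c b) := e1.law
    have l2 : Real.cosh (dist a c) = Real.cosh d * Real.cosh d -
      Real.sinh d * Real.sinh d * Real.cos (ang q a c) := e2.law
    rw [dist_comm b c, dist_comm c a, l1, l2]
    have hcos : Real.cos (ang q a c) ≤ Real.cos (ang p c b) :=
      Real.cos_le_cos_of_nonneg_of_le_pi e1.ap0.le e2.ap1.le (by linarith)
    have hs : 0 < Real.sinh d * Real.sinh d :=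
      mul_pos (Real.sinh_pos_iff.2 hd) (Real.sinh_pos_iff.2 hd)
    have := mul_le_mul_of_nonneg_left hcos hs.le
    linarith
  -- the angle at a of the middle triangle is less than π/2
  obtain ⟨ga0, ga1⟩ := ang_pos h.o1
  have hA2 : ang a b c < Real.pi / 2 := by
    have l := cosh_law nab nca
    have hx : 1 < Real.cosh (dist b c) := Penny39.cosh_gt_one (by linarith [h.hbc])
    have hz : 1 < Real.cosh (dist a b) := Penny39.cosh_gt_one (by linarith [h.hab])
    have hs : 0 < Real.sinh (dist a b) * Real.sinh (dist a c) :=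
      mul_pos (Real.sinh_pos_iff.2 (by linarith [h.hab]))
        (Real.sinh_pos_iff.2 (by rw [dist_comm]; linarith [h.hca]))
    rw [dist_comm c a] at hbc_ca
    by_contra hcon
    push Not at hcon
    have h5 : Real.cos (ang a b c) ≤ 0 :=
      Real.cos_nonpos_of_pi_div_two_le_of_le hcon (by linarith)
    have h6 : Real.sinh (dist a b) * Real.sinh (dist a c) * Real.cos (ang a b c) ≤ 0 :=
      mul_nonpos_of_nonneg_of_nonpos hs.le h5
    nlinarith
  have hb1 := e2.uh hφ
  have hb2 := e2.vh hφ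
  have b10 := e2.u0
  have b20 := e2.v0
  -- the angles at a and c
  have psiA : ang a b q = ang a b c + ang a c q :=
    ang_add39 nab nca nqa (by linarith) (by linarith)
  have psiC : ang c q b = ang c q a + ang c a b :=
    ang_add39 ncq.symm nca.symm nbc (by linarith) (by linarith)
  have oA : 0 < ori (kl a) (kl b) (kl q) := ori_of_ang39 (by linarith) (by linarith)
  have oC : 0 < ori (kl c) (kl q) (kl b) := ori_of_ang39 (by linarith) (by linarith)
  have oA' : 0 < ori (kl b) (kl q) (kl a) := by rw [← ori_rot39]; exact oA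
  have e3 := ear39 hd oA' h.hqa h.hab h.hbq
  have f3 := (sA_ge hd ha e3.ge).2 (by linarith)
  rw [← e3.area, S51_rot a b q] at f3
  have f4 := S51_pos oC
  rw [← S51_rot c q b, ← S51_rot q b c] at f4
  have f2 := (sA_ge hd ha e1.ge).1 hθ
  rw [← e1.area] at f2
  have f5 := S51_add a b c q
  unfold PA39
  linarith

/-- case (iii) -/
private lemma pent_iii39 (h : Pent39 d a b c p q) (hd : 0 < d) (ha : 2 * Real.pi < 7 * alpha d)
    (hθ : 2 * alpha d < ang p c b) (hφ : 2 * alpha d < ang q a c)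
    (hB : ang b c a ≤ Real.pi / 2) :
    3 / 2 * A3 (alpha d) ≤ PA39 a b c p q := by
  obtain ⟨e1, e2⟩ := h.ears hd
  have hal := alpha_lt hd
  have hal0 := alpha_pos hd
  have hpi := Real.pi_pos
  have hA : 0 < A3 (alpha d) := by unfold A3; linarith
  obtain ⟨gc0, gc1⟩ := h.gam hd
  have nab : b ≠ a := (ne_of_dist39 hd h.hab.ge).symm
  have nbc : b ≠ c := ne_of_dist39 hd h.hbc
  have nca : c ≠ a := ne_of_dist39 hd h.hca
  have ncq : c ≠ q := ne_of_dist39 hd h.hcq.ge
  have nbp : b ≠ p := ne_of_dist39 hd h.hbp.ge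
  have npc : p ≠ c := ne_of_dist39 hd h.hpc.ge
  have nap : a ≠ p := ne_of_dist39 hd h.hap
  have npq : p ≠ q := ne_of_dist39 hd h.hpq
  have oB : 0 < ori (kl b) (kl c) (kl a) := by rw [← ori_rot39]; exact h.o1
  obtain ⟨gb0, gb1⟩ := ang_pos oB
  -- cut off at b
  have b1 := e1.vh hθ.le
  have b10 := e1.v0
  have psiB : ang b p a = ang b p c + ang b c a :=
    ang_add39 nbp.symm nbc.symm nab.symm (by linarith) (by linarith)
  have oB' : 0 < ori (kl b) (kl p) (kl a) := ori_of_ang39 (by linarith) (by linarith)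
  have oB2 : 0 < ori (kl p) (kl a) (kl b) := by rw [← ori_rot39]; exact oB'
  have e3 := ear39 hd oB2 h.hab h.hbp (by rw [dist_comm]; exact h.hap)
  have f3 := (sA_ge hd ha e3.ge).2 (by linarith)
  rw [← e3.area] at f3
  -- cut off at c
  have c1 := e2.vh hφ.le
  have c2 := e1.uh hθ.le
  have c10 := e2.v0
  have c20 := e1.u0
  have psiC1 : ang c q b = ang c q a + ang c a b :=
    ang_add39 ncq.symm nca.symm nbc (by linarith) (by linarith)
  have psiC : ang c q p = ang c q b + ang c b p :=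
    ang_add39 ncq.symm nbc npc (by linarith) (by linarith)
  have oC' : 0 < ori (kl c) (kl q) (kl p) := ori_of_ang39 (by linarith) (by linarith)
  have oC2 : 0 < ori (kl q) (kl p) (kl c) := by rw [← ori_rot39]; exact oC'
  have e4 := ear39 hd oC2 h.hpc h.hcq (by rw [dist_comm]; exact h.hpq)
  have f4 := (sA_ge hd ha e4.ge).2 (by linarith)
  rw [← e4.area] at f4
  -- the rest
  have x0 := e4.v1
  have x1 := e3.u1
  have x00 := e4.v0
  have x10 := e3.u0
  have t1 := e1.ap1
  have psiP : ang p q a = ang p c b - ang p c q - ang p a b := by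
    refine ang_eq_of_coe39 ?_ (by linarith) (by linarith)
    have k1 := ang_coe_add39 (v := p) (a := c) (b := q) (c := b) npc.symm npq.symm nbp
    have k2 := ang_coe_add39 (v := p) (a := q) (b := a) (c := b) npq.symm nap nbp
    rw [k2] at k1
    rw [Real.Angle.coe_sub, Real.Angle.coe_sub, k1]
    abel
  have oP : 0 < ori (kl p) (kl q) (kl a) := ori_of_ang39 (by linarith) (by linarith)
  have f5 := S51_pos oP
  have g1 := S51_add a b p c
  have g2 := S51_add a p c q
  have g3 : S51 b p c = S51 c b p := S51_rot c b p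
  have g4 : S51 a b p = S51 p a b := S51_rot p a b
  have g5 : S51 p q a = S51 a p q := S51_rot a p q
  have g6 : S51 p c q = S51 q p c := S51_rot q p c
  unfold PA39
  linarith

end core

/-! ### The reflection -/

/-- the reflection `z ↦ - conj z` -/
def mir39 (z : ℍ) : ℍ := ⟨-(starRingEnd ℂ) (z : ℂ), by simpa using z.im_pos⟩

lemma mir_coe39 (z : ℍ) : ((mir39 z : ℍ) : ℂ) = -(starRingEnd ℂ) (z : ℂ) := rfl

lemma mir_re39 (z : ℍ) : (mir39 z).re = -z.re := by
  rw [← UpperHalfPlane.coe_re, mir_coe39]; simp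

lemma mir_im39 (z : ℍ) : (mir39 z).im = z.im := by
  rw [← UpperHalfPlane.coe_im, mir_coe39]; simp

lemma dist_mir39 (z w : ℍ) : dist (mir39 z) (mir39 w) = dist z w := by
  rw [UpperHalfPlane.dist_eq, UpperHalfPlane.dist_eq, mir_im39, mir_im39, mir_coe39, mir_coe39]
  congr 3
  rw [Complex.dist_eq, Complex.dist_eq]
  have : -(starRingEnd ℂ) (z : ℂ) - -(starRingEnd ℂ) (w : ℂ) = -(starRingEnd ℂ) ((z : ℂ) - w) := by
    rw [map_sub]; ring
  rw [this, norm_neg, Complex.norm_conj]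

lemma ori_mir39 (a b c : ℍ) : ori (kl (mir39 a)) (kl (mir39 b)) (kl (mir39 c)) =
    ori (kl b) (kl a) (kl c) := by
  unfold ori kl
  simp only [mir_re39, mir_im39]
  ring

lemma kap_mir39 (z w : ℍ) : kap (mir39 z) (mir39 w) = kap w z := by
  unfold kap Kz
  rw [mir_coe39, mir_coe39, map_neg, Complex.conj_conj]
  congr 3
  ring

lemma S_mir39 (x y z : ℍ) : S51 (mir39 x) (mir39 y) (mir39 z) = S51 x z y := by
  unfold S51
  rw [kap_mir39, kap_mir39, kap_mir39]
  ring

lemma Dv_mir39 (v p : ℍ) : Dv (mir39 v) (mir39 p) = (starRingEnd ℂ) (Dv v p) := by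
  unfold Dv
  rw [mir_coe39, mir_coe39, map_neg, Complex.conj_conj, map_div₀, map_sub, map_sub,
    Complex.conj_conj, ← neg_div_neg_eq]
  congr 1 <;> ring

lemma ang_mir39 {v a b : ℍ} (ha : a ≠ v) (hb : b ≠ v) :
    ang (mir39 v) (mir39 b) (mir39 a) = ang v a b := by
  unfold ang
  rw [Dv_mir39, Dv_mir39, ← map_div₀]
  have hx : Dv v b / Dv v a ≠ 0 := div_ne_zero (Dv_ne39 hb) (Dv_ne39 ha)
  have h1 : (starRingEnd ℂ) (Dv v a / Dv v b) =
      (((Complex.normSq (Dv v b / Dv v a))⁻¹ : ℝ) : ℂ) * (Dv v b / Dv v a) := by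
    rw [← inv_div (Dv v b) (Dv v a), Complex.inv_def, map_mul, Complex.conj_conj,
      Complex.conj_ofReal, mul_comm]
  rw [h1]
  exact Complex.arg_real_mul _ (inv_pos.2 (Complex.normSq_pos.2 hx))

private lemma Pent39.mir {d : ℝ} {a b c p q : ℍ} (h : Pent39 d a b c p q) :
    Pent39 d (mir39 b) (mir39 a) (mir39 c) (mir39 q) (mir39 p) := by
  constructor
  · rw [ori_mir39]; exact h.o1
  · rw [ori_mir39]; exact h.o3
  · rw [ori_mir39]; exact h.o2
  · rw [dist_mir39, dist_comm]; exact h.hab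
  · rw [dist_mir39, dist_comm]; exact h.hqa
  · rw [dist_mir39, dist_comm]; exact h.hcq
  · rw [dist_mir39, dist_comm]; exact h.hpc
  · rw [dist_mir39, dist_comm]; exact h.hbp
  · rw [dist_mir39, dist_comm]; exact h.hca
  · rw [dist_mir39, dist_comm]; exact h.hbc
  · rw [dist_mir39]; exact h.hbq
  · rw [dist_mir39]; exact h.hap
  · rw [dist_mir39, dist_comm]; exact h.hpq

private lemma PA_mir39 (a b c p q : ℍ) :
    PA39 (mir39 b) (mir39 a) (mir39 c) (mir39 q) (mir39 p) = PA39 a b c p q := by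
  unfold PA39
  rw [S_mir39, S_mir39, S_mir39]
  have g1 := S51_rot a b c
  have g2 := S51_rot a c q
  have g3 := S51_rot c b p
  linarith

private lemma pent_all39 {d : ℝ} {a b c p q : ℍ} (h : Pent39 d a b c p q) (hd : 0 < d)
    (ha : 2 * Real.pi < 7 * alpha d) : 3 / 2 * A3 (alpha d) ≤ PA39 a b c p q := by
  have nab : b ≠ a := (ne_of_dist39 hd h.hab.ge).symm
  have nbc : b ≠ c := ne_of_dist39 hd h.hbc
  have nca : c ≠ a := ne_of_dist39 hd h.hca
  have ncq : c ≠ q := ne_of_dist39 hd h.hcq.ge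
  have nbp : b ≠ p := ne_of_dist39 hd h.hbp.ge
  have npc : p ≠ c := ne_of_dist39 hd h.hpc.ge
  have nqa : q ≠ a := ne_of_dist39 hd h.hqa.ge
  have m1 : ang (mir39 q) (mir39 c) (mir39 a) = ang q a c := ang_mir39 nqa.symm ncq
  have m2 : ang (mir39 p) (mir39 b) (mir39 c) = ang p c b := ang_mir39 npc.symm nbp
  have m3 : ang (mir39 a) (mir39 c) (mir39 b) = ang a b c := ang_mir39 nab nca
  rcases le_or_gt (ang p c b) (2 * alpha d) with hθ | hθ
  · rcases le_or_gt (ang q a c) (2 * alpha d) with hφ | hφ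
    · exact pent_i39 h hd ha hθ hφ
    · exact pent_ii39 h hd ha hθ hφ.le
  · rcases le_or_gt (ang q a c) (2 * alpha d) with hφ | hφ
    · rw [← PA_mir39]
      exact pent_ii39 h.mir hd ha (by rw [m1]; exact hφ) (by rw [m2]; exact hθ.le)
    · rcases le_or_gt (ang b c a) (Real.pi / 2) with hB | hB
      · exact pent_iii39 h hd ha hθ hφ hB
      · rw [← PA_mir39]
        refine pent_iii39 h.mir hd ha (by rw [m1]; exact hφ) (by rw [m2]; exact hθ) ?_
        rw [m3]
        have h1 := ang_sum h.o1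
        have o : 0 < ori (kl c) (kl a) (kl b) := by rw [ori_rot39]; exact h.o1
        have h2 := (ang_pos o).1
        linarith

/-- X5: the pentagon: middle triangle `a b c`, ears `c b p` and `a c q` -/
theorem pentagon_area {d : ℝ} (hd : 0 < d) (ha : 2 * Real.pi < 7 * alpha d) {a b c p q : ℍ}
    (o1 : 0 < ori (kl a) (kl b) (kl c)) (o2 : 0 < ori (kl c) (kl b) (kl p))
    (o3 : 0 < ori (kl a) (kl c) (kl q)) (hab : dist a b = d) (hbp : dist b p = d)
    (hpc : dist p c = d) (hcq : dist c q = d) (hqa : dist q a = d)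
    (hbc : d ≤ dist b c) (hca : d ≤ dist c a) (hap : d ≤ dist a p) (hbq : d ≤ dist b q)
    (hpq : d ≤ dist p q) :
    3 / 2 * A3 (alpha d) ≤ (Real.pi - (ang a b c + ang b c a + ang c a b)) +
      (Real.pi - (ang c b p + ang b p c + ang p c b)) +
      (Real.pi - (ang a c q + ang c q a + ang q a c)) := by
  rw [← S_tri o1, ← S_tri o2, ← S_tri o3]
  exact pent_all39 ⟨o1, o2, o3, hab, hbp, hpc, hcq, hqa, hbc, hca, hap, hbq, hpq⟩ hd ha

end

end Pool.Agent.PEN
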