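import Pool.Agent.P4.Y71a

/-! # PENNY 2, row Y1: the structure `Geo` of a separated set -/

set_option autoImplicit false

namespace Pool.Agent.PEN

open Classical UpperHalfPlane

noncomputable section

section
variable {d : ℝ} {P : Finset ℍ} {T : Pt → Pt → Prop} {Tr : Pt → Pt → Pt → Prop}

/-- no square with the angle of a vertex with five contact triangles -/
def NoSq (d : ℝ) : Prop := ∀ {a b p q : ℍ}, 0 < ori (kl a) (kl b) (kl p) →
    0 < ori (kl b) (kl a) (kl q) → dist b p = d → dist p a = d →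
    dist a q = d → dist q b = d → d ≤ dist a b → d ≤ dist p q →
    ang p a b = 2 * Real.pi - 5 * alpha d →
    ang a b p + ang a q b = 2 * Real.pi - 5 * alpha d → False

/-- the pentagon -/
def Penta (d : ℝ) : Prop := ∀ {a b c p q : ℍ},
    0 < ori (kl a) (kl b) (kl c) → 0 < ori (kl c) (kl b) (kl p) →
    0 < ori (kl a) (kl c) (kl q) → dist a b = d → dist b p = d →
    dist p c = d → dist c q = d → dist q a = d →
    d ≤ dist b c → d ≤ dist c a → d ≤ dist a p → d ≤ dist b q →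
    d ≤ dist p q →
    3 / 2 * A3 (alpha d) ≤ (Real.pi - (ang a b c + ang b c a + ang c a b)) +
      (Real.pi - (ang c b p + ang b p c + ang p c b)) +
      (Real.pi - (ang a c q + ang c q a + ang q a c))

/-- closed walks in `P` -/
def WalkP (d : ℝ) (P : Finset ℍ) (U : ℕ → ℝ) : Prop := ∀ (v : ℕ → ℍ) (b : ℕ), v b = v 0 →
    (∀ i < b, dist (v i) (v (i + 1)) = d) → (∀ i < b, v i ∈ P) →
    ∑ i ∈ Finset.range b, kap (v i) (v (i + 1)) ≤ U b

theorem ori71 (hT : PTri (P.image kl) T Tr) {a b : ℍ} (h : (a, b) ∈ Dp71 P T) :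
    0 < ori (kl a) (kl b) (kl (ap71 P Tr a b)) := (hT.tr _ _ _ (Dp71_spec hT h).2).2

theorem ar71 (hT : PTri (P.image kl) T Tr) {a b : ℍ} (h : (a, b) ∈ Dp71 P T) :
    (tg71 d hT).ar a b = Real.pi - (ang a b (ap71 P Tr a b) + ang b (ap71 P Tr a b) a
      + ang (ap71 P Tr a b) a b) := by
  have e1 := (tg71 d hT).ap3 a b h
  have e2 := (tg71 d hT).ap4 a b h
  change ap71 P Tr b (ap71 P Tr a b) = a at e1
  change ap71 P Tr (ap71 P Tr a b) a = b at e2
  change Real.pi - (ang a b (ap71 P Tr a b) + ang b (ap71 P Tr a b) (ap71 P Tr b (ap71 P Tr a b))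
      + ang (ap71 P Tr a b) a (ap71 P Tr (ap71 P Tr a b) a)) = _
  rw [e1, e2]

/-- the total angle at an interior point -/
theorem tot71 (hT : PTri (P.image kl) T Tr) (hT0 : PTri0 (P.image kl) T Tr) {v : ℍ} (hv : v ∈ P)
    (hb : ¬ (tg71 d hT).bd v) (hne : ∃ a, (v, a) ∈ D71 P T) :
    ∑ x ∈ (tg71 d hT).D.filter (fun x => x.1 = v), (tg71 d hT).th x.1 x.2 = 2 * Real.pi := by
  have himg : (tg71 d hT).D.filter (fun x => x.1 = v) =
      (P.filter (fun a => T (kl v) (kl a))).image (fun a => (v, a)) := by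
    ext ⟨x, y⟩
    rw [Finset.mem_filter, Finset.mem_image]
    constructor
    · rintro ⟨h1, h2⟩
      simp only at h2
      subst h2
      have h3 := mem_D71.mp h1
      exact ⟨y, Finset.mem_filter.mpr ⟨h3.1.2, h3.2⟩, rfl⟩
    · rintro ⟨a, ha, h⟩
      obtain ⟨h1, h2⟩ := Finset.mem_filter.mp ha
      obtain ⟨rfl, rfl⟩ := Prod.mk.inj h
      exact ⟨mem_D71.mpr ⟨⟨hv, h1⟩, h2⟩, rfl⟩
  rw [himg, Finset.sum_image (fun x _ y _ h => (Prod.mk.inj h).2)]
  change ∑ x ∈ P.filter (fun a => T (kl v) (kl a)), Complex.arg (Dv v (ap71 P Tr v x) / Dv v x) = _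
  have hS : ∀ s ∈ P.filter (fun a => T (kl v) (kl a)), (v, s) ∈ Dp71 P T := by
    intro s hs
    obtain ⟨h1, h2⟩ := Finset.mem_filter.mp hs
    exact (tg71 d hT).int1 v s hv hb (mem_D71.mpr ⟨⟨hv, h1⟩, h2⟩)
  refine turn_eq (P.filter (fun a => T (kl v) (kl a))) (Dv v) (ap71 P Tr v)
    (fun s hs => Dv_ne71 hT (hS s hs)) ?_ ?_ (fun s hs => him71 hT (hS s hs)) ?_
    (fun s hs t ht h1 h2 => hdir71 hT (hS s hs) (hS t ht) h1 h2) ?_
  · intro s hs
    have h1 := (tg71 d hT).ap2 v s (hS s hs)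
    have h2 := (tg71 d hT).symm _ _ ((tg71 d hT).sub h1)
    obtain ⟨h3, h4⟩ := mem_D71.mp h2
    exact Finset.mem_filter.mpr ⟨h3.2, h4⟩
  · intro s hs t ht h
    have e1 := (tg71 d hT).ap4 v s (hS s (Finset.mem_coe.mp hs))
    have e2 := (tg71 d hT).ap4 v t (hS t (Finset.mem_coe.mp ht))
    change ap71 P Tr (ap71 P Tr v s) v = s at e1
    change ap71 P Tr (ap71 P Tr v t) v = t at e2
    rw [← e1, ← e2, h]
  · rintro s hs t ht ⟨h1, h2⟩
    exact hT0.angle _ _ _ _ (Dp71_spec hT (hS s hs)).2 (Finset.mem_filter.mp ht).2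
      ⟨(ori_pos_iff _ _ _).mpr h1, (ori_pos_iff _ _ _).mpr h2⟩
  · obtain ⟨a, ha⟩ := hne
    obtain ⟨h3, h4⟩ := mem_D71.mp ha
    exact ⟨a, Finset.mem_filter.mpr ⟨h3.2, h4⟩⟩

/-- no invariant set at a boundary point -/
theorem bdno71 (hT : PTri (P.image kl) T Tr) {v : ℍ}
    (hb : (tg71 d hT).bd v) (S : Finset ℍ) (hS : S.Nonempty) :
    ¬ (∀ a ∈ S, (v, a) ∈ Dp71 P T ∧ ap71 P Tr v a ∈ S) := by
  intro h
  obtain ⟨u, hu, hu2⟩ := hb
  obtain ⟨w, hw, hw2⟩ := half71 v u hu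
  refine no_turn S (Dv v) (ap71 P Tr v) (fun s hs => Dv_ne71 hT (h s hs).1)
    (fun s hs => (h s hs).2) (fun s hs => him71 hT (h s hs).1) w hw ?_ hS
  intro s hs
  apply hw2
  exact hu2 _ (Finset.mem_image_of_mem _ (Dp71_left (h s hs).1).2)

/-- every invariant set of neighbours of an interior point has total angle at least `2π` -/
theorem turn71 (hT : PTri (P.image kl) T Tr) {v : ℍ} (hv : v ∈ P)
    (hb : ¬ (tg71 d hT).bd v) (S : Finset ℍ) (hS : S.Nonempty) (hD : ∀ a ∈ S, (v, a) ∈ D71 P T)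
    (hap : ∀ a ∈ S, ap71 P Tr v a ∈ S) :
    2 * Real.pi ≤ ∑ a ∈ S, ang v a (ap71 P Tr v a) := by
  have hDp : ∀ a ∈ S, (v, a) ∈ Dp71 P T := fun a ha => (tg71 d hT).int1 v a hv hb (hD a ha)
  refine turn S (Dv v) (ap71 P Tr v) (fun s hs => Dv_ne71 hT (hDp s hs)) hap ?_
    (fun s hs => him71 hT (hDp s hs)) hS
  intro s hs s' hs' h
  have e1 := (tg71 d hT).ap4 v s (hDp s hs)
  have e2 := (tg71 d hT).ap4 v s' (hDp s' hs')
  change ap71 P Tr (ap71 P Tr v s) v = s at e1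
  change ap71 P Tr (ap71 P Tr v s') v = s' at e2
  rw [← e1, ← e2, h]

/-- an invariant set of neighbours contains all neighbours -/
theorem inv_all71 (d : ℝ) (hT : PTri (P.image kl) T Tr) (hT0 : PTri0 (P.image kl) T Tr) {v : ℍ}
    (hv : v ∈ P) (S : Finset ℍ) (hS : S.Nonempty)
    (hap : ∀ a ∈ S, (v, a) ∈ Dp71 P T ∧ ap71 P Tr v a ∈ S) {b : ℍ} (hbD : (v, b) ∈ D71 P T) :
    b ∈ S := by
  by_cases hb : (tg71 d hT).bd v
  · exact absurd hap (bdno71 hT hb S hS)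
  · by_contra hbS
    have h1 := turn71 hT hv hb S hS (fun a ha => (tg71 d hT).sub (hap a ha).1)
      (fun a ha => (hap a ha).2)
    have h2 := tot71 hT hT0 hv hb ⟨b, hbD⟩
    have hbp : (v, b) ∈ Dp71 P T := (tg71 d hT).int1 v b hv hb hbD
    have h3 : ∑ a ∈ insert b S, ang v a (ap71 P Tr v a) ≤
        ∑ x ∈ (tg71 d hT).D.filter (fun x => x.1 = v), (tg71 d hT).th x.1 x.2 := by
      have himg := Finset.sum_image (s := insert b S) (g := fun a => (v, a))
        (f := fun x : ℍ × ℍ => (tg71 d hT).th x.1 x.2) (fun x _ y _ h => (Prod.mk.inj h).2)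
      change _ = ∑ a ∈ insert b S, ang v a (ap71 P Tr v a) at himg
      rw [← himg]
      apply Finset.sum_le_sum_of_subset_of_nonneg
      · intro x hx
        obtain ⟨a, ha, rfl⟩ := Finset.mem_image.mp hx
        rcases Finset.mem_insert.mp ha with rfl | ha
        · exact Finset.mem_filter.mpr ⟨hbD, rfl⟩
        · exact Finset.mem_filter.mpr ⟨(tg71 d hT).sub (hap a ha).1, rfl⟩
      · intro x hx _
        obtain ⟨h4, h5⟩ := Finset.mem_filter.mp hx
        have h6 : (x.1, x.2) ∈ (tg71 d hT).Dp := by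
          have h4' : (x.1, x.2) ∈ (tg71 d hT).D := h4
          rw [h5] at h4' ⊢
          exact (tg71 d hT).int1 v x.2 hv hb h4'
        exact ((tg71 d hT).thpos _ _ h6).le
    rw [Finset.sum_insert hbS] at h3
    have h4 := (tg71 d hT).thpos v b hbp
    change 0 < ang v b (ap71 P Tr v b) at h4
    linarith

/-- the pentagon in the triangulation -/
theorem pn71 (hP : Sep d P)
    (hT : PTri (P.image kl) T Tr) (hT0 : PTri0 (P.image kl) T Tr)
    (hdegD : ∀ v ∈ P, 3 ≤ ((D71 P T).filter (fun x => x.1 = v ∧ dist x.1 x.2 = d)).card)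
    (hpn : Penta d) {a b : ℍ} (hab : (a, b) ∈ Dp71 P T) (hc : dist a b = d)
    (hc2 : ¬ dist b (ap71 P Tr a b) = d) (hc3 : ¬ dist (ap71 P Tr a b) a = d)
    (hcb : (ap71 P Tr a b, b) ∈ Dp71 P T) (hac : (a, ap71 P Tr a b) ∈ Dp71 P T)
    (c1 : dist b (ap71 P Tr (ap71 P Tr a b) b) = d)
    (c2 : dist (ap71 P Tr (ap71 P Tr a b) b) (ap71 P Tr a b) = d)
    (c3 : dist (ap71 P Tr a b) (ap71 P Tr a (ap71 P Tr a b)) = d)
    (c4 : dist (ap71 P Tr a (ap71 P Tr a b)) a = d) :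
    3 / 2 * A3 (alpha d) ≤ (tg71 d hT).ar a b + (tg71 d hT).ar (ap71 P Tr a b) b +
      (tg71 d hT).ar a (ap71 P Tr a b) := by
  have hdist : ∀ a b : ℍ, a ∈ P → b ∈ P → a ≠ b → d ≤ dist a b := fun a b ha hb hab =>
    hP a ha b hb hab
  rw [ar71 hT hab, ar71 hT hcb, ar71 hT hac]
  have hbc : (b, ap71 P Tr a b) ∈ Dp71 P T := (tg71 d hT).ap1 a b hab
  have hca : (ap71 P Tr a b, a) ∈ Dp71 P T := (tg71 d hT).ap2 a b hab
  have e1 : ap71 P Tr b (ap71 P Tr a b) = a := (tg71 d hT).ap3 a b hab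
  have e2 : ap71 P Tr (ap71 P Tr a b) a = b := (tg71 d hT).ap4 a b hab
  have n1 : ap71 P Tr b (ap71 P Tr a b) ≠ ap71 P Tr (ap71 P Tr a b) b :=
    (tg71 d hT).ap5 _ _ hbc hcb
  have n2 : ap71 P Tr (ap71 P Tr a b) a ≠ ap71 P Tr a (ap71 P Tr a b) :=
    (tg71 d hT).ap5 _ _ hca hac
  rw [e1] at n1
  rw [e2] at n2
  have f4 : ap71 P Tr (ap71 P Tr a b) (ap71 P Tr a (ap71 P Tr a b)) = a :=
    (tg71 d hT).ap3 _ _ hac
  have g1 : (b, ap71 P Tr (ap71 P Tr a b) b) ∈ Dp71 P T := (tg71 d hT).ap1 _ _ hcb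
  have g3 : (ap71 P Tr a b, ap71 P Tr a (ap71 P Tr a b)) ∈ Dp71 P T := (tg71 d hT).ap1 _ _ hac
  have o1 := ori71 hT hab
  have o2 := ori71 hT hcb
  have o3 := ori71 hT hac
  have nbc : b ≠ ap71 P Tr a b := (tg71 d hT).ne _ _ ((tg71 d hT).sub hbc)
  have nca : ap71 P Tr a b ≠ a := (tg71 d hT).ne _ _ ((tg71 d hT).sub hca)
  generalize hc0 : ap71 P Tr a b = c at *
  generalize hp0 : ap71 P Tr c b = p at *
  generalize hq0 : ap71 P Tr a c = q at *
  have aP := (Dp71_left hab).1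
  have bP := (Dp71_left hab).2
  have cP := (Dp71_left hca).1
  have pP := (Dp71_left g1).2
  have qP := (Dp71_left g3).2
  have npq : p ≠ q := by
    intro hpq
    subst hpq
    have hinv : ∀ x ∈ ({a, b, p} : Finset ℍ), (c, x) ∈ Dp71 P T ∧
        ap71 P Tr c x ∈ ({a, b, p} : Finset ℍ) := by
      intro x hx
      rw [Finset.mem_insert, Finset.mem_insert, Finset.mem_singleton] at hx
      rcases hx with rfl | rfl | rfl
      · exact ⟨hca, by rw [e2]; simp⟩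
      · exact ⟨hcb, by rw [hp0]; simp⟩
      · exact ⟨g3, by rw [f4]; simp⟩
    have h3 := hdegD c cP
    have h4 : ((D71 P T).filter (fun x => x.1 = c ∧ dist x.1 x.2 = d)) ⊆ {(c, p)} := by
      intro x hx
      obtain ⟨hx1, hx2, hx3⟩ := Finset.mem_filter.mp hx
      rw [Finset.mem_singleton]
      have hx4 : (c, x.2) ∈ D71 P T := by rw [← hx2]; exact hx1
      have hmem : x.2 ∈ ({a, b, p} : Finset ℍ) :=
        inv_all71 d hT hT0 cP {a, b, p} ⟨a, by simp⟩ hinv hx4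
      rw [Finset.mem_insert, Finset.mem_insert, Finset.mem_singleton] at hmem
      rw [hx2] at hx3
      rcases hmem with h | h | h
      · exact absurd (by rw [← h]; exact hx3) hc3
      · exact absurd (by rw [← h, dist_comm]; exact hx3) hc2
      · exact Prod.ext hx2 h
    have h5 := Finset.card_le_card h4
    rw [Finset.card_singleton] at h5
    omega
  exact hpn o1 o2 o3 hc c1 c2 c3 c4 (hdist _ _ bP cP nbc) (hdist _ _ cP aP nca)
    (hdist _ _ aP pP n1) (hdist _ _ bP qP n2) (hdist _ _ pP qP npq)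

/-- **Y1, general form** -/
theorem geo71 (hd : 0 < d) (ha : 2 * Real.pi < 7 * alpha d) (hP : Sep d P)
    (hT : PTri (P.image kl) T Tr) (hT0 : PTri0 (P.image kl) T Tr)
    (hG : ∀ x ∈ P, ∀ y ∈ P, dist x y = d → T (kl x) (kl y))
    (hne : P.Nonempty) (hdeg : ∀ v ∈ P, 3 ≤ (P.filter (fun x => dist v x = d)).card)
    (U : ℕ → ℝ) (hW : WalkP d P U) (hns : NoSq d) (hpn : Penta d) :
    (tg71 d hT).Geo (alpha d) kap U := by
  have hpi := Real.pi_pos
  have hα := alpha_pos hd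
  have hα3 := alpha_lt hd
  have hdist : ∀ a b : ℍ, a ∈ P → b ∈ P → a ≠ b → d ≤ dist a b := fun a b ha hb hab =>
    hP a ha b hb hab
  have hq2 : ∀ v ∈ P.image kl, ∃ x y, x ≠ y ∧ T v x ∧ T v y := by
    intro v hv
    obtain ⟨z, hz, rfl⟩ := Finset.mem_image.mp hv
    have h6 := hdeg z hz
    obtain ⟨x, hx, y, hy, hxy⟩ := Finset.one_lt_card.mp (by omega : 1 <
      (P.filter (fun x => dist z x = d)).card)
    rw [Finset.mem_filter] at hx hy
    exact ⟨kl x, kl y, fun h => hxy (kl_inj h), hG _ hz _ hx.1 hx.2, hG _ hz _ hy.1 hy.2⟩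
  have hnb : ∀ v ∈ P, ∃ a, (v, a) ∈ D71 P T := by
    intro v hv
    obtain ⟨x, hx⟩ := Finset.card_pos.mp (by have := hdeg v hv; omega :
      0 < (P.filter (fun x => dist v x = d)).card)
    obtain ⟨h1, h2⟩ := Finset.mem_filter.mp hx
    exact ⟨x, mem_D71.mpr ⟨⟨hv, h1⟩, hG _ hv _ h1 h2⟩⟩
  have hdegD : ∀ v ∈ P, 3 ≤ ((tg71 d hT).D.filter
      (fun x => x.1 = v ∧ (tg71 d hT).con x.1 x.2)).card := by
    intro v hv
    refine le_trans (hdeg v hv) ?_
    apply Finset.card_le_card_of_injOn (fun x => (v, x))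
    · intro x hx
      have hx := Finset.mem_filter.mp (Finset.mem_coe.mp hx)
      refine Finset.mem_coe.mpr (Finset.mem_filter.mpr ⟨mem_D71.mpr ⟨⟨hv, hx.1⟩,
        hG _ hv _ hx.1 hx.2⟩, rfl, hx.2⟩)
    · intro x _ y _ h
      exact (Prod.mk.inj h).2
  refine ⟨ha, by linarith, ?_, ?_, ?_, hdegD, ?_, ?_, ?_, ?_, ?_, ?_, ?_, ?_, ?_, ?_, ?_, ?_⟩
  · -- turn
    intro v hv hb S hS hD hap
    exact turn71 hT hv hb S hS hD hap
  · -- tot
    intro v hv hb
    exact tot71 hT hT0 hv hb (hnb v hv)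
  · -- bdno
    intro v _ hb S hS
    exact bdno71 hT hb S hS
  · -- left
    intro v a b h1' h2' h3' h4'
    obtain ⟨m1, t1⟩ := mem_D71.mp h1'
    obtain ⟨m2, t2⟩ := mem_D71.mp h2'
    refine kl_inj (hT.left_unique ?_ t1 t2 (fun h => h3' (mem_Dp71.mpr ⟨m1, t1, h⟩))
      (fun h => h4' (mem_Dp71.mpr ⟨m2, t2, h⟩)))
    intro a' ha' b' hb' hab'
    exact ncol71 hT hq2 ha' hab'
  · -- cnt
    have hc2 : 2 ≤ (P.image kl).card := by
      rw [Finset.card_image_of_injective _ kl_inj]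
      obtain ⟨v, hv⟩ := hne
      have := hdeg v hv
      have h8 := Finset.card_filter_le P (fun x => dist v x = d)
      omega
    have h9 := hT.card hc2
    have h10 : (Dp71 P T).card ≤ ((P.image kl ×ˢ P.image kl).filter
        (fun x => T x.1 x.2 ∧ Lft (P.image kl) x.1 x.2)).card := by
      apply Finset.card_le_card_of_injOn (fun x => (kl x.1, kl x.2))
      · intro x hx
        have hx := mem_Dp71.mp (Finset.mem_coe.mp hx : (x.1, x.2) ∈ Dp71 P T)
        exact Finset.mem_coe.mpr (Finset.mem_filter.mpr ⟨Finset.mem_product.mpr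
          ⟨Finset.mem_image_of_mem _ hx.1.1, Finset.mem_image_of_mem _ hx.1.2⟩, hx.2⟩)
      · intro x _ y _ h
        have h := Prod.mk.inj h
        exact Prod.ext (kl_inj h.1) (kl_inj h.2)
    have h11 : (P.filter (fun v => Bd (P.image kl) (kl v))).card
        ≤ ((P.image kl).filter (Bd (P.image kl))).card := by
      apply Finset.card_le_card_of_injOn kl
      · intro x hx
        have hx := Finset.mem_filter.mp (Finset.mem_coe.mp hx)
        exact Finset.mem_coe.mpr (Finset.mem_filter.mpr ⟨Finset.mem_image_of_mem _ hx.1, hx.2⟩)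
      · intro x _ y _ h
        exact kl_inj h
    rw [Finset.card_image_of_injective _ kl_inj] at h9
    change (Dp71 P T).card + 3 * (P.filter (fun v => Bd (P.image kl) (kl v))).card + 6 ≤ 6 * P.card
    omega
  · -- tpos
    intro a b hab
    rw [ar71 hT hab]
    have := ang_sum (ori71 hT hab)
    linarith
  · -- tcon
    intro a b hab hc1 hc2 hc3
    exact ang_contact hd hc1 (by rw [dist_comm]; exact hc3) hc2 (ori71 hT hab)
  · -- rh1
    rintro a b ⟨hab, hba, hc, c1, c2, c3, c4⟩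
    have e2 := (tg71 d hT).ap4 a b hab
    change ap71 P Tr (ap71 P Tr a b) a = b at e2
    change alpha d ≤ ang (ap71 P Tr a b) a (ap71 P Tr (ap71 P Tr a b) a) ∧
      ang (ap71 P Tr a b) a (ap71 P Tr (ap71 P Tr a b) a) ≤ 2 * alpha d
    rw [e2]
    have hne' := (tg71 d hT).ap5 a b hab hba
    have hm := mem_Dp71.mp hab
    have hd1 := hdist _ _ hm.1.1 hm.1.2 ((tg71 d hT).ne a b ((tg71 d hT).sub hab))
    have hd2 := hdist _ _ (Dp71_spec hT hab).1 (Dp71_spec hT hba).1 hne'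
    exact ⟨(rhombus_ge hd (ori71 hT hab) (ori71 hT hba) c1 c2 c3 c4 hd1 hd2).1,
      (rhombus hd (ori71 hT hab) (ori71 hT hba) c1 c2 c3 c4 hd1 hd2).1⟩
  · -- rh2
    rintro a b ⟨hab, hba, hc, c1, c2, c3, c4⟩
    have e1 := (tg71 d hT).ap3 b a hba
    change ap71 P Tr a (ap71 P Tr b a) = b at e1
    change alpha d ≤ ang a b (ap71 P Tr a b) + ang a (ap71 P Tr b a)
        (ap71 P Tr a (ap71 P Tr b a)) ∧
      ang a b (ap71 P Tr a b) + ang a (ap71 P Tr b a) (ap71 P Tr a (ap71 P Tr b a)) ≤ 2 * alpha d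
    rw [e1]
    have hne' := (tg71 d hT).ap5 a b hab hba
    have hm := mem_Dp71.mp hab
    have hd1 := hdist _ _ hm.1.1 hm.1.2 ((tg71 d hT).ne a b ((tg71 d hT).sub hab))
    have hd2 := hdist _ _ (Dp71_spec hT hab).1 (Dp71_spec hT hba).1 hne'
    exact ⟨(rhombus_ge hd (ori71 hT hab) (ori71 hT hba) c1 c2 c3 c4 hd1 hd2).2,
      (rhombus hd (ori71 hT hab) (ori71 hT hba) c1 c2 c3 c4 hd1 hd2).2⟩
  · -- rhA
    rintro a b ⟨hab, hba, hc, c1, c2, c3, c4⟩
    have hne' := (tg71 d hT).ap5 a b hab hba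
    have hm := mem_Dp71.mp hab
    have hd1 := hdist _ _ hm.1.1 hm.1.2 ((tg71 d hT).ne a b ((tg71 d hT).sub hab))
    have hd2 := hdist _ _ (Dp71_spec hT hab).1 (Dp71_spec hT hba).1 hne'
    rw [ar71 hT hab, ar71 hT hba]
    have := rhombus_area hd (ori71 hT hab) (ori71 hT hba) c1 c2 c3 c4 hd1 hd2
    linarith
  · -- nosq
    rintro a b ⟨hab, hba, hc, c1, c2, c3, c4⟩ h1 h2
    have e2 := (tg71 d hT).ap4 a b hab
    have e1 := (tg71 d hT).ap3 b a hba
    change ap71 P Tr (ap71 P Tr a b) a = b at e2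
    change ap71 P Tr a (ap71 P Tr b a) = b at e1
    change ang (ap71 P Tr a b) a (ap71 P Tr (ap71 P Tr a b) a) = _ at h1
    change ang a b (ap71 P Tr a b) + ang a (ap71 P Tr b a) (ap71 P Tr a (ap71 P Tr b a)) = _ at h2
    rw [e2] at h1
    rw [e1] at h2
    have hne' := (tg71 d hT).ap5 a b hab hba
    have hm := mem_Dp71.mp hab
    have hd1 := hdist _ _ hm.1.1 hm.1.2 ((tg71 d hT).ne a b ((tg71 d hT).sub hab))
    have hd2 := hdist _ _ (Dp71_spec hT hab).1 (Dp71_spec hT hba).1 hne'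
    exact hns (ori71 hT hab) (ori71 hT hba) c1 c2 c3 c4 hd1 hd2 h1 h2
  · -- pn
    rintro a b ⟨hab, hc, hc2, hc3, hcb, hac, c1, c2, c3, c4⟩
    exact pn71 hP hT hT0 hdegD hpn hab hc hc2 hc3 hcb hac c1 c2 c3 c4
  · -- kanti
    exact fun a b => kap_anti a b
  · -- kar
    intro a b hab
    rw [ar71 hT hab]
    exact S_tri (ori71 hT hab)
  · -- walk
    intro v b h0 h1 h2
    refine hW v b h0 h2 (fun i hi => ?_)
    exact (mem_D71.mp (h1 i hi)).1.1

end

/-- **Y1**, general form -/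
theorem exists_geo_gen {d : ℝ} (hd : 0 < d) (ha : 2 * Real.pi < 7 * alpha d) {P : Finset ℍ}
    (hP : Sep d P) (hne : P.Nonempty)
    (hdeg : ∀ v ∈ P, 3 ≤ (P.filter (fun x => dist v x = d)).card)
    (U : ℕ → ℝ) (hW : WalkP d P U) (hns : NoSq d) (hpn : Penta d) :
    ∃ G : Tg ℍ, G.Geo (alpha d) kap U ∧ G.P = P ∧
      cd d P = (G.D.filter (fun x => G.con x.1 x.2)).card := by
  obtain ⟨T, Tr, hT, hT0, hG⟩ := exists_PTri71 hd hP
  refine ⟨tg71 d hT, geo71 hd ha hP hT hT0 hG hne hdeg U hW hns hpn, rfl, ?_⟩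
  unfold cd
  congr 1
  ext ⟨a, b⟩
  rw [Finset.mem_filter, Finset.mem_filter, Finset.mem_product]
  constructor
  · rintro ⟨h1, h2⟩
    exact ⟨mem_D71.mpr ⟨h1, hG _ h1.1 _ h1.2 h2⟩, h2⟩
  · rintro ⟨h1, h2⟩
    exact ⟨(mem_D71.mp h1).1, h2⟩

end

end Pool.Agent.PEN
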