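import Pool.Agent.P4.Y71b
import Pool.Agent.P4.QW11
import Pool.Agent.P4.X5h39
import Pool.Agent.P4.N52
import Pool.Agent.PEN.E71d

/-! # PENNY 2, rows Y1 and Y2 -/

set_option autoImplicit false

namespace Pool.Agent.PEN

open Classical UpperHalfPlane

noncomputable section

/-- **Y1**: the structure `Geo` for a separated set with all degrees at least 3 -/
theorem exists_geo {d : ℝ} (hd : 0 < d) (hC : 27 / 20 ≤ Real.cosh d)
    (ha : 2 * Real.pi < 7 * alpha d) {P : Finset ℍ} (hP : Sep d P) (hne : P.Nonempty)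
    (hdeg : ∀ v ∈ P, 3 ≤ (P.filter (fun x => dist v x = d)).card) :
    ∃ G : Tg ℍ, G.Geo (alpha d) kap (Uw (uu d)) ∧ G.P = P ∧
      cd d P = (G.D.filter (fun x => G.con x.1 x.2)).card :=
  exists_geo_gen hd ha hP hne hdeg (Uw (uu d)) (fun v b h0 h1 _ => walk_le hd v b h0 h1)
    (no_square hd hC ha) (pentagon_area hd ha)

/-- removal of points of degree at most 2 -/
theorem ind_gen71 {d : ℝ} (hd : 0 < d) (L : ℕ → ℕ) (n0 : ℕ)
    (hL : ∀ n, n0 ≤ n → L n + 2 ≤ L (n + 1))
    (h0 : ∀ P : Finset ℍ, P.card = n0 → Sep d P → cd d P ≤ 2 * L n0)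
    (h1 : ∀ P : Finset ℍ, n0 < P.card → Sep d P →
      (∀ v ∈ P, 3 ≤ (P.filter (fun x => dist v x = d)).card) → cd d P ≤ 2 * L P.card) (m : ℕ) :
    ∀ P : Finset ℍ, P.card = n0 + m → Sep d P → cd d P ≤ 2 * L (n0 + m) := by
  induction m with
  | zero => exact h0
  | succ m ih =>
    intro P hc hP
    by_cases hdeg : ∀ v ∈ P, 3 ≤ (P.filter (fun x => dist v x = d)).card
    · have := h1 P (by omega) hP hdeg
      rwa [hc] at this
    · push Not at hdeg
      obtain ⟨v, hv, hv2⟩ := hdeg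
      have hcard : (P.erase v).card = n0 + m := by
        rw [Finset.card_erase_of_mem hv, hc]
        omega
      have h := ih (P.erase v) hcard (hP.mono (Finset.erase_subset _ _))
      have h2 := cd_erase hd hv
      have h3 := hL (n0 + m) (by omega)
      have e : n0 + (m + 1) = n0 + m + 1 := rfl
      rw [e]
      omega

/-- nine points -/
theorem nine71 {d : ℝ} (hd : 0 < d) {P : Finset ℍ} (hP : Sep d P) (hn : P.card = 9) :
    cd d P ≤ 32 := by
  have ha : alpha d * ((6 : ℕ) : ℝ) < 2 * Real.pi := by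
    have := alpha_lt hd
    push_cast
    linarith
  have h := main_all' (le_refl 6) hd ha hP (by omega)
  have h2 := two_numEdges hd P
  rw [hn] at h
  omega

/-- **Y2** with the combinatorial theorem as a hypothesis -/
theorem p4_all_of71 {d : ℝ} (hd : 0 < d)
    (hmain : ∀ P : Finset ℍ, 10 ≤ P.card → Sep d P →
      (∀ v ∈ P, 3 ≤ (P.filter (fun x => dist v x = d)).card) →
      cd d P ≤ 2 * ((7 * P.card - 15) / 3))
    {P : Finset ℍ} (hP : Sep d P) (hn : 9 ≤ P.card) :
    cd d P ≤ 2 * ((7 * P.card - 15) / 3) := by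
  obtain ⟨m, hm⟩ := Nat.exists_eq_add_of_le hn
  rw [hm]
  refine ind_gen71 hd (fun n => (7 * n - 15) / 3) 9 ?_ ?_ ?_ m P hm hP
  · intro n hn
    change (7 * n - 15) / 3 + 2 ≤ (7 * (n + 1) - 15) / 3
    omega
  · intro Q hc hQ
    have := nine71 hd hQ hc
    omega
  · intro Q hc hQ hdeg
    exact hmain Q (by omega) hQ hdeg

end

end Pool.Agent.PEN
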