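import Pool.Agent.P4.Y71c
import Pool.Agent.P4.W18

/-! # PENNY 2, row Y2 and the final statement for `cosh d ≥ 27/20` -/

set_option autoImplicit false

namespace Pool.Agent.PEN

open Classical UpperHalfPlane

noncomputable section

/-- **Y2**: all configurations -/
theorem p4_all {d : ℝ} (hd : 0 < d) (hC : 27 / 20 ≤ Real.cosh d)
    (ha : 2 * Real.pi < 7 * alpha d) {P : Finset ℍ} (hP : Sep d P) (hn : 9 ≤ P.card) :
    cd d P ≤ 2 * ((7 * P.card - 15) / 3) := by
  refine p4_all_of71 hd ?_ hP hn
  intro Q hQ hQ2 hdeg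
  obtain ⟨G, hG, hGP, hcd⟩ := exists_geo hd hC ha hQ2
    (Finset.card_pos.mp (by omega)) hdeg
  rw [hcd, ← hGP]
  exact p4_main G hG (numU hd hC ha) (by rw [hGP]; exact hQ)

/-- Q1 for all `n` and all `d` with `cosh d ≥ 27/20` -/
theorem q1_p4 {e d : ℝ} (he : 0 < e) (ha : alpha e = 2 * Real.pi / 7) (hd : 0 < d) {n : ℕ}
    (h : 27 / 20 ≤ Real.cosh d ∨ n ≤ 9) : eD d n ≤ eD e n := by
  rcases Nat.lt_or_ge n 10 with hn | hn
  · exact q1_above he ha hd (Or.inr (by omega))
  rcases le_or_gt e d with hed | hed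
  · exact q1_above he ha hd (Or.inl hed)
  · have hC : 27 / 20 ≤ Real.cosh d := by
      rcases h with h | h
      · exact h
      · omega
    have ha2 : 2 * Real.pi < 7 * alpha d := by
      have := alpha_anti hd hed
      rw [ha] at this
      linarith
    have hlow := eD_seven he ha (by omega : 2 ≤ n)
    rw [if_neg (by omega), if_neg (by omega)] at hlow
    refine le_trans ?_ hlow
    apply eD_le
    intro P hc hP
    have h1 := p4_all hd hC ha2 hP (by omega)
    rw [← two_numEdges hd, hc] at h1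
    omega

end

end Pool.Agent.PEN
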