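import Pool.Agent.P4.Y71e
import Pool.Agent.P4.M27
import Pool.Agent.P4.W66
import Pool.Agent.P4.X3b39
import Pool.Agent.P4.Lb18

/-! # PENNY 2, version 3: all configurations -/

set_option autoImplicit false

namespace Pool.Agent.PEN

open Classical UpperHalfPlane

noncomputable section

theorem exists_geo3 {d : ℝ} (hd : 0 < d) {U : ℕ → ℝ} (ha : 2 * Real.pi < 7 * alpha d)
    (hne : Real.cos (5 * alpha d) ≠ 2 * Real.cos (alpha d) - 1)
    (hW : ∀ (v : ℕ → ℍ) (b : ℕ), v b = v 0 → (∀ i < b, dist (v i) (v (i + 1)) = d) →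
        ∑ i ∈ Finset.range b, kap (v i) (v (i + 1)) ≤ U b)
    {P : Finset ℍ} (hP : Sep d P) (hPn : P.Nonempty)
    (hdeg : ∀ v ∈ P, 3 ≤ (P.filter (fun x => dist v x = d)).card) :
    ∃ G : Tg ℍ, G.Geo (alpha d) kap U ∧ G.P = P ∧
      cd d P = (G.D.filter (fun x => G.con x.1 x.2)).card :=
  exists_geo3_of71 hd ha (no_square3 hd ha hne) hW hP hPn hdeg

/-- **Y3**: all configurations, version 3 -/
theorem p4_all3 {d : ℝ} (hd : 0 < d) (h1 : 611 / 500 ≤ Real.cosh d)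
    (ha : 2 * Real.pi < 7 * alpha d)
    (hne : Real.cos (5 * alpha d) ≠ 2 * Real.cos (alpha d) - 1)
    {P : Finset ℍ} (hP : Sep d P) (hn : 9 ≤ P.card) : cd d P ≤ 2 * Lb P.card := by
  obtain ⟨U, hU, hW⟩ := walk3 hd h1 ha
  exact p4_all_gen71 hd ha Lb (by rw [Lb_nine71]) Lb_step (no_square3 hd ha hne) hW
    (fun G hG hn => p4_main3 G hG hU hn) hP hn

/-- Q1 of version 3, with the lower bound as a hypothesis -/
theorem q1_v3_of71 {e d : ℝ} (he : 0 < e) (ha : alpha e = 2 * Real.pi / 7) (hd : 0 < d)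
    (hlow : ∀ n, 9 ≤ n → ∃ P : Finset ℍ, P.card = n ∧ Sep e P ∧ 2 * Lb n ≤ cd e P)
    {n : ℕ} (h : (611 / 500 ≤ Real.cosh d ∧
      Real.cos (5 * alpha d) ≠ 2 * Real.cos (alpha d) - 1) ∨ n ≤ 9) :
    eD d n ≤ eD e n := by
  rcases h with ⟨h1, h2⟩ | h
  · refine q1_gen71 he ha hd Lb (fun n hn => hlow n (by omega)) ?_ n
    intro hde P hn hP
    have ha2 : 2 * Real.pi < 7 * alpha d := by
      have := alpha_anti hd hde
      rw [ha] at this
      linarith
    exact p4_all3 hd h1 ha2 h2 hP (by omega)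
  · exact q1_above he ha hd (Or.inr h)

end

end Pool.Agent.PEN
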