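import Pool.Agent.P4.Y71h
import Pool.Agent.P4.Y71f
import Pool.Agent.P4.NumDs52

/-! # PENNY: every diameter, at most 97 points -/

set_option autoImplicit false

namespace Pool.Agent.PEN

open Classical UpperHalfPlane

noncomputable section

/-- from the real inequality to the number of contacts -/
theorem Num4.fin71 {al : ℝ} {U : ℕ → ℝ} {n b t I M L : ℕ} {A : ℝ} (h : Num4 al U n b t I M A)
    (h1 : 3 * t + b < 2 * L + 2 + 2 * I) : M ≤ 2 * L := by
  have h2 := h.edge
  obtain ⟨m, hm⟩ := h.even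
  omega

/-- **Q1 for every diameter and at most 97 points** -/
theorem q1_97 {e d : ℝ} (he : 0 < e) (ha : alpha e = 2 * Real.pi / 7) (hd : 0 < d) {n : ℕ}
    (hn : n ≤ 97) : eD d n ≤ eD e n := by
  rcases le_or_gt (Real.cosh d) (611 / 500) with hC | hC
  · refine q1_of_num4 he ha hd 97 (fun _ n b t I M A h1 h2 h => ?_) hn
    exact h.fin71 (G_num52 hd hC h1 h2 (by have := h.E1; omega) h.low h.up h.G)
  · by_cases hq : Real.cos (5 * alpha d) = 2 * Real.cos (alpha d) - 1
    · refine q1_of_num4 he ha hd 97 (fun _ n b t I M A h1 h2 h => ?_) hn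
      exact h.fin71 (G_ds52 hd hq h1 (by omega) (by have := h.E1; omega) h.low h.up h.G)
    · exact q1_v3_of71 he ha hd (fun n hn => strip_Lb he ha n hn) (Or.inl ⟨hC.le, hq⟩)

end

end Pool.Agent.PEN
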