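import Pool.Agent.P4.Y9
import Pool.Agent.P4.Y71i
import Pool.Agent.P4.W4R_71

/-! # PENNY, version 5: the frame with inequality B -/

set_option autoImplicit false

namespace Pool.Agent.PEN

open Classical UpperHalfPlane

noncomputable section

/-- the pentagon bound in the structure -/
def PentaG {V : Type} (G : Tg V) (al : ℝ) : Prop :=
  ∀ C ∈ G.iC, (G.cT C).card = 3 → (G.cI C).card = 4 → ∑ x ∈ G.cJ C, wc G al x ≤ 12

/-- the numbers of a configuration, with inequality B -/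
structure NumB (al : ℝ) (U : ℕ → ℝ) (n b t I M : ℕ) (A : ℝ) : Prop extends
    Num4 al U n b t I M A where
  B : (8 * al - 2 * Real.pi) * ((n : ℝ) - b) ≤ 2 * al * (2 * I) + (A - A3 al * t)

/-- **Q1 for one diameter and at most `N` points**, from the structures -/
theorem q1_of_main4 {e d : ℝ} (he : 0 < e) (ha : alpha e = 2 * Real.pi / 7) (hd : 0 < d) (N : ℕ)
    (hmain : d < e → ∀ G : Tg ℍ, G.Geo4 (alpha d) kap (Ust69 d) → DelG G d →
      10 ≤ G.P.card → G.P.card ≤ N →
      (G.D.filter (fun x => G.con x.1 x.2)).card ≤ 2 * Lb G.P.card)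
    {n : ℕ} (hn : n ≤ N) : eD d n ≤ eD e n := by
  rcases Nat.lt_or_ge n 10 with h10 | h10
  · exact q1_above he ha hd (Or.inr (by omega))
  rcases le_or_gt e d with hed | hed
  · exact q1_above he ha hd (Or.inl hed)
  · have ha2 : 2 * Real.pi < 7 * alpha d := by
      have := alpha_anti hd hed
      rw [ha] at this
      linarith
    obtain ⟨Q, hQc, hQs, hQ⟩ := strip_Lb he ha n (by omega)
    have h2 := le_eD he hQc hQs
    have h3 := two_numEdges he Q
    refine le_trans ?_ h2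
    apply eD_le
    intro P hc hP
    have h1 : cd d P ≤ 2 * Lb P.card :=
      all_gen4 hd ha2 Lb (by rw [Lb_nine71]) Lb_step N
        (fun G hG _ hDel h1 h2 => hmain hed G hG hDel h1 h2) hP (by omega) (by omega)
    have h4 := two_numEdges hd P
    rw [hc] at h1
    omega

/-- the frame with inequality B, not at a chain diameter -/
theorem numB {G : Tg ℍ} {d : ℝ} (hE : ¬ Exc66 d) (hG : G.Geo4 (alpha d) kap (Ust69 d))
    (hD : DelG G d) (hP : PentaG G (alpha d)) :
    ∃ (t I : ℕ) (A : ℝ), NumB (alpha d) (Ust69 d) G.P.card G.oJ.card t I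
      (G.D.filter (fun x => G.con x.1 x.2)).card A := by
  obtain ⟨t, I, A, h1, h2, h3, h4⟩ := num4 G hG (Ust69_zero d) (Ust69_mono d) (Ust69_sup d)
  have hA : ∀ C ∈ G.iC, A3 (alpha d) * (G.cT C).card ≤ ∑ x ∈ G.cD C, G.ar x.1 x.2 / 3 :=
    fun C hC => hG.pol C (cB_of_iC66 G hC)
  have h5 := W4.B_F66 G hD.hd hE hG (W4.rf51 hG hD hA) hA hP
  refine ⟨t, I, A, ⟨h1, ?_⟩⟩
  have e1 : (G.iD.card : ℝ) / 3 = t := by
    rw [h2]
    push_cast
    ring
  have e2 : (G.iI.card : ℝ) = 2 * I := by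
    rw [h3]
    push_cast
    ring
  rw [e1, e2, ← h4] at h5
  exact h5

/-- **Q1 for one diameter which is not a chain diameter**, from the numbers with B -/
theorem q1_of_numB {e d : ℝ} (he : 0 < e) (ha : alpha e = 2 * Real.pi / 7) (hd : 0 < d)
    (hE : ¬ Exc66 d)
    (hP : ∀ G : Tg ℍ, G.Geo4 (alpha d) kap (Ust69 d) → DelG G d → PentaG G (alpha d))
    (hnum : d < e → ∀ (n b t I M : ℕ) (A : ℝ), 10 ≤ n →
      NumB (alpha d) (Ust69 d) n b t I M A → M ≤ 2 * Lb n) (n : ℕ) : eD d n ≤ eD e n := by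
  refine q1_of_main4 he ha hd n (fun hed G hG hD h1 _ => ?_) le_rfl
  obtain ⟨t, I, A, h⟩ := numB hE hG hD (hP G hG hD)
  exact hnum hed _ _ _ _ _ _ h1 h

end

end Pool.Agent.PEN
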