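import Pool.Agent.P4.Y71j

/-! # PENNY: the angles at a hull point -/

set_option autoImplicit false

namespace Pool.Agent.PEN

open Classical UpperHalfPlane

noncomputable section

/-- in a closed half plane the angles between successive directions add to at most `π` -/
theorem half_total71 {ι : Type} (S N : Finset ι) (z : ι → ℂ) (σ : ι → ι)
    (h0 : ∀ s ∈ N, z s ≠ 0) (hS : S ⊆ N) (hσ : ∀ s ∈ S, σ s ∈ N) (hinj : Set.InjOn σ S)
    (him : ∀ s ∈ S, 0 < (z (σ s) / z s).im) (w : ℂ) (hw : w ≠ 0)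
    (hhp : ∀ s ∈ N, 0 ≤ (z s / w).im) (hleft : (N \ S).card ≤ 1) :
    ∑ s ∈ S, Complex.arg (z (σ s) / z s) ≤ Real.pi := by
  have hpi := Real.pi_pos
  have key : ∀ s ∈ S, Complex.arg (z (σ s) / z s) =
      Complex.arg (z (σ s) / w) - Complex.arg (z s / w) := by
    intro s hs
    have hy0 : z s / w ≠ 0 := div_ne_zero (h0 s (hS hs)) hw
    have hy1 : z (σ s) / w ≠ 0 := div_ne_zero (h0 _ (hσ s hs)) hw
    have h2 := im_div21 hy0 hy1
    have e : z (σ s) / w / (z s / w) = z (σ s) / z s := div_div_div_cancel_right₀ hw _ _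
    rw [e] at h2
    have h3 := him s hs
    have a0 := Complex.arg_nonneg_iff.2 (hhp _ (hS hs))
    have a1 := Complex.arg_le_pi (z s / w)
    have b0 := Complex.arg_nonneg_iff.2 (hhp _ (hσ s hs))
    have b1 := Complex.arg_le_pi (z (σ s) / w)
    have h4 : Complex.arg (z s / w) < Complex.arg (z (σ s) / w) := by
      by_contra hc
      rw [not_lt] at hc
      have h5 : Real.sin (Complex.arg (z (σ s) / w) - Complex.arg (z s / w)) ≤ 0 :=
        Real.sin_nonpos_of_nonpos_of_neg_pi_le (by linarith) (by linarith)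
      have h6 := norm_nonneg (z (σ s) / z s)
      rw [h2] at h3
      nlinarith
    have h6 : ((Complex.arg (z (σ s) / z s) : ℝ) : Real.Angle) =
        ((Complex.arg (z (σ s) / w) - Complex.arg (z s / w) : ℝ) : Real.Angle) := by
      rw [← e, Complex.arg_div_coe_angle hy1 hy0]
      rfl
    have h7 := congrArg Real.Angle.toReal h6
    rw [Real.Angle.toReal_coe_eq_self_iff.2
      ⟨Complex.neg_pi_lt_arg _, Complex.arg_le_pi _⟩,
      Real.Angle.toReal_coe_eq_self_iff.2 ⟨by linarith, by linarith⟩] at h7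
    exact h7
  rw [Finset.sum_congr rfl key, Finset.sum_sub_distrib]
  have e1 : ∑ s ∈ S, Complex.arg (z (σ s) / w) =
      ∑ s ∈ S.image σ, Complex.arg (z s / w) := by
    rw [Finset.sum_image hinj]
  rw [e1]
  have him2 : S.image σ ⊆ N := by
    intro x hx
    obtain ⟨s, hs, rfl⟩ := Finset.mem_image.1 hx
    exact hσ s hs
  have e2 : ∑ s ∈ S.image σ, Complex.arg (z s / w) ≤ ∑ s ∈ N, Complex.arg (z s / w) :=
    Finset.sum_le_sum_of_subset_of_nonneg him2
      fun s hs _ => Complex.arg_nonneg_iff.2 (hhp s hs)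
  have e3 := Finset.sum_sdiff (f := fun s => Complex.arg (z s / w)) hS
  have e4 : ∑ s ∈ N \ S, Complex.arg (z s / w) ≤ Real.pi := by
    calc ∑ s ∈ N \ S, Complex.arg (z s / w) ≤ ∑ s ∈ N \ S, Real.pi :=
          Finset.sum_le_sum fun s _ => Complex.arg_le_pi _
      _ = (N \ S).card * Real.pi := by rw [Finset.sum_const, nsmul_eq_mul]
      _ ≤ 1 * Real.pi := by
          apply mul_le_mul_of_nonneg_right _ hpi.le
          exact_mod_cast hleft
      _ = Real.pi := one_mul _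
  linarith

/-- the angles at a point of the hull -/
def HullT {V : Type} (G : Tg V) : Prop :=
  ∀ v ∈ G.P, G.bd v → ∑ x ∈ G.Dp.filter (fun x => x.1 = v), G.th x.1 x.2 ≤ Real.pi

section
variable {d : ℝ} {P : Finset ℍ} {T : Pt → Pt → Prop} {Tr : Pt → Pt → Pt → Prop}

theorem hullT71 (hT : PTri (P.image kl) T Tr) {al : ℝ} {kp : ℍ → ℍ → ℝ} {U : ℕ → ℝ}
    (hG : (tg71 d hT).Geo4 al kp U) : HullT (tg71 d hT) := by
  intro v hv hb
  obtain ⟨u, hu, hu2⟩ := hb
  obtain ⟨w, hw, hw2⟩ := half71 v u hu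
  obtain ⟨N, hN⟩ : ∃ N : Finset ℍ, ∀ a, a ∈ N ↔ (v, a) ∈ D71 P T :=
    ⟨P.filter (fun a => (v, a) ∈ D71 P T), fun a => by
      rw [Finset.mem_filter]
      exact ⟨fun h => h.2, fun h => ⟨(mem_D71.mp h).1.2, h⟩⟩⟩
  obtain ⟨S, hS⟩ : ∃ S : Finset ℍ, ∀ a, a ∈ S ↔ (v, a) ∈ Dp71 P T :=
    ⟨N.filter (fun a => (v, a) ∈ Dp71 P T), fun a => by
      rw [Finset.mem_filter, hN]
      exact ⟨fun h => h.2, fun h => ⟨(tg71 d hT).sub h, h⟩⟩⟩
  have e : ∑ x ∈ (tg71 d hT).Dp.filter (fun x => x.1 = v), (tg71 d hT).th x.1 x.2 =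
      ∑ s ∈ S, Complex.arg (Dv v (ap71 P Tr v s) / Dv v s) := by
    have himg : (tg71 d hT).Dp.filter (fun x => x.1 = v) = S.image (fun a => (v, a)) := by
      ext ⟨x, y⟩
      rw [Finset.mem_filter, Finset.mem_image]
      constructor
      · rintro ⟨h1, h2⟩
        simp only at h2
        subst h2
        exact ⟨y, (hS y).2 h1, rfl⟩
      · rintro ⟨a, ha, h⟩
        obtain ⟨rfl, rfl⟩ := Prod.mk.inj h
        exact ⟨(hS _).1 ha, rfl⟩
    rw [himg, Finset.sum_image (fun x _ y _ h => (Prod.mk.inj h).2)]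
    rfl
  rw [e]
  refine half_total71 S N (Dv v) (ap71 P Tr v) ?_ ?_ ?_ ?_
    (fun s hs => him71 hT ((hS s).1 hs)) w hw ?_ ?_
  · intro s hs h0
    have h1 := (hN s).1 hs
    have h2 : v ≠ s := (tg71 d hT).ne v s h1
    apply h2
    unfold Dv at h0
    rcases div_eq_zero_iff.1 h0 with h | h
    · exact UpperHalfPlane.ext (sub_eq_zero.1 h).symm
    · exfalso
      have h3 := congrArg Complex.im h
      have hv := v.im_pos
      have hs := s.im_pos
      simp at h3
      linarith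
  · intro s hs
    exact (hN s).2 ((tg71 d hT).sub ((hS s).1 hs))
  · intro s hs
    exact (hN _).2 ((tg71 d hT).symm _ _ ((tg71 d hT).sub ((tg71 d hT).ap2 v s ((hS s).1 hs))))
  · intro s hs t ht h
    have e1 := (tg71 d hT).ap4 v s ((hS s).1 hs)
    have e2 := (tg71 d hT).ap4 v t ((hS t).1 ht)
    change ap71 P Tr (ap71 P Tr v s) v = s at e1
    change ap71 P Tr (ap71 P Tr v t) v = t at e2
    rw [← e1, ← e2, h]
  · intro s hs
    apply hw2
    exact hu2 _ (Finset.mem_image_of_mem _ (mem_D71.mp ((hN s).1 hs)).1.2)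
  · rw [Finset.card_le_one]
    intro a ha b hb
    rw [Finset.mem_sdiff, hN, hS] at ha hb
    exact hG.left v a b ha.1 hb.1 ha.2 hb.2

end

/-- existence, with the angles at the hull points -/
theorem exists_geo4h {d : ℝ} (hd : 0 < d) (ha : 2 * Real.pi < 7 * alpha d) {P : Finset ℍ}
    (hP : Sep d P) (hne : P.Nonempty)
    (hdeg : ∀ v ∈ P, 3 ≤ (P.filter (fun x => dist v x = d)).card) :
    ∃ G : Tg ℍ, G.Geo4 (alpha d) kap (Ust69 d) ∧ G.P = P ∧
      cd d P = (G.D.filter (fun x => G.con x.1 x.2)).card ∧ DelG G d ∧ HullT G := by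
  obtain ⟨T, Tr, hT, hT0, hG, hDel⟩ := exists_PTri_del hd hP
  have h4 := geo4_71 hd ha hP hT hT0 hG hne hdeg hDel _ (walkP_Ust71 d P)
  refine ⟨tg71 d hT, h4, rfl, ?_, delG71 hd hP hT hDel, hullT71 hT h4⟩
  unfold cd
  congr 1
  ext ⟨a, b⟩
  rw [Finset.mem_filter, Finset.mem_filter, Finset.mem_product]
  constructor
  · rintro ⟨h1, h2⟩
    exact ⟨mem_D71.mpr ⟨h1, hG _ h1.1 _ h1.2 h2⟩, h2⟩
  · rintro ⟨h1, h2⟩
    exact ⟨(mem_D71.mp h1).1, h2⟩

/-- all configurations with at most `N` points; the structure has bounded angles at hull points -/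
theorem all_gen4h {d : ℝ} (hd : 0 < d) (ha : 2 * Real.pi < 7 * alpha d) (L : ℕ → ℕ)
    (hL9 : 16 ≤ L 9) (hL : ∀ n, 9 ≤ n → L n + 2 ≤ L (n + 1)) (N : ℕ)
    (hmain : ∀ G : Tg ℍ, G.Geo4 (alpha d) kap (Ust69 d) → DelG G d → HullT G →
      10 ≤ G.P.card → G.P.card ≤ N →
      (G.D.filter (fun x => G.con x.1 x.2)).card ≤ 2 * L G.P.card)
    {P : Finset ℍ} (hP : Sep d P) (hn : 9 ≤ P.card) (hN : P.card ≤ N) :
    cd d P ≤ 2 * L P.card := by
  obtain ⟨L', hL'⟩ : ∃ L' : ℕ → ℕ, ∀ n, L' n = if n ≤ N then L n else L n + n * n :=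
    ⟨_, fun _ => rfl⟩
  have key : cd d P ≤ 2 * L' P.card := by
    obtain ⟨m, hm⟩ := Nat.exists_eq_add_of_le hn
    rw [hm]
    refine ind_gen71 hd L' 9 ?_ ?_ ?_ m P hm hP
    · intro n hn
      have h1 := hL n hn
      have h2 : n * n ≤ (n + 1) * (n + 1) := Nat.mul_le_mul (by omega) (by omega)
      rw [hL', hL']
      split_ifs <;> omega
    · intro Q hc hQ
      have := nine71 hd hQ hc
      rw [hL']
      split_ifs <;> omega
    · intro Q hc hQ hdeg
      rw [hL']
      by_cases h : Q.card ≤ N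
      · rw [if_pos h]
        obtain ⟨G, hG, hGP, hcd, hDel, hH⟩ := exists_geo4h hd ha hQ
          (Finset.card_pos.mp (by omega)) hdeg
        rw [hcd, ← hGP]
        exact hmain G hG hDel hH (by rw [hGP]; exact hc) (by rw [hGP]; exact h)
      · rw [if_neg h]
        have h1 : cd d Q ≤ Q.card * Q.card := by
          unfold cd
          rw [← Finset.card_product]
          exact Finset.card_filter_le _ _
        omega
  rw [hL', if_pos hN] at key
  exact key

/-- **Q1 for one diameter and at most `N` points**, from the structures -/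
theorem q1_of_main4h {e d : ℝ} (he : 0 < e) (ha : alpha e = 2 * Real.pi / 7) (hd : 0 < d) (N : ℕ)
    (hmain : d < e → ∀ G : Tg ℍ, G.Geo4 (alpha d) kap (Ust69 d) → DelG G d → HullT G →
      10 ≤ G.P.card → G.P.card ≤ N →
      (G.D.filter (fun x => G.con x.1 x.2)).card ≤ 2 * Lb G.P.card)
    {n : ℕ} (hn : n ≤ N) : eD d n ≤ eD e n := by
  rcases Nat.lt_or_ge n 10 with h10 | h10
  · exact q1_above he ha hd (Or.inr (by omega))
  rcases le_or_gt e d with hed | hed
  · exact q1_above he ha hd (Or.inl hed)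
  · have ha2 : 2 * Real.pi < 7 * alpha d := by
      have := alpha_anti hd hed
      rw [ha] at this
      linarith
    obtain ⟨Q, hQc, hQs, hQ⟩ := strip_Lb he ha n (by omega)
    have h2 := le_eD he hQc hQs
    have h3 := two_numEdges he Q
    refine le_trans ?_ h2
    apply eD_le
    intro P hc hP
    have h1 : cd d P ≤ 2 * Lb P.card :=
      all_gen4h hd ha2 Lb (by rw [Lb_nine71]) Lb_step N
        (fun G hG hDel hH h1 h2 => hmain hed G hG hDel hH h1 h2) hP (by omega) (by omega)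
    have h4 := two_numEdges hd P
    rw [hc] at h1
    omega

end

end Pool.Agent.PEN
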