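import Pool.Agent.PEN.B49

/-! # Half-plane identities for the hyperbolic triangle (polygon lemma, D0 and D3)

For a positively oriented triangle `p q r` the number `Wc p q r = (q - conj p)(p - r) conj(q - r)`
has real part `ori (kl p) (kl q) (kl r)` and argument `(A + B - C)/2`, the angle between the side
`p q` and the circle through `p q r`. -/

set_option autoImplicit false

namespace Pool.Agent.PEN

open Classical UpperHalfPlane

noncomputable section

/-- the direction of the base angle of the side `p q` in the triangle `p q r` -/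
def Wc (p q r : ℍ) : ℂ :=
  ((q : ℂ) - (starRingEnd ℂ) (p : ℂ)) * ((p : ℂ) - (r : ℂ)) * (starRingEnd ℂ) ((q : ℂ) - (r : ℂ))

/-- the base angle of the side `p q` in the triangle `p q r` -/
def bet (p q r : ℍ) : ℝ := Complex.arg (Wc p q r)

theorem Wc_re (p q r : ℍ) : (Wc p q r).re = ori (kl p) (kl q) (kl r) := by
  unfold Wc ori kl
  simp only [Complex.mul_re, Complex.mul_im, Complex.sub_re, Complex.sub_im, Complex.conj_re,
    Complex.conj_im, UpperHalfPlane.coe_re, UpperHalfPlane.coe_im]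
  ring

theorem Wc_im (p q r : ℍ) : (Wc p q r).im =
    (q.im + p.im) * ((p.re - r.re) * (q.re - r.re) + (p.im - r.im) * (q.im - r.im)) +
    (q.re - p.re) * ((p.im - r.im) * (q.re - r.re) - (p.re - r.re) * (q.im - r.im)) := by
  unfold Wc
  simp only [Complex.mul_re, Complex.mul_im, Complex.sub_re, Complex.sub_im, Complex.conj_re,
    Complex.conj_im, UpperHalfPlane.coe_re, UpperHalfPlane.coe_im]
  ring

theorem ori_rot71 (a b c : Pt) : ori b c a = ori a b c := by unfold ori; ring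

theorem Wc_re_rot (p q r : ℍ) : (Wc q r p).re = (Wc p q r).re := by
  rw [Wc_re, Wc_re, ori_rot71]

theorem Wc_ne {p q r : ℍ} (h : 0 < ori (kl p) (kl q) (kl r)) : Wc p q r ≠ 0 := by
  intro h0
  rw [← Wc_re, h0] at h
  exact lt_irrefl _ h

/-- `|beta| < π/2` -/
theorem bet_abs {p q r : ℍ} (h : 0 < ori (kl p) (kl q) (kl r)) :
    |bet p q r| < Real.pi / 2 := by
  rw [← Wc_re] at h
  exact Complex.abs_arg_lt_pi_div_two_iff.mpr (Or.inl h)

/-- the product of two of the numbers `Wc` has the direction of the angle -/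
theorem Wc_mul (p q r : ℍ) (hpq : p ≠ q) :
    ∃ N : ℝ, 0 ≤ N ∧ Wc p q r * Wc r p q = (N : ℂ) * (Dv p r / Dv p q) ∧ (q ≠ r → 0 < N) := by
  have hp := p.im_pos
  have hq := q.im_pos
  have hr := r.im_pos
  have n1 : (r : ℂ) - (starRingEnd ℂ) (p : ℂ) ≠ 0 := by
    intro h
    have := congrArg Complex.im h
    simp at this
    linarith
  have n2 : (q : ℂ) - (starRingEnd ℂ) (p : ℂ) ≠ 0 := by
    intro h
    have := congrArg Complex.im h
    simp at this
    linarith
  have n3 : (q : ℂ) - (p : ℂ) ≠ 0 := by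
    intro h
    exact hpq (UpperHalfPlane.ext (sub_eq_zero.mp h)).symm
  refine ⟨Complex.normSq ((q : ℂ) - (r : ℂ)) * Complex.normSq ((r : ℂ) - (starRingEnd ℂ) (p : ℂ)) *
    Complex.normSq ((q : ℂ) - (p : ℂ)), mul_nonneg (mul_nonneg (Complex.normSq_nonneg _)
      (Complex.normSq_nonneg _)) (Complex.normSq_nonneg _), ?_, ?_⟩
  · unfold Dv Wc
    push_cast
    rw [← Complex.mul_conj, ← Complex.mul_conj, ← Complex.mul_conj]
    simp only [map_sub, Complex.conj_conj]
    field_simp
    ring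
  · intro hqr
    have n4 : (q : ℂ) - (r : ℂ) ≠ 0 := by
      intro h
      exact hqr (UpperHalfPlane.ext (sub_eq_zero.mp h))
    have m1 := Complex.normSq_pos.mpr n1
    have m3 := Complex.normSq_pos.mpr n3
    have m4 := Complex.normSq_pos.mpr n4
    positivity

theorem ne_of_ori71 {p q r : ℍ} (h : 0 < ori (kl p) (kl q) (kl r)) : p ≠ q ∧ q ≠ r ∧ r ≠ p := by
  refine ⟨?_, ?_, ?_⟩ <;> rintro rfl <;> unfold ori at h <;>
    exact absurd (show (0 : ℝ) < 0 by linarith) (lt_irrefl _)

/-- the angle at `p` is the sum of the two base angles at `p` -/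
theorem ang_eq_bet {p q r : ℍ} (h : 0 < ori (kl p) (kl q) (kl r)) :
    ang p q r = bet p q r + bet r p q := by
  obtain ⟨h1, h2, h3⟩ := ne_of_ori71 h
  obtain ⟨N, _, e, hN⟩ := Wc_mul p q r h1
  have h' : 0 < ori (kl r) (kl p) (kl q) := by
    rw [ori_rot71, ori_rot71]; exact h
  have b1 := bet_abs h
  have b2 := bet_abs h'
  rw [abs_lt] at b1 b2
  have harg : Complex.arg (Wc p q r * Wc r p q) = bet p q r + bet r p q := by
    rw [Complex.arg_mul (Wc_ne h) (Wc_ne h')]
    · rfl
    · constructor <;> unfold bet at b1 b2 <;> linarith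
  rw [← harg, e, Complex.arg_real_mul _ (hN h2)]
  rfl

/-- `beta = (A + B - C) / 2` -/
theorem bet_eq {p q r : ℍ} (h : 0 < ori (kl p) (kl q) (kl r)) :
    bet p q r = (ang p q r + ang q r p - ang r p q) / 2 := by
  have e1 := ang_eq_bet h
  have h2 : 0 < ori (kl q) (kl r) (kl p) := by rw [ori_rot71]; exact h
  have h3 : 0 < ori (kl r) (kl p) (kl q) := by rw [ori_rot71]; exact h2
  have e2 := ang_eq_bet h2
  have e3 := ang_eq_bet h3
  linarith

/-- **D3**: the weak in-circle condition gives the Delaunay condition for the base angles -/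
theorem delaunay71 {p q r s : ℍ} (h : 0 < ori (kl p) (kl q) (kl r))
    (h' : 0 < ori (kl q) (kl p) (kl s))
    (hD : ori (kl p) (kl q) (kl r) * s.im ≤ ori (kl s) (kl q) (kl r) * p.im +
      ori (kl p) (kl s) (kl r) * q.im + ori (kl p) (kl q) (kl s) * r.im) :
    0 ≤ bet p q r + bet q p s := by
  have b1 := bet_abs h
  have b2 := bet_abs h'
  rw [abs_lt] at b1 b2
  have harg : Complex.arg (Wc p q r * Wc q p s) = bet p q r + bet q p s := by
    rw [Complex.arg_mul (Wc_ne h) (Wc_ne h')]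
    · rfl
    · constructor <;> unfold bet at b1 b2 <;> linarith
  rw [← harg, Complex.arg_nonneg_iff]
  have hpq := Complex.normSq_nonneg ((q : ℂ) - (starRingEnd ℂ) (p : ℂ))
  have key : (Wc p q r * Wc q p s).im =
      Complex.normSq ((q : ℂ) - (starRingEnd ℂ) (p : ℂ)) *
      (ori (kl s) (kl q) (kl r) * p.im +
      ori (kl p) (kl s) (kl r) * q.im + ori (kl p) (kl q) (kl s) * r.im -
        ori (kl p) (kl q) (kl r) * s.im) := by
    unfold Wc ori kl
    rw [Complex.normSq_apply]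
    simp only [Complex.mul_re, Complex.mul_im, Complex.sub_re, Complex.sub_im, Complex.conj_re,
      Complex.conj_im, UpperHalfPlane.coe_re, UpperHalfPlane.coe_im]
    ring
  rw [key]
  exact mul_nonneg hpq (by linarith)

/-- the norm of `Wc` -/
theorem Wc_norm (p q r : ℍ) : ‖Wc p q r‖ =
    ‖(q : ℂ) - (starRingEnd ℂ) (p : ℂ)‖ * ‖(p : ℂ) - (r : ℂ)‖ * ‖(q : ℂ) - (r : ℂ)‖ := by
  unfold Wc
  rw [norm_mul, norm_mul, Complex.norm_conj]

theorem cos_bet (p q r : ℍ) : ‖Wc p q r‖ * Real.cos (bet p q r) =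
    ori (kl p) (kl q) (kl r) := by
  rw [← Wc_re]
  exact Complex.norm_mul_cos_arg _

theorem sin_bet (p q r : ℍ) : ‖Wc p q r‖ * Real.sin (bet p q r) = (Wc p q r).im :=
  Complex.norm_mul_sin_arg _

/-- the symmetric identity of the imaginary parts -/
theorem Wc_im_sum (p q r : ℍ) : (Wc p q r).im * (Wc q r p).im + (Wc q r p).im * (Wc r p q).im +
    (Wc r p q).im * (Wc p q r).im = ori (kl p) (kl q) (kl r) ^ 2 -
      (‖(p : ℂ) - (q : ℂ)‖ * ‖(q : ℂ) - (r : ℂ)‖ * ‖(r : ℂ) - (p : ℂ)‖) ^ 2 := by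
  rw [mul_pow, mul_pow, ← Complex.normSq_eq_norm_sq, ← Complex.normSq_eq_norm_sq,
    ← Complex.normSq_eq_norm_sq, Complex.normSq_apply, Complex.normSq_apply, Complex.normSq_apply,
    Wc_im, Wc_im, Wc_im]
  unfold ori kl
  simp only [Complex.sub_re, Complex.sub_im, UpperHalfPlane.coe_re, UpperHalfPlane.coe_im]
  ring

/-- sums of two imaginary parts are positive -/
theorem Wc_im_add (p q r : ℍ) : (Wc p q r).im + (Wc r p q).im =
    2 * p.im * ((q.re - r.re) ^ 2 + (q.im - r.im) ^ 2) := by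
  rw [Wc_im, Wc_im]
  ring

/-- `|q - conj p|^2 - |q - p|^2 = 4 Im p Im q` -/
theorem norm_conj_sq71 (p q : ℍ) : ‖(q : ℂ) - (starRingEnd ℂ) (p : ℂ)‖ ^ 2 =
    ‖(q : ℂ) - (p : ℂ)‖ ^ 2 + 4 * p.im * q.im := by
  rw [← Complex.normSq_eq_norm_sq, ← Complex.normSq_eq_norm_sq, Complex.normSq_apply,
    Complex.normSq_apply]
  simp only [Complex.sub_re, Complex.sub_im, Complex.conj_re, Complex.conj_im,
    UpperHalfPlane.coe_re, UpperHalfPlane.coe_im]
  ring

end

end Pool.Agent.PEN
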